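import Pool.Agent.Lib.MP_5db4ad_nt.NumSpec

/-!
Correctness of the ball arithmetic.
-/

namespace Pool.Agent.Lib.MP_5db4ad_nt

/-- the complex number with scaled integer parts -/
noncomputable def cI (a b : ℤ) : ℂ := ⟨a / 2 ^ 64, b / 2 ^ 64⟩

/-- membership in a ball -/
def Ball.Has (x : Ball) (z : ℂ) : Prop := ‖cI x.re x.im - z‖ ≤ x.rad / 2 ^ 64

lemma nrm_spec (a b : ℤ) : ‖cI a b‖ ≤ nrm a b / 2 ^ 64 := by
  have e : nrm a b = a.natAbs + (b.natAbs - a.natAbs) +
      5 * (a.natAbs - (a.natAbs - b.natAbs)) / 12 + 1 := rfl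
  have ha : ((a.natAbs : ℝ)) ^ 2 = (a : ℝ) ^ 2 := by rw [Nat.cast_natAbs, Int.cast_abs, sq_abs]
  have hb : ((b.natAbs : ℝ)) ^ 2 = (b : ℝ) ^ 2 := by rw [Nat.cast_natAbs, Int.cast_abs, sq_abs]
  generalize a.natAbs = A at *
  generalize b.natAbs = B at *
  generalize nrm a b = n at *
  have key : A ^ 2 + B ^ 2 ≤ n ^ 2 := by
    rcases le_total A B with h | h
    · have h1 : 12 * B + 5 * A ≤ 12 * n := by omega
      nlinarith [Nat.pow_le_pow_left h1 2, Nat.mul_le_mul_left A h]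
    · have h1 : 12 * A + 5 * B ≤ 12 * n := by omega
      nlinarith [Nat.pow_le_pow_left h1 2, Nat.mul_le_mul_left B h]
  have key' : (A : ℝ) ^ 2 + (B : ℝ) ^ 2 ≤ (n : ℝ) ^ 2 := by exact_mod_cast key
  rw [Complex.norm_eq_sqrt_sq_add_sq]
  refine Real.sqrt_le_iff.2 ⟨by positivity, ?_⟩
  simp only [cI, div_pow]
  rw [← add_div]
  gcongr
  linarith

lemma ediv_err (a : ℤ) {n : ℤ} (hn : 0 < n) : |((a / n : ℤ) : ℝ) - a / n| ≤ 1 := by
  have h1 : ((a / n : ℤ) : ℝ) * n ≤ a := by exact_mod_cast Int.ediv_mul_le a hn.ne'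
  have h2 : (a : ℝ) < ((a / n : ℤ) + 1) * n := by exact_mod_cast Int.lt_ediv_add_one_mul_self a hn
  have h3 : (0 : ℝ) < n := by exact_mod_cast hn
  rw [← le_div_iff₀ h3] at h1
  rw [← div_lt_iff₀ h3] at h2
  rw [abs_le]
  constructor <;> linarith

lemma ndiv_ge (a : ℕ) {n : ℕ} (hn : 0 < n) : (a : ℝ) / n ≤ (a / n : ℕ) + 1 := by
  rw [div_le_iff₀ (by exact_mod_cast hn)]
  have := Nat.lt_mul_div_succ a hn
  rw [mul_comm] at this
  exact_mod_cast this.le

lemma cI_div (a b : ℤ) {n : ℤ} (hn : 0 < n) : ‖cI (a / n) (b / n) - cI a b / n‖ ≤ 2 / 2 ^ 64 := by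
  have key : ∀ a : ℤ, |((a / n : ℤ) : ℝ) / 2 ^ 64 - a / 2 ^ 64 / n| ≤ 1 / 2 ^ 64 := by
    intro a
    rw [div_right_comm, ← sub_div, abs_div, abs_of_pos (show (0 : ℝ) < 2 ^ 64 by positivity)]
    exact div_le_div_of_nonneg_right (ediv_err a hn) (by positivity)
  have hc : (n : ℂ) = ((n : ℝ) : ℂ) := by simp
  have := norm_le_of_parts (z := cI (a / n) (b / n) - cI a b / n) (r := 1 / 2 ^ 64)
    (by rw [Complex.sub_re, hc, Complex.div_ofReal_re]; exact key a)
    (by rw [Complex.sub_im, hc, Complex.div_ofReal_im]; exact key b)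
  linarith

lemma Ball.Has.add {x y : Ball} {z w : ℂ} (h : x.Has z) (h' : y.Has w) : (x.add y).Has (z + w) := by
  have e : cI (x.re + y.re) (x.im + y.im) = cI x.re x.im + cI y.re y.im := by
    apply Complex.ext <;> simp [cI] <;> ring
  simp only [Ball.Has, Ball.add] at *
  rw [e, add_sub_add_comm, Nat.cast_add, add_div]
  exact (norm_add_le _ _).trans (add_le_add h h')

lemma Ball.Has.mul {x y : Ball} {z w : ℂ} (h : x.Has z) (h' : y.Has w) : (x.mul y).Has (z * w) := by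
  have e : cI (x.re * y.re - x.im * y.im) (x.re * y.im + x.im * y.re) /
      (18446744073709551616 : ℤ) = cI x.re x.im * cI y.re y.im := by
    rw [div_eq_iff (by norm_num)]
    apply Complex.ext <;> simp [cI] <;> ring
  have a1 := cI_div (x.re * y.re - x.im * y.im) (x.re * y.im + x.im * y.re)
    (n := 18446744073709551616) (by norm_num)
  rw [e] at a1
  simp only [Ball.Has, Ball.mul] at *
  rw [norm_sub_rev] at h h'
  have a2 := mul_err h h' (nrm_spec x.re x.im) (nrm_spec y.re y.im)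
  rw [norm_sub_rev] at a2
  have a3 := ndiv_ge (nrm x.re x.im * y.rad + nrm y.re y.im * x.rad + x.rad * y.rad)
    (n := 18446744073709551616) (by norm_num)
  refine (norm_sub_le_norm_sub_add_norm_sub _ (cI x.re x.im * cI y.re y.im) _).trans ?_
  rw [Nat.cast_add _ 3]
  generalize (nrm x.re x.im * y.rad + nrm y.re y.im * x.rad + x.rad * y.rad) /
    18446744073709551616 = W at a3 ⊢
  push_cast at a3 ⊢
  linarith

lemma Ball.Has.divN {x : Ball} {z : ℂ} (h : x.Has z) {n : ℕ} (hn : 0 < n) :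
    (x.divN n).Has (z / n) := by
  have a1 := cI_div x.re x.im (n := n) (by exact_mod_cast hn)
  have a3 := ndiv_ge x.rad hn
  simp only [Ball.Has, Ball.divN] at *
  have a2 : ‖cI x.re x.im / n - z / n‖ ≤ x.rad / n / 2 ^ 64 := by
    rw [← sub_div, norm_div, Complex.norm_natCast, div_right_comm]
    exact div_le_div_of_nonneg_right h (by positivity)
  refine (norm_sub_le_norm_sub_add_norm_sub _ (cI x.re x.im / n) _).trans ?_
  rw [Int.cast_natCast] at a1
  rw [Nat.cast_add _ 3]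
  push_cast
  linarith

lemma Ball.Has.neg {x : Ball} {z : ℂ} (h : x.Has z) : Ball.Has ⟨-x.re, -x.im, x.rad⟩ (-z) := by
  have e : cI (-x.re) (-x.im) = -cI x.re x.im := by apply Complex.ext <;> simp [cI] <;> ring
  simp only [Ball.Has] at *
  rwa [e, neg_sub_neg, norm_sub_rev]

lemma Ball.Has.rot {x : Ball} {z : ℂ} (h : x.Has z) :
    Ball.Has ⟨x.im, -x.re, x.rad⟩ (-Complex.I * z) := by
  have e : cI x.im (-x.re) = -Complex.I * cI x.re x.im := by
    apply Complex.ext <;> simp [cI]; ring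
  simp only [Ball.Has] at *
  rwa [e, ← mul_sub, norm_mul, norm_neg, Complex.norm_I, one_mul]

lemma mkB_has {t a b r : ℕ} {z : ℂ} (h : ‖cvt t a b - z‖ ≤ r / 2 ^ 64) : (mkB t a b r).Has z := by
  have e : cI ((a : ℤ) - 295147905179352825856 * (t : ℤ)) ((b : ℤ) - 295147905179352825856 * (t : ℤ))
      = cvt t a b := by
    apply Complex.ext <;> simp [cI, cvt] <;> ring
  simp only [Ball.Has, mkB]
  rwa [e]

lemma inv_has {Y : Ball} {z : ℂ} (h : Y.Has z) (a b : ℤ) {be : ℕ} {t : Ball}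
    (ht : t = Ball.mul ⟨a, b, 0⟩ Y) (hb : be = nrm (t.re - 18446744073709551616) t.im + t.rad)
    (h2 : 2 * be ≤ 18446744073709551616) :
    z ≠ 0 ∧ Ball.Has ⟨a, b, nrm a b * be * (18446744073709551616 + 2 * be) /
      340282366920938463463374607431768211456 + 1⟩ z⁻¹ := by
  have a1 : t.Has (cI a b * z) := ht ▸ Ball.Has.mul (by simp [Ball.Has]) h
  have e : cI (t.re - 18446744073709551616) t.im = cI t.re t.im - 1 := by
    apply Complex.ext <;> simp [cI]; ring
  have a2 := nrm_spec (t.re - 18446744073709551616) t.im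
  rw [e] at a2
  set β : ℝ := be / 2 ^ 64 with hβ
  have a3 : ‖cI a b * z - 1‖ ≤ β := by
    refine (norm_sub_le_norm_sub_add_norm_sub _ (cI t.re t.im) _).trans ?_
    rw [hβ, hb, norm_sub_rev, Nat.cast_add, add_div, add_comm]
    exact add_le_add a2 a1
  have a4 : β ≤ 1 / 2 := by
    have : 2 * (be : ℝ) ≤ 18446744073709551616 := by exact_mod_cast h2
    rw [hβ]
    linarith
  have a0 : 0 ≤ β := by positivity
  have a5 : 1 - β ≤ ‖cI a b‖ * ‖z‖ := by
    have := norm_sub_norm_le (1 : ℂ) (cI a b * z)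
    rw [norm_sub_rev, norm_one, norm_mul] at this
    linarith
  have hz : z ≠ 0 := by
    rintro rfl
    simp at a5
    linarith
  refine ⟨hz, ?_⟩
  have hz' : 0 < ‖z‖ := norm_pos_iff.2 hz
  have a6 : ‖cI a b - z⁻¹‖ ≤ ‖cI a b‖ * (β * (1 + 2 * β)) := by
    rw [show cI a b - z⁻¹ = (cI a b * z - 1) / z by field_simp, norm_div, div_le_iff₀ hz']
    have : 0 ≤ β * (1 + 2 * β) := by positivity
    nlinarith [mul_le_mul_of_nonneg_right a5 this, mul_nonneg (mul_nonneg a0 a0) (sub_nonneg.2 a4)]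
  have a7 := ndiv_ge (nrm a b * be * (18446744073709551616 + 2 * be))
    (n := 340282366920938463463374607431768211456) (by norm_num)
  simp only [Ball.Has]
  refine a6.trans ((mul_le_mul_of_nonneg_right (nrm_spec a b) (by positivity)).trans ?_)
  rw [Nat.cast_add _ 1]
  generalize nrm a b * be * (18446744073709551616 + 2 * be) /
    340282366920938463463374607431768211456 = W at a7 ⊢
  rw [hβ]
  push_cast at a7 ⊢
  linarith

lemma low_has {Q : Ball} {z : ℂ} (h : Q.Has z) (eta c c0 : ℕ) :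
    (((Q.re - (Q.rad + eta * (nrm Q.re Q.im + Q.rad) / 1000000 + 1 : ℕ)) * (c : ℤ) / (c0 : ℤ) : ℤ) :
      ℝ) / 2 ^ 64 ≤ c / c0 * (z.re - eta / 1000000 * ‖z‖) := by
  rcases Nat.eq_zero_or_pos c0 with rfl | h0
  · simp
  have h0' : (0 : ℝ) < c0 := by exact_mod_cast h0
  have a1 := abs_le.1 ((Complex.abs_re_le_norm _).trans h)
  have a2 : ‖z‖ ≤ nrm Q.re Q.im / 2 ^ 64 + Q.rad / 2 ^ 64 :=
    norm_le_add (by rw [norm_sub_rev]; exact h) (nrm_spec _ _)
  have a3 := ndiv_ge (eta * (nrm Q.re Q.im + Q.rad)) (n := 1000000) (by norm_num)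
  generalize eta * (nrm Q.re Q.im + Q.rad) / 1000000 = W at a3 ⊢
  set v : ℤ := Q.re - (Q.rad + W + 1 : ℕ) with hv
  have a4 : (v : ℝ) / 2 ^ 64 ≤ z.re - eta / 1000000 * ‖z‖ := by
    have := mul_le_mul_of_nonneg_left a2 (show (0 : ℝ) ≤ eta / 1000000 by positivity)
    simp only [cI, Complex.sub_re] at a1
    rw [hv]
    push_cast at a3 ⊢
    linarith [a1.2]
  have a5 : ((v * c / c0 : ℤ) : ℝ) * c0 ≤ v * c := by
    exact_mod_cast Int.ediv_mul_le (v * c) (show (c0 : ℤ) ≠ 0 by exact_mod_cast h0.ne')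
  rw [← le_div_iff₀ h0'] at a5
  refine (div_le_div_of_nonneg_right a5 (by positivity)).trans ?_
  rw [show (v : ℝ) * c / c0 / 2 ^ 64 = c / c0 * (v / 2 ^ 64) by ring]
  exact mul_le_mul_of_nonneg_left a4 (by positivity)

end Pool.Agent.Lib.MP_5db4ad_nt
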