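import Pool.Agent.Lib.MP_5db4ad_nt.NumDefs

/-!
Evaluation for the frequencies congruent to 7 modulo 8.
-/

namespace Pool.Agent.Lib.MP_5db4ad_nt

theorem chunk3 : chunk 3401 443 288793777141333126972 312465740604064263953 3 2 8
    767268072713716743 = true := by
  decide +kernel

end Pool.Agent.Lib.MP_5db4ad_nt
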