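import Pool.Agent.Lib.MP_5db4ad_nt.S2Defs

/-! The total mass of `hh d / d`. -/

namespace Pool.Agent.Lib.MP_5db4ad_nt.S2

open Finset

namespace Eps

/-- the terms of the sum -/
noncomputable def ff (d : ℕ) : ℝ := |hh d| / d

/-- the bound for the local factor minus one -/
noncomputable def ee (n : ℕ) : ℝ := if n ≤ 1000 then 0 else 3 / ((n : ℝ) * (n - 2))

/-- the same bound restricted to the primes -/
noncomputable def uu (n : ℕ) : ℝ := if n.Prime then ee n else 0

/-- fixed point majorant -/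
def tt (n : ℕ) : ℕ :=
  if Nat.gcd n 614889782588491410 = 1 then 3 * 10 ^ 12 / (n * (n - 2)) + 1 else 0

lemma ff_nonneg (d : ℕ) : 0 ≤ ff d := div_nonneg (abs_nonneg _) (Nat.cast_nonneg _)

lemma ff_one : ff 1 = 1 := by simp [ff, hh, mf]

lemma ff_mul {m n : ℕ} (h : Nat.Coprime m n) : ff (m * n) = ff m * ff n := by
  rcases eq_or_ne m 0 with rfl | hm
  · simp [ff]
  rcases eq_or_ne n 0 with rfl | hn
  · simp [ff]
  have e : hh (m * n) = hh m * hh n := by
    simp only [hh, mf, if_neg hm, if_neg hn, if_neg (mul_ne_zero hm hn)]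
    rw [Nat.factorization_mul_of_coprime h,
      Finsupp.prod_add_index_of_disjoint h.disjoint_primeFactors]
  rw [ff, ff, ff, e, abs_mul, Nat.cast_mul, mul_div_mul_comm]

lemma ff_pow {p : ℕ} (hp : p.Prime) (a : ℕ) : ff (p ^ (a + 1)) = |hloc p (a + 1)| / p ^ (a + 1) := by
  have e : hh (p ^ (a + 1)) = hloc p (a + 1) := by
    simp only [hh, mf, if_neg (pow_ne_zero (a + 1) hp.ne_zero)]
    rw [hp.factorization_pow, Finsupp.prod, Finsupp.support_single _ (Nat.succ_ne_zero a),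
      Finset.prod_singleton, Finsupp.single_eq_same]
  rw [ff, e, Nat.cast_pow]

lemma lin_le (a : ℕ) : 3 * ((a : ℝ) + 2) + 5 ≤ 11 * 2 ^ a := by
  induction a with
  | zero => norm_num
  | succ a ih =>
    have h : (1 : ℝ) ≤ 2 ^ a := one_le_pow₀ one_le_two
    rw [pow_succ]
    push_cast
    linarith

lemma hloc_one (p : ℕ) : hloc p 1 = 0 := by
  unfold hloc
  split_ifs <;> norm_num

lemma abs_hloc (p a : ℕ) : |hloc p (a + 2)| ≤ 3 * 2 ^ a := by
  unfold hloc
  split_ifs
  · rw [abs_zero]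
    positivity
  · have h1 := lin_le a
    have h2 : |(-2 : ℝ) ^ (a + 2)| = 4 * 2 ^ a := by
      rw [abs_pow, abs_neg, abs_two, pow_add]
      ring
    have h3 := le_abs_self ((-2 : ℝ) ^ (a + 2))
    have h4 := neg_abs_le ((-2 : ℝ) ^ (a + 2))
    have h5 : (0 : ℝ) ≤ a := Nat.cast_nonneg a
    have h6 : (0 : ℝ) ≤ 2 ^ a := by positivity
    rw [abs_le]
    push_cast
    constructor <;> linarith

lemma ee_nonneg (n : ℕ) : 0 ≤ ee n := by
  unfold ee
  split_ifs with h
  · exact le_rfl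
  · have h1 : (1000 : ℝ) < n := by exact_mod_cast not_le.1 h
    exact div_nonneg (by norm_num) (mul_nonneg (by linarith) (by linarith))

lemma loc {p : ℕ} (hp : p.Prime) :
    (Summable fun a : ℕ => ff (p ^ a)) ∧ ∑' a : ℕ, ff (p ^ a) ≤ 1 + ee p := by
  have key : ∃ g : ℕ → ℝ, HasSum g (ee p) ∧ ∀ a, ff (p ^ (a + 2)) ≤ g a := by
    by_cases h : p ≤ 1000
    · refine ⟨fun _ => 0, by simp [ee, h, hasSum_zero], fun a => ?_⟩
      rw [ff_pow hp (a + 1)]
      simp [hloc, h]
    · have h1 : (1000 : ℝ) < p := by exact_mod_cast not_le.1 h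
      have h0 : (0 : ℝ) < p := by linarith
      have h2 : (2 : ℝ) / p < 1 := by
        rw [div_lt_one h0]
        linarith
      refine ⟨fun a => 3 / p ^ 2 * (2 / p) ^ a, ?_, fun a => ?_⟩
      · have h3 := (hasSum_geometric_of_lt_one (by positivity) h2).mul_left (3 / (p : ℝ) ^ 2)
        have h4 : (p : ℝ) - 2 ≠ 0 := by linarith
        have e : ee p = 3 / (p : ℝ) ^ 2 * (1 - 2 / (p : ℝ))⁻¹ := by
          rw [ee, if_neg h]
          field_simp
        rwa [e]
      · rw [ff_pow hp (a + 1)]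
        calc |hloc p (a + 1 + 1)| / (p : ℝ) ^ (a + 1 + 1) ≤ 3 * 2 ^ a / (p : ℝ) ^ (a + 1 + 1) :=
              div_le_div_of_nonneg_right (abs_hloc p a) (by positivity)
          _ = 3 / p ^ 2 * (2 / p) ^ a := by
              rw [div_pow]
              field_simp
              ring
  obtain ⟨g, hg, h⟩ := key
  have h1 : Summable fun a : ℕ => ff (p ^ (a + 2)) :=
    Summable.of_nonneg_of_le (fun _ => ff_nonneg _) h hg.summable
  have h2 : Summable fun a : ℕ => ff (p ^ a) := (summable_nat_add_iff 2).1 h1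
  refine ⟨h2, ?_⟩
  have h3 : ff (p ^ 1) = 0 := by
    rw [ff_pow hp 0, hloc_one, abs_zero, zero_div]
  rw [← h2.sum_add_tsum_nat_add 2, Finset.sum_range_succ, Finset.sum_range_one, pow_zero, ff_one,
    h3, add_zero, ← hg.tsum_eq]
  exact add_le_add_right (h1.tsum_le_tsum h hg.summable) 1

lemma uu_le_tt {n : ℕ} (h : 1000 < n) : uu n ≤ (tt n : ℝ) / 10 ^ 12 := by
  unfold uu
  split_ifs with hp
  · have hc : Nat.gcd n 614889782588491410 = 1 := by
      refine (Nat.Prime.coprime_iff_not_dvd hp).2 fun hd => ?_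
      have e : 614889782588491410 = 30 * (7 * 11 * (13 * 17 * (19 * 23 * (29 * 31 *
        (37 * (41 * (43 * 47))))))) := by norm_num
      rw [e] at hd
      simp only [hp.dvd_mul] at hd
      have hl : ∀ k : ℕ, 0 < k → k ≤ 1000 → ¬ n ∣ k := fun k h0 h1 h2 => by
        have := Nat.le_of_dvd h0 h2
        omega
      rcases hd with hd | (hd | hd) | (hd | hd) | (hd | hd) | (hd | hd) | hd | hd | hd | hd <;>
        exact hl _ (by norm_num) (by norm_num) hd
    have h0 : 0 < n * (n - 2) := Nat.mul_pos (by omega) (by omega)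
    have h1 : 3 * 10 ^ 12 < n * (n - 2) * (3 * 10 ^ 12 / (n * (n - 2)) + 1) :=
      Nat.lt_mul_div_succ _ h0
    have h2 : (3 * 10 ^ 12 : ℝ) < n * (n - 2) * (tt n : ℝ) := by
      rw [tt, if_pos hc]
      have h3 : ((n - 2 : ℕ) : ℝ) = n - 2 := by
        rw [Nat.cast_sub (by omega)]
        norm_num
      rw [← h3]
      exact_mod_cast h1
    have h4 : (1000 : ℝ) < n := by exact_mod_cast h
    have h5 : (0 : ℝ) < n * (n - 2) := mul_pos (by linarith) (by linarith)
    rw [ee, if_neg (by omega), div_le_div_iff₀ h5 (by positivity)]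
    linarith
  · positivity

lemma blocks (t : ℕ → ℕ) (m : ℕ) :
    ∑ n ∈ range (100 * m), t n = ∑ i ∈ range m, ∑ j ∈ range 100, t (100 * i + j) := by
  induction m with
  | zero => simp
  | succ m ih => rw [Nat.mul_succ, Finset.sum_range_add, ih, Finset.sum_range_succ _ m]

lemma num : ∑ i ∈ range 200, ∑ j ∈ range 100, tt (1001 + (100 * i + j)) ≤ 384900000 := by
  decide +kernel

lemma head : ∑ n ∈ range 21001, uu n ≤ 0.0003849 := by
  have h1 : ∑ n ∈ range 1001, uu n = 0 := Finset.sum_eq_zero fun n hn => by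
    have h : n ≤ 1000 := Nat.lt_succ_iff.1 (Finset.mem_range.1 hn)
    simp [uu, ee, h]
  have h2 : ∑ n ∈ range (100 * 200), tt (1001 + n) ≤ 384900000 :=
    (blocks (fun n => tt (1001 + n)) 200).trans_le num
  have h3 : ∑ n ∈ range (100 * 200), (tt (1001 + n) : ℝ) ≤ 384900000 := by exact_mod_cast h2
  rw [show 21001 = 1001 + 100 * 200 from rfl, Finset.sum_range_add, h1, zero_add]
  calc ∑ n ∈ range (100 * 200), uu (1001 + n)
      ≤ ∑ n ∈ range (100 * 200), (tt (1001 + n) : ℝ) / 10 ^ 12 :=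
        Finset.sum_le_sum fun n _ => uu_le_tt (by omega)
    _ = (∑ n ∈ range (100 * 200), (tt (1001 + n) : ℝ)) / 10 ^ 12 := (Finset.sum_div _ _ _).symm
    _ ≤ 384900000 / 10 ^ 12 := div_le_div_of_nonneg_right h3 (by positivity)
    _ = 0.0003849 := by norm_num

lemma uu_nonneg (n : ℕ) : 0 ≤ uu n := by
  unfold uu
  split_ifs
  · exact ee_nonneg n
  · exact le_rfl

lemma uu_le (n : ℕ) : uu n ≤ ee n := by
  unfold uu
  split_ifs
  · exact le_rfl
  · exact ee_nonneg n

lemma tail {N : ℕ} (h : 21001 ≤ N) :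
    ∑ n ∈ range N, uu n ≤ 0.0003849 + 3 / 20999 - 3 / ((N : ℝ) - 2) := by
  induction N, h using Nat.le_induction with
  | base =>
    have := head
    norm_num at this ⊢
    linarith
  | succ N h ih =>
    have h1 : (21001 : ℝ) ≤ N := by exact_mod_cast h
    have h2 : uu N ≤ 3 / ((N : ℝ) - 2) - 3 / ((N : ℝ) + 1 - 2) := by
      refine (uu_le N).trans ?_
      have a1 : (0 : ℝ) < N - 2 := by linarith
      have a2 : (0 : ℝ) < N + 1 - 2 := by linarith
      have a3 : (0 : ℝ) < N := by linarith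
      rw [ee, if_neg (by omega), div_sub_div _ _ a1.ne' a2.ne',
        div_le_div_iff₀ (mul_pos a3 a1) (mul_pos a1 a2)]
      nlinarith
    rw [Finset.sum_range_succ]
    push_cast
    linarith

lemma total (N : ℕ) : ∑ p ∈ N.primesBelow, ee p ≤ 0.000528 := by
  have h1 : ∑ p ∈ N.primesBelow, ee p = ∑ n ∈ range N, uu n := by
    rw [Nat.primesBelow, Finset.sum_filter]
    rfl
  have h2 : ∑ n ∈ range N, uu n ≤ ∑ n ∈ range (N + 21001), uu n :=
    Finset.sum_le_sum_of_subset_of_nonneg (Finset.range_mono (Nat.le_add_right _ _))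
      fun n _ _ => uu_nonneg n
  have h3 := tail (Nat.le_add_left 21001 N)
  have h4 : (0 : ℝ) ≤ 3 / (((N + 21001 : ℕ) : ℝ) - 2) := by
    have h5 : (0 : ℝ) ≤ N := Nat.cast_nonneg N
    push_cast
    exact div_nonneg (by norm_num) (by linarith)
  have h6 : (0.0003849 : ℝ) + 3 / 20999 ≤ 0.000528 := by norm_num
  linarith

end Eps

open Eps in
theorem eps : StEps := by
  intro F
  classical
  obtain ⟨N, hN⟩ : ∃ N : ℕ, ∀ d ∈ F, d < N :=
    ⟨F.sup id + 1, fun d hd => Nat.lt_succ_of_le (Finset.le_sup (f := id) hd)⟩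
  have h1 := (EulerProduct.summable_and_hasSum_smoothNumbers_prod_primesBelow_tsum ff_one
    (fun h => ff_mul h) (fun hp => (loc hp).1.norm) N).2
  have h2 : ∑ d ∈ F, ff d = ∑ d ∈ F.subtype (· ∈ N.smoothNumbers), ff d := by
    rw [Finset.sum_subtype_eq_sum_filter, Finset.sum_filter_of_ne]
    intro d hd h0
    refine Nat.mem_smoothNumbers_of_lt (Nat.pos_of_ne_zero ?_) (hN d hd)
    rintro rfl
    exact h0 (by simp [ff])
  calc ∑ d ∈ F, |hh d| / d = ∑ d ∈ F.subtype (· ∈ N.smoothNumbers), ff d := h2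
    _ ≤ ∏ p ∈ N.primesBelow, ∑' a : ℕ, ff (p ^ a) :=
        sum_le_hasSum _ (fun _ _ => ff_nonneg _) h1
    _ ≤ ∏ p ∈ N.primesBelow, (1 + ee p) :=
        Finset.prod_le_prod (fun _ _ => tsum_nonneg fun _ => ff_nonneg _)
          fun p hp => (loc (Nat.prime_of_mem_primesBelow hp)).2
    _ ≤ Real.exp (∑ p ∈ N.primesBelow, ee p) := Real.prod_one_add_le_exp_sum _ ee_nonneg
    _ ≤ Real.exp 0.000528 := Real.exp_le_exp.2 (total N)
    _ ≤ 1 / (1 - 0.000528) := Real.exp_bound_div_one_sub_of_interval (by norm_num) (by norm_num)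
    _ ≤ 1.00055 := by norm_num

end Pool.Agent.Lib.MP_5db4ad_nt.S2
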