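import Pool.Agent.Lib.MP_5db4ad_nt.S2Defs

/-!
The bound for `Gf` in a small rectangle, from the lower bound for zeta.
-/

namespace Pool.Agent.Lib.MP_5db4ad_nt.S2

open Finset Filter
open scoped Real

namespace S2M

lemma step {a b δ : ℝ} (ha : 0 < a) (hab : a ≤ b) (hδ : 0 < δ) :
    (b - a) * b ^ (-(1 + δ)) ≤ (a ^ (-δ) - b ^ (-δ)) / δ := by
  have hb : 0 < b := ha.trans_le hab
  have h1 : a ^ (-δ) = b ^ (-δ) * Real.exp (-δ * Real.log (a / b)) := by
    rw [Real.rpow_def_of_pos ha, Real.rpow_def_of_pos hb, ← Real.exp_add, Real.log_div ha.ne' hb.ne']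
    congr 1
    ring
  have h2 : Real.log (a / b) ≤ a / b - 1 := Real.log_le_sub_one_of_pos (div_pos ha hb)
  have h3 : 1 + δ * (1 - a / b) ≤ Real.exp (-δ * Real.log (a / b)) := by
    have := Real.add_one_le_exp (-δ * Real.log (a / b))
    nlinarith
  have h4 : b ^ (-(1 + δ)) = b ^ (-δ) / b := by
    rw [neg_add, Real.rpow_add hb, Real.rpow_neg_one]
    ring
  have h5 : 0 < b ^ (-δ) := Real.rpow_pos_of_pos hb _
  have h6 := mul_le_mul_of_nonneg_left h3 h5.le
  have h7 : (b - a) * (b ^ (-δ) / b) * δ = b ^ (-δ) * (δ * (1 - a / b)) := by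
    field_simp
  rw [le_div_iff₀ hδ, h4, h7, h1]
  linarith

/-- the terms of the majorant -/
noncomputable def ff (δ : ℝ) (n : ℕ) : ℝ := if Nat.Coprime n 6 then (n : ℝ) ^ (-(1 + δ)) else 0

lemma ff_nonneg (δ : ℝ) (n : ℕ) : 0 ≤ ff δ n := by
  unfold ff
  split_ifs
  · positivity
  · exact le_rfl

lemma ff_le (δ : ℝ) (n : ℕ) : ff δ n ≤ (n : ℝ) ^ (-(1 + δ)) := by
  unfold ff
  split_ifs
  · exact le_rfl
  · positivity

lemma ff_zero (δ : ℝ) {n : ℕ} (h : 2 ∣ n ∨ 3 ∣ n) : ff δ n = 0 := by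
  unfold ff
  rw [if_neg]
  intro hc
  rcases h with h | h
  · have := Nat.eq_one_of_dvd_coprimes hc h (by norm_num)
    omega
  · have := Nat.eq_one_of_dvd_coprimes hc h (by norm_num)
    omega

lemma sum_ff {δ : ℝ} (hδ : 0 < δ) (K : ℕ) :
    ∑ n ∈ range (6 * K + 2), ff δ n ≤ 1 + (1 - (6 * K + 1 : ℝ) ^ (-δ)) / (3 * δ) := by
  induction K with
  | zero =>
    have := ff_le δ 1
    simp only [Nat.cast_one, Real.one_rpow] at this
    simp [sum_range_succ, ff_zero δ (n := 0) (by simp), this]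
  | succ K ih =>
    have e : 6 * (K + 1) + 2 = 6 * K + 2 + 1 + 1 + 1 + 1 + 1 + 1 := by ring
    have hK : (0 : ℝ) ≤ K := Nat.cast_nonneg K
    rw [e]
    simp only [sum_range_succ _ (_ + 1 + 1)]
    rw [ff_zero δ (n := 6 * K + 2) (by omega), ff_zero δ (n := 6 * K + 2 + 1) (by omega),
      ff_zero δ (n := 6 * K + 2 + 1 + 1) (by omega),
      ff_zero δ (n := 6 * K + 2 + 1 + 1 + 1 + 1) (by omega)]
    have a1 := ff_le δ (6 * K + 2 + 1 + 1 + 1)
    have a2 := ff_le δ (6 * K + 2 + 1 + 1 + 1 + 1 + 1)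
    have a3 : ((6 * K + 2 + 1 + 1 + 1 : ℕ) : ℝ) ^ (-(1 + δ)) ≤ (6 * K + 4 : ℝ) ^ (-(1 + δ)) := by
      refine Real.rpow_le_rpow_of_nonpos (by linarith) ?_ (by linarith)
      push_cast
      linarith
    have a4 : ((6 * K + 2 + 1 + 1 + 1 + 1 + 1 : ℕ) : ℝ) = 6 * K + 7 := by
      push_cast
      ring
    have a5 : (6 * ((K + 1 : ℕ) : ℝ) + 1) = 6 * K + 7 := by
      push_cast
      ring
    have s1 := step (a := 6 * K + 1) (b := 6 * K + 4) (by linarith) (by linarith) hδ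
    have s2 := step (a := 6 * K + 4) (b := 6 * K + 7) (by linarith) (by linarith) hδ
    rw [a4] at a2
    rw [a5]
    have e1 : ∀ x : ℝ, (1 - x) / (3 * δ) = (1 / δ - x / δ) / 3 := fun x => by field_simp
    rw [e1] at ih ⊢
    rw [sub_div] at s1 s2
    linarith

lemma sum_ff' {δ : ℝ} (hδ : 0 < δ) (N : ℕ) : ∑ n ∈ range N, ff δ n ≤ 1 + 1 / (3 * δ) := by
  refine (sum_le_sum_of_subset_of_nonneg (range_subset_range.mpr (by omega : N ≤ 6 * N + 2))
    fun n _ _ => ff_nonneg δ n).trans ((sum_ff hδ N).trans ?_)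
  have : (0 : ℝ) ≤ (6 * N + 1 : ℝ) ^ (-δ) := by positivity
  gcongr
  linarith

/-- lower bound to the right of the line `re s = 1` -/
lemma inv_bound {δ : ℝ} (hδ : 0 < δ) {s : ℂ} (hs : s.re = 1 + δ) :
    1 ≤ ‖riemannZeta s‖ * ‖1 - (2 : ℂ) ^ (-s)‖ * ‖1 - (3 : ℂ) ^ (-s)‖ * (1 + 1 / (3 * δ)) := by
  have h1 : 1 < s.re := by linarith
  have hs1 : s ≠ 1 := fun h => by simp [h] at h1
  have e1 := DirichletCharacter.LSeries.mul_mu_eq_one (1 : DirichletCharacter ℂ 6) h1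
  have e2 := DirichletCharacter.LFunctionTrivChar_eq_mul_riemannZeta (N := 6) hs1
  have e3 := DirichletCharacter.LFunction_eq_LSeries (1 : DirichletCharacter ℂ 6) h1
  have e4 : Nat.primeFactors 6 = {2, 3} := by
    rw [show 6 = 2 * 3 from rfl, Nat.primeFactors_mul (by norm_num) (by norm_num),
      Nat.prime_two.primeFactors, Nat.prime_three.primeFactors]
    rfl
  rw [e4, prod_pair (by norm_num)] at e2
  rw [← e3, show (1 : DirichletCharacter ℂ 6).LFunction =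
    DirichletCharacter.LFunctionTrivChar 6 from rfl, e2] at e1
  have hsum : Summable (ff δ) := summable_of_sum_range_le (ff_nonneg δ) (sum_ff' hδ)
  have hb : ‖LSeries ((fun n : ℕ => (1 : DirichletCharacter ℂ 6) n) *
      fun n : ℕ => ((ArithmeticFunction.moebius n : ℤ) : ℂ)) s‖ ≤ 1 + 1 / (3 * δ) := by
    refine (tsum_of_norm_bounded hsum.hasSum fun n => ?_).trans
      (hsum.tsum_le_of_sum_range_le (sum_ff' hδ))
    rw [LSeries.norm_term_eq]
    split_ifs with hn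
    · exact ff_nonneg δ n
    · have hn0 : (0 : ℝ) < n := by exact_mod_cast Nat.pos_of_ne_zero hn
      by_cases hc : Nat.Coprime n 6
      · unfold ff
        rw [if_pos hc, Real.rpow_neg hn0.le, hs, ← one_div]
        refine div_le_div_of_nonneg_right ?_ (by positivity)
        rw [Pi.mul_apply, norm_mul]
        refine mul_le_one₀ (DirichletCharacter.norm_le_one _ _) (norm_nonneg _) ?_
        rw [Complex.norm_intCast]
        exact_mod_cast ArithmeticFunction.abs_moebius_le_one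
      · rw [Pi.mul_apply, MulChar.map_nonunit _ (by rwa [ZMod.isUnit_iff_coprime])]
        simpa using ff_nonneg δ n
  have e5 := congrArg norm e1
  rw [norm_one, norm_mul, norm_mul, norm_mul] at e5
  push_cast at e5
  have := mul_le_mul_of_nonneg_left hb (by positivity :
    0 ≤ ‖1 - (2 : ℂ) ^ (-s)‖ * ‖1 - (3 : ℂ) ^ (-s)‖ * ‖riemannZeta s‖)
  linarith

lemma root_le {p u : ℝ} (hp : 1 ≤ p) (hu : 0 ≤ u) (h : p ≤ u ^ 39) {e : ℝ} (he : e ≤ 1 / 39) :
    p ^ e ≤ u := by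
  refine (Real.rpow_le_rpow_of_exponent_le hp he).trans ?_
  refine (Real.rpow_le_rpow (by linarith) h (by norm_num)).trans (le_of_eq ?_)
  have := Real.pow_rpow_inv_natCast hu (n := 39) (by norm_num)
  rwa [one_div]

lemma up {p u σ : ℝ} (hp : 1 ≤ p) (hu : 0 ≤ u) (h : p ≤ u ^ 39) (hσ : 1 - 1 / 39 ≤ σ) :
    p ^ (-σ) ≤ u / p := by
  have hp0 : 0 < p := by linarith
  have e : p ^ (-σ) = p ^ (1 - σ) / p := by
    rw [← Real.rpow_sub_one hp0.ne']
    congr 1
    ring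
  rw [e]
  exact div_le_div_of_nonneg_right (root_le hp hu h (by linarith)) hp0.le

lemma down {p u σ : ℝ} (hp : 1 ≤ p) (hu : 0 < u) (h : p ≤ u ^ 39) (hσ : σ ≤ 1 + 1 / 39) :
    1 / (p * u) ≤ p ^ (-σ) := by
  have hp0 : 0 < p := by linarith
  have e : p ^ (-σ) = 1 / (p * p ^ (σ - 1)) := by
    rw [Real.rpow_sub_one hp0.ne', Real.rpow_neg hp0.le]
    field_simp
  rw [e]
  refine one_div_le_one_div_of_le (by positivity) ?_
  exact mul_le_mul_of_nonneg_left (root_le hp hu.le h (by linarith)) hp0.le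

lemma norm_cp {p : ℕ} (hp : 0 < p) (σ τ : ℝ) :
    ‖(p : ℂ) ^ (-((σ : ℂ) + τ * Complex.I))‖ = (p : ℝ) ^ (-σ) := by
  rw [Complex.norm_natCast_cpow_of_pos hp]
  simp

/-- comparison of the Euler factors at two points of a horizontal line -/
lemma ratio {p : ℕ} (hp : 1 ≤ p) {σ σ' τ U W r : ℝ} (h : σ ≤ σ') (hU : (p : ℝ) ^ (-σ) ≤ U)
    (hW : W ≤ (p : ℝ) ^ (-σ')) (hr : 0 ≤ r) (hUW : U - W ≤ r * (1 - U)) :
    1 - U ≤ ‖1 - (p : ℂ) ^ (-((σ : ℂ) + τ * Complex.I))‖ ∧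
    ‖1 - (p : ℂ) ^ (-((σ' : ℂ) + τ * Complex.I))‖ ≤
      (1 + r) * ‖1 - (p : ℂ) ^ (-((σ : ℂ) + τ * Complex.I))‖ := by
  have hp1 : (1 : ℝ) ≤ p := by exact_mod_cast hp
  have hp0 : (0 : ℝ) < p := by linarith
  have hpc : (p : ℂ) ≠ 0 := by exact_mod_cast hp0.ne'
  have hn := norm_cp hp σ τ
  set x := (p : ℂ) ^ (-((σ : ℂ) + τ * Complex.I)) with hx
  set l : ℝ := (p : ℝ) ^ (σ - σ') with hl
  have hl1 : l ≤ 1 := Real.rpow_le_one_of_one_le_of_nonpos hp1 (by linarith)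
  have e1 : (p : ℂ) ^ (-((σ' : ℂ) + τ * Complex.I)) = l * x := by
    rw [hl, hx, Complex.ofReal_cpow hp0.le, Complex.ofReal_natCast, ← Complex.cpow_add _ _ hpc]
    congr 1
    push_cast
    ring
  have e2 : (p : ℝ) ^ (-σ') = l * (p : ℝ) ^ (-σ) := by
    rw [hl, ← Real.rpow_add hp0]
    congr 1
    ring
  have a1 : 1 - U ≤ ‖1 - x‖ := by
    have := norm_sub_norm_le (1 : ℂ) x
    rw [norm_one, hn] at this
    linarith
  refine ⟨a1, ?_⟩
  have e3 : 1 - (l : ℂ) * x = (1 - x) + ((1 - l : ℝ) : ℂ) * x := by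
    push_cast
    ring
  have a2 := norm_add_le (1 - x) (((1 - l : ℝ) : ℂ) * x)
  rw [← e3, norm_mul, Complex.norm_real, Real.norm_of_nonneg (by linarith), hn] at a2
  have a3 := mul_le_mul_of_nonneg_left a1 hr
  rw [e1]
  linarith

lemma one_sub_sum_le {ι : Type} (s : Finset ι) (e g : ι → ℝ) (h0 : ∀ i ∈ s, 0 ≤ e i)
    (h : ∀ i ∈ s, 1 - e i ≤ g i) (h1 : ∑ i ∈ s, e i ≤ 1) : 1 - ∑ i ∈ s, e i ≤ ∏ i ∈ s, g i := by
  classical
  induction s using Finset.induction_on with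
  | empty => simp
  | insert a s ha ih =>
    rw [sum_insert ha] at h1 ⊢
    rw [prod_insert ha]
    have b0 := h0 a (mem_insert_self _ _)
    have b1 := h a (mem_insert_self _ _)
    have b2 : 0 ≤ ∑ i ∈ s, e i := sum_nonneg fun i hi => h0 i (mem_insert_of_mem hi)
    have b3 := ih (fun i hi => h0 i (mem_insert_of_mem hi)) (fun i hi => h i (mem_insert_of_mem hi))
      (by linarith)
    have b4 : (1 - e a) * (1 - ∑ i ∈ s, e i) ≤ g a * ∏ i ∈ s, g i :=
      mul_le_mul b1 b3 (by linarith) (by linarith)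
    nlinarith

lemma factor {p : ℕ} (hp : 1 ≤ p) {σ τ y : ℝ} (hy : (p : ℝ) ^ (-σ) ≤ y) :
    1 - (3 * y ^ 2 + 2 * y ^ 3) ≤ ‖1 - 3 * (p : ℂ) ^ (-(2 * ((σ : ℂ) + τ * Complex.I))) +
      2 * (p : ℂ) ^ (-(3 * ((σ : ℂ) + τ * Complex.I)))‖ := by
  have hn := norm_cp hp σ τ
  have e2 : (p : ℂ) ^ (-(2 * ((σ : ℂ) + τ * Complex.I))) =
      ((p : ℂ) ^ (-((σ : ℂ) + τ * Complex.I))) ^ 2 := by
    rw [← Complex.cpow_ofNat_mul]
    congr 1
    ring
  have e3 : (p : ℂ) ^ (-(3 * ((σ : ℂ) + τ * Complex.I))) =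
      ((p : ℂ) ^ (-((σ : ℂ) + τ * Complex.I))) ^ 3 := by
    rw [← Complex.cpow_ofNat_mul]
    congr 1
    ring
  rw [e2, e3]
  generalize (p : ℂ) ^ (-((σ : ℂ) + τ * Complex.I)) = x at hn
  rw [← hn] at hy
  have a1 := norm_sub_norm_le (1 : ℂ) (3 * x ^ 2 - 2 * x ^ 3)
  have a2 := norm_sub_le (3 * x ^ 2) (2 * x ^ 3)
  have e : 1 - (3 * x ^ 2 - 2 * x ^ 3) = 1 - 3 * x ^ 2 + 2 * x ^ 3 := by ring
  rw [e, norm_one] at a1
  simp only [norm_mul, norm_pow, Complex.norm_ofNat] at a2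
  have a3 := pow_le_pow_left₀ (norm_nonneg x) hy 2
  have a4 := pow_le_pow_left₀ (norm_nonneg x) hy 3
  linarith

lemma fin_sum : ∑ n ∈ (Icc 11 1000).filter (fun n => Nat.gcd n 210 = 1),
    ((4277 * n + 3405) * 10 ^ 6 / n ^ 3 + 1) ≤ 141000000 := by decide +kernel

lemma rest_sum : ∑ p ∈ (Icc 11 1000).filter Nat.Prime,
    (3 * ((1.194 : ℝ) / p) ^ 2 + 2 * (1.194 / p) ^ 3) ≤ 0.141 := by
  have h1 : (Icc 11 1000).filter Nat.Prime ⊆
      (Icc 11 1000).filter (fun n => Nat.gcd n 210 = 1) := by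
    intro p hp
    rw [mem_filter] at hp ⊢
    refine ⟨hp.1, (Nat.Prime.coprime_iff_not_dvd hp.2).mpr fun hd => ?_⟩
    have h11 := (mem_Icc.mp hp.1).1
    have : p ∈ Nat.primeFactors (2 * 3 * 5 * 7) := by
      rw [Nat.mem_primeFactors]
      exact ⟨hp.2, hd, by norm_num⟩
    rw [Nat.primeFactors_mul (by norm_num) (by norm_num),
      Nat.primeFactors_mul (by norm_num) (by norm_num),
      Nat.primeFactors_mul (by norm_num) (by norm_num), Nat.prime_two.primeFactors,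
      Nat.prime_three.primeFactors, Nat.prime_five.primeFactors,
      Nat.prime_seven.primeFactors] at this
    simp only [mem_union, mem_singleton] at this
    omega
  refine (sum_le_sum_of_subset_of_nonneg h1 fun n _ _ => by positivity).trans ?_
  have h2 : ((∑ n ∈ (Icc 11 1000).filter (fun n => Nat.gcd n 210 = 1),
      ((4277 * n + 3405) * 10 ^ 6 / n ^ 3 + 1) : ℕ) : ℝ) ≤ 141000000 := by
    exact_mod_cast fin_sum
  rw [Nat.cast_sum] at h2
  refine le_trans (sum_le_sum (g := fun n : ℕ =>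
    (((4277 * n + 3405) * 10 ^ 6 / n ^ 3 + 1 : ℕ) : ℝ) / 10 ^ 9) fun n hn => ?_) ?_
  · have h11 := (mem_Icc.mp (mem_filter.mp hn).1).1
    have hn0 : 0 < n ^ 3 := by positivity
    have hn1 : (0 : ℝ) < n := by exact_mod_cast (by omega : 0 < n)
    have a1 : (4277 * n + 3405) * 10 ^ 6 ≤ ((4277 * n + 3405) * 10 ^ 6 / n ^ 3 + 1) * n ^ 3 := by
      rw [mul_comm _ (n ^ 3)]
      exact (Nat.lt_mul_div_succ _ hn0).le
    generalize (4277 * n + 3405) * 10 ^ 6 / n ^ 3 + 1 = w at a1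
    have a2 : ((4277 : ℝ) * n + 3405) * 10 ^ 6 ≤ w * n ^ 3 := by exact_mod_cast a1
    have e : 3 * ((1.194 : ℝ) / n) ^ 2 + 2 * (1.194 / n) ^ 3 =
        (3 * 1.194 ^ 2 * n + 2 * 1.194 ^ 3) / n ^ 3 := by
      field_simp
    rw [e, div_le_div_iff₀ (by positivity) (by positivity)]
    nlinarith
  · rw [← sum_div, div_le_iff₀ (by positivity)]
    linarith

lemma primes_eq : (Icc 5 1000).filter Nat.Prime =
    insert 5 (insert 7 ((Icc 11 1000).filter Nat.Prime)) := by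
  ext p
  simp only [mem_filter, mem_Icc, mem_insert]
  constructor
  · rintro ⟨⟨h1, h2⟩, hp⟩
    by_cases h : 11 ≤ p
    · exact Or.inr (Or.inr ⟨⟨h, h2⟩, hp⟩)
    · have h' : p < 11 := not_le.mp h
      interval_cases p <;> first
        | exact Or.inl rfl | exact Or.inr (Or.inl rfl) | exact absurd hp (by norm_num)
  · rintro (rfl | rfl | ⟨⟨h1, h2⟩, hp⟩)
    · norm_num
    · norm_num
    · exact ⟨⟨by omega, h2⟩, hp⟩

lemma Df_ge {σ : ℝ} (τ : ℝ) (hσ : 1 - 1 / 39 ≤ σ) : 0.676 ≤ ‖Df (σ + τ * Complex.I)‖ := by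
  unfold Df
  rw [primes_eq, prod_insert (by simp), prod_insert (by simp), norm_mul, norm_mul, norm_prod]
  have a5 := factor (p := 5) (τ := τ) (by norm_num)
    (up (u := 1.0422) (by norm_num) (by norm_num) (by norm_num) hσ)
  have a7 := factor (p := 7) (τ := τ) (by norm_num)
    (up (u := 1.0512) (by norm_num) (by norm_num) (by norm_num) hσ)
  have ar := one_sub_sum_le ((Icc 11 1000).filter Nat.Prime)
    (fun p : ℕ => 3 * ((1.194 : ℝ) / p) ^ 2 + 2 * (1.194 / p) ^ 3) _ (fun p _ => by positivity)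
    (fun p hp => by
      obtain ⟨h1, h2⟩ := mem_Icc.mp (mem_filter.mp hp).1
      have h3 : (p : ℝ) ≤ 1000 := by exact_mod_cast h2
      exact factor (p := p) (τ := τ) (by omega) (up (u := 1.194)
        (by exact_mod_cast (by omega : 1 ≤ p)) (by norm_num) (h3.trans (by norm_num)) hσ))
    (rest_sum.trans (by norm_num))
  have hr := rest_sum
  refine le_trans (b := 0.8515 * (0.9255 * 0.859)) (by norm_num) ?_
  refine mul_le_mul (le_trans (by norm_num) a5)
    (mul_le_mul (le_trans (by norm_num) a7) (by linarith) (by norm_num) (norm_nonneg _))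
    (by norm_num) (norm_nonneg _)

lemma Df_diff (s : ℂ) : DifferentiableAt ℂ Df s := by
  unfold Df
  refine DifferentiableAt.fun_finsetProd fun p hp => ?_
  have h : (p : ℂ) ≠ 0 := by exact_mod_cast (mem_filter.mp hp).2.ne_zero
  refine DifferentiableAt.add (DifferentiableAt.sub (differentiableAt_const _) ?_) ?_
  · exact (DifferentiableAt.const_cpow (by fun_prop) (Or.inl h)).const_mul _
  · exact (DifferentiableAt.const_cpow (by fun_prop) (Or.inl h)).const_mul _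

end S2M

open S2M in
theorem gm : StM := by
  intro L t η I hL ht hη hZ σ τ h1 h2 h3
  have hL0 : 0 < L := by linarith
  have hσ : 1 - 1 / 39 ≤ σ := by
    have : η / L ≤ 1 / 39 := by
      rw [div_le_iff₀ hL0]
      linarith
    linarith
  have hδ : 0 < 1 / (3 * L) := by positivity
  have hσ' : 1 + 1 / (3 * L) ≤ 1 + 1 / 39 := by
    have : 1 / (3 * L) ≤ 1 / 39 := one_div_le_one_div_of_le (by norm_num) (by linarith)
    linarith
  have hz := hZ σ τ h1 h2 h3
  have hi := inv_bound hδ (s := ((1 + 1 / (3 * L) : ℝ) : ℂ) + τ * Complex.I) (by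
    rw [Complex.add_re, Complex.ofReal_re, Complex.mul_I_re, Complex.ofReal_im]
    ring)
  have eL : 1 / (3 * (1 / (3 * L))) = L := by field_simp
  rw [eL] at hi
  obtain ⟨b2, r2⟩ := ratio (p := 2) (τ := τ) (r := 0.0364) (by norm_num) h2
    (up (u := 1.018) (by norm_num) (by norm_num) (by norm_num) hσ)
    (down (u := 1.018) (by norm_num) (by norm_num) (by norm_num) hσ') (by norm_num) (by norm_num)
  obtain ⟨b3, r3⟩ := ratio (p := 3) (τ := τ) (r := 0.0291) (by norm_num) h2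
    (up (u := 1.029) (by norm_num) (by norm_num) (by norm_num) hσ)
    (down (u := 1.029) (by norm_num) (by norm_num) (by norm_num) hσ') (by norm_num) (by norm_num)
  have hD := Df_ge τ hσ
  simp only [Nat.cast_ofNat] at b2 r2 b3 r3
  have hs1 : (σ : ℂ) + τ * Complex.I ≠ 1 := fun h => by
    have := congrArg Complex.im h
    simp only [Complex.add_im, Complex.ofReal_im, Complex.mul_I_im, Complex.ofReal_re,
      Complex.one_im, zero_add] at this
    have := (abs_le.mp h3).1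
    linarith
  generalize (σ : ℂ) + τ * Complex.I = s at hz b2 r2 b3 r3 hD hs1 ⊢
  have hA : 1 ≤ ‖riemannZeta s * (1 - (2 : ℂ) ^ (-s)) * (1 - (3 : ℂ) ^ (-s))‖ *
      (Real.exp I * (1 + 0.0364) * (1 + 0.0291) * (1 + L)) := by
    refine hi.trans (le_trans (b := Real.exp I * ‖riemannZeta s‖ *
      ((1 + 0.0364) * ‖1 - (2 : ℂ) ^ (-s)‖) * ((1 + 0.0291) * ‖1 - (3 : ℂ) ^ (-s)‖) * (1 + L))
      (by gcongr) (le_of_eq ?_))
    rw [norm_mul, norm_mul]
    ring
  have hA0 : riemannZeta s * (1 - (2 : ℂ) ^ (-s)) * (1 - (3 : ℂ) ^ (-s)) ≠ 0 := fun h => by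
    rw [h, norm_zero, zero_mul] at hA
    linarith
  have hD0 : Df s ≠ 0 := fun h => by
    rw [h, norm_zero] at hD
    linarith
  constructor
  · unfold Gf
    refine (differentiableAt_const _).div ?_ (mul_ne_zero (pow_ne_zero 2 hA0) hD0)
    refine (DifferentiableAt.pow (((differentiableAt_riemannZeta hs1).mul ?_).mul ?_) 2).mul
      (Df_diff s)
    · exact (DifferentiableAt.const_cpow (by fun_prop) (Or.inl (by norm_num))).const_sub _
    · exact (DifferentiableAt.const_cpow (by fun_prop) (Or.inl (by norm_num))).const_sub _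
  · unfold Gf
    rw [norm_div, norm_one, norm_mul, norm_pow,
      div_le_iff₀ (mul_pos (pow_pos (norm_pos_iff.mpr hA0) 2) (norm_pos_iff.mpr hD0))]
    generalize ‖riemannZeta s * (1 - (2 : ℂ) ^ (-s)) * (1 - (3 : ℂ) ^ (-s))‖ = A at hA
    have e : Real.exp (2 * I) = Real.exp I ^ 2 := by
      rw [← Real.exp_nat_mul]
      norm_num
    have a1 := one_le_pow₀ (n := 2) hA
    have a2 : 0 ≤ (A * Real.exp I * (1 + L)) ^ 2 := sq_nonneg _
    have a3 := mul_le_mul_of_nonneg_left hD a2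
    rw [e]
    nlinarith

end Pool.Agent.Lib.MP_5db4ad_nt.S2
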