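import Pool.Agent.Lib.MP_5db4ad_nt.S2Conv
import Pool.Agent.Lib.MP_5db4ad_nt.S2Eps
import Pool.Agent.Lib.MP_5db4ad_nt.S2M

/-!
The sum over odd integers as a convolution, and a weighted mass of `hh`.
-/

set_option autoImplicit false

namespace Pool.Agent.Lib.MP_5db4ad_nt.E26

open Finset S2 S2.Conv

noncomputable section

/-- the fourth root -/
def qr (x : ℝ) : ℝ := x ^ (1 / 4 : ℝ)

lemma qr_nonneg {x : ℝ} (hx : 0 ≤ x) : 0 ≤ qr x := Real.rpow_nonneg hx _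

lemma qr_mul {x y : ℝ} (hx : 0 ≤ x) (hy : 0 ≤ y) : qr (x * y) = qr x * qr y := Real.mul_rpow hx hy

lemma qr_pow {x : ℝ} (hx : 0 ≤ x) (a : ℕ) : qr (x ^ a) = qr x ^ a :=
  (Real.rpow_pow_comm hx _ a).symm

lemma qr_four {x : ℝ} (hx : 0 ≤ x) : qr x ^ 4 = x := by
  unfold qr
  rw [← Real.rpow_natCast, ← Real.rpow_mul hx]
  norm_num

lemma qr_six {x : ℝ} (hx : 0 ≤ x) : x ^ (-(1 + 1 / 2 : ℝ)) = 1 / qr x ^ 6 := by
  unfold qr
  rw [← Real.rpow_natCast, ← Real.rpow_mul hx, Real.rpow_neg hx, one_div]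
  norm_num

/-- the weighted terms -/
def f4 (d : ℕ) : ℝ := Eps.ff d * qr d

lemma f4_nonneg (d : ℕ) : 0 ≤ f4 d := mul_nonneg (Eps.ff_nonneg d) (qr_nonneg d.cast_nonneg)

lemma f4_one : f4 1 = 1 := by simp [f4, Eps.ff_one, qr]

lemma f4_mul {m n : ℕ} (h : Nat.Coprime m n) : f4 (m * n) = f4 m * f4 n := by
  unfold f4
  rw [Eps.ff_mul h, Nat.cast_mul, qr_mul m.cast_nonneg n.cast_nonneg]
  ring

lemma loc4 {p : ℕ} (hp : p.Prime) :
    (Summable fun a : ℕ => f4 (p ^ a)) ∧ ∑' a : ℕ, f4 (p ^ a) ≤ 1 + 6 * S2M.ff (1 / 2) p := by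
  have key : ∃ (g : ℕ → ℝ) (b : ℝ), HasSum g b ∧ b ≤ 6 * S2M.ff (1 / 2) p ∧
      ∀ a, f4 (p ^ (a + 2)) ≤ g a := by
    by_cases h : p ≤ 1000
    · refine ⟨fun _ => 0, 0, hasSum_zero, by linarith [S2M.ff_nonneg (1 / 2) p], fun a => ?_⟩
      unfold f4
      rw [Eps.ff_pow hp (a + 1)]
      simp [hloc, h]
    · have h1 : (1000 : ℝ) < p := by exact_mod_cast not_le.1 h
      have h0 : (0 : ℝ) < p := by linarith
      have hc : Nat.Coprime p 6 := (Nat.Prime.coprime_iff_not_dvd hp).2 fun hd => by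
        have := Nat.le_of_dvd (by norm_num) hd
        omega
      have r4 := qr_four h0.le
      have r0 := qr_nonneg h0.le
      have r2 : 2 ≤ qr p := by
        by_contra hlt
        have : qr p ^ 4 ≤ 2 ^ 4 := pow_le_pow_left₀ r0 (not_le.1 hlt).le 4
        linarith
      have e : S2M.ff (1 / 2) p = 1 / qr p ^ 6 := by rw [S2M.ff, if_pos hc, qr_six h0.le]
      rw [e]
      unfold f4
      simp only [Eps.ff_pow hp (_ + 1), Nat.cast_pow, qr_pow h0.le]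
      generalize qr p = r at r4 r0 r2
      have r1 : 0 < r := by linarith
      have r3 : 2 ≤ r ^ 3 * (1 / 2) := by
        have : (2 : ℝ) ^ 3 ≤ r ^ 3 := by gcongr
        linarith
      refine ⟨fun a => 3 / r ^ 6 * (1 / 2) ^ a, _, hasSum_geometric_two.mul_left _,
        le_of_eq (by ring), fun a => ?_⟩
      rw [← r4]
      calc |hloc p (a + 1 + 1)| / (r ^ 4) ^ (a + 1 + 1) * r ^ (a + 2)
          ≤ (3 * (r ^ 3 * (1 / 2)) ^ a) / (r ^ 4) ^ (a + 1 + 1) * r ^ (a + 2) := by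
            gcongr
            exact (Eps.abs_hloc p a).trans (by gcongr)
        _ = 3 / r ^ 6 * (1 / 2) ^ a := by
            rw [mul_pow]
            field_simp
            ring
  obtain ⟨g, b, hg, hb, h⟩ := key
  have h1 : Summable fun a : ℕ => f4 (p ^ (a + 2)) :=
    Summable.of_nonneg_of_le (fun _ => f4_nonneg _) h hg.summable
  have h2 : Summable fun a : ℕ => f4 (p ^ a) := (summable_nat_add_iff 2).1 h1
  refine ⟨h2, ?_⟩
  have h3 : f4 (p ^ 1) = 0 := by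
    rw [f4, Eps.ff_pow hp 0, Eps.hloc_one, abs_zero, zero_div, zero_mul]
  rw [← h2.sum_add_tsum_nat_add 2, Finset.sum_range_succ, Finset.sum_range_one, pow_zero, f4_one,
    h3, add_zero]
  exact add_le_add_right ((h1.tsum_le_tsum h hg.summable).trans (hg.tsum_eq.le.trans hb)) 1

theorem mass4 (F : Finset ℕ) : ∑ d ∈ F, |hh d| / d * qr d ≤ 3 ^ 10 := by
  classical
  obtain ⟨N, hN⟩ : ∃ N : ℕ, ∀ d ∈ F, d < N :=
    ⟨F.sup id + 1, fun d hd => Nat.lt_succ_of_le (Finset.le_sup (f := id) hd)⟩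
  have h1 := (EulerProduct.summable_and_hasSum_smoothNumbers_prod_primesBelow_tsum f4_one
    (fun h => f4_mul h) (fun hp => (loc4 hp).1.norm) N).2
  have h2 : ∑ d ∈ F, f4 d = ∑ d ∈ F.subtype (· ∈ N.smoothNumbers), f4 d := by
    rw [Finset.sum_subtype_eq_sum_filter, Finset.sum_filter_of_ne]
    intro d hd h0
    refine Nat.mem_smoothNumbers_of_lt (Nat.pos_of_ne_zero ?_) (hN d hd)
    rintro rfl
    exact h0 (by simp [f4, Eps.ff])
  have h3 : ∑ p ∈ N.primesBelow, 6 * S2M.ff (1 / 2) p ≤ (10 : ℕ) * 1 := by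
    rw [← mul_sum]
    have := (sum_le_sum_of_subset_of_nonneg (Finset.filter_subset Nat.Prime (range N))
      fun n _ _ => S2M.ff_nonneg (1 / 2) n).trans (S2M.sum_ff' (by norm_num) N)
    unfold Nat.primesBelow
    norm_num at this ⊢
    linarith
  calc ∑ d ∈ F, |hh d| / d * qr d = ∑ d ∈ F.subtype (· ∈ N.smoothNumbers), f4 d := h2
    _ ≤ ∏ p ∈ N.primesBelow, ∑' a : ℕ, f4 (p ^ a) :=
        sum_le_hasSum _ (fun _ _ => f4_nonneg _) h1
    _ ≤ ∏ p ∈ N.primesBelow, (1 + 6 * S2M.ff (1 / 2) p) :=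
        Finset.prod_le_prod (fun _ _ => tsum_nonneg fun _ => f4_nonneg _)
          fun p hp => (loc4 (Nat.prime_of_mem_primesBelow hp)).2
    _ ≤ Real.exp (∑ p ∈ N.primesBelow, 6 * S2M.ff (1 / 2) p) :=
        Real.prod_one_add_le_exp_sum _ fun p => by linarith [S2M.ff_nonneg (1 / 2) p]
    _ ≤ Real.exp 1 ^ 10 := by
        rw [← Real.exp_nat_mul]
        exact Real.exp_le_exp.2 h3
    _ ≤ 3 ^ 10 := by
        gcongr
        linarith [Real.exp_one_lt_d9]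

/-- the function `(-2) ^ Ω` restricted to the odd integers -/
def og : ArithmeticFunction ℝ := AF hloc * (AF (aloc 3) * AF gloc)

lemma SS_eq (x : ℝ) {J : ℕ} (hJ : ⌊x⌋₊ < 2 ^ J) :
    SS x = ∑ i ∈ range J, (-2) ^ i * ∑ n ∈ Ioc 0 (⌊x⌋₊ / 2 ^ i), og n := by
  have l : SS x = ∑ n ∈ Ioc 0 ⌊x⌋₊, AF lloc n := by
    unfold SS
    rw [Icc_eq]
    exact sum_congr rfl fun n hn => (lloc_eq (mem_Ioc.1 hn).1.ne').symm
  have e : AF lloc = AF (aloc 2) * og := by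
    rw [factor, og]
    ring
  rw [l, e, ArithmeticFunction.sum_Ioc_mul_eq_sum_sum,
    sum_aloc Nat.prime_two (fun t => ∑ n ∈ Ioc 0 t, og n) (by simp) hJ]

lemma SS_add (x : ℝ) : SS x + 2 * SS (x / 2) = ∑ n ∈ Ioc 0 ⌊x⌋₊, og n := by
  have e : ⌊x / 2⌋₊ = ⌊x⌋₊ / 2 := Nat.floor_div_ofNat x 2
  have h : ⌊x⌋₊ < 2 ^ ⌊x⌋₊ := Nat.lt_two_pow_self
  rw [SS_eq x (J := ⌊x⌋₊ + 1) (h.trans_le (Nat.pow_le_pow_right (by norm_num) (by omega))),
    SS_eq (x / 2) (J := ⌊x⌋₊) (by omega), sum_range_succ', mul_sum (range _), add_right_comm,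
    ← sum_add_distrib, sum_eq_zero]
  · simp
  · intro i _
    rw [e, Nat.div_div_eq_div_mul, ← pow_succ']
    ring

theorem odd_eq (x : ℝ) {I : ℕ} (hI : ⌊x⌋₊ < 3 ^ I) : SS x + 2 * SS (x / 2) =
    ∑ d ∈ Ioc 0 ⌊x⌋₊, hh d * ∑ i ∈ range I, (-2) ^ i * TT (x / d / 3 ^ i) := by
  rw [SS_add, og, ArithmeticFunction.sum_Ioc_mul_eq_sum_sum]
  refine sum_congr rfl fun d _ => ?_
  rw [ArithmeticFunction.sum_Ioc_mul_eq_sum_sum,
    sum_aloc Nat.prime_three (fun t => ∑ n ∈ Ioc 0 t, AF gloc n) (by simp)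
      ((Nat.div_le_self _ _).trans_lt hI)]
  change hh d * _ = _
  congr 1
  refine sum_congr rfl fun i _ => ?_
  unfold TT
  rw [Icc_eq, ← Nat.floor_div_natCast, ← Nat.floor_div_natCast, Nat.cast_pow, Nat.cast_ofNat]
  rfl

end

end Pool.Agent.Lib.MP_5db4ad_nt.E26
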