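import Pool.Agent.Lib.MP_5db4ad_nt.E26Taub
import Pool.Agent.Lib.MP_5db4ad_nt.E26Mass

/-!
An explicit rate for the convergence of `|S(x)| / x` along the doubling of `x`.
-/

set_option autoImplicit false

namespace Pool.Agent.Lib.MP_5db4ad_nt.E26

open Finset Filter S2

noncomputable section

lemma TT_pt {y D : ℝ} (hy : 1 ≤ y) (hl : 10 ^ 7 ≤ Real.log y) (hD : 0 < D) :
    |TT (y / D)| ≤ y / D * (4 / Real.log y ^ 2 +
      (Real.log y + 57) * Real.exp (-(Real.log y / 8)) * qr D) := by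
  have y0 : 0 < y := by linarith
  have u0 : 0 < Real.log y := by linarith
  have z0 : 0 < y / D := by positivity
  have q0 := qr_nonneg hD.le
  have t0 : 0 ≤ (Real.log y + 57) * Real.exp (-(Real.log y / 8)) * qr D := by positivity
  rcases lt_or_ge (y / D) 1 with h | h
  · have : TT (y / D) = 0 := by
      unfold TT
      rw [Nat.floor_eq_zero.2 h]
      simp
    rw [this, abs_zero]
    positivity
  have hz : Real.log (y / D) = Real.log y - Real.log D := Real.log_div y0.ne' hD.ne'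
  rcases le_or_gt (Real.log y / 2) (Real.log (y / D)) with h2 | h2
  · refine (TT_le h (by linarith)).trans ?_
    rw [div_eq_mul_one_div (y / D)]
    refine mul_le_mul_of_nonneg_left (le_add_of_le_of_nonneg ?_ t0) z0.le
    rw [div_le_div_iff₀ (pow_pos (by linarith) 2) (by positivity)]
    nlinarith
  · refine (TT_triv h).trans (mul_le_mul_of_nonneg_left (le_add_of_nonneg_of_le (by positivity) ?_)
      z0.le)
    have e : 1 ≤ Real.exp (-(Real.log y / 8)) * qr D := by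
      unfold qr
      rw [Real.rpow_def_of_pos hD, ← Real.exp_add]
      exact Real.one_le_exp (by linarith)
    rw [mul_assoc]
    nlinarith

lemma geo_le {r b : ℝ} (h0 : 0 ≤ r) (hb : 0 < b) (h1 : r ≤ 1 - 1 / b) (I : ℕ) :
    ∑ i ∈ range I, r ^ i ≤ b := by
  have h2 : 0 < 1 / b := by positivity
  have h3 := (summable_geometric_of_lt_one h0 (by linarith)).sum_le_tsum (range I)
    fun i _ => pow_nonneg h0 i
  rw [tsum_geometric_of_lt_one h0 (by linarith)] at h3
  refine h3.trans ?_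
  rw [inv_le_comm₀ (by linarith) hb, ← one_div]
  linarith

lemma small {u : ℝ} (hu : 10 ^ 7 ≤ u) :
    (u + 57) * Real.exp (-(u / 8)) * (9 * 3 ^ 10) ≤ 0.05 / u ^ 2 := by
  have u0 : 0 < u := by linarith
  have a := Real.pow_div_factorial_le_exp (u / 8) (by positivity) 6
  have c : (10 ^ 7 : ℝ) ^ 3 ≤ u ^ 3 := by gcongr
  rw [Real.exp_neg, le_div_iff₀ (by positivity), mul_comm (u + 57), mul_assoc, mul_assoc,
    inv_mul_le_iff₀ (Real.exp_pos _)]
  refine le_trans ?_ (mul_le_mul_of_nonneg_right a (by norm_num))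
  have d : (u + 57) * (9 * 3 ^ 10 * u ^ 2) ≤ 2 * u * (9 * 3 ^ 10 * u ^ 2) := by
    gcongr
    linarith
  refine d.trans ?_
  norm_num [Nat.factorial] at c ⊢
  nlinarith [pow_pos u0 3]

theorem odd_le {y : ℝ} (hy : 1 ≤ y) (hl : 10 ^ 7 ≤ Real.log y) :
    |SS y + 2 * SS (y / 2)| ≤ 12.1 * y / Real.log y ^ 2 := by
  have y0 : 0 < y := by linarith
  have u0 : 0 < Real.log y := by linarith
  have hs := small hl
  rw [odd_eq y (Nat.lt_pow_self (by norm_num : 1 < 3))]
  have hT := fun D => TT_pt (D := D) hy hl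
  set u := Real.log y
  set β := (u + 57) * Real.exp (-(u / 8)) with hβ
  have β0 : 0 ≤ β := by positivity
  have q3 : qr 3 ≤ 4 / 3 := by
    refine le_of_pow_le_pow_left₀ (n := 4) (by norm_num) (by norm_num) ?_
    rw [qr_four (by norm_num)]
    norm_num
  have q0 := qr_nonneg (x := 3) (by norm_num)
  have g1 := geo_le (r := 2 / 3) (b := 3) (by norm_num) (by norm_num) (by norm_num) ⌊y⌋₊
  have g2 := geo_le (r := 2 / 3 * qr 3) (b := 9) (by positivity) (by norm_num) (by linarith) ⌊y⌋₊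
  have inner : ∀ d ∈ Ioc 0 ⌊y⌋₊, |S2.hh d * ∑ i ∈ range ⌊y⌋₊, (-2) ^ i * TT (y / d / 3 ^ i)| ≤
      y * (12 / u ^ 2) * (|S2.hh d| / d) + y * (β * 9) * (|S2.hh d| / d * qr d) := fun d hd => by
    have d0 : (0 : ℝ) < d := Nat.cast_pos.2 (mem_Ioc.1 hd).1
    have qd := qr_nonneg d0.le
    have h1 : |∑ i ∈ range ⌊y⌋₊, (-2) ^ i * TT (y / d / 3 ^ i)| ≤
        ∑ i ∈ range ⌊y⌋₊, (y / d * (4 / u ^ 2) * (2 / 3) ^ i +
          y / d * (β * qr d) * (2 / 3 * qr 3) ^ i) := by
      refine (abs_sum_le_sum_abs _ _).trans (sum_le_sum fun i _ => ?_)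
      rw [abs_mul, abs_pow, abs_neg, abs_two, div_div]
      refine (mul_le_mul_of_nonneg_left (hT _ (by positivity)) (by positivity)).trans (le_of_eq ?_)
      rw [qr_mul d0.le (by positivity), qr_pow (by norm_num), mul_pow, div_pow]
      field_simp
    rw [sum_add_distrib, ← mul_sum, ← mul_sum] at h1
    have h2 := mul_le_mul_of_nonneg_left g1 (by positivity : 0 ≤ y / d * (4 / u ^ 2))
    have h3 := mul_le_mul_of_nonneg_left g2 (by positivity : 0 ≤ y / d * (β * qr d))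
    rw [abs_mul]
    refine (mul_le_mul_of_nonneg_left (h1.trans (add_le_add h2 h3)) (abs_nonneg _)).trans
      (le_of_eq (by ring))
  refine (abs_sum_le_sum_abs _ _).trans ((sum_le_sum inner).trans ?_)
  rw [sum_add_distrib, ← mul_sum, ← mul_sum]
  have k1 := mul_le_mul_of_nonneg_left (eps (Ioc 0 ⌊y⌋₊)) (by positivity : 0 ≤ y * (12 / u ^ 2))
  have k2 := mul_le_mul_of_nonneg_left (mass4 (Ioc 0 ⌊y⌋₊)) (by positivity : 0 ≤ y * (β * 9))
  have k3 := mul_le_mul_of_nonneg_left hs y0.le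
  have k4 : 0 ≤ y / u ^ 2 := by positivity
  refine (add_le_add k1 k2).trans ?_
  have e1 : y * (12 / u ^ 2) * 1.00055 = 12.0066 * (y / u ^ 2) := by ring
  have e2 : y * (0.05 / u ^ 2) = 0.05 * (y / u ^ 2) := by ring
  rw [e1, mul_div_assoc]
  linarith

lemma log_dbl {x : ℝ} (hx : 0 < x) (n : ℕ) :
    Real.log (2 ^ n * x) = n * Real.log 2 + Real.log x := by
  rw [Real.log_mul (by positivity) hx.ne', Real.log_pow]

theorem steps {x : ℝ} (hx : 1 ≤ x) (hl : 10 ^ 7 ≤ Real.log x) (n : ℕ) :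
    |(|SS (2 ^ n * x)| / (2 ^ n * x) - |SS x| / x)| ≤
      17.5 / Real.log x - 17.5 / Real.log (2 ^ n * x) := by
  have x0 : 0 < x := by linarith
  have l2 := Real.log_two_gt_d9
  induction n with
  | zero => simp
  | succ n ih =>
    have p1 : (1 : ℝ) ≤ 2 ^ n := one_le_pow₀ (by norm_num)
    have z1 : 1 ≤ 2 ^ n * x := by nlinarith
    have lz : 10 ^ 7 ≤ Real.log (2 ^ n * x) := by
      rw [log_dbl x0]
      have : 0 ≤ n * Real.log 2 := by positivity
      linarith
    have e : 2 ^ (n + 1) * x = 2 * (2 ^ n * x) := by ring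
    rw [e]
    generalize 2 ^ n * x = z at ih z1 lz
    have z0 : 0 < z := by linarith
    have lz2 : Real.log (2 * z) = Real.log 2 + Real.log z := Real.log_mul (by norm_num) z0.ne'
    have k := odd_le (y := 2 * z) (by linarith) (by linarith)
    rw [mul_div_cancel_left₀ z (by norm_num)] at k
    have a : |(|SS (2 * z)| / (2 * z) - |SS z| / z)| ≤ 12.1 / Real.log (2 * z) ^ 2 := by
      have e1 : |SS (2 * z)| / (2 * z) - |SS z| / z = (|SS (2 * z)| - |-(2 * SS z)|) / (2 * z) := by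
        rw [abs_neg, abs_mul, abs_two]
        field_simp
      rw [e1, abs_div, abs_of_pos (by positivity : 0 < 2 * z), div_le_iff₀ (by positivity)]
      refine (abs_abs_sub_abs_le_abs_sub _ _).trans ?_
      rw [sub_neg_eq_add]
      exact k.trans (le_of_eq (by ring))
    have b : 12.1 / Real.log (2 * z) ^ 2 ≤ 17.5 / Real.log z - 17.5 / Real.log (2 * z) := by
      rw [lz2]
      generalize Real.log z = v at lz
      have v0 : 0 < v := by linarith
      have w0 : 0 < Real.log 2 + v := by linarith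
      rw [div_sub_div _ _ v0.ne' w0.ne', div_le_div_iff₀ (by positivity) (by positivity)]
      have c1 : 12.1 * v ≤ (17.5 * (Real.log 2 + v) - v * 17.5) * (Real.log 2 + v) := by nlinarith
      nlinarith
    have c := abs_sub_le (|SS (2 * z)| / (2 * z)) (|SS z| / z) (|SS x| / x)
    linarith

lemma steps' {x : ℝ} (hx : 1 ≤ x) (hl : 10 ^ 7 ≤ Real.log x) (n : ℕ) :
    |(|SS (2 ^ n * x)| / (2 ^ n * x) - |SS x| / x)| ≤ 17.5 / Real.log x := by
  have p1 : (1 : ℝ) ≤ 2 ^ n := one_le_pow₀ (by norm_num)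
  have l0 : 0 ≤ Real.log (2 ^ n * x) := Real.log_nonneg (by nlinarith)
  have : 0 ≤ 17.5 / Real.log (2 ^ n * x) := by positivity
  linarith [steps hx hl n]

lemma thr {x : ℝ} (hx : Real.exp (10 ^ 7) ≤ x) : 1 ≤ x ∧ 10 ^ 7 ≤ Real.log x :=
  ⟨(Real.one_le_exp (by norm_num)).trans hx,
    (Real.le_log_iff_exp_le ((Real.exp_pos _).trans_le hx)).2 hx⟩

theorem up {c : ℝ} (hc : 0 ≤ c)
    (h : limsup (fun x : ℝ => ENNReal.ofReal (|SS x| / x)) atTop ≤ ENNReal.ofReal c)
    {x : ℝ} (hx : Real.exp (10 ^ 7) ≤ x) : |SS x| / x ≤ c + 18 / Real.log x := by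
  obtain ⟨x1, hl⟩ := thr hx
  have u0 : 0 < Real.log x := by linarith
  have e0 : 0 < 0.5 / Real.log x := by positivity
  have h1 := eventually_lt_of_limsup_lt (h.trans_lt
    ((ENNReal.ofReal_lt_ofReal_iff (by linarith)).2 (lt_add_of_pos_right c e0)))
  have t : Tendsto (fun n : ℕ => 2 ^ n * x) atTop atTop :=
    (tendsto_pow_atTop_atTop_of_one_lt (by norm_num)).atTop_mul_const (by linarith)
  obtain ⟨n, hn⟩ := (t.eventually h1).exists
  have h2 := (ENNReal.ofReal_lt_ofReal_iff (by linarith)).1 hn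
  have h3 := (abs_le.1 (steps' x1 hl n)).1
  have e : 18 / Real.log x = 17.5 / Real.log x + 0.5 / Real.log x := by ring
  linarith

lemma dyad {X y : ℝ} (X0 : 0 < X) (h : X ≤ y) :
    ∃ (n : ℕ) (x : ℝ), X ≤ x ∧ x ≤ 2 * X ∧ y = 2 ^ n * x := by
  obtain ⟨n, n1, n2⟩ := exists_nat_pow_near (x := y / X) (y := 2) ((one_le_div X0).2 h)
    (by norm_num)
  have p0 : (0 : ℝ) < 2 ^ n := by positivity
  refine ⟨n, y / 2 ^ n, ?_, ?_, (mul_div_cancel₀ y p0.ne').symm⟩
  · rw [le_div_iff₀ X0] at n1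
    rw [le_div_iff₀ p0]
    linarith
  · rw [div_lt_iff₀ X0, pow_succ] at n2
    rw [div_le_iff₀ p0]
    linarith

theorem down {c : ℝ}
    (h : ENNReal.ofReal c ≤ limsup (fun x : ℝ => ENNReal.ofReal (|SS x| / x)) atTop)
    {X : ℝ} (hX : Real.exp (10 ^ 7) ≤ X) :
    ∃ x ∈ Set.Icc X (2 * X), c - 18 / Real.log X ≤ |SS x| / x := by
  obtain ⟨X1, hl⟩ := thr hX
  have X0 : 0 < X := by linarith
  have u0 : 0 < Real.log X := by linarith
  have e0 : 0 < 0.5 / Real.log X := by positivity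
  have e : 18 / Real.log X = 17.5 / Real.log X + 0.5 / Real.log X := by ring
  have e1 : 0 < 17.5 / Real.log X := by positivity
  rcases le_or_gt c (0.5 / Real.log X) with hc | hc
  · refine ⟨X, ⟨le_rfl, by linarith⟩, le_trans (by linarith) (by positivity : 0 ≤ |SS X| / X)⟩
  have h1 := frequently_lt_of_lt_limsup (h := ((ENNReal.ofReal_lt_ofReal_iff (by linarith)).2
    (sub_lt_self c e0)).trans_le h)
  obtain ⟨y, hy, hyX⟩ := (h1.and_eventually (eventually_ge_atTop X)).exists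
  have h2 := (ENNReal.ofReal_lt_ofReal_iff_of_nonneg (by linarith)).1 hy
  obtain ⟨n, x, a1, a2, rfl⟩ := dyad X0 hyX
  have a3 : Real.log X ≤ Real.log x := Real.log_le_log X0 a1
  have h3 := (abs_le.1 (steps' (x := x) (by linarith) (by linarith) n)).2
  have a4 : 17.5 / Real.log x ≤ 17.5 / Real.log X :=
    div_le_div_of_nonneg_left (by norm_num) u0 a3
  exact ⟨x, ⟨a1, a2⟩, by linarith⟩

theorem fin : limsup (fun x : ℝ => ENNReal.ofReal (|SS x| / x)) atTop ≠ ⊤ := by
  obtain ⟨X, hX⟩ : ∃ X, Real.exp (10 ^ 7) ≤ X := ⟨_, le_rfl⟩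
  obtain ⟨X1, hl⟩ := thr hX
  have X0 : 0 < X := by linarith
  refine ne_top_of_le_ne_top (ENNReal.ofReal_ne_top (r := ∑ n ∈ Icc 1 ⌊2 * X⌋₊,
    |(-2 : ℝ) ^ ArithmeticFunction.cardFactors n| + 1)) (limsup_le_of_le (h := ?_))
  filter_upwards [eventually_ge_atTop X] with y hy
  obtain ⟨n, x, a1, a2, rfl⟩ := dyad X0 hy
  have a3 : Real.log X ≤ Real.log x := Real.log_le_log X0 a1
  have h3 := (abs_le.1 (steps' (x := x) (by linarith) (by linarith) n)).2
  have a4 : 17.5 / Real.log x ≤ 1 := by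
    rw [div_le_one (by linarith)]
    linarith
  have a5 : |SS x| ≤ ∑ n ∈ Icc 1 ⌊2 * X⌋₊, |(-2 : ℝ) ^ ArithmeticFunction.cardFactors n| :=
    (abs_sum_le_sum_abs _ _).trans (sum_le_sum_of_subset_of_nonneg
      (Icc_subset_Icc_right (Nat.floor_mono a2)) fun _ _ _ => abs_nonneg _)
  have a6 : |SS x| / x ≤ |SS x| := div_le_self (abs_nonneg _) (by linarith)
  exact ENNReal.ofReal_le_ofReal (by linarith)

end

end Pool.Agent.Lib.MP_5db4ad_nt.E26
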