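import Pool.Agent.Lib.MP_5db4ad_nt.EM

/-!
The midpoint rule for the zeta function continued to the left of the line of real part one, and an
explicit lower bound for `(s - 1) ζ(s)` near that line at small height.
-/

set_option autoImplicit false

namespace Pool.Agent.Lib.MP_5db4ad_nt.E26

open Set Filter Topology

noncomputable section

def h1 (s : ℂ) (x : ℝ) : ℂ := (x : ℂ) ^ (1 - s) - (s - 1) * s / 24 * (x : ℂ) ^ (-s - 1)

def qq (s : ℂ) (n : ℝ) : ℂ := (s - 1) * (n : ℂ) ^ (-s) - (h1 s (n - 1 / 2) - h1 s (n + 1 / 2))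

def PP (s : ℂ) : ℝ := ‖(s - 1) * s * (s + 1) * (s + 2) * (s + 3)‖

def GG (N : ℕ) (s : ℂ) : ℂ := (s - 1) * ∑ n ∈ Finset.Ico 1 N, (n : ℂ) ^ (-s) + h1 s (N - 1 / 2)

lemma qq_bd {s : ℂ} (hs : 0 ≤ s.re) {n a : ℝ} (hn : 2 ≤ n) (ha0 : 0 < a) (ha : a ≤ n - 1 / 2) :
    ‖qq s n‖ ≤ PP s * a ^ (-s.re) / 1320 * (1 / (n - 1) ^ 3 - 1 / n ^ 3) := by
  have key := midpoint_rule (n := n) (M := PP s * a ^ (-s.re) / (n - 1 / 2) ^ 4)
    (F := fun i x => (∏ j ∈ Finset.range i, (1 - s - j)) * (x : ℂ) ^ (1 - s - i))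
    (fun i _ x hx => by
      have hx0 : 0 < x := by linarith [hx.1]
      have := ((hasDerivAt_id (x : ℂ)).cpow_const (c := 1 - s - i)
        (Complex.ofReal_mem_slitPlane.2 hx0)).comp_ofReal
      refine (this.const_mul (∏ j ∈ Finset.range i, (1 - s - j))).congr_deriv ?_
      rw [Finset.prod_range_succ]
      push_cast
      rw [← sub_sub]
      simp only [id]
      ring)
    (fun x hx => by
      have hx0 : 0 < x := by linarith [hx.1]
      have e : (∏ j ∈ Finset.range 5, (1 - s - j)) =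
          -((s - 1) * s * (s + 1) * (s + 2) * (s + 3)) := by
        simp only [Finset.prod_range_succ, Finset.prod_range_zero]
        push_cast
        ring
      have e2 : (1 - s - (5 : ℕ)).re = -s.re + -((4 : ℕ) : ℝ) := by
        simp
        ring
      rw [e, norm_mul, norm_neg, Complex.norm_cpow_eq_rpow_re_of_pos hx0, e2, Real.rpow_add hx0,
        mul_div_assoc, div_eq_mul_inv]
      refine mul_le_mul_of_nonneg_left (mul_le_mul ?_ ?_ (by positivity) (by positivity))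
        (norm_nonneg _)
      · exact Real.rpow_le_rpow_of_nonpos ha0 (ha.trans hx.1) (by linarith)
      · rw [Real.rpow_neg hx0.le, Real.rpow_natCast]
        refine inv_anti₀ (pow_pos (by linarith) 4) ?_
        gcongr
        · linarith
        · exact hx.1)
  have e : qq s n =
      (∏ j ∈ Finset.range 0, (1 - s - j)) * ((n + 1 / 2 : ℝ) : ℂ) ^ (1 - s - (0 : ℕ)) -
      (∏ j ∈ Finset.range 0, (1 - s - j)) * ((n - 1 / 2 : ℝ) : ℂ) ^ (1 - s - (0 : ℕ)) -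
      (∏ j ∈ Finset.range 1, (1 - s - j)) * (n : ℂ) ^ (1 - s - (1 : ℕ)) -
      ((∏ j ∈ Finset.range 2, (1 - s - j)) * ((n + 1 / 2 : ℝ) : ℂ) ^ (1 - s - (2 : ℕ)) -
      (∏ j ∈ Finset.range 2, (1 - s - j)) * ((n - 1 / 2 : ℝ) : ℂ) ^ (1 - s - (2 : ℕ))) / 24 := by
    simp only [qq, h1, Finset.prod_range_succ, Finset.prod_range_zero, Nat.cast_zero, Nat.cast_one,
      Nat.cast_ofNat, sub_zero, show 1 - s - 1 = -s by ring, show 1 - s - 2 = -s - 1 by ring]
    ring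
  rw [e]
  refine key.trans ?_
  have hP : 0 ≤ PP s * a ^ (-s.re) := mul_nonneg (norm_nonneg _) (by positivity)
  rw [div_div, div_eq_mul_one_div, div_mul_eq_mul_div, mul_div_assoc]
  refine mul_le_mul_of_nonneg_left ?_ hP
  have p1 : 0 < n - 1 := by linarith
  have p2 : 0 < n - 1 / 2 := by linarith
  rw [div_sub_div _ _ (by positivity) (by positivity), div_div,
    div_le_div_iff₀ (by positivity) (by positivity)]
  obtain ⟨y, hy⟩ : ∃ y, n = y + 2 := ⟨n - 2, by ring⟩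
  have : 0 ≤ y := by linarith
  rw [hy, ← sub_nonneg]
  ring_nf
  positivity

lemma GG_succ {N : ℕ} (hN : 1 ≤ N) (s : ℂ) : GG (N + 1) s = GG N s + qq s N := by
  unfold GG qq
  rw [Finset.sum_Ico_succ_top hN]
  have e : ((N + 1 : ℕ) : ℝ) - 1 / 2 = N + 1 / 2 := by
    push_cast
    ring
  rw [e]
  push_cast
  ring

lemma GG_add {N : ℕ} (hN : 1 ≤ N) (s : ℂ) (K : ℕ) :
    GG (N + K) s = GG N s + ∑ k ∈ Finset.range K, qq s ((N + k : ℕ) : ℝ) := by
  induction K with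
  | zero => simp
  | succ K ih => rw [← add_assoc, GG_succ (by omega), ih, Finset.sum_range_succ, add_assoc]

/-- the telescoping majorant -/
def tl (N k : ℕ) : ℝ := 1 / (((N + k : ℕ) : ℝ) - 1) ^ 3 - 1 / ((N + k : ℕ) : ℝ) ^ 3

lemma tl_nonneg {N : ℕ} (hN : 2 ≤ N) (k : ℕ) : 0 ≤ tl N k := by
  have h : (2 : ℝ) ≤ ((N + k : ℕ) : ℝ) := by exact_mod_cast hN.trans (Nat.le_add_right N k)
  unfold tl
  rw [sub_nonneg]
  refine one_div_le_one_div_of_le (pow_pos (by linarith) 3) ?_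
  gcongr
  · linarith
  · linarith

lemma tl_sum {N : ℕ} (hN : 2 ≤ N) (K : ℕ) :
    ∑ k ∈ Finset.range K, tl N k ≤ 1 / ((N : ℝ) - 1) ^ 3 := by
  have h : ∑ k ∈ Finset.range K, tl N k =
      1 / ((N : ℝ) - 1) ^ 3 - 1 / (((N + K : ℕ) : ℝ) - 1) ^ 3 := by
    induction K with
    | zero => simp
    | succ K ih =>
      rw [Finset.sum_range_succ, ih, tl]
      push_cast
      ring_nf
  have h2 : (2 : ℝ) ≤ ((N + K : ℕ) : ℝ) := by exact_mod_cast hN.trans (Nat.le_add_right N K)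
  have h3 : 0 ≤ 1 / (((N + K : ℕ) : ℝ) - 1) ^ 3 := by
    have : 0 < ((N + K : ℕ) : ℝ) - 1 := by linarith
    positivity
  linarith

lemma tl_summ {N : ℕ} (hN : 2 ≤ N) : Summable (tl N) :=
  summable_of_sum_range_le (tl_nonneg hN) (tl_sum hN)

lemma qq_tl {N : ℕ} (hN : 2 ≤ N) {s : ℂ} (hs : 0 ≤ s.re) (k : ℕ) :
    ‖qq s ((N + k : ℕ) : ℝ)‖ ≤ PP s * ((N : ℝ) - 1 / 2) ^ (-s.re) / 1320 * tl N k := by
  have h : (2 : ℝ) ≤ N := by exact_mod_cast hN
  have h2 : (N : ℝ) ≤ ((N + k : ℕ) : ℝ) := by exact_mod_cast Nat.le_add_right N k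
  exact qq_bd hs (by linarith) (by linarith) (by linarith)

lemma h1_diff {x : ℝ} (hx : 0 < x) : Differentiable ℂ fun s => h1 s x := by
  have h : (x : ℂ) ≠ 0 := Complex.ofReal_ne_zero.2 hx.ne'
  have a : Differentiable ℂ fun s : ℂ => (x : ℂ) ^ (1 - s) :=
    Differentiable.const_cpow (by fun_prop) (Or.inl h)
  have b : Differentiable ℂ fun s : ℂ => (x : ℂ) ^ (-s - 1) :=
    Differentiable.const_cpow (by fun_prop) (Or.inl h)
  unfold h1
  fun_prop

lemma qq_diff {n : ℝ} (hn : 1 ≤ n) : Differentiable ℂ fun s => qq s n := by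
  have h : (n : ℂ) ≠ 0 := Complex.ofReal_ne_zero.2 (by linarith)
  have a : Differentiable ℂ fun s : ℂ => (n : ℂ) ^ (-s) :=
    Differentiable.const_cpow (by fun_prop) (Or.inl h)
  have b := h1_diff (x := n - 1 / 2) (by linarith)
  have c := h1_diff (x := n + 1 / 2) (by linarith)
  unfold qq
  fun_prop

lemma GG_diff {N : ℕ} (hN : 1 ≤ N) : Differentiable ℂ (GG N) := by
  have h : (1 : ℝ) ≤ N := by exact_mod_cast hN
  have a : Differentiable ℂ fun s : ℂ => ∑ n ∈ Finset.Ico 1 N, (n : ℂ) ^ (-s) :=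
    Differentiable.fun_sum fun n hn => Differentiable.const_cpow (by fun_prop)
      (Or.inl (Nat.cast_ne_zero.2 (by have := (Finset.mem_Ico.1 hn).1; omega)))
  have b := h1_diff (x := (N : ℝ) - 1 / 2) (by linarith)
  unfold GG
  fun_prop

lemma GG_lim {s : ℂ} (hs : 1 < s.re) :
    Tendsto (fun M : ℕ => GG M s) atTop (𝓝 (riemannZeta₁ s)) := by
  have hs1 : s ≠ 1 := by
    rintro rfl
    simp at hs
  have h2 : s - 1 ≠ 0 := sub_ne_zero.2 hs1
  rw [tendsto_iff_norm_sub_tendsto_zero]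
  have t1 : Tendsto (fun M : ℕ => ‖s - 1‖ * (‖s * (s + 1) * (s + 2) * (s + 3)‖ / 1760 *
      (1 / ((M : ℝ) - 1) ^ 4))) atTop (𝓝 0) := by
    have a : Tendsto (fun M : ℕ => ((M : ℝ) - 1) ^ 4) atTop atTop :=
      (tendsto_pow_atTop (by norm_num)).comp
        (tendsto_atTop_add_const_right _ (-1) tendsto_natCast_atTop_atTop)
    have b := ((tendsto_const_nhds (x := (1 : ℝ))).div_atTop a).const_mul
      (‖s * (s + 1) * (s + 2) * (s + 3)‖ / 1760)
    simpa using b.const_mul ‖s - 1‖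
  refine squeeze_zero' (Eventually.of_forall fun _ => norm_nonneg _) ?_ t1
  filter_upwards [eventually_ge_atTop 2] with M hM
  have e : GG M s - riemannZeta₁ s = -((s - 1) * (riemannZeta s -
      (∑ n ∈ Finset.Ico 1 M, (n : ℂ) ^ (-s) + hh s (M - 1 / 2)))) := by
    rw [riemannZeta_eq_inv_sub_mul hs1]
    unfold GG h1 hh
    field_simp
    ring
  rw [e, norm_neg, norm_mul]
  exact mul_le_mul_of_nonneg_left (em_lt hs hM) (norm_nonneg _)

lemma PP_le {s : ℂ} (hs : ‖s‖ < 20) : PP s ≤ 23 ^ 5 := by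
  have a : ∀ c : ℂ, ‖c‖ ≤ 3 → ‖s + c‖ ≤ 23 := fun c hc => (norm_add_le _ _).trans (by linarith)
  have a0 : ‖s - 1‖ ≤ 23 := (norm_sub_le _ _).trans (by rw [norm_one]; linarith)
  have a1 := a 1 (by simp)
  have a2 := a 2 (by simp; norm_num)
  have a3 := a 3 (by simp)
  have a4 : ‖s‖ ≤ 23 := by linarith
  unfold PP
  simp only [norm_mul]
  calc _ ≤ (23 : ℝ) * 23 * 23 * 23 * 23 := by gcongr
    _ = 23 ^ 5 := by norm_num

lemma em1 {N : ℕ} (hN : 2 ≤ N) {s : ℂ} (hs : 0 < s.re) (hb : ‖s‖ < 20) :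
    ‖riemannZeta₁ s - GG N s‖ ≤
      PP s * ((N : ℝ) - 1 / 2) ^ (-s.re) / 1320 * (1 / ((N : ℝ) - 1) ^ 3) := by
  have hN' : (2 : ℝ) ≤ N := by exact_mod_cast hN
  set U : Set ℂ := {z | 0 < z.re} ∩ Metric.ball 0 20 with hU
  have hUo : IsOpen U :=
    (isOpen_lt continuous_const Complex.continuous_re).inter Metric.isOpen_ball
  have hUc : Convex ℝ U := (convex_halfSpace_re_gt 0).inter (convex_ball _ _)
  have hd : DifferentiableOn ℂ (fun z => ∑' k : ℕ, qq z ((N + k : ℕ) : ℝ)) U := by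
    refine Complex.differentiableOn_tsum_of_summable_norm
      ((tl_summ hN).mul_left (23 ^ 5 * 1 / 1320)) (fun k => (qq_diff ?_).differentiableOn) hUo
      fun k z hz => ?_
    · exact_mod_cast (by omega : 1 ≤ N + k)
    · have h0 : 0 < z.re := hz.1
      refine (qq_tl hN h0.le k).trans (mul_le_mul_of_nonneg_right ?_ (tl_nonneg hN k))
      exact div_le_div_of_nonneg_right (mul_le_mul (PP_le (by simpa using hz.2))
        (Real.rpow_le_one_of_one_le_of_nonpos (by linarith) (by linarith))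
        (Real.rpow_nonneg (by linarith) _) (by norm_num)) (by norm_num)
  have hd2 : DifferentiableOn ℂ (fun z => riemannZeta₁ z - GG N z) U :=
    (differentiable_riemannZeta₁.sub (GG_diff (by omega))).differentiableOn
  have hsum : ∀ z : ℂ, 0 ≤ z.re → Summable fun k : ℕ => qq z ((N + k : ℕ) : ℝ) := fun z hz =>
    Summable.of_norm_bounded ((tl_summ hN).mul_left _) (qq_tl hN hz)
  have heq : EqOn (fun z => riemannZeta₁ z - GG N z)
      (fun z => ∑' k : ℕ, qq z ((N + k : ℕ) : ℝ)) U := by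
    refine (hd2.analyticOnNhd hUo).eqOn_of_preconnected_of_eventuallyEq (hd.analyticOnNhd hUo)
      hUc.isPreconnected (z₀ := 2) ⟨by simp, by simp; norm_num⟩ ?_
    refine eventuallyEq_of_mem
      ((isOpen_lt continuous_const Complex.continuous_re).mem_nhds
        (show (1 : ℝ) < (2 : ℂ).re by norm_num)) fun z hz => ?_
    have hz1 : 1 < z.re := hz
    have t1 := (hsum z (by linarith)).hasSum.tendsto_sum_nat
    have t2 := ((GG_lim hz1).comp (tendsto_add_atTop_nat N)).sub_const (GG N z)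
    refine tendsto_nhds_unique (t2.congr fun K => ?_) t1
    simp only [Function.comp_def]
    rw [add_comm K N, GG_add (by omega)]
    ring
  have e : riemannZeta₁ s - GG N s = ∑' k : ℕ, qq s ((N + k : ℕ) : ℝ) :=
    heq ⟨hs, by simpa using hb⟩
  rw [e]
  refine (tsum_of_norm_bounded ((tl_summ hN).mul_left _).hasSum (qq_tl hN hs.le)).trans ?_
  rw [tsum_mul_left]
  refine mul_le_mul_of_nonneg_left ((tl_summ hN).tsum_le_of_sum_range_le (tl_sum hN)) ?_
  have : 0 ≤ PP s := norm_nonneg _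
  have : 0 < (N : ℝ) - 1 / 2 := by linarith
  positivity

lemma log3 : Real.log 3 ≤ 1.1 := by
  rw [Real.log_le_iff_le_exp (by norm_num)]
  refine le_trans ?_ (Real.sum_le_exp_of_nonneg (by norm_num) 7)
  simp only [Finset.sum_range_succ, Finset.sum_range_zero, Nat.factorial]
  norm_num

lemma log32 : Real.log (3 / 2) ≤ 0.41 := by
  rw [Real.log_le_iff_le_exp (by norm_num)]
  refine le_trans ?_ (Real.sum_le_exp_of_nonneg (by norm_num) 4)
  simp only [Finset.sum_range_succ, Finset.sum_range_zero, Nat.factorial]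
  norm_num

lemma rp {x e : ℝ} (h1 : 1 ≤ x) (h3 : x ≤ 3) (he : |e| ≤ 0.01) :
    0.989 ≤ x ^ e ∧ x ^ e ≤ 1.012 := by
  have l0 : 0 ≤ Real.log x := Real.log_nonneg h1
  have l1 : Real.log x ≤ 1.1 := (Real.log_le_log (by linarith) h3).trans log3
  have h : |Real.log x * e| ≤ 0.011 := by
    rw [abs_mul, abs_of_nonneg l0]
    nlinarith [abs_nonneg e]
  rw [Real.rpow_def_of_pos (by linarith)]
  obtain ⟨a, b⟩ := abs_le.1 h
  constructor
  · linarith [Real.add_one_le_exp (Real.log x * e)]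
  · refine (Real.exp_le_exp.2 b).trans
      ((Real.exp_bound_div_one_sub_of_interval (by norm_num) (by norm_num)).trans (by norm_num))

/-- powers with exponent close to a non-positive integer -/
lemma rpk {x e : ℝ} (k : ℕ) (h1 : 1 ≤ x) (h3 : x ≤ 3) (he : |e + k| ≤ 0.01) :
    x ^ e ≤ 1.012 / x ^ k := by
  have x0 : 0 < x := by linarith
  rw [le_div_iff₀ (by positivity), ← Real.rpow_natCast, ← Real.rpow_add x0]
  exact (rp h1 h3 he).2

lemma nb {σ τ T b : ℝ} (k : ℝ) (hσ : |σ - 1| ≤ 0.01) (hτ : |τ| ≤ T) (hk : 0 ≤ k) (hb : 0 ≤ b)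
    (h : (1.01 + k) ^ 2 + T ^ 2 ≤ b ^ 2) : ‖((σ : ℂ) + τ * Complex.I) + k‖ ≤ b := by
  obtain ⟨a1, a2⟩ := abs_le.1 hσ
  have e : ((σ : ℂ) + τ * Complex.I) + k = ((σ + k : ℝ) : ℂ) + τ * Complex.I := by
    push_cast
    ring
  rw [e, Complex.norm_add_mul_I]
  refine Real.sqrt_le_iff.2 ⟨hb, ?_⟩
  have t1 : τ ^ 2 ≤ T ^ 2 := by
    rw [← sq_abs τ]
    gcongr
  have t2 : (σ + k) ^ 2 ≤ (1.01 + k) ^ 2 := by
    gcongr
    · linarith
    · linarith
  linarith

lemma low_small {σ τ : ℝ} (hσ : |σ - 1| ≤ 0.01) (hτ : |τ| ≤ 2.5) :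
    0.09 ≤ ‖riemannZeta₁ (σ + τ * Complex.I)‖ := by
  obtain ⟨a1, a2⟩ := abs_le.1 hσ
  set s : ℂ := σ + τ * Complex.I with hs
  have sre : s.re = σ := by simp [hs]
  have sim : s.im = τ := by simp [hs]
  have n0 : ‖s‖ ≤ 2.7 := by simpa using nb (b := 2.7) 0 hσ hτ le_rfl (by norm_num) (by norm_num)
  have n1 : ‖s + 1‖ ≤ 3.21 := by
    simpa using nb (b := 3.21) 1 hσ hτ (by norm_num) (by norm_num) (by norm_num)
  have n2 : ‖s + 2‖ ≤ 3.92 := by
    simpa using nb (b := 3.92) 2 hσ hτ (by norm_num) (by norm_num) (by norm_num)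
  have n3 : ‖s + 3‖ ≤ 4.73 := by
    simpa using nb (b := 4.73) 3 hσ hτ (by norm_num) (by norm_num) (by norm_num)
  have nm : ‖s - 1‖ ≤ 2.51 := by
    have := Complex.norm_le_abs_re_add_abs_im (s - 1)
    simp only [Complex.sub_re, Complex.sub_im, sre, sim, Complex.one_re, Complex.one_im,
      sub_zero] at this
    linarith
  have hP : PP s ≤ 2.51 * 2.7 * 3.21 * 3.92 * 4.73 := by
    unfold PP
    simp only [norm_mul]
    gcongr
  have k := em1 (N := 2) le_rfl (s := s) (by rw [sre]; linarith) (by linarith)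
  have e1 : ((2 : ℕ) : ℝ) - 1 / 2 = 3 / 2 := by norm_num
  have r1 : (3 / 2 : ℝ) ^ (-s.re) ≤ 1.012 / (3 / 2) ^ 1 :=
    rpk 1 (by norm_num) (by norm_num) (by rw [sre, abs_le]; constructor <;> push_cast <;> linarith)
  rw [e1] at k
  have k2 : ‖riemannZeta₁ s - GG 2 s‖ ≤
      2.51 * 2.7 * 3.21 * 3.92 * 4.73 * (1.012 / (3 / 2) ^ 1) / 1320 * 1 := by
    refine k.trans ?_
    gcongr
    norm_num
  have eG : GG 2 s = (s - 1) + ((3 / 2 : ℝ) : ℂ) ^ (1 - s) -
      (s - 1) * s / 24 * ((3 / 2 : ℝ) : ℂ) ^ (-s - 1) := by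
    unfold GG h1
    rw [e1, Finset.sum_Ico_succ_top (by norm_num)]
    simp only [Finset.Ico_self, Finset.sum_empty, Nat.cast_one, Complex.one_cpow]
    ring
  have c1 : ‖(s - 1) * s / 24 * ((3 / 2 : ℝ) : ℂ) ^ (-s - 1)‖ ≤
      2.51 * 2.7 / 24 * (1.012 / (3 / 2) ^ 2) := by
    rw [norm_mul, norm_div, norm_mul, Complex.norm_ofNat,
      Complex.norm_cpow_eq_rpow_re_of_pos (by norm_num)]
    gcongr
    exact rpk 2 (by norm_num) (by norm_num) (by
      simp only [Complex.sub_re, Complex.neg_re, sre, Complex.one_re]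
      rw [abs_le]; constructor <;> push_cast <;> linarith)
  have c2 : 0.989 * 0.474 ≤ (((3 / 2 : ℝ) : ℂ) ^ (1 - s)).re := by
    rw [Complex.cpow_def_of_ne_zero (by norm_num), ← Complex.ofReal_log (by norm_num),
      Complex.exp_re]
    simp only [Complex.mul_re, Complex.mul_im, Complex.ofReal_re, Complex.ofReal_im,
      Complex.sub_re, Complex.sub_im, Complex.one_re, Complex.one_im, sre, sim, zero_mul, sub_zero,
      add_zero, zero_sub]
    have l0 : 0 ≤ Real.log (3 / 2) := Real.log_nonneg (by norm_num)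
    have l1 := log32
    have b1 := (rp (x := 3 / 2) (e := 1 - σ) (by norm_num) (by norm_num)
      (by rw [abs_le]; constructor <;> linarith)).1
    rw [Real.rpow_def_of_pos (by norm_num)] at b1
    have b2 := Real.one_sub_sq_div_two_le_cos (x := Real.log (3 / 2) * -τ)
    have b3 : (Real.log (3 / 2) * -τ) ^ 2 ≤ (0.41 * 2.5) ^ 2 := by
      rw [← sq_abs, abs_mul, abs_neg, abs_of_nonneg l0]
      gcongr
    exact mul_le_mul b1 (by linarith) (by norm_num) (Real.exp_pos _).le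
  have d1 := Complex.re_le_norm (riemannZeta₁ s)
  have d2 := Complex.abs_re_le_norm (riemannZeta₁ s - GG 2 s)
  have d3 := Complex.re_le_norm ((s - 1) * s / 24 * ((3 / 2 : ℝ) : ℂ) ^ (-s - 1))
  have d4 : (GG 2 s).re = σ - 1 + (((3 / 2 : ℝ) : ℂ) ^ (1 - s)).re -
      ((s - 1) * s / 24 * ((3 / 2 : ℝ) : ℂ) ^ (-s - 1)).re := by
    rw [eG, Complex.sub_re, Complex.add_re, Complex.sub_re, sre, Complex.one_re]
  rw [Complex.sub_re] at d2
  have d5 := neg_abs_le ((riemannZeta₁ s).re - (GG 2 s).re)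
  have k3 : ‖riemannZeta₁ s - GG 2 s‖ ≤ 0.2062 := k2.trans (by norm_num)
  have c3 := c1.trans (show _ ≤ (0.12701 : ℝ) by norm_num)
  have c4 := (show (0.4687 : ℝ) ≤ _ by norm_num).trans c2
  linarith

lemma low_mid {σ τ T₁ T₂ b₀ b₁ b₂ b₃ : ℝ} (hσ : |σ - 1| ≤ 0.01) (h1 : T₁ ≤ |τ|) (hτ : |τ| ≤ T₂)
    (p0 : 0 ≤ b₀) (p1 : 0 ≤ b₁) (p2 : 0 ≤ b₂) (p3 : 0 ≤ b₃) (q : b₀ < 20)
    (q0 : (1.01 + 0) ^ 2 + T₂ ^ 2 ≤ b₀ ^ 2) (q1 : (1.01 + 1) ^ 2 + T₂ ^ 2 ≤ b₁ ^ 2)
    (q2 : (1.01 + 2) ^ 2 + T₂ ^ 2 ≤ b₂ ^ 2) (q3 : (1.01 + 3) ^ 2 + T₂ ^ 2 ≤ b₃ ^ 2)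
    (hc : 0 ≤ 0.494 - 0.00675 * b₀ - 0.0000384 * (b₀ * b₁ * b₂ * b₃))
    (hf : 1.102 ≤ T₁ * (0.494 - 0.00675 * b₀ - 0.0000384 * (b₀ * b₁ * b₂ * b₃))) :
    0.09 ≤ ‖riemannZeta₁ (σ + τ * Complex.I)‖ := by
  obtain ⟨a1, a2⟩ := abs_le.1 hσ
  set s : ℂ := σ + τ * Complex.I with hs
  have sre : s.re = σ := by simp [hs]
  have sim : s.im = τ := by simp [hs]
  have n0 : ‖s‖ ≤ b₀ := by simpa using nb 0 hσ hτ le_rfl p0 q0
  have n1 : ‖s + 1‖ ≤ b₁ := by simpa using nb 1 hσ hτ (by norm_num) p1 q1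
  have n2 : ‖s + 2‖ ≤ b₂ := by simpa using nb 2 hσ hτ (by norm_num) p2 q2
  have n3 : ‖s + 3‖ ≤ b₃ := by simpa using nb 3 hσ hτ (by norm_num) p3 q3
  have nm : T₁ ≤ ‖s - 1‖ := by
    have := Complex.abs_im_le_norm (s - 1)
    simp only [Complex.sub_im, sim, Complex.one_im, sub_zero] at this
    linarith
  have a0 := norm_nonneg (s - 1)
  have hP : PP s ≤ ‖s - 1‖ * b₀ * b₁ * b₂ * b₃ := by
    unfold PP
    simp only [norm_mul]
    gcongr
  have k := em1 (N := 3) (by norm_num) (s := s) (by rw [sre]; linarith) (by linarith)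
  have e1 : ((3 : ℕ) : ℝ) - 1 / 2 = 5 / 2 := by norm_num
  have r1 : (5 / 2 : ℝ) ^ (-s.re) ≤ 1.012 / (5 / 2) ^ 1 :=
    rpk 1 (by norm_num) (by norm_num) (by rw [sre, abs_le]; constructor <;> push_cast <;> linarith)
  rw [e1] at k
  have k2 : ‖riemannZeta₁ s - GG 3 s‖ ≤
      ‖s - 1‖ * b₀ * b₁ * b₂ * b₃ * (1.012 / (5 / 2) ^ 1) / 1320 * (1 / 8) := by
    refine k.trans ?_
    gcongr
    norm_num
  have eG : (s - 1) = GG 3 s - (s - 1) * ((2 : ℝ) : ℂ) ^ (-s) - ((5 / 2 : ℝ) : ℂ) ^ (1 - s) +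
      (s - 1) * s / 24 * ((5 / 2 : ℝ) : ℂ) ^ (-s - 1) := by
    unfold GG E26.h1
    rw [e1, Finset.sum_Ico_succ_top (by norm_num), Finset.sum_Ico_succ_top (by norm_num)]
    simp only [Finset.Ico_self, Finset.sum_empty, Nat.cast_one, Complex.one_cpow, Nat.cast_ofNat,
      Complex.ofReal_ofNat]
    ring
  have c1 : ‖(s - 1) * s / 24 * ((5 / 2 : ℝ) : ℂ) ^ (-s - 1)‖ ≤
      ‖s - 1‖ * b₀ / 24 * (1.012 / (5 / 2) ^ 2) := by
    rw [norm_mul, norm_div, norm_mul, Complex.norm_ofNat,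
      Complex.norm_cpow_eq_rpow_re_of_pos (by norm_num)]
    gcongr
    exact rpk 2 (by norm_num) (by norm_num) (by
      simp only [Complex.sub_re, Complex.neg_re, sre, Complex.one_re]
      rw [abs_le]; constructor <;> push_cast <;> linarith)
  have c2 : ‖((5 / 2 : ℝ) : ℂ) ^ (1 - s)‖ ≤ 1.012 := by
    rw [Complex.norm_cpow_eq_rpow_re_of_pos (by norm_num)]
    exact (rp (by norm_num) (by norm_num) (by
      simp only [Complex.sub_re, sre, Complex.one_re]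
      rw [abs_le]; constructor <;> linarith)).2
  have c3 : ‖(s - 1) * ((2 : ℝ) : ℂ) ^ (-s)‖ ≤ ‖s - 1‖ * (1.012 / 2 ^ 1) := by
    rw [norm_mul, Complex.norm_cpow_eq_rpow_re_of_pos (by norm_num)]
    gcongr
    exact rpk 1 (by norm_num) (by norm_num) (by
      simp only [Complex.neg_re, sre]
      rw [abs_le]; constructor <;> push_cast <;> linarith)
  have d1 : ‖s - 1‖ ≤ ‖GG 3 s‖ + ‖(s - 1) * ((2 : ℝ) : ℂ) ^ (-s)‖ +
      ‖((5 / 2 : ℝ) : ℂ) ^ (1 - s)‖ + ‖(s - 1) * s / 24 * ((5 / 2 : ℝ) : ℂ) ^ (-s - 1)‖ := by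
    refine (congrArg norm eG).le.trans ((norm_add_le _ _).trans (add_le_add ?_ le_rfl))
    exact (norm_sub_le _ _).trans (add_le_add (norm_sub_le _ _) le_rfl)
  have d2 := norm_le_norm_add_norm_sub' (GG 3 s) (riemannZeta₁ s)
  rw [norm_sub_rev] at d2
  have d3 := mul_le_mul_of_nonneg_right nm hc
  have u1 : 0 ≤ ‖s - 1‖ * b₀ := mul_nonneg a0 p0
  have u2 : 0 ≤ ‖s - 1‖ * b₀ * b₁ * b₂ * b₃ := by positivity
  nlinarith

theorem zeta_low {σ τ : ℝ} (hσ : |σ - 1| ≤ 0.01) (hτ : |τ| ≤ 7.5) :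
    0.09 ≤ ‖riemannZeta₁ (σ + τ * Complex.I)‖ := by
  rcases le_total |τ| 2.5 with h | h
  · exact low_small hσ h
  rcases le_total |τ| 4 with h' | h'
  · exact low_mid (b₀ := 4.13) (b₁ := 4.48) (b₂ := 5.01) (b₃ := 5.67) hσ h h' (by norm_num)
      (by norm_num) (by norm_num) (by norm_num) (by norm_num) (by norm_num) (by norm_num)
      (by norm_num) (by norm_num) (by norm_num) (by norm_num)
  · exact low_mid (b₀ := 7.57) (b₁ := 7.77) (b₂ := 8.09) (b₃ := 8.51) hσ h' hτ (by norm_num)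
      (by norm_num) (by norm_num) (by norm_num) (by norm_num) (by norm_num) (by norm_num)
      (by norm_num) (by norm_num) (by norm_num) (by norm_num)

end

end Pool.Agent.Lib.MP_5db4ad_nt.E26
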