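import Pool.Agent.Lib.MP_5db4ad_nt.S2Main
import Pool.Agent.Lib.MP_5db4ad_nt.E26Zeta

/-!
The Tauberian bound for the partial sums of `gg` with explicit constants.
-/

set_option autoImplicit false

namespace Pool.Agent.Lib.MP_5db4ad_nt.E26

open Finset Filter Complex S2 S2.Taub1
open scoped Real

noncomputable section

lemma one_sub_ge {z : ℂ} {b : ℝ} (h : ‖z‖ ≤ b) : 1 - b ≤ ‖1 - z‖ := by
  have := norm_sub_norm_le (1 : ℂ) z
  rw [norm_one] at this
  linarith

lemma near {σ τ : ℝ} (hσ : |σ - 1| ≤ 0.01) (hτ : |τ| ≤ 7.5) :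
    DifferentiableAt ℂ G1 (σ + τ * I) ∧ ‖G1 (σ + τ * I)‖ ≤ 100000 := by
  obtain ⟨a1, a2⟩ := abs_le.1 hσ
  have z := zeta_low hσ hτ
  have he : |-σ + ((1 : ℕ) : ℝ)| ≤ 0.01 := by
    rw [abs_le]
    constructor <;> push_cast <;> linarith
  have h2 : 1 - 1.012 / 2 ^ 1 ≤ ‖1 - (2 : ℂ) ^ (-((σ : ℂ) + τ * I))‖ := by
    refine one_sub_ge ?_
    have := S2M.norm_cp (p := 2) (by norm_num) σ τ
    simp only [Nat.cast_ofNat] at this
    rw [this]
    exact rpk 1 (by norm_num) (by norm_num) he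
  have h3 : 1 - 1.012 / 3 ^ 1 ≤ ‖1 - (3 : ℂ) ^ (-((σ : ℂ) + τ * I))‖ := by
    refine one_sub_ge ?_
    have := S2M.norm_cp (p := 3) (by norm_num) σ τ
    simp only [Nat.cast_ofNat] at this
    rw [this]
    exact rpk 1 (by norm_num) (by norm_num) he
  have hD := S2M.Df_ge (σ := σ) τ (by linarith)
  have hW : (0.09 * (1 - 1.012 / 2 ^ 1) * (1 - 1.012 / 3 ^ 1)) ^ 2 * 0.676 ≤ ‖WW (σ + τ * I)‖ := by
    unfold WW
    rw [norm_mul, norm_pow, norm_mul, norm_mul]
    gcongr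
  have hW' : 0.000586 ≤ ‖WW (σ + τ * I)‖ := le_trans (by norm_num) hW
  have hW0 : WW (σ + τ * I) ≠ 0 := fun e => by
    rw [e, norm_zero] at hW'
    norm_num at hW'
  refine ⟨G1_diff hW0, ?_⟩
  have nm : ‖(σ : ℂ) + τ * I - 1‖ ≤ 7.51 := by
    have := Complex.norm_le_abs_re_add_abs_im ((σ : ℂ) + τ * I - 1)
    simp only [sub_re, add_re, ofReal_re, mul_re, I_re, ofReal_im, I_im, one_re, sub_im, add_im,
      mul_im, one_im, mul_zero, mul_one, sub_zero, add_zero, zero_add, sub_self] at this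
    linarith
  have n2 : ‖(σ : ℂ) + τ * I - 1‖ ^ 2 ≤ 7.51 ^ 2 := by gcongr
  unfold G1
  rw [norm_div, norm_pow, div_le_iff₀ (by linarith)]
  norm_num at n2 ⊢
  linarith

lemma exp54 : Real.exp (2 * 2.7) ≤ 225 := by
  have h1 : Real.exp 2.7 ≤ 15 := by
    have a : Real.exp 2.7 * Real.exp 0.3 = Real.exp 1 ^ 3 := by
      rw [← Real.exp_add, ← Real.exp_nat_mul]
      norm_num
    have b : 1.345 ≤ Real.exp 0.3 := by
      refine le_trans ?_ (Real.quadratic_le_exp_of_nonneg (by norm_num))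
      norm_num
    have c : Real.exp 1 ^ 3 ≤ 2.72 ^ 3 := by
      gcongr
      linarith [Real.exp_one_lt_d9]
    have d := Real.exp_pos 2.7
    have c' : Real.exp 1 ^ 3 ≤ 20.13 := c.trans (by norm_num)
    nlinarith
  rw [two_mul, Real.exp_add]
  nlinarith [Real.exp_pos 2.7]

lemma strip (L σ τ : ℝ) (hL : 17 ≤ L) (h1 : 1 - 0.065 / L ≤ σ) (h2 : σ ≤ 1 + 0.065 / L)
    (h4 : |τ| + 2 ≤ 2 * π * Real.exp L) :
    DifferentiableAt ℂ G1 (σ + τ * I) ∧ ‖G1 (σ + τ * I)‖ ≤ 430 * L ^ 2 := by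
  have L0 : 0 < L := by linarith
  rcases le_total |τ| 7.5 with h3 | h3
  · have a2 : 0.065 / L ≤ 0.01 := by
      rw [div_le_iff₀ L0]
      linarith
    obtain ⟨b1, b2⟩ := near (σ := σ) (abs_le.2 ⟨by linarith, by linarith⟩) h3
    exact ⟨b1, b2.trans (by nlinarith)⟩
  · have a2 : 0.065 / L ≤ 1 / (3 * L) := by
      rw [div_le_div_iff₀ L0 (by linarith)]
      linarith
    obtain ⟨b1, b2⟩ := far gm zall2 hL (σ := σ) h1 (by linarith) h3 h4
    refine ⟨b1, b2.trans ?_⟩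
    have a3 : 1.69 * (1 + L) ^ 2 ≤ 1.9 * L ^ 2 := by nlinarith
    calc _ ≤ 1.9 * L ^ 2 * 225 := mul_le_mul a3 exp54 (Real.exp_pos _).le (by positivity)
      _ ≤ _ := by nlinarith

lemma decay {w : ℝ} (hw : 2200 ≤ w) : 50000 * w ^ 14 * Real.exp (-(0.065 * w)) ≤ 1 := by
  have w0 : 0 < w := by linarith
  have h := Real.pow_div_factorial_le_exp (0.065 * w) (by positivity) 100
  rw [Real.exp_neg, ← div_eq_mul_inv, div_le_one (Real.exp_pos _)]
  refine le_trans ?_ h
  rw [le_div_iff₀ (by positivity), mul_pow, show w ^ 100 = w ^ 86 * w ^ 14 by ring]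
  have a : (2200 : ℝ) ^ 86 ≤ w ^ 86 := by gcongr
  have b : (50000 : ℝ) * (Nat.factorial 100 : ℕ) ≤ 0.065 ^ 100 * 2200 ^ 86 := by
    norm_num [Nat.factorial]
  calc 50000 * w ^ 14 * (Nat.factorial 100 : ℕ) = 50000 * (Nat.factorial 100 : ℕ) * w ^ 14 := by
        ring
    _ ≤ 0.065 ^ 100 * w ^ 86 * w ^ 14 :=
        mul_le_mul_of_nonneg_right (b.trans (mul_le_mul_of_nonneg_left a (by positivity)))
          (by positivity)
    _ = _ := by ring

lemma smooth {x : ℝ} (hx : 1 ≤ x) (hl : 4840000 ≤ Real.log x) :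
    |∑' m : ℕ, gg m / (1 + (m / x) ^ (3 * Real.log x ^ 4 + 2))| ≤ 0.4 * x / Real.log x ^ 2 := by
  have hu : Real.log x = √(Real.log x) ^ 2 := (Real.sq_sqrt (Real.log_nonneg hx)).symm
  have hw : 2200 ≤ √(Real.log x) := Real.le_sqrt_of_sq_le (by linarith)
  generalize √(Real.log x) = w at hw hu
  have w1 : 1 ≤ w := by linarith
  have w0 : 0 < w := by linarith
  have E0 := Real.exp_pos (-(0.065 * w))
  have h3 := decay hw
  have p2 : w ^ 2 ≤ w ^ 10 := pow_le_pow_right₀ w1 (by norm_num)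
  have p4 : w ^ 4 ≤ w ^ 10 := pow_le_pow_right₀ w1 (by norm_num)
  have p10 : 1 ≤ w ^ 10 := one_le_pow₀ w1
  have p14 : w ^ 10 ≤ w ^ 14 := pow_le_pow_right₀ w1 (by norm_num)
  have h5 : 50000 * w ^ 14 ≤ Real.exp w := by
    have a1 : Real.exp (-w) ≤ Real.exp (-(0.065 * w)) := Real.exp_le_exp.2 (by linarith)
    have a2 := (mul_le_mul_of_nonneg_left a1 (by positivity : 0 ≤ 50000 * w ^ 14)).trans h3
    rwa [Real.exp_neg, ← div_eq_mul_inv, div_le_one (Real.exp_pos w)] at a2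
  have hp : (3 * (w ^ 2) ^ 4 + 2) * w ^ 2 ≤ 5 * w ^ 10 := by nlinarith
  have key := core kapp (mel kapp) rect dir (mass maj) (η := 0.065) (C := 430) (by norm_num) le_rfl
    (by norm_num) strip (by linarith) (by linarith) hx hu
    (p := 3 * (w ^ 2) ^ 4 + 2) (by have : 0 ≤ (w ^ 2) ^ 4 := by positivity
                                   linarith)
    (by nlinarith [Real.pi_gt_three, Real.exp_pos w])
  rw [hu]
  refine key.trans ?_
  have h7 : 24 * 430 * w ^ 2 + 4 * 430 * w ^ 2 * (3 * (w ^ 2) ^ 4 + 2) + 40 * w ^ 4 ≤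
      20000 * w ^ 10 := by nlinarith
  rw [le_div_iff₀ (by positivity)]
  calc _ ≤ x * Real.exp (-(0.065 * w)) * (20000 * w ^ 10) * (w ^ 2) ^ 2 := by gcongr
    _ = 0.4 * x * (50000 * w ^ 14 * Real.exp (-(0.065 * w))) := by ring
    _ ≤ _ := mul_le_of_le_one_right (by positivity) h3

lemma window {x : ℝ} (hx1 : 1 ≤ x) (hl : 1000 ≤ Real.log x) :
    |TT x - ∑' m : ℕ, gg m / (1 + (m / x) ^ (3 * Real.log x ^ 4 + 2))| ≤
      0.6 * (x / Real.log x ^ 2) := by
  have hx0 : 0 < x := by linarith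
  set u := Real.log x with hu
  have hu1 : 1 ≤ u := by linarith
  have hu0 : 0 < u := by linarith
  set d := 1 / u ^ 3 with hd
  have hd0 : 0 < d := by positivity
  have hd1 : d ≤ 1 := by
    rw [hd, div_le_one (by positivity)]; exact one_le_pow₀ hu1
  have hy : 1 ≤ x * Real.exp (-d) := by
    have : x * Real.exp (-d) = Real.exp (u - d) := by
      rw [sub_eq_add_neg, Real.exp_add, hu, Real.exp_log hx0]
    rw [this]; exact Real.one_le_exp (by linarith)
  have hE1 : Real.exp d ≤ 1 + 2 * d := by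
    have := Real.abs_exp_sub_one_le (x := d) (by rw [abs_of_pos hd0]; exact hd1)
    rw [abs_of_pos hd0] at this
    linarith [le_abs_self (Real.exp d - 1)]
  have hE2 : 1 - d ≤ Real.exp (-d) := by linarith [Real.add_one_le_exp (-d)]
  have hE3 : Real.exp (-d) ≤ Real.exp d := Real.exp_le_exp.mpr (by linarith)
  set h := x * Real.exp d - x * Real.exp (-d) with hh
  have hh0 : 0 ≤ h := by rw [hh]; nlinarith
  have hh1 : h ≤ 3 * d * x := by rw [hh]; nlinarith
  set S := (range (⌊x * Real.exp d⌋₊ + 1)).filter fun m : ℕ => x * Real.exp (-d) ≤ m with hSd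
  have hyh : x * Real.exp (-d) + h = x * Real.exp d := by rw [hh]; ring
  have hmass := short maj (x * Real.exp (-d)) h hy hh0 S (by
    intro m hm
    rw [hSd, mem_filter, mem_range] at hm
    refine ⟨hm.2, ?_⟩
    rw [hyh]
    exact (Nat.le_floor_iff (by positivity)).mp (by omega))
  rw [hyh] at hmass
  have hcmp := Taub.compare (mass maj) (x := x) (d := d) (p := 3 * u ^ 4 + 2) hx1 hd0.le
    (by nlinarith [pow_pos hu0 4]) (by
      rw [← hu, hd]; apply le_of_eq; field_simp; ring) S (by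
      intro m h1 h2
      rw [hSd, mem_filter, mem_range]
      exact ⟨Nat.lt_succ_of_le (Nat.le_floor h2), h1⟩)
  refine hcmp.trans ?_
  have hlog : Real.log (x * Real.exp d) = u + d := by
    rw [Real.log_mul hx0.ne' (Real.exp_pos d).ne', Real.log_exp]
  rw [hlog] at hmass
  set Q := x / u ^ 2 with hQ
  have hQ0 : 0 < Q := by positivity
  have hs1 : (1 : ℝ) ≤ √x := Real.one_le_sqrt.mpr hx1
  have hsq : 1000 * √x ≤ Q := by
    have h1 : 1000 * u ^ 2 ≤ √x := by
      have a := Real.pow_div_factorial_le_exp (u / 2) (by positivity) 5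
      have b : Real.exp (u / 2) = √x := by
        rw [hu, ← Real.log_sqrt hx0.le, Real.exp_log (by linarith)]
      have c : (1000 : ℝ) ^ 3 ≤ u ^ 3 := by gcongr
      rw [b] at a
      refine le_trans ?_ a
      norm_num [Nat.factorial]
      nlinarith [pow_pos hu0 2]
    rw [hQ, le_div_iff₀ (by positivity)]
    have h2 : √x * √x = x := Real.mul_self_sqrt hx0.le
    nlinarith
  have hA : √(x * Real.exp d) ≤ 2 * √x := by
    rw [show 2 * √x = √(2 ^ 2 * x) by
      rw [Real.sqrt_mul (by norm_num), Real.sqrt_sq (by norm_num)]]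
    apply Real.sqrt_le_sqrt
    nlinarith
  have hB : (0.12624 * (u + d) + 0.7574) * h ≤ 0.39 * Q := by
    have e1 : 0.12624 * (u + d) + 0.7574 ≤ 0.13 * u := by linarith
    have e2 : 0.13 * u * (3 * d * x) = 0.39 * Q := by
      rw [hQ, hd]; field_simp; norm_num
    calc (0.12624 * (u + d) + 0.7574) * h ≤ (0.13 * u) * (3 * d * x) :=
          mul_le_mul e1 hh1 hh0 (by positivity)
      _ = 0.39 * Q := e2
  have hC : 3 / x ≤ 3 := div_le_self (by norm_num) hx1
  linarith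

/-- the explicit Tauberian bound -/
theorem TT_le {x : ℝ} (hx : 1 ≤ x) (hl : 4840000 ≤ Real.log x) :
    |TT x| ≤ x / Real.log x ^ 2 := by
  have h1 := smooth hx hl
  have h2 := window hx (by linarith)
  have h3 := abs_sub_abs_le_abs_sub (TT x)
    (∑' m : ℕ, gg m / (1 + (m / x) ^ (3 * Real.log x ^ 4 + 2)))
  rw [mul_div_assoc] at h1
  linarith

/-- the trivial bound -/
theorem TT_triv {x : ℝ} (hx : 1 ≤ x) : |TT x| ≤ x * (Real.log x + 57) := by
  have h := short maj 1 (x - 1) le_rfl (by linarith) (Icc 1 ⌊x⌋₊) fun m hm => by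
    obtain ⟨a, b⟩ := mem_Icc.1 hm
    refine ⟨by exact_mod_cast a, ?_⟩
    have := (Nat.le_floor_iff (by linarith)).1 b
    linarith
  rw [add_sub_cancel] at h
  have l0 := Real.log_nonneg hx
  have s1 : √x ≤ x := by
    rw [Real.sqrt_le_left (by linarith)]
    nlinarith
  refine (abs_sum_le_sum_abs _ _).trans (h.trans ?_)
  nlinarith

end

end Pool.Agent.Lib.MP_5db4ad_nt.E26
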