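import Mathlib

/-!
A fourth order midpoint rule for the zeta function.
-/

namespace Pool.Agent.Lib.MP_5db4ad_nt

open Set Filter Topology

lemma chain_step {G G' : ℝ → ℂ} {C : ℝ} {k : ℕ} (h0 : G 0 = 0)
    (hd : ∀ t ∈ Icc (0 : ℝ) (1 / 2), HasDerivAt G (G' t) t)
    (hb : ∀ t ∈ Icc (0 : ℝ) (1 / 2), ‖G' t‖ ≤ C * t ^ k) :
    ∀ t ∈ Icc (0 : ℝ) (1 / 2), ‖G t‖ ≤ C / (k + 1) * t ^ (k + 1) := by
  refine image_norm_le_of_norm_deriv_right_le_deriv_boundary (f' := G')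
    (B := fun t => C / (k + 1) * t ^ (k + 1)) (B' := fun t => C * t ^ k)
    (fun t ht => (hd t ht).continuousAt.continuousWithinAt)
    (fun t ht => (hd t (Ico_subset_Icc_self ht)).hasDerivWithinAt) (by simp [h0]) (fun t => ?_)
    fun t ht => hb t (Ico_subset_Icc_self ht)
  refine ((hasDerivAt_pow (k + 1) t).const_mul (C / (k + 1))).congr_deriv ?_
  push_cast
  field_simp

lemma midpoint_rule {F : ℕ → ℝ → ℂ} {n M : ℝ}
    (hd : ∀ i < 5, ∀ x ∈ Icc (n - 1 / 2) (n + 1 / 2), HasDerivAt (F i) (F (i + 1) x) x)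
    (hM : ∀ x ∈ Icc (n - 1 / 2) (n + 1 / 2), ‖F 5 x‖ ≤ M) :
    ‖F 0 (n + 1 / 2) - F 0 (n - 1 / 2) - F 1 n - (F 2 (n + 1 / 2) - F 2 (n - 1 / 2)) / 24‖ ≤
      M / 440 := by
  have m1 : ∀ t ∈ Icc (0 : ℝ) (1 / 2), n + t ∈ Icc (n - 1 / 2) (n + 1 / 2) := fun t ht =>
    ⟨by linarith [ht.1], by linarith [ht.2]⟩
  have m2 : ∀ t ∈ Icc (0 : ℝ) (1 / 2), n - t ∈ Icc (n - 1 / 2) (n + 1 / 2) := fun t ht =>
    ⟨by linarith [ht.2], by linarith [ht.1]⟩
  have d1 : ∀ i < 5, ∀ t ∈ Icc (0 : ℝ) (1 / 2),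
      HasDerivAt (fun t => F i (n + t)) (F (i + 1) (n + t)) t := fun i hi t ht =>
    (hd i hi _ (m1 t ht)).comp_const_add n t
  have d2 : ∀ i < 5, ∀ t ∈ Icc (0 : ℝ) (1 / 2),
      HasDerivAt (fun t => F i (n - t)) (-F (i + 1) (n - t)) t := fun i hi t ht =>
    (hd i hi _ (m2 t ht)).comp_const_sub n t
  have dp : ∀ (k : ℕ) (t : ℝ), HasDerivAt (fun t : ℝ => (t : ℂ) ^ k) (k * (t : ℂ) ^ (k - 1)) t :=
    fun k t => (hasDerivAt_pow k (t : ℂ)).comp_ofReal
  have g5 := chain_step (G := fun t => F 4 (n + t) - F 4 (n - t))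
    (G' := fun t => F 5 (n + t) + F 5 (n - t)) (C := 2 * M) (k := 0) (by simp)
    (fun t ht => ((d1 4 (by norm_num) t ht).fun_sub (d2 4 (by norm_num) t ht)).congr_deriv
      (by simp))
    fun t ht => (norm_add_le _ _).trans (by linarith [hM _ (m1 t ht), hM _ (m2 t ht)])
  have g4 := chain_step (G := fun t => F 3 (n + t) + F 3 (n - t) - 2 * F 3 n) (by simp; ring)
    (fun t ht => by
      simpa [sub_eq_add_neg] using
        ((d1 3 (by norm_num) t ht).add (d2 3 (by norm_num) t ht)).sub_const (2 * F 3 n)) g5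
  have g3 := chain_step (G := fun t => F 2 (n + t) - F 2 (n - t) - (t : ℂ) ^ 1 * (2 * F 3 n))
    (by simp) (fun t ht => by
      refine (((d1 2 (by norm_num) t ht).fun_sub (d2 2 (by norm_num) t ht)).fun_sub
        ((dp 1 t).mul_const (2 * F 3 n))).congr_deriv ?_
      simp) g4
  have g2 := chain_step
    (G := fun t => F 1 (n + t) + F 1 (n - t) - 2 * F 1 n - (t : ℂ) ^ 2 * F 3 n)
    (by simp; ring) (fun t ht => by
      refine ((((d1 1 (by norm_num) t ht).fun_add (d2 1 (by norm_num) t ht)).sub_const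
        (2 * F 1 n)).fun_sub ((dp 2 t).mul_const (F 3 n))).congr_deriv ?_
      simp
      ring) g3
  have g1 := chain_step (G := fun t => F 0 (n + t) - F 0 (n - t) - (t : ℂ) ^ 1 * (2 * F 1 n) -
      (t : ℂ) ^ 3 * (F 3 n / 3)) (by simp) (fun t ht => by
      refine ((((d1 0 (by norm_num) t ht).fun_sub (d2 0 (by norm_num) t ht)).fun_sub
        ((dp 1 t).mul_const (2 * F 1 n))).fun_sub ((dp 3 t).mul_const (F 3 n / 3))).congr_deriv ?_
      simp
      ring) g2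
  have hh : (1 / 2 : ℝ) ∈ Icc (0 : ℝ) (1 / 2) := ⟨by norm_num, le_rfl⟩
  have a1 := g1 _ hh
  have a3 := g3 _ hh
  have hM0 : 0 ≤ M := (norm_nonneg _).trans (hM n ⟨by linarith, by linarith⟩)
  have e : F 0 (n + 1 / 2) - F 0 (n - 1 / 2) - F 1 n - (F 2 (n + 1 / 2) - F 2 (n - 1 / 2)) / 24 =
      (F 0 (n + 1 / 2) - F 0 (n - 1 / 2) - ((1 / 2 : ℝ) : ℂ) ^ 1 * (2 * F 1 n) -
      ((1 / 2 : ℝ) : ℂ) ^ 3 * (F 3 n / 3)) -
      (F 2 (n + 1 / 2) - F 2 (n - 1 / 2) - ((1 / 2 : ℝ) : ℂ) ^ 1 * (2 * F 3 n)) / 24 := by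
    push_cast
    ring
  rw [e]
  refine (norm_sub_le _ _).trans ?_
  rw [norm_div, Complex.norm_ofNat]
  norm_num at a1 a3 ⊢
  linarith

/-- the main terms of the tail -/
noncomputable def hh (s : ℂ) (x : ℝ) : ℂ := (x : ℂ) ^ (1 - s) / (s - 1) - s / 24 * (x : ℂ) ^ (-s - 1)

lemma em_one {s : ℂ} (hs : 1 ≤ s.re) (hs1 : s ≠ 1) {n : ℝ} (hn : 2 ≤ n) :
    ‖(n : ℂ) ^ (-s) - (hh s (n - 1 / 2) - hh s (n + 1 / 2))‖ ≤
      ‖s * (s + 1) * (s + 2) * (s + 3)‖ / 1760 * (1 / (n - 1) ^ 4 - 1 / n ^ 4) := by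
  have h1 : 1 - s ≠ 0 := sub_ne_zero.2 hs1.symm
  have h2 : s - 1 ≠ 0 := sub_ne_zero.2 hs1
  have key := midpoint_rule (n := n) (M := ‖s * (s + 1) * (s + 2) * (s + 3)‖ / (n - 1 / 2) ^ 5)
    (F := fun i x => (∏ j ∈ Finset.range i, (1 - s - j)) / (1 - s) * (x : ℂ) ^ (1 - s - i))
    (fun i _ x hx => by
      have hx0 : 0 < x := by linarith [hx.1]
      have := ((hasDerivAt_id (x : ℂ)).cpow_const (c := 1 - s - i)
        (Complex.ofReal_mem_slitPlane.2 hx0)).comp_ofReal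
      refine (this.const_mul ((∏ j ∈ Finset.range i, (1 - s - j)) / (1 - s))).congr_deriv ?_
      rw [Finset.prod_range_succ]
      push_cast
      rw [← sub_sub]
      simp only [id]
      ring)
    (fun x hx => by
      have hx0 : 1 ≤ n - 1 / 2 := by linarith
      have e : (∏ j ∈ Finset.range 5, (1 - s - j)) / (1 - s) = s * (s + 1) * (s + 2) * (s + 3) := by
        simp only [Finset.prod_range_succ]
        field_simp
        push_cast
        ring
      rw [e, norm_mul, Complex.norm_cpow_eq_rpow_re_of_pos (by linarith [hx.1]), div_eq_mul_inv]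
      refine mul_le_mul_of_nonneg_left ?_ (norm_nonneg _)
      have a1 : x ^ (1 - s - (5 : ℕ)).re ≤ x ^ (-(5 : ℕ) : ℝ) :=
        Real.rpow_le_rpow_of_exponent_le (by linarith [hx.1]) (by simp; linarith)
      rw [Real.rpow_neg (by linarith [hx.1]), Real.rpow_natCast] at a1
      refine a1.trans (inv_anti₀ (by positivity) ?_)
      gcongr
      exact hx.1)
  have e : (n : ℂ) ^ (-s) - (hh s (n - 1 / 2) - hh s (n + 1 / 2)) =
      -((∏ j ∈ Finset.range 0, (1 - s - j)) / (1 - s) * ((n + 1 / 2 : ℝ) : ℂ) ^ (1 - s - (0 : ℕ)) -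
      (∏ j ∈ Finset.range 0, (1 - s - j)) / (1 - s) * ((n - 1 / 2 : ℝ) : ℂ) ^ (1 - s - (0 : ℕ)) -
      (∏ j ∈ Finset.range 1, (1 - s - j)) / (1 - s) * (n : ℂ) ^ (1 - s - (1 : ℕ)) -
      ((∏ j ∈ Finset.range 2, (1 - s - j)) / (1 - s) * ((n + 1 / 2 : ℝ) : ℂ) ^ (1 - s - (2 : ℕ)) -
      (∏ j ∈ Finset.range 2, (1 - s - j)) / (1 - s) * ((n - 1 / 2 : ℝ) : ℂ) ^ (1 - s - (2 : ℕ))) /
        24) := by
    simp only [hh, Finset.prod_range_succ, Finset.prod_range_zero, Nat.cast_zero, Nat.cast_one,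
      Nat.cast_ofNat, sub_zero, show 1 - s - 1 = -s by ring, show 1 - s - 2 = -s - 1 by ring]
    rw [show s - 1 = -(1 - s) by ring]
    field_simp
    ring
  rw [e, norm_neg]
  refine key.trans ?_
  rw [div_div, div_eq_mul_one_div, div_mul_eq_mul_div, mul_div_assoc]
  refine mul_le_mul_of_nonneg_left ?_ (norm_nonneg _)
  have p1 : 0 < n - 1 := by linarith
  have p2 : 0 < n - 1 / 2 := by linarith
  rw [div_sub_div _ _ (by positivity) (by positivity), div_div,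
    div_le_div_iff₀ (by positivity) (by positivity)]
  obtain ⟨y, hy⟩ : ∃ y, n = y + 2 := ⟨n - 2, by ring⟩
  have : 0 ≤ y := by linarith
  rw [hy, ← sub_nonneg]
  ring_nf
  positivity

lemma em_lt {s : ℂ} (hs : 1 < s.re) {N : ℕ} (hN : 2 ≤ N) :
    ‖riemannZeta s - (∑ n ∈ Finset.Ico 1 N, (n : ℂ) ^ (-s) + hh s (N - 1 / 2))‖ ≤
      ‖s * (s + 1) * (s + 2) * (s + 3)‖ / 1760 * (1 / (N - 1) ^ 4) := by
  have hs1 : s ≠ 1 := by rintro rfl; simp at hs
  have hs0 : s ≠ 0 := by rintro rfl; norm_num at hs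
  set C := ‖s * (s + 1) * (s + 2) * (s + 3)‖ / 1760 with hC
  have hC0 : 0 ≤ C := by positivity
  have a1 : ∀ K, N ≤ K → ‖∑ n ∈ Finset.Ico 1 K, (n : ℂ) ^ (-s) + hh s (K - 1 / 2) -
      (∑ n ∈ Finset.Ico 1 N, (n : ℂ) ^ (-s) + hh s (N - 1 / 2))‖ ≤
      C * (1 / (N - 1) ^ 4 - 1 / (K - 1) ^ 4) := by
    intro K hK
    induction K, hK using Nat.le_induction with
    | base => simp
    | succ K hK ih =>
      have := em_one hs.le hs1 (n := K) (by exact_mod_cast hN.trans hK)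
      have b := (norm_add_le _ _).trans (add_le_add ih this)
      rw [Finset.sum_Ico_succ_top (by omega)]
      push_cast at b ⊢
      rw [add_sub_cancel_right, show (K : ℝ) + 1 - 1 / 2 = K + 1 / 2 by ring]
      rw [← hC] at b
      refine le_of_eq_of_le (congrArg norm (by ring)) (b.trans (le_of_eq (by ring)))
  have a2 : Tendsto (fun K : ℕ => ∑ n ∈ Finset.Ico 1 K, (n : ℂ) ^ (-s)) atTop
      (𝓝 (riemannZeta s)) := by
    rw [zeta_eq_tsum_one_div_nat_cpow hs]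
    refine (Complex.summable_one_div_nat_cpow.2 hs).hasSum.tendsto_sum_nat.congr' ?_
    filter_upwards [eventually_ge_atTop 1] with K hK
    rw [Finset.range_eq_Ico, Finset.sum_eq_sum_Ico_succ_bot hK]
    simp [hs0, Complex.cpow_neg]
  have a3 : ∀ a : ℂ, a.re < 0 → Tendsto (fun K : ℕ => ((K - 1 / 2 : ℝ) : ℂ) ^ a) atTop (𝓝 0) := by
    intro a ha
    rw [tendsto_zero_iff_norm_tendsto_zero]
    have := (tendsto_rpow_neg_atTop (neg_pos.2 ha)).comp
      (tendsto_atTop_add_const_right _ (-(1 / 2)) tendsto_natCast_atTop_atTop)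
    refine this.congr' ?_
    filter_upwards [eventually_ge_atTop 1] with K hK
    have : (1 : ℝ) ≤ K := by exact_mod_cast hK
    rw [Complex.norm_cpow_eq_rpow_re_of_pos (by linarith)]
    simp [sub_eq_add_neg]
  have a4 : Tendsto (fun K : ℕ => hh s (K - 1 / 2)) atTop (𝓝 0) := by
    have := ((a3 (1 - s) (by simpa using hs)).div_const (s - 1)).sub
      ((a3 (-s - 1) (by simp; linarith)).const_mul (s / 24))
    simpa [hh] using this
  have a5 := ((a2.add a4).sub_const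
    (∑ n ∈ Finset.Ico 1 N, (n : ℂ) ^ (-s) + hh s (N - 1 / 2))).norm
  rw [add_zero] at a5
  refine le_of_tendsto a5 ?_
  filter_upwards [eventually_ge_atTop N] with K hK
  refine (a1 K hK).trans (mul_le_mul_of_nonneg_left ?_ hC0)
  have : 0 ≤ 1 / ((K : ℝ) - 1) ^ 4 := by positivity
  linarith

lemma em_bound {s : ℂ} (hs : 1 ≤ s.re) (hs1 : s ≠ 1) {N : ℕ} (hN : 2 ≤ N) :
    ‖riemannZeta s - (∑ n ∈ Finset.Ico 1 N, (n : ℂ) ^ (-s) + hh s (N - 1 / 2))‖ ≤
      ‖s * (s + 1) * (s + 2) * (s + 3)‖ / 1760 * (1 / (N - 1) ^ 4) := by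
  have hN' : (2 : ℝ) ≤ N := by exact_mod_cast hN
  have t0 : Tendsto (fun e : ℝ => s + e) (𝓝[>] 0) (𝓝 s) := by
    have : Continuous fun e : ℝ => s + e := by fun_prop
    simpa using (this.tendsto 0).mono_left nhdsWithin_le_nhds
  have hx : ((N - 1 / 2 : ℝ) : ℂ) ≠ 0 := Complex.ofReal_ne_zero.2 (by linarith)
  have c1 : ContinuousAt (fun s => ‖riemannZeta s -
      (∑ n ∈ Finset.Ico 1 N, (n : ℂ) ^ (-s) + hh s (N - 1 / 2))‖) s := by
    refine ((differentiableAt_riemannZeta hs1).continuousAt.sub (ContinuousAt.add ?_ ?_)).norm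
    · refine (continuous_finsetSum _ fun n hn => ?_).continuousAt
      exact continuous_neg.const_cpow (Or.inl (by
        have := (Finset.mem_Ico.1 hn).1
        exact Nat.cast_ne_zero.2 (by omega)))
    · refine ContinuousAt.sub (ContinuousAt.div ?_ (by fun_prop) (sub_ne_zero.2 hs1))
        (ContinuousAt.mul (by fun_prop) ?_)
      · exact (Continuous.const_cpow (by fun_prop) (Or.inl hx)).continuousAt
      · exact (Continuous.const_cpow (by fun_prop) (Or.inl hx)).continuousAt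
  have c2 : Continuous fun s : ℂ =>
      ‖s * (s + 1) * (s + 2) * (s + 3)‖ / 1760 * (1 / ((N : ℝ) - 1) ^ 4) := by fun_prop
  refine le_of_tendsto_of_tendsto (c1.tendsto.comp t0) ((c2.tendsto s).comp t0) ?_
  filter_upwards [self_mem_nhdsWithin] with e he
  exact em_lt (by simp only [Complex.add_re, Complex.ofReal_re]; linarith [mem_Ioi.1 he]) hN

end Pool.Agent.Lib.MP_5db4ad_nt
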