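import Pool.Agent.Lib.MP_5db4ad_nt.S2LowSt

namespace Pool.Agent.Lib.MP_5db4ad_nt.S2

/-- The unfolding lemmas of `toL` and `L3.toList` are generated here once, for all later files. -/
theorem eqfix1 : True := by
  have h0 := @toL.eq_def
  have h1 := @toL.eq_1
  have h2 := @toL.eq_2
  have h3 := @L3.toList.eq_def
  have h4 := @L3.toList.eq_1
  have h5 := @L3.toList.eq_2
  trivial

end Pool.Agent.Lib.MP_5db4ad_nt.S2
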