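import Pool.Agent.Lib.MP_5db4ad_nt.FinalSpec

/-!
The Dirichlet series of `(-2) ^ Ω(n)` and its Euler product.
-/

namespace Pool.Agent.Lib.MP_5db4ad_nt

open Finset Filter Topology ArithmeticFunction

/-- the coefficients -/
noncomputable def aa (n : ℕ) : ℂ := (-2) ^ cardFactors n

/-- the terms of the Dirichlet series -/
noncomputable def hom {s : ℂ} (hs : s ≠ 0) : ℕ →*₀ ℂ where
  toFun n := aa n * (n : ℂ) ^ (-s)
  map_zero' := by simp [hs]
  map_one' := by simp [aa]
  map_mul' m n := by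
    rcases eq_or_ne m 0 with rfl | hm
    · simp [hs]
    rcases eq_or_ne n 0 with rfl | hn
    · simp [hs]
    rw [aa, aa, aa, cardFactors_mul hm hn, pow_add, Nat.cast_mul, Complex.natCast_mul_natCast_cpow]
    ring

lemma hom_prime {s : ℂ} (hs : s ≠ 0) {p : ℕ} (hp : p.Prime) : hom hs p = -2 * (p : ℂ) ^ (-s) := by
  simp [hom, aa, cardFactors_apply_prime hp]

lemma norm_two_cpow {s : ℂ} (hs : 1 < s.re) {p : ℕ} (hp : p.Prime) :
    2 * ‖(p : ℂ) ^ (-s)‖ ≤ 2 * (2 : ℝ) ^ (-s.re) ∧ 2 * (2 : ℝ) ^ (-s.re) < 1 := by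
  constructor
  · rw [Complex.norm_natCast_cpow_of_pos hp.pos, Complex.neg_re]
    exact mul_le_mul_of_nonneg_left (Real.rpow_le_rpow_of_nonpos (by norm_num)
      (by exact_mod_cast hp.two_le) (by linarith)) (by norm_num)
  · have := Real.rpow_lt_rpow_of_exponent_lt (x := 2) (by norm_num) (neg_lt_neg hs)
    rw [Real.rpow_neg_one] at this
    linarith

lemma summable_hom {s : ℂ} (hs : 1 < s.re) (h0 : s ≠ 0) : Summable fun n => ‖hom h0 n‖ := by
  set g : ℕ →* ℝ := ((normHom : ℂ →*₀ ℝ).comp (hom h0)).toMonoidHom with hg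
  have g1 : ∀ n, g n = ‖hom h0 n‖ := fun n => rfl
  set c : ℝ := 2 * (2 : ℝ) ^ (-s.re) with hc
  have c1 : c < 1 := (norm_two_cpow hs Nat.prime_two).2
  have g2 : ∀ {p : ℕ}, p.Prime → g p = 2 * ‖(p : ℂ) ^ (-s)‖ := fun hp => by
    rw [g1, hom_prime h0 hp, norm_mul, norm_neg, Complex.norm_ofNat]
  have g3 : ∀ {p : ℕ}, p.Prime → g p ≤ c := fun hp => (g2 hp).trans_le (norm_two_cpow hs hp).1
  have g4 : ∀ n, 0 ≤ g n := fun n => (norm_nonneg _).trans_eq (g1 n).symm
  have z1 : Summable fun n : ℕ => ‖(n : ℂ) ^ (-s)‖ := by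
    simpa [Complex.cpow_neg] using (Complex.summable_one_div_nat_cpow.2 hs).norm
  refine summable_of_sum_range_le (c := Real.exp (2 * (∑' n : ℕ, ‖(n : ℂ) ^ (-s)‖) / (1 - c)))
    (fun n => norm_nonneg _) fun N => ?_
  have h1 := (EulerProduct.summable_and_hasSum_smoothNumbers_prod_primesBelow_geometric (f := g)
    (fun hp => by rw [Real.norm_of_nonneg (g4 _)]; exact (g3 hp).trans_lt c1) N).2
  have h2 := sum_le_hasSum (range N) (fun n _ => Set.indicator_nonneg (fun n _ => g4 n) n)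
    (hasSum_subtype_iff_indicator.1 h1)
  calc ∑ n ∈ range N, ‖hom h0 n‖ = ∑ n ∈ range N, (N.smoothNumbers).indicator g n := by
        refine Finset.sum_congr rfl fun n hn => ?_
        rcases Nat.eq_zero_or_pos n with rfl | h
        · simp [Set.indicator_apply_eq_zero.2 fun _ => (g1 0).trans (by simp)]
        · rw [Set.indicator_of_mem (Nat.mem_smoothNumbers_of_lt h (mem_range.1 hn)), g1]
    _ ≤ ∏ p ∈ N.primesBelow, (1 - g p)⁻¹ := h2
    _ ≤ ∏ p ∈ N.primesBelow, Real.exp (2 * ‖(p : ℂ) ^ (-s)‖ / (1 - c)) := by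
        refine Finset.prod_le_prod (fun p hp => ?_) fun p hp => ?_
        · have := g3 (Nat.prime_of_mem_primesBelow hp)
          exact inv_nonneg.2 (by linarith)
        · have a1 := g3 (Nat.prime_of_mem_primesBelow hp)
          rw [← g2 (Nat.prime_of_mem_primesBelow hp)]
          refine le_trans ?_ (Real.add_one_le_exp _)
          have a2 : g p / (1 - g p) ≤ g p / (1 - c) :=
            div_le_div_of_nonneg_left (g4 p) (by linarith) (by linarith)
          have a3 : (1 - g p)⁻¹ = g p / (1 - g p) + 1 := by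
            have : 1 - g p ≠ 0 := by linarith
            field_simp
            ring
          linarith
    _ ≤ _ := by
        rw [← Real.exp_sum, ← Finset.sum_div, ← Finset.mul_sum]
        gcongr
        exact z1.sum_le_tsum _ fun _ _ => norm_nonneg _

lemma term_eq {s : ℂ} (h0 : s ≠ 0) (n : ℕ) : LSeries.term aa s n = hom h0 n := by
  rcases eq_or_ne n 0 with rfl | hn
  · simp
  · rw [LSeries.term_of_ne_zero hn, div_eq_mul_inv, ← Complex.cpow_neg]
    rfl

lemma summable_aa {s : ℂ} (hs : 1 < s.re) : LSeriesSummable aa s := by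
  have h0 : s ≠ 0 := by rintro rfl; norm_num at hs
  exact ((summable_hom hs h0).of_norm).congr fun n => (term_eq h0 n).symm

lemma euler_tail {s : ℂ} (hs : 1 < s.re) : ‖LSeries aa s * (riemannZeta s * riemannZeta s *
    ∏ p ∈ Nat.primesBelow 3401, ff ((p : ℂ) ^ (-s))) - 1‖ ≤ 443 / 1000000 := by
  have h0 : s ≠ 0 := by rintro rfl; norm_num at hs
  have t1 := EulerProduct.eulerProduct_completely_multiplicative (summable_hom hs h0)
  rw [← tsum_congr (term_eq h0)] at t1
  have t2 := riemannZeta_eulerProduct hs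
  refine le_of_tendsto ((t1.mul ((t2.mul t2).mul_const _)).sub_const 1).norm ?_
  filter_upwards [eventually_ge_atTop 3401] with n hn
  set T := Nat.primesBelow n \ Nat.primesBelow 3401 with hT
  have sub : Nat.primesBelow 3401 ⊆ Nat.primesBelow n := fun p hp => by
    rw [Nat.mem_primesBelow] at hp ⊢
    exact ⟨by omega, hp.2⟩
  have a1 : ∀ p ∈ Nat.primesBelow n, ff ((p : ℂ) ^ (-s)) ≠ 0 ∧
      (1 - hom h0 p)⁻¹ * ((1 - (p : ℂ) ^ (-s))⁻¹ * (1 - (p : ℂ) ^ (-s))⁻¹) =
        (ff ((p : ℂ) ^ (-s)))⁻¹ := fun p hp => by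
    have hp := Nat.prime_of_mem_primesBelow hp
    have b1 := (norm_two_cpow hs hp).1.trans_lt (norm_two_cpow hs hp).2
    rw [hom_prime h0 hp]
    generalize (p : ℂ) ^ (-s) = x at b1
    have b2 : 1 - x ≠ 0 := fun h => by
      rw [← sub_eq_zero.1 h] at b1
      norm_num at b1
    have b3 : 1 + 2 * x ≠ 0 := fun h => by
      rw [show x = -(1 / 2) by linear_combination h / 2] at b1
      norm_num at b1
    refine ⟨mul_ne_zero (pow_ne_zero _ b2) b3, ?_⟩
    rw [ff, show 1 - -2 * x = 1 + 2 * x by ring]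
    field_simp
  have a2 : (∏ p ∈ Nat.primesBelow n, (1 - hom h0 p)⁻¹) *
      ((∏ p ∈ Nat.primesBelow n, (1 - (p : ℂ) ^ (-s))⁻¹) *
      (∏ p ∈ Nat.primesBelow n, (1 - (p : ℂ) ^ (-s))⁻¹) *
      ∏ p ∈ Nat.primesBelow 3401, ff ((p : ℂ) ^ (-s))) = (∏ p ∈ T, ff ((p : ℂ) ^ (-s)))⁻¹ := by
    rw [← mul_assoc, ← Finset.prod_mul_distrib, ← Finset.prod_mul_distrib,
      Finset.prod_congr rfl fun p hp => (a1 p hp).2, Finset.prod_inv_distrib,
      ← Finset.prod_sdiff sub, mul_inv, mul_assoc,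
      inv_mul_cancel₀ (Finset.prod_ne_zero_iff.2 fun p hp => (a1 p (sub hp)).1), mul_one]
  rw [a2]
  have h1 : ∀ q ∈ T, 3401 ≤ q ∧ Odd q := fun q hq => by
    obtain ⟨a, b⟩ := Finset.mem_sdiff.1 hq
    rw [Nat.mem_primesBelow] at a b
    have : 3401 ≤ q := by
      by_contra hh
      exact b ⟨by omega, a.2⟩
    exact ⟨this, a.2.odd_of_ne_two (by omega)⟩
  have h2 := odd_tail (by norm_num) T h1
  have h3 := cube_tail (by norm_num) T h1
  have h4 := Finset.norm_prod_one_add_sub_one_le T fun q => ff ((q : ℂ) ^ (-s)) - 1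
  simp only [add_sub_cancel] at h4
  have h5 : ∑ q ∈ T, ‖ff ((q : ℂ) ^ (-s)) - 1‖ ≤ 0.0004413 := by
    refine (Finset.sum_le_sum (g := fun q : ℕ => 3 * (1 / q : ℝ) ^ 2 + 2 * (1 / q : ℝ) ^ 3)
      fun q hq => (norm_ff_sub _).trans ?_).trans ?_
    · have := (h1 q hq).1
      have : ‖(q : ℂ) ^ (-s)‖ ≤ 1 / q := by
        rw [Complex.norm_natCast_cpow_of_pos (by omega), Complex.neg_re, one_div,
          ← Real.rpow_neg_one]
        exact Real.rpow_le_rpow_of_exponent_le (by exact_mod_cast (by omega)) (by linarith)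
      gcongr
    · simp only [Finset.sum_add_distrib, ← Finset.mul_sum]
      push_cast at h2 h3
      linarith
  have h6 : Real.exp (∑ q ∈ T, ‖ff ((q : ℂ) ^ (-s)) - 1‖) ≤ 1 + 0.0004415 := by
    refine (Real.exp_le_exp.2 h5).trans ?_
    have := Real.abs_exp_sub_one_sub_id_le (x := 0.0004413) (by rw [abs_of_pos] <;> norm_num)
    linarith [(abs_le.1 this).2]
  generalize ∏ p ∈ T, ff ((p : ℂ) ^ (-s)) = P at h4
  have h7 : 1 - 0.0004415 ≤ ‖P‖ := by
    have := norm_sub_norm_le (1 : ℂ) P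
    rw [norm_sub_rev, norm_one] at this
    linarith
  have h8 : 0 < ‖P‖ := by linarith
  have h9 := norm_pos_iff.1 h8
  rw [show P⁻¹ - 1 = -(P - 1) / P by field_simp; ring, norm_div, norm_neg, div_le_iff₀ h8]
  linarith

end Pool.Agent.Lib.MP_5db4ad_nt
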