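import Pool.Agent.Lib.MP_5db4ad_nt.RunSpec
import Pool.Agent.Lib.MP_5db4ad_nt.BallSpec
import Pool.Agent.Lib.MP_5db4ad_nt.EM

/-!
What a successful run of `chunk` proves.
-/

namespace Pool.Agent.Lib.MP_5db4ad_nt

open Finset Complex

/-- the points `1 + i m τ` -/
noncomputable def sv (m : ℕ) : ℂ := 1 + (m * tau : ℝ) * I

/-- the denominators -/
noncomputable def YY (N m : ℕ) : ℂ :=
  riemannZeta (sv m) * riemannZeta (sv m) * pr m (N - 1) * sv m

/-- the lower bound for one frequency -/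
noncomputable def TT (M N eta : ℕ) (ω : ℂ) (m : ℕ) : ℝ :=
  (cor30 M m : ℝ) / cor30 M 0 *
    ((ω ^ m * (YY N m)⁻¹).re - eta / 1000000 * ‖ω ^ m * (YY N m)⁻¹‖)

lemma cpow_sv {x : ℝ} (hx : 0 < x) (m : ℕ) : (x : ℂ) ^ (1 - sv m) = zz x ^ m := by
  rw [Complex.cpow_def_of_ne_zero (by exact_mod_cast hx.ne'), zz, ← Complex.exp_nat_mul,
    ← Complex.ofReal_log hx.le, sv]
  congr 1
  push_cast
  ring

lemma cpow_sv' {x : ℝ} (hx : 0 < x) (m : ℕ) (a : ℂ) :
    (x : ℂ) ^ (-(sv m + a)) = zz x ^ m * x ^ (-(1 + a)) := by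
  rw [← cpow_sv hx, ← Complex.cpow_add _ _ (by exact_mod_cast hx.ne')]
  congr 1
  ring

lemma cpow_xx {q : ℕ} (hq : 0 < q) (m : ℕ) : (q : ℂ) ^ (-sv m) = xx m q := by
  have := cpow_sv' (x := q) (by exact_mod_cast hq) m 0
  simpa [Complex.cpow_neg_one, xx, div_eq_mul_inv] using this

lemma zz_one : zz 1 = 1 := by simp [zz]

lemma zeta_approx {m N : ℕ} (hm : Odd m) (hN : 3 ≤ N) :
    ‖acc m (N - 1) + -I * zz (N - 1 / 2) ^ m * ((1 / tau : ℝ) : ℂ) / m +
      -(sv m * zz (N - 1 / 2) ^ m / (6 * (2 * N - 1) ^ 2 : ℕ)) + 1 / 2 - riemannZeta (sv m)‖ ≤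
      ((4533 * m + 4000) ^ 4 : ℕ) / (1760000000000000 * (N - 1) ^ 4 : ℕ) := by
  have hm0 : (0 : ℝ) < m := by exact_mod_cast hm.pos
  have ht := tau_pos
  have hN' : (3 : ℝ) ≤ N := by exact_mod_cast hN
  have h1 : sv m - 1 = (m * tau : ℝ) * I := by rw [sv]; ring
  have h2 : sv m ≠ 1 := by
    rw [← sub_ne_zero, h1]
    exact mul_ne_zero (by exact_mod_cast (mul_pos hm0 ht).ne') I_ne_zero
  have key := em_bound (s := sv m) (by simp [sv]) h2 (N := N) (by omega)
  have hx : (0 : ℝ) < N - 1 / 2 := by linarith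
  have e1 : ∑ n ∈ Ico 1 N, (n : ℂ) ^ (-sv m) = acc m (N - 1) + 1 / 2 := by
    rw [Finset.sum_eq_sum_Ico_succ_bot (by omega), Finset.sum_eq_sum_Ico_succ_bot (by omega),
      cpow_xx (by norm_num), cpow_xx (by norm_num), acc]
    have : Ico (1 + 1 + 1) N = Ioc 2 (N - 1) := by
      ext q; simp only [mem_Ico, mem_Ioc]; omega
    rw [this, Finset.sum_congr rfl fun q hq => cpow_xx (by have := (mem_Ioc.1 hq).1; omega) m]
    simp only [xx, Nat.cast_one, zz_one, Nat.reduceAdd, Nat.cast_ofNat, zz_two, hm.neg_one_pow]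
    ring
  have e2 : hh (sv m) (N - 1 / 2) = -I * zz (N - 1 / 2) ^ m * ((1 / tau : ℝ) : ℂ) / m +
      -(sv m * zz (N - 1 / 2) ^ m / (6 * (2 * N - 1) ^ 2 : ℕ)) := by
    rw [hh, cpow_sv hx, h1, show -sv m - 1 = -(sv m + 1) by ring, cpow_sv' hx,
      show -(1 + 1 : ℂ) = -((2 : ℕ) : ℂ) by norm_num, Complex.cpow_neg, Complex.cpow_natCast]
    have c1 : (tau : ℂ) ≠ 0 := by exact_mod_cast ht.ne'
    have c2 : (m : ℂ) ≠ 0 := by exact_mod_cast hm0.ne'
    have c3 : (2 * N - 1 : ℂ) ≠ 0 := by exact_mod_cast (show (2 * N - 1 : ℝ) ≠ 0 by linarith)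
    have c4 : ((N - 1 / 2 : ℝ) : ℂ) = (2 * N - 1) / 2 := by push_cast; ring
    rw [c4]
    generalize zz (N - 1 / 2) ^ m = w
    push_cast [Nat.cast_sub (show 1 ≤ 2 * N by omega)]
    field_simp
    linear_combination (w * 144 * (2 * N - 1) ^ 2) * I_mul_I
  rw [e1, e2, norm_sub_rev] at key
  refine le_of_eq_of_le (congrArg norm (by ring)) (key.trans ?_)
  have n1 : ‖sv m‖ ≤ 1 + m * 4.533 := by
    refine (norm_add_le _ _).trans ?_
    rw [norm_one, norm_mul, norm_I, mul_one, Complex.norm_real, Real.norm_of_nonneg (by positivity)]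
    gcongr
    linarith [tau_bounds.2]
  have n2 : ∀ j : ℕ, j ≤ 3 → ‖sv m + j‖ ≤ 4 + m * 4.533 := fun j hj => by
    refine (norm_add_le _ _).trans ?_
    have : (j : ℝ) ≤ 3 := by exact_mod_cast hj
    rw [Complex.norm_natCast]
    linarith
  have n3 : ‖sv m * (sv m + 1) * (sv m + 2) * (sv m + 3)‖ ≤ (4 + m * 4.533) ^ 4 := by
    rw [norm_mul, norm_mul, norm_mul, show (4 + m * 4.533 : ℝ) ^ 4 = (4 + m * 4.533) *
      (4 + m * 4.533) * (4 + m * 4.533) * (4 + m * 4.533) by ring]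
    gcongr
    · linarith
    · exact_mod_cast n2 1 (by norm_num)
    · exact_mod_cast n2 2 (by norm_num)
    · exact_mod_cast n2 3 (by norm_num)
  have : (0 : ℝ) < N - 1 := by linarith
  push_cast [Nat.cast_sub (show 1 ≤ N by omega)]
  calc _ ≤ (4 + m * 4.533 : ℝ) ^ 4 / 1760 * (1 / (N - 1) ^ 4) := by gcongr
    _ = _ := by field_simp; ring

lemma odd_tail {X : ℕ} (hX : 2 ≤ X) (s : Finset ℕ) (hs : ∀ q ∈ s, X ≤ q ∧ Odd q) :
    ∑ q ∈ s, (1 / q : ℝ) ^ 2 ≤ 1 / (2 * (X - 1)) := by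
  have hX' : (2 : ℝ) ≤ X := by exact_mod_cast hX
  have key : ∀ n, X ≤ n → ∑ q ∈ (Ico X n).filter Odd, (1 / q : ℝ) ^ 2 ≤
      1 / (2 * (X - 1)) - if Odd n then 1 / (2 * ((n : ℝ) - 1)) else 1 / (2 * (n : ℝ)) := by
    intro n hn
    induction n, hn using Nat.le_induction with
    | base =>
      simp only [Ico_self, filter_empty, sum_empty, sub_nonneg]
      split_ifs
      · exact le_rfl
      · exact one_div_le_one_div_of_le (by linarith) (by linarith)
    | succ n hn ih =>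
      have hn' : (2 : ℝ) ≤ n := hX'.trans (by exact_mod_cast hn)
      rw [Finset.sum_filter, Finset.sum_Ico_succ_top hn, ← Finset.sum_filter]
      by_cases h : Odd n
      · rw [if_pos h] at ih ⊢
        rw [if_neg (by simpa [Nat.odd_add_one] using h)]
        have : (1 / n : ℝ) ^ 2 ≤ 1 / (2 * (n - 1)) - 1 / (2 * (n + 1)) := by
          rw [div_pow, div_sub_div _ _ (by linarith) (by linarith),
            div_le_div_iff₀ (by positivity) (by nlinarith)]
          nlinarith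
        push_cast
        linarith
      · rw [if_neg h] at ih ⊢
        rw [if_pos (by simpa [Nat.odd_add_one] using h)]
        push_cast
        rw [add_sub_cancel_right]
        linarith
  obtain ⟨n, hn⟩ := s.bddAbove
  refine (Finset.sum_le_sum_of_subset_of_nonneg (t := (Ico X (X + n + 1)).filter Odd)
    (fun q hq => ?_) fun _ _ _ => by positivity).trans ((key _ (by omega)).trans ?_)
  · have := hn hq
    exact mem_filter.2 ⟨mem_Ico.2 ⟨(hs q hq).1, by omega⟩, (hs q hq).2⟩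
  · have : (0 : ℝ) ≤ n := Nat.cast_nonneg n
    push_cast
    split_ifs
    · exact sub_le_self _ (one_div_nonneg.2 (by linarith))
    · exact sub_le_self _ (by positivity)

lemma cube_tail {X : ℕ} (hX : 2 ≤ X) (s : Finset ℕ) (hs : ∀ q ∈ s, X ≤ q ∧ Odd q) :
    ∑ q ∈ s, (1 / q : ℝ) ^ 3 ≤ 1 / X * (1 / (2 * (X - 1))) := by
  have hX' : (2 : ℝ) ≤ X := by exact_mod_cast hX
  refine le_trans ?_ (mul_le_mul_of_nonneg_left (odd_tail hX s hs) (by positivity))
  rw [Finset.mul_sum]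
  refine Finset.sum_le_sum fun q hq => ?_
  rw [pow_succ']
  gcongr
  exact_mod_cast (hs q hq).1

lemma prod_second {ι : Type} (s : Finset ι) (f : ι → ℂ) :
    ‖∏ i ∈ s, (1 + f i) - 1 - ∑ i ∈ s, f i‖ ≤ Real.exp (∑ i ∈ s, ‖f i‖) - 1 - ∑ i ∈ s, ‖f i‖ := by
  classical
  induction s using Finset.induction_on with
  | empty => simp
  | insert a s ha ih =>
    rw [prod_insert ha, sum_insert ha, sum_insert ha, Real.exp_add]
    have h1 := Finset.norm_prod_one_add_sub_one_le s f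
    have h2 := Real.add_one_le_exp ‖f a‖
    have e : (1 + f a) * ∏ i ∈ s, (1 + f i) - 1 - (f a + ∑ i ∈ s, f i) =
        (∏ i ∈ s, (1 + f i) - 1 - ∑ i ∈ s, f i) + f a * (∏ i ∈ s, (1 + f i) - 1) := by ring
    rw [e]
    refine (norm_add_le _ _).trans ?_
    rw [norm_mul]
    nlinarith [mul_le_mul_of_nonneg_left h1 (norm_nonneg (f a)),
      mul_le_mul_of_nonneg_right h2 (Real.exp_pos (∑ i ∈ s, ‖f i‖)).le]

lemma pr_split {n : ℕ} (hn : 100 ≤ n) (m : ℕ) :
    ∃ E, pr m n = pr m 100 * E ∧ ‖1 - 3 * lin m n - E‖ ≤ 4000000000000000 / 2 ^ 64 := by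
  set s := (Ioc 100 n).filter Nat.Prime with hs
  refine ⟨∏ q ∈ s, ff (xx m q), ?_, ?_⟩
  · rw [pr, pr, hs, ← Finset.prod_union, ← Finset.filter_union,
      Finset.Ioc_union_Ioc_eq_Ioc (by norm_num) hn]
    exact Finset.disjoint_filter_filter (Finset.Ioc_disjoint_Ioc_of_le le_rfl)
  have h1 : ∀ q ∈ s, 101 ≤ q ∧ Odd q := fun q hq => by
    obtain ⟨a, b⟩ := mem_filter.1 hq
    have := (mem_Ioc.1 a).1
    exact ⟨this, b.odd_of_ne_two (by omega)⟩
  have h2 := odd_tail (by norm_num) s h1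
  have h3 := cube_tail (by norm_num) s h1
  have h4 := prod_second s fun q => ff (xx m q) - 1
  simp only [add_sub_cancel] at h4
  have h5 : ∑ q ∈ s, ‖ff (xx m q) - 1‖ ≤ 0.0151 := by
    refine (Finset.sum_le_sum fun q _ => norm_ff_sub (xx m q)).trans ?_
    simp only [norm_xx, Finset.sum_add_distrib, ← Finset.mul_sum]
    push_cast at h2 h3
    linarith
  have h6 : 0 ≤ ∑ q ∈ s, ‖ff (xx m q) - 1‖ := by positivity
  have h7 := Real.exp_bound' h6 (by linarith) (n := 3) (by norm_num)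
  generalize ∑ q ∈ s, ‖ff (xx m q) - 1‖ = σ at *
  simp only [Finset.sum_range_succ, Finset.sum_range_zero, Nat.factorial] at h7
  have h8 : ‖∑ q ∈ s, 2 * xx m q ^ 3‖ ≤ 2 * ∑ q ∈ s, (1 / q : ℝ) ^ 3 := by
    rw [Finset.mul_sum]
    refine norm_sum_le_of_le _ fun q _ => le_of_eq ?_
    rw [norm_mul, norm_pow, norm_xx, Complex.norm_ofNat]
  have e : 1 - 3 * lin m n - ∏ q ∈ s, ff (xx m q) =
      -(∏ q ∈ s, ff (xx m q) - 1 - ∑ q ∈ s, (ff (xx m q) - 1)) - ∑ q ∈ s, 2 * xx m q ^ 3 := by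
    have : ∑ q ∈ s, (ff (xx m q) - 1) = ∑ q ∈ s, 2 * xx m q ^ 3 - 3 * lin m n := by
      rw [lin, Finset.mul_sum, ← Finset.sum_sub_distrib]
      exact Finset.sum_congr rfl fun q _ => by unfold ff; ring
    rw [this]
    ring
  rw [e]
  refine (norm_sub_le _ _).trans ?_
  rw [norm_neg]
  have h9 : σ ^ 2 ≤ 0.0151 ^ 2 := by gcongr
  have h10 : σ ^ 3 ≤ 0.0151 ^ 3 := by gcongr
  push_cast at h3 h7
  linarith

lemma frcB_elim {x : Ball} {k : Ball → Bool} (h : frcB x k = true) : ∃ y, y = x ∧ k y = true :=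
  ⟨x, rfl, frcB_eq x k ▸ h⟩

lemma term_spec {M N eta m : ℕ} {z p u y o : Ball} {k : ℤ → Bool} {ω : ℂ} (hm : Odd m)
    (hN : 101 ≤ N) (hz : z.Has (acc m (N - 1))) (hp : p.Has (pr m 100))
    (hu : u.Has (lin m (N - 1))) (hy : y.Has (zz (N - 1 / 2) ^ m)) (ho : o.Has (ω ^ m))
    (h : term M N eta m z p u y o k = true) :
    ∃ v, k v = true ∧ YY N m ≠ 0 ∧ (v : ℝ) / 2 ^ 64 ≤ TT M N eta ω m := by
  obtain ⟨s, hs, h⟩ := frcB_elim h
  obtain ⟨x1, hx1, h⟩ := frcB_elim h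
  obtain ⟨x2, hx2, h⟩ := frcB_elim h
  obtain ⟨ze, hze, h⟩ := frcB_elim h
  obtain ⟨xE, hE, h⟩ := frcB_elim h
  obtain ⟨z2, hz2, h⟩ := frcB_elim h
  obtain ⟨z3, hz3, h⟩ := frcB_elim h
  obtain ⟨Y, hY, h⟩ := frcB_elim h
  obtain ⟨R, hR, h⟩ := frcB_elim h
  obtain ⟨t, ht, h⟩ := frcB_elim h
  rw [frc_eq] at h
  have a1 : Ball.Has ⟨18446744073709551616, 83607287586168170260 * (m : ℤ), 2 * m⟩ (sv m) := by
    have e : cI 18446744073709551616 (83607287586168170260 * (m : ℤ)) - sv m =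
        ((m * (83607287586168170260 / 2 ^ 64 - tau) : ℝ) : ℂ) * I := by
      apply Complex.ext
      · simp only [cI, sv, sub_re, add_re, mul_re, ofReal_re, ofReal_im, I_re, I_im, one_re]
        norm_num
      · simp only [cI, sv, sub_im, add_im, mul_im, ofReal_re, ofReal_im, I_re, I_im, one_im]
        push_cast
        ring
    simp only [Ball.Has]
    rw [e, norm_mul, norm_I, mul_one, Complex.norm_real, Real.norm_eq_abs, abs_mul, Nat.abs_cast]
    have : |83607287586168170260 / 2 ^ 64 - tau| ≤ 2 / 2 ^ 64 := by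
      rw [abs_le]
      constructor <;> linarith [tau_bounds.1, tau_bounds.2]
    push_cast
    nlinarith [(Nat.cast_nonneg m : (0 : ℝ) ≤ m)]
  have a2 : Ball.Has ⟨4070008449565276022, 0, 2⟩ ((1 / tau : ℝ) : ℂ) := by
    have e : cI 4070008449565276022 0 - ((1 / tau : ℝ) : ℂ) =
        ((4070008449565276022 / 2 ^ 64 - 1 / tau : ℝ) : ℂ) := by
      apply Complex.ext
      · simp only [cI, sub_re, ofReal_re]
        norm_num
      · simp only [cI, sub_im, ofReal_im]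
        norm_num
    simp only [Ball.Has]
    rw [e, Complex.norm_real, Real.norm_eq_abs, abs_le]
    push_cast
    constructor <;> linarith [itau_bounds.1, itau_bounds.2]
  rw [← hs] at a1
  have a3 := (hy.rot.mul a2).divN hm.pos
  have a4 := (a1.mul hy).divN (n := 6 * (2 * N - 1) ^ 2) (by
    have : 0 < 2 * N - 1 := by omega
    positivity)
  rw [← hx1] at a3
  rw [← hx2] at a4
  have a5 := (hz.add a3).add a4.neg
  have b1 := zeta_approx hm (N := N) (by omega)
  set A := acc m (N - 1) + -I * zz (N - 1 / 2) ^ m * ((1 / tau : ℝ) : ℂ) / m +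
      -(sv m * zz (N - 1 / 2) ^ m / (6 * (2 * N - 1) ^ 2 : ℕ)) with hA
  have a6 : Ball.Has ⟨9223372036854775808, 0, (4533 * m + 4000) ^ 4 * 18446744073709551616 /
      (1760000000000000 * (N - 1) ^ 4) + 1⟩ (riemannZeta (sv m) - A) := by
    have e : cI 9223372036854775808 0 = 1 / 2 := by
      apply Complex.ext <;> norm_num [cI]
    have := ndiv_ge ((4533 * m + 4000) ^ 4 * 18446744073709551616)
      (n := 1760000000000000 * (N - 1) ^ 4) (by
        have : 0 < N - 1 := by omega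
        positivity)
    simp only [Ball.Has]
    rw [e, Nat.cast_add _ 1, le_div_iff₀ (by positivity), Nat.cast_one]
    refine le_trans ?_ this
    rw [Nat.cast_mul _ 18446744073709551616, mul_div_right_comm]
    refine mul_le_mul (le_of_eq_of_le (congrArg norm (by ring)) b1) (by norm_num) (by positivity)
      (by positivity)
  have a7 := a5.add a6
  rw [add_sub_cancel, ← hze] at a7
  obtain ⟨E, e1, e2⟩ := pr_split (n := N - 1) (by omega) m
  have a8 : Ball.Has ⟨18446744073709551616 - 3 * u.re, -(3 * u.im), 3 * u.rad + 4000000000000000⟩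
      E := by
    have e : cI (18446744073709551616 - 3 * u.re) (-(3 * u.im)) = 1 - 3 * cI u.re u.im := by
      apply Complex.ext <;> simp [cI] <;> ring
    simp only [Ball.Has] at hu ⊢
    refine (norm_sub_le_norm_sub_add_norm_sub _ (1 - 3 * lin m (N - 1)) _).trans ?_
    rw [e, sub_sub_sub_cancel_left, ← mul_sub, norm_mul, norm_sub_rev, Complex.norm_ofNat]
    push_cast
    linarith
  have a9 := ((a7.mul a7).mul (hp.mul a8)).mul a1
  rw [← e1, ← hE, ← hz2, ← hz3, ← hY] at a9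
  have e3 : R = ⟨R.re, R.im, 0⟩ := by rw [hR]; rfl
  rw [e3] at ht
  generalize hb : nrm (t.re - 18446744073709551616) t.im + t.rad = be at h
  cases h2 : Nat.ble (2 * be) 18446744073709551616 with
  | false => rw [h2] at h; exact absurd h (by simp)
  | true =>
    rw [h2] at h
    obtain ⟨c1, c2⟩ := inv_has a9 _ _ ht hb.symm (Nat.le_of_ble_eq_true h2)
    obtain ⟨Q, hQ, h⟩ := frcB_elim h
    rw [frcI_eq] at h
    exact ⟨_, h, c1, low_has (hQ ▸ ho.mul c2) _ _ _⟩

lemma norm_sum_xx (s : Finset ℕ) (m j : ℕ) : ‖∑ q ∈ s, xx m q ^ j‖ ≤ s.card := by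
  refine (norm_sum_le_of_le (n := fun _ => 1) _ fun q _ => ?_).trans (by simp)
  rw [norm_pow, norm_xx]
  refine pow_le_one₀ (by positivity) ?_
  rcases Nat.eq_zero_or_pos q with rfl | h
  · simp
  · rw [div_le_one (by exact_mod_cast h)]
    exact_mod_cast h

lemma fin_spec {M N eta st j : ℕ} {tgt : ℤ} {ω : ℂ} (hω : ‖ω‖ = 1) (hN : 101 ≤ N) (hN' : N ≤ 2 ^ 13)
    (hj : j ≤ 2 ^ 13) (hst : Even st) : ∀ (J : ℕ) (P : L) (f : ℕ → ℕ) (m : ℕ) (s : ℤ)
    (X Y Z T U V U' V' : ℕ), Odd m → (∀ k, f k = m + st * k) →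
    All (1 / 2 ^ 18) J P (fun k => pr (f k) 100) →
    Vec J (N - 3) X Y (fun k => acc (f k) (N - 1)) (1 / 2 ^ 18) →
    Vec J j Z T (fun k => lin (f k) (N - 1)) (1 / 2 ^ 18) →
    Vec J 1 U V (fun k => zz (N - 1 / 2) ^ f k) (1 / 2 ^ 18) →
    Vec J 1 U' V' (fun k => ω ^ f k) (1 / 2 ^ 18) →
    fin M N eta st j tgt P m s X Y Z T U V U' V' = true →
    (∀ k < J, YY N (f k) ≠ 0) ∧
      (tgt : ℝ) / 2 ^ 64 ≤ s / 2 ^ 64 + ∑ k ∈ range J, TT M N eta ω (f k)
  | 0, P, f, m, s, X, Y, Z, T, U, V, U', V', _, _, hP, _, _, _, _, h => by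
    obtain rfl : P = L.nil := hP
    have : tgt ≤ s := of_decide_eq_true h
    refine ⟨fun k hk => absurd hk (by omega), ?_⟩
    rw [sum_range_zero, add_zero]
    gcongr
  | J + 1, P, f, m, s, X, Y, Z, T, U, V, U', V', hm, hf, ⟨x, y, l, h1, h2, h3⟩, hX, hZ, hU, hU',
      h => by
    subst h1
    have hN2 : (N : ℝ) ≤ 2 ^ 13 := by exact_mod_cast hN'
    have f0 : f 0 = m := by simp [hf]
    obtain ⟨a1, a2⟩ := hX.uncons (by omega) (by
      have := norm_sum_xx (Ioc 2 (N - 1)) (f 0) 1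
      have c : ((Ioc 2 (N - 1)).card : ℝ) ≤ N := by exact_mod_cast (by simp; omega)
      simp only [pow_one] at this
      rw [acc]
      linarith)
    obtain ⟨b1, b2⟩ := hZ.uncons (by omega) (by
      have := norm_sum_xx ((Ioc 100 (N - 1)).filter Nat.Prime) (f 0) 2
      have c : (((Ioc 100 (N - 1)).filter Nat.Prime).card : ℝ) ≤ N := by
        exact_mod_cast (Finset.card_filter_le _ _).trans (by simp; omega)
      rw [lin]
      linarith)
    obtain ⟨c1, c2⟩ := hU.uncons (by omega) (by rw [norm_pow, norm_zz]; norm_num)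
    obtain ⟨d1, d2⟩ := hU'.uncons (by omega) (by rw [norm_pow, hω]; norm_num)
    have e : fin M N eta st j tgt (L.cons x y l) m s X Y Z T U V U' V' =
        term M N eta m (mkB (N - 3) (hd X) (hd Y) 70368744177664) (mkB 1 x y 70368744177664)
        (mkB j (hd Z) (hd T) 70368744177664) (mkB 1 (hd U) (hd V) 70368744177664)
        (mkB 1 (hd U') (hd V') 70368744177664) fun v => fin M N eta st j tgt l (m + st) (s + v)
          (tl X) (tl Y) (tl Z) (tl T) (tl U) (tl V) (tl U') (tl V') := by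
      simp only [fin, frc_eq, frcI_eq]
      rfl
    rw [e] at h
    simp only [f0] at a1 b1 c1 d1 h2
    have r : (1 / 2 ^ 18 : ℝ) ≤ (70368744177664 : ℕ) / 2 ^ 64 := by norm_num
    obtain ⟨v, g1, g2, g3⟩ := term_spec hm hN (mkB_has (a1.trans r)) (mkB_has (h2.trans r))
      (mkB_has (b1.trans r)) (mkB_has (c1.trans r)) (mkB_has (d1.trans r)) h
    obtain ⟨i1, i2⟩ := fin_spec hω hN hN' hj hst J l (fun k => f (k + 1)) (m + st) (s + v)
      _ _ _ _ _ _ _ _ (hm.add_even hst) (fun k => by rw [hf]; ring) h3 a2 b2 c2 d2 g1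
    refine ⟨fun k hk => ?_, ?_⟩
    · cases k with
      | zero => rwa [f0]
      | succ k => exact i1 k (by omega)
    · rw [Finset.sum_range_succ', f0]
      push_cast at i2
      linarith

theorem chunk_spec {N eta oa ob r e l : ℕ} {tgt : ℤ} {ω : ℂ} (hω : ‖ω‖ = 1)
    (ho : ‖cvt 1 oa ob - ω‖ ≤ 1 / 2 ^ 46) (hN : 101 ≤ N) (hN' : N ≤ 2 ^ 13) (hr : r ≤ 8) (he : e ≤ 3)
    (hl : l ≤ 8) (h : chunk N eta oa ob r e l tgt = true) :
    (∀ i < 2 ^ l, YY N (fr r e i) ≠ 0) ∧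
      (tgt : ℝ) / 2 ^ 64 ≤ ∑ i ∈ range (2 ^ l), TT (2 ^ (e + l + 1)) N eta ω (fr r e i) := by
  have hN1 : (101 : ℝ) ≤ N := by exact_mod_cast hN
  have hN2 : (N : ℝ) ≤ 2 ^ 13 := by exact_mod_cast hN'
  unfold chunk at h
  have i0 : Inv1 r e l 2 276701161105643274240 295147905179352825856 0 0 (ones (2 ^ l)) := by
    refine ⟨?_, (vec_zero _).mono (fun i _ => by simp [acc]) (by positivity), ?_, fun m => ?_⟩
    · have : cvt 1 276701161105643274240 295147905179352825856 = -1 := by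
        apply Complex.ext <;> norm_num [cvt]
      rw [this, Nat.cast_ofNat, zz_two, sub_self, norm_zero]
      positivity
    · simp only [pr, Ioc_self, filter_empty, prod_empty]
      exact (all_ones _).mono (by norm_num [gb])
    · norm_num [pr, gb]
  obtain ⟨a, b, X, Y, P, e1, i1⟩ := run1_spec hr he hl _ 98 _ _ _ _ _ _ le_rfl le_rfl i0
  rw [e1] at h
  obtain ⟨a', b', X', Y', j, Z, T, e2, i2⟩ := run2_spec hr he hl _ (N - 101) (2 + 98) a b X Y 0 0 0
    le_rfl (by omega) ⟨i1.u, i1.s, (vec_zero _).mono (fun i _ => by simp [lin]) (by positivity),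
      by omega⟩
  rw [e2] at h
  rw [show 2 + 98 + (N - 101) = N - 1 by omega] at i2
  have c1 : ((N - 1 : ℕ) : ℝ) = N - 1 := by rw [Nat.cast_sub (by omega), Nat.cast_one]
  obtain ⟨u, v, e3, f1⟩ := unitQ_large (q := 2 * N - 1) _ (by omega) (by omega)
  rw [e3, cmul_eq] at h
  have f2 := step_unit (norm_zz _) (norm_zz _) i2.u f1 (by rw [c1]; linarith)
  have c2 : ((2 * N - 1 : ℕ) : ℝ) = 2 * N - 1 := by rw [Nat.cast_sub (by omega)]; push_cast; rfl
  rw [c1, c2, ← zz_mul (by linarith) (div_pos (by linarith) (by linarith)),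
    show ((N : ℝ) - 1) * ((2 * N - 1) / (2 * N - 1 - 1)) = N - 1 / 2 by
      rw [mul_div_assoc', div_eq_iff (by linarith)]
      ring] at f2
  obtain ⟨w, w', c, d, U, V, e4, -, -, f3⟩ := step_geo (n := 0) (ε := 1 / 2 ^ 46) (μ := 1) _
    (norm_zz _) (f2.trans (by linarith)) hr he hl (by norm_num) (by norm_num) le_rfl (by simp)
    le_rfl (by norm_num)
  rw [e4] at h
  obtain ⟨w, w', c, d, U', V', e5, -, -, f4⟩ := step_geo (n := 0) (μ := 1) _
    hω ho hr he hl (by norm_num) (by norm_num) le_rfl (by simp) le_rfl (by norm_num)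
  rw [e5] at h
  have := fin_spec hω hN hN' (i2.q.trans (by omega)) (by simp [Nat.even_pow]) (2 ^ l) P
    (fr r e) (2 * r + 1) 0 X' Y' Z T U V U' V' (by simp) (fun k => by rw [fr]; ring)
    (i1.p.mono (by norm_num [gb])) (i2.s.mono (fun _ _ => rfl) (by rw [c1]; linarith))
    (i2.p.mono (fun _ _ => rfl) (by rw [c1]; linarith))
    (f3.mono (fun _ _ => by simp) (by norm_num)) (f4.mono (fun _ _ => by simp) (by norm_num)) h
  simpa using this

end Pool.Agent.Lib.MP_5db4ad_nt
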