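import Pool.Agent.Lib.MP_5db4ad_nt.H42Ta

/-!
Evaluated tables for one grid.
-/

namespace Pool.Agent.Lib.MP_5db4ad_nt.NE

open S2

set_option maxRecDepth 1000000
set_option maxHeartbeats 0
set_option exponentiation.threshold 100000000
set_option linter.defProp false

noncomputable def eMM_14p : Tr := by
  refine (?f : ∀ (x : ℕ) (t : Tr), mkE 14 13 tMM.1 = x → spl (nat_lit 14) (enc 40960 x) = t → Tr) _ _
    (by conv => lhs; whnf) (by conv => lhs; reduce)
  exact fun _ t _ _ => t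
noncomputable def eMM_14 : {x : ℕ // mkE 14 13 tMM.1 = x} :=
  ⟨dec 40960 (jn eMM_14p), Nat.eq_of_beq_eq_true (by decide +kernel)⟩
noncomputable def gMM_14p : Tr := by
  refine (?f : ∀ (x : ℕ) (t : Tr), mkG 14 13 tMM.1 eMM_14.1 = x → spl (nat_lit 14) (encG 5466 x) = t → Tr) _ _
    (by conv => lhs; whnf) (by conv => lhs; reduce)
  exact fun _ t _ _ => t
noncomputable def gMM_14 : {x : ℕ // mkG 14 13 tMM.1 eMM_14.1 = x} :=
  ⟨decG 5466 (jn gMM_14p), Nat.eq_of_beq_eq_true (by decide +kernel)⟩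
noncomputable def cMM_14 : Ch := Ch.mk 13 tMM.1 eMM_14.1 gMM_14.1

end Pool.Agent.Lib.MP_5db4ad_nt.NE
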