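import Pool.Agent.Lib.MP_5db4ad_nt.H42Tb

/-!
Evaluated tables for one grid.
-/

namespace Pool.Agent.Lib.MP_5db4ad_nt.NE

open S2

set_option maxRecDepth 1000000
set_option maxHeartbeats 0
set_option exponentiation.threshold 100000000
set_option linter.defProp false

noncomputable def eA2_17p : Tr := by
  refine (?f : ∀ (x : ℕ) (t : Tr), mkE 17 11 tA2.1 = x → spl (nat_lit 14) (enc 10240 x) = t → Tr) _ _
    (by conv => lhs; whnf) (by conv => lhs; reduce)
  exact fun _ t _ _ => t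
noncomputable def eA2_17 : {x : ℕ // mkE 17 11 tA2.1 = x} :=
  ⟨dec 10240 (jn eA2_17p), Nat.eq_of_beq_eq_true (by decide +kernel)⟩
noncomputable def gA2_17p : Tr := by
  refine (?f : ∀ (x : ℕ) (t : Tr), mkG 17 11 tA2.1 eA2_17.1 = x → spl (nat_lit 14) (encG 43696 x) = t → Tr) _ _
    (by conv => lhs; whnf) (by conv => lhs; reduce)
  exact fun _ t _ _ => t
noncomputable def gA2_17 : {x : ℕ // mkG 17 11 tA2.1 eA2_17.1 = x} :=
  ⟨decG 43696 (jn gA2_17p), Nat.eq_of_beq_eq_true (by decide +kernel)⟩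
noncomputable def cA2_17 : Ch := Ch.mk 11 tA2.1 eA2_17.1 gA2_17.1
noncomputable def eA3_17p : Tr := by
  refine (?f : ∀ (x : ℕ) (t : Tr), mkE 17 10 tA3.1 = x → spl (nat_lit 14) (enc 5120 x) = t → Tr) _ _
    (by conv => lhs; whnf) (by conv => lhs; reduce)
  exact fun _ t _ _ => t
noncomputable def eA3_17 : {x : ℕ // mkE 17 10 tA3.1 = x} :=
  ⟨dec 5120 (jn eA3_17p), Nat.eq_of_beq_eq_true (by decide +kernel)⟩
noncomputable def gA3_17p : Tr := by
  refine (?f : ∀ (x : ℕ) (t : Tr), mkG 17 10 tA3.1 eA3_17.1 = x → spl (nat_lit 14) x = t → Tr) _ _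
    (by conv => lhs; whnf) (by conv => lhs; reduce)
  exact fun _ t _ _ => t
noncomputable def gA3_17 : {x : ℕ // mkG 17 10 tA3.1 eA3_17.1 = x} :=
  ⟨jn gA3_17p, Nat.eq_of_beq_eq_true (by decide +kernel)⟩
noncomputable def cA3_17 : Ch := Ch.mk 10 tA3.1 eA3_17.1 gA3_17.1
noncomputable def tH17p : Tr := by
  refine (?f : ∀ (x : ℕ) (t : Tr), mkH 17 = x → spl (nat_lit 14) (enc 54619 x) = t → Tr) _ _
    (by conv => lhs; whnf) (by conv => lhs; reduce)
  exact fun _ t _ _ => t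
noncomputable def tH17 : {x : ℕ // mkH 17 = x} :=
  ⟨dec 54619 (jn tH17p), Nat.eq_of_beq_eq_true (by decide +kernel)⟩

end Pool.Agent.Lib.MP_5db4ad_nt.NE
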