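import Pool.Agent.Lib.MP_5db4ad_nt.H42Tc

/-!
Evaluated tables for one grid.
-/

namespace Pool.Agent.Lib.MP_5db4ad_nt.NE

open S2

set_option maxRecDepth 1000000
set_option maxHeartbeats 0
set_option exponentiation.threshold 100000000
set_option linter.defProp false

noncomputable def eL_17p : Tr := by
  refine (?f : ∀ (x : ℕ) (t : Tr), mkE 17 9 tL.1 = x → spl (nat_lit 14) (enc 2560 x) = t → Tr) _ _
    (by conv => lhs; whnf) (by conv => lhs; reduce)
  exact fun _ t _ _ => t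
noncomputable def eL_17 : {x : ℕ // mkE 17 9 tL.1 = x} :=
  ⟨dec 2560 (jn eL_17p), Nat.eq_of_beq_eq_true (by decide +kernel)⟩
noncomputable def gL_17p : Tr := by
  refine (?f : ∀ (x : ℕ) (t : Tr), mkG 17 9 tL.1 eL_17.1 = x → spl (nat_lit 14) x = t → Tr) _ _
    (by conv => lhs; whnf) (by conv => lhs; reduce)
  exact fun _ t _ _ => t
noncomputable def gL_17 : {x : ℕ // mkG 17 9 tL.1 eL_17.1 = x} :=
  ⟨jn gL_17p, Nat.eq_of_beq_eq_true (by decide +kernel)⟩
noncomputable def cL_17 : Ch := Ch.mk 9 tL.1 eL_17.1 gL_17.1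
noncomputable def eD8_17p : Tr := by
  refine (?f : ∀ (x : ℕ) (t : Tr), mkE 17 8 tD8.1 = x → spl (nat_lit 14) (enc 1280 x) = t → Tr) _ _
    (by conv => lhs; whnf) (by conv => lhs; reduce)
  exact fun _ t _ _ => t
noncomputable def eD8_17 : {x : ℕ // mkE 17 8 tD8.1 = x} :=
  ⟨dec 1280 (jn eD8_17p), Nat.eq_of_beq_eq_true (by decide +kernel)⟩
noncomputable def gD8_17p : Tr := by
  refine (?f : ∀ (x : ℕ) (t : Tr), mkG 17 8 tD8.1 eD8_17.1 = x → spl (nat_lit 14) (encG 43696 x) = t → Tr) _ _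
    (by conv => lhs; whnf) (by conv => lhs; reduce)
  exact fun _ t _ _ => t
noncomputable def gD8_17 : {x : ℕ // mkG 17 8 tD8.1 eD8_17.1 = x} :=
  ⟨decG 43696 (jn gD8_17p), Nat.eq_of_beq_eq_true (by decide +kernel)⟩
noncomputable def cD8_17 : Ch := Ch.mk 8 tD8.1 eD8_17.1 gD8_17.1
noncomputable def eD10_17p : Tr := by
  refine (?f : ∀ (x : ℕ) (t : Tr), mkE 17 10 tD10.1 = x → spl (nat_lit 14) (enc 5120 x) = t → Tr) _ _
    (by conv => lhs; whnf) (by conv => lhs; reduce)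
  exact fun _ t _ _ => t
noncomputable def eD10_17 : {x : ℕ // mkE 17 10 tD10.1 = x} :=
  ⟨dec 5120 (jn eD10_17p), Nat.eq_of_beq_eq_true (by decide +kernel)⟩
noncomputable def gD10_17p : Tr := by
  refine (?f : ∀ (x : ℕ) (t : Tr), mkG 17 10 tD10.1 eD10_17.1 = x → spl (nat_lit 14) (encG 43696 x) = t → Tr) _ _
    (by conv => lhs; whnf) (by conv => lhs; reduce)
  exact fun _ t _ _ => t
noncomputable def gD10_17 : {x : ℕ // mkG 17 10 tD10.1 eD10_17.1 = x} :=
  ⟨decG 43696 (jn gD10_17p), Nat.eq_of_beq_eq_true (by decide +kernel)⟩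
noncomputable def cD10_17 : Ch := Ch.mk 10 tD10.1 eD10_17.1 gD10_17.1
noncomputable def eD11_17p : Tr := by
  refine (?f : ∀ (x : ℕ) (t : Tr), mkE 17 11 tD11.1 = x → spl (nat_lit 14) (enc 10240 x) = t → Tr) _ _
    (by conv => lhs; whnf) (by conv => lhs; reduce)
  exact fun _ t _ _ => t
noncomputable def eD11_17 : {x : ℕ // mkE 17 11 tD11.1 = x} :=
  ⟨dec 10240 (jn eD11_17p), Nat.eq_of_beq_eq_true (by decide +kernel)⟩
noncomputable def gD11_17p : Tr := by
  refine (?f : ∀ (x : ℕ) (t : Tr), mkG 17 11 tD11.1 eD11_17.1 = x → spl (nat_lit 14) (encG 43696 x) = t → Tr) _ _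
    (by conv => lhs; whnf) (by conv => lhs; reduce)
  exact fun _ t _ _ => t
noncomputable def gD11_17 : {x : ℕ // mkG 17 11 tD11.1 eD11_17.1 = x} :=
  ⟨decG 43696 (jn gD11_17p), Nat.eq_of_beq_eq_true (by decide +kernel)⟩
noncomputable def cD11_17 : Ch := Ch.mk 11 tD11.1 eD11_17.1 gD11_17.1

end Pool.Agent.Lib.MP_5db4ad_nt.NE
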