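import Pool.Agent.Lib.MP_5db4ad_nt.H96NDefs

/-!
Large tables are kept as trees of short numbers.
-/

namespace Pool.Agent.Lib.MP_5db4ad_nt.NE

open S2

inductive Tr : Type
  | lf : ℕ → Tr
  | nd : ℕ → Tr → Tr → Tr

/-- the number held by a tree -/
noncomputable def jn (t : Tr) : ℕ :=
  Tr.rec (fun v => v) (fun s _ _ l r => Nat.add l (Nat.shiftLeft r s)) t

/-- cut a number into pieces of 4096 bits -/
noncomputable def spl (d : ℕ) : ℕ → Tr :=
  Nat.rec (fun v => Tr.lf v) (fun d ih v =>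
    fz (Nat.shiftLeft (nat_lit 4096) d) fun s => fz (Nat.shiftRight v s) fun h =>
      Bool.rec (Tr.nd s (ih (Nat.sub v (Nat.shiftLeft h s))) (ih h)) (ih v) (Nat.beq h (nat_lit 0))) d

/-- `3 n` wide lanes with two signed fields of 32 bits go into `n` wide lanes -/
noncomputable def enc (n v : ℕ) : ℕ :=
  fz (ow (nat_lit 192) (Nat.mul (nat_lit 3) n)) fun o => fz (Nat.mul (nat_lit 192) n) fun s =>
  fz (Nat.add v (Nat.mul o (nat_lit 39614081257132168798919458816))) fun V =>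
  fz (Nat.add (fld o V (nat_lit 0) (nat_lit 32))
    (Nat.shiftLeft (fld o V (nat_lit 64) (nat_lit 32)) (nat_lit 32))) fun W =>
  Nat.add (Nat.add (cut W s) (Nat.shiftLeft (cut (Nat.shiftRight W s) s) (nat_lit 64)))
    (Nat.shiftLeft (Nat.shiftRight W (Nat.add s s)) (nat_lit 128))

noncomputable def dec (n p : ℕ) : ℕ :=
  fz (msk (ow (nat_lit 192) n) (nat_lit 64)) fun m => fz (Nat.mul (nat_lit 192) n) fun s =>
  fz (ow (nat_lit 192) (Nat.mul (nat_lit 3) n)) fun o =>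
  fz (Nat.add (Nat.add (Nat.land p m)
      (Nat.shiftLeft (Nat.land (Nat.shiftRight p (nat_lit 64)) m) s))
    (Nat.shiftLeft (Nat.land (Nat.shiftRight p (nat_lit 128)) m) (Nat.add s s))) fun W =>
  Nat.sub (Nat.add W (Nat.mul (Nat.land (Nat.shiftRight W (nat_lit 32))
      (Nat.mul o (nat_lit 4294967295))) (nat_lit 18446744069414584320)))
    (Nat.mul o (nat_lit 39614081257132168798919458816))

noncomputable def encG (n v : ℕ) : ℕ := enc n (Nat.div v (nat_lit 158456325028528675195677835264))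

noncomputable def decG (n p : ℕ) : ℕ := Nat.mul (dec n p) (nat_lit 158456325028528675195677835264)

/-- the powers of the odd numbers below `2 ^ (d + 1)` -/
noncomputable def dblU (d : ℕ) : Us :=
  Nat.rec (Us.mk (nat_lit 1) (nat_lit 1) (nat_lit 1) (nat_lit 1) (nat_lit 1) (nat_lit 1) (nat_lit 1)
      (nat_lit 1)) (fun d ih => Us.rec (fun u1 u2 u3 u4 u5 u6 u7 u8 =>
    fz (p2 (Nat.succ d)) fun c => fz (ow (nat_lit 192) (p2 d)) fun o =>
    fz (Nat.shiftLeft (nat_lit 192) d) fun s =>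
    fz (Nat.add u1 (Nat.mul o c)) fun x11 => fz (Nat.add u2 (Nat.mul u1 c)) fun x12 =>
    fz (Nat.add u3 (Nat.mul u2 c)) fun x13 => fz (Nat.add u4 (Nat.mul u3 c)) fun x14 =>
    fz (Nat.add u5 (Nat.mul u4 c)) fun x15 => fz (Nat.add u6 (Nat.mul u5 c)) fun x16 =>
    fz (Nat.add u7 (Nat.mul u6 c)) fun x17 => fz (Nat.add u8 (Nat.mul u7 c)) fun x18 =>
    fz (Nat.add x12 (Nat.mul x11 c)) fun x22 => fz (Nat.add x13 (Nat.mul x12 c)) fun x23 =>
    fz (Nat.add x14 (Nat.mul x13 c)) fun x24 => fz (Nat.add x15 (Nat.mul x14 c)) fun x25 =>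
    fz (Nat.add x16 (Nat.mul x15 c)) fun x26 => fz (Nat.add x17 (Nat.mul x16 c)) fun x27 =>
    fz (Nat.add x18 (Nat.mul x17 c)) fun x28 =>
    fz (Nat.add x23 (Nat.mul x22 c)) fun x33 => fz (Nat.add x24 (Nat.mul x23 c)) fun x34 =>
    fz (Nat.add x25 (Nat.mul x24 c)) fun x35 => fz (Nat.add x26 (Nat.mul x25 c)) fun x36 =>
    fz (Nat.add x27 (Nat.mul x26 c)) fun x37 => fz (Nat.add x28 (Nat.mul x27 c)) fun x38 =>
    fz (Nat.add x34 (Nat.mul x33 c)) fun x44 => fz (Nat.add x35 (Nat.mul x34 c)) fun x45 =>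
    fz (Nat.add x36 (Nat.mul x35 c)) fun x46 => fz (Nat.add x37 (Nat.mul x36 c)) fun x47 =>
    fz (Nat.add x38 (Nat.mul x37 c)) fun x48 =>
    fz (Nat.add x45 (Nat.mul x44 c)) fun x55 => fz (Nat.add x46 (Nat.mul x45 c)) fun x56 =>
    fz (Nat.add x47 (Nat.mul x46 c)) fun x57 => fz (Nat.add x48 (Nat.mul x47 c)) fun x58 =>
    fz (Nat.add x56 (Nat.mul x55 c)) fun x66 => fz (Nat.add x57 (Nat.mul x56 c)) fun x67 =>
    fz (Nat.add x58 (Nat.mul x57 c)) fun x68 =>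
    fz (Nat.add x67 (Nat.mul x66 c)) fun x77 => fz (Nat.add x68 (Nat.mul x67 c)) fun x78 =>
    fz (Nat.add x78 (Nat.mul x77 c)) fun x88 =>
    fz (Nat.add u1 (Nat.shiftLeft x11 s)) fun y1 => fz (Nat.add u2 (Nat.shiftLeft x22 s)) fun y2 =>
    fz (Nat.add u3 (Nat.shiftLeft x33 s)) fun y3 => fz (Nat.add u4 (Nat.shiftLeft x44 s)) fun y4 =>
    fz (Nat.add u5 (Nat.shiftLeft x55 s)) fun y5 => fz (Nat.add u6 (Nat.shiftLeft x66 s)) fun y6 =>
    fz (Nat.add u7 (Nat.shiftLeft x77 s)) fun y7 => fz (Nat.add u8 (Nat.shiftLeft x88 s)) fun y8 =>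
    Us.mk y1 y2 y3 y4 y5 y6 y7 y8) ih) d

end Pool.Agent.Lib.MP_5db4ad_nt.NE
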