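import Pool.Agent.Lib.MP_5db4ad_nt.H42T14

/-!
Runs of the checks.
-/

namespace Pool.Agent.Lib.MP_5db4ad_nt.NE

open S2

set_option maxRecDepth 1000000
set_option maxHeartbeats 0
set_option exponentiation.threshold 100000000
set_option linter.defProp false

def b0 : loChkN 14 10 0 611529383672195 tBR.1 tBI.1 us tb14 1e-9 = true :=
  by decide +kernel
def b1024 : loChkN 14 10 1024 68755524076344 tBR.1 tBI.1 us tb14 1.7e-5 = true :=
  by decide +kernel
def b2048 : lo2 14 7 2048 2176 0 11 4380723865613 tBR.1 tBI.1 us tb14 cD6_14 = true :=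
  by decide +kernel
def b2176 : lo2 14 7 2176 2304 8 7 4273809996723 tBR.1 tBI.1 us tb14 cD6_14 = true :=
  by decide +kernel
def b2304 : lo2 14 7 2304 2432 4 8 4181321143951 tBR.1 tBI.1 us tb14 cD6_14 = true :=
  by decide +kernel
def b2432 : lo2 14 7 2432 2560 9 7 4084655214754 tBR.1 tBI.1 us tb14 cD6_14 = true :=
  by decide +kernel
def b2560 : lo2 14 7 2560 2688 2 9 4094314581242 tBR.1 tBI.1 us tb14 cD6_14 = true :=
  by decide +kernel
def b2688 : lo2 14 7 2688 2816 10 7 4323898743808 tBR.1 tBI.1 us tb14 cD6_14 = true :=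
  by decide +kernel
def b2816 : lo2 14 7 2816 2944 5 8 4298697875515 tBR.1 tBI.1 us tb14 cD6_14 = true :=
  by decide +kernel
def b2944 : lo2 14 7 2944 3072 11 7 4092243339612 tBR.1 tBI.1 us tb14 cD6_14 = true :=
  by decide +kernel
def b3072 : lo2 14 7 3072 3200 1 10 3900949623472 tBR.1 tBI.1 us tb14 cD6_14 = true :=
  by decide +kernel
def b3200 : lo2 14 7 3200 3328 12 7 3637692656655 tBR.1 tBI.1 us tb14 cD6_14 = true :=
  by decide +kernel
def b3328 : lo2 14 7 3328 3456 6 8 3366159298735 tBR.1 tBI.1 us tb14 cD6_14 = true :=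
  by decide +kernel
def b3456 : lo2 14 7 3456 3584 13 7 3039177131331 tBR.1 tBI.1 us tb14 cD6_14 = true :=
  by decide +kernel
def b3584 : lo2 14 7 3584 3712 3 9 2809822137900 tBR.1 tBI.1 us tb14 cD6_14 = true :=
  by decide +kernel
def b3712 : lo2 14 7 3712 3840 14 7 2608703210353 tBR.1 tBI.1 us tb14 cD6_14 = true :=
  by decide +kernel
def b3840 : lo2 14 7 3840 3968 7 8 2417828821579 tBR.1 tBI.1 us tb14 cD6_14 = true :=
  by decide +kernel
def b3968 : lo2 14 7 3968 4096 15 7 2398618659203 tBR.1 tBI.1 us tb14 cD6_14 = true :=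
  by decide +kernel
def b4096 : lo2 14 8 4096 4352 0 12 4611808773966 tBR.1 tBI.1 us tb14 cD6_14 = true :=
  by decide +kernel
def b4352 : lo2 14 8 4352 4608 8 8 4245622967102 tBR.1 tBI.1 us tb14 cD6_14 = true :=
  by decide +kernel
def b4608 : lo2 14 8 4608 4864 4 9 3982210417437 tBR.1 tBI.1 us tb14 cD6_14 = true :=
  by decide +kernel
def b4864 : lo2 14 8 4864 5120 9 8 3791527909984 tBR.1 tBI.1 us tb14 cD6_14 = true :=
  by decide +kernel
def b5120 : lo2 14 8 5120 5376 2 10 3630851717334 tBR.1 tBI.1 us tb14 cD6_14 = true :=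
  by decide +kernel
def b5376 : lo2 14 8 5376 5632 10 8 3454319874286 tBR.1 tBI.1 us tb14 cD6_14 = true :=
  by decide +kernel
def b5632 : lo2 14 8 5632 5888 5 9 3284920662058 tBR.1 tBI.1 us tb14 cD6_14 = true :=
  by decide +kernel
def b5888 : lo2 14 8 5888 6144 11 8 3191001951229 tBR.1 tBI.1 us tb14 cD6_14 = true :=
  by decide +kernel

end Pool.Agent.Lib.MP_5db4ad_nt.NE
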