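import Pool.Agent.Lib.MP_5db4ad_nt.H42T14

/-!
Runs of the checks.
-/

namespace Pool.Agent.Lib.MP_5db4ad_nt.NE

open S2

set_option maxRecDepth 1000000
set_option maxHeartbeats 0
set_option exponentiation.threshold 100000000
set_option linter.defProp false

def b6144 : lo2 14 8 6144 6400 1 11 3038008707930 tBR.1 tBI.1 us tb14 cD6_14 = true :=
  by decide +kernel
def b6400 : lo2 14 8 6400 6656 12 8 2931965297995 tBR.1 tBI.1 us tb14 cD6_14 = true :=
  by decide +kernel
def b6656 : lo2 14 8 6656 6912 6 9 2828142489147 tBR.1 tBI.1 us tb14 cD6_14 = true :=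
  by decide +kernel
def b6912 : lo2 14 8 6912 7168 13 8 2719384162409 tBR.1 tBI.1 us tb14 cD6_14 = true :=
  by decide +kernel
def b7168 : lo2 14 8 7168 7424 3 10 2670716648960 tBR.1 tBI.1 us tb14 cD6_14 = true :=
  by decide +kernel
def b7424 : lo2 14 8 7424 7680 14 8 2551699195239 tBR.1 tBI.1 us tb14 cD6_14 = true :=
  by decide +kernel
def b7680 : lo2 14 8 7680 7936 7 9 2502197394152 tBR.1 tBI.1 us tb14 cD6_14 = true :=
  by decide +kernel
def b7936 : lo2 14 8 7936 8192 15 8 2452907162879 tBR.1 tBI.1 us tb14 cD6_14 = true :=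
  by decide +kernel
def b8192 : lo2 14 9 8192 8704 0 13 5967711866805 tBR.1 tBI.1 us tb14 cD6_14 = true :=
  by decide +kernel
def b8704 : lo2 14 9 8704 9216 8 9 6181412970831 tBR.1 tBI.1 us tb14 cD6_14 = true :=
  by decide +kernel
def b9216 : lo2 14 9 9216 9728 4 10 5644814692226 tBR.1 tBI.1 us tb14 cD6_14 = true :=
  by decide +kernel
def b9728 : lo2 14 9 9728 10240 9 9 4772526527953 tBR.1 tBI.1 us tb14 cD6_14 = true :=
  by decide +kernel
def b10240 : lo2 14 9 10240 10752 2 11 4174992527711 tBR.1 tBI.1 us tb14 cD6_14 = true :=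
  by decide +kernel
def b10752 : lo2 14 9 10752 11264 10 9 3792100715970 tBR.1 tBI.1 us tb14 cD6_14 = true :=
  by decide +kernel
def b11264 : lo2 14 9 11264 11776 5 10 3513082497617 tBR.1 tBI.1 us tb14 cD6_14 = true :=
  by decide +kernel
def b11776 : lo2 14 9 11776 12288 11 9 3361628096776 tBR.1 tBI.1 us tb14 cD6_14 = true :=
  by decide +kernel
def b12288 : lo2 14 9 12288 12800 1 12 3218833204014 tBR.1 tBI.1 us tb14 cD6_14 = true :=
  by decide +kernel
def b12800 : lo2 14 9 12800 13312 12 9 3124962926413 tBR.1 tBI.1 us tb14 cD6_14 = true :=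
  by decide +kernel
def b13312 : lo2 14 9 13312 13824 6 10 3051688986123 tBR.1 tBI.1 us tb14 cD6_14 = true :=
  by decide +kernel
def b13824 : lo2 14 9 13824 14336 13 9 2955681979467 tBR.1 tBI.1 us tb14 cD6_14 = true :=
  by decide +kernel
def b14336 : lo2 14 9 14336 14848 3 11 2908329448065 tBR.1 tBI.1 us tb14 cD6_14 = true :=
  by decide +kernel
def b14848 : lo2 14 9 14848 15360 14 9 2801654892996 tBR.1 tBI.1 us tb14 cD6_14 = true :=
  by decide +kernel
def b15360 : lo2 14 9 15360 15872 7 10 2701959718277 tBR.1 tBI.1 us tb14 cD6_14 = true :=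
  by decide +kernel
def b15872 : lo2 14 9 15872 16384 15 9 2622321062024 tBR.1 tBI.1 us tb14 cD6_14 = true :=
  by decide +kernel
def b16384 : lo2 14 10 16384 17408 0 14 6197551860510 tBR.1 tBI.1 us tb14 cD6_14 = true :=
  by decide +kernel
def b17408 : lo2 14 10 17408 18432 8 10 5313568104152 tBR.1 tBI.1 us tb14 cD6_14 = true :=
  by decide +kernel

end Pool.Agent.Lib.MP_5db4ad_nt.NE
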