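import Pool.Agent.Lib.MP_5db4ad_nt.H42T14

/-!
Runs of the checks.
-/

namespace Pool.Agent.Lib.MP_5db4ad_nt.NE

open S2

set_option maxRecDepth 1000000
set_option maxHeartbeats 0
set_option exponentiation.threshold 100000000
set_option linter.defProp false

def b18432 : lo2 14 10 18432 19456 4 11 4895725501888 tBR.1 tBI.1 us tb14 cD6_14 = true :=
  by decide +kernel
def b19456 : lo2 14 10 19456 20480 9 10 4737468678419 tBR.1 tBI.1 us tb14 cD6_14 = true :=
  by decide +kernel
def b20480 : lo2 14 10 20480 21504 2 12 4599514333564 tBR.1 tBI.1 us tb14 cD6_14 = true :=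
  by decide +kernel
def b21504 : lo2 14 10 21504 22528 10 10 4362770222478 tBR.1 tBI.1 us tb14 cD6_14 = true :=
  by decide +kernel
def b22528 : lo2 14 10 22528 23552 5 11 4066554243485 tBR.1 tBI.1 us tb14 cD6_14 = true :=
  by decide +kernel
def b23552 : lo2 14 10 23552 24576 11 10 3815890526454 tBR.1 tBI.1 us tb14 cD6_14 = true :=
  by decide +kernel
def b24576 : lo2 14 10 24576 25600 1 13 3654532230593 tBR.1 tBI.1 us tb14 cD6_14 = true :=
  by decide +kernel
def b25600 : lo2 14 10 25600 26624 12 10 3526297595267 tBR.1 tBI.1 us tb14 cD6_14 = true :=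
  by decide +kernel
def b26624 : lo2 14 10 26624 27648 6 11 3401224853340 tBR.1 tBI.1 us tb14 cD6_14 = true :=
  by decide +kernel
def b27648 : lo2 14 10 27648 28672 13 10 3293710136283 tBR.1 tBI.1 us tb14 cD6_14 = true :=
  by decide +kernel
def b28672 : lo2 14 10 28672 29696 3 12 3182364590235 tBR.1 tBI.1 us tb14 cD6_14 = true :=
  by decide +kernel
def b29696 : lo2 14 10 29696 30720 14 10 3047010037458 tBR.1 tBI.1 us tb14 cD6_14 = true :=
  by decide +kernel
def b30720 : lo2 14 10 30720 31744 7 11 2957414059008 tBR.1 tBI.1 us tb14 cD6_14 = true :=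
  by decide +kernel
def b31744 : lo2 14 10 31744 32768 15 10 2857561730240 tBR.1 tBI.1 us tb14 cD6_14 = true :=
  by decide +kernel
def b32768 : lo2 14 11 32768 34816 0 15 7182404851089 tBR.1 tBI.1 us tb14 cD6_14 = true :=
  by decide +kernel
def b34816 : lo2 14 11 34816 36864 8 11 6491022777922 tBR.1 tBI.1 us tb14 cD6_14 = true :=
  by decide +kernel
def b36864 : lo2 14 11 36864 38912 4 12 5997378303295 tBR.1 tBI.1 us tb14 cD6_14 = true :=
  by decide +kernel
def b38912 : lo2 14 11 38912 40960 9 11 5598293855170 tBR.1 tBI.1 us tb14 cD6_14 = true :=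
  by decide +kernel
def b40960 : lo2 14 11 40960 43008 2 13 5256297561569 tBR.1 tBI.1 us tb14 cD6_14 = true :=
  by decide +kernel
def b43008 : lo2 14 11 43008 45056 10 11 4962626580302 tBR.1 tBI.1 us tb14 cD6_14 = true :=
  by decide +kernel
def b45056 : lo2 14 11 45056 47104 5 12 4729506154203 tBR.1 tBI.1 us tb14 cD6_14 = true :=
  by decide +kernel
def b47104 : lo2 14 11 47104 49152 11 11 4519614319475 tBR.1 tBI.1 us tb14 cD6_14 = true :=
  by decide +kernel

end Pool.Agent.Lib.MP_5db4ad_nt.NE
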