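import Pool.Agent.Lib.MP_5db4ad_nt.H42T14

/-!
Runs of the checks.
-/

namespace Pool.Agent.Lib.MP_5db4ad_nt.NE

open S2

set_option maxRecDepth 1000000
set_option maxHeartbeats 0
set_option exponentiation.threshold 100000000
set_option linter.defProp false

def b49152 : lo2 14 11 49152 51200 1 14 4330647131806 tBR.1 tBI.1 us tb14 cD6_14 = true :=
  by decide +kernel
def b51200 : lo2 14 11 51200 53248 12 11 4164267257025 tBR.1 tBI.1 us tb14 cD6_14 = true :=
  by decide +kernel
def b53248 : lo2 14 11 53248 55296 6 12 4019707293060 tBR.1 tBI.1 us tb14 cD6_14 = true :=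
  by decide +kernel
def b55296 : lo2 14 11 55296 57344 13 11 3894860963179 tBR.1 tBI.1 us tb14 cD6_14 = true :=
  by decide +kernel
def b57344 : lo2 14 11 57344 59392 3 13 3777877235724 tBR.1 tBI.1 us tb14 cD6_14 = true :=
  by decide +kernel
def b59392 : lo2 14 11 59392 61440 14 11 3651835656364 tBR.1 tBI.1 us tb14 cD6_14 = true :=
  by decide +kernel
def b61440 : lo2 14 11 61440 63488 7 12 3594507244209 tBR.1 tBI.1 us tb14 cD6_14 = true :=
  by decide +kernel
def b63488 : lo2 14 11 63488 65536 15 11 3478263038736 tBR.1 tBI.1 us tb14 cD6_14 = true :=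
  by decide +kernel
def b65536 : hi2 14 12 65536 69632 0 16 24834509 32431377 us tb14 cD6_14 = true :=
  by decide +kernel
def b69632 : hi2 14 12 69632 73728 8 12 22453846 27775635 us tb14 cD6_14 = true :=
  by decide +kernel
def b73728 : hi2 14 12 73728 77824 4 13 23926708 27519319 us tb14 cD6_14 = true :=
  by decide +kernel
def b77824 : hi2 14 12 77824 81920 9 12 22991934 25054041 us tb14 cD6_14 = true :=
  by decide +kernel
def b81920 : hi2 14 12 81920 86016 2 14 23171055 23860963 us tb14 cD6_14 = true :=
  by decide +kernel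
def b86016 : hi2 14 12 86016 90112 10 12 24361222 23658510 us tb14 cD6_14 = true :=
  by decide +kernel
def b90112 : hi2 14 12 90112 94208 5 13 29802970 26962635 us tb14 cD6_14 = true :=
  by decide +kernel
def b94208 : hi2 14 12 94208 98304 11 12 23717901 20987246 us tb14 cD6_14 = true :=
  by decide +kernel
def b98304 : hi2 14 12 98304 102400 1 15 24018655 20295991 us tb14 cD6_14 = true :=
  by decide +kernel
def b102400 : hi2 14 12 102400 106496 12 12 23173247 18843109 us tb14 cD6_14 = true :=
  by decide +kernel
def b106496 : hi2 14 12 106496 110592 6 13 25072437 19403533 us tb14 cD6_14 = true :=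
  by decide +kernel
def b110592 : hi2 14 12 110592 114688 13 12 22280345 16803390 us tb14 cD6_14 = true :=
  by decide +kernel
def b114688 : hi2 14 12 114688 118784 3 14 27106617 19275506 us tb14 cD6_14 = true :=
  by decide +kernel
def b118784 : hi2 14 12 118784 122880 14 12 22865166 15971757 us tb14 cD6_14 = true :=
  by decide +kernel
def b122880 : hi2 14 12 122880 126976 7 13 23653409 15893694 us tb14 cD6_14 = true :=
  by decide +kernel
def b126976 : hi2 14 12 126976 131072 15 12 24057531 15604504 us tb14 cD6_14 = true :=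
  by decide +kernel

end Pool.Agent.Lib.MP_5db4ad_nt.NE
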