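import Pool.Agent.Lib.MP_5db4ad_nt.H42T17

/-!
Runs of the checks.
-/

namespace Pool.Agent.Lib.MP_5db4ad_nt.NE

open S2

set_option maxRecDepth 1000000
set_option maxHeartbeats 0
set_option exponentiation.threshold 100000000
set_option linter.defProp false

def b131072 : hi2 17 13 131072 139264 0 17 37281545 26042004 us tb17 cD8_17 = true :=
  by decide +kernel
def b139264 : hi2 17 13 139264 147456 8 13 36069330 23583033 us tb17 cD8_17 = true :=
  by decide +kernel
def b147456 : hi2 17 13 147456 155648 4 14 36377775 22159757 us tb17 cD8_17 = true :=
  by decide +kernel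
def b155648 : hi2 17 13 155648 163840 9 13 39823894 22314047 us tb17 cD8_17 = true :=
  by decide +kernel
def b163840 : hi2 17 13 163840 172032 2 15 33377892 18364512 us tb17 cD8_17 = true :=
  by decide +kernel
def b172032 : hi2 17 13 172032 180224 10 13 37320933 18940140 us tb17 cD8_17 = true :=
  by decide +kernel
def b180224 : hi2 17 13 180224 188416 5 14 33557138 16561570 us tb17 cD8_17 = true :=
  by decide +kernel
def b188416 : hi2 17 13 188416 196608 11 13 36238338 16734600 us tb17 cD8_17 = true :=
  by decide +kernel
def b196608 : hi2 17 13 196608 204800 1 16 36167947 15952670 us tb17 cD8_17 = true :=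
  by decide +kernel
def b204800 : hi2 17 13 204800 212992 12 13 36957012 15527581 us tb17 cD8_17 = true :=
  by decide +kernel
def b212992 : hi2 17 13 212992 221184 6 14 33331000 13727557 us tb17 cD8_17 = true :=
  by decide +kernel
def b221184 : hi2 17 13 221184 229376 13 13 34942619 13680420 us tb17 cD8_17 = true :=
  by decide +kernel
def b229376 : hi2 17 13 229376 237568 3 15 35258945 13256073 us tb17 cD8_17 = true :=
  by decide +kernel
def b237568 : hi2 17 13 237568 245760 14 13 38696815 13757153 us tb17 cD8_17 = true :=
  by decide +kernel
def b245760 : hi2 17 13 245760 253952 7 14 33850963 11935331 us tb17 cD8_17 = true :=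
  by decide +kernel
def b253952 : hi2 17 13 253952 262144 15 13 33803949 11519196 us tb17 cD8_17 = true :=
  by decide +kernel
def b262144 : hi2 17 14 262144 278528 0 18 50216170 20804036 us tb17 cD8_17 = true :=
  by decide +kernel

end Pool.Agent.Lib.MP_5db4ad_nt.NE
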