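import Pool.Agent.Lib.MP_5db4ad_nt.H42T17

/-!
Runs of the checks.
-/

namespace Pool.Agent.Lib.MP_5db4ad_nt.NE

open S2

set_option maxRecDepth 1000000
set_option maxHeartbeats 0
set_option exponentiation.threshold 100000000
set_option linter.defProp false

def b278528 : hi2 17 14 278528 294912 8 14 53668549 19952727 us tb17 cD8_17 = true :=
  by decide +kernel
def b294912 : hi2 17 14 294912 311296 4 15 57027400 19266969 us tb17 cD8_17 = true :=
  by decide +kernel
def b311296 : hi2 17 14 311296 327680 9 14 53370128 17164273 us tb17 cD8_17 = true :=
  by decide +kernel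
def b327680 : hi2 17 14 327680 344064 2 16 54820340 16396207 us tb17 cD8_17 = true :=
  by decide +kernel
def b344064 : hi2 17 14 344064 360448 10 14 56123683 15704851 us tb17 cD8_17 = true :=
  by decide +kernel
def b360448 : hi2 17 14 360448 376832 5 15 59461775 15490729 us tb17 cD8_17 = true :=
  by decide +kernel
def b376832 : hi2 17 14 376832 393216 11 14 51658680 13280782 us tb17 cD8_17 = true :=
  by decide +kernel
def b393216 : hi2 17 14 393216 409600 1 17 53750672 12999652 us tb17 cD8_17 = true :=
  by decide +kernel
def b409600 : hi2 17 14 409600 425984 12 14 54663628 12556623 us tb17 cD8_17 = true :=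
  by decide +kernel
def b425984 : hi2 17 14 425984 442368 6 15 56395720 12287173 us tb17 cD8_17 = true :=
  by decide +kernel
def b442368 : hi2 17 14 442368 458752 13 14 49098801 10644740 us tb17 cD8_17 = true :=
  by decide +kernel
def b458752 : hi2 17 14 458752 475136 3 16 51635938 10595991 us tb17 cD8_17 = true :=
  by decide +kernel
def b475136 : hi2 17 14 475136 491520 14 14 51465891 10164053 us tb17 cD8_17 = true :=
  by decide +kernel
def b491520 : hi2 17 14 491520 507904 7 15 53670053 10095861 us tb17 cD8_17 = true :=
  by decide +kernel
def b507904 : hi2 17 14 507904 524288 15 14 55949002 10042371 us tb17 cD8_17 = true :=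
  by decide +kernel
def b524288 : hi2 17 15 524288 557056 0 19 76034572 19627630 us tb17 cD8_17 = true :=
  by decide +kernel
def b557056 : hi2 17 15 557056 589824 8 15 77155698 17911307 us tb17 cD8_17 = true :=
  by decide +kernel
def b589824 : hi2 17 15 589824 622592 4 16 77009056 16364685 us tb17 cD8_17 = true :=
  by decide +kernel

end Pool.Agent.Lib.MP_5db4ad_nt.NE
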