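import Pool.Agent.Lib.MP_5db4ad_nt.H42T17

/-!
Runs of the checks.
-/

namespace Pool.Agent.Lib.MP_5db4ad_nt.NE

open S2

set_option maxRecDepth 1000000
set_option maxHeartbeats 0
set_option exponentiation.threshold 100000000
set_option linter.defProp false

def b622592 : hi2 17 15 622592 655360 9 15 80128857 15453015 us tb17 cD8_17 = true :=
  by decide +kernel
def b655360 : hi2 17 15 655360 688128 2 17 80083030 14351072 us tb17 cD8_17 = true :=
  by decide +kernel
def b688128 : hi2 17 15 688128 720896 10 15 80894777 13492103 us tb17 cD8_17 = true :=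
  by decide +kernel
def b720896 : hi2 17 15 720896 753664 5 16 83103012 12887572 us tb17 cD8_17 = true :=
  by decide +kernel
def b753664 : hi2 17 15 753664 786432 11 15 76540449 11529551 us tb17 cD8_17 = true :=
  by decide +kernel
def b786432 : hi2 17 15 786432 819200 1 18 76966543 10945645 us tb17 cD8_17 = true :=
  by decide +kernel
def b819200 : hi2 17 15 819200 851968 12 15 80437629 10690574 us tb17 cD8_17 = true :=
  by decide +kernel
def b851968 : hi2 17 15 851968 884736 6 16 81059483 10234725 us tb17 cD8_17 = true :=
  by decide +kernel
def b884736 : hi2 17 15 884736 917504 13 15 80501433 9737860 us tb17 cD8_17 = true :=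
  by decide +kernel
def b917504 : hi2 17 15 917504 950272 3 17 78841760 9127888 us tb17 cD10_17 = true :=
  by decide +kernel
def b950272 : hi2 17 15 950272 983040 14 15 82123906 8978074 us tb17 cD10_17 = true :=
  by decide +kernel
def b983040 : hi2 17 15 983040 1015808 7 16 75214310 8118319 us tb17 cD10_17 = true :=
  by decide +kernel
def b1015808 : hi2 17 15 1015808 1048576 15 15 85536792 8498817 us tb17 cD10_17 = true :=
  by decide +kernel
def b1048576 : hi2 17 15 1048576 1081344 0 20 74234899 7428248 us tb17 cD10_17 = true :=
  by decide +kernel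
def b1081344 : hi2 17 15 1081344 1114112 16 15 74230947 7149530 us tb17 cD10_17 = true :=
  by decide +kernel
def b1114112 : hi2 17 15 1114112 1146880 8 16 87667092 7714629 us tb17 cD10_17 = true :=
  by decide +kernel
def b1146880 : hi2 17 15 1146880 1179648 17 15 76737531 6793945 us tb17 cD10_17 = true :=
  by decide +kernel

end Pool.Agent.Lib.MP_5db4ad_nt.NE
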