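import Pool.Agent.Lib.MP_5db4ad_nt.H42T17

/-!
Runs of the checks.
-/

namespace Pool.Agent.Lib.MP_5db4ad_nt.NE

open S2

set_option maxRecDepth 1000000
set_option maxHeartbeats 0
set_option exponentiation.threshold 100000000
set_option linter.defProp false

def b1179648 : hi2 17 15 1179648 1212416 4 17 74528179 6433019 us tb17 cD10_17 = true :=
  by decide +kernel
def b1212416 : hi2 17 15 1212416 1245184 18 15 79118723 6471951 us tb17 cD10_17 = true :=
  by decide +kernel
def b1245184 : hi2 17 15 1245184 1277952 9 16 79261957 6267926 us tb17 cD10_17 = true :=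
  by decide +kernel
def b1277952 : hi2 17 15 1277952 1310720 19 15 80433457 6127798 us tb17 cD10_17 = true :=
  by decide +kernel
def b1310720 : hi2 17 15 1310720 1343488 2 18 80223824 5924811 us tb17 cD10_17 = true :=
  by decide +kernel
def b1343488 : hi2 17 15 1343488 1376256 20 15 88710603 6160007 us tb17 cD10_17 = true :=
  by decide +kernel
def b1376256 : hi2 17 15 1376256 1409024 10 16 80866944 5599588 us tb17 cD10_17 = true :=
  by decide +kernel
def b1409024 : hi2 17 15 1409024 1441792 21 15 79055538 5349454 us tb17 cD10_17 = true :=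
  by decide +kernel
def b1441792 : hi2 17 15 1441792 1474560 5 17 80033480 5237517 us tb17 cD10_17 = true :=
  by decide +kernel
def b1474560 : hi2 17 15 1474560 1507328 22 15 75808665 4901804 us tb17 cD10_17 = true :=
  by decide +kernel
def b1507328 : hi2 17 15 1507328 1540096 11 16 83784810 5102964 us tb17 cD10_17 = true :=
  by decide +kernel
def b1540096 : hi2 17 15 1540096 1572864 23 15 78229516 4730543 us tb17 cD10_17 = true :=
  by decide +kernel
def b1572864 : hi2 17 15 1572864 1605632 1 19 87382581 4969756 us tb17 cD10_17 = true :=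
  by decide +kernel
def b1605632 : hi2 17 15 1605632 1638400 24 15 85169574 4748294 us tb17 cD10_17 = true :=
  by decide +kernel
def b1638400 : hi2 17 15 1638400 1671168 12 16 77217592 4317058 us tb17 cD10_17 = true :=
  by decide +kernel
def b1671168 : hi2 17 15 1671168 1703936 25 15 77893107 4227911 us tb17 cD10_17 = true :=
  by decide +kernel
def b1703936 : hi2 17 15 1703936 1736704 6 17 85697325 4400329 us tb17 cD10_17 = true :=
  by decide +kernel

end Pool.Agent.Lib.MP_5db4ad_nt.NE
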