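import Pool.Agent.Lib.MP_5db4ad_nt.H42T17

/-!
Runs of the checks.
-/

namespace Pool.Agent.Lib.MP_5db4ad_nt.NE

open S2

set_option maxRecDepth 1000000
set_option maxHeartbeats 0
set_option exponentiation.threshold 100000000
set_option linter.defProp false

def b1736704 : hi2 17 15 1736704 1769472 26 15 76985342 3978394 us tb17 cD10_17 = true :=
  by decide +kernel
def b1769472 : hi2 17 15 1769472 1802240 13 16 84584366 4138378 us tb17 cD10_17 = true :=
  by decide +kernel
def b1802240 : hi2 17 15 1802240 1835008 27 15 80651801 3901261 us tb17 cD10_17 = true :=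
  by decide +kernel
def b1835008 : hi2 17 15 1835008 1867776 3 18 85763580 3970748 us tb17 cD10_17 = true :=
  by decide +kernel
def b1867776 : hi2 17 15 1867776 1900544 28 15 90468058 4022218 us tb17 cD10_17 = true :=
  by decide +kernel
def b1900544 : hi2 17 15 1900544 1933312 14 16 76606684 3490503 us tb17 cD10_17 = true :=
  by decide +kernel
def b1933312 : hi2 17 15 1933312 1966080 29 15 84154008 3634591 us tb17 cD10_17 = true :=
  by decide +kernel
def b1966080 : hi2 17 15 1966080 1998848 7 17 80182867 3428346 us tb17 cD10_17 = true :=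
  by decide +kernel
def b1998848 : hi2 17 15 1998848 2031616 30 15 73466016 3150671 us tb17 cD10_17 = true :=
  by decide +kernel
def b2031616 : hi2 17 15 2031616 2064384 15 16 91398798 3582597 us tb17 cD10_17 = true :=
  by decide +kernel
def b2064384 : hi2 17 15 2064384 2097152 31 15 87252780 3382549 us tb17 cD10_17 = true :=
  by decide +kernel
def b2097152 : hi2 17 15 2097152 2129920 0 21 79198195 3085119 us tb17 cD10_17 = true :=
  by decide +kernel
def b2129920 : hi2 17 15 2129920 2162688 32 15 83051523 3113977 us tb17 cD10_17 = true :=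
  by decide +kernel
def b2162688 : hi2 17 15 2162688 2195456 16 16 83155965 3043515 us tb17 cD10_17 = true :=
  by decide +kernel
def b2195456 : hi2 17 15 2195456 2228224 33 15 78402539 2853150 us tb17 cD10_17 = true :=
  by decide +kernel
def b2228224 : hi2 17 15 2228224 2260992 8 17 74874794 2700107 us tb17 cD10_17 = true :=
  by decide +kernel

end Pool.Agent.Lib.MP_5db4ad_nt.NE
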