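import Pool.Agent.Lib.MP_5db4ad_nt.H42T17

/-!
Runs of the checks.
-/

namespace Pool.Agent.Lib.MP_5db4ad_nt.NE

open S2

set_option maxRecDepth 1000000
set_option maxHeartbeats 0
set_option exponentiation.threshold 100000000
set_option linter.defProp false

def b2260992 : hi2 17 15 2260992 2293760 34 15 79376825 2745681 us tb17 cD10_17 = true :=
  by decide +kernel
def b2293760 : hi2 17 15 2293760 2326528 17 16 82204229 2748856 us tb17 cD10_17 = true :=
  by decide +kernel
def b2326528 : hi2 17 15 2326528 2359296 35 15 76232838 2548941 us tb17 cD10_17 = true :=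
  by decide +kernel
def b2359296 : hi2 17 15 2359296 2392064 4 18 74314028 2447726 us tb17 cD10_17 = true :=
  by decide +kernel
def b2392064 : hi2 17 15 2392064 2424832 36 15 92562907 2791230 us tb17 cD10_17 = true :=
  by decide +kernel
def b2424832 : hi2 17 15 2424832 2457600 18 16 77792301 2412007 us tb17 cD10_17 = true :=
  by decide +kernel
def b2457600 : hi2 17 15 2457600 2490368 37 15 79224468 2387139 us tb17 cD10_17 = true :=
  by decide +kernel
def b2490368 : hi2 17 15 2490368 2523136 9 17 76694662 2281617 us tb17 cD10_17 = true :=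
  by decide +kernel
def b2523136 : hi2 17 15 2523136 2555904 38 15 89065148 2477342 us tb17 cD10_17 = true :=
  by decide +kernel
def b2555904 : hi2 17 15 2555904 2588672 19 16 84309712 2328645 us tb17 cD10_17 = true :=
  by decide +kernel
def b2588672 : hi2 17 15 2588672 2621440 39 15 80439284 2202606 us tb17 cD10_17 = true :=
  by decide +kernel
def b2621440 : hi2 17 15 2621440 2654208 2 19 82678858 2194857 us tb17 cD10_17 = true :=
  by decide +kernel
def b2654208 : hi2 17 15 2654208 2686976 40 15 80650253 2108854 us tb17 cD10_17 = true :=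
  by decide +kernel
def b2686976 : hi2 17 15 2686976 2719744 20 16 76149947 1981368 us tb17 cD10_17 = true :=
  by decide +kernel
def b2719744 : hi2 17 15 2719744 2752512 41 15 78937081 1985761 us tb17 cD10_17 = true :=
  by decide +kernel

end Pool.Agent.Lib.MP_5db4ad_nt.NE
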