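import Pool.Agent.Lib.MP_5db4ad_nt.H42T17

/-!
Runs of the checks.
-/

namespace Pool.Agent.Lib.MP_5db4ad_nt.NE

open S2

set_option maxRecDepth 1000000
set_option maxHeartbeats 0
set_option exponentiation.threshold 100000000
set_option linter.defProp false

def b2752512 : hi2 17 15 2752512 2785280 10 17 81992504 1993531 us tb17 cD10_17 = true :=
  by decide +kernel
def b2785280 : hi2 17 15 2785280 2818048 42 15 74500875 1824215 us tb17 cD10_17 = true :=
  by decide +kernel
def b2818048 : hi2 17 15 2818048 2850816 21 16 78571746 1849903 us tb17 cD10_17 = true :=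
  by decide +kernel
def b2850816 : hi2 17 15 2850816 2883584 43 15 82852425 1876934 us tb17 cD10_17 = true :=
  by decide +kernel
def b2883584 : hi2 17 15 2883584 2916352 5 18 87495605 1907505 us tb17 cD10_17 = true :=
  by decide +kernel
def b2916352 : hi2 17 15 2916352 2949120 44 15 79293339 1740050 us tb17 cD10_17 = true :=
  by decide +kernel
def b2949120 : hi2 17 15 2949120 2981888 22 16 81760549 1738060 us tb17 cD10_17 = true :=
  by decide +kernel
def b2981888 : hi2 17 15 2981888 3014656 45 15 79384514 1664759 us tb17 cD10_17 = true :=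
  by decide +kernel
def b3014656 : hi2 17 15 3014656 3047424 11 17 82403031 1670673 us tb17 cD10_17 = true :=
  by decide +kernel
def b3047424 : hi2 17 15 3047424 3080192 46 15 78223432 1575343 us tb17 cD10_17 = true :=
  by decide +kernel
def b3080192 : hi2 17 15 3080192 3112960 23 16 81249643 1581471 us tb17 cD10_17 = true :=
  by decide +kernel
def b3112960 : hi2 17 15 3112960 3145728 47 15 79488744 1522729 us tb17 cD10_17 = true :=
  by decide +kernel
def b3145728 : hi2 17 15 3145728 3178496 1 20 77959535 1468932 us tb17 cD10_17 = true :=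
  by decide +kernel
def b3178496 : hi2 17 15 3178496 3211264 48 15 79640319 1457608 us tb17 cD10_17 = true :=
  by decide +kernel
def b3211264 : hi2 17 15 3211264 3244032 24 16 83647472 1474854 us tb17 cD10_17 = true :=
  by decide +kernel
def b3244032 : hi2 17 15 3244032 3276800 49 15 78768666 1382758 us tb17 cD10_17 = true :=
  by decide +kernel
def b3276800 : hi2 17 15 3276800 3309568 12 17 80454604 1371904 us tb17 cD10_17 = true :=
  by decide +kernel

end Pool.Agent.Lib.MP_5db4ad_nt.NE
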