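import Pool.Agent.Lib.MP_5db4ad_nt.H42T17

/-!
Runs of the checks.
-/

namespace Pool.Agent.Lib.MP_5db4ad_nt.NE

open S2

set_option maxRecDepth 1000000
set_option maxHeartbeats 0
set_option exponentiation.threshold 100000000
set_option linter.defProp false

def b3309568 : hi2 17 15 3309568 3342336 50 15 92614411 1482333 us tb17 cD10_17 = true :=
  by decide +kernel
def b3342336 : hi2 17 15 3342336 3375104 25 16 74821777 1247545 us tb17 cD10_17 = true :=
  by decide +kernel
def b3375104 : hi2 17 15 3375104 3407872 51 15 77589562 1250463 us tb17 cD10_17 = true :=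
  by decide +kernel
def b3407872 : hi2 17 15 3407872 3440640 6 18 91705834 1375363 us tb17 cD10_17 = true :=
  by decide +kernel
def b3440640 : hi2 17 15 3440640 3473408 52 15 78824487 1208515 us tb17 cD10_17 = true :=
  by decide +kernel
def b3473408 : hi2 17 15 3473408 3506176 26 16 77040852 1163186 us tb17 cD10_17 = true :=
  by decide +kernel
def b3506176 : hi2 17 15 3506176 3538944 53 15 86343720 1231333 us tb17 cD10_17 = true :=
  by decide +kernel
def b3538944 : hi2 17 15 3538944 3571712 13 17 90998442 1249935 us tb17 cD10_17 = true :=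
  by decide +kernel
def b3571712 : hi2 17 15 3571712 3604480 54 15 85832739 1172432 us tb17 cD10_17 = true :=
  by decide +kernel
def b3604480 : hi2 17 15 3604480 3637248 27 16 76545087 1059186 us tb17 cD10_17 = true :=
  by decide +kernel
def b3637248 : hi2 17 15 3637248 3670016 55 15 83021000 1095508 us tb17 cD10_17 = true :=
  by decide +kernel
def b3670016 : hi2 17 15 3670016 3702784 3 19 92253355 1154471 us tb17 cD10_17 = true :=
  by decide +kernel
def b3702784 : hi2 17 15 3702784 3735552 56 15 80581397 1026930 us tb17 cD10_17 = true :=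
  by decide +kernel
def b3735552 : hi2 17 15 3735552 3768320 28 16 81846651 999560 us tb17 cD11_17 = true :=
  by decide +kernel

end Pool.Agent.Lib.MP_5db4ad_nt.NE
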