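import Pool.Agent.Lib.MP_5db4ad_nt.H42T17

/-!
Runs of the checks.
-/

namespace Pool.Agent.Lib.MP_5db4ad_nt.NE

open S2

set_option maxRecDepth 1000000
set_option maxHeartbeats 0
set_option exponentiation.threshold 100000000
set_option linter.defProp false

def b3768320 : hi2 17 15 3768320 3801088 57 15 85021535 1002375 us tb17 cD11_17 = true :=
  by decide +kernel
def b3801088 : hi2 17 15 3801088 3833856 14 17 77111600 914099 us tb17 cD11_17 = true :=
  by decide +kernel
def b3833856 : hi2 17 15 3833856 3866624 58 15 77534826 895591 us tb17 cD11_17 = true :=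
  by decide +kernel
def b3866624 : hi2 17 15 3866624 3899392 29 16 80757211 899190 us tb17 cD11_17 = true :=
  by decide +kernel
def b3899392 : hi2 17 15 3899392 3932160 59 15 80733769 877393 us tb17 cD11_17 = true :=
  by decide +kernel
def b3932160 : hi2 17 15 3932160 3964928 7 18 77296178 830714 us tb17 cD11_17 = true :=
  by decide +kernel
def b3964928 : hi2 17 15 3964928 3997696 60 15 77971944 815435 us tb17 cD11_17 = true :=
  by decide +kernel
def b3997696 : hi2 17 15 3997696 4030464 30 16 79605850 807032 us tb17 cD11_17 = true :=
  by decide +kernel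
def b4030464 : hi2 17 15 4030464 4063232 61 15 79227721 784638 us tb17 cD11_17 = true :=
  by decide +kernel
def b4063232 : hi2 17 15 4063232 4096000 15 17 95996281 877660 us tb17 cD11_17 = true :=
  by decide +kernel
def b4096000 : hi2 17 15 4096000 4128768 62 15 79258391 746526 us tb17 cD11_17 = true :=
  by decide +kernel
def b4128768 : hi2 17 15 4128768 4161536 31 16 85724585 769157 us tb17 cD11_17 = true :=
  by decide +kernel

end Pool.Agent.Lib.MP_5db4ad_nt.NE
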