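import Pool.Agent.Lib.MP_5db4ad_nt.H42T17

/-!
Runs of the checks.
-/

namespace Pool.Agent.Lib.MP_5db4ad_nt.NE

open S2

set_option maxRecDepth 1000000
set_option maxHeartbeats 0
set_option exponentiation.threshold 100000000
set_option linter.defProp false

def b4161536 : hi2 17 15 4161536 4194304 63 15 82643146 730740 us tb17 cD11_17 = true :=
  by decide +kernel
def b4194304 : hi2 17 15 4194304 4227072 0 22 83804989 719421 us tb17 cD11_17 = true :=
  by decide +kernel
def b4227072 : hi2 17 15 4227072 4259840 64 15 75963136 654930 us tb17 cD11_17 = true :=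
  by decide +kernel
def b4259840 : hi2 17 15 4259840 4292608 32 16 83950827 684176 us tb17 cD11_17 = true :=
  by decide +kernel
def b4292608 : hi2 17 15 4292608 4325376 65 15 83992685 666920 us tb17 cD11_17 = true :=
  by decide +kernel
def b4325376 : hi2 17 15 4325376 4358144 16 17 74009426 595235 us tb17 cD11_17 = true :=
  by decide +kernel
def b4358144 : hi2 17 15 4358144 4390912 66 15 82170337 623229 us tb17 cD11_17 = true :=
  by decide +kernel
def b4390912 : hi2 17 15 4390912 4423680 33 16 76224792 576178 us tb17 cD11_17 = true :=
  by decide +kernel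
def b4423680 : hi2 17 15 4423680 4456448 67 15 82933151 594915 us tb17 cD11_17 = true :=
  by decide +kernel
def b4456448 : hi2 17 15 4456448 4489216 8 18 74528968 537944 us tb17 cD11_17 = true :=
  by decide +kernel
def b4489216 : hi2 17 15 4489216 4521984 68 15 81610005 557512 us tb17 cD11_17 = true :=
  by decide +kernel

end Pool.Agent.Lib.MP_5db4ad_nt.NE
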