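import Pool.Agent.Lib.MP_5db4ad_nt.H42T17

/-!
Runs of the checks.
-/

namespace Pool.Agent.Lib.MP_5db4ad_nt.NE

open S2

set_option maxRecDepth 1000000
set_option maxHeartbeats 0
set_option exponentiation.threshold 100000000
set_option linter.defProp false

def b4521984 : hi2 17 15 4521984 4554752 34 16 80698320 538385 us tb17 cD11_17 = true :=
  by decide +kernel
def b4554752 : hi2 17 15 4554752 4587520 69 15 77132357 507745 us tb17 cD11_17 = true :=
  by decide +kernel
def b4587520 : hi2 17 15 4587520 4620288 17 17 81265832 512187 us tb17 cD11_17 = true :=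
  by decide +kernel
def b4620288 : hi2 17 15 4620288 4653056 70 15 88342797 528537 us tb17 cD11_17 = true :=
  by decide +kernel
def b4653056 : hi2 17 15 4653056 4685824 35 16 77676690 469602 us tb17 cD11_17 = true :=
  by decide +kernel
def b4685824 : hi2 17 15 4685824 4718592 71 15 79988602 465983 us tb17 cD11_17 = true :=
  by decide +kernel
def b4718592 : hi2 17 15 4718592 4751360 4 19 79729242 451984 us tb17 cD11_17 = true :=
  by decide +kernel
def b4751360 : hi2 17 15 4751360 4784128 72 15 78183319 433373 us tb17 cD11_17 = true :=
  by decide +kernel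
def b4784128 : hi2 17 15 4784128 4816896 36 16 81451379 433287 us tb17 cD11_17 = true :=
  by decide +kernel
def b4816896 : hi2 17 15 4816896 4849664 73 15 74304912 395127 us tb17 cD11_17 = true :=
  by decide +kernel
def b4849664 : hi2 17 15 4849664 4882432 18 17 84823167 420707 us tb17 cD11_17 = true :=
  by decide +kernel
def b4882432 : hi2 17 15 4882432 4915200 74 15 89137062 423242 us tb17 cD11_17 = true :=
  by decide +kernel
def b4915200 : hi2 17 15 4915200 4947968 37 16 84387007 395185 us tb17 cD11_17 = true :=
  by decide +kernel
def b4947968 : hi2 17 15 4947968 4980736 75 15 81453928 374161 us tb17 cD11_17 = true :=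
  by decide +kernel

end Pool.Agent.Lib.MP_5db4ad_nt.NE
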