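import Pool.Agent.Lib.MP_5db4ad_nt.H42T17

/-!
Runs of the checks.
-/

namespace Pool.Agent.Lib.MP_5db4ad_nt.NE

open S2

set_option maxRecDepth 1000000
set_option maxHeartbeats 0
set_option exponentiation.threshold 100000000
set_option linter.defProp false

def b4980736 : hi2 17 15 4980736 5013504 9 18 84002202 371018 us tb17 cD11_17 = true :=
  by decide +kernel
def b5013504 : hi2 17 15 5013504 5046272 76 15 77112763 339111 us tb17 cD11_17 = true :=
  by decide +kernel
def b5046272 : hi2 17 15 5046272 5079040 38 16 76162276 326127 us tb17 cD11_17 = true :=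
  by decide +kernel
def b5079040 : hi2 17 15 5079040 5111808 77 15 81362531 331011 us tb17 cD11_17 = true :=
  by decide +kernel
def b5111808 : hi2 17 15 5111808 5144576 19 17 81696345 321786 us tb17 cD11_17 = true :=
  by decide +kernel
def b5144576 : hi2 17 15 5144576 5177344 78 15 76869404 298966 us tb17 cD11_17 = true :=
  by decide +kernel
def b5177344 : hi2 17 15 5177344 5210112 39 16 86966716 315758 us tb17 cD11_17 = true :=
  by decide +kernel
def b5210112 : hi2 17 15 5210112 5242880 79 15 88171084 308841 us tb17 cD11_17 = true :=
  by decide +kernel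
def b5242880 : hi2 17 15 5242880 5275648 2 20 72264098 260472 us tb17 cD11_17 = true :=
  by decide +kernel
def b5275648 : hi2 17 15 5275648 5308416 80 15 79407945 268904 us tb17 cD11_17 = true :=
  by decide +kernel
def b5308416 : hi2 17 15 5308416 5341184 40 16 86284455 275834 us tb17 cD11_17 = true :=
  by decide +kernel
def b5341184 : hi2 17 15 5341184 5373952 81 15 81695579 256741 us tb17 cD11_17 = true :=
  by decide +kernel
def b5373952 : hi2 17 15 5373952 5406720 20 17 86666473 258860 us tb17 cD11_17 = true :=
  by decide +kernel
def b5406720 : hi2 17 15 5406720 5439488 82 15 88111963 253218 us tb17 cD11_17 = true :=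
  by decide +kernel

end Pool.Agent.Lib.MP_5db4ad_nt.NE
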