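import Pool.Agent.Lib.MP_5db4ad_nt.H42T17

/-!
Runs of the checks.
-/

namespace Pool.Agent.Lib.MP_5db4ad_nt.NE

open S2

set_option maxRecDepth 1000000
set_option maxHeartbeats 0
set_option exponentiation.threshold 100000000
set_option linter.defProp false

def b5439488 : hi2 17 15 5439488 5472256 41 16 83480683 235519 us tb17 cD11_17 = true :=
  by decide +kernel
def b5472256 : hi2 17 15 5472256 5505024 83 15 79004681 218941 us tb17 cD11_17 = true :=
  by decide +kernel
def b5505024 : hi2 17 15 5505024 5537792 10 18 77380581 208431 us tb17 cD11_17 = true :=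
  by decide +kernel
def b5537792 : hi2 17 15 5537792 5570560 84 15 80735012 207211 us tb17 cD11_17 = true :=
  by decide +kernel
def b5570560 : hi2 17 15 5570560 5603328 42 16 84831743 207025 us tb17 cD11_17 = true :=
  by decide +kernel
def b5603328 : hi2 17 15 5603328 5636096 85 15 77835137 188075 us tb17 cD11_17 = true :=
  by decide +kernel
def b5636096 : hi2 17 15 5636096 5668864 21 17 82752482 189239 us tb17 cD11_17 = true :=
  by decide +kernel
def b5668864 : hi2 17 15 5668864 5701632 86 15 89384422 192652 us tb17 cD11_17 = true :=
  by decide +kernel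
def b5701632 : hi2 17 15 5701632 5734400 43 16 78634342 169603 us tb17 cD11_17 = true :=
  by decide +kernel
def b5734400 : hi2 17 15 5734400 5767168 87 15 73600330 156119 us tb17 cD11_17 = true :=
  by decide +kernel
def b5767168 : hi2 17 15 5767168 5799936 5 19 80332516 159586 us tb17 cD11_17 = true :=
  by decide +kernel
def b5799936 : hi2 17 15 5799936 5832704 88 15 74703839 146076 us tb17 cD11_17 = true :=
  by decide +kernel
def b5832704 : hi2 17 15 5832704 5865472 44 16 82424203 150361 us tb17 cD11_17 = true :=
  by decide +kernel
def b5865472 : hi2 17 15 5865472 5898240 89 15 74614321 134941 us tb17 cD11_17 = true :=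
  by decide +kernel

end Pool.Agent.Lib.MP_5db4ad_nt.NE
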