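import Pool.Agent.Lib.MP_5db4ad_nt.H42T17

/-!
Runs of the checks.
-/

namespace Pool.Agent.Lib.MP_5db4ad_nt.NE

open S2

set_option maxRecDepth 1000000
set_option maxHeartbeats 0
set_option exponentiation.threshold 100000000
set_option linter.defProp false

def b5898240 : hi2 17 15 5898240 5931008 22 17 83420097 140055 us tb17 cD11_17 = true :=
  by decide +kernel
def b5931008 : hi2 17 15 5931008 5963776 90 15 82552445 133523 us tb17 cD11_17 = true :=
  by decide +kernel
def b5963776 : hi2 17 15 5963776 5996544 45 16 86250230 132187 us tb17 cD11_17 = true :=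
  by decide +kernel
def b5996544 : hi2 17 15 5996544 6029312 91 15 80127956 120431 us tb17 cD11_17 = true :=
  by decide +kernel
def b6029312 : hi2 17 15 6029312 6062080 11 18 79162055 114506 us tb17 cD11_17 = true :=
  by decide +kernel
def b6062080 : hi2 17 15 6062080 6094848 92 15 80614296 111128 us tb17 cD11_17 = true :=
  by decide +kernel
def b6094848 : hi2 17 15 6094848 6127616 46 16 83065375 108680 us tb17 cD11_17 = true :=
  by decide +kernel
def b6127616 : hi2 17 15 6127616 6160384 93 15 84575123 105359 us tb17 cD11_17 = true :=
  by decide +kernel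
def b6160384 : hi2 17 15 6160384 6193152 23 17 87484969 103233 us tb17 cD11_17 = true :=
  by decide +kernel
def b6193152 : hi2 17 15 6193152 6225920 94 15 79221337 92051 us tb17 cD11_17 = true :=
  by decide +kernel
def b6225920 : hi2 17 15 6225920 6258688 47 16 78125410 87108 us tb17 cD11_17 = true :=
  by decide +kernel
def b6258688 : hi2 17 15 6258688 6291456 95 15 79257000 83994 us tb17 cD11_17 = true :=
  by decide +kernel
def b6291456 : hi2 17 15 6291456 6324224 1 21 80395395 80938 us tb17 cD11_17 = true :=
  by decide +kernel
def b6324224 : hi2 17 15 6324224 6356992 96 15 80184419 77028 us tb17 cD11_17 = true :=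
  by decide +kernel
def b6356992 : hi2 17 15 6356992 6389760 48 16 78326984 72209 us tb17 cD11_17 = true :=
  by decide +kernel

end Pool.Agent.Lib.MP_5db4ad_nt.NE
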