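import Pool.Agent.Lib.MP_5db4ad_nt.H42T17

/-!
Runs of the checks.
-/

namespace Pool.Agent.Lib.MP_5db4ad_nt.NE

open S2

set_option maxRecDepth 1000000
set_option maxHeartbeats 0
set_option exponentiation.threshold 100000000
set_option linter.defProp false

def b6389760 : hi2 17 15 6389760 6422528 97 15 83710374 71994 us tb17 cD11_17 = true :=
  by decide +kernel
def b6422528 : hi2 17 15 6422528 6455296 24 17 83254408 68225 us tb17 cD11_17 = true :=
  by decide +kernel
def b6455296 : hi2 17 15 6455296 6488064 98 15 75945262 60857 us tb17 cD11_17 = true :=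
  by decide +kernel
def b6488064 : hi2 17 15 6488064 6520832 49 16 90891608 65546 us tb17 cD11_17 = true :=
  by decide +kernel
def b6520832 : hi2 17 15 6520832 6553600 99 15 76315542 55026 us tb17 cD11_17 = true :=
  by decide +kernel
def b6553600 : hi2 17 15 6553600 6586368 12 18 79955258 53864 us tb17 cD11_17 = true :=
  by decide +kernel
def b6586368 : hi2 17 15 6586368 6619136 100 15 74342797 48540 us tb17 cD11_17 = true :=
  by decide +kernel
def b6619136 : hi2 17 15 6619136 6651904 50 16 79628961 48138 us tb17 cD11_17 = true :=
  by decide +kernel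
def b6651904 : hi2 17 15 6651904 6684672 101 15 81160622 46110 us tb17 cD11_17 = true :=
  by decide +kernel
def b6684672 : hi2 17 15 6684672 6717440 25 17 76139113 41673 us tb17 cD11_17 = true :=
  by decide +kernel
def b6717440 : hi2 17 15 6717440 6750208 102 15 81909577 41338 us tb17 cD11_17 = true :=
  by decide +kernel
def b6750208 : hi2 17 15 6750208 6782976 51 16 81390024 38777 us tb17 cD11_17 = true :=
  by decide +kernel
def b6782976 : hi2 17 15 6782976 6815744 103 15 87914197 38527 us tb17 cD11_17 = true :=
  by decide +kernel
def b6815744 : hi2 17 15 6815744 6848512 6 19 84076810 35090 us tb17 cD11_17 = true :=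
  by decide +kernel
def b6848512 : hi2 17 15 6848512 6881280 104 15 79530451 31698 us tb17 cD11_17 = true :=
  by decide +kernel
def b6881280 : hi2 17 15 6881280 6914048 52 16 82184587 30402 us tb17 cD11_17 = true :=
  by decide +kernel

end Pool.Agent.Lib.MP_5db4ad_nt.NE
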