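import Pool.Agent.Lib.MP_5db4ad_nt.H42T17

/-!
Runs of the checks.
-/

namespace Pool.Agent.Lib.MP_5db4ad_nt.NE

open S2

set_option maxRecDepth 1000000
set_option maxHeartbeats 0
set_option exponentiation.threshold 100000000
set_option linter.defProp false

def b6914048 : hi2 17 15 6914048 6946816 105 15 83517787 28786 us tb17 cD11_17 = true :=
  by decide +kernel
def b6946816 : hi2 17 15 6946816 6979584 26 17 82032165 26579 us tb17 cD11_17 = true :=
  by decide +kernel
def b6979584 : hi2 17 15 6979584 7012352 106 15 83163149 25049 us tb17 cD11_17 = true :=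
  by decide +kernel
def b7012352 : hi2 17 15 7012352 7045120 53 16 80953472 22916 us tb17 cD11_17 = true :=
  by decide +kernel
def b7045120 : hi2 17 15 7045120 7077888 107 15 80170116 21182 us tb17 cD11_17 = true :=
  by decide +kernel
def b7077888 : hi2 17 15 7077888 7110656 13 18 79933267 19637 us tb17 cD11_17 = true :=
  by decide +kernel
def b7110656 : hi2 17 15 7110656 7143424 108 15 80520366 18300 us tb17 cD11_17 = true :=
  by decide +kernel
def b7143424 : hi2 17 15 7143424 7176192 54 16 88319968 18064 us tb17 cD11_17 = true :=
  by decide +kernel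
def b7176192 : hi2 17 15 7176192 7208960 109 15 90324767 16950 us tb17 cD11_17 = true :=
  by decide +kernel
def b7208960 : hi2 17 15 7208960 7241728 27 17 77892373 14093 us tb17 cD11_17 = true :=
  by decide +kernel
def b7241728 : hi2 17 15 7241728 7274496 110 15 88185461 14122 us tb17 cD11_17 = true :=
  by decide +kernel
def b7274496 : hi2 17 15 7274496 7307264 55 16 83247318 12443 us tb17 cD11_17 = true :=
  by decide +kernel
def b7307264 : hi2 17 15 7307264 7340032 111 15 83071797 11370 us tb17 cD11_17 = true :=
  by decide +kernel
def b7340032 : hi2 17 15 7340032 7372800 3 20 79228634 10044 us tb17 cD11_17 = true :=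
  by decide +kernel
def b7372800 : hi2 17 15 7372800 7405568 112 15 83325465 9462 us tb17 cD11_17 = true :=
  by decide +kernel

end Pool.Agent.Lib.MP_5db4ad_nt.NE
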