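import Pool.Agent.Lib.MP_5db4ad_nt.H42T17

/-!
Runs of the checks.
-/

namespace Pool.Agent.Lib.MP_5db4ad_nt.NE

open S2

set_option maxRecDepth 1000000
set_option maxHeartbeats 0
set_option exponentiation.threshold 100000000
set_option linter.defProp false

def b7405568 : hi2 17 15 7405568 7438336 56 16 80694819 8397 us tb17 cD11_17 = true :=
  by decide +kernel
def b7438336 : hi2 17 15 7438336 7471104 113 15 81528727 7647 us tb17 cD11_17 = true :=
  by decide +kernel
def b7471104 : hi2 17 15 7471104 7503872 28 17 82550843 6950 us tb17 cD11_17 = true :=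
  by decide +kernel
def b7503872 : hi2 17 15 7503872 7536640 114 15 82471085 6236 us tb17 cD11_17 = true :=
  by decide +kernel
def b7536640 : hi2 17 15 7536640 7569408 57 16 80244008 5474 us tb17 cD11_17 = true :=
  by decide +kernel
def b7569408 : hi2 17 15 7569408 7602176 115 15 79325208 4836 us tb17 cD11_17 = true :=
  by decide +kernel
def b7602176 : hi2 17 15 7602176 7634944 14 18 81909785 4379 us tb17 cD11_17 = true :=
  by decide +kernel
def b7634944 : hi2 17 15 7634944 7667712 116 15 76244638 3680 us tb17 cD11_17 = true :=
  by decide +kernel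
def b7667712 : hi2 17 15 7667712 7700480 58 16 77260599 3256 us tb17 cD11_17 = true :=
  by decide +kernel
def b7700480 : hi2 17 15 7700480 7733248 117 15 80734122 2922 us tb17 cD11_17 = true :=
  by decide +kernel
def b7733248 : hi2 17 15 7733248 7766016 29 17 84598556 2611 us tb17 cD11_17 = true :=
  by decide +kernel
def b7766016 : hi2 17 15 7766016 7798784 118 15 80481824 2169 us tb17 cD11_17 = true :=
  by decide +kernel
def b7798784 : hi2 17 15 7798784 7831552 59 16 76605786 1790 us tb17 cD11_17 = true :=
  by decide +kernel
def b7831552 : hi2 17 15 7831552 7864320 119 15 79557417 1550 us tb17 cD11_17 = true :=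
  by decide +kernel
def b7864320 : hi2 17 15 7864320 7897088 7 19 76734778 1266 us tb17 cD11_17 = true :=
  by decide +kernel

end Pool.Agent.Lib.MP_5db4ad_nt.NE
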