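import Pool.Agent.Lib.MP_5db4ad_nt.H42T17

/-!
Runs of the checks.
-/

namespace Pool.Agent.Lib.MP_5db4ad_nt.NE

open S2

set_option maxRecDepth 1000000
set_option maxHeartbeats 0
set_option exponentiation.threshold 100000000
set_option linter.defProp false

def b7897088 : hi2 17 15 7897088 7929856 120 15 80594406 1080 us tb17 cD11_17 = true :=
  by decide +kernel
def b7929856 : hi2 17 15 7929856 7962624 60 16 76619654 853 us tb17 cD11_17 = true :=
  by decide +kernel
def b7962624 : hi2 17 15 7962624 7995392 121 15 76714127 686 us tb17 cD11_17 = true :=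
  by decide +kernel
def b7995392 : hi2 17 15 7995392 8028160 30 17 81524946 563 us tb17 cD11_17 = true :=
  by decide +kernel
def b8028160 : hi2 17 15 8028160 8060928 122 15 80142145 431 us tb17 cD11_17 = true :=
  by decide +kernel
def b8060928 : hi2 17 15 8060928 8093696 61 16 80092866 325 us tb17 cD11_17 = true :=
  by decide +kernel
def b8093696 : hi2 17 15 8093696 8126464 123 15 74476956 227 us tb17 cD11_17 = true :=
  by decide +kernel
def b8126464 : hi2 17 15 8126464 8159232 15 18 81947441 171 us tb17 cD11_17 = true :=
  by decide +kernel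
def b8159232 : hi2 17 15 8159232 8192000 124 15 81545957 115 us tb17 cD11_17 = true :=
  by decide +kernel
def b8192000 : hi2 17 15 8192000 8224768 62 16 75897495 70 us tb17 cD11_17 = true :=
  by decide +kernel
def b8224768 : hi2 17 15 8224768 8257536 125 15 79536615 42 us tb17 cD11_17 = true :=
  by decide +kernel
def b8257536 : hi2 17 15 8257536 8290304 31 17 80041472 22 us tb17 cD11_17 = true :=
  by decide +kernel
def b8290304 : hi2 17 15 8290304 8323072 126 15 79728796 10 us tb17 cD11_17 = true :=
  by decide +kernel
def b8323072 : hi2 17 15 8323072 8355840 63 16 75925730 3 us tb17 cD11_17 = true :=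
  by decide +kernel
def b8355840 : hi2 17 15 8355840 8388608 127 15 80595955 1 us tb17 cD11_17 = true :=
  by decide +kernel

end Pool.Agent.Lib.MP_5db4ad_nt.NE
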