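import Pool.Agent.Lib.MP_5db4ad_nt.H42RunS
import Pool.Agent.Lib.MP_5db4ad_nt.H42R00
import Pool.Agent.Lib.MP_5db4ad_nt.H42R01
import Pool.Agent.Lib.MP_5db4ad_nt.H42R02
import Pool.Agent.Lib.MP_5db4ad_nt.H42R03
import Pool.Agent.Lib.MP_5db4ad_nt.H42R04
import Pool.Agent.Lib.MP_5db4ad_nt.H42R05
import Pool.Agent.Lib.MP_5db4ad_nt.H42R06
import Pool.Agent.Lib.MP_5db4ad_nt.H42R07
import Pool.Agent.Lib.MP_5db4ad_nt.H42R08
import Pool.Agent.Lib.MP_5db4ad_nt.H42R09
import Pool.Agent.Lib.MP_5db4ad_nt.H42R10
import Pool.Agent.Lib.MP_5db4ad_nt.H42R11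
import Pool.Agent.Lib.MP_5db4ad_nt.H42R12
import Pool.Agent.Lib.MP_5db4ad_nt.H42R13
import Pool.Agent.Lib.MP_5db4ad_nt.H42R14
import Pool.Agent.Lib.MP_5db4ad_nt.H42R15
import Pool.Agent.Lib.MP_5db4ad_nt.H42R16
import Pool.Agent.Lib.MP_5db4ad_nt.H42R17
import Pool.Agent.Lib.MP_5db4ad_nt.H42R18
import Pool.Agent.Lib.MP_5db4ad_nt.H42R19
import Pool.Agent.Lib.MP_5db4ad_nt.H42R20
import Pool.Agent.Lib.MP_5db4ad_nt.H42R21

/-!
The bounds for all frequencies.
-/

namespace Pool.Agent.Lib.MP_5db4ad_nt.NE

open S2

set_option maxRecDepth 1000000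
set_option maxHeartbeats 0
set_option exponentiation.threshold 100000000
set_option linter.defProp false

theorem hc0 (h : StHi) : HB' 65536 114688 283595749 :=
  ((((((((((((hb6_14 h b65536).add
    (hb6_14 h b69632)).add
    (hb6_14 h b73728)).add
    (hb6_14 h b77824)).add
    (hb6_14 h b81920)).add
    (hb6_14 h b86016)).add
    (hb6_14 h b90112)).add
    (hb6_14 h b94208)).add
    (hb6_14 h b98304)).add
    (hb6_14 h b102400)).add
    (hb6_14 h b106496)).add
    (hb6_14 h b110592)).mono _ (by decide)

theorem hc1 (h : StHi) : HB' 114688 196608 231445124 :=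
  ((((((((((((hb6_14 h b114688).add
    (hb6_14 h b118784)).add
    (hb6_14 h b122880)).add
    (hb6_14 h b126976)).add
    (hb8_17 h b131072)).add
    (hb8_17 h b139264)).add
    (hb8_17 h b147456)).add
    (hb8_17 h b155648)).add
    (hb8_17 h b163840)).add
    (hb8_17 h b172032)).add
    (hb8_17 h b180224)).add
    (hb8_17 h b188416)).mono _ (by decide)

theorem hc2 (h : StHi) : HB' 196608 327680 186543986 :=
  ((((((((((((hb8_17 h b196608).add
    (hb8_17 h b204800)).add
    (hb8_17 h b212992)).add
    (hb8_17 h b221184)).add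
    (hb8_17 h b229376)).add
    (hb8_17 h b237568)).add
    (hb8_17 h b245760)).add
    (hb8_17 h b253952)).add
    (hb8_17 h b262144)).add
    (hb8_17 h b278528)).add
    (hb8_17 h b294912)).add
    (hb8_17 h b311296)).mono _ (by decide)

theorem hc3 (h : StHi) : HB' 327680 524288 150259033 :=
  ((((((((((((hb8_17 h b327680).add
    (hb8_17 h b344064)).add
    (hb8_17 h b360448)).add
    (hb8_17 h b376832)).add
    (hb8_17 h b393216)).add
    (hb8_17 h b409600)).add
    (hb8_17 h b425984)).add
    (hb8_17 h b442368)).add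
    (hb8_17 h b458752)).add
    (hb8_17 h b475136)).add
    (hb8_17 h b491520)).add
    (hb8_17 h b507904)).mono _ (by decide)

theorem hc4 (h : StHi) : HB' 524288 917504 163225739 :=
  ((((((((((((hb8_17 h b524288).add
    (hb8_17 h b557056)).add
    (hb8_17 h b589824)).add
    (hb8_17 h b622592)).add
    (hb8_17 h b655360)).add
    (hb8_17 h b688128)).add
    (hb8_17 h b720896)).add
    (hb8_17 h b753664)).add
    (hb8_17 h b786432)).add
    (hb8_17 h b819200)).add
    (hb8_17 h b851968)).add
    (hb8_17 h b884736)).mono _ (by decide)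

theorem hc5 (h : StHi) : HB' 917504 1310720 89110144 :=
  ((((((((((((hb10_17 h b917504).add
    (hb10_17 h b950272)).add
    (hb10_17 h b983040)).add
    (hb10_17 h b1015808)).add
    (hb10_17 h b1048576)).add
    (hb10_17 h b1081344)).add
    (hb10_17 h b1114112)).add
    (hb10_17 h b1146880)).add
    (hb10_17 h b1179648)).add
    (hb10_17 h b1212416)).add
    (hb10_17 h b1245184)).add
    (hb10_17 h b1277952)).mono _ (by decide)

theorem hc6 (h : StHi) : HB' 1310720 1703936 61269707 :=
  ((((((((((((hb10_17 h b1310720).add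
    (hb10_17 h b1343488)).add
    (hb10_17 h b1376256)).add
    (hb10_17 h b1409024)).add
    (hb10_17 h b1441792)).add
    (hb10_17 h b1474560)).add
    (hb10_17 h b1507328)).add
    (hb10_17 h b1540096)).add
    (hb10_17 h b1572864)).add
    (hb10_17 h b1605632)).add
    (hb10_17 h b1638400)).add
    (hb10_17 h b1671168)).mono _ (by decide)

theorem hc7 (h : StHi) : HB' 1703936 2097152 45080585 :=
  ((((((((((((hb10_17 h b1703936).add
    (hb10_17 h b1736704)).add
    (hb10_17 h b1769472)).add
    (hb10_17 h b1802240)).add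
    (hb10_17 h b1835008)).add
    (hb10_17 h b1867776)).add
    (hb10_17 h b1900544)).add
    (hb10_17 h b1933312)).add
    (hb10_17 h b1966080)).add
    (hb10_17 h b1998848)).add
    (hb10_17 h b2031616)).add
    (hb10_17 h b2064384)).mono _ (by decide)

theorem hc8 (h : StHi) : HB' 2097152 2490368 32877448 :=
  ((((((((((((hb10_17 h b2097152).add
    (hb10_17 h b2129920)).add
    (hb10_17 h b2162688)).add
    (hb10_17 h b2195456)).add
    (hb10_17 h b2228224)).add
    (hb10_17 h b2260992)).add
    (hb10_17 h b2293760)).add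
    (hb10_17 h b2326528)).add
    (hb10_17 h b2359296)).add
    (hb10_17 h b2392064)).add
    (hb10_17 h b2424832)).add
    (hb10_17 h b2457600)).mono _ (by decide)

theorem hc9 (h : StHi) : HB' 2490368 2883584 25105633 :=
  ((((((((((((hb10_17 h b2490368).add
    (hb10_17 h b2523136)).add
    (hb10_17 h b2555904)).add
    (hb10_17 h b2588672)).add
    (hb10_17 h b2621440)).add
    (hb10_17 h b2654208)).add
    (hb10_17 h b2686976)).add
    (hb10_17 h b2719744)).add
    (hb10_17 h b2752512)).add
    (hb10_17 h b2785280)).add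
    (hb10_17 h b2818048)).add
    (hb10_17 h b2850816)).mono _ (by decide)

theorem hc10 (h : StHi) : HB' 2883584 3276800 19184742 :=
  ((((((((((((hb10_17 h b2883584).add
    (hb10_17 h b2916352)).add
    (hb10_17 h b2949120)).add
    (hb10_17 h b2981888)).add
    (hb10_17 h b3014656)).add
    (hb10_17 h b3047424)).add
    (hb10_17 h b3080192)).add
    (hb10_17 h b3112960)).add
    (hb10_17 h b3145728)).add
    (hb10_17 h b3178496)).add
    (hb10_17 h b3211264)).add
    (hb10_17 h b3244032)).mono _ (by decide)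

theorem hc11 (h : StHi) : HB' 3276800 3670016 14907703 :=
  ((((((((((((hb10_17 h b3276800).add
    (hb10_17 h b3309568)).add
    (hb10_17 h b3342336)).add
    (hb10_17 h b3375104)).add
    (hb10_17 h b3407872)).add
    (hb10_17 h b3440640)).add
    (hb10_17 h b3473408)).add
    (hb10_17 h b3506176)).add
    (hb10_17 h b3538944)).add
    (hb10_17 h b3571712)).add
    (hb10_17 h b3604480)).add
    (hb10_17 h b3637248)).mono _ (by decide)

theorem hc12 (h : StHi) : HB' 3670016 4063232 11007428 :=
  ((((((((((((hb10_17 h b3670016).add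
    (hb10_17 h b3702784)).add
    (hb11_17 h b3735552)).add
    (hb11_17 h b3768320)).add
    (hb11_17 h b3801088)).add
    (hb11_17 h b3833856)).add
    (hb11_17 h b3866624)).add
    (hb11_17 h b3899392)).add
    (hb11_17 h b3932160)).add
    (hb11_17 h b3964928)).add
    (hb11_17 h b3997696)).add
    (hb11_17 h b4030464)).mono _ (by decide)

theorem hc13 (h : StHi) : HB' 4063232 4456448 8239087 :=
  ((((((((((((hb11_17 h b4063232).add
    (hb11_17 h b4096000)).add
    (hb11_17 h b4128768)).add
    (hb11_17 h b4161536)).add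
    (hb11_17 h b4194304)).add
    (hb11_17 h b4227072)).add
    (hb11_17 h b4259840)).add
    (hb11_17 h b4292608)).add
    (hb11_17 h b4325376)).add
    (hb11_17 h b4358144)).add
    (hb11_17 h b4390912)).add
    (hb11_17 h b4423680)).mono _ (by decide)

theorem hc14 (h : StHi) : HB' 4456448 4849664 5831666 :=
  ((((((((((((hb11_17 h b4456448).add
    (hb11_17 h b4489216)).add
    (hb11_17 h b4521984)).add
    (hb11_17 h b4554752)).add
    (hb11_17 h b4587520)).add
    (hb11_17 h b4620288)).add
    (hb11_17 h b4653056)).add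
    (hb11_17 h b4685824)).add
    (hb11_17 h b4718592)).add
    (hb11_17 h b4751360)).add
    (hb11_17 h b4784128)).add
    (hb11_17 h b4816896)).mono _ (by decide)

theorem hc15 (h : StHi) : HB' 4849664 5242880 4225913 :=
  ((((((((((((hb11_17 h b4849664).add
    (hb11_17 h b4882432)).add
    (hb11_17 h b4915200)).add
    (hb11_17 h b4947968)).add
    (hb11_17 h b4980736)).add
    (hb11_17 h b5013504)).add
    (hb11_17 h b5046272)).add
    (hb11_17 h b5079040)).add
    (hb11_17 h b5111808)).add
    (hb11_17 h b5144576)).add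
    (hb11_17 h b5177344)).add
    (hb11_17 h b5210112)).mono _ (by decide)

theorem hc16 (h : StHi) : HB' 5242880 5636096 2839231 :=
  ((((((((((((hb11_17 h b5242880).add
    (hb11_17 h b5275648)).add
    (hb11_17 h b5308416)).add
    (hb11_17 h b5341184)).add
    (hb11_17 h b5373952)).add
    (hb11_17 h b5406720)).add
    (hb11_17 h b5439488)).add
    (hb11_17 h b5472256)).add
    (hb11_17 h b5505024)).add
    (hb11_17 h b5537792)).add
    (hb11_17 h b5570560)).add
    (hb11_17 h b5603328)).mono _ (by decide)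

theorem hc17 (h : StHi) : HB' 5636096 6029312 1824773 :=
  ((((((((((((hb11_17 h b5636096).add
    (hb11_17 h b5668864)).add
    (hb11_17 h b5701632)).add
    (hb11_17 h b5734400)).add
    (hb11_17 h b5767168)).add
    (hb11_17 h b5799936)).add
    (hb11_17 h b5832704)).add
    (hb11_17 h b5865472)).add
    (hb11_17 h b5898240)).add
    (hb11_17 h b5931008)).add
    (hb11_17 h b5963776)).add
    (hb11_17 h b5996544)).mono _ (by decide)

theorem hc18 (h : StHi) : HB' 6029312 6422528 1108228 :=
  ((((((((((((hb11_17 h b6029312).add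
    (hb11_17 h b6062080)).add
    (hb11_17 h b6094848)).add
    (hb11_17 h b6127616)).add
    (hb11_17 h b6160384)).add
    (hb11_17 h b6193152)).add
    (hb11_17 h b6225920)).add
    (hb11_17 h b6258688)).add
    (hb11_17 h b6291456)).add
    (hb11_17 h b6324224)).add
    (hb11_17 h b6356992)).add
    (hb11_17 h b6389760)).mono _ (by decide)

theorem hc19 (h : StHi) : HB' 6422528 6815744 606621 :=
  ((((((((((((hb11_17 h b6422528).add
    (hb11_17 h b6455296)).add
    (hb11_17 h b6488064)).add
    (hb11_17 h b6520832)).add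
    (hb11_17 h b6553600)).add
    (hb11_17 h b6586368)).add
    (hb11_17 h b6619136)).add
    (hb11_17 h b6651904)).add
    (hb11_17 h b6684672)).add
    (hb11_17 h b6717440)).add
    (hb11_17 h b6750208)).add
    (hb11_17 h b6782976)).mono _ (by decide)

theorem hc20 (h : StHi) : HB' 6815744 7208960 294653 :=
  ((((((((((((hb11_17 h b6815744).add
    (hb11_17 h b6848512)).add
    (hb11_17 h b6881280)).add
    (hb11_17 h b6914048)).add
    (hb11_17 h b6946816)).add
    (hb11_17 h b6979584)).add
    (hb11_17 h b7012352)).add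
    (hb11_17 h b7045120)).add
    (hb11_17 h b7077888)).add
    (hb11_17 h b7110656)).add
    (hb11_17 h b7143424)).add
    (hb11_17 h b7176192)).mono _ (by decide)

theorem hc21 (h : StHi) : HB' 7208960 7602176 111074 :=
  ((((((((((((hb11_17 h b7208960).add
    (hb11_17 h b7241728)).add
    (hb11_17 h b7274496)).add
    (hb11_17 h b7307264)).add
    (hb11_17 h b7340032)).add
    (hb11_17 h b7372800)).add
    (hb11_17 h b7405568)).add
    (hb11_17 h b7438336)).add
    (hb11_17 h b7471104)).add
    (hb11_17 h b7503872)).add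
    (hb11_17 h b7536640)).add
    (hb11_17 h b7569408)).mono _ (by decide)

theorem hc22 (h : StHi) : HB' 7602176 7995392 26242 :=
  ((((((((((((hb11_17 h b7602176).add
    (hb11_17 h b7634944)).add
    (hb11_17 h b7667712)).add
    (hb11_17 h b7700480)).add
    (hb11_17 h b7733248)).add
    (hb11_17 h b7766016)).add
    (hb11_17 h b7798784)).add
    (hb11_17 h b7831552)).add
    (hb11_17 h b7864320)).add
    (hb11_17 h b7897088)).add
    (hb11_17 h b7929856)).add
    (hb11_17 h b7962624)).mono _ (by decide)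

theorem hc23 (h : StHi) : HB' 7995392 8388608 1980 :=
  ((((((((((((hb11_17 h b7995392).add
    (hb11_17 h b8028160)).add
    (hb11_17 h b8060928)).add
    (hb11_17 h b8093696)).add
    (hb11_17 h b8126464)).add
    (hb11_17 h b8159232)).add
    (hb11_17 h b8192000)).add
    (hb11_17 h b8224768)).add
    (hb11_17 h b8257536)).add
    (hb11_17 h b8290304)).add
    (hb11_17 h b8323072)).add
    (hb11_17 h b8355840)).mono _ (by decide)

theorem lc0 (h : StLo) : LB' 2048 3584 47673643471411 :=
  ((((((((((((lb6_14 h b2048).add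
    (lb6_14 h b2176)).add
    (lb6_14 h b2304)).add
    (lb6_14 h b2432)).add
    (lb6_14 h b2560)).add
    (lb6_14 h b2688)).add
    (lb6_14 h b2816)).add
    (lb6_14 h b2944)).add
    (lb6_14 h b3072)).add
    (lb6_14 h b3200)).add
    (lb6_14 h b3328)).add
    (lb6_14 h b3456)).mono _ (by decide)

theorem lc1 (h : StLo) : LB' 3584 6144 40427237102431 :=
  ((((((((((((lb6_14 h b3584).add
    (lb6_14 h b3712)).add
    (lb6_14 h b3840)).add
    (lb6_14 h b3968)).add
    (lb6_14 h b4096)).add
    (lb6_14 h b4352)).add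
    (lb6_14 h b4608)).add
    (lb6_14 h b4864)).add
    (lb6_14 h b5120)).add
    (lb6_14 h b5376)).add
    (lb6_14 h b5632)).add
    (lb6_14 h b5888)).mono _ (by decide)

theorem lc2 (h : StLo) : LB' 6144 10240 44261487116526 :=
  ((((((((((((lb6_14 h b6144).add
    (lb6_14 h b6400)).add
    (lb6_14 h b6656)).add
    (lb6_14 h b6912)).add
    (lb6_14 h b7168)).add
    (lb6_14 h b7424)).add
    (lb6_14 h b7680)).add
    (lb6_14 h b7936)).add
    (lb6_14 h b8192)).add
    (lb6_14 h b8704)).add
    (lb6_14 h b9216)).add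
    (lb6_14 h b9728)).mono _ (by decide)

theorem lc3 (h : StLo) : LB' 10240 16384 38227236055453 :=
  ((((((((((((lb6_14 h b10240).add
    (lb6_14 h b10752)).add
    (lb6_14 h b11264)).add
    (lb6_14 h b11776)).add
    (lb6_14 h b12288)).add
    (lb6_14 h b12800)).add
    (lb6_14 h b13312)).add
    (lb6_14 h b13824)).add
    (lb6_14 h b14336)).add
    (lb6_14 h b14848)).add
    (lb6_14 h b15360)).add
    (lb6_14 h b15872)).mono _ (by decide)

theorem lc4 (h : StLo) : LB' 16384 28672 51864808286433 :=
  ((((((((((((lb6_14 h b16384).add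
    (lb6_14 h b17408)).add
    (lb6_14 h b18432)).add
    (lb6_14 h b19456)).add
    (lb6_14 h b20480)).add
    (lb6_14 h b21504)).add
    (lb6_14 h b22528)).add
    (lb6_14 h b23552)).add
    (lb6_14 h b24576)).add
    (lb6_14 h b25600)).add
    (lb6_14 h b26624)).add
    (lb6_14 h b27648)).mono _ (by decide)

theorem lc5 (h : StLo) : LB' 28672 49152 56781494819966 :=
  ((((((((((((lb6_14 h b28672).add
    (lb6_14 h b29696)).add
    (lb6_14 h b30720)).add
    (lb6_14 h b31744)).add
    (lb6_14 h b32768)).add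
    (lb6_14 h b34816)).add
    (lb6_14 h b36864)).add
    (lb6_14 h b38912)).add
    (lb6_14 h b40960)).add
    (lb6_14 h b43008)).add
    (lb6_14 h b45056)).add
    (lb6_14 h b47104)).mono _ (by decide)

theorem lc6 (h : StLo) : LB' 49152 65536 30911965820103 :=
  ((((((((lb6_14 h b49152).add
    (lb6_14 h b51200)).add
    (lb6_14 h b53248)).add
    (lb6_14 h b55296)).add
    (lb6_14 h b57344)).add
    (lb6_14 h b59392)).add
    (lb6_14 h b61440)).add
    (lb6_14 h b63488)).mono _ (by decide)

theorem hiRun (h : StHi) : HB (2 ^ 16) (2 ^ 23) 1500000000 :=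
  (((((((((((((((((((((((((hc0 h).add
    (hc1 h)).add
    (hc2 h)).add
    (hc3 h)).add
    (hc4 h)).add
    (hc5 h)).add
    (hc6 h)).add
    (hc7 h)).add
    (hc8 h)).add
    (hc9 h)).add
    (hc10 h)).add
    (hc11 h)).add
    (hc12 h)).add
    (hc13 h)).add
    (hc14 h)).add
    (hc15 h)).add
    (hc16 h)).add
    (hc17 h)).add
    (hc18 h)).add
    (hc19 h)).add
    (hc20 h)).add
    (hc21 h)).add
    (hc22 h)).add
    (hc23 h)).mono 1500000000 (by decide)).2

theorem loRun (h : StLo) : LB BR BI 0 (2 ^ 16) 1200000000000000 :=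
  (((((((((loN_spec h tBR.2 tBI.2 b0 b1024).add
    (lc0 h)).add
    (lc1 h)).add
    (lc2 h)).add
    (lc3 h)).add
    (lc4 h)).add
    (lc5 h)).add
    (lc6 h)).mono 1200000000000000 (by decide)).2

end Pool.Agent.Lib.MP_5db4ad_nt.NE
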