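import Pool.Agent.Lib.MP_5db4ad_nt.H42Pk

/-!
Evaluated tables: powers.
-/

namespace Pool.Agent.Lib.MP_5db4ad_nt.NE

open S2

set_option maxRecDepth 1000000
set_option maxHeartbeats 0
set_option exponentiation.threshold 100000000
set_option linter.defProp false

noncomputable def tU1 : {x : ℕ // mkU 1 15 = x} :=
  ⟨Us.rec (fun a _ _ _ _ _ _ _ => a) (dblU 15), Nat.eq_of_beq_eq_true (by decide +kernel)⟩
noncomputable def tU2 : {x : ℕ // mkU 2 15 = x} :=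
  ⟨Us.rec (fun _ a _ _ _ _ _ _ => a) (dblU 15), Nat.eq_of_beq_eq_true (by decide +kernel)⟩
noncomputable def tU3 : {x : ℕ // mkU 3 15 = x} :=
  ⟨Us.rec (fun _ _ a _ _ _ _ _ => a) (dblU 15), Nat.eq_of_beq_eq_true (by decide +kernel)⟩
noncomputable def tU4 : {x : ℕ // mkU 4 15 = x} :=
  ⟨Us.rec (fun _ _ _ a _ _ _ _ => a) (dblU 15), Nat.eq_of_beq_eq_true (by decide +kernel)⟩
noncomputable def tU5 : {x : ℕ // mkU 5 15 = x} :=
  ⟨Us.rec (fun _ _ _ _ a _ _ _ => a) (dblU 15), Nat.eq_of_beq_eq_true (by decide +kernel)⟩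
noncomputable def tU6 : {x : ℕ // mkU 6 15 = x} :=
  ⟨Us.rec (fun _ _ _ _ _ a _ _ => a) (dblU 15), Nat.eq_of_beq_eq_true (by decide +kernel)⟩
noncomputable def tU7 : {x : ℕ // mkU 7 15 = x} :=
  ⟨Us.rec (fun _ _ _ _ _ _ a _ => a) (dblU 15), Nat.eq_of_beq_eq_true (by decide +kernel)⟩
noncomputable def tU8 : {x : ℕ // mkU 8 15 = x} :=
  ⟨Us.rec (fun _ _ _ _ _ _ _ a => a) (dblU 15), Nat.eq_of_beq_eq_true (by decide +kernel)⟩
noncomputable def us : Us := Us.mk tU1.1 tU2.1 tU3.1 tU4.1 tU5.1 tU6.1 tU7.1 tU8.1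

end Pool.Agent.Lib.MP_5db4ad_nt.NE
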