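import Pool.Agent.Lib.MP_5db4ad_nt.H96NSt

/-!
The checks together with their side conditions.
-/

namespace Pool.Agent.Lib.MP_5db4ad_nt.NE

open S2

set_option maxRecDepth 1000000
set_option maxHeartbeats 0
set_option exponentiation.threshold 100000000
set_option linter.defProp false

def side (lm a k0 k1 c t : ℕ) : Bool :=
  Nat.ble 5 lm && Nat.ble lm 18 && Nat.ble 2 a && Nat.ble (a + 2) lm && Nat.ble a 15 &&
    Nat.beq (k0 + 2 ^ a) k1 && Nat.ble k1 (2 ^ 23) && Nat.ble c 8191 && Nat.ble 2048 k0 &&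
    Nat.ble (2 ^ a) k0 && Nat.ble t (2 ^ 40)

noncomputable def hi2 (lm a k0 k1 c e t thr : ℕ) (U : Us) (T : Tb) (ch : Ch) : Bool :=
  side lm a k0 k1 c t && hiChk lm a k0 c e t thr U T ch

noncomputable def lo2 (lm a k0 k1 c e thr BR BI : ℕ) (U : Us) (T : Tb) (ch : Ch) : Bool :=
  side lm a k0 k1 c 0 && Nat.ble k1 65536 && loChk lm a k0 c e thr BR BI U T ch

lemma chOK_of {lm d v v' e g : ℕ} (hv : v = v') (he : mkE lm d v' = e) (hg : mkG lm d v' e = g) :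
    ChOK lm d v (Ch.mk d v' e g) := by
  subst hv he hg; rfl

lemma slc_of {v v' w s d : ℕ} (hv : v = v') (hw : slc v' s d = w) : slc v s d = w := hv ▸ hw

lemma chk_of {n v v' m : ℕ} (hv : v = v') (h : srcChk n v' m = true) : srcChk n v m = true := hv ▸ h

lemma srt_of {n v v' : ℕ} (hv : v = v') (h : sortedV n v' = true) : sortedV n v = true := hv ▸ h

lemma tbOK_of {lm h : ℕ} {cm c1 c2 c3 cl : Ch} (hh : mkH lm = h) (hm : ChOK lm 13 svM cm)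
    (h1 : ChOK lm 13 (slc svA 0 13) c1) (h2 : ChOK lm 11 (slc svA 8192 11) c2)
    (h3 : ChOK lm 10 (slc svA 10240 10) c3) (hl : ChOK lm 9 svL cl) :
    TbOK lm (Tb.mk h cm c1 c2 c3 cl) := ⟨cm, c1, c2, c3, cl, by rw [hh], hm, h1, h2, h3, hl⟩

lemma uOK_of {d a1 a2 a3 a4 a5 a6 a7 a8 : ℕ} (h1 : mkU 1 d = a1) (h2 : mkU 2 d = a2)
    (h3 : mkU 3 d = a3) (h4 : mkU 4 d = a4) (h5 : mkU 5 d = a5) (h6 : mkU 6 d = a6)
    (h7 : mkU 7 d = a7) (h8 : mkU 8 d = a8) : UOK d (Us.mk a1 a2 a3 a4 a5 a6 a7 a8) := by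
  subst h1 h2 h3 h4 h5 h6 h7 h8; rfl

end Pool.Agent.Lib.MP_5db4ad_nt.NE
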