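import Pool.Agent.Lib.MP_5db4ad_nt.H42E17a
import Pool.Agent.Lib.MP_5db4ad_nt.H42E17b
import Pool.Agent.Lib.MP_5db4ad_nt.H42E17c
import Pool.Agent.Lib.MP_5db4ad_nt.H42E17d
import Pool.Agent.Lib.MP_5db4ad_nt.H42Tu
import Pool.Agent.Lib.MP_5db4ad_nt.H96NRunD

/-!
The tables for one grid.
-/

namespace Pool.Agent.Lib.MP_5db4ad_nt.NE

open S2

set_option maxRecDepth 1000000
set_option maxHeartbeats 0
set_option exponentiation.threshold 100000000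
set_option linter.defProp false

noncomputable def tb17 : Tb := Tb.mk tH17.1 cMM_17 cA1_17 cA2_17 cA3_17 cL_17

theorem tbOK17 : TbOK 17 tb17 := tbOK_of tH17.2 (chOK_of tMM.2 eMM_17.2 gMM_17.2)
  (chOK_of (slc_of tA.2 tA1.2) eA1_17.2 gA1_17.2)
  (chOK_of (slc_of tA.2 tA2.2) eA2_17.2 gA2_17.2)
  (chOK_of (slc_of tA.2 tA3.2) eA3_17.2 gA3_17.2)
  (chOK_of tL.2 eL_17.2 gL_17.2)

theorem dOK8_17 : ChOK 17 8 (svD 8) cD8_17 := chOK_of tD8.2 eD8_17.2 gD8_17.2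
theorem dOK10_17 : ChOK 17 10 (svD 10) cD10_17 := chOK_of tD10.2 eD10_17.2 gD10_17.2
theorem dOK11_17 : ChOK 17 11 (svD 11) cD11_17 := chOK_of tD11.2 eD11_17.2 gD11_17.2

end Pool.Agent.Lib.MP_5db4ad_nt.NE
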