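import Pool.Agent.Lib.MP_5db4ad_nt.H96NSt

/-!
Joining the bounds for consecutive blocks.
-/

namespace Pool.Agent.Lib.MP_5db4ad_nt.NE

open S2 Finset

theorem HB.add {a b c s t : ℕ} (h1 : HB a b s) (h2 : HB b c t) (hab : a ≤ b) (hbc : b ≤ c) :
    HB a c (s + t) := fun u => by
  rw [← sum_Ico_consecutive _ hab hbc, Nat.cast_add, add_div]
  exact (abs_add_le _ _).trans (add_le_add (h1 u) (h2 u))

theorem HB.mono {a b s t : ℕ} (h : HB a b s) (hst : s ≤ t) : HB a b t := fun u =>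
  (h u).trans (div_le_div_of_nonneg_right (Nat.cast_le.2 hst) (by positivity))

theorem HB.nil (a : ℕ) : HB a a 0 := fun u => by simp

theorem LB.add {BR BI a b c s t : ℕ} (h1 : LB BR BI a b s) (h2 : LB BR BI b c t) (hab : a ≤ b)
    (hbc : b ≤ c) : LB BR BI a c (s + t) := by
  unfold LB at h1 h2 ⊢
  rw [← sum_Ico_consecutive _ hab hbc, Nat.cast_add, mul_add, add_div]
  exact add_le_add h1 h2

theorem LB.mono {BR BI a b s t : ℕ} (h : LB BR BI a b s) (hst : s ≤ t) : LB BR BI a b t :=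
  le_trans h (div_le_div_of_nonneg_right
    (mul_le_mul_of_nonneg_left (Nat.cast_le.2 hst) (by norm_num)) (by positivity))

theorem HB.high {t : ℕ} (h : HB (2 ^ 16) (2 ^ 23) t) : High3 (2 ^ 16) (t / 2 ^ 40) := h

theorem LB.low {BR BI t : ℕ} (h : LB BR BI 0 (2 ^ 16) t) :
    LowData (2 ^ 19) (2 ^ 16) BR BI (0.955 * t / 2 ^ 60) := by
  unfold LowData
  rw [range_eq_Ico]
  exact h

end Pool.Agent.Lib.MP_5db4ad_nt.NE
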