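import Pool.Agent.Lib.MP_5db4ad_nt.H42T14
import Pool.Agent.Lib.MP_5db4ad_nt.H42T17
import Pool.Agent.Lib.MP_5db4ad_nt.H96NGlue

/-!
From the checks to the bounds.
-/

namespace Pool.Agent.Lib.MP_5db4ad_nt.NE

open S2

set_option maxRecDepth 1000000
set_option maxHeartbeats 0
set_option exponentiation.threshold 100000000
set_option linter.defProp false

def HB' (a b t : ℕ) : Prop := a ≤ b ∧ HB a b t

def LB' (a b t : ℕ) : Prop := a ≤ b ∧ LB BR BI a b t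

theorem HB'.add {a b c s t : ℕ} (h1 : HB' a b s) (h2 : HB' b c t) : HB' a c (s + t) :=
  ⟨h1.1.trans h2.1, h1.2.add h2.2 h1.1 h2.1⟩

theorem LB'.add {a b c s t : ℕ} (h1 : LB' a b s) (h2 : LB' b c t) : LB' a c (s + t) :=
  ⟨h1.1.trans h2.1, h1.2.add h2.2 h1.1 h2.1⟩

theorem HB'.mono {a b s : ℕ} (h : HB' a b s) (t : ℕ) (hst : Nat.ble s t = true) : HB' a b t :=
  ⟨h.1, h.2.mono (Nat.le_of_ble_eq_true hst)⟩

theorem LB'.mono {a b s : ℕ} (h : LB' a b s) (t : ℕ) (hst : Nat.ble s t = true) : LB' a b t :=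
  ⟨h.1, h.2.mono (Nat.le_of_ble_eq_true hst)⟩

theorem srcRun : SrcRun :=
  ⟨chk_of tMM.2 tMc, chk_of tA.2 tAc, tAl, chk_of tL.2 tLc, tLl⟩

theorem usOK : UOK 15 us := uOK_of tU1.2 tU2.2 tU3.2 tU4.2 tU5.2 tU6.2 tU7.2 tU8.2

theorem side_spec {lm a k0 k1 c t : ℕ} (h : side lm a k0 k1 c t = true) :
    Par lm a k0 15 ∧ k0 + 2 ^ a = k1 ∧ c ≤ 8191 ∧ 2048 ≤ k0 ∧ 2 ^ a ≤ k0 ∧ t ≤ 2 ^ 40 := by
  simp only [side, Bool.and_eq_true, Nat.ble_eq, Nat.beq_eq] at h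
  obtain ⟨⟨⟨⟨⟨⟨⟨⟨⟨⟨h1, h2⟩, h3⟩, h4⟩, h5⟩, h6⟩, h7⟩, h8⟩, h9⟩, h10⟩, h11⟩ := h
  exact ⟨⟨h1, h2, h3, h4, h5, by norm_num, h6 ▸ h7⟩, h6, h8, h9, h10, h11⟩

theorem hi2_spec (hH : StHi) {lm a k0 k1 c e t thr d : ℕ} {T : Tb} {ch : Ch} (hT : TbOK lm T)
    (h2 : 2 ≤ d) (h12 : d ≤ 12) (hs : sortedV (2 ^ d - 1) (svD d) = true)
    (hc : ChOK lm d (svD d) ch) (h : hi2 lm a k0 k1 c e t thr us T ch = true) : HB' k0 k1 thr := by
  rw [hi2, Bool.and_eq_true] at h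
  obtain ⟨p, rfl, q1, q2, q3, q4⟩ := side_spec h.1
  exact ⟨Nat.le_add_right _ _,
    hH srcRun lm a k0 15 c e d t thr us T ch p usOK hT q1 q2 q3 h2 h12 hs hc q4 h.2⟩

theorem lo2_spec (hL : StLo) {lm a k0 k1 c e thr d x y : ℕ} {T : Tb} {ch : Ch} (hx : BR = x)
    (hy : BI = y) (hT : TbOK lm T) (h2 : 2 ≤ d) (h12 : d ≤ 12)
    (hs : sortedV (2 ^ d - 1) (svD d) = true) (hc : ChOK lm d (svD d) ch)
    (h : lo2 lm a k0 k1 c e thr x y us T ch = true) : LB' k0 k1 thr := by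
  rw [lo2, Bool.and_eq_true, Bool.and_eq_true, Nat.ble_eq] at h
  obtain ⟨p, rfl, q1, q2, q3, -⟩ := side_spec h.1.1
  refine ⟨Nat.le_add_right _ _, ?_⟩
  rw [hx, hy]
  exact (hL srcRun).1 lm a k0 15 c e d thr x y us T ch p usOK hT q1 q2 q3 h2 h12 hs hc h.1.2 h.2

theorem loN_spec (hL : StLo) {s t x y : ℕ} (hx : BR = x) (hy : BI = y)
    (h0 : loChkN 14 10 0 s x y us tb14 1e-9 = true)
    (h1 : loChkN 14 10 1024 t x y us tb14 1.7e-5 = true) : LB' 0 2048 (s + t) := by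
  refine LB'.add (b := 1024) ⟨by norm_num, ?_⟩ ⟨by norm_num, ?_⟩
  · rw [hx, hy]
    exact ((hL srcRun).2 14 15 s x y us tb14 (by norm_num) (by norm_num) (by norm_num)
      (by norm_num) usOK tbOK14).1 h0
  · rw [hx, hy]
    exact ((hL srcRun).2 14 15 t x y us tb14 (by norm_num) (by norm_num) (by norm_num)
      (by norm_num) usOK tbOK14).2 h1

theorem hb6_14 (hH : StHi) {a k0 k1 c e t thr : ℕ}
    (h : hi2 14 a k0 k1 c e t thr us tb14 cD6_14 = true) : HB' k0 k1 thr :=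
  hi2_spec hH tbOK14 (by norm_num) (by norm_num) (srt_of tD6.2 tD6c) dOK6_14 h

theorem hb8_17 (hH : StHi) {a k0 k1 c e t thr : ℕ}
    (h : hi2 17 a k0 k1 c e t thr us tb17 cD8_17 = true) : HB' k0 k1 thr :=
  hi2_spec hH tbOK17 (by norm_num) (by norm_num) (srt_of tD8.2 tD8c) dOK8_17 h

theorem hb10_17 (hH : StHi) {a k0 k1 c e t thr : ℕ}
    (h : hi2 17 a k0 k1 c e t thr us tb17 cD10_17 = true) : HB' k0 k1 thr :=
  hi2_spec hH tbOK17 (by norm_num) (by norm_num) (srt_of tD10.2 tD10c) dOK10_17 h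

theorem hb11_17 (hH : StHi) {a k0 k1 c e t thr : ℕ}
    (h : hi2 17 a k0 k1 c e t thr us tb17 cD11_17 = true) : HB' k0 k1 thr :=
  hi2_spec hH tbOK17 (by norm_num) (by norm_num) (srt_of tD11.2 tD11c) dOK11_17 h

theorem lb6_14 (hL : StLo) {a k0 k1 c e thr : ℕ}
    (h : lo2 14 a k0 k1 c e thr tBR.1 tBI.1 us tb14 cD6_14 = true) : LB' k0 k1 thr :=
  lo2_spec hL tBR.2 tBI.2 tbOK14 (by norm_num) (by norm_num) (srt_of tD6.2 tD6c) dOK6_14 h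


end Pool.Agent.Lib.MP_5db4ad_nt.NE
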