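import Pool.Agent.Lib.MP_5db4ad_nt.H42E14a
import Pool.Agent.Lib.MP_5db4ad_nt.H42E14b
import Pool.Agent.Lib.MP_5db4ad_nt.H42E14c
import Pool.Agent.Lib.MP_5db4ad_nt.H42E14d
import Pool.Agent.Lib.MP_5db4ad_nt.H42Tu
import Pool.Agent.Lib.MP_5db4ad_nt.H96NRunD

/-!
The tables for one grid.
-/

namespace Pool.Agent.Lib.MP_5db4ad_nt.NE

open S2

set_option maxRecDepth 1000000
set_option maxHeartbeats 0
set_option exponentiation.threshold 100000000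
set_option linter.defProp false

noncomputable def tb14 : Tb := Tb.mk tH14.1 cMM_14 cA1_14 cA2_14 cA3_14 cL_14

theorem tbOK14 : TbOK 14 tb14 := tbOK_of tH14.2 (chOK_of tMM.2 eMM_14.2 gMM_14.2)
  (chOK_of (slc_of tA.2 tA1.2) eA1_14.2 gA1_14.2)
  (chOK_of (slc_of tA.2 tA2.2) eA2_14.2 gA2_14.2)
  (chOK_of (slc_of tA.2 tA3.2) eA3_14.2 gA3_14.2)
  (chOK_of tL.2 eL_14.2 gL_14.2)

theorem dOK6_14 : ChOK 14 6 (svD 6) cD6_14 := chOK_of tD6.2 eD6_14.2 gD6_14.2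

end Pool.Agent.Lib.MP_5db4ad_nt.NE
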