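import Pool.Agent.Lib.MP_5db4ad_nt.H42Pk

/-!
Evaluated table: sources of the main sum.
-/

namespace Pool.Agent.Lib.MP_5db4ad_nt.NE

open S2

set_option maxRecDepth 1000000
set_option maxHeartbeats 0
set_option exponentiation.threshold 100000000
set_option linter.defProp false

noncomputable def tMMp : Tr := by
  refine (?f : ∀ (x : ℕ) (t : Tr), svM = x → spl (nat_lit 14) x = t → Tr) _ _
    (by conv => lhs; whnf) (by conv => lhs; reduce)
  exact fun _ t _ _ => t
noncomputable def tMM : {x : ℕ // svM = x} :=
  ⟨jn tMMp, Nat.eq_of_beq_eq_true (by decide +kernel)⟩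
def tMc : srcChk 8192 tMM.1 mM = true := by decide +kernel

end Pool.Agent.Lib.MP_5db4ad_nt.NE
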