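import Pool.Agent.Lib.MP_5db4ad_nt.H42Pk

/-!
Evaluated table: sources of the finite sum.
-/

namespace Pool.Agent.Lib.MP_5db4ad_nt.NE

open S2

set_option maxRecDepth 1000000
set_option maxHeartbeats 0
set_option exponentiation.threshold 100000000
set_option linter.defProp false

noncomputable def tAp : Tr := by
  refine (?f : ∀ (x : ℕ) (t : Tr), svA = x → spl (nat_lit 14) x = t → Tr) _ _
    (by conv => lhs; whnf) (by conv => lhs; reduce)
  exact fun _ t _ _ => t
noncomputable def tA : {x : ℕ // svA = x} :=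
  ⟨jn tAp, Nat.eq_of_beq_eq_true (by decide +kernel)⟩
noncomputable def tA1 : {x : ℕ // slc tA.1 0 13 = x} := ⟨slc tA.1 0 13, rfl⟩
noncomputable def tA2 : {x : ℕ // slc tA.1 8192 11 = x} := ⟨slc tA.1 8192 11, rfl⟩
noncomputable def tA3 : {x : ℕ // slc tA.1 10240 10 = x} := ⟨slc tA.1 10240 10, rfl⟩
def tAc : srcChk 11264 tA.1 mA = true := by decide +kernel

end Pool.Agent.Lib.MP_5db4ad_nt.NE
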