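import Pool.Agent.Lib.MP_5db4ad_nt.H42Pk
import Pool.Agent.Lib.MP_5db4ad_nt.S2LowData

/-!
Evaluated tables: further sources and the data.
-/

namespace Pool.Agent.Lib.MP_5db4ad_nt.NE

open S2

set_option maxRecDepth 1000000
set_option maxHeartbeats 0
set_option exponentiation.threshold 100000000
set_option linter.defProp false

noncomputable def tLp : Tr := by
  refine (?f : ∀ (x : ℕ) (t : Tr), svL = x → spl (nat_lit 14) x = t → Tr) _ _
    (by conv => lhs; whnf) (by conv => lhs; reduce)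
  exact fun _ t _ _ => t
noncomputable def tL : {x : ℕ // svL = x} :=
  ⟨jn tLp, Nat.eq_of_beq_eq_true (by decide +kernel)⟩
def tLc : srcChk 512 tL.1 mL = true := by decide +kernel
def tLl : Nat.ble (len lstL 0) 512 = true := by decide +kernel
def tAl : Nat.ble (len (lstA listA) 0) 11264 = true := by decide +kernel
noncomputable def tD6p : Tr := by
  refine (?f : ∀ (x : ℕ) (t : Tr), svD 6 = x → spl (nat_lit 14) x = t → Tr) _ _
    (by conv => lhs; whnf) (by conv => lhs; reduce)
  exact fun _ t _ _ => t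
noncomputable def tD6 : {x : ℕ // svD 6 = x} :=
  ⟨jn tD6p, Nat.eq_of_beq_eq_true (by decide +kernel)⟩
def tD6c : sortedV (2 ^ 6 - 1) tD6.1 = true := by decide +kernel
noncomputable def tD8p : Tr := by
  refine (?f : ∀ (x : ℕ) (t : Tr), svD 8 = x → spl (nat_lit 14) x = t → Tr) _ _
    (by conv => lhs; whnf) (by conv => lhs; reduce)
  exact fun _ t _ _ => t
noncomputable def tD8 : {x : ℕ // svD 8 = x} :=
  ⟨jn tD8p, Nat.eq_of_beq_eq_true (by decide +kernel)⟩
def tD8c : sortedV (2 ^ 8 - 1) tD8.1 = true := by decide +kernel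
noncomputable def tD10p : Tr := by
  refine (?f : ∀ (x : ℕ) (t : Tr), svD 10 = x → spl (nat_lit 14) x = t → Tr) _ _
    (by conv => lhs; whnf) (by conv => lhs; reduce)
  exact fun _ t _ _ => t
noncomputable def tD10 : {x : ℕ // svD 10 = x} :=
  ⟨jn tD10p, Nat.eq_of_beq_eq_true (by decide +kernel)⟩
def tD10c : sortedV (2 ^ 10 - 1) tD10.1 = true := by decide +kernel
noncomputable def tD11p : Tr := by
  refine (?f : ∀ (x : ℕ) (t : Tr), svD 11 = x → spl (nat_lit 14) x = t → Tr) _ _
    (by conv => lhs; whnf) (by conv => lhs; reduce)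
  exact fun _ t _ _ => t
noncomputable def tD11 : {x : ℕ // svD 11 = x} :=
  ⟨jn tD11p, Nat.eq_of_beq_eq_true (by decide +kernel)⟩
def tD11c : sortedV (2 ^ 11 - 1) tD11.1 = true := by decide +kernel
noncomputable def tBRp : Tr := by
  refine (?f : ∀ (x : ℕ) (t : Tr), BR = x → spl (nat_lit 14) x = t → Tr) _ _
    (by conv => lhs; whnf) (by conv => lhs; reduce)
  exact fun _ t _ _ => t
noncomputable def tBR : {x : ℕ // BR = x} :=
  ⟨jn tBRp, Nat.eq_of_beq_eq_true (by decide +kernel)⟩
noncomputable def tBIp : Tr := by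
  refine (?f : ∀ (x : ℕ) (t : Tr), BI = x → spl (nat_lit 14) x = t → Tr) _ _
    (by conv => lhs; whnf) (by conv => lhs; reduce)
  exact fun _ t _ _ => t
noncomputable def tBI : {x : ℕ // BI = x} :=
  ⟨jn tBIp, Nat.eq_of_beq_eq_true (by decide +kernel)⟩

end Pool.Agent.Lib.MP_5db4ad_nt.NE
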