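import Mathlib

/-! Bounds for the real part of the digamma function. -/

open Complex Metric Set Filter Topology Finset

namespace H96Z

theorem deriv_tendsto {F : ℕ → ℂ → ℂ} {f : ℂ → ℂ} {U : Set ℂ} (hU : IsOpen U) {c : ℂ} {r M : ℝ}
    (hr : 0 < r) (hc : closedBall c r ⊆ U) (hF : ∀ n, DifferentiableOn ℂ (F n) U)
    (hf : DifferentiableOn ℂ f U) (hb : ∀ n, ∀ z ∈ sphere c r, ‖F n z‖ ≤ M)
    (hl : ∀ z ∈ sphere c r, Tendsto (fun n => F n z) atTop (𝓝 (f z))) :
    Tendsto (fun n => deriv (F n) c) atTop (𝓝 (deriv f c)) := by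
  have e1 : ∀ n, deriv (F n) c = _ := fun n =>
    (two_pi_I_inv_smul_circleIntegral_sub_sq_inv_smul_of_differentiable hU hc (hF n)
      (mem_ball_self hr)).symm
  rw [← two_pi_I_inv_smul_circleIntegral_sub_sq_inv_smul_of_differentiable hU hc hf
    (mem_ball_self hr)]
  simp only [e1]
  refine Tendsto.const_smul ?_ _
  unfold circleIntegral
  have hm : ∀ θ, circleMap c r θ ∈ sphere c r := fun θ => circleMap_mem_sphere c hr.le θ
  have hn : ∀ θ, ‖circleMap c r θ - c‖ = r := fun θ => by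
    have := hm θ
    rwa [mem_sphere, dist_eq_norm] at this
  refine intervalIntegral.tendsto_integral_filter_of_dominated_convergence
    (fun _ => r * ((r ^ 2)⁻¹ * M)) (Eventually.of_forall fun n => ?_)
    (Eventually.of_forall fun n => Eventually.of_forall fun θ _ => ?_) (by simp)
    (Eventually.of_forall fun θ _ => ?_)
  · refine Continuous.aestronglyMeasurable ?_
    have h1 : Continuous fun θ => F n (circleMap c r θ) :=
      (hF n).continuousOn.comp_continuous (continuous_circleMap c r)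
        fun θ => hc (sphere_subset_closedBall (hm θ))
    have h2 : Continuous fun θ => ((circleMap c r θ - c) ^ 2)⁻¹ := by
      refine Continuous.inv₀ (by fun_prop) fun θ => pow_ne_zero _ ?_
      rw [← norm_pos_iff, hn]
      exact hr
    simp only [deriv_circleMap]
    have h3 : Continuous fun θ => circleMap 0 r θ * I := (continuous_circleMap 0 r).mul_const I
    exact h3.smul (h2.smul h1)
  · rw [norm_smul, norm_smul, norm_inv, norm_pow, hn, deriv_circleMap, norm_mul, norm_I, mul_one,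
      norm_circleMap_zero, abs_of_pos hr]
    have := hb n _ (hm θ)
    gcongr
  · exact ((hl _ (hm θ)).const_smul _).const_smul _

theorem gammaSeq_aux {σ : ℝ} (h0 : 0 < σ) (h1 : σ ≤ 1) (n : ℕ) :
    ((n : ℝ) + 1) ^ σ * n.factorial * σ ≤ ∏ j ∈ range (n + 1), (σ + j) := by
  induction n with
  | zero => simp
  | succ n ih =>
    rw [prod_range_succ, Nat.factorial_succ]
    have hn : (0 : ℝ) < n + 1 := by positivity
    have h2 := rpow_one_add_le_one_add_mul_self (s := 1 / ((n : ℝ) + 1)) (p := σ)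
      (le_trans (by norm_num) (by positivity : (0 : ℝ) ≤ 1 / ((n : ℝ) + 1))) h0.le h1
    have h3 : ((n + 1 : ℕ) + 1 : ℝ) = ((n : ℝ) + 1) * (1 + 1 / ((n : ℝ) + 1)) := by
      push_cast
      field_simp
    rw [h3, Real.mul_rpow hn.le (by positivity)]
    push_cast
    have h4 : (1 + 1 / ((n : ℝ) + 1)) ^ σ * ((n : ℝ) + 1) ≤ σ + (n + 1) := by
      have := mul_le_mul_of_nonneg_right h2 hn.le
      refine this.trans (le_of_eq ?_)
      field_simp
      ring
    calc ((n : ℝ) + 1) ^ σ * (1 + 1 / ((n : ℝ) + 1)) ^ σ * (((n : ℝ) + 1) * n.factorial) * σ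
        = (((n : ℝ) + 1) ^ σ * n.factorial * σ) * ((1 + 1 / ((n : ℝ) + 1)) ^ σ * ((n : ℝ) + 1)) := by
          ring
      _ ≤ _ := mul_le_mul ih h4 (by positivity) (prod_nonneg fun j _ => by positivity)

theorem norm_gammaSeq_le {w : ℂ} (h0 : 0 < w.re) (h1 : w.re ≤ 1) (n : ℕ) :
    ‖GammaSeq w (n + 1)‖ ≤ 1 / w.re := by
  have h2 := gammaSeq_aux h0 h1 (n + 1)
  have hp : 0 < ∏ j ∈ range (n + 1 + 1), (w.re + j) := prod_pos fun j _ => by positivity
  have h3 : ∏ j ∈ range (n + 1 + 1), (w.re + j) ≤ ‖∏ j ∈ range (n + 1 + 1), (w + j)‖ := by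
    rw [norm_prod]
    refine prod_le_prod (fun j _ => by positivity) fun j _ => ?_
    have := re_le_norm (w + j)
    simpa using this
  rw [GammaSeq, norm_div, norm_mul, norm_natCast_cpow_of_pos (Nat.succ_pos n), norm_natCast,
    div_le_div_iff₀ (hp.trans_le h3) h0, one_mul]
  refine le_trans ?_ (h2.trans h3)
  gcongr
  linarith

theorem digamma_tendsto {s : ℂ} (h0 : 0 < s.re) (h1 : s.re < 1) :
    Tendsto (fun n : ℕ => (Real.log (n + 1 : ℕ) : ℂ) - ∑ j ∈ range (n + 1 + 1), 1 / (s + j)) atTop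
      (𝓝 (digamma s)) := by
  set U : Set ℂ := {w | 0 < w.re} with hU
  have hUo : IsOpen U := isOpen_lt continuous_const continuous_re
  have hne : ∀ w ∈ U, ∀ j : ℕ, w + j ≠ 0 := by
    intro w hw j h
    have h2 := congrArg re h
    have h3 : 0 < w.re := hw
    simp at h2
    have : (0 : ℝ) ≤ j := by positivity
    linarith
  set r := min (s.re / 2) (1 - s.re) with hr
  have hr0 : 0 < r := lt_min (by linarith) (by linarith)
  have hre : ∀ w ∈ closedBall s r, s.re / 2 ≤ w.re ∧ w.re ≤ 1 := by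
    intro w hw
    rw [mem_closedBall, dist_eq_norm] at hw
    have h2 := (abs_re_le_norm (w - s)).trans hw
    rw [sub_re, abs_le] at h2
    have := min_le_left (s.re / 2) (1 - s.re)
    have := min_le_right (s.re / 2) (1 - s.re)
    constructor <;> linarith [h2.1, h2.2]
  have hd : ∀ n : ℕ, ∀ w ∈ U, DifferentiableAt ℂ (fun w => GammaSeq w (n + 1)) w := by
    intro n w hw
    unfold GammaSeq
    refine DifferentiableAt.div (DifferentiableAt.mul_const
      (differentiableAt_id.const_cpow (Or.inl (by exact_mod_cast n.succ_ne_zero))) _)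
      (DifferentiableAt.fun_finsetProd fun j _ => by fun_prop) (prod_ne_zero_iff.2 fun j _ => hne w hw j)
  have hG : ∀ w ∈ U, ∀ m : ℕ, w ≠ -m := fun w hw m h => hne w hw m (by rw [h]; ring)
  have h2 := deriv_tendsto (F := fun n w => GammaSeq w (n + 1)) (f := Gamma) hUo hr0
    (c := s) (M := 1 / (s.re / 2)) (fun w hw => by
      have := (hre w hw).1
      show 0 < w.re
      linarith) (fun n w hw => (hd n w hw).differentiableWithinAt)
    (fun w hw => (differentiableAt_Gamma w (hG w hw)).differentiableWithinAt)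
    (fun n z hz => by
      have := hre z (sphere_subset_closedBall hz)
      refine (norm_gammaSeq_le (by linarith [this.1]) this.2 n).trans ?_
      exact one_div_le_one_div_of_le (by linarith) this.1)
    (fun z _ => (GammaSeq_tendsto_Gamma z).comp (tendsto_add_atTop_nat 1))
  have h3 := h2.div ((GammaSeq_tendsto_Gamma s).comp (tendsto_add_atTop_nat 1))
    (Gamma_ne_zero (hG s h0))
  rw [digamma_def, logDeriv_apply]
  refine h3.congr fun n => ?_
  have hn : ((n + 1 : ℕ) : ℂ) ≠ 0 := by exact_mod_cast n.succ_ne_zero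
  have hf : (((n + 1).factorial : ℕ) : ℂ) ≠ 0 := by exact_mod_cast (n + 1).factorial_ne_zero
  have hc : ((n + 1 : ℕ) : ℂ) ^ s ≠ 0 := fun h => hn ((cpow_eq_zero_iff _ _).1 h).1
  show logDeriv (fun w => GammaSeq w (n + 1)) s = _
  unfold GammaSeq
  rw [logDeriv_div (f := fun w => ((n + 1 : ℕ) : ℂ) ^ w * ((n + 1).factorial : ℕ))
    (g := fun w => ∏ j ∈ range (n + 1 + 1), (w + j)) s (mul_ne_zero hc hf)
    (prod_ne_zero_iff.2 fun j _ => hne s h0 j)
    (DifferentiableAt.mul_const (differentiableAt_id.const_cpow (Or.inl hn)) _)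
    (DifferentiableAt.fun_finsetProd fun j _ => by fun_prop), logDeriv_mul_const _ _ hf,
    logDeriv_prod (f := fun (j : ℕ) (w : ℂ) => w + j) (fun j _ => hne s h0 j)
      (fun j _ => by fun_prop)]
  congr 1
  · have h4 : HasDerivAt (HPow.hPow ((n + 1 : ℕ) : ℂ))
        (((n + 1 : ℕ) : ℂ) ^ s * log ((n + 1 : ℕ) : ℂ) * 1) s :=
      (hasDerivAt_id s).const_cpow (Or.inl hn)
    rw [logDeriv_apply, h4.deriv, mul_one, mul_div_cancel_left₀ _ hc, ← natCast_log]
  · refine sum_congr rfl fun j _ => ?_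
    rw [logDeriv_apply]
    simp

theorem re_digamma_tendsto {s : ℂ} (h0 : 0 < s.re) (h1 : s.re < 1) :
    Tendsto (fun n : ℕ => Real.log ‖s + n‖ - ∑ j ∈ range n, (1 / (s + j)).re) atTop
      (𝓝 (digamma s).re) := by
  rw [← tendsto_add_atTop_iff_nat 2]
  have h2 := (continuous_re.tendsto _).comp (digamma_tendsto h0 h1)
  have h3 : Tendsto (fun n : ℕ => Real.log ‖1 + (s + 1) * (1 / ((n : ℝ) + 1) : ℝ)‖) atTop (𝓝 0) := by
    have h4 : Tendsto (fun n : ℕ => ‖1 + (s + 1) * (1 / ((n : ℝ) + 1) : ℝ)‖) atTop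
        (𝓝 ‖1 + (s + 1) * (0 : ℝ)‖) :=
      ((((continuous_ofReal.tendsto _).comp
        tendsto_one_div_add_atTop_nhds_zero_nat).const_mul _).const_add _).norm
    simp only [ofReal_zero, mul_zero, add_zero, norm_one] at h4
    simpa using h4.log one_ne_zero
  have h5 := h2.add h3
  rw [add_zero] at h5
  refine h5.congr fun n => ?_
  have hn : (0 : ℝ) < n + 1 := by positivity
  have e : s + ((n + 2 : ℕ) : ℂ) = (((n : ℝ) + 1 : ℝ) : ℂ) * (1 + (s + 1) * (1 / ((n : ℝ) + 1) : ℝ)) := by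
    have : ((n : ℂ) + 1) ≠ 0 := by exact_mod_cast hn.ne'
    push_cast
    field_simp
    ring
  have hz : ‖1 + (s + 1) * (1 / ((n : ℝ) + 1) : ℝ)‖ ≠ 0 := by
    refine (lt_of_lt_of_le ?_ (re_le_norm _)).ne'
    rw [add_re, re_mul_ofReal, one_re, add_re, one_re]
    positivity
  rw [e, norm_mul, norm_real, Real.norm_eq_abs, abs_of_pos hn, Real.log_mul hn.ne' hz]
  simp only [Function.comp, sub_re, ofReal_re, re_sum]
  push_cast
  ring

theorem log_step {w : ℂ} {τ : ℝ} (hτ : 3 ≤ τ) (j : ℕ) (h0 : (j : ℝ) ≤ w.re) (h1 : τ ≤ |w.im|) :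
    |Real.log ‖w + 1‖ - Real.log ‖w‖ - (1 / w).re| ≤
      3 / 2 * (1 / (j + τ - 1 / 2) - 1 / (j + 1 + τ - 1 / 2)) := by
  have hw : τ ≤ ‖w‖ := h1.trans (abs_im_le_norm w)
  have hw0 : w ≠ 0 := by
    rw [← norm_pos_iff]
    linarith
  have hj : (0 : ℝ) ≤ j := by positivity
  have h2 : ‖1 / w‖ ≤ 1 / 3 := by
    rw [norm_div, norm_one]
    exact one_div_le_one_div_of_le (by norm_num) (by linarith)
  have h3 := (abs_re_le_norm _).trans (norm_log_one_add_sub_self_le (z := 1 / w) (by linarith))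
  have h4 : w + 1 = w * (1 + 1 / w) := by field_simp
  have h5 : ‖1 + 1 / w‖ ≠ 0 := by
    have := norm_sub_norm_le (1 : ℂ) (-(1 / w))
    rw [norm_one, norm_neg, sub_neg_eq_add] at this
    linarith
  rw [sub_re, log_re] at h3
  rw [h4, norm_mul, Real.log_mul (by linarith) h5, add_sub_cancel_left]
  refine h3.trans ?_
  have h6 : (1 - ‖1 / w‖)⁻¹ ≤ 3 / 2 := by
    rw [inv_le_comm₀ (by linarith) (by norm_num)]
    linarith
  have h7 : ‖1 / w‖ ^ 2 ≤ 2 * (1 / (j + τ - 1 / 2) - 1 / (j + 1 + τ - 1 / 2)) := by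
    have h8 : (j + τ) ^ 2 / 2 ≤ ‖w‖ ^ 2 := by
      rw [Complex.sq_norm, normSq_apply]
      have : τ ^ 2 ≤ w.im * w.im := by
        rw [← abs_mul_abs_self, sq]
        exact mul_le_mul h1 h1 (by linarith) (abs_nonneg _)
      nlinarith [sq_nonneg (j - τ)]
    have h9 : 2 * (1 / (j + τ - 1 / 2) - 1 / (j + 1 + τ - 1 / 2)) =
        1 / (((j + τ) ^ 2 - 1 / 4) / 2) := by
      have a1 : (j : ℝ) + τ - 1 / 2 ≠ 0 := by linarith
      have a2 : (j : ℝ) + 1 + τ - 1 / 2 ≠ 0 := by linarith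
      have a3 : ((j : ℝ) + τ) ^ 2 - 1 / 4 = (j + τ - 1 / 2) * (j + 1 + τ - 1 / 2) := by ring
      rw [a3, div_sub_div _ _ a1 a2]
      field_simp
      ring
    rw [h9, norm_div, norm_one, div_pow, one_pow]
    exact one_div_le_one_div_of_le (by nlinarith) (by linarith)
  have := mul_le_mul h7 h6 (inv_nonneg.2 (by linarith)) ((sq_nonneg _).trans h7)
  linarith

theorem re_digamma_bound {s : ℂ} (h0 : 0 < s.re) (h1 : s.re < 1) (hτ : 3 ≤ |s.im|) :
    |(digamma s).re - Real.log ‖s‖| ≤ 2 / |s.im| := by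
  set τ := |s.im| with hτ'
  have key : ∀ n : ℕ, |Real.log ‖s + n‖ - ∑ j ∈ range n, (1 / (s + j)).re - Real.log ‖s‖| ≤
      3 / 2 * (1 / (τ - 1 / 2) - 1 / (n + τ - 1 / 2)) := by
    intro n
    induction n with
    | zero => simp
    | succ n ih =>
      have h2 := log_step (w := s + n) hτ n (by simp; linarith) (by simp [hτ'])
      rw [sum_range_succ]
      push_cast
      rw [← add_assoc]
      rw [abs_le] at h2 ih ⊢
      constructor <;> linarith [h2.1, h2.2, ih.1, ih.2]
  have h3 := ((re_digamma_tendsto h0 h1).sub_const (Real.log ‖s‖)).abs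
  refine le_of_tendsto' h3 fun n => (key n).trans ?_
  have hn : (0 : ℝ) ≤ n := by positivity
  have h4 : 0 ≤ 1 / (n + τ - 1 / 2) := one_div_nonneg.2 (by linarith)
  have h5 : 3 / 2 * (1 / (τ - 1 / 2)) ≤ 2 / τ := by
    rw [mul_one_div, div_le_div_iff₀ (by linarith) (by linarith)]
    linarith
  linarith

theorem re_digamma_real {x : ℝ} (h0 : 0 < x) (h1 : x < 1) (m : ℕ) :
    (digamma x).re ≤ Real.log (x + m) - ∑ j ∈ range m, 1 / (x + j) := by
  have h2 := re_digamma_tendsto (s := x) (by simpa) (by simpa)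
  have e : ∀ n : ℕ, Real.log ‖(x : ℂ) + n‖ - ∑ j ∈ range n, (1 / ((x : ℂ) + j)).re =
      Real.log (x + n) - ∑ j ∈ range n, 1 / (x + j) := by
    intro n
    congr 1
    · rw [← ofReal_natCast, ← ofReal_add, norm_real, Real.norm_eq_abs, Real.log_abs]
    · refine sum_congr rfl fun j _ => ?_
      rw [← ofReal_natCast, ← ofReal_add, ← ofReal_one, ← ofReal_div, ofReal_re]
  simp only [e] at h2
  refine Antitone.le_of_tendsto (antitone_nat_of_succ_le fun n => ?_) h2 m
  rw [sum_range_succ]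
  have hn : 0 < x + n := by positivity
  have h3 := Real.log_le_sub_one_of_pos (show 0 < (x + (n + 1)) / (x + n) by positivity)
  rw [Real.log_div (by positivity) hn.ne'] at h3
  have : (x + (n + 1)) / (x + n) - 1 = 1 / (x + n) := by
    field_simp
    ring
  push_cast
  linarith

end H96Z
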