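import Pool.Agent.Lib.MP_5db4ad_nt.H96Xi
import Pool.Agent.Lib.MP_5db4ad_nt.H96Dig

/-! The Gamma factor term and the Dirichlet series of the logarithmic derivative. -/

open Complex Filter Topology Finset
open scoped ComplexConjugate ArithmeticFunction.vonMangoldt

namespace H96Z

noncomputable def Gm (s : ℂ) : ℝ :=
  (1 / s).re + (1 / (s - 1)).re + (digamma (s / 2)).re / 2 - Real.log Real.pi / 2

/-- Real part of the logarithmic derivative of zeta. -/
noncomputable def DD (σ τ : ℝ) : ℝ := (logDeriv riemannZeta (σ + τ * I)).re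

theorem logDeriv_Gammaℝ {s : ℂ} (h0 : 0 < s.re) :
    DifferentiableAt ℂ Gammaℝ s ∧
      logDeriv Gammaℝ s = -(Real.log Real.pi : ℂ) / 2 + digamma (s / 2) / 2 := by
  have hpi : (Real.pi : ℂ) ≠ 0 := ofReal_ne_zero.2 Real.pi_ne_zero
  have hG : ∀ m : ℕ, s / 2 ≠ -m := by
    intro m h
    have h2 := congrArg re h
    simp at h2
    have : (0 : ℝ) ≤ m := by positivity
    linarith
  have h1 : HasDerivAt (fun s : ℂ => (Real.pi : ℂ) ^ (-s / 2))
      ((Real.pi : ℂ) ^ (-s / 2) * log (Real.pi : ℂ) * (-1 / 2)) s :=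
    ((hasDerivAt_id s).neg.div_const 2).const_cpow (Or.inl hpi)
  have h2 : HasDerivAt (fun s : ℂ => Gamma (s / 2)) (deriv Gamma (s / 2) * (1 / 2)) s :=
    (differentiableAt_Gamma _ hG).hasDerivAt.comp s ((hasDerivAt_id s).div_const 2)
  have h3 : (Real.pi : ℂ) ^ (-s / 2) ≠ 0 := fun h => hpi ((cpow_eq_zero_iff _ _).1 h).1
  have h4 := Gamma_ne_zero hG
  have e : Gammaℝ = fun s : ℂ => (Real.pi : ℂ) ^ (-s / 2) * Gamma (s / 2) := funext Gammaℝ_def
  rw [e]
  refine ⟨h1.differentiableAt.mul h2.differentiableAt, ?_⟩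
  rw [logDeriv_mul s h3 h4 h1.differentiableAt h2.differentiableAt, logDeriv_apply, logDeriv_apply,
    h1.deriv, h2.deriv, digamma_def, logDeriv_apply, ofReal_log Real.pi_pos.le]
  field_simp

theorem xi_ne_zero_iff {s : ℂ} (h0 : 0 < s.re) (h1 : s ≠ 1) : xi s ≠ 0 ↔ riemannZeta s ≠ 0 := by
  have hs : s ≠ 0 := by
    rintro rfl
    simp at h0
  rw [xi_eq h0 h1]
  constructor
  · intro h
    exact right_ne_zero_of_mul (right_ne_zero_of_mul h)
  · intro h
    exact mul_ne_zero (mul_ne_zero hs (sub_ne_zero.2 h1))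
      (mul_ne_zero (Gammaℝ_ne_zero_of_re_pos h0) h)

theorem logDeriv_zeta_eq {s : ℂ} (h0 : 0 < s.re) (h1 : s ≠ 1) (hz : riemannZeta s ≠ 0) :
    (logDeriv riemannZeta s).re = (logDeriv xi s).re - Gm s := by
  have hs : s ≠ 0 := by
    rintro rfl
    simp at h0
  have hs1 : s - 1 ≠ 0 := sub_ne_zero.2 h1
  have he : xi =ᶠ[𝓝 s] fun s => s * (s - 1) * (Gammaℝ s * riemannZeta s) := by
    filter_upwards [(isOpen_lt continuous_const continuous_re).mem_nhds h0,
      isOpen_compl_singleton.mem_nhds h1] with w hw hw1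
    exact xi_eq hw hw1
  obtain ⟨hd, hl⟩ := logDeriv_Gammaℝ h0
  have hG := Gammaℝ_ne_zero_of_re_pos h0
  have hdz := differentiableAt_riemannZeta h1
  rw [(logDeriv_congr_nhds he).self_of_nhds,
    logDeriv_mul (f := fun s => s * (s - 1)) (g := fun s => Gammaℝ s * riemannZeta s) s
      (mul_ne_zero hs hs1) (mul_ne_zero hG hz) (by fun_prop) (hd.mul hdz),
    logDeriv_mul (f := fun s => s) (g := fun s => s - 1) s hs hs1 (by fun_prop) (by fun_prop),
    logDeriv_mul s hG hz hd hdz, hl, logDeriv_id']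
  have : logDeriv (fun s : ℂ => s - 1) s = 1 / (s - 1) := by
    rw [logDeriv_apply]
    simp
  rw [this, Gm]
  simp only [add_re, div_ofNat_re, neg_re, ofReal_re]
  ring

theorem re_inv (x y : ℝ) : (1 / ((x : ℂ) + y * I)).re = x / (x ^ 2 + y ^ 2) := by
  rw [one_div, inv_re, normSq_add_mul_I]
  simp

theorem Gm_bound {σ τ : ℝ} (h0 : 0 < σ) (h2 : σ < 2) (hτ : 6 ≤ |τ|) :
    |Gm (σ + τ * I) - Real.log (|τ| / (2 * Real.pi)) / 2| ≤ 3 / |τ| := by
  have him : |(((σ : ℂ) + τ * I) / 2).im| = |τ| / 2 := by simp [abs_div]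
  have h3 := re_digamma_bound (s := ((σ : ℂ) + τ * I) / 2) (by simp; linarith) (by simp; linarith)
    (by rw [him]; linarith)
  rw [him] at h3
  have e1 : (σ : ℂ) + τ * I - 1 = ((σ - 1 : ℝ) : ℂ) + τ * I := by
    push_cast
    ring
  rw [Gm, e1, re_inv, re_inv]
  set T := |τ| with hT
  have hT2 : τ ^ 2 = T ^ 2 := (sq_abs τ).symm
  have hT0 : 0 < T := by linarith
  have h4 : Real.log ‖((σ : ℂ) + τ * I) / 2‖ = Real.log (T / 2) + Real.log (1 + σ ^ 2 / T ^ 2) / 2 := by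
    have h5 : ‖((σ : ℂ) + τ * I) / 2‖ ^ 2 = (T / 2) ^ 2 * (1 + σ ^ 2 / T ^ 2) := by
      rw [norm_div, div_pow, Complex.sq_norm, normSq_add_mul_I, hT2]
      simp only [Complex.norm_ofNat]
      field_simp
      ring
    have h6 := congrArg Real.log h5
    rw [Real.log_mul (by positivity) (by positivity), Real.log_pow, Real.log_pow] at h6
    push_cast at h6
    linarith
  have h5 : 0 ≤ Real.log (1 + σ ^ 2 / T ^ 2) := Real.log_nonneg (by
    have : 0 ≤ σ ^ 2 / T ^ 2 := by positivity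
    linarith)
  have h6 : Real.log (1 + σ ^ 2 / T ^ 2) ≤ 4 * (1 / T ^ 2) := by
    have := Real.log_le_sub_one_of_pos (show 0 < 1 + σ ^ 2 / T ^ 2 by positivity)
    have h7 : σ ^ 2 / T ^ 2 ≤ 4 / T ^ 2 := by
      gcongr
      nlinarith
    have : 4 / T ^ 2 = 4 * (1 / T ^ 2) := by ring
    linarith
  have h7 : Real.log (T / (2 * Real.pi)) = Real.log (T / 2) - Real.log Real.pi := by
    rw [← Real.log_div (by positivity) Real.pi_ne_zero, div_div]
  have h8 : 0 ≤ σ / (σ ^ 2 + τ ^ 2) := by positivity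
  have h9 : σ / (σ ^ 2 + τ ^ 2) ≤ 2 * (1 / T ^ 2) := by
    rw [hT2, mul_one_div, div_le_div_iff₀ (by positivity) (by positivity)]
    nlinarith [sq_nonneg σ, sq_nonneg T]
  have h10 : |(σ - 1) / ((σ - 1) ^ 2 + τ ^ 2)| ≤ 1 / T ^ 2 := by
    rw [abs_div, hT2, abs_of_pos (by positivity : 0 < (σ - 1) ^ 2 + T ^ 2),
      div_le_div_iff₀ (by positivity) (by positivity)]
    have : |σ - 1| ≤ 1 := abs_le.2 ⟨by linarith, by linarith⟩
    nlinarith [sq_nonneg (σ - 1), sq_nonneg T]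
  have h11 : 1 / T ^ 2 ≤ 1 / 6 * (1 / T) := by
    rw [mul_one_div, div_le_div_iff₀ (by positivity) hT0]
    nlinarith
  have h12 : 2 / (T / 2) = 4 * (1 / T) := by
    field_simp
    ring
  have h13 : 3 / T = 3 * (1 / T) := by ring
  have h14 : 0 ≤ 1 / T ^ 2 := by positivity
  rw [h4, h12] at h3
  rw [h7, h13]
  rw [abs_le] at h3 h10 ⊢
  constructor <;> linarith [h3.1, h3.2, h10.1, h10.2]

theorem Gm_real {σ : ℝ} (h0 : 0 < σ) (h2 : σ < 2) (m : ℕ) :
    Gm σ ≤ 1 / (σ - 1) + (Real.log (σ / 2 + (m + 1)) -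
      ∑ j ∈ range m, 1 / (σ / 2 + (j + 1)) - Real.log Real.pi) / 2 := by
  have h3 := re_digamma_real (x := σ / 2) (by linarith) (by linarith) (m + 1)
  rw [sum_range_succ'] at h3
  push_cast at h3
  have e1 : (1 / (σ : ℂ)).re = 1 / σ := by rw [← ofReal_one, ← ofReal_div, ofReal_re]
  have e2 : (1 / ((σ : ℂ) - 1)).re = 1 / (σ - 1) := by
    rw [← ofReal_one, ← ofReal_sub, ← ofReal_div, ofReal_re]
  have e3 : 1 / (σ / 2 + 0) = 2 * (1 / σ) := by
    field_simp
    ring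
  rw [Gm, e1, e2]
  linarith

theorem hasSum_DD {σ : ℝ} (h1 : 1 < σ) (τ : ℝ) :
    HasSum (fun n : ℕ => Λ n * (n : ℝ) ^ (-σ) * Real.cos (τ * Real.log n)) (-DD σ τ) := by
  have hs : 1 < ((σ : ℂ) + τ * I).re := by simpa using h1
  have h2 := (ArithmeticFunction.LSeriesSummable_vonMangoldt hs).hasSum
  have h3 := ArithmeticFunction.LSeries_vonMangoldt_eq_deriv_riemannZeta_div hs
  rw [LSeries] at h3
  rw [h3] at h2
  have h4 := (hasSum_re h2)
  have e : (-deriv riemannZeta (σ + τ * I) / riemannZeta (σ + τ * I)).re = -DD σ τ := by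
    rw [DD, logDeriv_apply, neg_div, neg_re]
  rw [e] at h4
  have e2 : (fun n : ℕ => Λ n * (n : ℝ) ^ (-σ) * Real.cos (τ * Real.log n)) =
      fun n : ℕ => (LSeries.term (fun n => (Λ n : ℂ)) (σ + τ * I) n).re := by
    funext n
    rcases Nat.eq_zero_or_pos n with rfl | hn
    · simp
    · have hn' : (0 : ℝ) < n := by exact_mod_cast hn
      rw [LSeries.term_of_ne_zero hn.ne', div_eq_mul_inv, ← cpow_neg, re_ofReal_mul,
        cpow_def_of_ne_zero (by exact_mod_cast hn.ne'), ← natCast_log, exp_re,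
        Real.rpow_def_of_pos hn']
      simp only [mul_re, ofReal_re, neg_re, add_re, I_re, mul_zero, ofReal_im, I_im, mul_one,
        sub_self, add_zero, neg_im, add_im, mul_im, zero_add, zero_mul, sub_zero, mul_neg,
        Real.cos_neg]
      rw [mul_comm τ, mul_assoc]
  rw [e2]
  exact h4

theorem DD_abs_le {σ : ℝ} (h1 : 1 < σ) (τ : ℝ) : |DD σ τ| ≤ -DD σ 0 := by
  have h2 := hasSum_DD h1 τ
  have h3 := hasSum_DD h1 0
  have hn : ∀ n : ℕ, 0 ≤ Λ n * (n : ℝ) ^ (-σ) := fun n =>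
    mul_nonneg ArithmeticFunction.vonMangoldt_nonneg (by positivity)
  rw [abs_le]
  constructor
  · have := hasSum_le (fun n => ?_) h2 h3
    · linarith
    · simp only [zero_mul, Real.cos_zero]
      exact mul_le_mul_of_nonneg_left (Real.cos_le_one _) (hn n)
  · have := hasSum_le (fun n => ?_) h2.neg h3
    · linarith
    · simp only [zero_mul, Real.cos_zero, ← mul_neg]
      exact mul_le_mul_of_nonneg_left (by linarith [Real.neg_one_le_cos (τ * Real.log n)]) (hn n)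

end H96Z
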