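import Pool.Agent.Lib.MP_5db4ad_nt.H96Tri

/-! Zero-free windows, the growth lemma and lower bounds for zeta. -/

open Complex Filter Topology Finset
open scoped ComplexConjugate

namespace H96Z

theorem hasDerivAt_log_zeta {u τ : ℝ} (h1 : (u : ℂ) + τ * I ≠ 1)
    (hz : riemannZeta (u + τ * I) ≠ 0) :
    HasDerivAt (fun w : ℝ => Real.log ‖riemannZeta (w + τ * I)‖) (DD u τ) u := by
  have h2 : HasDerivAt (fun w : ℂ => riemannZeta (w + τ * I))
      (deriv riemannZeta (u + τ * I) * 1) (u : ℂ) :=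
    (differentiableAt_riemannZeta h1).hasDerivAt.comp (u : ℂ) ((hasDerivAt_id _).add_const _)
  have h3 := h2.comp_ofReal.norm_sq
  have h0 : ‖riemannZeta (u + τ * I)‖ ≠ 0 := norm_ne_zero_iff.2 hz
  have h4 := (h3.log (pow_ne_zero 2 h0)).div_const 2
  have e1 : (fun w : ℝ => Real.log ‖riemannZeta (w + τ * I)‖) =
      fun w : ℝ => Real.log (‖riemannZeta (w + τ * I)‖ ^ 2) / 2 := by
    funext w
    rw [Real.log_pow]
    push_cast
    ring
  have e2 : DD u τ = 2 * inner ℝ (riemannZeta (u + τ * I)) (deriv riemannZeta (u + τ * I) * 1) /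
      ‖riemannZeta (u + τ * I)‖ ^ 2 / 2 := by
    rw [DD, logDeriv_apply, div_re, Complex.inner, mul_one, Complex.sq_norm]
    simp only [mul_re, conj_re, conj_im]
    ring
  rw [e1, e2]
  exact h4

theorem term_le {x y v d lam : ℝ} (hy : 0 < y) (hxy : x ≤ y) (hd : y - x < d)
    (hlam : lam = d / (d - (y - x))) (h : d ≤ y ∨ y ≤ |v|) :
    x / (x ^ 2 + v ^ 2) ≤ lam * (y / (y ^ 2 + v ^ 2)) := by
  have hd0 : 0 < d - (y - x) := by linarith
  have hl1 : 1 ≤ lam := by
    rw [hlam, le_div_iff₀ hd0]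
    linarith
  have hy2 : 0 < y / (y ^ 2 + v ^ 2) := by positivity
  by_cases hx : x ≤ 0
  · have : x / (x ^ 2 + v ^ 2) ≤ 0 := div_nonpos_of_nonpos_of_nonneg hx (by positivity)
    nlinarith
  push Not at hx
  rcases h with h | h
  · have h1 : x / (x ^ 2 + v ^ 2) ≤ y / x * (y / (y ^ 2 + v ^ 2)) := by
      rw [div_mul_div_comm, div_le_div_iff₀ (by positivity) (by positivity)]
      have : x ^ 2 ≤ y ^ 2 := by nlinarith
      nlinarith [mul_le_mul_of_nonneg_right this (sq_nonneg v)]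
    have h2 : y / x ≤ lam := by
      rw [hlam, div_le_div_iff₀ hx hd0]
      nlinarith
    exact h1.trans (mul_le_mul_of_nonneg_right h2 hy2.le)
  · have h1 : x / (x ^ 2 + v ^ 2) ≤ y / (y ^ 2 + v ^ 2) := by
      rw [div_le_div_iff₀ (by positivity) (by positivity)]
      have h2 : x * y ≤ v ^ 2 := by
        rw [← sq_abs]
        nlinarith
      nlinarith [mul_nonneg (sub_nonneg.2 hxy) (sub_nonneg.2 h2)]
    nlinarith

theorem logDeriv_xi_le {σ u τ d : ℝ} (h1 : 1 < σ) (hd : d ≤ 1 / 2) (hu : u ≤ σ) (hud : σ - u < d)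
    (hz : ∀ ρ, xi ρ = 0 → |τ - ρ.im| ≤ 1 / 2 → d ≤ σ - ρ.re) :
    xi (u + τ * I) ≠ 0 ∧
      (logDeriv xi (u + τ * I)).re ≤ d / (d - (σ - u)) * (logDeriv xi (σ + τ * I)).re := by
  have hx : xi (u + τ * I) ≠ 0 := by
    intro h
    have := hz _ h (by simp)
    simp at this
    linarith
  refine ⟨hx, ?_⟩
  set lam := d / (d - (σ - u)) with hlam
  have hl0 : 0 ≤ lam := div_nonneg (by linarith) (by linarith)
  have key : ∀ ρ, xi ρ = 0 → (u - ρ.re) / ((u - ρ.re) ^ 2 + (τ - ρ.im) ^ 2) ≤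
      lam * ((σ - ρ.re) / ((σ - ρ.re) ^ 2 + (τ - ρ.im) ^ 2)) := by
    intro ρ hρ
    refine term_le (d := d) (by linarith [(xi_zero_re hρ).2]) (by linarith) (by linarith)
      (by rw [hlam]; congr 2; ring) ?_
    by_cases h : |τ - ρ.im| ≤ 1 / 2
    · exact Or.inl (hz ρ hρ h)
    · by_cases h' : d ≤ σ - ρ.re
      · exact Or.inl h'
      · exact Or.inr (by linarith)
  refine le_of_forall_pos_le_add fun ε hε => ?_
  obtain ⟨Z, hZ, -, h⟩ := had_xi (max ‖(σ : ℂ) + τ * I‖ ‖(u : ℂ) + τ * I‖)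
    (ε := ε / (1 + lam)) (by positivity)
  have h3 := abs_le.1 (h _ (le_max_left _ _) (xi_ne_zero (by simpa using h1.le)))
  have h4 := abs_le.1 (h _ (le_max_right _ _) hx)
  have h5 : (Z.map (FF (u + τ * I))).sum ≤ lam * (Z.map (FF (σ + τ * I))).sum := by
    rw [← Multiset.sum_map_mul_left]
    refine Multiset.sum_map_le_sum_map _ _ fun ρ hρ => ?_
    have k1 := key ρ (hZ ρ hρ)
    have k2 := key (1 - conj ρ) (by rw [xi_mirror, hZ ρ hρ, map_zero])
    have e1 : (1 - conj ρ).re = 1 - ρ.re := by simp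
    have e2 : (1 - conj ρ).im = ρ.im := by simp
    have e3 : ∀ w : ℝ, w - (1 - ρ.re) = w - 1 + ρ.re := fun w => by ring
    rw [e1, e2, e3, e3] at k2
    rw [FF_eq, FF_eq]
    linarith
  have h6 := mul_le_mul_of_nonneg_left h3.1 hl0
  have h7 : ε / (1 + lam) + lam * (ε / (1 + lam)) = ε := by field_simp
  nlinarith [h4.2]

theorem zero_free {L ξ t : ℝ} (hL : 17 ≤ L) (ht : 15 / 2 ≤ t)
    (hlog : Real.log ((t + 2) / (2 * Real.pi)) ≤ L) (hξ : 0 ≤ ξ)
    (hX : ∀ τ, |τ - t| ≤ 3 / 2 → XX (1 + 1 / (3 * L)) τ ≤ ξ * L) {ρ : ℂ} (hρ : xi ρ = 0)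
    (hγ : |ρ.im - t| ≤ 3 / 2) : 1 / (ξ + 0.27802) / L ≤ 1 + 1 / (3 * L) - ρ.re := by
  obtain ⟨h1, h2⟩ := s2_facts hL
  have hL0 : 0 < L := by linarith
  have hb := (xi_zero_re hρ).2
  rw [div_div]
  by_cases h : 1 / 2 < ρ.re
  · have hγ' := abs_le.1 hγ
    have h3 : |ρ.im| = ρ.im := abs_of_pos (by linarith)
    have h4 := XX_zero (η := 0.003983) h1 (by linarith) (by norm_num) (by linarith) hρ h
      (by linarith)
    have h5 := log_small (T := |ρ.im|) (by linarith) hL (le_trans (Real.log_le_log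
      (by rw [h3]; have := Real.pi_pos; have : 0 < ρ.im := by linarith
          positivity) (by
        have := Real.pi_pos
        gcongr
        linarith)) hlog)
    have h6 := hX _ hγ
    rw [one_div_le (by positivity) (by linarith)]
    nlinarith
  · have : 1 / ((ξ + 0.27802) * L) ≤ 1 / 2 := one_div_le_one_div_of_le (by norm_num) (by nlinarith)
    linarith

/-- The growth lemma. -/
theorem zeta_grow {L ξ t D₀ ν τ σ : ℝ} (hL : 17 ≤ L) (ht : 15 / 2 ≤ t)
    (hlog : Real.log ((t + 2) / (2 * Real.pi)) ≤ L) (hξ : 0 ≤ ξ)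
    (hX : ∀ τ, |τ - t| ≤ 3 / 2 → XX (1 + 1 / (3 * L)) τ ≤ ξ * L)
    (hD : D₀ < 1 / (ξ + 0.27802))
    (hν : 1 / (ξ + 0.27802) * Real.log (1 / (ξ + 0.27802) / (1 / (ξ + 0.27802) - D₀)) ≤ ν)
    (hτ : |τ - t| ≤ 1) (hσ1 : 1 + 1 / (3 * L) - D₀ / L ≤ σ) (hσ2 : σ ≤ 1 + 1 / (3 * L)) :
    riemannZeta (σ + τ * I) ≠ 0 ∧ ‖riemannZeta ((1 + 1 / (3 * L) : ℝ) + τ * I)‖ ≤
      ‖riemannZeta (σ + τ * I)‖ *
        Real.exp (ν * (ξ + 0.032) + (ν - D₀) / 2 + (ν + D₀) * 3 / ((t - 1) * L)) := by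
  obtain ⟨h1, h2⟩ := s2_facts hL
  have hL0 : 0 < L := by linarith
  set s₂ := 1 + 1 / (3 * L) with hs₂
  set d₀ := 1 / (ξ + 0.27802) with hd₀
  have hd0 : 0 < d₀ := by positivity
  have hd4 : d₀ ≤ 4 := by
    rw [hd₀, div_le_iff₀ (by positivity)]
    linarith
  have hτ' := abs_le.1 hτ
  have hτ0 : |τ| = τ := abs_of_pos (by linarith)
  have hdL : d₀ / L ≤ 1 / 4 := by
    rw [div_le_iff₀ hL0]
    linarith
  have hDL : D₀ / L < d₀ / L := div_lt_div_of_pos_right hD hL0
  have hne : ∀ u : ℝ, (u : ℂ) + τ * I ≠ 1 := by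
    intro u h
    have := congrArg im h
    simp at this
    linarith
  set g := Real.log (τ / (2 * Real.pi)) / 2 with hg
  set E := 3 / (t - 1) with hE
  have hE0 : 0 ≤ E := div_nonneg (by norm_num) (by linarith)
  have hGm : ∀ u : ℝ, 0 < u → u < 2 → |Gm (u + τ * I) - g| ≤ E := by
    intro u a b
    have := Gm_bound a b (τ := τ) (by linarith)
    rw [hτ0] at this
    refine this.trans ?_
    rw [hE]
    gcongr <;> linarith
  have hgL : g ≤ L / 2 := by
    have : Real.log (τ / (2 * Real.pi)) ≤ Real.log ((t + 2) / (2 * Real.pi)) := by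
      have := Real.pi_pos
      have : 0 < τ := by linarith
      gcongr
      linarith
    linarith
  set A := ξ * L + 0.544 + g + E with hA
  have hA1 : (logDeriv xi (s₂ + τ * I)).re ≤ A := by
    have h3 := DD_eq (σ := s₂) (τ := τ) (by linarith) (hne _) (xi_ne_zero (by simpa using h1.le))
    have h4 := hX τ (by linarith)
    have h5 := (abs_le.1 (DD_abs_le (σ := 13 / 8) (by norm_num) τ)).2
    have h6 := (abs_le.1 (hGm s₂ (by linarith) (by linarith))).2
    rw [XX] at h4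
    linarith [DD13_le]
  have hu : ∀ u ∈ Set.Icc σ s₂, riemannZeta (u + τ * I) ≠ 0 ∧
      DD u τ ≤ d₀ / L / (d₀ / L - (s₂ - u)) * A - (g - E) := by
    intro u hu
    obtain ⟨k1, k2⟩ := logDeriv_xi_le (σ := s₂) (u := u) (τ := τ) (d := d₀ / L) h1 (by linarith)
      hu.2 (by linarith [hu.1]) (fun ρ hρ hγ => zero_free hL ht hlog hξ hX hρ (by
        rw [abs_le] at hγ ⊢
        constructor <;> linarith [hγ.1, hγ.2]))
    have hu0 : 0 < u := by linarith [hu.1]
    refine ⟨(xi_ne_zero_iff (by simpa using hu0) (hne u)).1 k1, ?_⟩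
    rw [DD_eq hu0 (hne u) k1]
    have h6 := (abs_le.1 (hGm u hu0 (by linarith [hu.2]))).1
    have h7 : 0 ≤ d₀ / L / (d₀ / L - (s₂ - u)) := div_nonneg (by positivity) (by linarith [hu.1])
    linarith [mul_le_mul_of_nonneg_left hA1 h7]
  have hder : ∀ u ∈ Set.Icc σ s₂, HasDerivAt (fun w : ℝ => Real.log ‖riemannZeta (w + τ * I)‖ -
      A * (d₀ / L) * Real.log (d₀ / L - (s₂ - w)) + (g - E) * w)
      (DD u τ - A * (d₀ / L) * ((-(-1)) / (d₀ / L - (s₂ - u))) + (g - E) * 1) u := fun u h =>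
    ((hasDerivAt_log_zeta (hne u) (hu u h).1).sub
      (((((hasDerivAt_id u).const_sub s₂).const_sub (d₀ / L)).log
        (by simp only [id]; linarith [h.1])).const_mul _)).add ((hasDerivAt_id u).const_mul _)
  have hanti := antitoneOn_of_deriv_nonpos (convex_Icc σ s₂)
    (fun u h => (hder u h).continuousAt.continuousWithinAt)
    (fun u h => (hder u (interior_subset h)).differentiableAt.differentiableWithinAt)
    (fun u h => by
      rw [(hder u (interior_subset h)).deriv]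
      have := (hu u (interior_subset h)).2
      have e : A * (d₀ / L) * ((-(-1)) / (d₀ / L - (s₂ - u))) =
          d₀ / L / (d₀ / L - (s₂ - u)) * A := by ring
      linarith)
  have h3 := hanti (Set.left_mem_Icc.2 hσ2) (Set.right_mem_Icc.2 hσ2) hσ2
  have z1 := (hu σ (Set.left_mem_Icc.2 hσ2)).1
  have z2 := (hu s₂ (Set.right_mem_Icc.2 hσ2)).1
  refine ⟨z1, ?_⟩
  rw [← Real.log_le_log_iff (norm_pos_iff.2 z2) (mul_pos (norm_pos_iff.2 z1) (Real.exp_pos _)),
    Real.log_mul (norm_ne_zero_iff.2 z1) (Real.exp_pos _).ne', Real.log_exp]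
  set D := L * (s₂ - σ) with hD'
  have hD0 : 0 ≤ D := mul_nonneg hL0.le (by linarith)
  have hD1 : D ≤ D₀ := by
    have : s₂ - σ ≤ D₀ / L := by linarith
    rw [le_div_iff₀ hL0] at this
    linarith
  have e1 : s₂ - σ = D / L := by
    rw [hD']
    field_simp
  set ν' := d₀ * (Real.log d₀ - Real.log (d₀ - D)) with hν'
  have e2 : Real.log (d₀ / L - (s₂ - s₂)) - Real.log (d₀ / L - (s₂ - σ)) =
      Real.log d₀ - Real.log (d₀ - D) := by
    rw [sub_self, sub_zero, e1, ← sub_div, Real.log_div hd0.ne' hL0.ne',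
      Real.log_div (by linarith) hL0.ne']
    ring
  have hlg : ∀ a b : ℝ, 0 < a → a ≤ b → b ≤ d₀ → b - a ≤ d₀ * (Real.log b - Real.log a) := by
    intro a b ha hab hb
    have hb0 : 0 < b := by linarith
    have k1 := Real.log_le_sub_one_of_pos (div_pos ha hb0)
    rw [Real.log_div ha.ne' hb0.ne'] at k1
    have k2 : (b - a) / b ≤ Real.log b - Real.log a := by
      rw [sub_div, div_self hb0.ne']
      linarith
    rw [div_le_iff₀ hb0] at k2
    have k3 : 0 ≤ Real.log b - Real.log a := sub_nonneg.2 (Real.log_le_log ha hab)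
    nlinarith
  have k1 : D ≤ ν' := by
    have := hlg (d₀ - D) d₀ (by linarith) (by linarith) le_rfl
    linarith
  have k2 : ν' - D ≤ ν - D₀ := by
    have := hlg (d₀ - D₀) (d₀ - D) (by linarith) (by linarith) (by linarith)
    rw [Real.log_div hd0.ne' (by linarith)] at hν
    linarith
  have k3 : Real.log ‖riemannZeta (s₂ + τ * I)‖ - Real.log ‖riemannZeta (σ + τ * I)‖ ≤
      (A * ν' - (g - E) * D) / L := by
    have e3 : (A * ν' - (g - E) * D) / L = A * (d₀ / L) * (Real.log (d₀ / L - (s₂ - s₂)) -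
        Real.log (d₀ / L - (s₂ - σ))) - (g - E) * (s₂ - σ) := by
      rw [e2, e1, hν']
      field_simp
    simp only at h3
    linarith
  have k4 : (A * ν' - (g - E) * D) / L ≤
      ν * (ξ + 0.032) + (ν - D₀) / 2 + (ν + D₀) * 3 / ((t - 1) * L) := by
    have e4 : (ν + D₀) * 3 / ((t - 1) * L) = (ν + D₀) * E / L := by
      rw [hE]
      have : t - 1 ≠ 0 := by linarith
      field_simp
    rw [e4, div_le_iff₀ hL0, add_mul _ ((ν + D₀) * E / L) L, div_mul_cancel₀ _ hL0.ne', hA]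
    have a1 : ν' * (ξ * L + 0.544) ≤ ν * (ξ + 0.032) * L := by
      have : ξ * L + 0.544 ≤ (ξ + 0.032) * L := by linarith
      calc ν' * (ξ * L + 0.544) ≤ ν * ((ξ + 0.032) * L) :=
            mul_le_mul (by linarith) this (by positivity) (by linarith)
        _ = _ := by ring
    have a2 : g * (ν' - D) ≤ L / 2 * (ν - D₀) :=
      (mul_le_mul_of_nonneg_right hgL (by linarith)).trans
        (mul_le_mul_of_nonneg_left k2 (by positivity))
    have a3 : E * (ν' + D) ≤ E * (ν + D₀) := mul_le_mul_of_nonneg_left (by linarith) hE0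
    nlinarith
  linarith

/-- Lower bound from the Euler product. -/
theorem zeta_euler {σ : ℝ} (h1 : 1 < σ) (τ : ℝ) (Q : Finset Nat.Primes) :
    ‖riemannZeta (2 * σ : ℝ)‖ * ∏ p ∈ Q, (1 + (p : ℝ) ^ (-σ)) ≤
      ‖riemannZeta σ‖ * ‖riemannZeta (σ + τ * I)‖ * ∏ p ∈ Q, ‖1 - (p : ℂ) ^ (-(σ + τ * I))‖ := by
  classical
  have a1 := (riemannZeta_eulerProduct_hasProd (s := (2 * σ : ℝ)) (by simp; linarith)).norm
  have a2 := (riemannZeta_eulerProduct_hasProd (s := σ) (by simpa)).norm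
  have a3 := (riemannZeta_eulerProduct_hasProd (s := σ + τ * I) (by simpa)).norm
  refine le_of_tendsto_of_tendsto (a1.mul_const _) ((Tendsto.mul a2 a3).mul_const _) ?_
  filter_upwards [eventually_ge_atTop Q] with T hT
  have e : ∀ f : Nat.Primes → ℝ, ∏ p ∈ Q, f p = ∏ p ∈ T, if p ∈ Q then f p else 1 := by
    intro f
    rw [← prod_filter, filter_mem_eq_inter, inter_eq_right.2 hT]
  rw [e, e fun p => ‖1 - (p : ℂ) ^ (-(σ + τ * I))‖, ← prod_mul_distrib, ← prod_mul_distrib,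
    ← prod_mul_distrib]
  refine prod_le_prod (fun p _ => by split_ifs <;> positivity) fun p _ => ?_
  have hp : (1 : ℝ) < p := by exact_mod_cast p.2.one_lt
  set x := (p : ℝ) ^ (-σ) with hx
  have hx0 : 0 < x := by positivity
  have hx1 : x < 1 := Real.rpow_lt_one_of_one_lt_of_neg hp (by linarith)
  have b1 : ‖(1 - (p : ℂ) ^ (-(σ : ℂ)))⁻¹‖ = (1 - x)⁻¹ := by
    rw [← ofReal_neg, ← ofReal_natCast, ← ofReal_cpow (by positivity), ← ofReal_one, ← ofReal_sub,
      norm_inv, norm_real, Real.norm_eq_abs, abs_of_pos (by linarith)]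
  have b2 : ‖(1 - (p : ℂ) ^ (-((2 * σ : ℝ) : ℂ)))⁻¹‖ = (1 - x)⁻¹ * (1 + x)⁻¹ := by
    have : (p : ℝ) ^ (-(2 * σ)) = x ^ 2 := by
      rw [hx, ← Real.rpow_natCast, ← Real.rpow_mul (by positivity)]
      congr 1
      push_cast
      ring
    rw [← ofReal_neg, ← ofReal_natCast, ← ofReal_cpow (by positivity), ← ofReal_one, ← ofReal_sub,
      norm_inv, norm_real, Real.norm_eq_abs, this, abs_of_pos (by nlinarith), ← mul_inv]
    congr 1
    ring
  have b3 : ‖(p : ℂ) ^ (-(σ + τ * I))‖ = x := by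
    rw [norm_natCast_cpow_of_pos p.2.pos]
    simp [hx]
  set y := ‖1 - (p : ℂ) ^ (-(σ + τ * I))‖ with hy
  have b4 : y ≤ 1 + x := by
    have := norm_sub_le 1 ((p : ℂ) ^ (-(σ + τ * I)))
    rwa [norm_one, b3] at this
  have b5 : 0 < y := by
    have := norm_sub_norm_le 1 ((p : ℂ) ^ (-(σ + τ * I)))
    rw [norm_one, b3] at this
    linarith
  rw [b1, b2, norm_inv, ← hy]
  have b6 : 0 < (1 - x)⁻¹ := inv_pos.2 (by linarith)
  split_ifs
  · rw [mul_assoc, mul_assoc, inv_mul_cancel₀ (by linarith), inv_mul_cancel₀ b5.ne']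
  · rw [mul_one, mul_one]
    exact mul_le_mul_of_nonneg_left (inv_anti₀ b5 b4) b6.le

theorem norm_zeta_real {σ : ℝ} (h1 : 1 < σ) :
    1 ≤ ‖riemannZeta σ‖ ∧ ‖riemannZeta σ‖ ≤ 1 / (σ - 1) + 1 := by
  have hs : Summable fun n : ℕ => 1 / ((n : ℝ) + 1) ^ σ := by
    have := (summable_nat_add_iff 1).2 (Real.summable_one_div_nat_rpow.2 h1)
    simpa using this
  have e : riemannZeta σ = ((∑' n : ℕ, 1 / ((n : ℝ) + 1) ^ σ : ℝ) : ℂ) := by
    rw [zeta_eq_tsum_one_div_nat_add_one_cpow (by simpa), ofReal_tsum]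
    refine tsum_congr fun n => ?_
    rw [ofReal_div, ofReal_cpow (by positivity)]
    simp
  have h0 : ∀ n : ℕ, 0 ≤ 1 / ((n : ℝ) + 1) ^ σ := fun n => by positivity
  rw [e, norm_real, Real.norm_eq_abs, abs_of_nonneg (tsum_nonneg h0)]
  constructor
  · simpa using hs.le_tsum 0 fun j _ => h0 j
  · refine hs.tsum_le_of_sum_range_le fun N => ?_
    have key : ∀ N : ℕ, ∑ n ∈ range (N + 1), 1 / ((n : ℝ) + 1) ^ σ ≤
        1 + (1 - ((N : ℝ) + 1) ^ (1 - σ)) / (σ - 1) := by
      intro N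
      induction N with
      | zero => simp
      | succ N ih =>
        rw [sum_range_succ]
        push_cast
        have hN : (0 : ℝ) < N + 1 + 1 := by positivity
        have hN1 : (0 : ℝ) < N + 1 := by positivity
        have k1 : (σ - 1) * (1 / ((N : ℝ) + 1 + 1) ^ σ) ≤
            ((N : ℝ) + 1) ^ (1 - σ) - ((N : ℝ) + 1 + 1) ^ (1 - σ) := by
          have k2 : ((N : ℝ) + 1) ^ (1 - σ) = ((N : ℝ) + 1 + 1) ^ (1 - σ) *
              Real.exp ((σ - 1) * (Real.log (N + 1 + 1) - Real.log (N + 1))) := by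
            rw [Real.rpow_def_of_pos hN, Real.rpow_def_of_pos hN1, ← Real.exp_add]
            congr 1
            ring
          have k3 := Real.log_le_sub_one_of_pos (div_pos hN1 hN)
          rw [Real.log_div hN1.ne' hN.ne'] at k3
          have k4 : ((N : ℝ) + 1) / (N + 1 + 1) - 1 = -(1 / (N + 1 + 1)) := by
            field_simp
            ring
          have k5 := Real.add_one_le_exp ((σ - 1) * (Real.log (N + 1 + 1) - Real.log (N + 1)))
          have k6 : (σ - 1) * (1 / ((N : ℝ) + 1 + 1)) ≤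
              (σ - 1) * (Real.log (N + 1 + 1) - Real.log (N + 1)) :=
            mul_le_mul_of_nonneg_left (by linarith) (by linarith)
          have k7 : 1 / ((N : ℝ) + 1 + 1) ^ σ =
              ((N : ℝ) + 1 + 1) ^ (1 - σ) * (1 / ((N : ℝ) + 1 + 1)) := by
            rw [Real.rpow_sub hN, Real.rpow_one]
            field_simp
          have k8 : 0 < ((N : ℝ) + 1 + 1) ^ (1 - σ) := by positivity
          rw [k2, k7]
          nlinarith [mul_le_mul_of_nonneg_left (show (σ - 1) * (1 / ((N : ℝ) + 1 + 1)) + 1 ≤ _ from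
            le_trans (by linarith) k5) k8.le]
        rw [← le_div_iff₀' (by linarith)] at k1
        have e2 : (1 - ((N : ℝ) + 1 + 1) ^ (1 - σ)) / (σ - 1) =
            (1 - ((N : ℝ) + 1) ^ (1 - σ)) / (σ - 1) +
              (((N : ℝ) + 1) ^ (1 - σ) - ((N : ℝ) + 1 + 1) ^ (1 - σ)) / (σ - 1) := by ring
        linarith
    have k1 : ∑ n ∈ range N, 1 / ((n : ℝ) + 1) ^ σ ≤ ∑ n ∈ range (N + 1), 1 / ((n : ℝ) + 1) ^ σ := by
      rw [sum_range_succ]
      linarith [h0 N]
    have k2 : (1 - ((N : ℝ) + 1) ^ (1 - σ)) / (σ - 1) ≤ 1 / (σ - 1) := by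
      have : 0 ≤ ((N : ℝ) + 1) ^ (1 - σ) := by positivity
      exact div_le_div_of_nonneg_right (by linarith) (by linarith)
    linarith [key N]

theorem DD_mono {u : ℝ} (hu : 13 / 8 ≤ u) : -DD u 0 ≤ 1.224 := by
  refine le_trans (hasSum_le (fun n => ?_) (hasSum_DD (by linarith) 0)
    (hasSum_DD (σ := 13 / 8) (by norm_num) 0)) DD13_le
  rcases Nat.eq_zero_or_pos n with rfl | hn
  · simp
  · simp only [zero_mul, Real.cos_zero, mul_one]
    exact mul_le_mul_of_nonneg_left (Real.rpow_le_rpow_of_exponent_le (by exact_mod_cast hn)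
      (by linarith)) ArithmeticFunction.vonMangoldt_nonneg

theorem zeta_two_mul {σ : ℝ} (h1 : 1 ≤ σ) (h2 : σ ≤ 1 + 1 / 51) :
    1.565 ≤ ‖riemannZeta (2 * σ : ℝ)‖ := by
  have hder : ∀ u ∈ Set.Icc 2 (2 * σ), HasDerivAt
      (fun w : ℝ => -Real.log ‖riemannZeta (w + (0 : ℝ) * I)‖ - 1.224 * w)
      (-DD u 0 - 1.224 * 1) u := fun u h =>
    (hasDerivAt_log_zeta (ne_one_of_lt (by linarith [h.1]))
      (riemannZeta_ne_zero_of_one_le_re (by simp; linarith [h.1]))).neg.sub
      ((hasDerivAt_id u).const_mul _)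
  have hanti := antitoneOn_of_deriv_nonpos (convex_Icc 2 (2 * σ))
    (fun u h => (hder u h).continuousAt.continuousWithinAt)
    (fun u h => (hder u (interior_subset h)).differentiableAt.differentiableWithinAt)
    (fun u h => by
      rw [(hder u (interior_subset h)).deriv]
      linarith [DD_mono (u := u) (by linarith [(interior_subset h).1])])
  have h3 := hanti (Set.left_mem_Icc.2 (by linarith)) (Set.right_mem_Icc.2 (by linarith))
    (by linarith)
  simp only [ofReal_zero, zero_mul, add_zero, ofReal_ofNat] at h3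
  have h4 : 1.6448 ≤ ‖riemannZeta 2‖ := by
    rw [riemannZeta_two, norm_div, norm_pow, norm_real, Real.norm_eq_abs, abs_of_pos Real.pi_pos]
    simp only [Complex.norm_ofNat]
    have := Real.pi_gt_d4
    nlinarith
  have h5 := Real.log_le_log (by norm_num) h4
  have h6 := (norm_zeta_real (σ := 2 * σ) (by linarith)).1
  have h7 : Real.log (1.565 / 1.6448) ≤ 1.565 / 1.6448 - 1 := Real.log_le_sub_one_of_pos (by norm_num)
  rw [Real.log_div (by norm_num) (by norm_num)] at h7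
  rw [← Real.log_le_log_iff (by norm_num) (by linarith)]
  norm_num at h7 h5 h3 ⊢
  linarith

theorem zeta_taub_pos {L t σ : ℝ} (hL : 17 ≤ L) (ht : 8 ≤ t)
    (hlog : Real.log ((t + 2) / (2 * Real.pi)) ≤ L) (hσ : 1 - 0.06 / L ≤ σ) :
    1 / (100 * L) ≤ ‖riemannZeta (σ + t * I)‖ := by
  obtain ⟨h1, h2⟩ := s2_facts hL
  have hL0 : 0 < L := by linarith
  have key : ∀ s : ℝ, 1 + 1 / (3 * L) ≤ s → 1 ≤ (3 * L + 1) * ‖riemannZeta (s + t * I)‖ := by
    intro s hs
    have a1 := zeta_euler (σ := s) (by linarith) t ∅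
    simp only [prod_empty, mul_one] at a1
    have a2 := (norm_zeta_real (σ := 2 * s) (by linarith)).1
    have a3 := (norm_zeta_real (σ := s) (by linarith)).2
    have a4 : 1 / (s - 1) ≤ 3 * L := by
      rw [one_div_le (by linarith) (by positivity)]
      linarith
    nlinarith [norm_nonneg (riemannZeta (s + t * I))]
  rw [div_le_iff₀ (by positivity)]
  by_cases hs : 1 + 1 / (3 * L) ≤ σ
  · nlinarith [key σ hs, norm_nonneg (riemannZeta (σ + t * I))]
  · have h3 := (zeta_grow (ξ := 2.0135) (D₀ := 1 / 3 + 0.06) (ν := 1.1) (τ := t) (σ := σ) hL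
      (by linarith) hlog (by norm_num) (fun τ hτ => by
        have hτ' := abs_le.1 hτ
        have hτ0 : |τ| = τ := abs_of_pos (by linarith)
        refine XX_trig hL (by linarith) (le_trans ?_ hlog)
        have := Real.pi_pos
        have : 0 < τ := by linarith
        rw [hτ0]
        gcongr
        linarith) (by norm_num) (by
        have := log_le_of (x := 1 / (2.0135 + 0.27802) / (1 / (2.0135 + 0.27802) - (1 / 3 + 0.06)))
          (y := 2.5) (by norm_num) (by norm_num) (by norm_num)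
        norm_num at this ⊢
        linarith) (by simp) (by
        have : (1 / 3 + 0.06) / L = 1 / (3 * L) + 0.06 / L := by
          field_simp
        linarith) (not_le.1 hs).le).2
    have h4 : Real.exp (1.1 * (2.0135 + 0.032) + (1.1 - (1 / 3 + 0.06)) / 2 +
        (1.1 + (1 / 3 + 0.06)) * 3 / ((t - 1) * L)) ≤ 21 := by
      have a1 : (1.1 + (1 / 3 + 0.06)) * 3 / ((t - 1) * L) ≤ 0.1 := by
        rw [div_le_iff₀ (by nlinarith)]
        nlinarith
      have a2 : Real.exp 3 ≤ 21 := by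
        have := Real.exp_one_lt_d9
        have e : Real.exp 3 = Real.exp 1 ^ 3 := by rw [← Real.exp_nat_mul]; norm_num
        rw [e]
        exact (pow_le_pow_left₀ (Real.exp_pos _).le this.le 3).trans (by norm_num)
      exact (Real.exp_le_exp.2 (by linarith)).trans a2
    have h5 := key _ le_rfl
    have h6 := h3.trans (mul_le_mul_of_nonneg_left h4 (norm_nonneg _))
    nlinarith [norm_nonneg (riemannZeta (σ + t * I))]

/-- A crude lower bound near the line of absolute convergence, at all heights at least eight. -/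
theorem zeta_taub {L t σ : ℝ} (hL : 17 ≤ L) (ht : 8 ≤ |t|)
    (hlog : Real.log ((|t| + 2) / (2 * Real.pi)) ≤ L) (hσ : 1 - 0.06 / L ≤ σ) :
    1 / (100 * L) ≤ ‖riemannZeta (σ + t * I)‖ := by
  have h := zeta_taub_pos hL ht hlog hσ
  rcases abs_choice t with e | e
  · rwa [e] at h
  · have : (σ : ℂ) + t * I = conj (σ + (|t| : ℝ) * I) := by
      rw [e]
      simp
    rwa [this, riemannZeta_conj, norm_conj]

end H96Z
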