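import Mathlib

/-! Finite Hadamard factorisation for entire functions of order less than two. -/

open Complex Metric Set

namespace H96Z

theorem fact_aux (R : ℝ) (hR : 0 < R) (n : ℕ) : ∀ (f : ℂ → ℂ) (M : ℝ), Differentiable ℂ f →
    f 0 = 1 → (∀ z ∈ sphere (0 : ℂ) (3 * R), ‖f z‖ ≤ M) → M < 2 ^ n →
    ∃ (Z : Multiset ℂ) (g : ℂ → ℂ), Differentiable ℂ g ∧ g 0 = 1 ∧
      (∀ z ∈ sphere (0 : ℂ) (3 * R), ‖g z‖ ≤ M) ∧ (∀ z, ‖z‖ ≤ R → g z ≠ 0) ∧
      (∀ ρ ∈ Z, f ρ = 0) ∧ (∀ ρ, ‖ρ‖ ≤ R → f ρ = 0 → ρ ∈ Z) ∧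
      ∀ z, f z ≠ 0 → logDeriv f z = (Z.map fun ρ => 1 / (z - ρ)).sum + logDeriv g z := by
  induction n with
  | zero =>
    intro f M hf h0 hM hn
    exfalso
    have h1 : ‖f 0‖ ≤ M := by
      refine norm_le_of_forall_mem_frontier_norm_le (U := ball (0 : ℂ) (3 * R)) isBounded_ball
        hf.diffContOnCl (fun z hz => hM z ?_) (subset_closure (mem_ball_self (by positivity)))
      rwa [frontier_ball _ (by positivity)] at hz
    rw [h0] at h1
    simp at h1 hn
    linarith
  | succ n ih =>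
    intro f M hf h0 hM hn
    by_cases hz : ∃ ρ, ‖ρ‖ ≤ R ∧ f ρ = 0
    · obtain ⟨ρ, hρR, hρ⟩ := hz
      have hρ0 : ρ ≠ 0 := by
        rintro rfl
        rw [h0] at hρ
        exact one_ne_zero hρ
      set f₁ : ℂ → ℂ := fun z => -ρ * dslope f ρ z with hf₁
      have hd : Differentiable ℂ (dslope f ρ) := by
        rw [← differentiableOn_univ, differentiableOn_dslope Filter.univ_mem]
        exact hf.differentiableOn
      have hd₁ : Differentiable ℂ f₁ := hd.const_mul _
      have hfac : ∀ z, f z = (z - ρ) / (-ρ) * f₁ z := by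
        intro z
        have := sub_smul_dslope f ρ z
        rw [hρ, sub_zero, smul_eq_mul] at this
        rw [← this, hf₁]
        field_simp
      have h0₁ : f₁ 0 = 1 := by
        have := hfac 0
        rw [h0, zero_sub, div_self (neg_ne_zero.2 hρ0), one_mul] at this
        exact this.symm
      have hM₁ : ∀ z ∈ sphere (0 : ℂ) (3 * R), ‖f₁ z‖ ≤ M / 2 := by
        intro z hz
        have h1 := hM z hz
        rw [hfac z, norm_mul, norm_div, norm_neg] at h1
        rw [mem_sphere_zero_iff_norm] at hz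
        have h2 : 2 * R ≤ ‖z - ρ‖ := by
          have := norm_sub_norm_le z ρ
          linarith
        have h3 : 0 < ‖ρ‖ := norm_pos_iff.2 hρ0
        have h4 : 2 ≤ ‖z - ρ‖ / ‖ρ‖ := by
          rw [le_div_iff₀ h3]
          linarith
        nlinarith [norm_nonneg (f₁ z)]
      obtain ⟨Z, g, hg, hg0, hgM, hgz, hZ, hZ', hL⟩ := ih f₁ (M / 2) hd₁ h0₁ hM₁ (by
        rw [pow_succ] at hn
        linarith)
      have hM0 : 0 ≤ M := by
        have : ((3 * R : ℝ) : ℂ) ∈ sphere (0 : ℂ) (3 * R) := by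
          rw [mem_sphere_zero_iff_norm, norm_real, Real.norm_eq_abs, abs_of_pos (by positivity)]
        exact (norm_nonneg _).trans (hM _ this)
      refine ⟨ρ ::ₘ Z, g, hg, hg0, fun z hz => (hgM z hz).trans (by linarith), hgz, ?_, ?_, ?_⟩
      · intro a ha
        rcases Multiset.mem_cons.1 ha with rfl | ha
        · exact hρ
        · rw [hfac a, hZ a ha, mul_zero]
      · intro a haR ha
        by_cases h : a = ρ
        · rw [h]
          exact Multiset.mem_cons_self _ _
        · refine Multiset.mem_cons_of_mem (hZ' a haR ?_)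
          rw [hfac a] at ha
          rcases mul_eq_zero.1 ha with h1 | h1
          · exact absurd (div_eq_zero_iff.1 h1) (by
              rintro (h2 | h2)
              · exact h (sub_eq_zero.1 h2)
              · exact hρ0 (neg_eq_zero.1 h2))
          · exact h1
      · intro z hz
        have hz' := hz
        rw [hfac z] at hz'
        have h1 : (z - ρ) / (-ρ) ≠ 0 := left_ne_zero_of_mul hz'
        have h2 : f₁ z ≠ 0 := right_ne_zero_of_mul hz'
        have h3 : z - ρ ≠ 0 := fun h => h1 (by rw [h, zero_div])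
        have e : f = fun z => (z - ρ) / (-ρ) * f₁ z := funext hfac
        have h4 : logDeriv (fun z : ℂ => (z - ρ) / (-ρ)) z = 1 / (z - ρ) := by
          have : HasDerivAt (fun z : ℂ => (z - ρ) / (-ρ)) (1 / (-ρ)) z :=
            ((hasDerivAt_id z).sub_const ρ).div_const _
          rw [logDeriv_apply, this.deriv]
          field_simp
        rw [e, logDeriv_mul (f := fun z : ℂ => (z - ρ) / (-ρ)) (g := f₁) z h1 h2 (by fun_prop)
          (hd₁ z), h4, hL z h2, Multiset.map_cons, Multiset.sum_cons, add_assoc]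
    · push Not at hz
      exact ⟨0, f, hf, h0, hM, hz, by simp, fun ρ h1 h2 => absurd h2 (hz ρ h1), by simp⟩

theorem logDeriv_lip {g : ℂ → ℂ} {R A : ℝ} (hR : 0 < R) (hA : 0 < A) (hg : Differentiable ℂ g)
    (h0 : g 0 = 1) (hM : ∀ z ∈ sphere (0 : ℂ) (3 * R), ‖g z‖ ≤ Real.exp A)
    (hz : ∀ z, ‖z‖ ≤ R → g z ≠ 0) {a b : ℂ} (ha : ‖a‖ < R / 16) (hb : ‖b‖ < R / 16) :
    ‖logDeriv g a - logDeriv g b‖ ≤ 128 * A / R ^ 2 * ‖a - b‖ := by
  have hM' : ∀ z ∈ ball (0 : ℂ) R, ‖g z‖ ≤ Real.exp A := by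
    intro z hz
    refine norm_le_of_forall_mem_frontier_norm_le (U := ball (0 : ℂ) (3 * R)) isBounded_ball
      hg.diffContOnCl (fun z hz => hM z ?_) (subset_closure (ball_subset_ball (by linarith) hz))
    rwa [frontier_ball _ (by positivity)] at hz
  have hne : ∀ z ∈ ball (0 : ℂ) R, g z ≠ 0 := fun z h => hz z (mem_ball_zero_iff.1 h).le
  have hφ : DifferentiableOn ℂ (logDeriv g) (ball 0 R) := by
    intro z hz
    exact ((hg.deriv z).div (hg z) (hne z hz)).differentiableWithinAt
  obtain ⟨h, hh0, hh⟩ := hφ.isExactOn_ball.with_val_at 0 0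
  have hhd : DifferentiableOn ℂ h (ball 0 R) :=
    fun z hz => (hh z hz).differentiableAt.differentiableWithinAt
  have hexp : ∀ z ∈ ball (0 : ℂ) R, g z * exp (-h z) = 1 := by
    intro z hz
    have hder : ∀ w ∈ ball (0 : ℂ) R, HasDerivAt (fun w => g w * exp (-h w)) 0 w := by
      intro w hw
      have h1 : HasDerivAt (fun w => g w * exp (-h w))
          (deriv g w * exp (-h w) + g w * (exp (-h w) * -logDeriv g w)) w :=
        (hg w).hasDerivAt.mul ((hh w hw).neg.cexp)
      have h2 : deriv g w * exp (-h w) + g w * (exp (-h w) * -logDeriv g w) = 0 := by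
        rw [logDeriv_apply]
        have := hne w hw
        field_simp
        ring
      rwa [h2] at h1
    have := (convex_ball (0 : ℂ) R).is_const_of_fderivWithin_eq_zero (𝕜 := ℂ)
      (f := fun w => g w * exp (-h w))
      (fun w hw => (hder w hw).differentiableAt.differentiableWithinAt)
      (fun w hw => by
        rw [fderivWithin_of_isOpen isOpen_ball hw, (hder w hw).hasFDerivAt.fderiv]
        ext
        simp) hz (mem_ball_self hR)
    rw [this, h0, hh0]
    simp
  have hre : MapsTo h (ball 0 R) {z | z.re ≤ A} := by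
    intro z hz
    have h1 := congrArg norm (hexp z hz)
    rw [norm_mul, norm_exp, norm_one, neg_re] at h1
    have h2 := hM' z hz
    have h3 : ‖g z‖ = Real.exp (h z).re := by
      rw [Real.exp_neg] at h1
      field_simp at h1
      exact h1
    rw [h3] at h2
    exact Real.exp_le_exp.1 h2
  have hb1 : ∀ z : ℂ, ‖z‖ ≤ R / 2 → ‖h z‖ ≤ 2 * A := by
    intro z hz
    have := borelCaratheodory_zero hA hhd hre hR (z := z) (mem_ball_zero_iff.2 (by linarith)) hh0
    refine this.trans ?_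
    rw [div_le_iff₀ (by linarith)]
    nlinarith
  have hb2 : ∀ c : ℂ, ‖c‖ ≤ R / 4 → ‖logDeriv g c‖ ≤ 8 * A / R := by
    intro c hc
    have hsub : closedBall c (R / 4) ⊆ ball 0 R := by
      intro w hw
      rw [mem_closedBall, dist_eq_norm] at hw
      rw [mem_ball_zero_iff]
      have := norm_le_norm_sub_add w c
      linarith
    have h1 := norm_deriv_le_of_forall_mem_sphere_norm_le (c := c) (R := R / 4) (C := 2 * A)
      (f := h) (by positivity) (hhd.diffContOnCl_ball hsub) (fun w hw => hb1 w (by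
        rw [mem_sphere, dist_eq_norm] at hw
        have := norm_le_norm_sub_add w c
        linarith))
    rw [(hh c (mem_ball_zero_iff.2 (by linarith))).deriv] at h1
    refine h1.trans (le_of_eq ?_)
    field_simp
    ring
  have hsub : ball b (R / 8) ⊆ ball 0 R := by
    intro w hw
    rw [mem_ball, dist_eq_norm] at hw
    rw [mem_ball_zero_iff]
    have := norm_le_norm_sub_add w b
    linarith
  have h1 := dist_le_div_mul_dist_of_mapsTo_ball (f := logDeriv g) (c := b) (R₁ := R / 8)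
    (R₂ := 16 * A / R) (z := a) (hφ.mono hsub) (by
      intro w hw
      rw [mem_ball, dist_eq_norm] at hw
      rw [mem_closedBall, dist_eq_norm]
      have h2 := hb2 w (by
        have := norm_le_norm_sub_add w b
        linarith)
      have h3 := hb2 b (by linarith)
      have h4 := norm_sub_le (logDeriv g w) (logDeriv g b)
      have : 16 * A / R = 8 * A / R + 8 * A / R := by ring
      linarith) (by
      rw [mem_ball, dist_eq_norm]
      have := norm_sub_le a b
      linarith)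
  rw [dist_eq_norm, dist_eq_norm] at h1
  refine h1.trans (le_of_eq ?_)
  field_simp
  ring

/-- Finite form of Hadamard's partial fraction expansion. -/
theorem hadamard {f : ℂ → ℂ} (hf : Differentiable ℂ f) (h0 : f 0 = 1)
    (hgr : ∀ δ > 0, ∀ R₀ : ℝ, ∃ R ≥ R₀, ∀ z ∈ sphere (0 : ℂ) (3 * R), ‖f z‖ ≤ Real.exp (δ * R ^ 2))
    (B : ℝ) {ε : ℝ} (hε : 0 < ε) :
    ∃ Z : Multiset ℂ, (∀ ρ ∈ Z, f ρ = 0) ∧ (∀ ρ, ‖ρ‖ ≤ B → f ρ = 0 → ρ ∈ Z) ∧
      ∀ a b : ℂ, ‖a‖ ≤ B → ‖b‖ ≤ B → f a ≠ 0 → f b ≠ 0 →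
        ‖logDeriv f a - logDeriv f b - (Z.map fun ρ => 1 / (a - ρ) - 1 / (b - ρ)).sum‖ ≤ ε := by
  have hB : 0 < |B| + 1 := by positivity
  obtain ⟨R, hR, hM⟩ := hgr (ε / (256 * (|B| + 1))) (by positivity) (16 * (|B| + 1))
  have hR0 : 0 < R := by linarith
  obtain ⟨n, hn⟩ := pow_unbounded_of_one_lt (Real.exp (ε / (256 * (|B| + 1)) * R ^ 2))
    (by norm_num : (1 : ℝ) < 2)
  obtain ⟨Z, g, hg, hg0, hgM, hgz, hZ, hZ', hL⟩ := fact_aux R hR0 n f _ hf h0 hM hn
  have hBB := le_abs_self B
  refine ⟨Z, hZ, fun ρ h1 h2 => hZ' ρ (by linarith) h2, fun a b ha hb hfa hfb => ?_⟩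
  have h1 := logDeriv_lip hR0 (by positivity) hg hg0 hgM hgz (a := a) (b := b) (by linarith)
    (by linarith)
  rw [hL a hfa, hL b hfb, Multiset.sum_map_sub]
  have e : (Z.map fun ρ => 1 / (a - ρ)).sum + logDeriv g a -
      ((Z.map fun ρ => 1 / (b - ρ)).sum + logDeriv g b) -
      ((Z.map fun ρ => 1 / (a - ρ)).sum - (Z.map fun ρ => 1 / (b - ρ)).sum) =
      logDeriv g a - logDeriv g b := by ring
  rw [e]
  refine h1.trans ?_
  have h2 : ‖a - b‖ ≤ 2 * (|B| + 1) := by
    have := norm_sub_le a b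
    linarith
  have e2 : 128 * (ε / (256 * (|B| + 1)) * R ^ 2) / R ^ 2 = ε / (2 * (|B| + 1)) := by
    field_simp
    ring
  rw [e2, div_mul_eq_mul_div, div_le_iff₀ (by positivity)]
  nlinarith

end H96Z
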