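import Pool.Agent.Lib.MP_5db4ad_nt.H96NSt

/-!
The program `asm0` computes the sum of the shifted products.
-/

namespace Pool.Agent.Lib.MP_5db4ad_nt.NE

open S2 Finset

namespace Asm

lemma fz_eq {β : Type} (a : ℕ) (k : ℕ → β) : fz a k = k a := by
  unfold fz
  cases Nat.ble a (nat_lit 0) <;> rfl

lemma pw_split (W n m : ℕ) (f : ℕ → ℕ) :
    pw W (n + m) f = pw W n f + (pw W m fun j => f (n + j)) * 2 ^ (W * n) := by
  unfold pw
  rw [Finset.sum_range_add, Finset.sum_mul]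
  congr 1
  refine Finset.sum_congr rfl fun j _ => ?_
  rw [mul_add, pow_add]
  ring

lemma pw_lt {W n : ℕ} {f : ℕ → ℕ} (h : ∀ j < n, f j < 2 ^ W) : pw W n f < 2 ^ (W * n) := by
  induction n with
  | zero => simp [pw]
  | succ n ih =>
    have h1 := ih fun j hj => h j (by omega)
    have h2 : f n + 1 ≤ 2 ^ W := h n (by omega)
    have h3 : pw W (n + 1) f = pw W n f + f n * 2 ^ (W * n) := Finset.sum_range_succ _ _
    have h4 := Nat.mul_le_mul_right (2 ^ (W * n)) h2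
    rw [h3, mul_add, mul_one, pow_add, mul_comm (2 ^ (W * n))]
    rw [add_mul, one_mul] at h4
    omega

lemma pw_one (W : ℕ) (f : ℕ → ℕ) : pw W 1 f = f 0 := by simp [pw]

lemma land_mask {q a b : ℕ} (hq : q < 2 ^ 28) (ha : a < 2 ^ 34) (hb : b < 2 ^ 34) :
    (q * 2 ^ 36 + (a + b * 2 ^ 64)) &&& 316912650038610606317646118911 = a + b * 2 ^ 64 := by
  have h0 := Nat.mod_add_div ((q * 2 ^ 36 + (a + b * 2 ^ 64)) &&& 316912650038610606317646118911)
    (2 ^ 64)
  rw [Nat.and_mod_two_pow, Nat.and_div_two_pow,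
    show 316912650038610606317646118911 % 2 ^ 64 = 2 ^ 34 - 1 by norm_num,
    show 316912650038610606317646118911 / 2 ^ 64 = 2 ^ 34 - 1 by norm_num,
    Nat.and_two_pow_sub_one_eq_mod, Nat.and_two_pow_sub_one_eq_mod] at h0
  rw [← h0]
  omega

lemma head {n : ℕ} {a b q : ℕ → ℕ} (hn : 0 < n) (hq : q 0 < 2 ^ 28) (ha : a 0 < 2 ^ 34) :
    (pw 192 n fun p => q p * 2 ^ 36 + (a p + b p * 2 ^ 64)) >>> 36 &&& 268435455 = q 0 := by
  obtain ⟨m, rfl⟩ : ∃ m, n = 1 + m := ⟨n - 1, by omega⟩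
  rw [pw_split, pw_one, Nat.shiftRight_eq_div_pow, show 268435455 = 2 ^ 28 - 1 by norm_num,
    Nat.and_two_pow_sub_one_eq_mod]
  generalize (pw 192 m _) = k
  omega

lemma asm_zero (C E p : ℕ) : asm 0 C E p = (C &&& 316912650038610606317646118911) * E := rfl

lemma asm_succ (d C E p : ℕ) : asm (d + 1) C E p =
    asm d (C - (C >>> (192 <<< d)) <<< (192 <<< d)) (E - (E >>> (2880 <<< d)) <<< (2880 <<< d)) p +
      asm d (C >>> (192 <<< d)) (E >>> (2880 <<< d)) ((C >>> (192 <<< d)) >>> 36 &&& 268435455) <<<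
        (((C >>> (192 <<< d)) >>> 36 &&& 268435455) - p) := by
  unfold asm
  simp only [fz_eq]
  rfl

lemma shr_split {W n : ℕ} {f : ℕ → ℕ} (h : ∀ j < n, f j < 2 ^ W) :
    pw W (n + n) f >>> (W * n) = pw W n fun j => f (n + j) := by
  rw [pw_split, Nat.shiftRight_eq_div_pow, Nat.add_mul_div_right _ _ (Nat.two_pow_pos _),
    Nat.div_eq_of_lt (pw_lt h), zero_add]

lemma sub_split (W n : ℕ) (f : ℕ → ℕ) :
    pw W (n + n) f - (pw W n fun j => f (n + j)) <<< (W * n) = pw W n f := by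
  rw [pw_split, Nat.shiftLeft_eq, Nat.add_sub_cancel]

lemma mono {n : ℕ} {q : ℕ → ℕ} (h : ∀ p, p + 1 < n → q p ≤ q (p + 1)) :
    ∀ j < n, q 0 ≤ q j := by
  intro j
  induction j with
  | zero => exact fun _ => le_rfl
  | succ j ih => exact fun hj => (ih (by omega)).trans (h j hj)

lemma asm_eq (d : ℕ) : ∀ a b q r : ℕ → ℕ,
    (∀ p < 2 ^ d, r p < 2 ^ 2880 ∧ a p < 2 ^ 34 ∧ b p < 2 ^ 34 ∧ q p < 2 ^ 28 ∧
      (p + 1 < 2 ^ d → q p ≤ q (p + 1))) →
    asm d (pw 192 (2 ^ d) fun p => q p * 2 ^ 36 + (a p + b p * 2 ^ 64)) (pw 2880 (2 ^ d) r) (q 0) *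
      2 ^ q 0 = ∑ p ∈ range (2 ^ d), (a p + b p * 2 ^ 64) * r p * 2 ^ q p := by
  induction d with
  | zero =>
    intro a b q r h
    obtain ⟨-, h1, h2, h3, -⟩ := h 0 (by norm_num)
    rw [asm_zero, pow_zero, pw_one, pw_one, land_mask h3 h1 h2, Finset.sum_range_one]
  | succ d ih =>
    intro a b q r h
    have hp : 0 < 2 ^ d := Nat.two_pow_pos d
    have e : 2 ^ (d + 1) = 2 ^ d + 2 ^ d := by rw [pow_succ]; omega
    rw [e] at h ⊢
    generalize hn : 2 ^ d = n at h hp ih ⊢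
    have h1 := ih a b q r fun p hp' => by
      obtain ⟨u1, u2, u3, u4, u5⟩ := h p (by omega)
      exact ⟨u1, u2, u3, u4, fun _ => u5 (by omega)⟩
    have h2 := ih (fun j => a (n + j)) (fun j => b (n + j)) (fun j => q (n + j))
      (fun j => r (n + j)) fun p hp' => by
      obtain ⟨u1, u2, u3, u4, u5⟩ := h (n + p) (by omega)
      exact ⟨u1, u2, u3, u4, fun _ => u5 (by omega)⟩
    have h3 : q 0 ≤ q (n + 0) := mono (n := n + n) (fun p hp' => (h p (by omega)).2.2.2.2 hp') _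
      (by omega)
    have h4 : ∀ j < n, q j * 2 ^ 36 + (a j + b j * 2 ^ 64) < 2 ^ 192 := fun j hj => by
      obtain ⟨-, u2, u3, u4, -⟩ := h j (by omega)
      omega
    have h5 := head (n := n) (a := fun j => a (n + j)) (b := fun j => b (n + j))
      (q := fun j => q (n + j)) hp (h (n + 0) (by omega)).2.2.2.1 (h (n + 0) (by omega)).2.1
    rw [asm_succ, Nat.shiftLeft_eq 192, Nat.shiftLeft_eq 2880, hn, shr_split h4,
      shr_split fun j hj => (h j (by omega)).1, sub_split, sub_split, h5, add_mul, h1,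
      Nat.shiftLeft_eq, mul_assoc, ← pow_add, Nat.sub_add_cancel h3, h2, Finset.sum_range_add]

end Asm

theorem asmOk : StAsm := by
  intro d E a b q r hE h
  have h0 := h 0 (Nat.two_pow_pos d)
  have h1 := Asm.head (b := b) (Nat.two_pow_pos d) h0.2.2.2.1 h0.2.1
  have h2 : ∀ C, asm0 d C E = asm d C E (C >>> 36 &&& 268435455) <<< (C >>> 36 &&& 268435455) :=
    fun C => by
      unfold asm0
      simp only [Asm.fz_eq]
      rfl
  rw [h2, h1, Nat.shiftLeft_eq, hE, Asm.asm_eq d a b q r h]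

end Pool.Agent.Lib.MP_5db4ad_nt.NE
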