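import Pool.Agent.Lib.MP_5db4ad_nt.H96NLaneB

/-!
The coefficients on a block.
-/

namespace Pool.Agent.Lib.MP_5db4ad_nt.NE

open S2 Finset
open scoped Real

namespace Blk2

lemma fz_of {β : Type} {a b : ℕ} {k : ℕ → β} {r : β} (h : a = b) (h' : k b = r) : fz a k = r := by
  rw [fz_eq, h, h']

lemma blk_eq {lm a k0 H n Q dx dy mx my ax ay lx ly : ℕ} {U : Us} {cm c1 c2 c3 cl : Ch}
    (hn : 2 ^ (a - 2) = n) (hQ : Nat.shiftLeft (sqj a U.u1 U.u2) (41 - lm) = Q)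
    (h0 : chn1 lm a k0 H cm = T2.mk mx my) (h1 : chn3 lm a k0 H c1 c2 c3 = T2.mk ax ay)
    (h2 : chn1 lm a k0 H cl = T2.mk lx ly) :
    blk lm a k0 U (Tb.mk H cm c1 c2 c3 cl) dx dy =
      core (oN n) (mx + dx - Nat.shiftLeft (oN n) 46) (my + dy - Nat.shiftLeft (oN n) 46) lx ly ax ay
        (angW n (Nat.shiftLeft (oW n) 90 - Q) 0) (angW n (Q * 3) 0) := by
  rw [← p2_eq] at hn
  unfold blk
  revert h0 h1 h2
  obtain ⟨C, hC⟩ : ∃ C, chn1 = C := ⟨_, rfl⟩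
  obtain ⟨P, hP⟩ : ∃ P, chn3 = P := ⟨_, rfl⟩
  obtain ⟨R, hR⟩ : ∃ R, core = R := ⟨_, rfl⟩
  rw [hC, hP, hR]
  intro h0 h1 h2
  dsimp only
  apply fz_of hn
  apply fz_of hQ
  rw [h0, h1, h2]
  iterate 2 apply fz_of rfl
  rfl

lemma norm_le {n v mI : ℕ} {T : ℕ → ℂ} {δ : ℝ} (h : SrcOK n v mI T δ) {k : ℕ} (hk : k < 2 ^ 23) :
    ‖T k‖ ≤ 2.712 / 2 ^ 40 * mI + δ := by
  obtain ⟨A, g, m, -, -, h1, h2⟩ := h
  have h3 : ‖raw n A g (k + 1 / 2)‖ ≤ 2.712 / 2 ^ 40 * mI := by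
    rw [raw, norm_mul, Complex.norm_real, Real.norm_of_nonneg (by positivity)]
    refine mul_le_mul (by norm_num [Kc]) ((norm_sum_le _ _).trans
      ((sum_le_sum fun p _ => ?_).trans h1)) (norm_nonneg _) (by norm_num)
    rw [norm_mul, norm_ee, mul_one, Complex.norm_real, Real.norm_eq_abs]
  linarith [h2 k hk, norm_le_insert (raw n A g (k + 1 / 2)) (T k)]

lemma eCh_le {n m lm a : ℕ} (h : lm ≤ 18) :
    0 ≤ ((eCh n m lm a : ℚ) : ℝ) ∧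
      ((eCh n m lm a : ℚ) : ℝ) ≤ m / 2 ^ 40 * 3.3e-6 + n * 4e-10 + 1.2e-5 := by
  have h1 : (2 : ℝ) ^ lm ≤ 2 ^ 18 := pow_le_pow_right₀ one_le_two h
  have h2 := div_le_self (by norm_num : (0 : ℝ) ≤ 1.2e-6)
    (one_le_pow₀ one_le_two : (1 : ℝ) ≤ 2 ^ (14 * (lm - 2 - a)))
  have h3 : (0 : ℝ) ≤ m / 2 ^ 40 := by positivity
  unfold eCh
  push_cast
  exact ⟨by positivity, by nlinarith [mul_le_mul_of_nonneg_left h2 h3]⟩

lemma afe9 (h : StAfe 24) (k : ℕ) : ‖mainT k + dualT k - zT k‖ ≤ 2.11e-5 := by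
  have h1 := h k 9000 (by norm_num)
  have h2 : (9000 : ℝ) ^ (-(3 / 2) : ℝ) ≤ 1 / 853800 := by
    rw [Real.rpow_neg (by norm_num), one_div]
    refine inv_anti₀ (by norm_num) (le_of_sq_le_sq ?_ (by positivity))
    rw [← Real.rpow_natCast ((9000 : ℝ) ^ _), ← Real.rpow_mul (by norm_num)]
    norm_num
  have h3 : ∀ z m d : ℂ, 3 / 4 * m + 3 / 4 * d - 3 / 2 * z = -(3 / 4 * (2 * z - m - d)) :=
    fun z m d => by ring
  rw [mainT, dualT, zT, h3, norm_neg, norm_mul, norm_div, Complex.norm_ofNat, Complex.norm_ofNat]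
  push_cast at h1 ⊢
  linarith

lemma coreV (hC : StCore) {lm a k0 zx zy lx ly ax ay tl t3 : ℕ} {Z Λ A : ℕ → ℂ} {δz δl δa : ℝ}
    (vz : VB lm a k0 zx zy Z δz) (vl : VB lm a k0 lx ly (fun k => Λ k / (2 * π * Kc)) δl)
    (va : VB lm a k0 ax ay A δa) (a1 : AN (2 ^ a) tl (fun p => -al lm a (sig (2 ^ (a - 2)) p)) 0)
    (a3 : AN (2 ^ a) t3 (fun p => 3 * al lm a (sig (2 ^ (a - 2)) p)) 0)
    (hn : ∀ p < 2 ^ a, ‖Z (k0 + sig (2 ^ (a - 2)) p)‖ ≤ 16 ∧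
      ‖Λ (k0 + sig (2 ^ (a - 2)) p) / (2 * π * Kc)‖ ≤ 0.125 ∧ ‖A (k0 + sig (2 ^ (a - 2)) p)‖ ≤ 64)
    (b1 : δz ≤ 6e-4) (b2 : δl ≤ 2e-5) (b3 : δa ≤ 1) :
    ∃ (b : Bool) (rx ry v u : ℕ), core (ow 48 (2 ^ a)) zx zy lx ly ax ay tl t3 = T5.mk b rx ry v u ∧
    (b = true → ∃ fx fy fv fu : ℕ → ℕ, rx = pw 48 (2 ^ a) fx ∧ ry = pw 48 (2 ^ a) fy ∧
    v = pw 48 (2 ^ a) fv ∧ u = pw 48 (2 ^ a) fu ∧ ∀ p < 2 ^ a,
    fx p < 2 ^ 47 ∧ fy p < 2 ^ 47 ∧ fv p < 2 ^ 47 ∧ fu p < 2 ^ 47 ∧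
    ‖cz (fx p) (fy p) / 2 ^ 36 - ee (al lm a (sig (2 ^ (a - 2)) p)) *
      (Complex.exp (Λ (k0 + sig (2 ^ (a - 2)) p)) / Z (k0 + sig (2 ^ (a - 2)) p) ^ 2 -
        A (k0 + sig (2 ^ (a - 2)) p))‖ ≤
      δa + 1e-9 + (17.5 * δl + 5e-6) * (fv p / 2 ^ 36) + (0.69 * δz + 1e-6) * (fu p / 2 ^ 36)) :=
  hC (2 ^ a) zx zy lx ly ax ay tl t3 (fun p => Z (k0 + sig (2 ^ (a - 2)) p))
    (fun p => Λ (k0 + sig (2 ^ (a - 2)) p)) (fun p => A (k0 + sig (2 ^ (a - 2)) p))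
    (fun p => al lm a (sig (2 ^ (a - 2)) p)) δz δl δa vz vl va a1 a3 hn b1 b2 b3

lemma addV {lm a k0 x y x' y' : ℕ} {M D Z : ℕ → ℂ} {e e' η : ℝ} (h : VB lm a k0 x y M e)
    (h' : VB lm a k0 x' y' D e') (hn : ∀ p < 2 ^ a, ‖M (k0 + sig (2 ^ (a - 2)) p)‖ + e +
      ‖D (k0 + sig (2 ^ (a - 2)) p)‖ + e' ≤ 2 ^ 10) (hz : ∀ k, ‖M k + D k - Z k‖ ≤ η) :
    VB lm a k0 (x + x' - Nat.shiftLeft (ow 48 (2 ^ a)) 46) (y + y' - Nat.shiftLeft (ow 48 (2 ^ a)) 46)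
      Z (e + e' + η) := by
  have nz : ∀ (α : ℝ) (z : ℂ), ‖2 ^ 36 * ee α * z‖ = 2 ^ 36 * ‖z‖ := fun α z => by
    rw [norm_mul, norm_mul, norm_ee, mul_one, norm_pow, Complex.norm_ofNat]
  refine (VN.add h h' fun p hp => ?_).mono fun p _ => ?_
  · rw [nz, nz]
    linarith [hn p hp]
  · rw [← mul_add (2 ^ 36 * ee _), ← mul_sub, nz]
    linarith [hz (k0 + sig (2 ^ (a - 2)) p)]

end Blk2

open Blk2 in
theorem blkOk2 (hM : StSrcM) (hA : StSrcA) (hL : StSrcL) (h1 : StChn1) (h3 : StChn3) (hPw : StPow)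
    (hC : StCore) (hDT : StDT) (hF : StAfe 24) : StBlk := by
  rintro ⟨r1, r2, r3, r4, r5⟩ lm a k0 du dx dy U T δ hP hU ⟨cm, c1, c2, c3, cl, hT, g0, g1, g2, g3, g4⟩
    hδ hV
  obtain ⟨l5, l18, a2, al2, adu, du16, hk2⟩ := id hP
  have sM := hM r1
  have sA := hA r2 r3
  obtain ⟨Λ, hΛ, sL⟩ := hL r4 r5
  obtain ⟨mx, my, e0, v0⟩ := h1 lm a k0 du 13 _ mM cm _ _ hP (by norm_num) (by norm_num)
    (by norm_num [mM]) g0 sM
  obtain ⟨ax, ay, e1, v1⟩ := h3 lm a k0 du _ mA c1 c2 c3 _ _ hP (by norm_num [mA]) g1 g2 g3 sA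
  obtain ⟨lx, ly, e2, v2⟩ := h1 lm a k0 du 9 _ mL cl _ _ hP (by norm_num) (by norm_num)
    (by norm_num [mL]) g4 sL
  have nM := fun k hk => norm_le sM (k := k) hk
  have nA := fun k hk => norm_le sA (k := k) hk
  have nL := fun k hk => norm_le sL (k := k) hk
  clear r1 r2 r3 r4 r5 g0 g1 g2 g3 g4 sM sA sL hM hA hL
  obtain ⟨f, hf, hf'⟩ := (hPw a du a2 adu du16).2
  have u1 : U.u1 = mkU 1 du := by rw [hU]; rfl
  have u2 : U.u2 = mkU 2 du := by rw [hU]; rfl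
  have hB := four_mul_p2 a2
  have sa : ∀ p < 2 ^ a, sig (2 ^ (a - 2)) p < 2 ^ a := fun p hp => by
    rw [← hB] at hp ⊢
    exact sig_lt hp
  have kk : ∀ p < 2 ^ a, k0 + sig (2 ^ (a - 2)) p < 2 ^ 23 := fun p hp => by
    have := sa p hp
    omega
  have hq : ∀ j < 2 ^ a, ((f j * 2 ^ (41 - lm) : ℕ) : ℝ) = al lm a j * 2 ^ 44 := fun j hj => by
    have : (2 : ℝ) ^ 41 = 2 ^ (41 - lm) * 2 ^ lm := by rw [← pow_add]; congr 1; omega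
    rw [Nat.cast_mul, hf' j hj, al, show (2 : ℝ) ^ 44 = 8 * 2 ^ 41 by norm_num, this]
    push_cast
    field_simp
    ring
  have hq' : ∀ j < 2 ^ a, f j * 2 ^ (41 - lm) ≤ 2 ^ 80 := fun j hj => by
    have b1 : (2 : ℝ) ^ a ≤ 2 ^ 16 := pow_le_pow_right₀ one_le_two (adu.trans du16)
    have b2 : (2 : ℝ) ^ (a - 1) ≤ 2 ^ 16 := pow_le_pow_right₀ one_le_two (by omega)
    have b3 : (j : ℝ) ≤ 2 ^ a := by exact_mod_cast hj.le
    have b4 : (0 : ℝ) ≤ j := Nat.cast_nonneg _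
    have b5 : (0 : ℝ) ≤ 2 ^ (a - 1) := by positivity
    have b6 : (f j : ℝ) ≤ 2 ^ 36 := by rw [hf' j hj]; nlinarith
    have b7 : f j ≤ 2 ^ 36 := by exact_mod_cast b6
    exact (Nat.mul_le_mul b7 (Nat.pow_le_pow_right two_pos (by omega : 41 - lm ≤ 44))).trans
      (by norm_num)
  have A1 : AN (2 ^ a) (angW (2 ^ (a - 2)) (Nat.shiftLeft (oW (2 ^ (a - 2))) 90 -
      pw 192 (2 ^ a) fun j => f j * 2 ^ (41 - lm)) 0)
      (fun p => -al lm a (sig (2 ^ (a - 2)) p)) 0 := by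
    rw [oW_eq, hB, ow_shl (by norm_num), pw_sub fun j hj => (hq' j hj).trans (by norm_num)]
    have := (angW_pw (n := 2 ^ (a - 2)) (s := 0) (f := fun j => 2 ^ 90 - f j * 2 ^ (41 - lm))
      (fun j _ => by omega) (by norm_num)).2 rfl
    rw [hB] at this
    have := this.congr (θ' := fun p => -al lm a (sig (2 ^ (a - 2)) p)) (e' := 0) fun p hp =>
      ⟨2 ^ 46, by
        rw [Nat.cast_sub ((hq' _ (sa p hp)).trans (by norm_num)), hq _ (sa p hp), abs_nonpos_iff]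
        push_cast
        ring⟩
    rwa [add_zero] at this
  have A3 : AN (2 ^ a) (angW (2 ^ (a - 2)) ((pw 192 (2 ^ a) fun j => f j * 2 ^ (41 - lm)) * 3) 0)
      (fun p => 3 * al lm a (sig (2 ^ (a - 2)) p)) 0 := by
    rw [pw_mul]
    have := (angW_pw (n := 2 ^ (a - 2)) (s := 0) (f := fun j => f j * 2 ^ (41 - lm) * 3)
      (fun j hj => by have := hq' j (hB ▸ hj); omega) (by norm_num)).2 rfl
    rw [hB] at this
    have := this.congr (θ' := fun p => 3 * al lm a (sig (2 ^ (a - 2)) p)) (e' := 0) fun p hp =>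
      ⟨0, by
        rw [Nat.cast_mul, hq _ (sa p hp), abs_nonpos_iff]
        push_cast
        ring⟩
    rwa [add_zero] at this
  have δ' : (δ : ℝ) ≤ 5e-4 := by
    have : (δ : ℝ) ≤ ((5e-4 : ℚ) : ℝ) := Rat.cast_le.2 hδ
    exact this.trans (by norm_num)
  obtain ⟨-, q0⟩ := eCh_le (n := 2 ^ 13) (m := mM) (a := a) l18
  obtain ⟨-, q1⟩ := eCh_le (n := 11264) (m := mA) (a := a) l18
  obtain ⟨-, q2⟩ := eCh_le (n := 2 ^ 9) (m := mL) (a := a) l18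
  have m0 : (mM : ℝ) = 2300000000000 := by norm_num [mM]
  have m1 : (mA : ℝ) = 4900000000000 := by norm_num [mA]
  have m2 : (mL : ℝ) = 50000000000 := by norm_num [mL]
  replace nM := fun p hp => nM _ (kk p hp)
  replace nA := fun p hp => nA _ (kk p hp)
  replace nL := fun p hp => nL _ (kk p hp)
  have nD := fun p hp => hDT.2.1 _ (kk p hp)
  rw [m0] at q0 nM
  rw [m1] at q1 nA
  rw [m2] at q2 nL
  push_cast at q0 q1 q2
  have vz := addV v0 hV (fun p hp => by linarith [nM p hp, nD p hp]) (afe9 hF)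
  obtain ⟨b, rx, ry, v, u, e3, e4⟩ := coreV hC vz v2 v1 A1 A3
    (fun p hp => ⟨by
      have := afe9 hF (k0 + sig (2 ^ (a - 2)) p)
      have := norm_le_insert (mainT (k0 + sig (2 ^ (a - 2)) p) + dualT (k0 + sig (2 ^ (a - 2)) p))
        (zT (k0 + sig (2 ^ (a - 2)) p))
      have := norm_add_le (mainT (k0 + sig (2 ^ (a - 2)) p)) (dualT (k0 + sig (2 ^ (a - 2)) p))
      linarith [nM p hp, nD p hp], by linarith [nL p hp], by linarith [nA p hp]⟩)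
    (by linarith) (by linarith) (by linarith)
  refine ⟨b, rx, ry, v, u, ?_, fun hb => ?_⟩
  · rw [hT, blk_eq rfl (by rw [u1, u2, hf, pw_shl]) e0 e1 e2, oN_eq, hB]
    exact e3
  · obtain ⟨fx, fy, fv, fu, i1, i2, i3, i4, i5⟩ := e4 hb
    refine ⟨fx, fy, fv, fu, i1, i2, i3, i4, fun p hp => ?_⟩
    obtain ⟨j1, j2, j3, j4, j5⟩ := i5 p hp
    refine ⟨j1, j2, j3, j4, ?_⟩
    rw [hΛ]
    refine j5.trans ?_
    unfold NE.e0 NE.e1 NE.e2 eA eL eZ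
    rw [show eCh (2 ^ 13) = eCh 8192 from rfl, show eCh (2 ^ 9) = eCh 512 from rfl]
    have : (0 : ℝ) ≤ fu p / 2 ^ 36 := by positivity
    push_cast
    linarith

end Pool.Agent.Lib.MP_5db4ad_nt.NE
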