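import Pool.Agent.Lib.MP_5db4ad_nt.H96NLaneB

/-!
From vectors of sources to the values on a block of frequencies.
-/

namespace Pool.Agent.Lib.MP_5db4ad_nt.NE

open S2 Finset

namespace NChn

lemma ci_add (a b c d : ℤ) : ci (a + b) (c + d) = ci a c + ci b d := by
  apply Complex.ext <;> simp [ci]

/-- grids add -/
lemma grid_add {lm G G0 G' G0' J : ℕ} {F F' : ℤ → ℂ} {μ μ' e e' : ℝ}
    (h : Grid lm G G0 J F μ e) (h' : Grid lm G' G0' J F' μ' e') :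
    Grid lm (G + G') (G0 + G0') J (fun j => F j + F' j) (μ + μ') (e + e') := by
  obtain ⟨u, v, w, h1, h2, h3, h4⟩ := h
  obtain ⟨u', v', w', h1', h2', h3', h4'⟩ := h'
  have hci : ∀ i, ci (u i + u' i - (w i + w' i)) (v i + v' i) =
      ci (u i - w i) (v i) + ci (u' i - w' i) (v' i) := by
    intro i
    rw [← ci_add]
    congr 1
    ring
  refine ⟨fun i => u i + u' i, fun i => v i + v' i, fun i => w i + w' i, ?_, ?_, ?_, ?_⟩
  · have e1 : ((G + G' : ℕ) : ℤ) - ((G0 + G0' : ℕ) : ℤ) = ((G : ℤ) - G0) + ((G' : ℤ) - G0') := by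
      push_cast
      ring
    rw [e1, h1, h1', iw_add]
    exact iw_congr fun j _ => by ring
  · intro i hi
    obtain ⟨a1, a2, a3⟩ := h2 i hi
    obtain ⟨b1, b2, b3⟩ := h2' i hi
    push_cast
    refine ⟨?_, ?_, ?_⟩
    · have := abs_add_le (u i : ℝ) (u' i)
      linarith
    · have := abs_add_le (v i : ℝ) (v' i)
      linarith
    · have := abs_add_le (w i : ℝ) (w' i)
      linarith
  · calc ∑ i ∈ range (gN lm), ‖ci (u i + u' i - (w i + w' i)) (v i + v' i)‖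
        ≤ ∑ i ∈ range (gN lm), (‖ci (u i - w i) (v i)‖ + ‖ci (u' i - w' i) (v' i)‖) := by
          refine sum_le_sum fun i _ => ?_
          rw [hci]
          exact norm_add_le _ _
      _ ≤ (μ + μ') * 2 ^ 58 := by
          rw [sum_add_distrib]
          linarith
  · intro j hj
    have a := h4 j hj
    have b := h4' j hj
    refine le_trans (le_of_eq ?_) ((norm_add_le _ _).trans (add_le_add a b))
    congr 1
    simp only [hci, add_div, add_mul, sum_add_distrib]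
    ring

lemma lane_lt {A g m : ℕ} (hA : A < 2 ^ 48) (hg : g < 2 ^ 72) (hm : m < 2 ^ 64) :
    A + g * 2 ^ 48 + m * 2 ^ 128 < 2 ^ 192 := by
  omega

lemma lane_low {A g m : ℕ} (hA : A < 2 ^ 48) :
    (A + g * 2 ^ 48 + m * 2 ^ 128) / 2 ^ 0 % 2 ^ 48 = A := by
  omega

/-- the narrow weights of a vector of sources -/
lemma wt_src {d v : ℕ} {A g m : ℕ → ℕ} (hd : 2 ≤ d) (h : Src (2 ^ d) v A g m) :
    wtN d v 0 = pw 48 (2 ^ d) fun p => A (sig (2 ^ (d - 2)) p) := by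
  obtain ⟨hv, hp⟩ := h
  rw [hv, wtN_pw hd (fun j hj => lane_lt (hp j hj).1 (hp j hj).2.1 (hp j hj).2.2.2.1) (by norm_num)]
  refine pw_congr fun p hp' => lane_low (hp _ ?_).1
  have := sig_lt (n := 2 ^ (d - 2)) (p := p) (by rwa [four_mul_p2 hd])
  rwa [four_mul_p2 hd] at this

/-- a slice of a vector of sources -/
lemma src_slc {n v s d : ℕ} {A g m : ℕ → ℕ} (h : Src n v A g m) (hs : s + 2 ^ d ≤ n) :
    Src (2 ^ d) (slc v s d) (fun p => A (s + p)) (fun p => g (s + p)) fun p => m (s + p) := by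
  obtain ⟨hv, hp⟩ := h
  have h0 := Nat.two_pow_pos d
  obtain ⟨r, rfl⟩ : ∃ r, n = s + r := ⟨n - s, by omega⟩
  have hl : ∀ j < s + r, A j + g j * 2 ^ 48 + m j * 2 ^ 128 < 2 ^ 192 := fun j hj =>
    lane_lt (hp j hj).1 (hp j hj).2.1 (hp j hj).2.2.2.1
  refine ⟨?_, fun p hp' => ?_⟩
  · have e1 : slc v s d = cut (Nat.shiftRight v (192 * s)) (192 * 2 ^ d) := by
      have : Nat.shiftLeft (nat_lit 192) d = 192 * 2 ^ d := Nat.shiftLeft_eq _ _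
      unfold slc
      rw [this]
      rfl
    rw [e1, hv, shr_pw fun j hj => hl j (by omega),
      cut_pw (fun j hj => hl (s + j) (by omega)) (by omega)]
  · obtain ⟨a1, a2, a3, a4, a5⟩ := hp (s + p) (by omega)
    exact ⟨a1, a2, a3, a4, fun hq => a5 (by omega)⟩

lemma raw_add (n r : ℕ) (A g : ℕ → ℕ) (κ : ℝ) :
    raw (n + r) A g κ = raw n A g κ + raw r (fun p => A (n + p)) (fun p => g (n + p)) κ := by
  unfold raw
  rw [sum_range_add, mul_add]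

lemma kc2_eq (a k0 : ℕ) : kc2 a k0 = 2 * k0 + 2 ^ a + 1 := by
  have : kc2 a k0 = k0 + k0 + p2 a + 1 := rfl
  rw [this, p2_eq]
  ring

lemma grdC_eq (lm c d v E G0 : ℕ) :
    grdC lm c (Ch.mk d v E G0) = T2.mk (grd lm d v E (wtN d v 0) c) G0 := by
  have : grdC lm c (Ch.mk d v E G0) = fz (grd lm d v E (wtN d v 0) c) fun G => T2.mk G G0 := rfl
  rw [this, fz_eq]

/-- total weight of a grid -/
noncomputable def mu (n s : ℝ) : ℝ := 4.56 * s / 2 ^ 40 + n * 3.9e-10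

/-- error of a grid -/
noncomputable def er (lm a : ℕ) (n s : ℝ) : ℝ :=
  s / 2 ^ 40 * (1.13e-6 + 1.18e-6 * (1 / 2 ^ (14 * (lm - 2 - a)))) + n * 3.9e-10

lemma ratio {lm a : ℕ} (ha : 2 ≤ a) (h : a + 2 ≤ lm) :
    ((8 : ℝ) * ((2 ^ (a - 1) : ℕ) : ℝ) / 2 ^ lm) ^ 14 = 1 / 2 ^ (14 * (lm - 2 - a)) := by
  obtain ⟨b, rfl⟩ : ∃ b, a = b + 1 := ⟨a - 1, by omega⟩
  obtain ⟨c, rfl⟩ : ∃ c, lm = b + 1 + 2 + c := ⟨lm - (b + 3), by omega⟩
  have e1 : b + 1 + 2 + c - 2 - (b + 1) = c := by omega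
  have e2 : ((8 : ℝ) * ((2 ^ (b + 1 - 1) : ℕ) : ℝ) / 2 ^ (b + 1 + 2 + c)) = 1 / 2 ^ c := by
    rw [Nat.add_sub_cancel]
    push_cast
    field_simp
    ring
  rw [e1, e2, div_pow, one_pow, ← pow_mul, mul_comm]

/-- the grid of one chunk -/
lemma grid_src (hE : StE) (hG : StGrd) {lm a k0 du d v : ℕ} {ch : Ch} {A g m : ℕ → ℕ}
    (hP : Par lm a k0 du) (hd : 2 ≤ d) (hd' : d ≤ 14) (hc : ChOK lm d v ch)
    (hS : Src (2 ^ d) v A g m) (hA : ∀ p < 2 ^ d, |sv (A p)| ≤ 2 ^ 39) :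
    ∃ G G0, grdC lm (kc2 a k0) ch = T2.mk G G0 ∧
      Grid lm G G0 (2 ^ (a - 1)) (fun j => raw (2 ^ d) A g ((kc2 a k0 : ℝ) / 2 + j))
        (mu (2 ^ d) (∑ p ∈ range (2 ^ d), |sv (A p)|))
        (er lm a (2 ^ d) (∑ p ∈ range (2 ^ d), |sv (A p)|)) := by
  obtain ⟨h1, h2, h3, h4, -, -, h7⟩ := hP
  have hJ : 8 * 2 ^ (a - 1) ≤ 2 ^ lm := by
    calc 8 * 2 ^ (a - 1) = 2 ^ (a - 1 + 3) := by ring
      _ ≤ 2 ^ lm := Nat.pow_le_pow_right (by norm_num) (by omega)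
  have hk : kc2 a k0 < 2 ^ 26 := by
    have h0 := Nat.two_pow_pos a
    rw [kc2_eq]
    omega
  have hEE := hE lm d v A g m h1 h2 hd hd' hS
  unfold ChOK at hc
  generalize mkE lm d v = E at hEE hc
  have key := hG lm d v E (kc2 a k0) (2 ^ (a - 1)) A g m A _ h1 h2 hd hd' hS hEE hk hJ hA le_rfl
  rw [ratio h3 h4, ← wt_src hd hS] at key
  exact ⟨_, _, by rw [hc, grdC_eq], key⟩

/-- from a grid to the values on the block -/
lemma of_grid (hH : StH) (hC : StChn) {lm a k0 du n mI G G0 : ℕ} {A g : ℕ → ℕ} {T : ℕ → ℂ} {δ s : ℝ}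
    (hP : Par lm a k0 du) (hn : n ≤ 2 ^ 14) (hm : mI ≤ 6 * 2 ^ 40) (hs : s ≤ mI)
    (hT : ∀ k : ℕ, k < 2 ^ 23 → ‖raw n A g (k + 1 / 2) - T k‖ ≤ δ)
    (hG : Grid lm G G0 (2 ^ (a - 1)) (fun j => raw n A g ((kc2 a k0 : ℝ) / 2 + j)) (mu n s)
      (er lm a n s)) :
    ∃ X Y, chn lm a G G0 (mkH lm) = T2.mk X Y ∧ VB lm a k0 X Y T (δ + eCh n mI lm a) := by
  obtain ⟨h1, h2, h3, h4, -, -, h7⟩ := hP
  have hn' : (n : ℝ) ≤ 2 ^ 14 := by exact_mod_cast hn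
  have hm' : (mI : ℝ) ≤ 6 * 2 ^ 40 := by exact_mod_cast hm
  have hn0 : (0 : ℝ) ≤ n := Nat.cast_nonneg n
  have hm0 : (0 : ℝ) ≤ mI := Nat.cast_nonneg mI
  have hμ : mu n s ≤ 30 := by
    unfold mu
    linarith
  have hHH := hH lm h1 h2
  generalize mkH lm = H at hHH ⊢
  obtain ⟨X, Y, e1, e2⟩ := hC lm a G G0 H _ _ _ h1 h2 h3 h4 hHH hG hμ
  refine ⟨X, Y, e1, e2.mono fun p hp => ?_⟩
  have hsig : sig (2 ^ (a - 2)) p < 2 ^ a := by
    have := sig_lt (n := 2 ^ (a - 2)) (p := p) (by rwa [four_mul_p2 h3])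
    rwa [four_mul_p2 h3] at this
  generalize sig (2 ^ (a - 2)) p = j at hsig ⊢
  have hκ : (kc2 a k0 : ℝ) / 2 + (((j : ℤ) - 2 ^ (a - 1) : ℤ) : ℝ) = ((k0 + j : ℕ) : ℝ) + 1 / 2 := by
    obtain ⟨b, rfl⟩ : ∃ b, a = b + 1 := ⟨a - 1, by omega⟩
    rw [kc2_eq, Nat.add_sub_cancel]
    push_cast
    ring
  have hb := hT (k0 + j) (by omega)
  have hnorm : ‖2 ^ 36 * ee (al lm a j) * raw n A g (((k0 + j : ℕ) : ℝ) + 1 / 2) -
      2 ^ 36 * ee (al lm a j) * T (k0 + j)‖ ≤ 2 ^ 36 * δ := by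
    rw [← mul_sub, norm_mul, norm_mul, norm_ee, mul_one, norm_pow, Complex.norm_ofNat]
    exact mul_le_mul_of_nonneg_left hb (by positivity)
  have hq : ((eCh n mI lm a : ℚ) : ℝ) = mI / 2 ^ 40 * (2.1e-6 + 1.2e-6 * (1 / 2 ^ (14 * (lm - 2 - a)))) +
      n * 4e-10 + 2 ^ lm * 4.2e-11 + 1e-9 := by
    unfold eCh
    push_cast
    ring
  have ht : (0 : ℝ) ≤ 1 / 2 ^ (14 * (lm - 2 - a)) := by positivity
  have hsum : er lm a n s + mu n s * 2.05e-7 + 2 ^ lm * 4.2e-11 + 9e-10 ≤ ((eCh n mI lm a : ℚ) : ℝ) := by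
    rw [hq]
    unfold er mu
    generalize (1 : ℝ) / 2 ^ (14 * (lm - 2 - a)) = t at ht ⊢
    have h5 : s * t ≤ mI * t := mul_le_mul_of_nonneg_right hs ht
    have h6 : 0 ≤ mI * t := mul_nonneg hm0 ht
    generalize (2 : ℝ) ^ lm = M
    linarith
  simp only [hκ]
  linarith

end NChn

open NChn

theorem chn1Ok (hE : StE) (hH : StH) (hG : StGrd) (hC : StChn) : StChn1 := by
  intro lm a k0 du d v mI ch T δ hP hd hd' hm hc hS
  obtain ⟨A, g, m, hS, hA, hs, hT⟩ := hS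
  obtain ⟨G, G0, e1, e2⟩ := grid_src hE hG hP hd hd' hc hS hA
  have e3 : chn1 lm a k0 (mkH lm) ch = chn lm a G G0 (mkH lm) := by
    unfold chn1
    rw [e1]
  rw [e3]
  refine of_grid hH hC hP (Nat.pow_le_pow_right (by norm_num) hd') hm hs hT ?_
  push_cast
  exact e2

namespace NChn

lemma three (hE : StE) (hH : StH) (hG : StGrd) (hC : StChn) {lm a k0 du v mI d1 d2 d3 s2 s3 n : ℕ}
    {c1 c2 c3 : Ch} {T : ℕ → ℂ} {δ : ℝ} (hP : Par lm a k0 du) (hm : mI ≤ 6 * 2 ^ 40)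
    (b1 : 2 ≤ d1) (b1' : d1 ≤ 14) (b2 : 2 ≤ d2) (b2' : d2 ≤ 14) (b3 : 2 ≤ d3) (b3' : d3 ≤ 14)
    (hs2 : s2 = 2 ^ d1) (hs3 : s3 = s2 + 2 ^ d2) (hn : n = s3 + 2 ^ d3) (hn' : n ≤ 2 ^ 14)
    (h1 : ChOK lm d1 (slc v 0 d1) c1) (h2 : ChOK lm d2 (slc v s2 d2) c2)
    (h3 : ChOK lm d3 (slc v s3 d3) c3) (hS : SrcOK n v mI T δ) :
    ∃ X Y, chn3 lm a k0 (mkH lm) c1 c2 c3 = T2.mk X Y ∧ VB lm a k0 X Y T (δ + eCh n mI lm a) := by
  obtain ⟨A, g, m, hS, hA, hs, hT⟩ := hS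
  have p1 := Nat.two_pow_pos d1
  have p2 := Nat.two_pow_pos d2
  have p3 := Nat.two_pow_pos d3
  obtain ⟨G1, H1, e1, g1⟩ := grid_src hE hG hP b1 b1' h1 (src_slc hS (by omega))
    fun p hp => hA _ (by omega)
  obtain ⟨G2, H2, e2, g2⟩ := grid_src hE hG hP b2 b2' h2 (src_slc hS (by omega))
    fun p hp => hA _ (by omega)
  obtain ⟨G3, H3, e3, g3⟩ := grid_src hE hG hP b3 b3' h3 (src_slc hS (by omega))
    fun p hp => hA _ (by omega)
  have e4 : chn3 lm a k0 (mkH lm) c1 c2 c3 = chn lm a (G1 + G2 + G3) (H1 + H2 + H3) (mkH lm) := by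
    unfold chn3
    rw [e1, e2, e3]
    rfl
  rw [e4]
  refine of_grid hH hC hP hn' hm hs hT ?_
  have key := grid_add (grid_add g1 g2) g3
  have hF : (fun j : ℤ => raw n A g ((kc2 a k0 : ℝ) / 2 + j)) = fun j : ℤ =>
      raw (2 ^ d1) (fun p => A (0 + p)) (fun p => g (0 + p)) ((kc2 a k0 : ℝ) / 2 + j) +
      raw (2 ^ d2) (fun p => A (s2 + p)) (fun p => g (s2 + p)) ((kc2 a k0 : ℝ) / 2 + j) +
      raw (2 ^ d3) (fun p => A (s3 + p)) (fun p => g (s3 + p)) ((kc2 a k0 : ℝ) / 2 + j) := by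
    funext j
    rw [hn, raw_add, hs3, raw_add, hs2]
    simp only [Nat.zero_add]
  have hsum : ∑ p ∈ range n, |sv (A p)| = ∑ p ∈ range (2 ^ d1), |sv (A (0 + p))| +
      ∑ p ∈ range (2 ^ d2), |sv (A (s2 + p))| + ∑ p ∈ range (2 ^ d3), |sv (A (s3 + p))| := by
    rw [hn, sum_range_add, hs3, sum_range_add, hs2]
    simp only [Nat.zero_add]
  have hc : (n : ℝ) = 2 ^ d1 + 2 ^ d2 + 2 ^ d3 := by
    rw [hn, hs3, hs2]
    push_cast
    ring
  have hμ : ∀ x y z : ℝ, mu n (x + y + z) = mu (2 ^ d1) x + mu (2 ^ d2) y + mu (2 ^ d3) z := by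
    intro x y z
    unfold mu
    rw [hc]
    ring
  have he : ∀ x y z : ℝ, er lm a n (x + y + z) =
      er lm a (2 ^ d1) x + er lm a (2 ^ d2) y + er lm a (2 ^ d3) z := by
    intro x y z
    unfold er
    rw [hc]
    ring
  rw [hF, hsum, hμ, he]
  exact key

end NChn

theorem chn3Ok (hE : StE) (hH : StH) (hG : StGrd) (hC : StChn) : StChn3 := by
  intro lm a k0 du v mI c1 c2 c3 T δ hP hm h1 h2 h3 hS
  exact three hE hH hG hC hP hm (by norm_num) (by norm_num) (by norm_num) (by norm_num)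
    (by norm_num) (by norm_num) (by norm_num) (by norm_num) (by norm_num) (by norm_num) h1 h2 h3 hS

end Pool.Agent.Lib.MP_5db4ad_nt.NE
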