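import Pool.Agent.Lib.MP_5db4ad_nt.H96NLaneC

/-!
Correctness of the rotation programs `cord` and `rot`.
-/

namespace Pool.Agent.Lib.MP_5db4ad_nt.NE

open S2 Finset
open scoped Real

noncomputable section

namespace Cord

/-- the gain after `n` steps -/
def K (n : ℕ) : ℝ := ∏ b ∈ range n, √(1 + 1 / 4 ^ b)

/-- the sum of the first `n` angles -/
def Sa (n : ℕ) : ℝ := ∑ b ∈ range n, (ta b : ℝ)

/-- the bound of the remaining angle before step `b` -/
def cb (b : ℕ) : ℝ := if b = 0 then 2 ^ 42 else ta (b - 1)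

lemma lt_sv {a : ℕ} (h : |sv a| < 2 ^ 46) : 0 < a ∧ a < 2 ^ 47 := by
  obtain ⟨h1, h2⟩ := abs_lt.1 h
  unfold sv at h1 h2
  have h3 : (0 : ℝ) < a := by linarith
  have h4 : (a : ℝ) < 2 ^ 47 := by linarith
  exact ⟨by exact_mod_cast h3, by exact_mod_cast h4⟩

lemma sv_le (a b : ℕ) : |sv a| ≤ ‖cz a b‖ ∧ |sv b| ≤ ‖cz a b‖ :=
  ⟨Complex.abs_re_le_norm (cz a b), Complex.abs_im_le_norm (cz a b)⟩

lemma one_le_r (b : ℕ) : (1 : ℝ) ≤ √(1 + 1 / 4 ^ b) := by
  rw [Real.one_le_sqrt]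
  have : (0 : ℝ) ≤ 1 / 4 ^ b := by positivity
  linarith

lemma K_succ (b : ℕ) : K (b + 1) = K b * √(1 + 1 / 4 ^ b) := by
  unfold K; rw [prod_range_succ]

lemma one_le_K (b : ℕ) : 1 ≤ K b := by
  induction b with
  | zero => simp [K]
  | succ b ih => rw [K_succ]; nlinarith [one_le_r b]

lemma K_mono : Monotone K := by
  refine monotone_nat_of_le_succ fun b => ?_
  rw [K_succ]; nlinarith [one_le_r b, one_le_K b]

lemma K_le (hT : StTab) {b : ℕ} (hb : b ≤ 32) : K b ≤ 1.6468 := by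
  have h1 := hT.2.2.2.2.1 32 (by norm_num) le_rfl
  have h2 := K_mono hb
  have h3 : K 32 - Kc ≤ 2e-12 := (abs_le.1 h1).2
  unfold Kc at h3
  linarith

lemma sum_ta : ∑ b ∈ range 32, ta b ≤ 3 * 2 ^ 42 := by decide +kernel

lemma Sa_le {b : ℕ} (hb : b ≤ 32) : Sa b ≤ 3 * 2 ^ 42 := by
  have h1 : ∑ i ∈ range b, ta i ≤ ∑ i ∈ range 32, ta i :=
    sum_le_sum_of_subset (range_subset_range.2 hb)
  have h2 : ∑ i ∈ range b, ta i ≤ 3 * 2 ^ 42 := h1.trans sum_ta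
  unfold Sa
  exact_mod_cast h2

lemma cb_le (hT : StTab) {b : ℕ} (hb : b ≤ 31) : cb b ≤ 2 * ta b := by
  unfold cb
  split_ifs with h
  · subst h
    rw [hT.2.1]; norm_num
  · obtain ⟨c, rfl⟩ : ∃ c, b = c + 1 := ⟨b - 1, by omega⟩
    have := (hT.2.2.1 c (by omega)).1
    simp only [Nat.add_sub_cancel]
    exact_mod_cast this

lemma ee_eq (θ : ℝ) : ee θ = ⟨Real.cos (2 * π * θ), Real.sin (2 * π * θ)⟩ := by
  unfold ee
  apply Complex.ext
  · rw [Complex.exp_ofReal_mul_I_re]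
  · rw [Complex.exp_ofReal_mul_I_im]

lemma polar (x τ : ℝ) (hτ : τ = 1 ∨ τ = -1) :
    (⟨1, τ * x⟩ : ℂ) = (√(1 + x ^ 2) : ℝ) * ee (τ * (Real.arctan x / (2 * π))) := by
  have hp : (0 : ℝ) < √(1 + x ^ 2) := Real.sqrt_pos.2 (by positivity)
  have e : 2 * π * (τ * (Real.arctan x / (2 * π))) = τ * Real.arctan x := by
    field_simp
  rw [ee_eq, e]
  rcases hτ with rfl | rfl
  · apply Complex.ext
    · simp only [one_mul, Complex.re_ofReal_mul, Real.cos_arctan]; field_simp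
    · simp only [one_mul, Complex.im_ofReal_mul, Real.sin_arctan]; field_simp
  · apply Complex.ext
    · simp only [neg_mul, one_mul, Complex.re_ofReal_mul, Real.cos_neg, Real.cos_arctan]
      field_simp
    · simp only [neg_mul, one_mul, Complex.im_ofReal_mul, Real.sin_neg, Real.sin_arctan]
      field_simp

lemma norm_small {a b : ℝ} (ha : |a| ≤ 1) (hb : |b| ≤ 1) : ‖(⟨a, b⟩ : ℂ)‖ ≤ 1.4143 := by
  rw [Complex.norm_eq_sqrt_sq_add_sq]
  apply Real.sqrt_le_iff.2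
  refine ⟨by norm_num, ?_⟩
  have h1 : a ^ 2 ≤ 1 := by rw [← sq_abs]; nlinarith [abs_nonneg a]
  have h2 : b ^ 2 ≤ 1 := by rw [← sq_abs]; nlinarith [abs_nonneg b]
  show a ^ 2 + b ^ 2 ≤ _
  nlinarith

/-- one step of the error bound -/
lemma cstep (z W err : ℂ) (k r α β h E δ : ℝ) (hr : 0 ≤ r) (hk : 0 ≤ k)
    (hE : ‖z * ee h - k * W‖ ≤ E) (hδ : |α - β| ≤ δ) (herr : ‖err‖ ≤ 1.4143) :
    ‖(z * (r * ee α) + err) * ee (h - β) - ((k * r : ℝ) : ℂ) * W‖ ≤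
      r * E + k * r * ‖W‖ * (2 * π * δ) + 1.4143 := by
  have e1 : ee α * ee (h - β) = ee h * ee (α - β) := by
    rw [← ee_add, ← ee_add]; congr 1; ring
  have e0 : ee 0 = 1 := by simpa using ee_int 0
  have e2 : (z * (r * ee α) + err) * ee (h - β) - ((k * r : ℝ) : ℂ) * W =
      r * ee (α - β) * (z * ee h - k * W) + ((k * r : ℝ) : ℂ) * W * (ee (α - β) - ee 0) +
        err * ee (h - β) := by
    rw [e0]; push_cast
    linear_combination (z * r) * e1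
  have h3 : ‖ee (α - β) - ee 0‖ ≤ 2 * π * δ := by
    have := norm_ee_sub (α - β) 0 0
    simp only [sub_zero, Int.cast_zero] at this
    have hp := Real.pi_pos
    nlinarith
  rw [e2]
  refine (norm_add_le _ _).trans ?_
  refine (add_le_add_left (norm_add_le _ _) _).trans ?_
  have hkr : 0 ≤ k * r := mul_nonneg hk hr
  simp only [norm_mul, norm_ee, Complex.norm_real, Real.norm_eq_abs, abs_of_nonneg hr,
    abs_of_nonneg hk, mul_one]
  have h4 : k * r * ‖W‖ * ‖ee (α - β) - ee 0‖ ≤ k * r * ‖W‖ * (2 * π * δ) :=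
    mul_le_mul_of_nonneg_left h3 (by positivity)
  have h5 : r * ‖z * ee h - k * W‖ ≤ r * E := mul_le_mul_of_nonneg_left hE hr
  linarith

/-- the shifted lane, complemented where the digit is one -/
def ux (σ b a : ℕ) : ℕ :=
  if σ = 1 then 2 ^ (47 - b) - 1 - a / 2 ^ b % 2 ^ (47 - b) else a / 2 ^ b % 2 ^ (47 - b)

lemma ux_real {σ b a : ℕ} (hσ : σ ≤ 1) (hb : b ≤ 46) (ha : a < 2 ^ 47) :
    ∃ ε : ℝ, -1 ≤ ε ∧ ε ≤ 0 ∧
      (ux σ b a : ℝ) = 2 ^ (46 - b) + (1 - 2 * σ) * (1 / 2 ^ b) * sv a + ε := by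
  have hp : 2 ^ b * 2 ^ (47 - b) = 2 ^ 47 := by rw [← pow_add]; congr 1; omega
  have hq : a / 2 ^ b < 2 ^ (47 - b) := by
    rw [Nat.div_lt_iff_lt_mul (by positivity), mul_comm, hp]; exact ha
  have hd : (a : ℝ) = 2 ^ b * (a / 2 ^ b : ℕ) + (a % 2 ^ b : ℕ) := by
    exact_mod_cast (Nat.div_add_mod a (2 ^ b)).symm
  have hm : ((a % 2 ^ b : ℕ) : ℝ) < 2 ^ b := by exact_mod_cast Nat.mod_lt a (by positivity)
  have hm0 : (0 : ℝ) ≤ (a % 2 ^ b : ℕ) := by positivity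
  have hpos : (0 : ℝ) < 2 ^ b := by positivity
  have h46 : (2 : ℝ) ^ 46 = 2 ^ b * 2 ^ (46 - b) := by rw [← pow_add]; congr 1; omega
  have h47 : (2 : ℝ) ^ (47 - b) = 2 * 2 ^ (46 - b) := by
    rw [← pow_succ']; congr 1; omega
  have hf1 : ((a % 2 ^ b : ℕ) : ℝ) / 2 ^ b ≤ 1 := by rw [div_le_one hpos]; exact hm.le
  have hf0 : (0 : ℝ) ≤ ((a % 2 ^ b : ℕ) : ℝ) / 2 ^ b := by positivity
  have key : 1 / 2 ^ b * sv a =
      (a / 2 ^ b : ℕ) + ((a % 2 ^ b : ℕ) : ℝ) / 2 ^ b - 2 ^ (46 - b) := by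
    unfold sv
    generalize ((a / 2 ^ b : ℕ) : ℝ) = q at *
    generalize ((a % 2 ^ b : ℕ) : ℝ) = m at *
    rw [hd, h46]; field_simp
  unfold ux
  rw [Nat.mod_eq_of_lt hq]
  split_ifs with h
  · subst h
    refine ⟨((a % 2 ^ b : ℕ) : ℝ) / 2 ^ b - 1, by linarith, by linarith, ?_⟩
    rw [Nat.cast_sub (by omega), Nat.cast_sub (Nat.one_le_two_pow), mul_assoc, key]
    push_cast
    rw [h47]; ring
  · have : σ = 0 := by omega
    subst this
    refine ⟨-(((a % 2 ^ b : ℕ) : ℝ) / 2 ^ b), by linarith, by linarith, ?_⟩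
    rw [mul_assoc, key]
    push_cast
    ring

/-- the state of a lane after the quarter turn and `b` steps -/
def Inv (md : Bool) (W : ℂ) (H : ℝ) (b x y t : ℕ) : Prop :=
  ‖cz x y * ee (sv t / 2 ^ 44) - (K b : ℝ) * W‖ ≤
      K b * (1.4143 * (b + 1) + ‖W‖ * (6.2832 * b / 2 ^ 44)) ∧
    |sv t| ≤ H + 2 ^ 42 + Sa b ∧ (md = false → H ≤ 2 ^ 43 → |sv t| ≤ cb b)

lemma inv_norm (hT : StTab) {md : Bool} {W : ℂ} {H : ℝ} {b x y t : ℕ} (hb : b < 31)
    (hW : ‖W‖ ≤ 2 ^ 45) (hI : Inv md W H b x y t) :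
    ‖cz x y‖ * √(1 + 1 / 4 ^ b) ≤ 2 ^ 46 - 2 := by
  have h1 := hI.1
  have hK := one_le_K b
  have hr := one_le_r b
  have hK1 : K b * √(1 + 1 / 4 ^ b) ≤ 1.6468 := by rw [← K_succ]; exact K_le hT (by omega)
  have h2 : ‖cz x y‖ ≤ ‖cz x y * ee (sv t / 2 ^ 44) - (K b : ℝ) * W‖ + K b * ‖W‖ := by
    have := norm_add_le (cz x y * ee (sv t / 2 ^ 44) - (K b : ℝ) * W) ((K b : ℝ) * W)
    rw [sub_add_cancel, norm_mul, norm_ee, mul_one, norm_mul, Complex.norm_real,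
      Real.norm_eq_abs, abs_of_nonneg (by linarith)] at this
    exact this
  have hb' : (b : ℝ) ≤ 30 := by exact_mod_cast (by omega : b ≤ 30)
  have hb0 : (0 : ℝ) ≤ b := by positivity
  have h3 : ‖W‖ * (6.2832 * b / 2 ^ 44) ≤ 2 ^ 45 * (6.2832 * 30 / 2 ^ 44) := by
    gcongr
  have h4 : ‖cz x y‖ ≤ K b * (2 ^ 45 + 500) := by
    have : 1.4143 * (b + 1) + ‖W‖ * (6.2832 * b / 2 ^ 44) + ‖W‖ ≤ (2 : ℝ) ^ 45 + 500 := by
      norm_num at h3 hW ⊢
      linarith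
    nlinarith
  calc ‖cz x y‖ * √(1 + 1 / 4 ^ b) ≤ K b * (2 ^ 45 + 500) * √(1 + 1 / 4 ^ b) := by gcongr
    _ = K b * √(1 + 1 / 4 ^ b) * (2 ^ 45 + 500) := by ring
    _ ≤ 1.6468 * (2 ^ 45 + 500) := by gcongr
    _ ≤ 2 ^ 46 - 2 := by norm_num

lemma inv_lt (hT : StTab) {md : Bool} {W : ℂ} {H : ℝ} {b x y t : ℕ} (hb : b < 31)
    (hW : ‖W‖ ≤ 2 ^ 45) (hH : H ≤ 2 ^ 45) (hI : Inv md W H b x y t) :
    x < 2 ^ 47 ∧ y < 2 ^ 47 ∧ t < 2 ^ 47 := by
  have h1 := inv_norm hT hb hW hI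
  have hr := one_le_r b
  have h2 : ‖cz x y‖ < 2 ^ 46 := by nlinarith [norm_nonneg (cz x y)]
  have h3 := sv_le x y
  have h4 := hI.2.1
  have h5 := Sa_le (b := b) (by omega)
  refine ⟨(lt_sv (h3.1.trans_lt h2)).2, (lt_sv (h3.2.trans_lt h2)).2, (lt_sv ?_).2⟩
  norm_num at h4 h5 hH ⊢
  linarith

lemma lane_step (hT : StTab) {md : Bool} {W : ℂ} {H : ℝ} {b x y t σ : ℕ} (hb : b < 30)
    (hW : ‖W‖ ≤ 2 ^ 45) (hH : H ≤ 2 ^ 45) (hσ : σ ≤ 1) (hs : md = false → (σ = 1 ↔ sv t < 0))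
    (hI : Inv md W H b x y t) :
    ux σ b y ≤ x + 2 ^ (46 - b) ∧ 2 ^ (46 - b) ≤ y + ux σ b x ∧ ta b ≤ t + σ * (2 * ta b) ∧
    Inv md W H (b + 1) (x + 2 ^ (46 - b) - ux σ b y) (y + ux σ b x - 2 ^ (46 - b))
      (t + σ * (2 * ta b) - ta b) := by
  obtain ⟨hx, hy, -⟩ := inv_lt hT (by omega) hW hH hI
  have hn := inv_norm hT (by omega) hW hI
  obtain ⟨ε1, a1, b1, e1⟩ := ux_real hσ (by omega : b ≤ 46) hy
  obtain ⟨ε2, a2, b2, e2⟩ := ux_real hσ (by omega : b ≤ 46) hx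
  obtain ⟨τ, hτd⟩ : ∃ τ : ℝ, τ = 1 - 2 * σ := ⟨_, rfl⟩
  rw [← hτd] at e1 e2
  have hσ' : σ = 0 ∨ σ = 1 := by omega
  have hτ : τ = 1 ∨ τ = -1 := by
    rcases hσ' with h | h <;> subst h <;> simp [hτd]
    norm_num
  have hτa : |τ| = 1 := by rcases hτ with h | h <;> simp [h]
  have hsq : (1 / 2 ^ b : ℝ) ^ 2 = 1 / 4 ^ b := by
    rw [div_pow, one_pow, ← pow_mul, mul_comm, pow_mul]; norm_num
  have hpol := polar (1 / 2 ^ b) τ hτ
  rw [hsq] at hpol
  have hr := one_le_r b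
  generalize hrd : √(1 + 1 / 4 ^ b : ℝ) = r at hpol hr hn
  generalize hqd : (1 / 2 ^ b : ℝ) = q at e1 e2 hpol
  have hzn : ‖cz x y * (⟨1, τ * q⟩ : ℂ)‖ ≤ 2 ^ 46 - 2 := by
    rw [hpol, norm_mul, norm_mul, norm_ee, mul_one, Complex.norm_real, Real.norm_eq_abs,
      abs_of_nonneg (by linarith)]
    exact hn
  have hre := (Complex.abs_re_le_norm _).trans hzn
  have him := (Complex.abs_im_le_norm _).trans hzn
  simp only [Complex.mul_re, Complex.mul_im, cz, mul_one] at hre him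
  have hre' := (abs_le.1 hre).1
  have him' := (abs_le.1 him).1
  have hSa := Sa_le (b := b + 1) (by omega)
  have hSs : Sa (b + 1) = Sa b + ta b := by unfold Sa; rw [sum_range_succ]
  have hta : (0 : ℝ) ≤ ta b := by positivity
  have ht := hI.2.1
  have ht' := (abs_le.1 ht).1
  have c1 : ux σ b y ≤ x + 2 ^ (46 - b) := by
    have : (ux σ b y : ℝ) ≤ x + 2 ^ (46 - b) := by
      rw [e1]; unfold sv at hre' ⊢; nlinarith
    exact_mod_cast this
  have c2 : 2 ^ (46 - b) ≤ y + ux σ b x := by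
    have : (2 : ℝ) ^ (46 - b) ≤ y + ux σ b x := by
      rw [e2]; unfold sv at him' ⊢; nlinarith
    exact_mod_cast this
  have c3 : ta b ≤ t + σ * (2 * ta b) := by
    have : (ta b : ℝ) ≤ t := by
      unfold sv at ht'
      norm_num at ht' hSa hH
      linarith
    have : ta b ≤ t := by exact_mod_cast this
    omega
  have s1 : sv (x + 2 ^ (46 - b) - ux σ b y) = sv x - τ * q * sv y - ε1 := by
    unfold sv at e1 ⊢
    rw [Nat.cast_sub c1, e1]; push_cast; ring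
  have s2 : sv (y + ux σ b x - 2 ^ (46 - b)) = sv y + τ * q * sv x + ε2 := by
    unfold sv at e2 ⊢
    rw [Nat.cast_sub c2]; push_cast; rw [e2]; ring
  have s3 : sv (t + σ * (2 * ta b) - ta b) = sv t - τ * ta b := by
    unfold sv
    rw [Nat.cast_sub c3, hτd]; push_cast; ring
  refine ⟨c1, c2, c3, ?_, ?_, ?_⟩
  · have z1 : cz (x + 2 ^ (46 - b) - ux σ b y) (y + ux σ b x - 2 ^ (46 - b)) =
        cz x y * (r * ee (τ * (Real.arctan q / (2 * π)))) + ⟨-ε1, ε2⟩ := by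
      rw [← hpol]
      apply Complex.ext
      · simp only [cz, s1, Complex.add_re, Complex.mul_re]; ring
      · simp only [cz, s2, Complex.add_im, Complex.mul_im]; ring
    have z2 : sv (t + σ * (2 * ta b) - ta b) / 2 ^ 44 = sv t / 2 ^ 44 - τ * (ta b / 2 ^ 44) := by
      rw [s3]; ring
    have hδ : |τ * (Real.arctan q / (2 * π)) - τ * (ta b / 2 ^ 44)| ≤ 1 / 2 ^ 44 := by
      rw [← mul_sub, abs_mul, hτa, one_mul, abs_sub_comm, ← hqd]
      exact hT.1 b (by omega)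
    have hK := one_le_K b
    have hc := cstep (cz x y) W ⟨-ε1, ε2⟩ (K b) r _ _ (sv t / 2 ^ 44) _ _ (by linarith)
      (by linarith) hI.1 hδ (norm_small (by rw [abs_le]; constructor <;> linarith)
        (by rw [abs_le]; constructor <;> linarith))
    rw [z1, z2, K_succ, hrd]
    refine hc.trans ?_
    have hkr : 1 ≤ K b * r := by nlinarith
    have hpi : 2 * π * (1 / 2 ^ 44) ≤ 6.2832 * (1 / 2 ^ 44) := by
      have := Real.pi_lt_d4
      nlinarith
    have h6 : K b * r * ‖W‖ * (2 * π * (1 / 2 ^ 44)) ≤ K b * r * ‖W‖ * (6.2832 * (1 / 2 ^ 44)) :=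
      mul_le_mul_of_nonneg_left hpi (by positivity)
    push_cast
    nlinarith
  · rw [s3, hSs]
    refine (abs_sub _ _).trans ?_
    rw [abs_mul, hτa, abs_of_nonneg hta]
    linarith
  · intro h1 h2
    have h3 := (hI.2.2 h1 h2).trans (cb_le hT (by omega))
    have h4 := hs h1
    have h5 : cb (b + 1) = ta b := by simp [cb]
    rw [s3, h5, hτd, abs_le]
    have h6 := abs_le.1 h3
    rcases hσ' with h | h
    · have : ¬ sv t < 0 := fun h' => by have := h4.2 h'; omega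
      subst h
      push_cast
      constructor <;> linarith
    · have := h4.1 h
      subst h
      push_cast
      constructor <;> linarith

lemma lane_quarter {md : Bool} {x y t σ : ℕ} (hz : ‖cz x y‖ ≤ 2 ^ 45) (ht : |sv t| ≤ 2 ^ 45)
    (hσ : σ ≤ 1) (hs : md = false → (σ = 1 ↔ sv t < 0)) :
    Inv md (cz x y * ee (sv t / 2 ^ 44)) |sv t| 0
      (2 ^ 47 - if σ = 1 then 2 ^ 47 - 1 - y else y) (if σ = 1 then 2 ^ 47 - 1 - x else x)
      (t + σ * 2 ^ 43 - 2 ^ 42) := by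
  have h3 := sv_le x y
  have hx := (lt_sv (a := x) (by linarith [h3.1])).2
  have hy := (lt_sv (a := y) (by linarith [h3.2])).2
  have ht2 : 2 ^ 42 ≤ t := by
    have : (2 : ℝ) ^ 42 ≤ t := by
      have := (abs_le.1 ht).1
      unfold sv at this
      linarith
    exact_mod_cast this
  have hK : K 0 = 1 := by simp [K]
  have hS : Sa 0 = 0 := by simp [Sa]
  have hc : cb 0 = 2 ^ 42 := by simp [cb]
  have q1 : ee (1 / 4) = Complex.I := by
    rw [ee_eq, show 2 * π * (1 / 4) = π / 2 by ring, Real.cos_pi_div_two, Real.sin_pi_div_two]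
    rfl
  have q2 : ee (-(1 / 4)) = -Complex.I := by rw [← conj_ee, q1, Complex.conj_I]
  unfold Inv
  rw [hK, hS, hc]
  have hσ' : σ = 0 ∨ σ = 1 := by omega
  rcases hσ' with h | h
  · have hn : md = false → ¬ sv t < 0 := fun h0 h' => by have := (hs h0).2 h'; omega
    subst h
    simp only [zero_ne_one, if_false, zero_mul, add_zero]
    have s1 : sv (2 ^ 47 - y) = -sv y := by
      unfold sv; rw [Nat.cast_sub hy.le]; push_cast; ring
    have s3 : sv (t - 2 ^ 42) = sv t - 2 ^ 42 := by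
      unfold sv; rw [Nat.cast_sub ht2]; push_cast; ring
    have z1 : cz (2 ^ 47 - y) x = cz x y * Complex.I := by
      apply Complex.ext <;> simp [cz, s1, -Nat.reducePow]
    refine ⟨?_, ?_, ?_⟩
    · rw [z1, s3, show (sv t - 2 ^ 42) / 2 ^ 44 = sv t / 2 ^ 44 + -(1 / 4) by ring, ee_add, q2]
      have : cz x y * Complex.I * (ee (sv t / 2 ^ 44) * -Complex.I) -
          ((1 : ℝ) : ℂ) * (cz x y * ee (sv t / 2 ^ 44)) = 0 := by
        push_cast
        linear_combination (-(cz x y * ee (sv t / 2 ^ 44))) * Complex.I_mul_I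
      rw [this, norm_zero]
      positivity
    · rw [s3]
      refine (abs_sub _ _).trans ?_
      rw [abs_of_nonneg (by positivity : (0 : ℝ) ≤ 2 ^ 42)]
    · intro h1 h2
      have := hn h1
      have h6 := (abs_le.1 h2).2
      rw [s3, abs_le]
      constructor <;> linarith
  · have hn : md = false → sv t < 0 := fun h0 => (hs h0).1 h
    subst h
    simp only [if_true, one_mul]
    have s1 : sv (2 ^ 47 - (2 ^ 47 - 1 - y)) = sv y + 1 := by
      rw [show 2 ^ 47 - (2 ^ 47 - 1 - y) = y + 1 by omega]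
      unfold sv; push_cast; ring
    have s2 : sv (2 ^ 47 - 1 - x) = -sv x - 1 := by
      unfold sv; rw [Nat.cast_sub (by omega), Nat.cast_sub (by norm_num)]; push_cast; ring
    have s3 : sv (t + 2 ^ 43 - 2 ^ 42) = sv t + 2 ^ 42 := by
      rw [show t + 2 ^ 43 - 2 ^ 42 = t + 2 ^ 42 by omega]
      unfold sv; push_cast; ring
    have z1 : cz (2 ^ 47 - (2 ^ 47 - 1 - y)) (2 ^ 47 - 1 - x) =
        cz x y * -Complex.I + ⟨1, -1⟩ := by
      apply Complex.ext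
      · simp [cz, s1, -Nat.reducePow]
      · simp only [cz, s2]
        simp [sub_eq_add_neg]
    refine ⟨?_, ?_, ?_⟩
    · rw [z1, s3, show (sv t + 2 ^ 42) / 2 ^ 44 = sv t / 2 ^ 44 + 1 / 4 by ring, ee_add, q1]
      have : (cz x y * -Complex.I + ⟨1, -1⟩) * (ee (sv t / 2 ^ 44) * Complex.I) -
          cz x y * ee (sv t / 2 ^ 44) = ⟨1, -1⟩ * (ee (sv t / 2 ^ 44) * Complex.I) := by
        linear_combination (-(cz x y * ee (sv t / 2 ^ 44))) * Complex.I_mul_I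
      rw [Complex.ofReal_one, one_mul, this, norm_mul, norm_mul, norm_ee, Complex.norm_I]
      have := norm_small (a := 1) (b := -1) (by simp) (by simp)
      simp only [Nat.cast_zero, zero_add, mul_one, mul_zero, zero_div, add_zero]
      exact this
    · rw [s3]
      refine (abs_add_le _ _).trans ?_
      rw [abs_of_nonneg (by positivity : (0 : ℝ) ≤ 2 ^ 42), add_zero]
    · intro h1 h2
      have := hn h1
      have h6 := (abs_le.1 h2).1
      rw [s3, abs_le]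
      constructor <;> linarith

lemma dig_pw (md : Bool) {n : ℕ} (y : ℕ) {t : ℕ → ℕ} (ht : ∀ p < n, t p < 2 ^ 47) :
    ∃ σ : ℕ → ℕ, dig md (ow 48 n) y (pw 48 n t) = pw 48 n σ ∧
      ∀ p < n, σ p ≤ 1 ∧ (md = false → (σ p = 1 ↔ sv (t p) < 0)) := by
  cases md
  · refine ⟨fun j => 1 - t j / 2 ^ 46 % 2, ?_, fun p hp => ⟨Nat.sub_le _ _, fun _ => ?_⟩⟩
    · show Nat.xor (ow 48 n) (bit (ow 48 n) (pw 48 n t) 46) = _
      rw [bit_pw (fun j hj => (ht j hj).trans (by norm_num)) (by norm_num),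
        not_pw (by norm_num) (fun j _ => by omega)]
    · have h1 := ht p hp
      have h2 : sv (t p) < 0 ↔ t p < 2 ^ 46 := by
        unfold sv; rw [sub_neg]; exact_mod_cast Iff.rfl
      rw [h2]
      show 1 - t p / 2 ^ 46 % 2 = 1 ↔ _
      omega
  · obtain ⟨σ, h1, h2⟩ := bit_any (W := 48) (by norm_num) n y 46
    exact ⟨σ, h1, fun p _ => ⟨h2 p, fun h => by cases h⟩⟩

lemma crd_succ (md : Bool) (o k b x y t : ℕ) : crd md o (k + 1) b x y t =
    crd md o k (b + 1)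
      (x + Nat.shiftLeft o (46 - b) - Nat.xor (fld o y b (47 - b)) (msk (dig md o y t) (47 - b)))
      (y + Nat.xor (fld o x b (47 - b)) (msk (dig md o y t) (47 - b)) - Nat.shiftLeft o (46 - b))
      (t + dig md o y t * (2 * ta b) - o * ta b) := by
  unfold crd
  simp only [fz_eq]
  rfl

lemma cord_eq (md : Bool) (o N x y t : ℕ) : cord md o N x y t =
    crd md o N 0 (Nat.shiftLeft o 47 - Nat.xor y (msk (dig md o y t) 47))
      (Nat.xor x (msk (dig md o y t) 47))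
      (t + Nat.shiftLeft (dig md o y t) 43 - Nat.shiftLeft o 42) := by
  unfold cord
  simp only [fz_eq]
  rfl

lemma xf_pw {n b : ℕ} {a σ : ℕ → ℕ} (hb : b ≤ 46) (ha : ∀ p < n, a p < 2 ^ 47)
    (hσ : ∀ p < n, σ p ≤ 1) :
    Nat.xor (fld (ow 48 n) (pw 48 n a) b (47 - b)) (msk (pw 48 n σ) (47 - b)) =
      pw 48 n fun p => ux (σ p) b (a p) := by
  rw [fld_pw (by norm_num) (fun j hj => (ha j hj).trans (by norm_num)) (by omega),
    xor_msk (by omega) (fun j _ => Nat.mod_lt _ (by positivity)) hσ]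
  rfl

lemma crd_ok (hT : StTab) (md : Bool) (n : ℕ) (W : ℕ → ℂ) (H : ℕ → ℝ)
    (hW : ∀ p < n, ‖W p‖ ≤ 2 ^ 45 ∧ H p ≤ 2 ^ 45) (k : ℕ) : ∀ (b : ℕ) (x y t : ℕ → ℕ),
    b + k ≤ 30 → (∀ p < n, Inv md (W p) (H p) b (x p) (y p) (t p)) →
    ∃ x' y' t' : ℕ → ℕ, crd md (ow 48 n) k b (pw 48 n x) (pw 48 n y) (pw 48 n t) =
      T3.mk (pw 48 n x') (pw 48 n y') (pw 48 n t') ∧
      ∀ p < n, Inv md (W p) (H p) (b + k) (x' p) (y' p) (t' p) := by
  induction k with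
  | zero => intro b x y t _ h; exact ⟨x, y, t, rfl, h⟩
  | succ k ih =>
    intro b x y t hb h
    have hl := fun p hp => inv_lt hT (by omega) (hW p hp).1 (hW p hp).2 (h p hp)
    obtain ⟨σ, hd, hσ⟩ := dig_pw md (pw 48 n y) (fun p hp => (hl p hp).2.2)
    have hs := fun p hp =>
      lane_step hT (by omega) (hW p hp).1 (hW p hp).2 (hσ p hp).1 (hσ p hp).2 (h p hp)
    rw [crd_succ, hd, xf_pw (by omega) (fun p hp => (hl p hp).2.1) (fun p hp => (hσ p hp).1),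
      xf_pw (by omega) (fun p hp => (hl p hp).1) (fun p hp => (hσ p hp).1),
      ow_shl (by norm_num), ow_mul (by norm_num), pw_mul, pw_add, pw_add, pw_add,
      pw_sub (fun p hp => (hs p hp).1), pw_sub (fun p hp => (hs p hp).2.1),
      pw_sub (fun p hp => (hs p hp).2.2.1)]
    obtain ⟨x', y', t', e, h'⟩ := ih (b + 1) _ _ _ (by omega) (fun p hp => (hs p hp).2.2.2)
    refine ⟨x', y', t', e, fun p hp => ?_⟩
    rw [show b + (k + 1) = b + 1 + k by omega]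
    exact h' p hp

lemma ta_le (hT : StTab) {N : ℕ} (h1 : 1 ≤ N) (h2 : N ≤ 32) :
    2 * π * ((ta (N - 1) : ℝ) / 2 ^ 44) ≤ 2 / 2 ^ N + 2 * π / 2 ^ 44 := by
  obtain ⟨c, rfl⟩ : ∃ c, N = c + 1 := ⟨N - 1, by omega⟩
  have h3 := (abs_le.1 (hT.1 c (by omega))).2
  have h4 : Real.arctan (1 / 2 ^ c) ≤ 1 / 2 ^ c := by
    have := Real.le_tan (x := Real.arctan (1 / 2 ^ c)) (Real.arctan_nonneg.2 (by positivity))
      (Real.arctan_lt_pi_div_two _)
    rwa [Real.tan_arctan] at this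
  have hp := Real.pi_pos
  have h5 : 2 * π * (Real.arctan (1 / 2 ^ c) / (2 * π)) = Real.arctan (1 / 2 ^ c) := by
    field_simp
  have h6 : (2 : ℝ) / 2 ^ (c + 1) = 1 / 2 ^ c := by rw [pow_succ]; field_simp
  have h7 := mul_le_mul_of_nonneg_left h3 (by positivity : 0 ≤ 2 * π)
  rw [mul_sub, h5] at h7
  rw [Nat.add_sub_cancel, h6]
  have h8 : 2 * π * (1 / 2 ^ 44) = 2 * π / 2 ^ 44 := by ring
  linarith

end Cord

open Cord in
theorem cordOk (hT : StTab) : StCord := by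
  intro md n N f g h hN1 hN2 hb
  have hl : ∀ p < n, f p < 2 ^ 47 ∧ g p < 2 ^ 47 ∧ h p < 2 ^ 47 := fun p hp => by
    have h3 := sv_le (f p) (g p)
    have h4 := hb p hp
    exact ⟨(lt_sv (by linarith [h3.1, h4.1])).2, (lt_sv (by linarith [h3.2, h4.1])).2,
      (lt_sv (by linarith [h4.2])).2⟩
  obtain ⟨σ, hd, hσ⟩ := dig_pw md (pw 48 n g) (fun p hp => (hl p hp).2.2)
  have c1 : ∀ p < n, (if σ p = 1 then 2 ^ 47 - 1 - g p else g p) ≤ 2 ^ 47 := fun p hp => by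
    have := (hl p hp).2.1
    split_ifs <;> omega
  have c2 : ∀ p < n, 2 ^ 42 ≤ h p + σ p * 2 ^ 43 := fun p hp => by
    have : (2 : ℝ) ^ 42 ≤ h p := by
      have := (abs_le.1 (hb p hp).2).1
      unfold sv at this
      linarith
    have : 2 ^ 42 ≤ h p := by exact_mod_cast this
    omega
  rw [cord_eq, hd, xor_msk (by norm_num) (fun p hp => (hl p hp).2.1) (fun p hp => (hσ p hp).1),
    xor_msk (by norm_num) (fun p hp => (hl p hp).1) (fun p hp => (hσ p hp).1),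
    ow_shl (by norm_num), ow_shl (by norm_num), pw_shl, pw_add, pw_sub c1, pw_sub c2]
  obtain ⟨x', y', t', e, h'⟩ := crd_ok hT md n (fun p => cz (f p) (g p) * ee (sv (h p) / 2 ^ 44))
    (fun p => |sv (h p)|) (fun p hp => ⟨by rw [norm_mul, norm_ee, mul_one]; exact (hb p hp).1,
      (hb p hp).2⟩) N 0 _ _ _ (by omega)
    (fun p hp => lane_quarter (hb p hp).1 (hb p hp).2 (hσ p hp).1 (hσ p hp).2)
  refine ⟨x', y', t', e, fun p hp => ?_⟩
  obtain ⟨i1, i2, i3⟩ := h' p hp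
  rw [zero_add] at i1 i2 i3
  have hS := Sa_le (b := N) (by omega)
  refine ⟨by linarith, ?_, fun h1 h2 => ?_⟩
  · have hK := K_le hT (b := N) (by omega)
    have hK1 := one_le_K N
    have hKc : |K N - Kc| ≤ 2e-12 := hT.2.2.2.2.1 N hN1 (by omega)
    rw [norm_mul, norm_ee, mul_one] at i1
    have hN : (N : ℝ) ≤ 30 := by exact_mod_cast hN2
    have hN0 : (0 : ℝ) ≤ N := by positivity
    have hR := norm_nonneg (cz (f p) (g p))
    have e1 : cz (x' p) (y' p) * ee (sv (t' p) / 2 ^ 44) -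
        Kc * cz (f p) (g p) * ee (sv (h p) / 2 ^ 44) =
        (cz (x' p) (y' p) * ee (sv (t' p) / 2 ^ 44) -
          (K N : ℝ) * (cz (f p) (g p) * ee (sv (h p) / 2 ^ 44))) +
        ((K N - Kc : ℝ) : ℂ) * (cz (f p) (g p) * ee (sv (h p) / 2 ^ 44)) := by
      push_cast; ring
    rw [e1]
    refine (norm_add_le _ _).trans ?_
    rw [norm_mul ((K N - Kc : ℝ) : ℂ), norm_mul, norm_ee, mul_one, Complex.norm_real,
      Real.norm_eq_abs]
    generalize ‖cz (f p) (g p)‖ = R at *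
    have b1 : K N * (1.4143 * (N + 1) + R * (6.2832 * N / 2 ^ 44)) ≤
        1.6468 * (1.4143 * (N + 1) + R * (6.2832 * 30 / 2 ^ 44)) := by gcongr
    have b2 : |K N - Kc| * R ≤ 2e-12 * R := mul_le_mul_of_nonneg_right hKc hR
    have b3 : 1.6468 * (R * (6.2832 * 30 / 2 ^ 44)) + 2e-12 * R ≤ R / 2 ^ 35 := by
      norm_num
      linarith
    linarith
  · have h3 := i3 h1 h2
    have h4 : cb N = ta (N - 1) := by simp [cb, show N ≠ 0 by omega]
    rwa [h4] at h3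

open Cord in
theorem rotOk (hT : StTab) (hc : StCord) : StRot := by
  intro n N X Y T z e θ η hN1 hN2 hV hA hb
  obtain ⟨f, g, rfl, rfl, hV⟩ := hV
  obtain ⟨t, rfl, hA⟩ := hA
  have hn : ∀ p < n, ‖cz (f p) (g p)‖ ≤ ‖z p‖ + e p := fun p hp => by
    have h1 := norm_add_le (z p) (cz (f p) (g p) - z p)
    rw [add_sub_cancel] at h1
    linarith [hV p hp]
  obtain ⟨f', g', h', he, hh⟩ := hc false n N f g t hN1 hN2
    (fun p hp => ⟨(hn p hp).trans (hb p hp), (hA p hp).1.trans (by norm_num)⟩)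
  refine ⟨pw 48 n f', pw 48 n g', by unfold rot; rw [he], f', g', rfl, rfl, fun p hp => ?_⟩
  obtain ⟨-, h2, h3⟩ := hh p hp
  obtain ⟨h4, m, h5⟩ := hA p hp
  have h6 := h3 rfl h4
  have h7 := hV p hp
  have h8 := hn p hp
  have h9 := ta_le hT (N := N) (by omega) (by omega)
  have hη : 0 ≤ η := (abs_nonneg _).trans h5
  have he0 : 0 ≤ e p := (norm_nonneg _).trans h7
  have hpi := Real.pi_lt_d4
  have hp0 := Real.pi_pos
  generalize sv (h' p) = u at *
  generalize sv (t p) = v at *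
  generalize cz (f p) (g p) = c at *
  generalize cz (f' p) (g' p) = c' at *
  have e0 : ee 0 = 1 := by simpa using ee_int 0
  have e1 : ee (u / 2 ^ 44) * ee (-(u / 2 ^ 44)) = 1 := by rw [← ee_add, add_neg_cancel, e0]
  have e2 : c' - Kc * z p * ee (θ p) =
      (c' * ee (u / 2 ^ 44) - Kc * c * ee (v / 2 ^ 44)) * ee (-(u / 2 ^ 44)) +
        Kc * c * (ee (v / 2 ^ 44 + -(u / 2 ^ 44)) - ee (θ p)) + Kc * (c - z p) * ee (θ p) := by
    rw [ee_add]
    linear_combination (-c') * e1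
  have hK0 : (0 : ℝ) ≤ Kc := by unfold Kc; norm_num
  have hK1 : Kc ≤ 1.647 := by unfold Kc; norm_num
  have a1 : |v / 2 ^ 44 + -(u / 2 ^ 44) - θ p - m| ≤ η + ta (N - 1) / 2 ^ 44 := by
    rw [show v / 2 ^ 44 + -(u / 2 ^ 44) - θ p - m = (v / 2 ^ 44 - θ p - m) - u / 2 ^ 44 by ring]
    refine (abs_sub _ _).trans (add_le_add h5 ?_)
    rw [abs_div, abs_of_nonneg (by positivity : (0 : ℝ) ≤ 2 ^ 44)]
    gcongr
  have a2 : ‖ee (v / 2 ^ 44 + -(u / 2 ^ 44)) - ee (θ p)‖ ≤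
      6.2832 * η + 2 / 2 ^ N + 6.2832 / 2 ^ 44 := by
    refine (norm_ee_sub _ _ m).trans ?_
    have a3 := mul_le_mul_of_nonneg_left a1 (by positivity : 0 ≤ 2 * π)
    have a4 : 2 * π * η ≤ 6.2832 * η := by gcongr; linarith
    have a5 : 2 * π / 2 ^ 44 ≤ 6.2832 / 2 ^ 44 := by gcongr; linarith
    rw [mul_add] at a3
    linarith
  have hq : (0 : ℝ) ≤ 1 / 2 ^ N := by positivity
  have a6 : Kc * ‖c‖ * ‖ee (v / 2 ^ 44 + -(u / 2 ^ 44)) - ee (θ p)‖ ≤
      1.647 * (‖z p‖ + e p) * (6.2832 * η + 2 / 2 ^ N + 6.2832 / 2 ^ 44) := by gcongr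
  have a7 : Kc * ‖c - z p‖ ≤ 1.647 * e p := by gcongr
  have a8 : ‖c‖ / 2 ^ 35 ≤ (‖z p‖ + e p) / 2 ^ 35 := by gcongr
  have a9 : 1.647 * (6.2832 * η + 2 / 2 ^ N + 6.2832 / 2 ^ 44) + 1 / 2 ^ 35 ≤
      3.3 / 2 ^ N + 1 / 2 ^ 34 + 10.4 * η := by
    rw [div_eq_mul_one_div 2 (2 ^ N), div_eq_mul_one_div 3.3 (2 ^ N)]
    generalize (1 : ℝ) / 2 ^ N = q at *
    norm_num
    linarith
  have a10 := mul_le_mul_of_nonneg_left a9 (by positivity : 0 ≤ ‖z p‖ + e p)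
  show ‖c' - Kc * z p * ee (θ p)‖ ≤ _
  rw [e2]
  refine (norm_add_le _ _).trans ((add_le_add_left (norm_add_le _ _) _).trans ?_)
  simp only [norm_mul, norm_ee, Complex.norm_real, Real.norm_eq_abs, abs_of_nonneg hK0, mul_one]
  linarith

end

end Pool.Agent.Lib.MP_5db4ad_nt.NE
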