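import Pool.Agent.Lib.MP_5db4ad_nt.H96NCoreA

/-!
The quotient: meaning of the program `core`.
-/

namespace Pool.Agent.Lib.MP_5db4ad_nt.NE

open S2 Finset
open scoped Real

namespace Core

/-- the last angle -/
def ang (o t3 py t : ℕ) : ℕ :=
  fld o (t3 + Nat.shiftLeft o 43 + Nat.shiftLeft (fld o py 0 36) 8 +
    Nat.shiftLeft (fld o (Nat.shiftLeft o 47 - t) 0 43) 1) 0 44 + o * 61572651155456

/-- the program with the subprograms as parameters -/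
noncomputable def coreG (f1 : ℕ → ℕ → ℕ → ℕ → ℕ → T2) (f2 : Bool → ℕ → ℕ → ℕ → ℕ → ℕ → T3)
    (f3 : ℕ → ℕ → ℕ → ℕ → ℕ → T2) (f4 : ℕ → ℕ → ℕ → ℕ → ℕ → ℕ → T3)
    (o zx zy lx ly ax ay tl t3 : ℕ) : T5 :=
  T2.rec (fun px py => T3.rec (fun r y t => T2.rec (fun q v0 => T3.rec (fun r' v u =>
    T2.rec (fun gx gy =>
      fz (Nat.sub (Nat.add gx (Nat.shiftLeft o (nat_lit 46))) ax) fun rx =>
      fz (Nat.sub (Nat.add gy (Nat.shiftLeft o (nat_lit 46))) ay) fun ry =>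
      T5.mk (and (and (rng o y (nat_lit 131072))
          (lek o (Nat.sub (Nat.shiftLeft o (nat_lit 47)) r) (nat_lit 70368744177664)))
        (and (rng o q (nat_lit 4096))
          (rng o (Nat.add r' (Nat.mul o (nat_lit 69818988363776))) (nat_lit 262144)))) rx ry v u)
      (f1 o (nat_lit 23) (Nat.add v (Nat.shiftLeft o (nat_lit 46))) (Nat.shiftLeft o (nat_lit 46))
        (Nat.add (fld o (Nat.add (Nat.add (Nat.add t3 (Nat.shiftLeft o (nat_lit 43)))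
            (Nat.shiftLeft (fld o py (nat_lit 0) (nat_lit 36)) (nat_lit 8)))
            (Nat.shiftLeft (fld o (Nat.sub (Nat.shiftLeft o (nat_lit 47)) t) (nat_lit 0) (nat_lit 43))
              (nat_lit 1))) (nat_lit 0) (nat_lit 44)) (Nat.mul o (nat_lit 61572651155456)))))
      (f4 o (nat_lit 25) (nat_lit 0) (Nat.sub r (Nat.shiftLeft o (nat_lit 46))) v0 v0))
      (f3 o (nat_lit 25) (nat_lit 0) (Nat.add px (Nat.mul o (nat_lit 15161962992)))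
        (Nat.mul o (nat_lit 442048840))))
      (f2 true o (nat_lit 23) zx zy (Nat.shiftLeft o (nat_lit 46))))
    (f1 o (nat_lit 22) lx ly tl)

lemma core_fun : core = coreG rot cord expS nrmS := rfl

lemma coreG_eq {f1 : ℕ → ℕ → ℕ → ℕ → ℕ → T2} {f2 : Bool → ℕ → ℕ → ℕ → ℕ → ℕ → T3}
    {f3 : ℕ → ℕ → ℕ → ℕ → ℕ → T2} {f4 : ℕ → ℕ → ℕ → ℕ → ℕ → ℕ → T3}
    {o zx zy lx ly ax ay tl t3 px py r y t q v0 r' v u gx gy : ℕ}
    (h1 : f1 o 22 lx ly tl = T2.mk px py)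
    (h2 : f2 true o 23 zx zy (Nat.shiftLeft o 46) = T3.mk r y t)
    (h3 : f3 o 25 0 (px + o * 15161962992) (o * 442048840) = T2.mk q v0)
    (h4 : f4 o 25 0 (r - Nat.shiftLeft o 46) v0 v0 = T3.mk r' v u)
    (h5 : f1 o 23 (v + Nat.shiftLeft o 46) (Nat.shiftLeft o 46) (ang o t3 py t) = T2.mk gx gy) :
    coreG f1 f2 f3 f4 o zx zy lx ly ax ay tl t3 = T5.mk ((rng o y 131072 &&
      lek o (Nat.shiftLeft o 47 - r) 70368744177664) && (rng o q 4096 &&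
      rng o (r' + o * 69818988363776) 262144)) (gx + Nat.shiftLeft o 46 - ax)
      (gy + Nat.shiftLeft o 46 - ay) v u := by
  unfold coreG
  erw [h1]
  dsimp only
  erw [h2]
  dsimp only
  erw [h3]
  dsimp only
  erw [h4]
  dsimp only
  erw [h5]
  dsimp only
  exact (fz_eq _ _).trans (fz_eq _ _)

lemma core_eq {o zx zy lx ly ax ay tl t3 px py r y t q v0 r' v u gx gy : ℕ}
    (h1 : rot o 22 lx ly tl = T2.mk px py)
    (h2 : cord true o 23 zx zy (Nat.shiftLeft o 46) = T3.mk r y t)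
    (h3 : expS o 25 0 (px + o * 15161962992) (o * 442048840) = T2.mk q v0)
    (h4 : nrmS o 25 0 (r - Nat.shiftLeft o 46) v0 v0 = T3.mk r' v u)
    (h5 : rot o 23 (v + Nat.shiftLeft o 46) (Nat.shiftLeft o 46) (ang o t3 py t) = T2.mk gx gy) :
    core o zx zy lx ly ax ay tl t3 = T5.mk ((rng o y 131072 &&
      lek o (Nat.shiftLeft o 47 - r) 70368744177664) && (rng o q 4096 &&
      rng o (r' + o * 69818988363776) 262144)) (gx + Nat.shiftLeft o 46 - ax)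
      (gy + Nat.shiftLeft o 46 - ay) v u := by
  rw [core_fun]
  exact coreG_eq h1 h2 h3 h4 h5

lemma ang_ar (a b c : ℕ) (hc : c ≤ 2 ^ 47) : ∃ k : ℤ,
    (((a + 2 ^ 43 + b % 2 ^ 36 * 2 ^ 8 + (2 ^ 47 - c) % 2 ^ 43 * 2 ^ 1) % 2 ^ 44 : ℕ) : ℝ) =
      a + 2 ^ 43 + b * 2 ^ 8 - 2 * c + k * 2 ^ 44 := by
  obtain ⟨d, hd⟩ := Nat.exists_eq_add_of_le hc
  rw [show 2 ^ 47 - c = d by omega]
  have h1 := Nat.div_add_mod b (2 ^ 36)
  have h2 := Nat.div_add_mod d (2 ^ 43)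
  have h3 := Nat.div_add_mod (a + 2 ^ 43 + b % 2 ^ 36 * 2 ^ 8 + d % 2 ^ 43 * 2 ^ 1) (2 ^ 44)
  generalize (a + 2 ^ 43 + b % 2 ^ 36 * 2 ^ 8 + d % 2 ^ 43 * 2 ^ 1) / 2 ^ 44 = s1 at h3
  generalize (a + 2 ^ 43 + b % 2 ^ 36 * 2 ^ 8 + d % 2 ^ 43 * 2 ^ 1) % 2 ^ 44 = s0 at h3 ⊢
  generalize b / 2 ^ 36 = b1 at h1
  generalize b % 2 ^ 36 = b0 at h1 h3
  generalize d / 2 ^ 43 = d1 at h2
  generalize d % 2 ^ 43 = d0 at h2 h3
  have e0 := congrArg (Nat.cast (R := ℝ)) hd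
  have e1 := congrArg (Nat.cast (R := ℝ)) h1
  have e2 := congrArg (Nat.cast (R := ℝ)) h2
  have e3 := congrArg (Nat.cast (R := ℝ)) h3
  refine ⟨16 - b1 - d1 - s1, ?_⟩
  push_cast at e0 e1 e2 e3 ⊢
  linarith

lemma ang_lt {a b c : ℕ} (h : a ≤ 2 ^ 46 + 2 ^ 43) :
    a + 2 ^ 43 + b / 2 ^ 0 % 2 ^ 36 * 2 ^ 8 + c / 2 ^ 0 % 2 ^ 43 * 2 ^ 1 < 2 ^ 48 := by
  have h1 : b / 2 ^ 0 % 2 ^ 36 < 2 ^ 36 := Nat.mod_lt _ (by norm_num)
  have h2 : c / 2 ^ 0 % 2 ^ 43 < 2 ^ 43 := Nat.mod_lt _ (by norm_num)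
  generalize b / 2 ^ 0 % 2 ^ 36 = b0 at h1
  generalize c / 2 ^ 0 % 2 ^ 43 = c0 at h2
  omega

lemma ang_ok {n t3 : ℕ} {α : ℕ → ℝ} {py t : ℕ → ℕ} (h3 : AN n t3 (fun p => 3 * α p) 0)
    (hp : ∀ p < n, py p < 2 ^ 47) (ht : ∀ p < n, t p < 2 ^ 47) :
    AN n (ang (ow 48 n) t3 (pw 48 n py) (pw 48 n t))
      (fun p => 3 * α p + sv (py p) / 2 ^ 36 - 2 * (sv (t p) / 2 ^ 44)) 0 := by
  obtain ⟨f, rfl, hf⟩ := h3
  have h1 : ∀ p < n, f p ≤ 2 ^ 46 + 2 ^ 43 := fun p h => by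
    have h2 := (abs_le.1 (hf p h).1).2
    rw [sv] at h2
    have : (f p : ℝ) ≤ 2 ^ 46 + 2 ^ 43 := by linarith
    exact_mod_cast this
  refine ⟨fun p => (f p + 2 ^ 43 + py p % 2 ^ 36 * 2 ^ 8 + (2 ^ 47 - t p) % 2 ^ 43 * 2 ^ 1) % 2 ^ 44 +
    61572651155456, ?_, fun p h => ?_⟩
  · rw [ang, ow_shl (by norm_num), ow_shl (by norm_num), pw_sub fun p h => (ht p h).le,
      fld_pw (s := 0) (w := 36) (by norm_num) (fun p h => (hp p h).trans (by norm_num)) (by norm_num),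
      fld_pw (s := 0) (w := 43) (by norm_num) (fun p h => (Nat.sub_le _ _).trans_lt (by norm_num))
        (by norm_num), pw_shl, pw_shl, pw_add, pw_add,
      pw_add, fld_pw (by norm_num) (fun p h => ang_lt (h1 p h)) (by norm_num),
      ow_mul (by norm_num), pw_add]
    exact pw_congr fun p _ => by rw [pow_zero, Nat.div_one, Nat.div_one, Nat.div_one]
  · obtain ⟨-, m, hm⟩ := hf p h
    obtain ⟨k, h6⟩ := ang_ar (f p) (py p) (t p) (ht p h).le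
    have h4 := Nat.mod_lt
      (f p + 2 ^ 43 + py p % 2 ^ 36 * 2 ^ 8 + (2 ^ 47 - t p) % 2 ^ 43 * 2 ^ 1) (Nat.two_pow_pos 44)
    beta_reduce at hm ⊢
    generalize (f p + 2 ^ 43 + py p % 2 ^ 36 * 2 ^ 8 + (2 ^ 47 - t p) % 2 ^ 43 * 2 ^ 1) % 2 ^ 44 = s
      at h4 h6 ⊢
    have h5 : (s : ℝ) < 2 ^ 44 := by exact_mod_cast h4
    have h7 : (0 : ℝ) ≤ s := Nat.cast_nonneg s
    have h8 := abs_nonpos_iff.1 hm
    simp only [sv] at h8 ⊢
    refine ⟨?_, m + k + 4 + 1024 - 8, abs_nonpos_iff.2 ?_⟩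
    · rw [abs_le]; push_cast; constructor <;> linarith
    · push_cast; linarith

lemma norm_le_of {a b : ℂ} {e c : ℝ} (h : ‖a - b‖ ≤ e) (hb : ‖b‖ ≤ c) : ‖a‖ ≤ c + e := by
  have := norm_add_le b (a - b)
  rw [add_sub_cancel] at this
  linarith

lemma lanes {a b : ℕ} {c : ℝ} (h : ‖cz a b‖ ≤ c) (hc : c < 2 ^ 46) :
    |sv a| ≤ c ∧ |sv b| ≤ c ∧ a < 2 ^ 47 ∧ b < 2 ^ 47 :=
  ⟨(sv_le_norm a b).1.trans h, (sv_le_norm a b).2.trans h,
    (lt_of_sv (((sv_le_norm a b).1.trans h).trans_lt hc)).2,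
    (lt_of_sv (((sv_le_norm a b).2.trans h).trans_lt hc)).2⟩

lemma sub_lane {g a : ℕ} (hg : |sv g| ≤ 2 ^ 44) (ha : |sv a| ≤ 2 ^ 44) :
    a ≤ g + 2 ^ 46 ∧ g + 2 ^ 46 - a < 2 ^ 47 ∧ sv (g + 2 ^ 46 - a) = sv g - sv a := by
  rw [abs_le, sv] at hg ha
  have h1 : a ≤ g + 2 ^ 46 := by
    have : (a : ℝ) ≤ g + 2 ^ 46 := by linarith [hg.1, ha.2]
    exact_mod_cast this
  have h2 : g < a + 2 ^ 46 := by
    have : (g : ℝ) < a + 2 ^ 46 := by linarith [hg.2, ha.1]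
    exact_mod_cast this
  refine ⟨h1, by omega, ?_⟩
  rw [sv, sv, sv, Nat.cast_sub h1]
  push_cast
  ring

lemma norm_sc (α : ℝ) (z : ℂ) : ‖2 ^ 36 * ee α * z‖ = 2 ^ 36 * ‖z‖ := by
  rw [norm_mul, norm_mul, norm_ee, mul_one, norm_pow, Complex.norm_two]

/-- the logarithm after the first rotation -/
lemma log_near {a b : ℕ} {Λ : ℂ} {α δ : ℝ} (h0 : 0 ≤ δ) (h1 : δ ≤ 2e-5)
    (hΛ : ‖Λ / (2 * π * Kc)‖ ≤ 0.125)
    (h : ‖cz a b - Kc * (2 ^ 36 * ee α * (Λ / (2 * π * Kc))) * ee (-α)‖ ≤ 2.5 * ((22 : ℕ) + 1) +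
      1.647 * (2 ^ 36 * δ) + (‖2 ^ 36 * ee α * (Λ / (2 * π * Kc))‖ + 2 ^ 36 * δ) *
        (3.3 / 2 ^ 22 + 1 / 2 ^ 34 + 10.4 * 0)) : ‖cz a b‖ ≤ 2 ^ 34 ∧
    ‖Λ - ((2 * π * sv a / 2 ^ 36 : ℝ) + (2 * π * (sv b / 2 ^ 36) : ℝ) * Complex.I)‖ ≤
      10.35 * δ + 6.3e-7 := by
  have hK : Kc = 1.6467602581210656 := rfl
  have h2 : ‖cz a b - Kc * (2 ^ 36 * ee α * (Λ / (2 * π * Kc))) * ee (-α)‖ ≤
      2 ^ 36 * (1.647 * δ + 9.93e-8) := by
    refine h.trans ?_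
    rw [norm_sc]
    push_cast
    nlinarith
  refine ⟨(norm_le_of h2 (c := 1.65 * (2 ^ 36 * 0.125)) ?_).trans (by nlinarith), ?_⟩
  · rw [norm_mul, norm_mul, norm_ee, mul_one, norm_sc, Complex.norm_real, hK,
      Real.norm_of_nonneg (by norm_num), ← hK]
    exact mul_le_mul (by rw [hK]; norm_num) (by linarith) (by positivity) (by norm_num)
  · have K0 : (Kc : ℂ) ≠ 0 := by rw [hK]; norm_num
    have p0 : (π : ℂ) ≠ 0 := by exact_mod_cast Real.pi_ne_zero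
    have e1 : ee α * ee (-α) = 1 := by rw [← ee_add, add_neg_cancel]; simpa using ee_int 0
    have e2 : cz a b = sv a + sv b * Complex.I := (Complex.re_add_im _).symm
    have e3 : Λ - ((2 * π * sv a / 2 ^ 36 : ℝ) + (2 * π * (sv b / 2 ^ 36) : ℝ) * Complex.I) =
        -((2 * π / 2 ^ 36 : ℝ) : ℂ) *
          (cz a b - Kc * (2 ^ 36 * ee α * (Λ / (2 * π * Kc))) * ee (-α)) := by
      rw [show Kc * (2 ^ 36 * ee α * (Λ / (2 * π * Kc))) * ee (-α) =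
        2 ^ 36 * Λ / (2 * π) * (ee α * ee (-α)) by field_simp, e1, e2]
      push_cast
      field_simp
      ring
    have p1 := Real.pi_lt_d4
    have p2 := Real.pi_pos
    rw [e3, norm_mul, norm_neg, Complex.norm_real, Real.norm_of_nonneg (by positivity)]
    refine (mul_le_mul_of_nonneg_left h2 (by positivity)).trans ?_
    rw [show 2 * π / 2 ^ 36 * (2 ^ 36 * (1.647 * δ + 9.93e-8)) = 2 * π * (1.647 * δ + 9.93e-8) by
      field_simp]
    nlinarith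

lemma exp_near (hT : StTab) {a q : ℕ} {Q : ℝ} (hq : |sv q| ≤ 4096)
    (h : |2 * π * (sv (a + 15161962992) - sv q) / 2 ^ 36 - Real.log Q| ≤ 3e-9) :
    |Real.log Q - 2 * π * sv a / 2 ^ 36 - 2 * Real.log 2| ≤ 3.8e-7 := by
  have h1 := hT.2.2.2.1 0 (by norm_num)
  have h2 : lb 0 = 7580981496 := by decide +kernel
  have p1 := Real.pi_lt_d4
  have p2 := Real.pi_pos
  rw [h2, pow_zero, show (1 + 1 / 1 : ℝ) = 2 by norm_num] at h1
  have h3 : |2 * π * (7580981496 / 2 ^ 36) - Real.log 2| ≤ 2 * π * (1 / 2 ^ 36) := by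
    rw [show 2 * π * (7580981496 / 2 ^ 36) - Real.log 2 =
      2 * π * (7580981496 / 2 ^ 36 - Real.log 2 / (2 * π)) by field_simp, abs_mul,
      abs_of_pos (by positivity)]
    exact mul_le_mul_of_nonneg_left (by exact_mod_cast h1) (by positivity)
  have h4 : sv (a + 15161962992) = sv a + 15161962992 := by rw [sv, sv]; push_cast; ring
  have h5 : |π * sv q| ≤ 3.1416 * 4096 := by
    rw [abs_mul, abs_of_pos p2]
    exact mul_le_mul p1.le hq (abs_nonneg _) (by norm_num)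
  rw [h4] at h
  rw [abs_le] at h h3 h5 ⊢
  constructor <;> nlinarith [h.1, h.2, h3.1, h3.2, h5.1, h5.2]

lemma prods {Q P v0 v u : ℝ} (hQ : 1 ≤ Q) (hP : 1 ≤ P) (e4 : 442048840 * Q * (1 - 1e-7) ≤ v0)
    (e5 : v0 ≤ 442048840 * Q) (n5 : v0 * P ^ 2 * (1 - 2e-7) ≤ v) (n6 : v ≤ v0 * P ^ 2)
    (n7 : v0 * P ^ 3 * (1 - 3e-7) ≤ u) : 442048840 * Q * P ^ 2 * (1 - 3e-7) ≤ v ∧
      v ≤ 442048840 * Q * P ^ 2 ∧ v * P * (1 - 3e-7) ≤ u := by
  have P2 : 0 ≤ P ^ 2 := by positivity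
  have h1 := mul_le_mul_of_nonneg_right e4 P2
  have h2 := mul_le_mul_of_nonneg_right e5 P2
  have h3 := mul_le_mul_of_nonneg_right n6 (by linarith : 0 ≤ P)
  have h4 := mul_nonneg (by linarith : 0 ≤ Q) P2
  exact ⟨by linarith, by linarith, by linarith⟩

lemma final {g a X Y B e : ℂ} {s m δ : ℝ} (h1 : ‖g - X‖ ≤ s) (h2 : ‖X / 2 ^ 36 - e * Y‖ ≤ m)
    (h3 : ‖a - 2 ^ 36 * e * B‖ ≤ 2 ^ 36 * δ) :
    ‖(g - a) / 2 ^ 36 - e * (Y - B)‖ ≤ s / 2 ^ 36 + m + δ := by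
  rw [show (g - a) / 2 ^ 36 - e * (Y - B) = (g - X) / 2 ^ 36 + (X / 2 ^ 36 - e * Y) -
    (a - 2 ^ 36 * e * B) / 2 ^ 36 by field_simp; ring]
  refine (norm_sub_le _ _).trans (add_le_add ((norm_add_le _ _).trans (add_le_add ?_ h2)) ?_)
  · rw [norm_div, norm_pow, Complex.norm_two]
    linarith
  · rw [norm_div, norm_pow, Complex.norm_two, div_le_iff₀ (by positivity), mul_comm δ]
    exact h3

end Core

open NE.Core in
theorem coreOk (hT : StTab) (hC : StCord) (hR : StRot) (hE : StExp) (hN : StNrm) : StCore := by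
  intro n zx zy lx ly ax ay tl t3 z Λ A α δz δl δa hz hl ha htl ht3 hb dz dl da
  have hK : Kc = 1.6467602581210656 := rfl
  have o46 : Nat.shiftLeft (ow 48 n) 46 = pw 48 n fun _ => 2 ^ 46 := ow_shl (by norm_num) _ _
  have o47 : Nat.shiftLeft (ow 48 n) 47 = pw 48 n fun _ => 2 ^ 47 := ow_shl (by norm_num) _ _
  have l0 : ∀ p < n, 0 ≤ δl := fun p h => by
    obtain ⟨f, g, -, -, h1⟩ := hl
    have := (norm_nonneg _).trans (h1 p h)
    beta_reduce at this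
    linarith
  obtain ⟨px, py, h1, fpx, fpy, rfl, rfl, h1'⟩ := hR n 22 lx ly tl _ _ _ 0 (by norm_num)
    (by norm_num) hl htl fun p h => by
      have := (hb p h).2.1
      rw [norm_sc]
      linarith
  have L1 := fun p (h : p < n) => log_near (l0 p h) dl (hb p h).2.1 (h1' p h)
  have L2 := fun p (h : p < n) => lanes (L1 p h).1 (by norm_num)
  obtain ⟨fzx, fzy, rfl, rfl, hz'⟩ := hz
  have z0 : ∀ p < n, 0 ≤ δz := fun p h => by
    have := (norm_nonneg _).trans (hz' p h)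
    beta_reduce at this
    linarith
  have Z1 : ∀ p < n, ‖cz (fzx p) (fzy p)‖ ≤ 2 ^ 36 * 16.0006 := fun p h =>
    (norm_le_of (hz' p h) (c := 2 ^ 36 * 16) (by
      have := (hb p h).1
      beta_reduce
      rw [norm_sc]
      linarith)).trans (by beta_reduce; linarith)
  have s0 : sv (2 ^ 46) = 0 := by rw [sv]; push_cast; norm_num
  obtain ⟨r, y, t, h2, h2'⟩ := hC true n 23 fzx fzy (fun _ => 2 ^ 46) (by norm_num) (by norm_num)
    fun p h => ⟨by linarith [Z1 p h], by rw [s0]; norm_num⟩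
  rw [← o46] at h2
  have C1 : ∀ p < n, ‖cz (r p) (y p) * ee (sv (t p) / 2 ^ 44) - Kc * cz (fzx p) (fzy p)‖ ≤ 92.1 :=
    fun p h => by
      have h3 := (h2' p h).2.1
      have h4 := Z1 p h
      rw [s0, zero_div, show ee 0 = 1 by simpa using ee_int 0, mul_one] at h3
      push_cast at h3
      linarith
  have C2 : ∀ p < n, ‖cz (r p) (y p)‖ ≤ 2 ^ 41 := fun p h => by
    have h3 := norm_le_of (C1 p h) (c := 1.65 * (2 ^ 36 * 16.0006)) (by
      rw [norm_mul, Complex.norm_real, Real.norm_of_nonneg (by rw [hK]; norm_num)]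
      exact mul_le_mul (by rw [hK]; norm_num) (Z1 p h) (norm_nonneg _) (by norm_num))
    rw [norm_mul, norm_ee, mul_one] at h3
    linarith
  have C3 := fun p (h : p < n) => lanes (C2 p h) (by norm_num)
  have C4 : ∀ p < n, t p < 2 ^ 47 := fun p h => by
    have h3 := (h2' p h).1
    rw [s0, abs_zero, zero_add] at h3
    exact (lt_of_sv (h3.trans_lt (by norm_num))).2
  obtain ⟨q, v0, Q, h3, h3'⟩ := hE n (fun p => fpx p + 15161962992) 442048840 (fun p h => by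
    have h4 := abs_le.1 (L2 p h).1
    rw [sv] at h4
    rw [sv, abs_le]
    push_cast
    constructor <;> linarith [h4.1, h4.2]) (by norm_num) (by norm_num)
  rw [← pw_add, ← ow_mul (W := 48) (by norm_num), ← ow_mul (W := 48) (by norm_num)] at h3
  cases h4 : nrmS (ow 48 n) 25 0 (pw 48 n r - Nat.shiftLeft (ow 48 n) 46) (pw 48 n v0)
    (pw 48 n v0) with | mk R' V U
  cases h5 : rot (ow 48 n) 23 (V + Nat.shiftLeft (ow 48 n) 46) (Nat.shiftLeft (ow 48 n) 46)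
    (ang (ow 48 n) t3 (pw 48 n fpy) (pw 48 n t)) with | mk GX GY
  refine ⟨_, _, _, _, _, core_eq h1 h2 h3 h4 h5, fun hb' => ?_⟩
  simp only [Bool.and_eq_true] at hb'
  obtain ⟨⟨b1, b2⟩, b3, b4⟩ := hb'
  have B1 := rng_pw le_rfl (fun p h => (C3 p h).2.2.2.le) (by norm_num) b1
  rw [o47, pw_sub fun p h => (C3 p h).2.2.1.le] at b2
  have B2 := lek_pw le_rfl (fun p h => Nat.sub_le _ _) (by norm_num) b2
  have B2' : ∀ p < n, 2 ^ 46 ≤ r p := fun p h => by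
    have := B2 p h
    omega
  have B3 := rng_pw le_rfl (fun p h => (h3' p h).1.le) (by norm_num) b3
  have R0 : ∀ p < n, ((r p - 2 ^ 46 : ℕ) : ℝ) = sv (r p) := fun p h => by
    rw [Nat.cast_sub (B2' p h), sv]; push_cast; ring
  obtain ⟨r', v, u, P, h6, h6'⟩ := hN n (fun p => r p - 2 ^ 46) v0 fun p h => by
    obtain ⟨-, q1, q2, -, q3, q4⟩ := h3' p h
    have q5 := (abs_le.1 (C3 p h).1).2
    rw [← R0 p h] at q5
    have q6 : ((r p - 2 ^ 46 : ℕ) : ℝ) ≤ 2 ^ 42 := by linarith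
    have q7 : (2 ^ 28 : ℝ) ≤ v0 p := by push_cast at q3; linarith
    have q8 : 2 ^ 28 ≤ v0 p := by exact_mod_cast q7
    exact ⟨by exact_mod_cast q6, by omega, by push_cast at q4; linarith⟩
  rw [← pw_sub B2', ← o46, h4] at h6
  obtain ⟨rfl, rfl, rfl⟩ := h6
  have N1 : ∀ p < n, (r' p : ℝ) ≤ 2 ^ 41 * 19.1 ∧ (v p : ℝ) ≤ 2 ^ 42 ∧ (u p : ℝ) < 2 ^ 47 :=
    fun p h => by
      obtain ⟨-, q1, q2, -, -, q4⟩ := h3' p h
      obtain ⟨n1, n2, -, n3, -, n4, -, n5⟩ := h6' p h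
      have q5 := (abs_le.1 (C3 p h).1).2
      rw [R0 p h] at n3
      have q6 : (v0 p : ℝ) ≤ 442048840 * 19.1 := by push_cast at q4; linarith
      have q7 : P p ^ 2 ≤ 19.1 ^ 2 := pow_le_pow_left₀ (by linarith) n2 2
      have q8 : P p ^ 3 ≤ 19.1 ^ 3 := pow_le_pow_left₀ (by linarith) n2 3
      exact ⟨n3.trans (mul_le_mul q5 n2 (by linarith) (by norm_num)),
        n4.trans ((mul_le_mul q6 q7 (by positivity) (by norm_num)).trans (by norm_num)),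
        n5.trans_lt ((mul_le_mul q6 q8 (by positivity) (by norm_num)).trans_lt (by norm_num))⟩
  rw [ow_mul (by norm_num), pw_add] at b4
  have B4 := rng_pw le_rfl (fun p h => by
    have q1 : (r' p : ℝ) ≤ 2 ^ 46 := by linarith [(N1 p h).1]
    have q2 : r' p ≤ 2 ^ 46 := by exact_mod_cast q1
    omega) (by norm_num) b4
  have V1 : ∀ p, sv (v p + 2 ^ 46) = v p := fun p => by rw [sv]; push_cast; ring
  have V2 := VN_real n fun p => v p + 2 ^ 46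
  simp only [V1] at V2
  rw [← pw_add, ← o46] at V2
  obtain ⟨gx, gy, h7, fgx, fgy, rfl, rfl, h7'⟩ := hR n 23 _ _ _ _ _ _ 0 (by norm_num)
    (by norm_num) V2 (ang_ok ht3 (fun p h => (L2 p h).2.2.2) C4) fun p h => by
      rw [Complex.norm_real, Real.norm_of_nonneg (Nat.cast_nonneg _)]
      linarith [(N1 p h).2.1]
  rw [h5] at h7
  obtain ⟨rfl, rfl⟩ := h7
  obtain ⟨fax, fay, rfl, rfl, ha'⟩ := ha
  have G1 : ∀ p < n, ‖cz (fgx p) (fgy p) - Kc * (v p : ℝ) *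
      ee (3 * α p + sv (fpy p) / 2 ^ 36 - 2 * (sv (t p) / 2 ^ 44))‖ ≤ 60 + 4e-7 * v p := fun p h => by
    refine (h7' p h).trans ?_
    beta_reduce
    rw [Complex.norm_real, Real.norm_of_nonneg (Nat.cast_nonneg _)]
    have : (0 : ℝ) ≤ v p := Nat.cast_nonneg _
    push_cast
    linarith
  have G2 : ∀ p < n, ‖cz (fgx p) (fgy p)‖ ≤ 2 ^ 44 := fun p h => by
    have q1 := (N1 p h).2.1
    have q2 := norm_le_of (G1 p h) (c := 1.65 * 2 ^ 42) (by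
      rw [norm_mul, norm_mul, norm_ee, mul_one, Complex.norm_real, Complex.norm_real,
        Real.norm_of_nonneg (by rw [hK]; norm_num), Real.norm_of_nonneg (Nat.cast_nonneg _)]
      exact mul_le_mul (by rw [hK]; norm_num) q1 (Nat.cast_nonneg _) (by norm_num))
    linarith
  have A1 : ∀ p < n, ‖cz (fax p) (fay p)‖ ≤ 2 ^ 44 := fun p h =>
    (norm_le_of (ha' p h) (c := 2 ^ 36 * 64) (by
      have := (hb p h).2.2
      beta_reduce
      rw [norm_sc]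
      linarith)).trans (by beta_reduce; linarith)
  have X1 := fun p (h : p < n) => sub_lane (lanes (G2 p h) (by norm_num)).1
    (lanes (A1 p h) (by norm_num)).1
  have Y1 := fun p (h : p < n) => sub_lane (lanes (G2 p h) (by norm_num)).2.1
    (lanes (A1 p h) (by norm_num)).2.1
  refine ⟨fun p => fgx p + 2 ^ 46 - fax p, fun p => fgy p + 2 ^ 46 - fay p, v, u,
    by rw [o46, pw_add, pw_sub fun p h => (X1 p h).1],
    by rw [o46, pw_add, pw_sub fun p h => (Y1 p h).1], rfl, rfl, fun p h => ?_⟩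
  obtain ⟨q1, q2, q3⟩ := N1 p h
  have q4 : (v p : ℝ) < 2 ^ 47 := by linarith
  refine ⟨(X1 p h).2.1, (Y1 p h).2.1, by exact_mod_cast q4, by exact_mod_cast q3, ?_⟩
  obtain ⟨-, e1, e2, e3, e4, e5⟩ := h3' p h
  obtain ⟨n1, n2, n3, n4, n5, n6, n7, -⟩ := h6' p h
  rw [R0 p h] at n3 n4
  have M1 := modul (α := α p) n1 (hz' p h) (C1 p h) (by exact_mod_cast B1 p h) n3 n4 (by
    have := B4 p h
    rw [sv] at this
    push_cast at this
    rwa [show (r' p : ℝ) - 2 ^ 39 = r' p + 69818988363776 - 2 ^ 46 by ring])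
  push_cast at e4 e5
  obtain ⟨m1, m2, m3⟩ := prods e1 n1 e4 e5 n5 n6 n7
  have M2 := scalar (z0 p h) dz (l0 p h) dl (L1 p h).2
    (exp_near hT (by exact_mod_cast B3 p h) e3) e1 n1 n2 M1 m1 m2 m3
  have E1 : cz (fgx p + 2 ^ 46 - fax p) (fgy p + 2 ^ 46 - fay p) =
      cz (fgx p) (fgy p) - cz (fax p) (fay p) := by
    rw [cz, (X1 p h).2.2, (Y1 p h).2.2]; rfl
  beta_reduce
  rw [E1]
  refine (final (G1 p h) M2 (ha' p h)).trans ?_
  have : (0 : ℝ) ≤ v p := Nat.cast_nonneg _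
  linarith

end Pool.Agent.Lib.MP_5db4ad_nt.NE
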