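import Pool.Agent.Lib.MP_5db4ad_nt.H96NSt

/-!
The dual sum: its tail and its size.
-/

namespace Pool.Agent.Lib.MP_5db4ad_nt.NE

open S2 Finset
open scoped Real

namespace H96NDT

theorem v_nn (x : ℝ) : 0 ≤ V16 x := by
  unfold V16
  positivity

theorem v_le_one (x : ℝ) : V16 x ≤ 1 := by
  unfold V16
  rw [div_le_one (by positivity)]
  have : 0 ≤ x ^ 16 := by positivity
  linarith

theorem v_le {m Y : ℝ} (hm : 0 < m) (hY : 0 < Y) : V16 (m / Y) ≤ Y ^ 16 * (1 / m ^ 16) := by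
  unfold V16
  have e : Y ^ 16 * (1 / m ^ 16) = 1 / (m / Y) ^ 16 := by
    field_simp
  rw [e]
  exact one_div_le_one_div_of_le (by positivity) (by linarith)

theorem step {u : ℝ} (hu : 1 < u) :
    1 / u ^ 16 ≤ 1 / (30 * (u - 1) ^ 15) - 1 / (30 * (u + 1) ^ 15) := by
  have h1 : 0 < u - 1 := by linarith
  have h2 : 0 < u + 1 := by linarith
  have h0 : 0 < u := by linarith
  rw [div_sub_div _ _ (by positivity) (by positivity), div_le_div_iff₀ (by positivity)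
    (by positivity)]
  have a : 30 * u ^ 14 ≤ (u + 1) ^ 15 - (u - 1) ^ 15 := by
    have : (u + 1) ^ 15 - (u - 1) ^ 15 = 30 * u ^ 14 + 2 * (455 * u ^ 12 + 3003 * u ^ 10 +
      6435 * u ^ 8 + 5005 * u ^ 6 + 1365 * u ^ 4 + 105 * u ^ 2 + 1) := by ring
    rw [this]
    exact le_add_of_nonneg_right (by positivity)
  have b : ((u - 1) * (u + 1)) ^ 15 ≤ (u ^ 2) ^ 15 :=
    pow_le_pow_left₀ (by positivity) (by nlinarith) 15
  have c := mul_le_mul_of_nonneg_right a (by positivity : 0 ≤ u ^ 16)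
  calc 1 * (30 * (u - 1) ^ 15 * (30 * (u + 1) ^ 15)) = 900 * ((u - 1) * (u + 1)) ^ 15 := by ring
    _ ≤ 900 * (u ^ 2) ^ 15 := by linarith
    _ = 30 * (30 * u ^ 14 * u ^ 16) := by ring
    _ ≤ 30 * (((u + 1) ^ 15 - (u - 1) ^ 15) * u ^ 16) := by linarith
    _ = _ := by ring

theorem part {Y : ℝ} (hY : 0 < Y) {N : ℕ} (hN : 1 ≤ N) (n : ℕ) :
    ∑ i ∈ range n, V16 ((2 * ((i + N : ℕ) : ℝ) + 1) / Y) ≤
      Y ^ 16 * (1 / (30 * (2 * (N : ℝ)) ^ 15) - 1 / (30 * (2 * ((n + N : ℕ) : ℝ)) ^ 15)) := by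
  induction n with
  | zero => simp
  | succ n ih =>
    have h1 : (1 : ℝ) ≤ ((n + N : ℕ) : ℝ) := by exact_mod_cast le_add_left hN
    have h2 := step (u := 2 * ((n + N : ℕ) : ℝ) + 1) (by linarith)
    have h3 := v_le (m := 2 * ((n + N : ℕ) : ℝ) + 1) (by linarith) hY
    have h4 := mul_le_mul_of_nonneg_left h2 (by positivity : 0 ≤ Y ^ 16)
    have e1 : 2 * ((n + N : ℕ) : ℝ) + 1 - 1 = 2 * ((n + N : ℕ) : ℝ) := by ring
    have e2 : 2 * ((n + N : ℕ) : ℝ) + 1 + 1 = 2 * ((n + 1 + N : ℕ) : ℝ) := by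
      push_cast
      ring
    rw [e1, e2] at h4
    rw [sum_range_succ]
    linarith

theorem part' {Y : ℝ} (hY : 0 < Y) {N : ℕ} (hN : 1 ≤ N) (n : ℕ) :
    ∑ i ∈ range n, V16 ((2 * ((i + N : ℕ) : ℝ) + 1) / Y) ≤
      Y ^ 16 * (1 / (30 * (2 * (N : ℝ)) ^ 15)) := by
  refine (part hY hN n).trans (mul_le_mul_of_nonneg_left ?_ (by positivity))
  exact sub_le_self _ (by positivity)

theorem norm_ee (x : ℝ) : ‖ee x‖ = 1 := Complex.norm_exp_ofReal_mul_I _

theorem tail {Y : ℝ} (hY : 0 < Y) {N : ℕ} (hN : 1 ≤ N) (θ : ℕ → ℝ) :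
    ‖∑' j : ℕ, (V16 ((2 * j + 1) / Y) : ℂ) * ee (θ j) -
      ∑ j ∈ range N, (V16 ((2 * j + 1) / Y) : ℂ) * ee (θ j)‖ ≤
      Y ^ 16 * (1 / (30 * (2 * (N : ℝ)) ^ 15)) := by
  have hn : ∀ j : ℕ, ‖(V16 ((2 * j + 1) / Y) : ℂ) * ee (θ j)‖ = V16 ((2 * j + 1) / Y) := fun j => by
    rw [norm_mul, norm_ee, mul_one, Complex.norm_real, Real.norm_of_nonneg (v_nn _)]
  have s1 : Summable fun i : ℕ => V16 ((2 * ((i + N : ℕ) : ℝ) + 1) / Y) :=
    summable_of_sum_range_le (fun _ => v_nn _) (part' hY hN)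
  have s2 : Summable fun j : ℕ => V16 ((2 * (j : ℝ) + 1) / Y) :=
    (summable_nat_add_iff (f := fun j : ℕ => V16 ((2 * (j : ℝ) + 1) / Y)) N).1 s1
  have s3 : Summable fun j : ℕ => (V16 ((2 * j + 1) / Y) : ℂ) * ee (θ j) :=
    Summable.of_norm (by simpa only [hn] using s2)
  rw [← s3.sum_add_tsum_nat_add N, add_sub_cancel_left]
  refine (tsum_of_norm_bounded s1.hasSum fun i => (hn (i + N)).le).trans ?_
  exact Real.tsum_le_of_sum_range_le (fun _ => v_nn _) (part' hY hN)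

theorem l_lo : (0.6931 : ℝ) ≤ Real.log 2 := by
  have := Real.log_two_gt_d9
  linarith

theorem l_hi : Real.log 2 ≤ 0.6932 := by
  have := Real.log_two_lt_d9
  linarith

theorem l_pos : 0 < Real.log 2 := lt_of_lt_of_le (by norm_num) l_lo

theorem dual_eq (k : ℕ) : dualT k =
    ((3 / 4 * √(Real.log 2 / (k + 1 / 2)) : ℝ) : ℂ) * ee (ph (k + 1 / 2)) *
      ∑' j : ℕ, (V16 ((2 * j + 1) / (2 * (k + 1 / 2) / (Real.log 2 * 9000))) : ℂ) *
        ee ((k + 1 / 2) * (Real.log (2 * j + 1 : ℕ) / Real.log 2)) := by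
  have hl := l_pos
  have hp := Real.pi_pos
  have e1 : tk k / (2 * π) = (k + 1 / 2) / Real.log 2 := by
    unfold tk
    field_simp
  have e2 : tk k / (π * 9000) = 2 * (k + 1 / 2) / (Real.log 2 * 9000) := by
    unfold tk
    field_simp
  have e3 : ∀ j : ℕ, ex k (Real.log (2 * j + 1)) =
      ee ((k + 1 / 2) * (Real.log (2 * j + 1 : ℕ) / Real.log 2)) := fun j => by
    have : tk k * Real.log (2 * j + 1) =
        2 * π * ((k + 1 / 2) * (Real.log (2 * j + 1 : ℕ) / Real.log 2)) := by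
      unfold tk
      push_cast
      field_simp
    rw [ex, S2.ext, ee, this]
  have e4 : (((k : ℝ) + 1 / 2) / Real.log 2) ^ (-(1 / 2) : ℝ) = √(Real.log 2 / (k + 1 / 2)) := by
    rw [Real.rpow_neg (by positivity), ← Real.sqrt_eq_rpow, ← Real.sqrt_inv, inv_div]
  have e5 : -(tk k * Real.log ((k + 1 / 2) / Real.log 2) - tk k - π / 4) =
      2 * π * ph (k + 1 / 2) := by
    unfold tk ph
    field_simp
    ring
  have e6 : chi0 (tk k) = (√(Real.log 2 / (k + 1 / 2)) : ℝ) * ee (ph (k + 1 / 2)) := by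
    rw [chi0, e1, e4, ← Complex.ofReal_neg, e5, ee]
  unfold dualT
  rw [e6, e2]
  simp only [e3]
  push_cast
  ring

theorem cut_sum (k : ℕ) {N : ℕ} (hN : 1 ≤ N) :
    ‖dualT k - ee (ph (k + 1 / 2)) * ∑ j ∈ range N, (fD (2 * j + 1) (k + 1 / 2) : ℂ) *
      ee ((k + 1 / 2) * (Real.log (2 * j + 1 : ℕ) / Real.log 2))‖ ≤
      3 / 4 * √(Real.log 2 / (k + 1 / 2)) * ((2 * (k + 1 / 2) / (Real.log 2 * 9000)) ^ 16 *
        (1 / (30 * (2 * (N : ℝ)) ^ 15))) := by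
  have hl := l_pos
  have e : ee (ph (k + 1 / 2)) * ∑ j ∈ range N, (fD (2 * j + 1) (k + 1 / 2) : ℂ) *
      ee ((k + 1 / 2) * (Real.log (2 * j + 1 : ℕ) / Real.log 2)) =
      ((3 / 4 * √(Real.log 2 / (k + 1 / 2)) : ℝ) : ℂ) * ee (ph (k + 1 / 2)) *
      ∑ j ∈ range N, (V16 ((2 * j + 1) / (2 * (k + 1 / 2) / (Real.log 2 * 9000))) : ℂ) *
        ee ((k + 1 / 2) * (Real.log (2 * j + 1 : ℕ) / Real.log 2)) := by
    rw [mul_sum, mul_sum]
    refine sum_congr rfl fun j _ => ?_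
    rw [fD, Complex.ofReal_mul, Nat.cast_add, Nat.cast_mul, Nat.cast_one, Nat.cast_ofNat]
    ring
  rw [e, dual_eq, ← mul_sub, norm_mul, norm_mul, norm_ee, mul_one, Complex.norm_real,
    Real.norm_of_nonneg (by positivity)]
  exact mul_le_mul_of_nonneg_left (tail (by positivity) hN _) (by positivity)

theorem size (k : ℕ) {N : ℕ} (hN : 1 ≤ N) {c : ℝ}
    (hc : ∀ j < N, V16 ((2 * j + 1 : ℕ) / (2 * (k + 1 / 2) / (Real.log 2 * 9000))) ≤ c) :
    ‖dualT k‖ ≤ 3 / 4 * √(Real.log 2 / (k + 1 / 2)) * (N * c +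
      (2 * (k + 1 / 2) / (Real.log 2 * 9000)) ^ 16 * (1 / (30 * (2 * (N : ℝ)) ^ 15))) := by
  have h1 := cut_sum k hN
  have h2 : ‖ee (ph (k + 1 / 2)) * ∑ j ∈ range N, (fD (2 * j + 1) (k + 1 / 2) : ℂ) *
      ee ((k + 1 / 2) * (Real.log (2 * j + 1 : ℕ) / Real.log 2))‖ ≤
      3 / 4 * √(Real.log 2 / (k + 1 / 2)) * (N * c) := by
    rw [norm_mul, norm_ee, one_mul]
    refine (norm_sum_le _ _).trans ((sum_le_card_nsmul _ _
      (3 / 4 * √(Real.log 2 / (k + 1 / 2)) * c) fun j hj => ?_).trans ?_)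
    · rw [norm_mul, norm_ee, mul_one, Complex.norm_real, fD,
        Real.norm_of_nonneg (mul_nonneg (by positivity) (v_nn _))]
      exact mul_le_mul_of_nonneg_left (hc j (mem_range.1 hj)) (by positivity)
    · rw [card_range, nsmul_eq_mul]
      exact le_of_eq (by ring)
  have h3 := norm_le_norm_add_norm_sub' (dualT k)
    (ee (ph (k + 1 / 2)) * ∑ j ∈ range N, (fD (2 * j + 1) (k + 1 / 2) : ℂ) *
      ee ((k + 1 / 2) * (Real.log (2 * j + 1 : ℕ) / Real.log 2)))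
  rw [mul_add]
  linarith

theorem small (k : ℕ) {K s y : ℝ} (hK : (k : ℝ) + 1 / 2 ≤ K) (hs : 0 ≤ s)
    (h1 : 0.6932 * K ≤ s ^ 2) (h2 : 2 * K ≤ y * (0.6931 * 9000)) :
    ‖dualT k‖ ≤ 3 / 4 * (s * (2 / (0.6931 * 9000)) * y ^ 15) * 1.00001 := by
  have hl := l_pos
  have hk : (0 : ℝ) < k + 1 / 2 := by positivity
  have hY : 0 < 2 * ((k : ℝ) + 1 / 2) / (Real.log 2 * 9000) := by positivity
  have h := size k (N := 1) le_rfl (c := (2 * (k + 1 / 2) / (Real.log 2 * 9000)) ^ 16)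
    fun j hj => by
      obtain rfl : j = 0 := by omega
      simpa using v_le (m := 1) one_pos hY
  have y0 : 0 ≤ y := by nlinarith
  have a1 : 2 * ((k : ℝ) + 1 / 2) / (Real.log 2 * 9000) ≤ y := by
    rw [div_le_iff₀ (by positivity)]
    have := mul_le_mul_of_nonneg_left l_lo y0
    nlinarith
  have a2 : √(Real.log 2 / (k + 1 / 2)) * (k + 1 / 2) ≤ s := by
    refine le_of_sq_le_sq ?_ hs
    rw [mul_pow, Real.sq_sqrt (by positivity)]
    have e : Real.log 2 / (k + 1 / 2) * (k + 1 / 2) ^ 2 = Real.log 2 * (k + 1 / 2) := by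
      field_simp
    have := mul_le_mul l_hi hK hk.le (by norm_num)
    linarith
  have a3 : 2 / (Real.log 2 * 9000) ≤ 2 / (0.6931 * 9000) :=
    div_le_div_of_nonneg_left (by norm_num) (by norm_num) (by linarith [l_lo])
  have a4 := mul_le_mul (mul_le_mul a2 a3 (by positivity) hs) (pow_le_pow_left₀ hY.le a1 15)
    (by positivity) (by positivity)
  have e : √(Real.log 2 / (k + 1 / 2)) * (k + 1 / 2) * (2 / (Real.log 2 * 9000)) *
      (2 * ((k : ℝ) + 1 / 2) / (Real.log 2 * 9000)) ^ 15 =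
      √(Real.log 2 / (k + 1 / 2)) * (2 * ((k : ℝ) + 1 / 2) / (Real.log 2 * 9000)) ^ 16 := by
    ring
  rw [e] at a4
  have p : 0 ≤ √(Real.log 2 / (k + 1 / 2)) *
      (2 * ((k : ℝ) + 1 / 2) / (Real.log 2 * 9000)) ^ 16 := by positivity
  generalize √(Real.log 2 / (k + 1 / 2)) = r at h a4 p
  generalize (2 * ((k : ℝ) + 1 / 2) / (Real.log 2 * 9000)) ^ 16 = w at h a4 p
  generalize s * (2 / (0.6931 * 9000)) * y ^ 15 = b at a4 ⊢
  norm_num at h ⊢
  nlinarith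

theorem two (k : ℕ) (hk : k < 2 ^ 23) : ‖dualT k‖ ≤ 2 := by
  have hl := l_pos
  have l1 := l_lo
  have l2 := l_hi
  have k0 : (0 : ℝ) ≤ k := Nat.cast_nonneg k
  have k1 : (k : ℝ) + 1 ≤ 2 ^ 23 := by exact_mod_cast hk
  have hY : 0 < 2 * ((k : ℝ) + 1 / 2) / (Real.log 2 * 9000) := by positivity
  have a1 : √(Real.log 2 / (k + 1 / 2)) ≤ 1.2 := by
    rw [Real.sqrt_le_left (by norm_num), div_le_iff₀ (by positivity)]
    nlinarith
  have a2 : √(Real.log 2 / (k + 1 / 2)) * (2 * ((k : ℝ) + 1 / 2) / (Real.log 2 * 9000)) ≤ 1 := by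
    refine le_of_sq_le_sq ?_ zero_le_one
    rw [mul_pow, Real.sq_sqrt (by positivity)]
    have e : Real.log 2 / (k + 1 / 2) * (2 * ((k : ℝ) + 1 / 2) / (Real.log 2 * 9000)) ^ 2 =
        4 * (k + 1 / 2) / (Real.log 2 * 9000 ^ 2) := by
      field_simp
      ring
    rw [e, div_le_iff₀ (by positivity)]
    nlinarith
  generalize hy : 2 * ((k : ℝ) + 1 / 2) / (Real.log 2 * 9000) = Y at hY a2
  have n1 : 1 ≤ ⌈Y / 2⌉₊ := Nat.one_le_iff_ne_zero.2 (Nat.ceil_pos.2 (by positivity)).ne'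
  have n2 : Y / 2 ≤ ⌈Y / 2⌉₊ := Nat.le_ceil _
  have n3 : (⌈Y / 2⌉₊ : ℝ) < Y / 2 + 1 := Nat.ceil_lt_add_one (by positivity)
  have h := size k n1 (c := 1) fun _ _ => v_le_one _
  rw [hy] at h
  generalize (⌈Y / 2⌉₊ : ℝ) = N at n2 n3 h
  have a3 : Y ^ 16 * (1 / (30 * (2 * N) ^ 15)) ≤ Y / 30 := by
    have b : Y ^ 15 ≤ (2 * N) ^ 15 := pow_le_pow_left₀ hY.le (by linarith) 15
    have c : 0 < (2 * N) ^ 15 := lt_of_lt_of_le (by positivity) b
    rw [mul_one_div, div_le_div_iff₀ (by positivity) (by norm_num)]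
    have := mul_le_mul_of_nonneg_left b hY.le
    calc Y ^ 16 * 30 = 30 * (Y * Y ^ 15) := by ring
      _ ≤ 30 * (Y * (2 * N) ^ 15) := by linarith
      _ = _ := by ring
  have r0 := Real.sqrt_nonneg (Real.log 2 / (k + 1 / 2))
  generalize √(Real.log 2 / (k + 1 / 2)) = r at h a1 a2 r0
  have a4 : r * (N * 1 + Y ^ 16 * (1 / (30 * (2 * N) ^ 15))) ≤ r * (Y / 2 + 1 + Y / 30) :=
    mul_le_mul_of_nonneg_left (by linarith) r0
  nlinarith

end H96NDT

open H96NDT in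
theorem dtOk : StDT := by
  refine ⟨fun k N k0 k1 hN h0 h1 h2 => (cut_sum k hN).trans ?_, two, fun k hk => ?_, fun k hk => ?_⟩
  · have hl := l_pos
    have n1 : (1 : ℝ) ≤ N := by exact_mod_cast hN
    have a1 : √(Real.log 2 / (k + 1 / 2)) ≤ √(Real.log 2 / k0) :=
      Real.sqrt_le_sqrt (div_le_div_of_nonneg_left hl.le h0 h1)
    have a2 : (2 * ((k : ℝ) + 1 / 2) / (Real.log 2 * 9000)) ^ 16 ≤
        (2 * k1 / (Real.log 2 * 9000)) ^ 16 :=
      pow_le_pow_left₀ (by positivity)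
        (div_le_div_of_nonneg_right (by linarith) (by positivity)) 16
    have a3 : 1 / (30 * (2 * (N : ℝ)) ^ 15) ≤ (1 + N / 15) / (2 * N) ^ 16 := by
      have e : 1 / (30 * (2 * (N : ℝ)) ^ 15) = (N / 15) / (2 * N) ^ 16 := by
        field_simp
        ring
      rw [e]
      exact div_le_div_of_nonneg_right (by linarith) (by positivity)
    rw [mul_assoc (3 / 4 * √(Real.log 2 / k0))]
    exact mul_le_mul (by linarith) (mul_le_mul a2 a3 (by positivity) (by positivity))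
      (by positivity) (by positivity)
  · have k1 : (k : ℝ) + 1 ≤ 1024 := by exact_mod_cast hk
    refine (small k (K := 1024) (s := 26.7) (y := 0.33) (by linarith) (by norm_num) (by norm_num)
      (by norm_num)).trans (by norm_num)
  · have k1 : (k : ℝ) + 1 ≤ 2048 := by exact_mod_cast hk
    refine (small k (K := 2048) (s := 37.7) (y := 0.6567) (by linarith) (by norm_num) (by norm_num)
      (by norm_num)).trans (by norm_num)

end Pool.Agent.Lib.MP_5db4ad_nt.NE
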