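import Pool.Agent.Lib.MP_5db4ad_nt.H96NLaneB

/-!
The dual sum on a block.
-/

namespace Pool.Agent.Lib.MP_5db4ad_nt.NE

open S2 Finset
open scoped Real

namespace Dua

lemma fz_of {β : Type} {a b : ℕ} {k : ℕ → β} {r : β} (h : a = b) (h' : k b = r) : fz a k = r := by
  rw [fz_eq, h, h']

lemma T2_ex (t : T2) : ∃ a b, t = T2.mk a b := by cases t with | mk a b => exact ⟨a, b, rfl⟩

lemma dual_eq {lm a k0 c e H d v E G0 n k1 k2 R J x0 y0 x1 y1 x2 y2 x3 y3 x4 y4 x y : ℕ} {U : Us}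
    (hn : 2 ^ (a - 2) = n) (hk1 : k0 + 2 ^ (a - 1) = k1) (hk2 : k0 + 2 ^ a = k2)
    (hR : mapV 192 (dw (isq (dA k0) / 2 ^ 16) (isq (dA k1) / 2 ^ 16) (isq (dA k2) / 2 ^ 16)
      (dR k0) (dR k1) (dR k2)) d v = R) (hJ : ovl n (pre a U.u1) = J)
    (h0 : chn lm a (grd lm d v E (wtN d R 0) (kc2 a k0)) G0 H = T2.mk x0 y0)
    (h1 : chn lm a (grd lm d v E (wtN d R 48) (kc2 a k0)) G0 H = T2.mk x1 y1)
    (h2 : chn lm a (grd lm d v E (wtN d R 96) (kc2 a k0)) G0 H = T2.mk x2 y2)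
    (h3 : rmp (oN n) J a x2 y2 x1 y1 a = T2.mk x3 y3)
    (h4 : rmp (oN n) J a x3 y3 x0 y0 a = T2.mk x4 y4)
    (h5 : rot (oN n) 20 x4 (Nat.shiftLeft (oN n) 47 - y4)
      (angW n (phD lm a k0 (lam c e) U) 116) = T2.mk x y) :
    dual lm a k0 c e H U (Ch.mk d v E G0) =
      T5.mk (((isqOk (dA k0) (isq (dA k0)) && isqOk (dA k1) (isq (dA k1))) &&
          isqOk (dA k2) (isq (dA k2))) && (Nat.beq k0 (Nat.shiftLeft (c + c + 1) e) &&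
          Nat.ble (smW 192 (fld (ow 192 (p2 d)) R 168 24)) 90000000))
        (dv4 (oN n) x) (dv4 (oN n) y) (smW 192 (fld (ow 192 (p2 d)) R 144 24))
        (smW 192 (fld (ow 192 (p2 d)) R 168 24)) := by
  rw [← p2_eq] at hn hk1 hk2
  have sh : ∀ s, Nat.shiftRight s 16 = s / 2 ^ 16 := fun s => Nat.shiftRight_eq_div_pow s 16
  unfold dual
  revert h0 h1 h2 h3 h4 h5
  obtain ⟨C, hC⟩ : ∃ C, chn = C := ⟨_, rfl⟩
  obtain ⟨P, hP⟩ : ∃ P, rmp = P := ⟨_, rfl⟩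
  obtain ⟨Q, hQ⟩ : ∃ Q, rot = Q := ⟨_, rfl⟩
  rw [hC, hP, hQ]
  intro h0 h1 h2 h3 h4 h5
  dsimp only
  apply fz_of hn
  apply fz_of hk1
  apply fz_of hk2
  iterate 3 apply fz_of rfl
  iterate 3 apply fz_of (sh _)
  iterate 3 apply fz_of rfl
  apply fz_of hR
  apply fz_of hJ
  rw [h0, h1, h2]
  dsimp only
  rw [h3]
  dsimp only
  rw [h4]
  dsimp only
  rw [Nat.sub_eq, h5]
  iterate 4 apply fz_of rfl
  rfl

lemma rmpV (h : StRmp) {n a X Y X0 Y0 : ℕ} {j : ℕ → ℕ} {z z0 : ℕ → ℂ} {e e0 : ℝ} (ha : 1 ≤ a)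
    (ha' : a ≤ 16) (hj : ∀ p < n, j p < 2 ^ a) (h1 : VN n X Y z fun _ => e)
    (h0 : VN n X0 Y0 z0 fun _ => e0) (b1 : ∀ p < n, ‖z p‖ + e ≤ 2 ^ 44)
    (b0 : ∀ p < n, ‖z0 p‖ + e0 ≤ 2 ^ 44) :
    ∃ X' Y', rmp (ow 48 n) (pw 48 n fun p => 2 * j p + 1) a X Y X0 Y0 a = T2.mk X' Y' ∧
      VN n X' Y' (fun p => z0 p + (((2 * j p + 1 - 2 ^ a) / 2 ^ a : ℝ) : ℂ) * z p)
        fun _ => e0 + e + 24 := by
  obtain ⟨f, g, rfl, rfl, h1⟩ := h1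
  obtain ⟨f0, g0, rfl, rfl, h0⟩ := h0
  obtain ⟨X', Y', e1, e2⟩ := h n a j f g f0 g0 ha ha' fun p hp => ⟨hj p hp, by
    linarith [norm_le_insert' (cz (f p) (g p)) (z p), h1 p hp, b1 p hp], by
    linarith [norm_le_insert' (cz (f0 p) (g0 p)) (z0 p), h0 p hp, b0 p hp]⟩
  refine ⟨X', Y', e1, e2.mono fun p hp => ?_⟩
  set t : ℝ := (2 * j p + 1 - 2 ^ a) / 2 ^ a with ht
  have t1 : |t| ≤ 1 := by
    have : (j p : ℝ) + 1 ≤ 2 ^ a := by exact_mod_cast hj p hp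
    have : (0 : ℝ) ≤ j p := Nat.cast_nonneg _
    rw [ht, abs_div, abs_of_pos (by positivity : (0 : ℝ) < 2 ^ a), div_le_one (by positivity),
      abs_le]
    constructor <;> linarith
  have a16 : (a : ℝ) ≤ 16 := by exact_mod_cast ha'
  have e3 : cz (f0 p) (g0 p) + t * cz (f p) (g p) - (z0 p + t * z p) =
      (cz (f0 p) (g0 p) - z0 p) + t * (cz (f p) (g p) - z p) := by ring
  have e4 := norm_add_le (cz (f0 p) (g0 p) - z0 p) (t * (cz (f p) (g p) - z p))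
  rw [norm_mul, Complex.norm_real, Real.norm_eq_abs] at e4
  rw [e3]
  nlinarith [h1 p hp, h0 p hp, norm_nonneg (cz (f p) (g p) - z p), abs_nonneg t]

lemma rotV (h : StRot) {n X Y T : ℕ} {z : ℕ → ℂ} {θ : ℕ → ℝ} {e η Z : ℝ}
    (h1 : VN n X Y z fun _ => e) (h2 : AN n T θ η) (b : ∀ p < n, ‖z p‖ + e ≤ Z) (hZ : Z ≤ 2 ^ 44) :
    ∃ X' Y', rot (ow 48 n) 20 X Y T = T2.mk X' Y' ∧
      VN n (dv4 (ow 48 n) X') (dv4 (ow 48 n) Y') (fun p => Kc * z p * ee (θ p) / 16)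
        fun _ => (85 + 1.647 * e + Z * (3.2e-6 + 10.4 * η)) / 16 := by
  obtain ⟨t, rfl, ht⟩ := h2
  have e0 : ∀ p < n, 0 ≤ e := fun p hp => by
    obtain ⟨f, g, -, -, h1⟩ := h1
    exact (norm_nonneg _).trans (h1 p hp)
  obtain ⟨X', Y', e1, f, g, rfl, rfl, e2⟩ := h n 20 X Y (pw 48 n t) z (fun _ => e)
    (fun p => sv (t p) / 2 ^ 44) 0 le_rfl (by norm_num) h1
    ⟨t, rfl, fun p hp => ⟨(ht p hp).1, 0, by simp⟩⟩ fun p hp => by linarith [b p hp]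
  have K0 : 0 ≤ Kc := by norm_num [Kc]
  have K1 : Kc ≤ 1.647 := by norm_num [Kc]
  have nz : ∀ p x, ‖Kc * z p * ee x‖ = Kc * ‖z p‖ := fun p x => by
    rw [norm_mul, norm_mul, norm_ee, mul_one, Complex.norm_real, Real.norm_of_nonneg K0]
  have e3 : ∀ p < n, ‖cz (f p) (g p) - Kc * z p * ee (sv (t p) / 2 ^ 44)‖ ≤
      52.5 + 1.647 * e + Z * 3.2e-6 := fun p hp => by
    refine (e2 p hp).trans ?_
    have := b p hp
    have := norm_nonneg (z p)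
    have := e0 p hp
    push_cast
    nlinarith
  have e4 : ∀ p < n, f p < 2 ^ 47 ∧ g p < 2 ^ 47 := fun p hp => by
    have a1 := norm_le_insert' (cz (f p) (g p)) (Kc * z p * ee (sv (t p) / 2 ^ 44))
    have a2 := sv_le_norm (f p) (g p)
    have a3 : Kc * ‖z p‖ ≤ 1.647 * ‖z p‖ := mul_le_mul_of_nonneg_right K1 (norm_nonneg _)
    have := b p hp
    have := e3 p hp
    have := norm_nonneg (z p)
    have := e0 p hp
    rw [nz] at a1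
    exact ⟨(lt_of_sv (by linarith [a2.1])).2, (lt_of_sv (by linarith [a2.2])).2⟩
  obtain ⟨f', r1, r2⟩ := dv4_pw fun p hp => (e4 p hp).1
  obtain ⟨g', r3, r4⟩ := dv4_pw fun p hp => (e4 p hp).2
  refine ⟨_, _, e1, f', g', r1, r3, fun p hp => ?_⟩
  obtain ⟨-, m, hm⟩ := ht p hp
  have a1 : ‖cz (f' p) (g' p) - cz (f p) (g p) / 16‖ ≤ 2 := by
    refine (Complex.norm_le_abs_re_add_abs_im _).trans ?_
    have := r2 p hp
    have := r4 p hp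
    simp only [cz, Complex.sub_re, Complex.sub_im, Complex.div_ofNat_re, Complex.div_ofNat_im]
    linarith
  have a2 : ‖ee (sv (t p) / 2 ^ 44) - ee (θ p)‖ ≤ 6.3 * η := by
    refine (norm_ee_sub _ _ m).trans (mul_le_mul (by linarith [Real.pi_lt_d2]) hm (abs_nonneg _)
      (by norm_num))
  have a3 : ‖Kc * z p * ee (sv (t p) / 2 ^ 44) - Kc * z p * ee (θ p)‖ ≤ Z * (10.4 * η) := by
    rw [← mul_sub, norm_mul, norm_mul, Complex.norm_real, Real.norm_of_nonneg K0]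
    have η0 : 0 ≤ η := (abs_nonneg _).trans hm
    have : ‖z p‖ ≤ Z := by linarith [b p hp, e0 p hp]
    calc Kc * ‖z p‖ * _ ≤ 1.647 * Z * (6.3 * η) := by
          have := norm_nonneg (z p)
          gcongr
          linarith
      _ ≤ _ := by nlinarith [mul_nonneg ((norm_nonneg _).trans this) η0]
  have a4 : cz (f' p) (g' p) - Kc * z p * ee (θ p) / 16 = (cz (f' p) (g' p) - cz (f p) (g p) / 16) +
      ((cz (f p) (g p) - Kc * z p * ee (sv (t p) / 2 ^ 44)) +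
        (Kc * z p * ee (sv (t p) / 2 ^ 44) - Kc * z p * ee (θ p))) / 16 := by ring
  rw [a4]
  refine (norm_add_le _ _).trans ?_
  rw [norm_div, Complex.norm_ofNat]
  linarith [norm_add_le (cz (f p) (g p) - Kc * z p * ee (sv (t p) / 2 ^ 44))
    (Kc * z p * ee (sv (t p) / 2 ^ 44) - Kc * z p * ee (θ p)), e3 p hp]

lemma K0 : 0 ≤ Kc := by norm_num [Kc]

lemma K2 : Kc ^ 2 ≤ 2.712 := by norm_num [Kc]

lemma K3 : 0 < Kc ^ 3 ∧ Kc ^ 3 ≤ 4.466 := by norm_num [Kc]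

lemma norm_raw (n : ℕ) (B g : ℕ → ℕ) (κ : ℝ) :
    ‖raw n B g κ‖ ≤ 2.712 / 2 ^ 40 * ∑ p ∈ range n, |sv (B p)| := by
  rw [raw, norm_mul, Complex.norm_real, Real.norm_of_nonneg (by positivity)]
  refine mul_le_mul (by gcongr; exact K2) ((norm_sum_le _ _).trans (sum_le_sum fun p _ => ?_))
    (norm_nonneg _) (by norm_num)
  rw [norm_mul, norm_ee, mul_one, Complex.norm_real, Real.norm_eq_abs]

/-- error of one channel -/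
noncomputable def eps (lm a d : ℕ) (m : ℝ) : ℝ :=
  m / 2 ^ 40 * (2.1e-6 + 1.2e-6 / 2 ^ (14 * (lm - 2 - a))) + 2 ^ d * 4e-10 + 2 ^ lm * 4.2e-11 + 1e-9

lemma chV (hG : StGrd) (hC : StChn) {lm a k0 du d v E H : ℕ} {A g m B : ℕ → ℕ}
    (hP : Par lm a k0 du) (d2 : 2 ≤ d) (d12 : d ≤ 12) (hS : Src (2 ^ d) v A g m)
    (hE : EOK lm d E g) (hH : HOK lm H) (b1 : ∀ p < 2 ^ d, |sv (B p)| ≤ 2 ^ 39)
    (b2 : ∑ p ∈ range (2 ^ d), |sv (B p)| ≤ 5.9e12) :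
    ∃ X Y, chn lm a (grd lm d v E (pw 48 (2 ^ d) fun p => B (sig (2 ^ (d - 2)) p)) (kc2 a k0))
        (mkG lm d v E) H = T2.mk X Y ∧
      VN (2 ^ a) X Y (fun p => 2 ^ 36 * ee (al lm a (sig (2 ^ (a - 2)) p)) *
        raw (2 ^ d) B g ((k0 + sig (2 ^ (a - 2)) p : ℕ) + 1 / 2))
        fun _ => 2 ^ 36 * eps lm a d (∑ p ∈ range (2 ^ d), |sv (B p)|) := by
  obtain ⟨l5, l18, a2, al2, -, -, hk⟩ := hP
  set M := ∑ p ∈ range (2 ^ d), |sv (B p)| with hM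
  have M0 : 0 ≤ M := sum_nonneg fun _ _ => abs_nonneg _
  have c1 : kc2 a k0 = k0 + k0 + 2 ^ a + 1 := by rw [← p2_eq]; rfl
  have e1 : 2 ^ a = 2 * 2 ^ (a - 1) := by rw [← pow_succ']; congr 1; omega
  have e2 : 2 ^ lm = 8 * 2 ^ (a - 1) * 2 ^ (lm - 2 - a) := by
    rw [show 8 = 2 ^ 3 from rfl, ← pow_add, ← pow_add]; congr 1; omega
  have D : (2 : ℝ) ^ d ≤ 2 ^ 12 := pow_le_pow_right₀ one_le_two d12
  have D0 : (0 : ℝ) < 2 ^ d := by positivity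
  have g1 := hG lm d v E (kc2 a k0) (2 ^ (a - 1)) A g m B M l5 l18 d2 (by omega) hS hE (by omega)
    (by rw [e2]; exact Nat.le_mul_of_pos_right _ (by positivity)) b1 le_rfl
  obtain ⟨X, Y, h1, h2⟩ := hC lm a _ _ H _ _ _ l5 l18 a2 al2 hH g1 (by linarith)
  refine ⟨X, Y, h1, h2.mono fun p _ => ?_⟩
  have e3 : ((kc2 a k0 : ℕ) : ℝ) / 2 + (((sig (2 ^ (a - 2)) p : ℤ) - 2 ^ (a - 1) : ℤ) : ℝ) =
      (k0 + sig (2 ^ (a - 2)) p : ℕ) + 1 / 2 := by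
    rw [c1, e1]
    push_cast
    ring
  have e4 : (8 * ((2 ^ (a - 1) : ℕ) : ℝ) / 2 ^ lm) ^ 14 = 1 / 2 ^ (14 * (lm - 2 - a)) := by
    have : (2 : ℝ) ^ lm = 8 * 2 ^ (a - 1) * 2 ^ (lm - 2 - a) := by exact_mod_cast e2
    rw [this, mul_comm 14, pow_mul, ← one_div_pow]
    congr 1
    push_cast
    field_simp
  rw [e3, sub_self, norm_zero, add_zero, e4, eps, div_eq_mul_one_div (1.2e-6 : ℝ)]
  have r0 : (0 : ℝ) ≤ 1 / 2 ^ (14 * (lm - 2 - a)) := by positivity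
  generalize (1 : ℝ) / 2 ^ (14 * (lm - 2 - a)) = r at r0
  nlinarith [mul_nonneg M0 r0]

lemma ident (n : ℕ) (w0 w1 w2 g : ℕ → ℕ) (κ y α φ : ℝ) :
    Kc * (starRingEnd ℂ) (2 ^ 36 * ee α * raw n w0 g κ + y * (2 ^ 36 * ee α * raw n w1 g κ +
      y * (2 ^ 36 * ee α * raw n w2 g κ))) * ee (φ + 2 * α) / 16 =
    2 ^ 36 * ee α * (ee φ * ∑ p ∈ range n, ((Kc ^ 3 / 2 ^ 44 *
      (sv (w0 p) + y * (sv (w1 p) + y * sv (w2 p))) : ℝ) : ℂ) * ee (κ * (g p / 2 ^ 64))) := by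
  have c : ∀ w : ℕ → ℕ, (starRingEnd ℂ) (raw n w g κ) = ((Kc ^ 2 / 2 ^ 40 : ℝ) : ℂ) *
      ∑ p ∈ range n, (sv (w p) : ℂ) * ee (κ * (g p / 2 ^ 64)) := fun w => by
    rw [raw, map_mul, Complex.conj_ofReal, map_sum]
    refine congrArg _ (sum_congr rfl fun p _ => ?_)
    rw [map_mul, Complex.conj_ofReal, conj_ee]
    congr 2
    ring
  have e : ee (φ + 2 * α) * ee (-α) = ee α * ee φ := by
    rw [← ee_add, ← ee_add]
    congr 1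
    ring
  have s : ∑ p ∈ range n, ((Kc ^ 3 / 2 ^ 44 *
      (sv (w0 p) + y * (sv (w1 p) + y * sv (w2 p))) : ℝ) : ℂ) * ee (κ * (g p / 2 ^ 64)) =
      Kc ^ 3 / 2 ^ 44 * (∑ p ∈ range n, (sv (w0 p) : ℂ) * ee (κ * (g p / 2 ^ 64)) +
        y * (∑ p ∈ range n, (sv (w1 p) : ℂ) * ee (κ * (g p / 2 ^ 64)) +
          y * ∑ p ∈ range n, (sv (w2 p) : ℂ) * ee (κ * (g p / 2 ^ 64)))) := by
    simp only [mul_sum, ← sum_add_distrib]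
    refine sum_congr rfl fun p _ => ?_
    push_cast
    ring
  simp only [map_add, map_mul, map_pow, map_ofNat, Complex.conj_ofReal, conj_ee, c]
  rw [s]
  push_cast
  linear_combination (Kc ^ 3 / 2 ^ 8 * (∑ p ∈ range n, (sv (w0 p) : ℂ) * ee (κ * (g p / 2 ^ 64)) +
        y * (∑ p ∈ range n, (sv (w1 p) : ℂ) * ee (κ * (g p / 2 ^ 64)) +
          y * ∑ p ∈ range n, (sv (w2 p) : ℂ) * ee (κ * (g p / 2 ^ 64)))) : ℂ) * e

/-- one source -/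
lemma one {w0 w1 w2 F0 F1 F2 F I S q s y t x x' κ : ℝ} (hy : |y| ≤ 1) (ht : 0 ≤ t)
    (h1 : |w0| + |w1| + |w2| ≤ s * 2 ^ 16)
    (h2 : |w0 - 2 ^ 44 / Kc ^ 3 * F0| + |w1 - 2 ^ 44 / Kc ^ 3 * F1| + |w2 - 2 ^ 44 / Kc ^ 3 * F2| ≤ 10)
    (h3 : 2 ^ 44 / Kc ^ 3 * S ≤ (q + 1) * 2 ^ 26) (hq : 0 ≤ q)
    (h4 : |F - (F0 + y * (F1 + y * F2))| ≤ I) (h5 : I = t * (0.385 / 6) * S)
    (hκ : |κ| ≤ 2 ^ 23) (hx : |x - x'| ≤ 1 / 2 ^ 61) :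
    ‖((Kc ^ 3 / 2 ^ 44 * (w0 + y * (w1 + y * w2)) : ℝ) : ℂ) * ee (κ * x) - (F : ℂ) * ee (κ * x')‖ ≤
      t * (q + 1) * 1.1e-6 + 3e-12 + s * 4e-19 := by
  obtain ⟨k0, k1⟩ := K3
  set c := Kc ^ 3 / 2 ^ 44 with hc
  have c0 : 0 ≤ c := by positivity
  have c1 : c ≤ 4.466 / 2 ^ 44 := by rw [hc]; gcongr
  have tri : ∀ a b d : ℝ, |a + y * (b + y * d)| ≤ |a| + |b| + |d| := fun a b d => by
    have i1 := abs_add_le a (y * (b + y * d))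
    have i2 := abs_add_le b (y * d)
    rw [abs_mul] at i1 i2
    nlinarith [abs_nonneg y, abs_nonneg d, abs_nonneg (b + y * d)]
  set W := w0 + y * (w1 + y * w2) with hW
  have a1 : |c * W - (F0 + y * (F1 + y * F2))| ≤ 3e-12 := by
    have : c * W - (F0 + y * (F1 + y * F2)) = c * ((w0 - 2 ^ 44 / Kc ^ 3 * F0) +
        y * ((w1 - 2 ^ 44 / Kc ^ 3 * F1) + y * (w2 - 2 ^ 44 / Kc ^ 3 * F2))) := by
      have : Kc ≠ 0 := by norm_num [Kc]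
      rw [hc, hW]
      field_simp
      ring
    rw [this, abs_mul, abs_of_nonneg c0]
    exact (mul_le_mul c1 ((tri _ _ _).trans h2) (abs_nonneg _) (by norm_num)).trans (by norm_num)
  have a2 : S ≤ (q + 1) * (4.466 / 2 ^ 18) := by
    rw [div_mul_eq_mul_div, div_le_iff₀ k0] at h3
    nlinarith [mul_le_mul_of_nonneg_left k1 (by linarith : 0 ≤ q + 1)]
  have a3 : I ≤ t * (q + 1) * 1.1e-6 := by
    have := mul_le_mul_of_nonneg_left a2 ht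
    have := mul_nonneg ht hq
    rw [h5]
    nlinarith
  have a4 : ‖ee (κ * x) - ee (κ * x')‖ ≤ 2.3e-11 := by
    refine (norm_ee_sub _ _ 0).trans ?_
    rw [Int.cast_zero, sub_zero, ← mul_sub, abs_mul]
    calc 2 * π * (|κ| * |x - x'|) ≤ 2 * 3.15 * (2 ^ 23 * (1 / 2 ^ 61)) := by
          gcongr
          exact Real.pi_lt_d2.le
      _ ≤ _ := by norm_num
  have a5 : |c * W| ≤ 4.466 / 2 ^ 44 * (s * 2 ^ 16) := by
    rw [abs_mul, abs_of_nonneg c0]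
    exact mul_le_mul c1 ((tri _ _ _).trans h1) (abs_nonneg _) (by norm_num)
  have a6 : ((c * W : ℝ) : ℂ) * ee (κ * x) - (F : ℂ) * ee (κ * x') =
      ((c * W : ℝ) : ℂ) * (ee (κ * x) - ee (κ * x')) + ((c * W - F : ℝ) : ℂ) * ee (κ * x') := by
    push_cast
    ring
  rw [a6]
  refine (norm_add_le _ _).trans ?_
  rw [norm_mul, norm_mul (_ : ℂ) (ee _), norm_ee, Complex.norm_real, Complex.norm_real,
    Real.norm_eq_abs, Real.norm_eq_abs, mul_one]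
  have a7 := mul_le_mul a5 a4 (norm_nonneg _) ((abs_nonneg _).trans a5)
  have a8 := abs_sub_le (c * W) (F0 + y * (F1 + y * F2)) F
  rw [abs_sub_comm (F0 + _) F] at a8
  have s0 : 0 ≤ s := by nlinarith [abs_nonneg w0, abs_nonneg w1, abs_nonneg w2]
  linarith

lemma fields {w0 w1 w2 q s r : ℕ} (h0 : w0 < 2 ^ 47) (h1 : w1 < 2 ^ 47) (h2 : w2 < 2 ^ 47)
    (h3 : q < 2 ^ 24) (h4 : s < 2 ^ 24)
    (hr : r = w0 + w1 * 2 ^ 48 + w2 * 2 ^ 96 + q * 2 ^ 144 + s * 2 ^ 168) :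
    r < 2 ^ 192 ∧ r / 2 ^ 0 % 2 ^ 48 = w0 ∧ r / 2 ^ 48 % 2 ^ 48 = w1 ∧ r / 2 ^ 96 % 2 ^ 48 = w2 ∧
      r / 2 ^ 144 % 2 ^ 24 = q ∧ r / 2 ^ 168 % 2 ^ 24 = s := by
  omega

lemma eDual_cast (lm a k0 d q m : ℕ) : ((eDual lm a k0 d q m : ℚ) : ℝ) =
    (2 ^ a / (2 * k0)) ^ 3 * (q + 2 ^ d) * 1.1e-6 +
    (isq (dA k0) / 2 ^ 16 + 1) * (dR (k0 + 2 ^ a) + 1) * 4.47 / 2 ^ 108 *
      ((1 + 2 ^ d / 15) / (2 * 2 ^ d) ^ 16) +
    2 ^ d * 3e-12 + 0.1031 * (eps lm a d (m * 2 ^ 16) + 2 ^ d * 8e-10 + 2 ^ lm * 8.4e-11 + 2e-9) +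
    1e-9 + (m * 2.72 / 2 ^ 28 + 1e-4) * (5e-6 + 0.21 * 2 ^ a * (2 ^ a / k0) ^ 8) := by
  unfold eDual eCh eps
  push_cast
  ring

lemma main (hG : StGrd) (hC : StChn) (hR : StRmp) (hI : StInt) (hDT : StDT) (hDw : StDw)
    (hRot : StRot) {lm a k0 du d v E H T R : ℕ} {A g m : ℕ → ℕ} (hP : Par lm a k0 du)
    (hk : 2048 ≤ k0) (d2 : 2 ≤ d) (d12 : d ≤ 12) (hS : Src (2 ^ d) v A g m)
    (hm : ∀ p < 2 ^ d, 1 ≤ m p ∧ m p < 2 * 2 ^ d ∧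
      |(g p : ℝ) / 2 ^ 64 - Real.log (m p) / Real.log 2| ≤ 1 / 2 ^ 61)
    (hsum : ∀ φ : ℕ → ℂ, ∑ p ∈ range (2 ^ d), φ (m p) = ∑ j ∈ range (2 ^ d), φ (2 * j + 1))
    (hE : EOK lm d E g) (hH : HOK lm H)
    (hT : AN (2 ^ a) T
      (fun p => ph (k0 + sig (2 ^ (a - 2)) p + 1 / 2) + 2 * al lm a (sig (2 ^ (a - 2)) p))
      (1e-7 + 0.02004 * 2 ^ a * (2 ^ a / k0) ^ 8))
    (i0 : isqOk (dA k0) (isq (dA k0)) = true)
    (i1 : isqOk (dA (k0 + 2 ^ (a - 1))) (isq (dA (k0 + 2 ^ (a - 1)))) = true)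
    (i2 : isqOk (dA (k0 + 2 ^ a)) (isq (dA (k0 + 2 ^ a))) = true)
    (hRv : mapV 192 (dw (isq (dA k0) / 2 ^ 16) (isq (dA (k0 + 2 ^ (a - 1))) / 2 ^ 16)
      (isq (dA (k0 + 2 ^ a)) / 2 ^ 16) (dR k0) (dR (k0 + 2 ^ (a - 1))) (dR (k0 + 2 ^ a))) d v = R)
    (hms : smW 192 (fld (ow 192 (2 ^ d)) R 168 24) ≤ 90000000) :
    ∃ x0 y0 x1 y1 x2 y2 x3 y3 x4 y4 x y,
      chn lm a (grd lm d v E (wtN d R 0) (kc2 a k0)) (mkG lm d v E) H = T2.mk x0 y0 ∧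
      chn lm a (grd lm d v E (wtN d R 48) (kc2 a k0)) (mkG lm d v E) H = T2.mk x1 y1 ∧
      chn lm a (grd lm d v E (wtN d R 96) (kc2 a k0)) (mkG lm d v E) H = T2.mk x2 y2 ∧
      rmp (ow 48 (2 ^ a)) (pw 48 (2 ^ a) fun p => 2 * sig (2 ^ (a - 2)) p + 1) a x2 y2 x1 y1 a =
        T2.mk x3 y3 ∧
      rmp (ow 48 (2 ^ a)) (pw 48 (2 ^ a) fun p => 2 * sig (2 ^ (a - 2)) p + 1) a x3 y3 x0 y0 a =
        T2.mk x4 y4 ∧
      rot (ow 48 (2 ^ a)) 20 x4 (Nat.shiftLeft (ow 48 (2 ^ a)) 47 - y4) T = T2.mk x y ∧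
      VB lm a k0 (dv4 (ow 48 (2 ^ a)) x) (dv4 (ow 48 (2 ^ a)) y) dualT
        (eDual lm a k0 d (smW 192 (fld (ow 192 (2 ^ d)) R 144 24))
          (smW 192 (fld (ow 192 (2 ^ d)) R 168 24))) := by
  obtain ⟨l5, l18, a2, al2, adu, du16, hk2⟩ := id hP
  have e1 : 2 ^ a = 2 * 2 ^ (a - 1) := by rw [← pow_succ']; congr 1; omega
  have e1' : (2 : ℝ) ^ a = 2 * ((2 ^ (a - 1) : ℕ) : ℝ) := by exact_mod_cast e1
  have D : 2 ^ d ≤ 2 ^ 12 := Nat.pow_le_pow_right two_pos d12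
  have hw := fun p (hp : p < 2 ^ d) => hDw k0 (2 ^ (a - 1)) (A p) (g p) (m p) hk Nat.one_le_two_pow
    (e1 ▸ hk2) (hm p hp).1 (hS.2 p hp).1 (hS.2 p hp).2.1 i0 i1 (e1 ▸ i2)
  rw [← e1, ← e1'] at hw
  choose! w0 w1 w2 q s hw using hw
  have b39 : ∀ p < 2 ^ d, |sv (w0 p)| ≤ 2 ^ 39 ∧ |sv (w1 p)| ≤ 2 ^ 39 ∧ |sv (w2 p)| ≤ 2 ^ 39 :=
    fun p hp => by
      obtain ⟨-, -, -, c1, c2, -⟩ := hw p hp
      have : (s p : ℝ) ≤ 2 ^ 23 := by exact_mod_cast c2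
      have := abs_nonneg (sv (w0 p))
      have := abs_nonneg (sv (w1 p))
      have := abs_nonneg (sv (w2 p))
      refine ⟨?_, ?_, ?_⟩ <;> linarith
  obtain ⟨r, hr, hf⟩ : ∃ r : ℕ → ℕ, R = pw 192 (2 ^ d) r ∧ ∀ p < 2 ^ d, r p < 2 ^ 192 ∧
      r p / 2 ^ 0 % 2 ^ 48 = w0 p ∧ r p / 2 ^ 48 % 2 ^ 48 = w1 p ∧ r p / 2 ^ 96 % 2 ^ 48 = w2 p ∧
      r p / 2 ^ 144 % 2 ^ 24 = q p ∧ r p / 2 ^ 168 % 2 ^ 24 = s p := by
    refine ⟨_, ?_, fun p hp => fields (lt_of_sv (by linarith [(b39 p hp).1])).2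
      (lt_of_sv (by linarith [(b39 p hp).2.1])).2 (lt_of_sv (by linarith [(b39 p hp).2.2])).2
      (hw p hp).2.1 (hw p hp).2.2.1 (hw p hp).1⟩
    rw [← hRv, hS.1, mapV_pw]
    intro p hp
    obtain ⟨c1, c2, -, c3, -⟩ := hS.2 p hp
    omega
  have sg : ∀ p < 2 ^ d, sig (2 ^ (d - 2)) p < 2 ^ d := fun p hp => by
    rw [← four_mul_p2 d2] at hp ⊢
    exact sig_lt hp
  have sa : ∀ p < 2 ^ a, sig (2 ^ (a - 2)) p < 2 ^ a := fun p hp => by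
    rw [← four_mul_p2 a2] at hp ⊢
    exact sig_lt hp
  have sm : ∀ (t : ℕ) (u : ℕ → ℕ), t + 24 ≤ 192 → (∀ p < 2 ^ d, r p / 2 ^ t % 2 ^ 24 = u p) →
      smW 192 (fld (ow 192 (2 ^ d)) R t 24) = ∑ p ∈ range (2 ^ d), u p := fun t u ht hu => by
    rw [hr, fld_pw (by norm_num) (fun p hp => (hf p hp).1) ht, pw_congr hu, smW_pw (by norm_num)]
    refine (sum_le_card_nsmul _ _ (2 ^ 24) fun p hp => ?_).trans_lt ?_
    · rw [← hu p (mem_range.1 hp)]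
      exact (Nat.mod_lt _ (by norm_num)).le
    · rw [card_range, smul_eq_mul]
      omega
  rw [sm 168 s le_rfl fun p hp => (hf p hp).2.2.2.2.2] at hms ⊢
  rw [sm 144 q (by norm_num) fun p hp => (hf p hp).2.2.2.2.1, hr,
    wtN_pw d2 (fun p hp => (hf p hp).1) (by norm_num),
    wtN_pw d2 (fun p hp => (hf p hp).1) (by norm_num),
    wtN_pw d2 (fun p hp => (hf p hp).1) (by norm_num),
    pw_congr fun p hp => (hf _ (sg p hp)).2.1, pw_congr fun p hp => (hf _ (sg p hp)).2.2.1,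
    pw_congr fun p hp => (hf _ (sg p hp)).2.2.2.1]
  have ms : ((∑ p ∈ range (2 ^ d), s p : ℕ) : ℝ) ≤ 9e7 := by
    have : ((∑ p ∈ range (2 ^ d), s p : ℕ) : ℝ) ≤ (90000000 : ℕ) := by exact_mod_cast hms
    exact this.trans (by norm_num)
  have mass : ∑ p ∈ range (2 ^ d), |sv (w0 p)| + ∑ p ∈ range (2 ^ d), |sv (w1 p)| +
      ∑ p ∈ range (2 ^ d), |sv (w2 p)| ≤ (∑ p ∈ range (2 ^ d), s p : ℕ) * 2 ^ 16 := by
    rw [← sum_add_distrib, ← sum_add_distrib, Nat.cast_sum, sum_mul]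
    exact sum_le_sum fun p hp => (hw p (mem_range.1 hp)).2.2.2.1
  have n0 := fun κ => norm_raw (2 ^ d) w0 g κ
  have n1 := fun κ => norm_raw (2 ^ d) w1 g κ
  have n2 := fun κ => norm_raw (2 ^ d) w2 g κ
  have p0 : 0 ≤ ∑ p ∈ range (2 ^ d), |sv (w0 p)| := sum_nonneg fun _ _ => abs_nonneg _
  have p1 : 0 ≤ ∑ p ∈ range (2 ^ d), |sv (w1 p)| := sum_nonneg fun _ _ => abs_nonneg _
  have p2 : 0 ≤ ∑ p ∈ range (2 ^ d), |sv (w2 p)| := sum_nonneg fun _ _ => abs_nonneg _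
  obtain ⟨x0, y0, h0, v0⟩ := chV hG hC hP d2 d12 hS hE hH (fun p hp => (b39 p hp).1) (by linarith)
  obtain ⟨x1, y1, h1, v1⟩ := chV hG hC hP d2 d12 hS hE hH (fun p hp => (b39 p hp).2.1) (by linarith)
  obtain ⟨x2, y2, h2, v2⟩ := chV hG hC hP d2 d12 hS hE hH (fun p hp => (b39 p hp).2.2) (by linarith)
  generalize ∑ p ∈ range (2 ^ d), |sv (w0 p)| = M0 at *
  generalize ∑ p ∈ range (2 ^ d), |sv (w1 p)| = M1 at *
  generalize ∑ p ∈ range (2 ^ d), |sv (w2 p)| = M2 at *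
  set S : ℝ := ((∑ p ∈ range (2 ^ d), s p : ℕ) : ℝ) with hS'
  have DR : (2 : ℝ) ^ d ≤ 2 ^ 12 := by exact_mod_cast D
  have LR : (2 : ℝ) ^ lm ≤ 2 ^ 18 := pow_le_pow_right₀ one_le_two l18
  have ρ0 : (0 : ℝ) ≤ 2.1e-6 + 1.2e-6 / 2 ^ (14 * (lm - 2 - a)) := by positivity
  have ρ1 : (2.1e-6 + 1.2e-6 / 2 ^ (14 * (lm - 2 - a)) : ℝ) ≤ 3.3e-6 := by
    have := div_le_self (by norm_num : (0 : ℝ) ≤ 1.2e-6)
      (one_le_pow₀ (one_le_two) : (1 : ℝ) ≤ 2 ^ (14 * (lm - 2 - a)))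
    linarith
  have q0 : ∀ M, 0 ≤ M → 0 ≤ eps lm a d M := fun M hM => by unfold eps; positivity
  have q1 : eps lm a d M0 + eps lm a d M1 + eps lm a d M2 ≤
      eps lm a d (S * 2 ^ 16) + 2 ^ d * 8e-10 + 2 ^ lm * 8.4e-11 + 2e-9 := by
    unfold eps
    nlinarith [mul_le_mul_of_nonneg_right mass ρ0]
  have q2 : eps lm a d (S * 2 ^ 16) + 2 ^ d * 8e-10 + 2 ^ lm * 8.4e-11 + 2e-9 ≤ 1e-4 := by
    unfold eps
    nlinarith [mul_le_mul ms ρ1 ρ0 (by norm_num)]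
  have q3 := q0 M0 p0
  have q4 := q0 M1 p1
  have q5 := q0 M2 p2
  have nz : ∀ (α : ℝ) (z : ℂ), ‖2 ^ 36 * ee α * z‖ = 2 ^ 36 * ‖z‖ := fun α z => by
    rw [norm_mul, norm_mul, norm_ee, mul_one, norm_pow, Complex.norm_ofNat]
  have hy : ∀ p < 2 ^ a, |((2 * (sig (2 ^ (a - 2)) p : ℝ) + 1 - 2 ^ a) / 2 ^ a : ℝ)| ≤ 1 :=
    fun p hp => by
      have : (sig (2 ^ (a - 2)) p : ℝ) + 1 ≤ 2 ^ a := by exact_mod_cast sa p hp
      have : (0 : ℝ) ≤ sig (2 ^ (a - 2)) p := Nat.cast_nonneg _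
      rw [abs_div, abs_of_pos (by positivity : (0 : ℝ) < 2 ^ a), div_le_one (by positivity), abs_le]
      constructor <;> linarith
  have tri : ∀ (y : ℝ) (z z' : ℂ), |y| ≤ 1 → ‖z + y * z'‖ ≤ ‖z‖ + ‖z'‖ := fun y z z' h => by
    refine (norm_add_le _ _).trans (add_le_add le_rfl ?_)
    rw [norm_mul, Complex.norm_real, Real.norm_eq_abs]
    exact mul_le_of_le_one_left (norm_nonneg _) h
  obtain ⟨x3, y3, h3, v3⟩ := rmpV hR (by omega) (by omega) sa v2 v1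
    (fun p _ => by rw [nz]; linarith [n2 ((k0 + sig (2 ^ (a - 2)) p : ℕ) + 1 / 2)])
    (fun p _ => by rw [nz]; linarith [n1 ((k0 + sig (2 ^ (a - 2)) p : ℕ) + 1 / 2)])
  obtain ⟨x4, y4, h4, v4⟩ := rmpV hR (by omega) (by omega) sa v3 v0
    (fun p hp => by
      refine (add_le_add (tri _ _ _ (hy p hp)) le_rfl).trans ?_
      rw [nz, nz]
      linarith [n1 ((k0 + sig (2 ^ (a - 2)) p : ℕ) + 1 / 2),
        n2 ((k0 + sig (2 ^ (a - 2)) p : ℕ) + 1 / 2)])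
    (fun p _ => by rw [nz]; linarith [n0 ((k0 + sig (2 ^ (a - 2)) p : ℕ) + 1 / 2)])
  have S0 : 0 ≤ S := Nat.cast_nonneg _
  have b4 := fun p (hp : p < 2 ^ a) => (tri _ (2 ^ 36 * ee (al lm a (sig (2 ^ (a - 2)) p)) *
      raw (2 ^ d) w0 g ((k0 + sig (2 ^ (a - 2)) p : ℕ) + 1 / 2)) _ (hy p hp)).trans
    (add_le_add le_rfl (tri _ (2 ^ 36 * ee (al lm a (sig (2 ^ (a - 2)) p)) *
      raw (2 ^ d) w1 g ((k0 + sig (2 ^ (a - 2)) p : ℕ) + 1 / 2))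
      (2 ^ 36 * ee (al lm a (sig (2 ^ (a - 2)) p)) *
        raw (2 ^ d) w2 g ((k0 + sig (2 ^ (a - 2)) p : ℕ) + 1 / 2)) (hy p hp)))
  simp only [nz] at b4
  obtain ⟨x, y, h5, v5⟩ := rotV (Z := 2 ^ 40 * (S * 2.72 / 2 ^ 28 + 1e-4)) hRot
    (v4.conj fun p hp => by
      linarith [b4 p hp, n0 ((k0 + sig (2 ^ (a - 2)) p : ℕ) + 1 / 2),
        n1 ((k0 + sig (2 ^ (a - 2)) p : ℕ) + 1 / 2), n2 ((k0 + sig (2 ^ (a - 2)) p : ℕ) + 1 / 2)])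
    hT (fun p hp => by
      rw [Complex.norm_conj]
      linarith [b4 p hp, n0 ((k0 + sig (2 ^ (a - 2)) p : ℕ) + 1 / 2),
        n1 ((k0 + sig (2 ^ (a - 2)) p : ℕ) + 1 / 2), n2 ((k0 + sig (2 ^ (a - 2)) p : ℕ) + 1 / 2)])
    (by linarith)
  refine ⟨x0, y0, x1, y1, x2, y2, x3, y3, x4, y4, x, y, h0, h1, h2, h3, h4, h5,
    v5.mono fun p hp => ?_⟩
  have hj := sa p hp
  have hy' := hy p hp
  generalize sig (2 ^ (a - 2)) p = j at hj hy' ⊢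
  have k0p : (2048 : ℝ) ≤ k0 := by exact_mod_cast hk
  have jr : (j : ℝ) + 1 ≤ 2 ^ a := by exact_mod_cast hj
  have j0 : (0 : ℝ) ≤ j := Nat.cast_nonneg _
  have kr : (k0 : ℝ) + 2 ^ a ≤ 2 ^ 23 := by exact_mod_cast hk2
  have B0 : (0 : ℝ) < 2 ^ a := by positivity
  have t1 := hDT.1 (k0 + j) (2 ^ d) k0 (k0 + 2 ^ a) Nat.one_le_two_pow (by linarith)
    (by push_cast; linarith) (by push_cast; linarith)
  rw [← hsum fun μ => (fD μ ((k0 + j : ℕ) + 1 / 2) : ℂ) *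
    ee (((k0 + j : ℕ) + 1 / 2) * (Real.log μ / Real.log 2))] at t1
  rw [ident, ← mul_sub, nz, eDual_cast, ← hS']
  rw [Nat.cast_add k0 j] at t1 ⊢
  set κ : ℝ := k0 + j + 1 / 2 with hκ
  set t : ℝ := (2 ^ a / (2 * k0)) ^ 3 with ht
  have t0 : 0 ≤ t := by positivity
  set yy : ℝ := (2 * j + 1 - 2 ^ a) / 2 ^ a with hyy
  have t2 : ‖∑ p ∈ range (2 ^ d), ((Kc ^ 3 / 2 ^ 44 * (sv (w0 p) + yy * (sv (w1 p) +
      yy * sv (w2 p))) : ℝ) : ℂ) * ee (κ * (g p / 2 ^ 64)) - ∑ p ∈ range (2 ^ d),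
      (fD (m p) κ : ℂ) * ee (κ * (Real.log (m p) / Real.log 2))‖ ≤
      t * ((∑ p ∈ range (2 ^ d), q p : ℕ) + 2 ^ d) * 1.1e-6 + 2 ^ d * 3e-12 + S * 4e-19 := by
    rw [← sum_sub_distrib]
    refine (norm_sum_le _ _).trans ((sum_le_sum (g := fun p =>
      t * (q p + 1) * 1.1e-6 + 3e-12 + s p * 4e-19) fun p hp => ?_).trans (le_of_eq ?_))
    · obtain ⟨-, -, -, c1, -, c2, c3, -⟩ := hw p (mem_range.1 hp)
      have c4 := hI (m p) k0 (2 ^ a) yy (hm p (mem_range.1 hp)).1 (by linarith) B0 hy'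
      have c5 : (k0 : ℝ) + 2 ^ a / 2 + yy * (2 ^ a / 2) = κ := by
        rw [hyy, hκ]
        field_simp
        ring
      have c6 : ((2 ^ (a - 1) : ℕ) : ℝ) = 2 ^ a / 2 := by linarith
      rw [c5] at c4
      rw [c6] at c2
      rw [mul_assoc, mul_assoc] at c3
      refine one hy' t0 c1 c2 c3 (Nat.cast_nonneg _) c4 (by ring) ?_ (hm p (mem_range.1 hp)).2.2
      rw [abs_of_nonneg (by linarith)]
      linarith
    · rw [hS']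
      simp only [sum_add_distrib, ← sum_mul, ← mul_sum, sum_const, card_range, nsmul_eq_mul]
      push_cast
      ring
  obtain ⟨-, -, -, -, -, -, -, c7, c8⟩ := hw 0 (by positivity)
  have t3 : 3 / 4 * √(Real.log 2 / k0) * (2 * (k0 + 2 ^ a) / (Real.log 2 * 9000)) ^ 16 ≤
      (isq (dA k0) / 2 ^ 16 + 1) * (dR (k0 + 2 ^ a) + 1) * 4.47 / 2 ^ 108 := by
    rw [div_mul_eq_mul_div, div_le_iff₀ K3.1] at c7
    have u0 : (0 : ℝ) ≤ isq (dA k0) / 2 ^ 16 + 1 := by positivity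
    have u1 : (0 : ℝ) ≤ dR (k0 + 2 ^ a) + 1 := by positivity
    have u2 : 3 / 4 * √(Real.log 2 / k0) ≤ (isq (dA k0) / 2 ^ 16 + 1) * (4.466 / 2 ^ 44) := by
      linarith [mul_le_mul_of_nonneg_left K3.2 u0]
    refine (mul_le_mul u2 c8 (by have := Real.log_pos one_lt_two; positivity)
      (by positivity)).trans ?_
    nlinarith [mul_nonneg u0 u1]
  have t4 := t1.trans (mul_le_mul_of_nonneg_right t3 (by positivity))
  rw [norm_sub_rev] at t4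
  have t5 := norm_sub_le_norm_sub_add_norm_sub (ee (ph κ) * ∑ p ∈ range (2 ^ d),
    ((Kc ^ 3 / 2 ^ 44 * (sv (w0 p) + yy * (sv (w1 p) + yy * sv (w2 p))) : ℝ) : ℂ) *
      ee (κ * (g p / 2 ^ 64))) (ee (ph κ) * ∑ p ∈ range (2 ^ d),
      (fD (m p) κ : ℂ) * ee (κ * (Real.log (m p) / Real.log 2))) (dualT (k0 + j))
  rw [← mul_sub, norm_mul, norm_ee, one_mul] at t5
  push_cast at t4
  have X0 : (0 : ℝ) ≤ 2 ^ a * (2 ^ a / k0) ^ 8 := by positivity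
  have X1 : (0 : ℝ) ≤ S * 2.72 / 2 ^ 28 + 1e-4 := by positivity
  rw [mul_assoc (0.02004 : ℝ), mul_assoc (0.21 : ℝ)]
  nlinarith [mul_nonneg X0 X1]

end Dua

open Dua in
theorem dualOk (hSD : StSrcD) (hE : StE) (hH : StH) (hG : StGrd) (hC : StChn) (hPw : StPow)
    (hR : StRmp) (hI : StInt) (hDT : StDT) (hPh : StPh) (hDw : StDw) (hRot : StRot) : StDual := by
  intro lm a k0 du c e d U ch hP hU hc hk hak d2 d12 hs hch
  obtain ⟨l5, l18, a2, al2, adu, du16, hk2⟩ := id hP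
  obtain ⟨A, g, m, hS, hm, hsum⟩ := hSD d d2 d12 hs
  have hE' := hE lm d _ A g m l5 l18 d2 (by omega) hS
  have hJ : ovl (2 ^ (a - 2)) (pre a U.u1) =
      pw 48 (2 ^ a) fun p => 2 * sig (2 ^ (a - 2)) p + 1 := by
    have h1 := (hPw a du a2 adu du16).1 1 (by norm_num)
    have h2 : U.u1 = mkU 1 du := by rw [hU]; rfl
    have h3 : 2 ^ a ≤ 2 ^ 16 := Nat.pow_le_pow_right two_pos (adu.trans du16)
    simp only [pow_one] at h1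
    rw [h2, h1, ← four_mul_p2 a2, ovl_pw]
    intro j hj
    rw [four_mul_p2 a2] at hj
    omega
  have ho : oN (2 ^ (a - 2)) = ow 48 (2 ^ a) := by rw [oN_eq, four_mul_p2 a2]
  rw [hch]
  obtain ⟨x0, y0, h0⟩ := T2_ex _
  obtain ⟨x1, y1, h1⟩ := T2_ex _
  obtain ⟨x2, y2, h2⟩ := T2_ex _
  obtain ⟨x3, y3, h3⟩ := T2_ex _
  obtain ⟨x4, y4, h4⟩ := T2_ex _
  obtain ⟨x, y, h5⟩ := T2_ex _
  refine ⟨_, _, _, _, _, dual_eq rfl rfl rfl rfl hJ h0 h1 h2 h3 h4 h5, fun hf => ?_⟩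
  simp only [Bool.and_eq_true, Nat.beq_eq, Nat.ble_eq, p2_eq] at hf
  obtain ⟨⟨⟨i0, i1⟩, i2⟩, i3, i4⟩ := hf
  have hT := hPh lm a k0 du c e U hP hU hc
    (by rw [i3, two_mul]; exact Nat.shiftLeft_eq _ _) hk hak
  obtain ⟨x0', y0', x1', y1', x2', y2', x3', y3', x4', y4', x', y', g0, g1, g2, g3, g4, g5, hv⟩ :=
    main hG hC hR hI hDT hDw hRot hP hk d2 d12 hS hm hsum hE' (hH lm l5 l18) hT i0 i1 i2 rfl i4
  rw [ho] at h3 h4 h5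
  obtain ⟨rfl, rfl⟩ := T2.mk.inj (h0.symm.trans g0)
  obtain ⟨rfl, rfl⟩ := T2.mk.inj (h1.symm.trans g1)
  obtain ⟨rfl, rfl⟩ := T2.mk.inj (h2.symm.trans g2)
  obtain ⟨rfl, rfl⟩ := T2.mk.inj (h3.symm.trans g3)
  obtain ⟨rfl, rfl⟩ := T2.mk.inj (h4.symm.trans g4)
  obtain ⟨rfl, rfl⟩ := T2.mk.inj (h5.symm.trans g5)
  rw [ho, p2_eq]
  exact hv

end Pool.Agent.Lib.MP_5db4ad_nt.NE
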