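import Pool.Agent.Lib.MP_5db4ad_nt.NumSpec

/-!
Correctness of the computation of `x ^ (-i τ)`, `τ = π / log 2`.
-/

namespace Pool.Agent.Lib.MP_5db4ad_nt

open Finset Complex

/-- the basic frequency -/
noncomputable def tau : ℝ := Real.pi / Real.log 2

/-- `x ^ (-i τ)` -/
noncomputable def zz (x : ℝ) : ℂ := Complex.exp (-((tau * Real.log x : ℝ) : ℂ) * I)

lemma norm_zz (x : ℝ) : ‖zz x‖ = 1 := by
  unfold zz
  rw [← Complex.ofReal_neg]
  exact Complex.norm_exp_ofReal_mul_I _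

lemma log_two_bounds : 0.6931471805599453094172 < Real.log 2 ∧
    Real.log 2 < 0.6931471805599453094173 := by
  have h := Real.abs_log_sub_add_sum_range_le (x := 1 / 2) (by norm_num) 80
  have e : Real.log (1 - 1 / 2) = -Real.log 2 := by
    rw [show (1 - 1 / 2 : ℝ) = 2⁻¹ by norm_num, Real.log_inv]
  rw [e, abs_le] at h
  norm_num [Finset.sum_range_succ] at h
  constructor <;> linarith [h.1, h.2]

lemma tau_bounds : 83607287586168170259 / 2 ^ 64 ≤ tau ∧ tau ≤ 83607287586168170262 / 2 ^ 64 := by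
  obtain ⟨h1, h2⟩ := log_two_bounds
  have p1 := Real.pi_gt_d20
  have p2 := Real.pi_lt_d20
  unfold tau
  rw [le_div_iff₀ (by linarith), div_le_iff₀ (by linarith)]
  constructor <;> linarith

lemma tau_pos : 0 < tau := lt_of_lt_of_le (by norm_num) tau_bounds.1

lemma itau_bounds : 4070008449565276021 / 2 ^ 64 ≤ 1 / tau ∧
    1 / tau ≤ 4070008449565276024 / 2 ^ 64 := by
  obtain ⟨h1, h2⟩ := log_two_bounds
  have p1 := Real.pi_gt_d20
  have p2 := Real.pi_lt_d20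
  unfold tau
  rw [one_div_div, le_div_iff₀ (by linarith), div_le_iff₀ (by linarith)]
  constructor <;> linarith

lemma zz_two : zz 2 = -1 := by
  unfold zz tau
  rw [div_mul_cancel₀ _ (Real.log_pos one_lt_two).ne', neg_mul, Complex.exp_neg,
    Complex.exp_pi_mul_I]
  norm_num

lemma zz_mul {x y : ℝ} (hx : 0 < x) (hy : 0 < y) : zz (x * y) = zz x * zz y := by
  unfold zz
  rw [Real.log_mul hx.ne' hy.ne', ← Complex.exp_add]
  congr 1
  push_cast
  ring

lemma logS_spec {q : ℕ} (hq : 0 < q) (K : ℕ) : ∀ i s : ℕ,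
    |(logS K q i s (q ^ i) : ℝ) - (s + 2 ^ 80 * ∑ j ∈ range K,
      (1 / q : ℝ) ^ (i + j + 1) / ((i + j : ℕ) + 1))| ≤ (K : ℝ) := by
  induction K with
  | zero => intro i s; simp [logS]
  | succ K ih =>
    intro i s
    have e0 : logS (K + 1) q i s (q ^ i) =
        logS K q (i + 1) (s + 2 ^ 80 / ((i + 1) * q ^ (i + 1))) (q ^ (i + 1)) := by
      simp only [logS, frc_eq]
      rfl
    have h := ih (i + 1) (s + 2 ^ 80 / ((i + 1) * q ^ (i + 1)))
    rw [e0, Finset.sum_range_succ']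
    set D := (i + 1) * q ^ (i + 1) with hD
    have hD0 : 0 < D := by positivity
    have a1 : ((2 ^ 80 / D : ℕ) : ℝ) ≤ 2 ^ 80 / D := by
      have := @Nat.cast_div_le ℝ _ _ _ (2 ^ 80) D
      rwa [Nat.cast_pow, Nat.cast_ofNat] at this
    have a2 : (2 ^ 80 / D : ℝ) < ((2 ^ 80 / D : ℕ) : ℝ) + 1 := by
      rw [div_lt_iff₀ (by exact_mod_cast hD0)]
      have := Nat.lt_mul_div_succ (2 ^ 80) hD0
      rw [mul_comm] at this
      exact_mod_cast this
    have a3 : (2 : ℝ) ^ 80 * ((1 / q : ℝ) ^ (i + 0 + 1) / ((i + 0 : ℕ) + 1)) = 2 ^ 80 / D := by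
      rw [hD, add_zero, one_div, inv_pow]
      push_cast
      field_simp
    have a4 : ∑ j ∈ range K, (1 / q : ℝ) ^ (i + (j + 1) + 1) / ((i + (j + 1) : ℕ) + 1) =
        ∑ j ∈ range K, (1 / q : ℝ) ^ (i + 1 + j + 1) / ((i + 1 + j : ℕ) + 1) :=
      Finset.sum_congr rfl fun j _ => by rw [show i + (j + 1) = i + 1 + j by ring]
    rw [mul_add, a3, a4]
    rw [Nat.cast_add s] at h
    rw [abs_le] at h ⊢
    generalize 2 ^ 80 / D = W at h a1 a2 ⊢
    rw [Nat.cast_succ K]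
    constructor <;> linarith [h.1, h.2]

/-- the complex number held by the four sums -/
noncomputable def four (s0 s1 s2 s3 : ℕ) : ℂ := ⟨(s0 : ℝ) - s2, (s3 : ℝ) - s1⟩

lemma expS_spec {β : Type} (k : ℕ → ℕ → ℕ → ℕ → β) {F : ℕ} {φ : ℝ} (hF : φ = F / 2 ^ 64)
    (hφ : φ ≤ 5 / 2) (K : ℕ) : ∀ j t s0 s1 s2 s3 : ℕ,
    |(t : ℝ) - 2 ^ 104 * (φ ^ j / j.factorial)| ≤ 4 * (j : ℝ) →
    ‖four s0 s1 s2 s3 - I ^ j * (2 ^ 104 * ∑ l ∈ range j, (-(φ : ℂ) * I) ^ l / l.factorial)‖ ≤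
      2 * (j : ℝ) ^ 2 →
    ∃ r0 r1 r2 r3, expS K F k j t s0 s1 s2 s3 = k r0 r1 r2 r3 ∧
      ‖four r0 r1 r2 r3 - I ^ (j + K) *
        (2 ^ 104 * ∑ l ∈ range (j + K), (-(φ : ℂ) * I) ^ l / l.factorial)‖ ≤
        2 * ((j + K : ℕ) : ℝ) ^ 2 := by
  have hφ0 : 0 ≤ φ := by rw [hF]; positivity
  induction K with
  | zero => intro j t s0 s1 s2 s3 _ h; exact ⟨s0, s1, s2, s3, rfl, by simpa using h⟩
  | succ K ih =>
    intro j t s0 s1 s2 s3 ht hs
    have e0 : expS (K + 1) F k j t s0 s1 s2 s3 =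
        expS K F k (j + 1) ((t * F) >>> 64 / (j + 1)) s1 s2 s3 (s0 + t) := by
      simp only [expS, frc_eq]
      rfl
    have hj0 : (0 : ℝ) ≤ j := Nat.cast_nonneg j
    have hj1 : 4 * (j : ℝ) * φ ≤ (4 * j + 3) * (j + 1) := by
      have := mul_le_mul_of_nonneg_left hφ hj0
      nlinarith [sq_nonneg ((j : ℝ) - 1)]
    obtain ⟨r0, r1, r2, r3, h1, h2⟩ := ih (j + 1) ((t * F) >>> 64 / (j + 1)) s1 s2 s3 (s0 + t)
      (by
        rw [Nat.shiftRight_eq_div_pow, Nat.div_div_eq_div_mul]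
        set D := 2 ^ 64 * (j + 1) with hD
        have hD0 : 0 < D := by positivity
        have a1 : ((t * F / D : ℕ) : ℝ) ≤ (t * F : ℕ) / D := Nat.cast_div_le
        have a2 : ((t * F : ℕ) / D : ℝ) < ((t * F / D : ℕ) : ℝ) + 1 := by
          rw [div_lt_iff₀ (by exact_mod_cast hD0)]
          have := Nat.lt_mul_div_succ (t * F) hD0
          rw [mul_comm D] at this
          exact_mod_cast this
        have a3 : ((t * F : ℕ) / D : ℝ) - 2 ^ 104 * (φ ^ (j + 1) / (j + 1).factorial) =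
            (t - 2 ^ 104 * (φ ^ j / j.factorial)) * (φ / (j + 1)) := by
          rw [hD, Nat.factorial_succ, pow_succ φ]
          generalize φ ^ j = A
          rw [hF]
          push_cast
          field_simp
          ring
        have a4 : |((t * F : ℕ) / D : ℝ) - 2 ^ 104 * (φ ^ (j + 1) / (j + 1).factorial)| ≤
            4 * (j : ℝ) + 3 := by
          rw [a3, abs_mul, abs_of_nonneg (show 0 ≤ φ / (j + 1) by positivity)]
          refine (mul_le_mul_of_nonneg_right ht (by positivity)).trans ?_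
          rw [← mul_div_assoc, div_le_iff₀ (by positivity)]
          exact hj1
        rw [abs_le] at a4 ⊢
        clear_value D
        generalize t * F / D = W at a1 a2 ⊢
        rw [Nat.cast_succ j]
        constructor <;> linarith [a4.1, a4.2])
      (by
        have e1 : four s1 s2 s3 (s0 + t) = I * (four s0 s1 s2 s3 + t) := by
          apply Complex.ext <;> simp [four] <;> ring
        have e2 : I ^ j * (-(φ : ℂ) * I) ^ j = (φ : ℂ) ^ j := by
          rw [← mul_pow]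
          congr 1
          linear_combination (-(φ : ℂ)) * I_mul_I
        have e3 : four s1 s2 s3 (s0 + t) - I ^ (j + 1) *
            (2 ^ 104 * ∑ l ∈ range (j + 1), (-(φ : ℂ) * I) ^ l / l.factorial) =
            I * ((four s0 s1 s2 s3 -
              I ^ j * (2 ^ 104 * ∑ l ∈ range j, (-(φ : ℂ) * I) ^ l / l.factorial)) +
              (((t : ℝ) - 2 ^ 104 * (φ ^ j / j.factorial) : ℝ) : ℂ)) := by
          rw [e1, Finset.sum_range_succ]
          push_cast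
          rw [← e2]
          ring
        rw [e3, norm_mul, norm_I, one_mul]
        refine (norm_add_le _ _).trans ?_
        rw [Complex.norm_real, Real.norm_eq_abs]
        push_cast
        nlinarith)
    refine ⟨r0, r1, r2, r3, e0.trans h1, ?_⟩
    rwa [show j + 1 + K = j + (K + 1) by ring] at h2

lemma unitQ_spec {β : Type} (k : ℕ → ℕ → β) {K1 K2 q : ℕ} {φm : ℝ} (hq : 3 ≤ q) (hK1 : K1 ≤ 64)
    (h1 : (1 / q : ℝ) ^ (K1 + 1) / (1 - 1 / q) ≤ 1 / 2 ^ 70) (hK2 : K2 ≤ 32) (hK : 4 ≤ K2)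
    (hI : I ^ K2 = 1) (h2 : 4.6 / (q - 1) ≤ φm) (h3 : φm ≤ 5 / 2)
    (h4 : φm ^ K2 / K2.factorial * 2 ≤ 1 / 2 ^ 69) (hq' : q ≤ 2 ^ 20) :
    ∃ a b, unitQ K1 K2 q k = k a b ∧ ‖cvt 1 a b - zz (q / (q - 1))‖ ≤ 1 / 2 ^ 61 := by
  have hq3 : (3 : ℝ) ≤ q := by exact_mod_cast hq
  have hq4 : (q : ℝ) ≤ 2 ^ 20 := by exact_mod_cast hq'
  obtain ⟨t1, t2⟩ := tau_bounds
  set Lg := Real.log (q / (q - 1)) with hLg
  have hL0 : 0 ≤ Lg := Real.log_nonneg (by rw [le_div_iff₀ (by linarith)]; linarith)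
  have hL1 : Lg ≤ 1 / (q - 1) := by
    have := Real.log_le_sub_one_of_pos (show (0 : ℝ) < q / (q - 1) by
      apply div_pos <;> linarith)
    refine this.trans (le_of_eq ?_)
    have : (q : ℝ) - 1 ≠ 0 := by linarith
    field_simp
    ring
  have hL2 : 1 / ((q : ℝ) - 1) ≤ 1 / 2 := one_div_le_one_div_of_le (by norm_num) (by linarith)
  have hL3 : 1 / 2 ^ 20 ≤ 1 / ((q : ℝ) - 1) := one_div_le_one_div_of_le (by linarith) (by linarith)
  have hx : |(1 / q : ℝ)| < 1 := by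
    rw [abs_of_pos (by positivity), div_lt_one (by linarith)]
    linarith
  have a1 := Real.abs_log_sub_add_sum_range_le hx K1
  have a2 : Real.log (1 - 1 / q) = -Lg := by
    rw [hLg, ← Real.log_inv]
    congr 1
    field_simp
  rw [a2, abs_of_pos (show (0 : ℝ) < 1 / q by positivity)] at a1
  have a3 := logS_spec (q := q) (by omega) K1 0 0
  simp only [pow_zero, zero_add, Nat.cast_zero] at a3
  set R := logS K1 q 0 0 1 with hR
  set F := (83607287586168170260 * R) >>> 80 with hF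
  have hK1' : (K1 : ℝ) ≤ 64 := by exact_mod_cast hK1
  have b1 : |(R : ℝ) / 2 ^ 80 - Lg| ≤ 1 / 2 ^ 69 := by
    rw [abs_le] at a1 a3 ⊢
    constructor <;> linarith [a1.1, a1.2, a3.1, a3.2]
  have b2 : |(F : ℝ) / 2 ^ 64 - tau * Lg| ≤ 3 / 2 ^ 64 := by
    have c1 : F * 2 ^ 80 ≤ 83607287586168170260 * R := by
      rw [hF, Nat.shiftRight_eq_div_pow]; omega
    have c2 : 83607287586168170260 * R < (F + 1) * 2 ^ 80 := by
      rw [hF, Nat.shiftRight_eq_div_pow]; omega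
    have d1 : (F : ℝ) * 2 ^ 80 ≤ 83607287586168170260 * R := by exact_mod_cast c1
    have d2 : (83607287586168170260 : ℝ) * R < (F + 1) * 2 ^ 80 := by exact_mod_cast c2
    rw [abs_le] at b1 ⊢
    have d3 : (tau - 83607287586168170260 / 2 ^ 64) * Lg ≤ 2 / 2 ^ 64 * (1 / 2) := by nlinarith
    have d4 : -(2 / 2 ^ 64 * (1 / 2)) ≤ (tau - 83607287586168170260 / 2 ^ 64) * Lg := by nlinarith
    constructor <;> linarith [b1.1, b1.2]
  set φ : ℝ := F / 2 ^ 64 with hφ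
  have hφ0 : 0 ≤ φ := by positivity
  have hφm : φ ≤ φm := by
    have c1 : tau * Lg ≤ 4.54 * (1 / (q - 1)) := mul_le_mul (by linarith) hL1 hL0 (by norm_num)
    have c2 : (4.6 : ℝ) / (q - 1) = 4.6 * (1 / (q - 1)) := by ring
    linarith [(abs_le.1 b2).2]
  obtain ⟨r0, r1, r2, r3, e1, e2⟩ := expS_spec (fun s0 s1 s2 s3 =>
    k ((324518553658426726783156020576256 + s0 - s2) >>> 40)
      ((324518553658426726783156020576256 + s3 - s1) >>> 40)) hφ (hφm.trans h3) K2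
    0 20282409603651670423947251286016 0 0 0 0 (by norm_num) (by
      have : four 0 0 0 0 = 0 := by apply Complex.ext <;> simp [four]
      simp [this])
  refine ⟨_, _, by simp only [unitQ, frc_eq]; exact e1, ?_⟩
  rw [zero_add, hI, one_mul] at e2
  have hK2' : (K2 : ℝ) ≤ 32 := by exact_mod_cast hK2
  have hK' : (4 : ℝ) ≤ K2 := by exact_mod_cast hK
  have nφ : ‖-(φ : ℂ) * I‖ = φ := by simp [abs_of_nonneg hφ0]
  have f1 := Complex.exp_bound' (x := -(φ : ℂ) * I) (n := K2) (by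
    rw [nφ, div_le_iff₀ (by positivity)]
    push_cast
    linarith)
  rw [nφ] at f1
  have f2 : φ ^ K2 / K2.factorial * 2 ≤ 1 / 2 ^ 69 := by
    refine le_trans ?_ h4
    gcongr
  have f3 : ‖Complex.exp (-(φ : ℂ) * I) - zz (q / (q - 1))‖ ≤ 3 / 2 ^ 64 := by
    have : Complex.exp (-(φ : ℂ) * I) - zz (q / (q - 1)) =
        zz (q / (q - 1)) * (Complex.exp (I * ((tau * Lg - φ : ℝ) : ℂ)) - 1) := by
      rw [mul_sub, mul_one, zz, ← Complex.exp_add]
      congr 2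
      rw [← hLg]
      push_cast
      ring
    rw [this, norm_mul, norm_zz, one_mul]
    refine Real.norm_exp_I_mul_ofReal_sub_one_le.trans ?_
    rw [Real.norm_eq_abs, abs_sub_comm]
    exact b2
  set Sm := ∑ l ∈ range K2, (-(φ : ℂ) * I) ^ l / l.factorial
  have f4 : ‖four r0 r1 r2 r3 / 2 ^ 104 - Sm‖ ≤ 1 / 2 ^ 69 := by
    have : four r0 r1 r2 r3 / 2 ^ 104 - Sm = (four r0 r1 r2 r3 - 2 ^ 104 * Sm) / 2 ^ 104 := by
      field_simp
    rw [this, norm_div, norm_pow, Complex.norm_ofNat, div_le_iff₀ (by positivity)]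
    have : (K2 : ℝ) ^ 2 ≤ 32 ^ 2 := by gcongr
    refine e2.trans ?_
    linarith
  have f5 : ‖four r0 r1 r2 r3 / 2 ^ 104 - zz (q / (q - 1))‖ ≤ 4 / 2 ^ 64 := by
    have g1 := norm_sub_le_norm_sub_add_norm_sub (four r0 r1 r2 r3 / 2 ^ 104) Sm (zz (q / (q - 1)))
    have g2 := norm_sub_le_norm_sub_add_norm_sub Sm (Complex.exp (-(φ : ℂ) * I))
      (zz (q / (q - 1)))
    rw [norm_sub_rev] at f1
    linarith
  have f6 := norm_le_add f5 (norm_zz _).le
  have hc : (2 : ℂ) ^ 104 = ((2 ^ 104 : ℝ) : ℂ) := by push_cast; rfl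
  have g1 := abs_le.1 ((Complex.abs_re_le_norm _).trans f6)
  have g2 := abs_le.1 ((Complex.abs_im_le_norm _).trans f6)
  rw [hc, Complex.div_ofReal_re] at g1
  rw [hc, Complex.div_ofReal_im] at g2
  simp only [four] at g1 g2
  have key : ∀ a b : ℕ, -2 ≤ ((a : ℝ) - b) / 2 ^ 104 →
      |((((324518553658426726783156020576256 + a - b) >>> 40 : ℕ) : ℝ) - (1 : ℕ) * 2 ^ 68) / 2 ^ 64
        - ((a : ℝ) - b) / 2 ^ 104| ≤ 1 / 2 ^ 64 := by
    intro a b hab
    have n1 : b ≤ 324518553658426726783156020576256 + a := by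
      exact_mod_cast (show (b : ℝ) ≤ 324518553658426726783156020576256 + a by linarith)
    set P := 324518553658426726783156020576256 + a - b with hP
    have n2 : (P : ℝ) = 324518553658426726783156020576256 + a - b := by
      rw [hP, Nat.cast_sub n1]; push_cast; rfl
    rw [Nat.shiftRight_eq_div_pow]
    have c1 : P / 2 ^ 40 * 2 ^ 40 ≤ P := Nat.div_mul_le_self _ _
    have c2 : P < (P / 2 ^ 40 + 1) * 2 ^ 40 := by omega
    have d1 : ((P / 2 ^ 40 : ℕ) : ℝ) * 2 ^ 40 ≤ P := by exact_mod_cast c1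
    have d2 : (P : ℝ) < (((P / 2 ^ 40 : ℕ) : ℝ) + 1) * 2 ^ 40 := by exact_mod_cast c2
    rw [abs_le]
    push_cast
    constructor <;> linarith
  have f7 : ‖cvt 1 ((324518553658426726783156020576256 + r0 - r2) >>> 40)
      ((324518553658426726783156020576256 + r3 - r1) >>> 40) - four r0 r1 r2 r3 / 2 ^ 104‖ ≤
      2 * (1 / 2 ^ 64) := by
    apply norm_le_of_parts
    · rw [Complex.sub_re, hc, Complex.div_ofReal_re]
      exact key _ _ (by linarith [g1.1])
    · rw [Complex.sub_im, hc, Complex.div_ofReal_im]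
      exact key _ _ (by linarith [g2.1])
  refine (norm_sub_le_norm_sub_add_norm_sub _ (four r0 r1 r2 r3 / 2 ^ 104) _).trans ?_
  linarith

lemma unitQ_small {β : Type} (k : ℕ → ℕ → β) {q : ℕ} (hq : 3 ≤ q) (hq' : q ≤ 2 ^ 20) :
    ∃ a b, unitQ 50 32 q k = k a b ∧ ‖cvt 1 a b - zz (q / (q - 1))‖ ≤ 1 / 2 ^ 61 := by
  have hq3 : (3 : ℝ) ≤ q := by exact_mod_cast hq
  have hx : (1 / q : ℝ) ≤ 1 / 3 := one_div_le_one_div_of_le (by norm_num) hq3
  refine unitQ_spec k (φm := 2.3) hq (by norm_num) ?_ le_rfl (by norm_num)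
    (by rw [show 32 = 4 * 8 by rfl, pow_mul, I_pow_four, one_pow]) ?_ (by norm_num)
    (by norm_num [Nat.factorial]) hq'
  · rw [div_le_iff₀ (by linarith)]
    have : (1 / q : ℝ) ^ (50 + 1) ≤ (1 / 3) ^ (50 + 1) := by gcongr
    linarith
  · rw [div_le_iff₀ (by linarith)]
    linarith

lemma unitQ_large {β : Type} (k : ℕ → ℕ → β) {q : ℕ} (hq : 101 ≤ q) (hq' : q ≤ 2 ^ 20) :
    ∃ a b, unitQ 11 12 q k = k a b ∧ ‖cvt 1 a b - zz (q / (q - 1))‖ ≤ 1 / 2 ^ 61 := by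
  have hq3 : (101 : ℝ) ≤ q := by exact_mod_cast hq
  have hx : (1 / q : ℝ) ≤ 1 / 101 := one_div_le_one_div_of_le (by norm_num) hq3
  refine unitQ_spec k (φm := 0.046) (by omega) (by norm_num) ?_ (by norm_num) (by norm_num)
    (by rw [show 12 = 4 * 3 by rfl, pow_mul, I_pow_four, one_pow]) ?_ (by norm_num)
    (by norm_num [Nat.factorial]) hq'
  · rw [div_le_iff₀ (by linarith)]
    have : (1 / q : ℝ) ^ (11 + 1) ≤ (1 / 101) ^ (11 + 1) := by gcongr
    linarith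
  · rw [div_le_iff₀ (by linarith)]
    linarith

lemma step_unit {a b u v : ℕ} {z w : ℂ} {e : ℝ} (hz : ‖z‖ = 1) (hw : ‖w‖ = 1)
    (ha : ‖cvt 1 a b - z‖ ≤ e) (hu : ‖cvt 1 u v - w‖ ≤ 1 / 2 ^ 61) (he : e ≤ 1) :
    ‖cvt 1 (mre a b u v) (mim a b u v) - z * w‖ ≤ e + 1 / 2 ^ 59 := by
  have h := (cmul_facts ha hu hz.le hw.le (by norm_num) (by nlinarith)).2.2
  unfold rho at h
  nlinarith

end Pool.Agent.Lib.MP_5db4ad_nt
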