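import Pool.Agent.Lib.MP_5db4ad_nt.H96NSt
import Pool.Agent.Lib.MP_5db4ad_nt.UnitSpec

/-!
The weights of a source of the dual sum.
-/

namespace Pool.Agent.Lib.MP_5db4ad_nt.NE

open S2 Finset
open scoped Real

namespace Dw

lemma fz_app {β : Type} (a : ℕ) (k : ℕ → β) : fz a k = k a := by
  unfold fz
  cases Nat.ble a (nat_lit 0) <;> rfl

lemma div_bd (n : ℕ) {d : ℕ} (hd : 0 < d) :
    ((n / d : ℕ) : ℝ) ≤ n / d ∧ (n : ℝ) / d < (n / d : ℕ) + 1 := by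
  refine ⟨Nat.cast_div_le, ?_⟩
  have h1 : n < (n / d + 1) * d := by
    have := Nat.div_add_mod n d
    have := Nat.mod_lt n hd
    nlinarith
  rw [div_lt_iff₀ (by exact_mod_cast hd)]
  exact_mod_cast h1

/-- the amplitude -/
noncomputable def am (κ : ℝ) : ℝ := 2 ^ 44 / Kc ^ 3 * (3 / 4 * √(Real.log 2 / κ))

/-- the cut-off -/
noncomputable def vv (m : ℕ) (κ : ℝ) : ℝ := V16 (m / (2 * κ / (Real.log 2 * 9000)))

lemma fD_eq (m : ℕ) (κ : ℝ) : 2 ^ 44 / Kc ^ 3 * fD m κ = am κ * vv m κ := by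
  unfold fD am vv
  ring

lemma am_nonneg (κ : ℝ) : 0 ≤ am κ := by
  unfold am Kc
  positivity

lemma amp {κ s : ℕ} (h1 : 2048 ≤ κ) (h2 : κ ≤ 2 ^ 23) (hs : isqOk (dA κ) s = true) :
    am κ ≤ (s : ℝ) / 2 ^ 16 + 1e-4 ∧ (s : ℝ) / 2 ^ 16 ≤ am κ + 1e-4 ∧ am κ ≤ 5.5e10 := by
  obtain ⟨l1, l2⟩ := log_two_bounds
  have hs' : s * s ≤ 25987541910787618065769007320281098 / κ ∧
      25987541910787618065769007320281098 / κ + 1 ≤ (s + 1) * (s + 1) := by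
    simp only [isqOk, Bool.and_eq_true, Nat.ble_eq] at hs
    exact hs
  have k0 : 0 < κ := by omega
  obtain ⟨d1, d2⟩ := div_bd 25987541910787618065769007320281098 k0
  have k1 : (2048 : ℝ) ≤ κ := by exact_mod_cast h1
  have k2 : (κ : ℝ) ≤ 2 ^ 23 := by exact_mod_cast h2
  have kp : (0 : ℝ) < κ := by linarith
  have s1 : (s : ℝ) * s ≤ (25987541910787618065769007320281098 / κ : ℕ) := by exact_mod_cast hs'.1
  have s2 : ((25987541910787618065769007320281098 / κ : ℕ) : ℝ) + 1 ≤ (s + 1) * (s + 1) := by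
    exact_mod_cast hs'.2
  have e1 : (s : ℝ) ^ 2 * κ ≤ 25987541910787618065769007320281098 := by
    have := (le_div_iff₀ kp).1 (s1.trans d1)
    rw [pow_two]
    exact_mod_cast this
  have e2 : (25987541910787618065769007320281098 : ℝ) ≤ (s + 1) ^ 2 * κ := by
    have := (div_lt_iff₀ kp).1 (d2.trans_le s2)
    rw [pow_two]
    exact_mod_cast this.le
  have a0 := am_nonneg κ
  have e3 : (2 ^ 16 * am κ) ^ 2 * κ = 2 ^ 120 * (9 / 16) / Kc ^ 6 * Real.log 2 := by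
    have : √(Real.log 2 / κ) ^ 2 = Real.log 2 / κ := Real.sq_sqrt (by positivity)
    have hK : Kc ≠ 0 := by unfold Kc; norm_num
    unfold am
    rw [mul_pow, mul_pow, mul_pow, this]
    field_simp
    norm_num
  have e4 : (2 ^ 16 * am κ) ^ 2 * κ ≤ 25987541910787618065769007320281098 + 1e13 := by
    rw [e3]
    refine (mul_le_mul_of_nonneg_left l2.le (by unfold Kc; positivity)).trans ?_
    unfold Kc
    norm_num
  have e5 : 25987541910787618065769007320281098 - 1e13 ≤ (2 ^ 16 * am κ) ^ 2 * κ := by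
    rw [e3]
    refine le_trans ?_ (mul_le_mul_of_nonneg_left l1.le (by unfold Kc; positivity))
    unfold Kc
    norm_num
  generalize am κ = α at *
  set σ := 2 ^ 16 * α with hσ
  have σ0 : 0 ≤ σ := by positivity
  have sq0 : 0 ≤ σ ^ 2 := sq_nonneg σ
  have b1 : 5e13 ≤ σ := by
    rw [← pow_le_pow_iff_left₀ (by norm_num) σ0 two_ne_zero]
    have := mul_le_mul_of_nonneg_left k2 sq0
    norm_num at *
    linarith
  have b2 : σ ≤ 3.6e15 := by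
    rw [← pow_le_pow_iff_left₀ σ0 (by norm_num) two_ne_zero]
    have := mul_le_mul_of_nonneg_left k1 sq0
    norm_num at *
    linarith
  have b3 : (s : ℝ) ≤ σ + 1 := by
    rw [← pow_le_pow_iff_left₀ (by positivity) (by positivity) two_ne_zero]
    refine le_of_mul_le_mul_right ?_ kp
    nlinarith
  have b4 : σ - 1 ≤ (s : ℝ) + 1 := by
    rw [← pow_le_pow_iff_left₀ (by linarith) (by positivity) two_ne_zero]
    refine le_of_mul_le_mul_right ?_ kp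
    nlinarith
  refine ⟨?_, ?_, ?_⟩ <;> linarith

lemma rad (κ : ℕ) : 2 ^ 64 * (2 * (κ : ℝ) / (Real.log 2 * 9000)) ^ 16 ≤ dR κ + 1 ∧
    (dR κ : ℝ) ≤ 2 ^ 64 * (2 * (κ : ℝ) / (Real.log 2 * 9000)) ^ 16 * (1 + 2e-18) := by
  obtain ⟨l1, l2⟩ := log_two_bounds
  have lp : 0 < Real.log 2 := by linarith
  have e0 : dR κ = κ ^ 16 * 2 ^ 1104 / 115076777806823900931000 ^ 16 := by
    unfold dR
    rw [← Nat.shiftLeft_eq]
    rfl
  obtain ⟨d1, d2⟩ := div_bd (κ ^ 16 * 2 ^ 1104) (d := 115076777806823900931000 ^ 16) (by positivity)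
  rw [← e0] at d1 d2
  have e1 : ((κ ^ 16 * 2 ^ 1104 : ℕ) : ℝ) / ((115076777806823900931000 ^ 16 : ℕ) : ℝ) =
      2 ^ 64 * (2 * (κ : ℝ) / (Real.log 2 * 9000)) ^ 16 *
        (Real.log 2 * 2 ^ 64 / 12786308645202655659) ^ 16 := by
    rw [mul_assoc, ← mul_pow]
    have : 2 * (κ : ℝ) / (Real.log 2 * 9000) * (Real.log 2 * 2 ^ 64 / 12786308645202655659) =
        κ * 2 ^ 65 / 115076777806823900931000 := by
      field_simp
      ring
    rw [this, Nat.cast_mul, Nat.cast_pow, Nat.cast_pow, Nat.cast_pow, div_pow, mul_pow, ← pow_mul,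
      show 1104 = 64 + 65 * 16 from rfl, pow_add]
    simp only [Nat.cast_ofNat]
    generalize (2 : ℝ) ^ (65 * 16) = u
    generalize (115076777806823900931000 : ℝ) ^ 16 = w
    ring
  rw [e1] at d1 d2
  clear e0 e1
  generalize dR κ = r at d1 d2 ⊢
  have t1 : 1 ≤ Real.log 2 * 2 ^ 64 / 12786308645202655659 := by
    rw [le_div_iff₀ (by norm_num)]
    linarith
  have t2 : Real.log 2 * 2 ^ 64 / 12786308645202655659 ≤ 1 + 1e-19 := by
    rw [div_le_iff₀ (by norm_num)]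
    linarith
  have t3 := one_le_pow₀ (n := 16) t1
  have t4 : (Real.log 2 * 2 ^ 64 / 12786308645202655659) ^ 16 ≤ 1 + 2e-18 :=
    (pow_le_pow_left₀ (by linarith) t2 16).trans (by norm_num)
  have p0 : 0 ≤ 2 ^ 64 * (2 * (κ : ℝ) / (Real.log 2 * 9000)) ^ 16 :=
    mul_nonneg (by norm_num) (Even.pow_nonneg (by decide) _)
  exact ⟨(le_mul_of_one_le_right p0 t3).trans d2.le, d1.trans (mul_le_mul_of_nonneg_left t4 p0)⟩

lemma frac {ρ r q : ℝ} (h0 : 0 ≤ ρ) (h1 : 0 ≤ r) (hq : 2 ^ 64 ≤ q) (h2 : ρ ≤ r + 1)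
    (h3 : r ≤ ρ * (1 + 2e-18)) : |r / (r + q) - ρ / (ρ + q)| ≤ 2e-18 := by
  have q0 : 0 < q := by linarith [show (0 : ℝ) < 2 ^ 64 by positivity]
  have a0 : 0 < r + q := by linarith
  have b0 : 0 < ρ + q := by linarith
  have e : r / (r + q) - ρ / (ρ + q) = q * (r - ρ) / ((r + q) * (ρ + q)) := by
    field_simp
    ring
  have c1 : q * ρ ≤ (r + q) * (ρ + q) := by nlinarith [mul_nonneg h1 h0, mul_nonneg h1 q0.le]
  have c2 : q * q ≤ (r + q) * (ρ + q) := by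
    nlinarith [mul_nonneg h1 h0, mul_nonneg h1 q0.le, mul_nonneg h0 q0.le]
  have c3 : q * 2 ^ 64 ≤ q * q := mul_le_mul_of_nonneg_left hq q0.le
  have c4 : q * (r - ρ) ≤ q * (ρ * 2e-18) := mul_le_mul_of_nonneg_left (by linarith) q0.le
  have c5 : q * (-1) ≤ q * (r - ρ) := mul_le_mul_of_nonneg_left (by linarith) q0.le
  rw [e, abs_le, le_div_iff₀ (mul_pos a0 b0), div_le_iff₀ (mul_pos a0 b0)]
  constructor <;> linarith

lemma cutoff {κ m : ℕ} (hκ : 1 ≤ κ) (hm : 1 ≤ m) :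
    |(dR κ : ℝ) / (dR κ + (m ^ 16 * 2 ^ 64 : ℕ)) - vv m κ| ≤ 2e-18 := by
  obtain ⟨r1, r2⟩ := rad κ
  have lp : 0 < Real.log 2 := Real.log_pos one_lt_two
  have kp : (0 : ℝ) < κ := by exact_mod_cast hκ
  have mp : (1 : ℝ) ≤ m := by exact_mod_cast hm
  have yp : 0 < 2 * (κ : ℝ) / (Real.log 2 * 9000) := by positivity
  have e : vv m κ = 2 ^ 64 * (2 * (κ : ℝ) / (Real.log 2 * 9000)) ^ 16 /
      (2 ^ 64 * (2 * (κ : ℝ) / (Real.log 2 * 9000)) ^ 16 + (m ^ 16 * 2 ^ 64 : ℕ)) := by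
    unfold vv V16
    generalize 2 * (κ : ℝ) / (Real.log 2 * 9000) = y at yp
    push_cast
    field_simp
    ring
  rw [e]
  refine frac (by positivity) (by positivity) ?_ r1 r2
  push_cast
  have := one_le_pow₀ (n := 16) mp
  linarith

lemma est {α a V W f : ℝ} (h0 : 0 ≤ α) (h1 : α ≤ 5.5e10) (h2 : a ≤ α + 1e-4) (h3 : α ≤ a + 1.0001)
    (w0 : 0 ≤ W) (w1 : W ≤ 1) (hV : |W - V| ≤ 2e-18) (f1 : f ≤ a * W) (f2 : a * W < f + 1) :
    α * V - 2.01 ≤ f ∧ f ≤ α * V + 0.01 := by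
  obtain ⟨v1, v2⟩ := abs_le.1 hV
  have c1 := mul_le_mul_of_nonneg_right h2 w0
  have c2 := mul_le_mul_of_nonneg_right h3 w0
  have c3 := mul_le_mul_of_nonneg_left v1 h0
  have c4 := mul_le_mul_of_nonneg_left v2 h0
  constructor <;> nlinarith

/-- everything about one frequency -/
lemma pack {κ m s : ℕ} (h1 : 2048 ≤ κ) (h2 : κ ≤ 2 ^ 23) (hm : 1 ≤ m)
    (hs : isqOk (dA κ) s = true) :
    s / 2 ^ 16 ≤ 55000000001 ∧ am κ ≤ (s / 2 ^ 16 : ℕ) + 1.0001 ∧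
    s / 2 ^ 16 * dR κ / (dR κ + m ^ 16 * 2 ^ 64) ≤ 55000000001 ∧
    am κ * vv m κ - 2.01 ≤ (s / 2 ^ 16 * dR κ / (dR κ + m ^ 16 * 2 ^ 64) : ℕ) ∧
    ((s / 2 ^ 16 * dR κ / (dR κ + m ^ 16 * 2 ^ 64) : ℕ) : ℝ) ≤ am κ * vv m κ + 0.01 := by
  obtain ⟨a1, a2, a3⟩ := amp h1 h2 hs
  have hc := cutoff (κ := κ) (by omega) hm
  have qp : 0 < m ^ 16 * 2 ^ 64 := by positivity
  clear hs
  generalize dR κ = r at hc ⊢
  generalize m ^ 16 * 2 ^ 64 = q at hc qp ⊢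
  obtain ⟨d1, d2⟩ := div_bd s (d := 2 ^ 16) (by positivity)
  obtain ⟨d3, d4⟩ := div_bd (s / 2 ^ 16 * r) (d := r + q) (by omega)
  have qr : (0 : ℝ) < q := by exact_mod_cast qp
  have r0 : (0 : ℝ) ≤ r := by positivity
  rw [Nat.cast_mul, Nat.cast_add, mul_div_assoc] at d3 d4
  rw [Nat.cast_pow, Nat.cast_ofNat] at d1 d2
  have b1 : s / 2 ^ 16 ≤ 55000000001 := by
    have : ((s / 2 ^ 16 : ℕ) : ℝ) ≤ (55000000001 : ℕ) := by
      push_cast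
      linarith
    exact_mod_cast this
  have b2 : am κ ≤ (s / 2 ^ 16 : ℕ) + 1.0001 := by linarith
  refine ⟨b1, b2, ?_, est (am_nonneg κ) a3 (by linarith) b2 (by positivity)
    ((div_le_one (by linarith)).2 (by linarith)) hc d3 d4⟩
  refine le_trans (Nat.div_le_of_le_mul ?_) b1
  rw [mul_comm]
  exact Nat.mul_le_mul_right _ (Nat.le_add_right _ _)

lemma third {α a V W V' W' : ℝ} (a0 : 0 ≤ a) (a1 : a ≤ 55000000001) (h0 : 0 ≤ α)
    (h3 : α ≤ a + 1.0001) (w0 : 0 ≤ W) (w1 : W ≤ 1) (hV : |W - V| ≤ 2e-18) (w0' : 0 ≤ W')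
    (w1' : W' ≤ 1) (hV' : |W' - V'| ≤ 2e-18) :
    α * V' * (5340 * (1 - V) + 1.875) ≤ a * W' * (5340 * (1 - W) + 2) + 2 ^ 26 ∧
      a * W' * (5340 * (1 - W) + 2) ≤ 55000000001 * 5342 := by
  obtain ⟨v1, v2⟩ := abs_le.1 hV
  obtain ⟨v3, v4⟩ := abs_le.1 hV'
  have t0 : 0 ≤ 5340 * (1 - W) + 2 := by linarith
  have t1 : 5340 * (1 - W) + 2 ≤ 5342 := by linarith
  have t2 : 0 ≤ 5340 * (1 - V) + 1.875 := by linarith
  have t3 : 5340 * (1 - V) + 1.875 ≤ 5340 * (1 - W) + 2 := by linarith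
  have c1 : α * V' ≤ α * (W' + 2e-18) := mul_le_mul_of_nonneg_left (by linarith) h0
  have c2 : α * (W' + 2e-18) ≤ (a + 1.0001) * (W' + 2e-18) :=
    mul_le_mul_of_nonneg_right h3 (by linarith)
  have c3 : α * V' ≤ a * W' + 2 := by nlinarith
  have c4 : 0 ≤ a * W' := mul_nonneg a0 w0'
  have c5 : a * W' ≤ 55000000001 := by nlinarith
  constructor
  · calc _ ≤ (a * W' + 2) * (5340 * (1 - V) + 1.875) := mul_le_mul_of_nonneg_right c3 t2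
      _ ≤ (a * W' + 2) * (5340 * (1 - W) + 2) := mul_le_mul_of_nonneg_left t3 (by linarith)
      _ ≤ _ := by nlinarith
  · exact mul_le_mul c5 t1 t0 (by norm_num)

lemma dw_eq (a0 a1 a2 r0 r1 r2 v q f0 f1 f2 : ℕ) (hq : q = (v / 2 ^ 128) ^ 16 * 2 ^ 64)
    (h0 : f0 = a0 * r0 / (r0 + q)) (h1 : f1 = a1 * r1 / (r1 + q)) (h2 : f2 = a2 * r2 / (r2 + q)) :
    dw a0 a1 a2 r0 r1 r2 v = (2 ^ 46 + f1) + (2 ^ 47 + f2 - f0) / 2 * 2 ^ 48 +
      (2 ^ 47 + (f0 + f2) - (f1 + f1)) / 2 * 2 ^ 96 +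
      (a0 * r2 * (5340 * q + (r0 + q + (r0 + q))) / ((r0 + q) * (r2 + q) * 2 ^ 26) + 1) * 2 ^ 144 +
      ((f0 + f2 + (f1 + f1)) / 2 ^ 16 + 1) * 2 ^ 168 := by
  have e : dw a0 a1 a2 r0 r1 r2 v = (70368744177664 + f1) +
      ((140737488355328 + f2 - f0) >>> 1) <<< 48 +
      (((140737488355328 + (f0 + f2) - (f1 + f1)) >>> 1) <<< 96 +
      ((a0 * r2 * (5340 * q + (r0 + q + (r0 + q))) / (((r0 + q) * (r2 + q)) <<< 26) + 1) <<< 144 +
      ((f0 + f2 + (f1 + f1)) >>> 16 + 1) <<< 168)) := by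
    have hq' : q = ((v >>> 128) ^ 16) <<< 64 := by
      rw [hq, Nat.shiftLeft_eq, Nat.shiftRight_eq_div_pow]
    subst h0 h1 h2
    rw [hq']
    unfold dw
    simp only [fz_app]
    rfl
  rw [e]
  simp only [Nat.shiftLeft_eq, Nat.shiftRight_eq_div_pow, pow_one, add_assoc]
  rfl

/-- the final estimates, for abstract numbers -/
lemma fin_est {a r0 r f0 f1 f2 q : ℕ} {α V0 V2 c φ0 φ1 φ2 : ℝ} (qp : 0 < q) (a0 : a ≤ 55000000001)
    (c0 : f0 ≤ 55000000001) (c1 : f1 ≤ 55000000001) (c2 : f2 ≤ 55000000001) (h0 : 0 ≤ α)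
    (b0 : α ≤ a + 1.0001) (l0 : c * φ0 - 2.01 ≤ f0) (u0 : f0 ≤ c * φ0 + 0.01)
    (l1 : c * φ1 - 2.01 ≤ f1) (u1 : f1 ≤ c * φ1 + 0.01) (l2 : c * φ2 - 2.01 ≤ f2)
    (u2 : f2 ≤ c * φ2 + 0.01) (v0 : |(r0 : ℝ) / (r0 + q) - V0| ≤ 2e-18)
    (v2 : |(r : ℝ) / (r + q) - V2| ≤ 2e-18) {w0 w1 w2 Q S : ℕ} (hw0 : w0 = 2 ^ 46 + f1)
    (hw1 : w1 = (2 ^ 47 + f2 - f0) / 2) (hw2 : w2 = (2 ^ 47 + (f0 + f2) - (f1 + f1)) / 2)
    (hQ : Q = a * r * (5340 * q + (r0 + q + (r0 + q))) / ((r0 + q) * (r + q) * 2 ^ 26) + 1)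
    (hS : S = (f0 + f2 + (f1 + f1)) / 2 ^ 16 + 1) :
    Q < 2 ^ 24 ∧ S < 2 ^ 24 ∧ |sv w0| + |sv w1| + |sv w2| ≤ S * 2 ^ 16 ∧ S ≤ 2 ^ 23 ∧
    |sv w0 - c * φ1| + |sv w1 - c * ((φ2 - φ0) / 2)| + |sv w2 - c * ((φ2 - 2 * φ1 + φ0) / 2)| ≤ 10 ∧
    α * V2 * (5340 * (1 - V0) + 1.875) ≤ (Q + 1) * 2 ^ 26 := by
  have qr : (0 : ℝ) < q := by exact_mod_cast qp
  have p0 : (0 : ℝ) < r0 + q := by positivity
  have p2 : (0 : ℝ) < r + q := by positivity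
  have ar : (a : ℝ) ≤ 55000000001 := by exact_mod_cast a0
  obtain ⟨t1, t2⟩ := third (by positivity) ar h0 b0 (by positivity)
    ((div_le_one p0).2 (by linarith)) v0 (by positivity) ((div_le_one p2).2 (by linarith)) v2
  obtain ⟨d1, d2⟩ := div_bd (a * r * (5340 * q + (r0 + q + (r0 + q))))
    (d := (r0 + q) * (r + q) * 2 ^ 26) (by positivity)
  have e1 : ((a * r * (5340 * q + (r0 + q + (r0 + q))) : ℕ) : ℝ) /
      (((r0 + q) * (r + q) * 2 ^ 26 : ℕ) : ℝ) =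
      a * (r / (r + q)) * (5340 * (1 - r0 / (r0 + q)) + 2) / 2 ^ 26 := by
    push_cast
    field_simp
    ring
  rw [e1] at d1 d2
  clear e1
  generalize a * r * (5340 * q + (r0 + q + (r0 + q))) / ((r0 + q) * (r + q) * 2 ^ 26) = Q' at *
  have x1 : 2 * w1 + f0 ≤ 2 ^ 47 + f2 := by omega
  have y1 : 2 ^ 47 + f2 ≤ 2 * w1 + f0 + 1 := by omega
  have x2 : 2 * w2 + 2 * f1 ≤ 2 ^ 47 + f0 + f2 := by omega
  have y2 : 2 ^ 47 + f0 + f2 ≤ 2 * w2 + 2 * f1 + 1 := by omega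
  have x3 : S ≤ 2 ^ 23 := by omega
  have y3 : f0 + f2 + 2 * f1 + 1 ≤ S * 2 ^ 16 := by omega
  have x1' : 2 * (w1 : ℝ) + f0 ≤ 2 ^ 47 + f2 := by exact_mod_cast x1
  have y1' : 2 ^ 47 + (f2 : ℝ) ≤ 2 * w1 + f0 + 1 := by exact_mod_cast y1
  have x2' : 2 * (w2 : ℝ) + 2 * f1 ≤ 2 ^ 47 + f0 + f2 := by exact_mod_cast x2
  have y2' : 2 ^ 47 + (f0 : ℝ) + f2 ≤ 2 * w2 + 2 * f1 + 1 := by exact_mod_cast y2
  have y3' : (f0 : ℝ) + f2 + 2 * f1 + 1 ≤ S * 2 ^ 16 := by exact_mod_cast y3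
  have g0 : (0 : ℝ) ≤ f0 := by positivity
  have g1 : (0 : ℝ) ≤ f1 := by positivity
  have g2 : (0 : ℝ) ≤ f2 := by positivity
  have z0 : sv w0 = f1 := by
    unfold sv
    rw [hw0]
    push_cast
    ring
  have hQ' : Q' < 5000000 := by
    have : (Q' : ℝ) < (5000000 : ℕ) := by
      push_cast
      linarith
    exact_mod_cast this
  refine ⟨by omega, by omega, ?_, x3, ?_, ?_⟩
  · have i1 : |sv w1| ≤ (f0 + f2 + 1) / 2 := by
      unfold sv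
      rw [abs_le]
      constructor <;> linarith
    have i2 : |sv w2| ≤ (f0 + f2 + 2 * f1 + 1) / 2 := by
      unfold sv
      rw [abs_le]
      constructor <;> linarith
    rw [z0, abs_of_nonneg g1]
    linarith
  · have i0 : |sv w0 - c * φ1| ≤ 3 := by
      rw [z0, abs_le]
      constructor <;> linarith
    have i1 : |sv w1 - c * ((φ2 - φ0) / 2)| ≤ 3 := by
      unfold sv
      rw [abs_le]
      constructor <;> linarith
    have i2 : |sv w2 - c * ((φ2 - 2 * φ1 + φ0) / 2)| ≤ 4 := by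
      unfold sv
      rw [abs_le]
      constructor <;> linarith
    linarith
  · rw [hQ]
    push_cast
    linarith

lemma last {y r : ℝ} (h0 : 0 ≤ r) (h : 2 ^ 64 * y ≤ r + 1) : y ≤ (r + 1) / 2 ^ 64 * 1.00001 := by
  linarith

end Dw

open Dw in
theorem dwOk : StDw := by
  intro k B A g m hk hB hkB hm hA hg s0 s1 s2
  have hv : (A + g * 2 ^ 48 + m * 2 ^ 128) / 2 ^ 128 = m := by omega
  have k0 : k ≤ 2 ^ 23 := by omega
  have k1 : 2048 ≤ k + B := by omega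
  have k2 : k + B ≤ 2 ^ 23 := by omega
  have k3 : 2048 ≤ k + 2 * B := by omega
  have k4 : 1 ≤ k := by omega
  have k5 : 1 ≤ k + 2 * B := by omega
  have qp : 0 < m ^ 16 * 2 ^ 64 := by positivity
  have e1 : ((k + B : ℕ) : ℝ) = k + B := Nat.cast_add _ _
  have e2 : ((k + 2 * B : ℕ) : ℝ) = k + 2 * B := by push_cast; rfl
  have hq : m ^ 16 * 2 ^ 64 = ((A + g * 2 ^ 48 + m * 2 ^ 128) / 2 ^ 128) ^ 16 * 2 ^ 64 := by
    rw [hv]
  obtain ⟨a0, b0, c0, l0, u0⟩ := pack hk k0 hm s0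
  obtain ⟨-, -, c1, l1, u1⟩ := pack k1 k2 hm s1
  obtain ⟨-, -, c2, l2, u2⟩ := pack k3 hkB hm s2
  have v0 := cutoff k4 hm
  have v2 := cutoff k5 hm
  have r2 := (rad (k + 2 * B)).1
  have m0 := (amp hk k0 s0).1
  rw [← fD_eq] at l0 u0 l1 u1 l2 u2
  rw [e1] at l1 u1
  rw [e2] at l2 u2 v2 r2
  obtain ⟨f1, f2, f3, f4, f5, f6⟩ := fin_est qp a0 c0 c1 c2 (am_nonneg k) b0 l0 u0 l1 u1 l2 u2 v0 v2
    rfl rfl rfl rfl rfl
  exact ⟨_, _, _, _, _, dw_eq _ _ _ _ _ _ _ _ _ _ _ hq rfl rfl rfl, f1, f2, f3, f4, f5, f6,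
    m0.trans (add_le_add le_rfl (by norm_num)), last (Nat.cast_nonneg _) r2⟩

end Pool.Agent.Lib.MP_5db4ad_nt.NE
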