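import Pool.Agent.Lib.MP_5db4ad_nt.H96NLaneB

/-!
The table of the weights of interpolation and of the quadratic phases of a chunk of sources.
-/

namespace Pool.Agent.Lib.MP_5db4ad_nt.NE

open S2 Finset

namespace H96NE

/-- the sign bit of a weight -/
def sb (o : ℕ) : ℕ := 5418 / 2 ^ o % 2

/-- the lane of a weight -/
noncomputable def wl (a u P o : ℕ) : ℕ :=
  2 ^ 46 + P / (dst a (o * u) * cf o) - (P / (dst a (o * u) * cf o) + P / (dst a (o * u) * cf o)) * sb o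

lemma prd_eq (a u n : ℕ) : prd a u n = ∏ o ∈ range n, dst a (o * u) := by
  induction n with
  | zero => rfl
  | succ n ih =>
    rw [prod_range_succ, ← ih]
    rfl

lemma wts_succ (a u P n : ℕ) :
    wts a u P (n + 1) = wts a u P n + wl a u P n * 2 ^ (192 * n) := by
  have h : wts a u P (n + 1) = fz (P / (dst a (n * u) * cf n)) fun w =>
      wts a u P n + (2 ^ 46 + w - (w + w) * ((5418 >>> n) &&& 1)) <<< (192 * n) := rfl
  rw [h, fz_eq, Nat.shiftLeft_eq, Nat.shiftRight_eq_div_pow, Nat.and_one_is_mod]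
  rfl

lemma wts_eq (a u P n : ℕ) : wts a u P n = pw 192 n (wl a u P) := by
  induction n with
  | zero => rfl
  | succ n ih => rw [wts_succ, ih, pw, pw, sum_range_succ]

lemma O15_eq : O15 = pw 192 15 fun _ => 1 := by decide +kernel

lemma R15_eq : R15 = pw 192 15 fun o => 2 * o := by decide +kernel

lemma S15_eq : S15 = pw 192 15 fun o => (o - 6) ^ 2 + (6 - o) ^ 2 := by decide +kernel

lemma cf_eq : ∀ o < 14, ∏ o' ∈ (range 14).erase o, ((if o' ≤ 6 then 1 else -1) * ((o : ℤ) - o')) =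
    (1 - 2 * (sb o : ℤ)) * cf o ∧ 0 < cf o ∧ sb o ≤ 1 := by decide +kernel

lemma lw_mul {o : ℕ} (ho : o < 14) {δ : ℝ} (h0 : 0 ≤ δ) (h1 : δ ≤ 1) :
    lw o δ * ((1 - 2 * (sb o : ℝ)) * cf o) = ∏ o' ∈ (range 14).erase o, |δ + 6 - o'| := by
  have h := congrArg (Int.cast : ℤ → ℝ) (cf_eq o ho).1
  push_cast at h
  rw [← h, lw, if_pos ho, ← prod_mul_distrib]
  refine prod_congr rfl fun o' ho' => ?_
  have hne : (o : ℝ) - o' ≠ 0 := sub_ne_zero.2 (Nat.cast_injective.ne (ne_of_mem_erase ho').symm)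
  rw [← mul_assoc, mul_right_comm, div_mul_cancel₀ _ hne]
  split_ifs with h6
  · have : (o' : ℝ) ≤ 6 := by exact_mod_cast h6
    rw [mul_one, abs_of_nonneg (by linarith)]
  · have : (7 : ℝ) ≤ o' := by exact_mod_cast Nat.lt_of_not_le h6
    rw [abs_of_nonpos (by linarith)]
    ring

lemma wl_sv {s r o : ℕ} (hs : 4 ≤ s) (hr : r < 2 ^ s) (hodd : Odd r) (ho : o < 14)
    (hl : |lw o ((r : ℝ) / 2 ^ s)| ≤ 1.68) :
    wl (r + 6 * 2 ^ s) (2 ^ s) (prd (r + 6 * 2 ^ s) (2 ^ s) 14 / 2 ^ (13 * s - 40)) o < 2 ^ 48 ∧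
    |sv (wl (r + 6 * 2 ^ s) (2 ^ s) (prd (r + 6 * 2 ^ s) (2 ^ s) 14 / 2 ^ (13 * s - 40)) o) -
      2 ^ 40 * lw o ((r : ℝ) / 2 ^ s)| ≤ 1 := by
  set δ : ℝ := (r : ℝ) / 2 ^ s with hδ
  have hu : (0 : ℝ) < 2 ^ s := by positivity
  have h0 : 0 ≤ δ := by positivity
  have h1 : δ ≤ 1 := (div_le_one hu).2 (by exact_mod_cast hr.le)
  have hd : ∀ o' : ℕ, (dst (r + 6 * 2 ^ s) (o' * 2 ^ s) : ℝ) = 2 ^ s * |δ + 6 - o'| := by
    intro o'
    rw [dst_cast, ← abs_of_pos hu, ← abs_mul, hδ]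
    congr 1
    push_cast
    field_simp
  have hpos : 0 < dst (r + 6 * 2 ^ s) (o * 2 ^ s) := by
    have h2 : 2 ∣ 2 ^ s := dvd_pow_self 2 (by omega)
    have h3 : 2 ∣ o * 2 ^ s := h2.mul_left o
    obtain ⟨c, rfl⟩ := hodd
    show 0 < 2 * c + 1 + 6 * 2 ^ s - o * 2 ^ s + (o * 2 ^ s - (2 * c + 1 + 6 * 2 ^ s))
    omega
  obtain ⟨-, hc, hb⟩ := cf_eq o ho
  have hm := lw_mul ho h0 h1
  have hp : (prd (r + 6 * 2 ^ s) (2 ^ s) 14 : ℝ) = dst (r + 6 * 2 ^ s) (o * 2 ^ s) *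
      ((2 ^ s) ^ 13 * ∏ o' ∈ (range 14).erase o, |δ + 6 - o'|) := by
    rw [prd_eq, ← mul_prod_erase _ _ (mem_range.2 ho), Nat.cast_mul, Nat.cast_prod]
    simp only [hd]
    rw [prod_mul_distrib, prod_const, card_erase_of_mem (mem_range.2 ho), card_range]
  have he : ((2 : ℝ) ^ s) ^ 13 = 2 ^ (13 * s - 40) * 2 ^ 40 := by
    rw [← pow_mul, ← pow_add]
    congr 1
    omega
  unfold wl
  rw [Nat.div_div_eq_div_mul, ← Nat.floor_div_eq_div (K := ℝ)]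
  have hq : (prd (r + 6 * 2 ^ s) (2 ^ s) 14 : ℝ) /
      ((2 ^ (13 * s - 40) * (dst (r + 6 * 2 ^ s) (o * 2 ^ s) * cf o) : ℕ) : ℝ) =
      2 ^ 40 * (lw o δ * (1 - 2 * (sb o : ℝ))) := by
    have : (dst (r + 6 * 2 ^ s) (o * 2 ^ s) : ℝ) ≠ 0 := by exact_mod_cast hpos.ne'
    have : (cf o : ℝ) ≠ 0 := by exact_mod_cast hc.ne'
    rw [hp, he, ← hm]
    push_cast
    field_simp
  have hn : 0 ≤ 2 ^ 40 * (lw o δ * (1 - 2 * (sb o : ℝ))) := by
    rw [← hq]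
    positivity
  rw [hq]
  have k1 := Nat.floor_le hn
  have k2 := Nat.lt_floor_add_one (2 ^ 40 * (lw o δ * (1 - 2 * (sb o : ℝ))))
  generalize ⌊2 ^ 40 * (lw o δ * (1 - 2 * (sb o : ℝ)))⌋₊ = w at k1 k2
  obtain ⟨l1, l2⟩ := abs_le.1 hl
  rcases Nat.le_one_iff_eq_zero_or_eq_one.1 hb with h | h
  · rw [h] at k1 k2 ⊢
    have : w ≤ 2 ^ 41 := by
      have : (w : ℝ) ≤ 2 ^ 41 := by
        push_cast at k1
        linarith
      exact_mod_cast this
    refine ⟨by omega, ?_⟩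
    rw [mul_zero, Nat.sub_zero, sv, abs_le]
    push_cast at k1 k2 ⊢
    constructor <;> linarith
  · rw [h] at k1 k2 ⊢
    have : w ≤ 2 ^ 41 := by
      have : (w : ℝ) ≤ 2 ^ 41 := by
        push_cast at k1
        linarith
      exact_mod_cast this
    refine ⟨by omega, ?_⟩
    rw [mul_one, sv, Nat.cast_sub (by omega), abs_le]
    push_cast at k1 k2 ⊢
    constructor <;> linarith

/-- the angle field -/
def ang (lm p o : ℕ) : ℕ :=
  (2 ^ (lm + lm + 2) + 12 * p - (p * p + 2 * o * p + ((o - 6) ^ 2 + (6 - o) ^ 2))) * 2 ^ (43 - lm)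

lemma ang_le {lm p o : ℕ} (h5 : 5 ≤ lm) (hp : p < 2 ^ lm) (ho : o < 15) :
    p * p + 2 * o * p + ((o - 6) ^ 2 + (6 - o) ^ 2) ≤ 2 ^ (lm + lm + 2) + 12 * p := by
  have h1 : 2 ^ 5 ≤ 2 ^ lm := Nat.pow_le_pow_right two_pos h5
  have h2 : (o - 6) ^ 2 + (6 - o) ^ 2 ≤ 64 := by
    interval_cases o <;> norm_num
  rw [pow_add, pow_add]
  generalize 2 ^ lm = M at *
  nlinarith

lemma ang_lt {lm p : ℕ} (h5 : 5 ≤ lm) (h18 : lm ≤ 18) (hp : p < 2 ^ lm) (o : ℕ) :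
    ang lm p o < 2 ^ 100 := by
  have h1 : 2 ^ lm ≤ 2 ^ 18 := Nat.pow_le_pow_right two_pos h18
  have h2 : 2 ^ (lm + lm + 2) ≤ 2 ^ 38 := Nat.pow_le_pow_right two_pos (by omega)
  have h3 : 2 ^ (43 - lm) ≤ 2 ^ 38 := Nat.pow_le_pow_right two_pos (by omega)
  exact lt_of_le_of_lt (Nat.mul_le_mul (show _ ≤ 2 ^ 39 by omega) h3) (by norm_num)

lemma ang_cast {lm p o : ℕ} (h5 : 5 ≤ lm) (h18 : lm ≤ 18) (hp : p < 2 ^ lm) (ho : o < 15) :
    (ang lm p o : ℝ) / 2 ^ 44 - -((p : ℝ) + o - 6) ^ 2 / (2 * 2 ^ lm) - ((2 ^ (lm + 1) : ℤ) : ℝ) =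
      0 := by
  have h1 : (((o - 6) ^ 2 + (6 - o) ^ 2 : ℕ) : ℝ) = ((o : ℝ) - 6) ^ 2 := by
    interval_cases o <;> norm_num
  have h2 : (2 : ℝ) ^ 44 = 2 ^ (43 - lm) * (2 * 2 ^ lm) := by
    rw [← pow_succ', ← pow_add]
    congr 1
    omega
  rw [ang, Nat.cast_mul, Nat.cast_sub (ang_le h5 hp ho), Nat.cast_add (p * p + 2 * o * p), h1, h2]
  push_cast
  field_simp
  ring

/-- the weight field -/
noncomputable def wt (lm g o : ℕ) : ℕ :=
  if o < 14 then wl (g % 2 ^ (64 - lm) + 6 * 2 ^ (64 - lm)) (2 ^ (64 - lm))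
    (prd (g % 2 ^ (64 - lm) + 6 * 2 ^ (64 - lm)) (2 ^ (64 - lm)) 14 / 2 ^ (13 * (64 - lm) - 40)) o
  else 2 ^ 46

lemma posR_lt (lm g : ℕ) : posR lm g < 2 ^ lm := Nat.mod_lt _ (by positivity)

lemma rec1_eq {lm A g m : ℕ} (h5 : 5 ≤ lm) (h18 : lm ≤ 18) (hA : A < 2 ^ 48) :
    rec1 lm (A + g * 2 ^ 48 + m * 2 ^ 128) =
      pw 192 15 fun o => wt lm g o + ang lm (posR lm g) o * 2 ^ 64 := by
  have e0 : (A + g * 2 ^ 48 + m * 2 ^ 128) / 2 ^ 48 = g + m * 2 ^ 80 := by omega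
  have e1 : pos1 lm (A + g * 2 ^ 48 + m * 2 ^ 128) = posR lm g := by
    show (_ >>> (112 - lm)) &&& (p2 lm - 1) = _
    have h1 : 112 - lm = 48 + (64 - lm) := by omega
    have h2 : m * 2 ^ 80 = m * 2 ^ 16 * 2 ^ lm * 2 ^ (64 - lm) := by
      rw [mul_assoc, mul_assoc, ← pow_add, ← pow_add]
      congr 2
      omega
    rw [p2_eq, Nat.and_two_pow_sub_one_eq_mod, Nat.shiftRight_eq_div_pow, h1, pow_add,
      ← Nat.div_div_eq_div_mul, e0, h2, Nat.add_mul_div_right _ _ (by positivity),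
      Nat.add_mul_mod_self_right, posR]
  have e2 : Nat.land (Nat.shiftRight (A + g * 2 ^ 48 + m * 2 ^ 128) (nat_lit 48))
      (Nat.sub (p2 (Nat.sub (nat_lit 64) lm)) (nat_lit 1)) = g % 2 ^ (64 - lm) := by
    show (_ >>> 48) &&& (p2 (64 - lm) - 1) = _
    have h2 : m * 2 ^ 80 = m * 2 ^ (16 + lm) * 2 ^ (64 - lm) := by
      rw [mul_assoc, ← pow_add]
      congr 2
      omega
    rw [p2_eq, Nat.and_two_pow_sub_one_eq_mod, Nat.shiftRight_eq_div_pow, e0, h2,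
      Nat.add_mul_mod_self_right]
  have e3 : ∀ (C : ℕ) (f : ℕ → ℕ), C = 2 ^ 46 * 2 ^ (192 * 14) →
      pw 192 14 f + C = pw 192 15 fun o => if o < 14 then f o else 2 ^ 46 := by
    intro C f hC
    rw [hC, pw, pw, sum_range_succ _ 14, if_neg (lt_irrefl _),
      add_left_inj]
    exact sum_congr rfl fun o ho => by rw [if_pos (mem_range.1 ho)]
  have e4 : 2 ^ (107 - lm) = 2 ^ (43 - lm) * 2 ^ 64 := by
    rw [← pow_add]
    congr 1
    omega
  unfold rec1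
  simp only [fz_eq]
  rw [e1, e2, wts_eq, O15_eq, R15_eq, S15_eq]
  simp only [Nat.add_eq, Nat.mul_eq, Nat.sub_eq, p2_eq]
  rw [e3 _ _ (by decide +kernel), pw_mul, pw_mul, pw_mul, pw_add, pw_add,
    pw_sub fun o ho => by simpa only [one_mul] using ang_le h5 (posR_lt lm g) ho, pw_shl, pw_add]
  refine pw_congr fun o ho => ?_
  simp only [one_mul, wt, ang, mul_assoc]
  rw [← e4]
  congr 3
  exact Nat.shiftRight_eq_div_pow _ _

lemma del_mem (lm g : ℕ) : 0 ≤ delR lm g ∧ delR lm g ≤ 1 :=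
  ⟨by unfold delR; positivity, (div_le_one (by positivity)).2
    (by exact_mod_cast (Nat.mod_lt _ (by positivity)).le)⟩

lemma wt_sv (hL : StLag) {lm g : ℕ} (h18 : lm ≤ 18) (hg : Odd g) (o : ℕ) :
    wt lm g o < 2 ^ 48 ∧ |sv (wt lm g o) - 2 ^ 40 * lw o (delR lm g)| ≤ 1 ∧
      |lw o (delR lm g)| ≤ 1.68 := by
  unfold wt
  split_ifs with ho
  · have hr : g % 2 ^ (64 - lm) < 2 ^ (64 - lm) := Nat.mod_lt _ (by positivity)
    have h2 : |lw o (delR lm g)| ≤ 1.68 :=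
      (single_le_sum (f := fun o => |lw o (delR lm g)|) (fun _ _ => abs_nonneg _)
        (mem_range.2 ho)).trans (hL _ (del_mem lm g).1 (del_mem lm g).2).1
    have h3 : Odd (g % 2 ^ (64 - lm)) := by
      rw [Nat.odd_iff] at hg ⊢
      rwa [Nat.mod_mod_of_dvd _ (dvd_pow_self 2 (by omega))]
    have := wl_sv (by omega) hr h3 ho h2
    exact ⟨this.1, this.2, h2⟩
  · rw [lw, if_neg ho, sv]
    norm_num

lemma mkE_eq (lm d v n R : ℕ) (hn : n = 15 * 2 ^ (d - 2)) (hR : R = mapV 2880 (rec1 lm) d v)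
    {x y : ℕ} (h : rot (ow 48 (4 * n)) 28 (ovl n (fld (ow 192 (4 * n)) R 0 48))
      (Nat.shiftLeft (ow 48 (4 * n)) 46) (angW n (fld (ow 192 (4 * n)) R 64 128) 0) = T2.mk x y) :
    mkE lm d v = cmb n (rdN (ow 48 (4 * n)) x 15 30) (rdN (ow 48 (4 * n)) y 15 30) +
      Nat.shiftLeft (ow 2880 (2 ^ d)) 2688 - ow 192 (4 * n) * (2 ^ 29 + 2 ^ 93) := by
  unfold mkE
  simp only [fz_eq, p2_eq, oW_eq, oN_eq, Nat.add_eq, Nat.mul_eq, Nat.sub_eq]
  subst hn hR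
  erw [h]
  rfl

lemma norm_ci {a b : ℕ} {x y : ℝ} (ha : |x - sv a / 2 ^ 15| ≤ 1 / 2)
    (hb : |y - sv b / 2 ^ 15| ≤ 1 / 2) : ‖(⟨x, y⟩ : ℂ) - cz a b / 2 ^ 15‖ ≤ 0.70711 := by
  have e : (⟨x, y⟩ : ℂ) - cz a b / 2 ^ 15 = ⟨x - sv a / 2 ^ 15, y - sv b / 2 ^ 15⟩ := by
    have : ((2 : ℂ) ^ 15) = ((2 ^ 15 : ℝ) : ℂ) := by push_cast; rfl
    rw [this]
    apply Complex.ext
    · rw [Complex.sub_re, Complex.div_ofReal_re]
      rfl
    · rw [Complex.sub_im, Complex.div_ofReal_im]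
      rfl
  rw [e, Complex.norm_eq_sqrt_sq_add_sq, Real.sqrt_le_left (by norm_num)]
  have h1 := sq_le_sq' (abs_le.1 ha).1 (abs_le.1 ha).2
  have h2 := sq_le_sq' (abs_le.1 hb).1 (abs_le.1 hb).2
  show (x - sv a / 2 ^ 15) ^ 2 + (y - sv b / 2 ^ 15) ^ 2 ≤ _
  linarith [show (1 / 2 : ℝ) ^ 2 + (1 / 2) ^ 2 ≤ 0.70711 ^ 2 by norm_num]

lemma lane_err {a b : ℕ} {x y : ℤ} {l θ : ℝ} (ha : |(x : ℝ) - sv a / 2 ^ 15| ≤ 1 / 2)
    (hb : |(y : ℝ) - sv b / 2 ^ 15| ≤ 1 / 2)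
    (h : ‖cz a b - Kc * ((2 ^ 40 * l : ℝ) : ℂ) * ee θ‖ ≤ 75 + 2 ^ 40 * |l| * 1.2352e-8) :
    ‖ci x y / 2 ^ 25 - ((Kc * l : ℝ) : ℂ) * ee θ‖ ≤ 2.1143e-8 + |l| * 1.2352e-8 := by
  have e : ci x y / 2 ^ 25 - ((Kc * l : ℝ) : ℂ) * ee θ = (ci x y - cz a b / 2 ^ 15) / 2 ^ 25 +
      (cz a b - Kc * ((2 ^ 40 * l : ℝ) : ℂ) * ee θ) / 2 ^ 40 := by
    push_cast
    ring
  have h1 : ‖ci x y - cz a b / 2 ^ 15‖ ≤ 0.70711 := norm_ci ha hb
  rw [e]
  refine (norm_add_le _ _).trans ?_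
  rw [norm_div, norm_div, norm_pow, norm_pow, Complex.norm_two]
  linarith

lemma eq_of_abs {r : ℕ} {t : ℝ} (h : |(r : ℝ) - 2 ^ (30 - 1) - t / 2 ^ 15| ≤ 1 / 2)
    (ht : |t| ≤ 75) : r = 2 ^ 29 := by
  obtain ⟨h1, h2⟩ := abs_le.1 h
  obtain ⟨h3, h4⟩ := abs_le.1 ht
  have k1 : (r : ℝ) < (2 ^ 29 + 1 : ℕ) := by
    push_cast
    linarith
  have k2 : ((2 ^ 29 : ℕ) : ℝ) < r + 1 := by
    push_cast
    linarith
  have k3 : r < 2 ^ 29 + 1 := by exact_mod_cast k1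
  have k4 : 2 ^ 29 < r + 1 := by exact_mod_cast k2
  omega

lemma pw_rec (n : ℕ) (h : ℕ → ℕ) :
    pw 192 (15 * n) h = pw 2880 n fun p => pw 192 15 fun o => h (15 * p + o) := by
  rw [show 2880 = 192 * 15 from rfl, pw_pw 192 15 n (fun p o => h (15 * p + o)) (by norm_num)]
  exact pw_congr fun j _ => by rw [Nat.div_add_mod]

lemma top_iw (W n : ℕ) : ((2 ^ (W * n) : ℕ) : ℤ) = iw W (n + 1) fun o => if o = n then 1 else 0 := by
  rw [iw_succ, if_pos rfl, one_mul, iw, sum_eq_zero fun o ho => by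
    rw [if_neg (mem_range.1 ho).ne, zero_mul], zero_add, Nat.cast_pow, Nat.cast_ofNat]

lemma rec_le {f : ℕ → ℕ} {c : ℕ} (hc : c < 2 ^ 192) (hf : ∀ o < 14, f o < 2 ^ 192) (h : f 14 = c) :
    (pw 192 15 fun _ => c) ≤ pw 192 15 f + 2 ^ 2688 ∧
      pw 192 15 f + 2 ^ 2688 - (pw 192 15 fun _ => c) < 2 ^ 2880 := by
  have h1 : pw 192 14 f < 2 ^ (192 * 14) := pw_lt hf
  have h2 : (pw 192 14 fun _ => c) < 2 ^ (192 * 14) := pw_lt fun _ _ => hc
  have h3 : pw 192 15 f = pw 192 14 f + f 14 * 2 ^ (192 * 14) := sum_range_succ _ 14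
  have h4 : (pw 192 15 fun _ => c) = (pw 192 14 fun _ => c) + c * 2 ^ (192 * 14) :=
    sum_range_succ _ 14
  have h5 : 2 ^ 2688 + 2 ^ 2688 ≤ 2 ^ 2880 := by
    rw [← two_mul, ← pow_succ']
    exact Nat.pow_le_pow_right two_pos (by norm_num)
  rw [h3, h4, h]
  rw [show 192 * 14 = 2688 from rfl] at *
  generalize 2 ^ 2688 = X at *
  generalize 2 ^ 2880 = Y at *
  omega

end H96NE

open H96NE in
theorem eOk (hR : StRot) (hL : StLag) : StE := by
  rintro lm d v A g m h5 h18 hd2 - ⟨hv, hS⟩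
  obtain ⟨n, hn⟩ : ∃ n, n = 15 * 2 ^ (d - 2) := ⟨_, rfl⟩
  have h4 : 4 * n = 15 * 2 ^ d := by rw [hn, ← four_mul_p2 hd2, mul_left_comm]
  have hj : ∀ j < 4 * n, j / 15 < 2 ^ d ∧ j % 15 < 15 := fun j hj => by omega
  have hw := fun j (h : j < 4 * n) => wt_sv hL h18 (hS _ (hj j h).1).2.2.1 (j % 15)
  have ha := fun j : ℕ => ang_lt h5 h18 (posR_lt lm (g (j / 15))) (j % 15)
  have hM : mapV 2880 (rec1 lm) d v = pw 192 (4 * n) fun j =>
      wt lm (g (j / 15)) (j % 15) + ang lm (posR lm (g (j / 15))) (j % 15) * 2 ^ 64 := by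
    rw [hv, mapV_pw _ fun j hj => by
      obtain ⟨k1, k2, -, k3, -⟩ := hS j hj
      omega, pw_congr fun j hj => rec1_eq h5 h18 (hS j hj).1, h4]
    exact pw_pw 192 15 _ (fun p o => wt lm (g p) o + ang lm (posR lm (g p)) o * 2 ^ 64)
      (by norm_num)
  have hlt : ∀ j < 4 * n, wt lm (g (j / 15)) (j % 15) +
      ang lm (posR lm (g (j / 15))) (j % 15) * 2 ^ 64 < 2 ^ 192 := fun j h => by
    have := (hw j h).1
    have := ha j
    omega
  have hX : ovl n (fld (ow 192 (4 * n)) (mapV 2880 (rec1 lm) d v) 0 48) =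
      pw 48 (4 * n) fun q => wt lm (g (sig n q / 15)) (sig n q % 15) := by
    rw [hM, fld_pw (by norm_num) hlt (by norm_num), pw_congr (g := fun j =>
      wt lm (g (j / 15)) (j % 15)) fun j h => by
        have := (hw j h).1
        omega, ovl_pw fun j h => (hw j h).1.trans (by norm_num)]
  have hT : fld (ow 192 (4 * n)) (mapV 2880 (rec1 lm) d v) 64 128 =
      pw 192 (4 * n) fun j => ang lm (posR lm (g (j / 15))) (j % 15) := by
    rw [hM, fld_pw (by norm_num) hlt (by norm_num)]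
    refine pw_congr fun j h => ?_
    have := (hw j h).1
    have := ha j
    omega
  have hA := (((angW_pw (n := n) (s := 0) (f := fun j => ang lm (posR lm (g (j / 15))) (j % 15))
    (fun j _ => by
      have := ha j
      omega) (by norm_num)).2 rfl).congr (e' := 0) (θ' := fun q =>
      -((posR lm (g (sig n q / 15)) : ℝ) + (sig n q % 15 : ℕ) - 6) ^ 2 / (2 * 2 ^ lm))
    fun q _ => ⟨2 ^ (lm + 1), by
      rw [ang_cast h5 h18 (posR_lt _ _) (Nat.mod_lt _ (by norm_num)), abs_zero]⟩)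
  have hV := (VN_real (4 * n) fun q => wt lm (g (sig n q / 15)) (sig n q % 15)).mono
    (z' := fun q => ((2 ^ 40 * lw (sig n q % 15) (delR lm (g (sig n q / 15))) : ℝ) : ℂ))
    (e' := fun _ => 1) fun q hq => by
      rw [zero_add, ← Complex.ofReal_sub, Complex.norm_real, Real.norm_eq_abs]
      exact (hw _ (sig_lt hq)).2.1
  have hz : ∀ l : ℝ, ‖((2 ^ 40 * l : ℝ) : ℂ)‖ = 2 ^ 40 * |l| := fun l => by
    rw [Complex.norm_real, Real.norm_eq_abs, abs_mul, abs_of_pos (by positivity)]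
  obtain ⟨x, y, hxy, f, f', rfl, rfl, hf⟩ := hR _ 28 _ _ _ _ _ _ _ (by norm_num) (by norm_num) hV hA
    fun q hq => by
      have := (hw _ (sig_lt hq)).2.2
      rw [hz]
      linarith
  have hf1 : ∀ q < 4 * n, ‖cz (f q) (f' q) - Kc *
      ((2 ^ 40 * lw (sig n q % 15) (delR lm (g (sig n q / 15))) : ℝ) : ℂ) *
      ee (-((posR lm (g (sig n q / 15)) : ℝ) + (sig n q % 15 : ℕ) - 6) ^ 2 / (2 * 2 ^ lm))‖ ≤
      75 + 2 ^ 40 * |lw (sig n q % 15) (delR lm (g (sig n q / 15)))| * 1.2352e-8 := fun q hq => by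
    refine (hf q hq).trans ?_
    have := abs_nonneg (lw (sig n q % 15) (delR lm (g (sig n q / 15))))
    simp only [hz]
    push_cast
    linarith
  have hf2 : ∀ q < 4 * n, ‖cz (f q) (f' q)‖ ≤
      75 + 2 ^ 41 * |lw (sig n q % 15) (delR lm (g (sig n q / 15)))| := fun q hq => by
    have k1 := (norm_sub_norm_le _ _).trans (hf1 q hq)
    have := abs_nonneg (lw (sig n q % 15) (delR lm (g (sig n q / 15))))
    rw [norm_mul, norm_mul, norm_ee, hz, Complex.norm_real, Real.norm_eq_abs, Kc,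
      abs_of_pos (by norm_num)] at k1
    linarith
  obtain ⟨rx, hrx, hrx'⟩ := rdN_pw (n := 4 * n) (s := 15) (w := 30) (f := f) (by norm_num)
    (by norm_num) (by norm_num) fun q hq => by
      have := (sv_le_norm (f q) (f' q)).1
      have := hf2 q hq
      have := (hw _ (sig_lt hq)).2.2
      norm_num
      linarith
  obtain ⟨ry, hry, hry'⟩ := rdN_pw (n := 4 * n) (s := 15) (w := 30) (f := f') (by norm_num)
    (by norm_num) (by norm_num) fun q hq => by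
      have := (sv_le_norm (f q) (f' q)).2
      have := hf2 q hq
      have := (hw _ (sig_lt hq)).2.2
      norm_num
      linarith
  rw [← hX, ← hT] at hxy
  have hE := mkE_eq lm d v n _ hn rfl hxy
  rw [hrx, hry, cmb_pw (fun q hq => (hrx' q hq).1.trans (by norm_num))
    (fun q hq => (hry' q hq).1.trans (by norm_num)), ow_shl (by norm_num), ow_mul (by norm_num),
    h4, pw_rec, pw_rec, pw_add] at hE
  have hq : ∀ p < 2 ^ d, ∀ o < 15, tau n (15 * p + o) < 4 * n ∧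
      sig n (tau n (15 * p + o)) / 15 = p ∧ sig n (tau n (15 * p + o)) % 15 = o := by
    intro p hp o ho
    have : 15 * p + o < 4 * n := by omega
    rw [sig_tau this]
    exact ⟨tau_lt this, by omega, by omega⟩
  have h14 : ∀ p < 2 ^ d, rx (tau n (15 * p + 14)) = 2 ^ 29 ∧ ry (tau n (15 * p + 14)) = 2 ^ 29 := by
    intro p hp
    obtain ⟨k1, k2, k3⟩ := hq p hp 14 (by norm_num)
    have k4 := hf2 _ k1
    rw [k3, lw, if_neg (lt_irrefl _), abs_zero, mul_zero, add_zero] at k4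
    exact ⟨eq_of_abs (hrx' _ k1).2 ((sv_le_norm _ _).1.trans k4),
      eq_of_abs (hry' _ k1).2 ((sv_le_norm _ _).2.trans k4)⟩
  have hr := fun p (hp : p < 2 ^ d) => rec_le (c := 2 ^ 29 + 2 ^ 93)
    (f := fun o => rx (tau n (15 * p + o)) + ry (tau n (15 * p + o)) * 2 ^ 64) (by norm_num)
    (fun o ho => by
      have k1 := (hq p hp o (by omega)).1
      have := (hrx' _ k1).1
      have := (hry' _ k1).1
      omega) (by
      show rx _ + ry _ * 2 ^ 64 = _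
      rw [(h14 p hp).1, (h14 p hp).2]
      norm_num)
  rw [pw_sub fun p hp => (hr p hp).1] at hE
  refine ⟨_, fun p o => rx (tau n (15 * p + o)) - 2 ^ 29 + if o = 14 then 1 else 0,
    fun p o => ry (tau n (15 * p + o)) - 2 ^ 29, hE, fun p hp => ⟨(hr p hp).2, ?_, ?_⟩⟩
  · have e1 : ((2 ^ 2688 : ℕ) : ℤ) = iw 192 15 fun o => if o = 14 then 1 else 0 :=
      top_iw 192 14
    rw [Nat.cast_sub (hr p hp).1, Nat.cast_add, e1, pw_cast, pw_cast, iw_add, iw_sub]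
    refine iw_congr fun o _ => ?_
    push_cast
    ring
  · have k0 := (hL _ (del_mem lm (g p)).1 (del_mem lm (g p)).2).1
    have k1 : ∀ o ∈ range 14, ‖ci (rx (tau n (15 * p + o)) - 2 ^ 29 + if o = 14 then 1 else 0)
        (ry (tau n (15 * p + o)) - 2 ^ 29) / 2 ^ 25 - ((Kc * lw o (delR lm (g p)) : ℝ) : ℂ) *
        ee (-((posR lm (g p) : ℝ) + o - 6) ^ 2 / (2 * 2 ^ lm))‖ ≤
        2.1143e-8 + |lw o (delR lm (g p))| * 1.2352e-8 := by
      intro o ho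
      obtain ⟨j1, j2, j3⟩ := hq p hp o ((mem_range.1 ho).trans (by norm_num))
      have j4 := hf1 _ j1
      rw [j2, j3] at j4
      rw [if_neg (mem_range.1 ho).ne, add_zero]
      refine lane_err ?_ ?_ j4
      · rw [Int.cast_sub, Int.cast_natCast, Int.cast_pow, Int.cast_ofNat]
        exact (hrx' _ j1).2
      · rw [Int.cast_sub, Int.cast_natCast, Int.cast_pow, Int.cast_ofNat]
        exact (hry' _ j1).2
    have k2 := sum_le_sum k1
    rw [sum_add_distrib, ← sum_mul, sum_const, card_range, nsmul_eq_mul] at k2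
    have k3 : ‖ci 1 0 / 2 ^ 25‖ = 1 / 2 ^ 25 := by
      rw [show ci 1 0 = 1 from Complex.ext (by simp [ci]) (by simp [ci]), norm_div, norm_pow,
        Complex.norm_two, norm_one]
    have k4 : lw 14 (delR lm (g p)) = 0 := if_neg (lt_irrefl _)
    beta_reduce
    rw [sum_range_succ, (h14 p hp).1, (h14 p hp).2, if_pos rfl, k4, mul_zero,
      Complex.ofReal_zero, zero_mul, sub_zero, Nat.cast_pow, Nat.cast_ofNat, sub_self, zero_add, k3]
    refine (add_le_add_left k2 _).trans ?_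
    push_cast
    linarith

end Pool.Agent.Lib.MP_5db4ad_nt.NE
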