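import Pool.Agent.Lib.MP_5db4ad_nt.H96NLaneA

/-!
The shift and add steps for the exponential and for the normalisation.
-/

namespace Pool.Agent.Lib.MP_5db4ad_nt.NE

open S2 Finset
open scoped Real

namespace Exp

/-- the product of all the factors of `m` steps from `i` on -/
noncomputable def Q (m i : ℕ) : ℝ := ∏ j ∈ range m, (1 + 1 / 2 ^ (i + j - 2))

lemma Q_zero (i : ℕ) : Q 0 i = 1 := by simp [Q]

lemma Q_succ (m i : ℕ) : Q (m + 1) i = (1 + 1 / 2 ^ (i - 2)) * Q m (i + 1) := by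
  rw [Q, prod_range_succ', mul_comm, Q]
  simp only [add_zero, add_assoc, add_comm 1]

lemma Q_ge (m i : ℕ) : 1 ≤ Q m i :=
  Finset.one_le_prod fun _ _ => le_add_of_nonneg_right (by positivity)

lemma Q_top : Q 25 0 ≤ 19.1 := by
  simp only [Q, prod_range_succ, prod_range_zero]
  norm_num

/-- the factor chosen by a digit -/
noncomputable def fc (s b : ℕ) : ℝ := 1 + s / 2 ^ b

lemma fc_ge (s b : ℕ) : 1 ≤ fc s b := le_add_of_nonneg_right (by positivity)

lemma fc_le {s : ℕ} (hs : s ≤ 1) (b : ℕ) : fc s b ≤ 1 + 1 / 2 ^ b := by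
  have : (s : ℝ) ≤ 1 := by exact_mod_cast hs
  unfold fc
  gcongr

/-- one scaled lane -/
def st (s b f : ℕ) : ℕ := f + s * (f / 2 ^ b)

lemma st_le (s b f : ℕ) : (st s b f : ℝ) ≤ f * fc s b := by
  have h : ((f / 2 ^ b : ℕ) : ℝ) ≤ f / 2 ^ b := by exact_mod_cast Nat.cast_div_le (α := ℝ)
  have h2 := mul_le_mul_of_nonneg_left h (Nat.cast_nonneg (α := ℝ) s)
  simp only [st, fc, Nat.cast_add, Nat.cast_mul]
  calc (f : ℝ) + s * ((f / 2 ^ b : ℕ) : ℝ) ≤ f + s * (f / 2 ^ b) := by linarith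
    _ = f * (1 + s / 2 ^ b) := by ring

lemma st_ge {s : ℕ} (hs : s ≤ 1) (b f : ℕ) : f * fc s b - 1 ≤ (st s b f : ℝ) := by
  have h : (f : ℝ) / 2 ^ b < ((f / 2 ^ b : ℕ) : ℝ) + 1 := by
    rw [div_lt_iff₀ (by positivity)]
    have := Nat.lt_div_mul_add (a := f) (b := 2 ^ b) (by positivity)
    have h2 : (f : ℝ) < ((f / 2 ^ b : ℕ) : ℝ) * 2 ^ b + 2 ^ b := by exact_mod_cast this
    linarith
  simp only [st, fc, Nat.cast_add, Nat.cast_mul]
  interval_cases s
  · simp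
  · simp only [Nat.cast_one, one_mul]
    calc (f : ℝ) * (1 + 1 / 2 ^ b) - 1 = f + f / 2 ^ b - 1 := by ring
      _ ≤ _ := by linarith

lemma le_st (s b f : ℕ) : f ≤ st s b f := Nat.le_add_right _ _

lemma st_rel {s : ℕ} (hs : s ≤ 1) (b f : ℕ) {L : ℝ} (hL : 0 < L) (hf : L ≤ f) :
    f * fc s b * (1 - 1 / L) ≤ (st s b f : ℝ) := by
  have h1 := st_ge hs b f
  have h2 : L ≤ f * fc s b := hf.trans (le_mul_of_one_le_right (Nat.cast_nonneg _) (fc_ge s b))
  have h3 : 1 ≤ f * fc s b * (1 / L) := by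
    rw [mul_one_div, le_div_iff₀ hL, one_mul]
    exact h2
  linarith [mul_sub (f * fc s b) 1 (1 / L)]

lemma comp {a b c d x y : ℝ} (ha : 0 ≤ a) (hc : 0 ≤ c) (hx : 0 ≤ x) (hy : 0 ≤ y) (hy1 : y ≤ 1)
    (h1 : a * (1 - x) ≤ b) (h2 : b * c * (1 - y) ≤ d) : a * c * (1 - (x + y)) ≤ d := by
  have h3 := mul_le_mul_of_nonneg_right h1 (mul_nonneg hc (sub_nonneg.2 hy1))
  nlinarith [mul_nonneg (mul_nonneg ha hc) (mul_nonneg hx hy)]

lemma lt_of_mul {f : ℕ} {q : ℝ} (hq : 1 ≤ q) (h : f * q < 2 ^ 47) : f < 2 ^ 47 := by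
  have : (f : ℝ) < 2 ^ 47 := (le_mul_of_one_le_right (Nat.cast_nonneg _) hq).trans_lt h
  exact_mod_cast this

lemma sc_st {n b : ℕ} {f σ : ℕ → ℕ} (hb : b ≤ 47) (hf : ∀ j < n, f j < 2 ^ 47)
    (h : ∀ j, σ j ≤ 1) : sc (pw 48 n f) b (msk (pw 48 n σ) (47 - b)) =
      pw 48 n fun j => st (σ j) b (f j) := sc_pw hb hf fun j _ => h j

lemma expS_succ (o m i r v : ℕ) : expS o (m + 1) i r v =
    expS o m (i + 1) (r - bit o (r - o * lb (i - 2)) 46 * lb (i - 2))
      (sc v (i - 2) (msk (bit o (r - o * lb (i - 2)) 46) (47 - (i - 2)))) := by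
  unfold expS
  simp only [fz_eq]
  rfl

lemma nrmS_succ (o m i r v u : ℕ) : ∃ t, nrmS o (m + 1) i r v u =
    nrmS o m (i + 1) (sc r (i - 2) (msk (bit o t 47) (47 - (i - 2))))
      (sc (sc v (i - 2) (msk (bit o t 47) (47 - (i - 2)))) (i - 2)
        (msk (bit o t 47) (47 - (i - 2))))
      (sc (sc (sc u (i - 2) (msk (bit o t 47) (47 - (i - 2)))) (i - 2)
        (msk (bit o t 47) (47 - (i - 2)))) (i - 2) (msk (bit o t 47) (47 - (i - 2)))) := by
  refine ⟨o * 141287244169216 - (r + fld o r (i - 2) (47 - (i - 2))), ?_⟩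
  unfold nrmS
  simp only [fz_eq]
  rfl

lemma lb_le (b : ℕ) (hb : b < 24) : lb b ≤ 2 ^ 33 := by
  interval_cases b <;> decide +kernel

lemma log_fc (hT : StTab) {s : ℕ} (hs : s ≤ 1) {b : ℕ} (hb : b < 24) :
    |2 * π * ((s * lb b : ℕ) : ℝ) / 2 ^ 36 - Real.log (fc s b)| ≤ 2 * π / 2 ^ 36 := by
  have h := hT.2.2.2.1 b hb
  have hp := Real.pi_pos
  interval_cases s
  · simp only [fc, zero_mul, Nat.cast_zero, mul_zero, zero_div, add_zero, Real.log_one, sub_zero,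
      abs_zero]
    positivity
  · have e : 2 * π * ((1 * lb b : ℕ) : ℝ) / 2 ^ 36 - Real.log (fc 1 b) =
        2 * π * ((lb b : ℝ) / 2 ^ 36 - Real.log (1 + 1 / 2 ^ b) / (2 * π)) := by
      simp only [fc, one_mul, Nat.cast_one]
      field_simp
    rw [e, abs_mul, abs_of_pos (by positivity : 0 < 2 * π), div_eq_mul_one_div (2 * π)]
    exact mul_le_mul_of_nonneg_left h (by positivity)

lemma exp_gen (hT : StTab) (n : ℕ) {L : ℝ} (hL : 25 ≤ L) (m : ℕ) : ∀ (i : ℕ) (r v : ℕ → ℕ),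
    i + m ≤ 25 → (∀ p < n, m * 2 ^ 33 ≤ r p ∧ L ≤ v p ∧ v p * Q m i < 2 ^ 47) →
    ∃ (r' v' : ℕ → ℕ) (P : ℕ → ℝ), expS (ow 48 n) m i (pw 48 n r) (pw 48 n v) =
      T2.mk (pw 48 n r') (pw 48 n v') ∧ ∀ p < n, r' p ≤ r p ∧ 1 ≤ P p ∧ P p ≤ Q m i ∧
      |2 * π * ((r p : ℝ) - r' p) / 2 ^ 36 - Real.log (P p)| ≤ m * (2 * π / 2 ^ 36) ∧
      v p * P p * (1 - m / L) ≤ v' p ∧ (v' p : ℝ) ≤ v p * P p := by
  have hL0 : 0 < L := by linarith
  induction m with
  | zero =>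
    intro i r v _ _
    exact ⟨r, v, fun _ => 1, rfl, fun p _ => by simp [Q_zero]⟩
  | succ m ih =>
    intro i r v hi h
    obtain ⟨σ, hσ, hσ1⟩ := bit_any (W := 48) (by norm_num) n
      (pw 48 n r - ow 48 n * lb (i - 2)) 46
    have hb : i - 2 < 24 := by omega
    have hl : ∀ p, σ p * lb (i - 2) ≤ 2 ^ 33 := fun p =>
      (Nat.mul_le_mul (hσ1 p) (lb_le _ hb)).trans_eq (one_mul _)
    have hr : ∀ p < n, σ p * lb (i - 2) ≤ r p := fun p hp => by
      have := (h p hp).1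
      have := hl p
      nlinarith
    rw [expS_succ, hσ, pw_mul, pw_sub hr,
      sc_st (by omega) (fun p hp => lt_of_mul (Q_ge _ _) (h p hp).2.2) hσ1]
    obtain ⟨r', v', P, e, H⟩ := ih (i + 1) (fun p => r p - σ p * lb (i - 2))
      (fun p => st (σ p) (i - 2) (v p)) (by omega) fun p hp => by
        obtain ⟨h1, h2, h3⟩ := h p hp
        refine ⟨?_, h2.trans (by exact_mod_cast le_st _ _ _), lt_of_le_of_lt ?_ h3⟩
        · have := hl p
          rw [Nat.le_sub_iff_add_le (hr p hp)]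
          nlinarith
        · rw [Q_succ, ← mul_assoc]
          exact mul_le_mul_of_nonneg_right ((st_le _ _ _).trans (mul_le_mul_of_nonneg_left
            (fc_le (hσ1 p) _) (Nat.cast_nonneg _))) (zero_le_one.trans (Q_ge _ _))
    refine ⟨r', v', fun p => fc (σ p) (i - 2) * P p, e, fun p hp => ?_⟩
    obtain ⟨a1, a2, a3, a4, a5, a6⟩ := H p hp
    have f1 := fc_ge (σ p) (i - 2)
    have hm : (m : ℝ) ≤ 25 := by exact_mod_cast (by omega : m ≤ 25)
    refine ⟨a1.trans (Nat.sub_le _ _), one_le_mul_of_one_le_of_one_le f1 a2, ?_, ?_, ?_, ?_⟩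
    · rw [Q_succ]
      exact mul_le_mul (fc_le (hσ1 p) _) a3 (by linarith) (by positivity)
    · have a7 := log_fc hT (hσ1 p) hb
      rw [Nat.cast_sub (hr p hp)] at a4
      rw [Real.log_mul (by linarith) (by linarith)]
      have e2 : 2 * π * ((r p : ℝ) - r' p) / 2 ^ 36 -
          (Real.log (fc (σ p) (i - 2)) + Real.log (P p)) =
          (2 * π * ((r p : ℝ) - ((σ p * lb (i - 2) : ℕ) : ℝ) - r' p) / 2 ^ 36 - Real.log (P p)) +
          (2 * π * ((σ p * lb (i - 2) : ℕ) : ℝ) / 2 ^ 36 - Real.log (fc (σ p) (i - 2))) := by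
        ring
      rw [e2]
      refine (abs_add_le _ _).trans ?_
      push_cast at a4 a7 ⊢
      linarith
    · have := comp (by positivity) (by linarith) (by positivity) (by positivity)
        ((div_le_one hL0).2 (hm.trans hL)) (st_rel (hσ1 p) (i - 2) (v p) hL0 (h p hp).2.1) a5
      rw [← add_div, add_comm] at this
      push_cast
      linarith
    · refine a6.trans ?_
      rw [← mul_assoc]
      exact mul_le_mul_of_nonneg_right (st_le _ _ _) (by linarith)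

lemma nrm_gen (n : ℕ) {L : ℝ} (hL : 75 ≤ L) (m : ℕ) : ∀ (i : ℕ) (r v u : ℕ → ℕ),
    i + m ≤ 25 → (∀ p < n, r p * Q m i < 2 ^ 47 ∧ L ≤ v p ∧ v p * Q m i ^ 2 < 2 ^ 47 ∧ L ≤ u p ∧
      u p * Q m i ^ 3 < 2 ^ 47) →
    ∃ (r' v' u' : ℕ → ℕ) (P : ℕ → ℝ), nrmS (ow 48 n) m i (pw 48 n r) (pw 48 n v) (pw 48 n u) =
      T3.mk (pw 48 n r') (pw 48 n v') (pw 48 n u') ∧ ∀ p < n, 1 ≤ P p ∧ P p ≤ Q m i ∧
      r p * P p - m * Q m i ≤ r' p ∧ (r' p : ℝ) ≤ r p * P p ∧
      v p * P p ^ 2 * (1 - 2 * m / L) ≤ v' p ∧ (v' p : ℝ) ≤ v p * P p ^ 2 ∧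
      u p * P p ^ 3 * (1 - 3 * m / L) ≤ u' p ∧ (u' p : ℝ) ≤ u p * P p ^ 3 := by
  have hL0 : 0 < L := by linarith
  have hL1 : 1 / L ≤ 1 := (div_le_one hL0).2 (by linarith)
  induction m with
  | zero =>
    intro i r v u _ _
    exact ⟨r, v, u, fun _ => 1, rfl, fun p _ => by simp [Q_zero]⟩
  | succ m ih =>
    intro i r v u hi h
    obtain ⟨t, et⟩ := nrmS_succ (ow 48 n) m i (pw 48 n r) (pw 48 n v) (pw 48 n u)
    obtain ⟨σ, hσ, hσ1⟩ := bit_any (W := 48) (by norm_num) n t 47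
    have hb : i - 2 ≤ 47 := by omega
    have q1 := Q_ge m (i + 1)
    have q0 : 0 ≤ Q m (i + 1) := by linarith
    have g1 : (1 : ℝ) ≤ 1 + 1 / 2 ^ (i - 2) := le_add_of_nonneg_right (by positivity)
    have up : ∀ p f, (st (σ p) (i - 2) f : ℝ) ≤ f * (1 + 1 / 2 ^ (i - 2)) := fun p f =>
      (st_le _ _ _).trans (mul_le_mul_of_nonneg_left (fc_le (hσ1 p) _) (Nat.cast_nonneg _))
    have dn : ∀ p (f : ℕ) (w : ℝ), 0 ≤ w → f * ((1 + 1 / 2 ^ (i - 2)) * w) < 2 ^ 47 →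
        st (σ p) (i - 2) f * w < 2 ^ 47 := fun p f w hw hf => by
      rw [← mul_assoc] at hf
      exact (mul_le_mul_of_nonneg_right (up p f) hw).trans_lt hf
    set g : ℝ := 1 + 1 / 2 ^ (i - 2) with hg
    set q : ℝ := Q m (i + 1) with hq
    have g0 : 0 ≤ g := by linarith
    have eq : Q (m + 1) i = g * q := Q_succ m i
    have b1 : ∀ p < n, st (σ p) (i - 2) (v p) * (g * q ^ 2) < 2 ^ 47 := fun p hp =>
      dn p _ _ (by positivity) (by have := (h p hp).2.2.1; rw [eq] at this; linarith)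
    have b2 : ∀ p < n, st (σ p) (i - 2) (u p) * (g * (g * q ^ 3)) < 2 ^ 47 := fun p hp =>
      dn p _ _ (by positivity) (by have := (h p hp).2.2.2.2; rw [eq] at this; linarith)
    have b3 : ∀ p < n, st (σ p) (i - 2) (st (σ p) (i - 2) (u p)) * (g * q ^ 3) < 2 ^ 47 :=
      fun p hp => dn p _ _ (by positivity) (b2 p hp)
    have o2 : 1 ≤ g * q ^ 2 := one_le_mul_of_one_le_of_one_le g1 (one_le_pow₀ q1)
    have o3 : 1 ≤ g * q ^ 3 := one_le_mul_of_one_le_of_one_le g1 (one_le_pow₀ q1)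
    rw [et, hσ, sc_st hb (fun p hp => lt_of_mul (Q_ge _ _) (h p hp).1) hσ1,
      sc_st hb (fun p hp => lt_of_mul (one_le_pow₀ (Q_ge _ _)) (h p hp).2.2.1) hσ1,
      sc_st hb (fun p hp => lt_of_mul o2 (b1 p hp)) hσ1,
      sc_st hb (fun p hp => lt_of_mul (one_le_pow₀ (Q_ge _ _)) (h p hp).2.2.2.2) hσ1,
      sc_st hb (fun p hp => lt_of_mul (one_le_mul_of_one_le_of_one_le g1 o3) (b2 p hp)) hσ1,
      sc_st hb (fun p hp => lt_of_mul o3 (b3 p hp)) hσ1]
    have lo : ∀ p (f : ℕ), L ≤ f → L ≤ st (σ p) (i - 2) f := fun p f hf =>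
      hf.trans (by exact_mod_cast le_st _ _ _)
    obtain ⟨r', v', u', P, e, H⟩ := ih (i + 1) (fun p => st (σ p) (i - 2) (r p))
      (fun p => st (σ p) (i - 2) (st (σ p) (i - 2) (v p)))
      (fun p => st (σ p) (i - 2) (st (σ p) (i - 2) (st (σ p) (i - 2) (u p)))) (by omega)
      fun p hp => ⟨dn p _ _ q0 (by have := (h p hp).1; rwa [eq] at this),
        lo p _ (lo p _ (h p hp).2.1), dn p _ _ (by positivity) (b1 p hp),
        lo p _ (lo p _ (lo p _ (h p hp).2.2.2.1)), dn p _ _ (by positivity) (b3 p hp)⟩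
    refine ⟨r', v', u', fun p => fc (σ p) (i - 2) * P p, e, fun p hp => ?_⟩
    obtain ⟨a1, a2, a3, a4, a5, a6, a7, a8⟩ := H p hp
    have f1 := fc_ge (σ p) (i - 2)
    have hm : (m : ℝ) ≤ 25 := by exact_mod_cast (by omega : m ≤ 25)
    have m0 : (0 : ℝ) ≤ m := Nat.cast_nonneg _
    have P0 : 0 ≤ P p := by linarith
    have rel : ∀ (f : ℕ), L ≤ f → f * fc (σ p) (i - 2) * (1 - 1 / L) ≤ st (σ p) (i - 2) f :=
      fun f hf => st_rel (hσ1 p) _ _ hL0 hf
    have mo : ∀ (f : ℕ) (x : ℝ), f ≤ x → (st (σ p) (i - 2) f : ℝ) ≤ x * fc (σ p) (i - 2) :=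
      fun f x hf => (st_le _ _ _).trans (mul_le_mul_of_nonneg_right hf (by linarith))
    set φ : ℝ := fc (σ p) (i - 2) with hφ
    have φ0 : 0 ≤ φ := by linarith
    have iL : 0 ≤ 1 / L := by positivity
    refine ⟨one_le_mul_of_one_le_of_one_le f1 a1, ?_, ?_, ?_, ?_, ?_, ?_, ?_⟩
    · rw [eq]
      exact mul_le_mul (fc_le (hσ1 p) _) a2 P0 g0
    · have c1 := mul_le_mul_of_nonneg_right (st_ge (hσ1 p) (i - 2) (r p)) P0
      have c2 : q ≤ g * q := le_mul_of_one_le_left q0 g1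
      have c3 := mul_le_mul_of_nonneg_left c2 (add_nonneg m0 zero_le_one)
      rw [eq]
      push_cast
      linarith
    · refine a4.trans ?_
      rw [← mul_assoc]
      exact mul_le_mul_of_nonneg_right (st_le _ _ _) P0
    · have c1 := comp (by positivity) φ0 iL iL hL1 (rel _ (h p hp).2.1)
        (rel _ (lo p _ (h p hp).2.1))
      have c2 := comp (by positivity) (by positivity) (by positivity) (by positivity)
        ((div_le_one hL0).2 (by linarith)) c1 a5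
      have e3 : 1 / L + 1 / L + 2 * m / L = 2 * ((m + 1 : ℕ) : ℝ) / L := by
        push_cast
        ring
      rw [e3] at c2
      linarith
    · have c1 := mul_le_mul_of_nonneg_right (mo _ _ (mo (v p) _ le_rfl)) (sq_nonneg (P p))
      linarith
    · have c1 := comp (by positivity) φ0 iL iL hL1 (rel _ (h p hp).2.2.2.1)
        (rel _ (lo p _ (h p hp).2.2.2.1))
      have c1' := comp (by positivity) φ0 (by positivity) iL hL1 c1
        (rel _ (lo p _ (lo p _ (h p hp).2.2.2.1)))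
      have c2 := comp (by positivity) (by positivity) (by positivity) (by positivity)
        ((div_le_one hL0).2 (by linarith)) c1' a7
      have e3 : 1 / L + 1 / L + 1 / L + 3 * m / L = 3 * ((m + 1 : ℕ) : ℝ) / L := by
        push_cast
        ring
      rw [e3] at c2
      linarith
    · have c1 := mul_le_mul_of_nonneg_right (mo _ _ (mo _ _ (mo (u p) _ le_rfl)))
        (pow_nonneg P0 3)
      linarith

end Exp

open Exp in
theorem expOk (hT : StTab) : StExp := by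
  intro n r c hr hc1 hc2
  have c1 : (2 : ℝ) ^ 28 ≤ c := by exact_mod_cast hc1
  have c2 : (c : ℝ) ≤ 2 ^ 29 := by exact_mod_cast hc2
  have hr' : ∀ p < n, 25 * 2 ^ 33 ≤ r p ∧ r p < 2 ^ 47 := fun p hp => by
    have h := abs_le.1 (hr p hp)
    unfold sv at h
    have h1 : ((25 * 2 ^ 33 : ℕ) : ℝ) ≤ r p := by push_cast; linarith [h.1]
    have h2 : (r p : ℝ) < ((2 ^ 47 : ℕ) : ℝ) := by push_cast; linarith [h.2]
    exact ⟨by exact_mod_cast h1, by exact_mod_cast h2⟩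
  have q0 := Q_ge 25 0
  obtain ⟨r', v, P, e, H⟩ := exp_gen hT n (L := 2 ^ 28) (by norm_num) 25 0 r (fun _ => c) le_rfl
    fun p hp => ⟨(hr' p hp).1, c1,
      (mul_le_mul c2 Q_top (by linarith) (by positivity)).trans_lt (by norm_num)⟩
  refine ⟨r', v, P, e, fun p hp => ?_⟩
  obtain ⟨a1, a2, a3, a4, a5, a6⟩ := H p hp
  refine ⟨a1.trans_lt (hr' p hp).2, a2, a3.trans Q_top, ?_, le_trans ?_ a5, a6⟩
  · have e2 : sv (r p) - sv (r' p) = (r p : ℝ) - r' p := by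
      unfold sv
      ring
    rw [e2]
    refine a4.trans ?_
    have := Real.pi_lt_d2
    push_cast
    linarith
  · exact mul_le_mul_of_nonneg_left (by norm_num) (by positivity)

open Exp in
theorem nrmOk : StNrm := by
  intro n r v h
  have q0 := Q_ge 25 0
  have q1 := Q_top
  have q2 : Q 25 0 ^ 2 ≤ 19.1 ^ 2 := pow_le_pow_left₀ (by linarith) q1 2
  have q3 : Q 25 0 ^ 3 ≤ 19.1 ^ 3 := pow_le_pow_left₀ (by linarith) q1 3
  obtain ⟨r', v', u, P, e, H⟩ := nrm_gen n (L := 2 ^ 28 - 27) (by norm_num) 25 0 r v v le_rfl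
    fun p hp => by
      obtain ⟨h1, h2, h3⟩ := h p hp
      have h1' : (r p : ℝ) ≤ 2 ^ 42 := by exact_mod_cast h1
      have h2' : (2 : ℝ) ^ 28 - 27 ≤ v p := by
        have : ((2 ^ 28 - 27 : ℕ) : ℝ) ≤ v p := by exact_mod_cast h2
        norm_num at this ⊢
        exact this
      exact ⟨(mul_le_mul h1' q1 (by linarith) (by positivity)).trans_lt (by norm_num), h2',
        (mul_le_mul h3 q2 (by positivity) (by positivity)).trans_lt (by norm_num), h2',
        (mul_le_mul h3 q3 (by positivity) (by positivity)).trans_lt (by norm_num)⟩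
  refine ⟨r', v', u, P, e, fun p hp => ?_⟩
  obtain ⟨a1, a2, a3, a4, a5, a6, a7, a8⟩ := H p hp
  have P0 : 0 ≤ P p := by linarith
  refine ⟨a1, a2.trans q1, ?_, a4, le_trans ?_ a5, a6, le_trans ?_ a7, a8⟩
  · push_cast at a3
    linarith
  · exact mul_le_mul_of_nonneg_left (by norm_num) (by positivity)
  · exact mul_le_mul_of_nonneg_left (by norm_num) (by positivity)

end Pool.Agent.Lib.MP_5db4ad_nt.NE
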