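import Pool.Agent.Lib.MP_5db4ad_nt.H96NLaneB

/-!
The grid of a chunk of sources: its transform approximates the sum over the sources.
-/

namespace Pool.Agent.Lib.MP_5db4ad_nt.NE

open S2 Finset

namespace H96NGrd

/-! ### lanes of a vector of sources -/

lemma lane_lt {A g m : ℕ} (hA : A < 2 ^ 48) (hg : g < 2 ^ 72) (hm : m < 2 ^ 64) :
    A + g * 2 ^ 48 + m * 2 ^ 128 < 2 ^ 192 := by omega

lemma lane_g {A g m : ℕ} (hA : A < 2 ^ 48) (hg : g < 2 ^ 72) :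
    (A + g * 2 ^ 48 + m * 2 ^ 128) / 2 ^ 48 % 2 ^ 72 = g := by omega

lemma lane_pos {lm A g m : ℕ} (hl : lm ≤ 18) (hA : A < 2 ^ 48) :
    (A + g * 2 ^ 48 + m * 2 ^ 128) / 2 ^ (112 - lm) % 2 ^ lm = posR lm g := by
  have h1 : 2 ^ (112 - lm) = 2 ^ 48 * 2 ^ (64 - lm) := by
    rw [← pow_add]; congr 1; omega
  have h2 : (A + g * 2 ^ 48 + m * 2 ^ 128) / 2 ^ 48 = g + m * 2 ^ 80 := by omega
  have h3 : m * 2 ^ 80 = (m * 2 ^ 16 * 2 ^ lm) * 2 ^ (64 - lm) := by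
    rw [mul_assoc, mul_assoc, ← pow_add, ← pow_add]; congr 2; omega
  rw [h1, ← Nat.div_div_eq_div_mul, h2, h3, Nat.add_mul_div_right _ _ (by positivity),
    Nat.add_mul_mod_self_right]
  rfl

lemma posR_lt (lm g : ℕ) : posR lm g < 2 ^ lm := Nat.mod_lt _ (by positivity)

lemma posR_key {lm : ℕ} (hl : lm ≤ 18) (g : ℕ) :
    posR lm g = g / 2 ^ 44 % 2 ^ 20 / 2 ^ (20 - lm) := by
  have h1 : 2 ^ 20 = 2 ^ (20 - lm) * 2 ^ lm := by rw [← pow_add]; congr 1; omega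
  have h2 : 2 ^ (64 - lm) = 2 ^ 44 * 2 ^ (20 - lm) := by rw [← pow_add]; congr 1; omega
  rw [h1, Nat.mod_mul_right_div_self, Nat.div_div_eq_div_mul, ← h2]
  rfl

lemma posV_eq {lm n v : ℕ} {A g m : ℕ → ℕ} (hl : lm ≤ 18) (hs : Src (4 * n) v A g m) :
    posV lm n v = pw 192 (4 * n) fun p => 192 * posR lm (g p) * 2 ^ 36 := by
  obtain ⟨hv, hb⟩ := hs
  have h0 : posV lm n v = fld (ow 192 (4 * n)) v (112 - lm) lm * 13194139533312 := by
    rw [← oW_eq]; rfl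
  rw [h0, hv, fld_pw (by norm_num) (fun j hj => lane_lt (hb j hj).1 (hb j hj).2.1 (hb j hj).2.2.2.1)
    (by omega), pw_mul]
  refine pw_congr fun j hj => ?_
  rw [lane_pos hl (hb j hj).1]
  ring

lemma asm_eq (hA : StAsm) {lm d v E : ℕ} {A g m r a b : ℕ → ℕ} (hl : lm ≤ 18)
    (hs : Src (2 ^ d) v A g m) (hE : E = pw 2880 (2 ^ d) r) (hr : ∀ p < 2 ^ d, r p < 2 ^ 2880)
    (hab : ∀ p < 2 ^ d, a p < 2 ^ 34 ∧ b p < 2 ^ 34) :
    asm0 d (pw 192 (2 ^ d) fun p => 192 * posR lm (g p) * 2 ^ 36 + (a p + b p * 2 ^ 64)) E =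
      ∑ p ∈ range (2 ^ d), (a p + b p * 2 ^ 64) * r p * 2 ^ (192 * posR lm (g p)) := by
  refine hA d E a b (fun p => 192 * posR lm (g p)) r hE fun p hp =>
    ⟨hr p hp, (hab p hp).1, (hab p hp).2, ?_, fun h => ?_⟩
  · have h1 := posR_lt lm (g p)
    have h2 : 2 ^ lm ≤ 2 ^ 18 := Nat.pow_le_pow_right (by norm_num) hl
    omega
  · have h1 := (hs.2 p hp).2.2.2.2 h
    rw [posR_key hl, posR_key hl]
    exact Nat.mul_le_mul_left _ (Nat.div_le_div_right h1)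

lemma mkG_eq (hA : StAsm) {lm d v E : ℕ} {A g m r : ℕ → ℕ} (hl : lm ≤ 18) (hd : 2 ≤ d)
    (hs : Src (2 ^ d) v A g m) (hE : E = pw 2880 (2 ^ d) r) (hr : ∀ p < 2 ^ d, r p < 2 ^ 2880) :
    mkG lm d v E =
      ∑ p ∈ range (2 ^ d), (2 ^ 33 + 2 ^ 33 * 2 ^ 64) * r p * 2 ^ (192 * posR lm (g p)) := by
  have h0 : mkG lm d v E = asm0 d (posV lm (2 ^ (d - 2)) v +
      ow 192 (4 * 2 ^ (d - 2)) * 158456325028528675195677835264) E := by
    unfold mkG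
    simp only [fz_eq, p2_eq, oW_eq]
    rfl
  have h4 := four_mul_p2 hd
  rw [h0, posV_eq hl (A := A) (g := g) (m := m) (by rw [h4]; exact hs), ow_mul (by norm_num),
    pw_add, h4, ← asm_eq hA (a := fun _ => 2 ^ 33) (b := fun _ => 2 ^ 33) hl hs hE hr
      fun _ _ => by norm_num]
  congr 2

lemma norm_le_of {z : ℂ} {t : ℝ} (h1 : |z.re| ≤ t) (h2 : |z.im| ≤ t) : ‖z‖ ≤ 1.4143 * t := by
  have ht : 0 ≤ t := (abs_nonneg _).trans h1
  have h3 : ‖z‖ ^ 2 = z.re ^ 2 + z.im ^ 2 := by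
    rw [Complex.sq_norm, Complex.normSq_apply]; ring
  have h4 : z.re ^ 2 ≤ t ^ 2 := sq_le_sq' (abs_le.mp h1).1 (abs_le.mp h1).2
  have h5 : z.im ^ 2 ≤ t ^ 2 := sq_le_sq' (abs_le.mp h2).1 (abs_le.mp h2).2
  refine abs_le_of_sq_le_sq' ?_ (by positivity) |>.2
  nlinarith [sq_nonneg t]

lemma Kc_pos : 0 < Kc := by unfold Kc; norm_num

lemma Kc_le : Kc ≤ 1.64677 := by unfold Kc; norm_num

lemma norm_main (x θ : ℝ) : ‖(Kc : ℂ) * (x : ℂ) * ee θ‖ = Kc * |x| := by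
  rw [norm_mul, norm_mul, norm_ee, Complex.norm_real, Complex.norm_real, Real.norm_eq_abs,
    Real.norm_eq_abs, abs_of_pos Kc_pos, mul_one]

/-- the rotated and rounded weights -/
lemma grd_eq (hR : StRot) (hA : StAsm) {lm d v E c : ℕ} {A g m B r : ℕ → ℕ} (hl : lm ≤ 18)
    (hd : 2 ≤ d) (hs : Src (2 ^ d) v A g m) (hE : E = pw 2880 (2 ^ d) r)
    (hr : ∀ p < 2 ^ d, r p < 2 ^ 2880) (hc : c < 2 ^ 26) (hB : ∀ p < 2 ^ d, |sv (B p)| ≤ 2 ^ 39) :
    ∃ a b : ℕ → ℕ, grd lm d v E (pw 48 (2 ^ d) fun p => B (sig (2 ^ (d - 2)) p)) c =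
      ∑ p ∈ range (2 ^ d), (a p + b p * 2 ^ 64) * r p * 2 ^ (192 * posR lm (g p)) ∧
      ∀ p < 2 ^ d, ‖ci (a p - 2 ^ 33) (b p - 2 ^ 33) / 2 ^ 33 -
        (Kc : ℂ) * ((sv (B p) / 2 ^ 40 : ℝ) : ℂ) * ee (-(g p * c : ℝ) / 2 ^ 65)‖ ≤
        1.392e-10 + |sv (B p) / 2 ^ 40| * 1.9677e-7 := by
  have h4 := four_mul_p2 hd
  generalize hn : 2 ^ (d - 2) = n at h4
  have hs4 : Src (4 * n) v A g m := by rw [h4]; exact hs
  have hb := hs4.2
  -- the angles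
  have hg : fld (ow 192 (4 * n)) v 48 72 = pw 192 (4 * n) g := by
    rw [hs4.1, fld_pw (by norm_num)
      (fun j hj => lane_lt (hb j hj).1 (hb j hj).2.1 (hb j hj).2.2.2.1) (by norm_num)]
    exact pw_congr fun j hj => lane_g (hb j hj).1 (hb j hj).2.1
  have hgc : ∀ j < 4 * n, g j * c ≤ 2 ^ 100 := fun j hj => by
    have h1 : g j * c ≤ 2 ^ 72 * 2 ^ 26 := Nat.mul_le_mul (hb j hj).2.1.le hc.le
    omega
  have hT : Nat.shiftLeft (ow 192 (4 * n)) 100 - fld (ow 192 (4 * n)) v 48 72 * c =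
      pw 192 (4 * n) fun j => 2 ^ 100 - g j * c := by
    rw [hg, ow_shl (by norm_num), pw_mul, pw_sub hgc]
  have hA1 := (angW_pw (n := n) (s := 21) (f := fun j => 2 ^ 100 - g j * c)
    (fun j _ => by omega) (by norm_num)).1
  have hA2 : AN (4 * n) (angW n (pw 192 (4 * n) fun j => 2 ^ 100 - g j * c) 21)
      (fun p => -(g (sig n p) * c : ℝ) / 2 ^ 65) (1 / 2 ^ 44 + 0) := by
    refine hA1.congr fun p hp => ⟨2 ^ 35, le_of_eq ?_⟩
    rw [Nat.cast_sub (hgc _ (sig_lt hp))]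
    push_cast
    rw [abs_eq_zero]
    ring
  have hB4 : ∀ p < 4 * n, |sv (B (sig n p))| ≤ 2 ^ 39 := fun p hp => hB _ (h4 ▸ sig_lt hp)
  obtain ⟨X, Y, hrot, f', g', hX, hY, hz⟩ := hR (4 * n) 24 _ _ _ _ _ _ _ (by norm_num) (by norm_num)
    (VN_real (4 * n) fun p => B (sig n p)) hA2 fun p hp => by
      have := hB4 p hp
      rw [Complex.norm_real, Real.norm_eq_abs]
      linarith [show (2 : ℝ) ^ 39 ≤ 2 ^ 45 by norm_num]
  have hz' : ∀ p < 4 * n, ‖cz (f' p) (g' p) - (Kc : ℂ) * (sv (B (sig n p)) : ℂ) *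
      ee (-(g (sig n p) * c : ℝ) / 2 ^ 65)‖ ≤ 62.5 + |sv (B (sig n p))| * 1.9677e-7 := by
    intro p hp
    refine (hz p hp).trans ?_
    simp only [Complex.norm_real, Real.norm_eq_abs]
    have := abs_nonneg (sv (B (sig n p)))
    norm_num
    linarith
  have hsz : ∀ p < 4 * n, ‖cz (f' p) (g' p)‖ + 2 ^ (7 - 1) < 2 ^ (7 + 34 - 1) := by
    intro p hp
    have h1 := norm_sub_norm_le (cz (f' p) (g' p)) ((Kc : ℂ) * (sv (B (sig n p)) : ℂ) *
      ee (-(g (sig n p) * c : ℝ) / 2 ^ 65))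
    rw [norm_main] at h1
    have h2 := hz' p hp
    have h3 := hB4 p hp
    have h5 : Kc * |sv (B (sig n p))| ≤ 1.64677 * 2 ^ 39 :=
      mul_le_mul Kc_le h3 (abs_nonneg _) (by norm_num)
    norm_num at h1 h2 h3 h5 ⊢
    linarith
  obtain ⟨ra, hra, hra'⟩ := rdN_pw (n := 4 * n) (s := 7) (w := 34) (f := f') (by norm_num)
    (by norm_num) (by norm_num) fun p hp => by
      have := (sv_le_norm (f' p) (g' p)).1
      linarith [hsz p hp]
  obtain ⟨rb, hrb, hrb'⟩ := rdN_pw (n := 4 * n) (s := 7) (w := 34) (f := g') (by norm_num)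
    (by norm_num) (by norm_num) fun p hp => by
      have := (sv_le_norm (f' p) (g' p)).2
      linarith [hsz p hp]
  refine ⟨fun p => ra (tau n p), fun p => rb (tau n p), ?_, fun p hp => ?_⟩
  · have h0 : ∀ an : ℕ, grd lm d v E an c = T2.rec (fun x y => asm0 d (posV lm n v +
        cmb n (rdN (ow 48 (4 * n)) x 7 34) (rdN (ow 48 (4 * n)) y 7 34)) E)
        (rot (ow 48 (4 * n)) 24 an (Nat.shiftLeft (ow 48 (4 * n)) 46)
          (angW n (Nat.shiftLeft (ow 192 (4 * n)) 100 - fld (ow 192 (4 * n)) v 48 72 * c) 21)) := by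
      intro an
      unfold grd
      simp only [fz_eq, p2_eq, oW_eq, oN_eq, ← hn]
      rfl
    rw [h0, hT, ← h4, hrot]
    change asm0 d (posV lm n v + cmb n (rdN (ow 48 (4 * n)) X 7 34) (rdN (ow 48 (4 * n)) Y 7 34)) E = _
    rw [hX, hY, hra, hrb, cmb_pw (fun p hp => (hra' p hp).1.trans (by norm_num))
      (fun p hp => (hrb' p hp).1.trans (by norm_num)), posV_eq hl hs4, pw_add, h4]
    exact asm_eq hA hl hs hE hr fun p hp =>
      ⟨(hra' _ (tau_lt (h4 ▸ hp))).1, (hrb' _ (tau_lt (h4 ▸ hp))).1⟩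
  · have hp4 : p < 4 * n := h4 ▸ hp
    have ht := tau_lt hp4
    have h1 := hz' _ ht
    rw [sig_tau hp4] at h1
    have h2 := (hra' _ ht).2
    have h3 := (hrb' _ ht).2
    beta_reduce
    generalize ra (tau n p) = x at h2 ⊢
    generalize rb (tau n p) = y at h3 ⊢
    generalize f' (tau n p) = x' at h1 h2
    generalize g' (tau n p) = y' at h1 h3
    generalize ee (-(g p * c : ℝ) / 2 ^ 65) = w at h1 ⊢
    have h5 : ‖ci (x - 2 ^ 33) (y - 2 ^ 33) - cz x' y' / 2 ^ 7‖ ≤ 1.4143 * (1 / 2) := by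
      have h7 : (2 : ℂ) ^ 7 = ((2 ^ 7 : ℝ) : ℂ) := by push_cast; rfl
      refine norm_le_of ?_ ?_
      · rw [h7, Complex.sub_re, Complex.div_ofReal_re]
        simp only [ci, cz]
        push_cast
        convert h2 using 3
        norm_num
      · rw [h7, Complex.sub_im, Complex.div_ofReal_im]
        simp only [ci, cz]
        push_cast
        convert h3 using 3
        norm_num
    have h6 : ci (x - 2 ^ 33) (y - 2 ^ 33) / 2 ^ 33 - (Kc : ℂ) * ((sv (B p) / 2 ^ 40 : ℝ) : ℂ) * w =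
        (ci (x - 2 ^ 33) (y - 2 ^ 33) - cz x' y' / 2 ^ 7) / 2 ^ 33 +
          (cz x' y' - (Kc : ℂ) * (sv (B p) : ℂ) * w) / 2 ^ 40 := by
      push_cast
      ring
    rw [h6]
    refine (norm_add_le _ _).trans ?_
    rw [norm_div, norm_div, norm_pow, norm_pow, Complex.norm_two, abs_div,
      abs_of_pos (by positivity : (0 : ℝ) < 2 ^ 40)]
    have := abs_nonneg (sv (B p))
    norm_num at h1 h5 ⊢
    linarith

/-! ### one source -/

lemma sumE_le (hL : StLag) {δ : ℝ} (h0 : 0 ≤ δ) (h1 : δ ≤ 1) {E : ℕ → ℂ} {θ : ℕ → ℝ}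
    (hE : ∑ o ∈ range 15, ‖E o - ((Kc * lw o δ : ℝ) : ℂ) * ee (θ o)‖ ≤ 3.5e-7) :
    ∑ o ∈ range 15, ‖E o‖ ≤ 2.7666 := by
  have h2 : ∑ o ∈ range 15, ‖E o‖ ≤ ∑ o ∈ range 15,
      (‖E o - ((Kc * lw o δ : ℝ) : ℂ) * ee (θ o)‖ + Kc * |lw o δ|) := by
    refine sum_le_sum fun o _ => ?_
    have h3 := norm_sub_norm_le (E o) (((Kc * lw o δ : ℝ) : ℂ) * ee (θ o))
    rw [norm_mul, norm_ee, Complex.norm_real, Real.norm_eq_abs, abs_mul, abs_of_pos Kc_pos] at h3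
    linarith
  have h4 : ∑ o ∈ range 15, |lw o δ| ≤ 1.68 := by
    rw [sum_range_succ]
    have : lw 14 δ = 0 := by simp [lw]
    rw [this, abs_zero, add_zero]
    exact (hL δ h0 h1).1
  rw [sum_add_distrib, ← mul_sum] at h2
  have h5 : Kc * ∑ o ∈ range 15, |lw o δ| ≤ 1.64677 * 1.68 :=
    mul_le_mul Kc_le h4 (sum_nonneg fun _ _ => abs_nonneg _) (by norm_num)
  linarith

lemma delR_mem (lm g : ℕ) : 0 ≤ delR lm g ∧ delR lm g ≤ 1 := by
  unfold delR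
  refine ⟨by positivity, ?_⟩
  rw [div_le_one (by positivity)]
  exact_mod_cast (Nat.mod_lt g (by positivity : 0 < 2 ^ (64 - lm))).le

lemma g_split {lm : ℕ} (hl : lm ≤ 18) (g : ℕ) : ∃ t : ℕ,
    (g : ℝ) / 2 ^ 64 = t + (posR lm g + delR lm g) / 2 ^ lm := by
  refine ⟨g / 2 ^ (64 - lm) / 2 ^ lm, ?_⟩
  have h1 : (g : ℝ) = 2 ^ (64 - lm) * (g / 2 ^ (64 - lm) : ℕ) + (g % 2 ^ (64 - lm) : ℕ) := by
    exact_mod_cast (Nat.div_add_mod g (2 ^ (64 - lm))).symm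
  have h2 : ((g / 2 ^ (64 - lm) : ℕ) : ℝ) =
      2 ^ lm * (g / 2 ^ (64 - lm) / 2 ^ lm : ℕ) + (posR lm g : ℝ) := by
    exact_mod_cast (Nat.div_add_mod (g / 2 ^ (64 - lm)) (2 ^ lm)).symm
  have h3 : (2 : ℝ) ^ 64 = 2 ^ (64 - lm) * 2 ^ lm := by rw [← pow_add]; congr 1; omega
  unfold delR
  rw [h3]
  generalize (g % 2 ^ (64 - lm) : ℕ) = s at h1 ⊢
  generalize (g / 2 ^ (64 - lm) / 2 ^ lm : ℕ) = t at h2 ⊢
  rw [h1, h2]
  field_simp
  ring

lemma interp (hL : StLag) {lm J : ℕ} (hl : lm ≤ 18) (hJ : 8 * J ≤ 2 ^ lm) (g : ℕ) {j : ℤ}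
    (hj : |j| ≤ J) : ‖∑ o ∈ range 15, ((Kc * lw o (delR lm g) : ℝ) : ℂ) *
        ee (-((posR lm g : ℝ) + o - 6) ^ 2 / (2 * 2 ^ lm)) *
        ee (((j : ℝ) - (posR lm g + o : ℕ) + 6) ^ 2 / (2 * 2 ^ lm)) -
      ee ((j : ℝ) ^ 2 / (2 * 2 ^ lm)) * (Kc * ee (-j * g / 2 ^ 64))‖ ≤
      Kc * (4.35e-7 * (8 * J / 2 ^ lm) ^ 14) := by
  obtain ⟨t, ht⟩ := g_split hl g
  obtain ⟨h0, h1⟩ := delR_mem lm g
  have hM : (0 : ℝ) < 2 ^ lm := by positivity
  have hj' : |(j : ℝ)| ≤ J := by exact_mod_cast hj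
  have hJ' : (8 : ℝ) * J ≤ 2 ^ lm := by exact_mod_cast hJ
  have hx : |(j : ℝ) / 2 ^ lm| ≤ J / 2 ^ lm := by
    rw [abs_div, abs_of_pos hM]
    exact div_le_div_of_nonneg_right hj' hM.le
  have hx1 : (J : ℝ) / 2 ^ lm ≤ 1 / 8 := by
    rw [div_le_iff₀ hM]; linarith
  have h2 := (hL _ h0 h1).2 (j / 2 ^ lm) (hx.trans hx1)
  generalize delR lm g = δ at *
  generalize posR lm g = q at *
  have e1 : ∀ o : ℕ, ee (-((q : ℝ) + o - 6) ^ 2 / (2 * 2 ^ lm)) *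
      ee (((j : ℝ) - (q + o : ℕ) + 6) ^ 2 / (2 * 2 ^ lm)) =
      ee ((j : ℝ) ^ 2 / (2 * 2 ^ lm)) * ee (-(j / 2 ^ lm) * q) *
        ee (-(j / 2 ^ lm) * (o - 6)) := by
    intro o
    rw [← ee_add, ← ee_add, ← ee_add]
    congr 1
    push_cast
    field_simp
    ring
  have e2 : ee (-j * g / 2 ^ 64) = ee (-(j / 2 ^ lm) * q) * ee (-(j / 2 ^ lm) * δ) := by
    have e3 : (-j * g / 2 ^ 64 : ℝ) =
        ((-j * t : ℤ) : ℝ) + (-(j / 2 ^ lm) * q + -(j / 2 ^ lm) * δ) := by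
      rw [mul_div_assoc, ht]
      push_cast
      ring
    rw [e3, ee_add, ee_int, one_mul, ee_add]
  have e4 : lw 14 δ = 0 := by simp [lw]
  have e5 : ∑ o ∈ range 15, ((Kc * lw o δ : ℝ) : ℂ) *
        ee (-((q : ℝ) + o - 6) ^ 2 / (2 * 2 ^ lm)) *
        ee (((j : ℝ) - (q + o : ℕ) + 6) ^ 2 / (2 * 2 ^ lm)) -
      ee ((j : ℝ) ^ 2 / (2 * 2 ^ lm)) * (Kc * ee (-j * g / 2 ^ 64)) =
      (Kc : ℂ) * ee ((j : ℝ) ^ 2 / (2 * 2 ^ lm)) * ee (-(j / 2 ^ lm) * q) *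
        (∑ o ∈ range 14, (lw o δ : ℂ) * ee (-(j / 2 ^ lm) * (o - 6)) - ee (-(j / 2 ^ lm) * δ)) := by
    rw [sum_range_succ, e4, e2, mul_sub, mul_sum]
    congr 1
    · rw [mul_zero, Complex.ofReal_zero, zero_mul, zero_mul, add_zero]
      refine sum_congr rfl fun o _ => ?_
      rw [mul_assoc, e1]
      push_cast
      ring
    · ring
  rw [e5, norm_mul, norm_mul, norm_mul, norm_ee, norm_ee, Complex.norm_real, Real.norm_eq_abs,
    abs_of_pos Kc_pos, mul_one, mul_one]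
  refine mul_le_mul_of_nonneg_left (h2.trans ?_) Kc_pos.le
  have h3 : 8 * |(j : ℝ) / 2 ^ lm| ≤ 8 * J / 2 ^ lm := by rw [mul_div_assoc]; linarith
  have h4 := pow_le_pow_left₀ (by positivity) h3 14
  linarith

lemma one_src (hL : StLag) {lm J : ℕ} (hl : lm ≤ 18) (hJ : 8 * J ≤ 2 ^ lm) {g c : ℕ} {b : ℝ} {C : ℂ}
    {E : ℕ → ℂ} {j : ℤ} (hj : |j| ≤ J)
    (hC : ‖C - (Kc : ℂ) * (b : ℂ) * ee (-(g * c : ℝ) / 2 ^ 65)‖ ≤ 1.392e-10 + |b| * 1.9677e-7)
    (hE : ∑ o ∈ range 15, ‖E o - ((Kc * lw o (delR lm g) : ℝ) : ℂ) *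
      ee (-((posR lm g : ℝ) + o - 6) ^ 2 / (2 * 2 ^ lm))‖ ≤ 3.5e-7) :
    ‖∑ o ∈ range 15, C * E o * ee (((j : ℝ) - (posR lm g + o : ℕ) + 6) ^ 2 / (2 * 2 ^ lm)) -
      ee ((j : ℝ) ^ 2 / (2 * 2 ^ lm)) *
        ((Kc : ℂ) ^ 2 * (b : ℂ) * ee (-(c / 2 + j) * g / 2 ^ 64))‖ ≤
      |b| * (1.13e-6 + 1.18e-6 * (8 * J / 2 ^ lm) ^ 14) + 3.9e-10 := by
  have h1 := sumE_le hL (delR_mem lm g).1 (delR_mem lm g).2 hE
  have h2 := interp hL hl hJ g hj
  have e1 : ee (-(c / 2 + j) * g / 2 ^ 64) =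
      ee (-(g * c : ℝ) / 2 ^ 65) * ee (-j * g / 2 ^ 64) := by
    rw [← ee_add]; congr 1; ring
  rw [e1]
  have hn := norm_main b (-(g * c : ℝ) / 2 ^ 65)
  set φ : ℕ → ℂ := fun o => ee (((j : ℝ) - (posR lm g + o : ℕ) + 6) ^ 2 / (2 * 2 ^ lm)) with hφ
  set F : ℕ → ℂ := fun o => ((Kc * lw o (delR lm g) : ℝ) : ℂ) *
      ee (-((posR lm g : ℝ) + o - 6) ^ 2 / (2 * 2 ^ lm)) with hF
  have hφ1 : ∀ o, ‖φ o‖ = 1 := fun o => norm_ee _
  change ∑ o ∈ range 15, ‖E o - F o‖ ≤ _ at hE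
  change ‖∑ o ∈ range 15, F o * φ o - _‖ ≤ _ at h2
  change ‖∑ o ∈ range 15, C * E o * φ o - _‖ ≤ _
  generalize ee (-(g * c : ℝ) / 2 ^ 65) = w1 at hC hn ⊢
  generalize ee (-j * g / 2 ^ 64) = w2 at h2 ⊢
  generalize ee ((j : ℝ) ^ 2 / (2 * 2 ^ lm)) = w3 at h2 ⊢
  have hs : (0 : ℝ) ≤ (8 * J / 2 ^ lm) ^ 14 := by positivity
  generalize ((8 : ℝ) * J / 2 ^ lm) ^ 14 = s at h2 hs ⊢
  have e2 : ∑ o ∈ range 15, C * E o * φ o - w3 * ((Kc : ℂ) ^ 2 * (b : ℂ) * (w1 * w2)) =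
      (C - (Kc : ℂ) * (b : ℂ) * w1) * ∑ o ∈ range 15, E o * φ o +
      (Kc : ℂ) * (b : ℂ) * w1 * ∑ o ∈ range 15, (E o - F o) * φ o +
      (Kc : ℂ) * (b : ℂ) * w1 * (∑ o ∈ range 15, F o * φ o - w3 * (Kc * w2)) := by
    simp only [sub_mul, sum_sub_distrib, mul_assoc C, ← mul_sum]
    ring
  have h3 : ‖∑ o ∈ range 15, E o * φ o‖ ≤ 2.7666 := by
    refine (norm_sum_le _ _).trans (le_trans (le_of_eq ?_) h1)
    exact sum_congr rfl fun o _ => by rw [norm_mul, hφ1, mul_one]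
  have h4 : ‖∑ o ∈ range 15, (E o - F o) * φ o‖ ≤ 3.5e-7 := by
    refine (norm_sum_le _ _).trans (le_trans (le_of_eq ?_) hE)
    exact sum_congr rfl fun o _ => by rw [norm_mul, hφ1, mul_one]
  have hb := abs_nonneg b
  have hK : Kc * |b| ≤ 1.64677 * |b| := mul_le_mul_of_nonneg_right Kc_le hb
  have h5 : ‖(C - (Kc : ℂ) * (b : ℂ) * w1) * ∑ o ∈ range 15, E o * φ o‖ ≤
      (1.392e-10 + |b| * 1.9677e-7) * 2.7666 := by
    rw [norm_mul]
    exact mul_le_mul hC h3 (norm_nonneg _) (by positivity)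
  have h6 : ‖(Kc : ℂ) * (b : ℂ) * w1 * ∑ o ∈ range 15, (E o - F o) * φ o‖ ≤
      1.64677 * |b| * 3.5e-7 := by
    rw [norm_mul, hn]
    exact mul_le_mul hK h4 (norm_nonneg _) (by positivity)
  have h7 : ‖(Kc : ℂ) * (b : ℂ) * w1 * (∑ o ∈ range 15, F o * φ o - w3 * (Kc * w2))‖ ≤
      1.64677 * |b| * (1.64677 * (4.35e-7 * s)) := by
    rw [norm_mul, hn]
    exact mul_le_mul hK (h2.trans (mul_le_mul_of_nonneg_right Kc_le (by positivity)))
      (norm_nonneg _) (by positivity)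
  rw [e2]
  refine (norm_add₃_le).trans ?_
  have h8 : 0 ≤ |b| * s := mul_nonneg hb hs
  nlinarith

/-! ### collecting the terms of each lane -/

/-- the sum of the terms `t p o` that fall into the lane `i` -/
noncomputable def col {M : Type} [AddCommMonoid M] (N : ℕ) (q : ℕ → ℕ) (t : ℕ → ℕ → M) (i : ℕ) : M :=
  ∑ p ∈ range N, ∑ o ∈ range 15, if q p + o = i then t p o else 0

lemma sum_col {M : Type} [CommSemiring M] {N G : ℕ} {q : ℕ → ℕ} (hq : ∀ p < N, q p + 14 < G)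
    (t : ℕ → ℕ → M) (h : ℕ → M) : ∑ i ∈ range G, col N q t i * h i =
      ∑ p ∈ range N, ∑ o ∈ range 15, t p o * h (q p + o) := by
  simp only [col, sum_mul]
  rw [sum_comm]
  refine sum_congr rfl fun p hp => ?_
  rw [sum_comm]
  refine sum_congr rfl fun o ho => ?_
  simp only [ite_mul, zero_mul]
  rw [sum_ite_eq, if_pos]
  have := hq p (mem_range.mp hp)
  have := mem_range.mp ho
  exact mem_range.mpr (by omega)

lemma abs_col_le {N : ℕ} {q : ℕ → ℕ} {t : ℕ → ℕ → ℤ} {s : ℕ → ℕ → ℝ}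
    (h : ∀ p o, |(t p o : ℝ)| ≤ s p o) (i : ℕ) :
    |((col N q t i : ℤ) : ℝ)| ≤ ∑ p ∈ range N, ∑ o ∈ range 15, s p o := by
  unfold col
  push_cast
  refine (abs_sum_le_sum_abs _ _).trans (sum_le_sum fun p _ => ?_)
  refine (abs_sum_le_sum_abs _ _).trans (sum_le_sum fun o _ => ?_)
  split_ifs
  · exact h p o
  · rw [abs_zero]; exact (abs_nonneg _).trans (h p o)

lemma norm_col_le (N : ℕ) (q : ℕ → ℕ) (t : ℕ → ℕ → ℂ) (i : ℕ) :
    ‖col N q t i‖ ≤ col N q (fun p o => ‖t p o‖) i := by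
  unfold col
  refine (norm_sum_le _ _).trans (sum_le_sum fun p _ => ?_)
  refine (norm_sum_le _ _).trans (sum_le_sum fun o _ => ?_)
  split_ifs <;> simp

lemma ci_col (N : ℕ) (q : ℕ → ℕ) (x y : ℕ → ℤ) (er ei : ℕ → ℕ → ℤ) (i : ℕ) :
    ci (col N q (fun p o => x p * er p o) i - col N q (fun p o => y p * ei p o) i)
      (col N q (fun p o => x p * ei p o + y p * er p o) i) =
      col N q (fun p o => ci (x p) (y p) * ci (er p o) (ei p o)) i := by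
  apply Complex.ext
  · simp only [col, ci, Complex.re_sum]
    push_cast
    rw [← sum_sub_distrib]
    refine sum_congr rfl fun p _ => ?_
    rw [← sum_sub_distrib]
    refine sum_congr rfl fun o _ => ?_
    split_ifs <;> simp
  · simp only [col, ci, Complex.im_sum]
    push_cast
    refine sum_congr rfl fun p _ => sum_congr rfl fun o _ => ?_
    split_ifs <;> simp

lemma iw_col {N G : ℕ} {q : ℕ → ℕ} (hq : ∀ p < N, q p + 14 < G) (x y : ℕ → ℤ)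
    (er ei : ℕ → ℕ → ℤ) :
    iw 192 G (fun i => col N q (fun p o => x p * er p o) i +
      col N q (fun p o => x p * ei p o + y p * er p o) i * 2 ^ 64 +
      col N q (fun p o => y p * ei p o) i * 2 ^ 128) =
      ∑ p ∈ range N, (x p + y p * 2 ^ 64) * iw 192 15 (fun o => er p o + ei p o * 2 ^ 64) *
        2 ^ (192 * q p) := by
  unfold iw
  simp only [add_mul, sum_add_distrib, mul_assoc, sum_col hq]
  simp only [← sum_add_distrib, mul_sum, sum_mul]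
  refine sum_congr rfl fun p _ => sum_congr rfl fun o _ => ?_
  rw [mul_add 192, pow_add]
  ring

lemma re_le (a b : ℤ) : |(a : ℝ)| ≤ ‖ci a b‖ := Complex.abs_re_le_norm (ci a b)

lemma im_le (a b : ℤ) : |(b : ℝ)| ≤ ‖ci a b‖ := Complex.abs_im_le_norm (ci a b)

end H96NGrd

open H96NGrd in
theorem grdOk (hR : StRot) (hA : StAsm) (hL : StLag) : StGrd := by
  intro lm d v E c J A g m B mI _ hl hd _ hs hE hc hJ hB hm
  obtain ⟨r, er, ei, hE, hr⟩ := hE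
  obtain ⟨a, b, hG, hab⟩ := grd_eq hR hA hl hd hs hE (fun p hp => (hr p hp).1) hc hB
  have hG0 := mkG_eq hA hl hd hs hE fun p hp => (hr p hp).1
  have hq : ∀ p < 2 ^ d, posR lm (g p) + 14 < gN lm := fun p _ => by
    have h1 := posR_lt lm (g p)
    have h2 : gN lm = 2 ^ lm + 14 := by rw [← p2_eq]; rfl
    omega
  set x : ℕ → ℤ := fun p => a p - 2 ^ 33 with hx
  set y : ℕ → ℤ := fun p => b p - 2 ^ 33 with hy
  set q : ℕ → ℕ := fun p => posR lm (g p) with hqd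
  have hm' : ∑ p ∈ range (2 ^ d), |sv (B p) / 2 ^ 40| ≤ mI / 2 ^ 40 := by
    have : ∀ p, |sv (B p) / 2 ^ 40| = |sv (B p)| / 2 ^ 40 := fun p => by
      rw [abs_div, abs_of_pos (by positivity : (0 : ℝ) < 2 ^ 40)]
    simp only [this, ← sum_div]
    exact div_le_div_of_nonneg_right hm (by positivity)
  -- the total weight
  have hS : ∑ p ∈ range (2 ^ d), ∑ o ∈ range 15, ‖ci (x p) (y p)‖ * ‖ci (er p o) (ei p o)‖ ≤
      (4.56 * mI / 2 ^ 40 + 2 ^ d * 3.9e-10) * 2 ^ 58 := by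
    have h1 : ∀ p ∈ range (2 ^ d), ∑ o ∈ range 15, ‖ci (x p) (y p)‖ * ‖ci (er p o) (ei p o)‖ ≤
        (4.56 * |sv (B p) / 2 ^ 40| + 3.9e-10) * 2 ^ 58 := by
      intro p hp
      have hp' := mem_range.mp hp
      have h2 := sumE_le hL (delR_mem lm (g p)).1 (delR_mem lm (g p)).2 (hr p hp').2.2
      have h3 := norm_sub_norm_le (ci (x p) (y p) / 2 ^ 33)
        ((Kc : ℂ) * ((sv (B p) / 2 ^ 40 : ℝ) : ℂ) * ee (-(g p * c : ℝ) / 2 ^ 65))
      have h4 := h3.trans (hab p hp')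
      rw [norm_main, norm_div, norm_pow, Complex.norm_two] at h4
      simp only [norm_div, norm_pow, Complex.norm_two, ← sum_div] at h2
      rw [← mul_sum]
      have h0 := abs_nonneg (sv (B p) / 2 ^ 40)
      have hK := mul_le_mul_of_nonneg_right Kc_le h0
      generalize |sv (B p) / 2 ^ 40| = β at h4 h0 hK ⊢
      have h5 : ‖ci (x p) (y p)‖ ≤ (1.392e-10 + 1.64678 * β) * 2 ^ 33 := by
        rw [← div_le_iff₀ (by positivity)]; linarith
      have h6 : ∑ o ∈ range 15, ‖ci (er p o) (ei p o)‖ ≤ 2.7666 * 2 ^ 25 := by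
        rw [← div_le_iff₀ (by positivity)]; exact h2
      refine (mul_le_mul h5 h6 (sum_nonneg fun _ _ => norm_nonneg _) (by positivity)).trans ?_
      norm_num
      linarith
    refine (sum_le_sum h1).trans ?_
    rw [← sum_mul, sum_add_distrib, ← mul_sum, sum_const, card_range, nsmul_eq_mul]
    refine mul_le_mul_of_nonneg_right ?_ (by positivity)
    push_cast
    rw [mul_div_assoc]
    linarith
  have hT : ∑ i ∈ range (gN lm),
      ‖col (2 ^ d) q (fun p o => ci (x p) (y p) * ci (er p o) (ei p o)) i‖ ≤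
      (4.56 * mI / 2 ^ 40 + 2 ^ d * 3.9e-10) * 2 ^ 58 := by
    refine (sum_le_sum fun i _ => norm_col_le _ _ _ i).trans (le_trans (le_of_eq ?_) hS)
    have := sum_col hq (fun p o => ‖ci (x p) (y p) * ci (er p o) (ei p o)‖) fun _ => (1 : ℝ)
    simpa only [mul_one, norm_mul] using this
  refine ⟨col (2 ^ d) q fun p o => x p * er p o,
    col (2 ^ d) q fun p o => x p * ei p o + y p * er p o,
    col (2 ^ d) q fun p o => y p * ei p o, ?_, fun i hi => ⟨?_, ?_, ?_⟩, ?_, fun j hj => ?_⟩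
  · rw [iw_col hq, hG, hG0, Nat.cast_sum, Nat.cast_sum, ← sum_sub_distrib]
    refine sum_congr rfl fun p hp => ?_
    rw [← (hr p (mem_range.mp hp)).2.1]
    simp only [hx, hy]
    push_cast
    ring
  · refine (abs_col_le (fun p o => ?_) i).trans hS
    push_cast
    rw [abs_mul]
    exact mul_le_mul (re_le _ _) (re_le _ _) (abs_nonneg _) (norm_nonneg _)
  · refine (im_le (col (2 ^ d) q (fun p o => x p * er p o) i -
      col (2 ^ d) q (fun p o => y p * ei p o) i) _).trans (le_trans ?_ hT)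
    rw [ci_col]
    exact single_le_sum (f := fun i =>
      ‖col (2 ^ d) q (fun p o => ci (x p) (y p) * ci (er p o) (ei p o)) i‖)
      (fun _ _ => norm_nonneg _) (mem_range.mpr hi)
  · refine (abs_col_le (fun p o => ?_) i).trans hS
    push_cast
    rw [abs_mul]
    exact mul_le_mul (im_le _ _) (im_le _ _) (abs_nonneg _) (norm_nonneg _)
  · simpa only [ci_col] using hT
  · have e1 : ∑ i ∈ range (gN lm), ci (col (2 ^ d) q (fun p o => x p * er p o) i -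
          col (2 ^ d) q (fun p o => y p * ei p o) i)
          (col (2 ^ d) q (fun p o => x p * ei p o + y p * er p o) i) / 2 ^ 58 *
          ee (((j : ℝ) - i + 6) ^ 2 / (2 * 2 ^ lm)) -
        ee ((j : ℝ) ^ 2 / (2 * 2 ^ lm)) * raw (2 ^ d) B g (c / 2 + j) =
        ∑ p ∈ range (2 ^ d), (∑ o ∈ range 15, ci (x p) (y p) / 2 ^ 33 *
          (ci (er p o) (ei p o) / 2 ^ 25) *
            ee (((j : ℝ) - (posR lm (g p) + o : ℕ) + 6) ^ 2 / (2 * 2 ^ lm)) -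
          ee ((j : ℝ) ^ 2 / (2 * 2 ^ lm)) * ((Kc : ℂ) ^ 2 * ((sv (B p) / 2 ^ 40 : ℝ) : ℂ) *
            ee (-(c / 2 + j) * g p / 2 ^ 64))) := by
      simp only [ci_col, div_mul_eq_mul_div, mul_div_assoc]
      rw [sum_col hq, sum_sub_distrib]
      congr 1
      · refine sum_congr rfl fun p _ => sum_congr rfl fun o _ => ?_
        ring
      · unfold raw
        rw [mul_sum, mul_sum]
        refine sum_congr rfl fun p _ => ?_
        rw [← mul_div_assoc]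
        push_cast
        ring
    beta_reduce
    rw [e1]
    refine (norm_sum_le _ _).trans ((sum_le_sum fun p hp => one_src hL hl hJ hj
      (hab p (mem_range.mp hp)) (hr p (mem_range.mp hp)).2.2).trans ?_)
    rw [sum_add_distrib, ← sum_mul, sum_const, card_range, nsmul_eq_mul]
    push_cast
    have := mul_le_mul_of_nonneg_right hm'
      (by positivity : (0 : ℝ) ≤ 1.13e-6 + 1.18e-6 * (8 * J / 2 ^ lm) ^ 14)
    linarith

end Pool.Agent.Lib.MP_5db4ad_nt.NE
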