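import Pool.Agent.Lib.MP_5db4ad_nt.H96NLaneB

/-!
The table of the quadratic phases and the vectors of powers.
-/

namespace Pool.Agent.Lib.MP_5db4ad_nt.NE

open S2 Finset

namespace H96NH

lemma two_le (j h : ℕ) : j * (h + h) ≤ j ^ 2 + h * h := by nlinarith [sq_nonneg ((j : ℤ) - h)]

lemma sq_cast (j h : ℕ) : ((j ^ 2 + h * h - j * (h + h) : ℕ) : ℝ) = ((j : ℝ) - h) ^ 2 := by
  rw [Nat.cast_sub (two_le j h)]
  push_cast
  ring

lemma dbl_succ (d a b : ℕ) (h : dbl d = T2.mk a b) : dbl (d + 1) =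
    T2.mk (a + (a + ow 192 (2 ^ d) * 2 ^ d) * 2 ^ (192 * 2 ^ d))
      (b + (b + a * (2 ^ d + 2 ^ d) + ow 192 (2 ^ d) * (2 ^ d * 2 ^ d)) * 2 ^ (192 * 2 ^ d)) := by
  have e : dbl (d + 1) = T2.rec (motive := fun _ => T2) (fun a b =>
    fz (p2 d) fun N => fz (ow 192 N) fun o => fz (192 * N) fun s =>
    fz (a + Nat.shiftLeft (a + o * N) s) fun a' =>
    fz (b + Nat.shiftLeft (b + a * (N + N) + o * (N * N)) s) fun b' => T2.mk a' b') (dbl d) := rfl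
  rw [e, h]
  simp only [fz_eq, p2_eq, Nat.shiftLeft_eq', Nat.shiftLeft_eq]

lemma dbl_eq (d : ℕ) :
    dbl d = T2.mk (pw 192 (2 ^ d) fun i => i) (pw 192 (2 ^ d) fun i => i ^ 2) := by
  induction d with
  | zero =>
    have e : dbl 0 = T2.mk 0 0 := rfl
    rw [e]
    simp [pw]
  | succ d ih =>
    rw [dbl_succ d _ _ ih, ow_mul (by norm_num), ow_mul (by norm_num), pw_mul, pw_add, pw_add,
      pw_add, pow_succ 2 d, mul_two, pw_split, pw_split]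
    congr 3
    · exact pw_congr fun j _ => add_comm _ _
    · exact pw_congr fun j _ => by ring

lemma hN_eq (lm : ℕ) : hN lm = 2 ^ lm + 2 ^ (lm - 2) + 16 := by
  rw [← p2_eq, ← p2_eq]; rfl

lemma hO_eq (lm : ℕ) : hO lm = 2 ^ lm + 2 ^ (lm - 3) + 8 := by
  rw [← p2_eq, ← p2_eq]; rfl

lemma sizes {lm : ℕ} (h1 : 5 ≤ lm) (h2 : lm ≤ 18) :
    4 * (hN lm / 4) = hN lm ∧ hN lm ≤ 2 ^ (lm + 1) ∧ hN lm ≤ 2 ^ 19 ∧ hO lm ≤ 2 ^ 19 := by
  rw [hN_eq, hO_eq]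
  interval_cases lm <;> norm_num

lemma lane_lt {j h : ℕ} (hj : j ≤ 2 ^ 19) (hh : h ≤ 2 ^ 19) :
    j ^ 2 + h * h - j * (h + h) ≤ 2 ^ 39 := by
  have h1 : j ^ 2 ≤ (2 ^ 19) ^ 2 := Nat.pow_le_pow_left hj 2
  have h2 : h * h ≤ 2 ^ 19 * 2 ^ 19 := Nat.mul_le_mul hh hh
  omega

lemma hA_eq {lm : ℕ} (h1 : 5 ≤ lm) (h2 : lm ≤ 18) : hA lm = pw 192 (hN lm) fun j =>
    (j ^ 2 + hO lm * hO lm - j * (hO lm + hO lm)) * 2 ^ (43 - lm) := by
  obtain ⟨-, s2, s3, s4⟩ := sizes h1 h2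
  have e : hA lm = T2.rec (motive := fun _ => ℕ) (fun a b => Nat.shiftLeft (cut (b +
      ow 192 (p2 (lm + 1)) * (hO lm * hO lm) - a * (hO lm + hO lm)) (192 * hN lm)) (43 - lm))
      (dbl (lm + 1)) := rfl
  rw [e, dbl_eq]
  simp only [p2_eq]
  rw [ow_mul (by norm_num), pw_mul, pw_add, pw_sub (fun j _ => two_le j _), cut_pw _ s2, pw_shl]
  intro j hj
  exact (lane_lt (by omega) s4).trans_lt (by norm_num)

lemma mkH_eq (lm x y : ℕ) (h : rot (ow 48 (4 * (hN lm / 4))) 26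
      (ow 48 (4 * (hN lm / 4)) * 71036425840707) (Nat.shiftLeft (ow 48 (4 * (hN lm / 4))) 46)
      (angW (hN lm / 4) (hA lm) 0) = T2.mk x y) :
    mkH lm = cmb (hN lm / 4) (rdN (ow 48 (4 * (hN lm / 4))) x 18 26)
      (rdN (ow 48 (4 * (hN lm / 4))) y 18 26) + 2 ^ (192 * hN lm) -
      ow 192 (4 * (hN lm / 4)) * 618970019642690137483116544 := by
  have e : mkH lm = fz (hA lm) fun A => fz (Nat.shiftRight (hN lm) 2) fun n =>
    T2.rec (motive := fun _ => ℕ) (fun x y => cmb n (rdN (oN n) x 18 26) (rdN (oN n) y 18 26) +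
      p2 (192 * hN lm) - oW n * 618970019642690137483116544)
    (rot (oN n) 26 (oN n * 71036425840707) (Nat.shiftLeft (oN n) 46) (angW n A 0)) := rfl
  have e2 : Nat.shiftRight (hN lm) 2 = hN lm / 4 := Nat.shiftRight_eq_div_pow _ 2
  rw [e, fz_eq, fz_eq, e2, oN_eq, oW_eq, p2_eq, h]

lemma sv_c : sv 71036425840707 = 667681663043 := by
  unfold sv
  norm_num

/-- the scalar estimate -/
lemma scal {fx fy rx ry : ℕ} {w : ℂ} (hw : ‖w‖ = 1)
    (h : ‖cz fx fy - (Kc : ℂ) * ((667681663043 : ℝ) : ℂ) * w‖ ≤ 33000)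
    (hx : |(rx : ℝ) - 2 ^ 25 - sv fx / 2 ^ 18| ≤ 1 / 2)
    (hy : |(ry : ℝ) - 2 ^ 25 - sv fy / 2 ^ 18| ≤ 1 / 2) :
    ‖ci ((rx : ℤ) - 2 ^ 25) ((ry : ℤ) - 2 ^ 25) / 2 ^ 22 - w‖ ≤ 2.05e-7 := by
  set u : ℂ := ⟨(rx : ℝ) - 2 ^ 25 - sv fx / 2 ^ 18, (ry : ℝ) - 2 ^ 25 - sv fy / 2 ^ 18⟩ with hu
  have h1 : ‖u‖ ≤ 0.7072 := by
    have h2 : ‖u‖ ^ 2 ≤ 0.7072 ^ 2 := by
      rw [Complex.sq_norm, Complex.normSq_apply]
      have a := abs_le.1 hx
      have b := abs_le.1 hy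
      simp only [hu]
      nlinarith
    exact le_of_sq_le_sq h2 (by norm_num)
  have h3 : ci ((rx : ℤ) - 2 ^ 25) ((ry : ℤ) - 2 ^ 25) = u + cz fx fy / 2 ^ 18 := by
    have e : (2 : ℂ) ^ 18 = ((2 ^ 18 : ℝ) : ℂ) := by push_cast; rfl
    rw [e]
    apply Complex.ext
    · simp only [ci, cz, hu, Complex.add_re, Complex.div_ofReal_re]
      push_cast
      ring
    · simp only [ci, cz, hu, Complex.add_im, Complex.div_ofReal_im]
      push_cast
      ring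
  have h4 : ci ((rx : ℤ) - 2 ^ 25) ((ry : ℤ) - 2 ^ 25) / 2 ^ 22 - w = u / 2 ^ 22 +
      (cz fx fy - (Kc : ℂ) * ((667681663043 : ℝ) : ℂ) * w) / 2 ^ 40 +
      ((Kc * 667681663043 / 2 ^ 40 - 1 : ℝ) : ℂ) * w := by
    rw [h3]
    push_cast
    ring
  have h5 : |Kc * 667681663043 / 2 ^ 40 - 1| ≤ 1e-12 := by
    unfold Kc
    rw [abs_le]
    constructor <;> norm_num
  rw [h4]
  refine (norm_add₃_le).trans ?_
  rw [norm_div, norm_div, norm_mul, hw, Complex.norm_real, Real.norm_eq_abs, norm_pow, norm_pow,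
    Complex.norm_two]
  have h6 : ‖u‖ / 2 ^ 22 ≤ 0.7072 / 2 ^ 22 := by gcongr
  have h7 : ‖cz fx fy - (Kc : ℂ) * ((667681663043 : ℝ) : ℂ) * w‖ / 2 ^ 40 ≤ 33000 / 2 ^ 40 := by
    gcongr
  have h8 : (0.7072 : ℝ) / 2 ^ 22 + 33000 / 2 ^ 40 + 1e-12 ≤ 2.05e-7 := by norm_num
  linarith

lemma size {fx fy : ℕ} {w : ℂ} (hw : ‖w‖ = 1)
    (h : ‖cz fx fy - (Kc : ℂ) * ((667681663043 : ℝ) : ℂ) * w‖ ≤ 33000) : ‖cz fx fy‖ ≤ 2 ^ 41 := by
  have h1 := norm_le_norm_add_norm_sub' (cz fx fy) ((Kc : ℂ) * ((667681663043 : ℝ) : ℂ) * w)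
  rw [norm_mul, norm_mul, hw, Complex.norm_real, Complex.norm_real, Real.norm_eq_abs,
    Real.norm_eq_abs] at h1
  have h2 : |Kc| * |(667681663043 : ℝ)| * 1 ≤ 2 ^ 40 := by
    unfold Kc
    rw [abs_of_pos (by norm_num), abs_of_pos (by norm_num)]
    norm_num
  have h3 : (2 : ℝ) ^ 40 + 33000 ≤ 2 ^ 41 := by norm_num
  linarith

end H96NH

open H96NH

theorem hOk (hr : StRot) : StH := by
  intro lm h1 h2
  obtain ⟨s1, -, s3, s4⟩ := sizes h1 h2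
  have hA' := hA_eq h1 h2
  have hm := mkH_eq lm
  unfold HOK
  generalize mkH lm = H at hm ⊢
  generalize hN lm / 4 = n at s1 hm
  rw [← s1] at hA' s3 hm ⊢
  generalize hO lm = h at hA' s4 ⊢
  have hf : ∀ j < 4 * n, (j ^ 2 + h * h - j * (h + h)) * 2 ^ (43 - lm) + 2 ^ (0 + 43) < 2 ^ 192 := by
    intro j hj
    have a1 := lane_lt (j := j) (by omega) s4
    have a2 : 2 ^ (43 - lm) ≤ 2 ^ 43 := Nat.pow_le_pow_right (by norm_num) (by omega)
    have a3 := Nat.mul_le_mul a1 a2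
    omega
  have hang := (angW_pw hf (by norm_num)).2 rfl
  rw [← hA'] at hang
  have hv := VN_real (4 * n) fun _ => 71036425840707
  rw [← ow_mul (by norm_num), sv_c] at hv
  obtain ⟨X, Y, e, fx, fy, rfl, rfl, hxy⟩ := hr _ 26 _ _ _ _ _ _ _ (by norm_num) (by norm_num) hv
    hang (fun p _ => by rw [Complex.norm_real, Real.norm_eq_abs, abs_of_pos] <;> norm_num)
  have hb : ∀ p < 4 * n, ‖cz (fx p) (fy p) - (Kc : ℂ) * ((667681663043 : ℝ) : ℂ) *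
      ee (((sig n p : ℝ) - h) ^ 2 / (2 * 2 ^ lm))‖ ≤ 33000 := by
    intro p hp
    have a1 := hxy p hp
    have a2 : (((sig n p ^ 2 + h * h - sig n p * (h + h)) * 2 ^ (43 - lm) : ℕ) : ℝ) / 2 ^ 44 =
        ((sig n p : ℝ) - h) ^ 2 / (2 * 2 ^ lm) := by
      have a3 : (2 : ℝ) ^ 44 = 2 ^ (43 - lm) * (2 * 2 ^ lm) := by
        rw [← pow_succ', ← pow_add]
        congr 1
        omega
      rw [Nat.cast_mul, sq_cast, a3]
      push_cast
      field_simp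
    beta_reduce at a1
    rw [a2, Complex.norm_real, Real.norm_eq_abs, abs_of_pos (by norm_num)] at a1
    refine a1.trans ?_
    norm_num
  have hs : ∀ p < 4 * n, ‖cz (fx p) (fy p)‖ ≤ 2 ^ 41 := fun p hp => size (norm_ee _) (hb p hp)
  have c1 : (2 : ℝ) ^ 41 + 2 ^ (18 - 1) < 2 ^ (18 + 26 - 1) := by norm_num
  obtain ⟨rx, ex, hx⟩ := rdN_pw (n := 4 * n) (s := 18) (w := 26) (f := fx) (by norm_num)
    (by norm_num) (by norm_num) fun p hp => by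
      have := (sv_le_norm (fx p) (fy p)).1.trans (hs p hp)
      linarith
  obtain ⟨ry, ey, hy⟩ := rdN_pw (n := 4 * n) (s := 18) (w := 26) (f := fy) (by norm_num)
    (by norm_num) (by norm_num) fun p hp => by
      have := (sv_le_norm (fx p) (fy p)).2.trans (hs p hp)
      linarith
  have hH := hm _ _ e
  rw [ex, ey, cmb_pw (fun p hp => (hx p hp).1.trans (by norm_num))
    (fun p hp => (hy p hp).1.trans (by norm_num)), ow_mul (by norm_num)] at hH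
  refine ⟨fun i => (rx (tau n i) : ℤ) - 2 ^ 25, fun i => (ry (tau n i) : ℤ) - 2 ^ 25, ?_,
    fun i hi => ?_⟩
  · have a1 : (pw 192 (4 * n) fun _ => 618970019642690137483116544) < 2 ^ (192 * (4 * n)) :=
      pw_lt fun _ _ => by norm_num
    rw [hH, Nat.cast_sub (a1.le.trans (Nat.le_add_left _ _)), Nat.cast_add, pw_cast, pw_cast,
      add_sub_right_comm, iw_sub, Nat.cast_pow, Nat.cast_ofNat]
    congr 1
    refine iw_congr fun j _ => ?_
    push_cast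
    ring
  · have a1 := hb _ (tau_lt hi)
    rw [sig_tau hi] at a1
    exact scal (norm_ee _) a1 (hx _ (tau_lt hi)).2 (hy _ (tau_lt hi)).2

theorem powOk : StPow := by
  intro a du h1 h2 h3
  have key : ∀ e ≤ 8, pre a (mkU e du) = pw 192 (2 ^ a) fun j => (2 * j + 1) ^ e := by
    intro e he
    have e1 : pre a (mkU e du) =
        cut (mapT 192 (fun j => (j + j + 1) ^ e) du 0) (Nat.shiftLeft 192 a) := rfl
    rw [e1, mapT_eq, Nat.shiftLeft_eq', Nat.shiftLeft_eq,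
      cut_pw _ (Nat.pow_le_pow_right (by norm_num) h2)]
    · exact pw_congr fun j _ => by rw [zero_add, two_mul]
    · intro j hj
      have a1 : 2 ^ a ≤ 2 ^ 16 := Nat.pow_le_pow_right (by norm_num) (h2.trans h3)
      have a2 : (0 + j + (0 + j) + 1) ^ e ≤ (2 ^ 17) ^ e := Nat.pow_le_pow_left (by omega) e
      have a3 : (2 ^ 17) ^ e ≤ (2 ^ 17) ^ 8 := Nat.pow_le_pow_right (by norm_num) he
      exact (a2.trans a3).trans_lt (by norm_num)
  refine ⟨key, fun j => (2 * j + 1) ^ 2 + (2 ^ a + 1) * (2 ^ a + 1) -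
    (2 * j + 1) * (2 ^ a + 1 + (2 ^ a + 1)), ?_, fun j _ => ?_⟩
  · have e1 : sqj a (mkU 1 du) (mkU 2 du) = pre a (mkU 2 du) +
        oW (p2 (a - 2)) * ((p2 a + 1) * (p2 a + 1)) - pre a (mkU 1 du) * (p2 a + 1 + (p2 a + 1)) :=
      rfl
    rw [e1, key 1 (by norm_num), key 2 (by norm_num), oW_eq, p2_eq, p2_eq, four_mul_p2 h1,
      ow_mul (by norm_num), pw_mul, pw_add]
    simp only [pow_one]
    exact pw_sub fun j _ => two_le _ _
  · have a1 : (2 : ℝ) ^ a = 2 * 2 ^ (a - 1) := by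
      rw [← pow_succ']
      congr 1
      omega
    rw [sq_cast]
    push_cast
    rw [a1]
    ring

end Pool.Agent.Lib.MP_5db4ad_nt.NE
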