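import Pool.Agent.Lib.MP_5db4ad_nt.H96NLaneB

/-!
The check for a block of high frequencies.
-/

namespace Pool.Agent.Lib.MP_5db4ad_nt.NE

open S2 Finset
open scoped Real

namespace Hi

lemma chk_eq {lm a k0 c e t thr : ℕ} {U : Us} {T : Tb} {ch : Ch} {f1 f2 : Bool}
    {dx dy q m rx ry v u x y : ℕ} (h1 : dual lm a k0 c e T.H U ch = T5.mk f1 dx dy q m)
    (h2 : blk lm a k0 U T dx dy = T5.mk f2 rx ry v u) (h3 : syn lm a T.H rx ry = T2.mk x y)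
    (h : hiChk lm a k0 c e t thr U T ch = true) :
    f1 = true ∧ f2 = true ∧ rng (oN (p2 (a - 2))) rx 68719476736 = true ∧
      rng (oN (p2 (a - 2))) ry 68719476736 = true ∧ oct (oN (p2 (lm - 2))) x y t = true ∧
      eDual lm a k0 ch.d q m ≤ 5e-4 ∧
      hiQ lm a k0 t (smN (oN (p2 (a - 2))) v) (smN (oN (p2 (a - 2))) u) (eDual lm a k0 ch.d q m) ≤
        thr / 2 ^ 40 := by
  unfold hiChk at h
  rw [h1] at h
  simp only [] at h
  rw [h2] at h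
  simp only [fz_eq] at h
  rw [h3] at h
  simp only [Bool.and_eq_true, decide_eq_true_eq] at h
  obtain ⟨⟨⟨a1, a2⟩, a3, a4⟩, a5, a6, a7⟩ := h
  exact ⟨a1, a2, a3, a4, a5, a6, a7⟩

lemma sm_le {a : ℕ} (ha : a ≤ 16) {f : ℕ → ℕ} (hf : ∀ p < 2 ^ a, f p < 2 ^ 47) :
    ∑ p ∈ range (2 ^ a), (f p : ℝ) / 2 ^ 36 ≤
      ((smN (ow 48 (2 ^ a)) (pw 48 (2 ^ a) f) : ℝ) + 2 ^ a) / 2 ^ 20 := by
  have h1 : fld (ow 48 (2 ^ a)) (pw 48 (2 ^ a) f) 16 31 = pw 48 (2 ^ a) fun p => f p / 2 ^ 16 := by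
    rw [fld_pw (by norm_num) (fun j hj => (hf j hj).trans (by norm_num)) (by norm_num)]
    refine pw_congr fun j hj => Nat.mod_eq_of_lt ?_
    have := hf j hj
    omega
  have h2 : ∑ p ∈ range (2 ^ a), f p / 2 ^ 16 < 2 ^ 48 - 1 := by
    have h3 : ∑ p ∈ range (2 ^ a), f p / 2 ^ 16 ≤ (range (2 ^ a)).card • 2 ^ 31 :=
      sum_le_card_nsmul _ _ _ fun p hp => by
        have := hf p (mem_range.1 hp)
        omega
    have h4 : 2 ^ a ≤ 2 ^ 16 := Nat.pow_le_pow_right (by norm_num) ha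
    rw [card_range, smul_eq_mul] at h3
    omega
  have h3 : smN (ow 48 (2 ^ a)) (pw 48 (2 ^ a) f) = ∑ p ∈ range (2 ^ a), f p / 2 ^ 16 := by
    change smW 48 (fld (ow 48 (2 ^ a)) (pw 48 (2 ^ a) f) 16 31) = _
    rw [h1, smW_pw (by norm_num) h2]
  rw [h3]
  calc ∑ p ∈ range (2 ^ a), (f p : ℝ) / 2 ^ 36
      ≤ ∑ p ∈ range (2 ^ a), (((f p / 2 ^ 16 : ℕ) : ℝ) + 1) / 2 ^ 20 := by
        refine sum_le_sum fun p _ => ?_
        have h4 : f p ≤ (f p / 2 ^ 16 + 1) * 2 ^ 16 := by omega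
        have h5 : (f p : ℝ) ≤ (((f p / 2 ^ 16 : ℕ) : ℝ) + 1) * 2 ^ 16 := by exact_mod_cast h4
        rw [div_le_div_iff₀ (by norm_num) (by norm_num)]
        linarith
    _ = _ := by
        rw [← sum_div, sum_add_distrib, Nat.cast_sum]
        simp

lemma om_le {a k0 : ℕ} (ha : 1 ≤ a) (hk : k0 + 2 ^ a ≤ 2 ^ 23) :
    omN k0 (2 ^ (a - 1)) ≤ (omQ a k0 : ℝ) := by
  have hp : 3.14159 < π := lt_trans (by norm_num) Real.pi_gt_d6
  have hl : Real.log 2 < 0.6931471808 := Real.log_two_lt_d9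
  have hl0 : 0 < Real.log 2 := Real.log_pos one_lt_two
  have hn : (0 : ℝ) < 2 * k0 + 1 := by positivity
  have h1 : (4 : ℝ) * ((2 ^ (a - 1) : ℕ) : ℝ) = 2 * 2 ^ a := by
    obtain ⟨b, rfl⟩ := Nat.exists_eq_add_of_le' ha
    push_cast [Nat.add_sub_cancel]
    ring
  have h2 : (2 * k0 + 1 : ℝ) / 2 ^ 24 ≤ 1 := by
    have h3 : 2 * k0 + 1 ≤ 2 ^ 24 := by
      have := Nat.one_le_two_pow (n := a)
      omega
    rw [div_le_one (by norm_num)]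
    exact_mod_cast h3
  have h3 : 1 / tk k0 ≤ 1 / (4.5 * (2 * k0 + 1)) := by
    refine one_div_le_one_div_of_le (by positivity) ?_
    rw [tk, le_div_iff₀ hl0]
    nlinarith
  have h4 : (0 : ℝ) ≤ (1 - (2 * k0 + 1) / 2 ^ 24) ^ 3 := pow_nonneg (sub_nonneg.2 h2) 3
  unfold omN omQ
  rw [h1]
  push_cast
  refine div_le_div₀ (by positivity) (by linarith) (by positivity) ?_
  exact mul_le_mul_of_nonneg_right hp.le hn.le

lemma eCh_nonneg (n m lm a : ℕ) : 0 ≤ eCh n m lm a := by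
  unfold eCh
  positivity

lemma eDual_nonneg (lm a k0 d q m : ℕ) : 0 ≤ eDual lm a k0 d q m := by
  have := eCh_nonneg (3 * 2 ^ d) (m * 2 ^ 16) lm a
  unfold eDual
  positivity

lemma den_le {lm a : ℕ} (ha : 1 ≤ a) (h : a + 2 ≤ lm) :
    0 < 1 - (1.2338 : ℝ) * (2 ^ a / 2 ^ lm) ^ 2 ∧ 1 - (1.2338 : ℝ) * (2 ^ a / 2 ^ lm) ^ 2 ≤
      1 - (π * ((2 ^ (a - 1) : ℕ) : ℝ) / ((2 ^ lm : ℕ) : ℝ)) ^ 2 / 2 := by
  obtain ⟨b, rfl⟩ := Nat.exists_eq_add_of_le' ha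
  have hp : π < 3.141593 := Real.pi_lt_d6
  have hp0 := Real.pi_pos
  have h1 : (2 : ℝ) ^ (b + 1) / 2 ^ lm ≤ 1 / 4 := by
    rw [div_le_div_iff₀ (by positivity) (by norm_num)]
    have : (2 : ℝ) ^ (b + 1 + 2) ≤ 2 ^ lm := pow_le_pow_right₀ one_le_two h
    rw [pow_add] at this
    linarith
  have h0 : (0 : ℝ) ≤ 2 ^ (b + 1) / 2 ^ lm := by positivity
  have h2 : π * ((2 ^ (b + 1 - 1) : ℕ) : ℝ) / ((2 ^ lm : ℕ) : ℝ) =
      π / 2 * (2 ^ (b + 1) / 2 ^ lm) := by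
    push_cast [Nat.add_sub_cancel]
    ring
  rw [h2]
  generalize (2 : ℝ) ^ (b + 1) / 2 ^ lm = r at *
  have h3 : π ^ 2 ≤ 9.8704 := by nlinarith
  have h4 : 0 ≤ r ^ 2 := sq_nonneg r
  constructor <;> nlinarith

lemma PP_le (H : ℕ) (R c : ℕ → ℂ) (θ : ℝ) :
    ‖PP H R θ‖ ≤ ‖PP H c θ‖ + ∑ j ∈ range (2 * H), ‖c j - R j‖ := by
  have h : PP H R θ = PP H c θ - ∑ j ∈ range (2 * H), (c j - R j) * ee (((j : ℝ) - H) * θ) := by
    unfold PP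
    rw [← sum_sub_distrib]
    exact sum_congr rfl fun j _ => by ring
  rw [h]
  refine (norm_sub_le _ _).trans (add_le_add le_rfl ((norm_sum_le _ _).trans (le_of_eq ?_)))
  exact sum_congr rfl fun j _ => by rw [norm_mul, norm_ee, mul_one]

lemma one_le {c z R : ℂ} {α ε η : ℝ} (h1 : ‖c - z * ee (-α)‖ ≤ ε) (h2 : ‖z - ee α * R‖ ≤ η) :
    ‖c - R‖ ≤ ε + η := by
  have h3 : ee α * ee (-α) = 1 := by
    rw [← ee_add, add_neg_cancel]
    simpa using ee_int 0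
  have h4 : c - R = c - z * ee (-α) + (z - ee α * R) * ee (-α) := by
    linear_combination R * h3
  rw [h4]
  refine (norm_add_le _ _).trans (add_le_add h1 ?_)
  rwa [norm_mul, norm_ee, mul_one]

end Hi

open Hi in
theorem hiOk (hD : StDual) (hB : StBlk) (hS : StSyn) (hG : StGrid) (hK : StBlock) : StHi := by
  intro hrun lm a k0 du c e d t thr U T ch hP hU hT hc hk0 hak hd2 hd12 hsort hch ht hchk
  have hH : T.H = mkH lm := by
    obtain ⟨cm, c1, c2, c3, cl, h, -⟩ := hT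
    rw [h]
    rfl
  have hd : ch.d = d := by
    rw [hch]
    rfl
  obtain ⟨f1, dx, dy, q, m, e1', hf1⟩ := hD lm a k0 du c e d U ch hP hU hc hk0 hak hd2 hd12 hsort hch
  obtain ⟨f2, rx, ry, v, u, e2'⟩ : ∃ f2 rx ry v u, blk lm a k0 U T dx dy = T5.mk f2 rx ry v u := by
    cases blk lm a k0 U T dx dy with
    | mk f2 rx ry v u => exact ⟨f2, rx, ry, v, u, rfl⟩
  obtain ⟨x, y, e3⟩ : ∃ x y, syn lm a T.H rx ry = T2.mk x y := by
    cases syn lm a T.H rx ry with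
    | mk x y => exact ⟨x, y, rfl⟩
  obtain ⟨b1, b2, b3, b4, b5, b6, b7⟩ := chk_eq (by rw [hH]; exact e1') e2' e3 hchk
  rw [hd] at b6 b7
  rw [hH] at e3
  obtain ⟨f2', rx', ry', v', u', e4, hf2⟩ := hB hrun lm a k0 du dx dy U T _ hP hU hT b6 (hf1 b1)
  rw [e2'] at e4
  obtain ⟨rfl, rfl, rfl, rfl, rfl⟩ := T5.mk.inj e4
  obtain ⟨fx, fy, fv, fu, rfl, rfl, rfl, rfl, hf⟩ := hf2 b2
  obtain ⟨p1, p2', p3, p4, p5, p6, p7⟩ := hP
  have ho : oN (p2 (a - 2)) = ow 48 (2 ^ a) := by rw [oN_eq, p2_eq, four_mul_p2 p3]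
  rw [ho] at b3 b4 b7
  have r1 := rng_pw le_rfl (fun j hj => (hf j hj).1.le) (by norm_num) b3
  have r2 := rng_pw le_rfl (fun j hj => (hf j hj).2.1.le) (by norm_num) b4
  obtain ⟨X, Y, e5, hoct⟩ := hS lm a t fx fy p1 p2' p3 p4 ht fun p hp =>
    ⟨(r1 p hp).trans (by norm_num), (r2 p hp).trans (by norm_num)⟩
  rw [e3] at e5
  obtain ⟨rfl, rfl⟩ := T2.mk.inj e5
  obtain ⟨co, hc1, hc2⟩ := hoct b5
  have ha1 : 1 ≤ a := by omega
  have h2H : 2 * 2 ^ (a - 1) = 2 ^ a := by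
    obtain ⟨b, rfl⟩ := Nat.exists_eq_add_of_le' ha1
    rw [Nat.add_sub_cancel, pow_succ, mul_comm]
  have h4H : 4 * 2 ^ (a - 1) ≤ 2 ^ lm := by
    have : 2 ^ (a + 2) ≤ 2 ^ lm := Nat.pow_le_pow_right (by norm_num) p4
    rw [pow_add] at this
    omega
  have g1 := hG (2 ^ (a - 1)) (2 ^ lm) co _ Nat.one_le_two_pow h4H
    fun i hi => hc2 i (by exact_mod_cast hi)
  obtain ⟨d1, d2⟩ := den_le ha1 p4
  have s1 := sm_le (p5.trans p6) fun p hp => (hf p hp).2.2.1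
  have s2 := sm_le (p5.trans p6) fun p hp => (hf p hp).2.2.2.1
  have n1 : (0 : ℝ) ≤ (e1 (eL lm a) : ℚ) := by
    have := eCh_nonneg 512 mL lm a
    have h : 0 ≤ e1 (eL lm a) := by
      unfold e1 eL
      positivity
    exact_mod_cast h
  have n2 : (0 : ℝ) ≤ (e2 (eZ lm a (eDual lm a k0 d q m)) : ℚ) := by
    have := eCh_nonneg 8192 mM lm a
    have := eDual_nonneg lm a k0 d q m
    have h : 0 ≤ e2 (eZ lm a (eDual lm a k0 d q m)) := by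
      unfold e2 eZ
      positivity
    exact_mod_cast h
  have b8 : ((hiQ lm a k0 t (smN (ow 48 (2 ^ a)) (pw 48 (2 ^ a) fv))
      (smN (ow 48 (2 ^ a)) (pw 48 (2 ^ a) fu)) (eDual lm a k0 d q m) : ℚ) : ℝ) ≤
      ((thr / 2 ^ 40 : ℚ) : ℝ) := Rat.cast_le.2 b7
  unfold hiQ at b8
  push_cast at b8
  generalize smN (ow 48 (2 ^ a)) (pw 48 (2 ^ a) fv) = t1 at s1 b8
  generalize smN (ow 48 (2 ^ a)) (pw 48 (2 ^ a) fu) = t2 at s2 b8
  generalize ((e0 (eA lm a) : ℚ) : ℝ) = c0 at hf b8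
  generalize ((e1 (eL lm a) : ℚ) : ℝ) = c1 at hf b8 n1
  generalize ((e2 (eZ lm a (eDual lm a k0 d q m)) : ℚ) : ℝ) = c2 at hf b8 n2
  have hsum : ∑ j ∈ range (2 * 2 ^ (a - 1)), ‖co j - (Gf (sk (k0 + j)) - As (k0 + j))‖ ≤
      2 ^ a * (c0 + 4.3e-8) + c1 * (t1 + 2 ^ a) / 2 ^ 20 + c2 * (t2 + 2 ^ a) / 2 ^ 20 := by
    rw [h2H, ← four_mul_p2 p3, ← sum_sig (2 ^ (a - 2))
      fun j => ‖co j - (Gf (sk (k0 + j)) - As (k0 + j))‖, four_mul_p2 p3]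
    calc _ ≤ ∑ p ∈ range (2 ^ a), (4.3e-8 + (c0 + c1 * (fv p / 2 ^ 36) + c2 * (fu p / 2 ^ 36))) :=
          sum_le_sum fun p hp => one_le (hc1 p (mem_range.1 hp)) (hf p (mem_range.1 hp)).2.2.2.2
      _ = 2 ^ a * (c0 + 4.3e-8) + c1 * ∑ p ∈ range (2 ^ a), (fv p : ℝ) / 2 ^ 36 +
            c2 * ∑ p ∈ range (2 ^ a), (fu p : ℝ) / 2 ^ 36 := by
          rw [sum_add_distrib, sum_add_distrib, sum_add_distrib, ← mul_sum, ← mul_sum, sum_const,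
            sum_const, card_range, nsmul_eq_mul, nsmul_eq_mul]
          push_cast
          ring
      _ ≤ _ := by
          rw [mul_div_assoc, mul_div_assoc]
          exact add_le_add (add_le_add le_rfl (mul_le_mul_of_nonneg_left s1 n1))
            (mul_le_mul_of_nonneg_left s2 n2)
  have hall : ∀ θ, ‖PP (2 ^ (a - 1)) (fun j => Gf (sk (k0 + j)) - As (k0 + j)) θ‖ ≤
      (13 * t / 2 ^ 26 + 2 ^ a * 3e-7 + 1e-6) / (1 - 1.2338 * (2 ^ a / 2 ^ lm) ^ 2) +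
      2 ^ a * (c0 + 4.3e-8) + c1 * (t1 + 2 ^ a) / 2 ^ 20 + c2 * (t2 + 2 ^ a) / 2 ^ 20 := by
    intro θ
    have h1 := PP_le (2 ^ (a - 1)) (fun j => Gf (sk (k0 + j)) - As (k0 + j)) co θ
    have h2 := (g1 θ).trans (div_le_div_of_nonneg_left (by positivity) d1 d2)
    linarith
  intro w
  have h1 := hK k0 (2 ^ (a - 1)) _ _ Nat.one_le_two_pow (by rw [h2H]; exact p7) hall w
  have h2 := (norm_nonneg _).trans (hall 0)
  rw [h2H] at h1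
  rw [sum_Ico_eq_sum_range, Nat.add_sub_cancel_left]
  refine h1.trans (le_trans ?_ b8)
  exact mul_le_mul_of_nonneg_right (mul_le_mul_of_nonneg_left (om_le ha1 p7) zero_le_two) h2

end Pool.Agent.Lib.MP_5db4ad_nt.NE
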