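import Pool.Agent.Lib.MP_5db4ad_nt.H96NSt

/-!
Interpolation of the weights of the dual sum at three points.
-/

namespace Pool.Agent.Lib.MP_5db4ad_nt.NE

open S2

namespace H96NInt

theorem rolle1 {f g : ℝ → ℝ} {a d u v : ℝ} (hau : a ≤ u) (huv : u < v) (hvd : v ≤ d)
    (h : ∀ x ∈ Set.Icc a d, HasDerivAt f (g x) x) (zu : f u = 0) (zv : f v = 0) :
    ∃ x, u < x ∧ x < v ∧ g x = 0 := by
  have hc : ContinuousOn f (Set.Icc u v) := fun x hx =>
    (h x ⟨hau.trans hx.1, hx.2.trans hvd⟩).continuousAt.continuousWithinAt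
  obtain ⟨x, hx, hg⟩ := exists_hasDerivAt_eq_zero huv hc (zu.trans zv.symm)
    (fun x hx => h x ⟨hau.trans hx.1.le, hx.2.le.trans hvd⟩)
  exact ⟨x, hx.1, hx.2, hg⟩

theorem rolle3 {f0 f1 f2 f3 : ℝ → ℝ} {a b c d : ℝ} (hab : a < b) (hbc : b < c) (hcd : c < d)
    (h0 : ∀ x ∈ Set.Icc a d, HasDerivAt f0 (f1 x) x)
    (h1 : ∀ x ∈ Set.Icc a d, HasDerivAt f1 (f2 x) x)
    (h2 : ∀ x ∈ Set.Icc a d, HasDerivAt f2 (f3 x) x)
    (za : f0 a = 0) (zb : f0 b = 0) (zc : f0 c = 0) (zd : f0 d = 0) :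
    ∃ x ∈ Set.Icc a d, f3 x = 0 := by
  obtain ⟨p, p1, p2, hp⟩ := rolle1 le_rfl hab (by linarith) h0 za zb
  obtain ⟨q, q1, q2, hq⟩ := rolle1 hab.le hbc hcd.le h0 zb zc
  obtain ⟨r, r1, r2, hr⟩ := rolle1 (by linarith) hcd le_rfl h0 zc zd
  obtain ⟨s, s1, s2, hs⟩ := rolle1 p1.le (by linarith : p < q) (by linarith) h1 hp hq
  obtain ⟨t, t1, t2, ht⟩ := rolle1 (by linarith) (by linarith : q < r) r2.le h1 hq hr
  obtain ⟨x, x1, x2, hx⟩ := rolle1 (by linarith) (by linarith : s < t) (by linarith) h2 hs ht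
  exact ⟨x, ⟨by linarith, by linarith⟩, hx⟩

theorem cub_le {y : ℝ} (hy : |y| ≤ 1) : |y * (y ^ 2 - 1)| ≤ 0.385 := by
  have key : ∀ u : ℝ, 0 ≤ u → u ≤ 1 → u * (1 - u ^ 2) ≤ 0.385 := by
    intro u h0 h1
    have h := mul_nonneg (sq_nonneg (u - 0.5773)) (by linarith : (0 : ℝ) ≤ u + 1.1546)
    nlinarith
  have h2 : y ^ 2 ≤ 1 := by
    have := abs_le.mp hy
    nlinarith
  rw [abs_mul, abs_of_nonpos (by linarith : y ^ 2 - 1 ≤ 0), neg_sub, ← sq_abs y]
  exact key _ (abs_nonneg y) hy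

theorem interp3 {g0 g1 g2 g3 : ℝ → ℝ} {M y : ℝ}
    (h0 : ∀ x ∈ Set.Icc (-1 : ℝ) 1, HasDerivAt g0 (g1 x) x)
    (h1 : ∀ x ∈ Set.Icc (-1 : ℝ) 1, HasDerivAt g1 (g2 x) x)
    (h2 : ∀ x ∈ Set.Icc (-1 : ℝ) 1, HasDerivAt g2 (g3 x) x)
    (hM : ∀ x ∈ Set.Icc (-1 : ℝ) 1, |g3 x| ≤ M) (hy : |y| ≤ 1) :
    |g0 y - (g0 0 + y * ((g0 1 - g0 (-1)) / 2 + y * ((g0 1 - 2 * g0 0 + g0 (-1)) / 2)))| ≤
      0.385 / 6 * M := by
  have hM0 : 0 ≤ M := (abs_nonneg _).trans (hM 0 ⟨by norm_num, by norm_num⟩)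
  obtain ⟨hy1, hy2⟩ := abs_le.mp hy
  by_cases hz : y * (y ^ 2 - 1) = 0
  · have h3 : y = 0 ∨ y = 1 ∨ y = -1 := by
      rcases mul_eq_zero.mp hz with h | h
      · exact Or.inl h
      · have h' : (y - 1) * (y + 1) = 0 := by linear_combination h
        rcases mul_eq_zero.mp h' with h | h
        · exact Or.inr (Or.inl (by linarith))
        · exact Or.inr (Or.inr (by linarith))
    have h4 : g0 y - (g0 0 + y * ((g0 1 - g0 (-1)) / 2 +
        y * ((g0 1 - 2 * g0 0 + g0 (-1)) / 2))) = 0 := by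
      rcases h3 with rfl | rfl | rfl <;> ring
    rw [h4, abs_zero]
    positivity
  · set A := (g0 1 - g0 (-1)) / 2 with hA
    set B := (g0 1 - 2 * g0 0 + g0 (-1)) / 2 with hB
    set K := (g0 y - (g0 0 + y * (A + y * B))) / (y * (y ^ 2 - 1)) with hK
    have hKy : g0 y - (g0 0 + y * (A + y * B)) = K * (y * (y ^ 2 - 1)) := by
      rw [hK, div_mul_cancel₀ _ hz]
    have d0 : ∀ x ∈ Set.Icc (-1 : ℝ) 1, HasDerivAt
        (fun x => g0 x - (g0 0 + A * x + B * x ^ 2 + K * (x ^ 3 - x)))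
        (g1 x - (A + 2 * B * x + K * (3 * x ^ 2 - 1))) x := by
      intro x hx
      have e := (h0 x hx).sub ((((hasDerivAt_const x (g0 0)).add
        ((hasDerivAt_id x).const_mul A)).add ((hasDerivAt_pow 2 x).const_mul B)).add
        (((hasDerivAt_pow 3 x).sub (hasDerivAt_id x)).const_mul K))
      refine (e.congr_deriv ?_).congr_of_eventuallyEq (Filter.Eventually.of_forall fun t => ?_)
      · simp; ring
      · simp
    have d1 : ∀ x ∈ Set.Icc (-1 : ℝ) 1, HasDerivAt
        (fun x => g1 x - (A + 2 * B * x + K * (3 * x ^ 2 - 1)))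
        (g2 x - (2 * B + K * (6 * x))) x := by
      intro x hx
      have e := (h1 x hx).sub (((hasDerivAt_const x A).add
        ((hasDerivAt_id x).const_mul (2 * B))).add
        ((((hasDerivAt_pow 2 x).const_mul 3).sub (hasDerivAt_const x 1)).const_mul K))
      refine (e.congr_deriv ?_).congr_of_eventuallyEq (Filter.Eventually.of_forall fun t => ?_)
      · push_cast; ring
      · simp
    have d2 : ∀ x ∈ Set.Icc (-1 : ℝ) 1, HasDerivAt
        (fun x => g2 x - (2 * B + K * (6 * x))) (g3 x - 6 * K) x := by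
      intro x hx
      have e := (h2 x hx).sub ((hasDerivAt_const x (2 * B)).add
        (((hasDerivAt_id x).const_mul 6).const_mul K))
      refine (e.congr_deriv ?_).congr_of_eventuallyEq (Filter.Eventually.of_forall fun t => ?_)
      · simp; ring
      · simp
    have za : g0 (-1) - (g0 0 + A * (-1) + B * (-1) ^ 2 + K * ((-1) ^ 3 - (-1))) = 0 := by
      rw [hA, hB]; ring
    have zb : g0 0 - (g0 0 + A * 0 + B * 0 ^ 2 + K * (0 ^ 3 - 0)) = 0 := by ring
    have zc : g0 1 - (g0 0 + A * 1 + B * 1 ^ 2 + K * (1 ^ 3 - 1)) = 0 := by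
      rw [hA, hB]; ring
    have zy : g0 y - (g0 0 + A * y + B * y ^ 2 + K * (y ^ 3 - y)) = 0 := by
      linear_combination hKy
    have n0 : y ≠ 0 := fun h => hz (by rw [h]; ring)
    have n1 : y ≠ 1 := fun h => hz (by rw [h]; ring)
    have n2 : y ≠ -1 := fun h => hz (by rw [h]; ring)
    have hx : ∃ x ∈ Set.Icc (-1 : ℝ) 1, g3 x - 6 * K = 0 := by
      rcases lt_or_gt_of_ne n0 with h | h
      · exact rolle3 (lt_of_le_of_ne hy1 n2.symm) h one_pos d0 d1 d2 za zy zb zc
      · exact rolle3 (by norm_num) h (lt_of_le_of_ne hy2 n1) d0 d1 d2 za zb zy zc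
    obtain ⟨x, hx, hx0⟩ := hx
    have hK6 : |K| ≤ M / 6 := by
      have : K = g3 x / 6 := by linarith
      rw [this, abs_div, abs_of_pos (by norm_num : (0 : ℝ) < 6)]
      have := hM x hx
      linarith
    rw [hKy, abs_mul]
    calc |K| * |y * (y ^ 2 - 1)| ≤ M / 6 * 0.385 :=
          mul_le_mul hK6 (cub_le hy) (abs_nonneg _) (by positivity)
      _ = 0.385 / 6 * M := by ring

/-- the cut-off as a function of the frequency -/
noncomputable def V (a t : ℝ) : ℝ := 1 / (1 + (a / t) ^ 16)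

theorem V_pos (a t : ℝ) : 0 < V a t := by unfold V; positivity

theorem V_le_one (a t : ℝ) : V a t ≤ 1 := by
  unfold V
  rw [div_le_one (by positivity)]
  have : 0 ≤ (a / t) ^ 16 := by positivity
  linarith

theorem V_mono {a s t : ℝ} (ha : 0 ≤ a) (hs : 0 < s) (hst : s ≤ t) : V a s ≤ V a t := by
  unfold V
  have ht : 0 < t := hs.trans_le hst
  apply one_div_le_one_div_of_le (by positivity)
  have h : a / t ≤ a / s := div_le_div_of_nonneg_left ha hs hst
  have := pow_le_pow_left₀ (by positivity) h 16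
  linarith

theorem V_deriv (a : ℝ) {t : ℝ} (ht : 0 < t) :
    HasDerivAt (V a) (16 * V a t * (1 - V a t) / t) t := by
  have h1 : HasDerivAt (fun t : ℝ => a / t) (-(a / t) / t) t := by
    have e := (hasDerivAt_inv ht.ne').const_mul a
    refine (e.congr_deriv ?_).congr_of_eventuallyEq (Filter.Eventually.of_forall fun s => ?_)
    · field_simp
    · simp [div_eq_mul_inv]
  have hne : 1 + (a / t) ^ 16 ≠ 0 := by positivity
  have e := ((h1.pow 16).const_add 1).inv hne
  refine (e.congr_deriv ?_).congr_of_eventuallyEq (Filter.Eventually.of_forall fun s => ?_)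
  · unfold V
    simp only [Pi.pow_apply]
    generalize a / t = u at hne ⊢
    field_simp
    norm_num
    ring
  · simp [V]

theorem s_deriv {l t : ℝ} (hl : 0 < l) (ht : 0 < t) :
    HasDerivAt (fun t : ℝ => √(l / t)) (-√(l / t) / (2 * t)) t := by
  have h1 : HasDerivAt (fun t : ℝ => l / t) (-(l / t) / t) t := by
    have e := (hasDerivAt_inv ht.ne').const_mul l
    refine (e.congr_deriv ?_).congr_of_eventuallyEq (Filter.Eventually.of_forall fun s => ?_)
    · field_simp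
    · simp [div_eq_mul_inv]
  have hp : 0 < l / t := by positivity
  have e := h1.sqrt hp.ne'
  refine e.congr_deriv ?_
  have hs : 0 < √(l / t) := Real.sqrt_pos.mpr hp
  have h2 : l / t = √(l / t) * √(l / t) := (Real.mul_self_sqrt hp.le).symm
  generalize √(l / t) = s at hs h2 ⊢
  rw [h2]
  field_simp

theorem step {l a t : ℝ} (hl : 0 < l) (ht : 0 < t) (n : ℕ) {P P' : ℝ → ℝ}
    (hP : ∀ v, HasDerivAt P (P' v) v) :
    HasDerivAt (fun t : ℝ => √(l / t) * P (V a t) / t ^ n)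
      (√(l / t) * (16 * V a t * (1 - V a t) * P' (V a t) - (n + 1 / 2) * P (V a t)) /
        t ^ (n + 1)) t := by
  have h1 := (hP (V a t)).comp t (V_deriv a ht)
  have e := ((s_deriv hl ht).mul h1).div (hasDerivAt_pow n t) (pow_ne_zero n ht.ne')
  refine (e.congr_deriv ?_).congr_of_eventuallyEq (Filter.Eventually.of_forall fun s => ?_)
  · simp only [Pi.mul_apply, Function.comp_apply]
    rcases n with _ | n
    · simp
      field_simp
      ring
    · simp only [Nat.add_sub_cancel]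
      push_cast
      field_simp
      ring
  · simp

/-- the polynomials that describe the derivatives -/
noncomputable def P1 (v : ℝ) : ℝ := 31 / 2 * v - 16 * v ^ 2
noncomputable def P2 (v : ℝ) : ℝ := 899 / 4 * v - 736 * v ^ 2 + 512 * v ^ 3
noncomputable def P3 (v : ℝ) : ℝ :=
  v * (1 - v) * (4096 * (1 - 6 * v + 6 * v ^ 2) - 1152 * (1 - 2 * v) + 92) - 15 / 8 * v

theorem P3_le {v : ℝ} (h0 : 0 ≤ v) (h1 : v ≤ 1) : |P3 v| ≤ v * (5340 * (1 - v) + 1.875) := by
  have hw : 0 ≤ v * (1 - v) := mul_nonneg h0 (by linarith)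
  have hq : v * (1 - v) ≤ 1 / 4 := by nlinarith [sq_nonneg (v - 1 / 2)]
  have u1 : 4096 * (1 - 6 * v + 6 * v ^ 2) - 1152 * (1 - 2 * v) + 92 ≤ 5340 := by nlinarith
  have u2 : -5340 ≤ 4096 * (1 - 6 * v + 6 * v ^ 2) - 1152 * (1 - 2 * v) + 92 := by nlinarith
  have m1 := mul_le_mul_of_nonneg_left u1 hw
  have m2 := mul_le_mul_of_nonneg_left u2 hw
  unfold P3
  rw [abs_le]
  constructor <;> nlinarith

theorem d0 {l a t : ℝ} (hl : 0 < l) (ht : 0 < t) :
    HasDerivAt (fun t : ℝ => √(l / t) * V a t) (√(l / t) * P1 (V a t) / t ^ 1) t := by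
  have e := step (a := a) hl ht 0 (P := fun v => v) (P' := fun _ => 1) fun v => hasDerivAt_id v
  refine (e.congr_deriv ?_).congr_of_eventuallyEq (Filter.Eventually.of_forall fun s => ?_)
  · unfold P1; push_cast; ring
  · simp

theorem d1 {l a t : ℝ} (hl : 0 < l) (ht : 0 < t) :
    HasDerivAt (fun t : ℝ => √(l / t) * P1 (V a t) / t ^ 1) (√(l / t) * P2 (V a t) / t ^ 2) t := by
  have hP : ∀ v, HasDerivAt P1 (31 / 2 - 32 * v) v := by
    intro v
    have e := ((hasDerivAt_id v).const_mul (31 / 2)).sub ((hasDerivAt_pow 2 v).const_mul 16)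
    refine (e.congr_deriv ?_).congr_of_eventuallyEq (Filter.Eventually.of_forall fun s => ?_)
    · simp; ring
    · simp [P1]
  refine (step (a := a) hl ht 1 hP).congr_deriv ?_
  unfold P1 P2; push_cast; ring

theorem d2 {l a t : ℝ} (hl : 0 < l) (ht : 0 < t) :
    HasDerivAt (fun t : ℝ => √(l / t) * P2 (V a t) / t ^ 2) (√(l / t) * P3 (V a t) / t ^ 3) t := by
  have hP : ∀ v, HasDerivAt P2 (899 / 4 - 1472 * v + 1536 * v ^ 2) v := by
    intro v
    have e := (((hasDerivAt_id v).const_mul (899 / 4)).sub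
      ((hasDerivAt_pow 2 v).const_mul 736)).add ((hasDerivAt_pow 3 v).const_mul 512)
    refine (e.congr_deriv ?_).congr_of_eventuallyEq (Filter.Eventually.of_forall fun s => ?_)
    · simp; ring
    · simp [P2]
  refine (step (a := a) hl ht 2 hP).congr_deriv ?_
  unfold P2 P3; push_cast; ring

theorem scale {F G : ℝ → ℝ} {k h c x : ℝ} (hF : HasDerivAt F (G (k + h + x * h)) (k + h + x * h)) :
    HasDerivAt (fun y => c * F (k + h + y * h)) (c * h * G (k + h + x * h)) x := by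
  have h1 : HasDerivAt (fun y : ℝ => k + h + y * h) h x := by
    simpa using ((hasDerivAt_id x).mul_const h).const_add (k + h)
  have e := (hF.comp x h1).const_mul c
  refine (e.congr_deriv ?_).congr_of_eventuallyEq (Filter.Eventually.of_forall fun s => ?_)
  · ring
  · simp

theorem main {l a k h y : ℝ} (hl : 0 < l) (ha : 0 ≤ a) (hk : 0 < k) (hh : 0 < h) (hy : |y| ≤ 1)
    {f : ℝ → ℝ} (hf : ∀ t, f t = 3 / 4 * (√(l / t) * V a t)) :
    |f (k + h + y * h) - (f (k + h) + y * ((f (k + 2 * h) - f k) / 2 +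
      y * ((f (k + 2 * h) - 2 * f (k + h) + f k) / 2)))| ≤
    0.385 / 6 * (3 / 4 * h * h * h * (√(l / k) * (V a (k + 2 * h) *
      (5340 * (1 - V a k) + 1.875)) / k ^ 3)) := by
  have rg : ∀ x ∈ Set.Icc (-1 : ℝ) 1, k ≤ k + h + x * h ∧ k + h + x * h ≤ k + 2 * h := by
    intro x hx
    constructor <;> nlinarith [hx.1, hx.2]
  have ps : ∀ x ∈ Set.Icc (-1 : ℝ) 1, 0 < k + h + x * h := fun x hx => hk.trans_le (rg x hx).1
  have key := interp3 (y := y)
    (g0 := fun y => 3 / 4 * (fun t => √(l / t) * V a t) (k + h + y * h))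
    (g1 := fun y => 3 / 4 * h * (fun t => √(l / t) * P1 (V a t) / t ^ 1) (k + h + y * h))
    (g2 := fun y => 3 / 4 * h * h * (fun t => √(l / t) * P2 (V a t) / t ^ 2) (k + h + y * h))
    (g3 := fun y => 3 / 4 * h * h * h * (fun t => √(l / t) * P3 (V a t) / t ^ 3) (k + h + y * h))
    (M := 3 / 4 * h * h * h * (√(l / k) * (V a (k + 2 * h) *
      (5340 * (1 - V a k) + 1.875)) / k ^ 3))
    (fun x hx => scale (G := fun t => √(l / t) * P1 (V a t) / t ^ 1) (d0 hl (ps x hx)))
    (fun x hx => scale (G := fun t => √(l / t) * P2 (V a t) / t ^ 2) (d1 hl (ps x hx)))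
    (fun x hx => scale (G := fun t => √(l / t) * P3 (V a t) / t ^ 3) (d2 hl (ps x hx)))
    (by
      intro x hx
      obtain ⟨r1, r2⟩ := rg x hx
      have hp := ps x hx
      simp only
      generalize k + h + x * h = t at r1 r2 hp
      rw [abs_mul, abs_of_pos (by positivity : (0 : ℝ) < 3 / 4 * h * h * h)]
      apply mul_le_mul_of_nonneg_left _ (by positivity)
      rw [abs_div, abs_mul, abs_of_nonneg (Real.sqrt_nonneg _), abs_of_pos (pow_pos hp 3)]
      have b1 : √(l / t) ≤ √(l / k) := Real.sqrt_le_sqrt (div_le_div_of_nonneg_left hl.le hk r1)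
      have b2 := P3_le (V_pos a t).le (V_le_one a t)
      have b3 := V_mono ha hp r2
      have b4 := V_mono ha hk r1
      have b5 := V_le_one a t
      have b6 : V a t * (5340 * (1 - V a t) + 1.875) ≤
          V a (k + 2 * h) * (5340 * (1 - V a k) + 1.875) :=
        mul_le_mul b3 (by linarith) (by linarith) (V_pos _ _).le
      have b7 : √(l / t) * |P3 (V a t)| ≤
          √(l / k) * (V a (k + 2 * h) * (5340 * (1 - V a k) + 1.875)) :=
        mul_le_mul b1 (b2.trans b6) (abs_nonneg _) (Real.sqrt_nonneg _)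
      exact div_le_div₀ ((mul_nonneg (Real.sqrt_nonneg _) (abs_nonneg _)).trans b7) b7
        (pow_pos hk 3) (pow_le_pow_left₀ hk.le r1 3)) hy
  have e0 : k + h + 0 * h = k + h := by ring
  have e1 : k + h + 1 * h = k + 2 * h := by ring
  have e2 : k + h + -1 * h = k := by ring
  simp only [e0, e1, e2] at key
  simpa only [hf] using key

theorem V16_eq (m : ℕ) (t : ℝ) :
    V16 (m / (2 * t / (Real.log 2 * 9000))) = V (m * (Real.log 2 * 9000) / 2) t := by
  unfold V16 V
  rw [div_div_eq_mul_div, div_div]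

end H96NInt

open H96NInt in
theorem intOk : StInt := by
  intro m k B y _ hk hB hy
  have hl : 0 < Real.log 2 := Real.log_pos (by norm_num)
  have key := main (l := Real.log 2) (a := m * (Real.log 2 * 9000) / 2) (k := k) (h := B / 2)
    hl (by positivity) hk (by positivity) hy (f := fD m)
    (fun t => by unfold fD; rw [V16_eq]; ring)
  have e : k + 2 * (B / 2) = k + B := by ring
  rw [e] at key
  rw [V16_eq, V16_eq]
  refine key.trans (le_of_eq ?_)
  field_simp

end Pool.Agent.Lib.MP_5db4ad_nt.NE
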