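import Pool.Agent.Lib.MP_5db4ad_nt.H96NSt

/-!
Lagrange interpolation at fourteen equally spaced nodes: the sum of the weights and the remainder.
-/

namespace Pool.Agent.Lib.MP_5db4ad_nt.NE

open S2 Finset
open scoped Real

namespace H96NLag

/-- one step of the theorem of Rolle for a finite set of zeros -/
theorem rolle_step (a b : ℝ) (f f' : ℝ → ℝ) (hf : ∀ t ∈ Set.Icc a b, HasDerivAt f (f' t) t)
    (S : Finset ℝ) (hS : ∀ t ∈ S, t ∈ Set.Icc a b ∧ f t = 0) :
    ∃ T : Finset ℝ, S.card ≤ T.card + 1 ∧ ∀ t ∈ T, t ∈ Set.Icc a b ∧ f' t = 0 := by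
  classical
  have key : ∀ x y : ℝ, ∃ z : ℝ, x ∈ S → y ∈ S → x < y → x < z ∧ z < y ∧ f' z = 0 := by
    intro x y
    by_cases h : x ∈ S ∧ y ∈ S ∧ x < y
    · obtain ⟨hx, hy, hxy⟩ := h
      have hsub : Set.Icc x y ⊆ Set.Icc a b := Set.Icc_subset_Icc (hS x hx).1.1 (hS y hy).1.2
      obtain ⟨z, hz, hz0⟩ := exists_hasDerivAt_eq_zero (f := f) (f' := f') hxy
        (fun t ht => (hf t (hsub ht)).continuousAt.continuousWithinAt)
        (by rw [(hS x hx).2, (hS y hy).2])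
        (fun t ht => hf t (hsub (Set.Ioo_subset_Icc_self ht)))
      exact ⟨z, fun _ _ _ => ⟨hz.1, hz.2, hz0⟩⟩
    · exact ⟨0, fun hx hy hxy => absurd ⟨hx, hy, hxy⟩ h⟩
  choose c hc using key
  refine ⟨((S ×ˢ S).filter fun p => p.1 < p.2).image fun p => c p.1 p.2, ?_, ?_⟩
  · refine Finset.card_le_of_interleaved fun x hx y hy hxy _ => ?_
    obtain ⟨h1, h2, _⟩ := hc x y hx hy hxy
    exact ⟨c x y, mem_image.2 ⟨(x, y), mem_filter.2 ⟨mem_product.2 ⟨hx, hy⟩, hxy⟩, rfl⟩, h1, h2⟩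
  · intro t ht
    obtain ⟨p, hp, rfl⟩ := mem_image.1 ht
    obtain ⟨hp1, hp2⟩ := mem_filter.1 hp
    obtain ⟨hx, hy⟩ := mem_product.1 hp1
    obtain ⟨h1, h2, h3⟩ := hc p.1 p.2 hx hy hp2
    exact ⟨⟨(hS _ hx).1.1.trans h1.le, h2.le.trans (hS _ hy).1.2⟩, h3⟩

/-- a function with `n + 1` zeros has a zero of the derivative of order `n` -/
theorem rolle_iter (a b : ℝ) (n : ℕ) : ∀ (F : ℕ → ℝ → ℝ),
    (∀ k < n, ∀ t ∈ Set.Icc a b, HasDerivAt (F k) (F (k + 1) t) t) →
    ∀ S : Finset ℝ, n + 1 ≤ S.card → (∀ t ∈ S, t ∈ Set.Icc a b ∧ F 0 t = 0) →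
    ∃ ξ ∈ Set.Icc a b, F n ξ = 0 := by
  induction n with
  | zero =>
    intro F _ S hc hS
    obtain ⟨t, ht⟩ := card_pos.1 (show 0 < S.card by omega)
    exact ⟨t, (hS t ht).1, (hS t ht).2⟩
  | succ n ih =>
    intro F hF S hc hS
    obtain ⟨T, hT, hT0⟩ := rolle_step a b (F 0) (F 1) (hF 0 (by omega)) S hS
    exact ih (fun k => F (k + 1)) (fun k hk => hF (k + 1) (by omega)) T (by omega) hT0

end H96NLag

open H96NLag Polynomial in
/-- the remainder of Lagrange interpolation; `F k` is the derivative of order `k` -/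
theorem lagrange_rem {ι : Type} [DecidableEq ι] (a b : ℝ) (s : Finset ι) (v : ι → ℝ)
    (hv : Set.InjOn v s) (hvab : ∀ i ∈ s, v i ∈ Set.Icc a b) (F : ℕ → ℝ → ℝ)
    (hF : ∀ k < s.card, ∀ t ∈ Set.Icc a b, HasDerivAt (F k) (F (k + 1) t) t)
    (t : ℝ) (ht : t ∈ Set.Icc a b) :
    ∃ ξ ∈ Set.Icc a b, F 0 t - ∑ i ∈ s, F 0 (v i) * ∏ j ∈ s.erase i, (t - v j) / (v i - v j) =
      F s.card ξ / (s.card).factorial * ∏ i ∈ s, (t - v i) := by
  classical
  set P : ℝ[X] := Lagrange.interpolate s v (fun i => F 0 (v i)) with hP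
  set W : ℝ[X] := Lagrange.nodal s v with hW
  have hPe : P.eval t = ∑ i ∈ s, F 0 (v i) * ∏ j ∈ s.erase i, (t - v j) / (v i - v j) := by
    rw [hP, Lagrange.interpolate_apply, eval_finsetSum]
    refine sum_congr rfl fun i _ => ?_
    rw [eval_mul, eval_C, Lagrange.basis, eval_prod]
    congr 1
    refine prod_congr rfl fun j _ => ?_
    simp only [Lagrange.basisDivisor, eval_mul, eval_C, eval_sub, eval_X]
    rw [div_eq_inv_mul]
  have hWe : W.eval t = ∏ i ∈ s, (t - v i) := by rw [hW, Lagrange.eval_nodal]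
  have hPn : ∀ i ∈ s, P.eval (v i) = F 0 (v i) := fun i hi =>
    Lagrange.eval_interpolate_at_node _ hv hi
  have hWn : ∀ i ∈ s, W.eval (v i) = 0 := fun i hi => Lagrange.eval_nodal_at_node hi
  rw [← hPe, ← hWe]
  by_cases hn : ∃ i ∈ s, v i = t
  · obtain ⟨i, hi, rfl⟩ := hn
    exact ⟨v i, ht, by rw [hPn i hi, hWn i hi]; simp⟩
  have hW0 : W.eval t ≠ 0 := by
    rw [hWe]
    exact prod_ne_zero_iff.2 fun i hi h => hn ⟨i, hi, (sub_eq_zero.1 h).symm⟩
  set c : ℝ := (F 0 t - P.eval t) / W.eval t with hc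
  set Q : ℝ[X] := P + C c * W with hQ
  have hPd : P.degree < s.card := Lagrange.degree_interpolate_lt _ hv
  have hWd : W.natDegree = s.card := Lagrange.natDegree_nodal
  have hWc : W.coeff s.card = 1 := by
    rw [← hWd]; exact Lagrange.nodal_monic
  have hQc : ∀ m, Q.coeff (m + s.card) = if m = 0 then c else 0 := by
    intro m
    have h1 : P.coeff (m + s.card) = 0 :=
      coeff_eq_zero_of_degree_lt (hPd.trans_le (by exact_mod_cast Nat.le_add_left _ _))
    rw [hQ, coeff_add, h1, zero_add, coeff_C_mul]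
    split_ifs with h
    · rw [h, zero_add, hWc, mul_one]
    · rw [coeff_eq_zero_of_natDegree_lt (by omega), mul_zero]
  have hQn : derivative^[s.card] Q = C ((s.card).factorial * c) := by
    ext m
    rw [coeff_iterate_derivative, hQc, coeff_C]
    split_ifs with h
    · rw [h, zero_add, Nat.descFactorial_self, nsmul_eq_mul]
    · simp
  obtain ⟨ξ, hξ, h0⟩ := rolle_iter a b s.card (fun k u => F k u - (derivative^[k] Q).eval u)
    (fun k hk u hu => by
      have := (hF k hk u hu).sub ((derivative^[k] Q).hasDerivAt u)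
      rw [Function.iterate_succ_apply']
      exact this)
    (insert t (s.image v))
    (by
      rw [card_insert_of_notMem (by simpa using fun i hi h => hn ⟨i, hi, h⟩), card_image_of_injOn hv])
    (by
      intro u hu
      rcases mem_insert.1 hu with rfl | hu
      · refine ⟨ht, ?_⟩
        simp only [Function.iterate_zero, id, hQ, eval_add, eval_mul, eval_C, hc]
        field_simp
        ring
      · obtain ⟨i, hi, rfl⟩ := mem_image.1 hu
        refine ⟨hvab i hi, ?_⟩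
        simp only [Function.iterate_zero, id, hQ, eval_add, eval_mul, eval_C, hPn i hi, hWn i hi]
        ring)
  refine ⟨ξ, hξ, ?_⟩
  simp only [hQn, eval_C] at h0
  have hf : ((s.card).factorial : ℝ) ≠ 0 := by exact_mod_cast (Nat.factorial_pos _).ne'
  rw [sub_eq_zero.1 h0, hc]
  field_simp

namespace H96NLag

theorem lw_eq (o : ℕ) (ho : o < 14) (δ : ℝ) :
    lw o δ = ∏ j ∈ range 14, if j = o then (1 : ℝ) else (δ + 6 - j) / ((o : ℝ) - j) := by
  rw [lw, if_pos ho, ← Finset.prod_erase (range 14) (a := o) (by simp)]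
  refine prod_congr rfl fun j hj => ?_
  rw [if_neg (ne_of_mem_erase hj)]

/-- the product of the pairs other than the pair `i` -/
noncomputable def pp (i : ℕ) (s : ℝ) : ℝ := ∏ j ∈ range 7, if j = i then (1 : ℝ) else j * (j + 1) + s

theorem pp_nonneg (i : ℕ) {s : ℝ} (hs : 0 ≤ s) : 0 ≤ pp i s :=
  prod_nonneg fun j _ => by split_ifs <;> positivity

theorem pp_le (i : ℕ) {s : ℝ} (hs : 0 ≤ s) (hs' : s ≤ 1 / 4) : pp i s ≤ pp i (1 / 4) :=
  prod_le_prod (fun j _ => by split_ifs <;> positivity) fun j _ => by split_ifs <;> linarith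

theorem pair (i : ℕ) (hi : i < 7) (δ : ℝ) :
    lw (6 - i) δ = (-1) ^ i * ((i + 1 - δ) * pp i (δ * (1 - δ)) /
      ((6 - i).factorial * (7 + i).factorial)) ∧
    lw (7 + i) δ = (-1) ^ i * ((δ + i) * pp i (δ * (1 - δ)) /
      ((6 - i).factorial * (7 + i).factorial)) := by
  rw [lw_eq _ (by omega), lw_eq _ (by omega), pp]
  interval_cases i <;>
  · simp only [prod_range_succ, prod_range_zero, Nat.factorial]
    norm_num
    constructor <;> ring

theorem pair_abs (i : ℕ) (hi : i < 7) (δ : ℝ) (h0 : 0 ≤ δ) (h1 : δ ≤ 1) :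
    |lw (6 - i) δ| + |lw (7 + i) δ| ≤
      (2 * i + 1) * pp i (1 / 4) / ((6 - i).factorial * (7 + i).factorial) := by
  have hs : 0 ≤ δ * (1 - δ) := mul_nonneg h0 (by linarith)
  have hs' : δ * (1 - δ) ≤ 1 / 4 := by nlinarith [sq_nonneg (δ - 1 / 2)]
  have hp := pp_nonneg i hs
  have hi0 : (0 : ℝ) ≤ i := Nat.cast_nonneg i
  have ha : 0 ≤ (i : ℝ) + 1 - δ := by linarith
  rw [(pair i hi δ).1, (pair i hi δ).2, abs_mul, abs_mul, abs_neg_one_pow, one_mul, one_mul,
    abs_of_nonneg (by positivity), abs_of_nonneg (by positivity), ← add_div, ← add_mul,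
    show (i : ℝ) + 1 - δ + (δ + i) = 2 * i + 1 by ring]
  gcongr
  exact pp_le i hs hs'

theorem sum_abs (δ : ℝ) (h0 : 0 ≤ δ) (h1 : δ ≤ 1) : ∑ o ∈ range 14, |lw o δ| ≤ 1.68 := by
  have e0 := pair_abs 0 (by omega) δ h0 h1
  have e1 := pair_abs 1 (by omega) δ h0 h1
  have e2 := pair_abs 2 (by omega) δ h0 h1
  have e3 := pair_abs 3 (by omega) δ h0 h1
  have e4 := pair_abs 4 (by omega) δ h0 h1
  have e5 := pair_abs 5 (by omega) δ h0 h1
  have e6 := pair_abs 6 (by omega) δ h0 h1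
  simp only [pp, prod_range_succ, prod_range_zero, Nat.factorial] at e0 e1 e2 e3 e4 e5 e6
  norm_num at e0 e1 e2 e3 e4 e5 e6
  simp only [sum_range_succ, sum_range_zero]
  linarith

theorem nodal_le (δ : ℝ) (h0 : 0 ≤ δ) (h1 : δ ≤ 1) :
    |∏ o ∈ range 14, (δ - ((o : ℝ) - 6))| ≤ 1114592 := by
  have hs : 0 ≤ δ * (1 - δ) := mul_nonneg h0 (by linarith)
  have hs' : δ * (1 - δ) ≤ 1 / 4 := by nlinarith [sq_nonneg (δ - 1 / 2)]
  have e : ∏ o ∈ range 14, (δ - ((o : ℝ) - 6)) = -pp 7 (δ * (1 - δ)) := by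
    simp only [pp, prod_range_succ, prod_range_zero]
    norm_num
    ring
  rw [e, abs_neg, abs_of_nonneg (pp_nonneg 7 hs)]
  refine (pp_le 7 hs hs').trans ?_
  simp only [pp, prod_range_succ, prod_range_zero]
  norm_num

theorem ee_norm (x : ℝ) : ‖S2.ee x‖ = 1 := Complex.norm_exp_ofReal_mul_I _

theorem ee_deriv (x t : ℝ) :
    HasDerivAt (fun u : ℝ => S2.ee (-x * u))
      (((-(2 * π * x) : ℝ) : ℂ) * Complex.I * S2.ee (-x * t)) t := by
  have h1 : HasDerivAt (fun u : ℝ => 2 * π * (-x * u)) (-(2 * π * x)) t := by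
    simpa using ((hasDerivAt_id t).const_mul (-x)).const_mul (2 * π)
  have h2 := (h1.ofReal_comp.mul_const Complex.I).cexp
  rw [mul_comm (((-(2 * π * x) : ℝ) : ℂ) * Complex.I)]
  exact h2

end H96NLag

open H96NLag in
theorem lagOk : StLag := by
  intro δ h0 h1
  refine ⟨sum_abs δ h0 h1, fun x hx => ?_⟩
  set E : ℂ := ∑ o ∈ range 14, (lw o δ : ℂ) * S2.ee (-x * (o - 6)) - S2.ee (-x * δ) with hE
  set w : ℂ := ((-(2 * π * x) : ℝ) : ℂ) * Complex.I with hw
  obtain ⟨ξ, -, h⟩ := lagrange_rem (-6) 7 (range 14) (fun o => (o : ℝ) - 6)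
    (fun i _ j _ h => by exact_mod_cast sub_left_injective h)
    (fun i hi => by
      have h2 : (i : ℝ) ≤ 13 := by exact_mod_cast Nat.lt_succ_iff.1 (mem_range.1 hi)
      have h3 : (0 : ℝ) ≤ i := Nat.cast_nonneg i
      constructor <;> linarith)
    (fun k u => ((starRingEnd ℂ) E * w ^ k * S2.ee (-x * u)).re)
    (fun k _ u _ => by
      have h2 := (ee_deriv x u).const_mul ((starRingEnd ℂ) E * w ^ k)
      have h3 := Complex.reCLM.hasFDerivAt.comp_hasDerivAt u h2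
      have e : (starRingEnd ℂ) E * w ^ (k + 1) * S2.ee (-x * u) =
          (starRingEnd ℂ) E * w ^ k * (w * S2.ee (-x * u)) := by ring
      rw [e]
      exact h3)
    δ ⟨by linarith, by linarith⟩
  simp only [pow_zero, mul_one, card_range] at h
  have e1 : ∑ i ∈ range 14, ((starRingEnd ℂ) E * S2.ee (-x * ((i : ℝ) - 6))).re *
      ∏ j ∈ (range 14).erase i, (δ - ((j : ℝ) - 6)) / ((i : ℝ) - 6 - ((j : ℝ) - 6)) =
      ((starRingEnd ℂ) E * ∑ o ∈ range 14, (lw o δ : ℂ) * S2.ee (-x * (o - 6))).re := by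
    rw [mul_sum, Complex.re_sum]
    refine sum_congr rfl fun i hi => ?_
    have e : ∏ j ∈ (range 14).erase i, (δ - ((j : ℝ) - 6)) / ((i : ℝ) - 6 - ((j : ℝ) - 6)) =
        lw i δ := by
      rw [lw, if_pos (mem_range.1 hi)]
      refine prod_congr rfl fun j _ => ?_
      congr 1 <;> ring
    rw [e, mul_left_comm, Complex.re_ofReal_mul, mul_comm]
  rw [e1, ← Complex.sub_re, ← mul_sub, ← neg_sub, ← hE, mul_neg, Complex.neg_re,
    Complex.conj_mul', ← Complex.ofReal_pow, Complex.ofReal_re] at h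
  have hwn : ‖w‖ = 2 * π * |x| := by
    rw [hw, norm_mul, Complex.norm_I, mul_one, Complex.norm_real, Real.norm_eq_abs, abs_neg,
      abs_mul, abs_of_pos (by positivity : (0 : ℝ) < 2 * π)]
  have hb : |((starRingEnd ℂ) E * w ^ 14 * S2.ee (-x * ξ)).re| ≤ ‖E‖ * (2 * π * |x|) ^ 14 := by
    refine (Complex.abs_re_le_norm _).trans ?_
    rw [norm_mul, norm_mul, ee_norm, mul_one, norm_pow, hwn, Complex.norm_conj]
  have hpi : (2 * π * |x|) ^ 14 ≤ (0.7854 : ℝ) ^ 14 * (8 * |x|) ^ 14 := by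
    rw [← mul_pow]
    have := Real.pi_lt_d4
    have := abs_nonneg x
    exact pow_le_pow_left₀ (by positivity) (by nlinarith) 14
  have hy : 0 ≤ (8 * |x|) ^ 14 := by positivity
  have h2 : ‖E‖ ^ 2 ≤ ‖E‖ * (4.35e-7 * (8 * |x|) ^ 14) := by
    have h3 := congrArg abs h
    rw [abs_neg, abs_of_nonneg (by positivity), abs_mul, abs_div,
      Nat.abs_cast] at h3
    rw [h3]
    calc _ ≤ ‖E‖ * ((0.7854 : ℝ) ^ 14 * (8 * |x|) ^ 14) / (Nat.factorial 14 : ℕ) * 1114592 := by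
          gcongr
          · exact hb.trans (by gcongr)
          · exact nodal_le δ h0 h1
      _ = ‖E‖ * (((0.7854 : ℝ) ^ 14 / (Nat.factorial 14 : ℕ) * 1114592) * (8 * |x|) ^ 14) := by
          ring
      _ ≤ _ := by
          gcongr
          norm_num [Nat.factorial]
  rcases (norm_nonneg E).eq_or_lt with h4 | h4
  · rw [← h4]; positivity
  · rw [pow_two] at h2
    exact le_of_mul_le_mul_left h2 h4

end Pool.Agent.Lib.MP_5db4ad_nt.NE
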