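import Pool.Agent.Lib.MP_5db4ad_nt.H96NSt

/-!
The error bound for one datum at a low frequency.
-/

namespace Pool.Agent.Lib.MP_5db4ad_nt.NE

open S2 Finset
open scoped Real

namespace Lo1

lemma fz_ap {β : Type} (a : ℕ) (k : ℕ → β) : fz a k = k a := by
  unfold fz
  cases Nat.ble a (nat_lit 0) <;> rfl

lemma dst_re (a b : ℕ) : (dst a b : ℝ) = |(a : ℝ) - b| := by
  show (((a - b) + (b - a) : ℕ) : ℝ) = _
  rcases le_total a b with h | h
  · have h' : (a : ℝ) ≤ b := by exact_mod_cast h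
    rw [Nat.sub_eq_zero_of_le h, zero_add, Nat.cast_sub h, abs_of_nonpos (by linarith)]
    ring
  · have h' : (b : ℝ) ≤ a := by exact_mod_cast h
    rw [Nat.sub_eq_zero_of_le h, add_zero, Nat.cast_sub h, abs_of_nonneg (by linarith)]

def pA (n br bi : ℕ) : ℕ :=
  br * 762123384785 + (3454217652357 * n) <<< 31 + 4951758520494014515397001216 -
    bi * (3454217652357 * n)

def pB (n br bi : ℕ) : ℕ :=
  bi * 762123384785 + br * (3454217652357 * n) + 4951758520494014515397001216 -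
    (3454217652357 * n) <<< 31

def tot (a0 a1 a2 a4 x y v u qx qy p1 p2 : ℕ) : ℕ :=
  (dst (p1 * qx + p2 <<< 46 + (qy <<< 92 + 5316911983139663491615228241121378304))
      (p2 * qy + p1 <<< 46 + (qx <<< 92 + x <<< 76)) +
    dst (p1 * qy + p2 * qx + 696903604366065112836482811248502418440192)
      ((p1 + p2) <<< 46 + (qx + qy) <<< 92 + y <<< 76)) +
  ((dst p1 4951760157141521099596496896 + dst p2 4951760157141521099596496896) * 240000 +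
    (dst x 70368744177664 + dst y 70368744177664) * a4) +
  (a0 + a1 * v + a2 * u)

lemma lo1_eq (a0 a1 a2 a4 n V W b : ℕ) : lo1 a0 a1 a2 a4 n V W b =
    tot a0 a1 a2 a4 (V &&& 281474976710655) ((V >>> 48) &&& 281474976710655)
      ((V >>> 96) &&& 281474976710655) (V >>> 144) (W &&& 281474976710655) (W >>> 64)
      (pA n (b &&& 4294967295) (b >>> 32)) (pB n (b &&& 4294967295) (b >>> 32)) / (n <<< 52) + 1 := by
  unfold lo1
  simp only [fz_ap]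
  rfl

lemma and48 (a : ℕ) : a &&& 281474976710655 = a % 281474976710656 :=
  Nat.and_two_pow_sub_one_eq_mod a 48

lemma and32 (a : ℕ) : a &&& 4294967295 = a % 4294967296 :=
  Nat.and_two_pow_sub_one_eq_mod a 32

lemma lo1_val (a0 a1 a2 a4 n x y v u qx qy br bi : ℕ) (hx : x < 2 ^ 48) (hy : y < 2 ^ 48)
    (hv : v < 2 ^ 48) (hq : qx < 2 ^ 48) (hb : br < 2 ^ 32) :
    lo1 a0 a1 a2 a4 n (x + y * 2 ^ 48 + v * 2 ^ 96 + u * 2 ^ 144) (qx + qy * 2 ^ 64)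
      (br + bi * 2 ^ 32) =
    tot a0 a1 a2 a4 x y v u qx qy (pA n br bi) (pB n br bi) / (n * 2 ^ 52) + 1 := by
  have e1 : (x + y * 2 ^ 48 + v * 2 ^ 96 + u * 2 ^ 144) &&& 281474976710655 = x := by
    rw [and48]; omega
  have e2 : ((x + y * 2 ^ 48 + v * 2 ^ 96 + u * 2 ^ 144) >>> 48) &&& 281474976710655 = y := by
    rw [and48, Nat.shiftRight_eq_div_pow]; omega
  have e3 : ((x + y * 2 ^ 48 + v * 2 ^ 96 + u * 2 ^ 144) >>> 96) &&& 281474976710655 = v := by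
    rw [and48, Nat.shiftRight_eq_div_pow]; omega
  have e4 : (x + y * 2 ^ 48 + v * 2 ^ 96 + u * 2 ^ 144) >>> 144 = u := by
    rw [Nat.shiftRight_eq_div_pow]; omega
  have e5 : (qx + qy * 2 ^ 64) &&& 281474976710655 = qx := by
    rw [and48]; omega
  have e6 : (qx + qy * 2 ^ 64) >>> 64 = qy := by
    rw [Nat.shiftRight_eq_div_pow]; omega
  have e7 : (br + bi * 2 ^ 32) &&& 4294967295 = br := by
    rw [and32]; omega
  have e8 : (br + bi * 2 ^ 32) >>> 32 = bi := by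
    rw [Nat.shiftRight_eq_div_pow]; omega
  rw [lo1_eq, e1, e2, e3, e4, e5, e6, e7, e8, Nat.shiftLeft_eq]

lemma pA_re (n br bi : ℕ) (hn : n < 2 ^ 17) (hb : bi < 2 ^ 32) :
    (pA n br bi : ℝ) - 2 ^ 92 = ((br : ℝ) - 2 ^ 31) * 762123384785 -
      ((bi : ℝ) - 2 ^ 31) * (3454217652357 * n) := by
  have h1 : bi * (3454217652357 * n) ≤ 2 ^ 32 * (3454217652357 * 2 ^ 17) :=
    Nat.mul_le_mul hb.le (Nat.mul_le_mul_left _ hn.le)
  have h2 : bi * (3454217652357 * n) ≤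
      br * 762123384785 + (3454217652357 * n) <<< 31 + 4951758520494014515397001216 :=
    h1.trans (le_trans (by norm_num) (Nat.le_add_left _ _))
  unfold pA
  rw [Nat.cast_sub h2, Nat.shiftLeft_eq]
  push_cast
  ring

lemma pB_re (n br bi : ℕ) (hn : n < 2 ^ 17) :
    (pB n br bi : ℝ) - 2 ^ 92 = ((br : ℝ) - 2 ^ 31) * (3454217652357 * n) +
      ((bi : ℝ) - 2 ^ 31) * 762123384785 := by
  have h1 : (3454217652357 * n) <<< 31 ≤ 3454217652357 * 2 ^ 17 * 2 ^ 31 := by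
    rw [Nat.shiftLeft_eq]
    exact Nat.mul_le_mul_right _ (Nat.mul_le_mul_left _ hn.le)
  have h2 : (3454217652357 * n) <<< 31 ≤
      bi * 762123384785 + br * (3454217652357 * n) + 4951758520494014515397001216 :=
    h1.trans (le_trans (by norm_num) (Nat.le_add_left _ _))
  unfold pB
  rw [Nat.cast_sub h2, Nat.shiftLeft_eq]
  push_cast
  ring

lemma tot_ge (a0 a1 a2 a4 x y v u qx qy p1 p2 : ℕ) (P : ℂ) (h1 : (p1 : ℝ) - 2 ^ 92 = P.re)
    (h2 : (p2 : ℝ) - 2 ^ 92 = P.im) :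
    ‖P * cz qx qy - 2 ^ 76 * cz x y‖ + ‖P‖ * 240000 + ‖cz x y‖ * a4 +
      (a0 + a1 * v + a2 * u) ≤ (tot a0 a1 a2 a4 x y v u qx qy p1 p2 : ℝ) := by
  have k1 := Complex.norm_le_abs_re_add_abs_im (P * cz qx qy - 2 ^ 76 * cz x y)
  have k2 := Complex.norm_le_abs_re_add_abs_im P
  have k3 := Complex.norm_le_abs_re_add_abs_im (cz x y)
  have c76 : (2 : ℂ) ^ 76 = ((2 ^ 76 : ℝ) : ℂ) := by push_cast; rfl
  have r1 : (P * cz qx qy - 2 ^ 76 * cz x y).re =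
      ((p1 * qx + p2 <<< 46 + (qy <<< 92 + 5316911983139663491615228241121378304) : ℕ) : ℝ) -
        ((p2 * qy + p1 <<< 46 + (qx <<< 92 + x <<< 76) : ℕ) : ℝ) := by
    rw [c76, Complex.sub_re, Complex.mul_re, Complex.re_ofReal_mul, ← h1, ← h2]
    simp only [cz, sv, Nat.shiftLeft_eq]
    push_cast
    ring
  have r2 : (P * cz qx qy - 2 ^ 76 * cz x y).im =
      ((p1 * qy + p2 * qx + 696903604366065112836482811248502418440192 : ℕ) : ℝ) -
        (((p1 + p2) <<< 46 + (qx + qy) <<< 92 + y <<< 76 : ℕ) : ℝ) := by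
    rw [c76, Complex.sub_im, Complex.mul_im, Complex.im_ofReal_mul, ← h1, ← h2]
    simp only [cz, sv, Nat.shiftLeft_eq]
    push_cast
    ring
  have r3 : P.re = (p1 : ℝ) - ((4951760157141521099596496896 : ℕ) : ℝ) := by
    rw [← h1]; push_cast; ring
  have r4 : P.im = (p2 : ℝ) - ((4951760157141521099596496896 : ℕ) : ℝ) := by
    rw [← h2]; push_cast; ring
  have r5 : (cz x y).re = (x : ℝ) - ((70368744177664 : ℕ) : ℝ) := by
    simp only [cz, sv]; push_cast; ring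
  have r6 : (cz x y).im = (y : ℝ) - ((70368744177664 : ℕ) : ℝ) := by
    simp only [cz, sv]; push_cast; ring
  rw [r1, r2, ← dst_re, ← dst_re] at k1
  rw [r3, r4, ← dst_re, ← dst_re] at k2
  rw [r5, r6, ← dst_re, ← dst_re] at k3
  have k4 := mul_le_mul_of_nonneg_right k3 (Nat.cast_nonneg (α := ℝ) a4)
  unfold tot
  simp only [Nat.cast_add, Nat.cast_mul, Nat.cast_ofNat] at k1 k2 k4 ⊢
  linarith

/-- the scalar estimate -/
lemma scal (n κ e dR : ℝ) (R Rt β Q Qh c ch s : ℂ) (hn : 0 < n) (hc : π * n ≤ ‖c‖)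
    (hs : ‖s‖ = 1 / (π * n)) (hκ0 : 0 ≤ κ) (hκ : κ ≤ e) (hQ : 1 / 3 ≤ ‖Q‖) (hQ' : ‖Q‖ ≤ 2)
    (hR : ‖Rt - R‖ ≤ dR) (hq : ‖Qh - Q‖ ≤ 2.1e-7) (hch : ‖ch - c‖ ≤ ‖ch‖ * 1e-9) :
    ‖(1 / c - κ * s) * R / Q - β‖ ≤
      0.955 / n * (‖β * ch * Qh - Rt‖ + ‖β * ch‖ * 2.12e-7 + ‖Rt‖ * e + dR * (1 + e)) := by
  have hπ : 0 < π * n := mul_pos Real.pi_pos hn
  have c0 : c ≠ 0 := norm_pos_iff.1 (hπ.trans_le hc)
  have Q0 : Q ≠ 0 := norm_pos_iff.1 (by linarith)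
  have e1 : (1 / c - κ * s) * R / Q - β = ((R - β * c * Q) / c - κ * s * R) / Q := by
    field_simp
    ring
  have b1 : ‖R‖ ≤ ‖Rt‖ + dR := by
    have : R = Rt - (Rt - R) := by ring
    calc ‖R‖ = ‖Rt - (Rt - R)‖ := by rw [← this]
      _ ≤ ‖Rt‖ + ‖Rt - R‖ := norm_sub_le _ _
      _ ≤ _ := by linarith
  have b2 : ‖β * ch * (Qh - Q)‖ ≤ ‖β * ch‖ * 2.1e-7 := by
    rw [norm_mul]
    exact mul_le_mul_of_nonneg_left hq (norm_nonneg _)
  have b3 : ‖β * (ch - c) * Q‖ ≤ ‖β * ch‖ * 2e-9 := by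
    rw [norm_mul, norm_mul, norm_mul]
    have h1 : ‖β‖ * ‖ch - c‖ ≤ ‖β‖ * (‖ch‖ * 1e-9) :=
      mul_le_mul_of_nonneg_left hch (norm_nonneg _)
    have h2 : ‖β‖ * ‖ch - c‖ * ‖Q‖ ≤ ‖β‖ * (‖ch‖ * 1e-9) * 2 :=
      mul_le_mul h1 hQ' (norm_nonneg _) (by positivity)
    linarith
  have b4 : ‖R - β * c * Q‖ ≤ ‖β * ch * Qh - Rt‖ + ‖β * ch‖ * 2.12e-7 + dR := by
    have : R - β * c * Q =
        β * (ch - c) * Q + β * ch * (Qh - Q) - (β * ch * Qh - Rt) - (Rt - R) := by ring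
    rw [this]
    have h1 := norm_sub_le (β * (ch - c) * Q + β * ch * (Qh - Q) - (β * ch * Qh - Rt)) (Rt - R)
    have h2 := norm_sub_le (β * (ch - c) * Q + β * ch * (Qh - Q)) (β * ch * Qh - Rt)
    have h3 := norm_add_le (β * (ch - c) * Q) (β * ch * (Qh - Q))
    linarith
  have dR0 : 0 ≤ dR := (norm_nonneg _).trans hR
  have b5 : ‖(R - β * c * Q) / c‖ ≤
      (‖β * ch * Qh - Rt‖ + ‖β * ch‖ * 2.12e-7 + dR) * (1 / (π * n)) := by
    rw [norm_div, ← div_eq_mul_one_div]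
    exact div_le_div₀ (by positivity) b4 hπ hc
  have b6 : ‖κ * s * R‖ ≤ (e * (‖Rt‖ + dR)) * (1 / (π * n)) := by
    rw [norm_mul, norm_mul, hs, Complex.norm_real, Real.norm_of_nonneg hκ0]
    have h1 : κ * ‖R‖ ≤ e * (‖Rt‖ + dR) := mul_le_mul hκ b1 (norm_nonneg _) (hκ0.trans hκ)
    have h2 := mul_le_mul_of_nonneg_right h1 (le_of_lt (one_div_pos.2 hπ))
    linarith
  set A := ‖β * ch * Qh - Rt‖ + ‖β * ch‖ * 2.12e-7 + ‖Rt‖ * e + dR * (1 + e) with hA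
  have e0 : 0 ≤ e := hκ0.trans hκ
  have A0 : 0 ≤ A := by positivity
  have b7 : ‖(R - β * c * Q) / c - κ * s * R‖ ≤ A * (1 / (π * n)) := by
    have h1 := norm_sub_le ((R - β * c * Q) / c) (κ * s * R)
    have h2 : A * (1 / (π * n)) =
        (‖β * ch * Qh - Rt‖ + ‖β * ch‖ * 2.12e-7 + dR) * (1 / (π * n)) +
          (e * (‖Rt‖ + dR)) * (1 / (π * n)) := by rw [hA]; ring
    linarith
  rw [e1, norm_div]
  have b8 : ‖(R - β * c * Q) / c - κ * s * R‖ / ‖Q‖ ≤ A * (1 / (π * n)) / (1 / 3) :=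
    div_le_div₀ (by positivity) b7 (by norm_num) hQ
  refine b8.trans ?_
  have b9 : 1 / (π * n) / (1 / 3) ≤ 0.955 / n := by
    have := Real.pi_gt_d4
    rw [div_div, div_le_div_iff₀ (by positivity) hn]
    nlinarith
  calc A * (1 / (π * n)) / (1 / 3) = A * (1 / (π * n) / (1 / 3)) := by ring
    _ ≤ A * (0.955 / n) := mul_le_mul_of_nonneg_left b9 A0
    _ = _ := by ring

lemma norm_ee (x : ℝ) : ‖ee x‖ = 1 := Complex.norm_exp_ofReal_mul_I _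

lemma ee_add (x y : ℝ) : ee (x + y) = ee x * ee y := by
  unfold ee
  rw [← Complex.exp_add]
  congr 1
  push_cast
  ring

lemma norm_three (k : ℕ) : ‖(3 : ℂ) ^ (-sk k)‖ = 1 / 3 := by
  have h := Complex.norm_cpow_eq_rpow_re_of_pos (x := 3) (by norm_num) (-sk k)
  have e : (-sk k).re = -1 := by simp [sk]
  rw [e, Real.rpow_neg_one] at h
  rw [one_div, ← h]
  norm_num

lemma norm_F (k : ℕ) : 1 / 3 ≤ ‖1 + 2 * (3 : ℂ) ^ (-sk k)‖ ∧ ‖1 + 2 * (3 : ℂ) ^ (-sk k)‖ ≤ 2 := by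
  have h : ‖2 * (3 : ℂ) ^ (-sk k)‖ = 2 / 3 := by
    rw [norm_mul, norm_three]
    norm_num
  have h1 := norm_add_le (1 : ℂ) (2 * (3 : ℂ) ^ (-sk k))
  have h2 := norm_sub_le (1 + 2 * (3 : ℂ) ^ (-sk k)) (2 * (3 : ℂ) ^ (-sk k))
  rw [add_sub_cancel_right] at h2
  rw [norm_one, h] at h1 h2
  constructor <;> linarith

/-- the number `log 2 + i π n` -/
noncomputable def cc (n : ℝ) : ℂ := ⟨Real.log 2, π * n⟩

/-- its approximation -/
noncomputable def ch (n : ℝ) : ℂ := ⟨762123384785 / 2 ^ 40, 3454217652357 * n / 2 ^ 40⟩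

lemma cc_ge (n : ℝ) : π * n ≤ ‖cc n‖ :=
  (le_abs_self _).trans (Complex.abs_im_le_norm (cc n))

lemma ch_near (n : ℝ) (hn : 1 ≤ n) : ‖ch n - cc n‖ ≤ ‖ch n‖ * 1e-9 := by
  have h1 : 3454217652357 * n / 2 ^ 40 ≤ ‖ch n‖ :=
    (le_abs_self _).trans (Complex.abs_im_le_norm (ch n))
  have h2 := Complex.norm_le_abs_re_add_abs_im (ch n - cc n)
  have l1 := Real.log_two_gt_d9
  have l2 := Real.log_two_lt_d9
  have p1 := Real.pi_gt_d20
  have p2 := Real.pi_lt_d20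
  have h3 : |(ch n - cc n).re| ≤ 1e-9 := by
    show |762123384785 / 2 ^ 40 - Real.log 2| ≤ _
    rw [abs_le]
    constructor <;> linarith
  have h4 : |(ch n - cc n).im| ≤ 1e-9 * n := by
    show |3454217652357 * n / 2 ^ 40 - π * n| ≤ _
    rw [abs_le]
    constructor <;> nlinarith
  linarith

lemma om_eq (k : ℕ) : om k = 1 / cc (2 * k + 1) - ((1 - Kf (2 ^ 24) (2 * k + 1) : ℝ) : ℂ) * cs k := by
  have l0 : Real.log 2 ≠ 0 := (Real.log_pos one_lt_two).ne'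
  have l1 : ((Real.log 2 : ℝ) : ℂ) ≠ 0 := by exact_mod_cast l0
  have e1 : cc (2 * k + 1) = (Real.log 2 : ℝ) * sk k := by
    apply Complex.ext
    · rw [Complex.re_ofReal_mul]
      simp [cc, sk]
    · simp only [cc, sk, tk, Complex.add_im, Complex.one_im,
        Complex.mul_im, Complex.ofReal_re, Complex.ofReal_im, Complex.I_re, Complex.I_im]
      field_simp
      ring
  have s0 : sk k ≠ 0 := by
    intro h
    have : (sk k).re = 0 := by rw [h]; rfl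
    simp [sk] at this
  have n0 : (2 * (k : ℂ) + 1) ≠ 0 := by exact_mod_cast (by omega : 2 * k + 1 ≠ 0)
  have p0 : (π : ℂ) ≠ 0 := by exact_mod_cast Real.pi_ne_zero
  have e2 : cs k * (sk k - 1) = 1 / (Real.log 2 : ℝ) := by
    unfold cs sk tk
    rw [Complex.ofReal_div, Complex.ofReal_mul]
    generalize Real.log 2 = l at l1
    push_cast
    have := Complex.I_ne_zero
    field_simp
    ring
  have e3 : 1 / cc (2 * k + 1) = cs k - cs k / sk k := by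
    rw [e1, ← div_div, ← e2]
    field_simp
  rw [e3]
  unfold om cg
  push_cast
  ring

lemma norm_cs (k : ℕ) : ‖cs k‖ = 1 / (π * (2 * k + 1)) := by
  unfold cs
  have e : (2 * (k : ℂ) + 1) * π = ((π * (2 * k + 1) : ℝ) : ℂ) := by push_cast; ring
  rw [norm_div, norm_one, norm_mul, Complex.norm_I, mul_one, e, Complex.norm_real,
    Real.norm_of_nonneg (by positivity)]

end Lo1

open Lo1 in
theorem lo1Ok (hK : StKf) : StLo1 := by
  intro k a0 a1 a2 a4 x y v u qx qy br bi R α c0 c1 c2 hk hx hy hv hqx hbr hbi h0 h1 h2 g0 g1 g2 g4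
    hR hQ
  rw [lo1_val _ _ _ _ _ _ _ _ _ _ _ _ _ hx hy hv hqx hbr]
  have hn : 2 * k + 1 < 2 ^ 17 := by omega
  set n : ℝ := 2 * k + 1 with hnr
  have k0 : (0 : ℝ) ≤ k := Nat.cast_nonneg k
  have n1 : 1 ≤ n := by rw [hnr]; linarith
  have nc : ((2 * k + 1 : ℕ) : ℝ) = n := by rw [hnr]; push_cast; rfl
  have n17 : n ≤ 2 ^ 17 := by rw [← nc]; exact_mod_cast hn.le
  set F : ℂ := 1 + 2 * (3 : ℂ) ^ (-sk k) with hF
  set P : ℂ := 2 ^ 72 * (cx br bi / 2 ^ 32 * ch n) with hP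
  have hP' : P = cx br bi * ⟨762123384785, 3454217652357 * n⟩ := by
    have : (⟨762123384785, 3454217652357 * n⟩ : ℂ) = ((2 ^ 40 : ℝ) : ℂ) * ch n := by
      apply Complex.ext
      · rw [Complex.re_ofReal_mul]; simp only [ch]; ring
      · rw [Complex.im_ofReal_mul]; simp only [ch]; ring
    rw [this, hP]
    push_cast
    ring
  have hT := tot_ge a0 a1 a2 a4 x y v u qx qy (pA (2 * k + 1) br bi) (pB (2 * k + 1) br bi) P
    (by rw [pA_re _ _ _ hn hbi, nc, hP', Complex.mul_re]; rfl)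
    (by rw [pB_re _ _ _ hn, nc, hP', Complex.mul_im]; rfl)
  generalize tot a0 a1 a2 a4 x y v u qx qy (pA (2 * k + 1) br bi) (pB (2 * k + 1) br bi) = T at hT ⊢
  have hdiv : (T : ℝ) / (n * 2 ^ 52) ≤ ((T / ((2 * k + 1) * 2 ^ 52) + 1 : ℕ) : ℝ) := by
    have h := Nat.lt_div_mul_add (a := T) (b := (2 * k + 1) * 2 ^ 52) (by positivity)
    have h' : (T : ℝ) < ((T / ((2 * k + 1) * 2 ^ 52) * ((2 * k + 1) * 2 ^ 52) +
        (2 * k + 1) * 2 ^ 52 : ℕ) : ℝ) := by exact_mod_cast h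
    rw [div_le_iff₀ (by positivity), Nat.cast_add, Nat.cast_one]
    rw [Nat.cast_add, Nat.cast_mul (T / _), Nat.cast_mul (2 * k + 1), nc] at h'
    have e : ((2 ^ 52 : ℕ) : ℝ) = 2 ^ 52 := by norm_num
    rw [e] at h'
    linarith
  obtain ⟨-, f1, f2, -⟩ := hK (2 ^ 24) (2 * k + 1) (by norm_num)
  rw [nc] at f2
  have e24 : ((2 ^ 24 : ℕ) : ℝ) = 2 ^ 24 := by norm_num
  rw [e24] at f2
  set e : ℝ := 5 * (n / 2 ^ 24) ^ 2 with he
  have hθ : (k : ℝ) ^ 2 / (2 * ((2 ^ 19 : ℕ) : ℝ)) = (k : ℝ) ^ 2 / 2 ^ 20 := by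
    congr 1
    norm_num
  obtain ⟨F1, F2⟩ := norm_F k
  rw [← hF] at F1 F2
  have F0 : F ≠ 0 := norm_pos_iff.1 (by linarith)
  set Q : ℂ := F * ee (α - (k : ℝ) ^ 2 / 2 ^ 20) with hQd
  have nQ : ‖Q‖ = ‖F‖ := by rw [hQd, norm_mul, norm_ee, mul_one]
  have hq : ‖cz qx qy / 2 ^ 40 - Q‖ ≤ 2.1e-7 := by
    have e1 : cz qx qy / 2 ^ 40 - Q = (cz qx qy - 2 ^ 40 * Q) / 2 ^ 40 := by
      field_simp
    rw [e1, norm_div, norm_pow, Complex.norm_two, div_le_iff₀ (by positivity)]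
    linarith
  have key := scal n (1 - Kf (2 ^ 24) (2 * k + 1)) e (c0 + c1 * (v / 2 ^ 36) + c2 * (u / 2 ^ 36))
    (ee α * R) (cz x y / 2 ^ 36) (cx br bi / 2 ^ 32) Q (cz qx qy / 2 ^ 40) (cc n) (ch n) (cs k)
    (by linarith) (cc_ge n) (norm_cs k) (by linarith) f2 (by rw [nQ]; exact F1)
    (by rw [nQ]; exact F2) hR hq (ch_near n n1)
  have e1 : om k * R / F * ee ((k : ℝ) ^ 2 / (2 * ((2 ^ 19 : ℕ) : ℝ))) =
      (1 / cc n - ((1 - Kf (2 ^ 24) (2 * k + 1) : ℝ) : ℂ) * cs k) * (ee α * R) / Q := by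
    have a1 : ee α = ee (α - (k : ℝ) ^ 2 / 2 ^ 20) * ee ((k : ℝ) ^ 2 / 2 ^ 20) := by
      rw [← ee_add, sub_add_cancel]
    have a2 : ee (α - (k : ℝ) ^ 2 / 2 ^ 20) ≠ 0 := norm_pos_iff.1 (by rw [norm_ee]; norm_num)
    rw [hθ, ← om_eq, hQd, a1]
    generalize ee (α - (k : ℝ) ^ 2 / 2 ^ 20) = E at a2
    field_simp
  rw [e1]
  refine key.trans ?_
  have t1 : ‖cx br bi / 2 ^ 32 * ch n * (cz qx qy / 2 ^ 40) - cz x y / 2 ^ 36‖ =
      ‖P * cz qx qy - 2 ^ 76 * cz x y‖ / 2 ^ 112 := by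
    have : cx br bi / 2 ^ 32 * ch n * (cz qx qy / 2 ^ 40) - cz x y / 2 ^ 36 =
        (P * cz qx qy - 2 ^ 76 * cz x y) / 2 ^ 112 := by rw [hP]; ring
    rw [this, norm_div, norm_pow, Complex.norm_two]
  have t2 : ‖cx br bi / 2 ^ 32 * ch n‖ = ‖P‖ / 2 ^ 72 := by
    rw [hP, norm_mul (2 ^ 72 : ℂ), norm_pow, Complex.norm_two]
    field_simp
  have t3 : ‖cz x y / 2 ^ 36‖ = ‖cz x y‖ / 2 ^ 36 := by
    rw [norm_div, norm_pow, Complex.norm_two]
  rw [t1, t2, t3]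
  have g4' : 5 * ((k : ℝ) + 1) ^ 2 * 2 ^ 30 ≤ a4 := by exact_mod_cast g4
  have e4 : e * 2 ^ 76 ≤ a4 := by
    have : n ^ 2 ≤ 4 * ((k : ℝ) + 1) ^ 2 := by rw [hnr]; nlinarith
    have h : e * 2 ^ 76 = 5 * n ^ 2 * 2 ^ 28 := by rw [he]; ring
    rw [h]
    linarith
  have e5 : e ≤ 0.0004 := by
    have h : n ^ 2 ≤ (2 ^ 17) ^ 2 := pow_le_pow_left₀ (by linarith) n17 2
    have h' : e = 5 * n ^ 2 / 2 ^ 48 := by rw [he]; ring
    rw [h', div_le_iff₀ (by positivity)]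
    linarith
  have v0 : (0 : ℝ) ≤ v := Nat.cast_nonneg v
  have u0 : (0 : ℝ) ≤ u := Nat.cast_nonneg u
  have m1 := mul_le_mul_of_nonneg_right g1 v0
  have m2 := mul_le_mul_of_nonneg_right g2 u0
  have m3 := mul_le_mul_of_nonneg_left e4 (norm_nonneg (cz x y))
  have d0 : 0 ≤ c0 + c1 * (v / 2 ^ 36) + c2 * (u / 2 ^ 36) := by positivity
  have m4 : (c0 + c1 * (v / 2 ^ 36) + c2 * (u / 2 ^ 36)) * (1 + e) ≤
      (c0 + c1 * (v / 2 ^ 36) + c2 * (u / 2 ^ 36)) * 1.0004 :=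
    mul_le_mul_of_nonneg_left (by linarith) d0
  have P0 := norm_nonneg P
  have fin : ‖P * cz qx qy - 2 ^ 76 * cz x y‖ / 2 ^ 112 + ‖P‖ / 2 ^ 72 * 2.12e-7 +
      ‖cz x y‖ / 2 ^ 36 * e + (c0 + c1 * (v / 2 ^ 36) + c2 * (u / 2 ^ 36)) * (1 + e) ≤
      T / 2 ^ 112 := by
    generalize ‖P * cz qx qy - 2 ^ 76 * cz x y‖ = A at *
    generalize ‖cz x y‖ = B at *
    generalize ‖P‖ = D at *
    have q1 : (c0 + c1 * (v / 2 ^ 36) + c2 * (u / 2 ^ 36)) * 1.0004 ≤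
        (a0 + a1 * v + a2 * u) / 2 ^ 112 := by
      rw [le_div_iff₀ (by positivity)]
      have : (c0 + c1 * (v / 2 ^ 36) + c2 * (u / 2 ^ 36)) * 1.0004 * 2 ^ 112 =
          c0 * 1.0004 * 2 ^ 112 + c1 * 1.0004 * 2 ^ 76 * v + c2 * 1.0004 * 2 ^ 76 * u := by ring
      rw [this]
      linarith
    have q2 : B / 2 ^ 36 * e ≤ B * a4 / 2 ^ 112 := by
      rw [le_div_iff₀ (by positivity)]
      have : B / 2 ^ 36 * e * 2 ^ 112 = B * (e * 2 ^ 76) := by ring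
      rw [this]
      exact m3
    have q3 : D / 2 ^ 72 * 2.12e-7 ≤ D * 240000 / 2 ^ 112 := by
      rw [le_div_iff₀ (by positivity)]
      have : D / 2 ^ 72 * 2.12e-7 * 2 ^ 112 = D * (2.12e-7 * 2 ^ 40) := by ring
      rw [this]
      exact mul_le_mul_of_nonneg_left (by norm_num) P0
    have q4 : (A + D * 240000 + B * a4 + (a0 + a1 * v + a2 * u)) / 2 ^ 112 ≤ T / 2 ^ 112 :=
      div_le_div_of_nonneg_right hT (by positivity)
    have q5 : (A + D * 240000 + B * a4 + (a0 + a1 * v + a2 * u)) / 2 ^ 112 =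
        A / 2 ^ 112 + D * 240000 / 2 ^ 112 + B * a4 / 2 ^ 112 +
          (a0 + a1 * v + a2 * u) / 2 ^ 112 := by ring
    rw [q5] at q4
    exact le_trans (add_le_add (add_le_add (add_le_add le_rfl q3) q2) (m4.trans q1)) q4
  have n0 : 0 < n := by linarith
  calc _ ≤ 0.955 / n * (T / 2 ^ 112) := mul_le_mul_of_nonneg_left fin (by positivity)
    _ = 0.955 * (T / (n * 2 ^ 52)) / 2 ^ 60 := by field_simp
    _ ≤ _ := by gcongr

end Pool.Agent.Lib.MP_5db4ad_nt.NE
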