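import Pool.Agent.Lib.MP_5db4ad_nt.H96NLaneC

/-!
Lane by lane meaning of the operations on vectors.
-/

namespace Pool.Agent.Lib.MP_5db4ad_nt.NE

open S2 Finset

lemma sig_lt {n p : ℕ} (h : p < 4 * n) : sig n p < 4 * n := by
  unfold sig
  have h1 : p % 4 * n ≤ 3 * n := Nat.mul_le_mul_right n (by omega)
  omega

/-- the inverse of `sig` -/
def tau (n j : ℕ) : ℕ := 4 * (j % n) + j / n

lemma tau_lt {n j : ℕ} (h : j < 4 * n) : tau n j < 4 * n := by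
  unfold tau
  have hn : 0 < n := by omega
  have h1 := Nat.mod_lt j hn
  have h2 : j / n < 4 := Nat.div_lt_of_lt_mul (by omega)
  omega

lemma sig_tau {n j : ℕ} (h : j < 4 * n) : sig n (tau n j) = j := by
  unfold sig tau
  have h2 : j / n < 4 := Nat.div_lt_of_lt_mul (by omega)
  have h3 : (4 * (j % n) + j / n) / 4 = j % n := by
    generalize j / n = a, j % n = b at *
    omega
  have h4 : (4 * (j % n) + j / n) % 4 = j / n := by
    generalize j / n = a, j % n = b at *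
    omega
  rw [h3, h4, mul_comm, Nat.mod_add_div]

lemma tau_sig {n p : ℕ} (h : p < 4 * n) : tau n (sig n p) = p := by
  unfold sig tau
  have hn : 0 < n := by omega
  have h1 : p / 4 < n := by omega
  rw [Nat.add_mul_mod_self_right, Nat.add_mul_div_right _ _ hn, Nat.mod_eq_of_lt h1,
    Nat.div_eq_of_lt h1]
  omega

lemma sig_surj {n j : ℕ} (h : j < 4 * n) : ∃ p < 4 * n, sig n p = j := ⟨tau n j, tau_lt h, sig_tau h⟩

lemma sig_inj {n p q : ℕ} (hp : p < 4 * n) (hq : q < 4 * n) (h : sig n p = sig n q) : p = q := by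
  rw [← tau_sig hp, h, tau_sig hq]

lemma sum_sig {M : Type*} [AddCommMonoid M] (n : ℕ) (φ : ℕ → M) :
    ∑ p ∈ range (4 * n), φ (sig n p) = ∑ j ∈ range (4 * n), φ j := 
  Finset.sum_nbij' (sig n) (tau n) (fun _ h => mem_range.2 (sig_lt (mem_range.1 h)))
    (fun _ h => mem_range.2 (tau_lt (mem_range.1 h))) (fun _ h => tau_sig (mem_range.1 h))
    (fun _ h => sig_tau (mem_range.1 h)) fun _ _ => rfl

lemma LaneB.four (W : ℕ) (g : ℕ → ℕ) :
    pw W 4 g = g 0 + g 1 * 2 ^ W + (g 2 * 2 ^ (W * 2) + g 3 * 2 ^ (W * 3)) := by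
  simp [pw, Finset.sum_range_succ, add_assoc]

lemma LaneB.half (W d : ℕ) {g : ℕ → ℕ} (h : ∀ j < 2 ^ (d + 1), g j < 2 ^ W) :
    Nat.shiftRight (pw W (2 ^ (d + 1)) g) (Nat.shiftLeft W d) =
        pw W (2 ^ d) (fun j => g (2 ^ d + j)) ∧
      pw W (2 ^ (d + 1)) g - Nat.shiftLeft (pw W (2 ^ d) fun j => g (2 ^ d + j))
        (Nat.shiftLeft W d) = pw W (2 ^ d) g := by
  have e : 2 ^ (d + 1) = 2 ^ d + 2 ^ d := by rw [pow_succ, mul_two]
  rw [e] at h ⊢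
  simp only [Nat.shiftLeft_eq', Nat.shiftLeft_eq]
  exact ⟨shr_pw fun j hj => h j (by omega), by rw [pw_split, Nat.add_sub_cancel]⟩

lemma LaneB.floor (a s : ℕ) :
    (a : ℝ) / 2 ^ s - 1 ≤ (a / 2 ^ s : ℕ) ∧ ((a / 2 ^ s : ℕ) : ℝ) ≤ a / 2 ^ s := by
  have h0 : (0 : ℝ) < 2 ^ s := by positivity
  have h1 : ((2 ^ s * (a / 2 ^ s) + a % 2 ^ s : ℕ) : ℝ) = a := by rw [Nat.div_add_mod]
  have h2 : ((a % 2 ^ s : ℕ) : ℝ) ≤ (2 ^ s : ℕ) :=
    Nat.cast_le.2 (Nat.mod_lt a (by positivity)).le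
  have h3 : (0 : ℝ) ≤ (a % 2 ^ s : ℕ) := Nat.cast_nonneg _
  rw [Nat.cast_add, Nat.cast_mul] at h1
  rw [Nat.cast_pow, Nat.cast_ofNat] at h1 h2
  rw [sub_le_iff_le_add, div_le_iff₀ h0, le_div_iff₀ h0]
  constructor <;> nlinarith

lemma ovl_pw {n : ℕ} {f : ℕ → ℕ} (h : ∀ j < 4 * n, f j < 2 ^ 192) :
    ovl n (pw 192 (4 * n) f) = pw 48 (4 * n) fun p => f (sig n p) := by
  have e : ∀ v, ovl n v = cut v (192 * n) +
      Nat.shiftLeft (cut (Nat.shiftRight v (192 * n)) (192 * n)) 48 +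
      (Nat.shiftLeft (cut (Nat.shiftRight v (192 * n * 2)) (192 * n)) 96 +
        Nat.shiftLeft (Nat.shiftRight v (192 * n * 3)) 144) := fun _ => rfl
  have h1 : Nat.shiftRight (pw 192 (4 * n) f) (192 * n) = pw 192 (3 * n) fun j => f (n + j) := by
    rw [show 4 * n = n + 3 * n by ring]
    exact shr_pw fun j hj => h j (by omega)
  have h2 : Nat.shiftRight (pw 192 (4 * n) f) (192 * n * 2) =
      pw 192 (2 * n) fun j => f (2 * n + j) := by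
    rw [show 4 * n = 2 * n + 2 * n by ring, show 192 * n * 2 = 192 * (2 * n) by ring]
    exact shr_pw fun j hj => h j (by omega)
  have h3 : Nat.shiftRight (pw 192 (4 * n) f) (192 * n * 3) =
      pw 192 n fun j => f (3 * n + j) := by
    rw [show 4 * n = 3 * n + n by ring, show 192 * n * 3 = 192 * (3 * n) by ring]
    exact shr_pw fun j hj => h j (by omega)
  rw [e, h1, h2, h3, cut_pw (fun j hj => h j (by omega)) (by omega),
    cut_pw (fun j hj => h _ (by omega)) (by omega), cut_pw (fun j hj => h _ (by omega)) (by omega),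
    pw_shl, pw_shl, pw_shl, pw_add, pw_add, pw_add]
  refine Eq.trans ?_ (pw_pw 48 4 n (fun p q => f (p + q * n)) (by norm_num))
  refine pw_congr fun j _ => ?_
  rw [LaneB.four]
  simp only [zero_mul, zero_add, one_mul, add_comm j]

lemma spr_pw {n : ℕ} {f : ℕ → ℕ} (h : ∀ p < 4 * n, f p < 2 ^ 48) :
    spr n (pw 48 (4 * n) f) = pw 192 (4 * n) fun j => f (tau n j) := by
  have e : ∀ v, spr n v = fld (ow 192 n) v 0 48 + Nat.shiftLeft (fld (ow 192 n) v 48 48) (192 * n) +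
      (Nat.shiftLeft (fld (ow 192 n) v 96 48) (192 * n * 2) +
        Nat.shiftLeft (fld (ow 192 n) v 144 48) (192 * n * 3)) := fun _ => rfl
  have h0 : pw 48 (4 * n) f = pw 192 n fun p => pw 48 4 fun q => f (4 * p + q) := by
    refine Eq.trans ?_ (pw_pw 48 4 n (fun p q => f (4 * p + q)) (by norm_num)).symm
    exact pw_congr fun j _ => by rw [Nat.div_add_mod]
  have hb : ∀ p < n, ∀ q < 4, f (4 * p + q) < 2 ^ 48 := fun p hp q hq => h _ (by omega)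
  have h1 : ∀ q < 4, fld (ow 192 n) (pw 48 (4 * n) f) (48 * q) 48 =
      pw 192 n fun p => f (4 * p + q) := fun q hq => by
    rw [h0, fld_pw (by norm_num) (fun p hp => pw_lt (W := 48) (n := 4) (hb p hp)) (by omega)]
    exact pw_congr fun p hp => pw_lane (hb p hp) hq
  rw [e, h1 0 (by norm_num), h1 1 (by norm_num), h1 2 (by norm_num), h1 3 (by norm_num)]
  rcases Nat.eq_zero_or_pos n with rfl | hn
  · simp [pw]
  rw [mul_comm 4 n]
  refine Eq.trans ?_ (pw_pw 192 n 4 (fun q p => f (4 * p + q)) hn)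
  rw [LaneB.four]
  simp only [Nat.shiftLeft_eq', Nat.shiftLeft_eq]

lemma cmb_pw {n : ℕ} {f g : ℕ → ℕ} (hf : ∀ p < 4 * n, f p < 2 ^ 48) (hg : ∀ p < 4 * n, g p < 2 ^ 48) :
    cmb n (pw 48 (4 * n) f) (pw 48 (4 * n) g) =
      pw 192 (4 * n) fun j => f (tau n j) + g (tau n j) * 2 ^ 64 := by
  have e : ∀ a b, cmb n a b = spr n a + Nat.shiftLeft (spr n b) 64 := fun _ _ => rfl
  rw [e, spr_pw hf, spr_pw hg, pw_shl, pw_add]

lemma wtN_pw {d s : ℕ} {f : ℕ → ℕ} (hd : 2 ≤ d) (h : ∀ j < 2 ^ d, f j < 2 ^ 192) (hs : s + 48 ≤ 192) :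
    wtN d (pw 192 (2 ^ d) f) s = pw 48 (2 ^ d) fun p => f (sig (2 ^ (d - 2)) p) / 2 ^ s % 2 ^ 48 :=
  by
    have e : ∀ v, wtN d v s = ovl (p2 (d - 2)) (fld (ow 192 (4 * p2 (d - 2))) v s 48) :=
      fun _ => rfl
    have e4 : 4 * 2 ^ (d - 2) = 2 ^ d := by
      obtain ⟨k, rfl⟩ := Nat.exists_eq_add_of_le hd
      rw [Nat.add_sub_cancel_left, pow_add]
      norm_num
    rw [e, p2_eq]
    generalize 2 ^ (d - 2) = n at e4 ⊢
    rw [← e4] at h ⊢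
    rw [fld_pw (by norm_num) h hs, ovl_pw fun j _ =>
      (Nat.mod_lt _ (by positivity)).trans (by norm_num)]

lemma mapT_eq (W : ℕ) (f : ℕ → ℕ) (d i : ℕ) :
    mapT W f d i = pw W (2 ^ d) fun j => f (i + j) := by
  induction d generalizing i with
  | zero => simp [mapT, pw]
  | succ d ih =>
    have e : mapT W f (d + 1) i = mapT W f d i +
        Nat.shiftLeft (mapT W f d (i + Nat.shiftLeft 1 d)) (Nat.shiftLeft W d) := by
      unfold mapT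
      simp only [fz_eq]
      rfl
    rw [e, ih, ih, pow_succ, mul_two, pw_split]
    simp only [Nat.shiftLeft_eq', Nat.shiftLeft_eq, one_mul, add_assoc]

lemma mapV_pw {W d : ℕ} (f : ℕ → ℕ) {g : ℕ → ℕ} (h : ∀ j < 2 ^ d, g j < 2 ^ 192) :
    mapV W f d (pw 192 (2 ^ d) g) = pw W (2 ^ d) fun j => f (g j) := by
  induction d generalizing g with
  | zero => simp [mapV, pw]
  | succ d ih =>
    have e : ∀ v, mapV W f (d + 1) v = mapV W f d (v - Nat.shiftLeft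
        (Nat.shiftRight v (Nat.shiftLeft 192 d)) (Nat.shiftLeft 192 d)) + Nat.shiftLeft
        (mapV W f d (Nat.shiftRight v (Nat.shiftLeft 192 d))) (Nat.shiftLeft W d) := fun v => by
      unfold mapV
      simp only [fz_eq]
      rfl
    obtain ⟨h1, h2⟩ := LaneB.half 192 d h
    rw [pow_succ] at h
    rw [e, h1, h2, ih fun j hj => h j (by omega), ih fun j hj => h _ (by omega), pow_succ, mul_two,
      pw_split]
    simp only [Nat.shiftLeft_eq', Nat.shiftLeft_eq]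

lemma foldT_pw {d : ℕ} (f : ℕ → ℕ → ℕ → ℕ → ℕ) (n : ℕ) {v w b : ℕ → ℕ}
    (h : ∀ j < 2 ^ d, v j < 2 ^ 192 ∧ w j < 2 ^ 192 ∧ b j < 2 ^ 64) :
    foldT f d n (pw 192 (2 ^ d) v) (pw 192 (2 ^ d) w) (pw 64 (2 ^ d) b) =
      ∑ j ∈ range (2 ^ d), f (n + 2 * j) (v j) (w j) (b j) := by
  induction d generalizing n v w b with
  | zero => simp [foldT, pw]
  | succ d ih =>
    have e : ∀ v w b, foldT f (d + 1) n v w b = foldT f d n
        (v - Nat.shiftLeft (Nat.shiftRight v (Nat.shiftLeft 192 d)) (Nat.shiftLeft 192 d))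
        (w - Nat.shiftLeft (Nat.shiftRight w (Nat.shiftLeft 192 d)) (Nat.shiftLeft 192 d))
        (b - Nat.shiftLeft (Nat.shiftRight b (Nat.shiftLeft 64 d)) (Nat.shiftLeft 64 d)) +
        foldT f d (n + Nat.shiftLeft 2 d) (Nat.shiftRight v (Nat.shiftLeft 192 d))
          (Nat.shiftRight w (Nat.shiftLeft 192 d)) (Nat.shiftRight b (Nat.shiftLeft 64 d)) :=
      fun v w b => by
        unfold foldT
        simp only [fz_eq]
        rfl
    obtain ⟨h1, h2⟩ := LaneB.half 192 d fun j hj => (h j hj).1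
    obtain ⟨h3, h4⟩ := LaneB.half 192 d fun j hj => (h j hj).2.1
    obtain ⟨h5, h6⟩ := LaneB.half 64 d fun j hj => (h j hj).2.2
    rw [pow_succ] at h
    rw [e, h1, h2, h3, h4, h5, h6, ih _ fun j hj => h j (by omega),
      ih _ fun j hj => h _ (by omega), pow_succ, mul_two, Finset.sum_range_add]
    simp only [Nat.shiftLeft_eq', Nat.shiftLeft_eq, mul_add, add_assoc]

lemma angW_pw {n s : ℕ} {f : ℕ → ℕ} (h : ∀ j < 4 * n, f j + 2 ^ (s + 43) < 2 ^ 192)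
    (hs : s + 44 ≤ 192) :
    AN (4 * n) (angW n (pw 192 (4 * n) f) s) (fun p => f (sig n p) / 2 ^ (s + 44)) (1 / 2 ^ 44) ∧
    (s = 0 → AN (4 * n) (angW n (pw 192 (4 * n) f) s) (fun p => f (sig n p) / 2 ^ 44) 0) := by
  have e : ∀ v, angW n v s = ovl n (fld (ow 192 (4 * n)) (v + Nat.shiftLeft (ow 192 (4 * n))
      (s + 43)) s 44) + ow 48 (4 * n) * 61572651155456 := fun _ => rfl
  rw [e, ow_shl (by norm_num), pw_add, fld_pw (by norm_num) h hs, ovl_pw (fun j _ =>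
    (Nat.mod_lt _ (by positivity)).trans (by norm_num)), ow_mul (by norm_num), pw_add]
  have key : ∀ a : ℕ, |sv ((a + 2 ^ (s + 43)) / 2 ^ s % 2 ^ 44 + 61572651155456)| ≤ 2 ^ 43 ∧
      ∃ m : ℤ, sv ((a + 2 ^ (s + 43)) / 2 ^ s % 2 ^ 44 + 61572651155456) / 2 ^ 44 - m =
        (a / 2 ^ s : ℕ) / 2 ^ 44 := fun a => by
    rw [pow_add, mul_comm (2 ^ s), Nat.add_mul_div_right _ _ (by positivity)]
    generalize a / 2 ^ s = c
    have h1 : (((c + 2 ^ 43) % 2 ^ 44 : ℕ) : ℝ) ≤ (2 ^ 44 : ℕ) :=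
      Nat.cast_le.2 (Nat.mod_lt _ (by positivity)).le
    have h2 : (0 : ℝ) ≤ ((c + 2 ^ 43) % 2 ^ 44 : ℕ) := Nat.cast_nonneg _
    have h3 : ((2 ^ 44 * ((c + 2 ^ 43) / 2 ^ 44) + (c + 2 ^ 43) % 2 ^ 44 : ℕ) : ℝ) =
        (c + 2 ^ 43 : ℕ) := by rw [Nat.div_add_mod]
    generalize (c + 2 ^ 43) % 2 ^ 44 = r, (c + 2 ^ 43) / 2 ^ 44 = k at *
    unfold sv
    push_cast at *
    refine ⟨abs_le.2 ⟨by linarith, by linarith⟩, -k, ?_⟩
    push_cast
    linarith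
  refine ⟨⟨_, rfl, fun p _ => ?_⟩, fun hs0 => ⟨_, rfl, fun p _ => ?_⟩⟩
  · obtain ⟨h1, m, hm⟩ := key (f (sig n p))
    refine ⟨h1, m, ?_⟩
    obtain ⟨h2, h3⟩ := LaneB.floor (f (sig n p)) s
    beta_reduce
    rw [sub_right_comm, hm, pow_add, ← div_div, abs_le]
    constructor <;> linarith
  · obtain ⟨h1, m, hm⟩ := key (f (sig n p))
    refine ⟨h1, m, ?_⟩
    rw [sub_right_comm, hm, hs0]
    simp

lemma AN.congr {n T : ℕ} {θ θ' : ℕ → ℝ} {e e' : ℝ} (h : AN n T θ e)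
    (h' : ∀ p < n, ∃ m : ℤ, |θ p - θ' p - m| ≤ e') : AN n T θ' (e + e') := by
  obtain ⟨t, ht, h⟩ := h
  refine ⟨t, ht, fun p hp => ⟨(h p hp).1, ?_⟩⟩
  obtain ⟨m, hm⟩ := (h p hp).2
  obtain ⟨m', hm'⟩ := h' p hp
  refine ⟨m + m', ?_⟩
  rw [abs_le] at *
  push_cast
  constructor <;> linarith [hm.1, hm.2, hm'.1, hm'.2]

lemma rdN_pw {n s w : ℕ} {f : ℕ → ℕ} (hs : 1 ≤ s) (hw : 1 ≤ w) (hsw : s + w ≤ 47)
    (h : ∀ p < n, |sv (f p)| + 2 ^ (s - 1) < 2 ^ (s + w - 1)) :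
    ∃ r : ℕ → ℕ, rdN (ow 48 n) (pw 48 n f) s w = pw 48 n r ∧
      ∀ p < n, r p < 2 ^ w ∧ |(r p : ℝ) - 2 ^ (w - 1) - sv (f p) / 2 ^ s| ≤ 1 / 2 := by
  have e : ∀ o x, rdN o x s w = fld o (x + o * (p2 (s - 1) + p2 (s + w - 1)) -
      Nat.shiftLeft o 46) s w := fun _ _ => rfl
  obtain ⟨s, rfl⟩ := Nat.exists_eq_add_of_le' hs
  obtain ⟨w, rfl⟩ := Nat.exists_eq_add_of_le' hw
  have e1 : s + 1 + (w + 1) - 1 = s + w + 1 := by omega
  rw [e]
  simp only [p2_eq, e1, Nat.add_sub_cancel] at *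
  have key : ∀ p < n, 2 ^ 46 ≤ f p + (2 ^ s + 2 ^ (s + w + 1)) ∧
      f p + (2 ^ s + 2 ^ (s + w + 1)) - 2 ^ 46 < 2 ^ (s + 1) * 2 ^ (w + 1) := fun p hp => by
    have h1 := h p hp
    have h2 := abs_le.1 (le_refl |sv (f p)|)
    have h0 : (0 : ℝ) < 2 ^ s := by positivity
    have h3 : 2 ^ 46 ≤ f p + (2 ^ s + 2 ^ (s + w + 1)) := by
      have : (2 : ℝ) ^ 46 ≤ f p + (2 ^ s + 2 ^ (s + w + 1)) := by
        unfold sv at *
        linarith [h2.1]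
      exact_mod_cast this
    refine ⟨h3, ?_⟩
    have h4 : f p + 2 ^ s < 2 ^ (s + w + 1) + 2 ^ 46 := by
      have : (f p : ℝ) + 2 ^ s < 2 ^ (s + w + 1) + 2 ^ 46 := by
        unfold sv at *
        linarith [h2.2]
      exact_mod_cast this
    have h5 : 2 ^ (s + 1) * 2 ^ (w + 1) = 2 * 2 ^ (s + w + 1) := by ring
    omega
  have hle : 2 ^ (s + 1) * 2 ^ (w + 1) ≤ 2 ^ 48 := by
    rw [← pow_add]
    exact Nat.pow_le_pow_right (by norm_num) (by omega)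
  rw [ow_shl (by norm_num), ow_mul (by norm_num), pw_add, pw_sub fun p hp => (key p hp).1,
    fld_pw (by norm_num) (fun p hp => (key p hp).2.trans_le hle) (by omega)]
  refine ⟨_, rfl, fun p hp => ⟨Nat.mod_lt _ (by positivity), ?_⟩⟩
  rw [Nat.mod_eq_of_lt (Nat.div_lt_of_lt_mul (key p hp).2)]
  obtain ⟨h2, h3⟩ := LaneB.floor (f p + (2 ^ s + 2 ^ (s + w + 1)) - 2 ^ 46) (s + 1)
  have h4 : ((f p + (2 ^ s + 2 ^ (s + w + 1)) - 2 ^ 46 : ℕ) : ℝ) / 2 ^ (s + 1) =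
      sv (f p) / 2 ^ (s + 1) + 1 / 2 + 2 ^ w := by
    rw [Nat.cast_sub (key p hp).1]
    unfold sv
    push_cast
    field_simp
    ring
  rw [h4] at h2 h3
  rw [abs_le]
  constructor <;> linarith

lemma dv4_pw {n : ℕ} {f : ℕ → ℕ} (h : ∀ p < n, f p < 2 ^ 47) :
    ∃ r : ℕ → ℕ, dv4 (ow 48 n) (pw 48 n f) = pw 48 n r ∧
      ∀ p < n, |sv (r p) - sv (f p) / 16| ≤ 1 := by
  have e : ∀ o x, dv4 o x = fld o x 4 43 + o * 65970697666560 := fun _ _ => rfl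
  rw [e, fld_pw (by norm_num) (fun p hp => (h p hp).trans (by norm_num)) (by norm_num),
    ow_mul (by norm_num), pw_add]
  refine ⟨_, rfl, fun p hp => ?_⟩
  have h1 := h p hp
  rw [Nat.mod_eq_of_lt (by omega)]
  obtain ⟨h2, h3⟩ := LaneB.floor (f p) 4
  unfold sv
  rw [Nat.cast_add, abs_le]
  generalize ((f p / 2 ^ 4 : ℕ) : ℝ) = c at *
  push_cast
  constructor <;> linarith

lemma lt_of_sv {a : ℕ} (h : |sv a| < 2 ^ 46) : 0 < a ∧ a < 2 ^ 47 := by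
  unfold sv at h
  rw [abs_lt] at h
  have h1 : (0 : ℝ) < a := by linarith [h.1]
  have h2 : (a : ℝ) < 2 ^ 47 := by linarith [h.2]
  exact ⟨by exact_mod_cast h1, by exact_mod_cast h2⟩

lemma sv_le_norm (a b : ℕ) : |sv a| ≤ ‖cz a b‖ ∧ |sv b| ≤ ‖cz a b‖ := 
  ⟨Complex.abs_re_le_norm (cz a b), Complex.abs_im_le_norm (cz a b)⟩

lemma VN.mono {n X Y : ℕ} {z z' : ℕ → ℂ} {e e' : ℕ → ℝ} (h : VN n X Y z e)
    (h' : ∀ p < n, e p + ‖z p - z' p‖ ≤ e' p) : VN n X Y z' e' := by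
  obtain ⟨f, g, hf, hg, h⟩ := h
  refine ⟨f, g, hf, hg, fun p hp => ?_⟩
  have := norm_sub_le_norm_sub_add_norm_sub (cz (f p) (g p)) (z p) (z' p)
  linarith [h p hp, h' p hp]

lemma LaneB.bd {a b : ℕ} {z : ℂ} {e : ℝ} (h : ‖cz a b - z‖ ≤ e) :
    |sv a| ≤ ‖z‖ + e ∧ |sv b| ≤ ‖z‖ + e := by
  have h1 := norm_sub_norm_le (cz a b) z
  have h2 := sv_le_norm a b
  constructor <;> linarith [h2.1, h2.2]

lemma LaneB.add {a b : ℕ} {u v : ℝ} (ha : |sv a| ≤ u) (hb : |sv b| ≤ v) (h : u + v ≤ 2 ^ 46) :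
    2 ^ 46 ≤ a + b ∧ sv (a + b - 2 ^ 46) = sv a + sv b := by
  unfold sv at *
  have h1 : (2 : ℝ) ^ 46 ≤ a + b := by linarith [(abs_le.1 ha).1, (abs_le.1 hb).1]
  have h2 : 2 ^ 46 ≤ a + b := by exact_mod_cast h1
  refine ⟨h2, ?_⟩
  rw [Nat.cast_sub h2]
  push_cast
  ring

lemma VN.add {n X Y X' Y' : ℕ} {z z' : ℕ → ℂ} {e e' : ℕ → ℝ} (h : VN n X Y z e)
    (h' : VN n X' Y' z' e') (hb : ∀ p < n, ‖z p‖ + e p + ‖z' p‖ + e' p ≤ 2 ^ 46) :
    VN n (X + X' - Nat.shiftLeft (ow 48 n) 46) (Y + Y' - Nat.shiftLeft (ow 48 n) 46)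
      (fun p => z p + z' p) fun p => e p + e' p := by
  obtain ⟨f, g, rfl, rfl, h⟩ := h
  obtain ⟨f', g', rfl, rfl, h'⟩ := h'
  have k1 := fun p hp => LaneB.add (LaneB.bd (h p hp)).1 (LaneB.bd (h' p hp)).1
    (by linarith [hb p hp])
  have k2 := fun p hp => LaneB.add (LaneB.bd (h p hp)).2 (LaneB.bd (h' p hp)).2
    (by linarith [hb p hp])
  rw [ow_shl (by norm_num), pw_add, pw_add, pw_sub fun p hp => (k1 p hp).1,
    pw_sub fun p hp => (k2 p hp).1]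
  refine ⟨_, _, rfl, rfl, fun p hp => ?_⟩
  have e1 : cz (f p + f' p - 2 ^ 46) (g p + g' p - 2 ^ 46) - (z p + z' p) =
      (cz (f p) (g p) - z p) + (cz (f' p) (g' p) - z' p) := by
    have : cz (f p + f' p - 2 ^ 46) (g p + g' p - 2 ^ 46) = cz (f p) (g p) + cz (f' p) (g' p) :=
      Complex.ext (k1 p hp).2 (k2 p hp).2
    rw [this]
    ring
  rw [e1]
  exact (norm_add_le _ _).trans (add_le_add (h p hp) (h' p hp))

lemma VN.conj {n X Y : ℕ} {z : ℕ → ℂ} {e : ℕ → ℝ} (h : VN n X Y z e)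
    (hb : ∀ p < n, ‖z p‖ + e p ≤ 2 ^ 46) :
    VN n X (Nat.shiftLeft (ow 48 n) 47 - Y) (fun p => (starRingEnd ℂ) (z p)) e := by
  obtain ⟨f, g, rfl, rfl, h⟩ := h
  have k : ∀ p < n, g p ≤ 2 ^ 47 := fun p hp => by
    have h1 := (abs_le.1 ((LaneB.bd (h p hp)).2.trans (hb p hp))).2
    unfold sv at h1
    have : (g p : ℝ) ≤ 2 ^ 47 := by linarith
    exact_mod_cast this
  rw [ow_shl (by norm_num), pw_sub k]
  refine ⟨_, _, rfl, rfl, fun p hp => ?_⟩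
  have e1 : cz (f p) (2 ^ 47 - g p) = (starRingEnd ℂ) (cz (f p) (g p)) := by
    refine Complex.ext rfl ?_
    change sv (2 ^ 47 - g p) = -sv (g p)
    unfold sv
    rw [Nat.cast_sub (k p hp)]
    push_cast
    ring
  rw [e1, ← map_sub, Complex.norm_conj]
  exact h p hp

/-- a vector of real numbers -/
lemma VN_real (n : ℕ) (f : ℕ → ℕ) :
    VN n (pw 48 n f) (Nat.shiftLeft (ow 48 n) 46) (fun p => (sv (f p) : ℂ)) fun _ => 0 := by
  rw [ow_shl (by norm_num)]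
  refine ⟨_, _, rfl, rfl, fun p _ => ?_⟩
  have e1 : cz (f p) (2 ^ 46) = (sv (f p) : ℂ) := Complex.ext rfl (by
    change sv (2 ^ 46) = 0
    unfold sv
    push_cast
    norm_num)
  rw [e1, sub_self, norm_zero]

end Pool.Agent.Lib.MP_5db4ad_nt.NE
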