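import Pool.Agent.Lib.MP_5db4ad_nt.EqFix
import Pool.Agent.Lib.MP_5db4ad_nt.H96NLaneB
import Pool.Agent.Lib.MP_5db4ad_nt.UnitSpec

/-!
The phases of the dual sum.
-/

namespace Pool.Agent.Lib.MP_5db4ad_nt.NE

open S2 Finset
open scoped Real

namespace H96NPh

lemma nn (F F' : ℝ → ℝ) (hd : ∀ x, 0 ≤ x → HasDerivAt F (F' x) x) (h0 : F 0 = 0)
    (hp : ∀ x, 0 ≤ x → 0 ≤ F' x) : ∀ x, 0 ≤ x → 0 ≤ F x := by
  intro x hx
  have hm : MonotoneOn F (Set.Ici 0) := by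
    refine monotoneOn_of_deriv_nonneg (convex_Ici 0)
      (fun y hy => (hd y hy).continuousAt.continuousWithinAt)
      (fun y hy => (hd y (interior_subset hy)).differentiableAt.differentiableWithinAt)
      fun y hy => ?_
    rw [(hd y (interior_subset hy)).deriv]
    exact hp y (interior_subset hy)
  have := hm (Set.mem_Ici.2 le_rfl) (Set.mem_Ici.2 hx) hx
  rwa [h0] at this

/-- the polynomial that approximates `log (1 + x)` -/
noncomputable def s1 (x : ℝ) : ℝ :=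
  x - x ^ 2 / 2 + x ^ 3 / 3 - x ^ 4 / 4 + x ^ 5 / 5 - x ^ 6 / 6 + x ^ 7 / 7

/-- the polynomial that approximates `(1 + x) log (1 + x) - x` -/
noncomputable def s2 (x : ℝ) : ℝ :=
  x ^ 2 / 2 - x ^ 3 / 6 + x ^ 4 / 12 - x ^ 5 / 20 + x ^ 6 / 30 - x ^ 7 / 42 + x ^ 8 / 56

lemma d_s1 (x : ℝ) : HasDerivAt s1 (1 - x + x ^ 2 - x ^ 3 + x ^ 4 - x ^ 5 + x ^ 6) x := by
  have h := (((((((hasDerivAt_id' x).fun_sub ((hasDerivAt_pow 2 x).div_const 2)).fun_add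
    ((hasDerivAt_pow 3 x).div_const 3)).fun_sub ((hasDerivAt_pow 4 x).div_const 4)).fun_add
    ((hasDerivAt_pow 5 x).div_const 5)).fun_sub ((hasDerivAt_pow 6 x).div_const 6)).fun_add
    ((hasDerivAt_pow 7 x).div_const 7))
  exact h.congr_deriv (by push_cast; ring)

lemma d_s2 (x : ℝ) : HasDerivAt s2 (s1 x) x := by
  have h := ((((((((hasDerivAt_pow 2 x).div_const 2).fun_sub
    ((hasDerivAt_pow 3 x).div_const 6)).fun_add
    ((hasDerivAt_pow 4 x).div_const 12)).fun_sub ((hasDerivAt_pow 5 x).div_const 20)).fun_add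
    ((hasDerivAt_pow 6 x).div_const 30)).fun_sub ((hasDerivAt_pow 7 x).div_const 42)).fun_add
    ((hasDerivAt_pow 8 x).div_const 56))
  exact h.congr_deriv (by unfold s1; push_cast; ring)

lemma d_log {x : ℝ} (hx : 0 ≤ x) : HasDerivAt (fun y => Real.log (1 + y)) (1 / (1 + x)) x :=
  ((hasDerivAt_id' x).const_add 1).log (by positivity)

lemma d_phi {x : ℝ} (hx : 0 ≤ x) :
    HasDerivAt (fun y => (1 + y) * Real.log (1 + y) - y) (Real.log (1 + x)) x := by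
  have h := (((hasDerivAt_id' x).const_add 1).fun_mul (d_log hx)).fun_sub (hasDerivAt_id' x)
  refine h.congr_deriv ?_
  field_simp
  ring

lemma log_up : ∀ x, 0 ≤ x → 0 ≤ s1 x - Real.log (1 + x) := by
  refine nn _ (fun x => x ^ 7 / (1 + x)) (fun x hx => ?_) (by simp [s1]) fun x hx => by positivity
  refine ((d_s1 x).fun_sub (d_log hx)).congr_deriv ?_
  field_simp
  ring

lemma log_lo : ∀ x, 0 ≤ x → 0 ≤ Real.log (1 + x) - s1 x + x ^ 8 / 8 := by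
  refine nn _ (fun x => x ^ 8 / (1 + x)) (fun x hx => ?_) (by simp [s1]) fun x hx => by positivity
  refine (((d_log hx).fun_sub (d_s1 x)).fun_add ((hasDerivAt_pow 8 x).div_const 8)).congr_deriv ?_
  push_cast
  field_simp
  ring

lemma phi_rem {x : ℝ} (hx : 0 ≤ x) :
    |(1 + x) * Real.log (1 + x) - x - s2 x| ≤ x ^ 9 / 72 := by
  have h1 : ∀ x, 0 ≤ x → 0 ≤ s2 x - ((1 + x) * Real.log (1 + x) - x) :=
    nn _ _ (fun x hx => (d_s2 x).fun_sub (d_phi hx)) (by simp [s2]) log_up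
  have h2 : ∀ x, 0 ≤ x → 0 ≤ ((1 + x) * Real.log (1 + x) - x) - s2 x + x ^ 9 / 72 := by
    refine nn _ _ (fun x hx => ?_) (by simp [s2]) log_lo
    refine (((d_phi hx).fun_sub (d_s2 x)).fun_add
      ((hasDerivAt_pow 9 x).div_const 72)).congr_deriv ?_
    push_cast
    ring
  have h3 : 0 ≤ x ^ 9 / 72 := by positivity
  rw [abs_le]
  constructor <;> linarith [h1 x hx, h2 x hx]

lemma nth3_mem (l : L3) : ∀ (i m : ℕ), (l.toList.map (·.1))[i]? = some m →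
    ∃ e ∈ l.toList, e.1 = m ∧ e.2.2 = nth3 l i := by
  induction l with
  | nil => intro i m h; simp [L3.toList] at h
  | cons a b g t ih =>
    intro i m h
    cases i with
    | zero =>
      refine ⟨(a, b, g), by simp [L3.toList], ?_, rfl⟩
      simpa [L3.toList] using h
    | succ i =>
      obtain ⟨e, he, h1, h2⟩ := ih i m (by simpa [L3.toList] using h)
      exact ⟨e, by simp [L3.toList, he], h1, h2⟩

lemma nth3_ok (ho : StOdds) {c : ℕ} (hc : c ≤ 8191) :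
    |(nth3 (odds1 c) c : ℝ) / 2 ^ 64 - Real.log (2 * c + 1 : ℕ) / Real.log 2| ≤ 1 / 2 ^ 62 := by
  obtain ⟨h1, h2, -⟩ := ho c hc
  have h3 : (odds1 c).toList = (1, 0, 0) :: (odds c 1 0).toList := rfl
  have h4 : (odds1 c).toList.map (·.1) = (List.range (c + 1)).map fun i => 2 * i + 1 := by
    rw [h3, List.map_cons, h1, List.range_succ_eq_map, List.map_cons, List.map_map]
    rfl
  obtain ⟨e, he, h5, h6⟩ := nth3_mem (odds1 c) c (2 * c + 1) (by rw [h4]; simp)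
  rw [← h6, ← h5]
  rw [h3, List.mem_cons] at he
  rcases he with rfl | he
  · simp
  · exact (h2 e he).2

lemma lam_ok (ht : StTab) (ho : StOdds) {c e k0 : ℕ} (hc : c ≤ 8191)
    (hk : k0 = (2 * c + 1) * 2 ^ e) :
    |(lam c e : ℝ) / 2 ^ 64 - Real.log (k0 / Real.log 2) / Real.log 2| ≤ 1 / 2 ^ 55 := by
  have h1 := nth3_ok ho hc
  have h2 := ht.2.2.2.2.2.1
  have hl : 0 < Real.log 2 := Real.log_pos (by norm_num)
  have e1 : lam c e = nth3 (odds1 c) c + e * 2 ^ 64 + 9754017956498184655 := by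
    rw [← Nat.shiftLeft_eq]
    rfl
  have e2 : Real.log (k0 / Real.log 2) =
      Real.log (2 * c + 1 : ℕ) + e * Real.log 2 - Real.log (Real.log 2) := by
    rw [hk, Nat.cast_mul, Nat.cast_pow, Real.log_div (by positivity) hl.ne',
      Real.log_mul (by positivity) (by positivity), Real.log_pow]
    rfl
  have e3 : (lam c e : ℝ) / 2 ^ 64 - Real.log (k0 / Real.log 2) / Real.log 2 =
      ((nth3 (odds1 c) c : ℝ) / 2 ^ 64 - Real.log (2 * c + 1 : ℕ) / Real.log 2) +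
      ((9754017956498184655 : ℝ) / 2 ^ 64 + Real.log (Real.log 2) / Real.log 2) := by
    rw [e1, e2]
    generalize nth3 (odds1 c) c = g
    push_cast
    field_simp
    ring
  rw [e3]
  refine (abs_add_le _ _).trans ((add_le_add h1 h2).trans (by norm_num))

lemma inv_ok : |(26613026195688644983 : ℝ) / 2 ^ 64 - 1 / Real.log 2| ≤ 1 / 2 ^ 64 := by
  obtain ⟨h1, h2⟩ := log_two_bounds
  have hl : 0 < Real.log 2 := by linarith
  have h3 : 1 / Real.log 2 ≤ 26613026195688644984 / 2 ^ 64 := by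
    rw [div_le_div_iff₀ hl (by positivity)]
    linarith
  have h4 : (26613026195688644983 : ℝ) / 2 ^ 64 ≤ 1 / Real.log 2 := by
    rw [div_le_div_iff₀ (by positivity) hl]
    linarith
  rw [abs_le]
  constructor <;> linarith

lemma div_bd (a : ℕ) {b : ℕ} (hb : 0 < b) :
    (a : ℝ) / b - 1 ≤ (a / b : ℕ) ∧ ((a / b : ℕ) : ℝ) ≤ a / b := by
  refine ⟨?_, Nat.cast_div_le⟩
  have h0 : (0 : ℝ) < b := by exact_mod_cast hb
  have h1 : ((b * (a / b) + a % b : ℕ) : ℝ) = a := by rw [Nat.div_add_mod]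
  have h2 : ((a % b : ℕ) : ℝ) ≤ b := by exact_mod_cast (Nat.mod_lt a hb).le
  rw [sub_le_iff_le_add, div_le_iff₀ h0]
  rw [Nat.cast_add, Nat.cast_mul] at h1
  linarith

lemma term {k u m r : ℕ} (hk : 1 ≤ k) (hk2 : k ≤ 2 ^ 23) (hm : 1 ≤ m) (hr : m + 1 + r = 96)
    (hu : u ≤ 2 * k) :
    |((u ^ (m + 1) * cN k (m + 1) : ℕ) : ℝ) / 2 ^ 160 -
      k * ((u : ℝ) / (2 * k)) ^ (m + 1) / ((m + 1) * m) / Real.log 2| ≤
        (u : ℝ) ^ (m + 1) / 2 ^ 160 + 1 / 2 ^ 41 ∧ u ^ (m + 1) * cN k (m + 1) ≤ 2 ^ 184 := by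
  have e1 : cN k (m + 1) = 26613026195688644983 * 2 ^ r / ((m + 1) * m * k ^ m) := by
    rw [← Nat.shiftLeft_eq, show r = 96 - (m + 1) by omega]
    rfl
  have hk0 : (0 : ℝ) < k := by exact_mod_cast hk
  have hm0 : (1 : ℝ) ≤ m := by exact_mod_cast hm
  have hk3 : (k : ℝ) ≤ 2 ^ 23 := by exact_mod_cast hk2
  obtain ⟨h1, h2⟩ := div_bd (26613026195688644983 * 2 ^ r) (b := (m + 1) * m * k ^ m)
    (by positivity)
  rw [← e1] at h1 h2
  generalize cN k (m + 1) = C at *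
  have hx : (u : ℝ) / (2 * k) ≤ 1 := by
    rw [div_le_one (by positivity)]
    exact_mod_cast hu
  have hx1 : ((u : ℝ) / (2 * k)) ^ (m + 1) ≤ 1 := pow_le_one₀ (by positivity) hx
  obtain ⟨X, hX⟩ : ∃ X : ℝ, X = k * ((u : ℝ) / (2 * k)) ^ (m + 1) / ((m + 1) * m) := ⟨_, rfl⟩
  have hX0 : 0 ≤ X := by rw [hX]; positivity
  have hX1 : X ≤ 2 ^ 23 := by
    rw [hX, div_le_iff₀ (by positivity)]
    have := mul_le_mul hk3 hx1 (by positivity) (by positivity)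
    nlinarith
  have e2 : (u : ℝ) ^ (m + 1) / 2 ^ 160 * (((26613026195688644983 * 2 ^ r : ℕ) : ℝ) /
      ((m + 1) * m * k ^ m : ℕ)) = X * (26613026195688644983 / 2 ^ 64) := by
    have e3 : (2 : ℝ) ^ 160 = 2 ^ (m + 1) * 2 ^ r * 2 ^ 64 := by
      rw [← pow_add, ← pow_add, hr]
    rw [hX, e3, div_pow, mul_pow, pow_succ (k : ℝ) m]
    generalize (2 : ℝ) ^ 64 = w
    push_cast
    field_simp
  have hp : 0 ≤ (u : ℝ) ^ (m + 1) / 2 ^ 160 := by positivity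
  have h3 := mul_le_mul_of_nonneg_left h1 hp
  have h4 := mul_le_mul_of_nonneg_left h2 hp
  rw [mul_sub, e2, mul_one] at h3
  rw [e2] at h4
  have e4 : ((u ^ (m + 1) * C : ℕ) : ℝ) / 2 ^ 160 = (u : ℝ) ^ (m + 1) / 2 ^ 160 * C := by
    rw [Nat.cast_mul, Nat.cast_pow]
    ring
  have h5 := abs_le.1 inv_ok
  have h6 := mul_le_mul_of_nonneg_left h5.1 hX0
  have h7 := mul_le_mul_of_nonneg_left h5.2 hX0
  constructor
  · rw [← hX, e4, div_eq_mul_one_div X, abs_le]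
    constructor <;> linarith
  · have h8 : ((u ^ (m + 1) * C : ℕ) : ℝ) / 2 ^ 160 ≤ 2 ^ 24 := by
      rw [e4]
      linarith
    rw [div_le_iff₀ (by positivity), ← pow_add] at h8
    exact_mod_cast h8

/-- the part of a lane that is added -/
def Pp (k0 lg lm f u : ℕ) : ℕ :=
  1569275434029357895625310220577377208115124238573000196096 + k0 * 26613026195688644983 * 2 ^ 96 -
    k0 * lg * 2 ^ 96 + f * 2 ^ (158 - lm) +
    (u ^ 3 * cN k0 3 + u ^ 5 * cN k0 5 + u ^ 7 * cN k0 7)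

/-- the part of a lane that is subtracted -/
def Ng (k0 lg u : ℕ) : ℕ :=
  u ^ 1 * (lg * 2 ^ 95) + u ^ 2 * cN k0 2 + (u ^ 4 * cN k0 4 + u ^ 6 * cN k0 6) + u ^ 8 * cN k0 8

lemma ph_eq {k t : ℝ} (hk : 0 < k) (ht : 0 ≤ t) : ph (k + t) =
    -(k + t) * (Real.log (k / Real.log 2) / Real.log 2) + k * (1 / Real.log 2) -
      k * ((1 + t / k) * Real.log (1 + t / k) - t / k) / Real.log 2 + 1 / 8 := by
  have hl : 0 < Real.log 2 := Real.log_pos (by norm_num)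
  have e : (k + t) / Real.log 2 = k / Real.log 2 * (1 + t / k) := by field_simp
  unfold ph
  rw [e, Real.log_mul (by positivity) (by positivity)]
  field_simp
  ring

lemma rem_bd {k t B : ℝ} (hk : 0 < k) (ht : 0 ≤ t) (hB : t ≤ B) :
    |k * ((1 + t / k) * Real.log (1 + t / k) - t / k) / Real.log 2 - k * s2 (t / k) / Real.log 2| ≤
      0.02004 * B * (B / k) ^ 8 := by
  obtain ⟨h1, -⟩ := log_two_bounds
  have hl : 0 < Real.log 2 := by linarith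
  have h2 := phi_rem (x := t / k) (by positivity)
  have h3 : (t / k) ^ 9 ≤ (B / k) ^ 9 :=
    pow_le_pow_left₀ (by positivity) (div_le_div_of_nonneg_right hB hk.le) 9
  have hB0 : 0 ≤ B := ht.trans hB
  rw [← sub_div, ← mul_sub, abs_div, abs_mul, abs_of_pos hk, abs_of_pos hl, div_le_iff₀ hl]
  have h4 : k * (B / k) ^ 9 = B * (B / k) ^ 8 := by
    rw [pow_succ' (B / k) 8, ← mul_assoc, mul_div_cancel₀ _ hk.ne']
  have h5 : 0 ≤ B * (B / k) ^ 8 := by positivity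
  have h6 := mul_le_mul_of_nonneg_left (h2.trans (div_le_div_of_nonneg_right h3 (by norm_num))) hk.le
  rw [← mul_div_assoc, h4] at h6
  rw [mul_assoc 0.02004]
  generalize B * (B / k) ^ 8 = w at *
  nlinarith

lemma lg_le {k lg : ℕ} (hk : 1 ≤ k) (hk2 : k ≤ 2 ^ 23)
    (h : |(lg : ℝ) / 2 ^ 64 - Real.log (k / Real.log 2) / Real.log 2| ≤ 1 / 2 ^ 55) :
    lg ≤ 2 ^ 69 := by
  obtain ⟨h1, -⟩ := log_two_bounds
  have hl : 0 < Real.log 2 := by linarith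
  have hk0 : (0 : ℝ) < k := by exact_mod_cast hk
  have hk3 : (k : ℝ) ≤ 2 ^ 23 := by exact_mod_cast hk2
  have h2 : k / Real.log 2 ≤ 2 ^ 24 := by
    rw [div_le_iff₀ hl]
    nlinarith
  have h3 := Real.log_le_log (by positivity) h2
  rw [Real.log_pow] at h3
  have h4 : Real.log (k / Real.log 2) / Real.log 2 ≤ 24 := by
    rw [div_le_iff₀ hl]
    exact_mod_cast h3
  have h5 : (lg : ℝ) / 2 ^ 64 ≤ 2 ^ 5 := by linarith [(abs_le.1 h).2]
  rw [div_le_iff₀ (by positivity), ← pow_add] at h5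
  exact_mod_cast h5

lemma pow_bd {u : ℕ} (hu : u ≤ 2 ^ 17) (n : ℕ) : (u : ℝ) ^ n / 2 ^ 160 ≤ (2 ^ 17) ^ n / 2 ^ 160 := by
  have : (u : ℝ) ≤ 2 ^ 17 := by exact_mod_cast hu
  exact div_le_div_of_nonneg_right (pow_le_pow_left₀ (by positivity) this n) (by positivity)

lemma nat_aux {K J A F C N M T2 T3 T4 T5 T6 T7 T8 : ℕ} (h1 : K ≤ 16 * M) (h2 : J ≤ M)
    (h3 : A ≤ 2 * M) (h4 : F ≤ 4 * M) (h5 : 64 * M ≤ C) (h6 : C ≤ 65 * M) (h7 : N < M)
    (b2 : T2 ≤ M) (b3 : T3 ≤ M) (b4 : T4 ≤ M) (b5 : T5 ≤ M) (b6 : T6 ≤ M) (b7 : T7 ≤ M)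
    (b8 : T8 ≤ M) : K ≤ C + A ∧ J + T2 + (T4 + T6) + T8 ≤ C + A - K + F + (T3 + T5 + T7) ∧
    C + A - K + F + (T3 + T5 + T7) - (J + T2 + (T4 + T6) + T8) + N < 256 * M := by
  omega

lemma nat_bd {k0 K J F T2 T3 T4 T5 T6 T7 T8 : ℕ} (hk : k0 ≤ 2 ^ 23) (c1 : K ≤ 2 ^ 23 * 2 ^ 69)
    (c2 : J ≤ 2 ^ 17 * 2 ^ 69) (hf : F ≤ 2 ^ 186) (b2 : T2 ≤ 2 ^ 184) (b3 : T3 ≤ 2 ^ 184)
    (b4 : T4 ≤ 2 ^ 184) (b5 : T5 ≤ 2 ^ 184) (b6 : T6 ≤ 2 ^ 184) (b7 : T7 ≤ 2 ^ 184)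
    (b8 : T8 ≤ 2 ^ 184) :
    K * 2 ^ 96 ≤ 1569275434029357895625310220577377208115124238573000196096 +
      k0 * 26613026195688644983 * 2 ^ 96 ∧
    J * 2 ^ 95 + T2 + (T4 + T6) + T8 ≤
      1569275434029357895625310220577377208115124238573000196096 +
      k0 * 26613026195688644983 * 2 ^ 96 - K * 2 ^ 96 + F + (T3 + T5 + T7) ∧
    1569275434029357895625310220577377208115124238573000196096 +
      k0 * 26613026195688644983 * 2 ^ 96 - K * 2 ^ 96 + F + (T3 + T5 + T7) -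
      (J * 2 ^ 95 + T2 + (T4 + T6) + T8) + 2 ^ 159 < 2 ^ 192 := by
  have h1 : K * 2 ^ 96 ≤ 16 * 2 ^ 184 := (Nat.mul_le_mul_right _ c1).trans (by norm_num)
  have h2 : J * 2 ^ 95 ≤ 2 ^ 184 := (Nat.mul_le_mul_right _ c2).trans (by norm_num)
  have h3 : k0 * 26613026195688644983 * 2 ^ 96 ≤ 2 * 2 ^ 184 :=
    (Nat.mul_le_mul_right _ (Nat.mul_le_mul_right _ hk)).trans (by norm_num)
  have h4 : F ≤ 4 * 2 ^ 184 := hf.trans (by norm_num)
  have h5 : 64 * 2 ^ 184 ≤ 1569275434029357895625310220577377208115124238573000196096 := by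
    norm_num
  have h6 : 1569275434029357895625310220577377208115124238573000196096 ≤ 65 * 2 ^ 184 := by
    norm_num
  have h7 : 2 ^ 159 < 2 ^ 184 := by norm_num
  have h8 : 2 ^ 192 = 256 * 2 ^ 184 := by norm_num
  rw [h8]
  exact nat_aux h1 h2 h3 h4 h5 h6 h7 b2 b3 b4 b5 b6 b7 b8

lemma lane {k0 j B lg f lm : ℕ} (hk : 2048 ≤ k0) (hB : B ≤ k0) (hB2 : B ≤ 2 ^ 16) (hj : j < B)
    (hk2 : k0 + B ≤ 2 ^ 23) (hlm : lm ≤ 18) (hf : f * 2 ^ (158 - lm) ≤ 2 ^ 186)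
    (h : |(lg : ℝ) / 2 ^ 64 - Real.log (k0 / Real.log 2) / Real.log 2| ≤ 1 / 2 ^ 55) :
    Ng k0 lg (2 * j + 1) ≤ Pp k0 lg lm f (2 * j + 1) ∧
    Pp k0 lg lm f (2 * j + 1) - Ng k0 lg (2 * j + 1) + 2 ^ (116 + 43) < 2 ^ 192 ∧
    |((Pp k0 lg lm f (2 * j + 1) - Ng k0 lg (2 * j + 1) : ℕ) : ℝ) / 2 ^ (116 + 44) -
      (ph (k0 + j + 1 / 2) + f / 2 ^ (lm + 2)) - (1073741824 : ℤ)| ≤
      9e-8 + 0.02004 * B * ((B : ℝ) / k0) ^ 8 := by
  have hk1 : 1 ≤ k0 := by omega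
  have hk3 : k0 ≤ 2 ^ 23 := by omega
  have hu : 2 * j + 1 ≤ 2 * k0 := by omega
  have hu2 : 2 * j + 1 ≤ 2 ^ 17 := by omega
  have hlg := lg_le hk1 hk3 h
  obtain ⟨a2, b2⟩ := term (m := 1) (r := 94) hk1 hk3 (by norm_num) rfl hu
  obtain ⟨a3, b3⟩ := term (m := 2) (r := 93) hk1 hk3 (by norm_num) rfl hu
  obtain ⟨a4, b4⟩ := term (m := 3) (r := 92) hk1 hk3 (by norm_num) rfl hu
  obtain ⟨a5, b5⟩ := term (m := 4) (r := 91) hk1 hk3 (by norm_num) rfl hu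
  obtain ⟨a6, b6⟩ := term (m := 5) (r := 90) hk1 hk3 (by norm_num) rfl hu
  obtain ⟨a7, b7⟩ := term (m := 6) (r := 89) hk1 hk3 (by norm_num) rfl hu
  obtain ⟨a8, b8⟩ := term (m := 7) (r := 88) hk1 hk3 (by norm_num) rfl hu
  have p2 := pow_bd hu2 2
  have p3 := pow_bd hu2 3
  have p4 := pow_bd hu2 4
  have p5 := pow_bd hu2 5
  have p6 := pow_bd hu2 6
  have p7 := pow_bd hu2 7
  have p8 := pow_bd hu2 8
  have c1 : k0 * lg ≤ 2 ^ 23 * 2 ^ 69 := Nat.mul_le_mul hk3 hlg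
  have c2 : (2 * j + 1) * lg ≤ 2 ^ 17 * 2 ^ 69 := Nat.mul_le_mul hu2 hlg
  have hk0 : (0 : ℝ) < k0 := by exact_mod_cast hk1
  have hjB : (j : ℝ) + 1 / 2 ≤ B := by
    have : ((j + 1 : ℕ) : ℝ) ≤ B := by exact_mod_cast hj
    push_cast at this
    linarith
  have hkB : (k0 : ℝ) + B ≤ 2 ^ 23 := by exact_mod_cast hk2
  have r1 := rem_bd hk0 (t := j + 1 / 2) (by positivity) hjB
  have r2 := ph_eq hk0 (t := j + 1 / 2) (by positivity)
  have ex : ((2 * j + 1 : ℕ) : ℝ) / (2 * k0) = (j + 1 / 2) / k0 := by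
    push_cast
    field_simp
  have ef : ((f * 2 ^ (158 - lm) : ℕ) : ℝ) = f / 2 ^ (lm + 2) * 2 ^ 160 := by
    have : (2 : ℝ) ^ 160 = 2 ^ (lm + 2) * 2 ^ (158 - lm) := by
      rw [← pow_add, show lm + 2 + (158 - lm) = 160 by omega]
    rw [this]
    push_cast
    field_simp
  have e1 : (2 * j + 1) ^ 1 * (lg * 2 ^ 95) = (2 * j + 1) * lg * 2 ^ 95 := by
    rw [pow_one, mul_assoc]
  have g1 := abs_le.1 h
  have g2 := abs_le.1 inv_ok
  have hj0 : (0 : ℝ) ≤ k0 + (j + 1 / 2) := by positivity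
  have g3 := mul_le_mul_of_nonneg_left g1.1 hj0
  have g4 := mul_le_mul_of_nonneg_left g1.2 hj0
  have g5 := mul_le_mul_of_nonneg_left g2.1 hk0.le
  have g6 := mul_le_mul_of_nonneg_left g2.2 hk0.le
  have g7 : (0 : ℝ) ≤ B := by positivity
  have ek : ((k0 * lg : ℕ) : ℝ) = k0 * lg := Nat.cast_mul _ _
  have eu : (((2 * j + 1) * lg : ℕ) : ℝ) = 2 * (j * lg) + lg := by
    push_cast
    ring
  rw [ex] at a2 a3 a4 a5 a6 a7 a8
  rw [add_assoc (k0 : ℝ), r2]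
  unfold s2 at r1
  unfold Pp Ng
  rw [e1]
  simp only [Nat.reduceAdd] at a2 a3 a4 a5 a6 a7 a8 b2 b3 b4 b5 b6 b7 b8 ⊢
  generalize (2 * j + 1) ^ 2 * cN k0 2 = T2 at *
  generalize (2 * j + 1) ^ 3 * cN k0 3 = T3 at *
  generalize (2 * j + 1) ^ 4 * cN k0 4 = T4 at *
  generalize (2 * j + 1) ^ 5 * cN k0 5 = T5 at *
  generalize (2 * j + 1) ^ 6 * cN k0 6 = T6 at *
  generalize (2 * j + 1) ^ 7 * cN k0 7 = T7 at *
  generalize (2 * j + 1) ^ 8 * cN k0 8 = T8 at *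
  generalize f * 2 ^ (158 - lm) = F at *
  generalize k0 * lg = K at *
  generalize (2 * j + 1) * lg = J at *
  obtain ⟨n1, n2, n3⟩ := nat_bd hk3 c1 c2 hf b2 b3 b4 b5 b6 b7 b8
  refine ⟨n2, n3, ?_⟩
  have ec : ((1569275434029357895625310220577377208115124238573000196096 +
      k0 * 26613026195688644983 * 2 ^ 96 - K * 2 ^ 96 + F + (T3 + T5 + T7) -
      (J * 2 ^ 95 + T2 + (T4 + T6) + T8) : ℕ) : ℝ) = 2 ^ 190 + 2 ^ 157 +
      k0 * 26613026195688644983 * 2 ^ 96 - K * 2 ^ 96 + F + (T3 + T5 + T7) -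
      (J * 2 ^ 95 + T2 + (T4 + T6) + T8) := by
    rw [Nat.cast_sub n2, Nat.cast_add _ (T3 + T5 + T7), Nat.cast_add _ F, Nat.cast_sub n1]
    push_cast
    norm_num
  rw [ec, ek, eu, ef, Int.cast_ofNat]
  simp only [Nat.cast_ofNat, Nat.cast_one] at a2 a3 a4 a5 a6 a7 a8
  generalize ((2 * j + 1 : ℕ) : ℝ) = u at *
  generalize (k0 : ℝ) * ((1 + (j + 1 / 2) / k0) * Real.log (1 + (j + 1 / 2) / k0) -
    (j + 1 / 2) / k0) / Real.log 2 = R at *
  generalize ((j : ℝ) + 1 / 2) / k0 = x at *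
  generalize Real.log (k0 / Real.log 2) / Real.log 2 = L at *
  generalize 0.02004 * (B : ℝ) * (B / k0) ^ 8 = W at *
  generalize (f : ℝ) / 2 ^ (lm + 2) = φ at *
  simp only [div_eq_mul_inv _ (Real.log 2), one_mul] at *
  generalize (Real.log 2)⁻¹ = il at *
  rw [abs_le] at a2 a3 a4 a5 a6 a7 a8 r1 ⊢
  constructor <;> linarith [a2.1, a2.2, a3.1, a3.2, a4.1, a4.2, a5.1, a5.2, a6.1, a6.2, a7.1, a7.2,
    a8.1, a8.2, r1.1, r1.2]

lemma phD_eq {lm a k0 lg du : ℕ} {U : Us} {f : ℕ → ℕ} (ha : 2 ≤ a) (hU : UOK du U)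
    (h1 : ∀ e ≤ 8, pre a (mkU e du) = pw 192 (2 ^ a) fun j => (2 * j + 1) ^ e)
    (h2 : sqj a (mkU 1 du) (mkU 2 du) = pw 192 (2 ^ a) f) :
    phD lm a k0 lg U = (pw 192 (2 ^ a) fun j => Pp k0 lg lm (f j) (2 * j + 1)) -
      pw 192 (2 ^ a) fun j => Ng k0 lg (2 * j + 1) := by
  have e : ∀ u1 u2 u3 u4 u5 u6 u7 u8, phD lm a k0 lg (Us.mk u1 u2 u3 u4 u5 u6 u7 u8) =
      ow 192 (4 * p2 (a - 2)) * (1569275434029357895625310220577377208115124238573000196096 +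
        Nat.shiftLeft (k0 * 26613026195688644983) 96 - Nat.shiftLeft (k0 * lg) 96) +
        Nat.shiftLeft (sqj a u1 u2) (158 - lm) +
        (pre a u3 * cN k0 3 + pre a u5 * cN k0 5 + pre a u7 * cN k0 7) -
      (pre a u1 * Nat.shiftLeft lg 95 + pre a u2 * cN k0 2 +
        (pre a u4 * cN k0 4 + pre a u6 * cN k0 6) + pre a u8 * cN k0 8) :=
    fun _ _ _ _ _ _ _ _ => rfl
  have sh : ∀ x s : ℕ, Nat.shiftLeft x s = x * 2 ^ s := Nat.shiftLeft_eq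
  rw [hU, e, h2, h1 1 (by norm_num), h1 2 (by norm_num), h1 3 (by norm_num), h1 4 (by norm_num),
    h1 5 (by norm_num), h1 6 (by norm_num), h1 7 (by norm_num), h1 8 (by norm_num), p2_eq,
    four_mul_p2 ha, ow_mul (by norm_num), pw_shl, sh, sh, sh]
  simp only [pw_mul, pw_add]
  rfl

end H96NPh

theorem phOk (ht : StTab) (ho : StOdds) (hp : StPow) : StPh := by
  intro lm a k0 du c e U hP hU hc hk hk1 hk2
  obtain ⟨-, h2, h3, h4, h5, h6, h7⟩ := hP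
  obtain ⟨h8, f, h9, h10⟩ := hp a du h3 h5 h6
  have hl := H96NPh.lam_ok ht ho hc hk
  have hB : 2 ^ a ≤ 2 ^ 16 := Nat.pow_le_pow_right (by norm_num) (by omega)
  have hf : ∀ j < 2 ^ a, f j * 2 ^ (158 - lm) ≤ 2 ^ 186 := by
    intro j hj
    have e1 : (2 : ℝ) ^ a = 2 * 2 ^ (a - 1) := by
      rw [← pow_succ', show a - 1 + 1 = a by omega]
    have e2 : (j : ℝ) ≤ 2 ^ a := by exact_mod_cast hj.le
    have e3 : (0 : ℝ) ≤ j := by positivity
    have e4 : (f j : ℝ) ≤ (2 ^ a) ^ 2 := by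
      rw [h10 j hj, e1]
      rw [e1] at e2
      nlinarith
    have e5 : f j ≤ (2 ^ a) ^ 2 := by exact_mod_cast e4
    refine (Nat.mul_le_mul_right _ e5).trans ?_
    rw [← pow_mul, ← pow_add]
    exact Nat.pow_le_pow_right (by norm_num) (by omega)
  have key := fun j (hj : j < 2 ^ a) => H96NPh.lane hk1 hk2 hB hj h7 h2 (hf j hj) hl
  rw [H96NPh.phD_eq h3 hU h8 h9, pw_sub fun j hj => (key j hj).1]
  generalize lam c e = lg at *
  have hn := four_mul_p2 h3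
  have h11 := (angW_pw (n := 2 ^ (a - 2)) (s := 116)
    (f := fun j => H96NPh.Pp k0 lg lm (f j) (2 * j + 1) - H96NPh.Ng k0 lg (2 * j + 1))
    (fun j hj => (key j (hn ▸ hj)).2.1) (by norm_num)).1
  have h12 := h11.congr (θ' := fun p => ph (k0 + sig (2 ^ (a - 2)) p + 1 / 2) +
    2 * al lm a (sig (2 ^ (a - 2)) p)) (e' := 9e-8 + 0.02004 * 2 ^ a * ((2 : ℝ) ^ a / k0) ^ 8)
    fun p hp => by
      have hj : sig (2 ^ (a - 2)) p < 2 ^ a := hn ▸ sig_lt hp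
      have h13 := (key _ hj).2.2
      have h14 : 2 * al lm a (sig (2 ^ (a - 2)) p) = f (sig (2 ^ (a - 2)) p) / 2 ^ (lm + 2) := by
        rw [h10 _ hj, pow_add]
        unfold al
        field_simp
        ring
      rw [Nat.cast_pow, Nat.cast_ofNat, ← h14] at h13
      exact ⟨_, h13⟩
  rw [hn] at h12
  obtain ⟨t, h15, h16⟩ := h12
  refine ⟨t, h15, fun p hp => ⟨(h16 p hp).1, ?_⟩⟩
  obtain ⟨m, hm⟩ := (h16 p hp).2
  refine ⟨m, hm.trans ?_⟩
  rw [← add_assoc]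
  exact add_le_add_left (by norm_num) _

end Pool.Agent.Lib.MP_5db4ad_nt.NE
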