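import Pool.Agent.Lib.MP_5db4ad_nt.H96NLaneB

/-!
The factor `(1 + 2 * 3 ^ (-s)) e (α - k ^ 2 / 2 ^ 20)` on a block of frequencies.
-/

namespace Pool.Agent.Lib.MP_5db4ad_nt.NE

open S2 Finset
open scoped Real

namespace H96NQv

/-- the wide vector of the first angles -/
noncomputable def FF (lm a k0 : ℕ) (U : Us) : ℕ :=
  Nat.shiftLeft (oW (p2 (a - 2))) 90 + Nat.shiftLeft (sqj a U.u1 U.u2) (41 - lm) -
    Nat.shiftLeft (pre a U.u2 + pre a U.u1 * (4 * k0) +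
      oW (p2 (a - 2)) * (4 * (k0 * k0) + 1 - 4 * k0) - pre a U.u1 * 2) 22

lemma qv_eq (lm a k0 : ℕ) (U : Us) : qv lm a k0 U =
    T2.rec (fun x1 y1 => T2.rec (fun x2 y2 =>
      T2.mk (x1 + x2 - Nat.shiftLeft (oN (p2 (a - 2))) 46)
        (y1 + y2 - Nat.shiftLeft (oN (p2 (a - 2))) 46))
      (rot (oN (p2 (a - 2))) 24 (oN (p2 (a - 2)) * 70813865286359)
        (Nat.shiftLeft (oN (p2 (a - 2))) 46)
        (angW (p2 (a - 2)) (Nat.shiftLeft (FF lm a k0 U) 21 -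
          (oW (p2 (a - 2)) * (k0 + k0) + pre a U.u1) * g3) 21)))
      (rot (oN (p2 (a - 2))) 24 (oN (p2 (a - 2)) * 71036425840707)
        (Nat.shiftLeft (oN (p2 (a - 2))) 46) (angW (p2 (a - 2)) (FF lm a k0 U) 0)) := by
  unfold qv FF
  simp only [fz_eq]
  rfl

lemma sq_eq (k0 j : ℕ) : (2 * j + 1) ^ 2 + (2 * j + 1) ^ 1 * (4 * k0) +
    (4 * (k0 * k0) + 1 - 4 * k0) - (2 * j + 1) ^ 1 * 2 = 4 * (k0 + j) ^ 2 := by
  have h : 4 * k0 ≤ 4 * (k0 * k0) + 1 := by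
    rcases k0 with _ | k
    · omega
    · nlinarith
  obtain ⟨c, hc⟩ := Nat.exists_eq_add_of_le h
  have hc' : 4 * (k0 * k0) + 1 - 4 * k0 = c := by omega
  rw [hc']
  apply Nat.sub_eq_of_eq_add
  nlinarith

lemma le_sq (k0 j : ℕ) : (2 * j + 1) ^ 1 * 2 ≤ (2 * j + 1) ^ 2 + (2 * j + 1) ^ 1 * (4 * k0) +
    (4 * (k0 * k0) + 1 - 4 * k0) := by
  have h : 4 * k0 ≤ 4 * (k0 * k0) + 1 := by
    rcases k0 with _ | k
    · omega
    · nlinarith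
  obtain ⟨c, hc⟩ := Nat.exists_eq_add_of_le h
  have hc' : 4 * (k0 * k0) + 1 - 4 * k0 = c := by omega
  rw [hc']
  have : (2 * j + 1) ^ 2 + (2 * j + 1) ^ 1 * (4 * k0) + c =
      (2 * j + 1) ^ 1 * 2 + 4 * (k0 + j) ^ 2 := by nlinarith
  omega

lemma sq_le {k : ℕ} (h : k < 2 ^ 16) : 4 * k ^ 2 * 2 ^ 22 ≤ 2 ^ 56 := by
  have : k ^ 2 ≤ (2 ^ 16) ^ 2 := Nat.pow_le_pow_left h.le 2
  omega

/-- the lanes of the first angles -/
lemma FF_pw (hP : StPow) {lm a k0 du : ℕ} {U : Us} (h : Par lm a k0 du) (hU : UOK du U)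
    (hk : k0 + 2 ^ a ≤ 2 ^ 16) :
    pre a U.u1 = pw 192 (4 * 2 ^ (a - 2)) (fun j => (2 * j + 1) ^ 1) ∧
    ∃ F : ℕ → ℕ, FF lm a k0 U = pw 192 (4 * 2 ^ (a - 2)) F ∧ ∀ j < 4 * 2 ^ (a - 2),
      2 ^ 89 ≤ F j ∧ F j ≤ 2 ^ 91 ∧
      (F j : ℝ) / 2 ^ 44 = al lm a j - ((k0 + j : ℕ) : ℝ) ^ 2 / 2 ^ 20 + 2 ^ 46 := by
  obtain ⟨h1, h2, h3, h4, h5, h6, h7⟩ := h
  obtain ⟨hp, f, hf, hf'⟩ := hP a du h3 h5 h6
  have e1 : U.u1 = mkU 1 du := by rw [hU]; rfl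
  have e2 : U.u2 = mkU 2 du := by rw [hU]; rfl
  have p1 := hp 1 (by norm_num)
  have p2' := hp 2 (by norm_num)
  have e4 : 4 * 2 ^ (a - 2) = 2 ^ a := four_mul_p2 h3
  rw [e4, e1]
  refine ⟨p1, fun j => 2 ^ 90 + f j * 2 ^ (41 - lm) - 4 * (k0 + j) ^ 2 * 2 ^ 22, ?_, ?_⟩
  · unfold FF
    rw [e1, e2, hf, p1, p2', p2_eq, oW_eq, e4, ow_shl (by norm_num), ow_mul (by norm_num), pw_shl,
      pw_add, pw_mul, pw_mul, pw_add, pw_add, pw_sub (fun j _ => le_sq k0 j), pw_shl, pw_sub]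
    · refine pw_congr fun j _ => ?_
      rw [sq_eq]
    · intro j hj
      rw [sq_eq]
      have := sq_le (k := k0 + j) (by omega)
      omega
  · intro j hj
    have hs := sq_le (k := k0 + j) (by omega)
    have ha : a ≤ 16 := by omega
    have hj2 : (j : ℝ) < 2 ^ a := by exact_mod_cast hj
    have hA : (2 : ℝ) ^ a = 2 * 2 ^ (a - 1) := by
      rw [← pow_succ']; congr 1; omega
    have hB : (2 : ℝ) ^ (a - 1) ≤ 2 ^ 15 := pow_le_pow_right₀ (by norm_num) (by omega)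
    have hj0 : (0 : ℝ) ≤ j := Nat.cast_nonneg j
    have hfb : (f j : ℝ) ≤ 2 ^ 32 := by
      rw [hf' j hj]
      have : ((j : ℝ) - 2 ^ (a - 1)) ^ 2 ≤ (2 ^ 15) ^ 2 := by
        apply sq_le_sq'
        · linarith
        · linarith
      linarith
    have hfn : f j ≤ 2 ^ 32 := by exact_mod_cast hfb
    have hl : 2 ^ (41 - lm) ≤ 2 ^ 36 := Nat.pow_le_pow_right (by norm_num) (by omega)
    have hm : f j * 2 ^ (41 - lm) ≤ 2 ^ 32 * 2 ^ 36 := Nat.mul_le_mul hfn hl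
    beta_reduce
    refine ⟨by omega, by omega, ?_⟩
    have hle : 4 * (k0 + j) ^ 2 * 2 ^ 22 ≤ 2 ^ 90 + f j * 2 ^ (41 - lm) := by omega
    have hL : (2 : ℝ) ^ (41 - lm) * 2 ^ lm = 2 ^ 41 := by
      rw [← pow_add]; congr 1; omega
    have hM : (2 : ℝ) ^ lm ≠ 0 := by positivity
    have hq : (2 : ℝ) ^ (41 - lm) = 2 ^ 41 / 2 ^ lm := by rw [eq_div_iff hM, hL]
    rw [Nat.cast_sub hle]
    push_cast
    rw [hf' j hj, hq, al]
    field_simp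
    ring

lemma g3_lt : g3 < 2 ^ 65 := by unfold g3; norm_num

/-- the value of `3 ^ (-s)` -/
lemma three_sk (k : ℕ) : (3 : ℂ) ^ (-sk k) =
    1 / 3 * ee (-((k + 1 / 2) * (Real.log 3 / Real.log 2))) := by
  have e : Complex.log 3 * -sk k = -Complex.log 3 +
      ((2 * π * -((k + 1 / 2) * (Real.log 3 / Real.log 2)) : ℝ) : ℂ) * Complex.I := by
    have e1 : Complex.log 3 = (Real.log 3 : ℝ) := by simp
    have hl : ((Real.log 2 : ℝ) : ℂ) ≠ 0 := by exact_mod_cast (Real.log_pos one_lt_two).ne'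
    rw [e1, sk, tk]
    generalize Real.log 2 = l at hl
    generalize Real.log 3 = l3
    push_cast
    field_simp
    ring
  rw [Complex.cpow_def_of_ne_zero three_ne_zero, e, Complex.exp_add, Complex.exp_neg,
    Complex.exp_log three_ne_zero, ee, one_div (3 : ℂ)]

lemma VN_const (n c : ℕ) : VN n (ow 48 n * c) (Nat.shiftLeft (ow 48 n) 46)
    (fun _ => (sv c : ℂ)) fun _ => 0 := by
  rw [ow_mul (by norm_num)]
  exact VN_real n fun _ => c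

lemma sv1 : sv 71036425840707 = 667681663043 := by unfold sv; norm_num

lemma sv2 : sv 70813865286359 = 445121108695 := by unfold sv; norm_num

lemma norm_rot (c θ : ℝ) (hc : 0 ≤ c) : ‖(Kc : ℂ) * (c : ℂ) * ee θ‖ = Kc * c := by
  have hK : (0 : ℝ) ≤ Kc := by unfold Kc; norm_num
  rw [norm_mul, norm_mul, norm_ee, Complex.norm_real, Complex.norm_real, Real.norm_of_nonneg hK,
    Real.norm_of_nonneg hc, mul_one]

lemma fin_est (θ φ : ℝ) :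
    ‖(Kc : ℂ) * ((667681663043 : ℝ) : ℂ) * ee θ + (Kc : ℂ) * ((445121108695 : ℝ) : ℂ) * ee (θ + φ) -
      2 ^ 40 * ((1 + 2 * (1 / 3 * ee φ)) * ee θ)‖ ≤ 2 := by
  have e : (Kc : ℂ) * ((667681663043 : ℝ) : ℂ) * ee θ +
      (Kc : ℂ) * ((445121108695 : ℝ) : ℂ) * ee (θ + φ) -
      2 ^ 40 * ((1 + 2 * (1 / 3 * ee φ)) * ee θ) =
      ((Kc * 667681663043 - 2 ^ 40 : ℝ) : ℂ) * ee θ +
        ((Kc * 445121108695 - 2 ^ 41 / 3 : ℝ) : ℂ) * ee (θ + φ) := by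
    rw [ee_add]
    push_cast
    ring
  rw [e]
  refine (norm_add_le _ _).trans ?_
  rw [norm_mul, norm_mul, norm_ee, norm_ee, Complex.norm_real, Complex.norm_real, Real.norm_eq_abs,
    Real.norm_eq_abs, mul_one, mul_one]
  have a1 : |Kc * 667681663043 - 2 ^ 40| ≤ (1 : ℝ) := by
    unfold Kc; rw [abs_le]; constructor <;> norm_num
  have a2 : |Kc * 445121108695 - 2 ^ 41 / 3| ≤ (1 : ℝ) := by
    unfold Kc; rw [abs_le]; constructor <;> norm_num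
  exact (add_le_add a1 a2).trans (by norm_num)

lemma le_F {k0 j F g : ℕ} (hk : k0 + j < 2 ^ 16) (hF : 2 ^ 89 ≤ F) (hg : g < 2 ^ 65) :
    (k0 + k0 + (2 * j + 1) ^ 1) * g ≤ F * 2 ^ 21 := by
  have h1 : k0 + k0 + (2 * j + 1) ^ 1 ≤ 2 ^ 17 := by rw [pow_one]; omega
  have h4 : (k0 + k0 + (2 * j + 1) ^ 1) * g ≤ 2 ^ 17 * 2 ^ 65 := Nat.mul_le_mul h1 hg.le
  have h5 : 2 ^ 89 * 2 ^ 21 ≤ F * 2 ^ 21 := Nat.mul_le_mul_right _ hF
  exact h4.trans (le_trans (by norm_num) h5)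

lemma lt_F {F c : ℕ} (hF : F ≤ 2 ^ 91) : F * 2 ^ 21 - c + 2 ^ (21 + 43) < 2 ^ 192 := by
  have h5 : F * 2 ^ 21 ≤ 2 ^ 91 * 2 ^ 21 := Nat.mul_le_mul_right _ hF
  have h6 : F * 2 ^ 21 - c ≤ 2 ^ 91 * 2 ^ 21 := (Nat.sub_le _ _).trans h5
  exact lt_of_le_of_lt (Nat.add_le_add_right h6 _) (by norm_num)

lemma ang2 {k0 j F g : ℕ} {α L : ℝ} (hk : k0 + j < 2 ^ 16)
    (hle : (k0 + k0 + (2 * j + 1) ^ 1) * g ≤ F * 2 ^ 21)
    (hF : (F : ℝ) / 2 ^ 44 = α - ((k0 + j : ℕ) : ℝ) ^ 2 / 2 ^ 20 + 2 ^ 46)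
    (hg : |(g : ℝ) / 2 ^ 64 - L| ≤ 1 / 2 ^ 60) :
    ∃ m : ℤ, |((F * 2 ^ 21 - (k0 + k0 + (2 * j + 1) ^ 1) * g : ℕ) : ℝ) / 2 ^ (21 + 44) -
      (α - ((k0 + j : ℕ) : ℝ) ^ 2 / 2 ^ 20 + -((((k0 + j : ℕ) : ℝ) + 1 / 2) * L)) - m| ≤
      1 / 2 ^ 44 := by
  refine ⟨2 ^ 46, ?_⟩
  have hk1 : ((k0 + j : ℕ) : ℝ) + 1 ≤ 2 ^ 16 := by exact_mod_cast hk
  have hk0 : (0 : ℝ) ≤ ((k0 + j : ℕ) : ℝ) := Nat.cast_nonneg _
  have e : ((F * 2 ^ 21 - (k0 + k0 + (2 * j + 1) ^ 1) * g : ℕ) : ℝ) / 2 ^ (21 + 44) -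
      (α - ((k0 + j : ℕ) : ℝ) ^ 2 / 2 ^ 20 + -((((k0 + j : ℕ) : ℝ) + 1 / 2) * L)) -
      ((2 ^ 46 : ℤ) : ℝ) = -((((k0 + j : ℕ) : ℝ) + 1 / 2) * ((g : ℝ) / 2 ^ 64 - L)) := by
    rw [Nat.cast_sub hle]
    push_cast at hF ⊢
    linear_combination hF
  rw [e, abs_neg, abs_mul, abs_of_nonneg (by linarith)]
  calc _ ≤ (2 : ℝ) ^ 16 * (1 / 2 ^ 60) :=
        mul_le_mul (by linarith) hg (abs_nonneg _) (by norm_num)
    _ = 1 / 2 ^ 44 := by norm_num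

lemma ang1 {x y : ℝ} (h : x = y + 2 ^ 46) : ∃ m : ℤ, |x - y - m| ≤ 0 := by
  refine ⟨2 ^ 46, ?_⟩
  rw [h]
  push_cast
  norm_num

end H96NQv

open H96NQv in
theorem qvOk (hT : StTab) (hR : StRot) (hP : StPow) : StQv := by
  intro lm a k0 du U h hU hk
  obtain ⟨p1, F, hF, hF'⟩ := FF_pw hP h hU hk
  have h3 : 2 ≤ a := h.2.2.1
  have e4 : 4 * 2 ^ (a - 2) = 2 ^ a := four_mul_p2 h3
  have hg := hT.2.2.2.2.2.2
  have hg3 := g3_lt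
  rw [qv_eq, p2_eq, oN_eq, oW_eq, hF, p1, ← e4]
  generalize hn : 2 ^ (a - 2) = n at *
  have hjk : ∀ j < 4 * n, k0 + j < 2 ^ 16 := fun j hj => by omega
  generalize g3 = g at hg hg3 ⊢
  have hle : ∀ j < 4 * n, (k0 + k0 + (2 * j + 1) ^ 1) * g ≤ F j * 2 ^ 21 :=
    fun j hj => le_F (hjk j hj) (hF' j hj).1 hg3
  rw [ow_mul (W := 192) (by norm_num), pw_add, pw_mul, pw_shl, pw_sub hle]
  have A1 : AN (4 * n) (angW n (pw 192 (4 * n) F) 0)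
      (fun p => al lm a (sig n p) - ((k0 + sig n p : ℕ) : ℝ) ^ 2 / 2 ^ 20) (0 + 0) := by
    refine AN.congr ((angW_pw (s := 0) (f := F) (fun j hj => ?_) (by norm_num)).2 rfl) ?_
    · exact lt_of_le_of_lt (Nat.add_le_add_right (hF' j hj).2.1 _) (by norm_num)
    · exact fun p hp => ang1 (hF' _ (sig_lt hp)).2.2
  have A2 : AN (4 * n) (angW n (pw 192 (4 * n)
      fun j => F j * 2 ^ 21 - (k0 + k0 + (2 * j + 1) ^ 1) * g) 21)
      (fun p => al lm a (sig n p) - ((k0 + sig n p : ℕ) : ℝ) ^ 2 / 2 ^ 20 +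
        -((((k0 + sig n p : ℕ) : ℝ) + 1 / 2) * (Real.log 3 / Real.log 2)))
      (1 / 2 ^ 44 + 1 / 2 ^ 44) := by
    refine AN.congr (angW_pw (s := 21)
      (f := fun j => F j * 2 ^ 21 - (k0 + k0 + (2 * j + 1) ^ 1) * g) (fun j hj => ?_)
      (by norm_num)).1 ?_
    · exact lt_F (hF' j hj).2.1
    · exact fun p hp => ang2 (hjk _ (sig_lt hp)) (hle _ (sig_lt hp)) (hF' _ (sig_lt hp)).2.2 hg
  obtain ⟨X1, Y1, r1, V1⟩ := hR (4 * n) 24 _ _ _ _ _ _ _ (by norm_num) (by norm_num)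
    (VN_const (4 * n) 71036425840707) A1 (fun p _ => by
      rw [sv1, Complex.norm_real, Real.norm_of_nonneg (by norm_num)]; norm_num)
  obtain ⟨X2, Y2, r2, V2⟩ := hR (4 * n) 24 _ _ _ _ _ _ _ (by norm_num) (by norm_num)
    (VN_const (4 * n) 70813865286359) A2 (fun p _ => by
      rw [sv2, Complex.norm_real, Real.norm_of_nonneg (by norm_num)]; norm_num)
  rw [r1, r2]
  rw [sv1] at V1
  rw [sv2] at V2
  have n1 : ‖((667681663043 : ℝ) : ℂ)‖ = 667681663043 := by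
    rw [Complex.norm_real, Real.norm_of_nonneg (by norm_num)]
  have n2 : ‖((445121108695 : ℝ) : ℂ)‖ = 445121108695 := by
    rw [Complex.norm_real, Real.norm_of_nonneg (by norm_num)]
  rw [n1] at V1
  rw [n2] at V2
  refine ⟨_, _, rfl, (V1.add V2 fun p _ => ?_).mono fun p _ => ?_⟩
  · rw [norm_rot _ _ (by norm_num), norm_rot _ _ (by norm_num)]
    unfold Kc
    norm_num
  · rw [three_sk]
    have := fin_est (al lm a (sig n p) - ((k0 + sig n p : ℕ) : ℝ) ^ 2 / 2 ^ 20)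
      (-((((k0 + sig n p : ℕ) : ℝ) + 1 / 2) * (Real.log 3 / Real.log 2)))
    refine (add_le_add le_rfl this).trans ?_
    norm_num

end Pool.Agent.Lib.MP_5db4ad_nt.NE
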