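import Pool.Agent.Lib.MP_5db4ad_nt.H96NLaneA

/-!
Multiplication of a vector by a ramp.
-/

namespace Pool.Agent.Lib.MP_5db4ad_nt.NE

open S2 Finset

namespace Rmp

lemma lt_sv {a : ℕ} (h : |sv a| < 2 ^ 46) : a < 2 ^ 47 := by
  have h1 : (a : ℝ) < 2 ^ 47 := by
    have := (abs_lt.1 h).2
    rw [sv] at this
    linarith
  exact_mod_cast h1

lemma sv_norm (a b : ℕ) : |sv a| ≤ ‖cz a b‖ ∧ |sv b| ≤ ‖cz a b‖ :=
  ⟨Complex.abs_re_le_norm (cz a b), Complex.abs_im_le_norm (cz a b)⟩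

lemma rmp_succ (o J a x y x0 y0 i u v : ℕ) (h : rmp o J a x y x0 y0 i = T2.mk u v) :
    rmp o J a x y x0 y0 (i + 1) = T2.mk
      (u + Nat.xor (fld o x (a - i) (47 - (a - i))) (msk (Nat.xor o (bit o J (i + 1))) (47 - (a - i))) -
        Nat.shiftLeft o (46 - (a - i)))
      (v + Nat.xor (fld o y (a - i) (47 - (a - i))) (msk (Nat.xor o (bit o J (i + 1))) (47 - (a - i))) -
        Nat.shiftLeft o (46 - (a - i))) := by
  unfold rmp at h ⊢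
  simp only [fz_eq] at h ⊢
  rw [h]
  rfl

/-- the number added in one lane -/
def dg (f s b : ℕ) : ℕ :=
  if 1 - s = 1 then 2 ^ (47 - b) - 1 - f / 2 ^ b % 2 ^ (47 - b) else f / 2 ^ b % 2 ^ (47 - b)

lemma dg_near {f s b : ℕ} (hs : s ≤ 1) (hb : b ≤ 46) (hf : f < 2 ^ 47) :
    |(dg f s b : ℝ) - 2 ^ (46 - b) - (2 * s - 1) / 2 ^ b * sv f| ≤ 1 := by
  have e1 : 2 ^ 47 = 2 ^ b * 2 ^ (47 - b) := by rw [← pow_add]; congr 1; omega
  have e2 : 2 ^ (47 - b) = 2 * 2 ^ (46 - b) := by rw [← pow_succ']; congr 1; omega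
  have e3 : (2 : ℝ) ^ 46 = 2 ^ b * 2 ^ (46 - b) := by rw [← pow_add]; congr 1; omega
  have h1 : f / 2 ^ b < 2 ^ (47 - b) := Nat.div_lt_of_lt_mul (e1 ▸ hf)
  have h2 : (0 : ℝ) < 2 ^ b := by positivity
  have h3 : ((f / 2 ^ b : ℕ) : ℝ) ≤ f / 2 ^ b := by
    simpa using Nat.cast_div_le (α := ℝ) (m := f) (n := 2 ^ b)
  have h4 : (f : ℝ) / 2 ^ b < (f / 2 ^ b : ℕ) + 1 := by
    rw [div_lt_iff₀ h2]
    exact_mod_cast (Nat.div_lt_iff_lt_mul (Nat.two_pow_pos b)).1 (Nat.lt_succ_self _)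
  have h5 : sv f / 2 ^ b = f / 2 ^ b - 2 ^ (46 - b) := by
    rw [sv, e3]; field_simp
  rw [dg, Nat.mod_eq_of_lt h1, div_mul_eq_mul_div, mul_div_assoc, h5, abs_le]
  generalize f / 2 ^ b = t at h1 h3 h4
  obtain rfl | rfl : s = 0 ∨ s = 1 := by omega
  · rw [if_pos rfl, Nat.sub_sub, Nat.cast_sub (by omega), e2]
    push_cast
    constructor <;> linarith
  · rw [if_neg (by omega)]
    push_cast
    constructor <;> linarith

lemma lane {u f f0 s b : ℕ} {c c' e : ℝ} (hs : s ≤ 1) (hb : b ≤ 46) (hf : |sv f| ≤ 2 ^ 44)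
    (h0 : |sv f0| ≤ 2 ^ 44) (hc : c' = c + (2 * s - 1) / 2 ^ b) (hc' : |c'| ≤ 1) (he : e ≤ 16)
    (h : |sv u - (sv f0 + c * sv f)| ≤ e) : 2 ^ (46 - b) ≤ u + dg f s b ∧
      |sv (u + dg f s b - 2 ^ (46 - b)) - (sv f0 + c' * sv f)| ≤ e + 1 := by
  have h1 := dg_near hs hb (lt_sv (a := f) (by linarith [hf]))
  have h2 : |c' * sv f| ≤ 2 ^ 44 := by
    rw [abs_mul]
    exact (mul_le_mul hc' hf (abs_nonneg _) zero_le_one).trans (by norm_num)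
  have h3 : c' * sv f = c * sv f + (2 * s - 1) / 2 ^ b * sv f := by rw [hc]; ring
  rw [abs_le] at h h0 h1 h2
  have h4 : 2 ^ (46 - b) ≤ u + dg f s b := by
    have : (2 : ℝ) ^ (46 - b) ≤ u + dg f s b := by
      have h5 : sv u = u - 2 ^ 46 := rfl
      linarith [h.1, h0.1, h1.1, h2.1]
    exact_mod_cast this
  refine ⟨h4, ?_⟩
  have h5 : sv (u + dg f s b - 2 ^ (46 - b)) = sv u + (dg f s b - 2 ^ (46 - b)) := by
    rw [sv, sv, Nat.cast_sub h4]; push_cast; ring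
  rw [h5, abs_le]
  constructor <;> linarith [h.1, h.2, h1.1, h1.2]

/-- the factor reached after `i` steps -/
noncomputable def cf (a j i : ℕ) : ℝ := (2 * (j % 2 ^ i : ℕ) + 1 - 2 ^ i) / 2 ^ a

lemma cf_succ {a j i : ℕ} (h : i ≤ a) :
    cf a j (i + 1) = cf a j i + (2 * ((2 * j + 1) / 2 ^ (i + 1) % 2 : ℕ) - 1) / 2 ^ (a - i) := by
  have e1 : (2 * j + 1) / 2 ^ (i + 1) = j / 2 ^ i := by
    rw [pow_succ', ← Nat.div_div_eq_div_mul, show (2 * j + 1) / 2 = j by omega]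
  have e2 : (2 : ℝ) ^ a = 2 ^ i * 2 ^ (a - i) := by rw [← pow_add]; congr 1; omega
  rw [cf, cf, e1, Nat.mod_pow_succ, e2]
  generalize j / 2 ^ i % 2 = s
  generalize j % 2 ^ i = t
  push_cast
  field_simp
  ring

lemma cf_le {a j i : ℕ} (h : i ≤ a) : |cf a j i| ≤ 1 := by
  have h1 : j % 2 ^ i + 1 ≤ 2 ^ i := Nat.mod_lt _ (Nat.two_pow_pos i)
  have h2 : ((j % 2 ^ i : ℕ) : ℝ) + 1 ≤ 2 ^ i := by exact_mod_cast h1
  have h3 : (2 : ℝ) ^ i ≤ 2 ^ a := pow_le_pow_right₀ (by norm_num) h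
  have h4 : (0 : ℝ) ≤ (j % 2 ^ i : ℕ) := Nat.cast_nonneg _
  rw [cf, abs_div, abs_of_pos (by positivity : (0 : ℝ) < 2 ^ a), div_le_one (by positivity), abs_le]
  constructor <;> linarith

lemma vec {n a i : ℕ} {j f f0 u : ℕ → ℕ} (ha : a ≤ 16) (hi : i < a)
    (h : ∀ p < n, j p < 2 ^ a ∧ |sv (f p)| ≤ 2 ^ 44 ∧ |sv (f0 p)| ≤ 2 ^ 44)
    (hu : ∀ p < n, |sv (u p) - (sv (f0 p) + cf a (j p) i * sv (f p))| ≤ i) :
    ∃ u' : ℕ → ℕ, pw 48 n u + Nat.xor (fld (ow 48 n) (pw 48 n f) (a - i) (47 - (a - i)))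
      (msk (Nat.xor (ow 48 n) (bit (ow 48 n) (pw 48 n fun p => 2 * j p + 1) (i + 1))) (47 - (a - i))) -
      Nat.shiftLeft (ow 48 n) (46 - (a - i)) = pw 48 n u' ∧
      ∀ p < n, |sv (u' p) - (sv (f0 p) + cf a (j p) (i + 1) * sv (f p))| ≤ (i + 1 : ℕ) := by
  have h1 : ∀ p < n, 2 * j p + 1 < 2 ^ 48 := fun p hp => by
    have := (h p hp).1
    have : 2 ^ a ≤ 2 ^ 16 := Nat.pow_le_pow_right (by norm_num) ha
    omega
  have h2 : ∀ p < n, f p < 2 ^ 48 := fun p hp => by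
    have := lt_sv (a := f p) (by linarith [(h p hp).2.1])
    omega
  have hi' : (i : ℝ) ≤ 16 := by exact_mod_cast (by omega : i ≤ 16)
  have h3 := fun p (hp : p < n) => lane (s := (2 * j p + 1) / 2 ^ (i + 1) % 2) (b := a - i)
    (by omega) (by omega) (h p hp).2.1 (h p hp).2.2 (cf_succ hi.le) (cf_le hi) hi' (hu p hp)
  refine ⟨fun p => u p + dg (f p) ((2 * j p + 1) / 2 ^ (i + 1) % 2) (a - i) - 2 ^ (46 - (a - i)),
    ?_, fun p hp => by simpa using (h3 p hp).2⟩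
  rw [bit_pw h1 (by omega), not_pw (by norm_num) fun p _ => by omega,
    fld_pw (by norm_num) h2 (by omega), xor_msk (by omega)
      (fun p _ => Nat.mod_lt _ (Nat.two_pow_pos _)) fun p _ => by omega,
    ow_shl (by norm_num), pw_add]
  exact pw_sub fun p hp => (h3 p hp).1

end Rmp

theorem rmpOk : StRmp := by
  intro n a j f g f0 g0 _ ha h
  have hf : ∀ p < n, j p < 2 ^ a ∧ |sv (f p)| ≤ 2 ^ 44 ∧ |sv (f0 p)| ≤ 2 ^ 44 := fun p hp =>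
    ⟨(h p hp).1, (Rmp.sv_norm _ _).1.trans (h p hp).2.1, (Rmp.sv_norm _ _).1.trans (h p hp).2.2⟩
  have hg : ∀ p < n, j p < 2 ^ a ∧ |sv (g p)| ≤ 2 ^ 44 ∧ |sv (g0 p)| ≤ 2 ^ 44 := fun p hp =>
    ⟨(h p hp).1, (Rmp.sv_norm _ _).2.trans (h p hp).2.1, (Rmp.sv_norm _ _).2.trans (h p hp).2.2⟩
  have key : ∀ i ≤ a, ∃ u v : ℕ → ℕ, rmp (ow 48 n) (pw 48 n fun p => 2 * j p + 1) a (pw 48 n f)
      (pw 48 n g) (pw 48 n f0) (pw 48 n g0) i = T2.mk (pw 48 n u) (pw 48 n v) ∧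
      (∀ p < n, |sv (u p) - (sv (f0 p) + Rmp.cf a (j p) i * sv (f p))| ≤ i) ∧
      ∀ p < n, |sv (v p) - (sv (g0 p) + Rmp.cf a (j p) i * sv (g p))| ≤ i := by
    intro i
    induction i with
    | zero => exact fun _ => ⟨f0, g0, rfl, by simp [Rmp.cf, Nat.mod_one], by simp [Rmp.cf, Nat.mod_one]⟩
    | succ i ih =>
      intro hi
      obtain ⟨u, v, e, h1, h2⟩ := ih (by omega)
      obtain ⟨u', e1, h3⟩ := Rmp.vec ha hi hf h1
      obtain ⟨v', e2, h4⟩ := Rmp.vec ha hi hg h2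
      exact ⟨u', v', by rw [Rmp.rmp_succ _ _ _ _ _ _ _ _ _ _ e, e1, e2], h3, h4⟩
  obtain ⟨u, v, e, h1, h2⟩ := key a le_rfl
  refine ⟨_, _, e, u, v, rfl, rfl, fun p hp => ?_⟩
  have e1 : Rmp.cf a (j p) a = (2 * j p + 1 - 2 ^ a) / 2 ^ a := by
    rw [Rmp.cf, Nat.mod_eq_of_lt (h p hp).1]
  beta_reduce
  rw [← e1]
  refine (Complex.norm_le_sqrt_two_mul_max _).trans (mul_le_mul ?_ (max_le ?_ ?_)
    (le_max_of_le_left (abs_nonneg _)) (by norm_num))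
  · rw [Real.sqrt_le_iff]; norm_num
  · simpa [cz] using h1 p hp
  · simpa [cz] using h2 p hp

end Pool.Agent.Lib.MP_5db4ad_nt.NE
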