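import Pool.Agent.Lib.MP_5db4ad_nt.H96NSt

/-!
Lane by lane meaning of the operations on vectors.
-/

namespace Pool.Agent.Lib.MP_5db4ad_nt.NE

open S2 Finset

lemma fz_eq {β : Type} (a : ℕ) (k : ℕ → β) : fz a k = k a := by
  unfold fz
  cases Nat.ble a (nat_lit 0) <;> rfl

lemma p2_eq (e : ℕ) : p2 e = 2 ^ e := by
  have : p2 e = 1 <<< e := rfl
  rw [this, Nat.shiftLeft_eq, one_mul]

lemma cut_eq (v s : ℕ) : cut v s = v % 2 ^ s := by
  have : cut v s = v &&& (p2 s - 1) := rfl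
  rw [this, p2_eq, Nat.and_two_pow_sub_one_eq_mod]

lemma dst_cast (a b : ℕ) : (dst a b : ℝ) = |(a : ℝ) - b| := by
  have : dst a b = (a - b) + (b - a) := rfl
  rw [this]
  rcases le_total a b with h | h
  · have h1 : (a : ℝ) ≤ b := by exact_mod_cast h
    rw [Nat.sub_eq_zero_of_le h, zero_add, Nat.cast_sub h, abs_of_nonpos (by linarith)]
    ring
  · have h1 : (b : ℝ) ≤ a := by exact_mod_cast h
    rw [Nat.sub_eq_zero_of_le h, add_zero, Nat.cast_sub h, abs_of_nonneg (by linarith)]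

lemma oW_eq (n : ℕ) : oW n = ow 192 (4 * n) := rfl

lemma oN_eq (n : ℕ) : oN n = ow 48 (4 * n) := rfl

lemma four_mul_p2 {a : ℕ} (h : 2 ≤ a) : 4 * 2 ^ (a - 2) = 2 ^ a := by
  obtain ⟨k, rfl⟩ := Nat.exists_eq_add_of_le h
  rw [Nat.add_sub_cancel_left, pow_add]
  norm_num

lemma pw_congr {W n : ℕ} {f g : ℕ → ℕ} (h : ∀ j < n, f j = g j) : pw W n f = pw W n g :=
  Finset.sum_congr rfl fun k hk => by rw [h k (mem_range.1 hk)]

lemma pw_split (W n m : ℕ) (f : ℕ → ℕ) :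
    pw W (n + m) f = pw W n f + (pw W m fun j => f (n + j)) * 2 ^ (W * n) := by
  unfold pw
  rw [Finset.sum_range_add, Finset.sum_mul]
  congr 1
  refine Finset.sum_congr rfl fun k _ => ?_
  rw [mul_add, pow_add]
  ring

namespace H96NLaneA

lemma succ' (W n : ℕ) (f : ℕ → ℕ) : pw W (n + 1) f = pw W n f + f n * 2 ^ (W * n) :=
  Finset.sum_range_succ _ _

lemma shr (X s : ℕ) : Nat.shiftRight X s = X / 2 ^ s := Nat.shiftRight_eq_div_pow X s

lemma shl (X s : ℕ) : Nat.shiftLeft X s = X * 2 ^ s := Nat.shiftLeft_eq X s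

lemma mono {a w W : ℕ} (h : a < 2 ^ w) (hw : w ≤ W) : a < 2 ^ W :=
  h.trans_le (Nat.pow_le_pow_right (by norm_num) hw)

lemma msk_lt {s w : ℕ} (h : s ≤ 1) : s * (2 ^ w - 1) < 2 ^ w := by
  have h1 : 0 < 2 ^ w := by positivity
  have h2 := Nat.mul_le_mul_right (2 ^ w - 1) h
  omega

lemma xor_ones {t w : ℕ} (h : t < 2 ^ w) : t ^^^ (2 ^ w - 1) = 2 ^ w - 1 - t := by
  refine Nat.eq_of_testBit_eq fun i => ?_
  rw [Nat.sub_sub, add_comm 1 t, Nat.testBit_two_pow_sub_succ h, Nat.testBit_xor,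
    Nat.testBit_two_pow_sub_one]
  rcases lt_or_ge i w with hi | hi
  · simp [hi]
  · rw [Nat.testBit_lt_two_pow (mono h hi)]
    simp [not_lt.2 hi]

end H96NLaneA

open H96NLaneA

lemma pw_succ (W n : ℕ) (f : ℕ → ℕ) :
    pw W (n + 1) f = f 0 + 2 ^ W * pw W n fun j => f (j + 1) := by
  rw [add_comm n 1, pw_split, mul_one, mul_comm (2 ^ W)]
  simp [pw, add_comm]

lemma pw_add (W n : ℕ) (f g : ℕ → ℕ) : pw W n f + pw W n g = pw W n fun j => f j + g j := by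
  simp only [pw, ← Finset.sum_add_distrib, add_mul]

lemma pw_mul (W n : ℕ) (f : ℕ → ℕ) (c : ℕ) : pw W n f * c = pw W n fun j => f j * c := by
  simp only [pw, Finset.sum_mul]
  exact Finset.sum_congr rfl fun k _ => by ring

lemma pw_shl (W n : ℕ) (f : ℕ → ℕ) (s : ℕ) :
    Nat.shiftLeft (pw W n f) s = pw W n fun j => f j * 2 ^ s := by
  rw [shl, pw_mul]

lemma pw_sub {W n : ℕ} {f g : ℕ → ℕ} (h : ∀ j < n, g j ≤ f j) :
    pw W n f - pw W n g = pw W n fun j => f j - g j := by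
  have : pw W n f = pw W n (fun k => f k - g k) + pw W n g := by
    rw [pw_add]
    exact pw_congr fun k hk => by have := h k hk; omega
  omega

lemma pw_lt {W n : ℕ} {f : ℕ → ℕ} (h : ∀ j < n, f j < 2 ^ W) : pw W n f < 2 ^ (W * n) := by
  induction n with
  | zero => simp [pw]
  | succ n ih =>
    have h1 := ih fun j hj => h j (by omega)
    have h2 : (f n + 1) * 2 ^ (W * n) ≤ 2 ^ W * 2 ^ (W * n) :=
      Nat.mul_le_mul_right _ (h n (by omega))
    rw [succ', mul_add, pow_add, mul_one, mul_comm (2 ^ (W * n))]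
    rw [add_mul, one_mul] at h2
    omega

lemma shr_pw {W n s : ℕ} {f : ℕ → ℕ} (h : ∀ j < s, f j < 2 ^ W) :
    Nat.shiftRight (pw W (s + n) f) (W * s) = pw W n fun j => f (s + j) := by
  rw [shr, pw_split, Nat.add_mul_div_right _ _ (by positivity), Nat.div_eq_of_lt (pw_lt h),
    zero_add]

lemma cut_pw {W n s : ℕ} {f : ℕ → ℕ} (h : ∀ j < s, f j < 2 ^ W) (hs : s ≤ n) :
    cut (pw W n f) (W * s) = pw W s f := by
  obtain ⟨k, rfl⟩ := Nat.exists_eq_add_of_le hs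
  rw [cut_eq, pw_split, Nat.add_mul_mod_self_right, Nat.mod_eq_of_lt (pw_lt h)]

lemma pw_lane {W n j : ℕ} {f : ℕ → ℕ} (h : ∀ j < n, f j < 2 ^ W) (hj : j < n) :
    pw W n f / 2 ^ (W * j) % 2 ^ W = f j := by
  obtain ⟨k, rfl⟩ := Nat.exists_eq_add_of_lt hj
  rw [← shr, add_assoc, shr_pw fun i hi => h i (by omega), pw_succ, Nat.add_mul_mod_self_left,
    add_zero, Nat.mod_eq_of_lt (h j (by omega))]

lemma pw_inj {W n : ℕ} {f g : ℕ → ℕ} (hf : ∀ j < n, f j < 2 ^ W) (hg : ∀ j < n, g j < 2 ^ W)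
    (h : pw W n f = pw W n g) : ∀ j < n, f j = g j := fun j hj => by
  rw [← pw_lane hf hj, h, pw_lane hg hj]

lemma mod_eq_pw (W n v : ℕ) :
    v % 2 ^ (W * n) = pw W n fun j => v / 2 ^ (W * j) % 2 ^ W := by
  induction n with
  | zero => simp [pw, Nat.mod_one]
  | succ n ih => rw [succ', ← ih, mul_add, pow_add, Nat.mod_mul, mul_one, mul_comm (_ % _)]

lemma ow_eq {W : ℕ} (h : 1 ≤ W) (n : ℕ) : ow W n = pw W n fun _ => 1 := by
  have h0 : 1 < 2 ^ W := Nat.one_lt_two_pow (by omega)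
  obtain ⟨c, hc⟩ : ∃ c, 2 ^ W = c + 1 := ⟨2 ^ W - 1, by omega⟩
  have h1 : 2 ^ (W * n) = c * (pw W n fun _ => 1) + 1 := by
    induction n with
    | zero => simp [pw]
    | succ n ih =>
      rw [succ', mul_add W, pow_add, mul_one, hc, mul_add c, ih]
      ring
  have : ow W n = (p2 (W * n) - 1) / (p2 W - 1) := rfl
  rw [this, p2_eq, p2_eq, h1, hc, Nat.add_sub_cancel, Nat.add_sub_cancel,
    Nat.mul_div_cancel_left _ (by omega)]

lemma ow_mul {W : ℕ} (h : 1 ≤ W) (n c : ℕ) : ow W n * c = pw W n fun _ => c := by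
  simp only [ow_eq h, pw_mul, one_mul]

lemma ow_shl {W : ℕ} (h : 1 ≤ W) (n s : ℕ) :
    Nat.shiftLeft (ow W n) s = pw W n fun _ => 2 ^ s := by
  rw [shl, ow_mul h]

lemma pw_append (W n m : ℕ) (f g : ℕ → ℕ) : pw W n f + pw W m g * 2 ^ (W * n) =
    pw W (n + m) fun j => if j < n then f j else g (j - n) := by
  rw [pw_split]
  congr 1
  · exact pw_congr fun j hj => (if_pos hj).symm
  · congr 1
    exact pw_congr fun j _ => by rw [if_neg (by omega), Nat.add_sub_cancel_left]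

/-- records of `r` lanes -/
lemma pw_pw (W r n : ℕ) (f : ℕ → ℕ → ℕ) (hr : 1 ≤ r) :
    (pw (W * r) n fun p => pw W r (f p)) = pw W (r * n) fun j => f (j / r) (j % r) := by
  induction n with
  | zero => simp [pw]
  | succ n ih =>
    rw [succ', ih, mul_add r, mul_one, pw_split, mul_assoc W]
    congr 2
    refine pw_congr fun j hj => ?_
    rw [Nat.mul_add_div (by omega), Nat.div_eq_of_lt hj, add_zero, Nat.mul_add_mod,
      Nat.mod_eq_of_lt hj]

namespace H96NLaneA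

lemma self_eq {W n v : ℕ} (h : v < 2 ^ (W * n)) :
    v = pw W n fun j => v / 2 ^ (W * j) % 2 ^ W := by
  rw [← mod_eq_pw, Nat.mod_eq_of_lt h]

lemma land_any {W n : ℕ} {g : ℕ → ℕ} (v : ℕ) (hg : ∀ j < n, g j < 2 ^ W) :
    Nat.land v (pw W n g) = pw W n fun j => v / 2 ^ (W * j) % 2 ^ W &&& g j := by
  change v &&& pw W n g = _
  rw [self_eq (Nat.and_lt_two_pow v (pw_lt hg))]
  refine pw_congr fun j hj => ?_
  rw [Nat.and_div_two_pow, Nat.and_mod_two_pow, pw_lane hg hj]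

lemma shr_land {W n s : ℕ} {f g : ℕ → ℕ} (hf : ∀ j < n, f j < 2 ^ W)
    (hg : ∀ j < n, g j < 2 ^ (W - s)) :
    Nat.land (Nat.shiftRight (pw W n f) s) (pw W n g) = pw W n fun j => f j / 2 ^ s &&& g j := by
  rw [land_any _ fun j hj => mono (hg j hj) (Nat.sub_le W s), shr]
  refine pw_congr fun j hj => ?_
  rw [← pw_lane hf hj]
  refine Nat.eq_of_testBit_eq fun i => ?_
  simp only [Nat.testBit_and, Nat.testBit_mod_two_pow, Nat.testBit_div_two_pow]
  rcases lt_or_ge i (W - s) with hi | hi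
  · rw [decide_eq_true (show i < W by omega), decide_eq_true (show i + s < W by omega),
      add_right_comm]
  · rw [Nat.testBit_lt_two_pow (mono (hg j hj) hi), Bool.and_false, Bool.and_false]

end H96NLaneA

lemma land_pw {W n : ℕ} {f g : ℕ → ℕ} (hf : ∀ j < n, f j < 2 ^ W) (hg : ∀ j < n, g j < 2 ^ W) :
    Nat.land (pw W n f) (pw W n g) = pw W n fun j => f j &&& g j := by
  rw [land_any _ hg]
  exact pw_congr fun j hj => by rw [pw_lane hf hj]

lemma xor_pw {W n : ℕ} {f g : ℕ → ℕ} (hf : ∀ j < n, f j < 2 ^ W) (hg : ∀ j < n, g j < 2 ^ W) :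
    Nat.xor (pw W n f) (pw W n g) = pw W n fun j => f j ^^^ g j := by
  change pw W n f ^^^ pw W n g = _
  rw [self_eq (Nat.xor_lt_two_pow (pw_lt hf) (pw_lt hg))]
  refine pw_congr fun j hj => ?_
  rw [Nat.xor_div_two_pow, Nat.xor_mod_two_pow, pw_lane hf hj, pw_lane hg hj]

lemma msk_pw (W n w : ℕ) (σ : ℕ → ℕ) :
    msk (pw W n σ) w = pw W n fun j => σ j * (2 ^ w - 1) := by
  have : msk (pw W n σ) w = Nat.shiftLeft (pw W n σ) w - pw W n σ := rfl
  rw [this, shl, ← pw_mul, Nat.mul_sub_one]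

lemma fld_pw {W n s w : ℕ} {f : ℕ → ℕ} (hW : 1 ≤ W) (h : ∀ j < n, f j < 2 ^ W) (hs : s + w ≤ W) :
    fld (ow W n) (pw W n f) s w = pw W n fun j => f j / 2 ^ s % 2 ^ w := by
  have : fld (ow W n) (pw W n f) s w =
      Nat.land (Nat.shiftRight (pw W n f) s) (msk (ow W n) w) := rfl
  rw [this, ow_eq hW, msk_pw, shr_land h fun _ _ => mono (msk_lt le_rfl) (by omega)]
  exact pw_congr fun j _ => by rw [one_mul, Nat.and_two_pow_sub_one_eq_mod]

lemma bit_pw {W n s : ℕ} {f : ℕ → ℕ} (h : ∀ j < n, f j < 2 ^ W) (hs : s < W) :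
    bit (ow W n) (pw W n f) s = pw W n fun j => f j / 2 ^ s % 2 := by
  have : bit (ow W n) (pw W n f) s = Nat.land (Nat.shiftRight (pw W n f) s) (ow W n) := rfl
  rw [this, ow_eq (by omega), shr_land h fun _ _ => Nat.one_lt_two_pow (by omega)]
  exact pw_congr fun j _ => Nat.and_one_is_mod _

lemma bit_any {W : ℕ} (hW : 1 ≤ W) (n v s : ℕ) :
    ∃ σ : ℕ → ℕ, bit (ow W n) v s = pw W n σ ∧ ∀ j, σ j ≤ 1 := by
  have : bit (ow W n) v s = Nat.land (Nat.shiftRight v s) (ow W n) := rfl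
  rw [this, ow_eq hW, land_any _ fun _ _ => Nat.one_lt_two_pow (by omega)]
  exact ⟨_, rfl, fun _ => Nat.and_le_right⟩

lemma not_pw {W n : ℕ} {σ : ℕ → ℕ} (hW : 1 ≤ W) (h : ∀ j < n, σ j ≤ 1) :
    Nat.xor (ow W n) (pw W n σ) = pw W n fun j => 1 - σ j := by
  have h0 : 1 < 2 ^ W := Nat.one_lt_two_pow (by omega)
  rw [ow_eq hW, xor_pw (fun _ _ => h0) fun j hj => (h j hj).trans_lt h0]
  refine pw_congr fun j hj => ?_
  rcases Nat.le_one_iff_eq_zero_or_eq_one.1 (h j hj) with e | e <;> rw [e] <;> rfl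

lemma xor_msk {W n w : ℕ} {t σ : ℕ → ℕ} (hw : w ≤ W) (ht : ∀ j < n, t j < 2 ^ w)
    (h : ∀ j < n, σ j ≤ 1) : Nat.xor (pw W n t) (msk (pw W n σ) w) =
      pw W n fun j => if σ j = 1 then 2 ^ w - 1 - t j else t j := by
  rw [msk_pw, xor_pw (fun j hj => mono (ht j hj) hw) fun j hj => mono (msk_lt (h j hj)) hw]
  refine pw_congr fun j hj => ?_
  rcases Nat.le_one_iff_eq_zero_or_eq_one.1 (h j hj) with e | e
  · rw [e, zero_mul, Nat.xor_zero, if_neg (by omega)]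
  · rw [e, one_mul, if_pos rfl, xor_ones (ht j hj)]

lemma sc_pw {n b : ℕ} {f σ : ℕ → ℕ} (hb : b ≤ 47) (hf : ∀ j < n, f j < 2 ^ 47)
    (h : ∀ j < n, σ j ≤ 1) : sc (pw 48 n f) b (msk (pw 48 n σ) (47 - b)) =
      pw 48 n fun j => f j + σ j * (f j / 2 ^ b) := by
  have : sc (pw 48 n f) b (msk (pw 48 n σ) (47 - b)) = pw 48 n f +
      Nat.land (Nat.shiftRight (pw 48 n f) b) (msk (pw 48 n σ) (47 - b)) := rfl
  rw [this, msk_pw, shr_land (fun j hj => mono (hf j hj) (by norm_num))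
    fun j hj => mono (msk_lt (h j hj)) (by omega), pw_add]
  refine pw_congr fun j hj => ?_
  rcases Nat.le_one_iff_eq_zero_or_eq_one.1 (h j hj) with e | e
  · rw [e, zero_mul, zero_mul, Nat.and_zero]
  · rw [e, one_mul, one_mul, Nat.and_two_pow_sub_one_eq_mod, Nat.mod_eq_of_lt]
    rw [Nat.div_lt_iff_lt_mul (by positivity), ← pow_add, Nat.sub_add_cancel hb]
    exact hf j hj

lemma lek_pw {W n c : ℕ} {f : ℕ → ℕ} (hW : 48 ≤ W) (h : ∀ j < n, f j ≤ 2 ^ 47) (hc : c < 2 ^ 47)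
    (hl : lek (ow W n) (pw W n f) c = true) : ∀ j < n, f j ≤ c := by
  have e : bit (ow W n) (ow W n * (140737488355328 + c) - pw W n f) 47 = ow W n :=
    Nat.eq_of_beq_eq_true hl
  have h0 : 1 < 2 ^ W := Nat.one_lt_two_pow (by omega)
  rw [ow_mul (by omega), pw_sub fun j hj => by have := h j hj; omega,
    bit_pw (fun j _ => mono (w := 48) (by omega) hW) (by omega), ow_eq (by omega)] at e
  intro j hj
  have h1 := pw_inj (fun j _ => by omega) (fun _ _ => h0) e j hj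
  have := h j hj
  omega

lemma rng_pw {W n c : ℕ} {f : ℕ → ℕ} (hW : 48 ≤ W) (h : ∀ j < n, f j ≤ 2 ^ 47) (hc : c < 2 ^ 46)
    (hl : rng (ow W n) (pw W n f) c = true) : ∀ j < n, |sv (f j)| ≤ c := by
  have e : (lek (ow W n) (pw W n f) (70368744177664 + c) &&
      lek (ow W n) (Nat.shiftLeft (ow W n) 47 - pw W n f) (70368744177664 + c)) = true := hl
  rw [Bool.and_eq_true, ow_shl (by omega), pw_sub h] at e
  intro j hj
  have h1 := lek_pw hW h (by omega) e.1 j hj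
  have h2 := lek_pw hW (fun j _ => Nat.sub_le _ _) (by omega) e.2 j hj
  have h3 : (f j : ℝ) ≤ 2 ^ 46 + c := by exact_mod_cast h1
  have h4 : 2 ^ 46 ≤ f j + c := by omega
  have h5 : (2 : ℝ) ^ 46 ≤ f j + c := by exact_mod_cast h4
  exact abs_le.2 ⟨by unfold NE.sv; linarith, by unfold NE.sv; linarith⟩

lemma smW_pw {W n : ℕ} {f : ℕ → ℕ} (hW : 1 ≤ W) (h : ∑ j ∈ range n, f j < 2 ^ W - 1) :
    smW W (pw W n f) = ∑ j ∈ range n, f j := by
  have : smW W (pw W n f) = pw W n f % (p2 W - 1) := rfl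
  rw [this, p2_eq, ← Nat.mod_eq_of_lt h]
  refine Nat.ModEq.sum fun j _ => ?_
  have h0 : 1 < 2 ^ W := Nat.one_lt_two_pow (by omega)
  have h1 : 2 ^ W ≡ 1 [MOD 2 ^ W - 1] := ((Nat.modEq_iff_dvd' h0.le).2 dvd_rfl).symm
  have h2 := (h1.pow j).mul_left (f j)
  rwa [one_pow, mul_one, ← pow_mul] at h2

end Pool.Agent.Lib.MP_5db4ad_nt.NE
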