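import Pool.Agent.Lib.MP_5db4ad_nt.EqFix
import Pool.Agent.Lib.MP_5db4ad_nt.H96NLaneA

/-!
The vector of the sorted sources and the checks on its lanes.
-/

namespace Pool.Agent.Lib.MP_5db4ad_nt.NE

open S2 Finset

namespace SV

lemma part_perm {β : Type} (d : ℕ) (l : L) : ∃ a b, (∀ k : L → L → β, part d l k = k a b) ∧
    (toL a ++ toL b).Perm (toL l) := by
  induction l with
  | nil => exact ⟨.nil, .nil, fun _ => rfl, List.Perm.refl _⟩
  | cons c v t ih =>
    obtain ⟨a, b, h1, h2⟩ := ih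
    have e : ∀ k : L → L → β, part d (.cons c v t) k =
        Nat.rec (k (L.cons c v a) b) (fun _ _ => k a (L.cons c v b))
          (Nat.land (Nat.shiftRight c d) 1) := fun k =>
      h1 fun a b => Nat.rec (motive := fun _ => β) (k (L.cons c v a) b)
        (fun _ _ => k a (L.cons c v b)) (Nat.land (Nat.shiftRight c d) 1)
    generalize Nat.land (Nat.shiftRight c d) 1 = s at e
    cases s with
    | zero => exact ⟨.cons c v a, b, e, h2.cons _⟩
    | succ s => exact ⟨a, .cons c v b, e, List.perm_middle.trans (h2.cons _)⟩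

lemma toL_app (l acc : L) : toL (app l acc) = toL l ++ toL acc := by
  induction l with
  | nil => rfl
  | cons c v t ih =>
    have : app (.cons c v t) acc = .cons c v (app t acc) := rfl
    rw [this, toL, toL, ih, List.cons_append]

lemma srt_perm (d : ℕ) (l acc : L) : (toL (srt d l acc)).Perm (toL l ++ toL acc) := by
  induction d generalizing l acc with
  | zero => exact (toL_app l acc).symm ▸ List.Perm.refl _
  | succ d ih =>
    cases l with
    | nil => exact List.Perm.refl _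
    | cons c v t =>
      cases t with
      | nil => exact List.Perm.refl _
      | cons c' v' t =>
        have : srt (d + 1) (.cons c v (.cons c' v' t)) acc = part d (.cons c v (.cons c' v' t))
            fun a b => srt d a (srt d b acc) := rfl
        obtain ⟨a, b, h1, h2⟩ := part_perm (β := L) d (.cons c v (.cons c' v' t))
        rw [this, h1]
        refine (ih _ _).trans (((ih _ _).append_left _).trans ?_)
        rw [← List.append_assoc]
        exact h2.append_right _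

lemma takeT_eq {β : Type} (d : ℕ) (l : L) : ∃ r, (∀ k : ℕ → L → β, takeT d l k =
    k (pw 192 (2 ^ d) fun p => ((toL l).map Prod.snd).getD p padV) r) ∧
    toL r = (toL l).drop (2 ^ d) := by
  induction d generalizing l with
  | zero =>
    cases l with
    | nil => exact ⟨.nil, fun k => by simp only [pw, toL]; simp; rfl, rfl⟩
    | cons c v t => exact ⟨t, fun k => by simp only [pw, toL]; simp; rfl, rfl⟩
  | succ d ih =>
    obtain ⟨t, h1, h2⟩ := ih l
    obtain ⟨r, h3, h4⟩ := ih t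
    refine ⟨r, fun k => ?_, by rw [h4, h2, List.drop_drop, pow_succ, mul_two]⟩
    have : takeT (d + 1) l k = takeT d l fun a t => takeT d t fun b t' =>
        fz (a + b <<< (192 <<< d)) fun r => k r t' := rfl
    rw [this, h1, h3, fz_eq, pow_succ, mul_two, pw_split, Nat.shiftLeft_eq, Nat.shiftLeft_eq, h2]
    congr 3
    refine pw_congr fun j _ => ?_
    simp only [List.getD_eq_getElem?_getD, List.map_drop, List.getElem?_drop]

lemma exists_perm_map {α β : Type} (F : α → β) {l : List β} {es : List α}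
    (h : l.Perm (es.map F)) : ∃ es' : List α, es'.Perm es ∧ l = es'.map F := by
  have := List.eq_map_comp_perm F
  obtain ⟨es', h1, h2⟩ := (congrFun (congrFun this l) es).symm ▸ h
  exact ⟨es', h2, h1⟩

lemma lane_lt {a g m : ℕ} (ha : a < 2 ^ 48) (hg : g < 2 ^ 72) (hm : m < 2 ^ 64) :
    a + g * 2 ^ 48 + m * 2 ^ 128 < 2 ^ 192 := by omega

lemma lane_key {a g m : ℕ} (ha : a < 2 ^ 48) :
    (a + g * 2 ^ 48 + m * 2 ^ 128) / 2 ^ 92 % 2 ^ 20 = g / 2 ^ 44 % 2 ^ 20 := by omega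

lemma lane_low {a g m : ℕ} (ha : a < 2 ^ 48) :
    (a + g * 2 ^ 48 + m * 2 ^ 128) / 2 ^ 0 % 2 ^ 48 = a := by omega

lemma sorted_pw {n : ℕ} {f : ℕ → ℕ} (h : ∀ j < n + 1, f j < 2 ^ 192)
    (hs : sortedV n (pw 192 (n + 1) f) = true) :
    ∀ j < n, f j / 2 ^ 92 % 2 ^ 20 ≤ f (j + 1) / 2 ^ 92 % 2 ^ 20 := by
  have e : sortedV n (pw 192 (n + 1) f) = Nat.beq (bit (ow 192 n)
      (Nat.shiftRight (fld (ow 192 (n + 1)) (pw 192 (n + 1) f) 92 20) (192 * 1) +
        Nat.shiftLeft (ow 192 n) 20 -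
        cut (fld (ow 192 (n + 1)) (pw 192 (n + 1) f) 92 20) (192 * n)) 20) (ow 192 n) := rfl
  rw [e, Nat.beq_eq, fld_pw (by norm_num) h (by norm_num)] at hs
  have hK : ∀ j, f j / 2 ^ 92 % 2 ^ 20 < 2 ^ 20 := fun j => Nat.mod_lt _ (by positivity)
  generalize hk : (fun j => f j / 2 ^ 92 % 2 ^ 20) = K at hs
  have hK' : ∀ j, K j < 2 ^ 20 := fun j => hk ▸ hK j
  have hK2 : ∀ j, K j < 2 ^ 192 := fun j => (hK' j).trans (by norm_num)
  rw [cut_pw (fun j _ => hK2 j) (Nat.le_succ n), add_comm n 1, shr_pw (fun j _ => hK2 j),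
    ow_shl (by norm_num), pw_add, pw_sub (fun j _ => by have := hK' j; omega),
    bit_pw (fun j _ => by have := hK' (1 + j); omega) (by norm_num), ow_eq (by norm_num)] at hs
  intro j hj
  have h1 := pw_inj (fun j _ => by omega) (fun j _ => by norm_num) hs j hj
  have h2 : K j ≤ K (1 + j) := by omega
  rw [add_comm 1 j, ← hk] at h2
  exact h2

lemma xor_ones {a w : ℕ} (h : a < 2 ^ w) : a ^^^ (2 ^ w - 1) = 2 ^ w - (a + 1) := by
  refine Nat.eq_of_testBit_eq fun i => ?_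
  rw [Nat.testBit_xor, Nat.testBit_two_pow_sub_one, Nat.testBit_two_pow_sub_succ h]
  by_cases hi : i < w
  · simp [hi]
  · have : a.testBit i = false :=
      Nat.testBit_lt_two_pow (h.trans_le (Nat.pow_le_pow_right (by norm_num) (not_lt.1 hi)))
    simp [hi, this]

lemma abs_lane {a : ℕ} (h : a < 2 ^ 47) :
    |sv a| ≤ (1 + (a ^^^ (1 - a / 2 ^ 46 % 2) * (2 ^ 46 - 1)) / 2 ^ 0 % 2 ^ 46 : ℕ) := by
  unfold sv
  by_cases h1 : a < 2 ^ 46
  · have e : 1 - a / 2 ^ 46 % 2 = 1 := by omega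
    rw [e, one_mul, xor_ones h1]
    have e2 : 1 + (2 ^ 46 - (a + 1)) / 2 ^ 0 % 2 ^ 46 + a = 2 ^ 46 := by omega
    generalize 1 + (2 ^ 46 - (a + 1)) / 2 ^ 0 % 2 ^ 46 = x at e2
    have e3 : (x : ℝ) + a = 2 ^ 46 := by exact_mod_cast e2
    have h0 : (0 : ℝ) ≤ x := Nat.cast_nonneg x
    rw [abs_le]
    constructor <;> linarith
  · have e : 1 - a / 2 ^ 46 % 2 = 0 := by omega
    rw [e, zero_mul, Nat.xor_zero]
    have e2 : 1 + a / 2 ^ 0 % 2 ^ 46 + 2 ^ 46 = a + 1 := by omega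
    have e4 : 1 ≤ 1 + a / 2 ^ 0 % 2 ^ 46 := by omega
    generalize 1 + a / 2 ^ 0 % 2 ^ 46 = x at e2 e4
    have e3 : (x : ℝ) + 2 ^ 46 = a + 1 := by exact_mod_cast e2
    have h0 : (1 : ℝ) ≤ x := by exact_mod_cast e4
    rw [abs_le]
    constructor <;> linarith

/-- the lane of a triple -/
def ln (e : ℕ × ℕ × ℕ) : ℕ := e.1 + e.2.1 * 2 ^ 48 + e.2.2 * 2 ^ 128

lemma padV_eq : padV = ln (2 ^ 46, 2 ^ 64 - 1, 0) := by norm_num [padV, ln]

lemma getD_lane {α β γ δ : Type} (F : α → β) (G : β → γ) (φ : α → δ) (ψ : δ → γ)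
    (h : ∀ e, G (F e) = ψ (φ e)) (es : List α) (p : ℕ) (x : δ) :
    ((es.map F).map G).getD p (ψ x) = ψ ((es.map φ).getD p x) := by
  simp only [List.getD_eq_getElem?_getD, List.getElem?_map]
  cases es[p]? with
  | none => rfl
  | some e => exact h e

lemma mkSV_eq (d : ℕ) (l : L) : ∃ l', (toL l').Perm (toL l) ∧
    mkSV d l = pw 192 (2 ^ d) fun p => ((toL l').map Prod.snd).getD p padV := by
  have h := srt_perm (nat_lit 20) l .nil
  rw [show toL .nil = [] from rfl, List.append_nil] at h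
  unfold mkSV
  generalize srt (nat_lit 20) l .nil = l' at h
  obtain ⟨r, h1, -⟩ := takeT_eq (β := ℕ) d l'
  exact ⟨l', h, h1 _⟩

end SV

open SV

theorem svOk : StSV := by
  intro d l es hE
  obtain ⟨l', h2, h1⟩ := mkSV_eq d l
  rw [hE.1] at h2
  obtain ⟨es', hp, h3⟩ := exists_perm_map _ h2
  let T : ℕ → ℕ × ℕ × ℕ := fun p =>
    (es'.map fun e => (e.1, e.2.1 ||| 1, e.2.2)).getD p (2 ^ 46, 2 ^ 64 - 1, 0)
  have hT : ∀ p, (T p).1 < 2 ^ 48 ∧ (T p).2.1 < 2 ^ 72 ∧ Odd (T p).2.1 ∧ (T p).2.2 < 2 ^ 64 := by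
    intro p
    simp only [T, List.getD_eq_getElem?_getD, List.getElem?_map]
    cases he : es'[p]? with
    | none => simp only [Option.map_none, Option.getD_none]; norm_num [Nat.odd_iff]
    | some e =>
      obtain ⟨a1, a2, a3⟩ := hE.2 e (hp.subset (List.mem_of_getElem? he))
      simp only [Option.map_some, Option.getD_some]
      refine ⟨a1, Nat.or_lt_two_pow a2 (by norm_num), ?_, a3⟩
      rw [Nat.odd_iff, Nat.or_mod_two_eq_one]
      exact Or.inr rfl
  have hv : mkSV d l = pw 192 (2 ^ d) fun p => ln (T p) := by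
    refine h1.trans (pw_congr fun p _ => ?_)
    rw [h3, padV_eq]
    exact getD_lane _ _ (fun e : ℕ × ℕ × ℕ => (e.1, e.2.1 ||| 1, e.2.2)) ln
      (fun _ => by simp only [ln]) _ _ _
  have hl : ∀ p, (T p).1 + (T p).2.1 * 2 ^ 48 + (T p).2.2 * 2 ^ 128 < 2 ^ 192 := fun p =>
    lane_lt (hT p).1 (hT p).2.1 (hT p).2.2.2
  simp only [ln] at hv
  rw [hv]
  refine ⟨cut_pw (fun p _ => hl p) le_rfl, fun n hn1 hn2 hs => ?_⟩
  rw [cut_pw (fun p _ => hl p) hn2] at hs ⊢
  refine ⟨fun p => (T p).1, fun p => (T p).2.1, fun p => (T p).2.2, es', ⟨rfl, fun p _ =>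
    ⟨(hT p).1, (hT p).2.1, (hT p).2.2.1, (hT p).2.2.2, fun hp => ?_⟩⟩, hp, fun p _ => rfl⟩
  obtain ⟨n, rfl⟩ : ∃ n', n = n' + 1 := ⟨n - 1, by omega⟩
  have := sorted_pw (fun p _ => hl p) hs p (by omega)
  rwa [lane_key (hT _).1, lane_key (hT _).1] at this

theorem chkOk : StChk := by
  intro n v mI A g m hn hv hb hc
  have e : srcChk n v mI = and (and (sortedV (n - 1) v)
      (Nat.beq (bit (ow 192 n) (fld (ow 192 n) v 0 48) 47) 0))
      (and (rng (ow 192 n) (fld (ow 192 n) v 0 48) (2 ^ 39)) (Nat.ble (smW 192 (ow 192 n +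
        fld (ow 192 n) (Nat.xor (fld (ow 192 n) v 0 48) (msk (Nat.xor (ow 192 n)
          (bit (ow 192 n) (fld (ow 192 n) v 0 48) 46)) 46)) 0 46)) mI)) := rfl
  have ht : fld (ow 192 n) v 0 48 = pw 192 n A := by
    rw [hv, fld_pw (by norm_num) (fun p hp => lane_lt (hb p hp).1 (hb p hp).2.1 (hb p hp).2.2)
      (by norm_num)]
    exact pw_congr fun p hp => lane_low (hb p hp).1
  have hA : ∀ p < n, A p < 2 ^ 192 := fun p hp => (hb p hp).1.trans (by norm_num)
  rw [e, ht] at hc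
  simp only [Bool.and_eq_true, Nat.beq_eq, Nat.ble_eq] at hc
  obtain ⟨⟨-, h1⟩, h2, h3⟩ := hc
  rw [bit_pw hA (by norm_num)] at h1
  have h4 : ∀ p < n, A p < 2 ^ 47 := fun p hp => by
    have h5 := pw_inj (W := 192) (n := n) (f := fun j => A j / 2 ^ 47 % 2) (g := fun _ => 0)
      (fun j _ => by omega) (fun j _ => by norm_num) (by rw [h1]; simp [pw]) p hp
    have := (hb p hp).1
    omega
  refine ⟨fun p hp => ?_, ?_⟩
  · have := rng_pw (by norm_num) (fun p hp => (h4 p hp).le) (by norm_num) h2 p hp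
    exact_mod_cast this
  have hσ : ∀ j, (1 - A j / 2 ^ 46 % 2) * (2 ^ 46 - 1) < 2 ^ 192 := fun j => by omega
  rw [bit_pw hA (by norm_num), not_pw (by norm_num) (fun j _ => by omega), msk_pw,
    xor_pw hA (fun j _ => hσ j),
    fld_pw (by norm_num) (fun j hj => Nat.xor_lt_two_pow (hA j hj) (hσ j)) (by norm_num),
    ow_eq (by norm_num), pw_add, smW_pw (by norm_num)] at h3
  · refine le_trans (sum_le_sum fun p hp => abs_lane (h4 p (mem_range.1 hp))) ?_
    exact_mod_cast h3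
  · refine lt_of_le_of_lt (sum_le_card_nsmul _ _ (2 ^ 46) fun j _ => by omega) ?_
    rw [card_range, smul_eq_mul]
    omega

end Pool.Agent.Lib.MP_5db4ad_nt.NE
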