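import Pool.Agent.Lib.MP_5db4ad_nt.EqFix
import Pool.Agent.Lib.MP_5db4ad_nt.H96NLaneA

/-!
The vectors of sources for the exact part and for the dual sum.
-/

namespace Pool.Agent.Lib.MP_5db4ad_nt.NE

open S2 Finset
open scoped Real

namespace SrcA

lemma sum_getD {α β : Type} [AddCommMonoid β] (f : α → β) (a : α) (l : List α) :
    ∀ n, l.length ≤ n → (l.length = n ∨ f a = 0) →
      ∑ p ∈ range n, f (l.getD p a) = (l.map f).sum := by
  induction l with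
  | nil =>
    intro n _ h
    rcases h with h | h
    · subst h; simp
    · simp [h]
  | cons x t ih =>
    intro n hn h
    obtain ⟨m, rfl⟩ : ∃ m, n = m + 1 := ⟨n - 1, by simp at hn; omega⟩
    rw [sum_range_succ', List.map_cons, List.sum_cons, add_comm]
    simp only [List.getD_cons_zero, List.getD_cons_succ]
    rw [ih m (by simpa using hn) (h.imp (fun h => by simpa using h) id)]

lemma norm_sum_le {α : Type} (f g : α → ℂ) (b : α → ℝ) (c e : ℝ) (l : List α)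
    (h : ∀ x ∈ l, ‖f x - g x‖ ≤ c + e * b x) :
    ‖(l.map f).sum - (l.map g).sum‖ ≤ l.length * c + e * (l.map b).sum := by
  induction l with
  | nil => simp
  | cons x t ih =>
    have h1 := h x (by simp)
    have h2 := ih fun y hy => h y (by simp [hy])
    simp only [List.map_cons, List.sum_cons, List.length_cons]
    have : f x + (t.map f).sum - (g x + (t.map g).sum) =
        (f x - g x) + ((t.map f).sum - (t.map g).sum) := by ring
    rw [this]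
    refine (norm_add_le _ _).trans ?_
    push_cast
    linarith

lemma or_one (g : ℕ) : g ≤ g ||| 1 ∧ g ||| 1 ≤ g + 1 := by
  have h1 : (g ||| 1) / 2 = g / 2 := by rw [Nat.or_div_two]; simp
  have h2 : g ≤ g ||| 1 := Nat.left_le_or
  omega

lemma toL_ent (A g m : ℕ) (t : L) : toL (ent A g m t) =
    (g / 2 ^ 44 % 2 ^ 20, A + (g ||| 1) * 2 ^ 48 + m * 2 ^ 128) :: toL t := by
  have h : ent A g m t = L.cons ((g >>> 44) &&& (2 ^ 20 - 1))
      (A + (g ||| 1) <<< 48 + m <<< 128) t := by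
    unfold ent
    simp only [fz_eq]
    rfl
  rw [h, Nat.and_two_pow_sub_one_eq_mod, Nat.shiftRight_eq_div_pow, Nat.shiftLeft_eq,
    Nat.shiftLeft_eq]
  rfl

lemma len_eq (l : L) : ∀ n, len l n = n + (toL l).length := by
  induction l with
  | nil => intro n; rfl
  | cons a b t ih =>
    intro n
    have h : len (L.cons a b t) n = len t (n + 1) := by
      unfold len
      simp only [fz_eq]
    rw [h, ih]
    simp only [toL, List.length_cons]
    omega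

/-- the size of the weight -/
def tA (m w : ℕ) : ℕ := 6802349901799902176 * 2 ^ w / (m * 2 ^ 24)

/-- the lane of the weight -/
def aA (m w : ℕ) : ℕ := if w % 2 = 0 then 2 ^ 46 + tA m w else 2 ^ 46 - tA m w

lemma lstA_cons (m w g : ℕ) (t : L3) :
    lstA (L3.cons m w g t) = ent (aA m w) g 0 (lstA t) := by
  have h : lstA (L3.cons m w g t) = ent (Bool.rec (2 ^ 46 - 6802349901799902176 <<< w / m <<< 24)
      (2 ^ 46 + 6802349901799902176 <<< w / m <<< 24) (Nat.beq (w &&& 1) 0)) g 0 (lstA t) := by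
    unfold lstA
    simp only [fz_eq]
    rfl
  rw [h, Nat.and_one_is_mod, Nat.shiftLeft_eq, Nat.shiftLeft_eq]
  unfold aA tA
  rcases Nat.mod_two_eq_zero_or_one w with h2 | h2
  · rw [h2, if_pos rfl]; rfl
  · rw [h2, if_neg (by norm_num)]; rfl

lemma toL_lstA (l : L3) : toL (lstA l) = (l.toList.map fun e => (aA e.1 e.2.1, e.2.2, 0)).map
    (fun e : ℕ × ℕ × ℕ =>
      (e.2.1 / 2 ^ 44 % 2 ^ 20, e.1 + (e.2.1 ||| 1) * 2 ^ 48 + e.2.2 * 2 ^ 128)) := by
  induction l with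
  | nil => rfl
  | cons m w g t ih => rw [lstA_cons, toL_ent, ih]; rfl

lemma toL_lstD (l : L3) : toL (lstD l) = (l.toList.map fun e => (2 ^ 46, e.2.2, e.1)).map
    (fun e : ℕ × ℕ × ℕ =>
      (e.2.1 / 2 ^ 44 % 2 ^ 20, e.1 + (e.2.1 ||| 1) * 2 ^ 48 + e.2.2 * 2 ^ 128)) := by
  induction l with
  | nil => rfl
  | cons m w g t ih =>
    have h : lstD (L3.cons m w g t) = ent (2 ^ 46) g m (lstD t) := rfl
    rw [h, toL_ent, ih]; rfl

lemma g_lt {m g : ℕ} {δ : ℝ} (h1 : 1 ≤ m) (h2 : m < 2 ^ 36) (hδ : δ ≤ 1)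
    (h : |(g : ℝ) / 2 ^ 64 - Real.log m / Real.log 2| ≤ δ) : g < 2 ^ 72 := by
  have l2 : 0 < Real.log 2 := Real.log_pos (by norm_num)
  have hm : (0 : ℝ) < m := by exact_mod_cast h1
  have h3 : Real.log m ≤ 36 * Real.log 2 := by
    have : Real.log m ≤ Real.log (2 ^ 36) :=
      Real.log_le_log hm (by exact_mod_cast h2.le)
    rwa [Real.log_pow] at this
  have h4 : Real.log m / Real.log 2 ≤ 36 := by rwa [div_le_iff₀ l2]
  have h5 : (g : ℝ) / 2 ^ 64 ≤ 37 := by linarith [(abs_le.1 h).2]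
  rw [div_le_iff₀ (by positivity)] at h5
  have h6 : (g : ℝ) < 2 ^ 72 := h5.trans_lt (by norm_num)
  exact_mod_cast h6

lemma g_or {m g : ℕ} {δ : ℝ} (h : |(g : ℝ) / 2 ^ 64 - Real.log m / Real.log 2| ≤ δ) :
    |((g ||| 1 : ℕ) : ℝ) / 2 ^ 64 - Real.log m / Real.log 2| ≤ δ + 1 / 2 ^ 64 := by
  obtain ⟨h1, h2⟩ := or_one g
  have h3 : (g : ℝ) ≤ (g ||| 1 : ℕ) := by exact_mod_cast h1
  have h4 : ((g ||| 1 : ℕ) : ℝ) ≤ g + 1 := by exact_mod_cast h2
  have h5 : (g : ℝ) / 2 ^ 64 ≤ (g ||| 1 : ℕ) / 2 ^ 64 := by gcongr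
  have h6 : ((g ||| 1 : ℕ) : ℝ) / 2 ^ 64 ≤ g / 2 ^ 64 + 1 / 2 ^ 64 := by
    rw [← add_div]; gcongr
  have h7 : (0 : ℝ) < 1 / 2 ^ 64 := by positivity
  rw [abs_le] at h ⊢
  constructor <;> linarith [h.1, h.2]

lemma two_pow_le {m : ℕ} (h : 1 ≤ m) : 2 ^ ArithmeticFunction.cardFactors m ≤ m := by
  rw [ArithmeticFunction.cardFactors_apply]
  have h1 := List.pow_card_le_prod m.primeFactorsList 2
    fun p hp => (Nat.prime_of_mem_primeFactorsList hp).two_le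
  rwa [Nat.prod_primeFactorsList (by omega)] at h1

lemma tA_le {m w : ℕ} (h : 2 ^ w ≤ m) : tA m w ≤ 2 ^ 39 := by
  unfold tA
  apply Nat.div_le_of_le_mul
  calc 6802349901799902176 * 2 ^ w ≤ 2 ^ 63 * m := Nat.mul_le_mul (by norm_num) h
    _ = m * 2 ^ 24 * 2 ^ 39 := by ring

lemma tA_err {m w : ℕ} (h1 : 1 ≤ m) (h : 2 ^ w ≤ m) :
    |Kc ^ 2 / 2 ^ 40 * tA m w - 2 ^ w / m| ≤ 2.72 / 2 ^ 40 := by
  have hm : (0 : ℝ) < m := by exact_mod_cast h1
  have hD : 0 < m * 2 ^ 24 := by positivity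
  have u1 : (tA m w : ℝ) ≤ 6802349901799902176 / 2 ^ 24 * (2 ^ w / m) := by
    have := @Nat.cast_div_le ℝ _ _ _ (6802349901799902176 * 2 ^ w) (m * 2 ^ 24)
    unfold tA
    refine this.trans (le_of_eq ?_)
    push_cast
    field_simp
    norm_num
  have u2 : 6802349901799902176 / 2 ^ 24 * (2 ^ w / m) < (tA m w : ℝ) + 1 := by
    have h2 : 6802349901799902176 * 2 ^ w < m * 2 ^ 24 * (tA m w + 1) := Nat.lt_mul_div_succ _ hD
    have h3 : (6802349901799902176 * 2 ^ w : ℝ) < m * 2 ^ 24 * (tA m w + 1) := by exact_mod_cast h2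
    have h4 : (6802349901799902176 / 2 ^ 24 * (2 ^ w / m) : ℝ) =
        6802349901799902176 * 2 ^ w / (m * 2 ^ 24) := by field_simp
    rw [h4, div_lt_iff₀ (by positivity)]
    linarith
  have r0 : (0 : ℝ) ≤ 2 ^ w / m := by positivity
  have r1 : (2 ^ w / m : ℝ) ≤ 1 := by
    rw [div_le_one hm]; exact_mod_cast h
  generalize (2 ^ w / m : ℝ) = r at *
  generalize (tA m w : ℝ) = t at *
  unfold Kc
  rw [abs_le]
  constructor <;> norm_num at u1 u2 ⊢ <;> linarith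

lemma sv_aA {m w : ℕ} (h : 2 ^ w ≤ m) : sv (aA m w) = (-1) ^ w * tA m w := by
  have h2 := tA_le h
  unfold aA sv
  split_ifs with hw
  · rw [Even.neg_one_pow (Nat.even_iff.2 hw)]; push_cast; ring
  · rw [Odd.neg_one_pow (Nat.odd_iff.2 (by omega)), Nat.cast_sub (h2.trans (by norm_num))]
    push_cast; ring

lemma aA_lt {m w : ℕ} (h : 2 ^ w ≤ m) : aA m w < 2 ^ 48 := by
  have h2 := tA_le h
  unfold aA
  split_ifs <;> omega

lemma nee (x : ℝ) : ‖ee x‖ = 1 := Complex.norm_exp_ofReal_mul_I _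

lemma nee_sub (x y : ℝ) : ‖ee x - ee y‖ ≤ 2 * π * |x - y| := by
  have h : ee x - ee y =
      ee y * (Complex.exp (Complex.I * ((2 * π * (x - y) : ℝ) : ℂ)) - 1) := by
    unfold ee
    rw [mul_sub, mul_one, ← Complex.exp_add]
    congr 2
    push_cast
    ring
  rw [h, norm_mul, nee, one_mul]
  refine Real.norm_exp_I_mul_ofReal_sub_one_le.trans (le_of_eq ?_)
  rw [Real.norm_eq_abs, abs_mul, abs_of_pos (by positivity)]

lemma ex_ee (k : ℕ) (u : ℝ) : ex k (-u) = ee (-(k + 1 / 2) * (u / Real.log 2)) := by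
  unfold ex S2.ext ee tk
  congr 3
  ring

lemma term {m w g k : ℕ} (h1 : 1 ≤ m) (h : 2 ^ w ≤ m) (hk : k < 2 ^ 23)
    (hg : |(g : ℝ) / 2 ^ 64 - Real.log m / Real.log 2| ≤ 1 / 2 ^ 58) :
    ‖((Kc ^ 2 / 2 ^ 40 : ℝ) : ℂ) * ((sv (aA m w) : ℂ) *
        ee (-((k : ℝ) + 1 / 2) * (g ||| 1 : ℕ) / 2 ^ 64)) -
      (((-2 : ℝ) ^ w / m : ℝ) : ℂ) * ex k (-Real.log m)‖ ≤
      2.72 / 2 ^ 40 + 5.1e-10 / 2 ^ 40 * |sv (aA m w)| := by
  have hg' := g_or hg
  have e1 := tA_err h1 h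
  have e2 : |Kc ^ 2 / 2 ^ 40 * sv (aA m w) - (-2 : ℝ) ^ w / m| ≤ 2.72 / 2 ^ 40 := by
    rw [sv_aA h, neg_pow (2 : ℝ)]
    have : Kc ^ 2 / 2 ^ 40 * ((-1) ^ w * (tA m w : ℝ)) - (-1) ^ w * 2 ^ w / m =
        (-1) ^ w * (Kc ^ 2 / 2 ^ 40 * tA m w - 2 ^ w / m) := by ring
    rw [this, abs_mul, abs_pow, abs_neg, abs_one, one_pow, one_mul]
    exact e1
  rw [ex_ee]
  generalize sv (aA m w) = s at *
  generalize (-2 : ℝ) ^ w / m = r at *
  generalize Real.log m / Real.log 2 = y at *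
  generalize ((g ||| 1 : ℕ) : ℝ) = G at *
  have hk' : (k : ℝ) + 1 / 2 ≤ 2 ^ 23 := by
    have : ((k + 1 : ℕ) : ℝ) ≤ (2 ^ 23 : ℕ) := by exact_mod_cast hk
    push_cast at this
    linarith
  have e3 : ‖ee (-((k : ℝ) + 1 / 2) * G / 2 ^ 64) - ee (-(k + 1 / 2) * y)‖ ≤ 1.86e-10 := by
    refine (nee_sub _ _).trans ?_
    have : -((k : ℝ) + 1 / 2) * G / 2 ^ 64 - -(k + 1 / 2) * y =
        -((k + 1 / 2) * (G / 2 ^ 64 - y)) := by ring
    rw [this, abs_neg, abs_mul, abs_of_pos (by positivity : (0 : ℝ) < k + 1 / 2)]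
    have p := Real.pi_lt_d4
    calc 2 * π * ((k + 1 / 2) * |G / 2 ^ 64 - y|) ≤
        2 * 3.1416 * (2 ^ 23 * (1 / 2 ^ 58 + 1 / 2 ^ 64)) := by gcongr
      _ ≤ 1.86e-10 := by norm_num
  generalize ee (-((k : ℝ) + 1 / 2) * G / 2 ^ 64) = E at *
  have n1 := nee (-((k : ℝ) + 1 / 2) * y)
  generalize ee (-((k : ℝ) + 1 / 2) * y) = F at *
  have : ((Kc ^ 2 / 2 ^ 40 : ℝ) : ℂ) * ((s : ℂ) * E) - (r : ℂ) * F =
      ((Kc ^ 2 / 2 ^ 40 * s - r : ℝ) : ℂ) * F + ((Kc ^ 2 / 2 ^ 40 * s : ℝ) : ℂ) * (E - F) := by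
    push_cast; ring
  rw [this]
  refine (norm_add_le _ _).trans (add_le_add ?_ ?_)
  · rw [norm_mul, n1, mul_one, Complex.norm_real, Real.norm_eq_abs]; exact e2
  · rw [norm_mul, Complex.norm_real, Real.norm_eq_abs, abs_mul,
      abs_of_nonneg (by positivity : (0 : ℝ) ≤ Kc ^ 2 / 2 ^ 40)]
    have hK : Kc ^ 2 ≤ 2.72 := by unfold Kc; norm_num
    calc Kc ^ 2 / 2 ^ 40 * |s| * ‖E - F‖ ≤ 2.72 / 2 ^ 40 * |s| * 1.86e-10 := by gcongr
      _ = 2.72 * 1.86e-10 / 2 ^ 40 * |s| := by ring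
      _ ≤ 5.1e-10 / 2 ^ 40 * |s| := by gcongr; norm_num

lemma srcA_gen (h1 : StSV) (h2 : StChk) (l : L3) (d n v mI : ℕ) (n1 : 1 ≤ n) (n2 : n ≤ 11264)
    (n3 : n ≤ 2 ^ d) (m1 : mI ≤ 4900000000000)
    (hv : v = cut (mkSV d (lstA l)) (192 * n)) (nd : (l.toList.map (·.1)).Nodup)
    (hm : ∀ m, m ∈ l.toList.map (·.1) ↔ m ∈ Aset) (hl : LogOk l (1 / 2 ^ 58))
    (hw : ∀ e ∈ l.toList, e.2.1 = ArithmeticFunction.cardFactors e.1)
    (hs : sortedV (n - 1) v = true) (hc : srcChk n v mI = true)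
    (hn : len (lstA l) 0 ≤ n) : SrcOK n v mI As 4e-8 := by
  have hw' : ∀ e ∈ l.toList, 1 ≤ e.1 ∧ 2 ^ e.2.1 ≤ e.1 := fun e he =>
    ⟨(hl e he).1, by rw [hw e he]; exact two_pow_le (hl e he).1⟩
  have hE : Ents (lstA l) (l.toList.map fun e => (aA e.1 e.2.1, e.2.2, 0)) := by
    refine ⟨toL_lstA l, fun e he => ?_⟩
    obtain ⟨x, hx, rfl⟩ := List.mem_map.1 he
    have hA := mem_Aset.1 ((hm x.1).1 (List.mem_map_of_mem hx))
    exact ⟨aA_lt (hw' x hx).2, g_lt (hl x hx).1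
      (hA.2.trans_le (Nat.pow_le_pow_right (by norm_num) (et_le _))) (by norm_num) (hl x hx).2,
      by norm_num⟩
  have hlen : l.toList.length ≤ n := by
    rw [len_eq, toL_lstA, List.length_map, List.length_map, zero_add] at hn
    exact hn
  subst hv
  obtain ⟨A, g, m, es, hS, hP, hL⟩ := (h1 d _ _ hE).2 n n1 n3 hs
  obtain ⟨b1, b2⟩ := h2 n _ mI A g m (by omega) hS.1
    (fun p hp => ⟨(hS.2 p hp).1, (hS.2 p hp).2.1, (hS.2 p hp).2.2.2.1⟩) hc
  refine ⟨A, g, m, hS, b1, b2, fun k hk => ?_⟩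
  have key : ∀ {β : Type} [AddCommMonoid β] (f : ℕ × ℕ × ℕ → β), f (2 ^ 46, 2 ^ 64 - 1, 0) = 0 →
      ∑ p ∈ range n, f (A p, g p, m p) =
        (l.toList.map fun e => f (aA e.1 e.2.1, e.2.2 ||| 1, 0)).sum := by
    intro β _ f hf
    rw [sum_congr rfl fun p hp => congrArg f (hL p (mem_range.1 hp)),
      sum_getD f _ _ n (by rw [List.length_map, hP.length_eq, List.length_map]; exact hlen)
        (Or.inr hf), ((hP.map _).map f).sum_eq, List.map_map, List.map_map]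
    rfl
  have z0 : sv (2 ^ 46) = 0 := by unfold sv; norm_num
  have k1 := key (fun e => |sv e.1|) (by simp only [z0, abs_zero])
  have k2 := key (fun e => ((Kc ^ 2 / 2 ^ 40 : ℝ) : ℂ) * ((sv e.1 : ℂ) *
    ee (-((k : ℝ) + 1 / 2) * e.2.1 / 2 ^ 64))) (by simp only [z0]; simp)
  have k3 : As k = (l.toList.map fun e =>
      (((-2 : ℝ) ^ e.2.1 / e.1 : ℝ) : ℂ) * ex k (-Real.log e.1)).sum := by
    have hA : Aset = (l.toList.map (·.1)).toFinset := by
      ext x; rw [List.mem_toFinset, hm]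
    unfold As
    rw [hA, List.sum_toFinset _ nd, List.map_map]
    refine congrArg List.sum (List.map_congr_left fun e he => ?_)
    rw [hw e he]
    rfl
  simp only at k1 k2
  unfold raw
  rw [mul_sum, k2, k3]
  refine (norm_sum_le
    (fun e : ℕ × ℕ × ℕ => ((Kc ^ 2 / 2 ^ 40 : ℝ) : ℂ) * ((sv (aA e.1 e.2.1) : ℂ) *
      ee (-((k : ℝ) + 1 / 2) * (e.2.2 ||| 1 : ℕ) / 2 ^ 64)))
    (fun e => (((-2 : ℝ) ^ e.2.1 / e.1 : ℝ) : ℂ) * ex k (-Real.log e.1))
    (fun e => |sv (aA e.1 e.2.1)|) (2.72 / 2 ^ 40) (5.1e-10 / 2 ^ 40) l.toList fun e he =>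
    term (hw' e he).1 (hw' e he).2 hk (hl e he).2).trans ?_
  rw [← k1]
  have c1 : (l.toList.length : ℝ) ≤ 11264 := by exact_mod_cast hlen.trans n2
  have c2 : (mI : ℝ) ≤ 4900000000000 := by exact_mod_cast m1
  have c3 := b2.trans c2
  calc _ ≤ (11264 : ℝ) * (2.72 / 2 ^ 40) + 5.1e-10 / 2 ^ 40 * 4900000000000 := by gcongr
    _ ≤ 4e-8 := by norm_num

lemma chk_sorted {n v m : ℕ} (h : srcChk n v m = true) : sortedV (n - 1) v = true := by
  have h1 := (Bool.and_eq_true_iff.1 h).1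
  exact (Bool.and_eq_true_iff.1 h1).1

lemma svA_eq : svA = cut (mkSV 14 (lstA listA)) (192 * 11264) := by
  unfold svA
  generalize mkSV 14 (lstA listA) = x
  exact congrArg (cut x) (by norm_num)

end SrcA

open SrcA

theorem srcA (h1 : StSV) (h2 : StChk) (h3 : StListA) : StSrcA := by
  intro hc hn
  obtain ⟨a1, a2, a3, a4⟩ := h3
  have e := svA_eq
  have m1 : mA ≤ 4900000000000 := by unfold mA; exact le_rfl
  have hn' := Nat.le_of_ble_eq_true hn
  generalize svA = v at *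
  generalize listA = l at *
  generalize mA = mI at *
  exact srcA_gen h1 h2 l 14 11264 v mI (by norm_num) le_rfl (by norm_num) m1 e a1 a2 a3 a4
    (chk_sorted hc) hc hn'

theorem srcD (h1 : StSV) (h2 : StOdds) : StSrcD := by
  intro d hd hd' hs
  have hp : 2 ^ d ≤ 2 ^ 12 := Nat.pow_le_pow_right (by norm_num) hd'
  have hp0 : 1 ≤ 2 ^ d := Nat.one_le_two_pow
  have hv : svD d = mkSV d (lstD (L3.cons 1 0 0 (odds (2 ^ d - 1) 1 0))) := by
    unfold svD odds1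
    rw [p2_eq]
    rfl
  obtain ⟨o1, o2, -⟩ := h2 (2 ^ d - 1) (by omega)
  generalize odds (2 ^ d - 1) 1 0 = o at *
  have hfst : (L3.cons 1 0 0 o).toList.map (·.1) = (List.range (2 ^ d)).map fun j => 2 * j + 1 := by
    obtain ⟨t, ht⟩ : ∃ t, 2 ^ d = t + 1 := ⟨2 ^ d - 1, by omega⟩
    rw [ht, Nat.add_sub_cancel] at o1
    rw [ht, List.range_succ_eq_map, List.map_cons, List.map_map]
    simp only [L3.toList, List.map_cons, o1]
    rfl
  have hlog : LogOk (L3.cons 1 0 0 o) (1 / 2 ^ 62) := by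
    intro e he
    rcases List.mem_cons.1 he with rfl | he
    · simp
    · exact o2 e he
  generalize L3.cons 1 0 0 o = l at *
  have hlt : ∀ e ∈ l.toList, e.1 < 2 * 2 ^ d := by
    intro e he
    have : e.1 ∈ l.toList.map (·.1) := List.mem_map_of_mem he
    rw [hfst] at this
    obtain ⟨j, hj, h⟩ := List.mem_map.1 this
    have := List.mem_range.1 hj
    omega
  have hlen : l.toList.length = 2 ^ d := by
    have := congrArg List.length hfst
    simpa using this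
  have hE : Ents (lstD l) (l.toList.map fun e => (2 ^ 46, e.2.2, e.1)) := by
    refine ⟨toL_lstD l, fun e he => ?_⟩
    obtain ⟨x, hx, rfl⟩ := List.mem_map.1 he
    have := hlt x hx
    exact ⟨by norm_num, g_lt (hlog x hx).1 (by omega) (by norm_num) (hlog x hx).2,
      by simp only; omega⟩
  obtain ⟨c1, c2⟩ := h1 d _ _ hE
  have c3 := c2 (2 ^ d) hp0 le_rfl
  rw [c1, ← hv] at c3
  obtain ⟨A, g, m, es, hS, hP, hL⟩ := c3 hs
  have hes : (es.map fun e : ℕ × ℕ × ℕ => (e.1, e.2.1 ||| 1, e.2.2)).length = 2 ^ d := by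
    rw [List.length_map, hP.length_eq, List.length_map, hlen]
  refine ⟨A, g, m, hS, fun p hp => ?_, fun φ => ?_⟩
  · have h4 := hL p hp
    rw [List.getD_eq_getElem _ _ (by rw [hes]; exact hp)] at h4
    have h5 : (A p, g p, m p) ∈ es.map fun e : ℕ × ℕ × ℕ => (e.1, e.2.1 ||| 1, e.2.2) :=
      h4 ▸ List.getElem_mem _
    obtain ⟨e, he, h6⟩ := List.mem_map.1 h5
    obtain ⟨x, hx, rfl⟩ := List.mem_map.1 (hP.subset he)
    simp only [Prod.mk.injEq] at h6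
    rw [← h6.2.1, ← h6.2.2]
    exact ⟨(hlog x hx).1, hlt x hx, (g_or (hlog x hx).2).trans (by norm_num)⟩
  · have h4 : ∑ p ∈ range (2 ^ d), φ (m p) = ∑ p ∈ range (2 ^ d),
        (fun e : ℕ × ℕ × ℕ => φ e.2.2) ((es.map fun e : ℕ × ℕ × ℕ =>
          (e.1, e.2.1 ||| 1, e.2.2)).getD p (2 ^ 46, 2 ^ 64 - 1, 0)) :=
      sum_congr rfl fun p hp => by rw [← hL p (mem_range.1 hp)]
    rw [h4, sum_getD (fun e : ℕ × ℕ × ℕ => φ e.2.2) _ _ _ hes.le (Or.inl hes), ((hP.map _).map _).sum_eq, List.map_map,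
      List.map_map]
    have h5 : ∑ j ∈ range (2 ^ d), φ (2 * j + 1) =
        (((List.range (2 ^ d)).map fun j => 2 * j + 1).map φ).sum := by
      rw [List.map_map]
      rfl
    rw [h5, ← hfst, List.map_map]
    rfl

end Pool.Agent.Lib.MP_5db4ad_nt.NE
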