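import Pool.Agent.Lib.MP_5db4ad_nt.S2Defs

/-! The convolution identity for the sum of `(-2) ^ Ω(n)`. -/

namespace Pool.Agent.Lib.MP_5db4ad_nt.S2

open Finset

namespace Conv

noncomputable section

lemma mf_zero (loc : ℕ → ℕ → ℝ) : mf loc 0 = 0 := if_pos rfl

lemma mf_one (loc : ℕ → ℕ → ℝ) : mf loc 1 = 1 := by
  unfold mf
  rw [if_neg one_ne_zero, Nat.factorization_one, Finsupp.prod_zero_index]

lemma mf_mul (loc : ℕ → ℕ → ℝ) {m n : ℕ} (h : Nat.Coprime m n) :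
    mf loc (m * n) = mf loc m * mf loc n := by
  rcases eq_or_ne m 0 with rfl | hm
  · rw [zero_mul, mf_zero, zero_mul]
  rcases eq_or_ne n 0 with rfl | hn
  · rw [mul_zero, mf_zero, mul_zero]
  unfold mf
  rw [if_neg (mul_ne_zero hm hn), if_neg hm, if_neg hn, Nat.factorization_mul hm hn,
    Finsupp.prod_add_index_of_disjoint]
  rw [Nat.support_factorization, Nat.support_factorization]
  exact h.disjoint_primeFactors

lemma mf_pow (loc : ℕ → ℕ → ℝ) {p : ℕ} (hp : p.Prime) (a : ℕ) :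
    mf loc (p ^ a) = if a = 0 then 1 else loc p a := by
  split_ifs with ha
  · rw [ha, pow_zero, mf_one]
  · unfold mf
    rw [if_neg (pow_ne_zero a hp.ne_zero), hp.factorization_pow, Finsupp.prod,
      Finsupp.support_single _ ha, prod_singleton, Finsupp.single_eq_same]

/-- `mf loc` as an arithmetic function -/
def AF (loc : ℕ → ℕ → ℝ) : ArithmeticFunction ℝ := ⟨mf loc, mf_zero _⟩

lemma AF_apply (loc : ℕ → ℕ → ℝ) (n : ℕ) : AF loc n = mf loc n := rfl

lemma AF_mult (loc : ℕ → ℕ → ℝ) : (AF loc).IsMultiplicative := ⟨mf_one _, fun h => mf_mul _ h⟩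

def aloc (q p a : ℕ) : ℝ := if p = q then (-2) ^ a else 0

def lloc (_p a : ℕ) : ℝ := (-2) ^ a

lemma conv_pow (f g : ArithmeticFunction ℝ) {p : ℕ} (hp : p.Prime) (a : ℕ) :
    (f * g) (p ^ a) = ∑ i ∈ range (a + 1), f (p ^ i) * g (p ^ (a - i)) := by
  rw [ArithmeticFunction.mul_apply, Nat.sum_divisorsAntidiagonal fun x y => f x * g y,
    Nat.sum_divisors_prime_pow hp]
  refine sum_congr rfl fun i hi => ?_
  rw [Nat.pow_div (Nat.lt_succ_iff.1 (mem_range.1 hi)) hp.pos]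

lemma conv_left (loc : ℕ → ℕ → ℝ) (g : ArithmeticFunction ℝ) {p : ℕ} (hp : p.Prime)
    (h : ∀ a, loc p a = 0) (a : ℕ) : (AF loc * g) (p ^ a) = g (p ^ a) := by
  rw [conv_pow _ _ hp, sum_range_succ', sum_eq_zero]
  · rw [pow_zero, AF_apply, mf_one, Nat.sub_zero, zero_add, one_mul]
  · intro i _
    rw [AF_apply, mf_pow _ hp, if_neg (Nat.succ_ne_zero i), h, zero_mul]

lemma conv_right (loc : ℕ → ℕ → ℝ) (g : ArithmeticFunction ℝ) {p : ℕ} (hp : p.Prime)
    (h : ∀ a, loc p a = 0) (a : ℕ) : (g * AF loc) (p ^ a) = g (p ^ a) := by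
  rw [mul_comm, conv_left _ _ hp h]

lemma aloc_ne {q p : ℕ} (h : p ≠ q) (a : ℕ) : aloc q p a = 0 := if_neg h

lemma AF_aloc {q : ℕ} (hq : q.Prime) (a : ℕ) : AF (aloc q) (q ^ a) = (-2) ^ a := by
  rw [AF_apply, mf_pow _ hq]
  split_ifs with h
  · rw [h, pow_zero]
  · exact if_pos rfl

lemma AF_lloc {q : ℕ} (hq : q.Prime) (a : ℕ) : AF lloc (q ^ a) = (-2) ^ a := by
  rw [AF_apply, mf_pow _ hq]
  split_ifs with h
  · rw [h, pow_zero]
  · rfl

lemma AF_hloc {p : ℕ} (hp : p.Prime) (h : 1000 < p) (a : ℕ) :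
    AF hloc (p ^ a) = (4 * (-2) ^ a + 3 * a + 5) / 9 := by
  rw [AF_apply, mf_pow _ hp]
  split_ifs with ha
  · rw [ha]; norm_num
  · exact if_neg (by omega)

lemma AF_gloc {p : ℕ} (hp : p.Prime) (h : 1000 < p) (a : ℕ) :
    AF gloc (p ^ a) = if a = 0 then 1 else if a = 1 then -2 else if a = 2 then 1 else 0 := by
  rw [AF_apply, mf_pow _ hp]
  unfold gloc
  rw [if_neg (by omega : ¬ p ≤ 3), if_neg (by omega : ¬ p ≤ 1000)]

lemma big {p : ℕ} (hp : p.Prime) (h : 1000 < p) (a : ℕ) :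
    (AF gloc * AF hloc) (p ^ a) = (-2) ^ a := by
  rw [conv_pow _ _ hp]
  simp only [AF_hloc hp h, AF_gloc hp h]
  rcases a with _ | _ | a
  · norm_num
  · norm_num [sum_range_succ]
  · rw [sum_range_succ', sum_range_succ', sum_range_succ', sum_eq_zero]
    · have e1 : a + 1 + 1 - (0 + 1 + 1) = a := by omega
      have e2 : a + 1 + 1 - (0 + 1) = a + 1 := by omega
      rw [e1, e2, Nat.sub_zero]
      norm_num
      ring
    · intro i _
      rw [if_neg (by omega), if_neg (by omega), if_neg (by omega), zero_mul]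

lemma factor : AF lloc = AF hloc * (AF (aloc 3) * (AF gloc * AF (aloc 2))) := by
  rw [ArithmeticFunction.IsMultiplicative.eq_iff_eq_on_prime_powers _ (AF_mult _) _
    ((AF_mult _).mul ((AF_mult _).mul ((AF_mult _).mul (AF_mult _))))]
  intro p a hp
  rw [AF_lloc hp]
  by_cases h : p ≤ 1000
  · rw [conv_left _ _ hp fun _ => if_pos h]
    by_cases h2 : p = 2
    · subst h2
      rw [conv_left _ _ hp (aloc_ne (by norm_num)), conv_left _ _ hp fun _ => if_pos (by norm_num),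
        AF_aloc hp]
    by_cases h3 : p = 3
    · subst h3
      rw [← mul_assoc, conv_right _ _ hp (aloc_ne (by norm_num)),
        conv_right _ _ hp fun _ => if_pos (by norm_num), AF_aloc hp]
    have h4 : ¬ p ≤ 3 := by have := hp.two_le; omega
    rw [conv_left _ _ hp (aloc_ne h3), conv_right _ _ hp (aloc_ne h2), AF_apply, mf_pow _ hp]
    split_ifs with ha
    · rw [ha, pow_zero]
    · unfold gloc
      rw [if_neg h4, if_pos h]
  · have e : AF hloc * (AF (aloc 3) * (AF gloc * AF (aloc 2)))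
        = AF (aloc 3) * (AF (aloc 2) * (AF gloc * AF hloc)) := by ring
    rw [e, conv_left _ _ hp (aloc_ne (by omega)), conv_left _ _ hp (aloc_ne (by omega)),
      big hp (by omega)]

lemma lloc_eq {n : ℕ} (hn : n ≠ 0) :
    AF lloc n = (-2 : ℝ) ^ ArithmeticFunction.cardFactors n := by
  induction n using Nat.recOnPosPrimePosCoprime with
  | prime_pow p a hp _ => rw [AF_lloc hp, ArithmeticFunction.cardFactors_apply_prime_pow hp]
  | zero => exact absurd rfl hn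
  | one => rw [AF_apply, mf_one, ArithmeticFunction.cardFactors_one, pow_zero]
  | coprime a b ha hb hab iha ihb =>
    rw [(AF_mult _).2 hab, iha (by omega), ihb (by omega),
      ArithmeticFunction.cardFactors_mul (by omega) (by omega), pow_add]

lemma aloc_zero {q e : ℕ} (he : ∀ i, e ≠ q ^ i) : AF (aloc q) e = 0 := by
  rcases eq_or_ne e 0 with rfl | h0
  · exact mf_zero (aloc q)
  by_contra hne
  refine he _ (Nat.eq_prime_pow_of_unique_prime_dvd h0 fun {d} hd hde => ?_)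
  by_contra hdq
  apply hne
  rw [AF_apply]
  unfold mf
  rw [if_neg h0, Finsupp.prod]
  refine prod_eq_zero (i := d) ?_ (aloc_ne hdq _)
  rw [Nat.support_factorization]
  exact Nat.mem_primeFactors.2 ⟨hd, hde, h0⟩

lemma sum_aloc {q : ℕ} (hq : q.Prime) (Φ : ℕ → ℝ) (hΦ : Φ 0 = 0) {N I : ℕ} (h : N < q ^ I) :
    ∑ e ∈ Ioc 0 N, AF (aloc q) e * Φ (N / e) = ∑ i ∈ range I, (-2) ^ i * Φ (N / q ^ i) := by
  have hinj : Set.InjOn (fun i => q ^ i) (range I : Set ℕ) := fun a _ b _ hab =>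
    Nat.pow_right_injective hq.two_le hab
  have e : ∑ i ∈ range I, (-2) ^ i * Φ (N / q ^ i)
      = ∑ e ∈ (range I).image (fun i => q ^ i), AF (aloc q) e * Φ (N / e) := by
    rw [sum_image hinj]
    exact sum_congr rfl fun i _ => by rw [AF_aloc hq]
  rw [e]
  refine sum_congr_of_eq_on_inter (fun a ha ha' => ?_) (fun a ha ha' => ?_) fun _ _ _ => rfl
  · rw [aloc_zero, zero_mul]
    rintro i rfl
    apply ha'
    refine mem_image.2 ⟨i, mem_range.2 ?_, rfl⟩
    exact (Nat.pow_lt_pow_iff_right hq.one_lt).1 ((mem_Ioc.1 ha).2.trans_lt h)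
  · obtain ⟨i, -, rfl⟩ := mem_image.1 ha
    have : N < q ^ i := by
      by_contra hlt
      exact ha' (mem_Ioc.2 ⟨pow_pos hq.pos i, not_lt.1 hlt⟩)
    rw [Nat.div_eq_of_lt this, hΦ, mul_zero]

lemma geo (k : ℕ) : ∑ i ∈ range (k + 1), (-2 : ℝ) ^ i = 1 / 3 + 2 / 3 * (-2) ^ k := by
  induction k with
  | zero => norm_num
  | succ k ih => rw [sum_range_succ, ih]; ring

lemma sum_two {K : ℕ} (hK : K ≠ 0) :
    ∑ e ∈ Ioc 0 K, AF (aloc 2) e = 1 / 3 + 2 / 3 * (-2) ^ Nat.log 2 K := by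
  have h := sum_aloc Nat.prime_two (fun t => if t = 0 then 0 else 1) (if_pos rfl)
    (Nat.lt_pow_succ_log_self one_lt_two K)
  rw [← geo]
  have l : ∑ e ∈ Ioc 0 K, AF (aloc 2) e
      = ∑ e ∈ Ioc 0 K, AF (aloc 2) e * (if K / e = 0 then (0 : ℝ) else 1) := by
    refine sum_congr rfl fun e he => ?_
    obtain ⟨h1, h2⟩ := mem_Ioc.1 he
    rw [if_neg (Nat.div_pos h2 h1).ne', mul_one]
  rw [l, h]
  refine sum_congr rfl fun i hi => ?_
  have : 2 ^ i ≤ K := (Nat.le_log_iff_pow_le one_lt_two hK).1 (Nat.lt_succ_iff.1 (mem_range.1 hi))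
  rw [if_neg (Nat.div_pos this (by positivity)).ne', mul_one]

lemma Icc_eq (N : ℕ) : Icc 1 N = Ioc 0 N := by
  ext n
  rw [mem_Icc, mem_Ioc]
  omega

lemma two_part (z : ℝ) :
    ∑ n ∈ Ioc 0 ⌊z⌋₊, (AF gloc * AF (aloc 2)) n = TT z / 3 + z * VV z := by
  rw [ArithmeticFunction.sum_Ioc_mul_eq_sum_sum]
  unfold TT VV
  rw [Icc_eq, sum_div, mul_sum, ← sum_add_distrib]
  refine sum_congr rfl fun m hm => ?_
  obtain ⟨h1, h2⟩ := mem_Ioc.1 hm
  have hm0 : (0 : ℝ) < m := Nat.cast_pos.2 h1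
  have hz1 : 1 ≤ ⌊z⌋₊ := h1.trans_le h2
  have hz0 : 0 ≤ z := le_of_lt (lt_of_lt_of_le one_pos (Nat.one_le_floor_iff z |>.1 hz1))
  have hmz : (m : ℝ) ≤ z := (Nat.le_floor_iff hz0).1 h2
  have hz : 0 < z := hm0.trans_le hmz
  have hq : 1 ≤ z / m := (one_le_div hm0).2 hmz
  rw [sum_two (Nat.div_pos h2 h1).ne']
  have hf : ⌊(Real.log z - Real.log m) / Real.log 2⌋ = (Nat.log 2 (⌊z⌋₊ / m) : ℤ) := by
    rw [← Real.log_div hz.ne' hm0.ne', ← Nat.floor_div_natCast, ← Int.log_of_one_le_right 2 hq,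
      ← Real.floor_logb_natCast (zero_le_one.trans hq), Real.logb, Nat.cast_ofNat]
  have he : Real.exp (-(Real.log z - Real.log m)) = m / z := by
    rw [neg_sub, Real.exp_sub, Real.exp_log hm0, Real.exp_log hz]
  unfold Pf
  rw [hf, he, zpow_natCast]
  change gg m * _ = _
  field_simp

end

end Conv

open Conv in
theorem conv : StConv := by
  intro x I hx
  have l : SS x = ∑ n ∈ Ioc 0 ⌊x⌋₊, AF lloc n := by
    unfold SS
    rw [Icc_eq]
    exact sum_congr rfl fun n hn => (lloc_eq (mem_Ioc.1 hn).1.ne').symm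
  rw [l, factor, ArithmeticFunction.sum_Ioc_mul_eq_sum_sum, Icc_eq]
  refine sum_congr rfl fun d hd => ?_
  obtain ⟨h1, h2⟩ := mem_Ioc.1 hd
  have hx0 : 0 ≤ x :=
    le_of_lt (lt_of_lt_of_le one_pos (Nat.one_le_floor_iff x |>.1 (h1.trans_le h2)))
  have hI : ⌊x⌋₊ / d < 3 ^ I := by
    refine (Nat.div_le_self _ _).trans_lt ((Nat.floor_lt hx0).2 ?_)
    exact_mod_cast hx
  rw [ArithmeticFunction.sum_Ioc_mul_eq_sum_sum,
    sum_aloc Nat.prime_three (fun t => ∑ n ∈ Ioc 0 t, (AF gloc * AF (aloc 2)) n) (by simp) hI]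
  change hh d * _ = _
  congr 1
  refine sum_congr rfl fun i _ => ?_
  rw [← two_part, ← Nat.floor_div_natCast, ← Nat.floor_div_natCast, Nat.cast_pow, Nat.cast_ofNat]

end Pool.Agent.Lib.MP_5db4ad_nt.S2
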