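import Pool.Agent.Lib.MP_5db4ad_nt.S2Defs

/-! The Dirichlet series of `gg` and its Euler product. -/

namespace Pool.Agent.Lib.MP_5db4ad_nt.S2

open Finset Filter Topology ArithmeticFunction

namespace Dir

lemma gg_one : gg 1 = 1 := by simp [gg, mf]

lemma gg_zero : gg 0 = 0 := by simp [gg, mf]

lemma gg_mul {m n : ℕ} (h : m.Coprime n) : gg (m * n) = gg m * gg n := by
  rcases eq_or_ne m 0 with rfl | hm
  · simp [gg_zero]
  rcases eq_or_ne n 0 with rfl | hn
  · simp [gg_zero]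
  simp only [gg, mf, if_neg hm, if_neg hn, if_neg (mul_ne_zero hm hn)]
  rw [Nat.factorization_mul_of_coprime h, Finsupp.prod_add_index_of_disjoint]
  exact h.disjoint_primeFactors

lemma gg_pow {p e : ℕ} (hp : p.Prime) (he : e ≠ 0) : gg (p ^ e) = gloc p e := by
  simp only [gg, mf, if_neg (pow_ne_zero e hp.ne_zero)]
  rw [hp.factorization_pow, Finsupp.prod, Finsupp.support_single _ he]
  simp

lemma abs_gloc (p a : ℕ) : |gloc p a| ≤ 2 ^ a := by
  unfold gloc
  split_ifs with h1 h2 h3 h4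
  · simp
  · simp [abs_pow]
  · simp [h3]
  · norm_num [h4]
  · simp

lemma abs_gg (n : ℕ) : |gg n| ≤ 2 ^ cardFactors n := by
  rcases eq_or_ne n 0 with rfl | hn
  · simp [gg_zero]
  simp only [gg, mf, if_neg hn]
  rw [cardFactors_eq_sum_factorization, Finsupp.prod, Finsupp.sum, abs_prod, ← prod_pow_eq_pow_sum]
  exact prod_le_prod (fun _ _ => abs_nonneg _) fun p _ => abs_gloc _ _

lemma two_lt {σ : ℝ} (hs : 1 < σ) {p : ℕ} (hp : p.Prime) :
    2 * (p : ℝ) ^ (-σ) ≤ 2 * (2 : ℝ) ^ (-σ) ∧ 2 * (2 : ℝ) ^ (-σ) < 1 := by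
  constructor
  · exact mul_le_mul_of_nonneg_left (Real.rpow_le_rpow_of_nonpos (by norm_num)
      (by exact_mod_cast hp.two_le) (by linarith)) (by norm_num)
  · have := Real.rpow_lt_rpow_of_exponent_lt (x := 2) (by norm_num) (neg_lt_neg hs)
    rw [Real.rpow_neg_one] at this
    linarith

/-- the majorant as a monoid map -/
noncomputable def maj {σ : ℝ} (hs : σ ≠ 0) : ℕ →* ℝ where
  toFun n := 2 ^ cardFactors n * (n : ℝ) ^ (-σ)
  map_one' := by simp
  map_mul' m n := by
    rcases eq_or_ne m 0 with rfl | hm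
    · simp [hs]
    rcases eq_or_ne n 0 with rfl | hn
    · simp [hs]
    rw [cardFactors_mul hm hn, pow_add, Nat.cast_mul,
      Real.mul_rpow (Nat.cast_nonneg _) (Nat.cast_nonneg _)]
    ring

lemma summable_maj {σ : ℝ} (hs : 1 < σ) :
    Summable fun n : ℕ => (2 : ℝ) ^ cardFactors n * (n : ℝ) ^ (-σ) := by
  have h0 : σ ≠ 0 := by linarith
  set g : ℕ →* ℝ := maj h0 with hg
  have g1 : ∀ n, g n = 2 ^ cardFactors n * (n : ℝ) ^ (-σ) := fun n => rfl
  set c : ℝ := 2 * (2 : ℝ) ^ (-σ) with hc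
  have c1 : c < 1 := (two_lt hs Nat.prime_two).2
  have g2 : ∀ {p : ℕ}, p.Prime → g p = 2 * (p : ℝ) ^ (-σ) := fun hp => by
    rw [g1, cardFactors_apply_prime hp, pow_one]
  have g3 : ∀ {p : ℕ}, p.Prime → g p ≤ c := fun hp => (g2 hp).trans_le (two_lt hs hp).1
  have g4 : ∀ n, 0 ≤ g n := fun n => by rw [g1]; positivity
  have z1 : Summable fun n : ℕ => (n : ℝ) ^ (-σ) := Real.summable_nat_rpow.2 (by linarith)
  refine summable_of_sum_range_le (c := Real.exp (2 * (∑' n : ℕ, (n : ℝ) ^ (-σ)) / (1 - c)))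
    g4 fun N => ?_
  have h1 := (EulerProduct.summable_and_hasSum_smoothNumbers_prod_primesBelow_geometric (f := g)
    (fun hp => by rw [Real.norm_of_nonneg (g4 _)]; exact (g3 hp).trans_lt c1) N).2
  have h2 := sum_le_hasSum (range N) (fun n _ => Set.indicator_nonneg (fun n _ => g4 n) n)
    (hasSum_subtype_iff_indicator.1 h1)
  calc ∑ n ∈ range N, g n = ∑ n ∈ range N, (N.smoothNumbers).indicator g n := by
        refine Finset.sum_congr rfl fun n hn => ?_
        rcases Nat.eq_zero_or_pos n with rfl | h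
        · have : g 0 = 0 := (g1 0).trans (by simp [h0])
          rw [Set.indicator_apply_eq_zero.2 fun _ => this, this]
        · rw [Set.indicator_of_mem (Nat.mem_smoothNumbers_of_lt h (mem_range.1 hn))]
    _ ≤ ∏ p ∈ N.primesBelow, (1 - g p)⁻¹ := h2
    _ ≤ ∏ p ∈ N.primesBelow, Real.exp (2 * (p : ℝ) ^ (-σ) / (1 - c)) := by
        refine Finset.prod_le_prod (fun p hp => ?_) fun p hp => ?_
        · have := g3 (Nat.prime_of_mem_primesBelow hp)
          exact inv_nonneg.2 (by linarith)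
        · have a1 := g3 (Nat.prime_of_mem_primesBelow hp)
          rw [← g2 (Nat.prime_of_mem_primesBelow hp)]
          refine le_trans ?_ (Real.add_one_le_exp _)
          have a2 : g p / (1 - g p) ≤ g p / (1 - c) :=
            div_le_div_of_nonneg_left (g4 p) (by linarith) (by linarith)
          have a3 : (1 - g p)⁻¹ = g p / (1 - g p) + 1 := by
            have : 1 - g p ≠ 0 := by linarith
            field_simp
            ring
          linarith
    _ ≤ _ := by
        rw [← Real.exp_sum, ← Finset.sum_div, ← Finset.mul_sum]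
        gcongr
        exact z1.sum_le_tsum _ fun _ _ => by positivity

lemma summable_gg {s : ℂ} (hs : 1 < s.re) :
    Summable fun m : ℕ => ‖(gg m : ℂ) * (m : ℂ) ^ (-s)‖ := by
  refine (summable_maj hs).of_nonneg_of_le (fun _ => norm_nonneg _) fun m => ?_
  rcases Nat.eq_zero_or_pos m with rfl | hm
  · simp [gg_zero]
    positivity
  rw [norm_mul, Complex.norm_real, Real.norm_eq_abs, Complex.norm_natCast_cpow_of_pos hm,
    Complex.neg_re]
  exact mul_le_mul_of_nonneg_right (abs_gg m) (by positivity)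

lemma term_pow {p : ℕ} (s : ℂ) (e : ℕ) :
    (gg (p ^ e) : ℂ) * ((p ^ e : ℕ) : ℂ) ^ (-s) = (gg (p ^ e) : ℂ) * ((p : ℂ) ^ (-s)) ^ e := by
  rw [Nat.cast_pow, ← Complex.natCast_cpow_natCast_mul, Complex.cpow_nat_mul]

lemma loc_small {p : ℕ} (hp : p.Prime) (h : p ≤ 3) (x : ℂ) :
    ∑' e : ℕ, (gg (p ^ e) : ℂ) * x ^ e = 1 := by
  rw [tsum_eq_single 0 fun e he => by simp [gg_pow hp he, gloc, h]]
  simp [gg_one]

lemma loc_mid {p : ℕ} (hp : p.Prime) (h : 3 < p) (h' : p ≤ 1000) {x : ℂ} (hx : 2 * ‖x‖ < 1) :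
    ∑' e : ℕ, (gg (p ^ e) : ℂ) * x ^ e = (1 + 2 * x)⁻¹ := by
  have h1 : ∀ e : ℕ, (gg (p ^ e) : ℂ) * x ^ e = (-2 * x) ^ e := fun e => by
    rcases eq_or_ne e 0 with rfl | he
    · simp [gg_one]
    · rw [gg_pow hp he, gloc, if_neg (by omega), if_pos h', mul_pow]
      push_cast
      rfl
  simp only [h1]
  rw [tsum_geometric_of_norm_lt_one (by simpa using hx)]
  congr 1
  ring

lemma loc_big {p : ℕ} (hp : p.Prime) (h : 1000 < p) (x : ℂ) :
    ∑' e : ℕ, (gg (p ^ e) : ℂ) * x ^ e = (1 - x) ^ 2 := by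
  have h1 : ¬ p ≤ 3 := by omega
  have h2 : ¬ p ≤ 1000 := by omega
  rw [tsum_eq_sum (s := range 3) fun e he => by
    have h3 : 3 ≤ e := by simpa using he
    rw [gg_pow hp (by omega), gloc, if_neg h1, if_neg h2, if_neg (by omega), if_neg (by omega)]
    simp]
  rw [sum_range_succ, sum_range_succ, sum_range_succ, gg_pow hp two_ne_zero,
    gg_pow hp one_ne_zero, pow_zero, gg_one]
  simp [gloc, h1, h2]
  ring

lemma primes_eq : Nat.primesBelow 1001 = insert 2 (insert 3 ((Icc 5 1000).filter Nat.Prime)) := by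
  ext p
  simp only [Nat.mem_primesBelow, mem_insert, mem_filter, mem_Icc]
  constructor
  · rintro ⟨h1, h2⟩
    have h3 := h2.two_le
    have h4 : p ≠ 4 := by rintro rfl; norm_num at h2
    by_cases h5 : 5 ≤ p
    · exact Or.inr (Or.inr ⟨⟨h5, by omega⟩, h2⟩)
    · omega
  · rintro (rfl | rfl | ⟨h1, h2⟩)
    · norm_num
    · norm_num
    · exact ⟨by omega, h2⟩

end Dir

open Dir in
theorem dir : StDir := by
  intro s hs
  have hx : ∀ {p : ℕ}, p.Prime → 2 * ‖(p : ℂ) ^ (-s)‖ < 1 := fun hp => by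
    rw [Complex.norm_natCast_cpow_of_pos hp.pos, Complex.neg_re]
    exact (two_lt hs hp).1.trans_lt (two_lt hs hp).2
  have hx1 : ∀ {p : ℕ}, p.Prime → 1 - (p : ℂ) ^ (-s) ≠ 0 := fun hp h => by
    have := hx hp
    rw [← sub_eq_zero.1 h] at this
    norm_num at this
  have t1 := EulerProduct.eulerProduct (f := fun m : ℕ => (gg m : ℂ) * (m : ℂ) ^ (-s))
    (by simp [gg_one]) (fun {m n} h => by
      simp only [gg_mul h, Nat.cast_mul, Complex.natCast_mul_natCast_cpow]
      push_cast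
      ring) (summable_gg hs) (by simp [gg_zero])
  have t2 := riemannZeta_eulerProduct hs
  have t3 := t1.mul (t2.mul t2)
  simp only [term_pow, ← prod_mul_distrib] at t3
  have t4 : (∑' m : ℕ, (gg m : ℂ) * (m : ℂ) ^ (-s)) * (riemannZeta s * riemannZeta s) =
      ((1 - (2 : ℂ) ^ (-s)) ^ 2)⁻¹ * (((1 - (3 : ℂ) ^ (-s)) ^ 2)⁻¹ * (Df s)⁻¹) := by
    refine tendsto_nhds_unique t3 (tendsto_const_nhds.congr' ?_)
    filter_upwards [eventually_ge_atTop 1001] with n hn
    have sub : Nat.primesBelow 1001 ⊆ Nat.primesBelow n := fun p hp => by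
      rw [Nat.mem_primesBelow] at hp ⊢
      exact ⟨by omega, hp.2⟩
    rw [← prod_subset sub fun p hp hp' => ?_, primes_eq, prod_insert (by simp),
      prod_insert (by simp), loc_small Nat.prime_two (by norm_num),
      loc_small Nat.prime_three le_rfl, Df, ← prod_inv_distrib]
    · push_cast
      rw [one_mul, one_mul, ← mul_inv, ← mul_inv, ← pow_two, ← pow_two]
      congr 2
      refine prod_congr rfl fun p hp => ?_
      rw [mem_filter, mem_Icc] at hp
      rw [loc_mid hp.2 (by omega) hp.1.2 (hx hp.2), ← mul_inv, ← mul_inv,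
        show -(2 * s) = (2 : ℕ) * (-s) by push_cast; ring,
        show -(3 * s) = (3 : ℕ) * (-s) by push_cast; ring, Complex.cpow_nat_mul,
        Complex.cpow_nat_mul]
      congr 1
      ring
    · rw [Nat.mem_primesBelow] at hp hp'
      have h1 := hx1 hp.2
      rw [loc_big hp.2 (by by_contra h; exact hp' ⟨by omega, hp.2⟩)]
      field_simp
  have hz := riemannZeta_ne_zero_of_one_lt_re hs
  have t5 : ∑' m : ℕ, (gg m : ℂ) * (m : ℂ) ^ (-s) = Gf s := by
    rw [← eq_div_iff (mul_ne_zero hz hz)] at t4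
    rw [t4, Gf]
    simp only [div_eq_mul_inv, mul_inv, pow_two]
    ring
  exact t5 ▸ (summable_gg hs).of_norm.hasSum

end Pool.Agent.Lib.MP_5db4ad_nt.S2
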