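import Pool.Agent.Lib.MP_5db4ad_nt.S2FSt
import Pool.Agent.Lib.MP_5db4ad_nt.S2Dir
import Pool.Agent.Lib.MP_5db4ad_nt.S2Conv

/-! The Fourier coefficients of the approximating functions tend to the residues. -/

namespace Pool.Agent.Lib.MP_5db4ad_nt.S2

open Finset Filter
open scoped Real Topology

namespace Coef

lemma ex_add (k : ℕ) (u v : ℝ) : ex k (u + v) = ex k u * ex k v := by
  rw [ex, ex, ex, ext, ext, ext, ← Complex.exp_add]
  congr 1
  push_cast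
  ring

lemma norm_ex (k : ℕ) (u : ℝ) : ‖ex k u‖ = 1 := by rw [ex, ext, Complex.norm_exp_ofReal_mul_I]

lemma ex_nat (k i : ℕ) (u : ℝ) : ex k (i * u) = ex k u ^ i := by
  rw [ex, ex, ext, ext, ← Complex.exp_nat_mul]
  congr 1
  push_cast
  ring

lemma cpow_eq (k : ℕ) {n : ℕ} (hn : n ≠ 0) : (n : ℂ) ^ (-sk k) = ex k (-Real.log n) / n := by
  have h0 : (n : ℂ) ≠ 0 := Nat.cast_ne_zero.2 hn
  have e : Complex.exp (Real.log n : ℝ) = n := by
    rw [← Complex.ofReal_exp, Real.exp_log (by positivity)]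
    norm_num
  rw [Complex.cpow_def_of_ne_zero h0, ← Complex.natCast_log, ex, ext, sk, eq_div_iff h0]
  obtain ⟨L, hL⟩ : ∃ L : ℝ, Real.log n = L := ⟨_, rfl⟩
  rw [hL] at e ⊢
  rw [← e, ← Complex.exp_add]
  congr 1
  push_cast
  ring

lemma norm_cpow (k : ℕ) {n : ℕ} (hn : n ≠ 0) : ‖(n : ℂ) ^ (-sk k)‖ = 1 / n := by
  rw [cpow_eq k hn, norm_div, norm_ex, Complex.norm_natCast]

lemma two_cpow (k : ℕ) : (2 : ℂ) ^ (-sk k) = -1 / 2 := by
  have h := cpow_eq k two_ne_zero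
  have hl : Real.log 2 ≠ 0 := (Real.log_pos (by norm_num)).ne'
  have e : tk k * -Real.log 2 = -((2 * k + 1) * π) := by
    rw [tk, mul_neg, div_mul_cancel₀ _ hl]
  simp only [Nat.cast_ofNat] at h
  rw [h, ex, ext, e]
  congr 1
  have e2 : ((-((2 * k + 1) * π) : ℝ) : ℂ) * Complex.I =
      π * Complex.I + ((-(k + 1 : ℕ) : ℤ) : ℂ) * (2 * π * Complex.I) := by
    push_cast
    ring
  rw [e2, Complex.exp_add, Complex.exp_int_mul_two_pi_mul_I, Complex.exp_pi_mul_I, mul_one]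

lemma loc_ne {x : ℂ} (hx : ‖x‖ ≤ 1 / 3) : 1 + 2 * x ≠ 0 ∧ 1 - x ≠ 0 := by
  constructor
  · intro h
    have h1 : x = -1 / 2 := by linear_combination h / 2
    rw [h1] at hx
    norm_num at hx
  · intro h
    rw [← sub_eq_zero.1 h] at hx
    norm_num at hx

lemma norm_le (k : ℕ) {p : ℕ} (hp : 3 ≤ p) : ‖(p : ℂ) ^ (-sk k)‖ ≤ 1 / 3 := by
  rw [norm_cpow k (by omega)]
  exact one_div_le_one_div_of_le (by norm_num) (by exact_mod_cast hp)

lemma fac_eq (p : ℕ) (s : ℂ) : 1 - 3 * (p : ℂ) ^ (-(2 * s)) + 2 * (p : ℂ) ^ (-(3 * s)) =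
    (1 + 2 * (p : ℂ) ^ (-s)) * (1 - (p : ℂ) ^ (-s)) ^ 2 := by
  rw [show -(2 * s) = (2 : ℕ) * (-s) by push_cast; ring,
    show -(3 * s) = (3 : ℕ) * (-s) by push_cast; ring, Complex.cpow_nat_mul, Complex.cpow_nat_mul]
  ring

lemma loc_small {p : ℕ} (hp : p.Prime) (h : p ≤ 1000) (x : ℂ) :
    ∑' e : ℕ, (hh (p ^ e) : ℂ) * x ^ e = 1 := by
  rw [tsum_eq_single 0 fun e he => by
    rw [hh, Conv.mf_pow hloc hp, if_neg he, hloc, if_pos h]
    simp]
  simp [hh, Conv.mf_one]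

lemma loc_big {p : ℕ} (hp : p.Prime) (h : 1000 < p) {x : ℂ} (hx : ‖x‖ ≤ 1 / 3) :
    (∑' e : ℕ, (hh (p ^ e) : ℂ) * x ^ e) * ((1 + 2 * x) * (1 - x) ^ 2) = 1 := by
  have h1 : HasSum (fun e : ℕ => (-2 * x) ^ e) (1 - -2 * x)⁻¹ :=
    hasSum_geometric_of_norm_lt_one (by rw [norm_mul]; norm_num; linarith)
  have h2 : HasSum (fun e : ℕ => (e : ℂ) * x ^ e) (x / (1 - x) ^ 2) :=
    hasSum_coe_mul_geometric_of_norm_lt_one (by linarith)
  have h3 : HasSum (fun e : ℕ => x ^ e) (1 - x)⁻¹ := hasSum_geometric_of_norm_lt_one (by linarith)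
  have h4 := ((h1.mul_left (4 / 9)).add (h2.mul_left (3 / 9))).add (h3.mul_left (5 / 9))
  have h5 : ∀ e : ℕ, (hh (p ^ e) : ℂ) * x ^ e =
      4 / 9 * (-2 * x) ^ e + 3 / 9 * ((e : ℂ) * x ^ e) + 5 / 9 * x ^ e := fun e => by
    have h6 : hh (p ^ e) = (4 * (-2) ^ e + 3 * e + 5) / 9 := Conv.AF_hloc hp h e
    rw [h6, mul_pow]
    push_cast
    ring
  simp only [h5]
  obtain ⟨n1, n2⟩ := loc_ne hx
  rw [h4.tsum_eq, show 1 - -2 * x = 1 + 2 * x by ring]
  field_simp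
  ring

lemma summable_hh (he : StEps) : Summable fun d : ℕ => |hh d| / d :=
  summable_of_sum_le (fun _ => div_nonneg (abs_nonneg _) (Nat.cast_nonneg _)) he

lemma term_eq (k d : ℕ) :
    ((hh d / d : ℝ) : ℂ) * ex k (-Real.log d) = (hh d : ℂ) * (d : ℂ) ^ (-sk k) := by
  rcases eq_or_ne d 0 with rfl | hd
  · simp [hh, Conv.mf_zero]
  · rw [cpow_eq k hd]
    push_cast
    ring

lemma summable_a (he : StEps) (k : ℕ) :
    Summable fun d : ℕ => ‖((hh d / d : ℝ) : ℂ) * ex k (-Real.log d)‖ := by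
  refine (summable_hh he).congr fun d => ?_
  rw [norm_mul, norm_ex, mul_one, Complex.norm_real, Real.norm_eq_abs, abs_div, Nat.abs_cast]

/-- the factors of the product, extended by one -/
noncomputable def DD (s : ℂ) (n : ℕ) : ℂ :=
  if n.Prime ∧ n ≠ 2 then 1 - 3 * (n : ℂ) ^ (-(2 * s)) + 2 * (n : ℂ) ^ (-(3 * s)) else 1

lemma multipliable_DD (k : ℕ) : Multipliable (DD (sk k)) := by
  have h : Summable fun n : ℕ => ‖DD (sk k) n - 1‖ := by
    refine ((Real.summable_one_div_nat_pow.2 one_lt_two).mul_left 5).of_nonneg_of_le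
      (fun _ => norm_nonneg _) fun n => ?_
    rw [DD]
    split_ifs with hn
    · have h1 := norm_cpow k hn.1.ne_zero
      have h2 := norm_le k (p := n) (by have := hn.1.two_le; have := hn.2; omega)
      rw [fac_eq, show (1 + 2 * (n : ℂ) ^ (-sk k)) * (1 - (n : ℂ) ^ (-sk k)) ^ 2 - 1 =
        ((n : ℂ) ^ (-sk k)) ^ 2 * (2 * (n : ℂ) ^ (-sk k) - 3) by ring, norm_mul, norm_pow,
        ← one_div_pow, ← h1, mul_comm]
      refine mul_le_mul_of_nonneg_right ((norm_sub_le _ _).trans ?_) (by positivity)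
      rw [norm_mul]
      norm_num
      linarith
    · rw [sub_self, norm_zero]
      positivity
  simpa only [add_sub_cancel] using multipliable_one_add_of_summable h

lemma tendsto_DD (k : ℕ) : Tendsto (fun N : ℕ => ∏ p ∈ N.primesBelow, DD (sk k) p) atTop
    (𝓝 (∏' p : {p : ℕ // p.Prime ∧ p ≠ 2},
      (1 - 3 * (p : ℂ) ^ (-(2 * sk k)) + 2 * (p : ℂ) ^ (-(3 * sk k))))) := by
  have h1 : ∏' p : {p : ℕ // p.Prime ∧ p ≠ 2},
      (1 - 3 * (p : ℂ) ^ (-(2 * sk k)) + 2 * (p : ℂ) ^ (-(3 * sk k))) = ∏' n, DD (sk k) n := by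
    rw [← Subtype.val_injective.tprod_eq (f := DD (sk k))
      (g := (Subtype.val : {p : ℕ // p.Prime ∧ p ≠ 2} → ℕ)) fun n hn => ?_]
    · exact tprod_congr fun p => by rw [DD, if_pos p.2]
    · by_contra hc
      exact hn (if_neg fun h => hc ⟨⟨n, h⟩, rfl⟩)
  rw [h1]
  refine (multipliable_DD k).hasProd.tendsto_prod_nat.congr fun N => ?_
  refine (prod_subset (fun p hp => mem_range.2 (Nat.lt_of_mem_primesBelow hp))
    fun n hn hn' => if_neg fun h => hn' ?_).symm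
  exact Nat.mem_primesBelow.2 ⟨mem_range.1 hn, h.1⟩

lemma euler (he : StEps) (k : ℕ) :
    (∑' d : ℕ, ((hh d / d : ℝ) : ℂ) * ex k (-Real.log d)) * ∏' p : {p : ℕ // p.Prime ∧ p ≠ 2},
      (1 - 3 * (p : ℂ) ^ (-(2 * sk k)) + 2 * (p : ℂ) ^ (-(3 * sk k))) =
      (1 + 2 * (3 : ℂ) ^ (-sk k)) * (1 - (3 : ℂ) ^ (-sk k)) ^ 2 * Df (sk k) := by
  have hs := summable_a he k
  simp only [term_eq] at hs ⊢
  have t1 := EulerProduct.eulerProduct (f := fun m : ℕ => (hh m : ℂ) * (m : ℂ) ^ (-sk k))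
    (by simp [hh, Conv.mf_one]) (fun {m n} h => by
      simp only [hh, Conv.mf_mul hloc h, Nat.cast_mul, Complex.natCast_mul_natCast_cpow]
      push_cast
      ring) hs (by simp [hh, Conv.mf_zero])
  have t2 := t1.mul (tendsto_DD k)
  have e : ∀ p e : ℕ, ((p ^ e : ℕ) : ℂ) ^ (-sk k) = ((p : ℂ) ^ (-sk k)) ^ e := fun p e => by
    rw [Nat.cast_pow, ← Complex.natCast_cpow_natCast_mul, Complex.cpow_nat_mul]
  simp only [e, ← prod_mul_distrib] at t2
  refine tendsto_nhds_unique t2 (tendsto_const_nhds.congr' ?_)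
  filter_upwards [eventually_ge_atTop 1001] with n hn
  have sub : Nat.primesBelow 1001 ⊆ Nat.primesBelow n := fun p hp => by
    rw [Nat.mem_primesBelow] at hp ⊢
    exact ⟨by omega, hp.2⟩
  rw [← prod_subset sub fun p hp hp' => ?_, Dir.primes_eq, prod_insert (by simp),
    prod_insert (by simp), loc_small Nat.prime_two (by norm_num),
    loc_small Nat.prime_three (by norm_num), DD, DD, if_neg (by simp),
    if_pos ⟨Nat.prime_three, by norm_num⟩, fac_eq, one_mul, one_mul, one_mul, Df]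
  · congr 1
    refine prod_congr rfl fun p hp => ?_
    rw [mem_filter, mem_Icc] at hp
    rw [loc_small hp.2 hp.1.2, one_mul, DD, if_pos ⟨hp.2, by omega⟩]
  · rw [Nat.mem_primesBelow] at hp hp'
    have h1 : 1000 < p := by
      by_contra h
      exact hp' ⟨by omega, hp.2⟩
    rw [DD, if_pos ⟨hp.2, by omega⟩, fac_eq]
    exact loc_big hp.2 h1 (norm_le k (by omega))

lemma Df_ne (k : ℕ) : Df (sk k) ≠ 0 := by
  refine prod_ne_zero_iff.2 fun p hp => ?_
  rw [mem_filter, mem_Icc] at hp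
  obtain ⟨h1, h2⟩ := loc_ne (norm_le k (p := p) (by omega))
  rw [fac_eq]
  exact mul_ne_zero h1 (pow_ne_zero 2 h2)

lemma term_b (k i : ℕ) : (((-2 / 3 : ℝ) ^ i : ℝ) : ℂ) * ex k (-(i * Real.log 3)) =
    (-2 * (3 : ℂ) ^ (-sk k)) ^ i := by
  have h := cpow_eq k three_ne_zero
  simp only [Nat.cast_ofNat] at h
  rw [h, ← mul_neg, ex_nat, Complex.ofReal_pow, ← mul_pow]
  congr 1
  push_cast
  ring

lemma norm_b (k : ℕ) : ‖-2 * (3 : ℂ) ^ (-sk k)‖ < 1 := by
  have h := norm_le k (p := 3) le_rfl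
  simp only [Nat.cast_ofNat] at h
  rw [norm_mul]
  norm_num
  linarith

lemma factor (he : StEps) (hq : StMassq) (k : ℕ) {q : ℕ} (h : 24 ≤ q) :
    ∑' j, (w3 q j : ℂ) * ex k (-t3 j) = (∑' d : ℕ, ((hh d / d : ℝ) : ℂ) * ex k (-Real.log d)) *
      ((1 + 2 * (3 : ℂ) ^ (-sk k))⁻¹ * hat (cw q) k) := by
  have hb : Summable fun i : ℕ => ‖(((-2 / 3 : ℝ) ^ i : ℝ) : ℂ) * ex k (-(i * Real.log 3))‖ := by
    simp only [term_b, norm_pow]
    exact summable_geometric_of_lt_one (norm_nonneg _) (norm_b k)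
  have hc : Summable fun m : ℕ => ‖(cw q m : ℂ) * ex k (-Real.log m)‖ := by
    refine (hq.1 q h).1.congr fun m => ?_
    rw [norm_mul, norm_ex, mul_one, Complex.norm_real, Real.norm_eq_abs]
  have h1 : (1 + 2 * (3 : ℂ) ^ (-sk k))⁻¹ =
      ∑' i : ℕ, (((-2 / 3 : ℝ) ^ i : ℝ) : ℂ) * ex k (-(i * Real.log 3)) := by
    simp only [term_b]
    rw [tsum_geometric_of_norm_lt_one (norm_b k)]
    congr 1
    ring
  rw [h1, hat, tsum_mul_tsum_of_summable_norm hb hc,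
    tsum_mul_tsum_of_summable_norm (summable_a he k) (hb.mul_norm hc)]
  refine tsum_congr fun j => ?_
  rw [w3, t3, neg_add, neg_add, ex_add, ex_add, Complex.ofReal_mul, Complex.ofReal_mul]
  ring

lemma tendsto_Ek (h2 : StE2) (h0 : StE0) (k : ℕ) : Tendsto (fun q : ℕ => Ek q k) atTop (𝓝 0) := by
  rcases Nat.eq_zero_or_pos k with rfl | hk
  · exact tendsto_zero_iff_norm_tendsto_zero.2 h0.2
  · have h1 : Tendsto (fun q : ℕ => -(0.05 * ((q : ℝ) - 25))) atTop atBot :=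
      tendsto_neg_atTop_atBot.comp (Tendsto.const_mul_atTop (by norm_num)
        (tendsto_atTop_add_const_right _ (-25) tendsto_natCast_atTop_atTop))
    have h3 := (Real.tendsto_exp_atBot.comp h1).const_mul 6300
    rw [mul_zero] at h3
    refine squeeze_zero_norm' ?_ h3
    filter_upwards [eventually_ge_atTop 25, eventually_ge_atTop (k + 1)] with q hq hq'
    exact ((h2 q hq).2 k hk ((show k ≤ q - 1 by omega).trans_lt Nat.lt_two_pow_self)).1

end Coef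

open Coef in
theorem coefOk (he : StEps) (hq : StMassq) (h2 : StE2) (h0 : StE0) : StCoef := by
  intro k
  have h1 : Tendsto (fun q : ℕ => hat (cw q) k) atTop (𝓝 (Gf (sk k))) := by
    have h3 := (tendsto_Ek h2 h0 k).const_sub (Gf (sk k))
    simpa only [Ek, sub_sub_cancel, sub_zero] using h3
  have h3 := ((h1.const_mul (1 + 2 * (3 : ℂ) ^ (-sk k))⁻¹).const_mul
    (∑' d : ℕ, ((hh d / d : ℝ) : ℂ) * ex k (-Real.log d))).div_const ((Real.log 2 : ℂ) * sk k)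
  have h4 := euler he k
  have h5 := norm_le k (p := 3) le_rfl
  simp only [Nat.cast_ofNat] at h5
  obtain ⟨n1, n2⟩ := loc_ne h5
  have n3 := Df_ne k
  have n4 := riemannZeta_ne_zero_of_one_le_re (s := sk k) (by simp [sk])
  have n5 := right_ne_zero_of_mul (h4 ▸ mul_ne_zero (mul_ne_zero n1 (pow_ne_zero 2 n2)) n3)
  have h6 : (∑' d : ℕ, ((hh d / d : ℝ) : ℂ) * ex k (-Real.log d)) *
      ((1 + 2 * (3 : ℂ) ^ (-sk k))⁻¹ * Gf (sk k)) / ((Real.log 2 : ℂ) * sk k) = cc k := by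
    rw [eq_div_of_mul_eq n5 h4, Gf, cc, two_cpow]
    generalize (∏' p : {p : ℕ // p.Prime ∧ p ≠ 2},
      (1 - 3 * (p : ℂ) ^ (-(2 * sk k)) + 2 * (p : ℂ) ^ (-(3 * sk k)))) = P at n5
    have n6 : (Real.log 2 : ℂ) ≠ 0 := Complex.ofReal_ne_zero.2 (Real.log_pos (by norm_num)).ne'
    have n7 : sk k ≠ 0 := fun h => by simpa [sk] using congrArg Complex.re h
    generalize (Real.log 2 : ℂ) = l at n6
    field_simp
    norm_num
  rw [h6] at h3
  refine h3.congr' ?_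
  filter_upwards [eventually_ge_atTop 24] with q hq'
  rw [coef, factor he hq k hq']

end Pool.Agent.Lib.MP_5db4ad_nt.S2
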