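import Pool.Agent.Lib.MP_5db4ad_nt.NumDefs

/-!
Correctness of the fixed point and vector operations.
-/

namespace Pool.Agent.Lib.MP_5db4ad_nt

open Finset

lemma frc_eq {β : Type} (a : ℕ) (k : ℕ → β) : frc a k = k a := by
  cases a <;> rfl

lemma frcI_eq {β : Type} (a : ℤ) (k : ℤ → β) : frcI a k = k a := by
  cases a with
  | ofNat n => exact frc_eq n fun m => k (Int.ofNat m)
  | negSucc n => exact frc_eq n fun m => k (Int.negSucc m)

lemma frcB_eq {β : Type} (x : Ball) (k : Ball → β) : frcB x k = k x := by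
  simp only [frcB, frcI_eq, frc_eq]

lemma cmul_eq {β : Type} (a b c d : ℕ) (k : ℕ → ℕ → β) :
    cmul a b c d k = k (mre a b c d) (mim a b c d) := by
  simp only [cmul, frc_eq]

/-- the complex number stored in a pair with bias `t * 2 ^ 68` -/
noncomputable def cvt (t a b : ℕ) : ℂ :=
  ⟨((a : ℝ) - t * 2 ^ 68) / 2 ^ 64, ((b : ℝ) - t * 2 ^ 68) / 2 ^ 64⟩

/-- the rounding unit -/
noncomputable def rho : ℝ := 2 / 2 ^ 64

lemma cvt_add (t t' a b a' b' : ℕ) : cvt (t + t') (a + a') (b + b') = cvt t a b + cvt t' a' b' := by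
  apply Complex.ext <;> simp [cvt] <;> ring

lemma norm_le_of_parts {z : ℂ} {r : ℝ} (h1 : |z.re| ≤ r) (h2 : |z.im| ≤ r) : ‖z‖ ≤ 2 * r :=
  (Complex.norm_le_abs_re_add_abs_im z).trans (by linarith)

/-- positive part -/
def posRe (a b c d : ℕ) : ℕ := a * c + b * (2 ^ 69 - d) + 2 ^ 68 * (d + 2 ^ 66 - c)

/-- positive part -/
def posIm (a b c d : ℕ) : ℕ := a * d + b * c + 2 ^ 68 * (2 ^ 69 + 2 ^ 66 - (c + d))

/-- negative part -/
def neg (a b : ℕ) : ℕ := (a + b) * 2 ^ 68 + 3 * 2 ^ 132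

lemma preRe_eq (o a b c d : ℕ) : preRe o a b c d =
    (a * c + b * (2 ^ 69 - d) + o * (2 ^ 68 * (d + 2 ^ 66 - c))) -
      ((a + b) * 2 ^ 68 + o * (3 * 2 ^ 132)) := rfl

lemma preIm_eq (o a b c d : ℕ) : preIm o a b c d =
    (a * d + b * c + o * (2 ^ 68 * (2 ^ 69 + 2 ^ 66 - (c + d)))) -
      ((a + b) * 2 ^ 68 + o * (3 * 2 ^ 132)) := rfl

lemma preRe_one (a b c d : ℕ) : preRe 1 a b c d = posRe a b c d - neg a b := by
  simp only [preRe_eq, posRe, neg, one_mul]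

lemma preIm_one (a b c d : ℕ) : preIm 1 a b c d = posIm a b c d - neg a b := by
  simp only [preIm_eq, posIm, neg, one_mul]

lemma pos_cast {a b c d : ℕ} (hc : ‖cvt 1 c d‖ ≤ 2) :
    (posRe a b c d : ℝ) - neg a b = (cvt 1 a b * cvt 1 c d).re * 2 ^ 128 + 2 ^ 132 ∧
    (posIm a b c d : ℝ) - neg a b = (cvt 1 a b * cvt 1 c d).im * 2 ^ 128 + 2 ^ 132 := by
  have h1 := abs_le.1 ((Complex.abs_re_le_norm _).trans hc)
  have h2 := abs_le.1 ((Complex.abs_im_le_norm _).trans hc)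
  simp only [cvt, Nat.cast_one, one_mul] at h1 h2
  have c1 : (c : ℝ) ≤ 2 ^ 68 + 2 ^ 65 := by linarith [h1.2]
  have c2 : 2 ^ 68 - 2 ^ 65 ≤ (c : ℝ) := by linarith [h1.1]
  have d1 : (d : ℝ) ≤ 2 ^ 68 + 2 ^ 65 := by linarith [h2.2]
  have d2 : 2 ^ 68 - 2 ^ 65 ≤ (d : ℝ) := by linarith [h2.1]
  have e1 : d ≤ 2 ^ 69 := by exact_mod_cast (show (d : ℝ) ≤ 2 ^ 69 by linarith)
  have e2 : c ≤ d + 2 ^ 66 := by exact_mod_cast (show (c : ℝ) ≤ d + 2 ^ 66 by linarith)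
  have e3 : c + d ≤ 2 ^ 69 + 2 ^ 66 := by
    exact_mod_cast (show (c : ℝ) + d ≤ 2 ^ 69 + 2 ^ 66 by linarith)
  simp only [posRe, posIm, neg, cvt, Complex.mul_re, Complex.mul_im]
  simp only [Nat.cast_add, Nat.cast_mul, Nat.cast_sub e1, Nat.cast_sub e2, Nat.cast_sub e3]
  push_cast
  constructor <;> ring

lemma pos_facts {a b c d : ℕ} (hc : ‖cvt 1 c d‖ ≤ 2) (hp : ‖cvt 1 a b * cvt 1 c d‖ ≤ 16) :
    neg a b ≤ posRe a b c d ∧ neg a b ≤ posIm a b c d ∧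
    preRe 1 a b c d < 2 ^ 144 ∧ preIm 1 a b c d < 2 ^ 144 ∧
    ‖cvt 1 (mre a b c d) (mim a b c d) - cvt 1 a b * cvt 1 c d‖ ≤ rho := by
  obtain ⟨h1, h2⟩ := pos_cast (a := a) (b := b) hc
  have r1 := abs_le.1 ((Complex.abs_re_le_norm _).trans hp)
  have r2 := abs_le.1 ((Complex.abs_im_le_norm _).trans hp)
  set z := cvt 1 a b * cvt 1 c d
  have n1 : neg a b ≤ posRe a b c d := by
    exact_mod_cast (show (neg a b : ℝ) ≤ posRe a b c d by linarith [r1.1])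
  have n2 : neg a b ≤ posIm a b c d := by
    exact_mod_cast (show (neg a b : ℝ) ≤ posIm a b c d by linarith [r2.1])
  have p1 : (preRe 1 a b c d : ℝ) = z.re * 2 ^ 128 + 2 ^ 132 := by
    rw [preRe_one, Nat.cast_sub n1, h1]
  have p2 : (preIm 1 a b c d : ℝ) = z.im * 2 ^ 128 + 2 ^ 132 := by
    rw [preIm_one, Nat.cast_sub n2, h2]
  refine ⟨n1, n2, ?_, ?_, ?_⟩
  · exact_mod_cast (show (preRe 1 a b c d : ℝ) < 2 ^ 144 by linarith [r1.2])
  · exact_mod_cast (show (preIm 1 a b c d : ℝ) < 2 ^ 144 by linarith [r2.2])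
  · have key : ∀ (P : ℕ) (x : ℝ), (P : ℝ) = x * 2 ^ 128 + 2 ^ 132 →
        |(((P >>> 64 : ℕ) : ℝ) - (1 : ℕ) * 2 ^ 68) / 2 ^ 64 - x| ≤ 1 / 2 ^ 64 := by
      intro P x hP
      rw [Nat.shiftRight_eq_div_pow]
      have a1 : P / 2 ^ 64 * 2 ^ 64 ≤ P := Nat.div_mul_le_self _ _
      have a2 : P < (P / 2 ^ 64 + 1) * 2 ^ 64 := by omega
      have b1 : ((P / 2 ^ 64 : ℕ) : ℝ) * 2 ^ 64 ≤ P := by exact_mod_cast a1
      have b2 : (P : ℝ) < (((P / 2 ^ 64 : ℕ) : ℝ) + 1) * 2 ^ 64 := by exact_mod_cast a2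
      rw [abs_le]
      push_cast
      constructor <;> linarith
    have := norm_le_of_parts (z := cvt 1 (mre a b c d) (mim a b c d) - z) (r := 1 / 2 ^ 64)
      (key _ _ p1) (key _ _ p2)
    unfold rho
    linarith

lemma rho_pos : 0 < rho := by unfold rho; positivity

lemma mul_err {x y w z : ℂ} {e δ μ ν : ℝ} (h1 : ‖x - w‖ ≤ e) (h2 : ‖y - z‖ ≤ δ) (hw : ‖w‖ ≤ μ)
    (hz : ‖z‖ ≤ ν) : ‖x * y - w * z‖ ≤ e * ν + (μ + e) * δ := by
  have hx : ‖x‖ ≤ μ + e := by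
    have := norm_add_le w (x - w)
    simp only [add_sub_cancel] at this
    linarith
  have he : 0 ≤ e := (norm_nonneg _).trans h1
  calc ‖x * y - w * z‖ = ‖(x - w) * z + x * (y - z)‖ := by congr 1; ring
    _ ≤ ‖x - w‖ * ‖z‖ + ‖x‖ * ‖y - z‖ := by
        refine (norm_add_le _ _).trans ?_
        rw [norm_mul, norm_mul]
    _ ≤ _ := add_le_add (mul_le_mul h1 hz (norm_nonneg _) he)
        (mul_le_mul hx h2 (norm_nonneg _) ((norm_nonneg _).trans hx))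

lemma norm_le_add {x w : ℂ} {e μ : ℝ} (h1 : ‖x - w‖ ≤ e) (hw : ‖w‖ ≤ μ) : ‖x‖ ≤ μ + e := by
  have := norm_add_le w (x - w)
  simp only [add_sub_cancel] at this
  linarith

lemma cmul_facts {a b c d : ℕ} {w z : ℂ} {e δ μ ν : ℝ} (h1 : ‖cvt 1 a b - w‖ ≤ e)
    (h2 : ‖cvt 1 c d - z‖ ≤ δ) (hw : ‖w‖ ≤ μ) (hz : ‖z‖ ≤ ν) (hν : ν + δ ≤ 2)
    (hp : (μ + e) * (ν + δ) ≤ 16) :
    ‖cvt 1 c d‖ ≤ 2 ∧ ‖cvt 1 a b * cvt 1 c d‖ ≤ 16 ∧
    ‖cvt 1 (mre a b c d) (mim a b c d) - w * z‖ ≤ e * ν + (μ + e) * δ + rho := by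
  have a1 := norm_le_add h1 hw
  have a2 := norm_le_add h2 hz
  have b1 : ‖cvt 1 c d‖ ≤ 2 := a2.trans hν
  have b2 : ‖cvt 1 a b * cvt 1 c d‖ ≤ 16 := by
    rw [norm_mul]
    exact (mul_le_mul a1 a2 (norm_nonneg _) ((norm_nonneg _).trans a1)).trans hp
  refine ⟨b1, b2, ?_⟩
  have c1 := (pos_facts b1 b2).2.2.2.2
  have c2 := mul_err h1 h2 hw hz
  have := norm_sub_le_norm_sub_add_norm_sub (cvt 1 (mre a b c d) (mim a b c d))
    (cvt 1 a b * cvt 1 c d) (w * z)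
  linarith

lemma sq_unit {c d : ℕ} {z : ℂ} {δ : ℝ} (h : ‖cvt 1 c d - z‖ ≤ δ) (hz : ‖z‖ ≤ 1)
    (h1 : δ ≤ 1 / 2) (h2 : 2 * rho ≤ δ) :
    ‖cvt 1 (mre c d c d) (mim c d c d) - z * z‖ ≤ 3 * δ := by
  have := rho_pos
  have h3 := (cmul_facts h h hz hz (by linarith) (by nlinarith)).2.2
  nlinarith

/-- a vector with slots of 144 bits -/
def pk (J : ℕ) (f : ℕ → ℕ) : ℕ := ∑ k ∈ range J, f k * 2 ^ (144 * k)

lemma pk_succ (J : ℕ) (f : ℕ → ℕ) : pk (J + 1) f = f 0 + 2 ^ 144 * pk J fun k => f (k + 1) := by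
  unfold pk
  rw [Finset.sum_range_succ', Finset.mul_sum, add_comm]
  simp only [mul_zero, pow_zero, mul_one, add_right_inj]
  refine Finset.sum_congr rfl fun k _ => ?_
  rw [mul_add, pow_add]
  ring

lemma pk_add (J : ℕ) (f g : ℕ → ℕ) : pk J f + pk J g = pk J fun k => f k + g k := by
  simp only [pk, ← Finset.sum_add_distrib, add_mul]

lemma pk_mul (J : ℕ) (f : ℕ → ℕ) (c : ℕ) : pk J f * c = pk J fun k => f k * c := by
  simp only [pk, Finset.sum_mul]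
  exact Finset.sum_congr rfl fun k _ => by ring

lemma pk_congr {J : ℕ} {f g : ℕ → ℕ} (h : ∀ k < J, f k = g k) : pk J f = pk J g :=
  Finset.sum_congr rfl fun k hk => by rw [h k (mem_range.1 hk)]

lemma pk_sub {J : ℕ} {f g : ℕ → ℕ} (h : ∀ k < J, g k ≤ f k) :
    pk J f - pk J g = pk J fun k => f k - g k := by
  have : pk J f = pk J (fun k => f k - g k) + pk J g := by
    rw [pk_add]
    exact pk_congr fun k hk => by have := h k hk; omega
  omega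

lemma pk_append (J : ℕ) (f g : ℕ → ℕ) : pk J f + pk J g <<< (144 * J) =
    pk (J + J) fun k => if k < J then f k else g (k - J) := by
  unfold pk
  rw [Finset.sum_range_add, Nat.shiftLeft_eq, Finset.sum_mul]
  congr 1
  · exact Finset.sum_congr rfl fun k hk => by simp only [if_pos (mem_range.1 hk)]
  · refine Finset.sum_congr rfl fun k _ => ?_
    simp only [if_neg (show ¬ J + k < J by omega), Nat.add_sub_cancel_left, mul_add, pow_add]
    ring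

lemma land_split {a b A B : ℕ} (ha : a < 2 ^ 144) (hb : b < 2 ^ 144) :
    (a + 2 ^ 144 * A) &&& (b + 2 ^ 144 * B) = (a &&& b) + 2 ^ 144 * (A &&& B) := by
  apply Nat.eq_of_testBit_eq
  intro i
  have hab : a &&& b < 2 ^ 144 := Nat.and_lt_two_pow _ hb
  rw [Nat.testBit_and, add_comm a, add_comm b, add_comm (a &&& b),
    Nat.testBit_two_pow_mul_add _ ha, Nat.testBit_two_pow_mul_add _ hb,
    Nat.testBit_two_pow_mul_add _ hab]
  split_ifs <;> simp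

lemma pk_round {J : ℕ} {f : ℕ → ℕ} (h : ∀ k < J, f k < 2 ^ 144) :
    (pk J f >>> 64) &&& (pk J (fun _ => 1) * (2 ^ 80 - 1)) = pk J fun k => f k >>> 64 := by
  induction J generalizing f with
  | zero => simp [pk]
  | succ J ih =>
    have h0 := h 0 (by omega)
    rw [pk_succ, pk_succ, pk_succ, ← ih fun k hk => h (k + 1) (by omega)]
    set Y := pk J fun k => f (k + 1)
    set O := pk J fun _ => 1
    have e1 : (f 0 + 2 ^ 144 * Y) >>> 64 =
        (f 0 / 2 ^ 64 + 2 ^ 80 * (Y % 2 ^ 64)) + 2 ^ 144 * (Y >>> 64) := by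
      simp only [Nat.shiftRight_eq_div_pow]
      omega
    have e2 : (1 + 2 ^ 144 * O) * (2 ^ 80 - 1) = (2 ^ 80 - 1) + 2 ^ 144 * (O * (2 ^ 80 - 1)) := by
      ring
    rw [e1, e2, land_split (by omega) (by norm_num), Nat.and_two_pow_sub_one_eq_mod,
      Nat.shiftRight_eq_div_pow (f 0)]
    congr 1
    omega

lemma hd_pk {J : ℕ} {f : ℕ → ℕ} (h : f 0 < 2 ^ 144) : hd (pk (J + 1) f) = f 0 := by
  have : hd (pk (J + 1) f) = pk (J + 1) f &&& (2 ^ 144 - 1) := rfl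
  rw [this, Nat.and_two_pow_sub_one_eq_mod, pk_succ]
  omega

lemma tl_pk {J : ℕ} {f : ℕ → ℕ} (h : f 0 < 2 ^ 144) :
    tl (pk (J + 1) f) = pk J fun k => f (k + 1) := by
  have : tl (pk (J + 1) f) = pk (J + 1) f >>> 144 := rfl
  rw [this, Nat.shiftRight_eq_div_pow, pk_succ]
  omega

/-- `X, Y` store approximations of `G 0, ..., G (J - 1)` -/
def Vec (J t X Y : ℕ) (G : ℕ → ℂ) (e : ℝ) : Prop :=
  ∃ f g : ℕ → ℕ, X = pk J f ∧ Y = pk J g ∧ ∀ k < J, ‖cvt t (f k) (g k) - G k‖ ≤ e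

lemma Vec.add {J t t' X Y X' Y' : ℕ} {G G' : ℕ → ℂ} {e e' : ℝ} (h : Vec J t X Y G e)
    (h' : Vec J t' X' Y' G' e') :
    Vec J (t + t') (X + X') (Y + Y') (fun k => G k + G' k) (e + e') := by
  obtain ⟨f, g, rfl, rfl, h⟩ := h
  obtain ⟨f', g', rfl, rfl, h'⟩ := h'
  refine ⟨_, _, pk_add _ _ _, pk_add _ _ _, fun k hk => ?_⟩
  rw [cvt_add, add_sub_add_comm]
  exact (norm_add_le _ _).trans (add_le_add (h k hk) (h' k hk))

lemma Vec.mono {J t X Y : ℕ} {G G' : ℕ → ℂ} {e e' : ℝ} (h : Vec J t X Y G e)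
    (hG : ∀ k < J, G k = G' k) (he : e ≤ e') : Vec J t X Y G' e' := by
  obtain ⟨f, g, h1, h2, h⟩ := h
  exact ⟨f, g, h1, h2, fun k hk => hG k hk ▸ (h k hk).trans he⟩

lemma vec_zero (J : ℕ) : Vec J 0 0 0 (fun _ => 0) 0 :=
  ⟨fun _ => 0, fun _ => 0, by simp [pk], by simp [pk], fun _ _ => by
    have : cvt 0 0 0 = 0 := by apply Complex.ext <;> simp [cvt]
    simp [this]⟩

lemma Vec.uncons {J t X Y : ℕ} {G : ℕ → ℂ} {e : ℝ} (h : Vec (J + 1) t X Y G e)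
    (ht : t ≤ 2 ^ 20) (hG : ‖G 0‖ + e ≤ 2 ^ 20) :
    ‖cvt t (hd X) (hd Y) - G 0‖ ≤ e ∧ Vec J t (tl X) (tl Y) (fun k => G (k + 1)) e := by
  obtain ⟨f, g, rfl, rfl, h⟩ := h
  have h0 := h 0 (by omega)
  have h1 := (norm_le_add h0 le_rfl).trans hG
  have r1 := abs_le.1 ((Complex.abs_re_le_norm _).trans h1)
  have r2 := abs_le.1 ((Complex.abs_im_le_norm _).trans h1)
  simp only [cvt] at r1 r2
  have ht' : (t : ℝ) ≤ 2 ^ 20 := by exact_mod_cast ht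
  have f0 : f 0 < 2 ^ 144 := by
    exact_mod_cast (show (f 0 : ℝ) < 2 ^ 144 by linarith [r1.2])
  have g0 : g 0 < 2 ^ 144 := by
    exact_mod_cast (show (g 0 : ℝ) < 2 ^ 144 by linarith [r2.2])
  rw [hd_pk f0, hd_pk g0, tl_pk f0, tl_pk g0]
  exact ⟨h0, _, _, rfl, rfl, fun k hk => h (k + 1) (by omega)⟩

lemma geo_spec {β : Type} (k : ℕ → ℕ → β) {z w0 : ℂ} {μ : ℝ} (hz : ‖z‖ = 1) (hw : ‖w0‖ ≤ μ)
    (hμ : μ ≤ 1) (l : ℕ) : ∀ (J X Y c d : ℕ) (δ : ℝ), ‖cvt 1 c d - z ^ J‖ ≤ δ →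
    Vec J 1 X Y (fun i => w0 * z ^ i) (2 * μ * δ) → 2 * rho ≤ μ * δ → 3 ^ l * δ ≤ 1 / 2 →
    ∃ X' Y', geo l k (144 * J) (pk J fun _ => 1) X Y c d = k X' Y' ∧
      Vec (J * 2 ^ l) 1 X' Y' (fun i => w0 * z ^ i) (2 * μ * (3 ^ l * δ)) := by
  induction l with
  | zero =>
    intro J X Y c d δ _ hV _ _
    exact ⟨X, Y, rfl, by simpa using hV⟩
  | succ l ih =>
    intro J X Y c d δ hc hV h1 h2
    obtain ⟨f, g, rfl, rfl, hV⟩ := hV
    have hr := rho_pos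
    have hμ0 : 0 ≤ μ := (norm_nonneg _).trans hw
    have hδ0 : 0 ≤ δ := (norm_nonneg _).trans hc
    have h3 : (1 : ℝ) ≤ 3 ^ l := one_le_pow₀ (by norm_num)
    rw [pow_succ] at h2
    have hδ : δ ≤ 1 / 6 := by nlinarith
    have hμδ : μ * δ ≤ δ := by nlinarith
    have hzJ : ‖z ^ J‖ ≤ 1 := by rw [norm_pow, hz, one_pow]
    have hf : ∀ i < J, _ := fun i hi => cmul_facts (hV i hi) hc
      (show ‖w0 * z ^ i‖ ≤ μ by rw [norm_mul, norm_pow, hz, one_pow, mul_one]; exact hw) hzJ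
      (by linarith) (by nlinarith)
    have hp : ∀ i < J, _ := fun i hi => pos_facts (hf i hi).1 (hf i hi).2.1
    have eR : preRe (pk J fun _ => 1) (pk J f) (pk J g) c d =
        pk J fun i => preRe 1 (f i) (g i) c d := by
      rw [preRe_eq]
      simp only [pk_mul, pk_add]
      rw [pk_sub fun i hi => by simpa [neg, posRe] using (hp i hi).1]
      exact pk_congr fun i _ => by rw [preRe_eq]
    have eI : preIm (pk J fun _ => 1) (pk J f) (pk J g) c d =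
        pk J fun i => preIm 1 (f i) (g i) c d := by
      rw [preIm_eq]
      simp only [pk_mul, pk_add]
      rw [pk_sub fun i hi => by simpa [neg, posIm] using (hp i hi).2.1]
      exact pk_congr fun i _ => by rw [preIm_eq]
    have e0 : geo (l + 1) k (144 * J) (pk J fun _ => 1) (pk J f) (pk J g) c d =
        geo l k (144 * J + 144 * J) (pk J (fun _ => 1) + pk J (fun _ => 1) <<< (144 * J))
          (pk J f + ((preRe (pk J fun _ => 1) (pk J f) (pk J g) c d >>> 64) &&&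
            (pk J (fun _ => 1) * (2 ^ 80 - 1))) <<< (144 * J))
          (pk J g + ((preIm (pk J fun _ => 1) (pk J f) (pk J g) c d >>> 64) &&&
            (pk J (fun _ => 1) * (2 ^ 80 - 1))) <<< (144 * J)) (mre c d c d) (mim c d c d) := by
      simp only [geo, frc_eq, cmul_eq]
      rfl
    rw [e0, eR, eI, pk_round fun i hi => (hp i hi).2.2.1, pk_round fun i hi => (hp i hi).2.2.2.1,
      pk_append, pk_append, pk_append, ← mul_add]
    simp only [ite_self]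
    obtain ⟨X', Y', a1, a2⟩ := ih (J + J) _ _ (mre c d c d) (mim c d c d) (3 * δ)
      (by rw [pow_add]; exact sq_unit hc hzJ (by linarith) (by linarith))
      ⟨fun k => if k < J then f k else preRe 1 (f (k - J)) (g (k - J)) c d >>> 64,
        fun k => if k < J then g k else preIm 1 (f (k - J)) (g (k - J)) c d >>> 64,
        rfl, rfl, fun i hi => by
        by_cases hiJ : i < J
        · simp only [if_pos hiJ]
          exact (hV i hiJ).trans (by nlinarith)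
        · simp only [if_neg hiJ]
          have := (hf (i - J) (by omega)).2.2
          rw [mul_assoc, ← pow_add, Nat.sub_add_cancel (by omega)] at this
          refine le_trans this ?_
          nlinarith⟩ (by nlinarith) (by linarith)
    refine ⟨X', Y', a1, ?_⟩
    rw [show J * 2 ^ (l + 1) = (J + J) * 2 ^ l by ring,
      show (3 : ℝ) ^ (l + 1) * δ = 3 ^ l * (3 * δ) by ring]
    exact a2

lemma geo_one {β : Type} (k : ℕ → ℕ → β) {z w0 : ℂ} {μ δ : ℝ} (hz : ‖z‖ = 1) (hw : ‖w0‖ ≤ μ)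
    (hμ : μ ≤ 1) {l a b c d : ℕ} (hc : ‖cvt 1 c d - z‖ ≤ δ) (ha : ‖cvt 1 a b - w0‖ ≤ 2 * μ * δ)
    (h1 : 2 * rho ≤ μ * δ) (h2 : 3 ^ l * δ ≤ 1 / 2) :
    ∃ X' Y', geo l k 144 1 a b c d = k X' Y' ∧
      Vec (2 ^ l) 1 X' Y' (fun i => w0 * z ^ i) (2 * μ * (3 ^ l * δ)) := by
  have := geo_spec k hz hw hμ l 1 a b c d δ (by simpa using hc)
    ⟨fun _ => a, fun _ => b, by simp [pk], by simp [pk], fun i hi => by
      obtain rfl : i = 0 := by omega
      simpa using ha⟩ h1 h2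
  simpa [pk] using this

lemma mulPow_spec {β : Type} (k : ℕ → ℕ → β) {c d : ℕ} {z : ℂ} {δ : ℝ} (hz : ‖z‖ = 1)
    (hc : ‖cvt 1 c d - z‖ ≤ δ) (h1 : rho ≤ δ) (r : ℕ) : ∀ (a b : ℕ) (w : ℂ) (e : ℝ), ‖w‖ = 1 →
    ‖cvt 1 a b - w‖ ≤ e → e + (3 * r + 1) * δ ≤ 1 →
    ∃ a' b', mulPow r c d k a b = k a' b' ∧ ‖cvt 1 a' b' - w * z ^ r‖ ≤ e + 3 * r * δ := by
  induction r with
  | zero => intro a b w e _ ha _; exact ⟨a, b, rfl, by simpa using ha⟩
  | succ r ih =>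
    intro a b w e hw ha h2
    have hr := rho_pos
    have he : 0 ≤ e := (norm_nonneg _).trans ha
    have hr0 : (0 : ℝ) ≤ r := Nat.cast_nonneg r
    push_cast at h2
    have hδ : δ ≤ 1 := by nlinarith
    have he1 : e ≤ 1 := by nlinarith
    have h3 := (cmul_facts ha hc hw.le hz.le (by linarith) (by nlinarith)).2.2
    obtain ⟨a', b', e1, e2⟩ := ih (mre a b c d) (mim a b c d) (w * z) (e + 3 * δ)
      (by rw [norm_mul, hw, hz, one_mul]) (h3.trans (by nlinarith)) (by linarith)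
    refine ⟨a', b', ?_, ?_⟩
    · rw [← e1]
      simp only [mulPow, cmul_eq]
    · rw [pow_succ', ← mul_assoc]
      push_cast
      linarith

lemma sqPow_spec {β : Type} (k : ℕ → ℕ → β) (e : ℕ) : ∀ (c d : ℕ) (z : ℂ) (δ : ℝ), ‖z‖ = 1 →
    ‖cvt 1 c d - z‖ ≤ δ → 2 * rho ≤ δ → 3 ^ e * δ ≤ 1 / 2 →
    ∃ c' d', sqPow e k c d = k c' d' ∧ ‖cvt 1 c' d' - z ^ 2 ^ e‖ ≤ 3 ^ e * δ := by
  induction e with
  | zero => intro c d z δ _ hc _ _; exact ⟨c, d, rfl, by simpa using hc⟩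
  | succ e ih =>
    intro c d z δ hz hc h1 h2
    have hr := rho_pos
    have h3 : (1 : ℝ) ≤ 3 ^ e := one_le_pow₀ (by norm_num)
    rw [pow_succ] at h2
    obtain ⟨c', d', e1, e2⟩ := ih (mre c d c d) (mim c d c d) (z * z) (3 * δ)
      (by rw [norm_mul, hz, one_mul]) (sq_unit hc hz.le (by nlinarith) h1) (by linarith)
      (by linarith)
    refine ⟨c', d', ?_, ?_⟩
    · rw [← e1]
      simp only [sqPow, cmul_eq]
    · rw [← sq, ← pow_mul, ← pow_succ'] at e2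
      rw [pow_succ (3 : ℝ)]
      linarith

lemma div_spec {g h n : ℕ} {w : ℂ} {e : ℝ} (hg : ‖cvt 1 g h - w‖ ≤ e) :
    ‖cvt 1 ((g + 2 ^ 68 * n) / (n + 1)) ((h + 2 ^ 68 * n) / (n + 1)) - w / (n + 1)‖ ≤
      e / (n + 1) + rho := by
  have hn : (0 : ℝ) < n + 1 := by positivity
  have key : ∀ g : ℕ, |((((g + 2 ^ 68 * n) / (n + 1) : ℕ) : ℝ) - (1 : ℕ) * 2 ^ 68) / 2 ^ 64 -
      ((g : ℝ) - (1 : ℕ) * 2 ^ 68) / 2 ^ 64 / (n + 1)| ≤ 1 / 2 ^ 64 := by
    intro g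
    set Q := (g + 2 ^ 68 * n) / (n + 1) with hQ
    have a1 : Q * (n + 1) ≤ g + 2 ^ 68 * n := Nat.div_mul_le_self _ _
    have a2 : g + 2 ^ 68 * n < (Q + 1) * (n + 1) := by
      rw [hQ, mul_comm (_ + 1)]
      exact Nat.lt_mul_div_succ _ (by omega)
    have b1 : (Q : ℝ) * (n + 1) ≤ g + 2 ^ 68 * n := by exact_mod_cast a1
    have b2 : (g : ℝ) + 2 ^ 68 * n < (Q + 1) * (n + 1) := by exact_mod_cast a2
    have e1 : ((Q : ℝ) - (1 : ℕ) * 2 ^ 68) / 2 ^ 64 - ((g : ℝ) - (1 : ℕ) * 2 ^ 68) / 2 ^ 64 / (n + 1)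
        = ((Q * (n + 1) - (g + 2 ^ 68 * n)) / (n + 1)) / 2 ^ 64 := by
      push_cast
      field_simp
      ring
    rw [e1, abs_div, abs_of_pos (show (0 : ℝ) < 2 ^ 64 by positivity)]
    refine div_le_div_of_nonneg_right ?_ (by positivity)
    rw [abs_le, le_div_iff₀ hn, div_le_iff₀ hn]
    constructor <;> linarith
  have h1 : ‖cvt 1 ((g + 2 ^ 68 * n) / (n + 1)) ((h + 2 ^ 68 * n) / (n + 1)) -
      cvt 1 g h / (n + 1)‖ ≤ 2 * (1 / 2 ^ 64) := by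
    have hc : ((n : ℂ) + 1) = ((n + 1 : ℝ) : ℂ) := by push_cast; rfl
    apply norm_le_of_parts
    · rw [Complex.sub_re, hc, Complex.div_ofReal_re]
      exact key g
    · rw [Complex.sub_im, hc, Complex.div_ofReal_im]
      exact key h
  have h2 : ‖cvt 1 g h / (n + 1) - w / (n + 1)‖ ≤ e / (n + 1) := by
    rw [← sub_div, norm_div]
    have : ‖(n : ℂ) + 1‖ = n + 1 := by exact_mod_cast Complex.norm_natCast (n + 1)
    rw [this]
    exact div_le_div_of_nonneg_right hg hn.le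
  have := norm_sub_le_norm_sub_add_norm_sub
    (cvt 1 ((g + 2 ^ 68 * n) / (n + 1)) ((h + 2 ^ 68 * n) / (n + 1))) (cvt 1 g h / (n + 1))
    (w / (n + 1))
  unfold rho
  linarith

lemma start_spec {β : Type} (k : ℕ → ℕ → ℕ → ℕ → β) {r e n a b : ℕ} {z : ℂ} {ε : ℝ}
    (hz : ‖z‖ = 1) (ha : ‖cvt 1 a b - z‖ ≤ ε) (hr : r ≤ 8) (he : e ≤ 3) (hn : n < 2 ^ 13)
    (h1 : 1 / 2 ^ 52 ≤ ε) (h2 : ε ≤ 1 / 2 ^ 46) :
    ∃ w w' c d, start r e n a b k = k w w' c d ∧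
      ‖cvt 1 w w' - z ^ (2 * r + 1) / (n + 1)‖ ≤ 2 * (1 / (n + 1)) * (128 * ε) ∧
      ‖cvt 1 c d - z ^ (2 * 2 ^ e)‖ ≤ 128 * ε := by
  have hrho : rho = 2 / 2 ^ 64 := rfl
  have a1 := sq_unit ha hz.le (by linarith) (by linarith)
  have hzz : ‖z * z‖ = 1 := by rw [norm_mul, hz, one_mul]
  have hr' : (r : ℝ) ≤ 8 := by exact_mod_cast hr
  have hr0 : (0 : ℝ) ≤ r := Nat.cast_nonneg r
  have h3 : (3 : ℝ) ^ e ≤ 3 ^ 3 := pow_le_pow_right₀ (by norm_num) he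
  have h4 : (0 : ℝ) < 3 ^ e := by positivity
  simp only [start, cmul_eq, frc_eq]
  obtain ⟨g, h, e1, e2⟩ := mulPow_spec (fun g h => sqPow e (fun c' d' =>
      k (Nat.div (Nat.add g (Nat.mul 295147905179352825856 n)) (Nat.succ n))
        (Nat.div (Nat.add h (Nat.mul 295147905179352825856 n)) (Nat.succ n)) c' d')
        (mre a b a b) (mim a b a b)) hzz a1 (by linarith) r a b z ε hz ha (by nlinarith)
  obtain ⟨c, d, e3, e4⟩ := sqPow_spec (fun c' d' =>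
      k (Nat.div (Nat.add g (Nat.mul 295147905179352825856 n)) (Nat.succ n))
        (Nat.div (Nat.add h (Nat.mul 295147905179352825856 n)) (Nat.succ n)) c' d') e
        (mre a b a b) (mim a b a b) (z * z) (3 * ε) hzz a1 (by linarith) (by nlinarith)
  refine ⟨_, _, c, d, e1.trans e3, ?_, ?_⟩
  · have := div_spec (n := n) e2
    rw [← sq, ← pow_mul, ← pow_succ'] at this
    refine le_trans this ?_
    have hn0 : (0 : ℝ) < n + 1 := by positivity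
    have hn1 : (n : ℝ) + 1 ≤ 2 ^ 13 := by exact_mod_cast hn
    rw [div_add' _ _ _ hn0.ne', div_le_iff₀ hn0]
    have : 2 * (1 / ((n : ℝ) + 1)) * (128 * ε) * (n + 1) = 256 * ε := by field_simp; ring
    rw [this]
    nlinarith
  · rw [← sq, ← pow_mul] at e4
    nlinarith

end Pool.Agent.Lib.MP_5db4ad_nt
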