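import Pool.Agent.Lib.MP_5db4ad_nt.NumDefs

/-!
Programs for the final check, written for evaluation by the kernel.  Vectors are natural numbers
with slots of 64 bits.
-/

namespace Pool.Agent.Lib.MP_5db4ad_nt.S2

/-- lists of triples of natural numbers -/
inductive L3 : Type
  | nil : L3
  | cons : ℕ → ℕ → ℕ → L3 → L3

/-- the vector with `n` slots equal to one -/
def on (n : ℕ) : ℕ :=
  Nat.div (Nat.sub (Nat.shiftLeft (nat_lit 1) (Nat.mul (nat_lit 64) n)) (nat_lit 1))
    (nat_lit 18446744073709551615)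

/-- move a vector up by `s` slots -/
def up (X s : ℕ) : ℕ := Nat.shiftLeft X (Nat.mul (nat_lit 64) s)

/-- the slots `s, …, s + n - 1` of a vector -/
def sl (X s n : ℕ) : ℕ :=
  Nat.land (Nat.shiftRight X (Nat.mul (nat_lit 64) s))
    (Nat.sub (Nat.shiftLeft (nat_lit 1) (Nat.mul (nat_lit 64) n)) (nat_lit 1))

/-- divide every slot by `2 ^ s`; `o` is the vector of ones -/
def tr (o X s : ℕ) : ℕ :=
  Nat.land (Nat.shiftRight X s)
    (Nat.mul o (Nat.sub (Nat.shiftLeft (nat_lit 1) (Nat.sub (nat_lit 64) s)) (nat_lit 1)))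

/-- all slots of `X` are at most `c` -/
def lek (o X c : ℕ) : Bool :=
  Nat.beq (Nat.land (Nat.sub (Nat.mul o (Nat.add (nat_lit 9223372036854775808) c)) X)
    (Nat.mul o (nat_lit 9223372036854775808))) (Nat.mul o (nat_lit 9223372036854775808))

/-- all slots of `X` are below `2 ^ 32` -/
def rng (o X : ℕ) : Bool := Nat.beq (Nat.land X (Nat.mul o (nat_lit 4294967295))) X

/-- the sum of the slots -/
def sm (X : ℕ) : ℕ := Nat.mod X (nat_lit 18446744073709551615)

/-- cyclic convolution of two vectors of length `n` -/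
def cyc (X Y n : ℕ) : ℕ :=
  Nat.add (sl (Nat.mul X Y) (nat_lit 0) n) (Nat.shiftRight (Nat.mul X Y) (Nat.mul (nat_lit 64) n))

/-- conditional rotations: an entry `(b, c, s)` multiplies the slots in which bit `b` of `A` is set
by `(c + i s) / 2 ^ 26`; slots carry the offset `2 ^ 31` -/
noncomputable def rot {β : Type} (o A : ℕ) (k : ℕ → ℕ → β) (l : L3) : ℕ → ℕ → β :=
  L3.rec k (fun b c s _ ih X Y =>
    let m := Nat.mul (Nat.land (Nat.shiftRight A b) o) (nat_lit 274877906943)
    let K := Nat.mul o (Nat.mul (nat_lit 2147483648) (Nat.sub (Nat.add c s) (nat_lit 67108864)))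
    let X' := tr o (Nat.sub (Nat.add (Nat.mul X c)
      (Nat.mul (Nat.sub (Nat.mul o (nat_lit 4294967296)) Y) s)) K) (nat_lit 26)
    let Y' := tr o (Nat.sub (Nat.add (Nat.mul Y c) (Nat.mul X s)) K) (nat_lit 26)
    ih (Nat.xor X (Nat.land (Nat.xor X X') m)) (Nat.xor Y (Nat.land (Nat.xor Y Y') m))) l

/-- the rest of a table of rotations: bits `b - 1, …, 0`, each entry a square root of the one
before, `(c', s')` -/
noncomputable def rotOk2 (l : L3) : ℕ → ℕ → ℕ → Bool :=
  L3.rec (fun b _ _ => Nat.beq b 0) (fun a c s _ ih b c' s' =>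
    and (and (and (Nat.beq (a + 1) b) (Nat.ble 47000000 c))
        (and (and (Nat.ble c 67108864) (Nat.ble s 67108864)) (Nat.ble 67108864 (c + s))))
      (and (and (and (Nat.ble (c * c) (s * s + c' * 67108864 + 268435456))
            (Nat.ble (s * s + c' * 67108864) (c * c + 268435456)))
          (and (Nat.ble (2 * c * s) (s' * 67108864 + 268435456))
            (Nat.ble (s' * 67108864) (2 * c * s + 268435456))))
        (ih a c s))) l

/-- the table of rotations for phases in units of `2 ^ (-b - 2)` turns, from its tail -/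
def rotTab (b : ℕ) (l : L3) : L3 :=
  .cons (b + 1) 0 67108864 (.cons (b + 1) 0 67108864 (.cons b 0 67108864 l))

/-- slots `j + 1` -/
def ramp (o n : ℕ) : ℕ := sl (Nat.mul o o) (nat_lit 0) n

/-- slots `(j + 1) (j + 2) / 2` -/
def tri (o n : ℕ) : ℕ := sl (Nat.mul (ramp o n) o) (nat_lit 0) n

/-- `2 ^ 90` times the series of `log (1 + 2 / (x - 1)) / 2`; `p` runs through `2 ^ 90 / x ^ i` -/
noncomputable def ath (x2 f : ℕ) : ℕ → ℕ → ℕ → ℕ :=
  Nat.rec (fun _ _ s => s) (fun _ ih i p s =>
    Nat.rec s (fun _ _ => frc (Nat.add s (Nat.div p i)) fun s' => frc (Nat.div p x2) fun p' =>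
      ih (Nat.add i (nat_lit 2)) p' s') p) f

/-- primality test for odd `m` between 5 and `2 ^ 14` -/
def isq (m : ℕ) : Bool :=
  Bool.rec
    (Nat.beq (Nat.gcd m (nat_lit 4014476939333036189094441199026045136645885247730)) (nat_lit 1))
    (Nat.beq (Nat.land (Nat.shiftRight (nat_lit 170152392186162032610075049835446806688) m)
      (nat_lit 1)) (nat_lit 1))
    (Nat.ble m (nat_lit 127))

/-- the odd numbers `m + 2, …, m + 2 t` with a primality flag and `2 ^ 64 log2`; `s` is
`2 ^ 89 log m` -/
noncomputable def odds (t : ℕ) : ℕ → ℕ → L3 :=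
  Nat.rec (fun _ _ => L3.nil) (fun _ ih m s =>
    frc (Nat.succ m) fun x => frc (Nat.mul x x) fun x2 =>
    frc (Nat.div (nat_lit 1237940039285380274899124224) x) fun p =>
    frc (ath x2 (nat_lit 50) (nat_lit 1) p s) fun s' => frc (Nat.succ x) fun m' =>
    frc (Nat.shiftRight (Nat.mul s' (nat_lit 1744111284760651037637903)) (nat_lit 105)) fun g =>
    Bool.rec (L3.cons m' (nat_lit 0) g (ih m' s')) (L3.cons m' (nat_lit 1) g (ih m' s')) (isq m')) t

/-- keep the entries with flag one -/
noncomputable def flt (l : L3) : L3 :=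
  L3.rec L3.nil (fun a b c _ ih => Nat.rec ih (fun _ _ => L3.cons a b c ih) b) l

/-- evaluate a list -/
noncomputable def frl {β : Type} (l : L3) : (L3 → β) → β :=
  L3.rec (fun k => k L3.nil) (fun a b c _ ih k => ih fun t => k (L3.cons a b c t)) l

/-- products of `m` and `r` primes from the list that are below `B`, put in front of `acc` -/
noncomputable def dfs (w B r : ℕ) : L3 → ℕ → ℕ → L3 → L3 :=
  Nat.rec (fun _ m g acc => L3.cons m w g acc) (fun r ih ps m g acc =>
    L3.rec acc (fun p f q t ih2 =>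
      Bool.rec
        (frc (Nat.mul m p) fun m' => frc (Nat.add g q) fun g' => ih (L3.cons p f q t) m' g' ih2)
        acc (Nat.ble B (Nat.mul m (Nat.pow p (Nat.succ r))))) ps) r

/-- for every entry `(w, B)` the products of `w` primes from the list that are below `B` -/
noncomputable def enumA (ps : L3) (e : L) : L3 :=
  L.rec L3.nil (fun w B _ ih => dfs w B w ps (nat_lit 1) (nat_lit 0) ih) e

/-- number of prime factors and bound -/
def tabA : L :=
  .cons 0 16384 (.cons 1 16384 (.cons 2 16384 (.cons 3 32768 (.cons 4 65536 (.cons 5 262144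
  (.cons 6 1048576 (.cons 7 4194304 (.cons 8 8388608 (.cons 9 33554432 (.cons 10 268435456
  (.cons 11 1073741824 (.cons 12 8589934592 (.cons 13 68719476736 (.cons 14 68719476736
  (.cons 15 68719476736 .nil)))))))))))))))

/-- the list of `(m, Ω m, 2 ^ 64 log2 m)` for `m` in `Aset` -/
noncomputable def listA : L3 := frl (flt (odds 8191 1 0)) fun ps => enumA ps tabA

/-- split a list by bit `d` of the first entries -/
noncomputable def part {β : Type} (d : ℕ) (l : L) : (L → L → β) → β :=
  L.rec (fun k => k L.nil L.nil) (fun c v _ ih k => ih fun a b =>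
    Nat.rec (k (L.cons c v a) b) (fun _ _ => k a (L.cons c v b))
      (Nat.land (Nat.shiftRight c d) (nat_lit 1))) l

/-- the vector with `v` added in slot `c % 2 ^ d` for every entry `(c, v)` -/
noncomputable def asm (d : ℕ) : L → ℕ :=
  Nat.rec (fun l => L.rec (nat_lit 0) (fun _ v _ ih => Nat.add v ih) l) (fun d ih l =>
    L.rec (nat_lit 0) (fun c v t _ =>
      L.rec (up v (Nat.mod c (Nat.shiftLeft (nat_lit 2) d))) (fun _ _ _ _ =>
        part d l fun a b => Nat.add (ih a) (up (ih b) (Nat.shiftLeft (nat_lit 1) d))) t) l) d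

/-- sum of the second entries and length -/
noncomputable def tot {β : Type} (k : ℕ → ℕ → β) (l : L) : ℕ → ℕ → β :=
  L.rec k (fun _ v _ ih a n => frc (Nat.add a v) fun a' => frc (Nat.succ n) fun n' => ih a' n') l

/-- cells and weights of the jumps -/
noncomputable def jumps (lm : ℕ) (l : L3) : L :=
  L3.rec L.nil (fun m w g _ ih =>
    frc (Nat.add (Nat.shiftRight g (Nat.sub (nat_lit 64) lm)) (Nat.shiftLeft w lm)) fun c =>
    frc (Nat.div (Nat.shiftLeft (nat_lit 1073741824) w) m) fun v => L.cons c v ih) l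

/-- cells and weights of the shifts by `i log2 3`; `v` is `2 ^ (24 + i) / 3 ^ i` -/
noncomputable def shifts (lm t : ℕ) : ℕ → L :=
  Nat.rec (fun _ => L.nil) (fun _ ih i =>
    frc (Nat.add (Nat.succ (Nat.shiftRight (Nat.mul i (nat_lit 29237397617229858719))
      (Nat.sub (nat_lit 64) lm))) (Nat.shiftLeft i lm)) fun c =>
    frc (Nat.div (Nat.shiftLeft (nat_lit 16777216) i) (Nat.pow (nat_lit 3) i)) fun v =>
    L.cons c v (ih (Nat.succ i))) t

/-- geometric progression by doubling; the entries are `(number of slots, ratio * 2 ^ 28)` -/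
noncomputable def geoR (l : L) : ℕ → ℕ :=
  L.rec (fun E => E) (fun n r _ ih E =>
    ih (Nat.add E (up (tr (on n) (Nat.mul E r) (nat_lit 28)) n))) l

/-- the table of ratios is right: `r ≤ 2 ^ 28 * 2 ^ (-n / M) < r + 1`, and `n` doubles -/
noncomputable def geoOk (M : ℕ) (l : L) : ℕ → Bool :=
  L.rec (fun n => Nat.beq n M) (fun n r _ ih n' =>
    let N := Nat.div M n
    let T := Nat.shiftLeft (nat_lit 1) (Nat.sub (Nat.mul (nat_lit 28) N) (nat_lit 1))
    and (and (Nat.beq n n') (Nat.beq (Nat.mul N n) M))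
      (and (and (Nat.ble (Nat.pow r N) T) (Nat.ble T (Nat.pow (Nat.succ r) N)))
        (ih (Nat.add n n)))) l

/-- upper envelope of `Pf` over windows of cells, scale `2 ^ 26`, offset `2 ^ 26` -/
noncomputable def envQ (M : ℕ) (rl : L) : ℕ :=
  let E := tr (on M) (geoR rl (nat_lit 45812984490)) (nat_lit 10)
  Nat.sub (Nat.add (Nat.add (Nat.add (Nat.mul (on (Nat.add M M)) (nat_lit 67108880))
    (Nat.mul (on (nat_lit 2)) (nat_lit 44739243))) (up E (nat_lit 2)))
    (up (Nat.mul (on (nat_lit 3)) (nat_lit 44739243)) (Nat.sub (Nat.add M M) (nat_lit 3))))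
    (up (Nat.shiftRight E (nat_lit 320)) (Nat.add M (nat_lit 2)))

/-- the vector of the shifts -/
noncomputable def shv (lm : ℕ) : ℕ := asm (Nat.succ lm) (shifts lm (nat_lit 36) (nat_lit 0))

/-- upper envelope of the shifted sums, scale `2 ^ 32`; `J` is the vector of the jumps -/
noncomputable def envH (lm : ℕ) (rl : L) (J : ℕ) : ℕ :=
  let M := Nat.shiftLeft (nat_lit 1) lm
  let o := on (Nat.add M M)
  tr o (cyc (tr o (cyc J (envQ M rl) (Nat.add M M)) (nat_lit 24)) (shv lm) (Nat.add M M))
    (nat_lit 24)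

/-- the vector `J` and the number `V` are the vector and the total weight of the jumps -/
noncomputable def jmpOk (lm : ℕ) (lA : L3) (J V : ℕ) : Bool :=
  tot (fun a n => and (and (Nat.beq a V) (Nat.ble n (nat_lit 12000)))
    (and (Nat.ble V (nat_lit 12884901888)) (Nat.beq (asm (Nat.succ lm) (jumps lm lA)) J)))
    (jumps lm lA) (nat_lit 0) (nat_lit 0)

/-- upper bounds for the absolute values of the slots, which carry the offset `2 ^ 31` -/
def absv (o X : ℕ) : ℕ :=
  Nat.add o (Nat.land (Nat.xor X (Nat.mul (Nat.xor o (Nat.land (Nat.shiftRight X (nat_lit 31)) o))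
    (nat_lit 2147483647))) (Nat.mul o (nat_lit 2147483647)))

/-- `∑ (i + 1) ^ 2 * (sum of segment i)` over `t` segments of length `n` -/
noncomputable def wsum (X n t : ℕ) : ℕ :=
  Nat.rec (nat_lit 0) (fun i ih =>
    Nat.add ih (Nat.mul (Nat.mul (Nat.succ i) (Nat.succ i)) (sm (sl X (Nat.mul i n) n)))) t

/-- a vector with offset `2 ^ 31` as an integer -/
def sg (o X : ℕ) : ℤ := Int.subNatNat X (Nat.mul o (nat_lit 2147483648))

/-- slots `K - 1, …, K - 1 + n` of a signed product, divided by `2 ^ 26`, with offset `2 ^ 31` -/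
def bk (K n : ℕ) (P : ℤ) : ℕ :=
  tr (on (Nat.succ n)) (sl (Int.toNat (Int.add P (Int.ofNat
    (Nat.mul (on (Nat.add n (Nat.add K K))) (nat_lit 144115188075855872)))))
    (Nat.sub K (nat_lit 1)) (Nat.succ n)) (nat_lit 26)

/-- half of the trigonometric sum at the points `c, …, c + n`, scale `2 ^ 32`, offset `2 ^ 31`;
`r1` and `r2` are the tables of rotations for the two phases -/
noncomputable def synth (M K c n BR BI : ℕ) (r1 r2 : L3) : ℕ :=
  let o := on (Nat.add n K)
  let d := Nat.sub (Nat.succ (Nat.add c M)) K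
  let A := Nat.add (Nat.add (Nat.mul (tri o (Nat.add n K)) (nat_lit 2))
    (Nat.mul (ramp o (Nat.add n K)) (Nat.sub (Nat.add d d) (nat_lit 3))))
    (Nat.mul o (Nat.mul (Nat.sub d (nat_lit 1)) (Nat.sub d (nat_lit 1))))
  rot o A (fun C S =>
    let o' := on (Nat.succ n)
    let a := Nat.sub (Nat.add c (Nat.add M M)) (nat_lit 1)
    let A' := Nat.add (Nat.add (tri o' (Nat.succ n)) (Nat.mul (ramp o' (Nat.succ n)) a))
      (Nat.mul o' (Nat.div (Nat.mul a (Nat.succ a)) (nat_lit 2)))
    let br := sg (on K) BR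
    let bi := sg (on K) BI
    rot o' A' (fun X _ => X) r2
      (bk K n (Int.add (Int.mul br (sg o C)) (Int.mul bi (sg o S))))
      (bk K n (Int.sub (Int.mul bi (sg o C)) (Int.mul br (sg o S)))))
    r1 (Nat.mul o (nat_lit 2214592512)) (Nat.mul o (nat_lit 2147483648))

/-- the check on the cells `c, …, c + n - 1` and `c + M, …, c + M + n - 1` -/
noncomputable def lowChk (lm K c n BR BI : ℕ) (rl : L) (r1 r2 : L3) (J V wb thr : ℕ) : Bool :=
  let M := Nat.shiftLeft (nat_lit 1) lm
  let ab := Nat.add (absv (on K) BR) (absv (on K) BI)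
  let F := synth M K c n BR BI r1 r2
  let o := on n
  let F0 := Nat.mul (sl F (nat_lit 0) n) (nat_lit 2)
  let F1 := Nat.mul (sl F (nat_lit 1) n) (nat_lit 2)
  let G := Nat.mul o (nat_lit 8589934592)
  let H0 := sl (envH lm rl J) c n
  let H1 := sl (envH lm rl J) (Nat.add c M) n
  let t := Nat.add (Nat.add thr (nat_lit 4294967296))
    (Nat.shiftRight (Nat.mul (Nat.mul V (nat_lit 4)) (nat_lit 50331606)) (nat_lit 24))
  and (and (and (Nat.ble (sm ab) (nat_lit 900000000))
        (Nat.ble (wsum ab (Nat.div K (nat_lit 32)) (nat_lit 32)) wb))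
      (and (rng (on K) BR) (rng (on K) BI)))
    (and (and (lek o (Nat.add H0 F0) t) (lek o (Nat.add H0 F1) t))
      (and (lek o (Nat.add H1 (Nat.sub G F0)) t) (lek o (Nat.add H1 (Nat.sub G F1)) t)))

/-- binary trees of vectors -/
inductive Tr : Type
  | leaf : ℕ → Tr
  | node : ℕ → Tr → Tr → Tr

/-- the vector held by a tree; the number at a node is the position, in bits, of the right part -/
noncomputable def Tr.val (t : Tr) : ℕ :=
  Tr.rec (fun v => v) (fun s _ _ a b => Nat.add a (Nat.shiftLeft b s)) t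

end Pool.Agent.Lib.MP_5db4ad_nt.S2
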