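import Pool.Agent.Lib.MP_5db4ad_nt.S2Defs2
import Pool.Agent.Lib.MP_5db4ad_nt.S2LowDefs

/-!
Meaning of the programs of the final check: definitions and interface statements.
-/

namespace Pool.Agent.Lib.MP_5db4ad_nt.S2

open Finset
open scoped Real

noncomputable section

/-- entries of a list of triples -/
def L3.toList : L3 → List (ℕ × ℕ × ℕ)
  | .nil => []
  | .cons a b c t => (a, b, c) :: t.toList

/-- entries of a list of pairs -/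
def toL : L → List (ℕ × ℕ)
  | .nil => []
  | .cons a b t => (a, b) :: toL t

/-- the vector with slots `f 0, …, f (n - 1)` -/
def pv (n : ℕ) (f : ℕ → ℕ) : ℕ := ∑ j ∈ range n, f j * 2 ^ (64 * j)

/-- the same with signed slots -/
def iv (n : ℕ) (f : ℕ → ℤ) : ℤ := ∑ j ∈ range n, f j * 2 ^ (64 * j)

/-- slot `j` of `X` -/
def lane (X j : ℕ) : ℕ := X / 2 ^ (64 * j) % 2 ^ 64

/-- `exp (2 π i x)` -/
def ee (x : ℝ) : ℂ := Complex.exp (((2 * π * x : ℝ) : ℂ) * Complex.I)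

/-- the complex number held by two slots with offset `2 ^ 31` -/
def cx (a b : ℕ) : ℂ := ⟨(a : ℝ) - 2 ^ 31, (b : ℝ) - 2 ^ 31⟩

/-- `X` and `Y` hold the numbers `z j` up to `e` -/
def VC (n X Y : ℕ) (z : ℕ → ℂ) (e : ℝ) : Prop :=
  ∃ f g : ℕ → ℕ, X = pv n f ∧ Y = pv n g ∧ ∀ j < n, ‖cx (f j) (g j) - z j‖ ≤ e

/-- `Pf` in units of cells -/
def pc (M : ℕ) (y : ℝ) : ℝ := Pf (y / M * Real.log 2)

/-- the sum over a list of `(m, w, g)` -/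
def AtL (l : L3) (u : ℝ) : ℝ :=
  (l.toList.map fun e => (-2 : ℝ) ^ e.2.1 / e.1 * Pf (u - Real.log e.1)).sum

/-- the shifted sums -/
def At3 (l : L3) (u : ℝ) : ℝ := ∑' i : ℕ, (-2 / 3) ^ i * AtL l (u - i * Real.log 3)

/-- the third entries are logarithms of the first -/
def LogOk (l : L3) (δ : ℝ) : Prop :=
  ∀ e ∈ l.toList, 1 ≤ e.1 ∧ |(e.2.2 : ℝ) / 2 ^ 64 - Real.log e.1 / Real.log 2| ≤ δ

/-- the trigonometric sum held by the data, at the point `y` in units of cells -/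
def fB (M K BR BI : ℕ) (y : ℝ) : ℝ := ∑ k ∈ range K,
  2 * (cx (lane BR k) (lane BI k) * ee (-(k : ℝ) ^ 2 / (2 * M)) * ee ((2 * k + 1) * y / (2 * M))).re

def StOdds : Prop := ∀ t ≤ 8191,
  (odds t 1 0).toList.map (·.1) = (List.range t).map (fun i => 2 * i + 3) ∧
  LogOk (odds t 1 0) (1 / 2 ^ 62) ∧
  ∀ e ∈ (odds t 1 0).toList, e.2.1 = if 5 ≤ e.1 ∧ e.1.Prime then 1 else 0

def StListA : Prop := (listA.toList.map (·.1)).Nodup ∧ (∀ m, m ∈ listA.toList.map (·.1) ↔ m ∈ Aset) ∧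
  LogOk listA (1 / 2 ^ 58) ∧ ∀ e ∈ listA.toList, e.2.1 = ArithmeticFunction.cardFactors e.1

def StRot : Prop := ∀ (n b X Y : ℕ) (l : L3) (a : ℕ → ℕ) (z : ℕ → ℂ) (e R : ℝ),
  rotOk2 l b 0 67108864 = true → b ≤ 30 → (∀ j < n, a j < 2 ^ 64) → VC n X Y z e →
  (∀ j < n, ‖z j‖ ≤ R) → R ≤ 10 ^ 9 → e + (b + 3) * (R / 2 ^ 21 + 2) ≤ R →
  ∃ X' Y', (∀ (β : Type) (k : ℕ → ℕ → β), rot (on n) (pv n a) k (rotTab b l) X Y = k X' Y') ∧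
    VC n X' Y' (fun j => z j * ee (a j / 2 ^ (b + 2))) (e + (b + 3) * (R / 2 ^ 21 + 2))

def StSynth : Prop := ∀ (lm K c n : ℕ) (br bi : ℕ → ℕ) (l1 l2 : L3), 5 ≤ lm → lm ≤ 21 → 1 ≤ K →
  K < 2 ^ lm → c ≤ 2 ^ lm → n ≤ 2 ^ lm → rotOk2 l1 (lm - 1) 0 67108864 = true →
  rotOk2 l2 (lm - 2) 0 67108864 = true →
  ∑ k ∈ range K, (|(br k : ℝ) - 2 ^ 31| + |(bi k : ℝ) - 2 ^ 31|) ≤ 900000000 →
  ∃ f : ℕ → ℕ, synth (2 ^ lm) K c n (pv K br) (pv K bi) (rotTab (lm - 1) l1) (rotTab (lm - 2) l2) =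
    pv (n + 1) f ∧ ∀ i ≤ n, f i ≤ 2 ^ 32 ∧ |(f i : ℝ) - 2 ^ 31 - (∑ k ∈ range K, cx (br k) (bi k) *
      ee (-(k : ℝ) ^ 2 / (2 * 2 ^ lm)) * ee ((2 * k + 1) * (c + i) / (2 * 2 ^ lm))).re| ≤ 22000

def StEnvQ : Prop := ∀ (lm : ℕ) (rl : L), 5 ≤ lm → lm ≤ 21 → geoOk (2 ^ lm) rl 1 = true →
  ∃ q : ℕ → ℕ, envQ (2 ^ lm) rl = pv (2 * 2 ^ lm) q ∧ ∀ d < 2 * 2 ^ lm, q d ≤ 112000000 ∧
    22000000 ≤ q d ∧ ∀ y : ℝ, (d : ℝ) - 5 / 4 ≤ y → y ≤ d + 9 / 4 →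
      pc (2 ^ lm) y ≤ ((q d : ℝ) - 2 ^ 26) / 2 ^ 26

def StEnvH : Prop := ∀ (lm J V : ℕ) (rl : L) (l : L3), 5 ≤ lm → lm ≤ 21 →
  geoOk (2 ^ lm) rl 1 = true → LogOk l (1 / 2 ^ 58) → jmpOk lm l J V = true →
  ∃ h : ℕ → ℕ, envH lm rl J = pv (2 * 2 ^ lm) h ∧ ∀ c < 2 * 2 ^ lm, h c < 2 ^ 40 ∧
    ∀ y : ℝ, (c : ℝ) ≤ y → y ≤ c + 1 → At3 l (y / 2 ^ lm * Real.log 2) ≤
      ((h c : ℝ) - 4 * V * 50331606 / 2 ^ 24) / 2 ^ 32 + 0.00006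

def StChord : Prop := ∀ (a : ℂ) (w s : ℝ), 0 ≤ s → s ≤ 1 →
  (a * ee (w * s)).re ≤ (1 - s) * a.re + s * (a * ee w).re + ‖a‖ * (2 * π * w) ^ 2 / 8

def StLow : Prop := ∀ (lm K c n BR BI J V wb thr : ℕ) (rl : L) (l1 l2 l : L3), 5 ≤ lm → lm ≤ 21 →
  32 ∣ K → 1 ≤ K → K < 2 ^ lm → c + n ≤ 2 ^ lm → thr ≤ 2 ^ 33 →
  rotOk2 l1 (lm - 1) 0 67108864 = true → rotOk2 l2 (lm - 2) 0 67108864 = true →
  geoOk (2 ^ lm) rl 1 = true → LogOk l (1 / 2 ^ 58) → jmpOk lm l J V = true →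
  lowChk lm K c n BR BI rl (rotTab (lm - 1) l1) (rotTab (lm - 2) l2) J V wb thr = true →
  ∀ y : ℝ, 1 ≤ n → ((c : ℝ) ≤ y ∧ y ≤ c + n ∨ (c : ℝ) + 2 ^ lm ≤ y ∧ y ≤ c + 2 ^ lm + n) →
    At3 l (y / 2 ^ lm * Real.log 2) + fB (2 ^ lm) K BR BI y / 2 ^ 32 ≤
      (thr + 44000 + wb * (π * K / (16 * 2 ^ lm)) ^ 2 / 4) / 2 ^ 32 + 0.00006

/-- the data approximate the low coefficients -/
def LowData (M K BR BI : ℕ) (ε : ℝ) : Prop :=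
  ∑ k ∈ range K, ‖om k * (Gf (sk k) - As k) / (1 + 2 * (3 : ℂ) ^ (-sk k)) * ee (k ^ 2 / (2 * M)) -
    cx (lane BR k) (lane BI k) / 2 ^ 32‖ ≤ ε

/-- bound for the high frequencies -/
def High (K : ℕ) (ε : ℝ) : Prop := ∀ u : ℝ, |∑ k ∈ Ico K (2 ^ 23),
  2 * (om k * (Gf (sk k) - As k) / (1 + 2 * (3 : ℂ) ^ (-sk k)) * ex k u).re| ≤ ε

/-- the same without the factor at the prime 3 -/
def High3 (K : ℕ) (ε : ℝ) : Prop := ∀ u : ℝ,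
  |∑ k ∈ Ico K (2 ^ 23), 2 * (om k * (Gf (sk k) - As k) * ex k u).re| ≤ ε

def StHigh3 : Prop := ∀ (K : ℕ) (ε : ℝ), High3 K ε → High K (3 * ε)

def StLowFin : Prop := ∀ (M K BR BI : ℕ) (c ε1 ε2 : ℝ), 1 ≤ M → K ≤ 2 ^ 23 →
  (∀ y : ℝ, 0 ≤ y → y ≤ 2 * M → At3 listA (y / M * Real.log 2) + fB M K BR BI y / 2 ^ 32 ≤ c) →
  LowData M K BR BI ε1 → High K ε2 → StNum2 (c + 2 * ε1 + ε2)

end

end Pool.Agent.Lib.MP_5db4ad_nt.S2
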