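import Pool.Agent.Lib.MP_5db4ad_nt.EqFix
import Pool.Agent.Lib.MP_5db4ad_nt.S2LowSt
import Pool.Agent.Lib.MP_5db4ad_nt.NumSpec

/-!
The enumeration of the integers treated exactly.
-/

namespace Pool.Agent.Lib.MP_5db4ad_nt.S2

open ArithmeticFunction

namespace Enum

lemma frl_eq {β : Type} (l : L3) (k : L3 → β) : frl l k = k l := by
  induction l generalizing k with
  | nil => rfl
  | cons a b c t ih => exact ih fun t => k (L3.cons a b c t)

lemma flt_toList (l : L3) : (flt l).toList = l.toList.filter fun e => e.2.1 ≠ 0 := by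
  induction l with
  | nil => rfl
  | cons a b c t ih =>
    cases b with
    | zero =>
      have h : flt (L3.cons a 0 c t) = flt t := rfl
      rw [h, ih]
      simp [L3.toList]
    | succ b =>
      have h : flt (L3.cons a (b + 1) c t) = L3.cons a (b + 1) c (flt t) := rfl
      rw [h]
      simp [L3.toList, ih]

lemma dfs_zero (w B : ℕ) (ps : L3) (m g : ℕ) (acc : L3) :
    dfs w B 0 ps m g acc = L3.cons m w g acc := rfl

lemma dfs_nil (w B r m g : ℕ) (acc : L3) : dfs w B (r + 1) L3.nil m g acc = acc := rfl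

lemma dfs_cons (w B r p f q : ℕ) (t : L3) (m g : ℕ) (acc : L3) :
    dfs w B (r + 1) (L3.cons p f q t) m g acc = if B ≤ m * p ^ (r + 1) then acc else
      dfs w B r (L3.cons p f q t) (m * p) (g + q) (dfs w B (r + 1) t m g acc) := by
  have h : dfs w B (r + 1) (L3.cons p f q t) m g acc = Bool.rec
      (frc (Nat.mul m p) fun m' => frc (Nat.add g q) fun g' =>
        dfs w B r (L3.cons p f q t) m' g' (dfs w B (r + 1) t m g acc))
      acc (Nat.ble B (m * p ^ (r + 1))) := rfl
  rw [h, frc_eq, frc_eq]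
  split_ifs with h1
  · rw [Nat.ble_eq_true_of_le h1]
  · have h2 : Nat.ble B (m * p ^ (r + 1)) = false := by
      rw [← Bool.not_eq_true, Nat.ble_eq]
      exact h1
    rw [h2]
    rfl

lemma pow_le {n p : ℕ} (hn : n ≠ 0) (h : ∀ q, q.Prime → q ∣ n → p ≤ q) :
    p ^ cardFactors n ≤ n := by
  rw [cardFactors_apply]
  conv_rhs => rw [← Nat.prod_primeFactorsList hn]
  exact List.pow_card_le_prod _ _ fun x hx =>
    h x (Nat.prime_of_mem_primeFactorsList hx) (Nat.dvd_of_mem_primeFactorsList hx)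

/-- the error of a logarithm -/
def Lg (m g : ℕ) (ε : ℝ) : Prop := |(g : ℝ) / 2 ^ 64 - Real.log m / Real.log 2| ≤ ε

lemma Lg.mul {m g p q : ℕ} {ε δ : ℝ} (hm : m ≠ 0) (hp : p ≠ 0) (h1 : Lg m g ε) (h2 : Lg p q δ) :
    Lg (m * p) (g + q) (ε + δ) := by
  unfold Lg at *
  have e : ((g + q : ℕ) : ℝ) / 2 ^ 64 - Real.log ((m * p : ℕ) : ℝ) / Real.log 2 =
      ((g : ℝ) / 2 ^ 64 - Real.log m / Real.log 2) +
        ((q : ℝ) / 2 ^ 64 - Real.log p / Real.log 2) := by
    rw [Nat.cast_mul, Real.log_mul (Nat.cast_ne_zero.2 hm) (Nat.cast_ne_zero.2 hp), Nat.cast_add]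
    ring
  rw [e]
  exact (abs_add_le _ _).trans (add_le_add h1 h2)

/-- the new entries put in front of the accumulator -/
def Spec (w B r : ℕ) (P : List ℕ) (m : ℕ) (ε : ℝ) (new : List (ℕ × ℕ × ℕ)) : Prop :=
  (new.map (·.1)).Nodup ∧
  (∀ x, x ∈ new.map (·.1) ↔ ∃ n, n ≠ 0 ∧ x = m * n ∧ x < B ∧ cardFactors n = r ∧
    ∀ q, q.Prime → q ∣ n → q ∈ P) ∧
  ∀ e ∈ new, e.2.1 = w ∧ Lg e.1 e.2.2 ε

/-- an increasing list of primes with logarithms -/
def Ps (l : L3) (δ : ℝ) : Prop :=
  (l.toList.map (·.1)).Pairwise (· < ·) ∧ ∀ e ∈ l.toList, e.1.Prime ∧ Lg e.1 e.2.2 δ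

lemma Ps.tail {p f q : ℕ} {t : L3} {δ : ℝ} (h : Ps (L3.cons p f q t) δ) : Ps t δ := by
  refine ⟨?_, fun e he => h.2 e (List.mem_cons_of_mem _ he)⟩
  have := h.1
  simp only [L3.toList, List.map_cons, List.pairwise_cons] at this
  exact this.2

lemma dfs_spec (w B : ℕ) (δ : ℝ) (r : ℕ) : ∀ (ps : L3) (m g : ℕ) (ε : ℝ) (acc : L3), Ps ps δ →
    m ≠ 0 → (r = 0 → m < B) → Lg m g ε →
    ∃ new, (dfs w B r ps m g acc).toList = new ++ acc.toList ∧
      Spec w B r (ps.toList.map (·.1)) m (ε + r * δ) new := by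
  induction r with
  | zero =>
    intro ps m g ε acc _ hm hB hg
    refine ⟨[(m, w, g)], rfl, by simp, fun x => ?_, fun e he => ?_⟩
    · simp only [List.map_cons, List.map_nil, List.mem_singleton]
      constructor
      · rintro rfl
        exact ⟨1, one_ne_zero, (mul_one _).symm, hB rfl, cardFactors_one,
          fun q hq h1 => absurd (Nat.dvd_one.1 h1) hq.ne_one⟩
      · rintro ⟨n, hn, rfl, -, h0, -⟩
        rcases cardFactors_eq_zero_iff_eq_zero_or_one.1 h0 with h | h
        · exact absurd h hn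
        · rw [h, mul_one]
    · rw [List.mem_singleton] at he
      subst he
      exact ⟨rfl, by simpa using hg⟩
  | succ r ihr =>
    intro ps m g ε acc hps hm _ hg
    induction ps with
    | nil =>
      refine ⟨[], rfl, by simp, fun x => ?_, by simp⟩
      simp only [List.map_nil, List.not_mem_nil, false_iff, L3.toList]
      rintro ⟨n, hn, -, -, h0, h1⟩
      have hn1 : n ≠ 1 := by
        rintro rfl
        simp at h0
      exact h1 _ (Nat.minFac_prime hn1) (Nat.minFac_dvd n)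
    | cons p f q t iht =>
      have hp : p.Prime ∧ Lg p q δ := hps.2 (p, f, q) (by simp [L3.toList])
      have hlt : ∀ x ∈ t.toList.map (·.1), p < x := by
        have := hps.1
        simp only [L3.toList, List.map_cons, List.pairwise_cons] at this
        exact this.1
      have hP : (L3.cons p f q t).toList.map (·.1) = p :: t.toList.map (·.1) := rfl
      rw [dfs_cons]
      split_ifs with hB
      · refine ⟨[], rfl, by simp, fun x => ?_, by simp⟩
        simp only [List.map_nil, List.not_mem_nil, false_iff]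
        rintro ⟨n, hn, rfl, h2, h0, h1⟩
        have h3 : p ^ cardFactors n ≤ n := pow_le hn fun q' hq' hd => by
          have := h1 q' hq' hd
          rw [hP, List.mem_cons] at this
          rcases this with h | h
          · exact h.ge
          · exact (hlt _ h).le
        rw [h0] at h3
        exact absurd (hB.trans (Nat.mul_le_mul_left m h3)) (not_le.2 h2)
      · obtain ⟨n2, e2, a2, b2, c2⟩ := iht hps.tail
        obtain ⟨n1, e1, a1, b1, c1⟩ := ihr (L3.cons p f q t) (m * p) (g + q) (ε + δ)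
          (dfs w B (r + 1) t m g acc) hps (mul_ne_zero hm hp.1.ne_zero)
          (by
            rintro rfl
            simpa using hB) (hg.mul hm hp.1.ne_zero hp.2)
        refine ⟨n1 ++ n2, by rw [e1, e2, List.append_assoc], ?_, fun x => ?_, fun e he => ?_⟩
        · rw [List.map_append, List.nodup_append]
          refine ⟨a1, a2, fun x hx y hy hxy => ?_⟩
          obtain ⟨u, -, rfl, -, -, -⟩ := (b1 x).1 hx
          obtain ⟨v, -, rfl, -, -, hv⟩ := (b2 y).1 hy
          rw [mul_assoc] at hxy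
          have h4 : p * u = v := Nat.eq_of_mul_eq_mul_left (Nat.pos_of_ne_zero hm) hxy
          exact lt_irrefl _ (hlt _ (hv p hp.1 ⟨u, h4.symm⟩))
        · rw [List.map_append, List.mem_append, b1, b2, hP]
          constructor
          · rintro (⟨u, hu, rfl, h2, h0, h1⟩ | ⟨u, hu, rfl, h2, h0, h1⟩)
            · refine ⟨p * u, mul_ne_zero hp.1.ne_zero hu, mul_assoc _ _ _, h2, ?_,
                fun q' hq' hd => ?_⟩
              · rw [cardFactors_mul hp.1.ne_zero hu, cardFactors_apply_prime hp.1, h0, add_comm]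
              · rcases (Nat.Prime.dvd_mul hq').1 hd with h | h
                · rw [(Nat.prime_dvd_prime_iff_eq hq' hp.1).1 h]
                  exact List.mem_cons_self
                · exact h1 q' hq' h
            · exact ⟨u, hu, rfl, h2, h0, fun q' hq' hd => List.mem_cons_of_mem _ (h1 q' hq' hd)⟩
          · rintro ⟨n, hn, rfl, h2, h0, h1⟩
            by_cases hd : p ∣ n
            · obtain ⟨u, rfl⟩ := hd
              have hu : u ≠ 0 := right_ne_zero_of_mul hn
              refine Or.inl ⟨u, hu, (mul_assoc _ _ _).symm, h2, ?_,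
                fun q' hq' hd => h1 q' hq' (hd.mul_left p)⟩
              rw [cardFactors_mul hp.1.ne_zero hu, cardFactors_apply_prime hp.1] at h0
              omega
            · refine Or.inr ⟨n, hn, rfl, h2, h0, fun q' hq' hd' => ?_⟩
              rcases List.mem_cons.1 (h1 q' hq' hd') with h | h
              · exact absurd (h ▸ hd') hd
              · exact h
        · rcases List.mem_append.1 he with h | h
          · refine ⟨(c1 e h).1, ?_⟩
            have := (c1 e h).2
            rwa [show ε + δ + (r : ℝ) * δ = ε + ((r + 1 : ℕ) : ℝ) * δ by push_cast; ring] at this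
          · exact c2 e h

lemma enum_spec (ps : L3) (δ : ℝ) (hδ : 0 ≤ δ) (hps : Ps ps δ) (W : ℕ) (e : L) :
    ((toL e).map (·.1)).Nodup → (∀ z ∈ toL e, z.1 ≤ W ∧ 1 < z.2) →
    ((enumA ps e).toList.map (·.1)).Nodup ∧
    (∀ x, x ∈ (enumA ps e).toList.map (·.1) ↔ x ≠ 0 ∧
      (∀ q, q.Prime → q ∣ x → q ∈ ps.toList.map (·.1)) ∧
      ∃ B, (cardFactors x, B) ∈ toL e ∧ x < B) ∧
    ∀ z ∈ (enumA ps e).toList, z.2.1 = cardFactors z.1 ∧ Lg z.1 z.2.2 (W * δ) := by
  induction e with
  | nil =>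
    intro _ _
    have h : (enumA ps L.nil).toList = [] := rfl
    rw [h]
    simp [toL]
  | cons w B t ih =>
    intro h1 h2
    simp only [toL, List.map_cons, List.nodup_cons] at h1
    obtain ⟨a2, b2, c2⟩ := ih h1.2 fun z hz => h2 z (List.mem_cons_of_mem _ hz)
    have hw := h2 (w, B) (by simp [toL])
    have h : enumA ps (L.cons w B t) = dfs w B w ps 1 0 (enumA ps t) := rfl
    obtain ⟨n1, e1, a1, b1, c1⟩ := dfs_spec w B δ w ps 1 0 0 (enumA ps t) hps one_ne_zero
      (fun _ => hw.2) (by simp [Lg])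
    rw [h, e1]
    refine ⟨?_, fun x => ?_, fun z hz => ?_⟩
    · rw [List.map_append, List.nodup_append]
      refine ⟨a1, a2, fun x hx y hy hxy => ?_⟩
      obtain ⟨u, -, rfl, -, hu, -⟩ := (b1 x).1 hx
      obtain ⟨-, -, B', hB', -⟩ := (b2 y).1 hy
      rw [← hxy, one_mul, hu] at hB'
      exact h1.1 (List.mem_map.2 ⟨_, hB', rfl⟩)
    · rw [List.map_append, List.mem_append, b1, b2]
      simp only [toL, List.mem_cons, Prod.mk.injEq, one_mul]
      constructor
      · rintro (⟨u, hu, rfl, h3, h4, h5⟩ | ⟨h3, h4, B', h5, h6⟩)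
        · exact ⟨hu, h5, B, Or.inl ⟨h4, rfl⟩, h3⟩
        · exact ⟨h3, h4, B', Or.inr h5, h6⟩
      · rintro ⟨h3, h4, B', ⟨h5, rfl⟩ | h5, h6⟩
        · exact Or.inl ⟨x, h3, rfl, h6, h5, h4⟩
        · exact Or.inr ⟨h3, h4, B', h5, h6⟩
    · rcases List.mem_append.1 hz with h3 | h3
      · obtain ⟨u, -, h4, -, hu, -⟩ := (b1 z.1).1 (List.mem_map.2 ⟨z, h3, rfl⟩)
        refine ⟨by rw [(c1 z h3).1, h4, one_mul, hu], (c1 z h3).2.trans ?_⟩
        rw [zero_add]
        exact mul_le_mul_of_nonneg_right (Nat.cast_le.2 hw.1) hδ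
      · exact c2 z h3

lemma primes_spec (O : L3) (t : ℕ) (δ : ℝ)
    (h1 : O.toList.map (·.1) = (List.range t).map (fun i => 2 * i + 3)) (h2 : LogOk O δ)
    (h3 : ∀ e ∈ O.toList, e.2.1 = if 5 ≤ e.1 ∧ e.1.Prime then 1 else 0) :
    Ps (flt O) δ ∧ ∀ p, p.Prime → (p ∈ (flt O).toList.map (·.1) ↔ 5 ≤ p ∧ p < 2 * t + 3) := by
  have hm : ∀ e, e ∈ (flt O).toList ↔ e ∈ O.toList ∧ 5 ≤ e.1 ∧ e.1.Prime := by
    intro e
    rw [flt_toList, List.mem_filter]
    refine and_congr_right fun he => ?_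
    rw [h3 e he]
    split_ifs with h <;> simp [h]
  refine ⟨⟨?_, fun e he => ⟨((hm e).1 he).2.2, (h2 e ((hm e).1 he).1).2⟩⟩, fun p hp => ?_⟩
  · rw [flt_toList]
    refine List.Pairwise.sublist (List.Sublist.map _ List.filter_sublist) ?_
    rw [h1, List.pairwise_map]
    exact List.pairwise_lt_range.imp fun h => by omega
  · constructor
    · intro h
      obtain ⟨e, he, rfl⟩ := List.mem_map.1 h
      have h4 : e.1 ∈ O.toList.map (·.1) := List.mem_map.2 ⟨e, ((hm e).1 he).1, rfl⟩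
      rw [h1] at h4
      obtain ⟨i, hi, h5⟩ := List.mem_map.1 h4
      rw [List.mem_range] at hi
      exact ⟨((hm e).1 he).2.1, by omega⟩
    · rintro ⟨h4, h5⟩
      have h6 : p % 2 = 1 := hp.eq_two_or_odd.resolve_left (by omega)
      have h7 : p ∈ O.toList.map (·.1) := by
        rw [h1]
        exact List.mem_map.2 ⟨(p - 3) / 2, List.mem_range.2 (by omega), by omega⟩
      obtain ⟨e, he, rfl⟩ := List.mem_map.1 h7
      exact List.mem_map.2 ⟨e, (hm e).2 ⟨he, h4, hp⟩, rfl⟩

lemma tab_eq : toL tabA = (List.range 16).map fun w => (w, 2 ^ et w) := by decide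

lemma mem_tab (w B : ℕ) : (w, B) ∈ toL tabA ↔ w < 16 ∧ B = 2 ^ et w := by
  rw [tab_eq, List.mem_map]
  constructor
  · rintro ⟨a, ha, h⟩
    rw [Prod.mk.injEq] at h
    obtain ⟨rfl, rfl⟩ := h
    exact ⟨List.mem_range.1 ha, rfl⟩
  · rintro ⟨h, rfl⟩
    exact ⟨w, List.mem_range.2 h, rfl⟩

lemma et_bound : ∀ w < 15, 2 ^ et (w + 1) ≤ 16384 * 5 ^ w := by decide

lemma aset_iff (x : ℕ) : x ∈ Aset ↔ x ≠ 0 ∧ (∀ q, q.Prime → q ∣ x → 5 ≤ q ∧ q < 2 * 8191 + 3) ∧
    ∃ B, (cardFactors x, B) ∈ toL tabA ∧ x < B := by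
  rw [mem_Aset]
  constructor
  · rintro ⟨h1, h2⟩
    have h0 : x ≠ 0 := by
      rintro rfl
      simp at h1
    have h5 : ∀ q, q.Prime → q ∣ x → 5 ≤ q := by
      intro q hq hd
      have h3 : ¬q ∣ 6 := fun h => hq.ne_one (Nat.eq_one_of_dvd_coprimes h1 hd h)
      have h4 := hq.two_le
      by_contra h6
      have h7 : q < 5 := by omega
      interval_cases q
      · exact h3 (by norm_num)
      · exact h3 (by norm_num)
      · exact absurd hq (by norm_num)
    have h6 : cardFactors x < 16 := by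
      by_contra h7
      have h8 : 5 ^ 16 ≤ 5 ^ cardFactors x := Nat.pow_le_pow_right (by norm_num) (by omega)
      have h9 : 2 ^ et (cardFactors x) ≤ 2 ^ 36 := Nat.pow_le_pow_right (by norm_num) (et_le _)
      have := pow_le h0 h5
      omega
    refine ⟨h0, fun q hq hd => ⟨h5 q hq hd, ?_⟩, _, (mem_tab _ _).2 ⟨h6, rfl⟩, h2⟩
    obtain ⟨u, rfl⟩ := hd
    have hu : u ≠ 0 := right_ne_zero_of_mul h0
    have h7 : 5 ^ cardFactors u ≤ u := pow_le hu fun q' hq' hd => h5 q' hq' (hd.mul_left q)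
    rw [cardFactors_mul hq.ne_zero hu, cardFactors_apply_prime hq, add_comm] at h2 h6
    have h8 := et_bound (cardFactors u) (by omega)
    have h9 : q * 5 ^ cardFactors u < 16384 * 5 ^ cardFactors u :=
      (Nat.mul_le_mul_left q h7).trans_lt (h2.trans_le h8)
    have := Nat.lt_of_mul_lt_mul_right h9
    omega
  · rintro ⟨-, h1, B, h2, h3⟩
    refine ⟨Nat.coprime_of_dvd fun q hq hd h6 => ?_, ((mem_tab _ _).1 h2).2 ▸ h3⟩
    have h4 := (h1 q hq hd).1
    have h5 := Nat.le_of_dvd (by norm_num) h6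
    interval_cases q
    · exact absurd h6 (by norm_num)
    · exact absurd hq (by norm_num)

lemma main (O : L3) (h1 : O.toList.map (·.1) = (List.range 8191).map (fun i => 2 * i + 3))
    (h2 : LogOk O (1 / 2 ^ 62))
    (h3 : ∀ e ∈ O.toList, e.2.1 = if 5 ≤ e.1 ∧ e.1.Prime then 1 else 0) (l : L3)
    (hl : l = enumA (flt O) tabA) :
    (l.toList.map (·.1)).Nodup ∧ (∀ m, m ∈ l.toList.map (·.1) ↔ m ∈ Aset) ∧
      LogOk l (1 / 2 ^ 58) ∧ ∀ e ∈ l.toList, e.2.1 = cardFactors e.1 := by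
  obtain ⟨hp, hq⟩ := primes_spec O 8191 _ h1 h2 h3
  obtain ⟨a, b, c⟩ := enum_spec (flt O) _ (by positivity) hp 15 tabA (by decide) (by decide)
  rw [← hl] at a b c
  refine ⟨a, fun m => ?_, fun e he => ⟨?_, (c e he).2.trans (by norm_num)⟩, fun e he => (c e he).1⟩
  · rw [b, aset_iff]
    refine and_congr_right fun _ => and_congr_left fun _ => forall_congr' fun q =>
      forall_congr' fun h => forall_congr' fun _ => hq q h
  · exact Nat.pos_of_ne_zero ((b e.1).1 (List.mem_map.2 ⟨e, he, rfl⟩)).1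

lemma listA_eq : listA = enumA (flt (odds 8191 1 0)) tabA :=
  frl_eq (flt (odds 8191 1 0)) fun ps => enumA ps tabA

end Enum

theorem listAOk (h : StOdds) : StListA :=
  Enum.main (odds 8191 1 0) (h 8191 le_rfl).1 (h 8191 le_rfl).2.1 (h 8191 le_rfl).2.2 listA
    Enum.listA_eq

end Pool.Agent.Lib.MP_5db4ad_nt.S2
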