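import Pool.Agent.Lib.MP_5db4ad_nt.H96NLaneC
import Pool.Agent.Lib.MP_5db4ad_nt.S2Coef
import Pool.Agent.Lib.MP_5db4ad_nt.S2Enum

/-!
The sources for the logarithm of the finite Euler product.
-/

namespace Pool.Agent.Lib.MP_5db4ad_nt.NE

open S2 Finset
open scoped Real

namespace H96NSrcL

noncomputable section

/-- coefficient of the power number `n` -/
def co (e p n : ℕ) : ℝ := (2 + e * (-2) ^ n) / (n * p ^ n)

/-- its bound -/
def bd (e p n : ℕ) : ℝ := (2 + e * 2 ^ n) / (n * p ^ n)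

def lg (e p k : ℕ) : ℂ :=
  2 * -Complex.log (1 - (p : ℂ) ^ (-sk k)) + -Complex.log (1 - -(2 * e * (p : ℂ) ^ (-sk k)))

def tm (e p k n : ℕ) : ℂ := co e p n * ex k (n * -Real.log p)

/-- the lane of a coefficient -/
def am (e p n : ℕ) : ℕ :=
  if n % 2 = 0 then 2 ^ 46 + 1314857589224783496 / (n * p ^ n * 2 ^ 24) +
    e * 2 ^ n * 657428794612391748 / (n * p ^ n * 2 ^ 24)
  else 2 ^ 46 + 1314857589224783496 / (n * p ^ n * 2 ^ 24) -
    e * 2 ^ n * 657428794612391748 / (n * p ^ n * 2 ^ 24)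

/-- the term of an entry -/
def tr (κ : ℝ) (x : ℕ × ℕ × ℕ) : ℂ := (sv x.1 : ℂ) * ee (-κ * x.2.1 / 2 ^ 64)

/-- the sum over a list of entries -/
def sm (κ : ℝ) (es : List (ℕ × ℕ × ℕ)) : ℂ :=
  ((Kc ^ 2 / 2 ^ 40 : ℝ) : ℂ) * (es.map fun x => tr κ (x.1, x.2.1 ||| 1, x.2.2)).sum

end

lemma has {e p : ℕ} (he : e ≤ 1) (hp : 3 ≤ p) (k : ℕ) : HasSum (tm e p k) (lg e p k) := by
  have h1 := Coef.norm_le k hp
  have h2 : ‖-(2 * e * (p : ℂ) ^ (-sk k))‖ < 1 := by
    have h3 : (e : ℝ) ≤ 1 := by exact_mod_cast he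
    rw [norm_neg, norm_mul, norm_mul, Complex.norm_natCast, Complex.norm_ofNat]
    nlinarith [norm_nonneg ((p : ℂ) ^ (-sk k))]
  have h4 := ((Complex.hasSum_taylorSeries_neg_log (h1.trans_lt (by norm_num))).mul_left 2).add
    (Complex.hasSum_taylorSeries_neg_log h2)
  suffices h : tm e p k = fun n : ℕ => 2 * (((p : ℂ) ^ (-sk k)) ^ n / n) +
      (-(2 * e * (p : ℂ) ^ (-sk k))) ^ n / n from h ▸ h4
  funext n
  rw [tm, co, Coef.ex_nat, Coef.cpow_eq k (by omega)]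
  rcases n.eq_zero_or_pos with rfl | hn
  · simp
  · have h5 : (e : ℂ) ^ n = e := by
      interval_cases e
      · simp [hn.ne']
      · simp
    rw [← neg_mul, ← neg_mul, mul_pow, mul_pow, h5, div_pow]
    push_cast
    ring

lemma co_le (e p n : ℕ) : |co e p n| ≤ bd e p n := by
  rw [co, bd, abs_div, abs_of_nonneg (by positivity : (0 : ℝ) ≤ n * p ^ n)]
  refine div_le_div_of_nonneg_right ((abs_add_le _ _).trans ?_) (by positivity)
  rw [abs_mul, abs_pow, abs_neg, abs_two, Nat.abs_cast]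

lemma bd_succ {e p n : ℕ} (he : e ≤ 1) (hp : 3 ≤ p) (h : e = 0 ∨ 5 ≤ p) (hn : 1 ≤ n) :
    bd e p (n + 1) ≤ 2 / 5 * bd e p n := by
  have h1 : (1 : ℝ) ≤ n := by exact_mod_cast hn
  have h2 : (3 : ℝ) ≤ p := by exact_mod_cast hp
  have h3 : (0 : ℝ) < (p : ℝ) ^ n := by positivity
  have h4 : (0 : ℝ) < 2 ^ n := by positivity
  rw [bd, bd, ← mul_div_assoc, div_le_div_iff₀ (by positivity) (by positivity), pow_succ, pow_succ]
  push_cast
  have h5 : (2 + e * (2 ^ n * 2) : ℝ) * n ≤ 2 / 5 * (2 + e * 2 ^ n) * ((n + 1) * p) := by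
    rcases h with rfl | h
    · push_cast
      nlinarith
    · have h6 : (5 : ℝ) ≤ p := by exact_mod_cast h
      have h7 : (0 : ℝ) ≤ e * 2 ^ n := by positivity
      have h8 : 5 * (n : ℝ) ≤ (n + 1) * p := by nlinarith
      nlinarith
  nlinarith [mul_le_mul_of_nonneg_right h5 h3.le]

lemma tail {e p n : ℕ} (he : e ≤ 1) (hp : 3 ≤ p) (h : e = 0 ∨ 5 ≤ p) (hn : 1 ≤ n) (k : ℕ) :
    ‖lg e p k - ∑ i ∈ range n, tm e p k i‖ ≤ 5 / 3 * bd e p n := by
  have h1 : ∀ m, bd e p (m + n) ≤ bd e p n * (2 / 5) ^ m := by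
    intro m
    induction m with
    | zero => simp
    | succ m ih =>
      rw [add_right_comm, pow_succ]
      have := bd_succ he hp h (by omega : 1 ≤ m + n)
      linarith
  have h2 := (hasSum_geometric_of_lt_one (r := 2 / 5) (by norm_num) (by norm_num)).mul_left
    (bd e p n)
  refine (((hasSum_nat_add_iff' n).2 (has he hp k)).norm_le_of_bounded h2 fun m => ?_).trans
    (le_of_eq (by ring))
  rw [tm, norm_mul, Coef.norm_ex, mul_one, Complex.norm_real, Real.norm_eq_abs]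
  exact (co_le _ _ _).trans (h1 m)

lemma flo (a b : ℕ) (hb : 0 < b) : (a : ℝ) / b - 1 ≤ (a / b : ℕ) ∧ ((a / b : ℕ) : ℝ) ≤ a / b := by
  refine ⟨?_, Nat.cast_div_le⟩
  have h1 : a < (a / b + 1) * b := (Nat.div_lt_iff_lt_mul hb).1 (Nat.lt_succ_self _)
  rw [sub_le_iff_le_add, div_le_iff₀ (by exact_mod_cast hb)]
  exact_mod_cast h1.le

lemma am_spec {e p n : ℕ} (he : e ≤ 1) (hp : 3 ≤ p) (hn : 1 ≤ n) :
    am e p n < 2 ^ 48 ∧ |sv (am e p n) - 657428794612391748 / 2 ^ 24 * co e p n| ≤ 2 := by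
  have h1 : 2 ^ n ≤ n * p ^ n :=
    (Nat.pow_le_pow_left (by omega) n).trans (Nat.le_mul_of_pos_left _ hn)
  have h2 : 1 ≤ n * p ^ n := Nat.one_le_two_pow.trans h1
  have h3 : e * 2 ^ n ≤ n * p ^ n := (Nat.mul_le_mul_right _ he).trans (by rwa [one_mul])
  have h4 := flo 1314857589224783496 (n * p ^ n * 2 ^ 24) (by positivity)
  have h5 := flo (e * 2 ^ n * 657428794612391748) (n * p ^ n * 2 ^ 24) (by positivity)
  have h6 : 1314857589224783496 / (n * p ^ n * 2 ^ 24) ≤ 2 ^ 40 :=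
    Nat.div_le_of_le_mul (by omega)
  have h7 : e * 2 ^ n * 657428794612391748 / (n * p ^ n * 2 ^ 24) ≤ 2 ^ 40 :=
    Nat.div_le_of_le_mul (by omega)
  unfold am co
  obtain ⟨q1, hq1⟩ : ∃ q, 1314857589224783496 / (n * p ^ n * 2 ^ 24) = q := ⟨_, rfl⟩
  obtain ⟨q2, hq2⟩ : ∃ q, e * 2 ^ n * 657428794612391748 / (n * p ^ n * 2 ^ 24) = q := ⟨_, rfl⟩
  rw [hq1] at h4 h6
  rw [hq2] at h5 h7
  rw [hq1, hq2]
  push_cast at h4 h5
  split_ifs with h
  · refine ⟨by omega, ?_⟩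
    have h8 : (657428794612391748 / 2 ^ 24 : ℝ) * ((2 + e * 2 ^ n) / (n * p ^ n)) =
        1314857589224783496 / (n * p ^ n * 16777216) +
          e * 2 ^ n * 657428794612391748 / (n * p ^ n * 16777216) := by ring
    rw [sv, (Nat.even_iff.2 h).neg_pow, h8, abs_le]
    push_cast
    constructor <;> linarith [h4.1, h4.2, h5.1, h5.2]
  · refine ⟨by omega, ?_⟩
    have h8 : (657428794612391748 / 2 ^ 24 : ℝ) * ((2 + e * -2 ^ n) / (n * p ^ n)) =
        1314857589224783496 / (n * p ^ n * 16777216) -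
          e * 2 ^ n * 657428794612391748 / (n * p ^ n * 16777216) := by ring
    rw [sv, (Nat.odd_iff.2 (by omega)).neg_pow, h8, Nat.cast_sub (by omega), abs_le]
    push_cast
    constructor <;> linarith [h4.1, h4.2, h5.1, h5.2]

lemma or_one (m : ℕ) : m ≤ m ||| 1 ∧ m ||| 1 ≤ m + 1 := by
  refine ⟨Nat.left_le_or, ?_⟩
  have h1 : ∀ j, 2 * j ||| 1 = 2 * j + 1 := fun j =>
    (Nat.two_pow_add_eq_or_of_lt (i := 1) (by norm_num) j).symm
  obtain ⟨j, rfl | rfl⟩ := Nat.even_or_odd' m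
  · exact (h1 j).le
  · rw [← h1, Nat.or_assoc, Nat.or_self]
    omega

lemma cst : |Kc ^ 2 / 2 ^ 40 * (657428794612391748 / 2 ^ 24) - 1 / (2 * π * Kc)| ≤ 1e-18 := by
  have h1 : 1 / (2 * π * Kc) ≤ 1 / (2 * 3.14159265358979323846 * Kc) :=
    one_div_le_one_div_of_le (by norm_num [Kc]) (by
      have := Real.pi_gt_d20
      unfold Kc
      linarith)
  have h2 : 1 / (2 * 3.14159265358979323847 * Kc) ≤ 1 / (2 * π * Kc) :=
    one_div_le_one_div_of_le (by unfold Kc; positivity) (by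
      have := Real.pi_lt_d20
      unfold Kc
      linarith)
  have h3 : Kc ^ 2 / 2 ^ 40 * (657428794612391748 / 2 ^ 24) - 1e-18 ≤
      1 / (2 * 3.14159265358979323847 * Kc) := by norm_num [Kc]
  have h4 : 1 / (2 * 3.14159265358979323846 * Kc) ≤
      Kc ^ 2 / 2 ^ 40 * (657428794612391748 / 2 ^ 24) + 1e-18 := by norm_num [Kc]
  rw [abs_le]
  constructor <;> linarith

lemma entry {e p n g k : ℕ} (he : e ≤ 1) (hp : 3 ≤ p) (hn : 1 ≤ n) (hk : k < 2 ^ 23)
    (hg : |(g : ℝ) / 2 ^ 64 - Real.log p / Real.log 2| ≤ 1 / 2 ^ 60) :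
    ‖((Kc ^ 2 / 2 ^ 40 : ℝ) : ℂ) * tr (k + 1 / 2) (am e p n, n * g ||| 1, 0) -
      tm e p k n / (2 * π * Kc)‖ ≤ 1.5e-11 := by
  have h1 : (1 : ℝ) ≤ n := by exact_mod_cast hn
  have h2 : |co e p n| * n ≤ 2 := by
    have h3 : 2 + e * 2 ^ n ≤ 2 * p ^ n := by
      have h4 : 2 ^ 1 ≤ 2 ^ n := Nat.pow_le_pow_right (by norm_num) hn
      have h5 : 2 ^ n ≤ p ^ n := Nat.pow_le_pow_left (by omega) n
      have h6 : e * 2 ^ n ≤ 1 * 2 ^ n := Nat.mul_le_mul_right _ he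
      omega
    have h4 : (0 : ℝ) < p := by exact_mod_cast (by omega : 0 < p)
    refine (mul_le_mul_of_nonneg_right (co_le e p n) (by positivity)).trans ?_
    rw [bd, div_mul_eq_mul_div, div_le_iff₀ (by positivity)]
    have h5 : (2 + e * 2 ^ n : ℝ) ≤ 2 * p ^ n := by exact_mod_cast h3
    nlinarith
  have h3 : |co e p n| ≤ 2 := by nlinarith [abs_nonneg (co e p n)]
  have h4 := (am_spec he hp hn).2
  have hK : (0 : ℝ) < Kc := by norm_num [Kc]
  have h5 : |Kc ^ 2 / 2 ^ 40 * sv (am e p n) - co e p n / (2 * π * Kc)| ≤ 5e-12 := by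
    have h6 : Kc ^ 2 / 2 ^ 40 * sv (am e p n) - co e p n / (2 * π * Kc) =
        Kc ^ 2 / 2 ^ 40 * (sv (am e p n) - 657428794612391748 / 2 ^ 24 * co e p n) +
        (Kc ^ 2 / 2 ^ 40 * (657428794612391748 / 2 ^ 24) - 1 / (2 * π * Kc)) * co e p n := by ring
    rw [h6]
    refine (abs_add_le _ _).trans ?_
    rw [abs_mul, abs_mul, abs_of_pos (by positivity : 0 < Kc ^ 2 / 2 ^ 40)]
    have h7 := mul_le_mul cst h3 (abs_nonneg _) (by norm_num)
    have h8 := mul_le_mul_of_nonneg_left h4 (by positivity : 0 ≤ Kc ^ 2 / 2 ^ 40)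
    have h9 : Kc ^ 2 / 2 ^ 40 * 2 ≤ 4.94e-12 := by norm_num [Kc]
    linarith
  obtain ⟨G, hG⟩ : ∃ G, n * g ||| 1 = G := ⟨_, rfl⟩
  have h6 := or_one (n * g)
  rw [hG] at h6 ⊢
  have h7 : |(G : ℝ) / 2 ^ 64 - n * (Real.log p / Real.log 2)| ≤ (n : ℝ) * (17 / 2 ^ 64) := by
    have h8 : (n : ℝ) * g ≤ G := by exact_mod_cast h6.1
    have h9 : (G : ℝ) ≤ n * g + 1 := by exact_mod_cast h6.2
    have h10 := abs_le.1 hg
    have h11 := mul_le_mul_of_nonneg_left h10.1 (by positivity : (0 : ℝ) ≤ n)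
    have h12 := mul_le_mul_of_nonneg_left h10.2 (by positivity : (0 : ℝ) ≤ n)
    rw [abs_le]
    constructor <;> linarith
  have h8 : (k : ℝ) + 1 / 2 ≤ 2 ^ 23 := by
    have h9 : (k : ℝ) + 1 ≤ 2 ^ 23 := by exact_mod_cast hk
    linarith
  have h9 := norm_ee_sub (-((k : ℝ) + 1 / 2) * G / 2 ^ 64)
    ((k + 1 / 2) * (n * -Real.log p / Real.log 2)) 0
  have h10 : -((k : ℝ) + 1 / 2) * G / 2 ^ 64 - (k + 1 / 2) * (n * -Real.log p / Real.log 2) -
      ((0 : ℤ) : ℝ) = -((k + 1 / 2) * (G / 2 ^ 64 - n * (Real.log p / Real.log 2))) := by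
    push_cast
    ring
  rw [h10, abs_neg, abs_mul, abs_of_pos (by positivity : (0 : ℝ) < k + 1 / 2)] at h9
  have h11 := h9.trans (mul_le_mul_of_nonneg_left (mul_le_mul h8 h7 (abs_nonneg _) (by norm_num))
    (by positivity))
  rw [tr, tm, ex_eq]
  obtain ⟨E, hE⟩ : ∃ E, ee (-((k : ℝ) + 1 / 2) * G / 2 ^ 64) = E := ⟨_, rfl⟩
  obtain ⟨F, hF⟩ : ∃ F, ee ((k + 1 / 2) * (n * -Real.log p / Real.log 2)) = F := ⟨_, rfl⟩
  have hE1 : ‖E‖ = 1 := hE ▸ norm_ee _
  rw [hE, hF] at h11 ⊢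
  have h12 : ((Kc ^ 2 / 2 ^ 40 : ℝ) : ℂ) * (sv (am e p n) * E) - co e p n * F / (2 * π * Kc) =
      ((Kc ^ 2 / 2 ^ 40 * sv (am e p n) - co e p n / (2 * π * Kc) : ℝ) : ℂ) * E +
        ((co e p n / (2 * π * Kc) : ℝ) : ℂ) * (E - F) := by
    push_cast
    ring
  rw [h12]
  refine (norm_add_le _ _).trans ?_
  rw [norm_mul, norm_mul, hE1, mul_one, Complex.norm_real, Complex.norm_real, Real.norm_eq_abs,
    Real.norm_eq_abs, abs_div, abs_of_pos (by positivity : 0 < 2 * π * Kc)]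
  have h13 : |co e p n| / (2 * π * Kc) * (2 * π * (2 ^ 23 * (n * (17 / 2 ^ 64)))) =
      |co e p n| * n * (17 / 2 ^ 41 / Kc) := by
    field_simp
  have h14 := mul_le_mul_of_nonneg_left h11 (by positivity : 0 ≤ |co e p n| / (2 * π * Kc))
  have h15 := mul_le_mul_of_nonneg_right h2 (by positivity : 0 ≤ 17 / 2 ^ 41 / Kc)
  have h16 : 2 * (17 / 2 ^ 41 / Kc) ≤ 1e-11 := by norm_num [Kc]
  linarith

lemma ents_ent {t : L} {es : List (ℕ × ℕ × ℕ)} (h : Ents t es) {A g : ℕ} (hA : A < 2 ^ 48)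
    (hg : g < 2 ^ 72) : Ents (ent A g 0 t) ((A, g, 0) :: es) := by
  refine ⟨?_, fun x hx => ?_⟩
  · have h1 : g / 2 ^ 44 % 2 ^ 20 = Nat.land (Nat.shiftRight g 44) 1048575 := by
      rw [← Nat.and_two_pow_sub_one_eq_mod, ← Nat.shiftRight_eq_div_pow]
      rfl
    unfold ent
    simp only [fz_eq]
    rw [toL, h.1, List.map_cons, h1, ← Nat.shiftLeft_eq, ← Nat.shiftLeft_eq]
    rfl
  · rcases List.mem_cons.1 hx with rfl | hx
    · exact ⟨hA, hg, by norm_num⟩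
    · exact h.2 x hx

lemma brec {β : Type} (a b : β) (c : Bool) : (Bool.rec a b c : β) = if c = true then b else a := by
  cases c <;> rfl

lemma lamP_rec (e p g : ℕ) (acc : L) (f n : ℕ) : lamP e p g acc (f + 1) n =
    fz (Nat.mul n (Nat.pow p n)) fun D => fz (Nat.shiftLeft e n) fun c =>
    Bool.rec acc
      (fz (Nat.add (nat_lit 70368744177664) (Nat.div (nat_lit 1314857589224783496)
        (Nat.shiftLeft D (nat_lit 24)))) fun a =>
        fz (Nat.div (Nat.mul c (nat_lit 657428794612391748)) (Nat.shiftLeft D (nat_lit 24))) fun b =>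
        ent (Bool.rec (Nat.sub a b) (Nat.add a b) (Nat.beq (Nat.land n (nat_lit 1)) (nat_lit 0)))
          (Nat.mul n g) (nat_lit 0) (lamP e p g acc f (Nat.succ n)))
      (Nat.ble D (Nat.shiftLeft (Nat.add (nat_lit 2) c) (nat_lit 26))) := rfl

lemma shl (a b : ℕ) : Nat.shiftLeft a b = a * 2 ^ b := Nat.shiftLeft_eq a b

lemma lamP_succ (e p g : ℕ) (acc : L) (f n : ℕ) : lamP e p g acc (f + 1) n =
    if n * p ^ n ≤ (2 + e * 2 ^ n) * 2 ^ 26 then
      ent (am e p n) (n * g) 0 (lamP e p g acc f (n + 1)) else acc := by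
  have h1 : Nat.land n (nat_lit 1) = n % 2 := Nat.and_one_is_mod n
  have h2 : nat_lit 70368744177664 = 2 ^ 46 := by norm_num
  rw [lamP_rec, fz_eq, fz_eq, fz_eq, fz_eq, brec, brec, h1, h2, am]
  simp only [shl, Nat.ble_eq, Nat.beq_eq, Nat.add_eq, Nat.mul_eq, Nat.sub_eq, Nat.pow_eq]
  rfl

lemma lamP_spec {e p g : ℕ} (he : e ≤ 1) (hp : 3 ≤ p) (h : e = 0 ∨ 5 ≤ p) (hg : 23 * g < 2 ^ 72)
    (hl : |(g : ℝ) / 2 ^ 64 - Real.log p / Real.log 2| ≤ 1 / 2 ^ 60) {acc : L}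
    {es : List (ℕ × ℕ × ℕ)} (ha : Ents acc es) : ∀ f n : ℕ, 1 ≤ n → n + f ≤ 24 →
    bd e p (n + f) ≤ 1 / 2 ^ 26 → ∃ es', Ents (lamP e p g acc f n) es' ∧ ∀ k : ℕ, k < 2 ^ 23 →
      ‖sm (k + 1 / 2) es' - sm (k + 1 / 2) es -
        (lg e p k - ∑ i ∈ range n, tm e p k i) / (2 * π * Kc)‖ ≤
        1.5e-11 * ((es'.length : ℝ) - es.length) + 2.41e-9 := by
  have stop : ∀ n : ℕ, 1 ≤ n → bd e p n ≤ 1 / 2 ^ 26 → ∀ k : ℕ, k < 2 ^ 23 →
      ‖sm (k + 1 / 2) es - sm (k + 1 / 2) es -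
        (lg e p k - ∑ i ∈ range n, tm e p k i) / (2 * π * Kc)‖ ≤
        1.5e-11 * ((es.length : ℝ) - es.length) + 2.41e-9 := by
    intro n hn hb k _
    have h1 := tail he hp h hn k
    have h2 : ‖(2 * π * Kc : ℂ)‖ = 2 * π * Kc := by
      rw [norm_mul, norm_mul, Complex.norm_ofNat, Complex.norm_real, Complex.norm_real,
        Real.norm_of_nonneg Real.pi_pos.le, Real.norm_of_nonneg (by norm_num [Kc])]
    have h3 : 10.34 ≤ 2 * π * Kc := by
      have := Real.pi_gt_d4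
      unfold Kc
      linarith
    rw [sub_self, sub_self, zero_sub, norm_neg, norm_div, h2, mul_zero, zero_add,
      div_le_iff₀ (by linarith)]
    linarith
  intro f
  induction f with
  | zero => exact fun n hn _ hb => ⟨es, ha, stop n hn hb⟩
  | succ f ih =>
    intro n hn hf hb
    rw [lamP_succ]
    split_ifs with hc
    · obtain ⟨es', h1, h2⟩ := ih (n + 1) (by omega) (by omega) (by rwa [add_right_comm, add_assoc])
      refine ⟨_, ents_ent h1 (am_spec he hp hn).1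
        ((Nat.mul_le_mul_right g (by omega)).trans_lt hg), fun k hk => ?_⟩
      have h3 := norm_add_le_of_le (h2 k hk) (entry he hp hn hk hl)
      refine le_trans (le_of_eq ?_) (h3.trans (le_of_eq ?_))
      · congr 1
        rw [sum_range_succ]
        simp only [sm, List.map_cons, List.sum_cons]
        ring
      · rw [List.length_cons]
        push_cast
        ring
    · refine ⟨es, ha, stop n hn ?_⟩
      have h4 : (0 : ℝ) < p := by exact_mod_cast (by omega : 0 < p)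
      have h5 : (0 : ℝ) < n := by exact_mod_cast hn
      rw [bd, div_le_div_iff₀ (by positivity) (by positivity), one_mul]
      exact_mod_cast (not_le.1 hc).le

lemma first (e p k : ℕ) : ∑ i ∈ range 1, tm e p k i = 0 ∧ ∑ i ∈ range 2, tm 1 p k i = 0 := by
  simp [sum_range_succ, tm, co]

lemma lst0_spec : ∀ l : L3, (∀ x ∈ l.toList, 5 ≤ x.1 ∧ x.1 ≤ 1000 ∧
    |(x.2.2 : ℝ) / 2 ^ 64 - Real.log x.1 / Real.log 2| ≤ 1 / 2 ^ 62) →
    ∃ es, Ents (lstL0 l) es ∧ ∀ k : ℕ, k < 2 ^ 23 →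
      ‖sm (k + 1 / 2) es - ((l.toList.map (·.1)).map fun p => lg 1 p k).sum / (2 * π * Kc)‖ ≤
        1.5e-11 * es.length + 2.41e-9 * (l.toList.map (·.1)).length := by
  intro l
  induction l with
  | nil => exact fun _ => ⟨[], ⟨rfl, by simp⟩, fun k _ => by simp [sm, L3.toList]⟩
  | cons p w g t ih =>
    intro h
    obtain ⟨es, h1, h2⟩ := ih fun x hx => h x (List.mem_cons_of_mem _ hx)
    obtain ⟨h3, h4, h5⟩ := h (p, w, g) List.mem_cons_self
    dsimp only at h3 h4 h5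
    have h6 : (5 : ℝ) ≤ p := by exact_mod_cast h3
    have h7 : 23 * g < 2 ^ 72 := by
      have h8 : Real.log p / Real.log 2 ≤ 10 := by
        rw [div_le_iff₀ (Real.log_pos one_lt_two), ← Nat.cast_ofNat, ← Real.log_pow]
        exact Real.log_le_log (by linarith) (by exact_mod_cast (by omega : p ≤ 2 ^ 10))
      have h9 : (23 : ℝ) * g < 2 ^ 72 := by linarith [(abs_le.1 h5).2]
      exact_mod_cast h9
    have h8 : bd 1 p (2 + 22) ≤ 1 / 2 ^ 26 := by
      have h9 : (5 : ℝ) ^ 24 ≤ p ^ 24 := pow_le_pow_left₀ (by norm_num) h6 24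
      rw [bd, div_le_div_iff₀ (by positivity) (by positivity)]
      push_cast
      linarith
    obtain ⟨es', h9, h10⟩ := lamP_spec le_rfl (by omega) (Or.inr h3) h7 (h5.trans (by norm_num)) h1
      22 2 (by norm_num) le_rfl h8
    refine ⟨es', h9, fun k hk => ?_⟩
    have h11 := norm_add_le_of_le (h10 k hk) (h2 k hk)
    rw [(first 1 p k).2] at h11
    refine le_trans (le_of_eq ?_) (h11.trans (le_of_eq ?_))
    · congr 1
      simp only [L3.toList, List.map_cons, List.sum_cons]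
      ring
    · simp only [L3.toList, List.map_cons, List.length_cons]
      push_cast
      ring

lemma len_eq (l : L) : ∀ n, len l n = n + (toL l).length := by
  induction l with
  | nil => exact fun _ => rfl
  | cons a b t ih =>
    intro n
    have h1 : len (L.cons a b t) n = len t (n + 1) := fz_eq (n + 1) (len t)
    rw [h1, ih, toL, List.length_cons]
    omega

lemma sum_getD {α : Type} (φ : α → ℂ) (d : α) (hd : φ d = 0) (l : List α) : ∀ n, l.length ≤ n →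
    ∑ p ∈ range n, φ (l.getD p d) = (l.map φ).sum := by
  induction l with
  | nil => exact fun n _ => by simp [hd]
  | cons a t ih =>
    intro n hn
    obtain ⟨m, rfl⟩ : ∃ m, n = m + 1 := ⟨n - 1, by rw [List.length_cons] at hn; omega⟩
    rw [sum_range_succ', List.map_cons, List.sum_cons, ← ih m (by simpa using hn), add_comm]
    rfl

lemma src_of (hS : StSV) (hC : StChk) {l : L} {es : List (ℕ × ℕ × ℕ)} (h : Ents l es) {mI : ℕ}
    (h1 : srcChk 512 (mkSV 9 l) mI = true) (h2 : es.length ≤ 512) {T : ℕ → ℂ} {δ : ℝ}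
    (hT : ∀ k : ℕ, k < 2 ^ 23 → ‖sm (k + 1 / 2) es - T k‖ ≤ δ) : SrcOK 512 (mkSV 9 l) mI T δ := by
  obtain ⟨hc, hs⟩ := hS 9 l es h
  obtain ⟨v, hv⟩ : ∃ v, mkSV 9 l = v := ⟨_, rfl⟩
  rw [hv] at hc hs h1 ⊢
  have hc' : cut v (192 * 512) = v := hc
  have h3 : sortedV (512 - 1) v = true := by
    unfold srcChk at h1
    simp only [Bool.and_eq_true] at h1
    exact h1.1.1
  obtain ⟨A, g, m, es', h4, h5, h6⟩ := hs 512 (by norm_num) (by norm_num) (by rw [hc']; exact h3)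
  rw [hc'] at h4
  obtain ⟨h7, h8⟩ := hC 512 v mI A g m (by norm_num) h4.1
    (fun p hp => ⟨(h4.2 p hp).1, (h4.2 p hp).2.1, (h4.2 p hp).2.2.2.1⟩) h1
  refine ⟨A, g, m, h4, h7, h8, fun k hk => le_trans (le_of_eq ?_) (hT k hk)⟩
  have h9 := sum_getD (tr (k + 1 / 2)) (2 ^ 46, 2 ^ 64 - 1, 0) (by rw [tr, sv]; norm_num)
    (es'.map fun e => (e.1, e.2.1 ||| 1, e.2.2)) 512 (by rw [List.length_map, h5.length_eq]; exact h2)
  have h10 : ∑ p ∈ range 512, (sv (A p) : ℂ) * ee (-(k + 1 / 2) * g p / 2 ^ 64) =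
      (es.map fun x => tr (k + 1 / 2) (x.1, x.2.1 ||| 1, x.2.2)).sum := by
    rw [List.map_map] at h9
    rw [← (h5.map _).sum_eq]
    refine Eq.trans (sum_congr rfl fun p hp => ?_) h9
    rw [← h6 p (mem_range.1 hp), tr]
  rw [raw, sm, h10]

lemma exp_lg {e p : ℕ} (he : e ≤ 1) (hp : 3 ≤ p) (k : ℕ) : Complex.exp (lg e p k) =
    ((1 + 2 * e * (p : ℂ) ^ (-sk k)) * (1 - (p : ℂ) ^ (-sk k)) ^ 2)⁻¹ := by
  obtain ⟨h1, h2⟩ := Coef.loc_ne (Coef.norm_le k hp)
  have h3 : 1 - -(2 * e * (p : ℂ) ^ (-sk k)) ≠ 0 := by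
    interval_cases e
    · simp
    · simpa using h1
  rw [lg, Complex.exp_add, two_mul, Complex.exp_add, Complex.exp_neg, Complex.exp_neg,
    Complex.exp_log h2, Complex.exp_log h3, sub_neg_eq_add, mul_inv, pow_two, mul_inv, mul_comm]

lemma card_le : ((Icc 5 1000).filter Nat.Prime).card ≤ 167 := by
  have h1 : ((Icc 5 1000).filter fun n => Nat.gcd n (Nat.factorial 31) = 1 ∨
      n < 32 ∧ Nat.gcd n (Nat.factorial 4) = 1).card ≤ 167 := by decide +kernel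
  refine le_trans (card_le_card fun p hp => ?_) h1
  obtain ⟨h2, h3⟩ := mem_filter.1 hp
  have h4 := (mem_Icc.1 h2).1
  refine mem_filter.2 ⟨h2, ?_⟩
  rcases lt_or_ge p 32 with h | h
  · exact Or.inr ⟨h, h3.coprime_iff_not_dvd.2 fun h5 => by have := h3.dvd_factorial.1 h5; omega⟩
  · exact Or.inl (h3.coprime_iff_not_dvd.2 fun h5 => by have := h3.dvd_factorial.1 h5; omega)

end H96NSrcL

open H96NSrcL in
theorem srcL (hS : StSV) (hC : StChk) (hO : StOdds) (hT : StTab) : StSrcL := by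
  intro h1 h2
  refine ⟨fun k => lg 0 3 k + ∑ p ∈ (Icc 5 1000).filter Nat.Prime, lg 1 p k, fun k => ?_, ?_⟩
  · have h3 : Complex.exp (∑ p ∈ (Icc 5 1000).filter Nat.Prime, lg 1 p k) = (Df (sk k))⁻¹ := by
      rw [Complex.exp_sum, Df, ← prod_inv_distrib]
      refine prod_congr rfl fun p hp => ?_
      have h4 := (mem_Icc.1 (mem_filter.1 hp).1).1
      rw [exp_lg le_rfl (by omega), Coef.fac_eq, Nat.cast_one, mul_one]
    rw [Complex.exp_add, h3, exp_lg (by norm_num) le_rfl, Gf, zT, Coef.two_cpow, one_div,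
      div_eq_mul_inv (_ * _), ← mul_inv, ← mul_inv]
    refine congrArg _ ?_
    push_cast
    ring
  · obtain ⟨h3, h4, h5⟩ := hO 499 (by norm_num)
    unfold svL at h1 ⊢
    unfold lstL at h1 h2 ⊢
    obtain ⟨O, hO'⟩ : ∃ O, odds 499 1 0 = O := ⟨_, rfl⟩
    rw [hO'] at h1 h2 h3 h4 h5 ⊢
    obtain ⟨⟨h6, h7⟩, h8⟩ := Enum.primes_spec O 499 _ h3 h4 h5
    have h9 : ((flt O).toList.map (·.1)).toFinset = (Icc 5 1000).filter Nat.Prime := by
      ext p
      rw [List.mem_toFinset, mem_filter, mem_Icc]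
      constructor
      · intro hp
        obtain ⟨x, hx, rfl⟩ := List.mem_map.1 hp
        have h10 := (h8 _ (h7 x hx).1).1 hp
        exact ⟨⟨h10.1, by omega⟩, (h7 x hx).1⟩
      · exact fun hp => (h8 p hp.2).2 ⟨hp.1.1, by omega⟩
    have h10 : ((flt O).toList.map (·.1)).Nodup := h6.imp ne_of_lt
    obtain ⟨es, h11, h12⟩ := lst0_spec (flt O) fun x hx => by
      have h13 := (h8 _ (h7 x hx).1).1 (List.mem_map.2 ⟨x, hx, rfl⟩)
      exact ⟨h13.1, by omega, (h7 x hx).2⟩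
    obtain ⟨es', h13, h14⟩ := lamP_spec (e := 0) (p := 3) (g := g3) (by norm_num) le_rfl (Or.inl rfl)
      (by decide) (by exact_mod_cast hT.2.2.2.2.2.2) h11 22 1 le_rfl (by norm_num)
      (by norm_num [bd])
    have h15 : es'.length ≤ 512 := by
      have h16 := Nat.le_of_ble_eq_true h2
      rw [len_eq, zero_add] at h16
      have h17 := congrArg List.length h13.1
      rw [List.length_map] at h17
      exact h17 ▸ h16
    refine src_of hS hC h13 h1 h15 fun k hk => ?_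
    have h16 := norm_add_le_of_le (h14 k hk) (h12 k hk)
    rw [(first 0 3 k).1, ← List.sum_toFinset _ h10, ← List.toFinset_card_of_nodup h10, h9] at h16
    have h17 : (es'.length : ℝ) ≤ 512 := by exact_mod_cast h15
    have h18 : (((Icc 5 1000).filter Nat.Prime).card : ℝ) ≤ 167 := by exact_mod_cast card_le
    refine le_trans (le_of_eq ?_) (h16.trans (by linarith))
    congr 1
    ring

end Pool.Agent.Lib.MP_5db4ad_nt.NE
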