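import Pool.Agent.Lib.MP_5db4ad_nt.H96NLaneA

/-!
Lane by lane meaning of the operations on vectors.
-/

namespace Pool.Agent.Lib.MP_5db4ad_nt.NE

open S2 Finset

lemma pw_cast (W n : ℕ) (f : ℕ → ℕ) : (pw W n f : ℤ) = iw W n fun j => (f j : ℤ) := by
  unfold pw iw
  push_cast
  rfl

lemma iw_congr {W n : ℕ} {f g : ℕ → ℤ} (h : ∀ j < n, f j = g j) : iw W n f = iw W n g := by
  unfold iw
  exact Finset.sum_congr rfl fun j hj => by rw [h j (Finset.mem_range.1 hj)]

lemma iw_add (W n : ℕ) (f g : ℕ → ℤ) : iw W n f + iw W n g = iw W n fun j => f j + g j := by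
  unfold iw
  rw [← Finset.sum_add_distrib]
  exact Finset.sum_congr rfl fun j _ => by ring

lemma iw_sub (W n : ℕ) (f g : ℕ → ℤ) : iw W n f - iw W n g = iw W n fun j => f j - g j := by
  unfold iw
  rw [← Finset.sum_sub_distrib]
  exact Finset.sum_congr rfl fun j _ => by ring

lemma iw_succ (W n : ℕ) (f : ℕ → ℤ) : iw W (n + 1) f = iw W n f + f n * 2 ^ (W * n) := by
  unfold iw
  rw [Finset.sum_range_succ]

lemma iw_split (W n m : ℕ) (f : ℕ → ℤ) :
    iw W (n + m) f = iw W n f + (iw W m fun j => f (n + j)) * 2 ^ (W * n) := by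
  unfold iw
  rw [Finset.sum_range_add, Finset.sum_mul]
  congr 1
  exact Finset.sum_congr rfl fun j _ => by rw [Nat.mul_add, pow_add]; ring

lemma mul_iw (W n m : ℕ) (f g : ℕ → ℤ) : iw W n f * iw W m g = iw W (n + m) fun j =>
    ∑ i ∈ range n, if i ≤ j ∧ j - i < m then f i * g (j - i) else 0 := by
  unfold iw
  simp only [Finset.sum_mul]
  rw [Finset.sum_comm]
  refine Finset.sum_congr rfl fun i hi => ?_
  have hi' := Finset.mem_range.1 hi
  rw [Finset.mul_sum]
  simp only [ite_mul, zero_mul]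
  rw [← Finset.sum_filter]
  refine Finset.sum_bij' (fun k _ => i + k) (fun j _ => j - i) ?_ ?_ ?_ ?_ ?_
  · intro k hk
    have := Finset.mem_range.1 hk
    simp only [Finset.mem_filter, Finset.mem_range]
    omega
  · intro j hj
    simp only [Finset.mem_filter, Finset.mem_range] at hj ⊢
    omega
  · intro k _
    simp
  · intro j hj
    simp only [Finset.mem_filter, Finset.mem_range] at hj
    omega
  · intro k _
    rw [Nat.add_sub_cancel_left, Nat.mul_add, pow_add]
    ring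

lemma eq_pw_of_iw {W n v : ℕ} {f : ℕ → ℤ} (h : (v : ℤ) = iw W n f) (h0 : ∀ j < n, 0 ≤ f j) :
    v = pw W n fun j => (f j).toNat := by
  have : (v : ℤ) = ((pw W n fun j => (f j).toNat : ℕ) : ℤ) := by
    rw [h, pw_cast]
    exact iw_congr fun j hj => (Int.toNat_of_nonneg (h0 j hj)).symm
  exact_mod_cast this

lemma ow64_eq (n : ℕ) :
    Nat.shiftLeft (ow 64 (3 * n)) 63 = pw 192 n fun _ => 2 ^ 63 + 2 ^ 127 + 2 ^ 191 := by
  rw [ow_shl (by norm_num)]
  have h := pw_pw 64 3 n (fun _ _ => 2 ^ 63) (by norm_num)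
  rw [← h]
  refine pw_congr fun j _ => ?_
  unfold pw
  simp only [Finset.sum_range_succ, Finset.sum_range_zero]
  norm_num

lemma ee_add (x y : ℝ) : ee (x + y) = ee x * ee y := by
  unfold ee
  rw [← Complex.exp_add]
  congr 1
  push_cast
  ring

lemma norm_ee (x : ℝ) : ‖ee x‖ = 1 := Complex.norm_exp_ofReal_mul_I _

lemma ee_int (m : ℤ) : ee m = 1 := by
  unfold ee
  have := Complex.exp_int_mul_two_pi_mul_I m
  rw [← this]
  congr 1
  push_cast
  ring

lemma conj_ee (x : ℝ) : (starRingEnd ℂ) (ee x) = ee (-x) := by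
  unfold ee
  rw [← Complex.exp_conj]
  congr 1
  rw [map_mul, Complex.conj_ofReal, Complex.conj_I]
  push_cast
  ring

lemma norm_ee_sub (x y : ℝ) (m : ℤ) : ‖ee x - ee y‖ ≤ 2 * Real.pi * |x - y - m| := by
  have h1 : ee x = ee y * ee (x - y - m) := by
    have : x = y + (x - y - m) + m := by ring
    conv_lhs => rw [this, ee_add, ee_add, ee_int, mul_one]
  have h2 : ee x - ee y = ee y * (ee (x - y - m) - 1) := by rw [h1]; ring
  rw [h2, norm_mul, norm_ee, one_mul]
  have h3 := Real.norm_exp_I_mul_ofReal_sub_one_le (x := 2 * Real.pi * (x - y - m))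
  rw [Real.norm_eq_abs, abs_mul, abs_of_pos (by positivity : (0 : ℝ) < 2 * Real.pi)] at h3
  unfold ee
  rwa [mul_comm _ Complex.I]

lemma ex_eq (k : ℕ) (u : ℝ) : ex k u = ee ((k + 1 / 2) * (u / Real.log 2)) := by
  unfold ex S2.ext ee tk
  congr 3
  ring

end Pool.Agent.Lib.MP_5db4ad_nt.NE
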