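import Pool.Agent.Lib.MP_5db4ad_nt.EqFix
import Pool.Agent.Lib.MP_5db4ad_nt.H96NLaneC

/-!
The sources of the main sum.
-/

namespace Pool.Agent.Lib.MP_5db4ad_nt.NE

open S2 Finset
open scoped Real

namespace H96NSrcM

/-- the lane of the weight of the odd number `m` -/
noncomputable def AM (m : ℕ) : ℕ := ampM 14 (m + m) false (70368744177664 + tM m)

/-- the exact weight of `n` -/
noncomputable def wt (n : ℕ) : ℝ := V16 (n / 9000) / n

/-- the sign of the term `m 2 ^ v` -/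
noncomputable def sg (v : ℕ) : ℝ := if v = 0 then 1 else -(-1) ^ v

lemma ent_eq (A g m : ℕ) (t : L) : ent A g m t =
    L.cons (g / 2 ^ 44 % 2 ^ 20) (A + (g ||| 1) * 2 ^ 48 + m * 2 ^ 128) t := by
  rw [← Nat.and_two_pow_sub_one_eq_mod, ← Nat.shiftRight_eq_div_pow, ← Nat.shiftLeft_eq,
    ← Nat.shiftLeft_eq]
  unfold ent
  rw [fz_eq, fz_eq]
  rfl

lemma toL_lstM (l : L3) : toL (lstM l) = (l.toList.map fun e => (AM e.1, e.2.2, 0)).map
    fun e : ℕ × ℕ × ℕ =>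
      (e.2.1 / 2 ^ 44 % 2 ^ 20, e.1 + (e.2.1 ||| 1) * 2 ^ 48 + e.2.2 * 2 ^ 128) := by
  induction l with
  | nil => rfl
  | cons m w g t ih =>
    have h : lstM (L3.cons m w g t) = ent (AM m) g 0 (lstM t) := rfl
    rw [h, ent_eq, toL, ih]
    rfl

lemma tM_eq (n : ℕ) : tM n =
    3 * 6802349901799902176 * 9000 ^ 16 / (n * 2 ^ 26 * (9000 ^ 16 + n ^ 16)) := by
  rw [← Nat.shiftLeft_eq]
  rfl

lemma wt_eq {n : ℕ} (h : 1 ≤ n) : wt n = 9000 ^ 16 / (n * (9000 ^ 16 + (n : ℝ) ^ 16)) := by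
  have h1 : (0 : ℝ) < n := by exact_mod_cast h
  unfold wt V16
  field_simp

lemma wt_bd {n : ℕ} (h : 1 ≤ n) : 0 ≤ wt n ∧ wt n ≤ 1 ∧ wt n ≤ 9000 ^ 16 / (n : ℝ) ^ 17 := by
  have h1 : (1 : ℝ) ≤ n := by exact_mod_cast h
  have h2 : (0 : ℝ) < (n : ℝ) ^ 16 := by positivity
  rw [wt_eq h]
  refine ⟨by positivity, ?_, ?_⟩
  · rw [div_le_one (by positivity)]
    nlinarith
  · refine div_le_div_of_nonneg_left (by positivity) (by positivity) ?_
    rw [pow_succ' _ 16]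
    exact mul_le_mul_of_nonneg_left (by linarith [show (0 : ℝ) < 9000 ^ 16 by positivity])
      (by linarith)

lemma tM_bd {n : ℕ} (h : 1 ≤ n) : (tM n : ℝ) ≤ 3 * 6802349901799902176 / 2 ^ 26 * wt n ∧
    3 * 6802349901799902176 / 2 ^ 26 * wt n ≤ tM n + 1 := by
  have h1 : (0 : ℝ) < n := by exact_mod_cast h
  have h2 : 3 * 6802349901799902176 / 2 ^ 26 * wt n =
      ((3 * 6802349901799902176 * 9000 ^ 16 : ℕ) : ℝ) /
        ((n * 2 ^ 26 * (9000 ^ 16 + n ^ 16) : ℕ) : ℝ) := by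
    rw [wt_eq h]
    simp only [Nat.cast_mul, Nat.cast_add, Nat.cast_pow, Nat.cast_ofNat]
    field_simp
  rw [h2, tM_eq, ← Nat.floor_div_eq_div (K := ℝ)]
  exact ⟨Nat.floor_le (by positivity), (Nat.lt_floor_add_one _).le⟩

lemma tM_le (n : ℕ) : tM n ≤ 2 ^ 40 := by
  rcases Nat.eq_zero_or_pos n with rfl | h
  · rw [tM_eq, zero_mul, zero_mul, Nat.div_zero]
    exact Nat.zero_le _
  · have h1 := (tM_bd h).1
    have h2 := (wt_bd h).2.1
    have h3 : (tM n : ℝ) ≤ 2 ^ 40 := by linarith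
    exact_mod_cast h3

lemma tM_err {n : ℕ} (h : 1 ≤ n) : |Kc ^ 2 / 2 ^ 40 * (tM n : ℝ) - 3 / 4 * wt n| ≤ 2.5e-12 := by
  obtain ⟨h1, h2⟩ := tM_bd h
  obtain ⟨h3, h4, -⟩ := wt_bd h
  unfold Kc
  rw [abs_le]
  constructor <;> linarith

lemma ampM_succ (f n : ℕ) (s : Bool) (a : ℕ) : ampM (f + 1) n s a = if 16384 ≤ n then a else
    ampM f (n + n) (!s) (if s = true then a - tM n else a + tM n) := by
  have h : ampM (f + 1) n s a = Bool.rec (fz (Bool.rec (a + tM n) (a - tM n) s) fun a' =>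
      fz (n + n) fun n' => ampM f n' (!s) a') a (Nat.ble 16384 n) := rfl
  rw [h]
  simp only [fz_eq]
  by_cases hn : 16384 ≤ n
  · rw [if_pos hn, Nat.ble_eq_true_of_le hn]
  · rw [if_neg hn, Bool.eq_false_iff.2 fun h' => hn (Nat.le_of_ble_eq_true h')]
    cases s <;> rfl

lemma ampM_spec {Q : ℕ} (hQ : ∀ n, tM n ≤ Q) (f : ℕ) : ∀ (n : ℕ) (s : Bool) (a : ℕ), f * Q ≤ a →
    ampM f n s a ≤ a + f * Q ∧ (ampM f n s a : ℝ) = a + ∑ v ∈ range f,
      if n * 2 ^ v < 16384 then (if s = true then -1 else 1) * (-1) ^ v * (tM (n * 2 ^ v) : ℝ)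
      else 0 := by
  induction f with
  | zero =>
    intro n s a _
    have h : ampM 0 n s a = a := rfl
    rw [h]
    simp
  | succ f ih =>
    intro n s a ha
    rw [ampM_succ]
    by_cases hn : 16384 ≤ n
    · rw [if_pos hn, sum_eq_zero, add_zero]
      · exact ⟨Nat.le_add_right _ _, rfl⟩
      · intro v _
        exact if_neg (not_lt.2 (hn.trans (Nat.le_mul_of_pos_right _ (by positivity))))
    · have h1 := hQ n
      have h2 : ∀ v, n * 2 ^ (v + 1) = (n + n) * 2 ^ v := fun v => by ring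
      rw [add_mul, one_mul] at ha
      rw [if_neg hn, sum_range_succ', add_mul f, one_mul Q]
      simp only [h2, pow_zero, mul_one, if_pos (not_le.1 hn)]
      cases s
      · obtain ⟨h3, h4⟩ := ih (n + n) true (a + tM n) (by omega)
        simp only [Bool.not_false, Bool.false_eq_true, if_false, if_true] at h4 ⊢
        refine ⟨by omega, ?_⟩
        rw [h4, Nat.cast_add, one_mul, add_assoc, add_comm (tM n : ℝ)]
        simp only [pow_succ, one_mul, mul_neg, mul_one, neg_mul]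
      · obtain ⟨h3, h4⟩ := ih (n + n) false (a - tM n) (by omega)
        simp only [Bool.not_true, Bool.false_eq_true, if_false, if_true] at h4 ⊢
        refine ⟨by omega, ?_⟩
        rw [h4, Nat.cast_sub (by omega), sub_eq_add_neg, add_assoc, add_comm (-(tM n : ℝ))]
        simp only [pow_succ, one_mul, mul_neg, mul_one, neg_mul, neg_neg]

lemma AM_lt (m : ℕ) : AM m < 2 ^ 48 := by
  have h1 := tM_le m
  have h2 := (ampM_spec tM_le 14 (m + m) false (70368744177664 + tM m) (by omega)).1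
  unfold AM
  omega

lemma sv_AM {m : ℕ} (h : m < 16384) : sv (AM m) = ∑ v ∈ range 15,
    if m * 2 ^ v < 16384 then sg v * (tM (m * 2 ^ v) : ℝ) else 0 := by
  have h1 := (ampM_spec tM_le 14 (m + m) false (70368744177664 + tM m) (by omega)).2
  have h2 : ∀ v, m * 2 ^ (v + 1) = (m + m) * 2 ^ v := fun v => by ring
  rw [sum_range_succ']
  simp only [h2]
  simp only [pow_zero, mul_one, if_pos h, sg, Nat.succ_ne_zero, if_false, if_true, pow_succ,
    mul_neg, neg_neg, one_mul]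
  simp only [Bool.false_eq_true, if_false, one_mul] at h1
  unfold sv AM
  rw [h1]
  push_cast
  ring

lemma ex_two (k : ℕ) {x : ℝ} (hx : 0 < x) : ex k (-Real.log (x * 2)) = -ex k (-Real.log x) := by
  have h1 : Real.log 2 ≠ 0 := (Real.log_pos one_lt_two).ne'
  have h2 : ee (1 / 2) = -1 := by
    unfold ee
    rw [show 2 * π * (1 / 2) = π by ring, Complex.exp_pi_mul_I]
  have h3 : ((k : ℝ) + 1 / 2) * (-Real.log (x * 2) / Real.log 2) =
      (k + 1 / 2) * (-Real.log x / Real.log 2) + (((-k - 1 : ℤ) : ℝ) + 1 / 2) := by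
    rw [Real.log_mul hx.ne' two_ne_zero]
    push_cast
    field_simp
    ring
  rw [ex_eq, ex_eq, h3, ee_add, ee_add, ee_int, h2]
  ring

lemma ex_pow (k : ℕ) {x : ℝ} (hx : 0 < x) (v : ℕ) :
    ex k (-Real.log (x * 2 ^ v)) = (-1) ^ v * ex k (-Real.log x) := by
  induction v with
  | zero => simp
  | succ v ih =>
    rw [pow_succ, ← mul_assoc, ex_two k (by positivity), ih]
    ring

lemma odd_inj (v : ℕ) : ∀ v' j j' : ℕ, (2 * j + 1) * 2 ^ v = (2 * j' + 1) * 2 ^ v' →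
    j = j' ∧ v = v' := by
  induction v with
  | zero =>
    intro v' j j' h
    rcases v' with _ | w
    · omega
    · rw [pow_succ, ← mul_assoc] at h
      omega
  | succ v ih =>
    intro v' j j' h
    rcases v' with _ | w
    · rw [pow_succ, ← mul_assoc] at h
      omega
    · rw [pow_succ, pow_succ, ← mul_assoc, ← mul_assoc] at h
      have := ih w j j' (by omega)
      omega

lemma regroup0 (c : ℕ → ℂ) {J V Q P : ℕ} (hJ : Q = 2 * J) (hP : Q = P + 1) (hV : Q ≤ 2 ^ V) :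
    ∑ j ∈ range J, ∑ v ∈ range V,
      (if (2 * j + 1) * 2 ^ v < Q then c ((2 * j + 1) * 2 ^ v) else 0) =
    ∑ n ∈ range P, c (n + 1) := by
  rw [← sum_product', ← sum_filter]
  refine sum_nbij (fun x => (2 * x.1 + 1) * 2 ^ x.2 - 1) ?_ ?_ ?_ ?_
  · intro x hx
    have h1 : 0 < (2 * x.1 + 1) * 2 ^ x.2 := by positivity
    have := (mem_filter.1 hx).2
    rw [mem_range]
    omega
  · intro x _ y _ h
    have h1 : 0 < (2 * x.1 + 1) * 2 ^ x.2 := by positivity
    have h2 : 0 < (2 * y.1 + 1) * 2 ^ y.2 := by positivity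
    have h3 := odd_inj x.2 y.2 x.1 y.1 (by simp only at h; omega)
    exact Prod.ext h3.1 h3.2
  · intro n hn
    have h1 : n < P := mem_range.1 (mem_coe.1 hn)
    obtain ⟨v, m, ⟨j, rfl⟩, h2⟩ := Nat.exists_eq_two_pow_mul_odd n.succ_ne_zero
    have h3 : 0 < 2 ^ v := by positivity
    have h4 : 2 ^ v < 2 ^ V := by nlinarith
    have h5 : v < V := (Nat.pow_lt_pow_iff_right one_lt_two).1 h4
    have h6 : j < J := by nlinarith
    rw [mul_comm] at h2
    refine ⟨(j, v), mem_coe.2 (mem_filter.2 ⟨mem_product.2 ⟨mem_range.2 h6, mem_range.2 h5⟩, ?_⟩),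
      ?_⟩
    · show (2 * j + 1) * 2 ^ v < Q
      omega
    · show (2 * j + 1) * 2 ^ v - 1 = n
      omega
  · intro x _
    have h1 : 0 < (2 * x.1 + 1) * 2 ^ x.2 := by positivity
    rw [Nat.sub_add_cancel h1]

lemma term_eq (k j v : ℕ) (t : ℝ) : ((sg v * t : ℝ) : ℂ) * ex k (-Real.log (2 * j + 1 : ℕ)) =
    ((-(-1) ^ ((2 * j + 1) * 2 ^ v) * t : ℝ) : ℂ) * ex k (-Real.log ((2 * j + 1) * 2 ^ v : ℕ)) := by
  rw [Nat.cast_mul (2 * j + 1), Nat.cast_pow, Nat.cast_ofNat, ex_pow k (by positivity),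
    ← mul_assoc]
  refine congrArg (· * _) ?_
  rcases v with _ | v
  · simp [sg, pow_succ]
  · have h3 : (-1 : ℝ) ^ ((2 * j + 1) * 2 ^ (v + 1)) = 1 :=
      Even.neg_one_pow ⟨(2 * j + 1) * 2 ^ v, by ring⟩
    rw [h3, sg, if_neg v.succ_ne_zero]
    push_cast
    ring

lemma regroup (k : ℕ) {J P : ℕ} (hJ : J = 8192) (hP : P = 16383) :
    ∑ j ∈ range J, (sv (AM (2 * j + 1)) : ℂ) * ex k (-Real.log (2 * j + 1 : ℕ)) =
    ∑ n ∈ range P, (((-1) ^ n * tM (n + 1) : ℝ) : ℂ) * ex k (-Real.log (n + 1)) := by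
  have h := regroup0 (fun n => ((-(-1) ^ n * tM n : ℝ) : ℂ) * ex k (-Real.log n)) (J := J)
    (V := 15) (Q := 16384) (P := P) (by omega) (by omega) (by norm_num)
  refine Eq.trans (sum_congr rfl fun j hj => ?_) (h.trans (sum_congr rfl fun n _ => ?_))
  · have h1 := mem_range.1 hj
    rw [sv_AM (by omega), Complex.ofReal_sum, sum_mul]
    refine sum_congr rfl fun v _ => ?_
    split_ifs with h2
    · exact term_eq k j v _
    · rw [Complex.ofReal_zero, zero_mul]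
  · rw [pow_succ, mul_neg, mul_one, neg_neg, Nat.cast_succ]

lemma norm_ex (k : ℕ) (u : ℝ) : ‖ex k u‖ = 1 := by rw [ex_eq, norm_ee]

lemma tail (k P : ℕ) (hP : 1 ≤ P) :
    ‖∑ n ∈ range P, (((-1) ^ n * wt (n + 1) : ℝ) : ℂ) * ex k (-Real.log (n + 1)) -
      ∑' n : ℕ, (((-1) ^ n * wt (n + 1) : ℝ) : ℂ) * ex k (-Real.log (n + 1))‖ ≤
      9000 ^ 16 / 16 * (1 / (P : ℝ) ^ 16) := by
  set a : ℕ → ℂ := fun n => (((-1) ^ n * wt (n + 1) : ℝ) : ℂ) * ex k (-Real.log (n + 1)) with ha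
  have h1 : ∀ n, ‖a (n + P)‖ ≤ 9000 ^ 16 / 16 *
      (1 / ((n : ℝ) + P) ^ 16 - 1 / ((n + 1 : ℕ) + (P : ℝ)) ^ 16) := by
    intro n
    obtain ⟨h2, -, h3⟩ := wt_bd (n := n + P + 1) (by omega)
    have hx : (0 : ℝ) < (n : ℝ) + P := by exact_mod_cast (by omega : 0 < n + P)
    rw [ha]
    simp only [norm_mul, norm_ex, mul_one, Complex.norm_real, Real.norm_eq_abs, abs_pow, abs_neg,
      abs_one, one_pow, one_mul, abs_of_nonneg h2]
    refine h3.trans ?_
    push_cast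
    rw [add_right_comm (n : ℝ) 1]
    generalize (n : ℝ) + P = x at hx
    have h4 : 1 / (x + 1) ^ 17 ≤ 1 / 16 * (1 / x ^ 16 - 1 / (x + 1) ^ 16) := by
      have h5 : 0 ≤ (x + 1) ^ 17 - x ^ 17 - 17 * x ^ 16 := by
        ring_nf
        positivity
      have h6 : 1 / 16 * (1 / x ^ 16 - 1 / (x + 1) ^ 16) - 1 / (x + 1) ^ 17 =
          ((x + 1) ^ 17 - x ^ 17 - 17 * x ^ 16) / (16 * x ^ 16 * (x + 1) ^ 17) := by
        field_simp
        ring
      rw [← sub_nonneg, h6]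
      positivity
    calc (9000 : ℝ) ^ 16 / (x + 1) ^ 17 = 9000 ^ 16 * (1 / (x + 1) ^ 17) := by ring
      _ ≤ 9000 ^ 16 * (1 / 16 * (1 / x ^ 16 - 1 / (x + 1) ^ 16)) := by gcongr
      _ = _ := by ring
  have h2 : ∀ N, ∑ n ∈ range N, ‖a (n + P)‖ ≤ 9000 ^ 16 / 16 * (1 / (P : ℝ) ^ 16) := by
    intro N
    refine (sum_le_sum fun n _ => h1 n).trans ?_
    rw [← mul_sum, sum_range_sub' (fun n : ℕ => 1 / ((n : ℝ) + P) ^ 16), Nat.cast_zero, zero_add]
    gcongr
    exact sub_le_self _ (by positivity)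
  have h3 : Summable fun n => ‖a (n + P)‖ := summable_of_sum_range_le (fun _ => norm_nonneg _) h2
  have h4 : Summable a := (summable_nat_add_iff P).1 h3.of_norm
  rw [← h4.sum_add_tsum_nat_add P, sub_add_cancel_left, norm_neg]
  exact (norm_tsum_le_tsum_norm h3).trans
    (Real.tsum_le_of_sum_range_le (fun _ => norm_nonneg _) h2)

lemma approx (k : ℕ) {J : ℕ} (hJ : J = 8192) : ‖((Kc ^ 2 / 2 ^ 40 : ℝ) : ℂ) *
    ∑ j ∈ range J, (sv (AM (2 * j + 1)) : ℂ) * ex k (-Real.log (2 * j + 1 : ℕ)) - mainT k‖ ≤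
    3.3e-6 := by
  obtain ⟨P, hP⟩ : ∃ P : ℕ, P = 16383 := ⟨_, rfl⟩
  have h1 := tail k P (by omega)
  have h2 : mainT k = 3 / 4 *
      ∑' n : ℕ, (((-1) ^ n * wt (n + 1) : ℝ) : ℂ) * ex k (-Real.log (n + 1)) := by
    simp only [mainT, wt, Nat.cast_succ, mul_div_assoc]
  have h3 : ‖((Kc ^ 2 / 2 ^ 40 : ℝ) : ℂ) *
      ∑ n ∈ range P, (((-1) ^ n * tM (n + 1) : ℝ) : ℂ) * ex k (-Real.log (n + 1)) - 3 / 4 *
      ∑ n ∈ range P, (((-1) ^ n * wt (n + 1) : ℝ) : ℂ) * ex k (-Real.log (n + 1))‖ ≤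
      16383 * 2.5e-12 := by
    rw [mul_sum, mul_sum, ← sum_sub_distrib]
    refine (norm_sum_le _ _).trans ((sum_le_card_nsmul _ _ (2.5e-12 : ℝ) fun n _ => ?_).trans ?_)
    · have h4 : ((Kc ^ 2 / 2 ^ 40 : ℝ) : ℂ) * ((((-1) ^ n * tM (n + 1) : ℝ) : ℂ) *
          ex k (-Real.log (n + 1))) - 3 / 4 * ((((-1) ^ n * wt (n + 1) : ℝ) : ℂ) *
          ex k (-Real.log (n + 1))) = (((-1) ^ n * (Kc ^ 2 / 2 ^ 40 * (tM (n + 1) : ℝ) -
          3 / 4 * wt (n + 1)) : ℝ) : ℂ) * ex k (-Real.log (n + 1)) := by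
        push_cast
        ring
      rw [h4, norm_mul, norm_ex, mul_one, Complex.norm_real, Real.norm_eq_abs, abs_mul, abs_pow,
        abs_neg, abs_one, one_pow, one_mul]
      exact tM_err (Nat.le_add_left 1 n)
    · rw [card_range, nsmul_eq_mul, hP, Nat.cast_ofNat]
  rw [regroup k hJ hP, h2]
  refine (norm_sub_le_norm_sub_add_norm_sub _ _ _).trans ((add_le_add h3 (le_of_eq rfl)).trans ?_)
  rw [← mul_sub, norm_mul, show ‖(3 / 4 : ℂ)‖ = 3 / 4 by simp]
  have h5 : (9000 : ℝ) ^ 16 / 16 * (1 / (P : ℝ) ^ 16) ≤ 4.3e-6 := by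
    rw [hP]
    norm_num
  linarith

lemma sum_getD {α : Type} (l : List α) (d : α) (ψ : α → ℂ) :
    ∑ p ∈ range l.length, ψ (l.getD p d) = (l.map ψ).sum := by
  induction l with
  | nil => simp
  | cons a l ih =>
    rw [List.length_cons, sum_range_succ', List.map_cons, List.sum_cons, ← ih, add_comm]
    rfl

lemma list_range (n : ℕ) (ψ : ℕ → ℂ) : ((List.range n).map ψ).sum = ∑ j ∈ range n, ψ j := by
  induction n with
  | zero => simp
  | succ n ih => rw [List.range_succ, List.map_append, List.sum_append, ih, sum_range_succ]; simp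

lemma or_one (g : ℕ) : |((g ||| 1 : ℕ) : ℝ) - g| ≤ 1 := by
  have h1 : (g ||| 1) / 2 = g / 2 := by
    rw [Nat.or_div_two]
    simp
  have h2 : (g ||| 1) ≤ g + 1 := by omega
  have h3 : g ≤ (g ||| 1) + 1 := by omega
  have h4 : ((g ||| 1 : ℕ) : ℝ) ≤ g + 1 := by exact_mod_cast h2
  have h5 : (g : ℝ) ≤ (g ||| 1 : ℕ) + 1 := by exact_mod_cast h3
  rw [abs_le]
  constructor <;> linarith

lemma sorted_of {n v m : ℕ} (h : srcChk n v m = true) : sortedV (n - 1) v = true := by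
  simp only [srcChk, Bool.and_eq_true] at h
  exact h.1.1

lemma main (hsv : StSV) (hc : StChk) (l : L3) (n : ℕ) (hn : n = 8192)
    (hl : l.toList.map (·.1) = (List.range n).map fun i => 2 * i + 1)
    (hg : LogOk l (1 / 2 ^ 62)) (h : srcChk n (mkSV 13 (lstM l)) mM = true) :
    SrcOK n (mkSV 13 (lstM l)) mM mainT 3.4e-6 := by
  have hlen : l.toList.length = n := by
    have := congrArg List.length hl
    rwa [List.length_map, List.length_map, List.length_range] at this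
  have hE : Ents (lstM l) (l.toList.map fun e => (AM e.1, e.2.2, 0)) := by
    refine ⟨toL_lstM l, fun e he => ?_⟩
    obtain ⟨x, hx, rfl⟩ := List.mem_map.1 he
    refine ⟨AM_lt _, ?_, by positivity⟩
    obtain ⟨h1, h2⟩ := hg x hx
    have h3 : x.1 ∈ l.toList.map (·.1) := List.mem_map.2 ⟨x, hx, rfl⟩
    rw [hl] at h3
    obtain ⟨i, hi, h4⟩ := List.mem_map.1 h3
    have h5 := List.mem_range.1 hi
    have h6 : (x.1 : ℝ) ≤ 2 ^ 14 := by exact_mod_cast (by omega : x.1 ≤ 2 ^ 14)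
    have h7 : Real.log x.1 / Real.log 2 ≤ 14 := by
      rw [div_le_iff₀ (Real.log_pos one_lt_two)]
      have h8 := Real.log_le_log (by exact_mod_cast h1) h6
      rwa [Real.log_pow, Nat.cast_ofNat] at h8
    have h8 : (x.2.2 : ℝ) < 2 ^ 72 := by linarith [(abs_le.1 h2).2]
    exact_mod_cast h8
  obtain ⟨h1, h2⟩ := hsv 13 _ _ hE
  have hn' : 2 ^ 13 = n := by rw [hn]; norm_num
  rw [hn'] at h1 h2
  have h3 := h2 n (by omega) le_rfl
  rw [h1] at h3
  obtain ⟨A, g, m, es', hS, hp, hv⟩ := h3 (sorted_of h)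
  obtain ⟨h4, h5⟩ := hc n _ mM A g m (by omega) hS.1
    (fun p hp => ⟨(hS.2 p hp).1, (hS.2 p hp).2.1, (hS.2 p hp).2.2.2.1⟩) h
  refine ⟨A, g, m, hS, h4, h5, fun k hk => ?_⟩
  obtain ⟨l', rfl, hp'⟩ : ∃ l' : List (ℕ × ℕ × ℕ), es' = l'.map (fun e : ℕ × ℕ × ℕ => (AM e.1, e.2.2, 0)) ∧
      l'.Perm l.toList := by
    have h6 := congrFun (congrFun (List.eq_map_comp_perm
      (fun e : ℕ × ℕ × ℕ => (AM e.1, e.2.2, 0))) es') l.toList
    exact h6.mpr hp
  have hlen' : l'.length = n := hp'.length_eq.trans hlen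
  have h6 : ∀ p < n, A p = AM (l'.getD p 0).1 ∧
      |(g p : ℝ) / 2 ^ 64 - Real.log (l'.getD p 0).1 / Real.log 2| ≤ 1 / 2 ^ 61 := by
    intro p hp
    have h7 := hv p hp
    rw [List.map_map, List.getD_eq_getElem _ _ (by rw [List.length_map]; omega),
      List.getElem_map] at h7
    rw [List.getD_eq_getElem _ _ (by omega)]
    simp only [Function.comp, Prod.mk.injEq] at h7
    refine ⟨h7.1, ?_⟩
    have h8 := abs_le.1 (hg _ (hp'.subset (List.getElem_mem (by omega : p < l'.length)))).2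
    have h9 := abs_le.1 (or_one (l'[p]'(by omega)).2.2)
    rw [h7.2.1, abs_le]
    constructor <;> linarith [h8.1, h8.2, h9.1, h9.2]
  have h7 : ∑ p ∈ range n, (sv (A p) : ℂ) * ex k (-Real.log (l'.getD p 0).1) =
      ∑ j ∈ range n, (sv (AM (2 * j + 1)) : ℂ) * ex k (-Real.log (2 * j + 1 : ℕ)) := by
    rw [sum_congr rfl fun p hp => by rw [(h6 p (mem_range.1 hp)).1]]
    have h8 := sum_getD l' 0 fun e => (sv (AM e.1) : ℂ) * ex k (-Real.log e.1)
    rw [hlen'] at h8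
    have h9 := congrArg (fun x => (x.map fun e : ℕ => (sv (AM e) : ℂ) * ex k (-Real.log e)).sum) hl
    simp only [List.map_map] at h9
    rw [h8, (hp'.map _).sum_eq]
    exact h9.trans (list_range n _)
  have h8 : ‖raw n A g (k + 1 / 2) - ((Kc ^ 2 / 2 ^ 40 : ℝ) : ℂ) *
      ∑ p ∈ range n, (sv (A p) : ℂ) * ex k (-Real.log (l'.getD p 0).1)‖ ≤ 1e-7 := by
    have hk' : (k : ℝ) + 1 / 2 ≤ 2 ^ 23 := by
      have : (k : ℝ) + 1 ≤ 2 ^ 23 := by exact_mod_cast hk
      linarith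
    rw [raw, ← mul_sub, ← sum_sub_distrib, norm_mul, Complex.norm_real, Real.norm_eq_abs,
      abs_of_nonneg (by positivity)]
    have h9 : ‖∑ p ∈ range n, ((sv (A p) : ℂ) * ee (-((k : ℝ) + 1 / 2) * g p / 2 ^ 64) -
        (sv (A p) : ℂ) * ex k (-Real.log (l'.getD p 0).1))‖ ≤
        ∑ p ∈ range n, |sv (A p)| * (8 * (2 ^ 23 * (1 / 2 ^ 61))) := by
      refine (norm_sum_le _ _).trans (sum_le_sum fun p hp => ?_)
      rw [← mul_sub, norm_mul, Complex.norm_real, Real.norm_eq_abs, ex_eq]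
      refine mul_le_mul_of_nonneg_left ((norm_ee_sub _ _ 0).trans ?_) (abs_nonneg _)
      have h10 : -((k : ℝ) + 1 / 2) * g p / 2 ^ 64 -
          (k + 1 / 2) * (-Real.log (l'.getD p 0).1 / Real.log 2) - ((0 : ℤ) : ℝ) =
          -((k + 1 / 2) * ((g p : ℝ) / 2 ^ 64 - Real.log (l'.getD p 0).1 / Real.log 2)) := by
        push_cast
        ring
      rw [h10, abs_neg, abs_mul, abs_of_nonneg (by positivity : (0 : ℝ) ≤ k + 1 / 2)]
      exact mul_le_mul (by linarith [Real.pi_le_four])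
        (mul_le_mul hk' (h6 p (mem_range.1 hp)).2 (abs_nonneg _) (by positivity))
        (by positivity) (by norm_num)
    rw [← sum_mul] at h9
    have h11 : (mM : ℝ) = 2300000000000 := by simp [mM]
    have h12 : Kc ^ 2 / 2 ^ 40 ≤ 3 / 2 ^ 40 := by unfold Kc; norm_num
    refine (mul_le_mul h12 (h9.trans (mul_le_mul_of_nonneg_right h5 (by positivity)))
      (norm_nonneg _) (by positivity)).trans ?_
    rw [h11]
    norm_num
  rw [h7] at h8
  refine (norm_sub_le_norm_sub_add_norm_sub _ _ _).trans ((add_le_add h8 (approx k hn)).trans ?_)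
  norm_num

lemma odds1_ok (ho : StOdds) (t : ℕ) (ht : t ≤ 8191) :
    ((odds1 t).toList.map (·.1) = (List.range (t + 1)).map fun i => 2 * i + 1) ∧
      LogOk (odds1 t) (1 / 2 ^ 62) := by
  obtain ⟨h1, h2, -⟩ := ho t ht
  have h3 : (odds1 t).toList = (1, 0, 0) :: (odds t 1 0).toList := rfl
  constructor
  · rw [h3, List.map_cons, h1, List.range_succ_eq_map, List.map_cons, List.map_map]
    rfl
  · intro e he
    rw [h3, List.mem_cons] at he
    rcases he with rfl | he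
    · simp
    · exact h2 e he

end H96NSrcM

theorem srcM (hsv : StSV) (hc : StChk) (ho : StOdds) : StSrcM :=
  H96NSrcM.main hsv hc (odds1 8191) 8192 rfl (H96NSrcM.odds1_ok ho 8191 le_rfl).1
    (H96NSrcM.odds1_ok ho 8191 le_rfl).2

end Pool.Agent.Lib.MP_5db4ad_nt.NE
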