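import Pool.Agent.Lib.MP_5db4ad_nt.H96NLaneB

/-!
The synthesis: values of the trigonometric polynomial of a block on the grid.
-/

namespace Pool.Agent.Lib.MP_5db4ad_nt.NE

open S2 Finset
open scoped Real

namespace Syn

lemma oct_sq {x y t : ℝ} (hx : |x| ≤ 12 * t) (hy : |y| ≤ 12 * t) (h1 : |x + y| ≤ 17 * t)
    (h2 : |x - y| ≤ 17 * t) : x ^ 2 + y ^ 2 ≤ (13 * t) ^ 2 := by
  have hs : |x| + |y| ≤ 17 * t := by
    rw [abs_le] at h1 h2
    rcases abs_cases x with h | h <;> rcases abs_cases y with h' | h' <;> linarith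
  rw [← sq_abs x, ← sq_abs y]
  have ha := abs_nonneg x
  have hb := abs_nonneg y
  generalize |x| = a at *
  generalize |y| = b at *
  have h3 := mul_nonneg (sub_nonneg.2 hx) (sub_nonneg.2 hy)
  rcases le_total (a + b) (7 * t) with h | h
  · nlinarith [mul_nonneg ha hb]
  · nlinarith [mul_nonneg (sub_nonneg.2 h) (sub_nonneg.2 hs)]

lemma norm_le_of {z : ℂ} {r : ℝ} (hr : 0 ≤ r) (h : z.re ^ 2 + z.im ^ 2 ≤ r ^ 2) : ‖z‖ ≤ r := by
  refine (abs_le_of_sq_le_sq' ?_ hr).2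
  rw [Complex.sq_norm, Complex.normSq_apply]
  nlinarith

lemma norm_le_two {z : ℂ} {r : ℝ} (h1 : |z.re| ≤ r) (h2 : |z.im| ≤ r) : ‖z‖ ≤ 1.4143 * r := by
  have hr : 0 ≤ r := (abs_nonneg _).trans h1
  refine norm_le_of (by positivity) ?_
  have e1 := sq_le_sq' (abs_le.1 h1).1 (abs_le.1 h1).2
  have e2 := sq_le_sq' (abs_le.1 h2).1 (abs_le.1 h2).2
  nlinarith [sq_nonneg r]

lemma oct_pw {n t : ℕ} {f g : ℕ → ℕ} (ht : t ≤ 2 ^ 40)
    (h : ∀ p < n, |sv (f p)| ≤ 2 ^ 44 ∧ |sv (g p)| ≤ 2 ^ 44)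
    (ho : oct (ow 48 n) (pw 48 n f) (pw 48 n g) t = true) :
    ∀ p < n, ‖cz (f p) (g p)‖ ≤ 13 * t := by
  have hb : ∀ p < n, 2 ^ 46 - 2 ^ 44 ≤ f p ∧ f p ≤ 2 ^ 46 + 2 ^ 44 ∧ 2 ^ 46 - 2 ^ 44 ≤ g p ∧
      g p ≤ 2 ^ 46 + 2 ^ 44 := by
    intro p hp
    obtain ⟨h1, h2⟩ := h p hp
    rw [abs_le, sv] at h1 h2
    have k1 : ((52776558133248 : ℕ) : ℝ) ≤ f p := by push_cast; linarith [h1.1]
    have k2 : (f p : ℝ) ≤ ((87960930222080 : ℕ) : ℝ) := by push_cast; linarith [h1.2]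
    have k3 : ((52776558133248 : ℕ) : ℝ) ≤ g p := by push_cast; linarith [h2.1]
    have k4 : (g p : ℝ) ≤ ((87960930222080 : ℕ) : ℝ) := by push_cast; linarith [h2.2]
    rw [Nat.cast_le] at k1 k2 k3 k4
    omega
  have e : oct (ow 48 n) (pw 48 n f) (pw 48 n g) t =
      ((rng (ow 48 n) (pw 48 n f) (12 * t) && rng (ow 48 n) (pw 48 n g) (12 * t)) &&
      (rng (ow 48 n) (pw 48 n f + pw 48 n g - Nat.shiftLeft (ow 48 n) 46) (17 * t) &&
        rng (ow 48 n) (pw 48 n f + Nat.shiftLeft (ow 48 n) 46 - pw 48 n g) (17 * t))) := rfl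
  rw [e, ow_shl (by norm_num), pw_add, pw_add, pw_sub (fun p hp => by have := hb p hp; omega),
    pw_sub (fun p hp => by have := hb p hp; omega)] at ho
  simp only [Bool.and_eq_true] at ho
  obtain ⟨⟨h1, h2⟩, h3, h4⟩ := ho
  have g1 := rng_pw le_rfl (fun p hp => by have := hb p hp; omega) (by omega) h1
  have g2 := rng_pw le_rfl (fun p hp => by have := hb p hp; omega) (by omega) h2
  have g3 := rng_pw le_rfl (fun p hp => by have := hb p hp; omega) (by omega) h3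
  have g4 := rng_pw le_rfl (fun p hp => by have := hb p hp; omega) (by omega) h4
  intro p hp
  have k1 := g1 p hp
  have k2 := g2 p hp
  have k3 := g3 p hp
  have k4 := g4 p hp
  have hb' := hb p hp
  have e3 : sv (f p + g p - 2 ^ 46) = sv (f p) + sv (g p) := by
    simp only [sv]
    rw [Nat.cast_sub (by omega)]
    push_cast
    ring
  have e4 : sv (f p + 2 ^ 46 - g p) = sv (f p) - sv (g p) := by
    simp only [sv]
    rw [Nat.cast_sub (by omega)]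
    push_cast
    ring
  rw [e3] at k3
  rw [e4] at k4
  push_cast at k1 k2 k3 k4
  exact norm_le_of (by positivity) (oct_sq k1 k2 k3 k4)

/-- the modulus of the chirp sum is the modulus of the trigonometric polynomial -/
lemma chirp (H M i : ℕ) (hM : 0 < M) (S : ℕ → ℂ) (w : ℝ) (q : ℤ) (hw : w - H = i - M * q) :
    ‖∑ j ∈ range (2 * H), S j * ee ((w - j) ^ 2 / (2 * M))‖ =
      ‖PP H (fun j => (starRingEnd ℂ) (S j) * ee (-(((j : ℝ) - H) ^ 2 / (2 * M)))) (i / M)‖ := by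
  have hM' : (M : ℝ) ≠ 0 := by positivity
  have e : (starRingEnd ℂ) (∑ j ∈ range (2 * H), S j * ee ((w - j) ^ 2 / (2 * M))) =
      ee (-((w - H) ^ 2 / (2 * M))) *
      PP H (fun j => (starRingEnd ℂ) (S j) * ee (-(((j : ℝ) - H) ^ 2 / (2 * M)))) (i / M) := by
    rw [map_sum, PP, mul_sum]
    refine sum_congr rfl fun j _ => ?_
    rw [map_mul, conj_ee]
    have e1 : -((w - j) ^ 2 / (2 * M)) = -((w - H) ^ 2 / (2 * M)) +
        (-(((j : ℝ) - H) ^ 2 / (2 * M)) + (((j : ℝ) - H) * (i / M) +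
          ((-(((j : ℤ) - H) * q) : ℤ) : ℝ))) := by
      have e2 : w = H + i - M * q := by linarith
      rw [e2]
      push_cast
      field_simp
      ring
    rw [e1, ee_add, ee_add, ee_add, ee_int]
    ring
  rw [← Complex.norm_conj, e, norm_mul, norm_ee, one_mul]

lemma syn_eq (lm a H rx ry : ℕ) : syn lm a H rx ry =
    cv lm (cmb (p2 (a - 2)) (rdN (oN (p2 (a - 2))) rx 12 26)
      (rdN (oN (p2 (a - 2))) (Nat.shiftLeft (oN (p2 (a - 2))) 47 - ry) 12 26) +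
      p2 (192 <<< a) - oW (p2 (a - 2)) * 618970019642690137483116544)
      H (p2 (lm - 2)) (p2 (lm - 2)) := by
  unfold syn
  rw [fz_eq]
  rfl

/-- the vector that is multiplied by the table -/
lemma vec (a : ℕ) (ha : 2 ≤ a) (fx fy : ℕ → ℕ)
    (h : ∀ p < 2 ^ a, |sv (fx p)| ≤ 2 ^ 36 ∧ |sv (fy p)| ≤ 2 ^ 36) :
    ∃ sr si : ℕ → ℤ, ((cmb (p2 (a - 2)) (rdN (oN (p2 (a - 2))) (pw 48 (2 ^ a) fx) 12 26)
      (rdN (oN (p2 (a - 2))) (Nat.shiftLeft (oN (p2 (a - 2))) 47 - pw 48 (2 ^ a) fy) 12 26) +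
      p2 (192 <<< a) - oW (p2 (a - 2)) * 618970019642690137483116544 : ℕ) : ℤ) =
      iw 192 (2 ^ a + 1) (fun i => sr i + si i * 2 ^ 64) ∧ sr (2 ^ a) = 1 ∧ si (2 ^ a) = 0 ∧
      ∀ p < 2 ^ a, |(sr (sig (2 ^ (a - 2)) p) : ℝ) - sv (fx p) / 2 ^ 12| ≤ 1 / 2 ∧
        |(si (sig (2 ^ (a - 2)) p) : ℝ) + sv (fy p) / 2 ^ 12| ≤ 1 / 2 := by
  rw [p2_eq, p2_eq, oN_eq, oW_eq, Nat.shiftLeft_eq 192 a]
  have hB := four_mul_p2 ha
  generalize 2 ^ (a - 2) = n at *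
  generalize 2 ^ a = B at *
  subst hB
  have hy : ∀ p < 4 * n, fy p ≤ 2 ^ 47 := fun p hp =>
    (lt_of_sv (lt_of_le_of_lt (h p hp).2 (by norm_num))).2.le
  have hs : ∀ p < 4 * n, sv (2 ^ 47 - fy p) = -sv (fy p) := fun p hp => by
    simp only [sv]
    rw [Nat.cast_sub (hy p hp)]
    push_cast
    ring
  rw [ow_shl (by norm_num), pw_sub hy, ow_mul (by norm_num)]
  obtain ⟨r1, e1, h1⟩ := rdN_pw (n := 4 * n) (s := 12) (w := 26) (f := fx) (by norm_num)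
    (by norm_num) (by norm_num) fun p hp => by
      have := (h p hp).1
      norm_num at this ⊢
      linarith
  obtain ⟨r2, e2, h2⟩ := rdN_pw (n := 4 * n) (s := 12) (w := 26) (f := fun p => 2 ^ 47 - fy p)
    (by norm_num) (by norm_num) (by norm_num) fun p hp => by
      have := (h p hp).2
      rw [hs p hp, abs_neg]
      norm_num at this ⊢
      linarith
  rw [e1, e2, cmb_pw (fun p hp => (h1 p hp).1.trans (by norm_num))
    (fun p hp => (h2 p hp).1.trans (by norm_num))]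
  have hlt : (pw 192 (4 * n) fun _ => 618970019642690137483116544) < 2 ^ (192 * (4 * n)) :=
    pw_lt fun _ _ => by norm_num
  refine ⟨fun i => if i < 4 * n then (r1 (tau n i) : ℤ) - 2 ^ 25 else 1,
    fun i => if i < 4 * n then (r2 (tau n i) : ℤ) - 2 ^ 25 else 0, ?_, by simp, by simp, ?_⟩
  · rw [Nat.cast_sub (by omega), Nat.cast_add, pw_cast, pw_cast, iw_succ, add_sub_right_comm,
      iw_sub]
    congr 1
    · refine iw_congr fun j hj => ?_
      simp only [hj, if_true]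
      push_cast
      ring
    · simp
  · intro p hp
    have k1 := (h1 p hp).2
    have k2 := (h2 p hp).2
    rw [hs p hp] at k2
    simp only [sig_lt hp, if_true, tau_sig hp]
    push_cast
    rw [neg_div, sub_neg_eq_add] at k2
    norm_num at k1 k2 ⊢
    exact ⟨k1, k2⟩

end Syn

open Syn in
theorem synOk (hcv : StCv) (hH : StH) : StSyn := by
  intro lm a t fx fy h5 h18 ha hal ht h
  obtain ⟨sr, si, hS, t1, t2, hr⟩ := vec a ha fx fy h
  have hB := four_mul_p2 ha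
  have hM : 4 * 2 ^ (lm - 2) = 2 ^ lm := four_mul_p2 (by omega)
  have hB2 : 2 * 2 ^ (a - 1) = 2 ^ a := by
    rw [← pow_succ']
    congr 1
    omega
  have hBN : 2 ^ a ≤ 2 ^ (lm - 2) := Nat.pow_le_pow_right (by norm_num) (by omega)
  have hB16 : ((2 ^ a : ℕ) : ℝ) ≤ 2 ^ 16 := by
    exact_mod_cast Nat.pow_le_pow_right (by norm_num) (show a ≤ 16 by omega)
  have hn : ∀ j < 2 ^ a, ‖ci (sr j) (si j)‖ ≤ 1.4143 * (2 ^ 24 + 1 / 2) := by
    intro j hj
    obtain ⟨p, hp, rfl⟩ := sig_surj (n := 2 ^ (a - 2)) (j := j) (by omega)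
    rw [hB] at hp
    obtain ⟨k1, k2⟩ := hr p hp
    obtain ⟨k3, k4⟩ := h p hp
    rw [abs_le] at k1 k2 k3 k4
    refine norm_le_two ?_ ?_
    · change |(sr _ : ℝ)| ≤ _
      rw [abs_le]
      constructor <;> linarith [k1.1, k1.2, k3.1, k3.2]
    · change |(si _ : ℝ)| ≤ _
      rw [abs_le]
      constructor <;> linarith [k2.1, k2.2, k4.1, k4.2]
  have htop : ci (sr (2 ^ a)) (si (2 ^ a)) = 1 := by
    rw [t1, t2]
    apply Complex.ext <;> simp [ci]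
  set ν : ℝ := (2 ^ a : ℕ) * (1.4143 * (2 ^ 24 + 1 / 2)) + 1 with hν
  have hsum : ∑ i ∈ range (2 ^ a + 1), ‖ci (sr i) (si i)‖ ≤ ν := by
    rw [sum_range_succ, htop, norm_one]
    have := sum_le_card_nsmul (range (2 ^ a)) (fun i => ‖ci (sr i) (si i)‖) _
      fun i hi => hn i (mem_range.1 hi)
    rw [card_range, nsmul_eq_mul] at this
    linarith
  have hν2 : ν ≤ 1.9 * 2 ^ 40 := by
    rw [hν]
    nlinarith
  have hN' : hN lm = 2 ^ lm + 2 ^ (lm - 2) + 16 := by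
    have : hN lm = p2 lm + p2 (lm - 2) + 16 := rfl
    rw [this, p2_eq, p2_eq]
  have hO' : 2 ^ lm ≤ hO lm := by
    have : hO lm = p2 lm + p2 (lm - 3) + 8 := rfl
    rw [this, p2_eq]
    omega
  obtain ⟨X, Y, hXY, f, g, rfl, rfl, hfg⟩ := hcv lm _ (mkH lm) (2 ^ (lm - 2)) (2 ^ (lm - 2))
    (2 ^ a + 1) sr si ν (hH lm h5 h18) (by omega) (by omega) hS hsum hν2
  refine ⟨pw 48 (4 * 2 ^ (lm - 2)) f, pw 48 (4 * 2 ^ (lm - 2)) g, ?_, fun ho => ?_⟩
  · rw [syn_eq, p2_eq (lm - 2)]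
    exact hXY
  rw [p2_eq, oN_eq] at ho
  have hz : ∀ w : ℕ → ℝ, ‖4 * ∑ i ∈ range (2 ^ a + 1), ci (sr i) (si i) * ee (w i)‖ ≤ 4 * ν := by
    intro w
    rw [norm_mul]
    have e4 : ‖(4 : ℂ)‖ = 4 := by simp
    rw [e4]
    refine mul_le_mul_of_nonneg_left ((norm_sum_le _ _).trans (le_trans (le_of_eq ?_) hsum))
      (by norm_num)
    exact sum_congr rfl fun i _ => by rw [norm_mul, norm_ee, mul_one]
  have hoct := oct_pw ht (fun p hp => by
    have k1 := hfg p hp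
    have k2 := norm_le_norm_add_norm_sub' (cz (f p) (g p)) _ |>.trans (add_le_add (hz _) k1)
    have k3 := sv_le_norm (f p) (g p)
    constructor <;> linarith [k3.1, k3.2]) ho
  refine ⟨fun j => (starRingEnd ℂ) (ci (sr j) (si j)) / 2 ^ 24 * ee (-al lm a j), ?_, ?_⟩
  · intro p hp
    obtain ⟨k1, k2⟩ := hr p hp
    rw [← sub_mul, norm_mul, norm_ee, mul_one]
    have e : (starRingEnd ℂ) (ci (sr (sig (2 ^ (a - 2)) p)) (si (sig (2 ^ (a - 2)) p))) / 2 ^ 24 -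
        cz (fx p) (fy p) / 2 ^ 36 = (⟨sr (sig (2 ^ (a - 2)) p) - sv (fx p) / 2 ^ 12,
          -(si (sig (2 ^ (a - 2)) p) + sv (fy p) / 2 ^ 12)⟩ : ℂ) / ((2 ^ 24 : ℝ) : ℂ) := by
      have e1 : (2 : ℂ) ^ 24 = ((2 ^ 24 : ℝ) : ℂ) := by push_cast; rfl
      have e2 : (2 : ℂ) ^ 36 = ((2 ^ 36 : ℝ) : ℂ) := by push_cast; rfl
      rw [e1, e2]
      apply Complex.ext
      · simp only [Complex.sub_re, Complex.div_ofReal_re, Complex.conj_re, ci, cz]
        ring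
      · simp only [Complex.sub_im, Complex.div_ofReal_im, Complex.conj_im, ci, cz]
        ring
    rw [e, norm_div, Complex.norm_real, Real.norm_of_nonneg (by positivity),
      div_le_iff₀ (by positivity)]
    refine (norm_le_two (r := 1 / 2) k1 (by rw [← abs_neg] at k2; exact k2)).trans (by norm_num)
  · intro i hi
    set D := i + hO lm + 2 ^ (a - 1) - 2 ^ (lm - 2) with hD
    have hD' : D + 2 ^ (lm - 2) = i + hO lm + 2 ^ (a - 1) := by omega
    obtain ⟨p, hp, hj⟩ := sig_surj (n := 2 ^ (lm - 2)) (j := D % 2 ^ lm)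
      (by rw [hM]; exact Nat.mod_lt _ (by positivity))
    have k1 := hfg p hp
    have k2 := hoct p hp
    have hdm : ((D % 2 ^ lm : ℕ) : ℝ) + (2 ^ lm : ℕ) * (D / 2 ^ lm : ℕ) = D := by
      exact_mod_cast Nat.mod_add_div D (2 ^ lm)
    have hD'' : (D : ℝ) + (2 ^ (lm - 2) : ℕ) = i + hO lm + (2 ^ (a - 1) : ℕ) := by
      exact_mod_cast hD'
    have hc := chirp (2 ^ (a - 1)) (2 ^ lm) i (by positivity) (fun j => ci (sr j) (si j))
      (((2 ^ (lm - 2) : ℕ) : ℝ) + (D % 2 ^ lm : ℕ) - hO lm) (D / 2 ^ lm : ℕ)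
      (by rw [Int.cast_natCast]; linarith)
    rw [hB2] at hc
    have e1 : PP (2 ^ (a - 1)) (fun j => (starRingEnd ℂ) (ci (sr j) (si j)) / 2 ^ 24 *
        ee (-al lm a j)) (i / (2 ^ lm : ℕ)) = PP (2 ^ (a - 1)) (fun j => (starRingEnd ℂ)
          (ci (sr j) (si j)) * ee (-(((j : ℝ) - (2 ^ (a - 1) : ℕ)) ^ 2 / (2 * (2 ^ lm : ℕ)))))
          (i / (2 ^ lm : ℕ)) / 2 ^ 24 := by
      rw [PP, PP, sum_div]
      refine sum_congr rfl fun j _ => ?_
      simp only [al]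
      push_cast
      ring
    rw [e1, norm_div, ← hc]
    simp only [hj] at k1
    rw [sum_range_succ, htop, one_mul, mul_add] at k1
    have e2 : ∑ j ∈ range (2 ^ a), ci (sr j) (si j) * ee ((((2 ^ (lm - 2) : ℕ) : ℝ) +
        (D % 2 ^ lm : ℕ) - hO lm - j) ^ 2 / (2 * (2 ^ lm : ℕ))) =
        ∑ j ∈ range (2 ^ a), ci (sr j) (si j) * ee ((((2 ^ (lm - 2) : ℕ) : ℝ) +
        (D % 2 ^ lm : ℕ) - j - hO lm) ^ 2 / (2 * 2 ^ lm)) := by
      refine sum_congr rfl fun j _ => ?_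
      congr 2
      push_cast
      ring
    rw [e2]
    generalize (∑ j ∈ range (2 ^ a), ci (sr j) (si j) * ee ((((2 ^ (lm - 2) : ℕ) : ℝ) +
        (D % 2 ^ lm : ℕ) - j - hO lm) ^ 2 / (2 * 2 ^ lm))) = Z at k1 ⊢
    generalize ((((2 ^ (lm - 2) : ℕ) : ℝ) + (D % 2 ^ lm : ℕ) - (2 ^ a : ℕ) - hO lm) ^ 2 /
      (2 * 2 ^ lm)) = θ at k1
    have e3 : 4 * Z = cz (f p) (g p) - (cz (f p) (g p) - (4 * Z + 4 * ee θ)) - 4 * ee θ := by ring
    have k3 : ‖4 * Z‖ ≤ 13 * t + (ν * 8.2e-7 + 1.5) + 4 := by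
      rw [e3]
      refine (norm_sub_le _ _).trans (add_le_add ((norm_sub_le _ _).trans (add_le_add k2 k1)) ?_)
      rw [norm_mul, norm_ee]
      simp
    have e4 : ‖4 * Z‖ = 4 * ‖Z‖ := by simp
    have e5 : ‖(2 : ℂ) ^ 24‖ = 2 ^ 24 := by simp
    rw [e4, hν] at k3
    rw [e5, div_le_iff₀ (by positivity)]
    have h0 : (0 : ℝ) ≤ 2 ^ a := by positivity
    push_cast at k3
    linarith

end Pool.Agent.Lib.MP_5db4ad_nt.NE
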