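import Pool.Agent.Lib.MP_5db4ad_nt.H96NSt
import Pool.Agent.Lib.MP_5db4ad_nt.UnitSpec

/-!
The tables of constants used by the programs.
-/

namespace Pool.Agent.Lib.MP_5db4ad_nt.NE

open S2 Finset
open scoped Real

namespace Tab

/-- the Taylor polynomial of `arctan` -/
def atS (x : ℚ) (n : ℕ) : ℚ := ∑ i ∈ range n, (-1) ^ i * x ^ (2 * i + 1) / (2 * i + 1)

/-- the Taylor polynomial of `artanh` -/
def lgS (x : ℚ) (n : ℕ) : ℚ := ∑ i ∈ range n, x ^ (2 * i + 1) / (2 * i + 1)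

/-- a lower bound for `log ((1 + x) / (1 - x))` -/
def lgLo (x : ℚ) (n : ℕ) : ℚ := 2 * (lgS x n - |x| ^ (2 * n + 1) / (1 - x ^ 2))

/-- an upper bound for `log ((1 + x) / (1 - x))` -/
def lgHi (x : ℚ) (n : ℕ) : ℚ := 2 * (lgS x n + |x| ^ (2 * n + 1) / (1 - x ^ 2))

lemma arctan_sub (x : ℝ) (hx : 0 ≤ x) (n : ℕ) :
    |Real.arctan x - ∑ i ∈ range n, (-1) ^ i * x ^ (2 * i + 1) / (2 * i + 1)| ≤ x ^ (2 * n + 1) := by
  have hd : ∀ y ∈ Set.Icc (0 : ℝ) x, HasDerivWithinAt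
      (fun y : ℝ => Real.arctan y - ∑ i ∈ range n, (-1) ^ i * y ^ (2 * i + 1) / (2 * i + 1))
      ((-y ^ 2) ^ n / (1 + y ^ 2)) (Set.Icc 0 x) y := by
    intro y _
    have h1 : HasDerivAt (fun y : ℝ => ∑ i ∈ range n, (-1) ^ i * y ^ (2 * i + 1) / (2 * i + 1 : ℝ))
        (∑ i ∈ range n, (-y ^ 2) ^ i) y := by
      refine HasDerivAt.fun_sum fun i _ => ?_
      have h2 := ((hasDerivAt_pow (2 * i + 1) y).const_mul ((-1 : ℝ) ^ i)).div_const (2 * i + 1 : ℝ)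
      have h3 : (2 * i + 1 : ℝ) ≠ 0 := by positivity
      refine h2.congr_deriv ?_
      rw [neg_pow (y ^ 2), ← pow_mul, Nat.add_sub_cancel]
      push_cast
      field_simp
    refine ((Real.hasDerivAt_arctan y).fun_sub h1).hasDerivWithinAt.congr_deriv ?_
    have h4 : (1 + y ^ 2 : ℝ) ≠ 0 := by positivity
    have h5 := mul_neg_geom_sum (-y ^ 2) n
    rw [sub_neg_eq_add] at h5
    field_simp
    linarith
  have hb : ∀ y ∈ Set.Icc (0 : ℝ) x, ‖(-y ^ 2) ^ n / (1 + y ^ 2)‖ ≤ x ^ (2 * n) := by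
    intro y hy
    rw [Real.norm_eq_abs, abs_div, abs_pow, abs_neg, abs_of_nonneg (sq_nonneg y),
      abs_of_pos (by positivity), ← pow_mul]
    exact (div_le_self (pow_nonneg hy.1 _) (by nlinarith [sq_nonneg y])).trans
      (pow_le_pow_left₀ hy.1 hy.2 _)
  have := (convex_Icc (0 : ℝ) x).norm_image_sub_le_of_norm_hasDerivWithin_le hd hb
    (Set.left_mem_Icc.2 hx) (Set.right_mem_Icc.2 hx)
  simpa [abs_of_nonneg hx, pow_succ] using this

lemma arctan_mem (x : ℚ) (hx : 0 ≤ x) (n : ℕ) :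
    ((atS x n - x ^ (2 * n + 1) : ℚ) : ℝ) ≤ Real.arctan x ∧
      Real.arctan x ≤ ((atS x n + x ^ (2 * n + 1) : ℚ) : ℝ) := by
  have h := abs_le.1 (arctan_sub x (by exact_mod_cast hx) n)
  unfold atS
  push_cast
  constructor <;> linarith [h.1, h.2]

lemma log_mem (x : ℚ) (hx : |x| < 1) (n : ℕ) {y : ℝ} (hy : y = (1 + x) / (1 - x)) :
    (lgLo x n : ℝ) ≤ Real.log y ∧ Real.log y ≤ (lgHi x n : ℝ) := by
  have h := abs_le.1 (Real.sum_range_sub_log_div_le (x := x) (by exact_mod_cast hx) n)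
  unfold lgLo lgHi lgS
  rw [hy]
  push_cast
  constructor <;> linarith [h.1, h.2]

lemma close {t c : ℕ} {A : ℝ} {lo hi : ℚ} (h1 : (lo : ℝ) ≤ A) (h2 : A ≤ hi) (ht : 1 ≤ t)
    (k1 : ((t : ℚ) - 1) / 2 ^ c * (2 * 3.14159265358979323847) ≤ lo)
    (k2 : hi ≤ ((t : ℚ) + 1) / 2 ^ c * (2 * 3.14159265358979323846)) :
    |(t : ℝ) / 2 ^ c - A / (2 * π)| ≤ 1 / 2 ^ c := by
  have p1 := Real.pi_gt_d20
  have p2 := Real.pi_lt_d20
  have e1 : ((t : ℝ) - 1) / 2 ^ c * (2 * 3.14159265358979323847) ≤ lo := by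
    have := (Rat.cast_le (K := ℝ)).2 k1
    push_cast at this
    exact this
  have e2 : (hi : ℝ) ≤ ((t : ℝ) + 1) / 2 ^ c * (2 * 3.14159265358979323846) := by
    have := (Rat.cast_le (K := ℝ)).2 k2
    push_cast at this
    exact this
  have h3 : (1 : ℝ) ≤ t := by exact_mod_cast ht
  have h4 : 0 ≤ ((t : ℝ) - 1) / 2 ^ c := div_nonneg (by linarith) (by positivity)
  have h5 : 0 ≤ ((t : ℝ) + 1) / 2 ^ c := by positivity
  have h6 : ((t : ℝ) - 1) / 2 ^ c ≤ A / (2 * π) := by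
    rw [le_div_iff₀ (by positivity)]
    nlinarith
  have h7 : A / (2 * π) ≤ ((t : ℝ) + 1) / 2 ^ c := by
    rw [div_le_iff₀ (by positivity)]
    nlinarith
  rw [sub_div] at h6
  rw [add_div] at h7
  rw [abs_le]
  constructor <;> linarith

lemma ta_zero : ta 0 = 2 ^ 41 := by decide +kernel

lemma ta_mono : ∀ b < 31, ta b ≤ 2 * ta (b + 1) ∧ ta (b + 1) ≤ ta b := by decide +kernel

lemma ta_chk : ∀ b < 32, b = 0 ∨ (1 ≤ ta b ∧
    ((ta b : ℚ) - 1) / 2 ^ 44 * (2 * 3.14159265358979323847) ≤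
      atS (1 / 2 ^ b) 40 - (1 / 2 ^ b) ^ (2 * 40 + 1) ∧
    atS (1 / 2 ^ b) 40 + (1 / 2 ^ b) ^ (2 * 40 + 1) ≤
      ((ta b : ℚ) + 1) / 2 ^ 44 * (2 * 3.14159265358979323846)) := by decide +kernel

lemma lb_chk : ∀ b < 24, 1 ≤ lb b ∧
    ((lb b : ℚ) - 1) / 2 ^ 36 * (2 * 3.14159265358979323847) ≤ lgLo (1 / (2 ^ (b + 1) + 1)) 30 ∧
    lgHi (1 / (2 ^ (b + 1) + 1)) 30 ≤
      ((lb b : ℚ) + 1) / 2 ^ 36 * (2 * 3.14159265358979323846) := by decide +kernel

lemma gain_chk : ∀ n < 33, 20 ≤ n →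
    ((1.6467602581210656 - 2e-12) ^ 2 : ℚ) ≤ ∏ b ∈ range n, (1 + 1 / 4 ^ b) ∧
    ∏ b ∈ range n, (1 + 1 / 4 ^ b) ≤ ((1.6467602581210656 + 2e-12) ^ 2 : ℚ) := by decide +kernel

lemma ll_chk :
    -(0.6931471805599453094172 / 2 ^ 56) ≤ 9754017956498184655 / 2 ^ 64 * 0.6931471805599453094172 +
      lgLo ((0.6931471805599453094172 - 1) / (0.6931471805599453094172 + 1)) 20 ∧
    9754017956498184655 / 2 ^ 64 * 0.6931471805599453094173 +
      lgHi ((0.6931471805599453094173 - 1) / (0.6931471805599453094173 + 1)) 20 ≤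
      0.6931471805599453094172 / 2 ^ 56 := by decide +kernel

lemma l3_chk :
    (29237397617229858719 / 2 ^ 64 - 1 / 2 ^ 60) * 0.6931471805599453094173 ≤ lgLo (1 / 2) 40 ∧
    lgHi (1 / 2) 40 ≤ (29237397617229858719 / 2 ^ 64 + 1 / 2 ^ 60) * 0.6931471805599453094172 := by
  decide +kernel

lemma ta_ok (b : ℕ) (hb : b < 32) :
    |(ta b : ℝ) / 2 ^ 44 - Real.arctan (1 / 2 ^ b) / (2 * π)| ≤ 1 / 2 ^ 44 := by
  rcases ta_chk b hb with rfl | ⟨h1, h2, h3⟩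
  · have := Real.pi_pos
    rw [ta_zero, pow_zero, div_one, Real.arctan_one,
      show π / 4 / (2 * π) = 1 / 8 by field_simp; norm_num]
    norm_num
  · have h := arctan_mem (1 / 2 ^ b) (by positivity) 40
    rw [show (((1 / 2 ^ b : ℚ)) : ℝ) = 1 / 2 ^ b by push_cast; rfl] at h
    exact close h.1 h.2 h1 h2 h3

lemma lb_ok (b : ℕ) (hb : b < 24) :
    |(lb b : ℝ) / 2 ^ 36 - Real.log (1 + 1 / 2 ^ b) / (2 * π)| ≤ 1 / 2 ^ 36 := by
  obtain ⟨h1, h2, h3⟩ := lb_chk b hb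
  have h4 : (0 : ℚ) < 2 ^ (b + 1) := by positivity
  have h := log_mem (1 / (2 ^ (b + 1) + 1)) (by
    rw [abs_of_pos (by positivity), div_lt_one (by positivity)]
    linarith) 30 (y := 1 + 1 / 2 ^ b) (by
    push_cast
    have h5 : (1 : ℝ) - 1 / (2 ^ (b + 1) + 1) = 2 ^ (b + 1) / (2 ^ (b + 1) + 1) := by
      field_simp
      ring
    rw [h5]
    field_simp
    ring)
  exact close h.1 h.2 h1 h2 h3

lemma gain_ok (n : ℕ) (h1 : 20 ≤ n) (h2 : n ≤ 32) :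
    |∏ b ∈ range n, √(1 + 1 / 4 ^ b) - Kc| ≤ 2e-12 := by
  obtain ⟨h3, h4⟩ := gain_chk n (by omega) h1
  have e3 : ((1.6467602581210656 - 2e-12) ^ 2 : ℝ) ≤ ∏ b ∈ range n, (1 + 1 / 4 ^ b) := by
    have := (Rat.cast_le (K := ℝ)).2 h3
    push_cast at this
    exact this
  have e4 : ∏ b ∈ range n, (1 + 1 / 4 ^ b) ≤ ((1.6467602581210656 + 2e-12) ^ 2 : ℝ) := by
    have := (Rat.cast_le (K := ℝ)).2 h4
    push_cast at this
    exact this
  rw [← Real.sqrt_prod _ fun b _ => by positivity]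
  have e5 := Real.le_sqrt_of_sq_le e3
  have e6 := Real.sqrt_le_iff.2 ⟨by norm_num, e4⟩
  rw [abs_le, Kc]
  constructor <;> linarith

lemma ll_ok :
    |(9754017956498184655 : ℝ) / 2 ^ 64 + Real.log (Real.log 2) / Real.log 2| ≤ 1 / 2 ^ 56 := by
  obtain ⟨l1, l2⟩ := log_two_bounds
  obtain ⟨c1, c2⟩ := ll_chk
  have a1 := (log_mem ((0.6931471805599453094172 - 1) / (0.6931471805599453094172 + 1))
    (by norm_num [abs_lt]) 20 (y := 0.6931471805599453094172) (by norm_num)).1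
  have a2 := (log_mem ((0.6931471805599453094173 - 1) / (0.6931471805599453094173 + 1))
    (by norm_num [abs_lt]) 20 (y := 0.6931471805599453094173) (by norm_num)).2
  generalize lgLo _ 20 = u at c1 a1
  generalize lgHi _ 20 = v at c2 a2
  have d1 : -(0.6931471805599453094172 / 2 ^ 56 : ℝ) ≤
      9754017956498184655 / 2 ^ 64 * 0.6931471805599453094172 + u := by
    have := (Rat.cast_le (K := ℝ)).2 c1
    push_cast at this
    exact this
  have d2 : 9754017956498184655 / 2 ^ 64 * 0.6931471805599453094173 + (v : ℝ) ≤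
      0.6931471805599453094172 / 2 ^ 56 := by
    have := (Rat.cast_le (K := ℝ)).2 c2
    push_cast at this
    exact this
  have b1 := Real.log_le_log (by norm_num) l1.le
  have b2 := Real.log_le_log (by linarith) l2.le
  have h0 : 0 < Real.log 2 := by linarith
  have e1 : -(1 / 2 ^ 56) - 9754017956498184655 / 2 ^ 64 ≤ Real.log (Real.log 2) / Real.log 2 := by
    rw [le_div_iff₀ h0]
    linarith
  have e2 : Real.log (Real.log 2) / Real.log 2 ≤ 1 / 2 ^ 56 - 9754017956498184655 / 2 ^ 64 := by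
    rw [div_le_iff₀ h0]
    linarith
  rw [abs_le]
  constructor <;> linarith

lemma l3_ok : |(g3 : ℝ) / 2 ^ 64 - Real.log 3 / Real.log 2| ≤ 1 / 2 ^ 60 := by
  obtain ⟨l1, l2⟩ := log_two_bounds
  obtain ⟨c1, c2⟩ := l3_chk
  obtain ⟨a1, a2⟩ := log_mem (1 / 2) (by norm_num [abs_lt]) 40 (y := 3) (by norm_num)
  generalize lgLo _ 40 = u at c1 a1
  generalize lgHi _ 40 = v at c2 a2
  have d1 : (29237397617229858719 / 2 ^ 64 - 1 / 2 ^ 60) * 0.6931471805599453094173 ≤ (u : ℝ) := by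
    have := (Rat.cast_le (K := ℝ)).2 c1
    push_cast at this
    exact this
  have d2 : (v : ℝ) ≤ (29237397617229858719 / 2 ^ 64 + 1 / 2 ^ 60) * 0.6931471805599453094172 := by
    have := (Rat.cast_le (K := ℝ)).2 c2
    push_cast at this
    exact this
  have h0 : 0 < Real.log 2 := by linarith
  have e0 : (g3 : ℝ) = 29237397617229858719 := by
    rw [show g3 = 29237397617229858719 from rfl]
    norm_num
  have e1 : 29237397617229858719 / 2 ^ 64 - 1 / 2 ^ 60 ≤ Real.log 3 / Real.log 2 := by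
    rw [le_div_iff₀ h0]
    linarith
  have e2 : Real.log 3 / Real.log 2 ≤ 29237397617229858719 / 2 ^ 64 + 1 / 2 ^ 60 := by
    rw [div_le_iff₀ h0]
    linarith
  rw [abs_le, e0]
  constructor <;> linarith

end Tab

theorem tabOk : StTab :=
  ⟨Tab.ta_ok, Tab.ta_zero, Tab.ta_mono, Tab.lb_ok, Tab.gain_ok, Tab.ll_ok, Tab.l3_ok⟩

end Pool.Agent.Lib.MP_5db4ad_nt.NE
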