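import Pool.Agent.Lib.MP_5db4ad_nt.S2Defs2

/-!
The entire function given by the alternating series of `n ^ (-w)`: its relation to zeta and
polynomial growth to the right of the line of real part minus one half.
-/

namespace Pool.Agent.Lib.MP_5db4ad_nt.S2.Afe

open Filter Topology Complex HurwitzZeta Set
open scoped Real

/-- the continuation of the sum of `(-1) ^ n * n ^ (-w)` -/
noncomputable def EE : ℂ → ℂ := cosZeta ((1 / 2 : ℝ) : UnitAddCircle)

lemma EE_diff : Differentiable ℂ EE := by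
  refine differentiable_cosZeta_of_ne_zero fun h => ?_
  rw [AddCircle.coe_eq_zero_iff_of_mem_Ico (by norm_num)] at h
  norm_num at h

lemma EE_sum {w : ℂ} (hw : 1 < w.re) :
    HasSum (fun n : ℕ => (-1 : ℂ) ^ n * (n : ℂ) ^ (-w)) (EE w) := by
  refine (hasSum_nat_cosZeta (1 / 2) hw).congr_fun fun n => ?_
  have e : 2 * π * (1 / 2) * n = n * π := by ring
  rw [e, Real.cos_nat_mul_pi, cpow_neg]
  push_cast
  ring

lemma split {w : ℂ} (hw : 1 < w.re) : ∃ O : ℂ,
    HasSum (fun k : ℕ => ((2 * k : ℕ) : ℂ) ^ (-w)) (2 ^ (-w) * riemannZeta w) ∧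
    HasSum (fun k : ℕ => ((2 * k + 1 : ℕ) : ℂ) ^ (-w)) O ∧
    riemannZeta w = 2 ^ (-w) * riemannZeta w + O ∧ EE w = 2 ^ (-w) * riemannZeta w - O := by
  have h0 : HasSum (fun n : ℕ => (n : ℂ) ^ (-w)) (riemannZeta w) := by
    rw [zeta_eq_tsum_one_div_nat_cpow hw]
    simp only [cpow_neg, ← one_div]
    exact (summable_one_div_nat_cpow.2 hw).hasSum
  have h1 : HasSum (fun k : ℕ => ((2 * k : ℕ) : ℂ) ^ (-w)) (2 ^ (-w) * riemannZeta w) := by
    refine (h0.mul_left (2 ^ (-w))).congr_fun fun k => ?_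
    rw [Nat.cast_mul, natCast_mul_natCast_cpow]
    norm_num
  obtain ⟨O, h2⟩ : Summable fun k : ℕ => ((2 * k + 1 : ℕ) : ℂ) ^ (-w) :=
    h0.summable.comp_injective (i := fun k : ℕ => 2 * k + 1) fun a b h => by simpa using h
  refine ⟨O, h1, h2, h0.unique (HasSum.even_add_odd h1 h2), ?_⟩
  rw [sub_eq_add_neg]
  refine (EE_sum hw).unique (HasSum.even_add_odd (h1.congr_fun fun k => ?_)
    (h2.neg.congr_fun fun k => ?_))
  · simp
  · simp [pow_succ]

lemma tk_ge (k : ℕ) : 3 ≤ tk k := by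
  have h1 := Real.log_pos one_lt_two
  have h2 := Real.log_two_lt_d9
  have h3 : (0 : ℝ) ≤ k := Nat.cast_nonneg k
  rw [tk, le_div_iff₀ h1]
  nlinarith [Real.pi_gt_three]

lemma two_sk (k : ℕ) : (2 : ℂ) ^ (-sk k) = -(1 / 2) := by
  have e : log 2 * -sk k = -log 2 + ((-(k + 1 : ℕ) : ℤ) * (2 * π * I) + π * I) := by
    have e1 : log 2 = (Real.log 2 : ℝ) := by simp
    have hl : ((Real.log 2 : ℝ) : ℂ) ≠ 0 := by exact_mod_cast (Real.log_pos one_lt_two).ne'
    rw [e1, sk, tk]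
    generalize Real.log 2 = l at hl
    push_cast
    field_simp
    ring
  rw [cpow_def_of_ne_zero two_ne_zero, e, exp_add, exp_add, exp_int_mul_two_pi_mul_I,
    exp_pi_mul_I, exp_neg, exp_log two_ne_zero]
  ring

lemma EE_sk (k : ℕ) : EE (sk k) = -(2 * riemannZeta (sk k)) := by
  have h1 : sk k ≠ 1 := by
    intro h
    have := congrArg im h
    simp [sk] at this
    linarith [tk_ge k]
  have t0 : Tendsto (fun e : ℝ => sk k + e) (𝓝[>] 0) (𝓝 (sk k)) := by
    have : Continuous fun e : ℝ => sk k + e := by fun_prop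
    simpa using (this.tendsto 0).mono_left nhdsWithin_le_nhds
  have t1 := (EE_diff (sk k)).continuousAt.tendsto.comp t0
  have c2 : ContinuousAt (fun w : ℂ => 2 * (2 ^ (-w) * riemannZeta w) - riemannZeta w) (sk k) := by
    have a1 := (differentiableAt_riemannZeta h1).continuousAt
    have a2 : ContinuousAt (fun w : ℂ => (2 : ℂ) ^ (-w)) (sk k) :=
      (continuous_neg.const_cpow (Or.inl two_ne_zero)).continuousAt
    exact (continuousAt_const.mul (a2.mul a1)).sub a1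
  have t2 := c2.tendsto.comp t0
  have h3 := tendsto_nhds_unique_of_eventuallyEq t1 t2 (by
    filter_upwards [self_mem_nhdsWithin] with e he
    obtain ⟨O, -, -, a, b⟩ := split (w := sk k + e) (by simpa [sk] using he)
    simp only [Function.comp]
    linear_combination b + a)
  rw [h3, two_sk]
  ring

lemma mvt {f f' : ℝ → ℂ} {a C : ℝ} (hd : ∀ x, a ≤ x → HasDerivAt f (f' x) x)
    (hb : ∀ x, a ≤ x → ‖f' x‖ ≤ C) : ‖f (a + 1) - f a‖ ≤ C := by
  have := norm_image_sub_le_of_norm_deriv_le_segment' (a := a) (b := a + 1) (C := C)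
    (fun x hx => (hd x hx.1).hasDerivWithinAt) (fun x hx => hb x hx.1) (a + 1)
    ⟨by linarith, le_rfl⟩
  simpa using this

lemma der (w : ℂ) {x : ℝ} (hx : 0 < x) :
    HasDerivAt (fun y : ℝ => (y : ℂ) ^ (-w)) (-w * (x : ℂ) ^ (-(w + 1))) x := by
  have := (Complex.hasStrictDerivAt_cpow_const (c := -w) (x := (x : ℂ))
    (ofReal_mem_slitPlane.2 hx)).hasDerivAt.comp_ofReal
  rwa [show -w - 1 = -(w + 1) by ring] at this

lemma diff1 {w : ℂ} (hw : 0 ≤ w.re) {x : ℝ} (hx : 0 < x) :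
    ‖((x + 1 : ℝ) : ℂ) ^ (-w) - (x : ℂ) ^ (-w)‖ ≤ ‖w‖ * x ^ (-(w.re + 1)) := by
  refine mvt (f := fun y : ℝ => (y : ℂ) ^ (-w)) (fun y hy => der w (hx.trans_le hy)) fun y hy => ?_
  rw [norm_mul, norm_neg, norm_cpow_eq_rpow_re_of_pos (hx.trans_le hy)]
  simp only [neg_re, add_re, one_re]
  exact mul_le_mul_of_nonneg_left (Real.rpow_le_rpow_of_nonpos hx hy (by linarith)) (norm_nonneg _)

/-- second differences -/
noncomputable def DD (x : ℝ) (w : ℂ) : ℂ :=
  ((x + 1 + 1 : ℝ) : ℂ) ^ (-w) - ((x + 1 : ℝ) : ℂ) ^ (-w) - (((x + 1 : ℝ) : ℂ) ^ (-w) - (x : ℂ) ^ (-w))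

lemma diff2 {w : ℂ} (hw : -(3 / 4) ≤ w.re) {x : ℝ} (hx : 1 ≤ x) :
    ‖DD x w‖ ≤ (‖w‖ + 1) ^ 2 * x ^ (-(5 / 4) : ℝ) := by
  refine mvt (f := fun y : ℝ => ((y + 1 : ℝ) : ℂ) ^ (-w) - (y : ℂ) ^ (-w))
    (f' := fun y => -w * ((y + 1 : ℝ) : ℂ) ^ (-(w + 1)) - -w * (y : ℂ) ^ (-(w + 1)))
    (fun y hy => ?_) fun y hy => ?_
  · exact ((der w (by linarith : 0 < y + 1)).comp_add_const y 1).sub (der w (by linarith))
  · have h1 := diff1 (w := w + 1) (by simp; linarith) (by linarith : 0 < y)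
    have h2 : y ^ (-((w + 1).re + 1)) ≤ x ^ (-(5 / 4) : ℝ) :=
      (Real.rpow_le_rpow_of_exponent_le (by linarith) (by simp; linarith)).trans
        (Real.rpow_le_rpow_of_nonpos (by linarith) hy (by norm_num))
    have h3 : ‖w + 1‖ ≤ ‖w‖ + 1 := by simpa using norm_add_le w 1
    have h4 : 0 ≤ y ^ (-((w + 1).re + 1)) := Real.rpow_nonneg (by linarith) _
    rw [← mul_sub, norm_mul, norm_neg, pow_two, mul_assoc]
    refine mul_le_mul (by linarith) (h1.trans ?_) (norm_nonneg _) (by positivity)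
    gcongr

lemma sum54 : Summable fun k : ℕ => (2 * k + 1 : ℝ) ^ (-(5 / 4) : ℝ) := by
  have := (Real.summable_nat_rpow.2 (by norm_num : (-(5 / 4) : ℝ) < -1)).comp_injective
    (i := fun k : ℕ => 2 * k + 1) fun a b h => by simpa using h
  simpa [Function.comp_def] using this

lemma one_le (k : ℕ) : (1 : ℝ) ≤ 2 * k + 1 := by
  have : (0 : ℝ) ≤ k := Nat.cast_nonneg k
  linarith

lemma EE_eq {w : ℂ} (hw : -(3 / 4) < w.re) :
    EE w = -(1 / 2) - 1 / 2 * ∑' k : ℕ, DD (2 * k + 1) w := by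
  have hU : IsOpen {z : ℂ | -(3 / 4) < z.re} := isOpen_lt continuous_const continuous_re
  have h1 : DifferentiableOn ℂ (fun z => -(1 / 2) - 1 / 2 * ∑' k : ℕ, DD (2 * k + 1) z)
      {z : ℂ | -(3 / 4) < z.re} := by
    intro z hz
    have hV := hU.inter (Metric.isOpen_ball (x := (0 : ℂ)) (ε := ‖z‖ + 1))
    have := differentiableOn_tsum_of_summable_norm (F := fun (k : ℕ) z => DD (2 * k + 1) z)
      (sum54.mul_left ((‖z‖ + 1 + 1) ^ 2)) (fun k => ?_) hV fun k y hy => ?_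
    · have h2 := this.differentiableAt (hV.mem_nhds ⟨hz, by simp⟩)
      exact ((h2.const_mul _).const_sub _).differentiableWithinAt
    · have a : ∀ x : ℝ, 0 < x → Differentiable ℂ fun z : ℂ => (x : ℂ) ^ (-z) := fun x hx =>
        differentiable_neg.const_cpow (Or.inl (by exact_mod_cast hx.ne'))
      have b := one_le k
      exact (((a _ (by linarith)).sub (a _ (by linarith))).sub
        ((a _ (by linarith)).sub (a _ (by linarith)))).differentiableOn
    · refine (diff2 (le_of_lt hy.1) (one_le k)).trans ?_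
      have := (mem_ball_zero_iff.1 hy.2).le
      gcongr
  refine (EE_diff.differentiableOn.analyticOnNhd hU).eqOn_of_preconnected_of_eventuallyEq
    (h1.analyticOnNhd hU) (convex_halfSpace_re_gt _).isPreconnected (z₀ := 2) (by norm_num) ?_ hw
  filter_upwards [(isOpen_lt continuous_const continuous_re).mem_nhds
    (show (2 : ℂ) ∈ {z : ℂ | 1 < z.re} by norm_num)] with z hz
  obtain ⟨O, a, b, -, d⟩ := split hz
  have hz0 : -z ≠ 0 := neg_ne_zero.2 (ne_zero_of_one_lt_re hz)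
  have a1 := (hasSum_nat_add_iff' 1).2 a
  have b1 := (hasSum_nat_add_iff' 1).2 b
  simp only [Finset.sum_range_one, mul_zero, Nat.cast_zero, zero_cpow hz0, zero_add, Nat.cast_one,
    one_cpow, sub_zero] at a1 b1
  have := ((b1.sub a1).sub (a1.sub b)).tsum_eq
  rw [d, tsum_congr (g := _) fun k => ?_, this]
  · ring
  · unfold DD
    push_cast
    ring_nf

lemma EE_grow : ∃ C : ℝ, 0 ≤ C ∧ ∀ w : ℂ, -(1 / 2) ≤ w.re → ‖EE w‖ ≤ C * (‖w‖ + 1) ^ 2 := by
  have h0 : 0 ≤ ∑' k : ℕ, (2 * k + 1 : ℝ) ^ (-(5 / 4) : ℝ) := tsum_nonneg fun k => by positivity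
  refine ⟨1 / 2 + 1 / 2 * ∑' k : ℕ, (2 * k + 1 : ℝ) ^ (-(5 / 4) : ℝ), by positivity, fun w hw => ?_⟩
  rw [EE_eq (by linarith)]
  have h1 := tsum_of_norm_bounded (sum54.mul_left ((‖w‖ + 1) ^ 2)).hasSum
    fun k => diff2 (w := w) (by linarith) (one_le k)
  rw [tsum_mul_left] at h1
  refine (norm_sub_le _ _).trans ?_
  rw [norm_mul]
  have h2 : 1 ≤ (‖w‖ + 1) ^ 2 := one_le_pow₀ (by linarith [norm_nonneg w])
  simp only [norm_neg, norm_div, norm_one, Complex.norm_ofNat]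
  nlinarith

end Pool.Agent.Lib.MP_5db4ad_nt.S2.Afe
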