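import Pool.Agent.Lib.MP_5db4ad_nt.S2Defs2

/-!
Bounds for the kernel, the majorant and its integral, the contour shift and sums over odd numbers.
-/

namespace Pool.Agent.Lib.MP_5db4ad_nt.S2.Afe

open Filter Topology Complex MeasureTheory Set
open scoped Real

/-- the majorant -/
noncomputable def maj (x : ℝ) : ℝ :=
  (π / 16 * x ^ 2 + (π / 8 + 1 / 2) * x + (1 + 17 * (π / 16))) * Real.exp (-(π / 16 * x))

lemma norm_sin_sq (a x : ℝ) : ‖sin (a + x * I)‖ ^ 2 = Real.sin a ^ 2 + Real.sinh x ^ 2 := by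
  rw [sin_add_mul_I, ← ofReal_sin, ← ofReal_cos, ← ofReal_cosh, ← ofReal_sinh, ← ofReal_mul,
    ← ofReal_mul, Complex.sq_norm, normSq_add_mul_I, mul_pow, mul_pow, Real.cosh_sq, Real.cos_sq']
  ring

lemma kap_bd (u : ℝ) :
    ‖kap 16 ((3 / 2 : ℝ) + u * I)‖ * (u ^ 2 / 2 + |u| + 4.25) ≤ maj |u| := by
  have hb : 0 < π / 16 := by positivity
  have e1 : (π * (((3 / 2 : ℝ) : ℂ) + u * I) / (16 : ℝ) : ℂ) =
      (3 * π / 32 : ℝ) + (π / 16 * u : ℝ) * I := by
    push_cast
    ring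
  have e2 : ‖((π : ℂ) / (16 : ℝ))‖ = π / 16 := by simp [abs_of_pos Real.pi_pos]
  have e3 := norm_sin_sq (3 * π / 32) (π / 16 * u)
  rw [kap, norm_div, e1, e2]
  set N := ‖sin (((3 * π / 32 : ℝ) : ℂ) + (π / 16 * u : ℝ) * I)‖
  have hN : 0 ≤ N := norm_nonneg _
  set x := π / 16 * |u| with hx
  have hx0 : 0 ≤ x := by positivity
  have e4 : Real.sinh (π / 16 * u) ^ 2 = Real.sinh x ^ 2 := by
    rw [← sq_abs, Real.abs_sinh, abs_mul, abs_of_pos hb]
  have s1 : 0.26 ≤ Real.sin (3 * π / 32) := by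
    have a1 := Real.sin_gt_sub_cube (x := 3 * π / 32) (by positivity)
    have a2 : 3 * π / 32 ≤ 0.3 := by linarith [Real.pi_lt_d2]
    have a3 : (3 * π / 32) ^ 3 ≤ 0.3 ^ 3 := by gcongr
    linarith [Real.pi_gt_d2]
  have s2 : 0.26 ^ 2 ≤ Real.sin (3 * π / 32) ^ 2 := by gcongr
  have hE := Real.exp_pos (-x)
  have hF := Real.exp_pos x
  have hEF : Real.exp x * Real.exp (-x) = 1 := by rw [← Real.exp_add]; simp
  have hsh : Real.sinh x = (Real.exp x - Real.exp (-x)) / 2 := Real.sinh_eq x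
  have h1 : Real.sinh x ≤ N := by
    refine (sq_le_sq₀ (Real.sinh_nonneg_iff.2 hx0) hN).1 ?_
    nlinarith
  have h2 : Real.exp x / 4 ≤ N := by
    refine (sq_le_sq₀ (by positivity) hN).1 ?_
    rw [e3, e4, hsh]
    nlinarith [sq_nonneg (0.866 * Real.exp x - Real.exp (-x))]
  have hN0 : 0 < N := lt_of_lt_of_le (by positivity) h2
  have h3 : 1 / N ≤ 4 * Real.exp (-x) := by
    rw [div_le_iff₀ hN0]
    nlinarith
  have h4 : x / N ≤ (2 * x + 1) * Real.exp (-x) := by
    rw [div_le_iff₀ hN0]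
    have a1 : 2 * x + 1 ≤ Real.exp x * Real.exp x := by
      rw [← Real.exp_add, ← two_mul]
      exact Real.add_one_le_exp _
    have a2 : (2 * x + 1) * (Real.exp (-x) * Real.exp (-x)) ≤ 1 := by
      have := mul_le_mul_of_nonneg_right a1 (mul_pos hE hE).le
      nlinarith
    have a3 := mul_le_mul_of_nonneg_left h1 (by positivity : 0 ≤ (2 * x + 1) * Real.exp (-x))
    rw [hsh] at a3
    nlinarith
  have e5 : π / 16 / N * (u ^ 2 / 2 + |u| + 4.25) =
      (|u| / 2 + 1) * (x / N) + 4.25 * (π / 16) * (1 / N) := by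
    rw [hx, ← sq_abs u]
    ring
  have e6 : maj |u| = (|u| / 2 + 1) * ((2 * x + 1) * Real.exp (-x)) +
      4.25 * (π / 16) * (4 * Real.exp (-x)) := by
    rw [maj, hx]
    ring
  rw [e5, e6]
  gcongr

lemma mom (n : ℕ) {r : ℝ} (hr : 0 < r) :
    IntegrableOn (fun x : ℝ => x ^ n * Real.exp (-(r * x))) (Ioi 0) ∧
      ∫ x in Ioi (0 : ℝ), x ^ n * Real.exp (-(r * x)) = (1 / r) ^ (n + 1) * n.factorial := by
  have h := Real.integral_rpow_mul_exp_neg_mul_Ioi (a := n + 1) (by positivity) hr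
  rw [add_sub_cancel_right, Real.Gamma_nat_eq_factorial, ← Nat.cast_succ] at h
  simp only [Real.rpow_natCast] at h
  exact ⟨Integrable.of_integral_ne_zero (by rw [h]; positivity), h⟩

lemma maj_int : Integrable (fun u : ℝ => maj |u|) ∧ ∫ u : ℝ, maj |u| ≤ 194.4 := by
  have hb : 0 < π / 16 := by positivity
  obtain ⟨a0, b0⟩ := mom 0 hb
  obtain ⟨a1, b1⟩ := mom 1 hb
  obtain ⟨a2, b2⟩ := mom 2 hb
  have e : maj = fun x : ℝ => π / 16 * (x ^ 2 * Real.exp (-(π / 16 * x))) +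
      (π / 8 + 1 / 2) * (x ^ 1 * Real.exp (-(π / 16 * x))) +
      (1 + 17 * (π / 16)) * (x ^ 0 * Real.exp (-(π / 16 * x))) := by
    ext x
    rw [maj]
    ring
  have h : ∫ u : ℝ, maj |u| = 2 * (5 / 2 * (16 / π) ^ 2 + 3 * (16 / π) + 17) := by
    rw [integral_comp_abs, e]
    beta_reduce
    rw [integral_add (by exact (a2.const_mul _).add (a1.const_mul _)) (a0.const_mul _),
      integral_add (a2.const_mul _) (a1.const_mul _), integral_const_mul, integral_const_mul,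
      integral_const_mul, b0, b1, b2]
    simp only [Nat.factorial]
    push_cast
    field_simp
    ring
  refine ⟨Integrable.of_integral_ne_zero (by rw [h]; positivity), ?_⟩
  have h1 : 16 / π ≤ 5.094 := by
    rw [div_le_iff₀ Real.pi_pos]
    linarith [Real.pi_gt_d4]
  have h2 : (16 / π) ^ 2 ≤ 5.094 ^ 2 := by gcongr
  rw [h]
  linarith

lemma shift (hK : StKap) (hR : StRect) {a c C : ℝ} {F : ℂ → ℂ} (ha : a < 0) (ha' : -16 < a)
    (hc : 0 < c) (hc' : c < 16) (hF : Differentiable ℂ F) (hF0 : F 0 = 0)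
    (hB : ∀ x t : ℝ, a ≤ x → x ≤ c → ‖F (x + t * I)‖ ≤ C * (|t| + 1) ^ 2)
    (i1 : Integrable fun t : ℝ => F (c + t * I) * kap 16 (c + t * I))
    (i2 : Integrable fun t : ℝ => F (a + t * I) * kap 16 (a + t * I)) :
    ∫ t : ℝ, F (c + t * I) * kap 16 (c + t * I) = ∫ t : ℝ, F (a + t * I) * kap 16 (a + t * I) := by
  obtain ⟨-, k2, ⟨k, hk, hkz⟩, -⟩ := hK 16 (by norm_num)
  have hΦ : ∀ H : ℝ, DifferentiableOn ℂ (fun z => dslope F 0 z * k z)
      {z : ℂ | a ≤ z.re ∧ z.re ≤ c ∧ |z.im| ≤ H} := by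
    intro H
    refine (((differentiableOn_dslope univ_mem).2 hF.differentiableOn).mono (subset_univ _)).mul
      (hk.mono fun z hz => ?_)
    simp only [mem_ofPred_eq] at hz ⊢
    rw [abs_lt]
    constructor <;> linarith [hz.1, hz.2.1]
  have hE : ∀ z : ℂ, z ≠ 0 → dslope F 0 z * k z = F z * kap 16 z := by
    intro z hz
    rw [dslope_of_ne _ hz, slope_def_field, hkz z hz, hF0]
    field_simp
    ring
  have hne : ∀ x t : ℝ, x ≠ 0 ∨ t ≠ 0 → (x : ℂ) + t * I ≠ 0 := by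
    intro x t h h0
    have h1 := congrArg re h0
    have h2 := congrArg im h0
    simp at h1 h2
    rcases h with h | h
    · exact h h1
    · exact h h2
  have hH : ∀ x t : ℝ, a ≤ x → x ≤ c → 16 ≤ |t| → ‖dslope F 0 (x + t * I) * k (x + t * I)‖ ≤
      C * (|t| + 1) ^ 2 * (2.01 * π / 16 * Real.exp (-(π * |t| / 16))) := by
    intro x t h1 h2 h3
    have ht0 : t ≠ 0 := by
      rintro rfl
      norm_num at h3
    rw [hE _ (hne x t (Or.inr ht0)), norm_mul]
    exact mul_le_mul (hB x t h1 h2) (k2 x t h3) (norm_nonneg _)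
      ((norm_nonneg _).trans (hB x t h1 h2))
  have t1 := ((intervalIntegral_tendsto_integral i1 tendsto_neg_atTop_atBot tendsto_id).sub
    (intervalIntegral_tendsto_integral i2 tendsto_neg_atTop_atBot tendsto_id)).norm
  have t2 : Tendsto (fun H : ℝ => 2 * (C * (H + 1) ^ 2 * (2.01 * π / 16 * Real.exp (-(π * H / 16)))) *
      (c - a)) atTop (𝓝 0) := by
    have hb : 0 < π / 16 := by positivity
    have := ((Real.tendsto_pow_mul_exp_neg_atTop_nhds_zero 2).comp
      ((tendsto_atTop_add_const_right atTop 1 tendsto_id).const_mul_atTop hb)).const_mul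
      (2 * C * 2.01 * (16 / π) * Real.exp (π / 16) * (c - a))
    rw [mul_zero] at this
    refine this.congr fun H => ?_
    have e : Real.exp (-(π * H / 16)) = Real.exp (π / 16) * Real.exp (-(π / 16 * (H + 1))) := by
      rw [← Real.exp_add]
      congr 1
      ring
    simp only [Function.comp, id, e]
    field_simp
  have h := le_of_tendsto_of_tendsto t1 t2 (by
    filter_upwards [eventually_ge_atTop (16 : ℝ)] with H hH16
    have hH0 : 0 ≤ H := by linarith
    have := hR (fun z => dslope F 0 z * k z) a c H _ (by linarith) hH0 (hΦ H) fun x h1 h2 =>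
      ⟨by simpa only [abs_of_nonneg hH0] using hH x H h1 h2 (by rwa [abs_of_nonneg hH0]), by
        have h := hH x (-H) h1 h2 (by rwa [abs_neg, abs_of_nonneg hH0])
        rwa [abs_neg, abs_of_nonneg hH0, ofReal_neg, neg_mul, ← sub_eq_add_neg] at h⟩
    simpa only [hE _ (hne c _ (Or.inl hc.ne')), hE _ (hne a _ (Or.inl ha.ne)), id] using this)
  exact sub_eq_zero.1 (norm_le_zero_iff.1 h)

lemma cp {x : ℝ} (hx : 0 < x) (z : ℂ) : (x : ℂ) ^ z = exp ((Real.log x : ℝ) * z) := by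
  rw [cpow_def_of_ne_zero (by exact_mod_cast hx.ne'), ofReal_log hx.le]

lemma odd_tsum (f : ℕ → ℂ) (h : ∀ m, ¬Odd m → f m = 0) : ∑' m, f m = ∑' j, f (2 * j + 1) := by
  refine (Function.Injective.tsum_eq (g := fun j : ℕ => 2 * j + 1) (fun a b h => by simpa using h)
    fun m hm => ?_).symm
  obtain ⟨j, hj⟩ : Odd m := by
    by_contra h'
    exact hm (h m h')
  exact ⟨j, hj.symm⟩

lemma odd32 (n : ℕ) : ∑ j ∈ Finset.range n, (2 * j + 1 : ℝ) ^ (-(3 / 2) : ℝ) ≤ 1.7072 := by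
  have h0 : ∀ x : ℝ, 0 < x → (x + 1) ^ (-(3 / 2) : ℝ) ≤ 1 / √x - 1 / √(x + 2) := by
    intro x hx
    have e : (x + 1) ^ (-(3 / 2) : ℝ) = 1 / √(x + 1) ^ 3 := by
      rw [Real.sqrt_eq_rpow, ← Real.rpow_natCast, ← Real.rpow_mul (by linarith), one_div,
        ← Real.rpow_neg (by linarith)]
      norm_num
    have a1 := Real.sq_sqrt hx.le
    have a2 := Real.sq_sqrt (by linarith : 0 ≤ x + 1)
    have a3 := Real.sq_sqrt (by linarith : 0 ≤ x + 2)
    have b1 := Real.sqrt_pos.2 hx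
    have b2 := Real.sqrt_pos.2 (by linarith : 0 < x + 1)
    have b3 := Real.sqrt_pos.2 (by linarith : 0 < x + 2)
    rw [e]
    set a := √x
    set m := √(x + 1)
    set c := √(x + 2)
    have c1 : a * c ≤ m ^ 2 := by nlinarith [sq_nonneg (a - c)]
    have c2 : a + c ≤ 2 * m := by
      refine (sq_le_sq₀ (by positivity) (by positivity)).1 ?_
      nlinarith [sq_nonneg (a - c)]
    have c3 : 1 / a - 1 / c = 2 / (a * c * (a + c)) := by
      field_simp
      nlinarith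
    have c4 : a * c * (a + c) ≤ m ^ 2 * (2 * m) := by gcongr
    rw [c3, div_le_div_iff₀ (by positivity) (by positivity)]
    nlinarith
  have h1 : ∀ n : ℕ, ∑ j ∈ Finset.range (n + 1), (2 * j + 1 : ℝ) ^ (-(3 / 2) : ℝ) ≤
      1 + 1 / √2 - 1 / √(2 * n + 2) := by
    intro n
    induction n with
    | zero => simp
    | succ n ih =>
      rw [Finset.sum_range_succ]
      have := h0 (2 * n + 2) (by positivity)
      push_cast
      rw [show 2 * (n + 1 : ℝ) + 1 = 2 * n + 2 + 1 by ring,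
        show 2 * (n + 1 : ℝ) + 2 = 2 * n + 2 + 2 by ring]
      linarith
  have h2 : 1 / √2 ≤ 0.7072 := by
    rw [div_le_iff₀ (by positivity)]
    have : 1.4141 ≤ √2 := Real.le_sqrt_of_sq_le (by norm_num)
    linarith
  rcases n with _ | n
  · norm_num
  · have := h1 n
    have h3 : 0 ≤ 1 / √(2 * n + 2 : ℝ) := by positivity
    linarith

lemma odd_norm {w : ℂ} (hw : w.re = 3 / 2) : ‖∑' j : ℕ, ((2 * j + 1 : ℝ) : ℂ) ^ (-w)‖ ≤ 1.7072 := by
  have hs := summable_of_sum_range_le (fun j => by positivity) odd32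
  refine (tsum_of_norm_bounded hs.hasSum fun j => le_of_eq ?_).trans
    (hs.tsum_le_of_sum_range_le odd32)
  rw [norm_cpow_eq_rpow_re_of_pos (by positivity), neg_re, hw]

end Pool.Agent.Lib.MP_5db4ad_nt.S2.Afe
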