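import Pool.Agent.Lib.MP_5db4ad_nt.S2AfeA
import Pool.Agent.Lib.MP_5db4ad_nt.S2AfeB
import Pool.Agent.Lib.MP_5db4ad_nt.S2AfeC

/-!
The approximate functional equation for zeta at the points `sk k`.
-/

namespace Pool.Agent.Lib.MP_5db4ad_nt.S2

open Filter Topology Complex MeasureTheory Set HurwitzZeta
open scoped Real

namespace Afe

/-- the sum over odd numbers on the dual line -/
noncomputable def ZZ (t u : ℝ) : ℂ :=
  ∑' j : ℕ, ((2 * j + 1 : ℝ) : ℂ) ^ (-(3 / 2 - ((t - u : ℝ) : ℂ) * I))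

lemma line1 (hM : StMel) (k : ℕ) {X : ℝ} (hX : 0 < X) :
    Integrable (fun u : ℝ => EE (sk k + ((1 : ℝ) + u * I)) * (X : ℂ) ^ (((1 : ℝ) : ℂ) + u * I) *
      kap 16 ((1 : ℝ) + u * I)) ∧
    ∫ u : ℝ, EE (sk k + ((1 : ℝ) + u * I)) * (X : ℂ) ^ (((1 : ℝ) : ℂ) + u * I) *
      kap 16 ((1 : ℝ) + u * I) = -(2 * π * ∑' n : ℕ,
        (((-1) ^ n * V16 ((n + 1) / X) / (n + 1) : ℝ) : ℂ) * ex k (-Real.log (n + 1))) := by
  have hre : (-sk k).re = -1 := by simp [sk]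
  have h0 : ((0 : ℕ) : ℂ) ^ (-sk k) = 0 := by
    rw [Nat.cast_zero, zero_cpow]
    intro h
    rw [h] at hre
    simp at hre
  have h := hM 16 1 X (fun m => (-1) ^ m * (m : ℂ) ^ (-sk k)) one_pos (by norm_num) hX
    (by rw [h0, mul_zero]) (by
      refine (Real.summable_nat_rpow.2 (by norm_num : (-1 + -1 : ℝ) < -1)).congr fun m => ?_
      rw [norm_mul, norm_pow, norm_neg, norm_one, one_pow, one_mul,
        norm_natCast_cpow_of_re_ne_zero _ (by rw [hre]; norm_num), hre,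
        Real.rpow_add' (Nat.cast_nonneg m) (by norm_num)])
  have e1 : ∀ u : ℝ, ∑' m : ℕ, (-1) ^ m * (m : ℂ) ^ (-sk k) * (m : ℂ) ^ (-(((1 : ℝ) : ℂ) + u * I)) =
      EE (sk k + ((1 : ℝ) + u * I)) := by
    intro u
    rw [← (EE_sum (w := sk k + ((1 : ℝ) + u * I)) (by simp [sk])).tsum_eq]
    refine tsum_congr fun m => ?_
    rcases Nat.eq_zero_or_pos m with rfl | hm
    · rw [h0, Nat.cast_zero, zero_cpow (x := -(sk k + ((1 : ℝ) + u * I)))]
      · simp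
      · intro h
        have := congrArg re h
        simp [sk] at this
    · rw [neg_add (sk k), cpow_add _ _ (by exact_mod_cast hm.ne'), mul_assoc]
  simp only [e1] at h
  refine ⟨h.1, h.2.trans ?_⟩
  rw [← mul_neg, ← tsum_neg, ← Function.Injective.tsum_eq Nat.succ_injective fun m hm => ?_]
  · congr 1
    refine tsum_congr fun n => ?_
    have hn : (0 : ℝ) < n + 1 := by positivity
    have e2 : ((n.succ : ℕ) : ℂ) ^ (-sk k) = ((n + 1 : ℝ) : ℂ)⁻¹ * ex k (-Real.log (n + 1)) := by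
      have e3 : ((n + 1 : ℝ) : ℂ)⁻¹ = exp (-(Real.log (n + 1) : ℝ)) := by
        rw [exp_neg, ← ofReal_exp, Real.exp_log hn]
      rw [show ((n.succ : ℕ) : ℂ) = ((n + 1 : ℝ) : ℂ) by push_cast; rfl, cp hn, e3, ex, ext,
        ← exp_add, sk]
      congr 1
      push_cast
      ring
    rw [e2, V16, show (16 : ℝ) = (16 : ℕ) by norm_num, Real.rpow_natCast, pow_succ]
    push_cast
    ring
  · rcases m with _ | m
    · exact absurd (by simp only [h0, mul_zero, zero_div]) hm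
    · exact ⟨m, rfl⟩

lemma line2 (hM : StMel) (k : ℕ) {Y : ℝ} (hY : 0 < Y) :
    Integrable (fun u : ℝ => ZZ (tk k) u * (Y : ℂ) ^ (((3 / 2 : ℝ) : ℂ) + u * I) *
      kap 16 ((3 / 2 : ℝ) + u * I)) ∧
    ∫ u : ℝ, ZZ (tk k) u * (Y : ℂ) ^ (((3 / 2 : ℝ) : ℂ) + u * I) * kap 16 ((3 / 2 : ℝ) + u * I) =
      2 * π * ∑' j : ℕ, (V16 ((2 * j + 1) / Y) : ℂ) * ex k (Real.log (2 * j + 1)) := by
  have h := hM 16 (3 / 2) Y (fun m => if Odd m then ex k (Real.log m) else 0) (by norm_num)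
    (by norm_num) hY (by simp) (by
      refine (Real.summable_nat_rpow.2 (by norm_num : (-(3 / 2) : ℝ) < -1)).of_nonneg_of_le
        (fun m => by positivity) fun m => mul_le_of_le_one_left (by positivity) ?_
      split_ifs
      · rw [ex, ext, norm_exp_ofReal_mul_I]
      · simp)
  have ho : ∀ j : ℕ, Odd (2 * j + 1) := fun j => odd_two_mul_add_one j
  have e1 : ∀ u : ℝ, ∑' m : ℕ, (if Odd m then ex k (Real.log m) else 0) *
      (m : ℂ) ^ (-(((3 / 2 : ℝ) : ℂ) + u * I)) = ZZ (tk k) u := by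
    intro u
    rw [odd_tsum _ fun m hm => by rw [if_neg hm, zero_mul]]
    refine tsum_congr fun j => ?_
    have hj : (0 : ℝ) < 2 * j + 1 := by positivity
    rw [if_pos (ho j), show ((2 * j + 1 : ℕ) : ℂ) = ((2 * j + 1 : ℝ) : ℂ) by push_cast; rfl,
      show ((2 * j + 1 : ℕ) : ℝ) = 2 * j + 1 by push_cast; rfl, cp hj, cp hj, ex, ext, ← exp_add]
    congr 1
    push_cast
    ring
  simp only [e1] at h
  refine ⟨h.1, h.2.trans ?_⟩
  rw [odd_tsum _ fun m hm => by rw [if_neg hm, zero_div]]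
  congr 1
  refine tsum_congr fun j => ?_
  rw [if_pos (ho j), V16, show (16 : ℝ) = (16 : ℕ) by norm_num, Real.rpow_natCast]
  push_cast
  ring

lemma EE_left (k : ℕ) (u : ℝ) : EE (sk k - ((3 / 2 : ℝ) + u * I)) =
    -(chi1 (3 / 2 - (tk k - u : ℝ) * I) * 2 ^ (((3 / 2 : ℝ) : ℂ) + u * I) * ZZ (tk k) u) := by
  set w : ℂ := 3 / 2 - (tk k - u : ℝ) * I with hw
  have hre : w.re = 3 / 2 := by simp [hw]
  have e1 : sk k - ((3 / 2 : ℝ) + u * I) = 1 - w := by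
    rw [hw, sk]
    push_cast
    ring
  have e2 : (2 : ℂ) ^ w = -2 ^ (((3 / 2 : ℝ) : ℂ) + u * I) := by
    have : w = 1 + (-sk k + ((3 / 2 : ℝ) + u * I)) := by linear_combination e1
    rw [this, cpow_add _ _ two_ne_zero, cpow_add (-sk k) _ two_ne_zero, two_sk, cpow_one]
    ring
  have e3 : hurwitzZetaEven ((1 / 2 : ℝ) : UnitAddCircle) w = 2 ^ w * ZZ (tk k) u := by
    rw [← (hasSum_nat_hurwitzZetaEven_of_mem_Icc (a := 1 / 2) (by norm_num)
      (by rw [hre]; norm_num)).tsum_eq, ZZ, ← tsum_mul_left, ← hw]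
    refine tsum_congr fun j => ?_
    have hj : (0 : ℝ) < j + 1 / 2 := by positivity
    have a1 : (j : ℂ) + (1 / 2 : ℝ) = ((j + 1 / 2 : ℝ) : ℂ) := by push_cast; rfl
    have a2 : (j : ℂ) + 1 - (1 / 2 : ℝ) = ((j + 1 / 2 : ℝ) : ℂ) := by push_cast; ring
    have a3 : (2 * j + 1 : ℝ) = 2 * (j + 1 / 2) := by ring
    have a4 : (2 : ℂ) ^ w ≠ 0 := fun h => two_ne_zero ((cpow_eq_zero_iff _ _).1 h).1
    rw [a1, a2, a3, ofReal_mul, mul_cpow_ofReal_nonneg (by norm_num) hj.le, cpow_neg, cpow_neg,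
      ofReal_ofNat]
    field_simp
    ring
  rw [e1, EE, cosZeta_one_sub _ fun n h => ?_, e3, e2, chi1]
  · ring
  · have := congrArg re h
    rw [hre] at this
    simp at this
    linarith [(Nat.cast_nonneg n : (0 : ℝ) ≤ n)]

lemma kap_neg (z : ℂ) : kap 16 (-z) = -kap 16 z := by
  rw [kap, kap, mul_neg, neg_div, sin_neg, div_neg]

lemma F_grow (k : ℕ) {X : ℝ} (hX : 1 ≤ X) : ∃ C : ℝ, ∀ x t : ℝ, -(3 / 2) ≤ x → x ≤ 1 →
    ‖(EE (sk k + (x + t * I)) - EE (sk k)) * (X : ℂ) ^ ((x : ℂ) + t * I)‖ ≤ C * (|t| + 1) ^ 2 := by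
  obtain ⟨C, hC0, hC⟩ := EE_grow
  refine ⟨(C * (‖sk k‖ + 3) ^ 2 + ‖EE (sk k)‖) * X, fun x t h1 h2 => ?_⟩
  have a1 : ‖(X : ℂ) ^ ((x : ℂ) + t * I)‖ ≤ X := by
    rw [norm_cpow_eq_rpow_re_of_pos (by linarith)]
    simpa using Real.rpow_le_rpow_of_exponent_le hX h2
  have a2 : ‖(x : ℂ) + t * I‖ ≤ 2 + |t| := by
    refine (norm_add_le _ _).trans ?_
    have : |x| ≤ 2 := abs_le.2 ⟨by linarith, by linarith⟩
    simpa using this
  have a0 := abs_nonneg t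
  have a3 : ‖sk k + (x + t * I)‖ + 1 ≤ (‖sk k‖ + 3) * (|t| + 1) := by
    have := norm_add_le (sk k) (x + t * I)
    nlinarith [norm_nonneg (sk k)]
  have a4 : ‖EE (sk k + (x + t * I))‖ ≤ C * ((‖sk k‖ + 3) * (|t| + 1)) ^ 2 :=
    (hC _ (by simp [sk]; linarith)).trans (by gcongr)
  have a5 : ‖EE (sk k)‖ ≤ ‖EE (sk k)‖ * (|t| + 1) ^ 2 :=
    le_mul_of_one_le_right (norm_nonneg _) (one_le_pow₀ (by linarith))
  rw [norm_mul]
  refine (mul_le_mul ((norm_sub_le _ _).trans (add_le_add a4 a5)) a1 (norm_nonneg _)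
    (by positivity)).trans (le_of_eq ?_)
  ring

end Afe

open Afe

theorem afe (hK : StKap) (hM : StMel) (hR : StRect) : StAfe 24 := by
  intro k X hX
  have hX0 : 0 < X := by linarith
  have ht := tk_ge k
  have hpi := Real.pi_pos
  have hY : 0 < tk k / (π * X) := by positivity
  obtain ⟨k1, -, -, k4⟩ := hK 16 (by norm_num)
  obtain ⟨i1, v1⟩ := line1 hM k hX0
  obtain ⟨i2, v2⟩ := line2 hM k hY
  have v3 : ∫ u : ℝ, (X : ℂ) ^ (((1 : ℝ) : ℂ) + u * I) * kap 16 ((1 : ℝ) + u * I) =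
      ((2 * π / (1 + X⁻¹ ^ (16 : ℝ)) : ℝ) : ℂ) := by
    rw [← k4 1 X⁻¹ one_pos (by norm_num) (inv_pos.2 hX0)]
    congr 1
    ext u
    rw [cp hX0, cp (inv_pos.2 hX0), Real.log_inv]
    congr 2
    push_cast
    ring
  have v4 := k4 (3 / 2) X (by norm_num) (by norm_num) hX0
  have i3 := Integrable.of_integral_ne_zero (v3.trans_ne (ofReal_ne_zero.2 (by positivity)))
  have i4 := Integrable.of_integral_ne_zero (v4.trans_ne (ofReal_ne_zero.2 (by positivity)))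
  set A : ℝ → ℂ := fun u => -(EE (sk k - ((3 / 2 : ℝ) + u * I)) *
    (X : ℂ) ^ (-(((3 / 2 : ℝ) : ℂ) + u * I))) * kap 16 ((3 / 2 : ℝ) + u * I) with hA
  set B : ℝ → ℂ := fun u => chi0 (tk k) * (ZZ (tk k) u *
    ((tk k / (π * X) : ℝ) : ℂ) ^ (((3 / 2 : ℝ) : ℂ) + u * I) * kap 16 ((3 / 2 : ℝ) + u * I)) with hB
  have iB : Integrable B := i2.const_mul _
  have mA : AEStronglyMeasurable A := by
    refine (Continuous.aestronglyMeasurable ?_).mul
      (k1 (3 / 2) (by norm_num) (by norm_num [abs_of_pos])).1.aestronglyMeasurable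
    refine ((EE_diff.continuous.comp (by fun_prop)).mul ?_).neg
    exact Continuous.const_cpow (by fun_prop) (Or.inl (by exact_mod_cast hX0.ne'))
  have hp : 0 < X ^ (-(3 / 2) : ℝ) := Real.rpow_pos_of_pos hX0 _
  have bd : ∀ u, ‖A u - B u‖ ≤ 2.8285 * X ^ (-(3 / 2) : ℝ) * 1.7072 / (2 * π) * maj |u| := by
    intro u
    have e1 : (2 : ℂ) ^ (((3 / 2 : ℝ) : ℂ) + u * I) * (X : ℂ) ^ (-(((3 / 2 : ℝ) : ℂ) + u * I)) =
        ((2 / X : ℝ) : ℂ) ^ (((3 / 2 : ℝ) : ℂ) + u * I) := by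
      rw [← ofReal_ofNat, cp two_pos, cp hX0, cp (by positivity), ← exp_add,
        Real.log_div two_ne_zero hX0.ne']
      congr 1
      push_cast
      ring
    have e2 : ((tk k / (π * X) : ℝ) : ℂ) ^ (((3 / 2 : ℝ) : ℂ) + u * I) =
        ((tk k / (2 * π) : ℝ) : ℂ) ^ (((3 / 2 : ℝ) : ℂ) + u * I) *
          ((2 / X : ℝ) : ℂ) ^ (((3 / 2 : ℝ) : ℂ) + u * I) := by
      rw [← mul_cpow_ofReal_nonneg (by positivity) (by positivity), ← ofReal_mul]
      congr 2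
      field_simp
    have e3 : A u - B u = (chi1 (3 / 2 - (tk k - u : ℝ) * I) - chi0 (tk k) *
        ((tk k / (2 * π) : ℝ) : ℂ) ^ (((3 / 2 : ℝ) : ℂ) + u * I)) *
        ((2 / X : ℝ) : ℂ) ^ (((3 / 2 : ℝ) : ℂ) + u * I) * ZZ (tk k) u *
        kap 16 ((3 / 2 : ℝ) + u * I) := by
      simp only [hA, hB]
      rw [EE_left, e2, ← e1]
      ring
    have b1 := chi_key ht u
    have b2 : ‖((2 / X : ℝ) : ℂ) ^ (((3 / 2 : ℝ) : ℂ) + u * I)‖ ≤ 2.8285 * X ^ (-(3 / 2) : ℝ) := by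
      have c1 : (((3 / 2 : ℝ) : ℂ) + u * I).re = 3 / 2 := by simp
      have c2 : (2 : ℝ) ^ (3 / 2 : ℝ) ≤ 2.8285 := by
        refine (sq_le_sq₀ (by positivity) (by norm_num)).1 ?_
        rw [← Real.rpow_natCast, ← Real.rpow_mul (by norm_num)]
        norm_num
      rw [norm_cpow_eq_rpow_re_of_pos (by positivity), c1, Real.div_rpow (by norm_num) hX0.le,
        Real.rpow_neg hX0.le, div_eq_mul_inv]
      gcongr
    have b3 : ‖ZZ (tk k) u‖ ≤ 1.7072 := odd_norm (by simp)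
    have b4 := kap_bd u
    rw [e3, norm_mul, norm_mul, norm_mul]
    calc _ ≤ (u ^ 2 / 2 + |u| + 4.25) / (2 * π) * (2.8285 * X ^ (-(3 / 2) : ℝ)) * 1.7072 *
          ‖kap 16 ((3 / 2 : ℝ) + u * I)‖ := by gcongr
      _ = 2.8285 * X ^ (-(3 / 2) : ℝ) * 1.7072 / (2 * π) *
          (‖kap 16 ((3 / 2 : ℝ) + u * I)‖ * (u ^ 2 / 2 + |u| + 4.25)) := by ring
      _ ≤ _ := by gcongr
  have iM := maj_int.1.const_mul (2.8285 * X ^ (-(3 / 2) : ℝ) * 1.7072 / (2 * π))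
  have iAB : Integrable fun u => A u - B u :=
    iM.mono' (mA.sub iB.aestronglyMeasurable) (Eventually.of_forall bd)
  have iA : Integrable A := (iAB.add iB).congr (Eventually.of_forall fun u => by simp)
  obtain ⟨C, hC⟩ := F_grow k (by linarith : 1 ≤ X)
  have l1 : ∀ u : ℝ, (EE (sk k + ((1 : ℝ) + u * I)) - EE (sk k)) * (X : ℂ) ^ (((1 : ℝ) : ℂ) + u * I) *
      kap 16 ((1 : ℝ) + u * I) =
      EE (sk k + ((1 : ℝ) + u * I)) * (X : ℂ) ^ (((1 : ℝ) : ℂ) + u * I) * kap 16 ((1 : ℝ) + u * I) -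
        EE (sk k) * ((X : ℂ) ^ (((1 : ℝ) : ℂ) + u * I) * kap 16 ((1 : ℝ) + u * I)) := by
    intro u
    ring
  set G : ℝ → ℂ := fun u => A u +
    EE (sk k) * ((X : ℂ) ^ (-(((3 / 2 : ℝ) : ℂ) + u * I)) * kap 16 ((3 / 2 : ℝ) + u * I)) with hG
  have iG : Integrable G := iA.add (i4.const_mul _)
  have l2 : ∀ u : ℝ, (EE (sk k + ((-(3 / 2) : ℝ) + u * I)) - EE (sk k)) *
      (X : ℂ) ^ (((-(3 / 2) : ℝ) : ℂ) + u * I) * kap 16 ((-(3 / 2) : ℝ) + u * I) = G (-u) := by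
    intro u
    have e : ((-(3 / 2) : ℝ) : ℂ) + u * I = -(((3 / 2 : ℝ) : ℂ) + (-u : ℝ) * I) := by
      push_cast
      ring
    simp only [hG, hA]
    rw [e, kap_neg, ← sub_eq_add_neg]
    ring
  have sh := shift hK hR (a := -(3 / 2)) (c := 1) (F := fun z => (EE (sk k + z) - EE (sk k)) *
    (X : ℂ) ^ z) (by norm_num) (by norm_num) one_pos (by norm_num)
    (((EE_diff.comp (differentiable_id.const_add _)).sub_const _).mul
      (differentiable_id.const_cpow (Or.inl (by exact_mod_cast hX0.ne')))) (by simp) hC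
    (by simp only [l1]; exact i1.sub (i3.const_mul _)) (by simp only [l2]; exact iG.comp_neg)
  simp only [l1, l2] at sh
  rw [integral_neg_eq_self G, hG, integral_sub i1 (i3.const_mul _), integral_add iA (i4.const_mul _),
    integral_const_mul, integral_const_mul, v1, v3, v4, EE_sk] at sh
  have e5 : ((2 * π / (1 + X⁻¹ ^ (16 : ℝ)) : ℝ) : ℂ) + ((2 * π / (1 + X ^ (16 : ℝ)) : ℝ) : ℂ) =
      2 * π := by
    have : 0 < X ^ (16 : ℝ) := Real.rpow_pos_of_pos hX0 _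
    rw [Real.inv_rpow hX0.le]
    norm_cast
    field_simp
    ring
  have fin := norm_integral_le_of_norm_le iM (Eventually.of_forall bd)
  rw [integral_sub iA iB, hB, integral_const_mul, integral_const_mul, v2] at fin
  have e6 : ∀ P Q R : ℂ, -(2 * π * Q) - -P * ((2 * π / (1 + X⁻¹ ^ (16 : ℝ)) : ℝ) : ℂ) =
      (∫ u, A u) + -P * ((2 * π / (1 + X ^ (16 : ℝ)) : ℝ) : ℂ) →
      (∫ u, A u) - chi0 (tk k) * (2 * π * R) = 2 * π * (P - Q - chi0 (tk k) * R) := by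
    intro P Q R h
    linear_combination -h + P * e5
  have hn : ‖(2 * π : ℂ)‖ = 2 * π := by simp [abs_of_pos hpi]
  rw [e6 _ _ _ sh, norm_mul, hn] at fin
  have f1 : 2.8285 * X ^ (-(3 / 2) : ℝ) * 1.7072 / (2 * π) * ∫ u : ℝ, maj |u| ≤
      2.8285 * X ^ (-(3 / 2) : ℝ) * 1.7072 / (2 * 3.14) * 194.4 := by
    have := Real.pi_gt_d2
    refine (mul_le_mul_of_nonneg_left maj_int.2 (by positivity)).trans ?_
    gcongr
  refine le_of_mul_le_mul_left (fin.trans (f1.trans ?_)) (by positivity)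
  have f2 := mul_lt_mul_of_pos_right Real.pi_gt_d2 hp
  generalize X ^ (-(3 / 2) : ℝ) = P at f2 hp ⊢
  norm_num at f2 ⊢
  linarith

end Pool.Agent.Lib.MP_5db4ad_nt.S2
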