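import Pool.Agent.Lib.MP_5db4ad_nt.S2BernSt

/-!
Bernstein's inequality for trigonometric polynomials, the passage from a grid to all points and
the norm of the multiplier `om` on a block.
-/

namespace Pool.Agent.Lib.MP_5db4ad_nt.S2

open Finset
open scoped Real

namespace Bern

theorem ee_add (x y : ℝ) : ee (x + y) = ee x * ee y := by
  unfold ee
  rw [← Complex.exp_add]
  congr 1
  push_cast
  ring

theorem norm_ee (x : ℝ) : ‖ee x‖ = 1 := Complex.norm_exp_ofReal_mul_I _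

theorem ee_int (n : ℤ) : ee n = 1 := by
  unfold ee
  rw [← Complex.exp_int_mul_two_pi_mul_I n]
  congr 1
  push_cast
  ring

theorem ee_sub_ee (x : ℝ) :
    ((Real.sin (2 * π * x) : ℝ) : ℂ) = (-Complex.I / 2) * ee x + (Complex.I / 2) * ee (-x) := by
  unfold ee
  rw [Complex.ofReal_sin, Complex.sin]
  have h : (((2 * π * -x : ℝ) : ℂ) * Complex.I) = -((2 * π * x : ℝ) : ℂ) * Complex.I := by
    push_cast
    ring
  rw [h]
  ring

/-- `m` is a multiplier of norm at most `N` -/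
def MN (H : ℕ) (m : ℕ → ℂ) (N : ℝ) : Prop :=
  ∀ (c : ℕ → ℂ) (S : ℝ), (∀ θ, ‖PP H c θ‖ ≤ S) → ∀ θ, ‖PP H (fun j => m j * c j) θ‖ ≤ N * S

variable {H : ℕ} {m m' : ℕ → ℂ} {N N' : ℝ}

theorem MN.congr (h : MN H m N) (e : ∀ j < 2 * H, m' j = m j) : MN H m' N := by
  intro c S hS θ
  have : PP H (fun j => m' j * c j) θ = PP H (fun j => m j * c j) θ :=
    sum_congr rfl fun j hj => by simp only [e j (mem_range.1 hj)]
  rw [this]
  exact h c S hS θ

theorem MN.mono (h : MN H m N) (e : N ≤ N') : MN H m N' := fun c S hS θ =>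
  (h c S hS θ).trans (mul_le_mul_of_nonneg_right e ((norm_nonneg _).trans (hS 0)))

theorem PP_const (a : ℂ) (c : ℕ → ℂ) (θ : ℝ) : PP H (fun j => a * c j) θ = a * PP H c θ := by
  unfold PP
  rw [mul_sum]
  exact sum_congr rfl fun j _ => mul_assoc _ _ _

theorem MN.const (a : ℂ) : MN H (fun _ => a) ‖a‖ := by
  intro c S hS θ
  rw [PP_const, norm_mul]
  exact mul_le_mul_of_nonneg_left (hS θ) (norm_nonneg _)

theorem MN.add (h : MN H m N) (h' : MN H m' N') : MN H (fun j => m j + m' j) (N + N') := by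
  intro c S hS θ
  have : PP H (fun j => (m j + m' j) * c j) θ =
      PP H (fun j => m j * c j) θ + PP H (fun j => m' j * c j) θ := by
    unfold PP
    rw [← sum_add_distrib]
    exact sum_congr rfl fun j _ => by ring
  rw [this, add_mul]
  exact (norm_add_le _ _).trans (add_le_add (h c S hS θ) (h' c S hS θ))

theorem MN.mul (h : MN H m N) (h' : MN H m' N') : MN H (fun j => m j * m' j) (N * N') := by
  intro c S hS θ
  have := h _ _ (h' c S hS) θ
  simpa only [mul_assoc] using this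

theorem MN.pow (h : MN H m N) (n : ℕ) : MN H (fun j => m j ^ n) (N ^ n) := by
  induction n with
  | zero => simpa using MN.const (H := H) 1
  | succ n ih => simpa only [pow_succ] using ih.mul h

theorem MN.shift (t : ℝ) : MN H (fun j => ee (((j : ℝ) - H) * t)) 1 := by
  intro c S hS θ
  have : PP H (fun j => ee (((j : ℝ) - H) * t) * c j) θ = PP H c (θ + t) := by
    unfold PP
    refine sum_congr rfl fun j _ => ?_
    rw [mul_add, ee_add]
    ring
  rw [this, one_mul]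
  exact hS _

theorem MN.hasSum (f : ℕ → ℕ → ℂ) (g : ℕ → ℝ) (hf : ∀ i, MN H (f i) (g i)) (hg : HasSum g N)
    (hm : ∀ j < 2 * H, HasSum (fun i => f i j) (m j)) : MN H m N := by
  intro c S hS θ
  have h1 : HasSum (fun i => PP H (fun j => f i j * c j) θ) (PP H (fun j => m j * c j) θ) :=
    hasSum_sum fun j hj => ((hm j (mem_range.1 hj)).mul_right _).mul_right _
  exact h1.norm_le_of_bounded (hg.mul_right S) fun i => hf i c S hS θ

theorem MN.sin (t : ℝ) : MN H (fun j => ((Real.sin (2 * π * (((j : ℝ) - H) * t)) : ℝ) : ℂ)) 1 := by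
  have h := ((MN.const (H := H) (-Complex.I / 2)).mul (MN.shift t)).add
    ((MN.const (H := H) (Complex.I / 2)).mul (MN.shift (-t)))
  refine (h.congr fun j _ => ?_).mono (le_of_eq ?_)
  · rw [ee_sub_ee, mul_neg]
  · simp
    norm_num

theorem hasSum_cos {x : ℝ} (h0 : 0 ≤ x) (h1 : x ≤ 1) :
    HasSum (fun n : ℕ => 1 / (n : ℝ) ^ 2 * Real.cos (2 * π * n * x))
      (π ^ 2 * (x ^ 2 - x + 1 / 6)) := by
  have h := hasSum_one_div_nat_pow_mul_cos (k := 1) one_ne_zero (x := x) ⟨h0, h1⟩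
  have h2 : (Polynomial.map (algebraMap ℚ ℝ) (Polynomial.bernoulli (2 * 1))).eval x =
      x ^ 2 - x + 6⁻¹ := bernoulliFun_two x
  rw [h2] at h
  have h3 : ((-1 : ℝ) ^ (1 + 1) * (2 * π) ^ (2 * 1) / 2 / ((2 * 1).factorial : ℕ) *
      (x ^ 2 - x + 6⁻¹)) = π ^ 2 * (x ^ 2 - x + 1 / 6) := by
    have h4 : (((2 * 1).factorial : ℕ) : ℝ) = 2 := by norm_num [Nat.factorial]
    rw [h4]
    ring
  rw [h3] at h
  exact h

theorem hasSum_tri {y : ℝ} (h0 : -1 ≤ y) (h1 : y ≤ 1) :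
    HasSum (fun n : ℕ => 8 / π ^ 2 * (1 / (n : ℝ) ^ 2) * Real.sin (π * n / 2) *
      Real.sin (π * n * y / 2)) y := by
  have ha := hasSum_cos (x := (1 - y) / 4) (by linarith) (by linarith)
  have hb := hasSum_cos (x := (1 + y) / 4) (by linarith) (by linarith)
  have h := (ha.sub hb).mul_left (4 / π ^ 2)
  have hπ : π ≠ 0 := Real.pi_ne_zero
  have e1 : 4 / π ^ 2 * (π ^ 2 * (((1 - y) / 4) ^ 2 - (1 - y) / 4 + 1 / 6) -
      π ^ 2 * (((1 + y) / 4) ^ 2 - (1 + y) / 4 + 1 / 6)) = y := by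
    field_simp
    ring
  rw [e1] at h
  have e2 : (fun n : ℕ => 8 / π ^ 2 * (1 / (n : ℝ) ^ 2) * Real.sin (π * n / 2) *
      Real.sin (π * n * y / 2)) = fun n : ℕ => 4 / π ^ 2 *
        (1 / (n : ℝ) ^ 2 * Real.cos (2 * π * n * ((1 - y) / 4)) -
          1 / (n : ℝ) ^ 2 * Real.cos (2 * π * n * ((1 + y) / 4))) := by
    funext n
    rw [show 2 * π * n * ((1 - y) / 4) = π * n / 2 - π * n * y / 2 by ring,
      show 2 * π * n * ((1 + y) / 4) = π * n / 2 + π * n * y / 2 by ring, Real.cos_sub,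
      Real.cos_add]
    ring
  rw [e2]
  exact h

theorem abs_sin_half (n : ℕ) : |Real.sin (π * n / 2)| = Real.sin (π * n / 2) ^ 2 := by
  have h1 : Real.sin (2 * (π * n / 2)) = 0 := by
    rw [show 2 * (π * n / 2) = n * π by ring]
    exact Real.sin_nat_mul_pi n
  rw [Real.sin_two_mul] at h1
  rcases mul_eq_zero.1 h1 with h | h
  · have h2 : Real.sin (π * n / 2) = 0 := by linarith
    rw [h2]
    simp
  · have h2 := Real.sin_sq_add_cos_sq (π * n / 2)
    rw [h] at h2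
    have h3 : Real.sin (π * n / 2) ^ 2 = 1 := by linarith
    rw [h3]
    exact (pow_eq_one_iff_of_nonneg (abs_nonneg _) two_ne_zero).1 (by rw [sq_abs, h3])

/-- the normalised frequency -/
noncomputable def yy (H j : ℕ) : ℝ := ((j : ℝ) - H) / H

theorem yy_mem (hH : 1 ≤ H) {j : ℕ} (hj : j < 2 * H) : -1 ≤ yy H j ∧ yy H j ≤ 1 := by
  have h0 : (0 : ℝ) < H := by exact_mod_cast hH
  have h1 : (j : ℝ) ≤ 2 * H := by exact_mod_cast hj.le
  have h2 : (0 : ℝ) ≤ j := Nat.cast_nonneg j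
  unfold yy
  constructor
  · rw [le_div_iff₀ h0]
    linarith
  · rw [div_le_iff₀ h0]
    linarith

theorem MN.yy (hH : 1 ≤ H) : MN H (fun j => ((yy H j : ℝ) : ℂ)) 1 := by
  have h0 : (H : ℝ) ≠ 0 := by positivity
  refine MN.hasSum
    (fun n j => ((8 / π ^ 2 * (1 / (n : ℝ) ^ 2) * Real.sin (π * n / 2) : ℝ) : ℂ) *
      ((Real.sin (2 * π * (((j : ℝ) - H) * (n / (4 * H)))) : ℝ) : ℂ))
    (fun n => 8 / π ^ 2 * (1 / (n : ℝ) ^ 2) * Real.sin (π * n / 2) * Real.sin (π * n * 1 / 2))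
    (fun n => ((MN.const _).mul (MN.sin _)).mono (le_of_eq ?_))
    (hasSum_tri (by norm_num) le_rfl) fun j hj => ?_
  · rw [mul_one, mul_one, Complex.norm_real, Real.norm_eq_abs, abs_mul, abs_sin_half,
      abs_of_nonneg (by positivity)]
    ring
  · obtain ⟨h1, h2⟩ := yy_mem hH hj
    have h3 := Complex.ofRealCLM.hasSum (hasSum_tri h1 h2)
    have e : ∀ n : ℕ, 2 * π * (((j : ℝ) - H) * (n / (4 * H))) = π * n * Bern.yy H j / 2 := by
      intro n
      unfold Bern.yy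
      field_simp
      ring
    simpa only [e, Complex.ofRealCLM_apply, Complex.ofReal_mul] using h3

theorem MN.ofBern (hB : StBern) (hH : 1 ≤ H) : MN H (fun j => ((Bern.yy H j : ℝ) : ℂ)) 1 := by
  intro c S hS θ
  rw [one_mul]
  exact hB H c S hH hS θ

theorem taylor2 (g g1 g2 : ℝ → ℝ) (h0 : ∀ x, HasDerivAt g (g1 x) x)
    (h1 : ∀ x, HasDerivAt g1 (g2 x) x) (K : ℝ) (hK : ∀ x, -K ≤ g2 x) (a : ℝ) (ha : g1 a = 0)
    (x : ℝ) : g a - K * (x - a) ^ 2 / 2 ≤ g x := by
  have hp : ∀ t, HasDerivAt (fun t => g1 t + K * (t - a)) (g2 t + K) t := fun t => by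
    simpa using (h1 t).fun_add (((hasDerivAt_id t).sub_const a).const_mul K)
  have hm : Monotone fun t => g1 t + K * (t - a) :=
    monotone_of_deriv_nonneg (fun t => (hp t).differentiableAt) fun t => by
      rw [(hp t).deriv]
      linarith [hK t]
  have hq : ∀ t, HasDerivAt (fun t => g t + K * (t - a) ^ 2 / 2) (g1 t + K * (t - a)) t := by
    intro t
    have h2 := (h0 t).fun_add
      (((((hasDerivAt_id t).sub_const a).fun_pow 2).const_mul K).div_const 2)
    have e : g1 t + K * (t - a) = g1 t + K * (((2 : ℕ) : ℝ) * (id t - a) ^ (2 - 1) * 1) / 2 := by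
      simp only [id]
      push_cast
      ring
    rw [e]
    exact h2
  have hc : Continuous fun t => g t + K * (t - a) ^ 2 / 2 :=
    continuous_iff_continuousAt.2 fun t => (hq t).continuousAt
  rcases lt_trichotomy x a with h | h | h
  · obtain ⟨c, hc1, hc2⟩ := exists_hasDerivAt_eq_slope (fun t => g t + K * (t - a) ^ 2 / 2)
      (fun t => g1 t + K * (t - a)) h hc.continuousOn fun t _ => hq t
    have h3 := hm hc1.2.le
    simp only [ha, sub_self, mul_zero, add_zero] at h3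
    rw [hc2, div_le_iff₀ (sub_pos.2 h)] at h3
    simp only [sub_self] at h3
    linarith
  · rw [h]
    simp
  · obtain ⟨c, hc1, hc2⟩ := exists_hasDerivAt_eq_slope (fun t => g t + K * (t - a) ^ 2 / 2)
      (fun t => g1 t + K * (t - a)) h hc.continuousOn fun t _ => hq t
    have h3 := hm hc1.1.le
    simp only [ha, sub_self, mul_zero, add_zero] at h3
    rw [hc2, le_div_iff₀ (sub_pos.2 h)] at h3
    simp only [sub_self] at h3
    linarith

theorem hasDerivAt_ee (r θ : ℝ) :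
    HasDerivAt (fun θ : ℝ => ee (r * θ)) (((2 * π * r : ℝ) : ℂ) * Complex.I * ee (r * θ)) θ := by
  have h1 : HasDerivAt (fun θ : ℝ => 2 * π * (r * θ)) (2 * π * r) θ := by
    simpa using ((hasDerivAt_id θ).const_mul r).const_mul (2 * π)
  have h2 := (h1.ofReal_comp.mul_const Complex.I).cexp
  rw [mul_comm (((2 * π * r : ℝ) : ℂ) * Complex.I)]
  exact h2

/-- the coefficients of the derivative -/
noncomputable def dd (H : ℕ) (c : ℕ → ℂ) (j : ℕ) : ℂ :=
  ((2 * π * ((j : ℝ) - H) : ℝ) : ℂ) * Complex.I * c j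

theorem hasDerivAt_PP (c : ℕ → ℂ) (θ : ℝ) : HasDerivAt (PP H c) (PP H (dd H c) θ) θ := by
  have h := HasDerivAt.fun_sum (u := range (2 * H))
    fun j _ => (hasDerivAt_ee ((j : ℝ) - H) θ).const_mul (c j)
  have e : PP H (dd H c) θ = ∑ j ∈ range (2 * H),
      c j * (((2 * π * ((j : ℝ) - H) : ℝ) : ℂ) * Complex.I * ee (((j : ℝ) - H) * θ)) :=
    sum_congr rfl fun j _ => by
      unfold dd
      ring
  rw [e]
  exact h

theorem dd_le (hB : StBern) (hH : 1 ≤ H) (c : ℕ → ℂ) (S : ℝ) (hS : ∀ θ, ‖PP H c θ‖ ≤ S) (θ : ℝ) :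
    ‖PP H (dd H c) θ‖ ≤ 2 * π * H * S := by
  have h0 : (H : ℝ) ≠ 0 := by positivity
  have h : MN H (fun j => ((2 * π * ((j : ℝ) - H) : ℝ) : ℂ) * Complex.I) (2 * π * H) := by
    refine (((MN.const (((2 * π * H : ℝ) : ℂ) * Complex.I)).mul (MN.ofBern hB hH)).congr
      fun j _ => ?_).mono (le_of_eq ?_)
    · rw [mul_right_comm ((2 * π * H : ℝ) : ℂ), ← Complex.ofReal_mul]
      congr 2
      unfold Bern.yy
      field_simp
    · rw [norm_mul, Complex.norm_I, Complex.norm_real, Real.norm_eq_abs,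
        abs_of_nonneg (by positivity)]
      ring
  exact h c S hS θ

theorem PP_add_int (c : ℕ → ℂ) (θ : ℝ) (n : ℤ) : PP H c (θ + n) = PP H c θ := by
  refine sum_congr rfl fun j _ => ?_
  have : ((j : ℝ) - H) * n = ((((j : ℤ) - H) * n : ℤ) : ℝ) := by
    push_cast
    ring
  rw [mul_add, ee_add, this, ee_int, mul_one]

theorem exists_max (c : ℕ → ℂ) : ∃ a, ∀ θ, ‖PP H c θ‖ ≤ ‖PP H c a‖ := by
  have hc : Continuous fun θ => ‖PP H c θ‖ :=
    (continuous_iff_continuousAt.2 fun t => (hasDerivAt_PP c t).continuousAt).norm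
  obtain ⟨a, _, ha⟩ := (isCompact_Icc (a := (0 : ℝ)) (b := 1)).exists_isMaxOn
    ⟨0, le_rfl, zero_le_one⟩ hc.continuousOn
  refine ⟨a, fun θ => ?_⟩
  have h1 : PP H c θ = PP H c (Int.fract θ) := by
    rw [← PP_add_int c (Int.fract θ) ⌊θ⌋, Int.fract_add_floor]
  rw [h1]
  exact ha ⟨Int.fract_nonneg θ, (Int.fract_lt_one θ).le⟩

theorem hasDerivAt_re (u : ℂ) (c : ℕ → ℂ) (θ : ℝ) :
    HasDerivAt (fun θ => (u * PP H c θ).re) (u * PP H (dd H c) θ).re θ :=
  Complex.reCLM.hasFDerivAt.comp_hasDerivAt θ ((hasDerivAt_PP c θ).const_mul u)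

theorem near_max (hB : StBern) (hH : 1 ≤ H) (c : ℕ → ℂ) (a : ℝ)
    (ha : ∀ θ, ‖PP H c θ‖ ≤ ‖PP H c a‖) (x : ℝ) :
    ‖PP H c a‖ - (2 * π * H) ^ 2 * ‖PP H c a‖ * (x - a) ^ 2 / 2 ≤ ‖PP H c x‖ := by
  obtain ⟨u, hu, hu2⟩ := Complex.exists_norm_eq_mul_self (PP H c a)
  have hle : ∀ z : ℂ, |(u * z).re| ≤ ‖z‖ := fun z =>
    (Complex.abs_re_le_norm _).trans (le_of_eq (by rw [norm_mul, hu, one_mul]))
  have hga : (u * PP H c a).re = ‖PP H c a‖ := by rw [← hu2, Complex.ofReal_re]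
  have hmax : IsLocalMax (fun θ => (u * PP H c θ).re) a :=
    Filter.Eventually.of_forall fun θ => by
      show (u * PP H c θ).re ≤ (u * PP H c a).re
      rw [hga]
      exact ((le_abs_self _).trans (hle _)).trans (ha θ)
  have h := taylor2 (fun θ => (u * PP H c θ).re) (fun θ => (u * PP H (dd H c) θ).re)
    (fun θ => (u * PP H (dd H (dd H c)) θ).re) (hasDerivAt_re u c) (hasDerivAt_re u (dd H c))
    ((2 * π * H) ^ 2 * ‖PP H c a‖) (fun θ => ?_) a
    (hmax.hasDerivAt_eq_zero (hasDerivAt_re u c a)) x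
  · rw [hga] at h
    exact h.trans ((le_abs_self _).trans (hle _))
  · have h1 := dd_le hB hH _ _ (dd_le hB hH c _ ha) θ
    have h2 := (abs_le.1 ((hle _).trans h1)).1
    have e : (2 * π * H) ^ 2 * ‖PP H c a‖ = 2 * π * H * (2 * π * H * ‖PP H c a‖) := by ring
    rw [e]
    exact h2

theorem MN.inv (hB : StBern) (hH : 1 ≤ H) {a b : ℂ} (h : ‖b‖ < ‖a‖) :
    MN H (fun j => 1 / (a + b * (Bern.yy H j : ℝ))) (1 / (‖a‖ - ‖b‖)) := by
  have ha0 : 0 < ‖a‖ := (norm_nonneg _).trans_lt h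
  have ha : a ≠ 0 := norm_pos_iff.1 ha0
  have hr : ‖-b / a‖ < 1 := by rw [norm_div, norm_neg, div_lt_one ha0]; exact h
  refine MN.hasSum (fun i j => a⁻¹ * (-b / a * (Bern.yy H j : ℝ)) ^ i)
    (fun i => ‖a⁻¹‖ * (‖-b / a‖ * 1) ^ i)
    (fun i => (MN.const _).mul (((MN.const _).mul (MN.ofBern hB hH)).pow i)) ?_ fun j hj => ?_
  · have h1 := (hasSum_geometric_of_lt_one (norm_nonneg (-b / a)) hr).mul_left ‖a⁻¹‖
    have e : 1 / (‖a‖ - ‖b‖) = ‖a⁻¹‖ * (1 - ‖-b / a‖)⁻¹ := by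
      have h2 : ‖a‖ - ‖b‖ ≠ 0 := (sub_pos.2 h).ne'
      rw [norm_inv, norm_div, norm_neg]
      field_simp
    rw [e]
    simpa only [mul_one] using h1
  · obtain ⟨h1, h2⟩ := yy_mem hH hj
    have h3 : ‖-b / a * (Bern.yy H j : ℝ)‖ < 1 := by
      rw [norm_mul, Complex.norm_real, Real.norm_eq_abs]
      exact (mul_le_of_le_one_right (norm_nonneg _) (abs_le.2 ⟨h1, h2⟩)).trans_lt hr
    have h4 := (hasSum_geometric_of_norm_lt_one h3).mul_left a⁻¹
    have e : 1 / (a + b * (Bern.yy H j : ℝ)) = a⁻¹ * (1 - -b / a * (Bern.yy H j : ℝ))⁻¹ := by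
      rw [← mul_inv, one_div]
      congr 1
      field_simp
      ring
    rw [e]
    exact h4

theorem MN.lin (hB : StBern) (hH : 1 ≤ H) {a b : ℝ} :
    MN H (fun j => ((a + b * Bern.yy H j : ℝ) : ℂ)) (|a| + |b|) := by
  refine (((MN.const (a : ℂ)).add ((MN.const (b : ℂ)).mul (MN.ofBern hB hH))).congr
    fun j _ => ?_).mono (le_of_eq ?_)
  · push_cast
    ring
  · simp

theorem MN.om (hB : StBern) (hH : 1 ≤ H) {k0 : ℕ} (hk : k0 + 2 * H ≤ 2 ^ 23) :
    MN H (fun j => om (k0 + j)) (omN k0 H) := by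
  have hH1 : (1 : ℝ) ≤ H := by exact_mod_cast hH
  have hH0 : (H : ℝ) ≠ 0 := by positivity
  have hk0 : (0 : ℝ) ≤ k0 := Nat.cast_nonneg _
  have hkR : (k0 : ℝ) + 2 * H ≤ 2 ^ 23 := by exact_mod_cast hk
  have hl : 0 < Real.log 2 := Real.log_pos one_lt_two
  have hπ := Real.pi_pos
  have hy : ∀ j : ℕ, (H : ℝ) * Bern.yy H j = j - H := fun j => by
    unfold Bern.yy
    field_simp
  have hA : MN H (fun j => cs (k0 + j)) (1 / (π * (2 * k0 + 1))) := by
    have n1 : ‖(((2 * k0 + 1 + 2 * H) * π : ℝ) : ℂ) * Complex.I‖ = (2 * k0 + 1 + 2 * H) * π := by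
      rw [norm_mul, Complex.norm_I, mul_one, Complex.norm_real, Real.norm_eq_abs,
        abs_of_nonneg (by positivity)]
    have n2 : ‖((2 * H * π : ℝ) : ℂ) * Complex.I‖ = 2 * H * π := by
      rw [norm_mul, Complex.norm_I, mul_one, Complex.norm_real, Real.norm_eq_abs,
        abs_of_nonneg (by positivity)]
    have h := MN.inv hB hH (a := (((2 * k0 + 1 + 2 * H) * π : ℝ) : ℂ) * Complex.I)
      (b := ((2 * H * π : ℝ) : ℂ) * Complex.I) (by rw [n1, n2]; nlinarith)
    refine (h.congr fun j _ => ?_).mono (le_of_eq ?_)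
    · unfold cs
      congr 1
      have h1 : ((H : ℝ) : ℂ) * (Bern.yy H j : ℝ) = ((j : ℝ) : ℂ) - (H : ℝ) := by
        exact_mod_cast hy j
      push_cast at h1 ⊢
      linear_combination (-2 * π * Complex.I) * h1
    · rw [n1, n2]
      congr 1
      ring
  have hB1 : MN H (fun j => 1 / sk (k0 + j)) (1 / tk k0) := by
    have n1 : (2 * k0 + 1 + 2 * H) * π / Real.log 2 ≤
        ‖1 + (((2 * k0 + 1 + 2 * H) * π / Real.log 2 : ℝ) : ℂ) * Complex.I‖ := by
      refine le_trans (le_of_eq ?_) ((le_abs_self _).trans (Complex.abs_im_le_norm _))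
      rw [Complex.add_im, Complex.one_im, Complex.im_ofReal_mul, Complex.I_im]
      ring
    have n2 : ‖((2 * H * π / Real.log 2 : ℝ) : ℂ) * Complex.I‖ = 2 * H * π / Real.log 2 := by
      rw [norm_mul, Complex.norm_I, mul_one, Complex.norm_real, Real.norm_eq_abs,
        abs_of_nonneg (by positivity)]
    have n3 : (2 * k0 + 1 + 2 * H) * π / Real.log 2 = tk k0 + 2 * H * π / Real.log 2 := by
      unfold tk
      ring
    have n4 : 0 < tk k0 := by
      unfold tk
      positivity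
    have h := MN.inv hB hH
      (a := 1 + (((2 * k0 + 1 + 2 * H) * π / Real.log 2 : ℝ) : ℂ) * Complex.I)
      (b := ((2 * H * π / Real.log 2 : ℝ) : ℂ) * Complex.I) (by rw [n2]; linarith)
    refine (h.congr fun j _ => ?_).mono (one_div_le_one_div_of_le n4 (by rw [n2]; linarith))
    unfold sk
    congr 1
    have h1 : tk (k0 + j) = (2 * k0 + 1 + 2 * H) * π / Real.log 2 +
        2 * H * π / Real.log 2 * Bern.yy H j := by
      unfold tk
      push_cast
      linear_combination (-2 * π / Real.log 2) * hy j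
    rw [h1, Complex.ofReal_add, Complex.ofReal_mul]
    ring
  have hx : MN H (fun j => (((2 * (k0 + j) + 1) / 2 ^ 24 : ℝ) : ℂ))
      ((2 * k0 + 1 + 4 * H) / 2 ^ 24) := by
    refine ((MN.lin hB hH (a := (2 * k0 + 1 + 2 * H) / 2 ^ 24) (b := 2 * H / 2 ^ 24)).congr
      fun j _ => ?_).mono (le_of_eq ?_)
    · congr 1
      linear_combination (-2 / 2 ^ 24 : ℝ) * hy j
    · rw [abs_of_nonneg (by positivity), abs_of_nonneg (by positivity)]
      ring
  have hx1 : MN H (fun j => ((1 - (2 * (k0 + j) + 1) / 2 ^ 24 : ℝ) : ℂ))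
      (1 - (2 * k0 + 1) / 2 ^ 24) := by
    refine ((MN.lin hB hH (a := 1 - (2 * k0 + 1 + 2 * H) / 2 ^ 24) (b := -(2 * H / 2 ^ 24))).congr
      fun j _ => ?_).mono (le_of_eq ?_)
    · congr 1
      linear_combination (2 / 2 ^ 24 : ℝ) * hy j
    · have h1 : (0 : ℝ) ≤ 1 - (2 * k0 + 1 + 2 * H) / 2 ^ 24 := by
        rw [sub_nonneg, div_le_one (by positivity)]
        linarith
      rw [abs_of_nonneg h1, abs_neg, abs_of_nonneg (by positivity)]
      ring
  have h := (((hx1.pow 3).mul (((MN.const 1).add ((MN.const 3).mul hx)).add (hx.pow 2))).add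
    ((MN.const (-1)).mul hB1)).mul hA
  refine (h.congr fun j hj => ?_).mono (le_of_eq ?_)
  · unfold S2.om cg Kf Kp
    rw [if_pos (by omega)]
    push_cast
    ring
  · unfold omN
    have h3 : ‖(3 : ℂ)‖ = 3 := by simp
    rw [norm_neg, norm_one, h3]
    ring

end Bern

open Bern

theorem bern : StBern := by
  intro H c S hH hS θ
  have := MN.yy hH c S hS θ
  rw [one_mul] at this
  exact this

theorem grid (hB : StBern) : StGrid := by
  intro H M c S hH hM hS θ
  obtain ⟨a, ha⟩ := exists_max (H := H) c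
  have hM0 : 0 < M := by omega
  have hMR : (0 : ℝ) < M := by exact_mod_cast hM0
  have hMZ : (0 : ℤ) < M := by exact_mod_cast hM0
  have hHM : 4 * (H : ℝ) ≤ M := by exact_mod_cast hM
  have hπ := Real.pi_pos
  have h1 : π * H / M ≤ 1 := by
    rw [div_le_one hMR]
    nlinarith [Real.pi_le_four, Nat.cast_nonneg (α := ℝ) H]
  have h2 : 0 ≤ π * H / M := by positivity
  have h3 : 0 < 1 - (π * H / M) ^ 2 / 2 := by nlinarith
  refine (ha θ).trans ?_
  rw [le_div_iff₀ h3]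
  set r : ℤ := round (a * M) with hr
  have h4 : ‖PP H c ((r : ℝ) / M)‖ ≤ S := by
    obtain ⟨i, hi⟩ := Int.eq_ofNat_of_zero_le (Int.emod_nonneg r hMZ.ne')
    have hi2 : i < M := by
      have := Int.emod_lt_of_pos r hMZ
      omega
    have h5 : (r : ℝ) / M = (i : ℝ) / M + ((r / M : ℤ) : ℝ) := by
      have h6 : (i : ℤ) + M * (r / M) = r := by
        rw [← hi]
        exact Int.emod_add_mul_ediv r M
      have h7 : (i : ℝ) + M * ((r / M : ℤ) : ℝ) = r := by exact_mod_cast h6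
      rw [← h7]
      field_simp
    rw [h5, PP_add_int]
    exact hS i hi2
  have h5 := near_max hB hH c a ha ((r : ℝ) / M)
  have h6 : (a * M - r) ^ 2 ≤ 1 / 4 := by
    have h7 := abs_le.1 (abs_sub_round (a * M))
    rw [← hr] at h7
    nlinarith [h7.1, h7.2]
  have h8 : (2 * π * H) ^ 2 * ‖PP H c a‖ * ((r : ℝ) / M - a) ^ 2 / 2 =
      (π * H / M) ^ 2 * ‖PP H c a‖ * 2 * (a * M - r) ^ 2 := by
    field_simp
    ring
  have h9 : 0 ≤ (π * H / M) ^ 2 * ‖PP H c a‖ * 2 := by positivity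
  have h10 := mul_le_mul_of_nonneg_left h6 h9
  rw [h8] at h5
  linarith

theorem block (hB : StBern) : StBlock := by
  intro k0 H R S hH hk hS u
  have h := MN.om hB hH hk R S hS (u / Real.log 2)
  have e : ∑ j ∈ range (2 * H), 2 * (om (k0 + j) * R j * ex (k0 + j) u).re =
      2 * (ee ((2 * k0 + 1 + 2 * H) / 2 * (u / Real.log 2)) *
        PP H (fun j => om (k0 + j) * R j) (u / Real.log 2)).re := by
    unfold PP
    rw [mul_sum, Complex.re_sum, mul_sum]
    refine sum_congr rfl fun j _ => ?_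
    have h1 : ex (k0 + j) u = ee ((2 * k0 + 1 + 2 * H) / 2 * (u / Real.log 2)) *
        ee (((j : ℝ) - H) * (u / Real.log 2)) := by
      rw [← ee_add]
      unfold ex ext ee tk
      congr 3
      push_cast
      ring
    rw [h1]
    congr 2
    ring
  rw [e, abs_mul, abs_two, mul_assoc]
  refine mul_le_mul_of_nonneg_left ((Complex.abs_re_le_norm _).trans ?_) zero_le_two
  rw [norm_mul, norm_ee, one_mul]
  exact h

end Pool.Agent.Lib.MP_5db4ad_nt.S2
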