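import Pool.Agent.Lib.MP_5db4ad_nt.S2LowSt
import Pool.Agent.Lib.MP_5db4ad_nt.UnitSpec

/-!
The list of odd numbers with primality flags and logarithms is right.
-/

namespace Pool.Agent.Lib.MP_5db4ad_nt.S2

open Finset

namespace Odds

lemma ath_zero (x2 i p s : ℕ) : ath x2 0 i p s = s := rfl

lemma ath_stop (x2 f i s : ℕ) : ath x2 f i 0 s = s := by cases f <;> rfl

lemma ath_succ (x2 f i p s : ℕ) (hp : p ≠ 0) :
    ath x2 (f + 1) i p s = ath x2 f (i + 2) (p / x2) (s + p / i) := by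
  obtain ⟨q, rfl⟩ := Nat.exists_eq_succ_of_ne_zero hp
  show frc (Nat.add s (Nat.div (q + 1) i)) (fun s' => frc (Nat.div (q + 1) x2) fun p' =>
    ath x2 f (Nat.add i (nat_lit 2)) p' s') = _
  rw [frc_eq, frc_eq]
  rfl

/-- the terms of the series -/
noncomputable def tm (x : ℕ) (j : ℕ) : ℝ := 2 ^ 90 / ((x : ℝ) ^ (2 * j + 1) * (2 * j + 1))

lemma tm_sum (m : ℕ) (hm : 1 ≤ m) :
    HasSum (tm (m + 1)) (2 ^ 89 * (Real.log ((m + 2 : ℕ) : ℝ) - Real.log m)) := by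
  have h0 : (0 : ℝ) < m := by exact_mod_cast hm
  have h := (Real.hasSum_log_one_add_inv (a := (m : ℝ) / 2) (by positivity)).mul_left (2 ^ 89)
  have e1 : Real.log (1 + ((m : ℝ) / 2)⁻¹) = Real.log ((m + 2 : ℕ) : ℝ) - Real.log m := by
    rw [← Real.log_div (by positivity) h0.ne']
    refine congrArg Real.log ?_
    push_cast
    field_simp
  have e2 : tm (m + 1) = fun k : ℕ =>
      2 ^ 89 * ((2 : ℝ) * (1 / (2 * k + 1)) * (1 / (2 * ((m : ℝ) / 2) + 1)) ^ (2 * k + 1)) := by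
    funext k
    have e3 : 2 * ((m : ℝ) / 2) + 1 = ((m + 1 : ℕ) : ℝ) := by push_cast; ring
    rw [e3, tm, one_div_pow]
    have : (0 : ℝ) < ((m + 1 : ℕ) : ℝ) := by positivity
    field_simp
  rw [e2, ← e1]
  exact h

lemma tail {x : ℕ} (hx : 2 ≤ x) {T : ℝ} (h : HasSum (tm x) T) (k : ℕ)
    (hk : 2 ^ 90 / x ^ (2 * k + 1) = 0) :
    0 ≤ T - ∑ j ∈ range k, tm x j ∧ T - ∑ j ∈ range k, tm x j ≤ 2 := by
  have h1 := (hasSum_nat_add_iff' k).2 h
  have hx0 : (2 : ℝ) ≤ x := by exact_mod_cast hx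
  refine ⟨h1.nonneg fun j => by unfold tm; positivity, hasSum_le (fun j => ?_) h1 hasSum_geometric_two⟩
  have h2 : 2 ^ 90 < x ^ (2 * k + 1) :=
    (Nat.div_eq_zero_iff.1 hk).resolve_left (pow_pos (by omega) _).ne'
  have h3 : (2 : ℝ) ^ 90 ≤ (x : ℝ) ^ (2 * k + 1) := by exact_mod_cast h2.le
  have h4 : (2 : ℝ) ^ j ≤ (x : ℝ) ^ (2 * j) :=
    (pow_le_pow_left₀ (by norm_num) hx0 j).trans (pow_le_pow_right₀ (by linarith) (by omega))
  unfold tm
  rw [one_div_pow, div_le_div_iff₀ (by positivity) (by positivity), one_mul,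
    show 2 * (j + k) + 1 = (2 * k + 1) + 2 * j by ring, pow_add]
  have h5 : (1 : ℝ) ≤ 2 * ((j + k : ℕ) : ℝ) + 1 := by
    have : (0 : ℝ) ≤ ((j + k : ℕ) : ℝ) := Nat.cast_nonneg _
    linarith
  exact (mul_le_mul h3 h4 (by positivity) (by positivity)).trans
    (le_mul_of_one_le_right (by positivity) h5)

lemma ath_spec {x : ℕ} (hx : 2 ≤ x) {T : ℝ} (h : HasSum (tm x) T) (f : ℕ) : ∀ k s : ℕ,
    2 ^ 90 / x ^ (2 * k + 1) < 4 ^ f →
    |(ath (x * x) f (2 * k + 1) (2 ^ 90 / x ^ (2 * k + 1)) s : ℝ) - s -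
      (T - ∑ j ∈ range k, tm x j)| ≤ f + 2 := by
  have stop : ∀ f k s : ℕ, 2 ^ 90 / x ^ (2 * k + 1) = 0 →
      |(ath (x * x) f (2 * k + 1) (2 ^ 90 / x ^ (2 * k + 1)) s : ℝ) - s -
        (T - ∑ j ∈ range k, tm x j)| ≤ f + 2 := by
    intro f k s hk
    obtain ⟨a1, a2⟩ := tail hx h k hk
    have : (0 : ℝ) ≤ f := Nat.cast_nonneg f
    rw [hk, ath_stop, abs_le]
    constructor <;> linarith
  induction f with
  | zero => exact fun k s hk => stop 0 k s (by simpa using hk)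
  | succ f ih =>
    intro k s hk
    by_cases h0 : 2 ^ 90 / x ^ (2 * k + 1) = 0
    · exact stop _ k s h0
    have e1 : 2 ^ 90 / x ^ (2 * k + 1) / (x * x) = 2 ^ 90 / x ^ (2 * (k + 1) + 1) := by
      rw [Nat.div_div_eq_div_mul]
      exact congrArg _ (by ring)
    have h1 : 2 ^ 90 / x ^ (2 * (k + 1) + 1) < 4 ^ f := by
      rw [← e1]
      refine lt_of_le_of_lt (Nat.div_le_div_left (Nat.mul_le_mul hx hx) (by norm_num)) ?_
      rw [Nat.div_lt_iff_lt_mul (by norm_num)]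
      simpa [pow_succ] using hk
    have h2 := ih (k + 1) (s + 2 ^ 90 / x ^ (2 * k + 1) / (2 * k + 1)) h1
    rw [ath_succ _ _ _ _ _ h0, e1, show 2 * k + 1 + 2 = 2 * (k + 1) + 1 by ring]
    rw [sum_range_succ, Nat.cast_add s, Nat.div_div_eq_div_mul] at h2
    rw [Nat.div_div_eq_div_mul]
    have e2 : tm x k = ((2 ^ 90 : ℕ) : ℝ) / ((x ^ (2 * k + 1) * (2 * k + 1) : ℕ) : ℝ) := by
      unfold tm
      push_cast
      ring
    have h3 : ((2 ^ 90 / (x ^ (2 * k + 1) * (2 * k + 1)) : ℕ) : ℝ) ≤ tm x k := e2 ▸ Nat.cast_div_le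
    have h4 : tm x k < ((2 ^ 90 / (x ^ (2 * k + 1) * (2 * k + 1)) : ℕ) : ℝ) + 1 := by
      rw [e2, ← Nat.floor_div_eq_div (K := ℝ)]
      exact Nat.lt_floor_add_one _
    rw [abs_le] at h2 ⊢
    push_cast at h2 h3 h4 ⊢
    constructor <;> linarith [h2.1, h2.2]

lemma step {m s n : ℕ} (hm : 1 ≤ m) (h : |(s : ℝ) - 2 ^ 89 * Real.log m| ≤ 52 * (n : ℝ)) :
    |(ath ((m + 1) * (m + 1)) 50 1 (2 ^ 90 / (m + 1)) s : ℝ) - 2 ^ 89 * Real.log ((m + 2 : ℕ) : ℝ)| ≤
      52 * ((n + 1 : ℕ) : ℝ) := by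
  have h1 := ath_spec (x := m + 1) (by omega) (tm_sum m hm) 50 0 s
    (lt_of_le_of_lt (Nat.div_le_self _ _) (by norm_num))
  rw [show 2 * 0 + 1 = 1 from rfl, pow_one, sum_range_zero, abs_le] at h1
  rw [abs_le] at h ⊢
  rw [Nat.cast_succ n]
  have e : ((50 : ℕ) : ℝ) = 50 := by norm_num
  rw [e] at h1
  constructor <;> linarith [h.1, h.2, h1.1, h1.2]

lemma out {m s n : ℕ} (hm : 1 ≤ m) (hm' : m ≤ 16384) (hn : n ≤ 8191)
    (h : |(s : ℝ) - 2 ^ 89 * Real.log m| ≤ 52 * (n : ℝ)) :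
    |((s * 1744111284760651037637903 / 2 ^ 105 : ℕ) : ℝ) / 2 ^ 64 - Real.log m / Real.log 2| ≤
      1 / 2 ^ 62 := by
  obtain ⟨l1, l2⟩ := log_two_bounds
  have hl : 0 < Real.log 2 := by linarith
  have h0 : (0 : ℝ) ≤ Real.log m := Real.log_natCast_nonneg m
  have h1 : Real.log m ≤ 14 * Real.log 2 := by
    have e : (14 : ℝ) * Real.log 2 = Real.log (2 ^ 14) := by
      rw [Real.log_pow]; norm_num
    rw [e]
    refine Real.log_le_log (by exact_mod_cast hm) ?_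
    have : (m : ℝ) ≤ ((16384 : ℕ) : ℝ) := by exact_mod_cast hm'
    linarith [show ((16384 : ℕ) : ℝ) = 2 ^ 14 by norm_num]
  obtain ⟨y, hy⟩ : ∃ y, y = Real.log m / Real.log 2 := ⟨_, rfl⟩
  have hy0 : 0 ≤ y := hy ▸ div_nonneg h0 hl.le
  have hy1 : y ≤ 14 := by rw [hy, div_le_iff₀ hl]; exact h1
  have hy2 : Real.log m = y * Real.log 2 := by rw [hy, div_mul_cancel₀ _ hl.ne']
  have a1 : y * 0.6931471805599453094172 ≤ Real.log m := hy2 ▸ mul_le_mul_of_nonneg_left l1.le hy0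
  have a2 : Real.log m ≤ y * 0.6931471805599453094173 := hy2 ▸ mul_le_mul_of_nonneg_left l2.le hy0
  have hn' : (n : ℝ) ≤ 8191 := by exact_mod_cast hn
  have h3 : ((s * 1744111284760651037637903 / 2 ^ 105 : ℕ) : ℝ) ≤
      ((s * 1744111284760651037637903 : ℕ) : ℝ) / ((2 ^ 105 : ℕ) : ℝ) := Nat.cast_div_le
  have h4 : ((s * 1744111284760651037637903 : ℕ) : ℝ) / ((2 ^ 105 : ℕ) : ℝ) <
      ((s * 1744111284760651037637903 / 2 ^ 105 : ℕ) : ℝ) + 1 := by
    rw [← Nat.floor_div_eq_div (K := ℝ)]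
    exact Nat.lt_floor_add_one _
  generalize ((s * 1744111284760651037637903 / 2 ^ 105 : ℕ) : ℝ) = g at h3 h4 ⊢
  push_cast at h3 h4
  rw [← hy]
  rw [abs_le] at h ⊢
  constructor <;> linarith [h.1, h.2]

lemma isq_iff {m : ℕ} (hm : m ≤ 16384) : isq m = true ↔ 5 ≤ m ∧ m.Prime := by
  by_cases h : m ≤ 127
  · have key : ∀ m ≤ 127, isq m = true ↔ 5 ≤ m ∧ 2 ≤ m ∧ ∀ k < m, k ∣ m → k = 1 := by
      decide +kernel
    rw [Nat.prime_def_lt]
    exact key m h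
  have e : isq m = Nat.beq (Nat.gcd m 4014476939333036189094441199026045136645885247730) 1 := by
    have hb : Nat.ble m (nat_lit 127) = false := by
      rw [← Bool.not_eq_true, Nat.ble_eq]
      exact h
    unfold isq
    rw [hb]
  rw [e, Nat.beq_eq]
  constructor
  · intro hg
    refine ⟨by omega, ?_⟩
    by_contra hp
    have h1 := Nat.minFac_sq_le_self (by omega) hp
    have h2 := Nat.minFac_prime (n := m) (by omega)
    have h3 : m.minFac ≤ 128 := by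
      by_contra hc
      nlinarith
    have key : ∀ q ≤ 128, 2 ≤ q ∧ (∀ k < q, k ∣ q → k = 1) →
        q ∣ 4014476939333036189094441199026045136645885247730 := by decide +kernel
    have h4 := Nat.dvd_gcd (Nat.minFac_dvd m) (key _ h3 (Nat.prime_def_lt.1 h2))
    rw [hg] at h4
    exact h2.one_lt.ne' (Nat.dvd_one.1 h4)
  · rintro ⟨-, hp⟩
    refine (Nat.Prime.coprime_iff_not_dvd hp).2 fun hd => h ?_
    have key : 4014476939333036189094441199026045136645885247730 ∣ Nat.factorial 127 := by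
      decide +kernel
    exact (Nat.Prime.dvd_factorial hp).1 (hd.trans key)

lemma odds_succ (t m s : ℕ) : (odds (t + 1) m s).toList =
    (m + 2, if isq (m + 2) = true then 1 else 0,
      ath ((m + 1) * (m + 1)) 50 1 (2 ^ 90 / (m + 1)) s * 1744111284760651037637903 / 2 ^ 105) ::
      (odds t (m + 2) (ath ((m + 1) * (m + 1)) 50 1 (2 ^ 90 / (m + 1)) s)).toList := by
  have e : odds (t + 1) m s = frc (Nat.succ m) fun x => frc (Nat.mul x x) fun x2 =>
      frc (Nat.div (nat_lit 1237940039285380274899124224) x) fun p =>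
      frc (ath x2 (nat_lit 50) (nat_lit 1) p s) fun s' => frc (Nat.succ x) fun m' =>
      frc (Nat.shiftRight (Nat.mul s' (nat_lit 1744111284760651037637903)) (nat_lit 105)) fun g =>
      Bool.rec (L3.cons m' (nat_lit 0) g (odds t m' s')) (L3.cons m' (nat_lit 1) g (odds t m' s'))
        (isq m') := rfl
  have e2 : (2 : ℕ) ^ 90 = nat_lit 1237940039285380274899124224 := by decide +kernel
  rw [e, frc_eq, frc_eq, frc_eq, frc_eq, frc_eq, frc_eq, e2, ← Nat.shiftRight_eq_div_pow]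
  show L3.toList (Bool.rec _ _ (isq (m + 2))) = _
  cases isq (m + 2) <;> rfl

lemma main (t : ℕ) : ∀ n s : ℕ, n + t ≤ 8191 →
    |(s : ℝ) - 2 ^ 89 * Real.log ((2 * n + 1 : ℕ) : ℝ)| ≤ 52 * (n : ℝ) →
    (odds t (2 * n + 1) s).toList.map (·.1) = (List.range' n t).map (fun i => 2 * i + 3) ∧
    ∀ e ∈ (odds t (2 * n + 1) s).toList,
      (1 ≤ e.1 ∧ |(e.2.2 : ℝ) / 2 ^ 64 - Real.log e.1 / Real.log 2| ≤ 1 / 2 ^ 62) ∧
      e.2.1 = if 5 ≤ e.1 ∧ e.1.Prime then 1 else 0 := by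
  induction t with
  | zero => exact fun n s _ _ => ⟨rfl, fun e he => absurd he List.not_mem_nil⟩
  | succ t ih =>
    intro n s hn h
    have h1 := step (by omega) h
    have e : 2 * n + 1 + 2 = 2 * (n + 1) + 1 := by ring
    rw [odds_succ]
    generalize ath ((2 * n + 1 + 1) * (2 * n + 1 + 1)) 50 1 (2 ^ 90 / (2 * n + 1 + 1)) s = s' at h1 ⊢
    rw [e] at h1 ⊢
    obtain ⟨a1, a2⟩ := ih (n + 1) s' (by omega) h1
    refine ⟨?_, fun c hc => ?_⟩
    · rw [List.map_cons, a1, List.range'_succ, List.map_cons]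
      rfl
    · rcases List.mem_cons.1 hc with rfl | hc
      · exact ⟨⟨by omega, out (by omega) (by omega) (by omega) h1⟩,
          if_congr (isq_iff (by omega)) rfl rfl⟩
      · exact a2 c hc

end Odds

theorem oddsOk : StOdds := by
  intro t ht
  obtain ⟨a1, a2⟩ := Odds.main t 0 0 (by omega) (by simp)
  exact ⟨a1.trans (by rw [List.range_eq_range']), fun e he => (a2 e he).1, fun e he => (a2 e he).2⟩

end Pool.Agent.Lib.MP_5db4ad_nt.S2
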