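import Pool.Agent.Lib.MP_5db4ad_nt.S2Main
import Pool.Agent.Lib.MP_5db4ad_nt.S2Afe
import Pool.Agent.Lib.MP_5db4ad_nt.S2Bern
import Pool.Agent.Lib.MP_5db4ad_nt.S2Odds
import Pool.Agent.Lib.MP_5db4ad_nt.S2Enum
import Pool.Agent.Lib.MP_5db4ad_nt.H96NAsm
import Pool.Agent.Lib.MP_5db4ad_nt.H96NBlk2
import Pool.Agent.Lib.MP_5db4ad_nt.H96NChn
import Pool.Agent.Lib.MP_5db4ad_nt.H96NCord
import Pool.Agent.Lib.MP_5db4ad_nt.H96NCore
import Pool.Agent.Lib.MP_5db4ad_nt.H96NCv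
import Pool.Agent.Lib.MP_5db4ad_nt.H96NDT
import Pool.Agent.Lib.MP_5db4ad_nt.H96NDual
import Pool.Agent.Lib.MP_5db4ad_nt.H96NDw
import Pool.Agent.Lib.MP_5db4ad_nt.H96NE
import Pool.Agent.Lib.MP_5db4ad_nt.H96NExp
import Pool.Agent.Lib.MP_5db4ad_nt.H96NGrd
import Pool.Agent.Lib.MP_5db4ad_nt.H96NH
import Pool.Agent.Lib.MP_5db4ad_nt.H96NHi
import Pool.Agent.Lib.MP_5db4ad_nt.H96NInt
import Pool.Agent.Lib.MP_5db4ad_nt.H96NLag
import Pool.Agent.Lib.MP_5db4ad_nt.H96NLo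
import Pool.Agent.Lib.MP_5db4ad_nt.H96NLo1
import Pool.Agent.Lib.MP_5db4ad_nt.H96NPh
import Pool.Agent.Lib.MP_5db4ad_nt.H96NQv
import Pool.Agent.Lib.MP_5db4ad_nt.H96NRmp
import Pool.Agent.Lib.MP_5db4ad_nt.H96NSV
import Pool.Agent.Lib.MP_5db4ad_nt.H96NSrcA
import Pool.Agent.Lib.MP_5db4ad_nt.H96NSrcL
import Pool.Agent.Lib.MP_5db4ad_nt.H96NSrcM
import Pool.Agent.Lib.MP_5db4ad_nt.H96NSyn
import Pool.Agent.Lib.MP_5db4ad_nt.H96NTab
import Pool.Agent.Lib.MP_5db4ad_nt.H96NGlue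

/-!
All interface statements on the programs are discharged.
-/

namespace Pool.Agent.Lib.MP_5db4ad_nt.NE

open S2

theorem rotAll : StRot := rotOk tabOk (cordOk tabOk)

theorem eAll : StE := eOk rotAll lagOk

theorem hAll : StH := hOk rotAll

theorem grdAll : StGrd := grdOk rotAll asmOk lagOk

theorem chnAll : StChn := chnOk cvOk

theorem dualAll : StDual :=
  dualOk (srcD svOk oddsOk) eAll hAll grdAll chnAll powOk rmpOk intOk dtOk
    (phOk tabOk oddsOk powOk) dwOk rotAll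

theorem blkAll : StBlk :=
  blkOk2 (srcM svOk chkOk oddsOk) (srcA svOk chkOk (listAOk oddsOk)) (srcL svOk chkOk oddsOk tabOk)
    (chn1Ok eAll hAll grdAll chnAll) (chn3Ok eAll hAll grdAll chnAll) powOk
    (coreOk tabOk (cordOk tabOk) rotAll (expOk tabOk) nrmOk) dtOk (afe kapp (mel kapp) rect)

theorem hiAll : StHi := hiOk dualAll blkAll (synOk cvOk hAll) (grid bern) (block bern)

theorem loAll : StLo :=
  loOk (lo0Ok blkAll (qvOk tabOk rotAll powOk) (lo1Ok kf)) dualAll dtOk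

end Pool.Agent.Lib.MP_5db4ad_nt.NE
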