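import Pool.Agent.Lib.MP_5db4ad_nt.H96NLaneB

/-!
The scalar estimates behind the quotient.
-/

namespace Pool.Agent.Lib.MP_5db4ad_nt.NE

open S2 Finset
open scoped Real

namespace Core

lemma est1 {w u : ℂ} {y x : ℝ} (hw : ‖w - 1‖ ≤ y) (hy : y ≤ 2.4e-3) (hu : ‖u‖ ≤ x)
    (hx : x ≤ 2.1e-4) : w ≠ 0 ∧ ‖Complex.exp u / w ^ 2 - 1‖ ≤ 1.0053 * x + 2.0125 * y := by
  have h0 := norm_nonneg (w - 1)
  have h1 := norm_nonneg u
  have h2 : 0.9976 ≤ ‖w‖ := by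
    have := norm_sub_norm_le (1 : ℂ) w
    rw [norm_one, norm_sub_rev] at this
    linarith
  have h3 : w ≠ 0 := fun e => by rw [e, norm_zero] at h2; norm_num at h2
  refine ⟨h3, ?_⟩
  have h4 : ‖Complex.exp u - 1‖ ≤ 1.00021 * x := by
    have h5 := Complex.norm_exp_sub_one_sub_id_le (x := u) (by linarith)
    have h6 := norm_add_le (Complex.exp u - 1 - u) u
    rw [sub_add_cancel] at h6
    nlinarith
  have h5 : ‖w ^ 2 - 1‖ ≤ 2.0024 * y := by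
    rw [show w ^ 2 - 1 = (w - 1) * (w - 1 + 2) by ring, norm_mul]
    have h6 := norm_add_le (w - 1) 2
    rw [Complex.norm_two] at h6
    nlinarith [norm_nonneg (w - 1 + 2)]
  rw [show Complex.exp u / w ^ 2 - 1 = (Complex.exp u - 1 - (w ^ 2 - 1)) / w ^ 2 by
    field_simp; ring, norm_div, norm_pow, div_le_iff₀ (by positivity)]
  have h6 := norm_sub_le (Complex.exp u - 1) (w ^ 2 - 1)
  have h7 : 0.995 ≤ ‖w‖ ^ 2 := by nlinarith
  have h8 : 0 ≤ 1.0053 * x + 2.0125 * y := by linarith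
  nlinarith

lemma scalar {α τ φ a P Q v u δz δl : ℝ} {z Λ : ℂ} (hz : 0 ≤ δz) (hz' : δz ≤ 6e-4) (hl : 0 ≤ δl)
    (hl' : δl ≤ 2e-5) (h1 : ‖Λ - (a + (2 * π * φ : ℝ) * Complex.I)‖ ≤ 10.35 * δl + 6.3e-7)
    (h2 : |Real.log Q - a - 2 * Real.log 2| ≤ 3.8e-7) (hQ : 1 ≤ Q) (hP : 1 ≤ P) (hP' : P ≤ 19.1)
    (h3 : ‖((Kc * P / 8 : ℝ) : ℂ) * ee (α - τ) * z - 1‖ ≤ 4.8e-7 + Kc * P / 8 * (δz + 1.16e-6))
    (h4 : 442048840 * Q * P ^ 2 * (1 - 3e-7) ≤ v) (h5 : v ≤ 442048840 * Q * P ^ 2)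
    (h6 : v * P * (1 - 3e-7) ≤ u) :
    ‖Kc * v * ee (3 * α + φ - 2 * τ) / 2 ^ 36 - ee α * (Complex.exp Λ / z ^ 2)‖ ≤
      (17.5 * δl + 4.5e-6) * (v / 2 ^ 36) + (0.69 * δz + 1e-6) * (u / 2 ^ 36) := by
  have hK : Kc = 1.6467602581210656 := rfl
  set y := 4.8e-7 + Kc * P / 8 * (δz + 1.16e-6) with hy
  set w := ((Kc * P / 8 : ℝ) : ℂ) * ee (α - τ) * z with hw
  set ε := Real.log Q - a - 2 * Real.log 2 with hε
  set U := Λ - (a + (2 * π * φ : ℝ) * Complex.I) - ε with hU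
  have e1 : ‖U‖ ≤ 10.35 * δl + 1.01e-6 := by
    have := norm_sub_le (Λ - (a + (2 * π * φ : ℝ) * Complex.I)) ε
    rw [Complex.norm_real, Real.norm_eq_abs] at this
    linarith
  have e2 : y ≤ 2.4e-3 := by rw [hy, hK]; nlinarith
  obtain ⟨w0, e3⟩ := est1 h3 e2 e1 (by linarith)
  have z0 : z ≠ 0 := fun e => w0 (by rw [hw, e, mul_zero])
  have e4 : Complex.exp Λ = Complex.exp U * (Q / 4 : ℝ) * ee φ := by
    have e5 : Real.exp (Real.log Q - 2 * Real.log 2) = Q / 4 := by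
      rw [Real.exp_sub, Real.exp_log (by linarith), show 2 * Real.log 2 = Real.log 4 by
        rw [show (4 : ℝ) = 2 ^ 2 by norm_num, Real.log_pow]; norm_num, Real.exp_log (by norm_num)]
    rw [← e5, Complex.ofReal_exp, ee, ← Complex.exp_add, ← Complex.exp_add, hU, hε]
    congr 1
    push_cast
    ring
  set S : ℝ := Kc ^ 2 * P ^ 2 * Q / 256 with hS
  have e5 : ee (3 * α + φ - 2 * τ) = ee α * ee φ * ee (α - τ) ^ 2 := by
    rw [pow_two, ← ee_add, ← ee_add, ← ee_add]; congr 1; ring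
  have e6 : ee (α - τ) ≠ 0 := fun e => by simpa [e] using norm_ee (α - τ)
  have K0 : (Kc : ℂ) ≠ 0 := by rw [hK]; norm_num
  have P0 : (P : ℂ) ≠ 0 := by exact_mod_cast (by linarith : P ≠ 0)
  have e7 : Kc * v * ee (3 * α + φ - 2 * τ) / 2 ^ 36 - ee α * (Complex.exp Λ / z ^ 2) =
      ee (3 * α + φ - 2 * τ) * (((Kc * (v / 2 ^ 36) - S : ℝ) : ℂ) -
        S * (Complex.exp U / w ^ 2 - 1)) := by
    rw [e4, e5, hw, hS]
    push_cast
    field_simp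
    ring
  have S0 : 0 ≤ S := by rw [hS]; positivity
  have hT : 0 ≤ Q * P ^ 2 := by positivity
  have e8 : S = Kc * (Kc / 256 * (Q * P ^ 2)) := by rw [hS]; ring
  set V := v / 2 ^ 36 with hV
  have e9 : S ≤ 1.6468 * V := by
    rw [e8, hK, hV]; nlinarith
  have e10 : |Kc * V - S| ≤ 5.1e-7 * V := by
    rw [e8, hK, hV, abs_le]
    constructor <;> nlinarith
  have V0 : 0 ≤ V := by linarith
  have e11 : V * P ≤ 1.000001 * (u / 2 ^ 36) := by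
    have : 0 ≤ v * P := mul_nonneg (by nlinarith) (by linarith)
    rw [hV]; nlinarith
  rw [e7, norm_mul, norm_ee, one_mul]
  refine (norm_sub_le _ _).trans ?_
  rw [norm_mul, Complex.norm_real, Complex.norm_real, Real.norm_eq_abs, Real.norm_of_nonneg S0]
  have y0 : 0 ≤ y := (norm_nonneg _).trans h3
  have e12 : S * ‖Complex.exp U / w ^ 2 - 1‖ ≤
      1.6468 * V * (1.0053 * (10.35 * δl + 1.01e-6) + 2.0125 * y) :=
    mul_le_mul e9 e3 (norm_nonneg _) (by linarith)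
  have e13 : V * y = 4.8e-7 * V + Kc / 8 * (V * P * (δz + 1.16e-6)) := by rw [hy]; ring
  have e14 : V * P * (δz + 1.16e-6) ≤ 1.000001 * (u / 2 ^ 36) * (δz + 1.16e-6) :=
    mul_le_mul_of_nonneg_right e11 (by linarith)
  have u0 : 0 ≤ u / 2 ^ 36 := by nlinarith [mul_nonneg V0 (by linarith : 0 ≤ P)]
  have e15 := mul_nonneg V0 hl
  have e16 := mul_nonneg u0 hz
  rw [hK] at e13
  generalize u / 2 ^ 36 = W at *
  nlinarith

/-- the normalised modulus -/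
lemma modul {α τ P ρ ρ' y δz : ℝ} {z Z : ℂ} (hP : 1 ≤ P)
    (h1 : ‖Z - 2 ^ 36 * ee α * z‖ ≤ 2 ^ 36 * δz) (h2 : ‖(⟨ρ, y⟩ : ℂ) * ee τ - Kc * Z‖ ≤ 92.1)
    (h3 : |y| ≤ 131072) (h4 : ρ * P - 480 ≤ ρ') (h5 : ρ' ≤ ρ * P) (h6 : |ρ' - 2 ^ 39| ≤ 262144) :
    ‖((Kc * P / 8 : ℝ) : ℂ) * ee (α - τ) * z - 1‖ ≤ 4.8e-7 + Kc * P / 8 * (δz + 1.16e-6) := by
  have hK : Kc = 1.6467602581210656 := rfl
  have e1 : ee α = ee (α - τ) * ee τ := by rw [← ee_add]; congr 1; ring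
  have e2 : (⟨ρ, y⟩ : ℂ) = ρ + y * Complex.I := (Complex.re_add_im ⟨ρ, y⟩).symm
  have e3 : (((Kc * P / 8 : ℝ) : ℂ) * ee (α - τ) * z - 1) * ee τ * ((2 ^ 39 : ℝ) : ℂ) =
      ((ρ * P - 2 ^ 39 : ℝ) : ℂ) * ee τ + (P : ℂ) * (y * Complex.I * ee τ -
        ((⟨ρ, y⟩ : ℂ) * ee τ - Kc * Z) - Kc * (Z - 2 ^ 36 * ee α * z)) := by
    rw [e1, e2]
    push_cast
    ring
  have e4 := congrArg norm e3
  rw [norm_mul, norm_mul, norm_ee, mul_one, Complex.norm_real,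
    Real.norm_of_nonneg (by positivity)] at e4
  have e5 : ‖((ρ * P - 2 ^ 39 : ℝ) : ℂ) * ee τ‖ ≤ 262624 := by
    rw [norm_mul, norm_ee, mul_one, Complex.norm_real, Real.norm_eq_abs, abs_le]
    rw [abs_le] at h6
    constructor <;> linarith [h6.1, h6.2]
  have e6 : ‖y * Complex.I * ee τ - ((⟨ρ, y⟩ : ℂ) * ee τ - Kc * Z) - Kc * (Z - 2 ^ 36 * ee α * z)‖ ≤
      131072 + 92.1 + Kc * (2 ^ 36 * δz) := by
    refine (norm_sub_le _ _).trans (add_le_add ((norm_sub_le _ _).trans (add_le_add ?_ h2)) ?_)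
    · rwa [norm_mul, norm_mul, norm_ee, Complex.norm_I, mul_one, mul_one, Complex.norm_real]
    · rw [norm_mul, Complex.norm_real, Real.norm_of_nonneg (by rw [hK]; norm_num)]
      exact mul_le_mul_of_nonneg_left h1 (by rw [hK]; norm_num)
  have e7 := norm_add_le (((ρ * P - 2 ^ 39 : ℝ) : ℂ) * ee τ) ((P : ℂ) * (y * Complex.I * ee τ -
        ((⟨ρ, y⟩ : ℂ) * ee τ - Kc * Z) - Kc * (Z - 2 ^ 36 * ee α * z)))
  rw [← e4, norm_mul (P : ℂ), Complex.norm_real P, Real.norm_of_nonneg (by linarith : 0 ≤ P)] at e7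
  have e8 := mul_le_mul_of_nonneg_left e6 (by linarith : 0 ≤ P)
  have e9 := e7.trans (add_le_add e5 e8)
  generalize ‖((Kc * P / 8 : ℝ) : ℂ) * ee (α - τ) * z - 1‖ = N at e9 ⊢
  rw [hK] at e9 ⊢
  nlinarith

end Core

end Pool.Agent.Lib.MP_5db4ad_nt.NE
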