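import Pool.Agent.Lib.MP_5db4ad_nt.H96NLaneB

/-!
The product of a grid with the table of the quadratic phases.
-/

namespace Pool.Agent.Lib.MP_5db4ad_nt.NE

open S2 Finset

namespace Cv

/-- the low lanes of a number given by nonnegative lanes and an integer on top -/
lemma lanes {W N A : ℕ} {L : ℕ → ℕ} {m : ℤ} (hL : ∀ j < N, L j < 2 ^ W)
    (h : (A : ℤ) = (pw W N L : ℕ) + m * 2 ^ (W * N)) :
    ∀ j < N, A / 2 ^ (W * j) % 2 ^ W = L j := by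
  have h1 : A % 2 ^ (W * N) = pw W N L := by
    have h2 : ((A % 2 ^ (W * N) : ℕ) : ℤ) = (pw W N L : ℕ) := by
      rw [Int.natCast_mod, h, Nat.cast_pow, Nat.cast_ofNat, Int.add_mul_emod_self_right]
      exact Int.emod_eq_of_lt (Int.natCast_nonneg _) (by exact_mod_cast pw_lt hL)
    exact_mod_cast h2
  rw [mod_eq_pw] at h1
  exact pw_inj (fun j _ => Nat.mod_lt _ (by positivity)) hL h1

lemma window {N A s n : ℕ} {L : ℕ → ℕ} {m : ℤ} (hL : ∀ j < N, L j < 2 ^ 192)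
    (h : (A : ℤ) = (pw 192 N L : ℕ) + m * 2 ^ (192 * N)) (hs : s + 4 * n ≤ N) :
    cut (Nat.shiftRight A (192 * s)) (768 * n) = pw 192 (4 * n) fun j => L (s + j) := by
  rw [cut_eq, show 768 * n = 192 * (4 * n) by ring, mod_eq_pw]
  refine pw_congr fun j hj => ?_
  rw [← lanes hL h (s + j) (by omega), mul_add, pow_add, ← Nat.div_div_eq_div_mul]
  exact congrArg (fun x => x / 2 ^ (192 * j) % 2 ^ 192) (Nat.shiftRight_eq_div_pow _ _)

lemma slot0 {a r s w : ℕ} (h : a < 2 ^ (s + w)) :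
    (a + r * 2 ^ (s + w)) / 2 ^ s % 2 ^ w = a / 2 ^ s := by
  rw [pow_add, mul_comm (2 ^ s), ← mul_assoc, Nat.add_mul_div_right _ _ (by positivity),
    Nat.add_mul_mod_self_right, Nat.mod_eq_of_lt]
  rwa [Nat.div_lt_iff_lt_mul (by positivity), mul_comm, ← pow_add]

lemma slot_shift {a b c : ℕ} (h : a < 2 ^ 64) :
    (a + b * 2 ^ 64 + c * 2 ^ 128) / 2 ^ 64 = b + c * 2 ^ 64 := by
  rw [show a + b * 2 ^ 64 + c * 2 ^ 128 = a + (b + c * 2 ^ 64) * 2 ^ 64 by ring,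
    Nat.add_mul_div_right _ _ (by positivity), Nat.div_eq_of_lt h, zero_add]

lemma slotA {a b c s w : ℕ} (h : a < 2 ^ 64) (e : s + w = 64) :
    (a + b * 2 ^ 64 + c * 2 ^ 128) / 2 ^ s % 2 ^ w = a / 2 ^ s := by
  rw [show a + b * 2 ^ 64 + c * 2 ^ 128 = a + (b + c * 2 ^ 64) * 2 ^ 64 by ring]
  nth_rewrite 2 [← e]
  exact slot0 (e ▸ h)

lemma slotB {a b c s w : ℕ} (h : a < 2 ^ 64) (h' : b < 2 ^ 64) (e : s + w = 64) :
    (a + b * 2 ^ 64 + c * 2 ^ 128) / 2 ^ (64 + s) % 2 ^ w = b / 2 ^ s := by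
  rw [pow_add, ← Nat.div_div_eq_div_mul, slot_shift h, ← e]
  exact slot0 (e ▸ h')

lemma slotC {a b c : ℕ} (h : a < 2 ^ 64) (h' : b < 2 ^ 64) (h'' : c < 2 ^ 64) :
    (a + b * 2 ^ 64 + c * 2 ^ 128) / 2 ^ 128 % 2 ^ 64 = c := by
  rw [Nat.add_mul_div_right _ _ (by positivity), Nat.div_eq_of_lt (by omega), zero_add,
    Nat.mod_eq_of_lt h'']

lemma ext_eq (n P : ℕ) : ext n P =
    T2.mk (ovl n (fld (ow 192 (4 * n)) (P + Nat.shiftLeft (ow 192 (4 * n)) 63 -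
        fld (ow 192 (4 * n)) P 128 64) 20 44) + ow 48 (4 * n) * 61572651155456)
      (ovl n (fld (ow 192 (4 * n)) (P + Nat.shiftLeft (ow 192 (4 * n)) 63 -
        fld (ow 192 (4 * n)) P 128 64) 84 44) + ow 48 (4 * n) * 61572651155456) := by
  unfold ext
  simp only [fz_eq, oW_eq, oN_eq]
  rfl

lemma ext_pw {n : ℕ} {a b c d : ℕ → ℕ} (h : ∀ j < 4 * n, a j < 2 ^ 64 ∧ b j < 2 ^ 64 ∧
    c j < 2 ^ 64 ∧ d j < 2 ^ 64 ∧ d j + c j = a j + 2 ^ 63) :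
    ext n (pw 192 (4 * n) fun j => a j + b j * 2 ^ 64 + c j * 2 ^ 128) =
      T2.mk (pw 48 (4 * n) fun p => d (sig n p) / 2 ^ 20 + 61572651155456)
        (pw 48 (4 * n) fun p => b (sig n p) / 2 ^ 20 + 61572651155456) := by
  have e1 : fld (ow 192 (4 * n)) (pw 192 (4 * n) fun j => a j + b j * 2 ^ 64 + c j * 2 ^ 128)
      128 64 = pw 192 (4 * n) c := by
    rw [fld_pw (by norm_num) (fun j hj => by have := h j hj; omega) (by norm_num)]
    exact pw_congr fun j hj => slotC (h j hj).1 (h j hj).2.1 (h j hj).2.2.1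
  have e2 : (pw 192 (4 * n) fun j => a j + b j * 2 ^ 64 + c j * 2 ^ 128) +
      Nat.shiftLeft (ow 192 (4 * n)) 63 - pw 192 (4 * n) c =
      pw 192 (4 * n) fun j => d j + b j * 2 ^ 64 + c j * 2 ^ 128 := by
    rw [ow_shl (by norm_num), pw_add, pw_sub fun j hj => by have := h j hj; omega]
    exact pw_congr fun j hj => by have := h j hj; omega
  have e3 : ∀ j < 4 * n, d j + b j * 2 ^ 64 + c j * 2 ^ 128 < 2 ^ 192 := fun j hj => by
    have := h j hj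
    omega
  rw [ext_eq, e1, e2, fld_pw (by norm_num) e3 (by norm_num), fld_pw (by norm_num) e3 (by norm_num),
    ovl_pw fun j _ => (Nat.mod_lt _ (by norm_num)).trans (by norm_num),
    ovl_pw fun j _ => (Nat.mod_lt _ (by norm_num)).trans (by norm_num), ow_mul (by norm_num),
    pw_add, pw_add]
  refine congrArg₂ _ (pw_congr fun p hp => ?_) (pw_congr fun p hp => ?_)
  · rw [slotA (h _ (sig_lt hp)).2.2.2.1 rfl]
  · rw [show 84 = 64 + 20 from rfl, slotB (h _ (sig_lt hp)).2.2.2.1 (h _ (sig_lt hp)).2.1 rfl]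

lemma ci_mul (a b c d : ℤ) : ci a b * ci c d = ci (a * c - b * d) (a * d + b * c) := by
  apply Complex.ext <;> simp [ci]

lemma ci_sum (s : Finset ℕ) (a b : ℕ → ℤ) :
    ci (∑ i ∈ s, a i) (∑ i ∈ s, b i) = ∑ i ∈ s, ci (a i) (b i) := by
  apply Complex.ext <;> simp [ci, Complex.re_sum, Complex.im_sum]

lemma abs_le_ci (a b : ℤ) : |(a : ℝ)| ≤ ‖ci a b‖ ∧ |(b : ℝ)| ≤ ‖ci a b‖ :=
  ⟨Complex.abs_re_le_norm (ci a b), Complex.abs_im_le_norm (ci a b)⟩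

lemma norm_le_of {z : ℂ} {r c : ℝ} (h1 : |z.re| ≤ r) (h2 : |z.im| ≤ r) (hc : 0 ≤ c)
    (h : 2 * r ^ 2 ≤ c ^ 2) : ‖z‖ ≤ c := by
  have h3 := sq_le_sq' (abs_le.1 h1).1 (abs_le.1 h1).2
  have h4 := sq_le_sq' (abs_le.1 h2).1 (abs_le.1 h2).2
  refine le_of_sq_le_sq ?_ hc
  rw [Complex.sq_norm, Complex.normSq_apply]
  nlinarith

/-- a floor with offset -/
lemma floor_err {x : ℤ} {d : ℕ} (h : (d : ℤ) = x + 2 ^ 63) :
    |sv (d / 2 ^ 20 + 61572651155456) - x / 2 ^ 20| ≤ 1 := by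
  obtain ⟨q, hq⟩ : ∃ q, q = d / 2 ^ 20 := ⟨_, rfl⟩
  have h1 : (q : ℤ) * 2 ^ 20 ≤ x + 2 ^ 63 := by omega
  have h2 : x + 2 ^ 63 ≤ (q : ℤ) * 2 ^ 20 + 2 ^ 20 := by omega
  have h3 := (Int.cast_le (R := ℝ)).2 h1
  have h4 := (Int.cast_le (R := ℝ)).2 h2
  rw [sv, Nat.cast_add, ← hq, abs_le]
  constructor <;> norm_num at h3 h4 ⊢ <;> linarith

lemma sum_bd {T : ℕ} {f : ℕ → ℤ} {g : ℕ → ℝ} {ν : ℝ} (hf : ∀ i < T, |(f i : ℝ)| ≤ g i * 4194305)
    (hg : ∑ i ∈ range T, g i ≤ ν) (hν : ν ≤ 1.9 * 2 ^ 40) : |∑ i ∈ range T, f i| < 2 ^ 63 := by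
  have h1 : |((∑ i ∈ range T, f i : ℤ) : ℝ)| ≤ ν * 4194305 := by
    rw [Int.cast_sum]
    refine (Finset.abs_sum_le_sum_abs _ _).trans ((Finset.sum_le_sum fun i hi =>
      hf i (mem_range.1 hi)).trans ?_)
    rw [← Finset.sum_mul]
    linarith
  have h2 : |((∑ i ∈ range T, f i : ℤ) : ℝ)| < 2 ^ 63 := h1.trans_lt (by norm_num at hν ⊢; linarith)
  exact_mod_cast h2

lemma cv_eq (lm S H s n : ℕ) : cv lm S H s n = ext n (cut (Nat.shiftRight
    (S * H + Nat.shiftLeft (ow 64 (3 * hN lm)) 63) (192 * s)) (768 * n)) := by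
  unfold cv
  simp only [fz_eq]
  rfl

lemma shr_land {W n s : ℕ} {f g : ℕ → ℕ} (hf : ∀ j < n, f j < 2 ^ W) (hs : s ≤ W)
    (hg : ∀ j < n, g j < 2 ^ (W - s)) :
    Nat.land (Nat.shiftRight (pw W n f) s) (pw W n g) = pw W n fun j => f j / 2 ^ s &&& g j := by
  have hg' : ∀ j < n, g j < 2 ^ W := fun j hj =>
    (hg j hj).trans_le (Nat.pow_le_pow_right (by norm_num) (by omega))
  have e0 : Nat.land (Nat.shiftRight (pw W n f) s) (pw W n g) = pw W n f / 2 ^ s &&& pw W n g :=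
    congrArg (· &&& pw W n g) (Nat.shiftRight_eq_div_pow _ _)
  rw [e0, ← Nat.mod_eq_of_lt (Nat.and_lt_two_pow (pw W n f / 2 ^ s) (pw_lt hg')), mod_eq_pw]
  refine pw_congr fun j hj => ?_
  rw [Nat.and_div_two_pow, Nat.and_mod_two_pow, pw_lane hg' hj, ← pw_lane hf hj]
  refine Nat.eq_of_testBit_eq fun i => ?_
  simp only [Nat.testBit_and, Nat.testBit_mod_two_pow, Nat.testBit_div_two_pow]
  rcases lt_or_ge i (W - s) with hi | hi
  · rw [decide_eq_true (show i < W by omega), decide_eq_true (show i + s < W by omega),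
      add_right_comm]
  · rw [Nat.testBit_lt_two_pow ((hg j hj).trans_le (Nat.pow_le_pow_right (by norm_num) hi)),
      Bool.and_false, Bool.and_false]

lemma and_mask {a b c : ℕ} (h : a < 2 ^ 64) (h' : b < 2 ^ 64) :
    (a + b * 2 ^ 64 + c * 2 ^ 128) / 2 ^ 24 &&& 20282409603633223680973053362175 =
      a / 2 ^ 24 + b / 2 ^ 24 * 2 ^ 64 := by
  rw [← Nat.mod_add_div' (_ &&& _) (2 ^ 64), Nat.and_div_two_pow, Nat.and_mod_two_pow,
    show 20282409603633223680973053362175 % 2 ^ 64 = 2 ^ 40 - 1 by norm_num,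
    show 20282409603633223680973053362175 / 2 ^ 64 = 2 ^ 40 - 1 by norm_num,
    Nat.and_two_pow_sub_one_eq_mod, Nat.and_two_pow_sub_one_eq_mod,
    Nat.mod_mod_of_dvd _ (pow_dvd_pow 2 (by norm_num)), slotA h rfl, Nat.div_div_eq_div_mul,
    ← pow_add, add_comm 24 64, slotB h h' rfl]

lemma rnd_eq (lm G G0 : ℕ) : rnd lm G G0 = Nat.land (Nat.shiftRight
    (G + ow 192 (gN lm) * 3138550867693340382088035895064302439792088397984756137984 - G0 +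
      ow 192 (gN lm) * 154742514134044571225554944 - fld (ow 192 (gN lm))
      (G + ow 192 (gN lm) * 3138550867693340382088035895064302439792088397984756137984 - G0)
        128 64) 24) (ow 192 (gN lm) * 20282409603633223680973053362175) +
    (2 ^ (192 * gN lm) - ow 192 (gN lm) * 10141204801825835212523381456896) := by
  unfold rnd
  simp only [fz_eq, p2_eq]
  rfl

lemma round_err {x : ℤ} {d : ℕ} (h : (d : ℤ) = x + 2 ^ 63 + 2 ^ 23) :
    |((((d / 2 ^ 24 : ℕ) : ℤ) - 2 ^ 39 : ℤ) : ℝ) - x / 2 ^ 24| ≤ 1 / 2 := by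
  obtain ⟨q, hq⟩ : ∃ q, q = d / 2 ^ 24 := ⟨_, rfl⟩
  have h1 : (q : ℤ) * 2 ^ 24 ≤ x + 2 ^ 63 + 2 ^ 23 := by omega
  have h2 : x + 2 ^ 63 + 2 ^ 23 ≤ (q : ℤ) * 2 ^ 24 + 2 ^ 24 := by omega
  have h3 := (Int.cast_le (R := ℝ)).2 h1
  have h4 := (Int.cast_le (R := ℝ)).2 h2
  rw [← hq, abs_le]
  constructor <;> norm_num at h3 h4 ⊢ <;> linarith

/-- the rounded grid -/
lemma rnd_ok {lm G G0 : ℕ} {u v w : ℕ → ℤ}
    (hG : (G : ℤ) - G0 = iw 192 (gN lm) fun i => u i + v i * 2 ^ 64 + w i * 2 ^ 128)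
    (h : ∀ i < gN lm, |u i| ≤ 30 * 2 ^ 58 ∧ |v i| ≤ 30 * 2 ^ 58 ∧ |w i| ≤ 30 * 2 ^ 58 ∧
      |u i - w i| ≤ 30 * 2 ^ 58) :
    ∃ sr si : ℕ → ℤ, (rnd lm G G0 : ℤ) = iw 192 (gN lm + 1) (fun i => sr i + si i * 2 ^ 64) ∧
      ci (sr (gN lm)) (si (gN lm)) = 1 ∧
      ∀ i < gN lm, ‖ci (sr i) (si i) - ci (u i - w i) (v i) / 2 ^ 24‖ ≤ 0.7072 := by
  rw [rnd_eq]
  generalize gN lm = g at hG h ⊢
  have key : ∀ i, ∃ a b c d : ℕ, i < g → (a : ℤ) = u i + 2 ^ 63 ∧ (b : ℤ) = v i + 2 ^ 63 ∧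
      (c : ℤ) = w i + 2 ^ 63 ∧ (d : ℤ) = u i - w i + 2 ^ 63 + 2 ^ 23 ∧ a < 2 ^ 64 ∧
      b + 2 ^ 23 < 2 ^ 64 ∧ c < 2 ^ 64 ∧ d < 2 ^ 64 := fun i =>
    ⟨(u i + 2 ^ 63).toNat, (v i + 2 ^ 63).toNat, (w i + 2 ^ 63).toNat,
      (u i - w i + 2 ^ 63 + 2 ^ 23).toNat, fun hi => by
        obtain ⟨h1, h2, h3, h4⟩ := h i hi
        rw [abs_le] at h1 h2 h3 h4
        omega⟩
  choose a b c d k using key
  have e1 : G + ow 192 g * 3138550867693340382088035895064302439792088397984756137984 - G0 =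
      pw 192 g fun i => a i + b i * 2 ^ 64 + c i * 2 ^ 128 := by
    refine Nat.sub_eq_of_eq_add (Int.natCast_inj.1 ?_)
    rw [ow_mul (by norm_num), Nat.cast_add, Nat.cast_add, pw_cast, pw_cast, ← sub_eq_iff_eq_add,
      add_sub_right_comm, hG, iw_add]
    refine iw_congr fun i hi => ?_
    obtain ⟨h1, h2, h3, -⟩ := k i hi
    push_cast
    rw [h1, h2, h3]
    ring
  have e2 : fld (ow 192 g) (pw 192 g fun i => a i + b i * 2 ^ 64 + c i * 2 ^ 128) 128 64 =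
      pw 192 g c := by
    rw [fld_pw (by norm_num) (fun j hj => by have := k j hj; omega) (by norm_num)]
    exact pw_congr fun j hj => by have := k j hj; exact slotC (by omega) (by omega) (by omega)
  have e3 : (pw 192 g fun i => a i + b i * 2 ^ 64 + c i * 2 ^ 128) +
      ow 192 g * 154742514134044571225554944 - pw 192 g c =
      pw 192 g fun i => d i + (b i + 2 ^ 23) * 2 ^ 64 + c i * 2 ^ 128 := by
    rw [ow_mul (by norm_num), pw_add, pw_sub fun j hj => by have := k j hj; omega]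
    exact pw_congr fun j hj => by have := k j hj; omega
  have e4 : (pw 192 g fun _ => 10141204801825835212523381456896) ≤ 2 ^ (192 * g) :=
    (pw_lt fun _ _ => by norm_num).le
  rw [e1, e2, e3, ow_mul (by norm_num), ow_mul (by norm_num),
    shr_land (fun j hj => by have := k j hj; omega) (by norm_num) fun _ _ => by norm_num]
  refine ⟨fun i => if i < g then ((d i / 2 ^ 24 : ℕ) : ℤ) - 2 ^ 39 else 1,
    fun i => if i < g then (((b i + 2 ^ 23) / 2 ^ 24 : ℕ) : ℤ) - 2 ^ 39 else 0, ?_, ?_,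
    fun i hi => ?_⟩
  · beta_reduce
    rw [iw_succ, if_neg (lt_irrefl g), if_neg (lt_irrefl g), Nat.cast_add, Nat.cast_sub e4,
      pw_cast, pw_cast, ← add_sub_assoc, add_sub_right_comm, iw_sub]
    refine congrArg₂ _ (iw_congr fun i hi => ?_) (by simp)
    have := k i hi
    rw [and_mask (by omega) (by omega), if_pos hi, if_pos hi]
    generalize d i / 2 ^ 24 = x
    generalize (b i + 2 ^ 23) / 2 ^ 24 = y
    push_cast
    ring
  · simp only [lt_irrefl, if_false]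
    apply Complex.ext <;> simp [ci]
  · obtain ⟨-, h2, -, h4, -⟩ := k i hi
    have e : ci (u i - w i) (v i) / 2 ^ 24 =
        (⟨((u i - w i : ℤ) : ℝ) / 2 ^ 24, (v i : ℝ) / 2 ^ 24⟩ : ℂ) := by
      rw [div_eq_iff (by norm_num)]
      apply Complex.ext <;> simp [ci] <;> norm_num
    simp only [if_pos hi]
    rw [e]
    exact norm_le_of (round_err h4) (round_err (d := b i + 2 ^ 23) (by push_cast; rw [h2]; ring))
      (by norm_num) (by norm_num)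

lemma chn_eq (lm a G G0 H : ℕ) : chn lm a G G0 H =
    cv lm (rnd lm G G0) H (hO lm + 6 - 2 ^ (a - 1)) (2 ^ (a - 2)) := by
  unfold chn
  simp only [p2_eq]
  rfl

lemma sizes (lm : ℕ) : gN lm = 2 ^ lm + 14 ∧ hN lm = 2 ^ lm + 2 ^ (lm - 2) + 16 ∧
    hO lm = 2 ^ lm + 2 ^ (lm - 3) + 8 := by
  simp only [← p2_eq]
  exact ⟨rfl, rfl, rfl⟩

end Cv

open Cv in
theorem cvOk : StCv := by
  intro lm S H s n T sr si ν ⟨hr, hi, hH, hh⟩ hT hs hS hν hν'
  obtain ⟨N, hN'⟩ : ∃ N, N = hN lm := ⟨_, rfl⟩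
  rw [← hN'] at hH hh hs
  have hb : ∀ i < N, ‖ci (hr i) (hi i)‖ ≤ 4194305 := fun i h => by
    have h1 := norm_le_norm_sub_add (ci (hr i) (hi i) / 2 ^ 22)
      (ee (((i : ℝ) - hO lm) ^ 2 / (2 * 2 ^ lm)))
    have h2 := hh i h
    rw [norm_ee, norm_div] at h1
    have h3 : ‖(2 : ℂ) ^ 22‖ = 2 ^ 22 := by simp
    rw [h3, div_le_iff₀ (by norm_num)] at h1
    norm_num at h1 h2 ⊢
    linarith
  obtain ⟨x, hx⟩ : ∃ x : ℕ → ℕ → ℤ, x = fun j i => if i ≤ j ∧ j - i < N then hr (j - i) else 0 :=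
    ⟨_, rfl⟩
  obtain ⟨y, hy⟩ : ∃ y : ℕ → ℕ → ℤ, y = fun j i => if i ≤ j ∧ j - i < N then hi (j - i) else 0 :=
    ⟨_, rfl⟩
  have hxy : ∀ j i, ‖ci (x j i) (y j i)‖ ≤ 4194305 := fun j i => by
    simp only [hx, hy]
    split_ifs with h
    · exact hb _ h.2
    · have : ci 0 0 = 0 := by apply Complex.ext <;> simp [ci]
      rw [this, norm_zero]
      norm_num
  obtain ⟨u, hu⟩ : ∃ u : ℕ → ℤ, u = fun j => ∑ i ∈ range T, sr i * x j i := ⟨_, rfl⟩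
  obtain ⟨v, hv⟩ : ∃ v : ℕ → ℤ, v = fun j => ∑ i ∈ range T, (sr i * y j i + si i * x j i) :=
    ⟨_, rfl⟩
  obtain ⟨w, hw⟩ : ∃ w : ℕ → ℤ, w = fun j => ∑ i ∈ range T, si i * y j i := ⟨_, rfl⟩
  have huw : ∀ j, u j - w j = ∑ i ∈ range T, (sr i * x j i - si i * y j i) := fun j => by
    simp only [hu, hw, Finset.sum_sub_distrib]
  have hm : ∀ j i, ‖ci (sr i * x j i - si i * y j i) (sr i * y j i + si i * x j i)‖ ≤
      ‖ci (sr i) (si i)‖ * 4194305 := fun j i => by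
    rw [← ci_mul, norm_mul]
    exact mul_le_mul_of_nonneg_left (hxy j i) (norm_nonneg _)
  have bu : ∀ j, |u j| < 2 ^ 63 := fun j => by
    rw [hu]
    refine sum_bd (fun i _ => ?_) hν hν'
    rw [Int.cast_mul, abs_mul]
    exact mul_le_mul (abs_le_ci _ _).1 ((abs_le_ci _ _).1.trans (hxy j i)) (abs_nonneg _)
      (norm_nonneg _)
  have bw : ∀ j, |w j| < 2 ^ 63 := fun j => by
    rw [hw]
    refine sum_bd (fun i _ => ?_) hν hν'
    rw [Int.cast_mul, abs_mul]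
    exact mul_le_mul (abs_le_ci _ _).2 ((abs_le_ci _ _).2.trans (hxy j i)) (abs_nonneg _)
      (norm_nonneg _)
  have bv : ∀ j, |v j| < 2 ^ 63 := fun j => by
    rw [hv]
    exact sum_bd (fun i _ => (abs_le_ci _ _).2.trans (hm j i)) hν hν'
  have bd : ∀ j, |u j - w j| < 2 ^ 63 := fun j => by
    rw [huw]
    exact sum_bd (fun i _ => (abs_le_ci _ _).1.trans (hm j i)) hν hν'
  obtain ⟨a, ha⟩ : ∃ a : ℕ → ℕ, ∀ j, (a j : ℤ) = u j + 2 ^ 63 :=
    ⟨fun j => (u j + 2 ^ 63).toNat, fun j => Int.toNat_of_nonneg (by have := abs_lt.1 (bu j); omega)⟩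
  obtain ⟨b, hb'⟩ : ∃ b : ℕ → ℕ, ∀ j, (b j : ℤ) = v j + 2 ^ 63 :=
    ⟨fun j => (v j + 2 ^ 63).toNat, fun j => Int.toNat_of_nonneg (by have := abs_lt.1 (bv j); omega)⟩
  obtain ⟨c, hc⟩ : ∃ c : ℕ → ℕ, ∀ j, (c j : ℤ) = w j + 2 ^ 63 :=
    ⟨fun j => (w j + 2 ^ 63).toNat, fun j => Int.toNat_of_nonneg (by have := abs_lt.1 (bw j); omega)⟩
  obtain ⟨d, hd⟩ : ∃ d : ℕ → ℕ, ∀ j, (d j : ℤ) = u j - w j + 2 ^ 63 :=
    ⟨fun j => (u j - w j + 2 ^ 63).toNat, fun j => Int.toNat_of_nonneg (by have := abs_lt.1 (bd j); omega)⟩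
  have hall : ∀ j, a j < 2 ^ 64 ∧ b j < 2 ^ 64 ∧ c j < 2 ^ 64 ∧ d j < 2 ^ 64 ∧
      d j + c j = a j + 2 ^ 63 := fun j => by
    have h1 := abs_lt.1 (bu j)
    have h2 := abs_lt.1 (bv j)
    have h3 := abs_lt.1 (bw j)
    have h4 := abs_lt.1 (bd j)
    have := ha j
    have := hb' j
    have := hc j
    have := hd j
    omega
  have hA : ∃ m : ℤ, ((S * H + Nat.shiftLeft (ow 64 (3 * N)) 63 : ℕ) : ℤ) =
      (pw 192 N (fun j => a j + b j * 2 ^ 64 + c j * 2 ^ 128) : ℕ) + m * 2 ^ (192 * N) := by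
    have e1 := mul_iw 192 T N (fun i => sr i + si i * 2 ^ 64) fun i => hr i + hi i * 2 ^ 64
    rw [add_comm T N, iw_split, ← hS] at e1
    generalize iw 192 T _ = m at e1
    refine ⟨m + S, ?_⟩
    rw [ow64_eq, Nat.cast_add, Nat.cast_mul, hH, mul_add, pw_cast, pw_cast, e1, add_right_comm,
      add_right_comm (iw 192 N _), iw_add, add_assoc, ← add_mul]
    refine congrArg (· + _) (iw_congr fun j _ => ?_)
    have e2 : (∑ i ∈ range T, if i ≤ j ∧ j - i < N then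
        (sr i + si i * 2 ^ 64) * (hr (j - i) + hi (j - i) * 2 ^ 64) else 0) =
        u j + v j * 2 ^ 64 + w j * 2 ^ 128 := by
      simp only [hu, hv, hw, Finset.sum_mul, ← Finset.sum_add_distrib]
      refine Finset.sum_congr rfl fun i _ => ?_
      simp only [hx, hy]
      split_ifs <;> ring
    rw [e2]
    push_cast
    rw [ha, hb', hc]
    ring
  obtain ⟨m, hA⟩ := hA
  rw [cv_eq, ← hN', window (fun j _ => by have := hall j; omega) hA hs,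
    ext_pw (d := fun j => d (s + j)) fun j _ => hall (s + j)]
  refine ⟨_, _, rfl, _, _, rfl, rfl, fun p hp => ?_⟩
  obtain ⟨j, hj⟩ : ∃ j, j = s + sig n p := ⟨_, rfl⟩
  have hjN : j < N := by have := sig_lt hp; omega
  have hsj : s ≤ j := by omega
  simp only [← hj]
  have e1 : ‖cz (d j / 2 ^ 20 + 61572651155456) (b j / 2 ^ 20 + 61572651155456) -
      ci (u j - w j) (v j) / 2 ^ 20‖ ≤ 1.5 := by
    have e : ci (u j - w j) (v j) / 2 ^ 20 =
        (⟨((u j - w j : ℤ) : ℝ) / 2 ^ 20, (v j : ℝ) / 2 ^ 20⟩ : ℂ) := by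
      rw [div_eq_iff (by norm_num)]
      apply Complex.ext <;> simp [ci] <;> norm_num
    rw [e]
    exact norm_le_of (floor_err (hd j)) (floor_err (hb' j)) (by norm_num) (by norm_num)
  have e2 : ci (u j - w j) (v j) / 2 ^ 20 =
      4 * ∑ i ∈ range T, ci (sr i) (si i) * (ci (hr (j - i)) (hi (j - i)) / 2 ^ 22) := by
    rw [huw, hv, ci_sum, Finset.sum_div, Finset.mul_sum]
    refine Finset.sum_congr rfl fun i hi' => ?_
    have := mem_range.1 hi'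
    rw [← ci_mul]
    simp only [hx, hy]
    rw [if_pos (by omega), if_pos (by omega)]
    ring
  have e3 : ‖ci (u j - w j) (v j) / 2 ^ 20 - 4 * ∑ i ∈ range T, ci (sr i) (si i) *
      ee (((s + sig n p : ℝ) - i - hO lm) ^ 2 / (2 * 2 ^ lm))‖ ≤ ν * 8.2e-7 := by
    rw [e2, ← mul_sub, ← Finset.sum_sub_distrib, norm_mul]
    have h1 : ‖∑ i ∈ range T, (ci (sr i) (si i) * (ci (hr (j - i)) (hi (j - i)) / 2 ^ 22) -
        ci (sr i) (si i) * ee (((s + sig n p : ℝ) - i - hO lm) ^ 2 / (2 * 2 ^ lm)))‖ ≤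
        ∑ i ∈ range T, ‖ci (sr i) (si i)‖ * 2.05e-7 := by
      refine norm_sum_le_of_le _ fun i hi' => ?_
      have := mem_range.1 hi'
      rw [← mul_sub, norm_mul]
      refine mul_le_mul_of_nonneg_left ?_ (norm_nonneg _)
      have h2 := hh (j - i) (by omega)
      rwa [Nat.cast_sub (by omega), hj, Nat.cast_add, ← hj] at h2
    rw [← Finset.sum_mul] at h1
    have h3 : ‖(4 : ℂ)‖ = 4 := by simp
    rw [h3]
    norm_num at h1 ⊢
    linarith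
  have := norm_sub_le_norm_sub_add_norm_sub (cz (d j / 2 ^ 20 + 61572651155456)
    (b j / 2 ^ 20 + 61572651155456)) (ci (u j - w j) (v j) / 2 ^ 20)
    (4 * ∑ i ∈ range T, ci (sr i) (si i) *
      ee (((s + sig n p : ℝ) - i - hO lm) ^ 2 / (2 * 2 ^ lm)))
  linarith

open Cv in
theorem chnOk (hcv : StCv) : StChn := by
  intro lm a G G0 H F μ e h5 h18 h2 ha hH ⟨u, v, w, hG, hb, hsum, hF⟩ hμ
  obtain ⟨eg, eN, eO⟩ := sizes lm
  have hint : ∀ x : ℤ, |(x : ℝ)| ≤ μ * 2 ^ 58 → |x| ≤ 30 * 2 ^ 58 := fun x hx => by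
    have : |(x : ℝ)| ≤ 30 * 2 ^ 58 := hx.trans (by gcongr)
    exact_mod_cast this
  obtain ⟨sr, si, hS, htop, herr⟩ := rnd_ok hG fun i hi => ⟨hint _ (hb i hi).1,
    hint _ (hb i hi).2.1, hint _ (hb i hi).2.2, hint _ ((abs_le_ci _ _).1.trans
      ((Finset.single_le_sum (f := fun i => ‖ci (u i - w i) (v i)‖) (fun _ _ => norm_nonneg _)
        (mem_range.2 hi)).trans hsum))⟩
  have p1 : 2 ^ (a - 1) ≤ 2 ^ (lm - 3) := Nat.pow_le_pow_right (by norm_num) (by omega)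
  have p2' : 2 ^ (lm - 2) = 2 * 2 ^ (lm - 3) := by
    rw [← pow_succ', show lm - 3 + 1 = lm - 2 by omega]
  have p3 : 4 * 2 ^ (a - 2) = 2 * 2 ^ (a - 1) := by
    rw [four_mul_p2 h2, ← pow_succ', show a - 1 + 1 = a by omega]
  have p4 : (2 : ℝ) ^ lm ≤ 2 ^ 18 := pow_le_pow_right₀ (by norm_num) h18
  have eg' : (gN lm : ℝ) = 2 ^ lm + 14 := by rw [eg]; push_cast; ring
  have hν : ∑ i ∈ range (gN lm + 1), ‖ci (sr i) (si i)‖ ≤
      μ * 2 ^ 34 + 0.7072 * (2 ^ lm + 14) + 1 := by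
    rw [Finset.sum_range_succ, htop, norm_one]
    have h1 : ∑ i ∈ range (gN lm), ‖ci (sr i) (si i)‖ ≤
        ∑ i ∈ range (gN lm), (0.7072 + ‖ci (u i - w i) (v i)‖ / 2 ^ 24) := by
      refine Finset.sum_le_sum fun i hi => ?_
      have h3 := norm_le_norm_sub_add (ci (sr i) (si i)) (ci (u i - w i) (v i) / 2 ^ 24)
      have h4 : ‖(2 : ℂ) ^ 24‖ = 2 ^ 24 := by simp
      rw [norm_div, h4] at h3
      linarith [herr i (mem_range.1 hi)]
    rw [Finset.sum_add_distrib, ← Finset.sum_div, Finset.sum_const, card_range, nsmul_eq_mul,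
      eg'] at h1
    norm_num at h1 hsum ⊢
    linarith
  obtain ⟨X, Y, hXY, hV⟩ := hcv lm (rnd lm G G0) H (hO lm + 6 - 2 ^ (a - 1)) (2 ^ (a - 2))
    (gN lm + 1) sr si _ hH (by omega) (by omega) hS hν (by norm_num at p4 ⊢; linarith)
  rw [four_mul_p2 h2] at hV
  refine ⟨X, Y, (chn_eq _ _ _ _ _).trans hXY, hV.mono fun p hp => ?_⟩
  have hσ : sig (2 ^ (a - 2)) p < 4 * 2 ^ (a - 2) := sig_lt (by rwa [four_mul_p2 h2])
  generalize sig (2 ^ (a - 2)) p = σ at hσ ⊢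
  obtain ⟨j, hj⟩ : ∃ j : ℤ, j = (σ : ℤ) - 2 ^ (a - 1) := ⟨_, rfl⟩
  have hjr : (j : ℝ) = σ - 2 ^ (a - 1) := by rw [hj]; push_cast; ring
  have hja : |j| ≤ (2 ^ (a - 1) : ℕ) := by
    have : ((2 ^ (a - 1) : ℕ) : ℤ) = 2 ^ (a - 1) := by push_cast; ring
    rw [abs_le]
    omega
  have h1 := hF j hja
  have e1 : ∀ i : ℕ, (((hO lm + 6 - 2 ^ (a - 1) : ℕ) : ℝ) + σ - i - hO lm) = j - i + 6 :=
    fun i => by rw [Nat.cast_sub (by omega), hjr]; push_cast; ring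
  have e2 : al lm a σ = (j : ℝ) ^ 2 / (2 * 2 ^ lm) := by rw [al, hjr]
  simp only [e1]
  rw [← hj, e2, Finset.sum_range_succ, htop, one_mul]
  obtain ⟨E, hE⟩ : ∃ E : ℕ → ℂ, E = fun i : ℕ => ee (((j : ℝ) - i + 6) ^ 2 / (2 * 2 ^ lm)) :=
    ⟨_, rfl⟩
  have hE1 : ∀ i, ‖E i‖ = 1 := fun i => by rw [hE]; exact norm_ee _
  have hE2 : ∀ i : ℕ, ee (((j : ℝ) - i + 6) ^ 2 / (2 * 2 ^ lm)) = E i := fun i => by rw [hE]
  simp only [hE2] at h1 ⊢
  have h3 : ‖∑ i ∈ range (gN lm), (ci (sr i) (si i) - ci (u i - w i) (v i) / 2 ^ 24) * E i‖ ≤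
      0.7072 * (2 ^ lm + 14) := by
    refine (norm_sum_le_of_le (n := fun _ => 0.7072) _ fun i hi => ?_).trans ?_
    · rw [norm_mul, hE1, mul_one]
      exact herr i (mem_range.1 hi)
    · rw [Finset.sum_const, card_range, nsmul_eq_mul, eg', mul_comm]
  have e3 : 4 * (∑ i ∈ range (gN lm), ci (sr i) (si i) * E i + E (gN lm)) -
      2 ^ 36 * ee ((j : ℝ) ^ 2 / (2 * 2 ^ lm)) * F j =
      4 * ∑ i ∈ range (gN lm), (ci (sr i) (si i) - ci (u i - w i) (v i) / 2 ^ 24) * E i +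
      4 * E (gN lm) + 2 ^ 36 * (∑ i ∈ range (gN lm), ci (u i - w i) (v i) / 2 ^ 58 * E i -
        ee ((j : ℝ) ^ 2 / (2 * 2 ^ lm)) * F j) := by
    have e4 : 4 * ∑ i ∈ range (gN lm), ci (sr i) (si i) * E i =
        4 * ∑ i ∈ range (gN lm), (ci (sr i) (si i) - ci (u i - w i) (v i) / 2 ^ 24) * E i +
        2 ^ 36 * ∑ i ∈ range (gN lm), ci (u i - w i) (v i) / 2 ^ 58 * E i := by
      simp only [Finset.mul_sum, ← Finset.sum_add_distrib]
      exact Finset.sum_congr rfl fun i _ => by ring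
    rw [mul_add, e4]
    ring
  rw [e3]
  have h4 := norm_add₃_le (a := 4 * ∑ i ∈ range (gN lm),
    (ci (sr i) (si i) - ci (u i - w i) (v i) / 2 ^ 24) * E i) (b := 4 * E (gN lm))
    (c := 2 ^ 36 * (∑ i ∈ range (gN lm), ci (u i - w i) (v i) / 2 ^ 58 * E i -
        ee ((j : ℝ) ^ 2 / (2 * 2 ^ lm)) * F j))
  have n4 : ‖(4 : ℂ)‖ = 4 := by simp
  have n36 : ‖(2 : ℂ) ^ 36‖ = 2 ^ 36 := by simp
  rw [norm_mul, norm_mul, norm_mul, n4, n36, hE1] at h4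
  have p5 : (0 : ℝ) ≤ 2 ^ lm := by positivity
  generalize (2 : ℝ) ^ lm = M at *
  norm_num at h1 h3 h4 ⊢
  linarith

end Pool.Agent.Lib.MP_5db4ad_nt.NE
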