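import Pool.Agent.Lib.MP_5db4ad_nt.S2LowDefs

/-!
Programs that evaluate the coefficients on blocks of frequencies, written for evaluation by the
kernel.  Vectors are natural numbers with lanes of 192 bits (wide) or 48 bits (narrow).  A narrow
lane `a` stands for the integer `a - 2 ^ 46`.
-/

namespace Pool.Agent.Lib.MP_5db4ad_nt.NE

open S2

/-- evaluate `a` before passing it on -/
noncomputable def fz {β : Type} (a : ℕ) (k : ℕ → β) : β :=
  Bool.rec (k a) (k a) (Nat.ble a (nat_lit 0))

inductive T2 : Type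
  | mk : ℕ → ℕ → T2

inductive T3 : Type
  | mk : ℕ → ℕ → ℕ → T3

/-- a flag and four numbers -/
inductive T5 : Type
  | mk : Bool → ℕ → ℕ → ℕ → ℕ → T5

/-! ### lanes -/

/-- `2 ^ e` -/
def p2 (e : ℕ) : ℕ := Nat.shiftLeft (nat_lit 1) e

/-- `n` lanes of width `W` equal to one -/
def ow (W n : ℕ) : ℕ :=
  Nat.div (Nat.sub (p2 (Nat.mul W n)) (nat_lit 1)) (Nat.sub (p2 W) (nat_lit 1))

/-- lanes `2 ^ w - 1` where `o` has a one -/
def msk (o w : ℕ) : ℕ := Nat.sub (Nat.shiftLeft o w) o

/-- bits `s, …, s + w - 1` of every lane -/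
def fld (o v s w : ℕ) : ℕ := Nat.land (Nat.shiftRight v s) (msk o w)

/-- bit `s` of every lane -/
def bit (o v s : ℕ) : ℕ := Nat.land (Nat.shiftRight v s) o

/-- `v % 2 ^ s` -/
def cut (v s : ℕ) : ℕ := Nat.land v (Nat.sub (p2 s) (nat_lit 1))

/-- all narrow lanes are at most `c` -/
def lek (o v c : ℕ) : Bool :=
  Nat.beq (bit o (Nat.sub (Nat.mul o (Nat.add (nat_lit 140737488355328) c)) v) (nat_lit 47)) o

/-- all narrow lanes are within `c` of `2 ^ 46` -/
def rng (o v c : ℕ) : Bool :=
  and (lek o v (Nat.add (nat_lit 70368744177664) c))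
    (lek o (Nat.sub (Nat.shiftLeft o (nat_lit 47)) v) (Nat.add (nat_lit 70368744177664) c))

/-- sum of the lanes -/
def smW (W v : ℕ) : ℕ := Nat.mod v (Nat.sub (p2 W) (nat_lit 1))

/-- from `4 n` wide lanes to narrow lanes: lane `r + q n` goes to `4 r + q` -/
def ovl (n v : ℕ) : ℕ :=
  let s := Nat.mul (nat_lit 192) n
  Nat.add (Nat.add (cut v s) (Nat.shiftLeft (cut (Nat.shiftRight v s) s) (nat_lit 48)))
    (Nat.add (Nat.shiftLeft (cut (Nat.shiftRight v (Nat.mul s (nat_lit 2))) s) (nat_lit 96))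
      (Nat.shiftLeft (Nat.shiftRight v (Nat.mul s (nat_lit 3))) (nat_lit 144)))

/-- the inverse of `ovl` -/
def spr (n v : ℕ) : ℕ :=
  let s := Nat.mul (nat_lit 192) n
  let o := ow (nat_lit 192) n
  Nat.add (Nat.add (fld o v (nat_lit 0) (nat_lit 48))
      (Nat.shiftLeft (fld o v (nat_lit 48) (nat_lit 48)) s))
    (Nat.add (Nat.shiftLeft (fld o v (nat_lit 96) (nat_lit 48)) (Nat.mul s (nat_lit 2)))
      (Nat.shiftLeft (fld o v (nat_lit 144) (nat_lit 48)) (Nat.mul s (nat_lit 3))))

/-- wide ones, `4 n` lanes -/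
def oW (n : ℕ) : ℕ := ow (nat_lit 192) (Nat.mul (nat_lit 4) n)

/-- narrow ones, `4 n` lanes -/
def oN (n : ℕ) : ℕ := ow (nat_lit 48) (Nat.mul (nat_lit 4) n)

/-- the vector with lanes `f i, …, f (i + 2 ^ d - 1)` -/
noncomputable def mapT (W : ℕ) (f : ℕ → ℕ) (d : ℕ) : ℕ → ℕ :=
  Nat.rec (fun i => f i) (fun d ih i =>
    fz (Nat.add i (Nat.shiftLeft (nat_lit 1) d)) fun j =>
    Nat.add (ih i) (Nat.shiftLeft (ih j) (Nat.shiftLeft W d))) d

/-- apply `f` to each of `2 ^ d` wide lanes; the result has lanes of width `W` -/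
noncomputable def mapV (W : ℕ) (f : ℕ → ℕ) (d : ℕ) : ℕ → ℕ :=
  Nat.rec (fun v => f v) (fun d ih v =>
    fz (Nat.shiftLeft (nat_lit 192) d) fun s => fz (Nat.shiftRight v s) fun h =>
    Nat.add (ih (Nat.sub v (Nat.shiftLeft h s))) (Nat.shiftLeft (ih h) (Nat.shiftLeft W d))) d

/-! ### rotations -/

/-- `2 ^ 44 arctan (2 ^ (-b)) / (2 π)`, rounded up -/
def ta (b : ℕ) : ℕ :=
  Nat.land (Nat.shiftRight (nat_lit 11166347507814040896091568137445597792995657778223098818458586145864243177242588320010858546485606910697929311687029658827483951224031263986459190314904703035057251960967963347644179056739222886522286072313050848741674011207647878989149888191593621629059442345769976702568477825967999522638928779248197656509550275678107111872815593101766006180597656516287461244192622296362918067600071874603073516209177858351422879104983062714231021273440537760759808) (Nat.mul (nat_lit 48) b)) (nat_lit 281474976710655)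

/-- `2 ^ 36 log (1 + 2 ^ (-b)) / (2 π)` -/
def lb (b : ℕ) : ℕ :=
  Nat.land (Nat.shiftRight (nat_lit 283395405100865877238691024123788413070596096197008831160622143859800403255874341420886229762455746912044785144145502029395868015701419022617449672474562529976583269380432537012477966684108834312027400080040422306786350324041898376685570998672426627565481882649142976638956281967746299049895087329749771282440784258717131305359054248184) (Nat.mul (nat_lit 48) b)) (nat_lit 281474976710655)

/-- lanes equal to one where the next step turns clockwise -/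
noncomputable def dig (md : Bool) (o y t : ℕ) : ℕ :=
  Bool.rec (Nat.xor o (bit o t (nat_lit 46))) (bit o y (nat_lit 46)) md

/-- `n` steps `z ↦ z (1 ± i 2 ^ (-b))`, from `b` on -/
noncomputable def crd (md : Bool) (o n : ℕ) : ℕ → ℕ → ℕ → ℕ → T3 :=
  Nat.rec (fun _ x y t => T3.mk x y t) (fun _ ih b x y t =>
    fz (dig md o y t) fun s => fz (Nat.sub (nat_lit 47) b) fun w =>
    fz (msk s w) fun m => fz (Nat.shiftLeft o (Nat.sub (nat_lit 46) b)) fun β =>
    fz (Nat.sub (Nat.add x β) (Nat.xor (fld o y b w) m)) fun x' =>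
    fz (Nat.sub (Nat.add y (Nat.xor (fld o x b w) m)) β) fun y' =>
    fz (Nat.sub (Nat.add t (Nat.mul s (Nat.mul (nat_lit 2) (ta b)))) (Nat.mul o (ta b))) fun t' =>
    fz (Nat.succ b) fun b' => ih b' x' y' t') n

/-- a quarter turn and `n` steps -/
noncomputable def cord (md : Bool) (o n x y t : ℕ) : T3 :=
  fz (dig md o y t) fun s => fz (msk s (nat_lit 47)) fun m =>
  fz (Nat.sub (Nat.shiftLeft o (nat_lit 47)) (Nat.xor y m)) fun x' => fz (Nat.xor x m) fun y' =>
  fz (Nat.sub (Nat.add t (Nat.shiftLeft s (nat_lit 43))) (Nat.shiftLeft o (nat_lit 42))) fun t' =>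
  crd md o n (nat_lit 0) x' y' t'

/-- rotation by the angles `t / 2 ^ 44` turns, with gain `Kc` -/
noncomputable def rot (o n x y t : ℕ) : T2 :=
  T3.rec (fun x' y' _ => T2.mk x' y') (cord false o n x y t)

/-- narrow angle lanes from bits `s, …, s + 43` of `4 n` wide lanes -/
def angW (n v s : ℕ) : ℕ :=
  Nat.add (ovl n (fld (oW n) (Nat.add v (Nat.shiftLeft (oW n) (Nat.add s (nat_lit 43)))) s
    (nat_lit 44))) (Nat.mul (oN n) (nat_lit 61572651155456))

/-- divide by `2 ^ s` with rounding; the result has `w` bits and offset `2 ^ (w - 1)` -/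
def rdN (o x s w : ℕ) : ℕ :=
  fld o (Nat.sub (Nat.add x (Nat.mul o (Nat.add (p2 (Nat.sub s (nat_lit 1)))
    (p2 (Nat.sub (Nat.add s w) (nat_lit 1)))))) (Nat.shiftLeft o (nat_lit 46))) s w

/-- wide lanes `a + 2 ^ 64 b` from narrow vectors -/
def cmb (n a b : ℕ) : ℕ := Nat.add (spr n a) (Nat.shiftLeft (spr n b) (nat_lit 64))

/-! ### lists of sources -/

/-- sorting key and lane of a source -/
noncomputable def ent (A g m : ℕ) (t : L) : L :=
  fz (Nat.land (Nat.shiftRight g (nat_lit 44)) (nat_lit 1048575)) fun c =>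
  fz (Nat.add (Nat.add A (Nat.shiftLeft (Nat.lor g (nat_lit 1)) (nat_lit 48)))
    (Nat.shiftLeft m (nat_lit 128))) fun v => L.cons c v t

noncomputable def app (l acc : L) : L := L.rec acc (fun c v _ ih => L.cons c v ih) l

/-- sort by the low `d` bits of the keys, in front of `acc` -/
noncomputable def srt (d : ℕ) : L → L → L :=
  Nat.rec (fun l acc => app l acc) (fun d ih l acc =>
    L.rec acc (fun c v t _ =>
      L.rec (L.cons c v acc) (fun _ _ _ _ => part d l fun a b => ih a (ih b acc)) t) l) d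

/-- the lane of a source of weight zero -/
def padV : ℕ := (nat_lit 5192296858534827628319390096687104)

/-- the first `2 ^ d` lanes of a list and the rest -/
noncomputable def takeT {β : Type} (d : ℕ) : L → (ℕ → L → β) → β :=
  Nat.rec (fun l k => L.rec (k padV L.nil) (fun _ v t _ => k v t) l) (fun d ih l k =>
    ih l fun a t => ih t fun b t' =>
    fz (Nat.add a (Nat.shiftLeft b (Nat.shiftLeft (nat_lit 192) d))) fun r => k r t') d

/-- the vector of the sorted sources -/
noncomputable def mkSV (d : ℕ) (l : L) : ℕ := takeT d (srt (nat_lit 20) l L.nil) fun v _ => v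

noncomputable def len (l : L) : ℕ → ℕ := L.rec (fun n => n) (fun _ _ _ ih n =>
  fz (Nat.succ n) fun n' => ih n') l

/-- the keys of `n + 1` lanes increase -/
def sortedV (n v : ℕ) : Bool :=
  let o := ow (nat_lit 192) n
  let k := fld (ow (nat_lit 192) (Nat.succ n)) v (nat_lit 92) (nat_lit 20)
  Nat.beq (bit o (Nat.sub (Nat.add (Nat.shiftRight k (nat_lit 192)) (Nat.shiftLeft o (nat_lit 20)))
    (cut k (Nat.mul (nat_lit 192) n))) (nat_lit 20)) o

/-- `2 ^ 40 Kc ^ (-2) (3 / 4) V16 (n / 9000) / n` -/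
def tM (n : ℕ) : ℕ :=
  Nat.div (nat_lit 37814675099008670433756778672518048000000000000000000000000000000000000000000000000)
    (Nat.mul (Nat.shiftLeft n (nat_lit 26)) (Nat.add (nat_lit 1853020188851841000000000000000000000000000000000000000000000000) (Nat.pow n (nat_lit 16))))

/-- add the terms `n, 2 n, 4 n, …` below `2 ^ 14` with alternating signs -/
noncomputable def ampM (f : ℕ) : ℕ → Bool → ℕ → ℕ :=
  Nat.rec (fun _ _ a => a) (fun _ ih n s a =>
    Bool.rec (fz (Bool.rec (Nat.add a (tM n)) (Nat.sub a (tM n)) s) fun a' =>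
      fz (Nat.add n n) fun n' => ih n' (not s) a') a (Nat.ble (nat_lit 16384) n)) f

/-- odd numbers up to `2 t + 1` with logarithms -/
noncomputable def odds1 (t : ℕ) : L3 := L3.cons 1 0 0 (odds t 1 0)

noncomputable def lstM (l : L3) : L :=
  L3.rec L.nil (fun m _ g _ ih =>
    ent (ampM (nat_lit 14) (Nat.add m m) false (Nat.add (nat_lit 70368744177664) (tM m))) g (nat_lit 0) ih) l

noncomputable def lstA (l : L3) : L :=
  L3.rec L.nil (fun m w g _ ih =>
    fz (Nat.div (Nat.shiftLeft (nat_lit 6802349901799902176) w) (Nat.shiftLeft m (nat_lit 24))) fun t =>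
    ent (Bool.rec (Nat.sub (nat_lit 70368744177664) t) (Nat.add (nat_lit 70368744177664) t)
      (Nat.beq (Nat.land w (nat_lit 1)) (nat_lit 0))) g (nat_lit 0) ih) l

noncomputable def lstD (l : L3) : L :=
  L3.rec L.nil (fun m _ g _ ih => ent (nat_lit 70368744177664) g m ih) l

/-- the terms `(2 + e (-2) ^ n) / (n p ^ n)` as long as they matter -/
noncomputable def lamP (e p g : ℕ) (acc : L) (f : ℕ) : ℕ → L :=
  Nat.rec (fun _ => acc) (fun _ ih n =>
    fz (Nat.mul n (Nat.pow p n)) fun D => fz (Nat.shiftLeft e n) fun c =>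
    Bool.rec acc
      (fz (Nat.add (nat_lit 70368744177664) (Nat.div (nat_lit 1314857589224783496) (Nat.shiftLeft D (nat_lit 24)))) fun a =>
        fz (Nat.div (Nat.mul c (nat_lit 657428794612391748)) (Nat.shiftLeft D (nat_lit 24))) fun b =>
        ent (Bool.rec (Nat.sub a b) (Nat.add a b) (Nat.beq (Nat.land n (nat_lit 1)) (nat_lit 0)))
          (Nat.mul n g) (nat_lit 0) (ih (Nat.succ n)))
      (Nat.ble D (Nat.shiftLeft (Nat.add (nat_lit 2) c) (nat_lit 26)))) f

noncomputable def lstL0 (l : L3) : L :=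
  L3.rec L.nil (fun p _ g _ ih => lamP (nat_lit 1) p g ih (nat_lit 22) (nat_lit 2)) l

/-- `2 ^ 64 log2 3` -/
def g3 : ℕ := nat_lit 29237397617229858719

noncomputable def lstL : L :=
  lamP (nat_lit 0) (nat_lit 3) g3 (lstL0 (flt (odds 499 1 0))) (nat_lit 22) (nat_lit 1)

noncomputable def svM : ℕ := mkSV 13 (lstM (odds1 8191))
noncomputable def svA : ℕ := cut (mkSV 14 (lstA listA)) (nat_lit 2162688)
noncomputable def svL : ℕ := mkSV 9 lstL
noncomputable def svD (d : ℕ) : ℕ := mkSV d (lstD (odds1 (Nat.sub (p2 d) 1)))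

/-- the keys increase, the weights are at most `2 ^ 39` and their sum is at most `m` -/
def srcChk (n v m : ℕ) : Bool :=
  let o := ow (nat_lit 192) n
  let t := fld o v (nat_lit 0) (nat_lit 48)
  and (and (sortedV (Nat.sub n (nat_lit 1)) v) (Nat.beq (bit o t (nat_lit 47)) (nat_lit 0)))
    (and (rng o t (nat_lit 549755813888)) (Nat.ble (smW (nat_lit 192) (Nat.add o
      (fld o (Nat.xor t (msk (Nat.xor o (bit o t (nat_lit 46))) (nat_lit 46))) (nat_lit 0)
        (nat_lit 46)))) m))

/-- lanes `s, …, s + 2 ^ d - 1` -/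
def slc (v s d : ℕ) : ℕ :=
  cut (Nat.shiftRight v (Nat.mul (nat_lit 192) s)) (Nat.shiftLeft (nat_lit 192) d)

/-! ### tables -/

/-- `o ! (13 - o) !` -/
def cf (o : ℕ) : ℕ :=
  Nat.land (Nat.shiftRight (nat_lit 178335050389545087699852478115940026979442253219990312350076398617407030444083433147601544048090181521318887501093545466396923556641427712301833670828945623826034950754296769765783933077559226673903517218602036129240802254266579196268286074666279174359774448640) (Nat.mul (nat_lit 64) o)) (nat_lit 18446744073709551615)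

/-- `|a - b|` -/
def dst (a b : ℕ) : ℕ := Nat.add (Nat.sub a b) (Nat.sub b a)

/-- `∏ |a - o u|` over `o < n` -/
noncomputable def prd (a u n : ℕ) : ℕ :=
  Nat.rec (nat_lit 1) (fun o ih => Nat.mul ih (dst a (Nat.mul o u))) n

/-- the lanes `2 ^ 46 ± P / (|a - o u| cf o)` for `o < n` -/
noncomputable def wts (a u P n : ℕ) : ℕ :=
  Nat.rec (nat_lit 0) (fun o ih =>
    fz (Nat.div P (Nat.mul (dst a (Nat.mul o u)) (cf o))) fun w =>
    Nat.add ih (Nat.shiftLeft (Nat.sub (Nat.add (nat_lit 70368744177664) w) (Nat.mul (Nat.add w w)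
      (Nat.land (Nat.shiftRight (nat_lit 5418) o) (nat_lit 1)))) (Nat.mul (nat_lit 192) o))) n

/-- fifteen lanes `1`, `2 o`, `(o - 6) ^ 2` -/
def O15 : ℕ := (nat_lit 147444421139692424806332508947970678792346040212568770945480232570127287356064850758684522615750976111135117259207103441040321356597292317056541863390032870235764514298944212480433139278206343696653200410657124184182198737353296622845059756715115857944664383257785630976660118116686948575269064737484859428247486435060045498446007328739937401833274503839250479185024391107602006750504851301839486826205613936951772099758041432417301015760985872167683983615189648149659279301461211905731058649579369078591018499315143613003275456101444347550693392938701088979081041940067251390964349809993618451010055271213990153213588803937831282243091753622956485415840224328959542002763373092043594452158251088723404025421573729364546558197442513000582329418920478403415014492279776535340840975757168791938839240270480932865)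
def R15 : ℕ := (nat_lit 4128443791911387894577310250543179006185689125951925586473399533460632195819355400940795084927918864042813375923166815900941615456003163192017111430912001107344399482848269799621453145842389215847106751255977756176265123037847223923106464268674333803039164739610985775802565966004324636389801494537516673047489671133405004598872025809860475343160555411242945153719048884111070327823393543624591786958770591830596926539481424185782159617221808769784017767627855389050341691694477459563395932854112873157665830100023962243421192694817363365942966204272161468735476664692317694816522117959284528663893175895213205430351572822975593788653816831538332295614057846127891243941978940547036058718632002361813871539007191827793846383133252931393464381107265686077212408134494159084451321522743799829713301850101970370560)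
def S15 : ℕ := (nat_lit 9436442952940315187605280572670123442710146573604401340510382545716157514659697296288022835059748968095373199579514024349282499641085910385872770753540127702519024088867907173111408930108253436300078810443543376024637008580247336840802341981301541853138440981914528208794969226023996677391445566473706037057389320828460971151317473720378927873100871535668028024958343956828743834015614008311175621291016227911148823790415598007713759740267506647941090243356311431090882617222905127321371909279006993266887366109977027799408157077055450875346943538266531877531477525864353351397979735985225343868899494298587742620423607037784646387868036078011746028887543386170715076311504317107464556512658012193496482471956118774048613441810693869757128686586993586216891088198733406379359546858898014492744849946224606838820)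

/-- position on the grid of `2 ^ lm` points of the source with lane `v` -/
def pos1 (lm v : ℕ) : ℕ :=
  Nat.land (Nat.shiftRight v (Nat.sub (nat_lit 112) lm)) (Nat.sub (p2 lm) (nat_lit 1))

/-- fifteen wide lanes: weight of interpolation and, from bit 64 on, angle -/
noncomputable def rec1 (lm v : ℕ) : ℕ :=
  fz (Nat.sub (nat_lit 64) lm) fun s => fz (p2 s) fun u => fz (pos1 lm v) fun p =>
  fz (Nat.add (Nat.land (Nat.shiftRight v (nat_lit 48)) (Nat.sub u (nat_lit 1)))
    (Nat.mul (nat_lit 6) u)) fun a =>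
  fz (Nat.shiftRight (prd a u (nat_lit 14)) (Nat.sub (Nat.mul (nat_lit 13) s) (nat_lit 40))) fun P =>
  Nat.add (Nat.add (wts a u P (nat_lit 14)) (nat_lit 10375478751602770117298376861829716885177090340095324313381301654918218669997961199503289499536267670264925812493877631114483788721041499899334844368197842899414182926143684461016914378939198626063344955792964263326334010099120027908310384621559673076343760032419713144350649880044828478206144220005530421376649165274064569270782965875213965598212154650455985060615034809559114842690617984210731131115498390479377836857278323451722195964216179096901922075458093623053688576778244939815026503604959291225549574847666691842766979686908212688581740641543554221900299317527635722348454801383624773520475635089360706342784194813401732911231930050969544689374262613921992771901645028908196909671515354189630230227527991628050268016733313224057781971932707730042805652063686557818414508605616067284353497951877461628052406936797184))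
    (Nat.shiftLeft (Nat.sub (Nat.mul O15 (Nat.add (p2 (Nat.add (Nat.add lm lm) (nat_lit 2)))
        (Nat.mul (nat_lit 12) p)))
      (Nat.add (Nat.add (Nat.mul O15 (Nat.mul p p)) (Nat.mul R15 p)) S15))
      (Nat.sub (nat_lit 107) lm))

/-- the table of a chunk of `2 ^ d` sources: records of fifteen wide lanes, scale `2 ^ 25` -/
noncomputable def mkE (lm d sv : ℕ) : ℕ :=
  fz (mapV (nat_lit 2880) (rec1 lm) d sv) fun R =>
  fz (Nat.mul (nat_lit 15) (p2 (Nat.sub d (nat_lit 2)))) fun n =>
  T2.rec (fun x y =>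
    Nat.sub (Nat.add (cmb n (rdN (oN n) x (nat_lit 15) (nat_lit 30)) (rdN (oN n) y (nat_lit 15) (nat_lit 30)))
      (Nat.shiftLeft (ow (nat_lit 2880) (p2 d)) (nat_lit 2688))) (Nat.mul (oW n) (nat_lit 9903520314283042199729864704)))
    (rot (oN n) (nat_lit 28) (ovl n (fld (oW n) R (nat_lit 0) (nat_lit 48)))
      (Nat.shiftLeft (oN n) (nat_lit 46)) (angW n (fld (oW n) R (nat_lit 64) (nat_lit 128)) (nat_lit 0)))

/-- number of lanes of the table of the quadratic phases -/
def hN (lm : ℕ) : ℕ := Nat.add (Nat.add (p2 lm) (p2 (Nat.sub lm (nat_lit 2)))) (nat_lit 16)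

/-- its offset -/
def hO (lm : ℕ) : ℕ := Nat.add (Nat.add (p2 lm) (p2 (Nat.sub lm (nat_lit 3)))) (nat_lit 8)

/-- the vectors with lanes `i` and `i ^ 2`, `i < 2 ^ d` -/
noncomputable def dbl (d : ℕ) : T2 :=
  Nat.rec (T2.mk (nat_lit 0) (nat_lit 0)) (fun d ih => T2.rec (fun a b =>
    fz (p2 d) fun N => fz (ow (nat_lit 192) N) fun o => fz (Nat.mul (nat_lit 192) N) fun s =>
    fz (Nat.add a (Nat.shiftLeft (Nat.add a (Nat.mul o N)) s)) fun a' =>
    fz (Nat.add b (Nat.shiftLeft (Nat.add (Nat.add b (Nat.mul a (Nat.add N N)))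
      (Nat.mul o (Nat.mul N N))) s)) fun b' => T2.mk a' b') ih) d

/-- lanes `2 ^ (43 - lm) (i - hO) ^ 2` -/
noncomputable def hA (lm : ℕ) : ℕ :=
  T2.rec (fun a b => Nat.shiftLeft (cut (Nat.sub (Nat.add b
      (Nat.mul (ow (nat_lit 192) (p2 (Nat.succ lm))) (Nat.mul (hO lm) (hO lm))))
      (Nat.mul a (Nat.add (hO lm) (hO lm)))) (Nat.mul (nat_lit 192) (hN lm)))
    (Nat.sub (nat_lit 43) lm)) (dbl (Nat.succ lm))

/-- lanes `2 ^ 22 e ((i - hO) ^ 2 / (2 M))`, and a one on top -/
noncomputable def mkH (lm : ℕ) : ℕ :=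
  fz (hA lm) fun A =>
  fz (Nat.shiftRight (hN lm) (nat_lit 2)) fun n =>
  T2.rec (fun x y =>
    Nat.sub (Nat.add (cmb n (rdN (oN n) x (nat_lit 18) (nat_lit 26)) (rdN (oN n) y (nat_lit 18) (nat_lit 26)))
      (p2 (Nat.mul (nat_lit 192) (hN lm)))) (Nat.mul (oW n) (nat_lit 618970019642690137483116544)))
    (rot (oN n) (nat_lit 26) (Nat.mul (oN n) (nat_lit 71036425840707))
      (Nat.shiftLeft (oN n) (nat_lit 46)) (angW n A (nat_lit 0)))

/-- lanes `(2 j + 1) ^ e`, `j < 2 ^ d` -/
noncomputable def mkU (e d : ℕ) : ℕ :=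
  mapT (nat_lit 192) (fun j => Nat.pow (Nat.succ (Nat.add j j)) e) d (nat_lit 0)

/-! ### from sources to the grid -/

/-- sum of the records of `E` times the numbers in `C`, moved to their places; `p` is the place
of the first -/
noncomputable def asm (d : ℕ) : ℕ → ℕ → ℕ → ℕ :=
  Nat.rec (fun C E _ => Nat.mul (Nat.land C (nat_lit 316912650038610606317646118911)) E) (fun d ih C E p =>
    fz (Nat.shiftLeft (nat_lit 192) d) fun s => fz (Nat.shiftLeft (nat_lit 2880) d) fun t =>
    fz (Nat.shiftRight C s) fun Ch => fz (Nat.shiftRight E t) fun Eh =>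
    fz (Nat.land (Nat.shiftRight Ch (nat_lit 36)) (nat_lit 268435455)) fun q =>
    Nat.add (ih (Nat.sub C (Nat.shiftLeft Ch s)) (Nat.sub E (Nat.shiftLeft Eh t)) p)
      (Nat.shiftLeft (ih Ch Eh q) (Nat.sub q p))) d

noncomputable def asm0 (d C E : ℕ) : ℕ :=
  fz (Nat.land (Nat.shiftRight C (nat_lit 36)) (nat_lit 268435455)) fun p => Nat.shiftLeft (asm d C E p) p

/-- lanes `192 * 2 ^ 36 * position` -/
def posV (lm n sv : ℕ) : ℕ :=
  Nat.mul (fld (oW n) sv (Nat.sub (nat_lit 112) lm) lm) (nat_lit 13194139533312)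

/-- the grid of sources of weight zero -/
noncomputable def mkG (lm d sv E : ℕ) : ℕ :=
  fz (p2 (Nat.sub d (nat_lit 2))) fun n =>
  fz (Nat.add (posV lm n sv) (Nat.mul (oW n) (nat_lit 158456325028528675195677835264))) fun C => asm0 d C E

/-- the grid of a chunk with narrow weights `an` at the frequency `c / 2` -/
noncomputable def grd (lm d sv E an c : ℕ) : ℕ :=
  fz (p2 (Nat.sub d (nat_lit 2))) fun n =>
  T2.rec (fun x y =>
    fz (Nat.add (posV lm n sv)
      (cmb n (rdN (oN n) x (nat_lit 7) (nat_lit 34)) (rdN (oN n) y (nat_lit 7) (nat_lit 34)))) fun C =>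
    asm0 d C E)
    (rot (oN n) (nat_lit 24) an (Nat.shiftLeft (oN n) (nat_lit 46))
      (angW n (Nat.sub (Nat.shiftLeft (oW n) (nat_lit 100))
        (Nat.mul (fld (oW n) sv (nat_lit 48) (nat_lit 72)) c)) (nat_lit 21)))

/-- the narrow weights held by the field at bit `s` -/
def wtN (d v s : ℕ) : ℕ :=
  ovl (p2 (Nat.sub d (nat_lit 2))) (fld (oW (p2 (Nat.sub d (nat_lit 2)))) v s (nat_lit 48))

def gN (lm : ℕ) : ℕ := Nat.add (p2 lm) (nat_lit 14)

/-- round the grid to the scale `2 ^ 34` and put a one on top -/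
noncomputable def rnd (lm G G0 : ℕ) : ℕ :=
  let o := ow (nat_lit 192) (gN lm)
  fz (Nat.sub (Nat.add G (Nat.mul o (nat_lit 3138550867693340382088035895064302439792088397984756137984))) G0) fun V =>
  Nat.add (Nat.land (Nat.shiftRight (Nat.sub (Nat.add V (Nat.mul o (nat_lit 154742514134044571225554944)))
      (fld o V (nat_lit 128) (nat_lit 64))) (nat_lit 24)) (Nat.mul o (nat_lit 20282409603633223680973053362175)))
    (Nat.sub (p2 (Nat.mul (nat_lit 192) (gN lm))) (Nat.mul o (nat_lit 10141204801825835212523381456896)))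

/-- narrow real and imaginary parts, divided by `2 ^ 20`, of `4 n` wide lanes with three slots -/
noncomputable def ext (n P : ℕ) : T2 :=
  fz (Nat.sub (Nat.add P (Nat.shiftLeft (oW n) (nat_lit 63)))
    (fld (oW n) P (nat_lit 128) (nat_lit 64))) fun V =>
  fz (Nat.add (ovl n (fld (oW n) V (nat_lit 20) (nat_lit 44))) (Nat.mul (oN n) (nat_lit 61572651155456))) fun x =>
  fz (Nat.add (ovl n (fld (oW n) V (nat_lit 84) (nat_lit 44))) (Nat.mul (oN n) (nat_lit 61572651155456))) fun y =>
  T2.mk x y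

/-- lanes `s, …, s + 4 n - 1` of the product with the table `H` -/
noncomputable def cv (lm S H s n : ℕ) : T2 :=
  fz (cut (Nat.shiftRight (Nat.add (Nat.mul S H)
      (Nat.shiftLeft (ow (nat_lit 64) (Nat.mul (nat_lit 3) (hN lm))) (nat_lit 63)))
    (Nat.mul (nat_lit 192) s)) (Nat.mul (nat_lit 768) n)) fun P => ext n P

/-- the values on a block of `2 ^ a` frequencies, scale `2 ^ 36` -/
noncomputable def chn (lm a G G0 H : ℕ) : T2 :=
  cv lm (rnd lm G G0) H (Nat.sub (Nat.add (hO lm) (nat_lit 6)) (p2 (Nat.sub a (nat_lit 1))))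
    (p2 (Nat.sub a (nat_lit 2)))

/-- a chunk of sources: depth, lanes, table, grid of weight zero -/
inductive Ch : Type
  | mk : ℕ → ℕ → ℕ → ℕ → Ch

def Ch.d (c : Ch) : ℕ := match c with | .mk d _ _ _ => d

/-- grid of a chunk with its own weights, and the grid of weight zero -/
noncomputable def grdC (lm c : ℕ) (ch : Ch) : T2 :=
  Ch.rec (fun d sv E G0 => fz (grd lm d sv E (wtN d sv (nat_lit 0)) c) fun G => T2.mk G G0) ch

/-- twice the central frequency -/
def kc2 (a k0 : ℕ) : ℕ := Nat.succ (Nat.add (Nat.add k0 k0) (p2 a))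

noncomputable def chn1 (lm a k0 H : ℕ) (ch : Ch) : T2 :=
  T2.rec (fun G G0 => chn lm a G G0 H) (grdC lm (kc2 a k0) ch)

noncomputable def chn3 (lm a k0 H : ℕ) (c1 c2 c3 : Ch) : T2 :=
  T2.rec (fun G G0 => T2.rec (fun G' G0' => T2.rec (fun G'' G0'' =>
    chn lm a (Nat.add (Nat.add G G') G'') (Nat.add (Nat.add G0 G0') G0'') H)
    (grdC lm (kc2 a k0) c3)) (grdC lm (kc2 a k0) c2)) (grdC lm (kc2 a k0) c1)

/-! ### the dual sum -/

/-- the vectors `mkU 1, …, mkU 8` -/
inductive Us : Type
  | mk : ℕ → ℕ → ℕ → ℕ → ℕ → ℕ → ℕ → ℕ → Us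

/-- the first `2 ^ a` wide lanes -/
def pre (a u : ℕ) : ℕ := cut u (Nat.shiftLeft (nat_lit 192) a)

/-- lanes `(2 j - 2 ^ a) ^ 2` -/
def sqj (a u1 u2 : ℕ) : ℕ :=
  let c := Nat.succ (p2 a)
  Nat.sub (Nat.add (pre a u2) (Nat.mul (oW (p2 (Nat.sub a (nat_lit 2)))) (Nat.mul c c)))
    (Nat.mul (pre a u1) (Nat.add c c))

/-- iteration for the square root; the result is checked -/
noncomputable def isq0 (n f : ℕ) : ℕ → ℕ :=
  Nat.rec (fun x => x) (fun _ ih x =>
    fz (Nat.shiftRight (Nat.add x (Nat.div n x)) (nat_lit 1)) fun y =>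
    Bool.rec (ih y) x (Nat.ble x y)) f

noncomputable def isq (n : ℕ) : ℕ :=
  isq0 n (nat_lit 20) (p2 (Nat.succ (Nat.shiftRight (Nat.log2 n) (nat_lit 1))))

def isqOk (n s : ℕ) : Bool :=
  and (Nat.ble (Nat.mul s s) n) (Nat.ble (Nat.succ n) (Nat.mul (Nat.succ s) (Nat.succ s)))

/-- `2 ^ 120 (9 / 16) log 2 / (Kc ^ 6 κ)` -/
def dA (κ : ℕ) : ℕ := Nat.div (nat_lit 25987541910787618065769007320281098) κ

/-- `2 ^ 64 (2 κ / (9000 log 2)) ^ 16` -/
def dR (κ : ℕ) : ℕ :=
  Nat.div (Nat.shiftLeft (Nat.pow κ (nat_lit 16)) (nat_lit 1104))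
    (Nat.pow (nat_lit 115076777806823900931000) (nat_lit 16))

/-- weights of a source of the dual sum: three coefficients, a bound for the third derivative and
a bound for the coefficients -/
noncomputable def dw (a0 a1 a2 r0 r1 r2 v : ℕ) : ℕ :=
  fz (Nat.shiftLeft (Nat.pow (Nat.shiftRight v (nat_lit 128)) (nat_lit 16)) (nat_lit 64)) fun q =>
  fz (Nat.add r0 q) fun d0 => fz (Nat.add r2 q) fun d2 =>
  fz (Nat.div (Nat.mul a0 r0) d0) fun f0 =>
  fz (Nat.div (Nat.mul a1 r1) (Nat.add r1 q)) fun f1 =>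
  fz (Nat.div (Nat.mul a2 r2) d2) fun f2 =>
  fz (Nat.add f0 f2) fun s => fz (Nat.add f1 f1) fun t =>
  Nat.add (Nat.add (Nat.add (nat_lit 70368744177664) f1)
      (Nat.shiftLeft (Nat.shiftRight (Nat.sub (Nat.add (nat_lit 140737488355328) f2) f0) (nat_lit 1)) (nat_lit 48)))
    (Nat.add (Nat.shiftLeft (Nat.shiftRight (Nat.sub (Nat.add (nat_lit 140737488355328) s) t) (nat_lit 1)) (nat_lit 96))
      (Nat.add (Nat.shiftLeft (Nat.succ (Nat.div (Nat.mul (Nat.mul a0 r2)
          (Nat.add (Nat.mul (nat_lit 5340) q) (Nat.add d0 d0)))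
          (Nat.shiftLeft (Nat.mul d0 d2) (nat_lit 26)))) (nat_lit 144))
        (Nat.shiftLeft (Nat.succ (Nat.shiftRight (Nat.add s t) (nat_lit 16))) (nat_lit 168))))

/-- multiplication by `(2 j + 1 - 2 ^ a) / 2 ^ a`; `J` holds the numbers `2 j + 1`, the sum starts
from `(x0, y0)` -/
noncomputable def rmp (o J a x y x0 y0 i : ℕ) : T2 :=
  Nat.rec (T2.mk x0 y0) (fun i ih => T2.rec (fun u v =>
    fz (Nat.sub a i) fun b => fz (Nat.sub (nat_lit 47) b) fun w =>
    fz (msk (Nat.xor o (bit o J (Nat.succ i))) w) fun m =>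
    fz (Nat.shiftLeft o (Nat.sub (nat_lit 46) b)) fun β =>
    fz (Nat.sub (Nat.add u (Nat.xor (fld o x b w) m)) β) fun u' =>
    fz (Nat.sub (Nat.add v (Nat.xor (fld o y b w) m)) β) fun v' => T2.mk u' v') ih) i

/-- third entry number `i` -/
noncomputable def nth3 (l : L3) : ℕ → ℕ :=
  L3.rec (fun _ => nat_lit 0) (fun _ _ g _ ih i => Nat.rec g (fun j _ => ih j) i) l

/-- `2 ^ 64 log2 ((2 c + 1) 2 ^ e / log 2)` -/
noncomputable def lam (c e : ℕ) : ℕ :=
  Nat.add (Nat.add (nth3 (odds1 c) c) (Nat.shiftLeft e (nat_lit 64))) (nat_lit 9754017956498184655)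

/-- `2 ^ 160 / (2 ^ n n (n - 1) k ^ (n - 1) log 2)` -/
def cN (k n : ℕ) : ℕ :=
  Nat.div (Nat.shiftLeft (nat_lit 26613026195688644983) (Nat.sub (nat_lit 96) n))
    (Nat.mul (Nat.mul n (Nat.sub n (nat_lit 1))) (Nat.pow k (Nat.sub n (nat_lit 1))))

/-- the phases of the dual sum, scale `2 ^ 160` -/
noncomputable def phD (lm a k0 lg : ℕ) (U : Us) : ℕ :=
  Us.rec (fun u1 u2 u3 u4 u5 u6 u7 u8 =>
    Nat.sub (Nat.add (Nat.add
        (Nat.mul (oW (p2 (Nat.sub a (nat_lit 2)))) (Nat.sub (Nat.add (nat_lit 1569275434029357895625310220577377208115124238573000196096)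
          (Nat.shiftLeft (Nat.mul k0 (nat_lit 26613026195688644983)) (nat_lit 96)))
          (Nat.shiftLeft (Nat.mul k0 lg) (nat_lit 96))))
        (Nat.shiftLeft (sqj a u1 u2) (Nat.sub (nat_lit 158) lm)))
        (Nat.add (Nat.add (Nat.mul (pre a u3) (cN k0 (nat_lit 3))) (Nat.mul (pre a u5) (cN k0 (nat_lit 5))))
          (Nat.mul (pre a u7) (cN k0 (nat_lit 7)))))
      (Nat.add (Nat.add (Nat.add (Nat.mul (pre a u1) (Nat.shiftLeft lg (nat_lit 95)))
          (Nat.mul (pre a u2) (cN k0 (nat_lit 2))))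
        (Nat.add (Nat.mul (pre a u4) (cN k0 (nat_lit 4))) (Nat.mul (pre a u6) (cN k0 (nat_lit 6)))))
        (Nat.mul (pre a u8) (cN k0 (nat_lit 8))))) U

/-- divide signed lanes by 16 -/
def dv4 (o x : ℕ) : ℕ := Nat.add (fld o x (nat_lit 4) (nat_lit 43)) (Nat.mul o (nat_lit 65970697666560))

def Us.u1 (U : Us) : ℕ := match U with | .mk u _ _ _ _ _ _ _ => u
def Us.u2 (U : Us) : ℕ := match U with | .mk _ u _ _ _ _ _ _ => u

/-- the dual sum on the block that starts at `k0 = (2 c + 1) 2 ^ e`: flag, real and imaginary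
parts, sum of the bounds for the third derivatives and the tail, sum of the weights -/
noncomputable def dual (lm a k0 c e H : ℕ) (U : Us) (ch : Ch) : T5 :=
  Ch.rec (fun d sv E G0 =>
    fz (p2 (Nat.sub a (nat_lit 2))) fun n =>
    fz (Nat.add k0 (p2 (Nat.sub a (nat_lit 1)))) fun k1 => fz (Nat.add k0 (p2 a)) fun k2 =>
    fz (isq (dA k0)) fun s0 => fz (isq (dA k1)) fun s1 => fz (isq (dA k2)) fun s2 =>
    fz (Nat.shiftRight s0 (nat_lit 16)) fun a0 => fz (Nat.shiftRight s1 (nat_lit 16)) fun a1 =>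
    fz (Nat.shiftRight s2 (nat_lit 16)) fun a2 =>
    fz (dR k0) fun r0 => fz (dR k1) fun r1 => fz (dR k2) fun r2 =>
    fz (mapV (nat_lit 192) (dw a0 a1 a2 r0 r1 r2) d sv) fun R =>
    fz (ovl n (pre a U.u1)) fun J =>
    T2.rec (fun x0 y0 => T2.rec (fun x1 y1 => T2.rec (fun x2 y2 =>
      T2.rec (fun x3 y3 => T2.rec (fun x4 y4 => T2.rec (fun x y =>
        fz (dv4 (oN n) x) fun x' => fz (dv4 (oN n) y) fun y' =>
        fz (smW (nat_lit 192) (fld (ow (nat_lit 192) (p2 d)) R (nat_lit 144) (nat_lit 24))) fun q =>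
        fz (smW (nat_lit 192) (fld (ow (nat_lit 192) (p2 d)) R (nat_lit 168) (nat_lit 24))) fun m =>
        T5.mk (and (and (and (isqOk (dA k0) s0) (isqOk (dA k1) s1)) (isqOk (dA k2) s2))
            (and (Nat.beq k0 (Nat.shiftLeft (Nat.succ (Nat.add c c)) e))
              (Nat.ble m (nat_lit 90000000)))) x' y' q m)
        (rot (oN n) (nat_lit 20) x4 (Nat.sub (Nat.shiftLeft (oN n) (nat_lit 47)) y4)
          (angW n (phD lm a k0 (lam c e) U) (nat_lit 116))))
        (rmp (oN n) J a x3 y3 x0 y0 a))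
        (rmp (oN n) J a x2 y2 x1 y1 a))
      (chn lm a (grd lm d sv E (wtN d R (nat_lit 96)) (kc2 a k0)) G0 H))
      (chn lm a (grd lm d sv E (wtN d R (nat_lit 48)) (kc2 a k0)) G0 H))
      (chn lm a (grd lm d sv E (wtN d R (nat_lit 0)) (kc2 a k0)) G0 H)) ch

/-! ### the quotient -/

/-- conditional multiplication by `1 + 2 ^ (-b)` -/
def sc (v b m : ℕ) : ℕ := Nat.add v (Nat.land (Nat.shiftRight v b) m)

/-- steps for the exponential of the real part -/
noncomputable def expS (o n : ℕ) : ℕ → ℕ → ℕ → T2 :=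
  Nat.rec (fun _ r v => T2.mk r v) (fun _ ih i r v =>
    fz (Nat.sub i (nat_lit 2)) fun b =>
    fz (bit o (Nat.sub r (Nat.mul o (lb b))) (nat_lit 46)) fun s =>
    fz (Nat.sub r (Nat.mul s (lb b))) fun r' =>
    fz (sc v b (msk s (Nat.sub (nat_lit 47) b))) fun v' =>
    fz (Nat.succ i) fun i' => ih i' r' v') n

/-- steps that bring `ρ` to `2 ^ 39`; `v` takes every factor twice, `u` three times -/
noncomputable def nrmS (o n : ℕ) : ℕ → ℕ → ℕ → ℕ → T3 :=
  Nat.rec (fun _ r v u => T3.mk r v u) (fun _ ih i r v u =>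
    fz (Nat.sub i (nat_lit 2)) fun b => fz (Nat.sub (nat_lit 47) b) fun w =>
    fz (bit o (Nat.sub (Nat.mul o (nat_lit 141287244169216)) (Nat.add r (fld o r b w))) (nat_lit 47)) fun s =>
    fz (msk s w) fun m => fz (sc r b m) fun r' => fz (sc v b m) fun v1 => fz (sc v1 b m) fun v' =>
    fz (sc u b m) fun u1 => fz (sc u1 b m) fun u2 => fz (sc u2 b m) fun u' =>
    fz (Nat.succ i) fun i' => ih i' r' v' u') n

/-- the quotient minus `A`; `tl` and `t3` are the angles `-α` and `3 α` -/
noncomputable def core (o zx zy lx ly ax ay tl t3 : ℕ) : T5 :=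
  T2.rec (fun px py => T3.rec (fun r y t => T2.rec (fun q v0 => T3.rec (fun r' v u =>
    T2.rec (fun gx gy =>
      fz (Nat.sub (Nat.add gx (Nat.shiftLeft o (nat_lit 46))) ax) fun rx =>
      fz (Nat.sub (Nat.add gy (Nat.shiftLeft o (nat_lit 46))) ay) fun ry =>
      T5.mk (and (and (rng o y (nat_lit 131072))
          (lek o (Nat.sub (Nat.shiftLeft o (nat_lit 47)) r) (nat_lit 70368744177664)))
        (and (rng o q (nat_lit 4096))
          (rng o (Nat.add r' (Nat.mul o (nat_lit 69818988363776))) (nat_lit 262144)))) rx ry v u)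
      (rot o (nat_lit 23) (Nat.add v (Nat.shiftLeft o (nat_lit 46))) (Nat.shiftLeft o (nat_lit 46))
        (Nat.add (fld o (Nat.add (Nat.add (Nat.add t3 (Nat.shiftLeft o (nat_lit 43)))
            (Nat.shiftLeft (fld o py (nat_lit 0) (nat_lit 36)) (nat_lit 8)))
            (Nat.shiftLeft (fld o (Nat.sub (Nat.shiftLeft o (nat_lit 47)) t) (nat_lit 0) (nat_lit 43))
              (nat_lit 1))) (nat_lit 0) (nat_lit 44)) (Nat.mul o (nat_lit 61572651155456)))))
      (nrmS o (nat_lit 25) (nat_lit 0) (Nat.sub r (Nat.shiftLeft o (nat_lit 46))) v0 v0))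
      (expS o (nat_lit 25) (nat_lit 0) (Nat.add px (Nat.mul o (nat_lit 15161962992)))
        (Nat.mul o (nat_lit 442048840))))
      (cord true o (nat_lit 23) zx zy (Nat.shiftLeft o (nat_lit 46))))
    (rot o (nat_lit 22) lx ly tl)

/-- the tables for one grid: phases, main sum, three chunks for `A`, logarithm -/
inductive Tb : Type
  | mk : ℕ → Ch → Ch → Ch → Ch → Ch → Tb

def Tb.H (T : Tb) : ℕ := match T with | .mk h _ _ _ _ _ => h

/-- the coefficients on a block; `(dx, dy)` is the dual sum -/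
noncomputable def blk (lm a k0 : ℕ) (U : Us) (T : Tb) (dx dy : ℕ) : T5 :=
  Tb.rec (fun H cm c1 c2 c3 cl =>
    fz (p2 (Nat.sub a (nat_lit 2))) fun n =>
    fz (Nat.shiftLeft (sqj a U.u1 U.u2) (Nat.sub (nat_lit 41) lm)) fun Q =>
    T2.rec (fun mx my => T2.rec (fun ax ay => T2.rec (fun lx ly =>
      fz (Nat.sub (Nat.add mx dx) (Nat.shiftLeft (oN n) (nat_lit 46))) fun zx =>
      fz (Nat.sub (Nat.add my dy) (Nat.shiftLeft (oN n) (nat_lit 46))) fun zy =>
      core (oN n) zx zy lx ly ax ay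
        (angW n (Nat.sub (Nat.shiftLeft (oW n) (nat_lit 90)) Q) (nat_lit 0))
        (angW n (Nat.mul Q (nat_lit 3)) (nat_lit 0)))
      (chn1 lm a k0 H cl)) (chn3 lm a k0 H c1 c2 c3)) (chn1 lm a k0 H cm)) T

/-! ### bounds for the errors -/

/-- error of a channel: `n` sources of total weight `m` -/
def eCh (n m lm a : ℕ) : ℚ :=
  m / 2 ^ 40 * (2.1e-6 + 1.2e-6 / 2 ^ (14 * (lm - 2 - a))) + n * 4e-10 + 2 ^ lm * 4.2e-11 + 1e-9

/-- error of the dual sum; `q` and `m` are the sums returned by `dual` -/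
noncomputable def eDual (lm a k0 d q m : ℕ) : ℚ :=
  (2 ^ a / (2 * k0)) ^ 3 * (q + 2 ^ d) * 1.1e-6 +
  (isq (dA k0) / 2 ^ 16 + 1) * (dR (k0 + 2 ^ a) + 1) * 4.47 / 2 ^ 108 *
    ((1 + 2 ^ d / 15) / (2 * 2 ^ d) ^ 16) +
  2 ^ d * 3e-12 + 0.1031 * (eCh (3 * 2 ^ d) (m * 2 ^ 16) lm a + 2 ^ lm * 8.4e-11 + 2e-9) + 1e-9 +
  (m * 2.72 / 2 ^ 28 + 1e-4) * (5e-6 + 0.21 * 2 ^ a * (2 ^ a / k0) ^ 8)

/-- total weights of the channels -/
def mM : ℕ := 2300000000000
def mA : ℕ := 4900000000000
def mL : ℕ := 50000000000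

/-- errors of `z`, of the logarithm and of `A`; `δ` is the error of the dual sum -/
def eZ (lm a : ℕ) (δ : ℚ) : ℚ := 2.46e-5 + eCh 8192 mM lm a + δ
def eL (lm a : ℕ) : ℚ := 4.2e-7 + eCh 512 mL lm a
def eA (lm a : ℕ) : ℚ := 4e-8 + eCh 11264 mA lm a

/-- the error of a coefficient is at most `e0 + e1 v + e2 u` -/
def e0 (δa : ℚ) : ℚ := δa + 1e-9
def e1 (δl : ℚ) : ℚ := 17.5 * δl + 5e-6
def e2 (δz : ℚ) : ℚ := 0.69 * δz + 1e-6

/-! ### high frequencies -/

/-- the values of the trigonometric sum on the grid, scale `2 ^ 26` -/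
noncomputable def syn (lm a H rx ry : ℕ) : T2 :=
  fz (p2 (Nat.sub a (nat_lit 2))) fun n =>
  cv lm (Nat.sub (Nat.add (cmb n (rdN (oN n) rx (nat_lit 12) (nat_lit 26))
      (rdN (oN n) (Nat.sub (Nat.shiftLeft (oN n) (nat_lit 47)) ry) (nat_lit 12) (nat_lit 26)))
      (p2 (Nat.shiftLeft (nat_lit 192) a))) (Nat.mul (oW n) (nat_lit 618970019642690137483116544)))
    H (p2 (Nat.sub lm (nat_lit 2))) (p2 (Nat.sub lm (nat_lit 2)))

/-- all points lie in an octagon inside the disc of radius `13 t` -/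
def oct (o x y t : ℕ) : Bool :=
  and (and (rng o x (Nat.mul (nat_lit 12) t)) (rng o y (Nat.mul (nat_lit 12) t)))
    (and (rng o (Nat.sub (Nat.add x y) (Nat.shiftLeft o (nat_lit 46))) (Nat.mul (nat_lit 17) t))
      (rng o (Nat.sub (Nat.add x (Nat.shiftLeft o (nat_lit 46))) y) (Nat.mul (nat_lit 17) t)))

/-- sum of the lanes divided by `2 ^ 16` -/
def smN (o v : ℕ) : ℕ := smW (nat_lit 48) (fld o v (nat_lit 16) (nat_lit 31))

/-- upper bound for `omN k0 (2 ^ (a - 1))` -/
def omQ (a k0 : ℕ) : ℚ :=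
  ((1 - (2 * k0 + 1) / 2 ^ 24) ^ 3 * (1 + 3 * ((2 * k0 + 1 + 2 * 2 ^ a) / 2 ^ 24) +
    ((2 * k0 + 1 + 2 * 2 ^ a) / 2 ^ 24) ^ 2) + 1 / (4.5 * (2 * k0 + 1))) / (3.14159 * (2 * k0 + 1))

/-- bound for the sum over a block -/
def hiQ (lm a k0 t s1 s2 : ℕ) (δ : ℚ) : ℚ :=
  2 * omQ a k0 * ((13 * t / 2 ^ 26 + 2 ^ a * 3e-7 + 1e-6) / (1 - 1.2338 * (2 ^ a / 2 ^ lm) ^ 2) +
    2 ^ a * (e0 (eA lm a) + 4.3e-8) + e1 (eL lm a) * (s1 + 2 ^ a) / 2 ^ 20 +
    e2 (eZ lm a δ) * (s2 + 2 ^ a) / 2 ^ 20)

/-- the check for a block of high frequencies -/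
noncomputable def hiChk (lm a k0 c e t thr : ℕ) (U : Us) (T : Tb) (ch : Ch) : Bool :=
  T5.rec (fun f1 dx dy q m => T5.rec (fun f2 rx ry v u =>
    fz (oN (p2 (Nat.sub a (nat_lit 2)))) fun o =>
    T2.rec (fun x y =>
      fz (smN o v) fun s1 => fz (smN o u) fun s2 =>
      and (and (and f1 f2) (and (rng o rx (nat_lit 68719476736)) (rng o ry (nat_lit 68719476736))))
        (and (oct (oN (p2 (Nat.sub lm (nat_lit 2)))) x y t)
          (and (decide (eDual lm a k0 ch.d q m ≤ 5e-4))
          (decide (hiQ lm a k0 t s1 s2 (eDual lm a k0 ch.d q m) ≤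
            thr / 2 ^ 40)))))
      (syn lm a T.H rx ry)) (blk lm a k0 U T dx dy)) (dual lm a k0 c e T.H U ch)

/-! ### low frequencies -/

/-- `(1 + 2 * 3 ^ (-s)) e (α - k ^ 2 / 2 ^ 20)`, scale `2 ^ 40` -/
noncomputable def qv (lm a k0 : ℕ) (U : Us) : T2 :=
  fz (p2 (Nat.sub a (nat_lit 2))) fun n =>
  fz (Nat.sub (Nat.add (Nat.shiftLeft (oW n) (nat_lit 90))
      (Nat.shiftLeft (sqj a U.u1 U.u2) (Nat.sub (nat_lit 41) lm)))
    (Nat.shiftLeft (Nat.sub (Nat.add (Nat.add (pre a U.u2) (Nat.mul (pre a U.u1) (Nat.mul (nat_lit 4) k0)))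
        (Nat.mul (oW n) (Nat.sub (Nat.succ (Nat.mul (nat_lit 4) (Nat.mul k0 k0))) (Nat.mul (nat_lit 4) k0))))
      (Nat.mul (pre a U.u1) (nat_lit 2))) (nat_lit 22))) fun F =>
  T2.rec (fun x1 y1 => T2.rec (fun x2 y2 =>
    fz (Nat.sub (Nat.add x1 x2) (Nat.shiftLeft (oN n) (nat_lit 46))) fun x =>
    fz (Nat.sub (Nat.add y1 y2) (Nat.shiftLeft (oN n) (nat_lit 46))) fun y => T2.mk x y)
    (rot (oN n) (nat_lit 24) (Nat.mul (oN n) (nat_lit 70813865286359)) (Nat.shiftLeft (oN n) (nat_lit 46))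
      (angW n (Nat.sub (Nat.shiftLeft F (nat_lit 21))
        (Nat.mul (Nat.add (Nat.mul (oW n) (Nat.add k0 k0)) (pre a U.u1)) g3)) (nat_lit 21))))
    (rot (oN n) (nat_lit 24) (Nat.mul (oN n) (nat_lit 71036425840707)) (Nat.shiftLeft (oN n) (nat_lit 46))
      (angW n F (nat_lit 0)))

/-- sum of `f` over `2 ^ d` lanes; `n` runs through consecutive odd numbers -/
noncomputable def foldT (f : ℕ → ℕ → ℕ → ℕ → ℕ) (d : ℕ) : ℕ → ℕ → ℕ → ℕ → ℕ :=
  Nat.rec (fun n v w b => f n v w b) (fun d ih n v w b =>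
    fz (Nat.shiftLeft (nat_lit 192) d) fun s => fz (Nat.shiftLeft (nat_lit 64) d) fun t =>
    fz (Nat.shiftRight v s) fun v' => fz (Nat.shiftRight w s) fun w' =>
    fz (Nat.shiftRight b t) fun b' => fz (Nat.add n (Nat.shiftLeft (nat_lit 2) d)) fun n' =>
    Nat.add (ih n (Nat.sub v (Nat.shiftLeft v' s)) (Nat.sub w (Nat.shiftLeft w' s))
      (Nat.sub b (Nat.shiftLeft b' t))) (ih n' v' w' b')) d

/-- bound for the error of one datum times `π / 3`, scale `2 ^ 60` -/
noncomputable def lo1 (a0 a1 a2 a4 n v w b : ℕ) : ℕ :=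
  fz (Nat.land v (nat_lit 281474976710655)) fun x => fz (Nat.land (Nat.shiftRight v (nat_lit 48)) (nat_lit 281474976710655)) fun y =>
  fz (Nat.land w (nat_lit 281474976710655)) fun qx => fz (Nat.shiftRight w (nat_lit 64)) fun qy =>
  fz (Nat.land b (nat_lit 4294967295)) fun br => fz (Nat.shiftRight b (nat_lit 32)) fun bi =>
  fz (Nat.mul (nat_lit 3454217652357) n) fun pn => fz (Nat.shiftLeft pn (nat_lit 31)) fun pm =>
  fz (Nat.sub (Nat.add (Nat.add (Nat.mul br (nat_lit 762123384785)) pm) (nat_lit 4951758520494014515397001216))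
    (Nat.mul bi pn)) fun p1 =>
  fz (Nat.sub (Nat.add (Nat.add (Nat.mul bi (nat_lit 762123384785)) (Nat.mul br pn))
    (nat_lit 4951758520494014515397001216)) pm) fun p2 =>
  Nat.succ (Nat.div (Nat.add (Nat.add
      (Nat.add (dst (Nat.add (Nat.add (Nat.mul p1 qx) (Nat.shiftLeft p2 (nat_lit 46)))
            (Nat.add (Nat.shiftLeft qy (nat_lit 92)) (nat_lit 5316911983139663491615228241121378304)))
          (Nat.add (Nat.add (Nat.mul p2 qy) (Nat.shiftLeft p1 (nat_lit 46)))
            (Nat.add (Nat.shiftLeft qx (nat_lit 92)) (Nat.shiftLeft x (nat_lit 76)))))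
        (dst (Nat.add (Nat.add (Nat.mul p1 qy) (Nat.mul p2 qx)) (nat_lit 696903604366065112836482811248502418440192))
          (Nat.add (Nat.add (Nat.shiftLeft (Nat.add p1 p2) (nat_lit 46))
            (Nat.shiftLeft (Nat.add qx qy) (nat_lit 92))) (Nat.shiftLeft y (nat_lit 76)))))
      (Nat.add (Nat.mul (Nat.add (dst p1 (nat_lit 4951760157141521099596496896)) (dst p2 (nat_lit 4951760157141521099596496896))) (nat_lit 240000))
        (Nat.mul (Nat.add (dst x (nat_lit 70368744177664)) (dst y (nat_lit 70368744177664))) a4)))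
      (Nat.add (Nat.add a0 (Nat.mul a1 (Nat.land (Nat.shiftRight v (nat_lit 96)) (nat_lit 281474976710655))))
        (Nat.mul a2 (Nat.shiftRight v (nat_lit 144)))))
    (Nat.shiftLeft n (nat_lit 52)))

/-- the slots `k0, …, k0 + 2 ^ a - 1` of the data -/
def dat (a k0 B : ℕ) : ℕ :=
  cut (Nat.shiftRight B (Nat.mul (nat_lit 64) k0)) (Nat.shiftLeft (nat_lit 64) a)

/-- the check for a block of low frequencies; `(dx, dy)` is the dual sum with error `δ` -/
noncomputable def loChk0 (lm a k0 thr BR BI : ℕ) (U : Us) (T : Tb) (dx dy : ℕ) (δ : ℚ) : Bool :=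
  T5.rec (fun f rx ry v u => T2.rec (fun qx qy =>
    fz (p2 (Nat.sub a (nat_lit 2))) fun n => fz (dat a k0 BR) fun br => fz (dat a k0 BI) fun bi =>
    fz ⌈e0 (eA lm a) * 1.0004 * 2 ^ 112⌉₊ fun a0 => fz ⌈e1 (eL lm a) * 1.0004 * 2 ^ 76⌉₊ fun a1 =>
    fz ⌈e2 (eZ lm a δ) * 1.0004 * 2 ^ 76⌉₊ fun a2 =>
    fz (Nat.shiftLeft (Nat.mul (nat_lit 5) (Nat.pow (Nat.add k0 (p2 a)) (nat_lit 2))) (nat_lit 30)) fun a4 =>
    and (and (and f (decide (δ ≤ 5e-4)))
        (and (Nat.beq (fld (ow (nat_lit 64) (p2 a)) br (nat_lit 0) (nat_lit 32)) br)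
          (Nat.beq (fld (ow (nat_lit 64) (p2 a)) bi (nat_lit 0) (nat_lit 32)) bi)))
      (Nat.ble (foldT (lo1 a0 a1 a2 a4) a (Nat.succ (Nat.add k0 k0))
        (Nat.add (Nat.add (spr n rx) (Nat.shiftLeft (spr n ry) (nat_lit 48)))
          (Nat.add (Nat.shiftLeft (spr n v) (nat_lit 96)) (Nat.shiftLeft (spr n u) (nat_lit 144))))
        (cmb n qx qy) (Nat.add br (Nat.shiftLeft bi (nat_lit 32)))) thr))
    (qv lm a k0 U)) (blk lm a k0 U T dx dy)

/-- with the dual sum -/
noncomputable def loChk (lm a k0 c e thr BR BI : ℕ) (U : Us) (T : Tb) (ch : Ch) : Bool :=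
  T5.rec (fun f dx dy q m =>
    and f (loChk0 lm a k0 thr BR BI U T dx dy (eDual lm a k0 ch.d q m)))
    (dual lm a k0 c e T.H U ch)

/-- without the dual sum -/
noncomputable def loChkN (lm a k0 thr BR BI : ℕ) (U : Us) (T : Tb) (δ : ℚ) : Bool :=
  loChk0 lm a k0 thr BR BI U T (Nat.shiftLeft (oN (p2 (Nat.sub a (nat_lit 2)))) (nat_lit 46))
    (Nat.shiftLeft (oN (p2 (Nat.sub a (nat_lit 2)))) (nat_lit 46)) δ

end Pool.Agent.Lib.MP_5db4ad_nt.NE
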