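import Pool.Agent.Lib.MP_5db4ad_nt.H96NLaneB

/-!
The check for a block of low frequencies bounds the errors of the data.
-/

namespace Pool.Agent.Lib.MP_5db4ad_nt.NE

open S2 Finset

namespace H96NLo

lemma dat_eq (a k0 B : ℕ) : dat a k0 B = pw 64 (2 ^ a) fun j => lane B (k0 + j) := by
  unfold dat
  rw [cut_eq]
  show (B >>> (64 * k0)) % 2 ^ (64 <<< a) = _
  rw [Nat.shiftRight_eq_div_pow, Nat.shiftLeft_eq, mod_eq_pw]
  apply pw_congr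
  intro j _
  unfold lane
  rw [Nat.div_div_eq_div_mul, ← pow_add, mul_add]

lemma lane_lt64 (X j : ℕ) : lane X j < 2 ^ 64 := Nat.mod_lt _ (by positivity)

lemma dat_lt {a k0 B : ℕ} (h : fld (ow 64 (2 ^ a)) (dat a k0 B) 0 32 = dat a k0 B) :
    ∀ j < 2 ^ a, lane B (k0 + j) < 2 ^ 32 := by
  rw [dat_eq, fld_pw (by norm_num) (fun j _ => lane_lt64 _ _) (by norm_num)] at h
  intro j hj
  have h1 := pw_inj (fun j _ => lt_trans (Nat.mod_lt _ (by positivity)) (by norm_num))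
    (fun j _ => lane_lt64 _ _) h j hj
  rw [← h1]
  exact Nat.mod_lt _ (by positivity)

/-- the check, unfolded -/
lemma chk0 {lm a k0 thr BR BI : ℕ} {U : Us} {T : Tb} {dx dy : ℕ} {δ : ℚ} {f : Bool}
    {rx ry v u qx qy : ℕ} (hb : blk lm a k0 U T dx dy = T5.mk f rx ry v u)
    (hq : qv lm a k0 U = T2.mk qx qy) (h : loChk0 lm a k0 thr BR BI U T dx dy δ = true) :
    f = true ∧ δ ≤ 5e-4 ∧ fld (ow 64 (2 ^ a)) (dat a k0 BR) 0 32 = dat a k0 BR ∧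
      fld (ow 64 (2 ^ a)) (dat a k0 BI) 0 32 = dat a k0 BI ∧
      foldT (lo1 ⌈e0 (eA lm a) * 1.0004 * 2 ^ 112⌉₊ ⌈e1 (eL lm a) * 1.0004 * 2 ^ 76⌉₊
        ⌈e2 (eZ lm a δ) * 1.0004 * 2 ^ 76⌉₊ (5 * (k0 + 2 ^ a) ^ 2 * 2 ^ 30)) a (k0 + k0 + 1)
        (spr (2 ^ (a - 2)) rx + Nat.shiftLeft (spr (2 ^ (a - 2)) ry) 48 +
          (Nat.shiftLeft (spr (2 ^ (a - 2)) v) 96 + Nat.shiftLeft (spr (2 ^ (a - 2)) u) 144))
        (cmb (2 ^ (a - 2)) qx qy) (dat a k0 BR + Nat.shiftLeft (dat a k0 BI) 32) ≤ thr := by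
  unfold loChk0 at h
  rw [hb, hq] at h
  simp only [fz_eq, p2_eq, Bool.and_eq_true, Nat.beq_eq, Nat.ble_eq, decide_eq_true_eq] at h
  obtain ⟨⟨⟨h1, h2⟩, h3, h4⟩, h5⟩ := h
  refine ⟨h1, h2, h3, h4, ?_⟩
  have e : Nat.shiftLeft (Nat.mul 5 (Nat.pow (Nat.add k0 (2 ^ a)) 2)) 30 =
      5 * (k0 + 2 ^ a) ^ 2 * 2 ^ 30 := Nat.shiftLeft_eq _ _
  rw [← e]
  exact h5

lemma eCh_nonneg (n m lm a : ℕ) : 0 ≤ eCh n m lm a := by
  unfold eCh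
  positivity

lemma e0_nonneg (lm a : ℕ) : 0 ≤ e0 (eA lm a) := by
  have := eCh_nonneg 11264 mA lm a
  unfold e0 eA
  positivity

lemma e1_nonneg (lm a : ℕ) : 0 ≤ e1 (eL lm a) := by
  have := eCh_nonneg 512 mL lm a
  unfold e1 eL
  positivity

lemma e2_nonneg (lm a : ℕ) {δ : ℚ} (h : 0 ≤ δ) : 0 ≤ e2 (eZ lm a δ) := by
  have := eCh_nonneg 8192 mM lm a
  unfold e2 eZ
  positivity

lemma eDual_nonneg (lm a k0 d q m : ℕ) : 0 ≤ eDual lm a k0 d q m := by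
  have := eCh_nonneg (3 * 2 ^ d) (m * 2 ^ 16) lm a
  unfold eDual
  positivity

lemma ceil_le (c : ℚ) (s : ℕ) : (c : ℝ) * 1.0004 * 2 ^ s ≤ (⌈c * 1.0004 * 2 ^ s⌉₊ : ℕ) := by
  have h := Nat.le_ceil (c * 1.0004 * 2 ^ s)
  have h' : ((c * 1.0004 * 2 ^ s : ℚ) : ℝ) ≤ ((⌈c * 1.0004 * 2 ^ s⌉₊ : ℕ) : ℝ) := by
    exact_mod_cast h
  have e : ((c * 1.0004 * 2 ^ s : ℚ) : ℝ) = (c : ℝ) * 1.0004 * 2 ^ s := by
    push_cast
    norm_num
  rwa [e] at h'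

lemma norm_three (k : ℕ) : ‖1 + 2 * (3 : ℂ) ^ (-sk k)‖ ≤ 3 := by
  have h : ‖(3 : ℂ) ^ (-sk k)‖ ≤ 1 := by
    have e : (3 : ℂ) = ((3 : ℝ) : ℂ) := by norm_num
    rw [e, Complex.norm_cpow_eq_rpow_re_of_pos (by norm_num)]
    apply Real.rpow_le_one_of_one_le_of_nonpos (by norm_num)
    simp [sk]
  calc ‖1 + 2 * (3 : ℂ) ^ (-sk k)‖ ≤ ‖(1 : ℂ)‖ + ‖2 * (3 : ℂ) ^ (-sk k)‖ := norm_add_le _ _
    _ = 1 + 2 * ‖(3 : ℂ) ^ (-sk k)‖ := by rw [norm_one, norm_mul]; simp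
    _ ≤ 3 := by linarith

lemma q_lt {x y k : ℕ} {θ : ℝ}
    (h : ‖cz x y - 2 ^ 40 * ((1 + 2 * (3 : ℂ) ^ (-sk k)) * ee θ)‖ ≤ 2 ^ 40 * 2.1e-7) :
    x < 2 ^ 48 ∧ y < 2 ^ 48 := by
  have h1 : ‖(2 : ℂ) ^ 40 * ((1 + 2 * (3 : ℂ) ^ (-sk k)) * ee θ)‖ ≤ 2 ^ 40 * 3 := by
    rw [norm_mul, norm_mul, norm_ee, mul_one, norm_pow, Complex.norm_ofNat]
    have := norm_three k
    gcongr
  have h2 : ‖cz x y‖ < 2 ^ 46 := by
    have := norm_le_insert' (cz x y) (2 ^ 40 * ((1 + 2 * (3 : ℂ) ^ (-sk k)) * ee θ))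
    norm_num at h h1 this ⊢
    linarith
  have h3 := sv_le_norm x y
  exact ⟨lt_trans (lt_of_sv (lt_of_le_of_lt h3.1 h2)).2 (by norm_num),
    lt_trans (lt_of_sv (lt_of_le_of_lt h3.2 h2)).2 (by norm_num)⟩

lemma vb_const {lm a k0 : ℕ} {δ : ℝ} (ha : 2 ≤ a) (h : ∀ k < k0 + 2 ^ a, ‖dualT k‖ ≤ δ) :
    VB lm a k0 (Nat.shiftLeft (oN (p2 (Nat.sub a 2))) 46)
      (Nat.shiftLeft (oN (p2 (Nat.sub a 2))) 46) dualT δ := by
  have e : Nat.shiftLeft (oN (p2 (Nat.sub a 2))) 46 = pw 48 (2 ^ a) fun _ => 2 ^ 46 := by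
    rw [oN_eq, p2_eq, ow_shl (by norm_num)]
    show pw 48 (4 * 2 ^ (a - 2)) _ = _
    rw [four_mul_p2 ha]
  refine ⟨_, _, e, e, fun p hp => ?_⟩
  have hz : cz (2 ^ 46) (2 ^ 46) = 0 := by
    apply Complex.ext <;> simp only [cz, sv, Complex.zero_re, Complex.zero_im] <;> norm_num
  have hs : sig (2 ^ (a - 2)) p < 2 ^ a := by
    have := sig_lt (n := 2 ^ (a - 2)) (p := p) (by rwa [four_mul_p2 ha])
    rwa [four_mul_p2 ha] at this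
  have := h (k0 + sig (2 ^ (a - 2)) p) (by omega)
  rw [hz, zero_sub, norm_neg, norm_mul, norm_mul, norm_ee, mul_one, norm_pow, Complex.norm_ofNat]
  exact mul_le_mul_of_nonneg_left this (by positivity)

end H96NLo

open H96NLo

theorem lo0Ok (h1 : StBlk) (h2 : StQv) (h3 : StLo1) : StLo0 := by
  intro hr lm a k0 du thr BR BI dx dy U T δ hP hU hT hk hδ hV hc
  obtain ⟨qx, qy, hq, fq, gq, rfl, rfl, hqv⟩ := h2 lm a k0 du U hP hU hk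
  rcases hb : blk lm a k0 U T dx dy with ⟨f, rx, ry, v, u⟩
  obtain ⟨hf, hδ', hBR, hBI, hsum⟩ := chk0 hb hq hc
  obtain ⟨f', rx', ry', v', u', hb', hok⟩ := h1 hr lm a k0 du dx dy U T δ hP hU hT hδ' hV
  rw [hb] at hb'
  injection hb' with i1 i2 i3 i4 i5
  subst i1 i2 i3 i4 i5
  obtain ⟨fx, fy, fv, fu, rfl, rfl, rfl, rfl, hl⟩ := hok hf
  have ha : 2 ≤ a := hP.2.2.1
  have h4 : 4 * 2 ^ (a - 2) = 2 ^ a := four_mul_p2 ha
  have hR := dat_lt hBR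
  have hI := dat_lt hBI
  have hq48 : ∀ p < 2 ^ a, fq p < 2 ^ 48 ∧ gq p < 2 ^ 48 := fun p hp => q_lt (hqv p hp)
  generalize hn : 2 ^ (a - 2) = n at *
  have ht : ∀ j < 2 ^ a, tau n j < 2 ^ a := fun j hj => by
    rw [← h4] at hj ⊢
    exact tau_lt hj
  have hst : ∀ j < 2 ^ a, sig n (tau n j) = j := fun j hj => by
    rw [← h4] at hj
    exact sig_tau hj
  have hspr : ∀ g : ℕ → ℕ, (∀ p < 2 ^ a, g p < 2 ^ 47) →
      spr n (pw 48 (2 ^ a) g) = pw 192 (2 ^ a) fun j => g (tau n j) := by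
    intro g hg
    rw [← h4] at hg ⊢
    exact spr_pw fun p hp => lt_trans (hg p hp) (by norm_num)
  have hcmb : cmb n (pw 48 (2 ^ a) fq) (pw 48 (2 ^ a) gq) =
      pw 192 (2 ^ a) fun j => fq (tau n j) + gq (tau n j) * 2 ^ 64 := by
    rw [← h4] at hq48 ⊢
    exact cmb_pw (fun p hp => (hq48 p hp).1) (fun p hp => (hq48 p hp).2)
  rw [hspr fx (fun p hp => (hl p hp).1), hspr fy (fun p hp => (hl p hp).2.1),
    hspr fv (fun p hp => (hl p hp).2.2.1), hspr fu (fun p hp => (hl p hp).2.2.2.1), hcmb,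
    dat_eq, dat_eq, pw_shl, pw_shl, pw_shl, pw_shl, pw_add, pw_add, pw_add, pw_add,
    foldT_pw] at hsum
  swap
  · intro j hj
    obtain ⟨b1, b2, b3, b4, -⟩ := hl _ (ht j hj)
    obtain ⟨b5, b6⟩ := hq48 _ (ht j hj)
    have b7 := hR j hj
    have b8 := hI j hj
    refine ⟨?_, ?_, ?_⟩ <;> omega
  unfold LB
  rw [Finset.sum_Ico_eq_sum_range, Nat.add_sub_cancel_left]
  have hsum' := (Nat.cast_le (α := ℝ)).2 hsum
  rw [Nat.cast_sum] at hsum'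
  refine le_trans (Finset.sum_le_sum (g := fun j => 0.955 * ((lo1
    ⌈e0 (eA lm a) * 1.0004 * 2 ^ 112⌉₊ ⌈e1 (eL lm a) * 1.0004 * 2 ^ 76⌉₊
    ⌈e2 (eZ lm a δ) * 1.0004 * 2 ^ 76⌉₊ (5 * (k0 + 2 ^ a) ^ 2 * 2 ^ 30) (k0 + k0 + 1 + 2 * j)
    (fx (tau n j) + fy (tau n j) * 2 ^ 48 + (fv (tau n j) * 2 ^ 96 + fu (tau n j) * 2 ^ 144))
    (fq (tau n j) + gq (tau n j) * 2 ^ 64)
    (lane BR (k0 + j) + lane BI (k0 + j) * 2 ^ 32) : ℕ) : ℝ) / 2 ^ 60) fun j hj => ?_) ?_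
  · rw [Finset.mem_range] at hj
    obtain ⟨b1, b2, b3, b4, b9⟩ := hl _ (ht j hj)
    obtain ⟨b5, b6⟩ := hq48 _ (ht j hj)
    have b10 := hqv _ (ht j hj)
    rw [hst j hj] at b9
    simp only [hst j hj] at b10
    have e1' : k0 + k0 + 1 + 2 * j = 2 * (k0 + j) + 1 := by ring
    rw [e1', ← add_assoc]
    refine h3 (k0 + j) _ _ _ _ _ _ _ _ _ _ _ _ _ (al lm a j) (e0 (eA lm a)) (e1 (eL lm a))
      (e2 (eZ lm a δ)) (by omega) (by omega) (by omega) (by omega) b5 (hR j hj) (hI j hj)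
      (by exact_mod_cast e0_nonneg lm a) (by exact_mod_cast e1_nonneg lm a)
      (by exact_mod_cast e2_nonneg lm a hδ) (ceil_le _ _) (ceil_le _ _) (ceil_le _ _) ?_ b9 b10
    have : k0 + j + 1 ≤ k0 + 2 ^ a := by omega
    gcongr
  · rw [← Finset.sum_div, ← Finset.mul_sum]
    gcongr

theorem loOk (h1 : StLo0) (h2 : StDual) (h3 : StDT) : StLo := by
  intro hr
  refine ⟨fun lm a k0 du c e d thr BR BI U T ch hP hU hT hc hk hak hd hd' hs hch hk' hchk => ?_,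
    fun lm du thr BR BI U T l1 l2 d1 d2 hU hT => ⟨fun hchk => ?_, fun hchk => ?_⟩⟩
  · obtain ⟨f, x, y, q, m, hD, hV⟩ := h2 lm a k0 du c e d U ch hP hU hc hk hak hd hd' hs hch
    have hH : T.H = mkH lm := by
      obtain ⟨cm, c1, c2, c3, cl, rfl, -⟩ := hT
      rfl
    have hd0 : ch.d = d := by
      rw [hch]
      rfl
    unfold loChk at hchk
    rw [hH, hD, hd0] at hchk
    simp only [Bool.and_eq_true] at hchk
    exact h1 hr lm a k0 du thr BR BI x y U T _ hP hU hT hk' (eDual_nonneg _ _ _ _ _ _)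
      (hV hchk.1) hchk.2
  · refine h1 hr lm 10 0 du thr BR BI _ _ U T 1e-9
      ⟨by omega, l2, by norm_num, by omega, d1, d2, by norm_num⟩ hU hT (by norm_num) (by norm_num)
      (vb_const (by norm_num) fun k hk => ?_) hchk
    have := h3.2.2.1 k (by omega)
    norm_num at this ⊢
    exact this
  · refine h1 hr lm 10 1024 du thr BR BI _ _ U T 1.7e-5
      ⟨by omega, l2, by norm_num, by omega, d1, d2, by norm_num⟩ hU hT (by norm_num) (by norm_num)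
      (vb_const (by norm_num) fun k hk => ?_) hchk
    have := h3.2.2.2 k (by omega)
    norm_num at this ⊢
    exact this

end Pool.Agent.Lib.MP_5db4ad_nt.NE
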