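import Pool.Agent.Lib.MP_5db4ad_nt.S2BernSt
import Pool.Agent.Lib.MP_5db4ad_nt.H96NDefs

/-!
Meaning of the programs that evaluate the coefficients: definitions and interface statements.
-/

namespace Pool.Agent.Lib.MP_5db4ad_nt.NE

open S2 Finset
open scoped Real

noncomputable section

/-- the vector with lanes `f 0, …, f (n - 1)` of width `W` -/
def pw (W n : ℕ) (f : ℕ → ℕ) : ℕ := ∑ j ∈ range n, f j * 2 ^ (W * j)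

/-- the same with signed lanes -/
def iw (W n : ℕ) (f : ℕ → ℤ) : ℤ := ∑ j ∈ range n, f j * 2 ^ (W * j)

/-- the gain of a rotation -/
def Kc : ℝ := 1.6467602581210656

/-- the signed number in a narrow lane -/
def sv (a : ℕ) : ℝ := (a : ℝ) - 2 ^ 46

def cz (a b : ℕ) : ℂ := ⟨sv a, sv b⟩

def ci (a b : ℤ) : ℂ := ⟨a, b⟩

/-- the wide lane that corresponds to the narrow lane `p` -/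
def sig (n p : ℕ) : ℕ := p / 4 + p % 4 * n

/-- the narrow vectors `X`, `Y` hold the numbers `z p` up to `e p` -/
def VN (n X Y : ℕ) (z : ℕ → ℂ) (e : ℕ → ℝ) : Prop :=
  ∃ f g : ℕ → ℕ, X = pw 48 n f ∧ Y = pw 48 n g ∧ ∀ p < n, ‖cz (f p) (g p) - z p‖ ≤ e p

/-- the narrow vector `T` holds the angles `θ p`, in turns, up to `e` -/
def AN (n T : ℕ) (θ : ℕ → ℝ) (e : ℝ) : Prop :=
  ∃ t : ℕ → ℕ, T = pw 48 n t ∧ ∀ p < n, |sv (t p)| ≤ 2 ^ 43 ∧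
    ∃ m : ℤ, |sv (t p) / 2 ^ 44 - θ p - m| ≤ e

/-- the lanes of a vector of sources, with increasing keys -/
def Src (n v : ℕ) (A g m : ℕ → ℕ) : Prop :=
  v = pw 192 n (fun p => A p + g p * 2 ^ 48 + m p * 2 ^ 128) ∧ ∀ p < n, A p < 2 ^ 48 ∧
    g p < 2 ^ 72 ∧ Odd (g p) ∧ m p < 2 ^ 64 ∧
    (p + 1 < n → g p / 2 ^ 44 % 2 ^ 20 ≤ g (p + 1) / 2 ^ 44 % 2 ^ 20)

/-- the sum over the sources at the frequency `κ` -/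
def raw (n : ℕ) (A g : ℕ → ℕ) (κ : ℝ) : ℂ :=
  ((Kc ^ 2 / 2 ^ 40 : ℝ) : ℂ) * ∑ p ∈ range n, (sv (A p) : ℂ) * ee (-κ * g p / 2 ^ 64)

/-- the sources in `v` approximate `T` -/
def SrcOK (n v mI : ℕ) (T : ℕ → ℂ) (δ : ℝ) : Prop :=
  ∃ A g m, Src n v A g m ∧ (∀ p < n, |sv (A p)| ≤ 2 ^ 39) ∧ ∑ p ∈ range n, |sv (A p)| ≤ mI ∧
    ∀ k : ℕ, k < 2 ^ 23 → ‖raw n A g (k + 1 / 2) - T k‖ ≤ δ

/-- `l` is the list made by `ent` from the triples `(A, g, m)` in `es` -/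
def Ents (l : L) (es : List (ℕ × ℕ × ℕ)) : Prop :=
  toL l = es.map (fun e => (e.2.1 / 2 ^ 44 % 2 ^ 20, e.1 + (e.2.1 ||| 1) * 2 ^ 48 + e.2.2 * 2 ^ 128)) ∧
    ∀ e ∈ es, e.1 < 2 ^ 48 ∧ e.2.1 < 2 ^ 72 ∧ e.2.2 < 2 ^ 64

/-- weights of interpolation at the nodes `-6, …, 7` -/
def lw (o : ℕ) (δ : ℝ) : ℝ :=
  if o < 14 then ∏ o' ∈ (range 14).erase o, (δ + 6 - o') / ((o : ℝ) - o') else 0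

def posR (lm g : ℕ) : ℕ := g / 2 ^ (64 - lm) % 2 ^ lm

def delR (lm g : ℕ) : ℝ := (g % 2 ^ (64 - lm) : ℕ) / 2 ^ (64 - lm)

/-- `E` is a table for the sources with logarithms `g` -/
def EOK (lm d E : ℕ) (g : ℕ → ℕ) : Prop :=
  ∃ (r : ℕ → ℕ) (er ei : ℕ → ℕ → ℤ), E = pw 2880 (2 ^ d) r ∧ ∀ p < 2 ^ d, r p < 2 ^ 2880 ∧
    (r p : ℤ) = iw 192 15 (fun o => er p o + ei p o * 2 ^ 64) ∧
    ∑ o ∈ range 15, ‖ci (er p o) (ei p o) / 2 ^ 25 - ((Kc * lw o (delR lm (g p)) : ℝ) : ℂ) *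
      ee (-((posR lm (g p) : ℝ) + o - 6) ^ 2 / (2 * 2 ^ lm))‖ ≤ 3.5e-7

/-- `H` is a table of the quadratic phases -/
def HOK (lm H : ℕ) : Prop :=
  ∃ hr hi : ℕ → ℤ, (H : ℤ) = iw 192 (hN lm) (fun i => hr i + hi i * 2 ^ 64) + 2 ^ (192 * hN lm) ∧
    ∀ i < hN lm, ‖ci (hr i) (hi i) / 2 ^ 22 - ee (((i : ℝ) - hO lm) ^ 2 / (2 * 2 ^ lm))‖ ≤ 2.05e-7

/-- `G - G0` is a grid of total weight `μ` whose transform is `F j` up to `e` for `|j| ≤ J` -/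
def Grid (lm G G0 J : ℕ) (F : ℤ → ℂ) (μ e : ℝ) : Prop :=
  ∃ u v w : ℕ → ℤ, (G : ℤ) - G0 = iw 192 (gN lm) (fun i => u i + v i * 2 ^ 64 + w i * 2 ^ 128) ∧
    (∀ i < gN lm, |(u i : ℝ)| ≤ μ * 2 ^ 58 ∧ |(v i : ℝ)| ≤ μ * 2 ^ 58 ∧ |(w i : ℝ)| ≤ μ * 2 ^ 58) ∧
    ∑ i ∈ range (gN lm), ‖ci (u i - w i) (v i)‖ ≤ μ * 2 ^ 58 ∧
    ∀ j : ℤ, |j| ≤ J → ‖∑ i ∈ range (gN lm), ci (u i - w i) (v i) / 2 ^ 58 *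
      ee (((j : ℝ) - i + 6) ^ 2 / (2 * 2 ^ lm)) - ee ((j : ℝ) ^ 2 / (2 * 2 ^ lm)) * F j‖ ≤ e

/-- the tables of a chunk are made by the programs -/
def ChOK (lm d v : ℕ) (ch : Ch) : Prop :=
  ch = Ch.mk d v (mkE lm d v) (mkG lm d v (mkE lm d v))

def UOK (du : ℕ) (U : Us) : Prop := U = Us.mk (mkU 1 du) (mkU 2 du) (mkU 3 du) (mkU 4 du)
  (mkU 5 du) (mkU 6 du) (mkU 7 du) (mkU 8 du)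

def TbOK (lm : ℕ) (T : Tb) : Prop := ∃ cm c1 c2 c3 cl, T = Tb.mk (mkH lm) cm c1 c2 c3 cl ∧
  ChOK lm 13 svM cm ∧ ChOK lm 13 (slc svA 0 13) c1 ∧ ChOK lm 11 (slc svA 8192 11) c2 ∧
  ChOK lm 10 (slc svA 10240 10) c3 ∧ ChOK lm 9 svL cl

/-- the angle of the factor that all values on a block carry, for the wide lane `j` -/
def al (lm a j : ℕ) : ℝ := ((j : ℝ) - 2 ^ (a - 1)) ^ 2 / (2 * 2 ^ lm)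

/-- `X`, `Y` hold `2 ^ 36 e (al j) T (k0 + j)` up to `2 ^ 36 δ` -/
def VB (lm a k0 X Y : ℕ) (T : ℕ → ℂ) (δ : ℝ) : Prop :=
  VN (2 ^ a) X Y (fun p => 2 ^ 36 * ee (al lm a (sig (2 ^ (a - 2)) p)) *
    T (k0 + sig (2 ^ (a - 2)) p)) fun _ => 2 ^ 36 * δ

def mainT (k : ℕ) : ℂ := 3 / 4 *
  ∑' n : ℕ, (((-1) ^ n * V16 ((n + 1) / 9000) / (n + 1) : ℝ) : ℂ) * ex k (-Real.log (n + 1))

def dualT (k : ℕ) : ℂ := 3 / 4 * (chi0 (tk k) *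
  ∑' j : ℕ, (V16 ((2 * j + 1) / (tk k / (π * 9000))) : ℂ) * ex k (Real.log (2 * j + 1)))

def zT (k : ℕ) : ℂ := 3 / 2 * riemannZeta (sk k)

/-- weight of the odd number `m` in the dual sum at the frequency `κ` -/
def fD (m : ℕ) (κ : ℝ) : ℝ :=
  3 / 4 * √(Real.log 2 / κ) * V16 (m / (2 * κ / (Real.log 2 * 9000)))

/-- phase of `chi0`, in turns -/
def ph (κ : ℝ) : ℝ := -(κ / Real.log 2) * (Real.log (κ / Real.log 2) - 1) + 1 / 8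

/-- the lanes returned for a block -/
def BlkOK (lm a k0 rx ry v u : ℕ) (c0 c1 c2 : ℝ) : Prop :=
  ∃ fx fy fv fu : ℕ → ℕ, rx = pw 48 (2 ^ a) fx ∧ ry = pw 48 (2 ^ a) fy ∧ v = pw 48 (2 ^ a) fv ∧
    u = pw 48 (2 ^ a) fu ∧ ∀ p < 2 ^ a, fx p < 2 ^ 47 ∧ fy p < 2 ^ 47 ∧ fv p < 2 ^ 47 ∧
    fu p < 2 ^ 47 ∧ ‖cz (fx p) (fy p) / 2 ^ 36 - ee (al lm a (sig (2 ^ (a - 2)) p)) *
      (Gf (sk (k0 + sig (2 ^ (a - 2)) p)) - As (k0 + sig (2 ^ (a - 2)) p))‖ ≤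
      c0 + c1 * (fv p / 2 ^ 36) + c2 * (fu p / 2 ^ 36)

/-- admissible sizes -/
def Par (lm a k0 du : ℕ) : Prop :=
  5 ≤ lm ∧ lm ≤ 18 ∧ 2 ≤ a ∧ a + 2 ≤ lm ∧ a ≤ du ∧ du ≤ 16 ∧ k0 + 2 ^ a ≤ 2 ^ 23

/-- bound for the high frequencies in `[k0, k1)` -/
def HB (k0 k1 t : ℕ) : Prop := ∀ u : ℝ,
  |∑ k ∈ Ico k0 k1, 2 * (om k * (Gf (sk k) - As k) * ex k u).re| ≤ t / 2 ^ 40

/-- bound for the errors of the data in `[k0, k1)` -/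
def LB (BR BI k0 k1 t : ℕ) : Prop :=
  ∑ k ∈ Ico k0 k1, ‖om k * (Gf (sk k) - As k) / (1 + 2 * (3 : ℂ) ^ (-sk k)) *
    ee (k ^ 2 / (2 * (2 ^ 19 : ℕ))) - cx (lane BR k) (lane BI k) / 2 ^ 32‖ ≤ 0.955 * t / 2 ^ 60

/-! ### interface statements -/

def StTab : Prop :=
  (∀ b < 32, |(ta b : ℝ) / 2 ^ 44 - Real.arctan (1 / 2 ^ b) / (2 * π)| ≤ 1 / 2 ^ 44) ∧
  ta 0 = 2 ^ 41 ∧ (∀ b < 31, ta b ≤ 2 * ta (b + 1) ∧ ta (b + 1) ≤ ta b) ∧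
  (∀ b < 24, |(lb b : ℝ) / 2 ^ 36 - Real.log (1 + 1 / 2 ^ b) / (2 * π)| ≤ 1 / 2 ^ 36) ∧
  (∀ n, 20 ≤ n → n ≤ 32 → |∏ b ∈ range n, √(1 + 1 / 4 ^ b) - Kc| ≤ 2e-12) ∧
  |(9754017956498184655 : ℝ) / 2 ^ 64 + Real.log (Real.log 2) / Real.log 2| ≤ 1 / 2 ^ 56 ∧
  |(g3 : ℝ) / 2 ^ 64 - Real.log 3 / Real.log 2| ≤ 1 / 2 ^ 60

def StCord : Prop := ∀ (md : Bool) (n N : ℕ) (f g h : ℕ → ℕ), 20 ≤ N → N ≤ 30 →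
  (∀ p < n, ‖cz (f p) (g p)‖ ≤ 2 ^ 45 ∧ |sv (h p)| ≤ 2 ^ 45) →
  ∃ f' g' h' : ℕ → ℕ, cord md (ow 48 n) N (pw 48 n f) (pw 48 n g) (pw 48 n h) =
      T3.mk (pw 48 n f') (pw 48 n g') (pw 48 n h') ∧ ∀ p < n, |sv (h' p)| ≤ |sv (h p)| + 2 ^ 44 ∧
    ‖cz (f' p) (g' p) * ee (sv (h' p) / 2 ^ 44) - Kc * cz (f p) (g p) * ee (sv (h p) / 2 ^ 44)‖ ≤
      2.5 * (N + 1) + ‖cz (f p) (g p)‖ / 2 ^ 35 ∧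
    (md = false → |sv (h p)| ≤ 2 ^ 43 → |sv (h' p)| ≤ ta (N - 1))

def StRot : Prop := ∀ (n N X Y T : ℕ) (z : ℕ → ℂ) (e θ : ℕ → ℝ) (η : ℝ), 20 ≤ N → N ≤ 30 →
  VN n X Y z e → AN n T θ η → (∀ p < n, ‖z p‖ + e p ≤ 2 ^ 45) →
  ∃ X' Y', rot (ow 48 n) N X Y T = T2.mk X' Y' ∧ VN n X' Y' (fun p => Kc * z p * ee (θ p))
    fun p => 2.5 * (N + 1) + 1.647 * e p + (‖z p‖ + e p) * (3.3 / 2 ^ N + 1 / 2 ^ 34 + 10.4 * η)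

def StLag : Prop := ∀ δ : ℝ, 0 ≤ δ → δ ≤ 1 → ∑ o ∈ range 14, |lw o δ| ≤ 1.68 ∧
  ∀ x : ℝ, |x| ≤ 1 / 8 → ‖∑ o ∈ range 14, (lw o δ : ℂ) * ee (-x * (o - 6)) - ee (-x * δ)‖ ≤
    4.35e-7 * (8 * |x|) ^ 14

def StSV : Prop := ∀ (d : ℕ) (l : L) (es : List (ℕ × ℕ × ℕ)), Ents l es →
  cut (mkSV d l) (192 * 2 ^ d) = mkSV d l ∧ ∀ n, 1 ≤ n → n ≤ 2 ^ d →
  sortedV (n - 1) (cut (mkSV d l) (192 * n)) = true →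
  ∃ (A g m : ℕ → ℕ) (es' : List (ℕ × ℕ × ℕ)), Src n (cut (mkSV d l) (192 * n)) A g m ∧
    es'.Perm es ∧
    ∀ p < n, (A p, g p, m p) =
      (es'.map fun e => (e.1, e.2.1 ||| 1, e.2.2)).getD p (2 ^ 46, 2 ^ 64 - 1, 0)

def StChk : Prop := ∀ (n v mI : ℕ) (A g m : ℕ → ℕ), n ≤ 2 ^ 20 →
  v = pw 192 n (fun p => A p + g p * 2 ^ 48 + m p * 2 ^ 128) →
  (∀ p < n, A p < 2 ^ 48 ∧ g p < 2 ^ 72 ∧ m p < 2 ^ 64) → srcChk n v mI = true →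
  (∀ p < n, |sv (A p)| ≤ 2 ^ 39) ∧ ∑ p ∈ range n, |sv (A p)| ≤ mI

def StSrcM : Prop := srcChk 8192 svM mM = true → SrcOK 8192 svM mM mainT 3.4e-6

def StSrcA : Prop := srcChk 11264 svA mA = true → Nat.ble (len (lstA listA) 0) 11264 = true →
  SrcOK 11264 svA mA As 4e-8

def StSrcL : Prop := srcChk 512 svL mL = true → Nat.ble (len lstL 0) 512 = true →
  ∃ Λ : ℕ → ℂ, (∀ k, Gf (sk k) = Complex.exp (Λ k) / zT k ^ 2) ∧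
    SrcOK 512 svL mL (fun k => Λ k / (2 * π * Kc)) 4.2e-7

def StSrcD : Prop := ∀ d, 2 ≤ d → d ≤ 12 → sortedV (2 ^ d - 1) (svD d) = true →
  ∃ A g m, Src (2 ^ d) (svD d) A g m ∧
    (∀ p < 2 ^ d, 1 ≤ m p ∧ m p < 2 * 2 ^ d ∧
      |(g p : ℝ) / 2 ^ 64 - Real.log (m p) / Real.log 2| ≤ 1 / 2 ^ 61) ∧
    ∀ φ : ℕ → ℂ, ∑ p ∈ range (2 ^ d), φ (m p) = ∑ j ∈ range (2 ^ d), φ (2 * j + 1)

def StE : Prop := ∀ (lm d v : ℕ) (A g m : ℕ → ℕ), 5 ≤ lm → lm ≤ 18 → 2 ≤ d → d ≤ 14 →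
  Src (2 ^ d) v A g m → EOK lm d (mkE lm d v) g

def StH : Prop := ∀ lm, 5 ≤ lm → lm ≤ 18 → HOK lm (mkH lm)

def StAsm : Prop := ∀ (d E : ℕ) (a b q r : ℕ → ℕ), E = pw 2880 (2 ^ d) r →
  (∀ p < 2 ^ d, r p < 2 ^ 2880 ∧ a p < 2 ^ 34 ∧ b p < 2 ^ 34 ∧ q p < 2 ^ 28 ∧
    (p + 1 < 2 ^ d → q p ≤ q (p + 1))) →
  asm0 d (pw 192 (2 ^ d) fun p => q p * 2 ^ 36 + (a p + b p * 2 ^ 64)) E =
    ∑ p ∈ range (2 ^ d), (a p + b p * 2 ^ 64) * r p * 2 ^ q p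

def StGrd : Prop := ∀ (lm d v E c J : ℕ) (A g m B : ℕ → ℕ) (mI : ℝ), 5 ≤ lm → lm ≤ 18 → 2 ≤ d →
  d ≤ 14 → Src (2 ^ d) v A g m → EOK lm d E g → c < 2 ^ 26 → 8 * J ≤ 2 ^ lm →
  (∀ p < 2 ^ d, |sv (B p)| ≤ 2 ^ 39) → ∑ p ∈ range (2 ^ d), |sv (B p)| ≤ mI →
  Grid lm (grd lm d v E (pw 48 (2 ^ d) fun p => B (sig (2 ^ (d - 2)) p)) c) (mkG lm d v E) J
    (fun j => raw (2 ^ d) B g (c / 2 + j)) (4.56 * mI / 2 ^ 40 + 2 ^ d * 3.9e-10)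
    (mI / 2 ^ 40 * (1.13e-6 + 1.18e-6 * (8 * J / 2 ^ lm) ^ 14) + 2 ^ d * 3.9e-10)

def StCv : Prop := ∀ (lm S H s n T : ℕ) (sr si : ℕ → ℤ) (ν : ℝ), HOK lm H → T ≤ s + 1 →
  s + 4 * n ≤ hN lm → (S : ℤ) = iw 192 T (fun i => sr i + si i * 2 ^ 64) →
  ∑ i ∈ range T, ‖ci (sr i) (si i)‖ ≤ ν → ν ≤ 1.9 * 2 ^ 40 →
  ∃ X Y, cv lm S H s n = T2.mk X Y ∧ VN (4 * n) X Y (fun p => 4 * ∑ i ∈ range T, ci (sr i) (si i) *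
    ee (((s + sig n p : ℝ) - i - hO lm) ^ 2 / (2 * 2 ^ lm))) fun _ => ν * 8.2e-7 + 1.5

def StChn : Prop := ∀ (lm a G G0 H : ℕ) (F : ℤ → ℂ) (μ e : ℝ), 5 ≤ lm → lm ≤ 18 → 2 ≤ a →
  a + 2 ≤ lm → HOK lm H → Grid lm G G0 (2 ^ (a - 1)) F μ e → μ ≤ 30 →
  ∃ X Y, chn lm a G G0 H = T2.mk X Y ∧ VN (2 ^ a) X Y
    (fun p => 2 ^ 36 * ee (al lm a (sig (2 ^ (a - 2)) p)) * F ((sig (2 ^ (a - 2)) p : ℤ) - 2 ^ (a - 1)))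
    fun _ => 2 ^ 36 * (e + μ * 2.05e-7 + 2 ^ lm * 4.2e-11 + 9e-10)

def StChn1 : Prop := ∀ (lm a k0 du d v mI : ℕ) (ch : Ch) (T : ℕ → ℂ) (δ : ℝ), Par lm a k0 du →
  2 ≤ d → d ≤ 14 → mI ≤ 6 * 2 ^ 40 → ChOK lm d v ch → SrcOK (2 ^ d) v mI T δ →
  ∃ X Y, chn1 lm a k0 (mkH lm) ch = T2.mk X Y ∧ VB lm a k0 X Y T (δ + eCh (2 ^ d) mI lm a)

def StChn3 : Prop := ∀ (lm a k0 du v mI : ℕ) (c1 c2 c3 : Ch) (T : ℕ → ℂ) (δ : ℝ), Par lm a k0 du →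
  mI ≤ 6 * 2 ^ 40 → ChOK lm 13 (slc v 0 13) c1 → ChOK lm 11 (slc v 8192 11) c2 →
  ChOK lm 10 (slc v 10240 10) c3 → SrcOK 11264 v mI T δ →
  ∃ X Y, chn3 lm a k0 (mkH lm) c1 c2 c3 = T2.mk X Y ∧ VB lm a k0 X Y T (δ + eCh 11264 mI lm a)

def StPow : Prop := ∀ (a du : ℕ), 2 ≤ a → a ≤ du → du ≤ 16 →
  (∀ e ≤ 8, pre a (mkU e du) = pw 192 (2 ^ a) fun j => (2 * j + 1) ^ e) ∧
  ∃ f : ℕ → ℕ, sqj a (mkU 1 du) (mkU 2 du) = pw 192 (2 ^ a) f ∧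
    ∀ j < 2 ^ a, (f j : ℝ) = 4 * ((j : ℝ) - 2 ^ (a - 1)) ^ 2

def StRmp : Prop := ∀ (n a : ℕ) (j f g f0 g0 : ℕ → ℕ), 1 ≤ a → a ≤ 16 → (∀ p < n, j p < 2 ^ a ∧
    ‖cz (f p) (g p)‖ ≤ 2 ^ 44 ∧ ‖cz (f0 p) (g0 p)‖ ≤ 2 ^ 44) →
  ∃ X Y, rmp (ow 48 n) (pw 48 n fun p => 2 * j p + 1) a (pw 48 n f) (pw 48 n g) (pw 48 n f0)
      (pw 48 n g0) a = T2.mk X Y ∧ VN n X Y (fun p => cz (f0 p) (g0 p) +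
    (((2 * j p + 1 - 2 ^ a) / 2 ^ a : ℝ) : ℂ) * cz (f p) (g p)) fun _ => 1.5 * a

/-- interpolation of the weights at three points -/
def StInt : Prop := ∀ (m : ℕ) (k B y : ℝ), 1 ≤ m → 0 < k → 0 < B → |y| ≤ 1 →
  |fD m (k + B / 2 + y * (B / 2)) - (fD m (k + B / 2) + y * ((fD m (k + B) - fD m k) / 2 +
      y * ((fD m (k + B) - 2 * fD m (k + B / 2) + fD m k) / 2)))| ≤
    (B / (2 * k)) ^ 3 * (0.385 / 6) * (3 / 4 * √(Real.log 2 / k)) *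
      V16 (m / (2 * (k + B) / (Real.log 2 * 9000))) *
      (5340 * (1 - V16 (m / (2 * k / (Real.log 2 * 9000)))) + 1.875)

/-- the dual sum in terms of `fD` and `ph`, its tail and its size -/
def StDT : Prop := (∀ k N : ℕ, ∀ k0 k1 : ℝ, 1 ≤ N → 0 < k0 → k0 ≤ k + 1 / 2 → k + 1 / 2 ≤ k1 →
    ‖dualT k - ee (ph (k + 1 / 2)) * ∑ j ∈ range N, (fD (2 * j + 1) (k + 1 / 2) : ℂ) *
      ee ((k + 1 / 2) * (Real.log (2 * j + 1 : ℕ) / Real.log 2))‖ ≤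
      3 / 4 * √(Real.log 2 / k0) * (2 * k1 / (Real.log 2 * 9000)) ^ 16 *
        ((1 + N / 15) / (2 * N) ^ 16)) ∧
  (∀ k < 2 ^ 23, ‖dualT k‖ ≤ 2) ∧ (∀ k < 1024, ‖dualT k‖ ≤ 1e-9) ∧
  ∀ k < 2048, ‖dualT k‖ ≤ 1.7e-5

def StPh : Prop := ∀ (lm a k0 du c e : ℕ) (U : Us), Par lm a k0 du → UOK du U → c ≤ 8191 →
  k0 = (2 * c + 1) * 2 ^ e → 2048 ≤ k0 → 2 ^ a ≤ k0 →
  AN (2 ^ a) (angW (2 ^ (a - 2)) (phD lm a k0 (lam c e) U) 116)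
    (fun p => ph (k0 + sig (2 ^ (a - 2)) p + 1 / 2) + 2 * al lm a (sig (2 ^ (a - 2)) p))
    (1e-7 + 0.02004 * 2 ^ a * (2 ^ a / k0) ^ 8)

/-- the fields of `dw` -/
def StDw : Prop := ∀ (k B A g m : ℕ), 2048 ≤ k → 1 ≤ B → k + 2 * B ≤ 2 ^ 23 → 1 ≤ m → A < 2 ^ 48 →
  g < 2 ^ 72 → isqOk (dA k) (isq (dA k)) = true → isqOk (dA (k + B)) (isq (dA (k + B))) = true →
  isqOk (dA (k + 2 * B)) (isq (dA (k + 2 * B))) = true →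
  ∃ w0 w1 w2 q s : ℕ, dw (isq (dA k) / 2 ^ 16) (isq (dA (k + B)) / 2 ^ 16)
      (isq (dA (k + 2 * B)) / 2 ^ 16) (dR k) (dR (k + B)) (dR (k + 2 * B))
      (A + g * 2 ^ 48 + m * 2 ^ 128) = w0 + w1 * 2 ^ 48 + w2 * 2 ^ 96 + q * 2 ^ 144 + s * 2 ^ 168 ∧
    q < 2 ^ 24 ∧ s < 2 ^ 24 ∧ |sv w0| + |sv w1| + |sv w2| ≤ s * 2 ^ 16 ∧ s ≤ 2 ^ 23 ∧
    |sv w0 - 2 ^ 44 / Kc ^ 3 * fD m (k + B)| +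
      |sv w1 - 2 ^ 44 / Kc ^ 3 * ((fD m (k + 2 * B) - fD m k) / 2)| +
      |sv w2 - 2 ^ 44 / Kc ^ 3 * ((fD m (k + 2 * B) - 2 * fD m (k + B) + fD m k) / 2)| ≤ 10 ∧
    2 ^ 44 / Kc ^ 3 * (3 / 4 * √(Real.log 2 / k)) *
      V16 (m / (2 * (k + 2 * B) / (Real.log 2 * 9000))) *
      (5340 * (1 - V16 (m / (2 * k / (Real.log 2 * 9000)))) + 1.875) ≤ (q + 1) * 2 ^ 26 ∧
    2 ^ 44 / Kc ^ 3 * (3 / 4 * √(Real.log 2 / k)) ≤ (isq (dA k) : ℝ) / 2 ^ 16 + 1 ∧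
    (2 * (k + 2 * B) / (Real.log 2 * 9000)) ^ 16 ≤ (dR (k + 2 * B) + 1) / 2 ^ 64 * 1.00001

def StDual : Prop := ∀ (lm a k0 du c e d : ℕ) (U : Us) (ch : Ch), Par lm a k0 du → UOK du U →
  c ≤ 8191 → 2048 ≤ k0 → 2 ^ a ≤ k0 → 2 ≤ d → d ≤ 12 → sortedV (2 ^ d - 1) (svD d) = true →
  ChOK lm d (svD d) ch →
  ∃ f x y q m, dual lm a k0 c e (mkH lm) U ch = T5.mk f x y q m ∧
    (f = true → VB lm a k0 x y dualT (eDual lm a k0 d q m))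

def StExp : Prop := ∀ (n : ℕ) (r : ℕ → ℕ) (c : ℕ), (∀ p < n, |sv (r p)| ≤ 2 ^ 45) → 2 ^ 28 ≤ c →
  c ≤ 2 ^ 29 → ∃ (r' v : ℕ → ℕ) (P : ℕ → ℝ), expS (ow 48 n) 25 0 (pw 48 n r) (pw 48 n fun _ => c) =
      T2.mk (pw 48 n r') (pw 48 n v) ∧ ∀ p < n, r' p < 2 ^ 47 ∧ 1 ≤ P p ∧ P p ≤ 19.1 ∧
    |2 * π * (sv (r p) - sv (r' p)) / 2 ^ 36 - Real.log (P p)| ≤ 3e-9 ∧
    c * P p * (1 - 1e-7) ≤ v p ∧ (v p : ℝ) ≤ c * P p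

def StNrm : Prop := ∀ (n : ℕ) (r v : ℕ → ℕ),
  (∀ p < n, r p ≤ 2 ^ 42 ∧ 2 ^ 28 - 27 ≤ v p ∧ (v p : ℝ) ≤ 19.1 * 2 ^ 29) →
  ∃ (r' v' u : ℕ → ℕ) (P : ℕ → ℝ), nrmS (ow 48 n) 25 0 (pw 48 n r) (pw 48 n v) (pw 48 n v) =
      T3.mk (pw 48 n r') (pw 48 n v') (pw 48 n u) ∧ ∀ p < n, 1 ≤ P p ∧ P p ≤ 19.1 ∧
    r p * P p - 480 ≤ r' p ∧ (r' p : ℝ) ≤ r p * P p ∧
    v p * P p ^ 2 * (1 - 2e-7) ≤ v' p ∧ (v' p : ℝ) ≤ v p * P p ^ 2 ∧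
    v p * P p ^ 3 * (1 - 3e-7) ≤ u p ∧ (u p : ℝ) ≤ v p * P p ^ 3

def StCore : Prop := ∀ (n zx zy lx ly ax ay tl t3 : ℕ) (z Λ A : ℕ → ℂ) (α : ℕ → ℝ) (δz δl δa : ℝ),
  VN n zx zy (fun p => 2 ^ 36 * ee (α p) * z p) (fun _ => 2 ^ 36 * δz) →
  VN n lx ly (fun p => 2 ^ 36 * ee (α p) * (Λ p / (2 * π * Kc))) (fun _ => 2 ^ 36 * δl) →
  VN n ax ay (fun p => 2 ^ 36 * ee (α p) * A p) (fun _ => 2 ^ 36 * δa) →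
  AN n tl (fun p => -α p) 0 → AN n t3 (fun p => 3 * α p) 0 →
  (∀ p < n, ‖z p‖ ≤ 16 ∧ ‖Λ p / (2 * π * Kc)‖ ≤ 0.125 ∧ ‖A p‖ ≤ 64) →
  δz ≤ 6e-4 → δl ≤ 2e-5 → δa ≤ 1 →
  ∃ (b : Bool) (rx ry v u : ℕ), core (ow 48 n) zx zy lx ly ax ay tl t3 = T5.mk b rx ry v u ∧
    (b = true → ∃ fx fy fv fu : ℕ → ℕ, rx = pw 48 n fx ∧ ry = pw 48 n fy ∧ v = pw 48 n fv ∧
    u = pw 48 n fu ∧ ∀ p < n,
    fx p < 2 ^ 47 ∧ fy p < 2 ^ 47 ∧ fv p < 2 ^ 47 ∧ fu p < 2 ^ 47 ∧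
    ‖cz (fx p) (fy p) / 2 ^ 36 - ee (α p) * (Complex.exp (Λ p) / z p ^ 2 - A p)‖ ≤
      δa + 1e-9 + (17.5 * δl + 5e-6) * (fv p / 2 ^ 36) + (0.69 * δz + 1e-6) * (fu p / 2 ^ 36))

/-- the checks on the vectors of sources -/
def SrcRun : Prop := srcChk 8192 svM mM = true ∧ srcChk 11264 svA mA = true ∧
  Nat.ble (len (lstA listA) 0) 11264 = true ∧ srcChk 512 svL mL = true ∧
  Nat.ble (len lstL 0) 512 = true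

def StBlk : Prop := SrcRun → ∀ (lm a k0 du dx dy : ℕ) (U : Us) (T : Tb) (δ : ℚ), Par lm a k0 du →
  UOK du U → TbOK lm T → δ ≤ 5e-4 → VB lm a k0 dx dy dualT δ →
  ∃ f rx ry v u, blk lm a k0 U T dx dy = T5.mk f rx ry v u ∧ (f = true →
    BlkOK lm a k0 rx ry v u (e0 (eA lm a)) (e1 (eL lm a)) (e2 (eZ lm a δ)))

/-- the synthesis: values on the grid -/
def StSyn : Prop := ∀ (lm a t : ℕ) (fx fy : ℕ → ℕ), 5 ≤ lm → lm ≤ 18 → 2 ≤ a → a + 2 ≤ lm →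
  t ≤ 2 ^ 40 → (∀ p < 2 ^ a, |sv (fx p)| ≤ 2 ^ 36 ∧ |sv (fy p)| ≤ 2 ^ 36) →
  ∃ X Y, syn lm a (mkH lm) (pw 48 (2 ^ a) fx) (pw 48 (2 ^ a) fy) = T2.mk X Y ∧
    (oct (oN (p2 (lm - 2))) X Y t = true → ∃ c : ℕ → ℂ,
      (∀ p < 2 ^ a, ‖c (sig (2 ^ (a - 2)) p) -
        cz (fx p) (fy p) / 2 ^ 36 * ee (-al lm a (sig (2 ^ (a - 2)) p))‖ ≤ 4.3e-8) ∧
      ∀ i : ℕ, i < 2 ^ lm → ‖PP (2 ^ (a - 1)) c ((i : ℝ) / (2 ^ lm : ℕ))‖ ≤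
        13 * t / 2 ^ 26 + 2 ^ a * 3e-7 + 1e-6)

def StHi : Prop := SrcRun → ∀ (lm a k0 du c e d t thr : ℕ) (U : Us) (T : Tb) (ch : Ch),
  Par lm a k0 du → UOK du U → TbOK lm T → c ≤ 8191 → 2048 ≤ k0 → 2 ^ a ≤ k0 → 2 ≤ d → d ≤ 12 →
  sortedV (2 ^ d - 1) (svD d) = true → ChOK lm d (svD d) ch → t ≤ 2 ^ 40 →
  hiChk lm a k0 c e t thr U T ch = true → HB k0 (k0 + 2 ^ a) thr

def StQv : Prop := ∀ (lm a k0 du : ℕ) (U : Us), Par lm a k0 du → UOK du U → k0 + 2 ^ a ≤ 2 ^ 16 →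
  ∃ X Y, qv lm a k0 U = T2.mk X Y ∧ VN (2 ^ a) X Y (fun p => 2 ^ 40 *
    ((1 + 2 * (3 : ℂ) ^ (-sk (k0 + sig (2 ^ (a - 2)) p))) * ee (al lm a (sig (2 ^ (a - 2)) p) -
      ((k0 + sig (2 ^ (a - 2)) p : ℕ) : ℝ) ^ 2 / 2 ^ 20))) fun _ => 2 ^ 40 * 2.1e-7

/-- one datum -/
def StLo1 : Prop := ∀ (k a0 a1 a2 a4 x y v u qx qy br bi : ℕ) (R : ℂ) (α c0 c1 c2 : ℝ), k < 2 ^ 16 →
  x < 2 ^ 48 → y < 2 ^ 48 → v < 2 ^ 48 → qx < 2 ^ 48 → br < 2 ^ 32 → bi < 2 ^ 32 →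
  0 ≤ c0 → 0 ≤ c1 → 0 ≤ c2 →
  c0 * 1.0004 * 2 ^ 112 ≤ a0 → c1 * 1.0004 * 2 ^ 76 ≤ a1 → c2 * 1.0004 * 2 ^ 76 ≤ a2 →
  5 * (k + 1) ^ 2 * 2 ^ 30 ≤ a4 →
  ‖cz x y / 2 ^ 36 - ee α * R‖ ≤ c0 + c1 * (v / 2 ^ 36) + c2 * (u / 2 ^ 36) →
  ‖cz qx qy - 2 ^ 40 * ((1 + 2 * (3 : ℂ) ^ (-sk k)) * ee (α - (k : ℝ) ^ 2 / 2 ^ 20))‖ ≤
    2 ^ 40 * 2.1e-7 →
  ‖om k * R / (1 + 2 * (3 : ℂ) ^ (-sk k)) * ee (k ^ 2 / (2 * (2 ^ 19 : ℕ))) - cx br bi / 2 ^ 32‖ ≤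
    0.955 * lo1 a0 a1 a2 a4 (2 * k + 1) (x + y * 2 ^ 48 + v * 2 ^ 96 + u * 2 ^ 144)
      (qx + qy * 2 ^ 64) (br + bi * 2 ^ 32) / 2 ^ 60

def StLo0 : Prop := SrcRun → ∀ (lm a k0 du thr BR BI dx dy : ℕ) (U : Us) (T : Tb) (δ : ℚ),
  Par lm a k0 du → UOK du U → TbOK lm T → k0 + 2 ^ a ≤ 2 ^ 16 → 0 ≤ δ →
  VB lm a k0 dx dy dualT δ → loChk0 lm a k0 thr BR BI U T dx dy δ = true →
  LB BR BI k0 (k0 + 2 ^ a) thr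

def StLo : Prop := SrcRun → (∀ (lm a k0 du c e d thr BR BI : ℕ) (U : Us) (T : Tb) (ch : Ch),
    Par lm a k0 du → UOK du U → TbOK lm T → c ≤ 8191 → 2048 ≤ k0 → 2 ^ a ≤ k0 → 2 ≤ d → d ≤ 12 →
    sortedV (2 ^ d - 1) (svD d) = true → ChOK lm d (svD d) ch → k0 + 2 ^ a ≤ 2 ^ 16 →
    loChk lm a k0 c e thr BR BI U T ch = true → LB BR BI k0 (k0 + 2 ^ a) thr) ∧
  ∀ (lm du thr BR BI : ℕ) (U : Us) (T : Tb), 12 ≤ lm → lm ≤ 18 → 10 ≤ du → du ≤ 16 → UOK du U →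
    TbOK lm T → (loChkN lm 10 0 thr BR BI U T 1e-9 = true → LB BR BI 0 1024 thr) ∧
      (loChkN lm 10 1024 thr BR BI U T 1.7e-5 = true → LB BR BI 1024 2048 thr)

end

end Pool.Agent.Lib.MP_5db4ad_nt.NE
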