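import Pool.Agent.Lib.MP_5db4ad_nt.H96Gm

/-! Stechkin's device: positivity of the paired terms, and the basic inequalities. -/

open Complex Filter Topology Finset
open scoped ComplexConjugate ArithmeticFunction.vonMangoldt

namespace H96Z

noncomputable def XX (σ τ : ℝ) : ℝ := DD σ τ - 4 / 9 * DD (13 / 8) τ

theorem XX_pos {ι : Type*} {σ : ℝ} (h1 : 1 < σ) (h2 : σ ≤ 13 / 8) (s : Finset ι) (a τ : ι → ℝ)
    (h : ∀ y : ℝ, 0 ≤ ∑ j ∈ s, a j * Real.cos (τ j * y)) : ∑ j ∈ s, a j * XX σ (τ j) ≤ 0 := by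
  have h3 : ∀ j ∈ s, HasSum (fun n : ℕ => (Λ n * (n : ℝ) ^ (-σ) - 4 / 9 * (Λ n * (n : ℝ) ^ (-(13 / 8 : ℝ)))) *
      (a j * Real.cos (τ j * Real.log n))) (-(a j * XX σ (τ j))) := by
    intro j _
    have := ((hasSum_DD h1 (τ j)).sub
      ((hasSum_DD (by norm_num : (1 : ℝ) < 13 / 8) (τ j)).mul_left (4 / 9))).mul_left (a j)
    have e : a j * (-DD σ (τ j) - 4 / 9 * -DD (13 / 8) (τ j)) = -(a j * XX σ (τ j)) := by
      rw [XX]
      ring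
    rw [e] at this
    refine this.congr_fun fun n => ?_
    ring
  have h4 := hasSum_sum h3
  have h5 := h4.nonneg fun n => by
    rw [← mul_sum]
    refine mul_nonneg ?_ (h _)
    rcases Nat.eq_zero_or_pos n with rfl | hn
    · simp
    · have hn' : (1 : ℝ) ≤ n := by exact_mod_cast hn
      have h6 : (n : ℝ) ^ (-(13 / 8 : ℝ)) ≤ (n : ℝ) ^ (-σ) :=
        Real.rpow_le_rpow_of_exponent_le hn' (by linarith)
      have h7 : (0 : ℝ) ≤ Λ n := ArithmeticFunction.vonMangoldt_nonneg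
      have h8 : (0 : ℝ) ≤ (n : ℝ) ^ (-(13 / 8 : ℝ)) := by positivity
      nlinarith [mul_le_mul_of_nonneg_left h6 h7, mul_nonneg h7 h8]
  rw [sum_neg_distrib] at h5
  linarith

theorem FF_eq (σ τ : ℝ) (ρ : ℂ) : FF (σ + τ * I) ρ =
    (σ - ρ.re) / ((σ - ρ.re) ^ 2 + (τ - ρ.im) ^ 2) +
      (σ - 1 + ρ.re) / ((σ - 1 + ρ.re) ^ 2 + (τ - ρ.im) ^ 2) := by
  have e1 : (σ : ℂ) + τ * I - ρ = ((σ - ρ.re : ℝ) : ℂ) + (τ - ρ.im : ℝ) * I := by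
    apply Complex.ext <;> simp
  have e2 : (σ : ℂ) + τ * I - (1 - conj ρ) = ((σ - 1 + ρ.re : ℝ) : ℂ) + (τ - ρ.im : ℝ) * I := by
    apply Complex.ext <;> simp
    ring
  rw [FF, e1, e2, re_inv, re_inv]

theorem FF_mirror (s ρ : ℂ) : FF s (1 - conj ρ) = FF s ρ := by
  simp [FF, add_comm]

theorem pair_eq {σ b v : ℝ} (h1 : 1 < σ) (h0 : 0 < b) (hb : b < 1) :
    (σ - b) / ((σ - b) ^ 2 + v ^ 2) + (σ - 1 + b) / ((σ - 1 + b) ^ 2 + v ^ 2) =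
      (2 * σ - 1) * ((σ * (σ - 1) + b * (1 - b) + v ^ 2) /
        ((σ * (σ - 1) + b * (1 - b) + v ^ 2) ^ 2 + v ^ 2 * (1 - 2 * b) ^ 2)) := by
  have a1 : 0 < σ - b := by linarith
  have a2 : 0 < σ - 1 + b := by linarith
  have e : (σ * (σ - 1) + b * (1 - b) + v ^ 2) ^ 2 + v ^ 2 * (1 - 2 * b) ^ 2 =
      ((σ - b) ^ 2 + v ^ 2) * ((σ - 1 + b) ^ 2 + v ^ 2) := by ring
  rw [e]
  field_simp
  ring

theorem pair_nonneg {σ : ℝ} (τ : ℝ) {ρ : ℂ} (h1 : 1 < σ) (h2 : σ ≤ 13 / 8) (hρ : xi ρ = 0) :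
    0 ≤ FF (σ + τ * I) ρ - 4 / 9 * FF ((13 / 8 : ℝ) + τ * I) ρ := by
  obtain ⟨h0, hb⟩ := xi_zero_re hρ
  rw [FF_eq, FF_eq, pair_eq h1 h0 hb, pair_eq (by norm_num) h0 hb]
  set b := ρ.re
  set v := τ - ρ.im
  set q := σ * (σ - 1) + b * (1 - b) + v ^ 2 with hq
  set q' := (13 / 8 : ℝ) * (13 / 8 - 1) + b * (1 - b) + v ^ 2 with hq'
  set e := v ^ 2 * (1 - 2 * b) ^ 2 with he
  have hbb : 0 < b * (1 - b) := mul_pos h0 (by linarith)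
  have hv : 0 ≤ v ^ 2 := sq_nonneg v
  have hq1 : v ^ 2 < q := by nlinarith
  have hq0 : 0 < q := by linarith
  have hq2 : q ≤ q' := by nlinarith
  have hq3 : 1 ≤ q' := by nlinarith
  have he0 : 0 ≤ e := by positivity
  have he1 : e ≤ q * q' := by
    have : (1 - 2 * b) ^ 2 ≤ 1 := by nlinarith
    calc e ≤ v ^ 2 * 1 := mul_le_mul_of_nonneg_left this hv
      _ ≤ q * q' := mul_le_mul hq1.le hq3 zero_le_one hq0.le
  have h3 : q' / (q' ^ 2 + e) ≤ q / (q ^ 2 + e) := by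
    rw [div_le_div_iff₀ (by positivity) (by positivity)]
    nlinarith [mul_nonneg (sub_nonneg.2 hq2) (sub_nonneg.2 he1)]
  have h4 : 0 ≤ q / (q ^ 2 + e) := by positivity
  nlinarith

theorem pair_zero {σ η : ℝ} {ρ : ℂ} (h1 : 1 < σ) (hη : 0 ≤ η) (h2 : σ ≤ 65 / 64 + η)
    (hρ : xi ρ = 0) :
    1 / (σ - ρ.re) - η ≤ FF (σ + ρ.im * I) ρ - 4 / 9 * FF ((13 / 8 : ℝ) + ρ.im * I) ρ := by
  obtain ⟨h0, hb⟩ := xi_zero_re hρ
  rw [FF_eq, FF_eq, pair_eq (σ := 13 / 8) (by norm_num) h0 hb]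
  set b := ρ.re
  have a1 : 0 < σ - b := by linarith
  have a2 : 0 < σ - 1 + b := by linarith
  have hbb : 0 < b * (1 - b) := mul_pos h0 (by linarith)
  set q' := (13 / 8 : ℝ) * (13 / 8 - 1) + b * (1 - b) with hq'
  have hq3 : 1 < q' := by nlinarith
  have e1 : (σ - b) / ((σ - b) ^ 2 + (ρ.im - ρ.im) ^ 2) = 1 / (σ - b) := by
    rw [sub_self]
    field_simp
    ring
  have e2 : (σ - 1 + b) / ((σ - 1 + b) ^ 2 + (ρ.im - ρ.im) ^ 2) = 1 / (σ - 1 + b) := by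
    rw [sub_self]
    field_simp
    ring
  have e3 : 4 / 9 * ((2 * (13 / 8) - 1) * ((q' + (ρ.im - ρ.im) ^ 2) /
      ((q' + (ρ.im - ρ.im) ^ 2) ^ 2 + (ρ.im - ρ.im) ^ 2 * (1 - 2 * b) ^ 2))) = 1 / q' := by
    rw [sub_self]
    field_simp
    ring
  rw [e1, e2, e3]
  have h3 : 1 / q' ≤ 1 / (σ - 1 + b) + η := by
    by_cases h : σ - 1 + b ≤ q'
    · have := one_div_le_one_div_of_le a2 h
      linarith
    · push Not at h
      have h4 : σ - 1 + b - q' ≤ η := by nlinarith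
      rw [div_add' _ _ _ a2.ne', div_le_div_iff₀ (by linarith) a2]
      have h5 : 1 ≤ (σ - 1 + b) * q' := by nlinarith
      nlinarith
  linarith

theorem two_le_sum {Z : Multiset ℂ} {f : ℂ → ℝ} (hf : ∀ x ∈ Z, 0 ≤ f x) {a b : ℂ} (ha : a ∈ Z)
    (hb : b ∈ Z) (hab : b ≠ a) : f a + f b ≤ (Z.map f).sum := by
  obtain ⟨Z1, rfl⟩ := Multiset.exists_cons_of_mem ha
  obtain ⟨Z2, rfl⟩ := Multiset.exists_cons_of_mem ((Multiset.mem_cons.1 hb).resolve_left hab)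
  rw [Multiset.map_cons, Multiset.map_cons, Multiset.sum_cons, Multiset.sum_cons]
  have : 0 ≤ (Z2.map f).sum := Multiset.sum_nonneg fun x hx => by
    obtain ⟨y, hy, rfl⟩ := Multiset.mem_map.1 hx
    exact hf y (Multiset.mem_cons_of_mem (Multiset.mem_cons_of_mem hy))
  linarith

theorem DD_eq {σ τ : ℝ} (h0 : 0 < σ) (h1 : (σ : ℂ) + τ * I ≠ 1) (hz : xi (σ + τ * I) ≠ 0) :
    DD σ τ = (logDeriv xi (σ + τ * I)).re - Gm (σ + τ * I) := by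
  have h2 : 0 < ((σ : ℂ) + τ * I).re := by simpa using h0
  exact logDeriv_zeta_eq h2 h1 ((xi_ne_zero_iff h2 h1).1 hz)

theorem ne_one_of_lt {σ τ : ℝ} (h1 : 1 < σ) : (σ : ℂ) + τ * I ≠ 1 := by
  intro h
  have := congrArg re h
  simp at this
  linarith

theorem stech_aux {σ : ℝ} (τ : ℝ) (h1 : 1 < σ) (B : ℝ) {ε : ℝ} (hε : 0 < ε) :
    ∃ Z : Multiset ℂ, (∀ ρ ∈ Z, xi ρ = 0) ∧ (∀ ρ, ‖ρ‖ ≤ B → xi ρ = 0 → ρ ∈ Z) ∧
      (Z.map fun ρ => FF (σ + τ * I) ρ - 4 / 9 * FF ((13 / 8 : ℝ) + τ * I) ρ).sum / 2 ≤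
        XX σ τ + Gm (σ + τ * I) - 4 / 9 * Gm ((13 / 8 : ℝ) + τ * I) + ε := by
  obtain ⟨Z, hZ, hZ', h⟩ := had_xi
    (max B (max ‖(σ : ℂ) + τ * I‖ ‖((13 / 8 : ℝ) : ℂ) + τ * I‖)) (half_pos hε)
  have hx1 : xi (σ + τ * I) ≠ 0 := xi_ne_zero (by simpa using h1.le)
  have hx2 : xi ((13 / 8 : ℝ) + τ * I) ≠ 0 := xi_ne_zero (by simp; norm_num)
  have h3 := abs_le.1 (h _ ((le_max_left _ _).trans (le_max_right _ _)) hx1)
  have h4 := abs_le.1 (h _ ((le_max_right _ _).trans (le_max_right _ _)) hx2)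
  refine ⟨Z, hZ, fun ρ a b => hZ' ρ (a.trans (le_max_left _ _)) b, ?_⟩
  rw [Multiset.sum_map_sub, Multiset.sum_map_mul_left, XX,
    DD_eq (by linarith) (ne_one_of_lt h1) hx1, DD_eq (by norm_num) (ne_one_of_lt (by norm_num)) hx2]
  linarith [h3.1, h3.2, h4.1, h4.2]

theorem stech_Gm {σ τ : ℝ} (h1 : 1 < σ) (h2 : σ ≤ 13 / 8) (hτ : 6 ≤ |τ|) :
    Gm (σ + τ * I) - 4 / 9 * Gm ((13 / 8 : ℝ) + τ * I) ≤
      5 / 18 * Real.log (|τ| / (2 * Real.pi)) + 13 / 3 / |τ| := by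
  have h3 := abs_le.1 (Gm_bound (σ := σ) (by linarith) (by linarith) hτ)
  have h4 := abs_le.1 (Gm_bound (σ := 13 / 8) (by norm_num) (by norm_num) hτ)
  have : 13 / 3 / |τ| = 13 / 9 * (3 / |τ|) := by ring
  linarith [h3.2, h4.1]

/-- Lower bound for `XX` at height at least six. -/
theorem XX_lower {σ τ : ℝ} (h1 : 1 < σ) (h2 : σ ≤ 13 / 8) (hτ : 6 ≤ |τ|) :
    -XX σ τ ≤ 5 / 18 * Real.log (|τ| / (2 * Real.pi)) + 13 / 3 / |τ| := by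
  refine le_of_forall_pos_le_add fun ε hε => ?_
  obtain ⟨Z, hZ, -, h⟩ := stech_aux τ h1 0 hε
  have h3 : 0 ≤ (Z.map fun ρ => FF (σ + τ * I) ρ - 4 / 9 * FF ((13 / 8 : ℝ) + τ * I) ρ).sum :=
    Multiset.sum_nonneg fun x hx => by
      obtain ⟨y, hy, rfl⟩ := Multiset.mem_map.1 hx
      exact pair_nonneg τ h1 h2 (hZ y hy)
  linarith [stech_Gm h1 h2 hτ]

/-- A zero to the right of the critical line makes `XX` large. -/
theorem XX_zero {σ η : ℝ} {ρ : ℂ} (h1 : 1 < σ) (h2 : σ ≤ 13 / 8) (hη : 0 ≤ η)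
    (h3 : σ ≤ 65 / 64 + η) (hρ : xi ρ = 0) (hb : 1 / 2 < ρ.re) (hτ : 6 ≤ |ρ.im|) :
    1 / (σ - ρ.re) ≤
      XX σ ρ.im + 5 / 18 * Real.log (|ρ.im| / (2 * Real.pi)) + 13 / 3 / |ρ.im| + η := by
  refine le_of_forall_pos_le_add fun ε hε => ?_
  obtain ⟨Z, hZ, hZ', h⟩ := stech_aux ρ.im h1 (‖ρ‖ + 1) hε
  have hm : xi (1 - conj ρ) = 0 := by rw [xi_mirror, hρ, map_zero]
  have h4 := two_le_sum (fun x hx => pair_nonneg ρ.im h1 h2 (hZ x hx)) (a := ρ) (b := 1 - conj ρ)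
    (hZ' _ (by linarith) hρ) (hZ' _ (by
      have := norm_sub_le 1 (conj ρ)
      rw [norm_one, norm_conj] at this
      linarith) hm) (by
      intro h5
      have := congrArg re h5
      simp at this
      linarith)
  simp only [FF_mirror] at h4
  linarith [stech_Gm h1 h2 hτ, pair_zero h1 hη h3 hρ]

theorem logDeriv_xi_nonneg {σ : ℝ} (τ : ℝ) (h1 : 1 < σ) : 0 ≤ (logDeriv xi (σ + τ * I)).re := by
  refine le_of_forall_pos_le_add fun ε hε => ?_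
  obtain ⟨Z, hZ, -, h⟩ := had_xi ‖(σ : ℂ) + τ * I‖ hε
  have h3 := abs_le.1 (h _ le_rfl (xi_ne_zero (by simpa using h1.le)))
  have h4 : 0 ≤ (Z.map (FF (σ + τ * I))).sum :=
    Multiset.sum_nonneg fun x hx => by
      obtain ⟨y, hy, rfl⟩ := Multiset.mem_map.1 hx
      obtain ⟨h0, hb⟩ := xi_zero_re (hZ y hy)
      rw [FF_eq]
      have a1 : 0 < σ - y.re := by linarith
      have a2 : 0 < σ - 1 + y.re := by linarith
      positivity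
  linarith [h3.1]

theorem DD_real {σ : ℝ} (h1 : 1 < σ) (h2 : σ < 2) (m : ℕ) :
    -DD σ 0 ≤ 1 / (σ - 1) + (Real.log (σ / 2 + (m + 1)) -
      ∑ j ∈ range m, 1 / (σ / 2 + (j + 1)) - Real.log Real.pi) / 2 := by
  have h3 := logDeriv_xi_nonneg 0 h1
  have h4 := Gm_real (σ := σ) (by linarith) h2 m
  rw [DD_eq (by linarith) (ne_one_of_lt h1) (xi_ne_zero (by simpa using h1.le))]
  simp only [ofReal_zero, zero_mul, add_zero] at h3 ⊢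
  linarith

end H96Z
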