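import Pool.Agent.Lib.MP_5db4ad_nt.H96Ste

/-! Explicit constants, the trigonometric inequality and the rank lemma. -/

open Complex Filter Topology Finset
open scoped ComplexConjugate ArithmeticFunction.vonMangoldt

namespace H96Z

theorem log_small {T L : ℝ} (hT : 6 ≤ T) (hL : 17 ≤ L) (h : Real.log (T / (2 * Real.pi)) ≤ L) :
    5 / 18 * Real.log (T / (2 * Real.pi)) + 13 / 3 / T ≤ 0.27778 * L := by
  by_cases h1 : 1000000 ≤ T
  · have : 13 / 3 / T ≤ 13 / 3 / 1000000 := by gcongr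
    linarith
  · have h2 : 13 / 3 / T ≤ 13 / 3 / 6 := by gcongr
    have hpi := Real.pi_gt_three
    have h3 : T / (2 * Real.pi) ≤ 2 ^ 18 := by
      rw [div_le_iff₀ (by positivity)]
      nlinarith
    have h4 := Real.log_le_log (by positivity) h3
    rw [Real.log_pow] at h4
    have := Real.log_two_lt_d9
    push_cast at h4
    linarith

theorem s2_facts {L : ℝ} (hL : 17 ≤ L) : 1 < 1 + 1 / (3 * L) ∧ 1 + 1 / (3 * L) ≤ 1 + 1 / 51 := by
  have : 0 < 1 / (3 * L) := by positivity
  have : 1 / (3 * L) ≤ 1 / 51 := one_div_le_one_div_of_le (by norm_num) (by linarith)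
  constructor <;> linarith

theorem XX_low {L τ σ : ℝ} (hL : 17 ≤ L) (h1 : 1 < σ) (h2 : σ ≤ 13 / 8) (hτ : 6 ≤ |τ|)
    (h : Real.log (|τ| / (2 * Real.pi)) ≤ L) : -XX σ τ ≤ 0.27778 * L :=
  (XX_lower h1 h2 hτ).trans (log_small hτ hL h)

theorem log_le_of {x y : ℝ} (hx : 0 < x) (hy : 0 ≤ y)
    (h : x ≤ 1 + y + y ^ 2 / 2 + y ^ 3 / 6 + y ^ 4 / 24) : Real.log x ≤ y := by
  rw [Real.log_le_iff_le_exp hx]
  refine h.trans (le_trans (le_of_eq ?_) (Real.sum_le_exp_of_nonneg hy 5))
  simp only [sum_range_succ, Nat.factorial]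
  norm_num

theorem DD13_le : -DD (13 / 8) 0 ≤ 1.224 := by
  have h := DD_real (σ := 13 / 8) (by norm_num) (by norm_num) 4
  simp only [sum_range_succ, range_zero, sum_empty] at h
  have hpi := Real.pi_gt_d4
  have h1 : Real.log ((13 / 8 / 2 + ((4 : ℕ) + 1)) / Real.pi) ≤ 0.62 := by
    refine log_le_of (by positivity) (by norm_num) ?_
    rw [div_le_iff₀ (by positivity)]
    push_cast
    nlinarith
  rw [Real.log_div (by positivity) Real.pi_ne_zero] at h1
  push_cast at h h1
  norm_num at h h1 ⊢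
  linarith

theorem rpow13 {n b : ℝ} (hn : 0 < n) (h : b ^ 8 * n ^ 13 ≤ 1) : b ≤ n ^ (-(13 / 8 : ℝ)) := by
  have h1 : (n ^ (-(13 / 8 : ℝ))) ^ 8 * n ^ 13 = 1 := by
    rw [← Real.rpow_natCast, ← Real.rpow_mul hn.le, ← Real.rpow_natCast, ← Real.rpow_add hn]
    norm_num
  refine le_of_pow_le_pow_left₀ (n := 8) (by norm_num) (by positivity) ?_
  rw [← h1] at h
  exact le_of_mul_le_mul_right h (by positivity)

theorem DD13_ge : 0.66 ≤ -DD (13 / 8) 0 := by
  have h := hasSum_DD (σ := 13 / 8) (by norm_num) 0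
  simp only [zero_mul, Real.cos_zero, mul_one] at h
  have h1 := sum_le_hasSum ({2, 3, 4, 5, 7} : Finset ℕ) (fun n _ =>
    mul_nonneg ArithmeticFunction.vonMangoldt_nonneg (by positivity)) h
  refine le_trans ?_ h1
  have e4 : Λ 4 = Λ 2 := ArithmeticFunction.vonMangoldt_apply_pow (n := 2) (k := 2) (by norm_num)
  rw [sum_insert (by decide), sum_insert (by decide), sum_insert (by decide),
    sum_insert (by decide), sum_singleton, e4,
    ArithmeticFunction.vonMangoldt_apply_prime Nat.prime_two,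
    ArithmeticFunction.vonMangoldt_apply_prime Nat.prime_three,
    ArithmeticFunction.vonMangoldt_apply_prime Nat.prime_five,
    ArithmeticFunction.vonMangoldt_apply_prime (by norm_num : Nat.Prime 7)]
  push_cast
  have l2 := Real.log_two_gt_d9
  have lg : ∀ (n : ℝ) (a b : ℕ), 0 < n → 2 ^ a ≤ n ^ b → a * Real.log 2 ≤ b * Real.log n := by
    intro n a b hn hab
    rw [← Real.log_pow, ← Real.log_pow]
    exact Real.log_le_log (by positivity) hab
  have l3 := lg 3 3 2 (by norm_num) (by norm_num)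
  have l5 := lg 5 9 4 (by norm_num) (by norm_num)
  have l7 := lg 7 14 5 (by norm_num) (by norm_num)
  push_cast at l3 l5 l7
  have r2 := rpow13 (n := 2) (b := 0.324) (by norm_num) (by norm_num)
  have r3 := rpow13 (n := 3) (b := 0.1677) (by norm_num) (by norm_num)
  have r4 := rpow13 (n := 4) (b := 0.105) (by norm_num) (by norm_num)
  have r5 := rpow13 (n := 5) (b := 0.0731) (by norm_num) (by norm_num)
  have r7 := rpow13 (n := 7) (b := 0.0423) (by norm_num) (by norm_num)
  have m2 := mul_le_mul_of_nonneg_left r2 (show 0 ≤ Real.log 2 by linarith)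
  have m3 := mul_le_mul_of_nonneg_left r3 (show 0 ≤ Real.log 3 by linarith)
  have m4 := mul_le_mul_of_nonneg_left r4 (show 0 ≤ Real.log 2 by linarith)
  have m5 := mul_le_mul_of_nonneg_left r5 (show 0 ≤ Real.log 5 by linarith)
  have m7 := mul_le_mul_of_nonneg_left r7 (show 0 ≤ Real.log 7 by linarith)
  linarith

theorem DD_s2 {σ : ℝ} (h1 : 1 < σ) (h2 : σ ≤ 1 + 1 / 51) : -DD σ 0 ≤ 1 / (σ - 1) - 0.5 := by
  have h := DD_real h1 (by linarith) 4
  simp only [sum_range_succ, range_zero, sum_empty] at h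
  have hpi := Real.pi_gt_d4
  have h3 : Real.log ((σ / 2 + ((4 : ℕ) + 1)) / Real.pi) ≤ 0.565 := by
    refine log_le_of (by positivity) (by norm_num) ?_
    rw [div_le_iff₀ (by positivity)]
    push_cast
    nlinarith
  rw [Real.log_div (by positivity) Real.pi_ne_zero] at h3
  have a1 : 1 / (1.51 : ℝ) ≤ 1 / (σ / 2 + (0 + 1)) := one_div_le_one_div_of_le (by linarith) (by linarith)
  have a2 : 1 / (2.51 : ℝ) ≤ 1 / (σ / 2 + (1 + 1)) := one_div_le_one_div_of_le (by linarith) (by linarith)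
  have a3 : 1 / (3.51 : ℝ) ≤ 1 / (σ / 2 + (2 + 1)) := one_div_le_one_div_of_le (by linarith) (by linarith)
  have a4 : 1 / (4.51 : ℝ) ≤ 1 / (σ / 2 + (3 + 1)) := one_div_le_one_div_of_le (by linarith) (by linarith)
  push_cast at h h3
  norm_num at a1 a2 a3 a4 h h3 ⊢
  linarith

theorem XX_zero_le {L : ℝ} (hL : 17 ≤ L) : -XX (1 + 1 / (3 * L)) 0 ≤ 3 * L - 0.77 := by
  obtain ⟨h1, h2⟩ := s2_facts hL
  have h3 := DD_s2 h1 h2
  have : 1 / (1 + 1 / (3 * L) - 1) = 3 * L := by
    rw [add_sub_cancel_left, one_div_one_div]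
  rw [this] at h3
  rw [XX]
  linarith [DD13_ge]

/-- The trigonometric inequality. -/
theorem XX_trig {L τ : ℝ} (hL : 17 ≤ L) (hτ : 6 ≤ |τ|) (h : Real.log (|τ| / (2 * Real.pi)) ≤ L) :
    XX (1 + 1 / (3 * L)) τ ≤ 2.0135 * L := by
  obtain ⟨h1, h2⟩ := s2_facts hL
  have h3 := XX_pos h1 (by linarith) (range 5)
    (fun j => if j = 0 then 1.471376 else if j = 1 then 2.50344 else if j = 2 then 1.5202 else
      if j = 3 then 0.61 else 0.125) (fun j => j * τ) (fun y => by
      simp only [sum_range_succ, range_zero, sum_empty]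
      norm_num
      have e2 : Real.cos (2 * τ * y) = 2 * Real.cos (τ * y) ^ 2 - 1 := by
        rw [mul_assoc, Real.cos_two_mul]
      have e3 : Real.cos (3 * τ * y) = 4 * Real.cos (τ * y) ^ 3 - 3 * Real.cos (τ * y) := by
        rw [mul_assoc, Real.cos_three_mul]
      have e4 : Real.cos (4 * τ * y) = 2 * (2 * Real.cos (τ * y) ^ 2 - 1) ^ 2 - 1 := by
        rw [← Real.cos_two_mul, ← Real.cos_two_mul]
        congr 1
        ring
      rw [e2, e3, e4]
      nlinarith [sq_nonneg ((0.92 + Real.cos (τ * y)) * (0.3 + Real.cos (τ * y)))])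
  simp only [sum_range_succ, range_zero, sum_empty] at h3
  norm_num at h3
  have hk : ∀ (k : ℝ) (a : ℕ), 1 ≤ k → k ≤ 2 ^ a →
      -XX (1 + 1 / (3 * L)) (k * τ) ≤ 0.27778 * (L + a * 0.6932) := by
    intro k a hk1 hk2
    have ha : (0 : ℝ) ≤ a := by positivity
    have hT : 0 < |τ| := by linarith
    refine XX_low (by nlinarith) h1 (by linarith) (by rw [abs_mul, abs_of_pos (by linarith)]; nlinarith) ?_
    rw [abs_mul, abs_of_pos (by linarith : 0 < k), mul_div_assoc,
      Real.log_mul (by linarith) (by positivity)]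
    have h4 := Real.log_le_log (by linarith) hk2
    rw [Real.log_pow] at h4
    have := Real.log_two_lt_d9
    nlinarith
  have k2 := hk 2 1 (by norm_num) (by norm_num)
  have k3 := hk 3 2 (by norm_num) (by norm_num)
  have k4 := hk 4 2 (by norm_num) (by norm_num)
  have k0 := XX_zero_le hL
  push_cast at k2 k3 k4
  norm_num at k0 k2 k3 k4 ⊢
  linarith

theorem DD_neg {σ : ℝ} (h1 : 1 < σ) (τ : ℝ) : DD σ (-τ) = DD σ τ := by
  have h2 := hasSum_DD h1 (-τ)
  simp only [neg_mul, Real.cos_neg] at h2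
  linarith [h2.unique (hasSum_DD h1 τ)]

theorem XX_neg {σ : ℝ} (h1 : 1 < σ) (τ : ℝ) : XX σ (-τ) = XX σ τ := by
  rw [XX, XX, DD_neg h1, DD_neg (by norm_num)]

/-- The rank lemma. -/
theorem XX_rank' {L ξ a κ : ℝ} {r : ℕ} (hL : 17 ≤ L) (f : Fin r → ℝ) (hκ : κ ≤ 1)
    (hκ0 : 0 ≤ κ) (hf : ∀ i j, i ≠ j → -XX (1 + 1 / (3 * L)) (f i - f j) ≤ κ * L)
    (hξ : 0 ≤ ξ) (ha : 3 - 0.77 / L ≤ a) (hr : a * (a + (r - 1) * κ) ≤ r * ξ ^ 2) :
    ∃ i, XX (1 + 1 / (3 * L)) (f i) ≤ ξ * L := by
  obtain ⟨h1, h2⟩ := s2_facts hL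
  by_contra hcon
  push Not at hcon
  set σ := 1 + 1 / (3 * L) with hσ
  have hL0 : 0 < L := by linarith
  have ha2 : 2 ≤ a := by
    have : 0.77 / L ≤ 1 := by
      rw [div_le_iff₀ hL0]
      linarith
    linarith
  have h0 : -XX σ 0 ≤ a * L := by
    have h3 := XX_zero_le hL
    have h4 := mul_le_mul_of_nonneg_right ha hL0.le
    have : (3 - 0.77 / L) * L = 3 * L - 0.77 := by field_simp
    linarith
  have hr0 : (0 : ℝ) ≤ r := by positivity
  have hpos : 0 < r * ξ ^ 2 :=
    lt_of_lt_of_le (mul_pos (by linarith) (by nlinarith [mul_nonneg hr0 hκ0])) hr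
  have hrpos : (0 : ℝ) < r := by
    by_contra h
    have : (r : ℝ) = 0 := le_antisymm (not_lt.1 h) hr0
    rw [this] at hpos
    simp at hpos
  have hξ0 : 0 < ξ := by
    rcases hξ.eq_or_lt with h | h
    · rw [← h] at hpos
      simp at hpos
    · exact h
  set c := r * ξ / a with hc
  have hc0 : 0 < c := by positivity
  let w : Option (Fin r) → ℝ := fun p => p.elim c fun _ => 1
  let φ : Option (Fin r) → ℝ := fun p => p.elim 0 f
  have h3 := XX_pos h1 (by linarith) (univ : Finset (Option (Fin r) × Option (Fin r)))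
    (fun p => w p.1 * w p.2) (fun p => φ p.1 - φ p.2) (fun y => by
      have e : ∑ p : Option (Fin r) × Option (Fin r), w p.1 * w p.2 * Real.cos ((φ p.1 - φ p.2) * y) =
          (∑ p, w p * Real.cos (φ p * y)) ^ 2 + (∑ p, w p * Real.sin (φ p * y)) ^ 2 := by
        rw [sq, sq, sum_mul_sum, sum_mul_sum, Fintype.sum_prod_type, ← sum_add_distrib]
        refine sum_congr rfl fun p _ => ?_
        rw [← sum_add_distrib]
        refine sum_congr rfl fun q _ => ?_
        rw [sub_mul, Real.cos_sub]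
        ring
      rw [e]
      positivity)
  rw [Fintype.sum_prod_type] at h3
  simp only [Fintype.sum_option, w, φ, Option.elim, sub_zero, zero_sub, XX_neg h1, mul_one,
    one_mul, sum_add_distrib, ← mul_sum] at h3
  have h4 : r * (ξ * L) < ∑ i, XX σ (f i) := by
    have hne : (univ : Finset (Fin r)).Nonempty := by
      rw [← card_pos, card_univ, Fintype.card_fin]
      exact_mod_cast hrpos
    have := sum_lt_sum_of_nonempty hne fun i _ => hcon i
    simpa using this
  have h5 : -(r * (a * L + (r - 1) * (κ * L))) ≤ ∑ i, ∑ j, XX σ (f i - f j) := by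
    have h6 : ∀ i, -(a * L + (r - 1) * (κ * L)) ≤ ∑ j, XX σ (f i - f j) := by
      intro i
      rw [← add_sum_erase _ _ (mem_univ i), sub_self]
      have h7 : ∑ j ∈ univ.erase i, (-(κ * L)) ≤ ∑ j ∈ univ.erase i, XX σ (f i - f j) :=
        sum_le_sum fun j hj => by
          have h8 := hf i j (ne_of_mem_erase hj).symm
          linarith
      rw [sum_const, card_erase_of_mem (mem_univ i), card_univ, Fintype.card_fin, nsmul_eq_mul,
        Nat.cast_sub (by exact_mod_cast Nat.succ_le_of_lt (by exact_mod_cast hrpos))] at h7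
      push_cast at h7
      linarith
    have := sum_le_sum fun i (_ : i ∈ univ) => h6 i
    simp only [sum_const, card_univ, Fintype.card_fin, nsmul_eq_mul] at this
    linarith
  have h6 : c * c * (-(a * L)) ≤ c * c * XX σ 0 := mul_le_mul_of_nonneg_left (by linarith) (by positivity)
  have h7 := mul_lt_mul_of_pos_left h4 hc0
  have h8 : c * a = r * ξ := by
    rw [hc]
    field_simp
  have h9 : 2 * (c * (r * (ξ * L))) < c * c * (a * L) + r * (a * L + (r - 1) * (κ * L)) := by
    linarith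
  have h10 : c * c * (a * L) = c * (r * (ξ * L)) := by
    calc c * c * (a * L) = c * ((c * a) * L) := by ring
      _ = _ := by rw [h8]; ring
  have h11 : c * (r * (ξ * L)) < r * (a * L + (r - 1) * (κ * L)) := by linarith
  have h12 : a * (c * (r * (ξ * L))) = (r * L) * (r * ξ ^ 2) := by
    calc a * (c * (r * (ξ * L))) = (c * a) * (r * (ξ * L)) := by ring
      _ = _ := by rw [h8]; ring
  have h13 := mul_lt_mul_of_pos_left h11 (show 0 < a by linarith)
  have h14 := mul_le_mul_of_nonneg_left hr (show 0 ≤ r * L by positivity)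
  nlinarith

theorem XX_rank {L ξ a : ℝ} {r : ℕ} (hL : 17 ≤ L) (f : Fin r → ℝ)
    (hf : ∀ i j, i ≠ j → 6 ≤ |f i - f j| ∧ Real.log (|f i - f j| / (2 * Real.pi)) ≤ L)
    (hξ : 0 ≤ ξ) (ha : 3 - 0.77 / L ≤ a) (hr : a * (a + (r - 1) * 0.27778) ≤ r * ξ ^ 2) :
    ∃ i, XX (1 + 1 / (3 * L)) (f i) ≤ ξ * L :=
  XX_rank' hL f (by norm_num) (by norm_num) (fun i j h => XX_low hL (s2_facts hL).1
    (by linarith [(s2_facts hL).2]) (hf i j h).1 (hf i j h).2) hξ ha hr

end H96Z
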