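import Pool.Agent.Lib.MP_5db4ad_nt.H96Had

/-! The entire function xi, its growth, symmetries and partial fraction expansion. -/

open Complex Metric Set MeasureTheory
open scoped ComplexConjugate

namespace H96Z

noncomputable def xi (s : ℂ) : ℂ := s * (s - 1) * completedRiemannZeta₀ s + 1

theorem xi_diff : Differentiable ℂ xi := by
  unfold xi
  have := differentiable_completedZeta₀
  fun_prop

theorem xi_zero : xi 0 = 1 := by simp [xi]

theorem xi_one : xi 1 = 1 := by simp [xi]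

theorem xi_one_sub (s : ℂ) : xi (1 - s) = xi s := by
  unfold xi
  rw [completedRiemannZeta₀_one_sub]
  ring

theorem xi_eq {s : ℂ} (h0 : 0 < s.re) (h1 : s ≠ 1) :
    xi s = s * (s - 1) * (Gammaℝ s * riemannZeta s) := by
  have hs : s ≠ 0 := by
    rintro rfl
    simp at h0
  have h2 : (1 : ℂ) - s ≠ 0 := sub_ne_zero.2 h1.symm
  rw [riemannZeta_def_of_ne_zero hs, mul_div_cancel₀ _ (Gammaℝ_ne_zero_of_re_pos h0),
    completedRiemannZeta_eq, xi]
  field_simp
  ring

theorem kernel_bound {t : ℝ} (ht : 1 ≤ t) :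
    ‖((HurwitzZeta.evenKernel 0 t : ℝ) : ℂ) - 1‖ ≤ 3 * Real.exp (-(2 * t)) := by
  have h1 := HurwitzZeta.evenKernel_def 0 t
  simp only [QuotientAddGroup.mk_zero, ofReal_zero, ne_eq, OfNat.ofNat_ne_zero, not_false_eq_true,
    zero_pow, mul_zero, zero_mul, exp_zero, one_mul] at h1
  rw [h1, ← jacobiTheta_eq_jacobiTheta₂]
  have him : (I * (t : ℂ)).im = t := by simp
  have h2 := norm_jacobiTheta_sub_one_le (τ := I * t) (by rw [him]; linarith)
  rw [him] at h2
  refine h2.trans ?_
  have hpi := Real.pi_gt_three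
  have h3 : Real.exp (-Real.pi * t) ≤ Real.exp (-(2 * t)) := Real.exp_le_exp.2 (by nlinarith)
  have h4 : Real.exp (-(2 * t)) ≤ 1 / 3 := by
    rw [Real.exp_neg, one_div]
    refine inv_anti₀ (by norm_num) ?_
    have := Real.add_one_le_exp (2 * t)
    linarith
  have h5 : 2 / (1 - Real.exp (-Real.pi * t)) ≤ 3 := by
    rw [div_le_iff₀ (by linarith)]
    linarith
  exact mul_le_mul h5 h3 (Real.exp_pos _).le (by norm_num)

theorem Lam0_bound : ∃ C : ℝ, 0 ≤ C ∧ ∀ (s : ℂ) (x : ℝ), 1 ≤ x → 1 / 2 ≤ s.re → s.re ≤ 4 * x ^ 2 →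
    ‖completedRiemannZeta₀ s‖ ≤ C + 3 * Real.exp (8 * x ^ 3) := by
  set P := HurwitzZeta.hurwitzEvenFEPair 0 with hP
  have hconv : ∀ w : ℂ, MellinConvergent P.f_modif w := fun w =>
    (P.isStrongFEPair_toStrongFEPair.hasMellin w).1
  have hi := (hconv (1 / 4)).norm
  refine ⟨∫ t in Ioi (0 : ℝ), ‖(t : ℂ) ^ ((1 / 4 : ℂ) - 1) • P.f_modif t‖,
    integral_nonneg fun _ => norm_nonneg _, fun s x hx h1 h2 => ?_⟩
  have e : completedRiemannZeta₀ s = mellin P.f_modif (s / 2) / 2 := rfl
  have hexp : IntegrableOn (fun t : ℝ => 3 * Real.exp (8 * x ^ 3) * Real.exp (-t)) (Ioi 0) :=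
    (integrableOn_exp_neg_Ioi 0).const_mul _
  have hb : ‖mellin P.f_modif (s / 2)‖ ≤
      ∫ t in Ioi (0 : ℝ), (‖(t : ℂ) ^ ((1 / 4 : ℂ) - 1) • P.f_modif t‖ +
        3 * Real.exp (8 * x ^ 3) * Real.exp (-t)) := by
    refine norm_integral_le_of_norm_le (hi.add hexp) ?_
    refine (ae_restrict_iff' measurableSet_Ioi).2 (Filter.Eventually.of_forall fun t ht => ?_)
    have ht0 : (0 : ℝ) < t := ht
    have hu : (s / 2 - 1).re = s.re / 2 - 1 := by simp
    have hv : ((1 / 4 : ℂ) - 1).re = 1 / 4 - 1 := by simp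
    rw [norm_smul, norm_smul, norm_cpow_eq_rpow_re_of_pos ht0, norm_cpow_eq_rpow_re_of_pos ht0,
      hu, hv]
    by_cases ht1 : t ≤ 1
    · have : t ^ (s.re / 2 - 1) ≤ t ^ ((1 : ℝ) / 4 - 1) :=
        Real.rpow_le_rpow_of_exponent_ge ht0 ht1 (by linarith)
      have h3 := mul_le_mul_of_nonneg_right this (norm_nonneg (P.f_modif t))
      have : 0 ≤ 3 * Real.exp (8 * x ^ 3) * Real.exp (-t) := by positivity
      linarith
    · push Not at ht1
      have hF : P.f_modif t = ((HurwitzZeta.evenKernel 0 t : ℝ) : ℂ) - 1 := by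
        have hn : t ∉ Ioo (0 : ℝ) 1 := fun h => absurd h.2 (not_lt.2 ht1.le)
        simp only [WeakFEPair.f_modif, Pi.add_apply, indicator_of_mem (mem_Ioi.2 ht1),
          indicator_of_notMem hn, add_zero]
        simp [hP, HurwitzZeta.hurwitzEvenFEPair]
      have h3 := kernel_bound ht1.le
      rw [← hF] at h3
      have h4 : t ^ (s.re / 2 - 1) ≤ Real.exp (8 * x ^ 3 + t) := by
        rw [Real.rpow_def_of_pos ht0]
        refine Real.exp_le_exp.2 ?_
        have hl : 0 ≤ Real.log t := Real.log_nonneg ht1.le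
        have hx2 : 0 < 4 * x ^ 2 := by positivity
        have h5 : Real.log t ≤ t / (4 * x ^ 2) + 4 * x := by
          have h6 := Real.log_le_sub_one_of_pos (div_pos ht0 hx2)
          rw [Real.log_div ht0.ne' hx2.ne'] at h6
          have h7 : Real.log (4 * x ^ 2) ≤ 4 * x := by
            have : 4 * x ^ 2 = (2 * x) ^ 2 := by ring
            rw [this, Real.log_pow]
            have := Real.log_le_sub_one_of_pos (show 0 < 2 * x by linarith)
            push_cast
            linarith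
          linarith
        have h8 : Real.log t * (s.re / 2 - 1) ≤ Real.log t * (2 * x ^ 2) :=
          mul_le_mul_of_nonneg_left (by linarith) hl
        have h9 : Real.log t * (2 * x ^ 2) ≤ (t / (4 * x ^ 2) + 4 * x) * (2 * x ^ 2) :=
          mul_le_mul_of_nonneg_right h5 (by positivity)
        have h10 : (t / (4 * x ^ 2) + 4 * x) * (2 * x ^ 2) = t / 2 + 8 * x ^ 3 := by
          field_simp
          ring
        linarith
      have h5 := mul_le_mul h4 h3 (norm_nonneg _) (Real.exp_pos _).le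
      have h6 : Real.exp (8 * x ^ 3 + t) * (3 * Real.exp (-(2 * t))) =
          3 * Real.exp (8 * x ^ 3) * Real.exp (-t) := by
        rw [mul_left_comm, mul_assoc, ← Real.exp_add, ← Real.exp_add]
        congr 2
        ring
      have : 0 ≤ t ^ ((1 : ℝ) / 4 - 1) * ‖P.f_modif t‖ := by positivity
      linarith
  rw [integral_add hi hexp, integral_const_mul, integral_exp_neg_Ioi_zero, mul_one] at hb
  rw [e, norm_div]
  simp only [Complex.norm_ofNat]
  have := norm_nonneg (mellin P.f_modif (s / 2))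
  linarith

theorem xi_growth : ∀ δ > 0, ∀ R₀ : ℝ, ∃ R ≥ R₀, ∀ z ∈ sphere (0 : ℂ) (3 * R),
    ‖xi z‖ ≤ Real.exp (δ * R ^ 2) := by
  obtain ⟨C, hC, hb⟩ := Lam0_bound
  have key : ∀ (s : ℂ) (x : ℝ), 1 ≤ x → 1 / 2 ≤ s.re → ‖s‖ ≤ 4 * x ^ 2 →
      ‖xi s‖ ≤ Real.exp ((C + 33) * x ^ 3) := by
    intro s x hx h1 h2
    have h3 := hb s x hx h1 ((re_le_norm s).trans h2)
    have hx2 : 1 ≤ x ^ 2 := one_le_pow₀ hx
    have hx3 : 1 ≤ x ^ 3 := one_le_pow₀ hx
    have h4 : ‖s - 1‖ ≤ 5 * x ^ 2 := by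
      have := norm_sub_le s 1
      rw [norm_one] at this
      linarith
    have h5 : ‖xi s‖ ≤ 4 * x ^ 2 * (5 * x ^ 2) * (C + 3 * Real.exp (8 * x ^ 3)) + 1 := by
      unfold xi
      refine (norm_add_le _ _).trans ?_
      rw [norm_mul, norm_mul, norm_one]
      gcongr
    have h6 : 4 * x ^ 2 * (5 * x ^ 2) ≤ Real.exp (21 * x ^ 3) := by
      have a1 := Real.add_one_le_exp (20 * x ^ 3)
      have a2 := Real.add_one_le_exp (x ^ 3)
      have a3 : x ≤ x ^ 3 := by nlinarith
      have : Real.exp (21 * x ^ 3) = Real.exp (20 * x ^ 3) * Real.exp (x ^ 3) := by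
        rw [← Real.exp_add]
        congr 1
        ring
      rw [this]
      calc 4 * x ^ 2 * (5 * x ^ 2) = 20 * x ^ 3 * x := by ring
        _ ≤ _ := mul_le_mul (by linarith) (by linarith) (by linarith) (Real.exp_pos _).le
    have h7 : 1 ≤ Real.exp (8 * x ^ 3) := Real.one_le_exp (by positivity)
    have h8 : 1 ≤ Real.exp (21 * x ^ 3) := Real.one_le_exp (by positivity)
    have h9 : C + 4 ≤ Real.exp ((C + 4) * x ^ 3) := by
      have := Real.add_one_le_exp ((C + 4) * x ^ 3)
      nlinarith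
    have h10 : Real.exp ((C + 33) * x ^ 3) =
        Real.exp (21 * x ^ 3) * (Real.exp ((C + 4) * x ^ 3) * Real.exp (8 * x ^ 3)) := by
      rw [← Real.exp_add, ← Real.exp_add]
      congr 1
      ring
    rw [h10]
    have h11 : C + 3 * Real.exp (8 * x ^ 3) + 1 ≤
        Real.exp ((C + 4) * x ^ 3) * Real.exp (8 * x ^ 3) := by nlinarith
    have h12 : 4 * x ^ 2 * (5 * x ^ 2) * (C + 3 * Real.exp (8 * x ^ 3)) ≤
        Real.exp (21 * x ^ 3) * (C + 3 * Real.exp (8 * x ^ 3)) :=
      mul_le_mul_of_nonneg_right h6 (by positivity)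
    nlinarith
  intro δ hδ R₀
  set x : ℝ := 1 + |R₀| + (C + 33) / δ with hx
  have h0 : 0 ≤ (C + 33) / δ := by positivity
  have hx1 : 1 ≤ x := by
    have := abs_nonneg R₀
    linarith
  have hx2 : 1 ≤ x ^ 2 := one_le_pow₀ hx1
  refine ⟨x ^ 2, ?_, fun z hz => ?_⟩
  · have := le_abs_self R₀
    nlinarith
  · rw [mem_sphere_zero_iff_norm] at hz
    have h1 : ‖xi z‖ ≤ Real.exp ((C + 33) * x ^ 3) := by
      by_cases h : 1 / 2 ≤ z.re
      · exact key z x hx1 h (by linarith)
      · rw [← xi_one_sub]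
        refine key _ x hx1 (by simp; linarith) ?_
        have := norm_sub_le 1 z
        rw [norm_one] at this
        linarith
    refine h1.trans (Real.exp_le_exp.2 ?_)
    have h2 : C + 33 ≤ δ * x := by
      have : (C + 33) / δ ≤ x := by
        have := abs_nonneg R₀
        linarith
      rw [div_le_iff₀ hδ] at this
      linarith
    calc (C + 33) * x ^ 3 ≤ δ * x * x ^ 3 := mul_le_mul_of_nonneg_right h2 (by positivity)
      _ = δ * (x ^ 2) ^ 2 := by ring

theorem xi_conj (s : ℂ) : xi (conj s) = conj (xi s) := by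
  have hg : AnalyticOnNhd ℂ (fun z => conj (xi (conj z))) univ :=
    DifferentiableOn.analyticOnNhd
      (fun z _ => (differentiableAt_conj_conj_iff.mpr (xi_diff _)).differentiableWithinAt)
      isOpen_univ
  have hx : AnalyticOnNhd ℂ xi univ := xi_diff.differentiableOn.analyticOnNhd isOpen_univ
  have hgz (z : ℂ) (hz : 1 < z.re) : conj (xi (conj z)) = xi z := by
    have h1 : z ≠ 1 := by
      rintro rfl
      simp at hz
    have h2 : conj z ≠ 1 := by
      intro h
      have := congrArg re h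
      simp at this
      linarith
    rw [xi_eq (by rw [conj_re]; linarith) h2, xi_eq (by linarith) h1, riemannZeta_conj,
      Gammaℝ_def, Gammaℝ_def]
    have h3 : conj z / 2 = conj (z / 2) := by rw [map_div₀, conj_ofNat]
    have h4 : (Real.pi : ℂ) ^ (-conj z / 2) = conj ((Real.pi : ℂ) ^ (-z / 2)) := by
      have : -conj z / 2 = conj (-z / 2) := by rw [map_div₀, conj_ofNat, map_neg]
      rw [this, cpow_conj _ _ (by rw [arg_ofReal_of_nonneg Real.pi_pos.le]; exact Real.pi_ne_zero.symm),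
        conj_ofReal]
    rw [h3, Gamma_conj, h4]
    simp
  have heq := hg.eq_of_eventuallyEq hx (z₀ := 2) (Filter.eventuallyEq_of_mem
    ((isOpen_lt continuous_const continuous_re).mem_nhds (by norm_num)) hgz)
  have := congrFun heq (conj s)
  simpa using this.symm

theorem xi_mirror (s : ℂ) : xi (1 - conj s) = conj (xi s) := by rw [xi_one_sub, xi_conj]

theorem xi_ne_zero {s : ℂ} (hs : 1 ≤ s.re) : xi s ≠ 0 := by
  by_cases h1 : s = 1
  · rw [h1, xi_one]
    exact one_ne_zero
  · have h0 : s ≠ 0 := by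
      rintro rfl
      norm_num at hs
    rw [xi_eq (by linarith) h1]
    exact mul_ne_zero (mul_ne_zero h0 (sub_ne_zero.2 h1))
      (mul_ne_zero (Gammaℝ_ne_zero_of_re_pos (by linarith)) (riemannZeta_ne_zero_of_one_le_re hs))

theorem xi_zero_re {ρ : ℂ} (h : xi ρ = 0) : 0 < ρ.re ∧ ρ.re < 1 := by
  constructor
  · by_contra h1
    refine xi_ne_zero (s := 1 - ρ) (by simp; linarith) ?_
    rw [xi_one_sub, h]
  · by_contra h1
    exact xi_ne_zero (not_lt.1 h1) h

theorem logDeriv_xi_mirror (s : ℂ) : (logDeriv xi (1 - conj s)).re = -(logDeriv xi s).re := by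
  have h1 : deriv xi (1 - conj s) = -conj (deriv xi s) := by
    have h2 : HasDerivAt (fun z => xi (1 - z)) (deriv xi (1 - conj s) * (-1)) (conj s) :=
      (xi_diff (1 - conj s)).hasDerivAt.comp (conj s) ((hasDerivAt_id _).const_sub 1)
    have h3 : (fun z => xi (1 - z)) = xi := funext xi_one_sub
    rw [h3] at h2
    have h4 : HasDerivAt (conj ∘ xi ∘ conj) (conj (deriv xi s)) (conj s) :=
      (xi_diff s).hasDerivAt.conj_conj
    have h5 : (conj ∘ xi ∘ conj) = xi := by
      funext z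
      simp [xi_conj]
    rw [h5] at h4
    have := h2.unique h4
    linear_combination -this
  rw [logDeriv_apply, logDeriv_apply, h1, xi_mirror, neg_div, ← map_div₀, neg_re, conj_re]

/-- The paired term of the partial fraction expansion. -/
noncomputable def FF (s ρ : ℂ) : ℝ := (1 / (s - ρ)).re + (1 / (s - (1 - conj ρ))).re

theorem had_xi (B : ℝ) {ε : ℝ} (hε : 0 < ε) :
    ∃ Z : Multiset ℂ, (∀ ρ ∈ Z, xi ρ = 0) ∧ (∀ ρ, ‖ρ‖ ≤ B → xi ρ = 0 → ρ ∈ Z) ∧
      ∀ s : ℂ, ‖s‖ ≤ B → xi s ≠ 0 →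
        |(logDeriv xi s).re - (Z.map (FF s)).sum / 2| ≤ ε := by
  obtain ⟨Z, h1, h2, h3⟩ := hadamard xi_diff xi_zero xi_growth (B + 1) hε
  refine ⟨Z, h1, fun ρ a b => h2 ρ (by linarith) b, fun s hs hx => ?_⟩
  have h4 := h3 s (1 - conj s) (by linarith) (by
    have := norm_sub_le 1 (conj s)
    rw [norm_one, norm_conj] at this
    linarith) hx (by rw [xi_mirror]; simpa using hx)
  have h5 := (abs_re_le_norm _).trans h4
  have h6 : ((Z.map fun ρ => 1 / (s - ρ) - 1 / (1 - conj s - ρ)).sum).re = (Z.map (FF s)).sum := by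
    rw [← reCLM_apply, map_multiset_sum, Multiset.map_map]
    congr 1
    refine Multiset.map_congr rfl fun ρ _ => ?_
    have : 1 / (1 - conj s - ρ) = -conj (1 / (s - (1 - conj ρ))) := by
      rw [map_div₀, map_one, ← div_neg]
      congr 1
      simp
      ring
    simp only [Function.comp, reCLM_apply, FF, sub_re, this, neg_re, conj_re]
    ring
  rw [sub_re, sub_re, logDeriv_xi_mirror, h6] at h5
  rw [abs_le] at h5 ⊢
  constructor <;> linarith [h5.1, h5.2]

end H96Z
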