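import Pool.Agent.Lib.MP_5db4ad_nt.NumDefs

/-!
A nonnegative trigonometric polynomial.
-/

namespace Pool.Agent.Lib.MP_5db4ad_nt

open Finset

lemma normSq_sum (β : ℕ → ℝ) {u : ℂ} (hu : ‖u‖ = 1) (M : ℕ) :
    Complex.normSq (∑ j ∈ range M, β j * u ^ j) = ∑ m ∈ range M,
      (if m = 0 then 1 else 2) * (∑ j ∈ range (M - m), β j * β (j + m)) * (u ^ m).re := by
  have h1 : u * (starRingEnd ℂ) u = 1 := by
    rw [Complex.mul_conj, Complex.normSq_eq_norm_sq, hu]; norm_num
  induction M with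
  | zero => simp
  | succ M ih =>
    have a1 : Complex.normSq (β M * u ^ M) = β M * β M := by
      rw [map_mul, map_pow, Complex.normSq_eq_norm_sq u, hu, Complex.normSq_ofReal]; simp
    have a2 : ((∑ j ∈ range M, β j * u ^ j) * (starRingEnd ℂ) (β M * u ^ M)).re =
        ∑ j ∈ range M, β j * β M * (u ^ (M - j)).re := by
      rw [Finset.sum_mul, Complex.re_sum]
      refine Finset.sum_congr rfl fun j hj => ?_
      obtain ⟨d, rfl⟩ := Nat.exists_eq_add_of_le (mem_range.1 hj).le
      rw [Nat.add_sub_cancel_left, ← Complex.conj_re (u ^ d), ← Complex.re_ofReal_mul]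
      congr 1
      simp only [map_mul, map_pow, Complex.conj_ofReal, pow_add]
      push_cast
      have : u ^ j * (starRingEnd ℂ) u ^ j = 1 := by rw [← mul_pow, h1, one_pow]
      linear_combination (β j * β (j + d) * (starRingEnd ℂ) u ^ d : ℂ) * this
    have a3 : ∑ m ∈ range (M + 1), (if m = 0 then 1 else 2) *
        (∑ j ∈ range (M + 1 - m), β j * β (j + m)) * (u ^ m).re =
        ∑ m ∈ range (M + 1), ((if m = 0 then 1 else 2) *
          (∑ j ∈ range (M - m), β j * β (j + m)) * (u ^ m).re +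
          (if m = 0 then 1 else 2) * (β (M - m) * β M) * (u ^ m).re) := by
      refine Finset.sum_congr rfl fun m hm => ?_
      have := mem_range.1 hm
      rw [show M + 1 - m = M - m + 1 by omega, Finset.sum_range_succ,
        Nat.sub_add_cancel (by omega)]
      ring
    rw [Finset.sum_range_succ, Complex.normSq_add, ih, a1, a2, a3, Finset.sum_add_distrib,
      Finset.sum_range_succ _ M, Finset.sum_range_succ' _ M, ← Finset.sum_range_reflect _ M,
      ← Finset.sum_range_reflect (fun j => β j * β M * (u ^ (M - j)).re) M, Finset.mul_sum,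
      Finset.sum_range_reflect (fun m => (if m = 0 then 1 else 2) *
        (∑ j ∈ range (M - m), β j * β (j + m)) * (u ^ m).re) M]
    simp only [Nat.sub_self, range_zero, sum_empty, mul_zero, zero_mul, add_zero, if_true, pow_zero,
      Complex.one_re, Nat.sub_zero, mul_one, one_mul, add_assoc, add_right_inj]
    rw [add_comm, add_left_inj]
    refine Finset.sum_congr rfl fun j hj => ?_
    have := mem_range.1 hj
    rw [if_neg (by omega), show M - (M - 1 - j) = j + 1 by omega,
      show M - (j + 1) = M - 1 - j by omega]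
    ring

lemma sum_poly (c0 c1 c2 c3 : ℝ) (k : ℕ) :
    ∑ j ∈ range k, (c0 + c1 * j + c2 * j ^ 2 + c3 * j ^ 3 + j ^ 4) =
      c0 * k + c1 * (k * (k - 1) / 2) + c2 * (k * (k - 1) * (2 * k - 1) / 6) +
      c3 * (k * (k - 1) / 2) ^ 2 + k * (k - 1) * (2 * k - 1) * (3 * k ^ 2 - 3 * k - 1) / 30 := by
  induction k with
  | zero => simp
  | succ k ih => rw [Finset.sum_range_succ, ih]; push_cast; ring

lemma cor30_eq {M m : ℕ} (h : m ≤ M) : (cor30 M m : ℝ) =
    30 * ∑ j ∈ range (M - m), ((j : ℝ) + 1) * (M - j) * ((((j + m : ℕ) : ℝ) + 1) *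
      (M - (j + m : ℕ))) := by
  obtain ⟨n, rfl⟩ := Nat.exists_eq_add_of_le h
  rw [Nat.add_sub_cancel_left, cor30, show m + n + 1 - m = n + 1 by omega,
    Finset.sum_congr rfl (g := fun j : ℕ => ((m + 1) * ((m + n) * n) +
      ((m + 2) * ((m + n) * n) - (m + 1) * (m + 2 * n)) * j +
      (m + 1 + (m + n) * n - (m + 2) * (m + 2 * n)) * j ^ 2 + (2 - 2 * n) * j ^ 3 + j ^ 4 : ℝ))
      fun j _ => by push_cast; ring, sum_poly]
  push_cast [Nat.cast_sub (Nat.le_self_pow (show 5 ≠ 0 by norm_num) (n + 1)),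
    Nat.cast_sub (Nat.le_self_pow (show 3 ≠ 0 by norm_num) (n + 1))]
  ring

/-- coefficients of the kernel -/
noncomputable def kc (M m : ℕ) : ℝ := (if m = 0 then 1 else 2) * cor30 M m

lemma kern_nonneg {u : ℂ} (hu : ‖u‖ = 1) (M : ℕ) :
    0 ≤ ∑ m ∈ range M, kc M m * (u ^ m).re := by
  have h := Complex.normSq_nonneg (∑ j ∈ range M, ((((j : ℝ) + 1) * (M - j) : ℝ) : ℂ) * u ^ j)
  rw [normSq_sum (fun j => ((j : ℝ) + 1) * (M - j)) hu] at h
  refine le_of_le_of_eq (mul_nonneg (show (0 : ℝ) ≤ 30 by norm_num) h) ?_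
  rw [Finset.mul_sum]
  refine Finset.sum_congr rfl fun m hm => ?_
  rw [kc, cor30_eq (mem_range.1 hm).le]
  ring

end Pool.Agent.Lib.MP_5db4ad_nt
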