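import Pool.Agent.Lib.MP_5db4ad_nt.Euler
import Pool.Agent.Lib.MP_5db4ad_nt.Kernel

/-!
The averaging inequality.
-/

namespace Pool.Agent.Lib.MP_5db4ad_nt

open Finset Filter Topology ArithmeticFunction MeasureTheory

/-- the summatory function -/
noncomputable def SS (x : ℝ) : ℝ := ∑ n ∈ Icc 1 ⌊x⌋₊, (-2 : ℝ) ^ cardFactors n

lemma SS_cast (x : ℝ) : ∑ n ∈ Icc 1 ⌊x⌋₊, aa n = (SS x : ℂ) := by
  simp [SS, aa]

lemma kc_nonneg (M m : ℕ) : 0 ≤ kc M m := by
  unfold kc
  split_ifs <;> positivity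

lemma pointwise {A C S t : ℝ} (hC : 0 ≤ C) (h : |S| ≤ A * t + C) {u : ℂ} (hu : ‖u‖ = 1) (M : ℕ) :
    S * ∑ m ∈ range M, kc M m * (1 - (-1) ^ m) * (u ^ m).re ≤
      A * t * ∑ m ∈ range M, kc M m * (1 + (-1) ^ m) * (u ^ m).re +
        C * (2 * ∑ m ∈ range M, kc M m) := by
  have h1 := kern_nonneg hu M
  have h2 := kern_nonneg (u := -u) (by rwa [norm_neg]) M
  have b : ∀ v : ℂ, ‖v‖ = 1 → ∑ m ∈ range M, kc M m * (v ^ m).re ≤ ∑ m ∈ range M, kc M m :=
    fun v hv => Finset.sum_le_sum fun m _ => mul_le_of_le_one_right (kc_nonneg _ _)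
      ((Complex.re_le_norm _).trans (by rw [norm_pow, hv, one_pow]))
  have h3 := b u hu
  have h4 := b (-u) (by rwa [norm_neg])
  have e : ∀ m : ℕ, ((-u) ^ m).re = (-1) ^ m * (u ^ m).re := fun m => by
    rw [neg_pow, ← Complex.re_ofReal_mul]
    push_cast
    rfl
  have e1 : ∑ m ∈ range M, kc M m * (1 - (-1) ^ m) * (u ^ m).re =
      ∑ m ∈ range M, kc M m * (u ^ m).re - ∑ m ∈ range M, kc M m * ((-u) ^ m).re := by
    rw [← Finset.sum_sub_distrib]
    exact Finset.sum_congr rfl fun m _ => by rw [e]; ring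
  have e2 : ∑ m ∈ range M, kc M m * (1 + (-1) ^ m) * (u ^ m).re =
      ∑ m ∈ range M, kc M m * (u ^ m).re + ∑ m ∈ range M, kc M m * ((-u) ^ m).re := by
    rw [← Finset.sum_add_distrib]
    exact Finset.sum_congr rfl fun m _ => by rw [e]; ring
  rw [e1, e2]
  rw [abs_le] at h
  nlinarith [mul_nonneg h1 (sub_nonneg.2 h.2), mul_nonneg h2 (sub_nonneg.2 h.1),
    mul_nonneg hC (sub_nonneg.2 h3), mul_nonneg hC (sub_nonneg.2 h4)]

lemma integral_re_sum {M : ℕ} (c : ℕ → ℝ) (w : ℕ → ℂ) {f : ℕ → ℝ → ℂ}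
    (hf : ∀ m, IntegrableOn (f m) (Set.Ioi 1)) :
    IntegrableOn (fun t => ∑ m ∈ range M, c m * (w m * f m t).re) (Set.Ioi 1) ∧
    ∫ t in Set.Ioi 1, ∑ m ∈ range M, c m * (w m * f m t).re =
      ∑ m ∈ range M, c m * (w m * ∫ t in Set.Ioi 1, f m t).re := by
  have h1 : ∀ m, IntegrableOn (fun t => c m * (w m * f m t).re) (Set.Ioi 1) := fun m =>
    (((hf m).const_mul (w m)).re).const_mul (c m)
  refine ⟨integrable_finsetSum _ fun m _ => h1 m, ?_⟩
  rw [integral_finsetSum _ fun m _ => h1 m]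
  refine Finset.sum_congr rfl fun m _ => ?_
  rw [integral_const_mul, ← integral_const_mul (w m)]
  congr 1
  exact integral_re ((hf m).const_mul (w m))

lemma averaged {A C ε : ℝ} (hC : 0 ≤ C) (h : ∀ t, 1 ≤ t → |SS t| ≤ A * t + C)
    (hε : 0 < ε) {ω : ℂ} (hω : ‖ω‖ = 1) (M : ℕ) :
    ∑ m ∈ range M, kc M m * (1 - (-1) ^ m) * (ω ^ m * (LSeries aa (sv m + ε) / (sv m + ε))).re ≤
      A * ∑ m ∈ range M, kc M m * (1 + (-1) ^ m) * (ω ^ m * (sv m + ε - 1)⁻¹).re +
        C * (2 * ∑ m ∈ range M, kc M m) := by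
  have r1 : ∀ m, (sv m + ε).re = 1 + ε := fun m => by simp [sv]
  have i2 : ∀ m, IntegrableOn (fun t : ℝ => (t : ℂ) ^ (-(sv m + ε))) (Set.Ioi 1) := fun m =>
    integrableOn_Ioi_cpow_of_lt (by rw [Complex.neg_re, r1]; linarith) one_pos
  have v2 : ∀ m, ∫ t : ℝ in Set.Ioi 1, (t : ℂ) ^ (-(sv m + ε)) = (sv m + ε - 1)⁻¹ := fun m => by
    rw [integral_Ioi_cpow_of_lt (by rw [Complex.neg_re, r1]; linarith) one_pos,
      show -(sv m + ε) + 1 = -(sv m + ε - 1) by ring, neg_div_neg_eq]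
    simp
  have i1 : ∀ m, IntegrableOn (fun t : ℝ => (SS t : ℂ) * (t : ℂ) ^ (-(sv m + ε + 1)))
      (Set.Ioi 1) := fun m => by
    have m1 : Measurable SS :=
      (Measurable.of_discrete (f := fun k : ℕ => ∑ n ∈ Icc 1 k, (-2 : ℝ) ^ cardFactors n)).comp
        Nat.measurable_floor
    refine Integrable.mono' ((i2 m).norm.const_mul (A + C)) ?_ ?_
    · exact (Complex.measurable_ofReal.comp m1).aestronglyMeasurable.mul
        (integrableOn_Ioi_cpow_of_lt (by
          rw [Complex.neg_re, Complex.add_re, r1, Complex.one_re]; linarith) one_pos).1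
    · filter_upwards [ae_restrict_mem measurableSet_Ioi] with t ht
      have ht : 1 < t := ht
      have t0 : (t : ℂ) ≠ 0 := by exact_mod_cast (by linarith : t ≠ 0)
      rw [neg_add, Complex.cpow_add _ _ t0, Complex.cpow_neg_one, norm_mul, norm_mul, norm_inv,
        Complex.norm_real, Complex.norm_real, Real.norm_eq_abs, Real.norm_of_nonneg (by linarith),
        mul_left_comm, mul_comm]
      refine mul_le_mul_of_nonneg_right ?_ (norm_nonneg _)
      rw [← div_eq_mul_inv, div_le_iff₀ (by linarith)]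
      nlinarith [h t ht.le]
  have v1 : ∀ m, ∫ t : ℝ in Set.Ioi 1, (SS t : ℂ) * (t : ℂ) ^ (-(sv m + ε + 1)) =
      LSeries aa (sv m + ε) / (sv m + ε) := fun m => by
    have h0 : sv m + ε ≠ 0 := fun hh => by
      have := r1 m
      rw [hh, Complex.zero_re] at this
      linarith
    rw [LSeries_eq_mul_integral aa (r := 1) zero_le_one (by rw [r1]; linarith)
      (summable_aa (by rw [r1]; linarith)), mul_div_cancel_left₀ _ h0]
    · simp only [SS_cast]
    · refine Asymptotics.IsBigO.of_bound (A + C) ?_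
      filter_upwards [eventually_ge_atTop 1] with n hn
      have hn : (1 : ℝ) ≤ n := by exact_mod_cast hn
      have := SS_cast n
      rw [Nat.floor_natCast] at this
      rw [this, Real.rpow_one, Complex.norm_real, Real.norm_eq_abs, Real.norm_natCast]
      nlinarith [h n hn]
  obtain ⟨a1, a2⟩ := integral_re_sum (M := M) (fun m => kc M m * (1 - (-1) ^ m))
    (fun m => ω ^ m) i1
  obtain ⟨b1, b2⟩ := integral_re_sum (M := M) (fun m => kc M m * (1 + (-1) ^ m))
    (fun m => ω ^ m) i2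
  simp only [v1, v2] at a2 b2
  have c1 : IntegrableOn (fun t : ℝ => t ^ (-2 : ℝ)) (Set.Ioi 1) :=
    integrableOn_Ioi_rpow_of_lt (by norm_num) one_pos
  have c2 : ∫ t : ℝ in Set.Ioi 1, t ^ (-2 : ℝ) = 1 := by
    rw [integral_Ioi_rpow_of_lt (by norm_num) one_pos]
    norm_num
  set K := C * (2 * ∑ m ∈ range M, kc M m) with hK
  have K0 : 0 ≤ K := mul_nonneg hC (mul_nonneg zero_le_two
    (Finset.sum_nonneg fun m _ => kc_nonneg _ _))
  have c3 : ∫ t : ℝ in Set.Ioi 1, K * t ^ (-2 : ℝ) = K := by rw [integral_const_mul, c2, mul_one]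
  rw [← a2, ← b2, ← integral_const_mul]
  refine le_of_le_of_eq ?_ ((integral_add (b1.const_mul A) (c1.const_mul K)).trans (by rw [c3]))
  refine setIntegral_mono_on a1 ((b1.const_mul A).add (c1.const_mul K)) measurableSet_Ioi
    fun t ht => ?_
  have ht : 1 < t := ht
  have t0 : 0 < t := by linarith
  set w : ℝ := t ^ (-(2 + ε)) with hw
  have w0 : 0 ≤ w := by positivity
  have w1 : w ≤ t ^ (-2 : ℝ) := Real.rpow_le_rpow_of_exponent_le ht.le (by linarith)
  have e1 : (t : ℂ) ^ (-(1 + (ε + 1) : ℂ)) = w := by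
    rw [hw, Complex.ofReal_cpow t0.le]
    congr 1
    push_cast
    ring
  have e2 : (t : ℂ) ^ (-(1 + ε : ℂ)) = t * w := by
    rw [← e1, show -(1 + ε : ℂ) = 1 + -(1 + (ε + 1)) by ring,
      Complex.cpow_add _ _ (by exact_mod_cast t0.ne'), Complex.cpow_one]
  have key := mul_le_mul_of_nonneg_right (pointwise hC (h t ht.le) (u := ω * zz t)
    (by rw [norm_mul, hω, norm_zz, one_mul]) M) w0
  have f1 : ∀ m : ℕ, (ω ^ m * ((SS t : ℂ) * (t : ℂ) ^ (-(sv m + ε + 1)))).re =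
      SS t * w * ((ω * zz t) ^ m).re := fun m => by
    rw [add_assoc, cpow_sv' t0, e1, ← Complex.re_ofReal_mul]
    congr 1
    push_cast
    ring
  have f2 : ∀ m : ℕ, (ω ^ m * (t : ℂ) ^ (-(sv m + ε))).re = t * w * ((ω * zz t) ^ m).re :=
    fun m => by
    rw [cpow_sv' t0, e2, ← Complex.re_ofReal_mul]
    congr 1
    push_cast
    ring
  simp only [f1, f2]
  rw [← hK] at key
  have g1 : ∑ m ∈ range M, kc M m * (1 - (-1) ^ m) * (SS t * w * ((ω * zz t) ^ m).re) =
      (SS t * ∑ m ∈ range M, kc M m * (1 - (-1) ^ m) * ((ω * zz t) ^ m).re) * w := by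
    rw [Finset.mul_sum, Finset.sum_mul]
    exact Finset.sum_congr rfl fun m _ => by ring
  have g2 : ∑ m ∈ range M, kc M m * (1 + (-1) ^ m) * (t * w * ((ω * zz t) ^ m).re) =
      (t * ∑ m ∈ range M, kc M m * (1 + (-1) ^ m) * ((ω * zz t) ^ m).re) * w := by
    rw [Finset.mul_sum, Finset.sum_mul]
    exact Finset.sum_congr rfl fun m _ => by ring
  rw [g1, g2]
  nlinarith [mul_le_mul_of_nonneg_left w1 K0]

end Pool.Agent.Lib.MP_5db4ad_nt
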