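import Pool.Agent.Lib.MP_5db4ad_nt.Integral

/-!
Passage to the limit in the averaging inequality.
-/

namespace Pool.Agent.Lib.MP_5db4ad_nt

open Finset Filter Topology

/-- the factor removed from the Dirichlet series -/
noncomputable def WW (s : ℂ) : ℂ :=
  riemannZeta s * riemannZeta s * ∏ p ∈ Nat.primesBelow 3401, ff ((p : ℂ) ^ (-s))

lemma shift_tendsto (s : ℂ) : Tendsto (fun e : ℝ => s + e) (𝓝[>] 0) (𝓝 s) := by
  have : Continuous fun e : ℝ => s + e := by fun_prop
  simpa using (this.tendsto 0).mono_left nhdsWithin_le_nhds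

lemma pole_tendsto : Tendsto (fun e : ℝ => (e : ℂ) * (1 - 2 * (2 : ℂ) ^ (-(1 + e : ℂ)))⁻¹) (𝓝[>] 0)
    (𝓝 (Real.log 2 : ℂ)⁻¹) := by
  have d1 : HasDerivAt (fun z : ℂ => -(1 + z)) (-1) ((0 : ℝ) : ℂ) :=
    ((hasDerivAt_id _).const_add 1).neg
  have d2 := (((d1.const_cpow (c := 2) (Or.inl two_ne_zero)).const_mul 2).const_sub 1).comp_ofReal
  have e : -(2 * ((2 : ℂ) ^ (-(1 + ((0 : ℝ) : ℂ))) * Complex.log 2 * -1)) = (Real.log 2 : ℂ) := by
    rw [Complex.ofReal_log zero_le_two]
    simp [Complex.cpow_neg_one]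
  rw [e] at d2
  have h := (hasDerivAt_iff_tendsto_slope_zero.1 d2).mono_left
    (nhdsWithin_mono _ fun x (hx : 0 < x) => hx.ne')
  refine (h.inv₀ (by exact_mod_cast (Real.log_pos one_lt_two).ne')).congr fun x => ?_
  simp [Complex.cpow_neg_one, mul_comm]

lemma sv_ne_one {m : ℕ} (hm : 0 < m) : sv m - 1 ≠ 0 := by
  rw [sv, add_sub_cancel_left]
  have : (0 : ℝ) < m := by exact_mod_cast hm
  exact mul_ne_zero (by exact_mod_cast (mul_pos this tau_pos).ne') Complex.I_ne_zero

lemma res_tendsto {m : ℕ} (hm : Odd m) (hY : YY 3401 m ≠ 0) :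
    Tendsto (fun e : ℝ => (e : ℂ) * (WW (sv m + e) * (sv m + e))⁻¹) (𝓝[>] 0)
      (𝓝 (((4 / (9 * Real.log 2) : ℝ) : ℂ) * (YY 3401 m)⁻¹)) := by
  set H : ℂ → ℂ := fun s => riemannZeta s * riemannZeta s * ((1 - (2 : ℂ) ^ (-s)) ^ 2 *
    ∏ p ∈ (Ioc 2 3400).filter Nat.Prime, ff ((p : ℂ) ^ (-s))) * s with hH
  have c0 := (differentiableAt_riemannZeta (sub_ne_zero.1 (sv_ne_one hm.pos))).continuousAt
  have c1 : ContinuousAt H (sv m) := by
    refine ((c0.mul c0).mul (Continuous.continuousAt (Continuous.mul ?_ ?_))).mul continuousAt_id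
    · exact (continuous_const.sub (continuous_neg.const_cpow (Or.inl two_ne_zero))).pow 2
    · refine continuous_finsetProd _ fun p hp => ?_
      have : Continuous fun s : ℂ => (p : ℂ) ^ (-s) := continuous_neg.const_cpow
        (Or.inl (Nat.cast_ne_zero.2 (mem_filter.1 hp).2.ne_zero))
      unfold ff
      fun_prop
  have x2 : ∀ e : ℂ, (2 : ℂ) ^ (-(sv m + e)) = -(2 : ℂ) ^ (-(1 + e)) := fun e => by
    have := cpow_sv' (x := 2) two_pos m e
    rwa [zz_two, hm.neg_one_pow, neg_one_mul, Complex.ofReal_ofNat] at this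
  have c2 : H (sv m) = 9 / 4 * YY 3401 m := by
    have := x2 0
    rw [add_zero, add_zero, Complex.cpow_neg_one] at this
    simp only [hH, this, YY, pr]
    rw [Finset.prod_congr rfl fun p hp => by rw [cpow_xx (mem_filter.1 hp).2.pos]]
    ring
  have c3 := (c1.tendsto.comp (shift_tendsto _)).inv₀
    (by rw [c2]; exact mul_ne_zero (by norm_num) hY)
  have c4 := pole_tendsto.mul c3
  rw [c2] at c4
  have e1 : Nat.primesBelow 3401 = insert 2 ((Ioc 2 3400).filter Nat.Prime) := by
    ext p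
    simp only [Nat.mem_primesBelow, mem_insert, mem_filter, mem_Ioc]
    constructor
    · rintro ⟨a, b⟩
      have := b.two_le
      by_cases h : p = 2
      · exact Or.inl h
      · exact Or.inr ⟨⟨by omega, by omega⟩, b⟩
    · rintro (rfl | ⟨a, b⟩)
      · exact ⟨by norm_num, Nat.prime_two⟩
      · exact ⟨by omega, b⟩
  convert c4 using 2 with e
  · rw [mul_assoc (e : ℂ), ← mul_inv, WW, e1, Finset.prod_insert (by simp), sub_eq_add_neg 1,
      ← mul_neg, ← x2, ff]
    simp only [Function.comp, hH, Nat.cast_ofNat]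
    congr 2
    ring
  · push_cast
    rw [mul_inv]
    ring

lemma limit_bound {A C : ℝ} (hC : 0 ≤ C) (h : ∀ t, 1 ≤ t → |SS t| ≤ A * t + C) {ω : ℂ}
    (hω : ‖ω‖ = 1) {M : ℕ} (hM : 0 < cor30 M 0) (hM' : 0 < M)
    (hY : ∀ m < M, Odd m → YY 3401 m ≠ 0) :
    8 / (9 * Real.log 2) * ∑ m ∈ range M, (if Odd m then TT M 3401 443 ω m else 0) ≤ A := by
  set κ : ℝ := 4 / (9 * Real.log 2) with hκ
  have κ0 : 0 ≤ κ := by have := Real.log_pos one_lt_two; positivity
  set g : ℕ → ℝ → ℂ := fun m e => ω ^ m * ((e : ℂ) * (WW (sv m + e) * (sv m + e))⁻¹) with hg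
  set K := C * (2 * ∑ m ∈ range M, kc M m)
  have t1 : Tendsto (fun e => ∑ m ∈ range M, kc M m * (1 - (-1) ^ m) *
      ((g m e).re - 443 / 1000000 * ‖g m e‖)) (𝓝[>] 0)
      (𝓝 (∑ m ∈ range M, 4 * κ * cor30 M 0 * if Odd m then TT M 3401 443 ω m else 0)) := by
    refine tendsto_finsetSum _ fun m hm => ?_
    rcases Nat.even_or_odd m with hm' | hm'
    · simp [hm'.neg_one_pow, Nat.not_odd_iff_even.2 hm']
    have a1 := (res_tendsto hm' (hY m (mem_range.1 hm) hm')).const_mul (ω ^ m)
    have a2 := (((Complex.continuous_re.tendsto _).comp a1).sub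
      (a1.norm.const_mul (443 / 1000000))).const_mul (kc M m * (1 - (-1) ^ m))
    refine a2.trans (le_of_eq (congrArg _ ?_))
    have : (cor30 M 0 : ℝ) ≠ 0 := by exact_mod_cast hM.ne'
    rw [← hκ, if_pos hm', TT, kc, if_neg hm'.pos.ne', hm'.neg_one_pow, mul_left_comm (ω ^ m),
      Complex.re_ofReal_mul, norm_mul (κ : ℂ), Complex.norm_real, Real.norm_of_nonneg κ0]
    push_cast
    field_simp
    ring
  have t2 : Tendsto (fun e : ℝ => A * ∑ m ∈ range M, kc M m * (1 + (-1) ^ m) *
      (ω ^ m * ((e : ℂ) * (sv m + e - 1)⁻¹)).re + e * K) (𝓝[>] 0)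
      (𝓝 (A * (∑ m ∈ range M, if m = 0 then 2 * (cor30 M 0 : ℝ) else 0) + 0 * K)) := by
    refine (Tendsto.const_mul _ (tendsto_finsetSum _ fun m _ => ?_)).add
      ((tendsto_id.mono_left nhdsWithin_le_nhds).mul_const K)
    split_ifs with hm
    · refine tendsto_const_nhds.congr' ?_
      filter_upwards [self_mem_nhdsWithin] with e he
      have : (e : ℂ) ≠ 0 := by exact_mod_cast (Set.mem_Ioi.1 he).ne'
      simp [hm, sv, kc, this]
      ring
    · have a1 := ((shift_tendsto 0).mul (((shift_tendsto (sv m)).sub_const 1).inv₀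
        (sv_ne_one (Nat.pos_of_ne_zero hm)))).const_mul (ω ^ m)
      have a2 := ((Complex.continuous_re.tendsto _).comp a1).const_mul (kc M m * (1 + (-1) ^ m))
      simpa using a2
  have key := le_of_tendsto_of_tendsto t1 t2 (by
    filter_upwards [self_mem_nhdsWithin] with e he
    have he : 0 < e := he
    have a1 := mul_le_mul_of_nonneg_left (averaged hC h he hω M) he.le
    rw [mul_add, mul_left_comm e A, Finset.mul_sum, Finset.mul_sum] at a1
    refine le_trans (Finset.sum_le_sum fun m _ => ?_) (a1.trans (le_of_eq ?_))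
    · rw [mul_left_comm e]
      refine mul_le_mul_of_nonneg_left ?_ (mul_nonneg (kc_nonneg _ _) ?_)
      · have r1 : 1 < (sv m + e).re := by simp [sv, he]
        have b1 := euler_tail r1
        change ‖_ * WW _ - 1‖ ≤ _ at b1
        have b2 : WW (sv m + e) ≠ 0 := fun hh => by
          rw [hh] at b1
          norm_num at b1
        have b3 : (e : ℂ) * (ω ^ m * (LSeries aa (sv m + e) / (sv m + e))) =
            g m e + (LSeries aa (sv m + e) * WW (sv m + e) - 1) * g m e := by
          simp only [hg, mul_inv, div_eq_mul_inv]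
          field_simp
          ring
        rw [← Complex.re_ofReal_mul, b3, Complex.add_re, sub_eq_add_neg]
        refine add_le_add le_rfl (neg_le_of_abs_le ((Complex.abs_re_le_norm _).trans ?_))
        rw [norm_mul]
        exact mul_le_mul_of_nonneg_right b1 (norm_nonneg _)
      · rcases neg_one_pow_eq_or ℝ m with h | h <;> rw [h] <;> norm_num
    · congr 2
      refine Finset.sum_congr rfl fun m _ => ?_
      rw [mul_left_comm (ω ^ m), Complex.re_ofReal_mul]
      ring)
  rw [← Finset.mul_sum, Finset.sum_ite_eq', if_pos (mem_range.2 hM')] at key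
  have : (0 : ℝ) < cor30 M 0 := by exact_mod_cast hM
  rw [show 8 / (9 * Real.log 2) = 2 * κ by rw [hκ]; ring]
  nlinarith

lemma sum_odd (T : ℕ → ℝ) (J : ℕ) : ∑ m ∈ range (8 * J), (if Odd m then T m else 0) =
    ∑ i ∈ range J, T (fr 0 2 i) + ∑ i ∈ range J, T (fr 1 2 i) + ∑ i ∈ range J, T (fr 2 2 i) +
      ∑ i ∈ range J, T (fr 3 2 i) := by
  induction J with
  | zero => simp
  | succ J ih =>
    rw [mul_add, mul_one, Finset.sum_range_add, ih]
    simp only [Finset.sum_range_succ, Finset.sum_range_zero, fr, Nat.odd_iff]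
    rw [if_neg (by omega), if_pos (by omega), if_neg (by omega), if_pos (by omega),
      if_neg (by omega), if_pos (by omega), if_neg (by omega), if_pos (by omega)]
    ring_nf

end Pool.Agent.Lib.MP_5db4ad_nt
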