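import Mathlib

/-!
Fixed point arithmetic on natural numbers, written for evaluation by the kernel.
A natural number `a` stands for the real number `(a - 2 ^ 68) / 2 ^ 64`.  Vectors are stored as
one natural number with slots of 144 bits.
-/

namespace Pool.Agent.Lib.MP_5db4ad_nt

/-- lists of pairs of natural numbers -/
inductive L : Type
  | nil : L
  | cons : ℕ → ℕ → L → L

/-- evaluate `a` before passing it on -/
noncomputable def frc {β : Type} (a : ℕ) (k : ℕ → β) : β :=
  Nat.rec (k (nat_lit 0)) (fun n _ => k (Nat.succ n)) a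

/-- evaluate an integer before passing it on -/
noncomputable def frcI {β : Type} (a : ℤ) (k : ℤ → β) : β :=
  Int.rec (fun n => frc n fun m => k (Int.ofNat m)) (fun n => frc n fun m => k (Int.negSucc m)) a

/-- real part of a product before rounding; `o` is the vector of ones -/
def preRe (o a b c d : ℕ) : ℕ :=
  Nat.sub (Nat.add (Nat.add (Nat.mul a c) (Nat.mul b (Nat.sub (nat_lit 590295810358705651712) d)))
      (Nat.mul o (Nat.mul (nat_lit 295147905179352825856)
        (Nat.sub (Nat.add d (nat_lit 73786976294838206464)) c))))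
    (Nat.add (Nat.mul (Nat.add a b) (nat_lit 295147905179352825856))
      (Nat.mul o (nat_lit 16333553612205046246241981156724874149888)))

/-- imaginary part of a product before rounding -/
def preIm (o a b c d : ℕ) : ℕ :=
  Nat.sub (Nat.add (Nat.add (Nat.mul a d) (Nat.mul b c))
      (Nat.mul o (Nat.mul (nat_lit 295147905179352825856)
        (Nat.sub (nat_lit 664082786653543858176) (Nat.add c d)))))
    (Nat.add (Nat.mul (Nat.add a b) (nat_lit 295147905179352825856))
      (Nat.mul o (nat_lit 16333553612205046246241981156724874149888)))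

/-- real part of a product -/
def mre (a b c d : ℕ) : ℕ := Nat.shiftRight (preRe (nat_lit 1) a b c d) (nat_lit 64)

/-- imaginary part of a product -/
def mim (a b c d : ℕ) : ℕ := Nat.shiftRight (preIm (nat_lit 1) a b c d) (nat_lit 64)

/-- product of two numbers -/
noncomputable def cmul {β : Type} (a b c d : ℕ) (k : ℕ → ℕ → β) : β :=
  frc (mre a b c d) fun x => frc (mim a b c d) fun y => k x y

/-- the vector of the first `2 ^ l` terms of a geometric progression -/
noncomputable def geo {β : Type} (l : ℕ) (k : ℕ → ℕ → β) : ℕ → ℕ → ℕ → ℕ → ℕ → ℕ → β :=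
  Nat.rec (fun _ _ X Y _ _ => k X Y) (fun _ ih w o X Y c d =>
    frc (Nat.mul o (nat_lit 1208925819614629174706175)) fun msk =>
    frc (Nat.add X (Nat.shiftLeft
      (Nat.land (Nat.shiftRight (preRe o X Y c d) (nat_lit 64)) msk) w)) fun X' =>
    frc (Nat.add Y (Nat.shiftLeft
      (Nat.land (Nat.shiftRight (preIm o X Y c d) (nat_lit 64)) msk) w)) fun Y' =>
    frc (Nat.add o (Nat.shiftLeft o w)) fun o' => frc (Nat.add w w) fun w' =>
    cmul c d c d fun c' d' => ih w' o' X' Y' c' d') l

/-- multiply `r` times by `(c, d)` -/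
noncomputable def mulPow {β : Type} (r c d : ℕ) (k : ℕ → ℕ → β) : ℕ → ℕ → β :=
  Nat.rec k (fun _ ih a b => cmul a b c d ih) r

/-- square `e` times -/
noncomputable def sqPow {β : Type} (e : ℕ) (k : ℕ → ℕ → β) : ℕ → ℕ → β :=
  Nat.rec k (fun _ ih a b => cmul a b a b ih) e

/-- first term `z ^ (2 r + 1) / (n + 1)` and ratio `z ^ (2 * 2 ^ e)` -/
noncomputable def start {β : Type} (r e n a b : ℕ) (k : ℕ → ℕ → ℕ → ℕ → β) : β :=
  cmul a b a b fun c d => mulPow r c d (fun g h => sqPow e (fun c' d' =>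
    frc (Nat.div (Nat.add g (Nat.mul (nat_lit 295147905179352825856) n)) (Nat.succ n)) fun w =>
    frc (Nat.div (Nat.add h (Nat.mul (nat_lit 295147905179352825856) n)) (Nat.succ n)) fun w' =>
    k w w' c' d') c d) a b

/-- first slot of a vector -/
def hd (X : ℕ) : ℕ := Nat.land X (nat_lit 22300745198530623141535718272648361505980415)

/-- the other slots -/
def tl (X : ℕ) : ℕ := Nat.shiftRight X (nat_lit 144)

/-- multiply the entries of a list by `(1 - w) ^ 2 (1 + 2 w)`, `w` running through a vector -/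
noncomputable def updP (l : L) : ℕ → ℕ → L :=
  L.rec (fun _ _ => L.nil) (fun x y _ ih X Y =>
    frc (hd X) fun a => frc (hd Y) fun b => frc (tl X) fun X' => frc (tl Y) fun Y' =>
    frc (Nat.sub (nat_lit 608742554432415203328) a) fun u =>
    frc (Nat.sub (nat_lit 590295810358705651712) b) fun v =>
    cmul u v u v fun e f =>
    frc (Nat.sub (Nat.add a a) (nat_lit 276701161105643274240)) fun g =>
    frc (Nat.sub (Nat.add b b) (nat_lit 295147905179352825856)) fun h =>
    cmul e f g h fun r s => cmul x y r s fun x' y' => L.cons x' y' (ih X' Y')) l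

/-- `2 ^ 80` times the logarithmic series at `1 / q` -/
noncomputable def logS (K q : ℕ) : ℕ → ℕ → ℕ → ℕ :=
  Nat.rec (fun _ s _ => s) (fun _ ih i s p =>
    frc (Nat.succ i) fun i' => frc (Nat.mul p q) fun p' =>
    frc (Nat.add s (Nat.div (nat_lit 1208925819614629174706176) (Nat.mul i' p'))) fun s' =>
    ih i' s' p') K

/-- four sums of terms of the exponential series at `F / 2 ^ 64`, scaled by `2 ^ 104` -/
noncomputable def expS {β : Type} (K F : ℕ) (k : ℕ → ℕ → ℕ → ℕ → β) :
    ℕ → ℕ → ℕ → ℕ → ℕ → ℕ → β :=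
  Nat.rec (fun _ _ s0 s1 s2 s3 => k s0 s1 s2 s3) (fun _ ih j t s0 s1 s2 s3 =>
    frc (Nat.succ j) fun j' =>
    frc (Nat.div (Nat.shiftRight (Nat.mul t F) (nat_lit 64)) j') fun t' =>
    frc (Nat.add s0 t) fun r => ih j' t' s1 s2 s3 r) K

/-- the unit `(1 - 1 / q) ^ (i τ)` -/
noncomputable def unitQ {β : Type} (K1 K2 q : ℕ) (k : ℕ → ℕ → β) : β :=
  frc (Nat.shiftRight (Nat.mul (nat_lit 83607287586168170260)
    (logS K1 q (nat_lit 0) (nat_lit 0) (nat_lit 1))) (nat_lit 80)) fun F =>
  expS K2 F (fun s0 s1 s2 s3 =>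
    frc (Nat.shiftRight (Nat.sub (Nat.add (nat_lit 324518553658426726783156020576256) s0) s2)
      (nat_lit 40)) fun a =>
    frc (Nat.shiftRight (Nat.sub (Nat.add (nat_lit 324518553658426726783156020576256) s3) s1)
      (nat_lit 40)) fun b =>
    k a b) (nat_lit 0) (nat_lit 20282409603651670423947251286016) (nat_lit 0) (nat_lit 0)
      (nat_lit 0) (nat_lit 0)

/-- primality test for `100 < q < 10000` -/
def isP (q : ℕ) : Bool := Nat.beq (Nat.gcd q (nat_lit 2305567963945518424753102147331756070))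
  (nat_lit 1)

/-- primality test for `q ≤ 100` -/
def isP' (q : ℕ) : Bool :=
  Nat.beq (Nat.land (Nat.shiftRight (nat_lit 159085582874019712269820766380) q) (nat_lit 1))
    (nat_lit 1)

/-- the integers `n + 1, ..., n + t`, all at most `100` -/
noncomputable def run1 (r e l t : ℕ) (k : ℕ → ℕ → ℕ → ℕ → ℕ → L → Bool) :
    ℕ → ℕ → ℕ → ℕ → ℕ → L → Bool :=
  Nat.rec k (fun _ ih n a b X Y P =>
    frc (Nat.succ n) fun q => unitQ (nat_lit 50) (nat_lit 32) q fun u v =>
    cmul a b u v fun a' b' => start r e n a' b' fun w w' c d =>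
    geo l (fun U V => frc (Nat.add X U) fun X' => frc (Nat.add Y V) fun Y' =>
      ih q a' b' X' Y' (Bool.rec P (updP P U V) (isP' q)))
      (nat_lit 144) (nat_lit 1) w w' c d) t

/-- the integers `n + 1, ..., n + t`, all larger than `100` -/
noncomputable def run2 (r e l t : ℕ) (k : ℕ → ℕ → ℕ → ℕ → ℕ → ℕ → ℕ → ℕ → Bool) :
    ℕ → ℕ → ℕ → ℕ → ℕ → ℕ → ℕ → ℕ → Bool :=
  Nat.rec k (fun _ ih n a b X Y j Z T =>
    frc (Nat.succ n) fun q => unitQ (nat_lit 11) (nat_lit 12) q fun u v =>
    cmul a b u v fun a' b' => start r e n a' b' fun w w' c d =>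
    geo l (fun U V => frc (Nat.add X U) fun X' => frc (Nat.add Y V) fun Y' =>
      Bool.rec (ih q a' b' X' Y' j Z T)
        (cmul w w' w w' fun x x' => cmul c d c d fun c' d' =>
          geo l (fun U' V' => frc (Nat.add Z U') fun Z' => frc (Nat.add T V') fun T' =>
            frc (Nat.succ j) fun j' => ih q a' b' X' Y' j' Z' T')
            (nat_lit 144) (nat_lit 1) x x' c' d') (isP q))
      (nat_lit 144) (nat_lit 1) w w' c d) t

/-- a complex ball with centre `(re + i im) / 2 ^ 64` and radius `rad / 2 ^ 64` -/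
structure Ball where
  /-- real part -/
  re : ℤ
  /-- imaginary part -/
  im : ℤ
  /-- radius -/
  rad : ℕ

/-- evaluate a ball before passing it on -/
noncomputable def frcB {β : Type} (x : Ball) (k : Ball → β) : β :=
  frcI x.re fun a => frcI x.im fun b => frc x.rad fun r => k ⟨a, b, r⟩

/-- upper bound for the modulus -/
def nrm (a b : ℤ) : ℕ :=
  Nat.add (Nat.add (Nat.add a.natAbs (Nat.sub b.natAbs a.natAbs))
    (Nat.div (Nat.mul (nat_lit 5) (Nat.sub a.natAbs (Nat.sub a.natAbs b.natAbs))) (nat_lit 12)))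
    (nat_lit 1)

/-- sum -/
def Ball.add (x y : Ball) : Ball := ⟨x.re + y.re, x.im + y.im, x.rad + y.rad⟩

/-- product -/
def Ball.mul (x y : Ball) : Ball :=
  ⟨(x.re * y.re - x.im * y.im) / 18446744073709551616,
    (x.re * y.im + x.im * y.re) / 18446744073709551616,
    (nrm x.re x.im * y.rad + nrm y.re y.im * x.rad + x.rad * y.rad) / 18446744073709551616 + 3⟩

/-- quotient by a natural number -/
def Ball.divN (x : Ball) (n : ℕ) : Ball := ⟨x.re / (n : ℤ), x.im / (n : ℤ), x.rad / n + 3⟩

/-- a biased pair as a ball -/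
def mkB (t a b r : ℕ) : Ball :=
  ⟨(a : ℤ) - 295147905179352825856 * (t : ℤ), (b : ℤ) - 295147905179352825856 * (t : ℤ), r⟩

/-- approximate inverse of the centre -/
def Ball.apx (x : Ball) : Ball :=
  ⟨x.re * 340282366920938463463374607431768211456 / (x.re * x.re + x.im * x.im),
    -x.im * 340282366920938463463374607431768211456 / (x.re * x.re + x.im * x.im), 0⟩

/-- thirty times the autocorrelation of the parabolic window -/
def cor30 (M m : ℕ) : ℕ :=
  ((M + 1 - m) ^ 5 - (M + 1 - m)) + 5 * (m * (M + 1)) * ((M + 1 - m) ^ 3 - (M + 1 - m))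

/-- lower bound for one term; `z`, `p`, `u`, `y`, `o` are balls for the partial sum of the zeta
function, the product over small primes, the sum over large primes, and two unit powers -/
noncomputable def term (M N eta m : ℕ) (z p u y o : Ball) (k : ℤ → Bool) : Bool :=
  frcB ⟨18446744073709551616, 83607287586168170260 * (m : ℤ), 2 * m⟩ fun s =>
  frcB ((Ball.mul ⟨y.im, -y.re, y.rad⟩ ⟨4070008449565276022, 0, 2⟩).divN m) fun e1 =>
  frcB ((s.mul y).divN (6 * (2 * N - 1) ^ 2)) fun e2 =>
  frcB (((z.add e1).add ⟨-e2.re, -e2.im, e2.rad⟩).add ⟨9223372036854775808, 0,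
    (4533 * m + 4000) ^ 4 * 18446744073709551616 / (1760000000000000 * (N - 1) ^ 4) + 1⟩) fun ze =>
  frcB (p.mul ⟨18446744073709551616 - 3 * u.re, -(3 * u.im), 3 * u.rad + 4000000000000000⟩)
    fun E =>
  frcB (ze.mul ze) fun z2 => frcB (z2.mul E) fun z3 => frcB (z3.mul s) fun Y =>
  frcB Y.apx fun R => frcB (R.mul Y) fun t =>
  frc (nrm (t.re - 18446744073709551616) t.im + t.rad) fun be =>
  Bool.rec false
    (frcB (o.mul ⟨R.re, R.im, nrm R.re R.im * be * (18446744073709551616 + 2 * be) /
        340282366920938463463374607431768211456 + 1⟩) fun Q =>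
      frcI ((Q.re - (Q.rad + eta * (nrm Q.re Q.im + Q.rad) / 1000000 + 1 : ℕ)) *
        (cor30 M m : ℤ) / (cor30 M 0 : ℤ)) k)
    (Nat.ble (2 * be) 18446744073709551616)

/-- sum of the lower bounds -/
noncomputable def fin (M N eta st j : ℕ) (tgt : ℤ) (P : L) :
    ℕ → ℤ → ℕ → ℕ → ℕ → ℕ → ℕ → ℕ → ℕ → ℕ → Bool :=
  L.rec (fun _ s _ _ _ _ _ _ _ _ => decide (tgt ≤ s)) (fun x y _ ih m s X Y Z T U V U' V' =>
    term M N eta m (mkB (N - 3) (hd X) (hd Y) 70368744177664) (mkB 1 x y 70368744177664)
      (mkB j (hd Z) (hd T) 70368744177664) (mkB 1 (hd U) (hd V) 70368744177664)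
      (mkB 1 (hd U') (hd V') 70368744177664) fun v =>
    frcI (s + v) fun s' => frc (Nat.add m st) fun m' =>
    frc (tl X) fun X' => frc (tl Y) fun Y' => frc (tl Z) fun Z' => frc (tl T) fun T' =>
    frc (tl U) fun A => frc (tl V) fun A' => frc (tl U') fun B => frc (tl V') fun B' =>
    ih m' s' X' Y' Z' T' A A' B B') P

/-- list of ones -/
noncomputable def ones (K : ℕ) : L :=
  Nat.rec L.nil (fun _ ih =>
    L.cons (nat_lit 313594649253062377472) (nat_lit 295147905179352825856) ih) K

/-- the whole computation for the frequencies `2 (r + 2 ^ e i) + 1`, `i < 2 ^ l` -/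
noncomputable def chunk (N eta oa ob r e l : ℕ) (tgt : ℤ) : Bool :=
  run1 r e l 98 (fun n a b X Y P => run2 r e l (N - 101) (fun _ a b X Y j Z T =>
    unitQ 11 12 (2 * N - 1) fun u v => cmul a b u v fun y y' =>
    start r e 0 y y' fun w w' c d => geo l (fun U V =>
    start r e 0 oa ob fun w w' c d => geo l (fun U' V' =>
      fin (2 ^ (e + l + 1)) N eta (2 ^ (e + 1)) j tgt P (2 * r + 1) 0 X Y Z T U V U' V')
      144 1 w w' c d) 144 1 w w' c d) n a b X Y 0 0 0)
    2 276701161105643274240 295147905179352825856 0 0 (ones (2 ^ l))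

end Pool.Agent.Lib.MP_5db4ad_nt
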