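import Pool.Agent.Lib.MP_5db4ad_nt.UnitSpec

/-!
Invariants of the two loops.
-/

namespace Pool.Agent.Lib.MP_5db4ad_nt

open Finset

/-- the frequencies of one chunk -/
def fr (r e i : ℕ) : ℕ := 2 * r + 1 + 2 * 2 ^ e * i

/-- `q ^ (-1 - i m τ)` -/
noncomputable def xx (m q : ℕ) : ℂ := zz q ^ m / q

/-- local factor -/
noncomputable def ff (x : ℂ) : ℂ := (1 - x) ^ 2 * (1 + 2 * x)

lemma norm_xx (m q : ℕ) : ‖xx m q‖ = 1 / q := by
  rw [xx, norm_div, norm_pow, norm_zz, one_pow, Complex.norm_natCast]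

lemma norm_ff_sub (x : ℂ) : ‖ff x - 1‖ ≤ 3 * ‖x‖ ^ 2 + 2 * ‖x‖ ^ 3 := by
  have : ff x - 1 = -(3 * x ^ 2) + 2 * x ^ 3 := by unfold ff; ring
  rw [this]
  refine (norm_add_le _ _).trans (le_of_eq ?_)
  simp

/-- the list stores approximations of `G 0, ..., G (J - 1)` -/
def All (e : ℝ) : ℕ → L → (ℕ → ℂ) → Prop
  | 0, l, _ => l = L.nil
  | J + 1, l, G => ∃ x y l', l = L.cons x y l' ∧ ‖cvt 1 x y - G 0‖ ≤ e ∧
      All e J l' fun k => G (k + 1)

lemma All.mono {e e' : ℝ} (he : e ≤ e') : ∀ {J : ℕ} {l : L} {G : ℕ → ℂ}, All e J l G →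
    All e' J l G
  | 0, _, _, h => h
  | _ + 1, _, _, ⟨x, y, l', h1, h2, h3⟩ => ⟨x, y, l', h1, h2.trans he, All.mono he h3⟩

lemma all_ones : ∀ K : ℕ, All 0 K (ones K) fun _ => 1
  | 0 => rfl
  | K + 1 => ⟨_, _, ones K, rfl, by
      have : cvt 1 313594649253062377472 295147905179352825856 = 1 := by
        apply Complex.ext <;> norm_num [cvt]
      exact this ▸ by simp, all_ones K⟩

lemma cvt_parts {a b : ℕ} (h : ‖cvt 1 a b‖ ≤ 1) :
    2 ^ 68 - 2 ^ 64 ≤ a ∧ a ≤ 2 ^ 68 + 2 ^ 64 ∧ 2 ^ 68 - 2 ^ 64 ≤ b ∧ b ≤ 2 ^ 68 + 2 ^ 64 := by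
  have h1 := abs_le.1 ((Complex.abs_re_le_norm _).trans h)
  have h2 := abs_le.1 ((Complex.abs_im_le_norm _).trans h)
  simp only [cvt, Nat.cast_one, one_mul] at h1 h2
  refine ⟨?_, ?_, ?_, ?_⟩
  · exact_mod_cast (show (276701161105643274240 : ℝ) ≤ a by linarith [h1.1])
  · exact_mod_cast (show (a : ℝ) ≤ 313594649253062377472 by linarith [h1.2])
  · exact_mod_cast (show (276701161105643274240 : ℝ) ≤ b by linarith [h2.1])
  · exact_mod_cast (show (b : ℝ) ≤ 313594649253062377472 by linarith [h2.2])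

lemma upd_one {x y a b : ℕ} {G w : ℂ} {e g ν : ℝ} (hx : ‖cvt 1 x y - G‖ ≤ e)
    (ha : ‖cvt 1 a b - w‖ ≤ 1 / 2 ^ 32) (hG : ‖G‖ ≤ g) (hw : ‖w‖ ≤ 1 / 3) (hν : ‖ff w‖ ≤ ν)
    (hν' : ν ≤ 7 / 4) (hg : 1 ≤ g) (hg' : g ≤ 8) (he : e ≤ 1 / 2 ^ 10) :
    let u := 608742554432415203328 - a
    let v := 590295810358705651712 - b
    let s := a + a - 276701161105643274240
    let t := b + b - 295147905179352825856
    let r := mre (mre u v u v) (mim u v u v) s t
    let r' := mim (mre u v u v) (mim u v u v) s t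
    ‖cvt 1 (mre x y r r') (mim x y r r') - G * ff w‖ ≤ e * ν + 12 / 2 ^ 32 * g := by
  intro u v s t r r'
  have hrho : rho = 2 / 2 ^ 64 := rfl
  obtain ⟨a1, a2, b1, b2⟩ := cvt_parts ((norm_le_add ha hw).trans (by norm_num))
  have e1 : cvt 1 u v = 1 - cvt 1 a b := by
    have c1 : (u : ℝ) = 608742554432415203328 - a := by
      rw [Nat.cast_sub (by omega)]; rfl
    have c2 : (v : ℝ) = 590295810358705651712 - b := by
      rw [Nat.cast_sub (by omega)]; rfl
    apply Complex.ext <;> simp only [cvt, c1, c2, Complex.sub_re, Complex.sub_im, Complex.one_re,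
      Complex.one_im] <;> push_cast <;> ring
  have e2 : cvt 1 s t = 1 + 2 * cvt 1 a b := by
    have c1 : (s : ℝ) = a + a - 276701161105643274240 := by
      rw [Nat.cast_sub (by omega), Nat.cast_add]; rfl
    have c2 : (t : ℝ) = b + b - 295147905179352825856 := by
      rw [Nat.cast_sub (by omega), Nat.cast_add]; rfl
    rw [two_mul]
    apply Complex.ext <;> simp only [cvt, c1, c2, Complex.add_re, Complex.add_im, Complex.one_re,
      Complex.one_im] <;> push_cast <;> ring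
  have f1 : ‖cvt 1 u v - (1 - w)‖ ≤ 1 / 2 ^ 32 := by
    rw [e1, sub_sub_sub_cancel_left, norm_sub_rev]; exact ha
  have f2 : ‖cvt 1 s t - (1 + 2 * w)‖ ≤ 2 / 2 ^ 32 := by
    rw [e2, add_sub_add_left_eq_sub, ← mul_sub, norm_mul, Complex.norm_ofNat]; linarith
  have n1 : ‖1 - w‖ ≤ 4 / 3 := (norm_sub_le _ _).trans (by rw [norm_one]; linarith)
  have n2 : ‖1 + 2 * w‖ ≤ 5 / 3 := (norm_add_le _ _).trans (by
    rw [norm_one, norm_mul, Complex.norm_ofNat]; linarith)
  have n3 : ‖(1 - w) * (1 - w)‖ ≤ 16 / 9 := by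
    rw [norm_mul]; nlinarith [norm_nonneg (1 - w)]
  have g1 : ‖cvt 1 (mre u v u v) (mim u v u v) - (1 - w) * (1 - w)‖ ≤ 3 / 2 ^ 32 :=
    (cmul_facts f1 f1 n1 n1 (by norm_num) (by norm_num)).2.2.trans (by rw [hrho]; norm_num)
  have g2 : ‖cvt 1 r r' - ff w‖ ≤ 9 / 2 ^ 32 := by
    rw [ff, sq]
    exact (cmul_facts g1 f2 n3 n2 (by norm_num) (by norm_num)).2.2.trans (by rw [hrho]; norm_num)
  have he0 : 0 ≤ e := (norm_nonneg _).trans hx
  have hν0 : 0 ≤ ν := (norm_nonneg _).trans hν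
  refine (cmul_facts hx g2 hG hν (by linarith) (by nlinarith)).2.2.trans ?_
  rw [hrho]
  linarith

lemma updP_spec {e g ν : ℝ} (hν' : ν ≤ 7 / 4) (hg : 1 ≤ g) (hg' : g ≤ 8) (he : e ≤ 1 / 2 ^ 10) :
    ∀ (J : ℕ) (P : L) (U V : ℕ) (G w : ℕ → ℂ), All e J P G → Vec J 1 U V w (1 / 2 ^ 32) →
    (∀ k, ‖G k‖ ≤ g) → (∀ k, ‖w k‖ ≤ 1 / 3) → (∀ k, ‖ff (w k)‖ ≤ ν) →
    All (e * ν + 12 / 2 ^ 32 * g) J (updP P U V) fun k => G k * ff (w k)
  | 0, P, U, V, G, w, h, _, _, _, _ => by
    obtain rfl : P = L.nil := h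
    rfl
  | J + 1, P, U, V, G, w, ⟨x, y, l, h1, h2, h3⟩, hV, hG, hw, hν => by
    subst h1
    obtain ⟨c1, c2⟩ := hV.uncons (by norm_num) (by linarith [hw 0])
    refine ⟨_, _, updP l (tl U) (tl V), ?_, upd_one h2 c1 (hG 0) (hw 0) (hν 0) hν' hg hg' he,
      updP_spec hν' hg hg' he J l _ _ _ _ h3 c2 (fun k => hG _) (fun k => hw _) fun k => hν _⟩
    simp only [updP, frc_eq, cmul_eq]
    rfl

lemma step_geo {β : Type} (k : ℕ → ℕ → ℕ → ℕ → ℕ → ℕ → β) {r e l n a b : ℕ} {z : ℂ} {ε μ : ℝ}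
    (hz : ‖z‖ = 1) (ha : ‖cvt 1 a b - z‖ ≤ ε) (hr : r ≤ 8) (he : e ≤ 3) (hl : l ≤ 8)
    (hn : n < 2 ^ 13) (h1 : 1 / 2 ^ 52 ≤ ε) (h2 : ε ≤ 1 / 2 ^ 46) (h3 : 1 / (n + 1) ≤ μ)
    (h4 : μ ≤ 1) (h5 : 1 / 2 ^ 6 ≤ μ) :
    ∃ w w' c d U V, start r e n a b (fun w w' c d => geo l (k w w' c d) 144 1 w w' c d) =
      k w w' c d U V ∧ ‖cvt 1 w w' - z ^ (2 * r + 1) / (n + 1)‖ ≤ 2 * μ * (128 * ε) ∧
      ‖cvt 1 c d - z ^ (2 * 2 ^ e)‖ ≤ 128 * ε ∧
      Vec (2 ^ l) 1 U V (fun i => z ^ fr r e i / (n + 1)) (2 ^ 21 * μ * ε) := by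
  obtain ⟨w, w', c, d, e1, e2, e3⟩ := start_spec
    (fun w w' c d => geo l (k w w' c d) 144 1 w w' c d) hz ha hr he hn h1 h2
  have e2' : ‖cvt 1 w w' - z ^ (2 * r + 1) / (n + 1)‖ ≤ 2 * μ * (128 * ε) :=
    e2.trans (by gcongr)
  have h6 : (3 : ℝ) ^ l ≤ 3 ^ 8 := pow_le_pow_right₀ (by norm_num) hl
  have hrho : rho = 2 / 2 ^ 64 := rfl
  obtain ⟨U, V, e4, e5⟩ := geo_one (k w w' c d) (l := l) (z := z ^ (2 * 2 ^ e)) (μ := μ)
    (by rw [norm_pow, hz, one_pow])
    (by
      have : ‖(n : ℂ) + 1‖ = n + 1 := by exact_mod_cast Complex.norm_natCast (n + 1)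
      rw [norm_div, norm_pow, hz, one_pow, this]
      exact h3) h4 e3 e2' (by nlinarith) (by nlinarith)
  refine ⟨w, w', c, d, U, V, e1.trans e4, e2', e3, e5.mono (fun i _ => ?_) ?_⟩
  · rw [fr, pow_add z (2 * r + 1), pow_mul z (2 * 2 ^ e)]
    ring
  · have : 0 ≤ μ * ε := by nlinarith
    nlinarith

lemma zz_succ {n : ℕ} (hn : 1 ≤ n) :
    zz n * zz ((n + 1 : ℕ) / ((n + 1 : ℕ) - 1)) = zz (n + 1 : ℕ) := by
  have : (0 : ℝ) < n := by exact_mod_cast hn
  rw [← zz_mul this (by push_cast; rw [add_sub_cancel_right]; positivity)]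
  congr 1
  push_cast
  rw [add_sub_cancel_right]
  field_simp

lemma isP'_iff : ∀ q ≤ 100, isP' q = true ↔ q.Prime := by
  intro q hq
  interval_cases q <;> simp [isP'] <;> norm_num

lemma isP_iff {q : ℕ} (h1 : 100 < q) (h2 : q < 2 ^ 13) : isP q = true ↔ q.Prime := by
  have e : (2305567963945518424753102147331756070 : ℕ) = ∏ p ∈ (range 101).filter Nat.Prime, p := by
    decide +kernel
  have : isP q = true ↔ Nat.Coprime q 2305567963945518424753102147331756070 := by
    simp [isP, Nat.Coprime]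
  rw [this, e, Nat.coprime_prod_right_iff]
  constructor
  · intro h
    by_contra hq
    have a1 := Nat.minFac_sq_le_self (by omega) hq
    have a2 := Nat.minFac_prime (show q ≠ 1 by omega)
    have a3 : q.minFac < 101 := by nlinarith
    have := h _ (mem_filter.2 ⟨mem_range.2 a3, a2⟩)
    exact a2.one_lt.ne' (Nat.Coprime.eq_one_of_dvd this.symm (Nat.minFac_dvd q))
  · intro h p hp
    obtain ⟨hp1, hp2⟩ := mem_filter.1 hp
    exact (Nat.coprime_primes h hp2).2 (by have := mem_range.1 hp1; omega)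

/-- partial sum of the zeta function without its first two terms -/
noncomputable def acc (m n : ℕ) : ℂ := ∑ q ∈ Ioc 2 n, xx m q

/-- product of the local factors at the odd primes up to `n` -/
noncomputable def pr (m n : ℕ) : ℂ := ∏ q ∈ (Ioc 2 n).filter Nat.Prime, ff (xx m q)

/-- sum of squares over the primes in `(100, n]` -/
noncomputable def lin (m n : ℕ) : ℂ := ∑ q ∈ (Ioc 100 n).filter Nat.Prime, xx m q ^ 2

lemma filter_succ {a n : ℕ} (h : a ≤ n) : (Ioc a (n + 1)).filter Nat.Prime =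
    if (n + 1).Prime then insert (n + 1) ((Ioc a n).filter Nat.Prime)
    else (Ioc a n).filter Nat.Prime := by
  rw [← Finset.insert_Ioc_right_eq_Ioc_add_one h, Finset.filter_insert]

/-- bound for the products -/
noncomputable def gb (n : ℕ) : ℝ := 7 * (n - 1) / (n + 5)

lemma gb_facts {n : ℕ} (hn : 2 ≤ n) : 1 ≤ gb n ∧ gb n ≤ 7 ∧ gb n ≤ gb (n + 1) ∧
    gb (n + 1) / gb n ≤ 7 / 4 ∧ ∀ m, ‖ff (xx m (n + 1))‖ ≤ gb (n + 1) / gb n := by
  have h : (2 : ℝ) ≤ n := by exact_mod_cast hn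
  have e : gb (n + 1) / gb n = n * (n + 5) / ((n + 6) * (n - 1)) := by
    have : (n : ℝ) - 1 ≠ 0 := by linarith
    unfold gb
    push_cast
    field_simp
    ring
  have p : (0 : ℝ) < (n + 6) * (n - 1) := by nlinarith
  refine ⟨?_, ?_, ?_, ?_, fun m => ?_⟩
  · rw [gb, le_div_iff₀ (by linarith)]; linarith
  · rw [gb, div_le_iff₀ (by linarith)]; linarith
  · rw [gb, gb, div_le_div_iff₀ (by linarith) (by positivity)]; push_cast; nlinarith
  · rw [e, div_le_iff₀ p]; nlinarith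
  · have := norm_le_add (norm_ff_sub (xx m (n + 1))) norm_one.le
    refine this.trans ?_
    rw [e, norm_xx, le_div_iff₀ p]
    push_cast
    have e2 : (1 + (3 * (1 / ((n : ℝ) + 1)) ^ 2 + 2 * (1 / (n + 1)) ^ 3)) * ((n + 6) * (n - 1)) =
        ((n + 1) ^ 3 + 3 * (n + 1) + 2) * ((n + 6) * (n - 1)) / (n + 1) ^ 3 := by field_simp; ring
    rw [e2, div_le_iff₀ (by positivity)]
    obtain ⟨y, hy⟩ : ∃ y : ℝ, n = y + 2 := ⟨n - 2, by ring⟩
    have : 0 ≤ y := by linarith
    rw [hy, ← sub_nonneg]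
    ring_nf
    positivity

/-- invariant of the first loop -/
structure Inv1 (r e l n a b X Y : ℕ) (P : L) : Prop where
  /-- unit -/
  u : ‖cvt 1 a b - zz n‖ ≤ n / 2 ^ 59
  /-- sums -/
  s : Vec (2 ^ l) (n - 2) X Y (fun i => acc (fr r e i) n) (n / 2 ^ 31)
  /-- products -/
  p : All (n * (12 / 2 ^ 32) * gb n) (2 ^ l) P fun i => pr (fr r e i) n
  /-- size of products -/
  q : ∀ m, ‖pr m n‖ ≤ gb n

lemma acc_succ {n : ℕ} (hn : 2 ≤ n) (m : ℕ) :
    acc m n + zz (n + 1 : ℕ) ^ m / (n + 1) = acc m (n + 1) := by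
  rw [acc, acc, Finset.sum_Ioc_succ_top hn, xx]
  push_cast
  rfl

lemma run1_spec {r e l : ℕ} (hr : r ≤ 8) (he : e ≤ 3) (hl : l ≤ 8)
    (k : ℕ → ℕ → ℕ → ℕ → ℕ → L → Bool) (t : ℕ) : ∀ (n a b X Y : ℕ) (P : L), 2 ≤ n → n + t ≤ 100 →
    Inv1 r e l n a b X Y P → ∃ a' b' X' Y' P', run1 r e l t k n a b X Y P =
      k (n + t) a' b' X' Y' P' ∧ Inv1 r e l (n + t) a' b' X' Y' P' := by
  induction t with
  | zero => intro n a b X Y P _ _ h; exact ⟨a, b, X, Y, P, rfl, h⟩
  | succ t ih =>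
    intro n a b X Y P h2 h100 h
    have hn : (2 : ℝ) ≤ n := by exact_mod_cast h2
    have hn' : (n : ℝ) + 1 ≤ 100 := by exact_mod_cast (show n + 1 ≤ 100 by omega)
    have e0 : run1 r e l (t + 1) k n a b X Y P = unitQ 50 32 (n + 1) fun u v =>
        start r e n (mre a b u v) (mim a b u v) fun w w' c d => geo l (fun U V =>
          run1 r e l t k (n + 1) (mre a b u v) (mim a b u v) (X + U) (Y + V)
            (Bool.rec P (updP P U V) (isP' (n + 1)))) 144 1 w w' c d := by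
      simp only [run1, frc_eq, cmul_eq]
      rfl
    obtain ⟨u, v, e1, e2⟩ := unitQ_small (q := n + 1) (fun u v =>
        start r e n (mre a b u v) (mim a b u v) fun w w' c d => geo l (fun U V =>
          run1 r e l t k (n + 1) (mre a b u v) (mim a b u v) (X + U) (Y + V)
            (Bool.rec P (updP P U V) (isP' (n + 1)))) 144 1 w w' c d) (by omega) (by omega)
    have e3 := step_unit (norm_zz _) (norm_zz _) h.u e2 (by linarith)
    rw [zz_succ (by omega)] at e3
    obtain ⟨w, w', c, d, U, V, e4, -, -, e5⟩ := step_geo (ε := 1 / 2 ^ 52) (μ := 1 / 2)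
      (fun _ _ _ _ U V => run1 r e l t k (n + 1) (mre a b u v) (mim a b u v) (X + U) (Y + V)
            (Bool.rec P (updP P U V) (isP' (n + 1)))) (n := n) (norm_zz _)
      (e3.trans (by linarith)) hr he hl (by omega) le_rfl (by norm_num)
      (one_div_le_one_div_of_le (by norm_num) (by linarith)) (by norm_num) (by norm_num)
    obtain ⟨g1, g2, g3, g4, g5⟩ := gb_facts h2
    have g0 : 0 < gb n := by linarith
    obtain ⟨a', b', X', Y', P', e6, e7⟩ := ih (n + 1) (mre a b u v) (mim a b u v) (X + U) (Y + V)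
      (Bool.rec P (updP P U V) (isP' (n + 1))) (by omega) (by omega)
      ⟨by push_cast at e3 ⊢; linarith, by
        have := h.s.add e5
        rw [show n - 2 + 1 = n + 1 - 2 by omega] at this
        exact this.mono (fun i _ => acc_succ h2 _) (by push_cast; linarith), by
        by_cases hp : (n + 1).Prime
        · rw [(isP'_iff _ (by omega)).2 hp]
          have := updP_spec g4 g1 (by linarith) (by nlinarith) _ _ U V _
            (fun i => xx (fr r e i) (n + 1)) h.p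
            (e5.mono (fun i _ => by rw [xx]; push_cast; rfl) (by norm_num)) (fun i => h.q _)
            (fun i => by
              rw [norm_xx]; push_cast
              exact one_div_le_one_div_of_le (by norm_num) (by linarith)) fun i => g5 _
          have e8 : ∀ m, pr m (n + 1) = pr m n * ff (xx m (n + 1)) := fun m => by
            rw [pr, filter_succ h2, if_pos hp, Finset.prod_insert (by simp), mul_comm, pr]
          simp only [e8]
          refine this.mono ?_
          rw [mul_assoc, mul_div_cancel₀ _ g0.ne']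
          push_cast
          linarith
        · rw [Bool.eq_false_iff.2 fun hh => hp ((isP'_iff _ (by omega)).1 hh)]
          have e8 : ∀ m, pr m (n + 1) = pr m n := fun m => by
            rw [pr, filter_succ h2, if_neg hp, pr]
          simp only [e8]
          refine h.p.mono ?_
          push_cast
          gcongr
          linarith, fun m => by
        rw [pr, filter_succ h2]
        split_ifs
        · rw [Finset.prod_insert (by simp), norm_mul, ← div_mul_cancel₀ (gb (n + 1)) g0.ne']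
          exact mul_le_mul (g5 m) (h.q m) (norm_nonneg _) ((norm_nonneg _).trans (g5 m))
        · exact (h.q m).trans g3⟩
    refine ⟨a', b', X', Y', P', ?_, ?_⟩
    · rw [e0, e1, e4, e6, add_assoc, add_comm 1]
    · rwa [add_assoc, add_comm 1] at e7

/-- invariant of the second loop -/
structure Inv2 (r e l n a b X Y j Z T : ℕ) : Prop where
  /-- unit -/
  u : ‖cvt 1 a b - zz n‖ ≤ n / 2 ^ 59
  /-- sums -/
  s : Vec (2 ^ l) (n - 2) X Y (fun i => acc (fr r e i) n) (n / 2 ^ 31)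
  /-- sums of squares -/
  p : Vec (2 ^ l) j Z T (fun i => lin (fr r e i) n) (n / 2 ^ 31)
  /-- number of primes -/
  q : j ≤ n

lemma run2_spec {r e l : ℕ} (hr : r ≤ 8) (he : e ≤ 3) (hl : l ≤ 8)
    (k : ℕ → ℕ → ℕ → ℕ → ℕ → ℕ → ℕ → ℕ → Bool) (t : ℕ) : ∀ n a b X Y j Z T : ℕ, 100 ≤ n →
    n + t < 2 ^ 13 → Inv2 r e l n a b X Y j Z T → ∃ a' b' X' Y' j' Z' T',
      run2 r e l t k n a b X Y j Z T = k (n + t) a' b' X' Y' j' Z' T' ∧
      Inv2 r e l (n + t) a' b' X' Y' j' Z' T' := by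
  induction t with
  | zero => intro n a b X Y j Z T _ _ h; exact ⟨a, b, X, Y, j, Z, T, rfl, h⟩
  | succ t ih =>
    intro n a b X Y j Z T h2 h100 h
    have hrho : rho = 2 / 2 ^ 64 := rfl
    have hn : (100 : ℝ) ≤ n := by exact_mod_cast h2
    have hn' : (n : ℝ) + 1 ≤ 2 ^ 13 := by exact_mod_cast (show n + 1 ≤ 2 ^ 13 by omega)
    set K : ℕ → ℕ → ℕ → ℕ → ℕ → ℕ → ℕ → ℕ → Bool := fun a' b' w w' c d U V =>
      Bool.rec (run2 r e l t k (n + 1) a' b' (X + U) (Y + V) j Z T)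
        (geo l (fun U' V' => run2 r e l t k (n + 1) a' b' (X + U) (Y + V) (j + 1) (Z + U') (T + V'))
          144 1 (mre w w' w w') (mim w w' w w') (mre c d c d) (mim c d c d)) (isP (n + 1)) with hK
    have e0 : run2 r e l (t + 1) k n a b X Y j Z T = unitQ 11 12 (n + 1) fun u v =>
        start r e n (mre a b u v) (mim a b u v) fun w w' c d => geo l
          (K (mre a b u v) (mim a b u v) w w' c d) 144 1 w w' c d := by
      simp only [run2, frc_eq, cmul_eq, hK]
      rfl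
    obtain ⟨u, v, e1, e2⟩ := unitQ_large (q := n + 1) (fun u v =>
        start r e n (mre a b u v) (mim a b u v) fun w w' c d => geo l
          (K (mre a b u v) (mim a b u v) w w' c d) 144 1 w w' c d) (by omega) (by omega)
    have e3 := step_unit (norm_zz _) (norm_zz _) h.u e2 (by linarith)
    rw [zz_succ (by omega)] at e3
    obtain ⟨w, w', c, d, U, V, e4, f1, f2, e5⟩ := step_geo (ε := 1 / 2 ^ 46) (μ := 1 / 2 ^ 6)
      (K (mre a b u v) (mim a b u v)) (n := n) (norm_zz _)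
      (e3.trans (by linarith)) hr he hl (by omega) (by norm_num) le_rfl
      (one_div_le_one_div_of_le (by norm_num) (by linarith)) (by norm_num) le_rfl
    have i1 : ‖cvt 1 (mre a b u v) (mim a b u v) - zz (n + 1 : ℕ)‖ ≤ (n + 1 : ℕ) / 2 ^ 59 := by
      push_cast at e3 ⊢; linarith
    have i2 : Vec (2 ^ l) (n + 1 - 2) (X + U) (Y + V) (fun i => acc (fr r e i) (n + 1))
        ((n + 1 : ℕ) / 2 ^ 31) := by
      have := h.s.add e5
      rw [show n - 2 + 1 = n + 1 - 2 by omega] at this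
      exact this.mono (fun i _ => acc_succ (by omega) _) (by push_cast; linarith)
    rw [e0, e1, e4, ← add_assoc, add_right_comm]
    by_cases hp : (n + 1).Prime
    · set z := zz (n + 1 : ℕ) with hz
      have nz : ‖z‖ = 1 := norm_zz _
      have n1 : ‖z ^ (2 * r + 1) / (n + 1)‖ ≤ 1 / 2 ^ 6 := by
        have : ‖(n : ℂ) + 1‖ = n + 1 := by exact_mod_cast Complex.norm_natCast (n + 1)
        rw [norm_div, norm_pow, nz, one_pow, this]
        exact one_div_le_one_div_of_le (by norm_num) (by linarith)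
      have n2 : ‖z ^ (2 * 2 ^ e)‖ = 1 := by rw [norm_pow, nz, one_pow]
      have g1 := (cmul_facts f1 f1 n1 n1 (by norm_num) (by norm_num)).2.2
      have g2 := sq_unit f2 n2.le (by norm_num) (by rw [hrho]; norm_num)
      have h6 : (3 : ℝ) ^ l ≤ 3 ^ 8 := pow_le_pow_right₀ (by norm_num) hl
      obtain ⟨U', V', e6, e7⟩ := geo_one (fun U' V' => run2 r e l t k (n + 1) (mre a b u v)
          (mim a b u v) (X + U) (Y + V) (j + 1) (Z + U') (T + V')) (l := l) (μ := 1 / 2 ^ 12)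
        (w0 := z ^ (2 * r + 1) / (n + 1) * (z ^ (2 * r + 1) / (n + 1)))
        (by rw [norm_mul, n2, one_mul])
        (by rw [norm_mul]; nlinarith [norm_nonneg (z ^ (2 * r + 1) / (n + 1))]) (by norm_num) g2
        (g1.trans (by rw [hrho]; norm_num)) (by rw [hrho]; norm_num) (by linarith)
      have e8 : K (mre a b u v) (mim a b u v) w w' c d U V = run2 r e l t k (n + 1) (mre a b u v)
          (mim a b u v) (X + U) (Y + V) (j + 1) (Z + U') (T + V') := by
        rw [hK]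
        simp only [(isP_iff (by omega) (by omega)).2 hp]
        exact e6
      rw [e8]
      refine ih (n + 1) _ _ _ _ _ _ _ (by omega) (by omega) ⟨i1, i2, ?_, by have := h.q; omega⟩
      refine (h.p.add e7).mono (fun i _ => ?_) (by push_cast; linarith)
      rw [lin, lin, filter_succ h2, if_pos hp, Finset.sum_insert (by simp), add_comm, xx, ← hz, fr,
        pow_add z (2 * r + 1), pow_mul z (2 * 2 ^ e), mul_pow]
      push_cast
      ring
    · have e8 : K (mre a b u v) (mim a b u v) w w' c d U V =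
          run2 r e l t k (n + 1) (mre a b u v) (mim a b u v) (X + U) (Y + V) j Z T := by
        rw [hK]
        simp only [Bool.eq_false_iff.2 fun hh => hp ((isP_iff (by omega) (by omega)).1 hh)]
      rw [e8]
      refine ih (n + 1) _ _ _ _ _ _ _ (by omega) (by omega) ⟨i1, i2, ?_, by have := h.q; omega⟩
      refine h.p.mono (fun i _ => ?_) (by push_cast; linarith)
      rw [lin, lin, filter_succ h2, if_neg hp]

end Pool.Agent.Lib.MP_5db4ad_nt
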