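import Pool.Agent.Lib.MP_5db4ad_nt.S2Defs2

/-!
An explicit form of Stirling's formula on the line of real part one half, and the factor of the
functional equation on the line of real part three halves.
-/

namespace Pool.Agent.Lib.MP_5db4ad_nt.S2.Afe

open Filter Topology Complex
open scoped Real

/-- the main term of Stirling's formula -/
noncomputable def stirE (w : ℂ) : ℂ := (w - 1 / 2) * log w - w

/-- the defect of one step -/
noncomputable def stirD (w : ℂ) : ℂ := 1 - (w + 1 / 2) * log (1 + w⁻¹)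

lemma ne0 {w : ℂ} (hw : 0 < w.re) : w ≠ 0 := by
  rintro rfl
  simp at hw

lemma stir_step {w : ℂ} (hw : 0 < w.re) : log w = stirE (w + 1) - stirE w + stirD w := by
  have h0 := ne0 hw
  have h1 : 0 < (1 + w⁻¹).re := by
    have := div_pos hw (normSq_pos.2 h0)
    simp only [add_re, one_re, inv_re]
    linarith
  have e : w + 1 = w * (1 + w⁻¹) := by field_simp
  have e2 : log (w + 1) = log w + log (1 + w⁻¹) := by
    rw [e, log_mul_eq_add_log_iff h0 (ne0 h1)]
    obtain ⟨a1, a2⟩ := abs_lt.1 (abs_arg_lt_pi_div_two_iff.2 (Or.inl hw))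
    obtain ⟨a3, a4⟩ := abs_lt.1 (abs_arg_lt_pi_div_two_iff.2 (Or.inl h1))
    constructor <;> linarith
  unfold stirE stirD
  rw [e2]
  ring

lemma stir_D_le {w : ℂ} (hw : 2 ≤ ‖w‖) : ‖stirD w‖ ≤ 0.48 / ‖w‖ ^ 2 := by
  have hp : 0 < ‖w‖ := by linarith
  have h0 : w ≠ 0 := norm_pos_iff.mp hp
  set x : ℂ := w⁻¹ with hx
  have hxn : ‖x‖ = ‖w‖⁻¹ := by rw [hx, norm_inv]
  have hx2 : ‖x‖ ≤ 1 / 2 := by
    rw [hxn, inv_eq_one_div]
    exact one_div_le_one_div_of_le (by norm_num) hw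
  have hx0 : 0 ≤ ‖x‖ := norm_nonneg _
  have hT := norm_log_sub_logTaylor_le 3 (z := x) (by linarith)
  have hT3 : logTaylor (3 + 1) x = x - x ^ 2 / 2 + x ^ 3 / 3 := by
    simp [logTaylor, Finset.sum_range_succ]
    ring
  rw [hT3] at hT
  set r : ℂ := log (1 + x) - (x - x ^ 2 / 2 + x ^ 3 / 3) with hr
  have hinv : (1 - ‖x‖)⁻¹ ≤ 2 := by
    rw [inv_le_comm₀ (by linarith) two_pos]
    linarith
  have hr2 : ‖r‖ ≤ ‖x‖ ^ 4 * (2 / 4) := by
    refine hT.trans ?_
    have : ((3 : ℕ) : ℝ) + 1 = 4 := by norm_num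
    rw [this, mul_div_assoc]
    gcongr
  have hwx : w * x = 1 := by rw [hx]; field_simp
  have e : stirD w = -(x ^ 2 / 12 + x ^ 3 / 6 + (w + 1 / 2) * r) := by
    unfold stirD
    rw [hr, ← hx]
    linear_combination (-1 + x / 2 - x ^ 2 / 3) * hwx
  have hwxn : ‖w‖ * ‖x‖ = 1 := by rw [← norm_mul, hwx, norm_one]
  have b1 : ‖x ^ 2 / 12‖ = ‖x‖ ^ 2 / 12 := by simp
  have b1' : ‖x ^ 3 / 6‖ = ‖x‖ ^ 2 * ‖x‖ / 6 := by simp [pow_succ]
  have b2 : ‖w + 1 / 2‖ ≤ ‖w‖ + 1 / 2 := by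
    refine (norm_add_le _ _).trans ?_
    simp
  have b3 : ‖(w + 1 / 2) * r‖ ≤ (‖w‖ + 1 / 2) * (‖x‖ ^ 4 * (2 / 4)) := by
    rw [norm_mul]
    gcongr
  have b4 : (‖w‖ + 1 / 2) * (‖x‖ ^ 4 * (2 / 4)) =
      ‖x‖ ^ 2 * ‖x‖ / 2 + ‖x‖ ^ 2 * (‖x‖ * ‖x‖) / 4 := by
    linear_combination (‖x‖ ^ 3 / 2) * hwxn
  have b5 : 0.48 / ‖w‖ ^ 2 = 0.48 * ‖x‖ ^ 2 := by
    rw [hxn]
    field_simp
  rw [e, b5, norm_neg]
  refine norm_add₃_le.trans ?_
  rw [b1, b1']
  have b6 : ‖x‖ ^ 2 * ‖x‖ ≤ ‖x‖ ^ 2 * (1 / 2) := by gcongr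
  have b7 : ‖x‖ ^ 2 * (‖x‖ * ‖x‖) ≤ ‖x‖ ^ 2 * (1 / 2 * (1 / 2)) := by gcongr
  nlinarith [sq_nonneg ‖x‖]

lemma stir_sum_le {u : ℝ} (hu : 2 ≤ u) (n : ℕ) :
    ∑ j ∈ Finset.range n, ‖stirD (1 / 2 - u * I + j)‖ ≤ 0.96 / u := by
  have h0 : ∀ j : ℕ, ‖stirD (1 / 2 - u * I + j)‖ ≤ 0.96 * (1 / (j + u) - 1 / (j + 1 + u)) := by
    intro j
    set w : ℂ := 1 / 2 - u * I + j with hw
    have hj : (0 : ℝ) ≤ j := Nat.cast_nonneg j
    have hn : ‖w‖ ^ 2 = (1 / 2 + j) ^ 2 + u ^ 2 := by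
      rw [Complex.sq_norm, normSq_apply, hw]
      simp
      ring
    have h2 : 2 ≤ ‖w‖ := by
      refine (sq_le_sq₀ (by norm_num) (norm_nonneg _)).1 ?_
      nlinarith
    refine (stir_D_le h2).trans ?_
    have e : 0.96 * (1 / ((j : ℝ) + u) - 1 / (j + 1 + u)) = 0.96 / ((j + u) * (j + 1 + u)) := by
      field_simp
      ring
    rw [e, hn, div_le_div_iff₀ (by positivity) (by positivity)]
    nlinarith [sq_nonneg (1 / 2 + j - u)]
  have h1 : ∑ j ∈ Finset.range n, ‖stirD (1 / 2 - u * I + j)‖ ≤ 0.96 * (1 / u - 1 / (n + u)) := by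
    induction n with
    | zero => simp
    | succ n ih =>
      rw [Finset.sum_range_succ]
      have := h0 n
      push_cast
      linarith
  have h2 : 0 ≤ 1 / ((n : ℝ) + u) := by positivity
  have h4 : 0.96 / u = 0.96 * (1 / u) := by ring
  linarith

lemma re_add {z : ℂ} (hz : 0 < z.re) (n : ℕ) : 0 < (z + n).re := by
  simp only [add_re, natCast_re]
  positivity

lemma stir_sum_log {z : ℂ} (hz : 0 < z.re) (n : ℕ) :
    ∑ j ∈ Finset.range n, log (z + j) =
      stirE (z + n) - stirE z + ∑ j ∈ Finset.range n, stirD (z + j) := by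
  induction n with
  | zero => simp
  | succ n ih =>
    rw [Finset.sum_range_succ, Finset.sum_range_succ, ih, stir_step (re_add hz n)]
    push_cast
    rw [← add_assoc z]
    ring

/-- the terms that tend to the Stirling constant -/
noncomputable def stirT (z : ℂ) (n : ℕ) : ℂ :=
  z * (Real.log n : ℂ) + (Real.log (n.factorial) : ℂ) - stirE (z + (n + 1 : ℕ))

lemma stir_seq {z : ℂ} (hz : 0 < z.re) {n : ℕ} (hn : n ≠ 0) :
    GammaSeq z n = exp (stirT z n + stirE z - ∑ j ∈ Finset.range (n + 1), stirD (z + j)) := by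
  have e : stirT z n + stirE z - ∑ j ∈ Finset.range (n + 1), stirD (z + j) =
      z * (Real.log n : ℂ) + (Real.log (n.factorial) : ℂ) -
        ∑ j ∈ Finset.range (n + 1), log (z + j) := by
    rw [stir_sum_log hz]
    unfold stirT
    ring
  rw [e, exp_sub, exp_add, exp_sum, GammaSeq]
  have hn' : (n : ℂ) ≠ 0 := Nat.cast_ne_zero.mpr hn
  congr 1
  · congr 1
    · rw [cpow_def_of_ne_zero hn', mul_comm, natCast_log]
    · rw [← ofReal_exp, Real.exp_log (by exact_mod_cast n.factorial_pos)]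
      simp
  · refine Finset.prod_congr rfl fun j _ => ?_
    rw [exp_log (ne0 (re_add hz j))]

lemma stir_T_eq {z : ℂ} (hz : 0 < z.re) {n : ℕ} (hn : n ≠ 0) :
    stirT z n = (Real.log (Stirling.stirlingSeq n) : ℂ) + (Real.log 2 / 2 : ℝ) + (z + 1) -
      (n * log (1 + (z + 1) / n) + (z + 1 / 2) * log (1 + (z + 1) / n)) := by
  have hn0 : (0 : ℝ) < n := by exact_mod_cast Nat.pos_of_ne_zero hn
  have hn' : (n : ℂ) ≠ 0 := Nat.cast_ne_zero.mpr hn
  have e1 : z + (n + 1 : ℕ) = ((n : ℝ) : ℂ) * (1 + (z + 1) / n) := by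
    push_cast
    field_simp
    ring
  have h1 : 1 + (z + 1) / n ≠ 0 := by
    intro h
    have : z + (n + 1 : ℕ) ≠ 0 := ne0 (re_add hz _)
    rw [e1, h, mul_zero] at this
    exact this rfl
  have e2 : log (z + (n + 1 : ℕ)) = (Real.log n : ℂ) + log (1 + (z + 1) / n) := by
    rw [e1, log_ofReal_mul hn0 h1]
  have e3 : Real.log (n.factorial) = Real.log (Stirling.stirlingSeq n) + Real.log 2 / 2 +
      Real.log n / 2 + n * Real.log n - n := by
    rw [Stirling.log_stirlingSeq_formula, Real.log_mul (by norm_num) hn0.ne',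
      Real.log_div hn0.ne' (Real.exp_pos 1).ne', Real.log_exp]
    ring
  unfold stirT stirE
  rw [e2, e3]
  push_cast
  ring

lemma stir_T_tendsto {z : ℂ} (hz : 0 < z.re) :
    Tendsto (stirT z) atTop (𝓝 ((Real.log (2 * π) / 2 : ℝ) : ℂ)) := by
  have t1 : Tendsto (fun n : ℕ => (Real.log (Stirling.stirlingSeq n) : ℂ)) atTop
      (𝓝 ((Real.log (√π) : ℝ) : ℂ)) := by
    refine (continuous_ofReal.tendsto _).comp ?_
    exact Stirling.tendsto_stirlingSeq_sqrt_pi.log (Real.sqrt_pos.mpr Real.pi_pos).ne'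
  have t2 : Tendsto (fun n : ℕ => (n : ℂ) * log (1 + (z + 1) / n)) atTop (𝓝 (z + 1)) := by
    refine tendsto_nat_mul_log_one_add_of_tendsto (g := fun n : ℕ => (z + 1) / n) ?_
    apply tendsto_nhds_of_eventually_eq
    filter_upwards [eventually_ne_atTop 0] with n hn
    have hn' : (n : ℂ) ≠ 0 := Nat.cast_ne_zero.mpr hn
    field_simp
  have t3 : Tendsto (fun n : ℕ => log (1 + (z + 1) / n)) atTop (𝓝 0) := by
    have a : Tendsto (fun n : ℕ => 1 + (z + 1) / (n : ℂ)) atTop (𝓝 (1 + 0)) :=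
      tendsto_const_nhds.add (tendsto_const_div_atTop_nhds_zero_nat (z + 1))
    rw [add_zero] at a
    have := a.clog one_mem_slitPlane
    simpa using this
  have t4 := ((t1.add_const ((Real.log 2 / 2 : ℝ) : ℂ)).add_const (z + 1)).sub
    (t2.add (t3.const_mul (z + 1 / 2)))
  have e : ((Real.log (√π) : ℝ) : ℂ) + ((Real.log 2 / 2 : ℝ) : ℂ) + (z + 1) -
      (z + 1 + (z + 1 / 2) * 0) = ((Real.log (2 * π) / 2 : ℝ) : ℂ) := by
    rw [Real.log_sqrt Real.pi_pos.le, Real.log_mul (by norm_num) Real.pi_pos.ne']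
    push_cast
    ring
  rw [e] at t4
  refine t4.congr' ?_
  filter_upwards [eventually_ne_atTop 0] with n hn
  exact (stir_T_eq hz hn).symm

lemma stir_gamma {u : ℝ} (hu : 2 ≤ u) : ∃ S : ℂ, ‖S‖ ≤ 0.96 / u ∧
    Gamma (1 / 2 - u * I) = exp (((Real.log (2 * π) / 2 : ℝ) : ℂ) + stirE (1 / 2 - u * I) - S) := by
  set z : ℂ := 1 / 2 - u * I with hzd
  have hz : 0 < z.re := by
    rw [hzd]
    simp
  have hs : Summable fun j : ℕ => ‖stirD (z + j)‖ :=
    summable_of_sum_range_le (fun _ => norm_nonneg _) (stir_sum_le hu)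
  refine ⟨∑' j : ℕ, stirD (z + j), ?_, ?_⟩
  · refine (norm_tsum_le_tsum_norm hs).trans ?_
    exact hs.tsum_le_of_sum_range_le (stir_sum_le hu)
  · have t1 : Tendsto (fun n : ℕ => ∑ j ∈ Finset.range (n + 1), stirD (z + j)) atTop
        (𝓝 (∑' j : ℕ, stirD (z + j))) :=
      (hs.of_norm.hasSum.tendsto_sum_nat).comp (tendsto_add_atTop_nat 1)
    have t2 := (((stir_T_tendsto hz).add_const (stirE z)).sub t1).cexp
    refine tendsto_nhds_unique (GammaSeq_tendsto_Gamma z) (t2.congr' ?_)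
    filter_upwards [eventually_ne_atTop 0] with n hn
    exact (stir_seq hz hn).symm

lemma stir_log {u : ℝ} (hu : 0 < u) :
    log (1 / 2 - u * I) = (Real.log u : ℂ) - π / 2 * I + log (1 + (1 / (2 * u) : ℝ) * I) := by
  have hu' : (u : ℂ) ≠ 0 := by exact_mod_cast hu.ne'
  set y : ℂ := 1 + (1 / (2 * u) : ℝ) * I with hy
  have hre : 0 < y.re := by
    rw [hy]
    simp only [add_re, one_re, mul_re, ofReal_re, I_re, ofReal_im, I_im]
    norm_num
  have e : 1 / 2 - u * I = u * (-I * y) := by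
    rw [hy]
    push_cast
    field_simp
    linear_combination I_sq
  have h2 : log (-I * y) = log (-I) + log y := by
    rw [log_mul_eq_add_log_iff (neg_ne_zero.2 I_ne_zero) (ne0 hre), arg_neg_I]
    obtain ⟨a1, a2⟩ := abs_lt.1 (abs_arg_lt_pi_div_two_iff.2 (Or.inl hre))
    have := Real.pi_pos
    constructor <;> linarith
  rw [e, log_ofReal_mul hu (mul_ne_zero (neg_ne_zero.2 I_ne_zero) (ne0 hre)), h2, log_neg_I]
  ring

/-- the factor of the functional equation -/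
noncomputable def chi1 (w : ℂ) : ℂ := 2 * (2 * π) ^ (-w) * Gamma w * cos (π * w / 2)

/-- the phase -/
noncomputable def phi (t : ℝ) : ℝ := t * Real.log (t / (2 * π)) - t - π / 4

lemma gamma_shift (u : ℝ) : Gamma (3 / 2 - u * I) = (1 / 2 - u * I) * Gamma (1 / 2 - u * I) := by
  rw [← Gamma_add_one _ (ne0 (by simp))]
  congr 1
  ring

lemma chi_eq {u : ℝ} (hu : 2 ≤ u) : ∃ ν : ℂ, ‖ν‖ ≤ 1.13 / u ∧ chi1 (3 / 2 - u * I) =
    (u + I / 2) * exp ν * (1 + I * (Real.exp (-(π * u)) : ℝ)) * exp (-(phi u : ℂ) * I) /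
      (2 * π) := by
  have hu0 : 0 < u := by linarith
  have hu' : (u : ℂ) ≠ 0 := by exact_mod_cast hu0.ne'
  have hpi : 0 < 2 * π := by positivity
  obtain ⟨S, hS, hG⟩ := stir_gamma hu
  set x : ℂ := (1 / (2 * u) : ℝ) * I with hx
  set l : ℂ := log (1 + x) with hl
  have hxn : ‖x‖ = 1 / (2 * u) := by
    rw [hx, norm_mul, norm_real, norm_I, Real.norm_eq_abs, abs_of_pos (by positivity), mul_one]
  have hx4 : ‖x‖ ≤ 1 / 4 := by
    rw [hxn]
    exact one_div_le_one_div_of_le (by norm_num) (by linarith)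
  have l2 : ‖l - x‖ ≤ ‖x‖ ^ 2 * (4 / 3) / 2 := by
    refine (norm_log_one_add_sub_self_le (z := x) (by linarith)).trans ?_
    have hinv : (1 - ‖x‖)⁻¹ ≤ 4 / 3 := by
      rw [inv_le_comm₀ (by linarith) (by norm_num)]
      linarith
    gcongr
  refine ⟨-(u * I * (l - x)) - S, ?_, ?_⟩
  · refine (norm_sub_le _ _).trans ?_
    have b2 : ‖-((u : ℂ) * I * (l - x))‖ ≤ u * (‖x‖ ^ 2 * (4 / 3) / 2) := by
      rw [norm_neg, norm_mul, norm_mul, norm_I, norm_real, Real.norm_eq_abs, abs_of_pos hu0, mul_one]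
      gcongr
    have b3 : u * (‖x‖ ^ 2 * (4 / 3) / 2) + 0.96 / u = (1 / 6 + 0.96) / u := by
      rw [hxn]
      field_simp
      ring
    have b4 : (1 / 6 + 0.96) / u ≤ 1.13 / u := by
      gcongr
      norm_num
    linarith
  · have hux : (u : ℂ) * I * x = -(1 / 2) := by
      rw [hx]
      push_cast
      field_simp
      linear_combination I_sq
    have c1 : (2 * π : ℂ) = exp (Real.log (2 * π) : ℝ) := by
      rw [← ofReal_exp, Real.exp_log hpi]
      push_cast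
      ring
    have c2 : (2 * π : ℂ) ^ (-(3 / 2 - u * I)) =
        exp ((Real.log (2 * π) : ℝ) * (-(3 / 2 - u * I))) := by
      rw [cpow_def_of_ne_zero (by exact_mod_cast hpi.ne'), ofReal_log hpi.le]
      push_cast
      rfl
    have c3 : exp (-(π / 2 * I)) = -I := by
      rw [exp_neg, exp_pi_div_two_mul_I, inv_I]
    have c4 : (1 / 2 - u * I : ℂ) = (u + I / 2) * exp (-(π / 2 * I)) := by
      rw [c3]
      linear_combination (1 / 2 : ℂ) * I_sq
    have c5 : 2 * cos (π * (3 / 2 - u * I) / 2) =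
        exp (π * (3 / 2 - u * I) / 2 * I) * (1 + I * (Real.exp (-(π * u)) : ℝ)) := by
      rw [two_cos, mul_add, mul_one, ← exp_pi_div_two_mul_I, ofReal_exp, ← exp_add, ← exp_add,
        exp_pi_div_two_mul_I]
      congr 1
      rw [exp_eq_exp_iff_exists_int]
      refine ⟨-1, ?_⟩
      push_cast
      linear_combination (π * u : ℂ) * I_sq
    have c6 : chi1 (3 / 2 - u * I) = (2 * cos (π * (3 / 2 - u * I) / 2)) *
        (2 * π : ℂ) ^ (-(3 / 2 - u * I)) * ((1 / 2 - u * I) * Gamma (1 / 2 - u * I)) := by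
      rw [chi1, gamma_shift]
      ring
    have c7 : exp (π * (3 / 2 - u * I) / 2 * I) *
        exp ((Real.log (2 * π) : ℝ) * (-(3 / 2 - u * I))) * exp (-(π / 2 * I)) *
        exp (((Real.log (2 * π) / 2 : ℝ) : ℂ) + stirE (1 / 2 - u * I) - S) =
        exp (-(u * I * (l - x)) - S) * exp (-(phi u : ℂ) * I) / exp (Real.log (2 * π) : ℝ) := by
      rw [← exp_add, ← exp_add, ← exp_add, ← exp_add, ← exp_sub]
      congr 1
      unfold stirE phi
      rw [stir_log hu0, ← hx, ← hl, Real.log_div hu0.ne' hpi.ne']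
      push_cast
      linear_combination -hux
    rw [c6, c5, c2, hG]
    rw [← c1] at c7
    linear_combination ((u + I / 2) * (1 + I * (Real.exp (-(π * u)) : ℝ))) * c7 +
      exp (π * (3 / 2 - u * I) / 2 * I) * (1 + I * (Real.exp (-(π * u)) : ℝ)) *
      exp ((Real.log (2 * π) : ℝ) * (-(3 / 2 - u * I))) *
      exp (((Real.log (2 * π) / 2 : ℝ) : ℂ) + stirE (1 / 2 - u * I) - S) * c4

lemma chi_norm (u : ℝ) : ‖chi1 (3 / 2 - u * I)‖ ≤ (|u| + 1 / 2) / (2 * π) := by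
  have hpi : 0 < 2 * π := by positivity
  set z : ℂ := 1 / 2 - u * I with hz
  have hc : (starRingEnd ℂ) z = 1 - z := by
    rw [hz]
    apply Complex.ext <;> simp
    norm_num
  have hg := Gamma_mul_Gamma_one_sub z
  have hs : sin (π * z) ≠ 0 := by
    intro h
    rw [h, div_zero] at hg
    exact mul_ne_zero (Gamma_ne_zero_of_re_pos (by simp [hz]))
      (Gamma_ne_zero_of_re_pos (by simp [hz]; norm_num)) hg
  have h1 : (starRingEnd ℂ) (sin (π * z / 2)) = cos (π * z / 2) := by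
    rw [← sin_conj, ← sin_pi_div_two_sub]
    congr 1
    simp only [map_div₀, map_mul, conj_ofReal, hc, map_ofNat]
    ring
  have h2 : sin (π * z) = 2 * sin (π * z / 2) * cos (π * z / 2) := by
    rw [← sin_two_mul]
    congr 1
    ring
  have h3 : ‖Gamma z * sin (π * z / 2)‖ ^ 2 = π / 2 := by
    have := mul_conj' (Gamma z * sin (π * z / 2))
    rw [map_mul, h1, ← Gamma_conj, hc] at this
    have e : Gamma z * sin (π * z / 2) * (Gamma (1 - z) * cos (π * z / 2)) = π / 2 := by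
      rw [eq_div_iff hs, h2] at hg
      linear_combination hg / 2
    rw [e] at this
    exact_mod_cast this.symm
  have h4 : cos (π * (3 / 2 - u * I) / 2) = -sin (π * z / 2) := by
    rw [← cos_add_pi_div_two, hz]
    congr 1
    ring
  have h5 : ‖(2 * π : ℂ) ^ (-(3 / 2 - u * I))‖ ^ 2 = 1 / (2 * π) ^ 3 := by
    have e : (2 * π : ℂ) = ((2 * π : ℝ) : ℂ) := by push_cast; ring
    rw [e, norm_cpow_eq_rpow_re_of_pos hpi, ← Real.rpow_natCast, ← Real.rpow_mul hpi.le,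
      one_div, ← Real.rpow_natCast, ← Real.rpow_neg hpi.le]
    congr 1
    simp
  have h6 : chi1 (3 / 2 - u * I) =
      -(2 * (2 * π : ℂ) ^ (-(3 / 2 - u * I)) * z * (Gamma z * sin (π * z / 2))) := by
    rw [chi1, gamma_shift, h4]
    ring
  have h7 : ‖z‖ ≤ |u| + 1 / 2 := by
    refine (norm_sub_le _ _).trans ?_
    simp
    linarith
  refine le_trans ((sq_le_sq₀ (norm_nonneg _) (by positivity : 0 ≤ ‖z‖ / (2 * π))).1 (le_of_eq ?_))
    (by gcongr)
  rw [h6, norm_neg, norm_mul, norm_mul, norm_mul, mul_pow, mul_pow, mul_pow, h3, h5]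
  simp only [Complex.norm_ofNat]
  field_simp

lemma phase {τ t : ℝ} (hτ : 0 < τ) (ht : 0 < t) :
    ‖(τ : ℂ) - t * exp (I * (τ * Real.log (τ / t) + (t - τ) : ℝ))‖ ≤ (t - τ) ^ 2 / 2 + |t - τ| := by
  set δ : ℝ := τ * Real.log (τ / t) + (t - τ) with hδ
  have h0 : 0 ≤ δ := by
    have := Real.one_sub_inv_le_log_of_pos (div_pos hτ ht)
    rw [inv_div] at this
    have h2 := mul_le_mul_of_nonneg_left this hτ.le
    have e : τ * (1 - t / τ) = τ - t := by field_simp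
    linarith
  have h1 : ‖exp (I * δ) - 1‖ ≤ δ := by
    have := Real.norm_exp_I_mul_ofReal_sub_one_le (x := δ)
    rwa [Real.norm_eq_abs, abs_of_nonneg h0] at this
  have h2 : ‖((t - τ : ℝ) : ℂ)‖ = |t - τ| := by rw [norm_real, Real.norm_eq_abs]
  rcases le_total t τ with h | h
  · have e : (τ : ℂ) - t * exp (I * δ) = -(t * (exp (I * δ) - 1) + (t - τ : ℝ)) := by
      push_cast
      ring
    have h3 : Real.log (τ / t) ≤ (τ / t - (τ / t)⁻¹) / 2 := by
      rw [← Real.sinh_log (div_pos hτ ht)]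
      exact Real.self_le_sinh_iff.2 (Real.log_nonneg ((one_le_div ht).2 h))
    have h4 := mul_le_mul_of_nonneg_left h3 (mul_pos ht hτ).le
    have e2 : t * τ * ((τ / t - (τ / t)⁻¹) / 2) = (τ ^ 2 - t ^ 2) / 2 := by field_simp
    rw [e, norm_neg]
    refine (norm_add_le _ _).trans ?_
    rw [norm_mul, h2, norm_real, Real.norm_eq_abs, abs_of_pos ht]
    have h5 := mul_le_mul_of_nonneg_left h1 ht.le
    nlinarith
  · have e : (τ : ℂ) - t * exp (I * δ) =
        -(τ * (exp (I * δ) - 1) + (t - τ : ℝ) * exp (I * δ)) := by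
      push_cast
      ring
    have h3 := Real.le_log_one_add_of_nonneg (x := (t - τ) / τ) (div_nonneg (by linarith) hτ.le)
    have e1 : Real.log (τ / t) = -Real.log (1 + (t - τ) / τ) := by
      rw [← Real.log_inv]
      congr 1
      field_simp
      ring
    have e2 : 2 * ((t - τ) / τ) / ((t - τ) / τ + 2) = 2 * (t - τ) / (t + τ) := by
      have : t - τ + τ * 2 ≠ 0 := by linarith
      field_simp
      ring
    rw [e2, div_le_iff₀ (by linarith)] at h3
    have h4 : δ * (t + τ) ≤ (t - τ) ^ 2 := by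
      rw [hδ, e1]
      nlinarith
    rw [e, norm_neg]
    refine (norm_add_le _ _).trans ?_
    rw [norm_mul, norm_mul, h2, norm_real, Real.norm_eq_abs, abs_of_pos hτ, norm_exp_I_mul_ofReal,
      mul_one]
    have h5 := mul_le_mul_of_nonneg_left h1 hτ.le
    nlinarith

lemma amp {τ ε : ℝ} {ν : ℂ} (hτ : 2 ≤ τ) (hν : ‖ν‖ ≤ 1.13 / τ) (h0 : 0 ≤ ε) (h1 : ε * τ ≤ 1 / 3) :
    ‖(τ + I / 2) * exp ν * (1 + I * ε) - τ‖ ≤ 4.25 := by
  have hτ0 : 0 < τ := by linarith
  have e : (τ + I / 2) * exp ν * (1 + I * ε) - τ =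
      (τ + I / 2) * (exp ν - 1) * (1 + I * ε) + (τ + I / 2) * (I * ε) + I / 2 := by ring
  have a1 : ‖(τ : ℂ) + I / 2‖ ≤ 1.25 * τ := by
    refine (norm_add_le _ _).trans ?_
    simp [abs_of_pos hτ0]
    linarith
  have a0 : ‖ν‖ * τ ≤ 1.13 := by rwa [le_div_iff₀ hτ0] at hν
  have a2 : ‖exp ν - 1‖ ≤ 2 * ‖ν‖ := norm_exp_sub_one_le (by nlinarith [norm_nonneg ν])
  have a3 : ‖I * (ε : ℂ)‖ = ε := by simp [abs_of_nonneg h0]
  have a4 : ‖1 + I * (ε : ℂ)‖ ≤ 7 / 6 := by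
    refine (norm_add_le _ _).trans ?_
    rw [a3, norm_one]
    nlinarith
  rw [e]
  refine norm_add₃_le.trans ?_
  have b1 : ‖(τ + I / 2) * (exp ν - 1) * (1 + I * ε)‖ ≤ 1.25 * τ * (2 * ‖ν‖) * (7 / 6) := by
    rw [norm_mul, norm_mul]
    gcongr
  have b2 : ‖(τ + I / 2) * (I * ε)‖ ≤ 1.25 * τ * ε := by
    rw [norm_mul, a3]
    gcongr
  have b3 : ‖I / 2‖ = 1 / 2 := by simp
  nlinarith

lemma chi0_mul {t : ℝ} (ht : 0 < t) (u : ℝ) :
    chi0 t * ((t / (2 * π) : ℝ) : ℂ) ^ (((3 / 2 : ℝ) : ℂ) + u * I) =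
      t * exp (((u * Real.log (t / (2 * π)) - phi t : ℝ) : ℂ) * I) / (2 * π) := by
  have ha : 0 < t / (2 * π) := by positivity
  have e : (t : ℂ) * exp (((u * Real.log (t / (2 * π)) - phi t : ℝ) : ℂ) * I) / (2 * π) =
      exp (Real.log (t / (2 * π)) : ℝ) *
        exp (((u * Real.log (t / (2 * π)) - phi t : ℝ) : ℂ) * I) := by
    rw [← ofReal_exp, Real.exp_log ha]
    push_cast
    ring
  rw [e, chi0, Real.rpow_def_of_pos ha, ofReal_exp, cpow_def_of_ne_zero (by exact_mod_cast ha.ne'),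
    ← ofReal_log ha.le, ← exp_add, ← exp_add, ← exp_add, phi]
  congr 1
  push_cast
  ring

/-- the factor of the functional equation against its value frozen at height `t` -/
theorem chi_key {t : ℝ} (ht : 3 ≤ t) (u : ℝ) :
    ‖chi1 (3 / 2 - (t - u : ℝ) * I) -
      chi0 t * ((t / (2 * π) : ℝ) : ℂ) ^ (((3 / 2 : ℝ) : ℂ) + u * I)‖ ≤
      (u ^ 2 / 2 + |u| + 4.25) / (2 * π) := by
  have ht0 : 0 < t := by linarith
  have hpi : 0 < 2 * π := by positivity
  have hn : ‖(2 * π : ℂ)‖ = 2 * π := by simp [abs_of_pos Real.pi_pos]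
  rw [chi0_mul ht0]
  obtain ⟨τ, rfl⟩ : ∃ τ, u = t - τ := ⟨t - u, by ring⟩
  rw [sub_sub_cancel]
  rcases le_total 2 τ with h | h
  · have hτ0 : 0 < τ := by linarith
    obtain ⟨ν, hν, he⟩ := chi_eq h
    have h1 : Real.exp (-(π * τ)) * τ ≤ 1 / 3 := by
      have a1 := Real.add_one_le_exp (π * τ)
      have a2 : Real.exp (-(π * τ)) * Real.exp (π * τ) = 1 := by rw [← Real.exp_add]; simp
      have a3 := Real.exp_pos (-(π * τ))
      have a4 : 3 * τ ≤ π * τ := by nlinarith [Real.pi_gt_three]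
      nlinarith
    have h2 := amp h hν (Real.exp_pos _).le h1
    have h3 := phase hτ0 ht0
    have e1 : exp ((((t - τ) * Real.log (t / (2 * π)) - phi t : ℝ) : ℂ) * I) =
        exp (I * (τ * Real.log (τ / t) + (t - τ) : ℝ)) * exp (-(phi τ : ℂ) * I) := by
      rw [← exp_add, phi, phi, Real.log_div hτ0.ne' hpi.ne', Real.log_div ht0.ne' hpi.ne',
        Real.log_div hτ0.ne' ht0.ne']
      congr 1
      push_cast
      ring
    have e2 : ∀ A B : ℂ, A * exp (-(phi τ : ℂ) * I) / (2 * π) -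
        t * (B * exp (-(phi τ : ℂ) * I)) / (2 * π) =
        ((A - τ) + (τ - t * B)) * exp (((-phi τ : ℝ) : ℂ) * I) / (2 * π) := by
      intro A B
      push_cast
      ring
    rw [he, e1, e2, norm_div, norm_mul, norm_exp_ofReal_mul_I, mul_one, hn]
    gcongr
    refine (norm_add_le _ _).trans ?_
    linarith
  · refine (norm_sub_le _ _).trans ?_
    rw [norm_div, norm_mul, norm_exp_ofReal_mul_I, mul_one, hn, norm_real, Real.norm_eq_abs,
      abs_of_pos ht0]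
    refine (add_le_add (chi_norm τ) le_rfl).trans ?_
    rw [← add_div, abs_of_nonneg (by linarith : 0 ≤ t - τ)]
    refine div_le_div_of_nonneg_right ?_ hpi.le
    rcases abs_cases τ with ⟨a, _⟩ | ⟨a, _⟩ <;> rw [a] <;> nlinarith

end Pool.Agent.Lib.MP_5db4ad_nt.S2.Afe
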