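import Pool.Agent.Lib.MP_5db4ad_nt.S2Defs

/-!
The last two steps: the comparison of `VV` with `Psi`, and the bound for `SS x / x`.
-/

namespace Pool.Agent.Lib.MP_5db4ad_nt.S2

open Finset Filter Topology
open scoped Real

noncomputable section

namespace Final

lemma abs_Pf (v : ℝ) : |Pf v| ≤ 2 / 3 := by
  have hl : 0 < Real.log 2 := Real.log_pos (by norm_num)
  unfold Pf
  rw [abs_mul, abs_mul, abs_zpow, abs_neg, abs_two, abs_of_pos (Real.exp_pos _),
    abs_of_pos (by norm_num : (0 : ℝ) < 2 / 3), mul_assoc]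
  have h1 : (2 : ℝ) ^ ⌊v / Real.log 2⌋ = Real.exp ((⌊v / Real.log 2⌋ : ℝ) * Real.log 2) := by
    rw [mul_comm, ← Real.rpow_def_of_pos (by norm_num), Real.rpow_intCast]
  have h2 : (⌊v / Real.log 2⌋ : ℝ) * Real.log 2 ≤ v := by
    have := Int.floor_le (v / Real.log 2)
    rwa [le_div_iff₀ hl] at this
  rw [h1, ← Real.exp_add]
  have h3 : Real.exp ((⌊v / Real.log 2⌋ : ℝ) * Real.log 2 + -v) ≤ 1 :=
    Real.exp_le_one_iff.mpr (by linarith)
  linarith

lemma abs_sq (v : ℝ) : |sq v| = 1 := by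
  unfold sq
  rw [abs_zpow, abs_neg, abs_one, one_zpow]

lemma abs_sq2 (v : ℝ) : |sq v / 2| ≤ 2 := by
  rw [abs_div, abs_sq, abs_two]; norm_num

lemma abs_Gam (v : ℝ) : |Gam v| ≤ 2 := by
  unfold Gam
  have h1 := abs_Pf v
  have h2 : |sq v / 2| = 1 / 2 := by rw [abs_div, abs_sq, abs_two]
  have := abs_sub (Pf v) (sq v / 2)
  linarith

lemma summ_mul {a f : ℕ → ℝ} {B : ℝ} (ha : Summable fun m => |a m|) (hf : ∀ m, |f m| ≤ B) :
    Summable fun m => a m * f m := by
  refine Summable.of_norm_bounded (ha.mul_right B) fun m => ?_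
  rw [Real.norm_eq_abs, abs_mul]
  exact mul_le_mul_of_nonneg_left (hf m) (abs_nonneg _)

lemma cA_zero {m : ℕ} (h : m ∉ Aset) : cA m = 0 := by
  unfold cA; rw [if_neg h]

lemma summ_cA : Summable fun m => |cA m| :=
  summable_of_ne_finset_zero (s := Aset) fun m hm => by rw [cA_zero hm, abs_zero]

lemma tsum_cA (f : ℕ → ℝ) : ∑' m, cA m * f m = ∑ m ∈ Aset, gg m / m * f m := by
  rw [tsum_eq_sum (s := Aset) fun m hm => by rw [cA_zero hm, zero_mul]]
  refine sum_congr rfl fun m hm => ?_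
  unfold cA; rw [if_pos hm]

lemma trig_om (M : ℕ) (u : ℝ) : trig M (fun k => om k * Rk k) u =
    trig M (fun k => Kf (2 ^ 24) (2 * k + 1) * cs k * Rk k) u +
      trig M (fun k => cg k * Rk k) u := by
  unfold trig
  rw [← sum_add_distrib]
  refine sum_congr rfl fun k _ => ?_
  unfold om
  beta_reduce
  rw [add_mul, add_mul, Complex.add_re, mul_add]

/-- `|f|` has upper limit at most `c` at infinity -/
def Lim (f : ℝ → ℝ) (c : ℝ) : Prop := ∀ ε : ℝ, 0 < ε → ∀ᶠ y : ℝ in atTop, |f y| ≤ c + ε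

/-- `f` is bounded on the positive reals -/
def Bd (f : ℝ → ℝ) : Prop := ∃ B : ℝ, ∀ y, 0 < y → |f y| ≤ B

lemma summ_mix {a r : ℕ → ℝ} {f : ℝ → ℝ} {B : ℝ}
    (hr : ∀ i, a i = 0 ∨ 0 < r i) (hB : ∀ y, 0 < y → |f y| ≤ B) {x : ℝ} (hx : 0 < x) (i : ℕ) :
    |a i * f (x / r i)| ≤ |a i| * B := by
  rcases hr i with h | h
  · simp [h]
  · rw [abs_mul]
    exact mul_le_mul_of_nonneg_left (hB _ (div_pos hx h)) (abs_nonneg _)

lemma mix {a r : ℕ → ℝ} {f : ℝ → ℝ} {c A : ℝ} (ha : Summable fun m => |a m|)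
    (hA : ∑' m, |a m| ≤ A) (hr : ∀ i, a i = 0 ∨ 0 < r i) (hb : Bd f) (hc : 0 ≤ c)
    (hl : Lim f c) :
    Bd (fun x => ∑' i, a i * f (x / r i)) ∧ Lim (fun x => ∑' i, a i * f (x / r i)) (c * A) := by
  obtain ⟨B, hB⟩ := hb
  constructor
  · refine ⟨∑' i, |a i| * B, fun x hx => ?_⟩
    have h := tsum_of_norm_bounded (ha.mul_right B).hasSum
      (f := fun i => a i * f (x / r i)) fun i => summ_mix hr hB hx i
    simpa using h
  · set e : ℝ → ℝ := fun y => max (|f y| - c) 0 with he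
    have he0 : ∀ y, 0 ≤ e y := fun y => le_max_right _ _
    have heB : ∀ y, 0 < y → |e y| ≤ B := fun y hy => by
      rw [abs_of_nonneg (he0 y)]
      have := hB y hy
      exact max_le (by linarith) ((abs_nonneg _).trans this)
    have het : Tendsto e atTop (𝓝 0) := by
      rw [Metric.tendsto_nhds]
      intro ε hε
      filter_upwards [hl (ε / 2) (by linarith)] with y hy
      rw [Real.dist_eq, sub_zero, abs_of_nonneg (he0 y)]
      exact max_lt (by linarith) hε
    have ha' : Summable fun m => |(|a m|)| := by simpa using ha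
    have hr' : ∀ i, |a i| = 0 ∨ 0 < r i := fun i => by simpa using hr i
    have hT : Tendsto (fun x : ℝ => ∑' i, |a i| * e (x / r i)) atTop (𝓝 (∑' _ : ℕ, (0 : ℝ))) := by
      refine tendsto_tsum_of_dominated_convergence (ha'.mul_right B) (fun i => ?_) ?_
      · rcases hr i with h | h
        · simp [h]
        · have := (het.comp (tendsto_id.atTop_div_const h)).const_mul |a i|
          simpa using this
      · filter_upwards [eventually_gt_atTop 0] with x hx i
        exact summ_mix hr' heB hx i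
    rw [tsum_zero] at hT
    intro ε hε
    filter_upwards [hT.eventually (gt_mem_nhds hε), eventually_gt_atTop 0] with x hx hx0
    have hs : Summable fun i => |a i| * e (x / r i) :=
      Summable.of_norm_bounded (ha'.mul_right B) fun i => summ_mix hr' heB hx0 i
    have h := tsum_of_norm_bounded ((ha.hasSum.mul_left c).add hs.hasSum)
      (f := fun i => a i * f (x / r i)) fun i => by
        rw [Real.norm_eq_abs, abs_mul]
        have h1 : |f (x / r i)| - c ≤ e (x / r i) := le_max_left _ _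
        have h2 := mul_le_mul_of_nonneg_left h1 (abs_nonneg (a i))
        linarith
    rw [Real.norm_eq_abs] at h
    have h3 := mul_le_mul_of_nonneg_left hA hc
    linarith

/-- the normalised inner sum -/
def W (y : ℝ) : ℝ := TT y / (3 * y) + VV y

lemma W_zero {y : ℝ} (hy : y < 1) : W y = 0 := by
  unfold W TT VV
  rw [Nat.floor_eq_zero.mpr hy]
  simp

lemma norm_ex (k : ℕ) (u : ℝ) : ‖ex k u‖ = 1 := by
  unfold ex ext
  exact Complex.norm_exp_ofReal_mul_I _

lemma Psi_bd : ∃ P : ℝ, ∀ u, |Psi u| ≤ P := by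
  refine ⟨∑ m ∈ Aset, |gg m / m| * (2 / 3) + ∑ k ∈ range (2 ^ 23), 2 * ‖om k * Rk k‖, fun u => ?_⟩
  unfold Psi trig
  refine (abs_add_le _ _).trans (add_le_add ?_ ?_)
  · refine (abs_sum_le_sum_abs _ _).trans (sum_le_sum fun m _ => ?_)
    rw [abs_mul]
    exact mul_le_mul_of_nonneg_left (abs_Pf _) (abs_nonneg _)
  · refine (abs_sum_le_sum_abs _ _).trans (sum_le_sum fun k _ => ?_)
    rw [abs_mul, abs_two]
    have := Complex.abs_re_le_norm (om k * Rk k * ex k u)
    rw [norm_mul, norm_ex, mul_one] at this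
    linarith

lemma TT_lim (h : StTaub) : Tendsto (fun y : ℝ => TT y / (3 * y)) atTop (𝓝 0) := by
  obtain ⟨C, hC⟩ := h
  have h1 : Tendsto (fun y : ℝ => C / 3 / Real.log y ^ 2) atTop (𝓝 0) :=
    tendsto_const_nhds.div_atTop ((tendsto_pow_atTop (by norm_num)).comp Real.tendsto_log_atTop)
  refine squeeze_zero_norm' ?_ h1
  filter_upwards [eventually_ge_atTop 2] with y hy
  have hy0 : 0 < y := by linarith
  rw [Real.norm_eq_abs, abs_div, abs_of_pos (by linarith : 0 < 3 * y), div_le_iff₀ (by linarith)]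
  refine (hC y hy).trans (le_of_eq ?_)
  ring

lemma diff_lim (h : StTaub) (ha : StAna) : Lim (fun y => W y - Psi (Real.log y)) 0.00458 := by
  intro ε hε
  have h1 := (Metric.tendsto_nhds.mp (TT_lim h)) (ε / 2) (by linarith)
  filter_upwards [ha (ε / 2) (by linarith), h1] with y hy hy1
  rw [Real.dist_eq, sub_zero] at hy1
  have : W y - Psi (Real.log y) = TT y / (3 * y) + (VV y - Psi (Real.log y)) := by
    unfold W; ring
  rw [this]
  have := abs_add_le (TT y / (3 * y)) (VV y - Psi (Real.log y))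
  linarith

lemma W_small (Y : ℝ) : ∃ B : ℝ, ∀ y, y ≤ Y → |W y| ≤ B := by
  refine ⟨∑ m ∈ Icc 1 ⌊Y⌋₊, |gg m| + ∑ m ∈ Icc 1 ⌊Y⌋₊, |gg m / m| * (2 / 3), fun y hy => ?_⟩
  rcases lt_or_ge y 1 with h | h
  · rw [W_zero h, abs_zero]
    positivity
  have hsub : Icc 1 ⌊y⌋₊ ⊆ Icc 1 ⌊Y⌋₊ := Icc_subset_Icc_right (Nat.floor_le_floor hy)
  unfold W
  refine (abs_add_le _ _).trans (add_le_add ?_ ?_)
  · have h1 : |TT y| ≤ ∑ m ∈ Icc 1 ⌊Y⌋₊, |gg m| :=
      (abs_sum_le_sum_abs _ _).trans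
        (sum_le_sum_of_subset_of_nonneg hsub fun _ _ _ => abs_nonneg _)
    rw [abs_div, abs_of_pos (by linarith : 0 < 3 * y)]
    exact (div_le_self (abs_nonneg _) (by linarith)).trans h1
  · unfold VV
    refine (abs_sum_le_sum_abs _ _).trans (le_trans (sum_le_sum fun m _ => ?_)
      (sum_le_sum_of_subset_of_nonneg hsub fun _ _ _ => by positivity))
    rw [abs_mul]
    exact mul_le_mul_of_nonneg_left (abs_Pf _) (abs_nonneg _)

lemma diff_bd (h : StTaub) (ha : StAna) : Bd fun y => W y - Psi (Real.log y) := by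
  obtain ⟨Y, hY⟩ := eventually_atTop.mp (diff_lim h ha 1 one_pos)
  obtain ⟨B, hB⟩ := W_small Y
  obtain ⟨P, hP⟩ := Psi_bd
  refine ⟨max (0.00458 + 1) (B + P), fun y _ => ?_⟩
  rcases le_total y Y with h1 | h1
  · refine le_trans ?_ (le_max_right _ _)
    have h2 := abs_sub (W y) (Psi (Real.log y))
    have h3 := hB y h1
    have h4 := hP (Real.log y)
    linarith
  · exact (hY y h1).trans (le_max_left _ _)

/-- the sum over the powers of three -/
def W3 (x : ℝ) : ℝ := ∑' i : ℕ, (-2 / 3 : ℝ) ^ i * W (x / 3 ^ i)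

lemma abs_geo (i : ℕ) : |(-2 / 3 : ℝ) ^ i| = (2 / 3 : ℝ) ^ i := by
  rw [abs_pow, abs_div, abs_neg, abs_two, abs_of_pos (by norm_num : (0 : ℝ) < 3)]

lemma summ_geo : Summable fun i : ℕ => |(-2 / 3 : ℝ) ^ i| := by
  simp only [abs_geo]
  exact summable_geometric_of_lt_one (by norm_num) (by norm_num)

lemma tsum_geo : ∑' i : ℕ, |(-2 / 3 : ℝ) ^ i| ≤ 3 := by
  simp only [abs_geo]
  rw [tsum_geometric_of_lt_one (by norm_num) (by norm_num)]
  norm_num

lemma W3_prop {c : ℝ} (h : StTaub) (ha : StAna) (hn : StNum c) :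
    Bd W3 ∧ Lim W3 (c + 3 * 0.00458) := by
  obtain ⟨⟨B, hB⟩, hl⟩ := mix (r := fun i => (3 : ℝ) ^ i) summ_geo tsum_geo
    (fun i => Or.inr (by positivity)) (diff_bd h ha) (by norm_num) (diff_lim h ha)
  obtain ⟨P, hP⟩ := Psi_bd
  obtain ⟨B', hB'⟩ := diff_bd h ha
  have key : ∀ x : ℝ, 0 < x → |W3 x| ≤ c +
      |∑' i : ℕ, (-2 / 3 : ℝ) ^ i * (W (x / 3 ^ i) - Psi (Real.log (x / 3 ^ i)))| := by
    intro x hx
    have s1 : Summable fun i : ℕ => (-2 / 3 : ℝ) ^ i * Psi (Real.log x - i * Real.log 3) :=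
      summ_mul summ_geo fun i => hP _
    have s2 : Summable fun i : ℕ =>
        (-2 / 3 : ℝ) ^ i * (W (x / 3 ^ i) - Psi (Real.log (x / 3 ^ i))) :=
      summ_mul summ_geo fun i => hB' _ (by positivity)
    have e : W3 x = ∑' i : ℕ, (-2 / 3 : ℝ) ^ i * Psi (Real.log x - i * Real.log 3) +
        ∑' i : ℕ, (-2 / 3 : ℝ) ^ i * (W (x / 3 ^ i) - Psi (Real.log (x / 3 ^ i))) := by
      rw [← s1.tsum_add s2]
      unfold W3
      refine tsum_congr fun i => ?_
      rw [Real.log_div hx.ne' (by positivity), Real.log_pow]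
      ring
    rw [e]
    exact (abs_add_le _ _).trans (add_le_add (hn _) le_rfl)
  constructor
  · exact ⟨c + B, fun x hx => (key x hx).trans (add_le_add le_rfl (hB x hx))⟩
  · intro ε hε
    filter_upwards [hl ε hε, eventually_gt_atTop 0] with x hx hx0
    have := key x hx0
    linarith

lemma W3_zero {x : ℝ} (hx : x < 1) : W3 x = 0 := by
  unfold W3
  have : ∀ i : ℕ, (-2 / 3 : ℝ) ^ i * W (x / 3 ^ i) = 0 := fun i => by
    rw [W_zero, mul_zero]
    rw [div_lt_one (by positivity)]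
    exact hx.trans_le (one_le_pow₀ (by norm_num))
  simp [this]

lemma W3_eq {x : ℝ} {I : ℕ} (hx : 0 < x) (hI : x < 3 ^ I) :
    ∑ i ∈ range I, (-2 : ℝ) ^ i * (TT (x / 3 ^ i) / 3 + x / 3 ^ i * VV (x / 3 ^ i)) = x * W3 x := by
  unfold W3
  rw [tsum_eq_sum (s := range I), mul_sum]
  · refine sum_congr rfl fun i _ => ?_
    unfold W
    rw [div_pow]
    field_simp
  · intro i hi
    rw [W_zero, mul_zero]
    rw [div_lt_one (by positivity)]
    exact hI.trans_le (pow_le_pow_right₀ (by norm_num) (by simpa using hi))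

lemma hh_zero : hh 0 = 0 := by
  unfold hh mf; simp

lemma SS_eq (h : StConv) {x : ℝ} (hx : 0 < x) :
    SS x / x = ∑' d : ℕ, hh d / d * W3 (x / d) := by
  obtain ⟨I, hI⟩ := pow_unbounded_of_one_lt x (by norm_num : (1 : ℝ) < 3)
  rw [h x I hI, tsum_eq_sum (s := Icc 1 ⌊x⌋₊), sum_div]
  · refine sum_congr rfl fun d hd => ?_
    have hd1 : (1 : ℝ) ≤ d := by exact_mod_cast (mem_Icc.mp hd).1
    rw [W3_eq (by positivity) ((div_le_self hx.le hd1).trans_lt hI)]
    field_simp
  · intro d hd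
    rcases Nat.eq_zero_or_pos d with rfl | hd0
    · simp
    · have h1 : ⌊x⌋₊ < d := by
        by_contra h2
        exact hd (mem_Icc.mpr ⟨hd0, not_lt.mp h2⟩)
      rw [W3_zero, mul_zero]
      rw [div_lt_one (by positivity)]
      exact (Nat.floor_lt hx.le).mp h1

end Final

theorem ana (h1 : StSharp) (h2 : StSq) (h3 : StGam) (h4 : StMassq) : StAna := by
  intro ε hε
  have hε3 : 0 < ε / 3 := by linarith
  obtain ⟨q, hq1, hq2, hq3, hq⟩ :=
    ((h1 _ hε3).and ((h2 _ hε3).and ((h3 _ hε3).and (eventually_ge_atTop 24)))).exists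
  filter_upwards [hq1] with y hy
  have s0 := (h4.1 q hq).1
  have s1 : Summable fun m => |cw q m - cA m| :=
    Summable.of_nonneg_of_le (fun _ => abs_nonneg _) (fun m => abs_sub _ _) (s0.add Final.summ_cA)
  have t1 := Final.summ_mul s1 fun m => Final.abs_sq2 (Real.log y - Real.log m)
  have t2 := Final.summ_mul s1 fun m => Final.abs_Gam (Real.log y - Real.log m)
  have t3 := Final.summ_mul Final.summ_cA fun m => Final.abs_Pf (Real.log y - Real.log m)
  have e : ∑' m, cw q m * Pf (Real.log y - Real.log m) =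
      ∑' m, (cw q m - cA m) * (sq (Real.log y - Real.log m) / 2) +
      ∑' m, (cw q m - cA m) * Gam (Real.log y - Real.log m) +
      ∑ m ∈ Aset, gg m / m * Pf (Real.log y - Real.log m) := by
    rw [← Final.tsum_cA, ← t1.tsum_add t2, ← (t1.add t2).tsum_add t3]
    refine tsum_congr fun m => ?_
    unfold Gam
    ring
  have a2 := hq2 (Real.log y)
  have a3 := hq3 (Real.log y)
  rw [e] at hy
  unfold Psi
  rw [Final.trig_om]
  rw [abs_le] at hy a2 a3 ⊢
  constructor <;> linarith [hy.1, hy.2, a2.1, a2.2, a3.1, a3.2]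

theorem final {c : ℝ} (h1 : StConv) (h2 : StEps) (h3 : StTaub) (_h4 : StMassq) (h5 : StAna)
    (h6 : StNum c) : StFinal ((c + 3 * 0.00458) * 1.00055) := by
  obtain ⟨hb, hl⟩ := Final.W3_prop h3 h5 h6
  have hc : 0 ≤ c := (abs_nonneg _).trans (h6 0)
  have hF : ∀ F : Finset ℕ, ∑ d ∈ F, |hh d / d| ≤ 1.00055 := fun F => by
    simpa only [abs_div, Nat.abs_cast] using h2 F
  have hs : Summable fun d : ℕ => |hh d / d| := summable_of_sum_le (fun _ => abs_nonneg _) hF
  have hA : ∑' d : ℕ, |hh d / d| ≤ 1.00055 := hs.tsum_le_of_sum_le hF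
  have hm := (Final.mix (r := fun d => (d : ℝ)) hs hA (fun d => by
    rcases Nat.eq_zero_or_pos d with rfl | hd
    · simp
    · exact Or.inr (by exact_mod_cast hd)) hb (by linarith) hl).2
  intro ε hε
  filter_upwards [hm ε hε, eventually_gt_atTop 0] with x hx hx0
  rw [← Final.SS_eq h1 hx0, abs_div, abs_of_pos hx0] at hx
  exact hx

end

end Pool.Agent.Lib.MP_5db4ad_nt.S2
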