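import Pool.Agent.Lib.MP_5db4ad_nt.S2FSt
import Pool.Agent.Lib.MP_5db4ad_nt.S2Final

/-!
The approximation of `SS x / x` by one absolutely convergent sum of translates of `Pf`.
-/

namespace Pool.Agent.Lib.MP_5db4ad_nt.S2

open Finset Filter Topology
open scoped Real

noncomputable section

namespace App

open Final

/-- the inner approximant -/
def Fq (q : ℕ) (u : ℝ) : ℝ := ∑' m, cw q m * Pf (u - Real.log m)

/-- the approximant after the sum over the powers of three -/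
def F3 (q : ℕ) (x : ℝ) : ℝ := ∑' i : ℕ, (-2 / 3 : ℝ) ^ i * Fq q (Real.log (x / 3 ^ i))

lemma tsum_bd {a f : ℕ → ℝ} {B : ℝ} (ha : Summable fun m => |a m|) (hf : ∀ m, |f m| ≤ B) :
    |∑' m, a m * f m| ≤ ∑' m, |a m| * B := by
  have h := tsum_of_norm_bounded (ha.mul_right B).hasSum (f := fun m => a m * f m) fun m => by
    rw [Real.norm_eq_abs, abs_mul]
    exact mul_le_mul_of_nonneg_left (hf m) (abs_nonneg _)
  simpa using h

lemma Fq_bd {q : ℕ} (h : Summable fun m => |cw q m|) : ∃ P : ℝ, ∀ u, |Fq q u| ≤ P :=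
  ⟨_, fun _ => tsum_bd h fun _ => abs_Pf _⟩

lemma F3_bd {q : ℕ} (h : Summable fun m => |cw q m|) : ∃ P : ℝ, ∀ x, |F3 q x| ≤ P := by
  obtain ⟨P, hP⟩ := Fq_bd h
  exact ⟨_, fun _ => tsum_bd summ_geo fun _ => hP _⟩

lemma summ_hh (he : StEps) :
    (Summable fun d : ℕ => |hh d / d|) ∧ ∑' d : ℕ, |hh d / d| ≤ 1.00055 := by
  have hF : ∀ F : Finset ℕ, ∑ d ∈ F, |hh d / d| ≤ 1.00055 := fun F => by
    simpa only [abs_div, Nat.abs_cast] using he F
  have hs : Summable fun d : ℕ => |hh d / d| := summable_of_sum_le (fun _ => abs_nonneg _) hF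
  exact ⟨hs, hs.tsum_le_of_sum_le hF⟩

lemma summ_w3 (he : StEps) {q : ℕ} (h : Summable fun m => |cw q m|) :
    Summable fun j => ‖w3 q j‖ := by
  have h1 : Summable fun d : ℕ => ‖hh d / d‖ := (summ_hh he).1
  have h2 : Summable fun i : ℕ => ‖(-2 / 3 : ℝ) ^ i‖ := summ_geo
  have h3 : Summable fun m : ℕ => ‖cw q m‖ := h
  exact h1.mul_norm (h2.mul_norm h3)

lemma FF_eq (he : StEps) {q : ℕ} (h : Summable fun m => |cw q m|) (u : ℝ) :
    FF (w3 q) t3 u = ∑' d : ℕ, hh d / d *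
      ∑' i : ℕ, (-2 / 3 : ℝ) ^ i * Fq q (u - Real.log d - i * Real.log 3) := by
  have hs : Summable fun j => w3 q j * Pf (u - t3 j) := by
    refine Summable.of_norm_bounded ((summ_w3 he h).mul_right (2 / 3)) fun j => ?_
    rw [norm_mul]
    exact mul_le_mul_of_nonneg_left (abs_Pf _) (norm_nonneg _)
  unfold FF
  rw [hs.tsum_prod]
  refine tsum_congr fun d => ?_
  rw [(hs.prod_factor d).tsum_prod, ← tsum_mul_left]
  refine tsum_congr fun i => ?_
  unfold Fq
  rw [← tsum_mul_left, ← tsum_mul_left]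
  refine tsum_congr fun m => ?_
  have e : u - t3 (d, i, m) = u - Real.log d - i * Real.log 3 - Real.log m := by
    unfold t3
    ring
  rw [e]
  unfold w3
  ring

lemma FF_log (he : StEps) {q : ℕ} (h : Summable fun m => |cw q m|) {x : ℝ} (hx : 0 < x) :
    FF (w3 q) t3 (Real.log x) = ∑' d : ℕ, hh d / d * F3 q (x / d) := by
  rw [FF_eq he h]
  refine tsum_congr fun d => ?_
  rcases Nat.eq_zero_or_pos d with rfl | hd
  · simp
  · have hd0 : (0 : ℝ) < d := by exact_mod_cast hd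
    unfold F3
    congr 1
    refine tsum_congr fun i => ?_
    rw [Real.log_div (by positivity) (by positivity), Real.log_div hx.ne' hd0.ne', Real.log_pow]

lemma D_lim (ht : StTaub) {q : ℕ} {ε : ℝ}
    (hs : ∀ᶠ y : ℝ in atTop, |VV y - ∑' m, cw q m * Pf (Real.log y - Real.log m)| ≤ ε) :
    Lim (fun y => W y - Fq q (Real.log y)) ε := by
  intro η hη
  have h1 := (Metric.tendsto_nhds.mp (TT_lim ht)) η hη
  filter_upwards [hs, h1] with y hy hy1
  rw [Real.dist_eq, sub_zero] at hy1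
  have e : W y - Fq q (Real.log y) =
      TT y / (3 * y) + (VV y - ∑' m, cw q m * Pf (Real.log y - Real.log m)) := by
    unfold W Fq
    ring
  rw [e]
  have := abs_add_le (TT y / (3 * y)) (VV y - ∑' m, cw q m * Pf (Real.log y - Real.log m))
  linarith

lemma D_bd {q : ℕ} (h : Summable fun m => |cw q m|) {ε : ℝ}
    (hl : Lim (fun y => W y - Fq q (Real.log y)) ε) : Bd fun y => W y - Fq q (Real.log y) := by
  obtain ⟨Y, hY⟩ := eventually_atTop.mp (hl 1 one_pos)
  obtain ⟨B, hB⟩ := W_small Y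
  obtain ⟨P, hP⟩ := Fq_bd h
  refine ⟨max (ε + 1) (B + P), fun y _ => ?_⟩
  rcases le_total y Y with h1 | h1
  · refine le_trans ?_ (le_max_right _ _)
    have h2 := abs_sub (W y) (Fq q (Real.log y))
    have h3 := hB y h1
    have h4 := hP (Real.log y)
    linarith
  · exact (hY y h1).trans (le_max_left _ _)

lemma W3_split {q : ℕ} (h : Summable fun m => |cw q m|)
    (hb : Bd fun y => W y - Fq q (Real.log y)) {x : ℝ} (hx : 0 < x) :
    W3 x = (∑' i : ℕ, (-2 / 3 : ℝ) ^ i * (W (x / 3 ^ i) - Fq q (Real.log (x / 3 ^ i)))) +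
      F3 q x := by
  obtain ⟨B, hB⟩ := hb
  obtain ⟨P, hP⟩ := Fq_bd h
  have s1 : Summable fun i : ℕ => (-2 / 3 : ℝ) ^ i * Fq q (Real.log (x / 3 ^ i)) :=
    summ_mul summ_geo fun i => hP _
  have s2 : Summable fun i : ℕ =>
      (-2 / 3 : ℝ) ^ i * (W (x / 3 ^ i) - Fq q (Real.log (x / 3 ^ i))) :=
    summ_mul summ_geo fun i => hB _ (by positivity)
  unfold F3
  rw [← s2.tsum_add s1]
  unfold W3
  refine tsum_congr fun i => ?_
  ring

lemma main (hc : StConv) (he : StEps) (ht : StTaub) {q : ℕ} (h : Summable fun m => |cw q m|)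
    {ε : ℝ} (hε : 0 ≤ ε)
    (hs : ∀ᶠ y : ℝ in atTop, |VV y - ∑' m, cw q m * Pf (Real.log y - Real.log m)| ≤ ε) :
    Lim (fun x => SS x / x - FF (w3 q) t3 (Real.log x)) (ε * 3 * 1.00055) := by
  have hl := D_lim ht hs
  have hb := D_bd h hl
  obtain ⟨hb3, hl3⟩ := mix (r := fun i => (3 : ℝ) ^ i) summ_geo tsum_geo
    (fun i => Or.inr (by positivity)) hb hε hl
  obtain ⟨sh, sA⟩ := summ_hh he
  have hr : ∀ d : ℕ, hh d / d = 0 ∨ (0 : ℝ) < d := fun d => by
    rcases Nat.eq_zero_or_pos d with rfl | hd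
    · simp
    · exact Or.inr (by exact_mod_cast hd)
  have hl4 := (mix (r := fun d => (d : ℝ)) sh sA hr hb3 (by positivity) hl3).2
  obtain ⟨B, hB⟩ := hb3
  obtain ⟨P, hP⟩ := F3_bd h
  intro η hη
  filter_upwards [hl4 η hη, eventually_gt_atTop 0] with x hx hx0
  have s1 : Summable fun d : ℕ => hh d / d * F3 q (x / d) := summ_mul sh fun d => hP _
  have s2 : Summable fun d : ℕ => hh d / d * ∑' i : ℕ, (-2 / 3 : ℝ) ^ i *
      (W (x / d / 3 ^ i) - Fq q (Real.log (x / d / 3 ^ i))) :=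
    Summable.of_norm_bounded (sh.mul_right B) fun d => summ_mix hr hB hx0 d
  have e : SS x / x = (∑' d : ℕ, hh d / d * ∑' i : ℕ, (-2 / 3 : ℝ) ^ i *
      (W (x / d / 3 ^ i) - Fq q (Real.log (x / d / 3 ^ i)))) +
      ∑' d : ℕ, hh d / d * F3 q (x / d) := by
    rw [SS_eq hc hx0, ← s2.tsum_add s1]
    refine tsum_congr fun d => ?_
    rcases hr d with h0 | h0
    · rw [h0]
      ring
    · rw [W3_split h hb (div_pos hx0 h0)]
      ring
  rw [e, FF_log he h hx0, add_sub_cancel_right]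
  exact hx

end App

theorem app (hc : StConv) (he : StEps) (ht : StTaub) (hq : StMassq) (hs : StSharp) : StApp := by
  refine ⟨fun q h => (App.summ_w3 he (hq.1 q h).1).of_norm, fun ε hε => ?_⟩
  filter_upwards [hs (ε / 4) (by linarith), eventually_ge_atTop 24] with q h1 h2
  have h3 := App.main hc he ht (hq.1 q h2).1 (by linarith) h1 (ε / 8) (by linarith)
  filter_upwards [h3] with x hx
  linarith

end

end Pool.Agent.Lib.MP_5db4ad_nt.S2
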