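import Pool.Agent.Lib.MP_5db4ad_nt.S2LowSt

/-!
Statements on trigonometric polynomials with frequencies in `[-H, H)`.
-/

namespace Pool.Agent.Lib.MP_5db4ad_nt.S2

open Finset
open scoped Real

noncomputable section

/-- the polynomial with coefficient `c j` at the frequency `j - H` -/
def PP (H : ℕ) (c : ℕ → ℂ) (θ : ℝ) : ℂ := ∑ j ∈ range (2 * H), c j * ee (((j : ℝ) - H) * θ)

/-- Bernstein's inequality -/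
def StBern : Prop := ∀ (H : ℕ) (c : ℕ → ℂ) (S : ℝ), 1 ≤ H → (∀ θ, ‖PP H c θ‖ ≤ S) →
  ∀ θ, ‖PP H (fun j => ((((j : ℝ) - H) / H : ℝ) : ℂ) * c j) θ‖ ≤ S

/-- from a grid to all points -/
def StGrid : Prop := ∀ (H M : ℕ) (c : ℕ → ℂ) (S : ℝ), 1 ≤ H → 4 * H ≤ M →
  (∀ i < M, ‖PP H c (i / M)‖ ≤ S) → ∀ θ, ‖PP H c θ‖ ≤ S / (1 - (π * H / M) ^ 2 / 2)

/-- norm of the multiplier `om` on the block `k0 ≤ k < k0 + 2 H` -/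
def omN (k0 H : ℕ) : ℝ :=
  ((1 - (2 * k0 + 1) / 2 ^ 24) ^ 3 *
    (1 + 3 * ((2 * k0 + 1 + 4 * H) / 2 ^ 24) + ((2 * k0 + 1 + 4 * H) / 2 ^ 24) ^ 2) + 1 / tk k0) /
      (π * (2 * k0 + 1))

def StBlock : Prop := ∀ (k0 H : ℕ) (R : ℕ → ℂ) (S : ℝ), 1 ≤ H → k0 + 2 * H ≤ 2 ^ 23 →
  (∀ θ, ‖PP H R θ‖ ≤ S) →
  ∀ u, |∑ j ∈ range (2 * H), 2 * (om (k0 + j) * R j * ex (k0 + j) u).re| ≤ 2 * omN k0 H * S

end

end Pool.Agent.Lib.MP_5db4ad_nt.S2
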