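import Pool.Agent.Lib.MP_5db4ad_nt.S2Defs

/-!
The contour shift for the smoothed Dirichlet series of `gg` on the line of real part one.
-/

namespace Pool.Agent.Lib.MP_5db4ad_nt.S2

open Finset Filter MeasureTheory
open scoped Real Topology

namespace Cont

lemma set_bound {f : ℝ → ℂ} {g : ℝ → ℝ} {s : Set ℝ} (hs : MeasurableSet s) (hg : Integrable g)
    (hg0 : ∀ t, 0 ≤ g t) (h : ∀ t ∈ s, ‖f t‖ ≤ g t) : ‖∫ t in s, f t‖ ≤ ∫ t, g t := by
  refine (norm_integral_le_of_norm_le hg.integrableOn ?_).trans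
    (setIntegral_le_integral hg (Eventually.of_forall hg0))
  exact (ae_restrict_iff' hs).2 (Eventually.of_forall h)

lemma exp_tail {u t : ℝ} (hu : 2 ≤ u) (ht : 1 ≤ |t|) :
    Real.exp (-(u * |t|)) ≤ Real.exp (2 - u) * (1 + t ^ 2)⁻¹ := by
  have h1 : 1 + t ^ 2 ≤ Real.exp (2 * |t|) := by
    have h := Real.add_one_le_exp |t|
    have h2 : Real.exp (2 * |t|) = Real.exp |t| ^ 2 := by
      rw [← Real.exp_nat_mul]; norm_num
    have h3 : (|t| + 1) ^ 2 ≤ Real.exp |t| ^ 2 := pow_le_pow_left₀ (by positivity) h 2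
    have h4 : |t| ^ 2 = t ^ 2 := sq_abs t
    nlinarith [abs_nonneg t]
  have h0 : (0 : ℝ) < 1 + t ^ 2 := by positivity
  rw [← div_eq_mul_inv, le_div_iff₀ h0]
  calc Real.exp (-(u * |t|)) * (1 + t ^ 2) ≤ Real.exp (-(u * |t|)) * Real.exp (2 * |t|) :=
        mul_le_mul_of_nonneg_left h1 (Real.exp_pos _).le
    _ = Real.exp (-(u * |t|) + 2 * |t|) := (Real.exp_add _ _).symm
    _ ≤ Real.exp (2 - u) := Real.exp_le_exp.2 (by nlinarith)

/-- the contour shift for `F * kap p` when `F` vanishes at the pole -/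
lemma shift (hK : StKap) (hR : StRect) {p a c A B D : ℝ} {F : ℂ → ℂ} (hp : 0 < p) (hp1 : p ≤ 1)
    (ha : a < 0) (hap : -p < a) (hc : 0 < c) (hcp : c < p)
    (hF : DifferentiableOn ℂ F {z | a ≤ z.re ∧ z.re ≤ c ∧ |z.im| ≤ 1}) (hF0 : F 0 = 0)
    (hA : ∀ t : ℝ, |t| ≤ 1 → ‖F (a + t * Complex.I)‖ ≤ A)
    (hB : ∀ x t : ℝ, a ≤ x → x ≤ c → |t| = 1 → ‖F (x + t * Complex.I)‖ ≤ B)
    (hD : ∀ t : ℝ, ‖F (c + t * Complex.I)‖ ≤ D)
    (hint : Integrable fun t : ℝ => F (c + t * Complex.I) * kap p (c + t * Complex.I)) :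
    ‖∫ t : ℝ, F (c + t * Complex.I) * kap p (c + t * Complex.I)‖ ≤
      A * (π / |Real.sin (π * a / p)|) + 2 * (B * (2.01 * π / p * Real.exp (-(π / p)))) * (c - a) +
        D * (2.01 * π / p * Real.exp (2 - π / p)) * π := by
  obtain ⟨k1, k2, ⟨k, hk, hkz⟩, -⟩ := hK p hp
  have hA0 : 0 ≤ A := (norm_nonneg _).trans (hA 0 (by simp))
  have hB0 : 0 ≤ B := (norm_nonneg _).trans (hB c 1 (by linarith) le_rfl (by simp))
  have hD0 : 0 ≤ D := (norm_nonneg _).trans (hD 0)
  have hnb : {z : ℂ | a ≤ z.re ∧ z.re ≤ c ∧ |z.im| ≤ 1} ∈ 𝓝 (0 : ℂ) := by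
    have e1 : ∀ᶠ z : ℂ in 𝓝 0, a ≤ z.re :=
      (Complex.continuous_re.tendsto 0).eventually (Ici_mem_nhds (by simpa using ha))
    have e2 : ∀ᶠ z : ℂ in 𝓝 0, z.re ≤ c :=
      (Complex.continuous_re.tendsto 0).eventually (Iic_mem_nhds (by simpa using hc))
    have e3 : ∀ᶠ z : ℂ in 𝓝 0, |z.im| ≤ 1 :=
      (Complex.continuous_im.abs.tendsto 0).eventually (Iic_mem_nhds (by simp))
    exact e1.and (e2.and e3)
  have hΦ : DifferentiableOn ℂ (fun z => dslope F 0 z * k z)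
      {z : ℂ | a ≤ z.re ∧ z.re ≤ c ∧ |z.im| ≤ 1} := by
    refine ((Complex.differentiableOn_dslope hnb).2 hF).mul (hk.mono fun z hz => ?_)
    simp only [Set.mem_ofPred_eq] at hz ⊢
    rw [abs_lt]; constructor <;> linarith [hz.1, hz.2.1]
  have hE : ∀ z : ℂ, z ≠ 0 → dslope F 0 z * k z = F z * kap p z := by
    intro z hz
    rw [dslope_of_ne _ hz, slope_def_field, hkz z hz, hF0]
    field_simp
    ring
  have hne : ∀ x t : ℝ, x ≠ 0 ∨ t ≠ 0 → (x : ℂ) + t * Complex.I ≠ 0 := by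
    intro x t h h0
    have h1 := congrArg Complex.re h0
    have h2 := congrArg Complex.im h0
    simp at h1 h2
    rcases h with h | h
    · exact h h1
    · exact h h2
  have hH : ∀ x t : ℝ, a ≤ x → x ≤ c → |t| = 1 →
      ‖dslope F 0 (x + t * Complex.I) * k (x + t * Complex.I)‖ ≤
        B * (2.01 * π / p * Real.exp (-(π / p))) := by
    intro x t h1 h2 h3
    have ht0 : t ≠ 0 := by rintro rfl; simp at h3
    rw [hE _ (hne x t (Or.inr ht0)), norm_mul]
    have h4 := k2 x t (by rw [h3]; exact hp1)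
    rw [h3, mul_one] at h4
    exact mul_le_mul (hB x t h1 h2 h3) h4 (norm_nonneg _) hB0
  have hrect := hR (fun z => dslope F 0 z * k z) a c 1 (B * (2.01 * π / p * Real.exp (-(π / p))))
    (by linarith) zero_le_one hΦ (fun x h1 h2 => ⟨hH x 1 h1 h2 (by simp), by
      have h := hH x (-1) h1 h2 (by simp)
      have e : (x : ℂ) - ((1 : ℝ) : ℂ) * Complex.I = x + ((-1 : ℝ) : ℂ) * Complex.I := by
        push_cast; ring
      rw [e]; exact h⟩)
  simp only [hE _ (hne c _ (Or.inl hc.ne')), hE _ (hne a _ (Or.inl ha.ne))] at hrect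
  rw [intervalIntegral.integral_of_le (by norm_num), intervalIntegral.integral_of_le (by norm_num)]
    at hrect
  obtain ⟨ka, kb⟩ := k1 a ha.ne (by rw [abs_lt]; constructor <;> linarith)
  have hleft : ‖∫ t in Set.Ioc (-1 : ℝ) 1, F (a + t * Complex.I) * kap p (a + t * Complex.I)‖ ≤
      A * (π / |Real.sin (π * a / p)|) := by
    refine (set_bound (g := fun t : ℝ => A * ‖kap p (a + t * Complex.I)‖) measurableSet_Ioc
      (ka.norm.const_mul A) (fun t => by positivity) fun t ht => ?_).trans ?_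
    · rw [norm_mul]
      exact mul_le_mul_of_nonneg_right (hA t (abs_le.2 ⟨ht.1.le, ht.2⟩)) (norm_nonneg _)
    · rw [integral_const_mul]
      exact mul_le_mul_of_nonneg_left kb hA0
  have hu : 2 ≤ π / p := by
    rw [le_div_iff₀ hp]; linarith [Real.pi_gt_three]
  have htail : ‖∫ t in (Set.Ioc (-1 : ℝ) 1)ᶜ, F (c + t * Complex.I) * kap p (c + t * Complex.I)‖ ≤
      D * (2.01 * π / p * Real.exp (2 - π / p)) * π := by
    refine (set_bound (g := fun t : ℝ => D * (2.01 * π / p * Real.exp (2 - π / p)) * (1 + t ^ 2)⁻¹)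
      measurableSet_Ioc.compl (integrable_inv_one_add_sq.const_mul _) (fun t => by positivity)
      fun t ht => ?_).trans ?_
    · have ht1 : 1 ≤ |t| := by
        by_contra h
        rw [not_le, abs_lt] at h
        exact ht ⟨h.1, h.2.le⟩
      have h4 := k2 c t (hp1.trans ht1)
      have h5 := exp_tail hu ht1
      have e : π * |t| / p = π / p * |t| := by ring
      rw [e] at h4
      rw [norm_mul]
      calc _ ≤ D * (2.01 * π / p * Real.exp (-(π / p * |t|))) :=
            mul_le_mul (hD t) h4 (norm_nonneg _) hD0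
        _ ≤ D * (2.01 * π / p * (Real.exp (2 - π / p) * (1 + t ^ 2)⁻¹)) := by gcongr
        _ = _ := by ring
    · rw [integral_const_mul, integral_univ_inv_one_add_sq]
  rw [← integral_add_compl (s := Set.Ioc (-1 : ℝ) 1) measurableSet_Ioc hint]
  refine (norm_add_le _ _).trans (add_le_add ?_ htail)
  have h := norm_le_norm_add_norm_sub' (∫ t in Set.Ioc (-1 : ℝ) 1,
    F (c + t * Complex.I) * kap p (c + t * Complex.I))
    (∫ t in Set.Ioc (-1 : ℝ) 1, F (a + t * Complex.I) * kap p (a + t * Complex.I))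
  linarith

lemma exp_cpow (l : ℝ) (z : ℂ) : ((Real.exp l : ℝ) : ℂ) ^ z = Complex.exp (l * z) := by
  rw [Complex.cpow_def_of_ne_zero (by exact_mod_cast (Real.exp_pos l).ne'),
    ← Complex.ofReal_log (Real.exp_pos l).le, Real.log_exp]

lemma norm_exp_mul (l x t : ℝ) :
    ‖Complex.exp (l * (x + t * Complex.I))‖ = Real.exp (l * x) := by
  rw [Complex.norm_exp]; simp

lemma gg_zero : gg 0 = 0 := by simp [gg, mf]

lemma Gf_le (hDir : StDir) (hMass : StMass) {c : ℝ} (hc : 0 < c) (τ : ℝ) :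
    ‖Gf ((1 + c : ℝ) + τ * Complex.I)‖ ≤ 1.1361 * (1 + 1 / (3 * c)) ^ 2 := by
  obtain ⟨h1, h2⟩ := hMass c hc
  have h := hDir ((1 + c : ℝ) + τ * Complex.I) (by simpa using hc)
  refine le_trans (h.norm_le_of_bounded h1.hasSum fun m => ?_) h2
  rcases Nat.eq_zero_or_pos m with rfl | hm
  · simp [gg_zero]
  · rw [norm_mul, Complex.norm_natCast_cpow_of_pos hm, Complex.norm_real, Real.norm_eq_abs]
    simp

lemma small {L q η M : ℝ} (hL : 17 ≤ L) (hq : 20 ≤ q) (hqL : 2 * q ≤ 3 * L) (hη : η ≤ 0.43)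
    (hM : 1 ≤ M) :
    (2 * (2 * M * Real.exp (2 * L) * (2.01 * π / (1 / (2 * L)) * Real.exp (-(π / (1 / (2 * L)))))) *
        (1 / (3 * L) - -(η / L)) + (1.1361 * (1 + L) ^ 2 + M) * Real.exp (2 * L) *
          (2.01 * π / (1 / (2 * L)) * Real.exp (2 - π / (1 / (2 * L)))) * π) / (2 * π) +
      M * Real.exp (-(2 * q)) ≤ 0.0005 * M * Real.exp (-(2 * η * q)) := by
  have hL0 : 0 < L := by linarith
  have hpi := Real.pi_gt_d2
  have hpi' := Real.pi_lt_d2
  have e1 : π / (1 / (2 * L)) = 2 * π * L := by field_simp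
  have e2 : 2.01 * π / (1 / (2 * L)) = 4.02 * π * L := by field_simp; norm_num
  have e3 : Real.exp (2 - 2 * π * L) = Real.exp 2 * Real.exp (-(2 * π * L)) := by
    rw [← Real.exp_add]; ring_nf
  rw [e1, e2, e3]
  have hpow : ∀ n : ℕ, Real.exp (-(n : ℝ)) ≤ 1 / 2 ^ n := by
    intro n
    have h := Real.add_one_le_exp 1
    rw [Real.exp_neg, ← one_div, ← mul_one (n : ℝ), Real.exp_nat_mul]
    gcongr
    linarith
  have he2 : Real.exp 2 ≤ 7.4 := by
    have h := Real.exp_one_lt_d9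
    have h2 : Real.exp 2 = Real.exp 1 * Real.exp 1 := by rw [← Real.exp_add]; norm_num
    nlinarith [Real.exp_pos 1]
  have hw : 1 + L ≤ Real.exp (L / 2) := by
    have h := Real.quadratic_le_exp_of_nonneg (x := L / 2) (by positivity)
    nlinarith
  have hw3 : (1 + L) ^ 3 ≤ Real.exp (3 * L / 2) := by
    have h : Real.exp (3 * L / 2) = Real.exp (L / 2) ^ 3 := by
      rw [← Real.exp_nat_mul]; congr 1; push_cast; ring
    rw [h]; gcongr
  have hηq : η * q ≤ 0.43 * q := mul_le_mul_of_nonneg_right hη (by linarith)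
  have hπL : 3.14 * L ≤ π * L := mul_le_mul_of_nonneg_right hpi.le hL0.le
  set Z := Real.exp (-(2 * η * q)) with hZ
  have hZ0 : 0 < Z := Real.exp_pos _
  obtain ⟨Y, hY⟩ : ∃ Y, Y = Real.exp (2 * L) * Real.exp (-(2 * π * L)) := ⟨_, rfl⟩
  have hY0 : 0 < Y := by rw [hY]; positivity
  have hYZ : (1 + L) ^ 3 * Y ≤ Z * (1 / 2 ^ 25) := by
    calc (1 + L) ^ 3 * Y ≤ Real.exp (3 * L / 2) * Y := by gcongr
      _ = Real.exp (3 * L / 2 + (2 * L + -(2 * π * L))) := by
          rw [hY, Real.exp_add, Real.exp_add]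
      _ ≤ Real.exp (-(2 * η * q) + -((25 : ℕ) : ℝ)) := by
          refine Real.exp_le_exp.2 ?_
          push_cast
          linarith
      _ = Z * Real.exp (-((25 : ℕ) : ℝ)) := Real.exp_add _ _
      _ ≤ _ := mul_le_mul_of_nonneg_left (hpow 25) hZ0.le
  have hq2 : Real.exp (-(2 * q)) ≤ Z * (1 / 2 ^ 22) := by
    calc Real.exp (-(2 * q)) ≤ Real.exp (-(2 * η * q) + -((22 : ℕ) : ℝ)) := by
          refine Real.exp_le_exp.2 ?_
          push_cast
          linarith
      _ = Z * Real.exp (-((22 : ℕ) : ℝ)) := Real.exp_add _ _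
      _ ≤ _ := mul_le_mul_of_nonneg_left (hpow 22) hZ0.le
  have e4 : (2 * (2 * M * Real.exp (2 * L) * (4.02 * π * L * Real.exp (-(2 * π * L)))) *
        (1 / (3 * L) - -(η / L)) + (1.1361 * (1 + L) ^ 2 + M) * Real.exp (2 * L) *
          (4.02 * π * L * (Real.exp 2 * Real.exp (-(2 * π * L)))) * π) / (2 * π) =
      (8.04 * (1 / 3 + η) * M + (1.1361 * (1 + L) ^ 2 + M) * (2.01 * π * Real.exp 2) * L) * Y := by
    rw [hY]; field_simp; ring
  rw [e4]
  have h1 : 8.04 * (1 / 3 + η) * M ≤ 7 * M :=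
    mul_le_mul_of_nonneg_right (by linarith) (by linarith)
  have h2 : 2.01 * π * Real.exp 2 ≤ 47 :=
    (mul_le_mul (by linarith : 2.01 * π ≤ 6.34) he2 (Real.exp_pos 2).le (by norm_num)).trans
      (by norm_num)
  have h3 : 1.1361 * (1 + L) ^ 2 + M ≤ 2 * (1 + L) ^ 2 * M := by
    have a1 : 18 ^ 2 ≤ (1 + L) ^ 2 := pow_le_pow_left₀ (by norm_num) (by linarith) 2
    have a2 : (1 + L) ^ 2 ≤ (1 + L) ^ 2 * M := le_mul_of_one_le_right (by positivity) hM
    have a3 : 18 ^ 2 * M ≤ (1 + L) ^ 2 * M := mul_le_mul_of_nonneg_right a1 (by linarith)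
    rw [mul_assoc 2]
    linarith
  have h4 : (1.1361 * (1 + L) ^ 2 + M) * (2.01 * π * Real.exp 2) * L ≤
      2 * (1 + L) ^ 2 * M * 47 * (1 + L) := by gcongr; linarith
  have h5 : (1 : ℝ) ≤ (1 + L) ^ 3 := one_le_pow₀ (by linarith)
  have h6 : (8.04 * (1 / 3 + η) * M + (1.1361 * (1 + L) ^ 2 + M) * (2.01 * π * Real.exp 2) * L) * Y
      ≤ 101 * M * ((1 + L) ^ 3 * Y) := by
    rw [← mul_assoc (101 * M)]
    refine mul_le_mul_of_nonneg_right ?_ hY0.le
    have h5' : M ≤ M * (1 + L) ^ 3 := le_mul_of_one_le_right (by linarith) h5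
    have e5 : 2 * (1 + L) ^ 2 * M * 47 * (1 + L) = 94 * (M * (1 + L) ^ 3) := by ring
    have e6 : 101 * M * (1 + L) ^ 3 = 101 * (M * (1 + L) ^ 3) := by ring
    rw [e5] at h4
    rw [e6]
    linarith
  have h7 : 101 * M * ((1 + L) ^ 3 * Y) ≤ 101 * M * (Z * (1 / 2 ^ 25)) := by gcongr
  have h8 : M * Real.exp (-(2 * q)) ≤ M * (Z * (1 / 2 ^ 22)) := by gcongr
  have h9 : 0 ≤ M * Z := by positivity
  have e7 : 101 * M * (Z * (1 / 2 ^ 25)) = 101 / 2 ^ 25 * (M * Z) := by ring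
  have e8 : M * (Z * (1 / 2 ^ 22)) = 1 / 2 ^ 22 * (M * Z) := by ring
  have e9 : 0.0005 * M * Z = 0.0005 * (M * Z) := by ring
  rw [e7] at h7
  rw [e8] at h8
  rw [e9]
  refine (add_le_add (h6.trans h7) h8).trans ?_
  rw [← add_mul]
  exact mul_le_mul_of_nonneg_right (by norm_num) h9

end Cont

open Cont in
theorem cont (hK : StKap) (hMel : StMel) (hR : StRect) (hDir : StDir) (hMass : StMass) :
    StCont := by
  intro L t η M q hL hq hqL hη0 hη hM hG
  have hL0 : 0 < L := by linarith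
  have hp : (0 : ℝ) < 1 / (2 * L) := by positivity
  have hc : (0 : ℝ) < 1 / (3 * L) := by positivity
  have hcp : 1 / (3 * L) < 1 / (2 * L) := one_div_lt_one_div_of_lt (by positivity) (by linarith)
  have hp1 : 1 / (2 * L) ≤ 1 := by rw [div_le_one (by positivity)]; linarith
  have ha : -(η / L) < 0 := neg_lt_zero.2 (by positivity)
  have hap : -(1 / (2 * L)) < -(η / L) := by
    rw [neg_lt_neg_iff, div_lt_div_iff₀ hL0 (by positivity)]; nlinarith
  set s : ℂ := 1 + t * Complex.I with hs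
  have hG' : ∀ x τ : ℝ, -(η / L) ≤ x → x ≤ 1 / (3 * L) → |τ| ≤ 1 →
      DifferentiableAt ℂ Gf (s + (x + τ * Complex.I)) ∧ ‖Gf (s + (x + τ * Complex.I))‖ ≤ M := by
    intro x τ h1 h2 h3
    have h := hG (1 + x) (t + τ) (by linarith) (by linarith) (by simpa using h3)
    have e : ((1 + x : ℝ) : ℂ) + ((t + τ : ℝ) : ℂ) * Complex.I = s + (x + τ * Complex.I) := by
      rw [hs]; push_cast; ring
    rwa [e] at h
  have hGs : ‖Gf s‖ ≤ M := by simpa using (hG' 0 0 ha.le hc.le (by simp)).2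
  set l : ℝ := 2 * q * L with hl
  have hl0 : 0 ≤ l := by positivity
  have hlc : 2 * l * (1 / (3 * L)) ≤ 2 * L := by
    have : 2 * l * (1 / (3 * L)) = 4 * q / 3 := by rw [hl]; field_simp; ring
    rw [this]; linarith
  have hlc0 : 0 ≤ l * (1 / (3 * L)) := by positivity
  set F : ℂ → ℂ := fun z =>
    Gf (s + z) * Complex.exp (l * z) - Gf s * Complex.exp ((2 * l : ℝ) * z) with hF
  have hFn : ∀ x τ b : ℝ, ‖Gf (s + (x + τ * Complex.I))‖ ≤ b →
      ‖F (x + τ * Complex.I)‖ ≤ b * Real.exp (l * x) + M * Real.exp (2 * l * x) := by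
    intro x τ b hb
    refine (norm_sub_le _ _).trans ?_
    rw [norm_mul, norm_mul, norm_exp_mul, norm_exp_mul]
    gcongr
  -- the smoothed sum as an integral
  set f : ℕ → ℂ := fun m => (gg m : ℂ) * (m : ℂ) ^ (-s) with hf
  have hsum : Summable fun m : ℕ => ‖f m‖ * (m : ℝ) ^ (-(1 / (3 * L))) := by
    refine (hMass _ hc).1.congr fun m => ?_
    rcases Nat.eq_zero_or_pos m with rfl | hm
    · simp [hf, gg_zero]
    · have hm' : (0 : ℝ) < m := by exact_mod_cast hm
      rw [hf, norm_mul, Complex.norm_natCast_cpow_of_pos hm, Complex.norm_real, Real.norm_eq_abs,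
        mul_assoc, ← Real.rpow_add hm']
      congr 2
      simp [hs]
      ring
  obtain ⟨m1, m2⟩ := hMel (1 / (2 * L)) (1 / (3 * L)) (Real.exp l) f hc hcp (Real.exp_pos _)
    (by simp [hf, gg_zero]) hsum
  have hDs : ∀ τ : ℝ, ∑' m : ℕ, f m * (m : ℂ) ^ (-(((1 / (3 * L) : ℝ) : ℂ) + τ * Complex.I)) =
      Gf (s + (((1 / (3 * L) : ℝ) : ℂ) + τ * Complex.I)) := by
    intro τ
    rw [← (hDir (s + (((1 / (3 * L) : ℝ) : ℂ) + τ * Complex.I)) (by
      simp only [hs, Complex.add_re, Complex.one_re, Complex.mul_re, Complex.ofReal_re,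
        Complex.I_re, Complex.ofReal_im, Complex.I_im]
      linarith)).tsum_eq]
    refine tsum_congr fun m => ?_
    rcases Nat.eq_zero_or_pos m with rfl | hm
    · simp [hf, gg_zero]
    · rw [hf, mul_assoc, ← Complex.cpow_add _ _ (by exact_mod_cast hm.ne'), neg_add s]
  simp only [hDs, exp_cpow] at m1 m2
  obtain ⟨k1, -, -, k4⟩ := hK _ hp
  have n2 := k4 (1 / (3 * L)) (Real.exp (-(2 * l))) hc hcp (Real.exp_pos _)
  have n1 : Integrable fun τ : ℝ => Complex.exp ((2 * l : ℝ) * (((1 / (3 * L) : ℝ) : ℂ) +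
      τ * Complex.I)) * kap (1 / (2 * L)) (((1 / (3 * L) : ℝ) : ℂ) + τ * Complex.I) := by
    refine (k1 _ hc.ne' (by rwa [abs_of_pos hc])).1.bdd_mul
      (c := Real.exp (2 * l * (1 / (3 * L)))) (Continuous.aestronglyMeasurable (by fun_prop))
      (Eventually.of_forall fun τ => (norm_exp_mul _ _ _).le)
  have e1 : ∀ z : ℂ, ((Real.exp (-(2 * l)) : ℝ) : ℂ) ^ (-z) = Complex.exp ((2 * l : ℝ) * z) := by
    intro z; rw [exp_cpow]; congr 1; push_cast; ring
  have e2 : Real.exp (-(2 * l)) ^ (1 / (2 * L)) = Real.exp (-(2 * q)) := by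
    rw [← Real.exp_mul]; congr 1; rw [hl]; field_simp
  simp only [e1, e2] at n2
  have eF : ∀ z : ℂ, F z * kap (1 / (2 * L)) z = Gf (s + z) * Complex.exp (l * z) *
      kap (1 / (2 * L)) z - Gf s * (Complex.exp ((2 * l : ℝ) * z) * kap (1 / (2 * L)) z) := by
    intro z; rw [hF]; ring
  have key := shift hK hR (F := F) (A := M * (Real.exp (-(2 * η * q)) + Real.exp (-(4 * η * q))))
    (B := 2 * M * Real.exp (2 * L)) (D := (1.1361 * (1 + L) ^ 2 + M) * Real.exp (2 * L))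
    hp hp1 ha hap hc hcp ?_ (by simp [hF]) ?_ ?_ ?_ ?_
  rotate_left
  · intro z hz
    have h := (hG' z.re z.im hz.1 hz.2.1 hz.2.2).1
    rw [Complex.re_add_im] at h
    have h2 : DifferentiableAt ℂ (fun w => Gf (s + w)) z := h.comp z (by fun_prop)
    refine DifferentiableAt.differentiableWithinAt ?_
    rw [hF]
    fun_prop
  · intro τ hτ
    refine (hFn _ τ M (hG' _ τ le_rfl (by linarith) hτ).2).trans (le_of_eq ?_)
    have a1 : l * -(η / L) = -(2 * η * q) := by rw [hl]; field_simp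
    have a2 : 2 * l * -(η / L) = -(4 * η * q) := by rw [hl]; field_simp; ring
    rw [a1, a2]; ring
  · intro x τ h1 h2 hτ
    refine (hFn x τ M (hG' x τ h1 h2 hτ.le).2).trans ?_
    have a0 : l * x ≤ l * (1 / (3 * L)) := mul_le_mul_of_nonneg_left h2 hl0
    have a1 : Real.exp (l * x) ≤ Real.exp (2 * L) := Real.exp_le_exp.2 (by linarith)
    have a2 : Real.exp (2 * l * x) ≤ Real.exp (2 * L) := Real.exp_le_exp.2 (by linarith)
    nlinarith
  · intro τ
    have h := Gf_le hDir hMass hc (t + τ)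
    have e : ((1 + 1 / (3 * L) : ℝ) : ℂ) + ((t + τ : ℝ) : ℂ) * Complex.I =
        s + (((1 / (3 * L) : ℝ) : ℂ) + τ * Complex.I) := by
      rw [hs]; push_cast; ring
    have e' : 1 / (3 * (1 / (3 * L))) = L := by field_simp
    rw [e, e'] at h
    refine (hFn _ τ _ h).trans ?_
    have a1 : Real.exp (l * (1 / (3 * L))) ≤ Real.exp (2 * L) := Real.exp_le_exp.2 (by linarith)
    have a2 : Real.exp (2 * l * (1 / (3 * L))) ≤ Real.exp (2 * L) := Real.exp_le_exp.2 hlc
    rw [add_mul]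
    gcongr
  · simp only [eF]
    exact m1.sub (n1.const_mul _)
  simp only [eF] at key
  rw [integral_sub m1 (n1.const_mul _), integral_const_mul, m2, n2] at key
  have eS : ∑' m : ℕ, f m / ((1 + ((m : ℝ) / Real.exp l) ^ (1 / (2 * L)) : ℝ) : ℂ) = ∑' m : ℕ,
      ((gg m * (1 / (1 + Real.exp (Real.log m / (2 * L) - q))) / m : ℝ) : ℂ) *
        ext t (-Real.log m) := by
    refine tsum_congr fun m => ?_
    rcases Nat.eq_zero_or_pos m with rfl | hm
    · simp [hf, gg_zero]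
    · have hm' : (0 : ℝ) < m := by exact_mod_cast hm
      have b1 : ((m : ℝ) / Real.exp l) ^ (1 / (2 * L)) = Real.exp (Real.log m / (2 * L) - q) := by
        rw [Real.rpow_def_of_pos (by positivity), Real.log_div hm'.ne' (Real.exp_pos _).ne',
          Real.log_exp, hl]
        congr 1; field_simp
      have b2 : (m : ℂ) ^ (-s) = (m : ℂ)⁻¹ * ext t (-Real.log m) := by
        have b3 : (m : ℂ) = ((Real.exp (Real.log m) : ℝ) : ℂ) := by
          rw [Real.exp_log hm']; simp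
        rw [hs, neg_add, Complex.cpow_add _ _ (by exact_mod_cast hm.ne'), Complex.cpow_neg_one]
        congr 1
        rw [b3, exp_cpow, ext]
        congr 1; push_cast; ring
      rw [b1, hf]
      simp only [b2]
      push_cast
      ring
  rw [eS] at key
  set S := ∑' m : ℕ, ((gg m * (1 / (1 + Real.exp (Real.log m / (2 * L) - q))) / m : ℝ) : ℂ) *
    ext t (-Real.log m)
  have hsin : 0 < Real.sin (2 * π * η) :=
    Real.sin_pos_of_pos_of_lt_pi (by positivity) (by nlinarith [Real.pi_pos])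
  have e3 : |Real.sin (π * ((-(η / L) : ℝ)) / (1 / (2 * L)))| = Real.sin (2 * π * η) := by
    have : π * ((-(η / L) : ℝ)) / (1 / (2 * L)) = -(2 * π * η) := by field_simp
    rw [this, Real.sin_neg, abs_neg, abs_of_pos hsin]
  rw [e3] at key
  have hsm := small hL hq hqL hη hM
  have hE := Real.exp_pos (-(2 * q))
  have e4 : Gf s - S = -((1 / (2 * π) : ℝ) : ℂ) * (2 * π * S -
      Gf s * ((2 * π / (1 + Real.exp (-(2 * q))) : ℝ) : ℂ)) +
        Gf s * ((Real.exp (-(2 * q)) / (1 + Real.exp (-(2 * q))) : ℝ) : ℂ) := by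
    have c1 : ((1 + Real.exp (-(2 * q)) : ℝ) : ℂ) ≠ 0 := by exact_mod_cast (by positivity)
    have c2 : (π : ℂ) ≠ 0 := by exact_mod_cast Real.pi_pos.ne'
    rw [Complex.ofReal_div, Complex.ofReal_div, Complex.ofReal_div]
    have c3 : ((Real.exp (-(2 * q)) : ℝ) : ℂ) = ((1 + Real.exp (-(2 * q)) : ℝ) : ℂ) - 1 := by
      rw [Complex.ofReal_add]; simp
    rw [c3]
    generalize ((1 + Real.exp (-(2 * q)) : ℝ) : ℂ) = w at c1 ⊢
    push_cast
    field_simp
    ring
  rw [e4]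
  refine (norm_add_le _ _).trans ?_
  rw [norm_mul, norm_mul, norm_neg, Complex.norm_real, Complex.norm_real,
    Real.norm_of_nonneg (by positivity), Real.norm_of_nonneg (by positivity)]
  have d1 : ‖Gf s‖ * (Real.exp (-(2 * q)) / (1 + Real.exp (-(2 * q)))) ≤ M * Real.exp (-(2 * q)) :=
    mul_le_mul hGs (div_le_self hE.le (by linarith)) (by positivity) (by linarith)
  have d2 := mul_le_mul_of_nonneg_left key (by positivity : (0 : ℝ) ≤ 1 / (2 * π))
  have d3 : 0.0005 * M * Real.exp (-(2 * η * q)) ≤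
      0.001 * M * (Real.exp (-(2 * η * q)) + Real.exp (-(4 * η * q))) /
        (2 * Real.sin (2 * π * η)) := by
    rw [le_div_iff₀ (by positivity)]
    have g1 := Real.sin_le_one (2 * π * η)
    have g2 : 0 ≤ M * Real.exp (-(2 * η * q)) := by positivity
    have g3 : 0 ≤ M * Real.exp (-(4 * η * q)) := by positivity
    nlinarith
  have d4 : ∀ U V : ℝ, 1 / (2 * π) * (M * (Real.exp (-(2 * η * q)) + Real.exp (-(4 * η * q))) *
      (π / Real.sin (2 * π * η)) + U + V) = M * (Real.exp (-(2 * η * q)) +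
        Real.exp (-(4 * η * q))) / (2 * Real.sin (2 * π * η)) + (U + V) / (2 * π) := by
    intro U V; field_simp; ring
  rw [d4] at d2
  have d5 : 1.001 * M * (Real.exp (-(2 * η * q)) + Real.exp (-(4 * η * q))) /
      (2 * Real.sin (2 * π * η)) = M * (Real.exp (-(2 * η * q)) + Real.exp (-(4 * η * q))) /
        (2 * Real.sin (2 * π * η)) + 0.001 * M * (Real.exp (-(2 * η * q)) +
          Real.exp (-(4 * η * q))) / (2 * Real.sin (2 * π * η)) := by ring
  rw [d5]
  linarith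

end Pool.Agent.Lib.MP_5db4ad_nt.S2
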