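import Mathlib

/-!
Definitions and interface statements for the upper bound on the sum of `(-2) ^ Ω(n)`.
Every `St…` is a proposition; the other files prove implications between them.
-/

namespace Pool.Agent.Lib.MP_5db4ad_nt.S2

open Finset Filter
open scoped Real

noncomputable section

/-! ### arithmetic functions -/

/-- the multiplicative function with value `loc p a` at `p ^ a`, `a ≥ 1` -/
def mf (loc : ℕ → ℕ → ℝ) (n : ℕ) : ℝ := if n = 0 then 0 else n.factorization.prod loc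

/-- local coefficients of `gg` -/
def gloc (p a : ℕ) : ℝ :=
  if p ≤ 3 then 0 else if p ≤ 1000 then (-2) ^ a else if a = 1 then -2 else if a = 2 then 1 else 0

/-- local coefficients of `hh`: the series `1 / ((1 + 2 x) (1 - x) ^ 2)` at primes above 1000 -/
def hloc (p a : ℕ) : ℝ := if p ≤ 1000 then 0 else (4 * (-2) ^ a + 3 * a + 5) / 9

def gg : ℕ → ℝ := mf gloc

def hh : ℕ → ℝ := mf hloc

/-- the divisor function on integers prime to 6 -/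
def d6 (n : ℕ) : ℝ := if Nat.Coprime n 6 then (n.divisors.card : ℝ) else 0

def SS (x : ℝ) : ℝ := ∑ n ∈ Icc 1 ⌊x⌋₊, (-2 : ℝ) ^ ArithmeticFunction.cardFactors n

def TT (y : ℝ) : ℝ := ∑ m ∈ Icc 1 ⌊y⌋₊, gg m

/-! ### the periodic functions -/

def Pf (v : ℝ) : ℝ := 2 / 3 * (-2 : ℝ) ^ ⌊v / Real.log 2⌋ * Real.exp (-v)

def sq (v : ℝ) : ℝ := (-1 : ℝ) ^ ⌊v / Real.log 2⌋

def Gam (v : ℝ) : ℝ := Pf v - sq v / 2

def VV (y : ℝ) : ℝ := ∑ m ∈ Icc 1 ⌊y⌋₊, gg m / m * Pf (Real.log y - Real.log m)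

def Kp (x : ℝ) : ℝ := 1 - 5 * x ^ 2 + 5 * x ^ 3 - x ^ 5

def Kf (N n : ℕ) : ℝ := if n < N then Kp (n / N) else 0

def tk (k : ℕ) : ℝ := (2 * k + 1) * π / Real.log 2

def sk (k : ℕ) : ℂ := 1 + tk k * Complex.I

def ext (t u : ℝ) : ℂ := Complex.exp (((t * u : ℝ) : ℂ) * Complex.I)

def ex (k : ℕ) (u : ℝ) : ℂ := ext (tk k) u

/-- Fourier coefficients of `sq / 2` -/
def cs (k : ℕ) : ℂ := 1 / ((2 * k + 1) * π * Complex.I)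

/-- Fourier coefficients of `Gam` -/
def cg (k : ℕ) : ℂ := -cs k / sk k

def trig (M : ℕ) (c : ℕ → ℂ) (u : ℝ) : ℝ := ∑ k ∈ range M, 2 * (c k * ex k u).re

def hat (c : ℕ → ℝ) (k : ℕ) : ℂ := ∑' m : ℕ, (c m : ℂ) * ex k (-Real.log m)

/-- the nonnegative kernel of degree `2 M` on `[-log 2, log 2]` -/
def kern (M : ℕ) (v : ℝ) : ℝ :=
  (1 + 2 * ∑ n ∈ Icc 1 (2 * M), Kf (2 * M) n * Real.cos (π * n * v / Real.log 2)) / (2 * Real.log 2)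

/-! ### the Dirichlet series and its approximants -/

def Df (s : ℂ) : ℂ :=
  ∏ p ∈ (Icc 5 1000).filter Nat.Prime, (1 - 3 * (p : ℂ) ^ (-(2 * s)) + 2 * (p : ℂ) ^ (-(3 * s)))

def Gf (s : ℂ) : ℂ :=
  1 / ((riemannZeta s * (1 - (2 : ℂ) ^ (-s)) * (1 - (3 : ℂ) ^ (-s))) ^ 2 * Df s)

def et (w : ℕ) : ℕ := [14, 14, 14, 15, 16, 18, 20, 22, 23, 25, 28, 30, 33].getD w 36

/-- the integers treated exactly; use only `mem_Aset` -/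
@[irreducible] def Aset : Finset ℕ :=
  (range (2 ^ 36)).filter fun m => Nat.Coprime m 6 ∧ m < 2 ^ et (ArithmeticFunction.cardFactors m)

lemma et_le (w : ℕ) : et w ≤ 36 := by
  unfold et
  rcases lt_or_ge w 13 with h | h
  · interval_cases w <;> simp
  · rw [List.getD_eq_default _ _ (by simpa using h)]

lemma mem_Aset {m : ℕ} :
    m ∈ Aset ↔ Nat.Coprime m 6 ∧ m < 2 ^ et (ArithmeticFunction.cardFactors m) := by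
  unfold Aset
  rw [mem_filter, mem_range]
  exact ⟨fun h => h.2, fun h => ⟨h.2.trans_le (Nat.pow_le_pow_right (by norm_num) (et_le _)), h⟩⟩

def cA (m : ℕ) : ℝ := if m ∈ Aset then gg m / m else 0

def Lq (q : ℕ) : ℝ := q * Real.log 2 - 3 / 10

/-- logistic weight as a function of the logarithm -/
def wf (p μ z : ℝ) : ℝ := 1 / (1 + Real.exp (p * (z - μ)))

def wq (q m : ℕ) : ℝ := 1 / (1 + Real.exp (Real.log m / (2 * Lq q) - q))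

def cw (q m : ℕ) : ℝ := gg m * wq q m / m

/-- the telescoping differences -/
def dd (j m : ℕ) : ℝ := if j = 0 then cw 25 m - cA m else cw (25 + j) m - cw (24 + j) m

def Rk (k : ℕ) : ℂ := Gf (sk k) - hat cA k

def Ek (q k : ℕ) : ℂ := Gf (sk k) - hat (cw q) k

def om (k : ℕ) : ℂ := Kf (2 ^ 24) (2 * k + 1) * cs k + cg k

def Psi (u : ℝ) : ℝ :=
  ∑ m ∈ Aset, gg m / m * Pf (u - Real.log m) + trig (2 ^ 23) (fun k => om k * Rk k) u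

/-- mass of `c` in the windows of half width `v` around the jumps -/
def Win (c : ℕ → ℝ) (a b C : ℝ) : Prop :=
  ∀ u v : ℝ, 0 ≤ v → v ≤ Real.log 2 → ∀ S : Finset (ℕ × ℤ),
    (∀ z ∈ S, |u - Real.log z.1 - z.2 * Real.log 2| ≤ v) →
      ∑ z ∈ S, |c z.1| ≤ 2 * a * v + b + C * v ^ 2

/-- lower bound for zeta in a small rectangle at height `t` -/
def ZF (L t η I : ℝ) : Prop :=
  ∀ σ τ : ℝ, 1 - η / L ≤ σ → σ ≤ 1 + 1 / (3 * L) → |τ - t| ≤ 1 →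
    ‖riemannZeta ((1 + 1 / (3 * L) : ℝ) + τ * Complex.I)‖ ≤
      Real.exp I * ‖riemannZeta (σ + τ * Complex.I)‖

/-- `Gf` is holomorphic and bounded by `M` in that rectangle -/
def GB (L t η M : ℝ) : Prop :=
  ∀ σ τ : ℝ, 1 - η / L ≤ σ → σ ≤ 1 + 1 / (3 * L) → |τ - t| ≤ 1 →
    DifferentiableAt ℂ Gf (σ + τ * Complex.I) ∧ ‖Gf (σ + τ * Complex.I)‖ ≤ M

def kap (p : ℝ) (z : ℂ) : ℂ := (π / p) / Complex.sin (π * z / p)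

/-! ### interface statements -/

def StConv : Prop := ∀ (x : ℝ) (I : ℕ), x < 3 ^ I → SS x = ∑ d ∈ Icc 1 ⌊x⌋₊, hh d *
  ∑ i ∈ range I, (-2) ^ i * (TT (x / d / 3 ^ i) / 3 + x / d / 3 ^ i * VV (x / d / 3 ^ i))

def StEps : Prop := ∀ F : Finset ℕ, ∑ d ∈ F, |hh d| / d ≤ 1.00055

def StMaj : Prop := ∃ r : ℕ → ℝ, (∀ b, 0 ≤ r b) ∧ (∀ F : Finset ℕ, ∑ b ∈ F, r b / b ≤ 1.1361) ∧
  (∀ F : Finset ℕ, ∑ b ∈ F, r b / √b ≤ 20.85) ∧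
  ∀ m, |gg m| ≤ ∑ x ∈ m.divisorsAntidiagonal, r x.1 * d6 x.2

def StCount : Prop := ∀ a h : ℝ, 0 ≤ h → ∀ S : Finset ℕ,
  (∀ n ∈ S, Nat.Coprime n 6 ∧ a ≤ n ∧ n ≤ a + h) →
    (S.card : ℝ) ≤ h / 3 + 4 / 3 ∧ (S.card : ℝ) ≤ h / 2 + 1

def StMass : Prop := ∀ δ : ℝ, 0 < δ → (Summable fun m : ℕ => |gg m| * (m : ℝ) ^ (-(1 + δ))) ∧
  ∑' m : ℕ, |gg m| * (m : ℝ) ^ (-(1 + δ)) ≤ 1.1361 * (1 + 1 / (3 * δ)) ^ 2

def StShort : Prop := ∀ y h : ℝ, 1 ≤ y → 0 ≤ h → ∀ S : Finset ℕ, (∀ m ∈ S, y ≤ m ∧ m ≤ y + h) →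
  ∑ m ∈ S, |gg m| ≤ (0.12624 * Real.log (y + h) + 0.7574) * h + 55.6 * √(y + h)

def StMassq : Prop := (∀ q : ℕ, 24 ≤ q → (Summable fun m => |cw q m|) ∧
  ∑' m, |cw q m| ≤ 0.46 * (q : ℝ) ^ 4) ∧ ∑ m ∈ range (2 ^ 36), |gg m| / m ≤ 300

def StLat : Prop := ∀ p μ a b z : ℝ, 0 < p → 2 ≤ μ → Real.exp (-(p * μ)) ≤ p → 0 ≤ a →
  a * Real.log 2 ≤ b → Real.log 2 ≤ z → z ≤ 2 →
  (Summable fun i : ℕ => wf p μ (z + i * Real.log 2) * (a * (z + i * Real.log 2) + b)) ∧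
  (a * (μ ^ 2 / 2 - 2) + (b - a * Real.log 2) * (μ - 2)) / Real.log 2 ≤
    ∑' i : ℕ, wf p μ (z + i * Real.log 2) * (a * (z + i * Real.log 2) + b) ∧
  ∑' i : ℕ, wf p μ (z + i * Real.log 2) * (a * (z + i * Real.log 2) + b) ≤
    (a * (μ ^ 2 / 2 + 2 / p ^ 2) + (b + a * Real.log 2) * (μ + 1)) / Real.log 2

def StWin0 : Prop := Win (dd 0) 78500 0.00207 (3500 * 25 ^ 4)

def StWinj : Prop := ∀ j : ℕ, 1 ≤ j →
  Win (dd j) (0.72 * (25 + j : ℝ) ^ 3) (0.000001 / 2 ^ j) (3500 * (25 + j : ℝ) ^ 4)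

def StKer0 : Prop := ∀ M : ℕ, 1 ≤ M → (∀ v, 0 ≤ kern M v) ∧
  ∫ v in (-Real.log 2)..Real.log 2, kern M v = 1 ∧
  ∫ v in (-Real.log 2)..Real.log 2, |v| * kern M v ≤ 0.5268 / (2 * M) ∧
  ∫ v in (-Real.log 2)..Real.log 2, v ^ 2 * kern M v ≤ 1.202 / (2 * M) ^ 2

def StKer1 : Prop := ∀ (M : ℕ) (x : ℝ),
  ∫ v in (-Real.log 2)..Real.log 2, sq (x - v) / 2 * kern M v =
    trig M (fun k => Kf (2 * M) (2 * k + 1) * cs k) x ∧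
  ∫ v in (-Real.log 2)..Real.log 2, Gam (x - v) * kern M v =
    trig M (fun k => Kf (2 * M) (2 * k + 1) * cg k) x

def StKerSq : Prop := ∀ (M : ℕ) (c : ℕ → ℝ) (a b C u : ℝ), 1 ≤ M → 0 ≤ a → 0 ≤ C →
  (Summable fun m => |c m|) → Win c a b C →
  |∑' m, c m * (sq (u - Real.log m) / 2) -
    trig M (fun k => Kf (2 * M) (2 * k + 1) * cs k * hat c k) u| ≤
      a * (0.5268 / (2 * M)) + b / 2 + C * (0.601 / (2 * M) ^ 2)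

def StKerGam : Prop := ∀ (M : ℕ) (c : ℕ → ℝ) (u : ℝ), 1 ≤ M → (Summable fun m => |c m|) →
  |∑' m, c m * Gam (u - Real.log m) -
    trig M (fun k => Kf (2 * M) (2 * k + 1) * cg k * hat c k) u| ≤ (∑' m, |c m|) * (0.36 / (2 * M))

def StKf : Prop := ∀ N n : ℕ, 1 ≤ N → 0 ≤ Kf N n ∧ Kf N n ≤ 1 ∧ 1 - Kf N n ≤ 5 * (n / N : ℝ) ^ 2 ∧
  |Kf (2 * N) n - Kf N n| ≤ 0.845 * (n / N : ℝ)

def StDir : Prop := ∀ s : ℂ, 1 < s.re → HasSum (fun m : ℕ => (gg m : ℂ) * (m : ℂ) ^ (-s)) (Gf s)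

def StM : Prop := ∀ L t η I : ℝ, 17 ≤ L → 4.5 ≤ t → η ≤ 0.43 → ZF L t η I →
  GB L t η (1.69 * (1 + L) ^ 2 * Real.exp (2 * I))

def StKap : Prop := ∀ p : ℝ, 0 < p →
  (∀ a : ℝ, a ≠ 0 → |a| < p →
    MeasureTheory.Integrable (fun t : ℝ => kap p (a + t * Complex.I)) ∧
    ∫ t : ℝ, ‖kap p (a + t * Complex.I)‖ ≤ π / |Real.sin (π * a / p)|) ∧
  (∀ a t : ℝ, p ≤ |t| → ‖kap p (a + t * Complex.I)‖ ≤ 2.01 * π / p * Real.exp (-(π * |t| / p))) ∧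
  (∃ k1 : ℂ → ℂ, DifferentiableOn ℂ k1 {z | |z.re| < p} ∧ ∀ z, z ≠ 0 → k1 z = z * kap p z) ∧
  (∀ c y : ℝ, 0 < c → c < p → 0 < y →
    ∫ t : ℝ, (y : ℂ) ^ (-(c + t * Complex.I)) * kap p (c + t * Complex.I) =
      ((2 * π / (1 + y ^ p) : ℝ) : ℂ))

def StMel : Prop := ∀ (p c X : ℝ) (f : ℕ → ℂ), 0 < c → c < p → 0 < X → f 0 = 0 →
  (Summable fun m : ℕ => ‖f m‖ * (m : ℝ) ^ (-c)) →
  MeasureTheory.Integrable (fun t : ℝ => (∑' m : ℕ, f m * (m : ℂ) ^ (-(c + t * Complex.I))) *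
    (X : ℂ) ^ (c + t * Complex.I) * kap p (c + t * Complex.I)) ∧
  ∫ t : ℝ, (∑' m : ℕ, f m * (m : ℂ) ^ (-(c + t * Complex.I))) * (X : ℂ) ^ (c + t * Complex.I) *
    kap p (c + t * Complex.I) = 2 * π * ∑' m : ℕ, f m / ((1 + (m / X) ^ p : ℝ) : ℂ)

def StRect : Prop := ∀ (F : ℂ → ℂ) (a c H B : ℝ), a ≤ c → 0 ≤ H →
  DifferentiableOn ℂ F {z | a ≤ z.re ∧ z.re ≤ c ∧ |z.im| ≤ H} →
  (∀ x, a ≤ x → x ≤ c → ‖F (x + H * Complex.I)‖ ≤ B ∧ ‖F (x - H * Complex.I)‖ ≤ B) →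
  ‖(∫ t in (-H)..H, F (c + t * Complex.I)) - ∫ t in (-H)..H, F (a + t * Complex.I)‖ ≤
    2 * B * (c - a)

def StCont : Prop := ∀ L t η M q : ℝ, 17 ≤ L → 20 ≤ q → 2 * q ≤ 3 * L → 0 < η → η ≤ 0.43 → 1 ≤ M →
  GB L t η M → ‖Gf (1 + t * Complex.I) - ∑' m : ℕ,
    ((gg m * (1 / (1 + Real.exp (Real.log m / (2 * L) - q))) / m : ℝ) : ℂ) * ext t (-Real.log m)‖ ≤
      1.001 * M * (Real.exp (-(2 * η * q)) + Real.exp (-(4 * η * q))) / (2 * Real.sin (2 * π * η))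

def StZall : Prop := ∀ L t : ℝ, 17 ≤ L → 4.5 ≤ t → t + 2 ≤ 2 * π * Real.exp L →
  ZF L t 0.065 2.7 ∧ ZF L t 0 1.51

def StZcls : Prop := ∀ L : ℝ, 17 ≤ L → ∃ B1 B2 B3 : Finset ℕ,
  B1.card ≤ 1 ∧ B2.card ≤ 5 ∧ B3.card ≤ 199 ∧ ∀ k, tk k + 2 ≤ 2 * π * Real.exp L →
    (k ∉ B1 → ZF L (tk k) 0.132 2.72) ∧ (k ∉ B2 → ZF L (tk k) 0.275 2.9) ∧
    (k ∉ B3 → ZF L (tk k) 0.424 2.77)

def StE : Prop := ∀ q : ℕ, 25 ≤ q → ∑ k ∈ range (2 ^ (q - 1)), ‖Ek q k‖ ≤ 8500 ∧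
  ∀ k < 2 ^ (q - 1), ‖Ek q k‖ ≤ 6300 * Real.exp (-(0.05 * (q - 25))) ∧
    ‖Gf (sk k)‖ ≤ 35 * (1 + Lq q) ^ 2

def StTaub : Prop := ∃ C : ℝ, ∀ x : ℝ, 2 ≤ x → |TT x| ≤ C * x / Real.log x ^ 2

/-- the smoothed form of `StTaub` -/
def StTaub1 : Prop := ∃ C : ℝ, ∀ᶠ x : ℝ in atTop,
  |∑' m : ℕ, gg m / (1 + (m / x) ^ (3 * Real.log x ^ 4 + 2))| ≤ C * x / Real.log x ^ 2

def StSharp : Prop := ∀ ε : ℝ, 0 < ε → ∀ᶠ q : ℕ in atTop, ∀ᶠ y : ℝ in atTop,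
  |VV y - ∑' m, cw q m * Pf (Real.log y - Real.log m)| ≤ ε

def StSq : Prop := ∀ ε : ℝ, 0 < ε → ∀ᶠ q : ℕ in atTop, ∀ u : ℝ,
  |∑' m, (cw q m - cA m) * (sq (u - Real.log m) / 2) -
    trig (2 ^ 23) (fun k => Kf (2 ^ 24) (2 * k + 1) * cs k * Rk k) u| ≤ 0.00452 + ε

def StGam : Prop := ∀ ε : ℝ, 0 < ε → ∀ᶠ q : ℕ in atTop, ∀ u : ℝ,
  |∑' m, (cw q m - cA m) * Gam (u - Real.log m) - trig (2 ^ 23) (fun k => cg k * Rk k) u| ≤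
    0.00006 + ε

def StAna : Prop := ∀ ε : ℝ, 0 < ε → ∀ᶠ y : ℝ in atTop, |VV y - Psi (Real.log y)| ≤ 0.00458 + ε

def StNum (c : ℝ) : Prop := ∀ u : ℝ, |∑' i : ℕ, (-2 / 3) ^ i * Psi (u - i * Real.log 3)| ≤ c

def StFinal (c : ℝ) : Prop := ∀ ε : ℝ, 0 < ε → ∀ᶠ x : ℝ in atTop, |SS x| / x ≤ c + ε

end

end Pool.Agent.Lib.MP_5db4ad_nt.S2
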