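import Pool.Agent.Lib.MP_5db4ad_nt.S2Defs

/-!
Further interface statements: the first frequency is treated apart, the approximate functional
equation, and the numerical statement in the form in which it is checked.
-/

namespace Pool.Agent.Lib.MP_5db4ad_nt.S2

open Finset Filter
open scoped Real Topology

noncomputable section

def StZall2 : Prop := ∀ L t : ℝ, 17 ≤ L → 7.5 ≤ t → t + 2 ≤ 2 * π * Real.exp L →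
  ZF L t 0.065 2.7 ∧ ZF L t 0 1.51

def StZcls2 : Prop := ∀ L : ℝ, 17 ≤ L → ∃ B1 B2 B3 : Finset ℕ,
  B1.card ≤ 1 ∧ B2.card ≤ 5 ∧ B3.card ≤ 199 ∧ ∀ k, 1 ≤ k → tk k + 2 ≤ 2 * π * Real.exp L →
    (k ∉ B1 → ZF L (tk k) 0.132 2.72) ∧ (k ∉ B2 → ZF L (tk k) 0.275 2.9) ∧
    (k ∉ B3 → ZF L (tk k) 0.424 2.77)

def StE2 : Prop := ∀ q : ℕ, 25 ≤ q → ∑ k ∈ Ico 1 (2 ^ (q - 1)), ‖Ek q k‖ ≤ 8500 ∧
  ∀ k, 1 ≤ k → k < 2 ^ (q - 1) → ‖Ek q k‖ ≤ 6300 * Real.exp (-(0.05 * (q - 25))) ∧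
    ‖Gf (sk k)‖ ≤ 35 * (1 + Lq q) ^ 2

def StE0 : Prop := ‖Gf (sk 0)‖ ≤ 1000 ∧ Tendsto (fun q : ℕ => ‖Ek q 0‖) atTop (𝓝 0)

def V16 (x : ℝ) : ℝ := 1 / (1 + x ^ 16)

def chi0 (t : ℝ) : ℂ := (((t / (2 * π)) ^ (-(1 / 2) : ℝ) : ℝ) : ℂ) *
  Complex.exp (-((t * Real.log (t / (2 * π)) - t - π / 4 : ℝ) : ℂ) * Complex.I)

def StAfe (C : ℝ) : Prop := ∀ (k : ℕ) (X : ℝ), 1000 ≤ X →
  ‖2 * riemannZeta (sk k) -
    (∑' n : ℕ, (((-1) ^ n * V16 ((n + 1) / X) / (n + 1) : ℝ) : ℂ) * ex k (-Real.log (n + 1))) -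
    chi0 (tk k) * ∑' j : ℕ, (V16 ((2 * j + 1) / (tk k / (π * X))) : ℂ) *
      ex k (Real.log (2 * j + 1))‖ ≤ C * X ^ (-(3 / 2) : ℝ)

/-- the part of the limit function that comes from `Aset` -/
def At (u : ℝ) : ℝ :=
  ∑ m ∈ Aset, (-2 : ℝ) ^ ArithmeticFunction.cardFactors m / m * Pf (u - Real.log m)

def As (k : ℕ) : ℂ :=
  ∑ m ∈ Aset, (((-2 : ℝ) ^ ArithmeticFunction.cardFactors m / m : ℝ) : ℂ) * ex k (-Real.log m)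

def StNum2 (c : ℝ) : Prop := ∀ u : ℝ, |(∑' i : ℕ, (-2 / 3) ^ i * At (u - i * Real.log 3)) +
  trig (2 ^ 23) (fun k => om k * (Gf (sk k) - As k) / (1 + 2 * (3 : ℂ) ^ (-sk k))) u| ≤ c

end

end Pool.Agent.Lib.MP_5db4ad_nt.S2
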