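import Pool.Agent.Lib.MP_5db4ad_nt.S2Defs

/-! The error of the smoothed Dirichlet series at the frequencies. -/

namespace Pool.Agent.Lib.MP_5db4ad_nt.S2

open Finset
open scoped Real

namespace Eb

/-- Taylor polynomial of the exponential. -/
noncomputable def pe (x : ℝ) : ℝ := 1 + x + x ^ 2 / 2 + x ^ 3 / 6 + x ^ 4 / 24 + x ^ 5 / 120

lemma pe_le {x : ℝ} (hx : 0 ≤ x) : pe x ≤ Real.exp x := by
  have h := Real.sum_le_exp_of_nonneg hx 6
  simp only [sum_range_succ, range_zero, sum_empty, Nat.factorial] at h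
  unfold pe
  norm_num at h ⊢
  linarith

lemma up (m : ℕ) {x a B : ℝ} (hx : 0 ≤ x) (ha : a = m - x) (hB0 : 0 ≤ B)
    (hB : 2.7182818286 ^ m ≤ B * pe x) : Real.exp a ≤ B := by
  rw [ha, Real.exp_sub, div_le_iff₀ (Real.exp_pos _), ← Real.exp_one_pow]
  calc Real.exp 1 ^ m ≤ 2.7182818286 ^ m :=
        pow_le_pow_left₀ (Real.exp_pos _).le Real.exp_one_lt_d9.le m
    _ ≤ B * pe x := hB
    _ ≤ _ := mul_le_mul_of_nonneg_left (pe_le hx) hB0

lemma dn (m : ℕ) {x a B : ℝ} (hx : 0 ≤ x) (ha : a = -(m + x)) (hB0 : 0 ≤ B)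
    (hB : 1 ≤ B * (2.7182818283 ^ m * pe x)) : Real.exp a ≤ B := by
  rw [ha, Real.exp_neg, inv_eq_one_div, div_le_iff₀ (Real.exp_pos _), Real.exp_add,
    ← Real.exp_one_pow]
  refine hB.trans (mul_le_mul_of_nonneg_left ?_ hB0)
  refine mul_le_mul (pow_le_pow_left₀ (by norm_num) Real.exp_one_gt_d9.le m) (pe_le hx) ?_
    (by positivity)
  unfold pe
  positivity

lemma sin_lo {a x s : ℝ} (h0 : 0 ≤ a) (h1 : a ≤ x) (h2 : a ≤ π - x) (hs : s ≤ a - a ^ 3 / 6) :
    s ≤ Real.sin x := by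
  have h3 := Real.sin_ge_sub_cube h0
  have hp := Real.pi_pos
  rcases le_total x (π / 2) with h | h
  · linarith [Real.sin_le_sin_of_le_of_le_pi_div_two (by linarith) h h1]
  · rw [← Real.sin_pi_sub]
    linarith [Real.sin_le_sin_of_le_of_le_pi_div_two (x := a) (y := π - x) (by linarith)
      (by linarith) h2]

lemma L_ge {q : ℕ} (hq : 25 ≤ q) : 17 ≤ Lq q ∧ 2 * (q : ℝ) ≤ 3 * Lq q := by
  have h1 : (25 : ℝ) ≤ q := by exact_mod_cast hq
  have h2 := Real.log_two_gt_d9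
  unfold Lq
  constructor <;> nlinarith

lemma L_le {q : ℕ} (hq : 25 ≤ q) :
    (1 + Lq q) ^ 2 ≤ 18.029 ^ 2 * Real.exp (0.0769 * (q - 25)) := by
  have h1 : (25 : ℝ) ≤ q := by exact_mod_cast hq
  have h2 := Real.log_two_lt_d9
  have h3 := Real.add_one_le_exp (0.03845 * ((q : ℝ) - 25))
  have h4 : 1 + Lq q ≤ 18.029 * Real.exp (0.03845 * (q - 25)) := by
    unfold Lq
    nlinarith
  have h5 : Real.exp (0.0769 * (q - 25)) = Real.exp (0.03845 * (q - 25)) ^ 2 := by
    rw [pow_two, ← Real.exp_add]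
    congr 1
    ring
  rw [h5, ← mul_pow]
  exact pow_le_pow_left₀ (by linarith [(L_ge hq).1]) h4 2

lemma t_ge (k : ℕ) : 4.5 ≤ tk k := by
  have h1 := Real.log_two_lt_d9
  have h2 := Real.pi_gt_d6
  have h3 : (0 : ℝ) ≤ k := Nat.cast_nonneg k
  unfold tk
  rw [le_div_iff₀ (Real.log_pos one_lt_two)]
  nlinarith

lemma t_le {q k : ℕ} (hq : 25 ≤ q) (hk : k < 2 ^ (q - 1)) :
    tk k + 2 ≤ 2 * π * Real.exp (Lq q) := by
  have h1 := Real.log_two_gt_d9
  have h2 := Real.pi_gt_three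
  have h3 : 2 * k + 1 ≤ 2 ^ q := by
    obtain ⟨r, rfl⟩ : ∃ r, q = r + 1 := ⟨q - 1, by omega⟩
    rw [Nat.add_sub_cancel] at hk
    rw [pow_succ]
    omega
  have h4 : 2 * (k : ℝ) + 1 ≤ 2 ^ q := by exact_mod_cast h3
  have h5 : (2 : ℝ) ^ 25 ≤ 2 ^ q := pow_le_pow_right₀ one_le_two hq
  have h6 : Real.exp (3 / 10) ≤ 1.351 :=
    up 1 (x := 0.7) (by norm_num) (by norm_num) (by norm_num) (by unfold pe; norm_num)
  have h7 : Real.exp (Lq q) = 2 ^ q / Real.exp (3 / 10) := by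
    unfold Lq
    rw [Real.exp_sub, Real.exp_nat_mul, Real.exp_log two_pos]
  have h8 : (0.74 : ℝ) * 2 ^ q ≤ Real.exp (Lq q) := by
    rw [h7, le_div_iff₀ (Real.exp_pos _)]
    nlinarith
  have h9 : tk k ≤ 1.45 * (π * 2 ^ q) := by
    unfold tk
    rw [div_le_iff₀ (by linarith)]
    have : (2 * (k : ℝ) + 1) * π ≤ π * 2 ^ q := by nlinarith
    have : 0 ≤ π * 2 ^ q := by positivity
    nlinarith
  have h10 : 3 * (2 : ℝ) ^ 25 ≤ π * 2 ^ q := by nlinarith
  nlinarith

lemma cls (hM : StM) (hK : StCont) {q k : ℕ} (hq : 25 ≤ q) {η I E r s B : ℝ} (h0 : 0 < η)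
    (h1 : η ≤ 0.43) (hI : 0 ≤ I) (hE : Real.exp (2 * I - 50 * η) ≤ E)
    (hr : Real.exp (-(50 * η)) ≤ r) (hs0 : 0 < s) (hs : s ≤ Real.sin (2 * π * η))
    (hB : 1.001 * 1.69 * 18.029 ^ 2 * E * (1 + r) ≤ B * (2 * s)) (hz : ZF (Lq q) (tk k) η I) :
    ‖Ek q k‖ ≤ B * Real.exp ((0.0769 - 2 * η) * (q - 25)) := by
  have hq' : (25 : ℝ) ≤ q := by exact_mod_cast hq
  obtain ⟨hL, hL'⟩ := L_ge hq
  have h2 := hK (Lq q) (tk k) η _ q hL (by linarith) hL' h0 h1
    (by nlinarith [Real.one_le_exp (show 0 ≤ 2 * I by linarith)]) (hM _ _ _ _ hL (t_ge k) h1 hz)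
  refine le_trans h2 ?_
  have e1 : Real.exp (-(4 * η * q)) ≤ Real.exp (-(2 * η * q)) * r := by
    refine le_trans ?_ (mul_le_mul_of_nonneg_left hr (Real.exp_pos _).le)
    rw [← Real.exp_add]
    apply Real.exp_le_exp.mpr
    nlinarith
  have e2 : Real.exp (0.0769 * (q - 25)) * Real.exp (2 * I) * Real.exp (-(2 * η * q)) =
      Real.exp (2 * I - 50 * η) * Real.exp ((0.0769 - 2 * η) * (q - 25)) := by
    simp only [← Real.exp_add]
    congr 1
    ring
  have hr0 : 0 ≤ r := (Real.exp_pos _).le.trans hr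
  have hX := Real.exp_pos ((0.0769 - 2 * η) * (q - 25))
  rw [div_le_iff₀ (by linarith)]
  calc _ ≤ 1.001 * (1.69 * (18.029 ^ 2 * Real.exp (0.0769 * (q - 25))) * Real.exp (2 * I)) *
        (Real.exp (-(2 * η * q)) + Real.exp (-(2 * η * q)) * r) := by
        gcongr
        exact L_le hq
    _ = 1.001 * 1.69 * 18.029 ^ 2 * Real.exp (2 * I - 50 * η) * (1 + r) *
        Real.exp ((0.0769 - 2 * η) * (q - 25)) := by
        linear_combination (1.001 * 1.69 * 18.029 ^ 2 * (1 + r)) * e2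
    _ ≤ 1.001 * 1.69 * 18.029 ^ 2 * E * (1 + r) * Real.exp ((0.0769 - 2 * η) * (q - 25)) := by
        gcongr
    _ ≤ B * (2 * s) * Real.exp ((0.0769 - 2 * η) * (q - 25)) := by gcongr
    _ ≤ _ := by
        have hE0 : 0 ≤ E := (Real.exp_pos _).le.trans hE
        have hB0 : 0 ≤ B * (2 * s) := le_trans (by positivity) hB
        have hB1 : 0 ≤ B := nonneg_of_mul_nonneg_left hB0 (by linarith)
        rw [mul_right_comm]
        gcongr

lemma dec {B c d : ℝ} (hB : 0 ≤ B) (hc : c ≤ 0) (hd : 0 ≤ d) : B * Real.exp (c * d) ≤ B :=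
  mul_le_of_le_one_right hB (Real.exp_le_one_iff.mpr (mul_nonpos_of_nonpos_of_nonneg hc hd))

lemma ind (N : ℕ) (B : Finset ℕ) {n : ℕ} (hB : B.card ≤ n) {c : ℝ} (hc : 0 ≤ c) :
    ∑ k ∈ range N, (if k ∈ B then c else 0) ≤ n * c := by
  rw [sum_ite_mem, sum_const, nsmul_eq_mul]
  refine mul_le_mul_of_nonneg_right ?_ hc
  exact_mod_cast (card_le_card inter_subset_right).trans hB

end Eb

open Eb in
theorem ebound (hZ : StZall) (hC : StZcls) (hM : StM) (hK : StCont) : StE := by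
  intro q hq
  have hq' : (25 : ℝ) ≤ q := by exact_mod_cast hq
  have hd : (0 : ℝ) ≤ q - 25 := by linarith
  obtain ⟨hL, -⟩ := L_ge hq
  have p1 := Real.pi_gt_d6
  have p2 := Real.pi_lt_d6
  have c0 : ∀ k < 2 ^ (q - 1), ‖Ek q k‖ ≤ 6200 * Real.exp ((0.0769 - 2 * 0.065) * (q - 25)) :=
    fun k hk => cls hM hK hq (I := 2.7) (E := 8.6) (r := 0.0389) (s := 0.397) (by norm_num)
      (by norm_num) (by norm_num)
      (up 3 (x := 0.85) (by norm_num) (by norm_num) (by norm_num) (by unfold pe; norm_num))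
      (dn 3 (x := 0.25) (by norm_num) (by norm_num) (by norm_num) (by unfold pe; norm_num))
      (by norm_num) (sin_lo (a := 0.4084) (by norm_num) (by linarith) (by linarith) (by norm_num))
      (by norm_num) (hZ _ _ hL (t_ge k) (t_le hq hk)).1
  have c1 : ∀ k, ZF (Lq q) (tk k) 0.132 2.72 → ‖Ek q k‖ ≤ 120 :=
    fun k hz => (cls hM hK hq (E := 0.314) (r := 0.01) (s := 0.73) (B := 120) (by norm_num)
      (by norm_num) (by norm_num)
      (dn 1 (x := 0.16) (by norm_num) (by norm_num) (by norm_num) (by unfold pe; norm_num))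
      (dn 6 (x := 0.6) (by norm_num) (by norm_num) (by norm_num) (by unfold pe; norm_num))
      (by norm_num) (sin_lo (a := 0.829) (by norm_num) (by linarith) (by linarith) (by norm_num))
      (by norm_num) hz).trans (dec (by norm_num) (by norm_num) hd)
  have c2 : ∀ k, ZF (Lq q) (tk k) 0.275 2.9 → ‖Ek q k‖ ≤ 0.11 :=
    fun k hz => (cls hM hK hq (E := 0.000354) (r := 0.01) (s := 0.9) (B := 0.11) (by norm_num)
      (by norm_num) (by norm_num)
      (dn 7 (x := 0.95) (by norm_num) (by norm_num) (by norm_num) (by unfold pe; norm_num))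
      (dn 13 (x := 0.75) (by norm_num) (by norm_num) (by norm_num) (by unfold pe; norm_num))
      (by norm_num) (sin_lo (a := 1.41) (by norm_num) (by linarith) (by linarith) (by norm_num))
      (by norm_num) hz).trans (dec (by norm_num) (by norm_num) hd)
  have c3 : ∀ k, ZF (Lq q) (tk k) 0.424 2.77 →
      ‖Ek q k‖ ≤ 0.000096 * Real.exp ((0.0769 - 2 * 0.424) * (q - 25)) :=
    fun k hz => cls hM hK hq (E := 0.000000159) (r := 0.001) (s := 0.459) (by norm_num)
      (by norm_num) (by norm_num)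
      (dn 15 (x := 0.66) (by norm_num) (by norm_num) (by norm_num) (by unfold pe; norm_num))
      (dn 21 (x := 0.2) (by norm_num) (by norm_num) (by norm_num) (by unfold pe; norm_num))
      (by norm_num) (sin_lo (a := 0.4775) (by norm_num) (by linarith) (by linarith) (by norm_num))
      (by norm_num) hz
  refine ⟨?_, fun k hk => ⟨(c0 k hk).trans ?_, ?_⟩⟩
  · obtain ⟨B1, B2, B3, n1, n2, n3, hB⟩ := hC _ hL
    set X := 0.000096 * Real.exp ((0.0769 - 2 * 0.424) * (q - 25)) with hX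
    have hX0 : 0 ≤ X := by positivity
    have key : ∀ k ∈ range (2 ^ (q - 1)), ‖Ek q k‖ ≤ (if k ∈ B1 then 6200 else 0) +
        (if k ∈ B2 then 120 else 0) + (if k ∈ B3 then 0.11 else 0) + X := by
      intro k hk
      have hk' := mem_range.mp hk
      obtain ⟨z1, z2, z3⟩ := hB k (t_le hq hk')
      have d0 := (c0 k hk').trans (dec (by norm_num) (by norm_num) hd)
      have d1 := fun h => c1 k (z1 h)
      have d2 := fun h => c2 k (z2 h)
      have d3 := fun h => c3 k (z3 h)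
      split_ifs with m1 m2 m3 m3 m2 m3 m3
      · linarith
      · linarith
      · linarith
      · linarith
      · linarith [d1 m1]
      · linarith [d1 m1]
      · linarith [d2 m2]
      · linarith [d3 m3]
    refine (sum_le_sum key).trans ?_
    rw [sum_add_distrib, sum_add_distrib, sum_add_distrib, sum_const, card_range, nsmul_eq_mul]
    have s1 := ind (2 ^ (q - 1)) B1 n1 (c := 6200) (by norm_num)
    have s2 := ind (2 ^ (q - 1)) B2 n2 (c := 120) (by norm_num)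
    have s3 := ind (2 ^ (q - 1)) B3 n3 (c := 0.11) (by norm_num)
    have s4 : ((2 ^ (q - 1) : ℕ) : ℝ) * X ≤ 2 ^ 24 * 0.000096 := by
      obtain ⟨d, rfl⟩ : ∃ d, q = d + 25 := ⟨q - 25, by omega⟩
      have e1 : ((2 ^ (d + 25 - 1) : ℕ) : ℝ) = 2 ^ 24 * Real.exp (Real.log 2 * d) := by
        rw [mul_comm (Real.log 2), Real.exp_nat_mul, Real.exp_log two_pos,
          show d + 25 - 1 = 24 + d by omega, pow_add]
        push_cast
        norm_num
      have e2 : Real.exp (Real.log 2 * d) *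
          Real.exp ((0.0769 - 2 * 0.424) * (((d + 25 : ℕ) : ℝ) - 25)) ≤ 1 := by
        rw [← Real.exp_add, Real.exp_le_one_iff]
        push_cast
        nlinarith [Real.log_two_lt_d9, Nat.cast_nonneg (α := ℝ) d]
      rw [e1, hX]
      nlinarith
    push_cast at s1 s2 s3
    linarith
  · refine mul_le_mul (by norm_num) (Real.exp_le_exp.mpr ?_) (Real.exp_pos _).le (by norm_num)
    nlinarith
  · have h1 := (hM _ _ _ _ hL (t_ge k) (by norm_num) (hZ _ _ hL (t_ge k) (t_le hq hk)).2 1 (tk k)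
      (by simp) (by have : 0 < 1 / (3 * Lq q) := by positivity
                    linarith) (by simp)).2
    have h2 : Real.exp (2 * 1.51) ≤ 20.6 :=
      up 4 (x := 0.98) (by norm_num) (by norm_num) (by norm_num) (by unfold pe; norm_num)
    have h3 : sk k = ((1 : ℝ) : ℂ) + tk k * Complex.I := by simp [sk]
    rw [h3]
    nlinarith [sq_nonneg (1 + Lq q)]

end Pool.Agent.Lib.MP_5db4ad_nt.S2
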