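import Pool.Agent.Lib.MP_5db4ad_nt.S2Defs2
import Pool.Agent.Lib.MP_5db4ad_nt.EM

/-! The first frequency. -/

namespace Pool.Agent.Lib.MP_5db4ad_nt.S2

open Finset Filter
open scoped Real Topology

namespace E0

/-- the denominator of `Gf` -/
noncomputable def den (s : ℂ) : ℂ :=
  (riemannZeta s * (1 - (2 : ℂ) ^ (-s)) * (1 - (3 : ℂ) ^ (-s))) ^ 2 * Df s

lemma Gf_eq : Gf = fun s => 1 / den s := rfl

lemma norm_pow_le {x : ℝ} (hx : 1 ≤ x) {z : ℂ} (k : ℕ) (hz : z.re ≤ -k) :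
    ‖(x : ℂ) ^ z‖ ≤ 1 / x ^ k := by
  have h0 : 0 < x := by linarith
  rw [Complex.norm_cpow_eq_rpow_re_of_pos h0, one_div, ← Real.rpow_natCast, ← Real.rpow_neg h0.le]
  exact Real.rpow_le_rpow_of_exponent_le hx hz

lemma one_sub_sum_le {ι : Type*} (s : Finset ι) (x : ι → ℝ) (h : ∀ i ∈ s, 0 ≤ x i ∧ x i ≤ 1) :
    1 - ∑ i ∈ s, x i ≤ ∏ i ∈ s, (1 - x i) := by
  classical
  induction s using Finset.induction_on with
  | empty => simp
  | insert a s ha ih =>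
    have h1 := h a (Finset.mem_insert_self _ _)
    have h2 := ih fun i hi => h i (Finset.mem_insert_of_mem hi)
    have h3 : 0 ≤ ∑ i ∈ s, x i := Finset.sum_nonneg fun i hi => (h i (Finset.mem_insert_of_mem hi)).1
    rw [Finset.sum_insert ha, Finset.prod_insert ha]
    nlinarith [mul_le_mul_of_nonneg_left h2 (sub_nonneg.2 h1.2), mul_nonneg h1.1 h3]

lemma sum_sq {N : ℕ} (hN : 4 ≤ N) :
    ∑ n ∈ Icc 5 N, 3.4 / (n : ℝ) ^ 2 ≤ 3.4 / 4.5 - 3.4 / ((N : ℝ) + 1 / 2) := by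
  induction N, hN using Nat.le_induction with
  | base => norm_num
  | succ N h ih =>
    have h1 : (4 : ℝ) ≤ N := by exact_mod_cast h
    have h2 : 3.4 / ((N : ℝ) + 1) ^ 2 ≤ 3.4 / ((N : ℝ) + 1 / 2) - 3.4 / ((N : ℝ) + 1 + 1 / 2) := by
      rw [div_sub_div _ _ (by positivity) (by positivity),
        div_le_div_iff₀ (by positivity) (by positivity)]
      nlinarith
    rw [Finset.sum_Icc_succ_top (by omega)]
    push_cast
    linarith

lemma norm_Df {s : ℂ} (hs : 1 ≤ s.re) : 0.24 ≤ ‖Df s‖ := by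
  have h5 : ∀ p ∈ (Icc 5 1000).filter Nat.Prime, (5 : ℝ) ≤ p := fun p hp => by
    exact_mod_cast (Finset.mem_Icc.1 (Finset.mem_filter.1 hp).1).1
  have hx : ∀ p ∈ (Icc 5 1000).filter Nat.Prime,
      0 ≤ 3.4 / (p : ℝ) ^ 2 ∧ 3.4 / (p : ℝ) ^ 2 ≤ 1 := fun p hp => by
    have h := h5 p hp
    refine ⟨by positivity, ?_⟩
    rw [div_le_one (by positivity)]
    nlinarith
  have h1 := one_sub_sum_le _ (fun p : ℕ => 3.4 / (p : ℝ) ^ 2) hx
  have h2 : ∑ p ∈ (Icc 5 1000).filter Nat.Prime, 3.4 / (p : ℝ) ^ 2 ≤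
      ∑ n ∈ Icc 5 1000, 3.4 / ((n : ℕ) : ℝ) ^ 2 :=
    Finset.sum_le_sum_of_subset_of_nonneg (Finset.filter_subset _ _) fun _ _ _ => by positivity
  have h3 := sum_sq (N := 1000) (by norm_num)
  have h4 : ∏ p ∈ (Icc 5 1000).filter Nat.Prime, (1 - 3.4 / (p : ℝ) ^ 2) ≤ ‖Df s‖ := by
    rw [Df, norm_prod]
    refine Finset.prod_le_prod (fun p hp => sub_nonneg.2 (hx p hp).2) fun p hp => ?_
    have h := h5 p hp
    have a1 : ‖(p : ℂ) ^ (-(2 * s))‖ ≤ 1 / (p : ℝ) ^ 2 :=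
      norm_pow_le (x := p) (by linarith) 2 (by simp; linarith)
    have a2 : ‖(p : ℂ) ^ (-(3 * s))‖ ≤ 1 / (p : ℝ) ^ 3 :=
      norm_pow_le (x := p) (by linarith) 3 (by simp; linarith)
    have a3 : 1 / (p : ℝ) ^ 3 ≤ 0.2 * (1 / (p : ℝ) ^ 2) := by
      rw [mul_one_div, div_le_div_iff₀ (by positivity) (by positivity)]
      nlinarith [mul_nonneg (sq_nonneg (p : ℝ)) (sub_nonneg.2 h)]
    have a4 := norm_sub_norm_le (1 : ℂ) (3 * (p : ℂ) ^ (-(2 * s)) - 2 * (p : ℂ) ^ (-(3 * s)))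
    have a5 := norm_sub_le (3 * (p : ℂ) ^ (-(2 * s))) (2 * (p : ℂ) ^ (-(3 * s)))
    rw [norm_mul, norm_mul, Complex.norm_ofNat, Complex.norm_ofNat] at a5
    rw [norm_one, ← sub_add] at a4
    have a6 : 3.4 / (p : ℝ) ^ 2 = 3.4 * (1 / (p : ℝ) ^ 2) := (mul_one_div _ _).symm
    linarith
  have h6 : (0 : ℝ) ≤ 3.4 / (((1000 : ℕ) : ℝ) + 1 / 2) := by positivity
  have h7 : (3.4 : ℝ) / 4.5 ≤ 0.76 := by norm_num
  linarith

lemma norm_two {s : ℂ} (hs : 1 ≤ s.re) : ‖(2 : ℂ) ^ (-s)‖ ≤ 1 / 2 := by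
  simpa using norm_pow_le (x := 2) one_le_two (z := -s) 1 (by simpa using hs)

lemma norm_three {s : ℂ} (hs : 1 ≤ s.re) : 2 / 3 ≤ ‖1 - (3 : ℂ) ^ (-s)‖ := by
  have h1 : ‖(3 : ℂ) ^ (-s)‖ ≤ 1 / 3 := by
    simpa using norm_pow_le (x := 3) (by norm_num) (z := -s) 1 (by simpa using hs)
  have h2 := norm_sub_norm_le (1 : ℂ) ((3 : ℂ) ^ (-s))
  rw [norm_one] at h2
  linarith

lemma den_ne {s : ℂ} (hs : 1 ≤ s.re) : den s ≠ 0 := by
  have h1 := norm_two hs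
  have h2 := norm_sub_norm_le (1 : ℂ) ((2 : ℂ) ^ (-s))
  rw [norm_one] at h2
  refine mul_ne_zero (pow_ne_zero _ (mul_ne_zero (mul_ne_zero
    (riemannZeta_ne_zero_of_one_le_re hs) ?_) ?_)) ?_ <;> rw [← norm_pos_iff]
  · linarith
  · linarith [norm_three hs]
  · linarith [norm_Df hs]

lemma den_diff {s : ℂ} (hs : s ≠ 1) : DifferentiableAt ℂ den s := by
  have h : ∀ (b c : ℂ), b ≠ 0 → DifferentiableAt ℂ (fun s : ℂ => b ^ (-(c * s))) s :=
    fun b c hb => DifferentiableAt.const_cpow (by fun_prop) (Or.inl hb)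
  have h' : ∀ b : ℂ, b ≠ 0 → DifferentiableAt ℂ (fun s : ℂ => 1 - b ^ (-s)) s :=
    fun b hb => (DifferentiableAt.const_cpow (by fun_prop) (Or.inl hb)).const_sub 1
  refine ((((differentiableAt_riemannZeta hs).mul (h' 2 two_ne_zero)).mul
    (h' 3 three_ne_zero)).pow 2).mul ?_
  unfold Df
  refine DifferentiableAt.fun_finsetProd fun p hp => ?_
  have hp0 : (p : ℂ) ≠ 0 := Nat.cast_ne_zero.2 (Finset.mem_filter.1 hp).2.ne_zero
  exact (((h p 2 hp0).const_mul 3).const_sub 1).add ((h p 3 hp0).const_mul 2)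

lemma tk_zero : tk 0 = π / Real.log 2 := by simp [tk]

lemma tk_bd : 4.5 ≤ tk 0 ∧ tk 0 ≤ 4.54 := by
  have h1 := Real.log_two_gt_d9
  have h2 := Real.log_two_lt_d9
  have h3 := Real.pi_gt_d2
  have h4 := Real.pi_lt_d4
  have h0 : 0 < Real.log 2 := by linarith
  rw [tk_zero, le_div_iff₀ h0, div_le_iff₀ h0]
  constructor <;> linarith

lemma two_sk : (2 : ℂ) ^ (-sk 0) = -(1 / 2) := by
  have h0 : (Real.log 2 : ℂ) ≠ 0 := by
    exact_mod_cast (Real.log_pos one_lt_two).ne'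
  have e : Complex.log 2 * -sk 0 = -Complex.log 2 + -(π * Complex.I) := by
    have h : Complex.log 2 = (Real.log 2 : ℂ) := by
      rw [Complex.ofReal_log zero_le_two, Complex.ofReal_ofNat]
    rw [sk, tk_zero, h, Complex.ofReal_div]
    field_simp
    ring
  rw [Complex.cpow_def_of_ne_zero two_ne_zero, e, Complex.exp_add, Complex.exp_neg, Complex.exp_neg,
    Complex.exp_log two_ne_zero, Complex.exp_pi_mul_I]
  norm_num

lemma sk_re : (sk 0).re = 1 := by simp [sk]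

lemma norm_sk_add (c : ℝ) (hc : 0 ≤ c) : ‖sk 0 + c‖ ≤ c + 5.54 := by
  have h := tk_bd
  have h1 := Complex.norm_le_abs_re_add_abs_im (sk 0 + c)
  have h2 : (sk 0 + c).re = 1 + c := by simp [sk]
  have h3 : (sk 0 + c).im = tk 0 := by simp [sk]
  rw [h2, h3, abs_of_nonneg (by linarith), abs_of_nonneg (by linarith)] at h1
  linarith

lemma norm_zeta : 0.15 ≤ ‖riemannZeta (sk 0)‖ := by
  have ht := tk_bd
  have h1 : ‖sk 0 - 1‖ = tk 0 := by
    rw [sk, add_sub_cancel_left, norm_mul, Complex.norm_I, mul_one, Complex.norm_real,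
      Real.norm_of_nonneg (by linarith)]
  have hne : sk 0 ≠ 1 := fun h => by
    rw [h, sub_self, norm_zero] at h1
    linarith
  have n0 : ‖sk 0‖ ≤ 5.54 := by simpa using norm_sk_add 0 le_rfl
  have n1 : ‖sk 0 + 1‖ ≤ 1 + 5.54 := by simpa using norm_sk_add 1 zero_le_one
  have n2 : ‖sk 0 + 2‖ ≤ 2 + 5.54 := by simpa using norm_sk_add 2 zero_le_two
  have n3 : ‖sk 0 + 3‖ ≤ 3 + 5.54 := by simpa using norm_sk_add 3 (by norm_num)
  have h2 : ‖sk 0 * (sk 0 + 1) * (sk 0 + 2) * (sk 0 + 3)‖ ≤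
      5.54 * (1 + 5.54) * (2 + 5.54) * (3 + 5.54) := by
    rw [norm_mul, norm_mul, norm_mul]
    gcongr
  have h3 := em_bound sk_re.ge hne (N := 3) (by norm_num)
  have e : ∑ n ∈ Finset.Ico 1 3, ((n : ℕ) : ℂ) ^ (-sk 0) = 1 / 2 := by
    rw [Finset.sum_Ico_succ_top (by norm_num), Finset.sum_Ico_succ_top (by norm_num)]
    simp only [Finset.Ico_self, Finset.sum_empty, Nat.cast_one, Complex.one_cpow, Nat.cast_ofNat,
      two_sk]
    norm_num
  have e2 : ((3 : ℕ) : ℝ) - 1 / 2 = 5 / 2 := by norm_num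
  rw [e, e2] at h3
  have h4 : ‖MP_5db4ad_nt.hh (sk 0) (5 / 2)‖ ≤ 1 / 4.5 + 5.54 / 24 * (1 / (5 / 2) ^ 2) := by
    have a1 : ‖((5 / 2 : ℝ) : ℂ) ^ (1 - sk 0)‖ ≤ 1 / (5 / 2) ^ 0 :=
      norm_pow_le (by norm_num) 0 (by simp [sk_re])
    have a2 : ‖((5 / 2 : ℝ) : ℂ) ^ (-sk 0 - 1)‖ ≤ 1 / (5 / 2) ^ 2 :=
      norm_pow_le (by norm_num) 2 (by simp [sk_re]; norm_num)
    rw [pow_zero, div_one] at a1
    refine (norm_sub_le _ _).trans (add_le_add ?_ ?_)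
    · rw [norm_div, h1]
      exact div_le_div₀ zero_le_one a1 (by norm_num) ht.1
    · rw [norm_mul, norm_div, Complex.norm_ofNat]
      gcongr
  have h5 := norm_sub_norm_le (1 / 2 + MP_5db4ad_nt.hh (sk 0) (5 / 2)) (riemannZeta (sk 0))
  rw [norm_sub_rev] at h5
  have h6 := norm_sub_norm_le (1 / 2 : ℂ) (-MP_5db4ad_nt.hh (sk 0) (5 / 2))
  rw [sub_neg_eq_add, norm_neg, norm_div, norm_one, Complex.norm_ofNat] at h6
  norm_num at h2 h3 h4 h5 h6 ⊢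
  linarith

lemma norm_Gf : ‖Gf (sk 0)‖ ≤ 1000 := by
  have h1 := norm_zeta
  have h2 : ‖1 - (2 : ℂ) ^ (-sk 0)‖ = 3 / 2 := by
    rw [two_sk]
    norm_num
  have h3 := norm_three sk_re.ge
  have h4 := norm_Df sk_re.ge
  have h5 : (0.15 * (3 / 2) * (2 / 3)) ^ 2 * 0.24 ≤ ‖den (sk 0)‖ := by
    rw [den, norm_mul, norm_pow, norm_mul, norm_mul, h2]
    gcongr
  rw [Gf_eq, norm_div, norm_one, div_le_iff₀ (lt_of_lt_of_le (by norm_num) h5)]
  norm_num at h5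
  linarith

lemma exists_box : ∃ d M : ℝ, 0 < d ∧ 1 ≤ M ∧ ∀ σ τ : ℝ, 1 - d ≤ σ → σ ≤ 2 → |τ - tk 0| ≤ 1 →
    DifferentiableAt ℂ Gf (σ + τ * Complex.I) ∧ ‖Gf (σ + τ * Complex.I)‖ ≤ M := by
  have ht := tk_bd
  have hK : ∀ a : ℝ, IsCompact (Set.Icc a 2 ×ℂ Set.Icc (tk 0 - 1) (tk 0 + 1)) := fun a =>
    isCompact_Icc.reProdIm isCompact_Icc
  have hU : IsOpen {s : ℂ | s ≠ 1 ∧ den s ≠ 0} := isOpen_iff_mem_nhds.2 fun s hs =>
    (eventually_ne_nhds hs.1).and ((den_diff hs.1).continuousAt.eventually_ne hs.2)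
  obtain ⟨d, hd, hsub⟩ := (hK 1).exists_cthickening_subset_open hU fun s hs => by
    refine ⟨fun h => ?_, den_ne hs.1.1⟩
    have h1 := hs.2.1
    rw [h, Complex.one_im] at h1
    linarith
  have hdiff : ∀ s ∈ Set.Icc (1 - d) 2 ×ℂ Set.Icc (tk 0 - 1) (tk 0 + 1),
      DifferentiableAt ℂ Gf s := fun s hs => by
    have h1 : s ≠ 1 ∧ den s ≠ 0 := by
      rcases le_total 1 s.re with h | h
      · exact hsub (Metric.self_subset_cthickening _ ⟨⟨h, hs.1.2⟩, hs.2⟩)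
      · refine hsub (Metric.mem_cthickening_of_dist_le s (s + (1 - s.re : ℝ)) d _
          ⟨⟨by simp, by simp⟩, by simpa using hs.2⟩ ?_)
        rw [dist_self_add_right, Complex.norm_real, Real.norm_of_nonneg (by linarith)]
        linarith [hs.1.1]
    rw [Gf_eq]
    exact (differentiableAt_const _).div (den_diff h1.1) h1.2
  obtain ⟨M, hM⟩ := (hK (1 - d)).exists_bound_of_continuousOn fun s hs =>
    (hdiff s hs).continuousAt.continuousWithinAt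
  refine ⟨d, max M 1, hd, le_max_right _ _, fun σ τ h1 h2 h3 => ?_⟩
  have hm : (σ + τ * Complex.I : ℂ) ∈ Set.Icc (1 - d) 2 ×ℂ Set.Icc (tk 0 - 1) (tk 0 + 1) := by
    have h4 := abs_le.1 h3
    refine ⟨⟨by simpa using h1, by simpa using h2⟩, ?_, ?_⟩ <;> simp <;> linarith
  exact ⟨hdiff _ hm, (hM _ hm).trans (le_max_left _ _)⟩

end E0

open E0 in
theorem e0 (hc : StCont) : StE0 := by
  refine ⟨norm_Gf, ?_⟩
  obtain ⟨d, M, hd, hM, h⟩ := exists_box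
  obtain ⟨η, hη, hηd, hη2⟩ : ∃ η : ℝ, 0 < η ∧ η ≤ d ∧ η ≤ 0.4 :=
    ⟨min d 0.4, lt_min hd (by norm_num), min_le_left _ _, min_le_right _ _⟩
  have hlim : ∀ c : ℝ, 0 < c → Tendsto (fun q : ℕ => Real.exp (-(c * q))) atTop (𝓝 0) :=
    fun c hc => Real.tendsto_exp_neg_atTop_nhds_zero.comp
      (tendsto_natCast_atTop_atTop.const_mul_atTop hc)
  have h1 := (((hlim (2 * η) (by linarith)).add (hlim (4 * η) (by linarith))).const_mul
    (1.001 * M)).div_const (2 * Real.sin (2 * π * η))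
  rw [add_zero, mul_zero, zero_div] at h1
  refine squeeze_zero' (Eventually.of_forall fun _ => norm_nonneg _) ?_ h1
  filter_upwards [eventually_ge_atTop 25] with q hq
  have hq' : (25 : ℝ) ≤ q := by exact_mod_cast hq
  have hl := Real.log_two_gt_d9
  have hl' : 0.6931 * (q : ℝ) ≤ q * Real.log 2 := by nlinarith
  have hL : 17 ≤ Lq q := by
    unfold Lq
    linarith
  refine hc (Lq q) (tk 0) η M q hL (by linarith) (by unfold Lq; linarith) hη (by linarith) hM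
    fun σ τ a1 a2 a3 => h σ τ ?_ ?_ a3
  · have a4 : η / Lq q ≤ η := div_le_self hη.le (by linarith)
    linarith
  · have a4 : 1 / (3 * Lq q) ≤ 1 := div_le_self zero_le_one (by linarith)
    linarith

end Pool.Agent.Lib.MP_5db4ad_nt.S2
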