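import Pool.Agent.Lib.MP_5db4ad_nt.S2E
import Pool.Agent.Lib.MP_5db4ad_nt.S2Defs2

/-! The error of the smoothed Dirichlet series at the frequencies after the first one. -/

namespace Pool.Agent.Lib.MP_5db4ad_nt.S2

open Finset
open scoped Real

namespace Eb2

lemma t_ge2 {k : ℕ} (hk : 1 ≤ k) : 7.5 ≤ tk k := by
  have h1 := Real.log_two_lt_d9
  have h2 := Real.pi_gt_d6
  have h3 : (1 : ℝ) ≤ k := by exact_mod_cast hk
  unfold tk
  rw [le_div_iff₀ (Real.log_pos one_lt_two)]
  nlinarith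

lemma ind2 (A B : Finset ℕ) {n : ℕ} (hB : B.card ≤ n) {c : ℝ} (hc : 0 ≤ c) :
    ∑ k ∈ A, (if k ∈ B then c else 0) ≤ n * c := by
  rw [sum_ite_mem, sum_const, nsmul_eq_mul]
  refine mul_le_mul_of_nonneg_right ?_ hc
  exact_mod_cast (card_le_card inter_subset_right).trans hB

end Eb2

open Eb Eb2 in
theorem ebound2 (hZ : StZall2) (hC : StZcls2) (hM : StM) (hK : StCont) : StE2 := by
  intro q hq
  have hq' : (25 : ℝ) ≤ q := by exact_mod_cast hq
  have hd : (0 : ℝ) ≤ q - 25 := by linarith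
  obtain ⟨hL, -⟩ := L_ge hq
  have p1 := Real.pi_gt_d6
  have p2 := Real.pi_lt_d6
  have c0 : ∀ k, 1 ≤ k → k < 2 ^ (q - 1) →
      ‖Ek q k‖ ≤ 6200 * Real.exp ((0.0769 - 2 * 0.065) * (q - 25)) :=
    fun k hk1 hk => cls hM hK hq (I := 2.7) (E := 8.6) (r := 0.0389) (s := 0.397) (by norm_num)
      (by norm_num) (by norm_num)
      (up 3 (x := 0.85) (by norm_num) (by norm_num) (by norm_num) (by unfold pe; norm_num))
      (dn 3 (x := 0.25) (by norm_num) (by norm_num) (by norm_num) (by unfold pe; norm_num))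
      (by norm_num) (sin_lo (a := 0.4084) (by norm_num) (by linarith) (by linarith) (by norm_num))
      (by norm_num) (hZ _ _ hL (t_ge2 hk1) (t_le hq hk)).1
  have c1 : ∀ k, ZF (Lq q) (tk k) 0.132 2.72 → ‖Ek q k‖ ≤ 120 :=
    fun k hz => (cls hM hK hq (E := 0.314) (r := 0.01) (s := 0.73) (B := 120) (by norm_num)
      (by norm_num) (by norm_num)
      (dn 1 (x := 0.16) (by norm_num) (by norm_num) (by norm_num) (by unfold pe; norm_num))
      (dn 6 (x := 0.6) (by norm_num) (by norm_num) (by norm_num) (by unfold pe; norm_num))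
      (by norm_num) (sin_lo (a := 0.829) (by norm_num) (by linarith) (by linarith) (by norm_num))
      (by norm_num) hz).trans (dec (by norm_num) (by norm_num) hd)
  have c2 : ∀ k, ZF (Lq q) (tk k) 0.275 2.9 → ‖Ek q k‖ ≤ 0.11 :=
    fun k hz => (cls hM hK hq (E := 0.000354) (r := 0.01) (s := 0.9) (B := 0.11) (by norm_num)
      (by norm_num) (by norm_num)
      (dn 7 (x := 0.95) (by norm_num) (by norm_num) (by norm_num) (by unfold pe; norm_num))
      (dn 13 (x := 0.75) (by norm_num) (by norm_num) (by norm_num) (by unfold pe; norm_num))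
      (by norm_num) (sin_lo (a := 1.41) (by norm_num) (by linarith) (by linarith) (by norm_num))
      (by norm_num) hz).trans (dec (by norm_num) (by norm_num) hd)
  have c3 : ∀ k, ZF (Lq q) (tk k) 0.424 2.77 →
      ‖Ek q k‖ ≤ 0.000096 * Real.exp ((0.0769 - 2 * 0.424) * (q - 25)) :=
    fun k hz => cls hM hK hq (E := 0.000000159) (r := 0.001) (s := 0.459) (by norm_num)
      (by norm_num) (by norm_num)
      (dn 15 (x := 0.66) (by norm_num) (by norm_num) (by norm_num) (by unfold pe; norm_num))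
      (dn 21 (x := 0.2) (by norm_num) (by norm_num) (by norm_num) (by unfold pe; norm_num))
      (by norm_num) (sin_lo (a := 0.4775) (by norm_num) (by linarith) (by linarith) (by norm_num))
      (by norm_num) hz
  refine ⟨?_, fun k hk1 hk => ⟨(c0 k hk1 hk).trans ?_, ?_⟩⟩
  · obtain ⟨B1, B2, B3, n1, n2, n3, hB⟩ := hC _ hL
    set X := 0.000096 * Real.exp ((0.0769 - 2 * 0.424) * (q - 25)) with hX
    have hX0 : 0 ≤ X := by positivity
    have key : ∀ k ∈ Ico 1 (2 ^ (q - 1)), ‖Ek q k‖ ≤ (if k ∈ B1 then 6200 else 0) +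
        (if k ∈ B2 then 120 else 0) + (if k ∈ B3 then 0.11 else 0) + X := by
      intro k hk
      obtain ⟨hk1, hk'⟩ := mem_Ico.mp hk
      obtain ⟨z1, z2, z3⟩ := hB k hk1 (t_le hq hk')
      have d0 := (c0 k hk1 hk').trans (dec (by norm_num) (by norm_num) hd)
      have d1 := fun h => c1 k (z1 h)
      have d2 := fun h => c2 k (z2 h)
      have d3 := fun h => c3 k (z3 h)
      split_ifs with m1 m2 m3 m3 m2 m3 m3
      · linarith
      · linarith
      · linarith
      · linarith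
      · linarith [d1 m1]
      · linarith [d1 m1]
      · linarith [d2 m2]
      · linarith [d3 m3]
    refine (sum_le_sum key).trans ?_
    rw [sum_add_distrib, sum_add_distrib, sum_add_distrib, sum_const, Nat.card_Ico, nsmul_eq_mul]
    have s1 := ind2 (Ico 1 (2 ^ (q - 1))) B1 n1 (c := 6200) (by norm_num)
    have s2 := ind2 (Ico 1 (2 ^ (q - 1))) B2 n2 (c := 120) (by norm_num)
    have s3 := ind2 (Ico 1 (2 ^ (q - 1))) B3 n3 (c := 0.11) (by norm_num)
    have s4 : ((2 ^ (q - 1) : ℕ) : ℝ) * X ≤ 2 ^ 24 * 0.000096 := by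
      obtain ⟨d, rfl⟩ : ∃ d, q = d + 25 := ⟨q - 25, by omega⟩
      have e1 : ((2 ^ (d + 25 - 1) : ℕ) : ℝ) = 2 ^ 24 * Real.exp (Real.log 2 * d) := by
        rw [mul_comm (Real.log 2), Real.exp_nat_mul, Real.exp_log two_pos,
          show d + 25 - 1 = 24 + d by omega, pow_add]
        push_cast
        norm_num
      have e2 : Real.exp (Real.log 2 * d) *
          Real.exp ((0.0769 - 2 * 0.424) * (((d + 25 : ℕ) : ℝ) - 25)) ≤ 1 := by
        rw [← Real.exp_add, Real.exp_le_one_iff]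
        push_cast
        nlinarith [Real.log_two_lt_d9, Nat.cast_nonneg (α := ℝ) d]
      rw [e1, hX]
      nlinarith
    have s5 : ((2 ^ (q - 1) - 1 : ℕ) : ℝ) * X ≤ ((2 ^ (q - 1) : ℕ) : ℝ) * X :=
      mul_le_mul_of_nonneg_right (Nat.cast_le.2 (Nat.sub_le _ _)) hX0
    simp only [Nat.cast_ofNat, Nat.cast_one] at s1 s2 s3
    linarith
  · refine mul_le_mul (by norm_num) (Real.exp_le_exp.mpr ?_) (Real.exp_pos _).le (by norm_num)
    nlinarith
  · have h1 := (hM _ _ _ _ hL (t_ge k) (by norm_num)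
      (hZ _ _ hL (t_ge2 hk1) (t_le hq hk)).2 1 (tk k)
      (by simp) (by have : 0 < 1 / (3 * Lq q) := by positivity
                    linarith) (by simp)).2
    have h2 : Real.exp (2 * 1.51) ≤ 20.6 :=
      up 4 (x := 0.98) (by norm_num) (by norm_num) (by norm_num) (by unfold pe; norm_num)
    have h3 : sk k = ((1 : ℝ) : ℂ) + tk k * Complex.I := by simp [sk]
    rw [h3]
    nlinarith [sq_nonneg (1 + Lq q)]

end Pool.Agent.Lib.MP_5db4ad_nt.S2
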