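import Pool.Agent.Lib.MP_5db4ad_nt.EqFix
import Pool.Agent.Lib.MP_5db4ad_nt.S2LowSt
import Pool.Agent.Lib.MP_5db4ad_nt.NumSpec

/-!
Slot by slot meaning of the operations on vectors.
-/

namespace Pool.Agent.Lib.MP_5db4ad_nt.S2

open Finset

lemma pv_congr {n : ℕ} {f g : ℕ → ℕ} (h : ∀ j < n, f j = g j) : pv n f = pv n g :=
  Finset.sum_congr rfl fun k hk => by rw [h k (mem_range.1 hk)]

lemma pv_zero (f : ℕ → ℕ) : pv 0 f = 0 := rfl

lemma pv_split (a b : ℕ) (f : ℕ → ℕ) :
    pv (a + b) f = pv a f + 2 ^ (64 * a) * pv b fun j => f (a + j) := by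
  unfold pv
  rw [Finset.sum_range_add, Finset.mul_sum]
  congr 1
  refine Finset.sum_congr rfl fun k _ => ?_
  rw [mul_add, pow_add]
  ring

lemma pv_succ' (n : ℕ) (f : ℕ → ℕ) : pv (n + 1) f = pv n f + f n * 2 ^ (64 * n) :=
  Finset.sum_range_succ _ _

lemma pv_succ (n : ℕ) (f : ℕ → ℕ) :
    pv (n + 1) f = f 0 + 2 ^ 64 * pv n fun j => f (j + 1) := by
  rw [add_comm n 1, pv_split]
  simp [pv, add_comm]

lemma pv_add (n : ℕ) (f g : ℕ → ℕ) : pv n f + pv n g = pv n fun j => f j + g j := by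
  simp only [pv, ← Finset.sum_add_distrib, add_mul]

lemma pv_mul (n : ℕ) (f : ℕ → ℕ) (c : ℕ) : pv n f * c = pv n fun j => f j * c := by
  simp only [pv, Finset.sum_mul]
  exact Finset.sum_congr rfl fun k _ => by ring

lemma pv_sub {n : ℕ} {f g : ℕ → ℕ} (h : ∀ j < n, g j ≤ f j) :
    pv n f - pv n g = pv n fun j => f j - g j := by
  have : pv n f = pv n (fun k => f k - g k) + pv n g := by
    rw [pv_add]
    exact pv_congr fun k hk => by have := h k hk; omega
  omega

lemma pv_lt {n : ℕ} {f : ℕ → ℕ} (h : ∀ j < n, f j < 2 ^ 64) : pv n f < 2 ^ (64 * n) := by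
  induction n with
  | zero => simp [pv]
  | succ n ih =>
    have h1 := ih fun j hj => h j (by omega)
    have h2 : (f n + 1) * 2 ^ (64 * n) ≤ 2 ^ 64 * 2 ^ (64 * n) :=
      Nat.mul_le_mul_right _ (h n (by omega))
    rw [pv_succ', mul_add, pow_add, mul_one, mul_comm (2 ^ (64 * n))]
    rw [add_mul, one_mul] at h2
    omega

lemma shr_eq (X s : ℕ) : Nat.shiftRight X s = X / 2 ^ s := Nat.shiftRight_eq_div_pow X s

lemma up_eq (X s : ℕ) : up X s = X * 2 ^ (64 * s) := Nat.shiftLeft_eq X (64 * s)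

lemma sl_eq (X s n : ℕ) : sl X s n = X / 2 ^ (64 * s) % 2 ^ (64 * n) := by
  have : sl X s n = (X >>> (64 * s)) &&& (1 <<< (64 * n) - 1) := rfl
  rw [this, Nat.shiftRight_eq_div_pow, Nat.shiftLeft_eq, one_mul, Nat.and_two_pow_sub_one_eq_mod]

lemma shr_pv {n s : ℕ} {f : ℕ → ℕ} (h : ∀ j < s, f j < 2 ^ 64) :
    Nat.shiftRight (pv (s + n) f) (64 * s) = pv n fun j => f (s + j) := by
  rw [shr_eq, pv_split, Nat.add_mul_div_left _ _ (by positivity), Nat.div_eq_of_lt (pv_lt h),
    zero_add]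

lemma sl_pv {n s m : ℕ} {f : ℕ → ℕ} (h : ∀ j < s + m, f j < 2 ^ 64) (hn : s + m ≤ n) :
    sl (pv n f) s m = pv m fun j => f (s + j) := by
  obtain ⟨k, rfl⟩ := Nat.exists_eq_add_of_le hn
  rw [sl_eq, ← shr_eq, add_assoc, shr_pv fun j hj => h j (by omega), pv_split,
    Nat.add_mul_mod_self_left, Nat.mod_eq_of_lt (pv_lt fun j hj => h _ (by omega))]

lemma lane_pv {n j : ℕ} {f : ℕ → ℕ} (h : ∀ j < n, f j < 2 ^ 64) (hj : j < n) :
    lane (pv n f) j = f j := by
  have := sl_pv (n := n) (s := j) (m := 1) (f := f) (fun i hi => h i (by omega)) hj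
  rw [sl_eq] at this
  simpa [pv, lane] using this

lemma lane_lt (X j : ℕ) : lane X j < 2 ^ 64 := Nat.mod_lt _ (by positivity)

lemma pv_lane_mod (n X : ℕ) : pv n (lane X) = X % 2 ^ (64 * n) := by
  induction n with
  | zero => simp [pv, Nat.mod_one]
  | succ n ih => rw [pv_succ', ih, mul_add, pow_add, Nat.mod_mul, lane, mul_one, mul_comm (_ % _)]

lemma pv_lane {n X : ℕ} (h : X < 2 ^ (64 * n)) : pv n (lane X) = X := by
  rw [pv_lane_mod, Nat.mod_eq_of_lt h]

lemma pv_inj {n : ℕ} {f g : ℕ → ℕ} (hf : ∀ j < n, f j < 2 ^ 64) (hg : ∀ j < n, g j < 2 ^ 64)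
    (h : pv n f = pv n g) : ∀ j < n, f j = g j := fun j hj => by
  rw [← lane_pv hf hj, h, lane_pv hg hj]

lemma on_eq (n : ℕ) : on n = pv n fun _ => 1 := by
  have h : 2 ^ (64 * n) = 18446744073709551615 * (pv n fun _ => 1) + 1 := by
    induction n with
    | zero => rfl
    | succ n ih =>
      rw [pv_succ', mul_add, pow_add]
      omega
  have : on n = (1 <<< (64 * n) - 1) / 18446744073709551615 := rfl
  rw [this, Nat.shiftLeft_eq, one_mul, h, Nat.add_sub_cancel,
    Nat.mul_div_cancel_left _ (by norm_num)]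

lemma on_mul (n c : ℕ) : on n * c = pv n fun _ => c := by
  simp only [on_eq, pv_mul, one_mul]

lemma pv_append (n m : ℕ) (f g : ℕ → ℕ) :
    pv n f + up (pv m g) n = pv (n + m) fun j => if j < n then f j else g (j - n) := by
  rw [pv_split, up_eq, mul_comm]
  congr 1
  · exact pv_congr fun j hj => (if_pos hj).symm
  · congr 1
    exact pv_congr fun j _ => by rw [if_neg (by omega), Nat.add_sub_cancel_left]

lemma pv_const_zero (n : ℕ) : (pv n fun _ => 0) = 0 := by simp [pv]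

lemma pv_extend {n m : ℕ} (f : ℕ → ℕ) (h : n ≤ m) :
    pv n f = pv m fun j => if j < n then f j else 0 := by
  obtain ⟨k, rfl⟩ := Nat.exists_eq_add_of_le h
  rw [← pv_append n k f fun _ => 0, pv_const_zero, up_eq, zero_mul, add_zero]

lemma up_pv (n s : ℕ) (f : ℕ → ℕ) :
    up (pv n f) s = pv (s + n) fun j => if j < s then 0 else f (j - s) := by
  rw [← pv_append s n (fun _ => 0) f, pv_const_zero, zero_add]

lemma land_pv {n : ℕ} {f g : ℕ → ℕ} (hf : ∀ j < n, f j < 2 ^ 64) (hg : ∀ j < n, g j < 2 ^ 64) :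
    Nat.land (pv n f) (pv n g) = pv n fun j => f j &&& g j := by
  change pv n f &&& pv n g = _
  rw [← pv_lane (Nat.and_lt_two_pow (pv n f) (pv_lt hg))]
  refine pv_congr fun j hj => ?_
  rw [← lane_pv hf hj, ← lane_pv hg hj]
  simp only [lane, Nat.and_div_two_pow, Nat.and_mod_two_pow]

lemma xor_pv {n : ℕ} {f g : ℕ → ℕ} (hf : ∀ j < n, f j < 2 ^ 64) (hg : ∀ j < n, g j < 2 ^ 64) :
    Nat.xor (pv n f) (pv n g) = pv n fun j => f j ^^^ g j := by
  change pv n f ^^^ pv n g = _
  rw [← pv_lane (Nat.xor_lt_two_pow (pv_lt hf) (pv_lt hg))]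
  refine pv_congr fun j hj => ?_
  rw [← lane_pv hf hj, ← lane_pv hg hj]
  simp only [lane, Nat.xor_div_two_pow, Nat.xor_mod_two_pow]

lemma shr_land_pv {n s : ℕ} {f g : ℕ → ℕ} (hf : ∀ j < n, f j < 2 ^ 64) (hs : s ≤ 64)
    (hg : ∀ j < n, g j < 2 ^ (64 - s)) :
    Nat.land (Nat.shiftRight (pv n f) s) (pv n g) = pv n fun j => f j / 2 ^ s &&& g j := by
  have hg' : ∀ j < n, g j < 2 ^ 64 := fun j hj =>
    (hg j hj).trans_le (Nat.pow_le_pow_right (by norm_num) (by omega))
  rw [shr_eq]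
  change pv n f / 2 ^ s &&& pv n g = _
  rw [← pv_lane (Nat.and_lt_two_pow (pv n f / 2 ^ s) (pv_lt hg'))]
  refine pv_congr fun j hj => ?_
  have e : lane (pv n f / 2 ^ s &&& pv n g) j = lane (pv n f / 2 ^ s) j &&& g j := by
    rw [← lane_pv hg' hj]
    simp only [lane, Nat.and_div_two_pow, Nat.and_mod_two_pow]
  rw [e, ← lane_pv hf hj]
  refine Nat.eq_of_testBit_eq fun i => ?_
  simp only [lane, Nat.testBit_and, Nat.testBit_mod_two_pow, Nat.testBit_div_two_pow]
  rcases lt_or_ge i (64 - s) with hi | hi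
  · rw [decide_eq_true (show i < 64 by omega), decide_eq_true (show i + s < 64 by omega),
      add_right_comm]
  · rw [Nat.testBit_lt_two_pow ((hg j hj).trans_le (Nat.pow_le_pow_right (by norm_num) hi)),
      Bool.and_false, Bool.and_false]

lemma tr_pv {n s : ℕ} {f : ℕ → ℕ} (h : ∀ j < n, f j < 2 ^ 64) (hs : s ≤ 64) :
    tr (on n) (pv n f) s = pv n fun j => f j / 2 ^ s := by
  have : tr (on n) (pv n f) s =
      Nat.land (Nat.shiftRight (pv n f) s) (on n * (1 <<< (64 - s) - 1)) := rfl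
  rw [this, Nat.shiftLeft_eq, one_mul, on_mul,
    shr_land_pv h hs fun _ _ => Nat.sub_lt (by positivity) one_pos]
  refine pv_congr fun j hj => ?_
  rw [Nat.and_two_pow_sub_one_eq_mod, Nat.mod_eq_of_lt]
  rw [Nat.div_lt_iff_lt_mul (by positivity), ← pow_add, Nat.sub_add_cancel hs]
  exact h j hj

lemma bit_pv {n b : ℕ} {f : ℕ → ℕ} (h : ∀ j < n, f j < 2 ^ 64) (hb : b < 64) :
    Nat.land (Nat.shiftRight (pv n f) b) (on n) = pv n fun j => f j / 2 ^ b % 2 := by
  rw [on_eq, shr_land_pv h hb.le fun _ _ => Nat.one_lt_two_pow (by omega)]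
  exact pv_congr fun j _ => Nat.and_one_is_mod _

lemma lek_pv {n c : ℕ} {f : ℕ → ℕ} (h : ∀ j < n, f j ≤ 2 ^ 63) (hc : c < 2 ^ 63)
    (hl : lek (on n) (pv n f) c = true) : ∀ j < n, f j ≤ c := by
  have e : Nat.land (on n * (9223372036854775808 + c) - pv n f) (on n * 9223372036854775808) =
      on n * 9223372036854775808 := Nat.eq_of_beq_eq_true hl
  rw [on_mul, on_mul, pv_sub fun j hj => by have := h j hj; omega,
    land_pv (fun j _ => by omega) fun _ _ => by norm_num] at e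
  intro j hj
  have h1 := pv_inj (fun j _ => Nat.and_lt_two_pow _ (by norm_num)) (fun _ _ => by norm_num) e j hj
  have h2 : 9223372036854775808 + c - f j &&& 9223372036854775808 ≤
      9223372036854775808 + c - f j := Nat.and_le_left
  have := h j hj
  omega

lemma rng_pv {n X : ℕ} (h : rng (on n) X = true) :
    X = pv n (lane X) ∧ ∀ j < n, lane X j < 2 ^ 32 := by
  have e : X &&& (on n * 4294967295) = X := Nat.eq_of_beq_eq_true h
  rw [on_mul] at e
  have h1 : X < 2 ^ (64 * n) :=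
    e ▸ Nat.and_lt_two_pow X (pv_lt (f := fun _ => 4294967295) fun _ _ => by norm_num)
  refine ⟨(pv_lane h1).symm, fun j hj => ?_⟩
  have h2 := congrArg (fun Y => lane Y j) e
  have h3 := lane_pv (f := fun _ => 4294967295) (fun _ _ => by norm_num) hj
  simp only [lane, Nat.and_div_two_pow, Nat.and_mod_two_pow] at h2 h3 ⊢
  rw [← h2, h3]
  exact Nat.and_lt_two_pow _ (by norm_num)

lemma sm_pv {n : ℕ} {f : ℕ → ℕ} (h : ∑ j ∈ range n, f j < 2 ^ 64 - 1) :
    sm (pv n f) = ∑ j ∈ range n, f j := by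
  have : sm (pv n f) = pv n f % (2 ^ 64 - 1) := rfl
  rw [this, ← Nat.mod_eq_of_lt h]
  refine Nat.ModEq.sum fun j _ => ?_
  have h1 : 2 ^ 64 ≡ 1 [MOD 2 ^ 64 - 1] := by decide
  have h2 := (h1.pow j).mul_left (f j)
  rwa [one_pow, mul_one, ← pow_mul] at h2

namespace Lane

lemma conv {R : Type} [CommSemiring R] (x : R) (n m : ℕ) (f g : ℕ → R) :
    (∑ j ∈ range n, f j * x ^ (64 * j)) * ∑ j ∈ range m, g j * x ^ (64 * j) =
      ∑ j ∈ range (n + m),
        (∑ i ∈ range n, if i ≤ j ∧ j - i < m then f i * g (j - i) else 0) * x ^ (64 * j) := by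
  simp only [Finset.sum_mul]
  rw [Finset.sum_comm]
  refine Finset.sum_congr rfl fun i hi => ?_
  have hi' := mem_range.1 hi
  simp only [ite_mul, zero_mul]
  rw [← Finset.sum_filter, Finset.mul_sum]
  refine Finset.sum_nbij' (fun k => i + k) (fun j => j - i) ?_ ?_ ?_ ?_ ?_
  · intro k hk
    simp only [mem_filter, mem_range] at hk ⊢
    omega
  · intro k hk
    simp only [mem_filter, mem_range] at hk ⊢
    omega
  · intro k _
    simp
  · intro k hk
    simp only [mem_filter, mem_range] at hk ⊢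
    omega
  · intro k _
    rw [Nat.add_sub_cancel_left, mul_add, pow_add]
    ring

lemma low {n j : ℕ} (hj : j < n) (F : ℕ → ℕ) :
    (∑ i ∈ range n, if i ≤ j ∧ j - i < n then F i else 0) = ∑ i ∈ range (j + 1), F i := by
  rw [← Finset.sum_filter]
  refine Finset.sum_congr ?_ fun _ _ => rfl
  ext i
  simp only [mem_filter, mem_range]
  omega

end Lane

lemma mul_pv (n m : ℕ) (f g : ℕ → ℕ) : pv n f * pv m g = pv (n + m) fun j =>
    ∑ i ∈ range n, if i ≤ j ∧ j - i < m then f i * g (j - i) else 0 := Lane.conv 2 n m f g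

lemma cyc_pv {n : ℕ} {f g : ℕ → ℕ}
    (h : ∀ c < n, ∑ i ∈ range n, f i * g ((c + n - i) % n) < 2 ^ 64) :
    cyc (pv n f) (pv n g) n = pv n fun c => ∑ i ∈ range n, f i * g ((c + n - i) % n) := by
  have : cyc (pv n f) (pv n g) n =
      sl (pv n f * pv n g) 0 n + Nat.shiftRight (pv n f * pv n g) (64 * n) := rfl
  obtain ⟨p, hp⟩ : ∃ p : ℕ → ℕ, p = fun j =>
      ∑ i ∈ range n, if i ≤ j ∧ j - i < n then f i * g (j - i) else 0 := ⟨_, rfl⟩
  have e : ∀ c < n, p c + p (n + c) = ∑ i ∈ range n, f i * g ((c + n - i) % n) := fun c hc => by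
    simp only [hp, ← Finset.sum_add_distrib]
    refine Finset.sum_congr rfl fun i hi => ?_
    have hi' := mem_range.1 hi
    rcases le_or_gt i c with h1 | h1
    · rw [if_pos (by omega), if_neg (by omega), add_zero, show c + n - i = c - i + n by omega,
        Nat.add_mod_right, Nat.mod_eq_of_lt (by omega)]
    · rw [if_neg (by omega), if_pos (by omega), zero_add, add_comm n c,
        Nat.mod_eq_of_lt (by omega)]
  have h1 : ∀ c < n, p c < 2 ^ 64 := fun c hc => by
    have := h c hc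
    have := e c hc
    omega
  rw [this, mul_pv, ← hp, sl_pv (by simpa using h1) (by omega), shr_pv h1, pv_add]
  exact pv_congr fun c hc => by rw [zero_add, e c hc]

lemma ramp_eq {n : ℕ} (h : n ≤ 2 ^ 31) : ramp (on n) n = pv n fun j => j + 1 := by
  have : ramp (on n) n = sl (on n * on n) 0 n := rfl
  have e : ∀ j < n, (∑ i ∈ range n, if i ≤ j ∧ j - i < n then 1 * 1 else 0) = j + 1 :=
    fun j hj => by rw [Lane.low hj]; simp
  rw [this, on_eq, mul_pv, sl_pv (fun j hj => by rw [e j (by omega)]; omega) (by omega)]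
  exact pv_congr fun j hj => by rw [zero_add, e j hj]

lemma tri_eq {n : ℕ} (h : n ≤ 2 ^ 31) :
    tri (on n) n = pv n fun j => (j + 1) * (j + 2) / 2 := by
  have : tri (on n) n = sl (ramp (on n) n * on n) 0 n := rfl
  have e : ∀ j < n, (∑ i ∈ range n, if i ≤ j ∧ j - i < n then (i + 1) * 1 else 0) =
      (j + 1) * (j + 2) / 2 := fun j hj => by
    have h1 := Finset.sum_range_id_mul_two (j + 2)
    rw [Finset.sum_range_succ', add_zero, show j + 2 - 1 = j + 1 from rfl, mul_comm (j + 2)] at h1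
    rw [Lane.low hj, ← h1, Nat.mul_div_cancel _ two_pos]
    simp
  rw [this, ramp_eq h, on_eq, mul_pv, sl_pv (fun j hj => ?_) (by omega)]
  · exact pv_congr fun j hj => by rw [zero_add, e j hj]
  · have h1 : (j + 1) * (j + 2) ≤ 2 ^ 31 * 2 ^ 32 := Nat.mul_le_mul (by omega) (by omega)
    rw [e j (by omega)]
    omega

lemma absv_pv {n : ℕ} {f : ℕ → ℕ} (h : ∀ j < n, f j < 2 ^ 32) : ∃ g : ℕ → ℕ,
    absv (on n) (pv n f) = pv n g ∧
      ∀ j < n, g j ≤ 2 ^ 31 ∧ |(f j : ℝ) - 2 ^ 31| ≤ (g j : ℝ) := by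
  have : absv (on n) (pv n f) = on n + Nat.land (Nat.xor (pv n f) (Nat.xor (on n)
      (Nat.land (Nat.shiftRight (pv n f) 31) (on n)) * 2147483647)) (on n * 2147483647) := rfl
  have h' : ∀ j < n, f j < 2 ^ 64 := fun j hj => (h j hj).trans (by norm_num)
  have hb : ∀ j, (1 ^^^ f j / 2 ^ 31 % 2) * 2147483647 < 2 ^ 64 := fun j => by
    rcases Nat.mod_two_eq_zero_or_one (f j / 2 ^ 31) with e | e <;> rw [e] <;> decide
  rw [this, bit_pv h' (by norm_num), on_mul, on_eq,
    xor_pv (fun _ _ => by norm_num) fun j _ => by omega, pv_mul, xor_pv h' fun j _ => hb j,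
    land_pv (fun j hj => Nat.xor_lt_two_pow (h' j hj) (hb j)) fun _ _ => by norm_num, pv_add]
  refine ⟨_, rfl, fun j hj => ?_⟩
  have h1 := h j hj
  have key : ∀ a : ℕ, a ≤ 2 ^ 31 → f j ≤ 2 ^ 31 + a → 2 ^ 31 ≤ f j + a →
      a ≤ 2 ^ 31 ∧ |(f j : ℝ) - 2 ^ 31| ≤ (a : ℝ) := fun a h2 h3 h4 => by
    have h5 : (f j : ℝ) ≤ 2 ^ 31 + a := by exact_mod_cast h3
    have h6 : (2 : ℝ) ^ 31 ≤ f j + a := by exact_mod_cast h4
    exact ⟨h2, abs_le.2 ⟨by linarith, by linarith⟩⟩
  rw [show 2147483647 = 2 ^ 31 - 1 from rfl, Nat.and_two_pow_sub_one_eq_mod]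
  rcases Nat.mod_two_eq_zero_or_one (f j / 2 ^ 31) with e | e
  · have h2 : f j < 2 ^ 31 := by omega
    have h3 : f j ^^^ (2 ^ 31 - 1) = 2 ^ 31 - (f j + 1) := by
      refine Nat.eq_of_testBit_eq fun i => ?_
      rw [Nat.testBit_xor, Nat.testBit_two_pow_sub_succ h2, Nat.testBit_two_pow_sub_one]
      rcases lt_or_ge i 31 with hi | hi
      · simp [hi]
      · simp [hi.not_gt,
          Nat.testBit_lt_two_pow (h2.trans_le (Nat.pow_le_pow_right (by norm_num) hi))]
    rw [e, Nat.xor_zero, one_mul, h3]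
    apply key <;> omega
  · rw [e, Nat.xor_self, zero_mul, Nat.xor_zero]
    apply key <;> omega

lemma wsum_pv {n t : ℕ} {f : ℕ → ℕ} (h : ∑ j ∈ range (t * n), f j < 2 ^ 64 - 1) :
    wsum (pv (t * n) f) n t = ∑ j ∈ range (t * n), (j / n + 1) ^ 2 * f j := by
  have h1 : ∀ j < t * n, f j < 2 ^ 64 := fun j hj => by
    have := Finset.single_le_sum (f := f) (fun _ _ => Nat.zero_le _) (mem_range.2 hj)
    omega
  suffices H : ∀ i ≤ t, wsum (pv (t * n) f) n i =
      ∑ j ∈ range (i * n), (j / n + 1) ^ 2 * f j from H t le_rfl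
  intro i hi
  induction i with
  | zero => simp [wsum]
  | succ i ih =>
    have : wsum (pv (t * n) f) n (i + 1) = wsum (pv (t * n) f) n i +
        (i + 1) * (i + 1) * sm (sl (pv (t * n) f) (i * n) n) := rfl
    have h2 : i * n + n ≤ t * n := by
      have := Nat.mul_le_mul_right n hi
      rwa [add_mul, one_mul] at this
    have h3 : ∑ j ∈ range (i * n + n), f j ≤ ∑ j ∈ range (t * n), f j :=
      Finset.sum_le_sum_of_subset (range_subset_range.2 h2)
    rw [Finset.sum_range_add] at h3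
    rw [this, ih (by omega), sl_pv (fun j hj => h1 j (by omega)) h2, sm_pv (by omega),
      add_mul i 1 n, one_mul, Finset.sum_range_add, Finset.mul_sum]
    congr 1
    refine Finset.sum_congr rfl fun j hj => ?_
    have h4 := mem_range.1 hj
    rw [add_comm (i * n), Nat.add_mul_div_right _ _ (by omega), Nat.div_eq_of_lt h4, zero_add,
      pow_two]

lemma pv_cast (n : ℕ) (f : ℕ → ℕ) : (pv n f : ℤ) = iv n fun j => (f j : ℤ) := by
  simp [pv, iv]

lemma iv_congr {n : ℕ} {f g : ℕ → ℤ} (h : ∀ j < n, f j = g j) : iv n f = iv n g :=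
  Finset.sum_congr rfl fun k hk => by rw [h k (mem_range.1 hk)]

lemma iv_add (n : ℕ) (f g : ℕ → ℤ) : iv n f + iv n g = iv n fun j => f j + g j := by
  simp only [iv, ← Finset.sum_add_distrib, add_mul]

lemma iv_sub (n : ℕ) (f g : ℕ → ℤ) : iv n f - iv n g = iv n fun j => f j - g j := by
  simp only [iv, ← Finset.sum_sub_distrib, sub_mul]

lemma iv_extend {n m : ℕ} (f : ℕ → ℤ) (h : n ≤ m) :
    iv n f = iv m fun j => if j < n then f j else 0 := by
  unfold iv
  simp only [ite_mul, zero_mul]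
  rw [← Finset.sum_filter]
  refine Finset.sum_congr ?_ fun _ _ => rfl
  ext i
  simp only [mem_filter, mem_range]
  omega

lemma sg_pv (n : ℕ) (f : ℕ → ℕ) : sg (on n) (pv n f) = iv n fun j => (f j : ℤ) - 2 ^ 31 := by
  have : sg (on n) (pv n f) = Int.subNatNat (pv n f) (on n * 2147483648) := rfl
  rw [this, Int.subNatNat_eq_coe, on_mul, pv_cast, pv_cast, iv_sub]
  rfl

lemma mul_iv (n m : ℕ) (f g : ℕ → ℤ) : iv n f * iv m g = iv (n + m) fun j =>
    ∑ i ∈ range n, if i ≤ j ∧ j - i < m then f i * g (j - i) else 0 := Lane.conv 2 n m f g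

lemma toNat_iv {n c : ℕ} {f : ℕ → ℤ} (h : ∀ j < n, -(c : ℤ) ≤ f j) :
    Int.toNat (iv n f + (on n * c : ℕ)) = pv n fun j => (f j + c).toNat := by
  rw [← Int.toNat_natCast (pv n _), on_mul, pv_cast, pv_cast, iv_add]
  congr 1
  exact iv_congr fun j hj => by have := h j hj; omega

lemma bk_iv {K n : ℕ} {f : ℕ → ℤ} (hK : 1 ≤ K) (h : ∀ j < n + (K + K), |f j| ≤ 2 ^ 57) :
    bk K n (iv (n + (K + K)) f) =
      pv (n + 1) fun j => (f (K - 1 + j) + 2 ^ 57).toNat / 2 ^ 26 := by
  have : bk K n (iv (n + (K + K)) f) = tr (on (n + 1)) (sl (Int.toNat (iv (n + (K + K)) f +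
      (on (n + (K + K)) * 144115188075855872 : ℕ))) (K - 1) (n + 1)) 26 := rfl
  have h1 : ∀ j < n + (K + K), (f j + (144115188075855872 : ℕ)).toNat < 2 ^ 64 := fun j hj => by
    have := abs_le.1 (h j hj)
    omega
  rw [this, toNat_iv fun j hj => by have := abs_le.1 (h j hj); omega,
    sl_pv (fun j hj => h1 j (by omega)) (by omega),
    tr_pv (fun j hj => h1 _ (by omega)) (by norm_num)]
  rfl

namespace Lane

/-- the value that `asm` computes -/
def sv (d : ℕ) (l : L) : ℕ := ((toL l).map fun e => e.2 * 2 ^ (64 * (e.1 % 2 ^ d))).sum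

lemma sv_cons (d c v : ℕ) (t : L) :
    sv d (.cons c v t) = v * 2 ^ (64 * (c % 2 ^ d)) + sv d t := rfl

lemma sv_eq (d : ℕ) (l : L) : sv d l = pv (2 ^ d) fun j =>
    ((toL l).map fun e => if e.1 % 2 ^ d = j then e.2 else 0).sum := by
  induction l with
  | nil => exact (pv_const_zero _).symm
  | cons c v t ih =>
    simp only [toL, List.map_cons, List.sum_cons]
    rw [← pv_add, ← ih, sv_cons]
    congr 1
    simp only [pv, ite_mul, zero_mul]
    rw [Finset.sum_ite_eq, if_pos (mem_range.2 (Nat.mod_lt _ (by positivity)))]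

lemma part_eq (d : ℕ) (l : L) : ∃ a b, (∀ k : L → L → ℕ, part d l k = k a b) ∧
    sv (d + 1) l = sv d a + sv d b * 2 ^ (64 * 2 ^ d) := by
  induction l with
  | nil => exact ⟨.nil, .nil, fun _ => rfl, by simp [sv, toL]⟩
  | cons c v t ih =>
    obtain ⟨a, b, h1, h2⟩ := ih
    have e : ∀ k : L → L → ℕ, part d (.cons c v t) k =
        Nat.rec (k (L.cons c v a) b) (fun _ _ => k a (L.cons c v b)) (c / 2 ^ d % 2) := fun k => by
      rw [← Nat.and_one_is_mod, ← shr_eq]
      exact h1 fun a b => Nat.rec (k (L.cons c v a) b) (fun _ _ => k a (L.cons c v b))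
        (Nat.shiftRight c d &&& 1)
    rcases Nat.mod_two_eq_zero_or_one (c / 2 ^ d) with h | h
    · refine ⟨.cons c v a, b, fun k => by rw [e, h]; rfl, ?_⟩
      rw [sv_cons, sv_cons, h2, Nat.mod_pow_succ, h, mul_zero, add_zero, add_assoc]
    · refine ⟨a, .cons c v b, fun k => by rw [e, h]; rfl, ?_⟩
      rw [sv_cons, sv_cons, h2, Nat.mod_pow_succ, h, mul_one, mul_add 64, pow_add]
      ring

lemma asm_sv (d : ℕ) (l : L) : asm d l = sv d l := by
  induction d generalizing l with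
  | zero =>
    induction l with
    | nil => rfl
    | cons c v t ih =>
      have : asm 0 (.cons c v t) = v + asm 0 t := rfl
      rw [this, ih, sv_cons]
      simp [Nat.mod_one]
  | succ d ih =>
    cases l with
    | nil => rfl
    | cons c v t =>
      cases t with
      | nil =>
        have : asm (d + 1) (.cons c v .nil) = up v (c % (2 <<< d)) := rfl
        rw [this, up_eq, sv_cons, Nat.shiftLeft_eq, pow_succ']
        rfl
      | cons c' v' t =>
        have : asm (d + 1) (.cons c v (.cons c' v' t)) = part d (.cons c v (.cons c' v' t))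
            fun a b => asm d a + up (asm d b) (1 <<< d) := rfl
        obtain ⟨a, b, h1, h2⟩ := part_eq d (.cons c v (.cons c' v' t))
        rw [this, h1, h2, ih, ih, up_eq, Nat.shiftLeft_eq, one_mul]

end Lane

lemma asm_eq (d : ℕ) (l : L) : asm d l = pv (2 ^ d) fun j =>
    ((toL l).map fun e => if e.1 % 2 ^ d = j then e.2 else 0).sum :=
  (Lane.asm_sv d l).trans (Lane.sv_eq d l)

lemma tot_eq {β : Type} (k : ℕ → ℕ → β) (l : L) (a n : ℕ) :
    tot k l a n = k (a + ((toL l).map (·.2)).sum) (n + (toL l).length) := by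
  induction l generalizing a n with
  | nil => rfl
  | cons c v t ih =>
    have : tot k (.cons c v t) a n =
        frc (a + v) fun a' => frc (n + 1) fun n' => tot k t a' n' := rfl
    rw [this, frc_eq, frc_eq, ih]
    simp only [toL, List.map_cons, List.sum_cons, List.length_cons]
    rw [add_assoc, add_assoc, add_comm 1]

lemma frl_eq {β : Type} (l : L3) (k : L3 → β) : frl l k = k l := by
  induction l generalizing k with
  | nil => rfl
  | cons a b c t ih => exact ih fun t => k (L3.cons a b c t)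

end Pool.Agent.Lib.MP_5db4ad_nt.S2
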