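import Pool.Agent.Lib.MP_5db4ad_nt.EqFix
import Pool.Agent.Lib.MP_5db4ad_nt.S2Lane

/-! The upper envelope of the shifted sums. -/

namespace Pool.Agent.Lib.MP_5db4ad_nt.S2

open Finset
open scoped Real

namespace EnvH

lemma Pf_add (v : ℝ) : Pf (v + Real.log 2) = -Pf v := by
  have hl : 0 < Real.log 2 := Real.log_pos (by norm_num)
  rw [Pf, Pf, add_div, div_self hl.ne', Int.floor_add_one, zpow_add_one₀ (by norm_num), neg_add,
    Real.exp_add, Real.exp_neg (Real.log 2), Real.exp_log (by norm_num)]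
  ring

lemma abs_Pf (v : ℝ) : |Pf v| ≤ 2 / 3 := by
  have hl : 0 < Real.log 2 := Real.log_pos (by norm_num)
  have h1 : (2 : ℝ) ^ ⌊v / Real.log 2⌋ ≤ Real.exp v := by
    rw [← Real.rpow_intCast, Real.rpow_def_of_pos (by norm_num), Real.exp_le_exp, mul_comm,
      ← le_div_iff₀ hl]
    exact Int.floor_le _
  have h2 : Real.exp v * Real.exp (-v) = 1 := by rw [← Real.exp_add, add_neg_cancel, Real.exp_zero]
  rw [Pf, abs_mul, abs_mul, abs_zpow, abs_neg, abs_two, abs_of_pos (Real.exp_pos _),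
    abs_of_pos (by norm_num : (0 : ℝ) < 2 / 3)]
  have := mul_le_mul_of_nonneg_right h1 (Real.exp_pos (-v)).le
  nlinarith

lemma Pf_sub_nat (v : ℝ) (w : ℕ) : Pf (v - w * Real.log 2) = (-1) ^ w * Pf v := by
  induction w with
  | zero => simp
  | succ w ih =>
    have h := Pf_add (v - (w + 1 : ℕ) * Real.log 2)
    have e : v - (w + 1 : ℕ) * Real.log 2 + Real.log 2 = v - w * Real.log 2 := by
      push_cast; ring
    rw [e, ih] at h
    rw [pow_succ]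
    linarith

lemma Pf_per : Function.Periodic Pf (2 * Real.log 2) := fun v => by
  rw [two_mul, ← add_assoc, Pf_add, Pf_add, neg_neg]

lemma Pf_add_int (v : ℝ) (k : ℤ) : Pf (v + k * (2 * Real.log 2)) = Pf v := Pf_per.int_mul k v

lemma AtL_shift (l : L3) (u : ℝ) (i : ℕ) (k : ℤ) :
    (-1) ^ i * AtL l u = AtL l (u - i * Real.log 2 + k * (2 * Real.log 2)) := by
  unfold AtL
  induction l.toList with
  | nil => simp
  | cons e t ih =>
    rw [List.map_cons, List.sum_cons, List.map_cons, List.sum_cons, mul_add, ih]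
    have e1 : u - i * Real.log 2 + k * (2 * Real.log 2) - Real.log e.1 =
        u - Real.log e.1 - i * Real.log 2 + k * (2 * Real.log 2) := by ring
    rw [e1, Pf_add_int, Pf_sub_nat]
    ring

/-! ### programs -/

lemma cyc_comm (X Y n : ℕ) : cyc X Y n = cyc Y X n := by
  unfold cyc
  rw [show Nat.mul X Y = Nat.mul Y X from Nat.mul_comm X Y]

/-- weighted sum of a function at shifted places -/
def cv (N : ℕ) (l : List (ℕ × ℕ)) (q : ℕ → ℕ) (c : ℕ) : ℕ :=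
  (l.map fun e => e.2 * q ((c + N - e.1 % N) % N)).sum

lemma sum_asm {N : ℕ} (hN : 0 < N) (l : List (ℕ × ℕ)) (q : ℕ → ℕ) (c : ℕ) :
    ∑ i ∈ range N, (l.map fun e => if e.1 % N = i then e.2 else 0).sum * q ((c + N - i) % N) =
      cv N l q c := by
  unfold cv
  induction l with
  | nil => simp
  | cons e t ih =>
    simp only [List.map_cons, List.sum_cons, add_mul, sum_add_distrib, ih, ite_mul, zero_mul]
    rw [Finset.sum_ite_eq, if_pos (mem_range.2 (Nat.mod_lt _ hN))]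

lemma cv_le {N B : ℕ} (hN : 0 < N) (l : List (ℕ × ℕ)) {q : ℕ → ℕ} (hq : ∀ d < N, q d ≤ B) (c : ℕ) :
    cv N l q c ≤ (l.map (·.2)).sum * B := by
  unfold cv
  induction l with
  | nil => simp
  | cons e t ih =>
    simp only [List.map_cons, List.sum_cons, add_mul]
    exact add_le_add (Nat.mul_le_mul_left _ (hq _ (Nat.mod_lt _ hN))) ih

lemma cyc_asm {d B : ℕ} (l : L) {q : ℕ → ℕ} (hq : ∀ j < 2 ^ d, q j ≤ B)
    (hB : ((toL l).map (·.2)).sum * B < 2 ^ 64) :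
    cyc (asm d l) (pv (2 ^ d) q) (2 ^ d) = pv (2 ^ d) (cv (2 ^ d) (toL l) q) := by
  have hN : 0 < 2 ^ d := by positivity
  rw [asm_eq, cyc_pv]
  · exact pv_congr fun c _ => sum_asm hN _ q c
  · intro c _
    rw [sum_asm hN]
    exact (cv_le hN _ hq c).trans_lt hB

lemma jumps_eq (lm : ℕ) (l : L3) : toL (jumps lm l) = l.toList.map fun e =>
    (e.2.2 / 2 ^ (64 - lm) + e.2.1 * 2 ^ lm, 1073741824 * 2 ^ e.2.1 / e.1) := by
  induction l with
  | nil => rfl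
  | cons m w g t ih =>
    have : jumps lm (.cons m w g t) =
        frc (Nat.shiftRight g (64 - lm) + w <<< lm) fun c =>
          frc ((1073741824 <<< w) / m) fun v => L.cons c v (jumps lm t) := rfl
    rw [this, frc_eq, frc_eq, shr_eq, Nat.shiftLeft_eq, Nat.shiftLeft_eq]
    simp only [toL, L3.toList, List.map_cons, ih]

lemma shifts_eq (lm t i : ℕ) : toL (shifts lm t i) = (List.range' i t).map fun j =>
    (j * 29237397617229858719 / 2 ^ (64 - lm) + 1 + j * 2 ^ lm, 16777216 * 2 ^ j / 3 ^ j) := by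
  induction t generalizing i with
  | zero => rfl
  | succ t ih =>
    have : shifts lm (t + 1) i =
        frc (Nat.shiftRight (i * 29237397617229858719) (64 - lm) + 1 + i <<< lm) fun c =>
          frc ((16777216 <<< i) / 3 ^ i) fun v => L.cons c v (shifts lm t (i + 1)) := rfl
    rw [this, frc_eq, frc_eq, shr_eq, Nat.shiftLeft_eq, Nat.shiftLeft_eq]
    simp only [toL, List.range'_succ, List.map_cons, ih]

lemma sum_range' (f : ℕ → ℕ) (t : ℕ) : ((List.range' 0 t).map f).sum = ∑ j ∈ range t, f j := by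
  rw [← List.range_eq_range']
  induction t with
  | zero => rfl
  | succ t ih => rw [List.range_succ, List.map_append, List.sum_append, ih, sum_range_succ]; simp

lemma om_sum : ∑ j ∈ range 36, 16777216 * 2 ^ j / 3 ^ j = 50331606 := by decide +kernel

lemma jmp_spec {lm J V : ℕ} {l : L3} (h : jmpOk lm l J V = true) :
    ((toL (jumps lm l)).map (·.2)).sum = V ∧ l.toList.length ≤ 12000 ∧ V ≤ 12884901888 ∧
      asm (lm + 1) (jumps lm l) = J := by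
  unfold jmpOk at h
  rw [tot_eq] at h
  simp only [Bool.and_eq_true, Nat.beq_eq, Nat.ble_eq] at h
  obtain ⟨⟨h1, h2⟩, h3, h4⟩ := h
  refine ⟨by simpa using h1, ?_, h3, h4⟩
  rw [jumps_eq, List.length_map] at h2
  simpa using h2

/-! ### real numbers -/

lemma res_eq {N : ℕ} (hN : 0 < N) (c C : ℕ) :
    ∃ k : ℤ, (((c + N - C % N) % N : ℕ) : ℝ) = c - C + k * N := by
  have h1 : C % N ≤ c + N := (Nat.mod_lt _ hN).le.trans (Nat.le_add_left _ _)
  have h2 := Nat.mod_add_div (c + N - C % N) N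
  have h3 := Nat.mod_add_div C N
  refine ⟨1 + (C / N : ℕ) - ((c + N - C % N) / N : ℕ), ?_⟩
  have h4 : (((c + N - C % N) % N : ℕ) : ℝ) + N * (((c + N - C % N) / N : ℕ) : ℝ) =
      c + N - (C % N : ℕ) := by
    rw [← Nat.cast_add c N, ← Nat.cast_sub h1]
    exact_mod_cast h2
  have h5 : ((C % N : ℕ) : ℝ) + N * ((C / N : ℕ) : ℝ) = C := by exact_mod_cast h3
  rw [Int.cast_sub, Int.cast_add, Int.cast_natCast, Int.cast_natCast, Int.cast_one]
  linarith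

lemma div_near (a b : ℕ) (hb : 0 < b) :
    ((a / b : ℕ) : ℝ) ≤ a / b ∧ (a : ℝ) / b ≤ (a / b : ℕ) + 1 := by
  refine ⟨Nat.cast_div_le, ?_⟩
  have hb' : (0 : ℝ) < b := by exact_mod_cast hb
  rw [div_le_iff₀ hb']
  have := (Nat.lt_div_mul_add (a := a) hb).le
  have h2 : (a : ℝ) ≤ ((a / b * b + b : ℕ) : ℝ) := by exact_mod_cast this
  push_cast at h2
  linarith

lemma lg3 {a b : ℕ} (h : 3 ^ a ≤ 2 ^ b) : a * Real.log 3 ≤ b * Real.log 2 := by
  rw [← Real.log_pow, ← Real.log_pow]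
  exact Real.log_le_log (by positivity) (by exact_mod_cast h)

lemma lg2 {a b : ℕ} (h : 2 ^ b ≤ 3 ^ a) : b * Real.log 2 ≤ a * Real.log 3 := by
  rw [← Real.log_pow, ← Real.log_pow]
  exact Real.log_le_log (by positivity) (by exact_mod_cast h)

lemma lam_near : |(29237397617229858719 : ℝ) / 2 ^ 64 - Real.log 3 / Real.log 2| ≤ 1 / 2 ^ 30 := by
  have hl : 0 < Real.log 2 := Real.log_pos (by norm_num)
  have h1 := lg3 (a := 79335) (b := 125743) (by decide +kernel)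
  have h2 := lg2 (a := 31867) (b := 50508) (by decide +kernel)
  have h3 : Real.log 3 / Real.log 2 ≤ 125743 / 79335 := by
    rw [div_le_div_iff₀ hl (by norm_num)]
    push_cast at h1
    linarith
  have h4 : 50508 / 31867 ≤ Real.log 3 / Real.log 2 := by
    rw [div_le_div_iff₀ (by norm_num) hl]
    push_cast at h2
    linarith
  rw [abs_le]
  constructor <;> norm_num <;> linarith

/-- a number with 64 binary places in units of cells -/
lemma cell {lm g : ℕ} (hl : lm ≤ 21) {x δ : ℝ} (hδ : δ ≤ 1 / 2 ^ 24)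
    (h : |(g : ℝ) / 2 ^ 64 - x| ≤ δ) :
    ((g / 2 ^ (64 - lm) : ℕ) : ℝ) - 1 / 8 ≤ x * 2 ^ lm ∧
      x * 2 ^ lm ≤ ((g / 2 ^ (64 - lm) : ℕ) : ℝ) + 9 / 8 := by
  obtain ⟨h1, h2⟩ := div_near g (2 ^ (64 - lm)) (by positivity)
  have e : (g : ℝ) / ((2 ^ (64 - lm) : ℕ) : ℝ) = g / 2 ^ 64 * 2 ^ lm := by
    have : (2 : ℝ) ^ 64 = 2 ^ (64 - lm) * 2 ^ lm := by
      rw [← pow_add, Nat.sub_add_cancel (by omega)]
    rw [this]
    push_cast
    field_simp
  rw [e] at h1 h2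
  have hM : (2 : ℝ) ^ lm ≤ 2 ^ 21 := pow_le_pow_right₀ (by norm_num) hl
  have hM0 : (0 : ℝ) < 2 ^ lm := by positivity
  obtain ⟨h3, h4⟩ := abs_le.1 (h.trans hδ)
  have h5 := mul_le_mul_of_nonneg_right h3 hM0.le
  have h6 := mul_le_mul_of_nonneg_right h4 hM0.le
  constructor <;> nlinarith

/-- one entry of the list -/
lemma entry {lm m w g c : ℕ} (hl : lm ≤ 21) {q : ℕ → ℕ}
    (hq : ∀ d : ℕ, d < 2 * 2 ^ lm → ∀ y : ℝ, (d : ℝ) - 5 / 4 ≤ y → y ≤ d + 9 / 4 →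
      pc (2 ^ lm) y ≤ ((q d : ℝ) - 2 ^ 26) / 2 ^ 26)
    (hm : 1 ≤ m) (hg : |(g : ℝ) / 2 ^ 64 - Real.log m / Real.log 2| ≤ 1 / 2 ^ 58) {y : ℝ}
    (h1 : (c : ℝ) - 1 / 8 ≤ y) (h2 : y ≤ c + 17 / 8) :
    (-2 : ℝ) ^ w / m * Pf (y / 2 ^ lm * Real.log 2 - Real.log m) ≤
      (((1073741824 * 2 ^ w / m * q ((c + 2 * 2 ^ lm - (g / 2 ^ (64 - lm) + w * 2 ^ lm) %
        (2 * 2 ^ lm)) % (2 * 2 ^ lm)) : ℕ) : ℝ) - 2 ^ 26 * (1073741824 * 2 ^ w / m : ℕ)) / 2 ^ 56 +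
        2 / 3 / 2 ^ 30 := by
  have hN : 0 < 2 * 2 ^ lm := by positivity
  have hlg : 0 < Real.log 2 := Real.log_pos (by norm_num)
  have hM0 : (0 : ℝ) < 2 ^ lm := by positivity
  obtain ⟨k, hk⟩ := res_eq hN c (g / 2 ^ (64 - lm) + w * 2 ^ lm)
  obtain ⟨h3, h4⟩ := cell hl (by norm_num) hg
  have hd := Nat.mod_lt (c + 2 * 2 ^ lm - (g / 2 ^ (64 - lm) + w * 2 ^ lm) % (2 * 2 ^ lm)) hN
  generalize (c + 2 * 2 ^ lm - (g / 2 ^ (64 - lm) + w * 2 ^ lm) % (2 * 2 ^ lm)) % (2 * 2 ^ lm) = d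
    at hk hd ⊢
  generalize g / 2 ^ (64 - lm) = C at hk h3 h4
  push_cast at hk
  have h5 := hq d hd (y - Real.log m / Real.log 2 * 2 ^ lm - w * 2 ^ lm + k * (2 * 2 ^ lm))
    (by linarith) (by linarith)
  have e : (y - Real.log m / Real.log 2 * 2 ^ lm - w * 2 ^ lm + k * (2 * 2 ^ lm)) /
      ((2 ^ lm : ℕ) : ℝ) * Real.log 2 = y / 2 ^ lm * Real.log 2 - Real.log m - w * Real.log 2 +
        k * (2 * Real.log 2) := by
    push_cast
    field_simp
  rw [pc, e, Pf_add_int, Pf_sub_nat] at h5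
  have hP := abs_Pf (y / 2 ^ lm * Real.log 2 - Real.log m)
  generalize Pf (y / 2 ^ lm * Real.log 2 - Real.log m) = P at h5 hP ⊢
  have hP' : |(-1 : ℝ) ^ w * P| ≤ 2 / 3 := by
    rwa [abs_mul, abs_pow, abs_neg, abs_one, one_pow, one_mul]
  have e2 : (-2 : ℝ) ^ w / m * P = 2 ^ w / m * ((-1) ^ w * P) := by
    rw [neg_pow]; ring
  rw [e2]
  generalize (-1 : ℝ) ^ w * P = R at h5 hP' ⊢
  obtain ⟨h6, h7⟩ := div_near (1073741824 * 2 ^ w) m hm
  rw [Nat.cast_mul (1073741824 * 2 ^ w / m)]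
  have hv : (0 : ℝ) ≤ (1073741824 * 2 ^ w / m : ℕ) := Nat.cast_nonneg _
  generalize ((1073741824 * 2 ^ w / m : ℕ) : ℝ) = v at h6 h7 hv ⊢
  push_cast at h6 h7
  rw [mul_div_assoc] at h6 h7
  generalize (2 : ℝ) ^ w / m = a at h6 h7 ⊢
  obtain ⟨h8, h9⟩ := abs_le.1 hP'
  have h10 := mul_le_mul_of_nonneg_left h5 hv
  have h11 : (1073741824 * a - v) * R ≤ 2 / 3 := by nlinarith
  have e3 : v * (((q d : ℝ) - 2 ^ 26) / 2 ^ 26) = (v * q d - 2 ^ 26 * v) / 2 ^ 26 := by ring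
  rw [e3] at h10
  norm_num at h10 h11 ⊢
  linarith

/-- the sum over the list in a window of cells -/
lemma atl_le {lm c : ℕ} (hl : lm ≤ 21) {q : ℕ → ℕ}
    (hq : ∀ d : ℕ, d < 2 * 2 ^ lm → ∀ y : ℝ, (d : ℝ) - 5 / 4 ≤ y → y ≤ d + 9 / 4 →
      pc (2 ^ lm) y ≤ ((q d : ℝ) - 2 ^ 26) / 2 ^ 26)
    {l : L3} (hlog : LogOk l (1 / 2 ^ 58)) {y : ℝ} (h1 : (c : ℝ) - 1 / 8 ≤ y) (h2 : y ≤ c + 17 / 8) :
    AtL l (y / 2 ^ lm * Real.log 2) ≤ ((cv (2 * 2 ^ lm) (toL (jumps lm l)) q c : ℝ) -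
      2 ^ 26 * (((toL (jumps lm l)).map (·.2)).sum : ℕ)) / 2 ^ 56 +
        l.toList.length * (2 / 3 / 2 ^ 30) := by
  rw [jumps_eq]
  unfold AtL cv
  unfold LogOk at hlog
  generalize l.toList = t at hlog ⊢
  induction t with
  | nil => simp
  | cons e t ih =>
    have h3 := ih fun e he => hlog e (List.mem_cons_of_mem _ he)
    obtain ⟨h4, h5⟩ := hlog e List.mem_cons_self
    have h6 := entry (w := e.2.1) hl hq h4 h5 h1 h2
    simp only [List.map_cons, List.sum_cons, List.length_cons, Nat.cast_add, Nat.cast_one]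
    linarith

lemma atl_abs (lm : ℕ) {l : L3} (hlog : LogOk l (1 / 2 ^ 58)) (u : ℝ) :
    |AtL l u| ≤ (((((toL (jumps lm l)).map (·.2)).sum : ℕ) : ℝ) + l.toList.length) *
      (2 / 3 / 2 ^ 30) := by
  rw [jumps_eq]
  unfold AtL
  unfold LogOk at hlog
  generalize l.toList = t at hlog ⊢
  induction t with
  | nil => simp
  | cons e t ih =>
    have h3 := ih fun e he => hlog e (List.mem_cons_of_mem _ he)
    obtain ⟨h4, -⟩ := hlog e List.mem_cons_self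
    obtain ⟨-, h7⟩ := div_near (1073741824 * 2 ^ e.2.1) e.1 h4
    simp only [List.map_cons, List.sum_cons, List.length_cons, Nat.cast_add, Nat.cast_one]
    refine (abs_add_le _ _).trans ?_
    have h8 : |(-2 : ℝ) ^ e.2.1 / e.1 * Pf (u - Real.log e.1)| ≤ 2 ^ e.2.1 / e.1 * (2 / 3) := by
      rw [abs_mul, abs_div, abs_pow, abs_neg, abs_two, Nat.abs_cast]
      exact mul_le_mul_of_nonneg_left (abs_Pf _) (by positivity)
    generalize ((1073741824 * 2 ^ e.2.1 / e.1 : ℕ) : ℝ) = v at h7 ⊢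
    push_cast at h7
    rw [mul_div_assoc] at h7
    norm_num at h3 h8 ⊢
    linarith

/-- one shift -/
lemma shift {lm c i V : ℕ} (hl : lm ≤ 21) (hi : i < 36) {l : L3} {Z : ℕ → ℕ}
    (hZ : ∀ d : ℕ, d < 2 * 2 ^ lm → (Z d : ℝ) - 4 * V ≤ 8.1 * 2 ^ 32 ∧ ∀ y : ℝ, (d : ℝ) - 1 / 8 ≤ y →
      y ≤ d + 17 / 8 → AtL l (y / 2 ^ lm * Real.log 2) ≤ ((Z d : ℝ) - 4 * V) / 2 ^ 32 + 0.0000075)
    {y : ℝ} (h1 : (c : ℝ) ≤ y) (h2 : y ≤ c + 1) :
    (-2 / 3 : ℝ) ^ i * AtL l (y / 2 ^ lm * Real.log 2 - i * Real.log 3) ≤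
      (((16777216 * 2 ^ i / 3 ^ i * Z ((c + 2 * 2 ^ lm - (i * 29237397617229858719 / 2 ^ (64 - lm) +
        1 + i * 2 ^ lm) % (2 * 2 ^ lm)) % (2 * 2 ^ lm)) : ℕ) : ℝ) -
          4 * V * (16777216 * 2 ^ i / 3 ^ i : ℕ)) / 2 ^ 56 + 8.1 / 2 ^ 24 +
        (2 / 3) ^ i * 0.0000075 := by
  have hN : 0 < 2 * 2 ^ lm := by positivity
  have hlg : 0 < Real.log 2 := Real.log_pos (by norm_num)
  have hM0 : (0 : ℝ) < 2 ^ lm := by positivity
  obtain ⟨k, hk⟩ := res_eq hN c (i * 29237397617229858719 / 2 ^ (64 - lm) + 1 + i * 2 ^ lm)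
  have hi' : (i : ℝ) ≤ 36 := by exact_mod_cast hi.le
  have hg : |((i * 29237397617229858719 : ℕ) : ℝ) / 2 ^ 64 - i * (Real.log 3 / Real.log 2)| ≤
      1 / 2 ^ 24 := by
    rw [Nat.cast_mul, mul_div_assoc, ← mul_sub, abs_mul, Nat.abs_cast]
    have := mul_le_mul hi' lam_near (abs_nonneg _) (by norm_num)
    refine le_trans (by exact_mod_cast this) (by norm_num)
  obtain ⟨h3, h4⟩ := cell hl le_rfl hg
  have hd := Nat.mod_lt (c + 2 * 2 ^ lm - (i * 29237397617229858719 / 2 ^ (64 - lm) + 1 +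
    i * 2 ^ lm) % (2 * 2 ^ lm)) hN
  generalize (c + 2 * 2 ^ lm - (i * 29237397617229858719 / 2 ^ (64 - lm) + 1 + i * 2 ^ lm) %
    (2 * 2 ^ lm)) % (2 * 2 ^ lm) = d at hk hd ⊢
  generalize i * 29237397617229858719 / 2 ^ (64 - lm) = C at hk h3 h4
  push_cast at hk
  obtain ⟨hT, h5⟩ := hZ d hd
  have h5 := h5 (y - i * (Real.log 3 / Real.log 2) * 2 ^ lm - i * 2 ^ lm + k * (2 * 2 ^ lm))
    (by linarith) (by linarith)
  have e : (y - i * (Real.log 3 / Real.log 2) * 2 ^ lm - i * 2 ^ lm + k * (2 * 2 ^ lm)) / 2 ^ lm *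
      Real.log 2 = y / 2 ^ lm * Real.log 2 - i * Real.log 3 - i * Real.log 2 +
        k * (2 * Real.log 2) := by
    field_simp
  rw [e, ← AtL_shift] at h5
  generalize AtL l (y / 2 ^ lm * Real.log 2 - i * Real.log 3) = P at h5 ⊢
  have e2 : (-2 / 3 : ℝ) ^ i * P = (2 / 3) ^ i * ((-1) ^ i * P) := by
    rw [neg_div, neg_pow]; ring
  rw [e2]
  generalize (-1 : ℝ) ^ i * P = R at h5 ⊢
  obtain ⟨h6, h7⟩ := div_near (16777216 * 2 ^ i) (3 ^ i) (by positivity)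
  rw [Nat.cast_mul (16777216 * 2 ^ i / 3 ^ i)]
  generalize ((16777216 * 2 ^ i / 3 ^ i : ℕ) : ℝ) = v at h6 h7 ⊢
  push_cast at h6 h7
  rw [mul_div_assoc, ← div_pow] at h6 h7
  have ha : (0 : ℝ) ≤ (2 / 3) ^ i := by positivity
  generalize (2 / 3 : ℝ) ^ i = a at h6 h7 ha ⊢
  have h10 := mul_le_mul_of_nonneg_left h5 ha
  have e3 : v * (Z d : ℝ) - 4 * V * v = v * ((Z d : ℝ) - 4 * V) := by ring
  rw [e3]
  generalize (Z d : ℝ) - 4 * V = T at hT h10 ⊢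
  have h11 : (16777216 * a - v) * T ≤ 8.1 * 2 ^ 32 := by nlinarith
  norm_num at h10 h11 ⊢
  linarith

lemma tail {f : ℕ → ℝ} {B : ℝ} (h : ∀ i, |f i| ≤ B) :
    ∑' i : ℕ, (-2 / 3 : ℝ) ^ i * f i ≤
      ∑ i ∈ range 36, (-2 / 3 : ℝ) ^ i * f i + (2 / 3) ^ 36 * 3 * B := by
  have hb : ∀ i, |(-2 / 3 : ℝ) ^ i * f i| ≤ (2 / 3) ^ i * B := fun i => by
    rw [abs_mul, abs_pow, neg_div, abs_neg, abs_of_pos (by norm_num : (0 : ℝ) < 2 / 3)]
    exact mul_le_mul_of_nonneg_left (h i) (by positivity)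
  have hg : HasSum (fun i : ℕ => (2 / 3 : ℝ) ^ i) (1 - 2 / 3)⁻¹ :=
    hasSum_geometric_of_lt_one (by norm_num) (by norm_num)
  have hs : Summable fun i : ℕ => (-2 / 3 : ℝ) ^ i * f i :=
    Summable.of_norm_bounded (hg.summable.mul_right B) hb
  rw [← hs.sum_add_tsum_nat_add 36]
  have h2 := (hg.mul_left ((2 / 3 : ℝ) ^ 36)).mul_right B
  have h3 : ∑' i : ℕ, (-2 / 3 : ℝ) ^ (i + 36) * f (i + 36) ≤ (2 / 3) ^ 36 * (1 - 2 / 3)⁻¹ * B := by
    refine hasSum_le (fun i => ?_) ((summable_nat_add_iff 36).2 hs).hasSum h2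
    refine (le_abs_self _).trans ((hb _).trans_eq ?_)
    rw [pow_add, mul_comm ((2 / 3 : ℝ) ^ i)]
  have e : (1 - 2 / 3 : ℝ)⁻¹ = 3 := by norm_num
  rw [e] at h3
  linarith

end EnvH

open EnvH in
theorem envHOk (h : StEnvQ) : StEnvH := by
  intro lm J V rl l h5 hl hgeo hlog hj
  obtain ⟨q, hq, hq2⟩ := h lm rl h5 hl hgeo
  obtain ⟨hV, hn, hV2, hJ⟩ := jmp_spec hj
  have hN : 0 < 2 * 2 ^ lm := by positivity
  have eN : 2 ^ (lm + 1) = 2 * 2 ^ lm := pow_succ' 2 lm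
  have hZ : ∀ c, cv (2 * 2 ^ lm) (toL (jumps lm l)) q c ≤ V * 112000000 := fun c =>
    hV ▸ cv_le hN _ (fun d hd => (hq2 d hd).1) c
  have e1 : cyc J (pv (2 * 2 ^ lm) q) (2 * 2 ^ lm) =
      pv (2 * 2 ^ lm) (cv (2 * 2 ^ lm) (toL (jumps lm l)) q) := by
    rw [← hJ, ← eN]
    exact cyc_asm (B := 112000000) _ (fun j hj => (hq2 j (eN ▸ hj)).1) (by rw [hV]; omega)
  set Z : ℕ → ℕ := fun c => cv (2 * 2 ^ lm) (toL (jumps lm l)) q c / 2 ^ 24 with hZdef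
  have hZ1 : ∀ c, Z c * 2 ^ 24 ≤ V * 112000000 := fun c => (Nat.div_mul_le_self _ _).trans (hZ c)
  have hZ2 : ∀ c, Z c ≤ 87000000000 := fun c => by have := hZ1 c; omega
  have hS : ((toL (shifts lm 36 0)).map (·.2)).sum = 50331606 := by
    rw [shifts_eq, List.map_map, sum_range', ← om_sum]
    rfl
  have hH : ∀ c, cv (2 * 2 ^ lm) (toL (shifts lm 36 0)) Z c ≤ 50331606 * 87000000000 := fun c =>
    hS ▸ cv_le hN _ (fun d _ => hZ2 d) c
  have e2 : cyc (pv (2 * 2 ^ lm) Z) (shv lm) (2 * 2 ^ lm) =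
      pv (2 * 2 ^ lm) (cv (2 * 2 ^ lm) (toL (shifts lm 36 0)) Z) := by
    rw [cyc_comm, ← eN]
    exact cyc_asm (B := 87000000000) (shifts lm 36 0) (fun j _ => hZ2 j) (by rw [hS]; norm_num)
  refine ⟨fun c => cv (2 * 2 ^ lm) (toL (shifts lm 36 0)) Z c / 2 ^ 24, ?_, fun c _ => ⟨?_, ?_⟩⟩
  · have e0 : envH lm rl J = tr (on (1 <<< lm + 1 <<< lm)) (cyc (tr (on (1 <<< lm + 1 <<< lm))
        (cyc J (envQ (1 <<< lm) rl) (1 <<< lm + 1 <<< lm)) 24) (shv lm) (1 <<< lm + 1 <<< lm)) 24 :=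
      rfl
    rw [e0, Nat.shiftLeft_eq, one_mul, ← two_mul, hq, e1,
      tr_pv (fun j _ => (hZ j).trans_lt (by omega)) (by norm_num), e2,
      tr_pv (fun j _ => (hH j).trans_lt (by norm_num)) (by norm_num)]
  · have := hH c
    beta_reduce
    omega
  · intro y hy1 hy2
    have hn' : (l.toList.length : ℝ) ≤ 12000 := by exact_mod_cast hn
    have hV' : (V : ℝ) ≤ 12884901888 := by exact_mod_cast hV2
    have hV0 : (0 : ℝ) ≤ V := Nat.cast_nonneg _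
    have hA : ∀ d : ℕ, d < 2 * 2 ^ lm → (Z d : ℝ) - 4 * V ≤ 8.1 * 2 ^ 32 ∧ ∀ y : ℝ, (d : ℝ) - 1 / 8 ≤ y →
        y ≤ d + 17 / 8 →
          AtL l (y / 2 ^ lm * Real.log 2) ≤ ((Z d : ℝ) - 4 * V) / 2 ^ 32 + 0.0000075 := by
      intro d _
      constructor
      · have h1 : ((Z d * 2 ^ 24 : ℕ) : ℝ) ≤ (V * 112000000 : ℕ) := by exact_mod_cast hZ1 d
        push_cast at h1
        norm_num at h1 ⊢
        linarith
      · intro y h1 h2
        have h3 := atl_le hl (fun d hd => (hq2 d hd).2.2) hlog h1 h2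
        rw [hV] at h3
        have h4 := (div_near (cv (2 * 2 ^ lm) (toL (jumps lm l)) q d) (2 ^ 24) (by positivity)).2
        change _ ≤ (Z d : ℝ) + 1 at h4
        push_cast at h4
        norm_num at h3 h4 ⊢
        linarith
    have hB : ∀ u, |AtL l u| ≤ 8.0001 := fun u => by
      refine (atl_abs lm hlog u).trans ?_
      rw [hV]
      norm_num
      linarith
    refine (tail fun i => hB _).trans ?_
    beta_reduce
    have h1 := sum_le_sum fun i (hi : i ∈ range 36) => shift hl (mem_range.1 hi) hA hy1 hy2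
    rw [sum_add_distrib, sum_add_distrib, ← sum_div, sum_sub_distrib, ← mul_sum, ← Nat.cast_sum,
      ← Nat.cast_sum, om_sum, ← sum_mul, sum_const, card_range] at h1
    have h2 : ∑ i ∈ range 36, (2 / 3 : ℝ) ^ i ≤ 3 := by
      rw [geom_sum_eq (by norm_num)]
      norm_num
    have e3 : cv (2 * 2 ^ lm) (toL (shifts lm 36 0)) Z c = ∑ i ∈ range 36,
        16777216 * 2 ^ i / 3 ^ i * Z ((c + 2 * 2 ^ lm - (i * 29237397617229858719 / 2 ^ (64 - lm) +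
          1 + i * 2 ^ lm) % (2 * 2 ^ lm)) % (2 * 2 ^ lm)) := by
      rw [cv, shifts_eq, List.map_map, sum_range']
      rfl
    rw [← e3] at h1
    have h4 := (div_near (cv (2 * 2 ^ lm) (toL (shifts lm 36 0)) Z c) (2 ^ 24) (by positivity)).2
    generalize cv (2 * 2 ^ lm) (toL (shifts lm 36 0)) Z c = H at h1 h4 ⊢
    generalize ∑ i ∈ range 36, (-2 / 3 : ℝ) ^ i *
      AtL l (y / 2 ^ lm * Real.log 2 - i * Real.log 3) = S at h1 ⊢
    generalize ∑ i ∈ range 36, (2 / 3 : ℝ) ^ i = G at h1 h2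
    generalize ((H / 2 ^ 24 : ℕ) : ℝ) = H' at h4 ⊢
    push_cast at h1 h4
    norm_num at h1 h4 ⊢
    linarith

end Pool.Agent.Lib.MP_5db4ad_nt.S2
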