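import Pool.Agent.Lib.MP_5db4ad_nt.S2Lane

/-! The upper envelope of the periodic function over windows of cells. -/

namespace Pool.Agent.Lib.MP_5db4ad_nt.S2

open Finset

namespace EnvQ

/-- `2 ^ (-y / M)` -/
noncomputable def gx (M : ℕ) (y : ℝ) : ℝ := Real.exp (-(y / M * Real.log 2))

variable {M : ℕ}

lemma gx_pos (y : ℝ) : 0 < gx M y := Real.exp_pos _

lemma gx_add (y z : ℝ) : gx M (y + z) = gx M y * gx M z := by
  rw [gx, gx, gx, ← Real.exp_add]
  congr 1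
  ring

lemma gx_anti {y z : ℝ} (h : y ≤ z) : gx M z ≤ gx M y := by
  have h2 : 0 ≤ Real.log 2 := (Real.log_pos one_lt_two).le
  unfold gx
  gcongr

lemma gx_zero : gx M 0 = 1 := by simp [gx]

lemma gx_le_one {y : ℝ} (h : 0 ≤ y) : gx M y ≤ 1 := (gx_anti h).trans_eq gx_zero

lemma gx_self (hM : 0 < M) : gx M M = 1 / 2 := by
  have h : (M : ℝ) ≠ 0 := Nat.cast_ne_zero.2 hM.ne'
  rw [gx, div_self h, one_mul, Real.exp_neg, Real.exp_log two_pos, one_div]

lemma gx_pow (N : ℕ) (y : ℝ) : gx M y ^ N = gx M (N * y) := by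
  rw [gx, gx, ← Real.exp_nat_mul]
  congr 1
  ring

lemma pc_eq (y : ℝ) : pc M y = 2 / 3 * (-2 : ℝ) ^ ⌊y / M⌋ * gx M y := by
  rw [pc, Pf, mul_div_cancel_right₀ _ (Real.log_pos one_lt_two).ne', gx]

lemma floor_eq (hM : 0 < M) {y : ℝ} (k : ℤ) (h1 : k * M ≤ y) (h2 : y < (k + 1) * M) :
    ⌊y / M⌋ = k := by
  have h : (0 : ℝ) < M := Nat.cast_pos.2 hM
  rw [Int.floor_eq_iff, le_div_iff₀ h, div_lt_iff₀ h]
  exact ⟨h1, h2⟩

lemma pc_neg (hM : 0 < M) {y : ℝ} (h1 : -(M : ℝ) ≤ y) (h2 : y < 0) : pc M y ≤ 0 := by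
  rw [pc_eq, floor_eq hM (-1) (by push_cast; linarith) (by push_cast; linarith)]
  have := gx_pos (M := M) y
  norm_num
  linarith

lemma pc_zero (hM : 0 < M) {y : ℝ} (h1 : 0 ≤ y) (h2 : y < M) : pc M y = 2 / 3 * gx M y := by
  rw [pc_eq, floor_eq hM 0 (by push_cast; linarith) (by push_cast; linarith), zpow_zero, mul_one]

lemma pc_one (hM : 0 < M) {y : ℝ} (h1 : (M : ℝ) ≤ y) (h2 : y < 2 * M) :
    pc M y = -(2 / 3 * gx M (y - M)) := by
  have e := gx_add (M := M) (y - M) M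
  rw [sub_add_cancel, gx_self hM] at e
  rw [pc_eq, floor_eq hM 1 (by push_cast; linarith) (by push_cast; linarith), zpow_one, e]
  ring

lemma pc_two (hM : 0 < M) {y : ℝ} (h1 : 2 * (M : ℝ) ≤ y) (h2 : y < 3 * M) : pc M y ≤ 2 / 3 := by
  have e := gx_add (M := M) (y - M) M
  have e' := gx_add (M := M) (y - M - M) M
  rw [sub_add_cancel, gx_self hM] at e e'
  have h3 : gx M (y - M - M) ≤ 1 := gx_le_one (by linarith)
  rw [pc_eq, floor_eq hM 2 (by push_cast; linarith) (by push_cast; linarith), e, e']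
  norm_num
  linarith

lemma pc_le (hM : 0 < M) {y : ℝ} (h1 : -(M : ℝ) ≤ y) (h2 : y < 3 * M) : pc M y ≤ 2 / 3 := by
  rcases lt_or_ge y 0 with h | h
  · linarith [pc_neg hM h1 h]
  rcases lt_or_ge y M with h' | h'
  · rw [pc_zero hM h h']
    linarith [gx_le_one (M := M) h]
  rcases lt_or_ge y (2 * M) with h'' | h''
  · rw [pc_one hM h' h'']
    linarith [gx_pos (M := M) (y - M)]
  · exact pc_two hM h'' h2

lemma geoOk_cons {n r n' : ℕ} {l : L} (h : geoOk M (.cons n r l) n' = true) :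
    n = n' ∧ M / n * n = M ∧ r ^ (M / n) ≤ 2 ^ (28 * (M / n) - 1) ∧
      2 ^ (28 * (M / n) - 1) ≤ (r + 1) ^ (M / n) ∧ geoOk M l (n + n) = true := by
  have h' : (and (and (Nat.beq n n') (Nat.beq (M / n * n) M))
      (and (and (Nat.ble (r ^ (M / n)) (1 <<< (28 * (M / n) - 1)))
        (Nat.ble (1 <<< (28 * (M / n) - 1)) ((r + 1) ^ (M / n)))) (geoOk M l (n + n)))) = true := h
  simp only [Bool.and_eq_true, Nat.beq_eq, Nat.ble_eq, Nat.shiftLeft_eq, one_mul] at h'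
  exact ⟨h'.1.1, h'.1.2, h'.2.1.1, h'.2.1.2, h'.2.2⟩

lemma geoOk_le (hM : 0 < M) {l : L} {n : ℕ} (h : geoOk M l n = true) : n ≤ M := by
  cases l with
  | nil => exact (Nat.eq_of_beq_eq_true h).le
  | cons a r l =>
    obtain ⟨rfl, h1, -⟩ := geoOk_cons h
    exact Nat.le_of_dvd hM (Dvd.intro_left _ h1)

lemma ratio (hM : 0 < M) {n r N : ℕ} (hN : N * n = M) (h1 : r ^ N ≤ 2 ^ (28 * N - 1))
    (h2 : 2 ^ (28 * N - 1) ≤ (r + 1) ^ N) :
    (r : ℝ) ≤ 2 ^ 28 * gx M n ∧ 2 ^ 28 * gx M n ≤ r + 1 := by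
  have hN0 : N ≠ 0 := by
    rintro rfl
    omega
  have e : (2 ^ 28 * gx M n) ^ N = ((2 ^ (28 * N - 1) : ℕ) : ℝ) := by
    obtain ⟨s, hs⟩ : ∃ s, 28 * N = s + 1 := ⟨28 * N - 1, by omega⟩
    rw [mul_pow, gx_pow, ← Nat.cast_mul, hN, gx_self hM, ← pow_mul, hs, Nat.add_sub_cancel]
    push_cast
    ring
  have hp : (0 : ℝ) ≤ 2 ^ 28 * gx M n := (mul_pos (by positivity) (gx_pos _)).le
  constructor
  · rw [← pow_le_pow_iff_left₀ (Nat.cast_nonneg r) hp hN0, e]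
    exact_mod_cast h1
  · rw [← pow_le_pow_iff_left₀ hp (by positivity) hN0, e]
    exact_mod_cast h2

lemma div_near (a s : ℕ) : ((a / 2 ^ s : ℕ) : ℝ) ≤ a / 2 ^ s ∧ (a : ℝ) / 2 ^ s ≤ (a / 2 ^ s : ℕ) + 1 := by
  constructor
  · have := Nat.cast_div_le (α := ℝ) (m := a) (n := 2 ^ s)
    rwa [Nat.cast_pow, Nat.cast_ofNat] at this
  · rw [div_le_iff₀ (by positivity)]
    have h : a ≤ (a / 2 ^ s + 1) * 2 ^ s := by
      have := Nat.lt_div_mul_add (a := a) (b := 2 ^ s) (by positivity)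
      rw [add_mul, one_mul]
      exact this.le
    exact_mod_cast h

lemma step {a r : ℕ} {g ρ δ : ℝ} (hg0 : 0 ≤ g) (hg : g ≤ 1) (hρ : ρ ≤ 1)
    (h1 : (r : ℝ) ≤ 2 ^ 28 * ρ) (h2 : 2 ^ 28 * ρ ≤ r + 1) (h : |a - 2 / 3 * 2 ^ 36 * g| ≤ δ) :
    |((a * r / 2 ^ 28 : ℕ) : ℝ) - 2 / 3 * 2 ^ 36 * (g * ρ)| ≤ δ + 172 := by
  obtain ⟨d1, d2⟩ := div_near (a * r) 28
  rw [Nat.cast_mul] at d1 d2
  have hr : (0 : ℝ) ≤ r / 2 ^ 28 := by positivity
  have hr1 : (r : ℝ) / 2 ^ 28 ≤ 1 := by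
    rw [div_le_one (by positivity)]
    linarith
  have h3 : |(a - 2 / 3 * 2 ^ 36 * g) * (r / 2 ^ 28)| ≤ δ := by
    rw [abs_mul, abs_of_nonneg hr]
    exact (mul_le_of_le_one_right (abs_nonneg _) hr1).trans h
  have h4 : 0 ≤ g * (2 ^ 28 * ρ - r) := mul_nonneg hg0 (by linarith)
  have h5 : g * (2 ^ 28 * ρ - r) ≤ 1 := mul_le_one₀ hg (by linarith) (by linarith)
  have e : (a : ℝ) * r / 2 ^ 28 - 2 / 3 * 2 ^ 36 * (g * ρ) =
      (a - 2 / 3 * 2 ^ 36 * g) * (r / 2 ^ 28) - 512 / 3 * (g * (2 ^ 28 * ρ - r)) := by ring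
  rw [abs_le] at h3 ⊢
  constructor <;> linarith [h3.1, h3.2]

lemma geoR_spec (hM : 0 < M) (l : L) : ∀ (n t : ℕ) (e : ℕ → ℕ) (δ : ℝ), geoOk M l n = true →
    1 ≤ n → M ≤ n * 2 ^ t → δ + 172 * t ≤ 4000 →
    (∀ j < n, |(e j : ℝ) - 2 / 3 * 2 ^ 36 * gx M j| ≤ δ) →
    ∃ e' : ℕ → ℕ, geoR l (pv n e) = pv M e' ∧
      ∀ j < M, |(e' j : ℝ) - 2 / 3 * 2 ^ 36 * gx M j| ≤ 4000 := by
  induction l with
  | nil =>
    intro n t e δ h _ _ hδ he
    obtain rfl : n = M := Nat.eq_of_beq_eq_true h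
    have : (0 : ℝ) ≤ t := Nat.cast_nonneg t
    exact ⟨e, rfl, fun j hj => (he j hj).trans (by linarith)⟩
  | cons n r l ih =>
    intro n' t e δ h hn ht hδ he
    obtain ⟨rfl, h1, h2, h3, h4⟩ := geoOk_cons h
    have h5 := geoOk_le hM h4
    obtain ⟨r1, r2⟩ := ratio hM h1 h2 h3
    have hρ : gx M n ≤ 1 := gx_le_one (Nat.cast_nonneg n)
    cases t with
    | zero => omega
    | succ t =>
      have ht0 : (0 : ℝ) ≤ t := Nat.cast_nonneg t
      push_cast at hδ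
      have hb : ∀ j < n, e j * r < 2 ^ 64 := fun j hj => by
        have a1 := (abs_le.1 (he j hj)).2
        have a2 : gx M j ≤ 1 := gx_le_one (Nat.cast_nonneg j)
        have a3 : (e j : ℝ) < 2 ^ 36 := by linarith
        have a4 : (r : ℝ) ≤ 2 ^ 28 := by linarith
        have a5 : e j < 2 ^ 36 := by exact_mod_cast a3
        have a6 : r ≤ 2 ^ 28 := by exact_mod_cast a4
        calc e j * r ≤ e j * 2 ^ 28 := Nat.mul_le_mul_left _ a6
          _ < 2 ^ 36 * 2 ^ 28 := Nat.mul_lt_mul_of_pos_right a5 (by norm_num)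
          _ = 2 ^ 64 := by norm_num
      have e0 : geoR (.cons n r l) (pv n e) =
          geoR l (pv n e + up (tr (on n) (pv n e * r) 28) n) := rfl
      rw [e0, pv_mul, tr_pv hb (by norm_num), pv_append]
      refine ih (n + n) t _ (δ + 172) h4 (by omega) (by rw [pow_succ] at ht; linarith)
        (by linarith) fun j hj => ?_
      split_ifs with hj'
      · linarith [he j hj']
      · obtain ⟨i, rfl⟩ := Nat.exists_eq_add_of_le' (not_lt.1 hj')
        rw [Nat.add_sub_cancel, Nat.cast_add, gx_add]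
        exact step (gx_pos _).le (gx_le_one (Nat.cast_nonneg i)) hρ r1 r2 (he i (by omega))

lemma tr_spec {lm : ℕ} (hl : lm ≤ 21) {rl : L} (h : geoOk (2 ^ lm) rl 1 = true) :
    ∃ E : ℕ → ℕ, tr (on (2 ^ lm)) (geoR rl 45812984490) 10 = pv (2 ^ lm) E ∧
      ∀ j < 2 ^ lm, |(E j : ℝ) - 2 / 3 * 2 ^ 26 * gx (2 ^ lm) j| ≤ 5 := by
  have hl' : (lm : ℝ) ≤ 21 := by exact_mod_cast hl
  obtain ⟨e, he, hb⟩ := geoR_spec (M := 2 ^ lm) (by positivity) rl 1 lm (fun _ => 45812984490) 1 h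
    le_rfl (by rw [one_mul]) (by linarith) (fun j hj => by
      obtain rfl : j = 0 := by omega
      rw [Nat.cast_zero, gx_zero, abs_le]
      norm_num)
  have e1 : pv 1 (fun _ => 45812984490) = 45812984490 := by simp [pv]
  rw [e1] at he
  refine ⟨fun j => e j / 2 ^ 10, ?_, fun j hj => ?_⟩
  · rw [he]
    refine tr_pv (fun j hj => ?_) (by norm_num)
    have a1 := (abs_le.1 (hb j hj)).2
    have a2 : gx (2 ^ lm) j ≤ 1 := gx_le_one (Nat.cast_nonneg j)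
    have a3 : (e j : ℝ) < 2 ^ 64 := by linarith
    exact_mod_cast a3
  · obtain ⟨d1, d2⟩ := div_near (e j) 10
    have a1 := abs_le.1 (hb j hj)
    rw [abs_le]
    constructor <;> linarith [a1.1, a1.2]

/-- the slots of the envelope -/
def qf (M : ℕ) (E : ℕ → ℕ) (d : ℕ) : ℕ :=
  if d < 2 then 111848123 else if d < M + 2 then 67108880 + E (d - 2)
  else if d < 2 * M - 3 then 67108880 - E (d + 3 - M) else 111848123

lemma envQ_eq (hM : 32 ≤ M) {rl : L} {E : ℕ → ℕ}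
    (h : tr (on M) (geoR rl 45812984490) 10 = pv M E) (hE : ∀ j < M, E j ≤ 44739248) :
    envQ M rl = pv (2 * M) (qf M E) := by
  have e0 : envQ M rl = on (M + M) * 67108880 + on 2 * 44739243 +
      up (tr (on M) (geoR rl 45812984490) 10) 2 + up (on 3 * 44739243) (M + M - 3) -
      up (Nat.shiftRight (tr (on M) (geoR rl 45812984490) 10) (64 * 5)) (M + 2) := rfl
  have e1 : Nat.shiftRight (pv M E) (64 * 5) = pv (M - 5) fun j => E (5 + j) := by
    have := shr_pv (n := M - 5) (s := 5) (f := E) fun j hj =>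
      (hE j (by omega)).trans_lt (by norm_num)
    rwa [show 5 + (M - 5) = M by omega] at this
  rw [e0, h, e1, on_mul, on_mul, on_mul, up_pv, up_pv, up_pv, ← two_mul,
    pv_extend (n := 2) (m := 2 * M) _ (by omega), pv_extend (n := 2 + M) (m := 2 * M) _ (by omega),
    pv_extend (n := 2 * M - 3 + 3) (m := 2 * M) _ (by omega),
    pv_extend (n := M + 2 + (M - 5)) (m := 2 * M) _ (by omega), pv_add, pv_add, pv_add, pv_sub]
  · refine pv_congr fun j hj => ?_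
    unfold qf
    have e2 : M + 2 ≤ j → 5 + (j - (M + 2)) = j + 3 - M := by omega
    split_ifs <;> first | omega | (rw [e2 (by omega)])
  · intro j hj
    have h1 : j < M + 2 + (M - 5) → ¬ j < M + 2 → E (5 + (j - (M + 2))) ≤ 44739248 :=
      fun a b => hE _ (by omega)
    split_ifs <;> omega

end EnvQ

open EnvQ in
theorem envQOk : StEnvQ := by
  intro lm rl h5 h21 h
  obtain ⟨E, hE, hb⟩ := tr_spec h21 h
  have hM : 32 ≤ 2 ^ lm := Nat.pow_le_pow_right (n := 2) (by norm_num) h5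
  generalize 2 ^ lm = M at h hE hb hM ⊢
  have hM0 : 0 < M := by omega
  have hMr : (32 : ℝ) ≤ M := by exact_mod_cast hM
  have hE' : ∀ j < M, E j ≤ 44739248 := fun j hj => by
    have a1 := (abs_le.1 (hb j hj)).2
    have a2 : gx M j ≤ 1 := gx_le_one (Nat.cast_nonneg j)
    have a3 : (E j : ℝ) ≤ 44739248 := by linarith
    exact_mod_cast a3
  refine ⟨qf M E, envQ_eq hM hE hE', fun d hd => ?_⟩
  have hd0 : (0 : ℝ) ≤ d := Nat.cast_nonneg d
  have hdr : (d : ℝ) + 1 ≤ 2 * M := by exact_mod_cast hd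
  have hc : ∀ y : ℝ, (d : ℝ) - 5 / 4 ≤ y → y ≤ d + 9 / 4 →
      pc M y ≤ (((111848123 : ℕ) : ℝ) - 2 ^ 26) / 2 ^ 26 := fun y h1 h2 =>
    (pc_le hM0 (by linarith) (by linarith)).trans (by norm_num)
  unfold qf
  split_ifs with c1 c2 c3
  · exact ⟨by norm_num, by norm_num, hc⟩
  · have a0 := hE' (d - 2) (by omega)
    refine ⟨by omega, by omega, fun y h1 h2 => ?_⟩
    have a1 := (abs_le.1 (hb (d - 2) (by omega))).1
    have a2 : (2 : ℝ) ≤ d := by exact_mod_cast not_lt.1 c1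
    have a3 : (d : ℝ) < M + 2 := by exact_mod_cast c2
    rw [Nat.cast_sub (not_lt.1 c1), Nat.cast_ofNat] at a1
    rw [Nat.cast_add, Nat.cast_ofNat, le_div_iff₀ (by positivity)]
    rcases lt_or_ge y M with h' | h'
    · have a4 : gx M y ≤ gx M (d - 2) := gx_anti (by linarith)
      rw [pc_zero hM0 (by linarith) h']
      linarith
    · have a4 := gx_pos (M := M) (y - M)
      have a5 : (0 : ℝ) ≤ E (d - 2) := Nat.cast_nonneg _
      rw [pc_one hM0 h' (by linarith)]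
      linarith
  · have a0 := hE' (d + 3 - M) (by omega)
    refine ⟨by omega, by omega, fun y h1 h2 => ?_⟩
    have a1 := (abs_le.1 (hb (d + 3 - M) (by omega))).2
    have a2 : (M : ℝ) + 2 ≤ d := by exact_mod_cast not_lt.1 c2
    have a3 : (d : ℝ) + 4 ≤ 2 * M := by exact_mod_cast (by omega : d + 4 ≤ 2 * M)
    rw [Nat.cast_sub (by omega : M ≤ d + 3), Nat.cast_add, Nat.cast_ofNat] at a1
    have a4 : gx M (d + 3 - M) ≤ gx M (y - M) := gx_anti (by linarith)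
    rw [Nat.cast_sub (by omega), Nat.cast_ofNat, le_div_iff₀ (by positivity),
      pc_one hM0 (by linarith) (by linarith)]
    linarith
  · exact ⟨by norm_num, by norm_num, hc⟩

end Pool.Agent.Lib.MP_5db4ad_nt.S2
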