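import Pool.Agent.Lib.MP_5db4ad_nt.S2Defs2

/-!
Statements for the formula that gives the upper limit as a supremum of Fejér means.
-/

namespace Pool.Agent.Lib.MP_5db4ad_nt.S2

open Finset Filter
open scoped Real Topology

noncomputable section

/-- Fejér weights at the odd frequencies -/
def fj (N k : ℕ) : ℝ := 1 - (2 * k + 1) / (2 * N)

def fej (N : ℕ) (c : ℕ → ℂ) (u : ℝ) : ℝ := trig N (fun k => fj N k * c k) u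

/-- the Fejér kernel on `[-log 2, log 2]` -/
def fker (N : ℕ) (v : ℝ) : ℝ :=
  (1 + 2 * ∑ n ∈ Icc 1 (2 * N), (1 - (n : ℝ) / (2 * N)) * Real.cos (π * n * v / Real.log 2)) /
    (2 * Real.log 2)

/-- the residues -/
def cc (k : ℕ) : ℂ := 4 / (9 * (Real.log 2 : ℂ) * sk k * riemannZeta (sk k) ^ 2 *
  ∏' p : {p : ℕ // p.Prime ∧ p ≠ 2},
    (1 - 3 * (p : ℂ) ^ (-(2 * sk k)) + 2 * (p : ℂ) ^ (-(3 * sk k))))

def FF (w τ : ℕ × ℕ × ℕ → ℝ) (u : ℝ) : ℝ := ∑' j, w j * Pf (u - τ j)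

def coef (w τ : ℕ × ℕ × ℕ → ℝ) (k : ℕ) : ℂ :=
  (∑' j, (w j : ℂ) * ex k (-τ j)) / ((Real.log 2 : ℂ) * sk k)

def w3 (q : ℕ) (j : ℕ × ℕ × ℕ) : ℝ := hh j.1 / j.1 * ((-2 / 3) ^ j.2.1 * cw q j.2.2)

def t3 (j : ℕ × ℕ × ℕ) : ℝ := Real.log j.1 + (j.2.1 * Real.log 3 + Real.log j.2.2)

def StFejK : Prop := (∀ N : ℕ, 1 ≤ N → Continuous (fker N) ∧ (∀ v, 0 ≤ fker N v) ∧
    ∫ v in (-Real.log 2)..Real.log 2, fker N v = 1 ∧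
    ∀ x, ∫ v in (-Real.log 2)..Real.log 2, Pf (x - v) * fker N v =
      fej N (fun k => 1 / ((Real.log 2 : ℂ) * sk k)) x) ∧
  ∀ δ ε : ℝ, 0 < δ → 0 < ε → ∀ᶠ N : ℕ in atTop, ∀ v, δ ≤ |v| → |v| ≤ Real.log 2 → fker N v ≤ ε

def StFej : Prop := ∀ (w τ : ℕ × ℕ × ℕ → ℝ) (B : ℝ), Summable w →
  ((∀ u, |FF w τ u| ≤ B) ↔ ∀ N u, |fej N (coef w τ) u| ≤ B)

def StApp : Prop := (∀ q : ℕ, 24 ≤ q → Summable (w3 q)) ∧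
  ∀ ε : ℝ, 0 < ε → ∀ᶠ q : ℕ in atTop, ∀ᶠ x : ℝ in atTop,
    |SS x / x - FF (w3 q) t3 (Real.log x)| ≤ ε

def StCoef : Prop := ∀ k : ℕ, Tendsto (fun q : ℕ => coef (w3 q) t3 k) atTop (𝓝 (cc k))

end

end Pool.Agent.Lib.MP_5db4ad_nt.S2
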