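import Pool.Agent.Lib.MP_5db4ad_nt.S2Defs

/-! Approximation of the two periodic sums by trigonometric polynomials. -/

namespace Pool.Agent.Lib.MP_5db4ad_nt.S2

open Finset Filter MeasureTheory
open scoped Real

namespace KerSq

lemma l_pos : 0 < Real.log 2 := Real.log_pos one_lt_two

lemma ex_sub (k : ℕ) (u w : ℝ) : ex k (u - w) = ex k u * ex k (-w) := by
  unfold ex ext
  rw [← Complex.exp_add]
  congr 1
  push_cast
  ring

lemma hasSum_trig (M : ℕ) (a : ℕ → ℂ) {c : ℕ → ℝ} (hc : Summable fun m => |c m|) (u : ℝ) :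
    HasSum (fun m : ℕ => c m * trig M a (u - Real.log m)) (trig M (fun k => a k * hat c k) u) := by
  unfold trig
  simp only [mul_sum]
  refine hasSum_sum fun k _ => ?_
  have h1 : Summable fun m : ℕ => (c m : ℂ) * ex k (-Real.log m) := by
    refine Summable.of_norm (hc.congr fun m => ?_)
    rw [norm_mul, Complex.norm_real, ex, ext, Complex.norm_exp_ofReal_mul_I, mul_one,
      Real.norm_eq_abs]
  have h2 := (Complex.hasSum_re (h1.hasSum.mul_left (a k * ex k u))).mul_left 2
  have e1 : a k * hat c k * ex k u = a k * ex k u * hat c k := by ring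
  rw [e1]
  refine h2.congr_fun fun m => ?_
  have e2 : a k * ex k u * ((c m : ℂ) * ex k (-Real.log m)) =
      (c m : ℂ) * (a k * (ex k u * ex k (-Real.log m))) := by ring
  rw [e2, Complex.re_ofReal_mul, ex_sub]
  ring

lemma tsum_close {c f t : ℕ → ℝ} {T R : ℝ} (hT : HasSum (fun m => c m * t m) T)
    (h : ∀ F : Finset ℕ, ∑ m ∈ F, |c m| * |f m - t m| ≤ R) : |∑' m, c m * f m - T| ≤ R := by
  have h0 : (0 : ℕ → ℝ) ≤ fun m => |c m| * |f m - t m| := fun m => by positivity
  have h1 : Summable fun m => ‖c m * (f m - t m)‖ :=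
    (summable_of_sum_le h0 h).congr fun m => by rw [Real.norm_eq_abs, abs_mul]
  have h2 : HasSum (fun m => c m * f m) (∑' m, c m * (f m - t m) + T) :=
    (h1.of_norm.hasSum.add hT).congr_fun fun m => by ring
  rw [h2.tsum_eq, add_sub_cancel_right]
  refine (norm_tsum_le_tsum_norm h1).trans ?_
  simp only [Real.norm_eq_abs, abs_mul]
  exact Real.tsum_le_of_sum_le h0 h

lemma kern_cont (M : ℕ) : Continuous (kern M) := by
  unfold kern
  fun_prop

lemma kern_neg (M : ℕ) (v : ℝ) : kern M (-v) = kern M v := by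
  simp only [kern, mul_neg, neg_div, Real.cos_neg]

lemma ii_mul (M : ℕ) {f : ℝ → ℝ} (hf : Measurable f) {B : ℝ} (hB : ∀ v, |f v| ≤ B) (a b : ℝ) :
    IntervalIntegrable (fun v => f v * kern M v) volume a b :=
  ((intervalIntegrable_const (c := B)).mono_fun' hf.aestronglyMeasurable
    (Eventually.of_forall hB)).mul_continuousOn (kern_cont M).continuousOn

lemma err_le {M : ℕ} (h0 : ∀ v, 0 ≤ kern M v)
    (h1 : ∫ v in (-Real.log 2)..Real.log 2, kern M v = 1) {f : ℝ → ℝ} (x : ℝ)
    (hf : IntervalIntegrable (fun v => f v * kern M v) volume (-Real.log 2) (Real.log 2)) :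
    |x - ∫ v in (-Real.log 2)..Real.log 2, f v * kern M v| ≤
      ∫ v in (-Real.log 2)..Real.log 2, |x - f v| * kern M v := by
  have e : x - ∫ v in (-Real.log 2)..Real.log 2, f v * kern M v =
      ∫ v in (-Real.log 2)..Real.log 2, (x - f v) * kern M v := by
    simp only [sub_mul]
    rw [intervalIntegral.integral_sub (((kern_cont M).intervalIntegrable _ _).const_mul x) hf,
      intervalIntegral.integral_const_mul, h1, mul_one]
  rw [e]
  refine (intervalIntegral.abs_integral_le_integral_abs (by linarith [l_pos])).trans_eq ?_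
  simp only [abs_mul, abs_of_nonneg (h0 _)]

/-! The function `Gam` is Lipschitz. -/

lemma Gam_floor (v : ℝ) : Gam v = (-1 : ℝ) ^ ⌊v / Real.log 2⌋ *
    (2 / 3 * Real.exp (-(v - ⌊v / Real.log 2⌋ * Real.log 2)) - 1 / 2) := by
  unfold Gam Pf sq
  generalize ⌊v / Real.log 2⌋ = n
  have e : Real.exp (-(v - n * Real.log 2)) = 2 ^ n * Real.exp (-v) := by
    rw [neg_sub, sub_eq_add_neg, Real.exp_add, mul_comm (n : ℝ), ← Real.rpow_def_of_pos two_pos,
      Real.rpow_intCast]
  rw [e, show (-2 : ℝ) = -1 * 2 by norm_num, mul_zpow]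
  ring

lemma Gam_piece (n : ℤ) {v : ℝ} (h1 : n * Real.log 2 ≤ v) (h2 : v ≤ (n + 1) * Real.log 2) :
    Gam v = (-1 : ℝ) ^ n * (2 / 3 * Real.exp (-(v - n * Real.log 2)) - 1 / 2) := by
  rw [Gam_floor]
  rcases h2.lt_or_eq with h | h
  · have : ⌊v / Real.log 2⌋ = n := by
      rw [Int.floor_eq_iff, le_div_iff₀ l_pos, div_lt_iff₀ l_pos]
      exact ⟨h1, h⟩
    rw [this]
  · have : ⌊v / Real.log 2⌋ = n + 1 := by
      rw [h, mul_div_cancel_right₀ _ l_pos.ne']
      exact_mod_cast Int.floor_intCast (R := ℝ) (n + 1)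
    have e1 : -(v - ((n + 1 : ℤ) : ℝ) * Real.log 2) = 0 := by
      rw [h]
      push_cast
      ring
    have e2 : -(v - n * Real.log 2) = -Real.log 2 := by
      rw [h]
      ring
    rw [this, e1, e2, Real.exp_zero, Real.exp_neg, Real.exp_log two_pos,
      zpow_add_one₀ (by norm_num)]
    ring

lemma exp_lip {a b : ℝ} (ha : 0 ≤ a) (h : a ≤ b) : |Real.exp (-a) - Real.exp (-b)| ≤ b - a := by
  have h1 : Real.exp (-b) ≤ Real.exp (-a) := Real.exp_le_exp.2 (by linarith)
  have h2 : Real.exp (-a) ≤ 1 := Real.exp_le_one_iff.2 (by linarith)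
  have h3 : Real.exp (-b) = Real.exp (-a) * Real.exp (a - b) := by
    rw [← Real.exp_add]
    congr 1
    ring
  have h4 := Real.add_one_le_exp (a - b)
  have h5 := Real.exp_pos (-a)
  rw [abs_of_nonneg (by linarith), h3]
  nlinarith

lemma abs_sign (n : ℤ) : |(-1 : ℝ) ^ n| = 1 := by
  rw [abs_zpow]
  simp

lemma Gam_lip0 (n : ℤ) {x y : ℝ} (h1 : n * Real.log 2 ≤ x) (h : x ≤ y)
    (h2 : y ≤ (n + 1) * Real.log 2) : |Gam x - Gam y| ≤ 2 / 3 * (y - x) := by
  rw [Gam_piece n h1 (h.trans h2), Gam_piece n (h1.trans h) h2, ← mul_sub, abs_mul, abs_sign,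
    one_mul, sub_sub_sub_cancel_right, ← mul_sub, abs_mul, abs_of_pos (by norm_num : (0 : ℝ) < 2 / 3)]
  have := exp_lip (a := x - n * Real.log 2) (b := y - n * Real.log 2) (by linarith) (by linarith)
  linarith

lemma Gam_lip1 {x y : ℝ} (h : x ≤ y) (h2 : y ≤ x + Real.log 2) :
    |Gam x - Gam y| ≤ 2 / 3 * (y - x) := by
  have a1 : (⌊x / Real.log 2⌋ : ℝ) * Real.log 2 ≤ x := (le_div_iff₀ l_pos).1 (Int.floor_le _)
  have a2 : x ≤ (⌊x / Real.log 2⌋ + 1) * Real.log 2 :=
    (div_le_iff₀ l_pos).1 (Int.lt_floor_add_one _).le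
  generalize ⌊x / Real.log 2⌋ = n at a1 a2
  rcases le_total y ((n + 1) * Real.log 2) with h3 | h3
  · exact Gam_lip0 n a1 h h3
  · have b1 := Gam_lip0 n a1 a2 le_rfl
    have b2 := Gam_lip0 (n + 1) (x := (n + 1) * Real.log 2) (y := y) (by push_cast; rfl) h3
      (by push_cast; linarith)
    linarith [abs_sub_le (Gam x) (Gam ((n + 1) * Real.log 2)) (Gam y)]

lemma Gam_lip (x : ℝ) {v : ℝ} (h : |v| ≤ Real.log 2) : |Gam x - Gam (x - v)| ≤ 2 / 3 * |v| := by
  rcases le_total 0 v with hv | hv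
  · rw [abs_of_nonneg hv] at h ⊢
    have := Gam_lip1 (x := x - v) (y := x) (by linarith) (by linarith)
    rw [abs_sub_comm]
    linarith
  · rw [abs_of_nonpos hv] at h ⊢
    have := Gam_lip1 (x := x) (y := x - v) (by linarith) (by linarith)
    linarith

lemma Gam_abs (v : ℝ) : |Gam v| ≤ 2 := by
  have a1 : (⌊v / Real.log 2⌋ : ℝ) * Real.log 2 ≤ v := (le_div_iff₀ l_pos).1 (Int.floor_le _)
  have h2 : Real.exp (-(v - ⌊v / Real.log 2⌋ * Real.log 2)) ≤ 1 :=
    Real.exp_le_one_iff.2 (by linarith)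
  have h3 := Real.exp_pos (-(v - ⌊v / Real.log 2⌋ * Real.log 2))
  rw [Gam_floor, abs_mul, abs_sign, one_mul, abs_le]
  constructor <;> linarith

lemma meas_zpow (r : ℝ) : Measurable fun v : ℝ => r ^ ⌊v / Real.log 2⌋ :=
  (measurable_of_countable fun n : ℤ => r ^ n).comp (measurable_id.div_const _).floor

lemma sq_meas : Measurable sq := meas_zpow _

lemma Gam_meas : Measurable Gam :=
  (((meas_zpow (-2)).const_mul _).mul measurable_neg.exp).sub (sq_meas.div_const _)

lemma abs_sq (v : ℝ) : |sq v| = 1 := abs_sign _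

/-- The jump indicator. -/
noncomputable def ph (x v : ℝ) : ℝ := |sq x / 2 - sq (x - v) / 2|

lemma ph_meas (x : ℝ) : Measurable (ph x) :=
  (measurable_const.sub ((sq_meas.comp (measurable_const.sub measurable_id)).div_const _)).abs

lemma ph_le (x v : ℝ) : ph x v ≤ 1 := by
  have := abs_sub (sq x / 2) (sq (x - v) / 2)
  rw [abs_div, abs_div, abs_sq, abs_sq, abs_two] at this
  unfold ph
  linarith

lemma ph_abs (x v : ℝ) : |ph x v| ≤ 1 := by
  rw [ph, abs_abs]
  exact ph_le x v

lemma ph_pos (x : ℝ) {w : ℝ} (hw : 0 ≤ w) :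
    ph x w ≤ if |x - ⌊x / Real.log 2⌋ * Real.log 2| ≤ w then 1 else 0 := by
  split_ifs with h
  · exact ph_le x w
  · have a1 : (⌊x / Real.log 2⌋ : ℝ) * Real.log 2 ≤ x := (le_div_iff₀ l_pos).1 (Int.floor_le _)
    have a2 : x < (⌊x / Real.log 2⌋ + 1) * Real.log 2 :=
      (div_lt_iff₀ l_pos).1 (Int.lt_floor_add_one _)
    rw [abs_of_nonneg (by linarith), not_le] at h
    have : ⌊(x - w) / Real.log 2⌋ = ⌊x / Real.log 2⌋ := by
      rw [Int.floor_eq_iff, le_div_iff₀ l_pos, div_lt_iff₀ l_pos]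
      constructor <;> linarith
    simp [ph, sq, this]

lemma ph_neg (x : ℝ) {w : ℝ} (hw : 0 ≤ w) :
    ph x (-w) ≤ if |x - ((⌊x / Real.log 2⌋ + 1 : ℤ) : ℝ) * Real.log 2| ≤ w then 1 else 0 := by
  split_ifs with h
  · exact ph_le x _
  · have a1 : (⌊x / Real.log 2⌋ : ℝ) * Real.log 2 ≤ x := (le_div_iff₀ l_pos).1 (Int.floor_le _)
    have a2 : x < (⌊x / Real.log 2⌋ + 1) * Real.log 2 :=
      (div_lt_iff₀ l_pos).1 (Int.lt_floor_add_one _)
    push_cast at h
    rw [abs_of_nonpos (by linarith), not_le] at h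
    have : ⌊(x - -w) / Real.log 2⌋ = ⌊x / Real.log 2⌋ := by
      rw [Int.floor_eq_iff, le_div_iff₀ l_pos, div_lt_iff₀ l_pos]
      constructor <;> linarith
    rw [ph, sq, sq, this, sub_self, abs_zero]

lemma win_pos {c : ℕ → ℝ} {a b C : ℝ} (hW : Win c a b C) (u : ℝ) (F : Finset ℕ) {w : ℝ}
    (hw : 0 ≤ w) (hw' : w ≤ Real.log 2) :
    ∑ m ∈ F, |c m| * (ph (u - Real.log m) w + ph (u - Real.log m) (-w)) ≤
      2 * a * w + b + C * w ^ 2 := by
  classical
  let n : ℕ → ℤ := fun m => ⌊(u - Real.log m) / Real.log 2⌋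
  let P : ℕ × ℤ → Prop := fun z => |u - Real.log z.1 - z.2 * Real.log 2| ≤ w
  have h := hW u w hw hw' ((F.image (fun m => (m, n m)) ∪ F.image fun m => (m, n m + 1)).filter P)
    fun z hz => (mem_filter.1 hz).2
  refine le_trans ?_ h
  have hd : Disjoint (F.image fun m => (m, n m)) (F.image fun m => (m, n m + 1)) := by
    rw [disjoint_left]
    intro z h1 h2
    obtain ⟨m, -, rfl⟩ := mem_image.1 h1
    obtain ⟨m', -, e⟩ := mem_image.1 h2
    obtain ⟨rfl, e2⟩ := Prod.mk.inj e
    omega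
  rw [sum_filter, sum_union hd, sum_image fun x _ y _ e => (Prod.mk.inj e).1,
    sum_image fun x _ y _ e => (Prod.mk.inj e).1, ← sum_add_distrib]
  refine sum_le_sum fun m _ => ?_
  rw [mul_add]
  refine add_le_add ?_ ?_
  · refine (mul_le_mul_of_nonneg_left (ph_pos _ hw) (abs_nonneg _)).trans_eq ?_
    rw [mul_ite, mul_one, mul_zero]
  · refine (mul_le_mul_of_nonneg_left (ph_neg _ hw) (abs_nonneg _)).trans_eq ?_
    rw [mul_ite, mul_one, mul_zero]

lemma win_abs {c : ℕ → ℝ} {a b C : ℝ} (hW : Win c a b C) (u : ℝ) (F : Finset ℕ) {v : ℝ}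
    (hv : |v| ≤ Real.log 2) :
    ∑ m ∈ F, |c m| * (ph (u - Real.log m) v + ph (u - Real.log m) (-v)) ≤
      2 * a * |v| + b + C * v ^ 2 := by
  have h := win_pos hW u F (abs_nonneg v) hv
  rw [sq_abs v] at h
  refine le_trans (le_of_eq ?_) h
  rcases abs_choice v with e | e
  · rw [e]
  · simp only [e, neg_neg, add_comm]

lemma ph_symm (M : ℕ) (x : ℝ) : ∫ v in (-Real.log 2)..Real.log 2, ph x v * kern M v =
    (∫ v in (-Real.log 2)..Real.log 2, (ph x v + ph x (-v)) * kern M v) / 2 := by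
  have e := intervalIntegral.integral_comp_neg (a := -Real.log 2) (b := Real.log 2)
    fun v => ph x v * kern M v
  simp only [kern_neg, neg_neg] at e
  simp only [add_mul]
  rw [intervalIntegral.integral_add (ii_mul M (ph_meas x) (ph_abs x) _ _)
    (ii_mul M (f := fun v => ph x (-v)) ((ph_meas x).comp measurable_neg)
      (fun v => ph_abs x _) _ _), e]
  ring

end KerSq

open KerSq

theorem kerSq (h0 : StKer0) (h1 : StKer1) : StKerSq := by
  intro M c a b C u hM ha hC hc hW
  obtain ⟨k0, k1, k2, k3⟩ := h0 M hM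
  refine tsum_close (hasSum_trig M _ hc u) fun F => ?_
  have hi : ∀ x, IntervalIntegrable (fun v => (ph x v + ph x (-v)) * kern M v) volume
      (-Real.log 2) (Real.log 2) := fun x =>
    ii_mul M (f := fun v => ph x v + ph x (-v)) ((ph_meas x).add ((ph_meas x).comp measurable_neg))
      (B := 1 + 1) (fun v => (abs_add_le _ _).trans (add_le_add (ph_abs x _) (ph_abs x _))) _ _
  have e1 : ∀ x, |sq x / 2 - trig M (fun k => Kf (2 * M) (2 * k + 1) * cs k) x| ≤
      (∫ v in (-Real.log 2)..Real.log 2, (ph x v + ph x (-v)) * kern M v) / 2 := fun x => by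
    rw [← (h1 M x).1, ← ph_symm]
    refine err_le k0 k1 (f := fun v => sq (x - v) / 2) _ (ii_mul M (f := fun v => sq (x - v) / 2)
      ((sq_meas.comp (measurable_const.sub measurable_id)).div_const _) (B := 1) (fun v => ?_) _ _)
    rw [abs_div, abs_sq]
    norm_num
  have c0 := (kern_cont M).intervalIntegrable (μ := volume) (-Real.log 2) (Real.log 2)
  have c1 : IntervalIntegrable (fun v => |v| * kern M v) volume (-Real.log 2) (Real.log 2) :=
    (continuous_abs.mul (kern_cont M)).intervalIntegrable _ _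
  have c2 : IntervalIntegrable (fun v => v ^ 2 * kern M v) volume (-Real.log 2) (Real.log 2) :=
    ((continuous_pow 2).mul (kern_cont M)).intervalIntegrable _ _
  have e2 : ∑ m ∈ F, |c m| * ∫ v in (-Real.log 2)..Real.log 2,
      (ph (u - Real.log m) v + ph (u - Real.log m) (-v)) * kern M v ≤
        ∫ v in (-Real.log 2)..Real.log 2,
          (2 * a * (|v| * kern M v) + b * kern M v + C * (v ^ 2 * kern M v)) := by
    simp only [← intervalIntegral.integral_const_mul]
    rw [← intervalIntegral.integral_finsetSum fun m _ => (hi _).const_mul _]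
    refine intervalIntegral.integral_mono_on (by linarith [l_pos]) ?_
      (((c1.const_mul _).add (c0.const_mul _)).add (c2.const_mul _)) fun v hv => ?_
    · have := IntervalIntegrable.sum F fun m _ => (hi (u - Real.log m)).const_mul |c m|
      rwa [sum_fn] at this
    · have := mul_le_mul_of_nonneg_right (win_abs hW u F (abs_le.2 hv)) (k0 v)
      rw [sum_mul] at this
      simp only [← mul_assoc]
      linarith
  rw [intervalIntegral.integral_add ((c1.const_mul _).add (c0.const_mul _)) (c2.const_mul _),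
    intervalIntegral.integral_add (c1.const_mul _) (c0.const_mul _),
    intervalIntegral.integral_const_mul, intervalIntegral.integral_const_mul,
    intervalIntegral.integral_const_mul, k1] at e2
  have e3 := sum_le_sum fun m (_ : m ∈ F) =>
    mul_le_mul_of_nonneg_left (e1 (u - Real.log m)) (abs_nonneg (c m))
  simp only [← mul_div_assoc, ← sum_div] at e3
  have e4 := mul_le_mul_of_nonneg_left k2 ha
  have e5 := mul_le_mul_of_nonneg_left k3 hC
  have e6 : (1.202 : ℝ) / (2 * M) ^ 2 = 2 * (0.601 / (2 * M) ^ 2) := by ring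
  rw [e6] at e5
  linarith

theorem kerGam (h0 : StKer0) (h1 : StKer1) : StKerGam := by
  intro M c u hM hc
  obtain ⟨k0, k1, k2, -⟩ := h0 M hM
  refine tsum_close (hasSum_trig M _ hc u) fun F => ?_
  have hM' : (0 : ℝ) < M := by exact_mod_cast hM
  have c1 : IntervalIntegrable (fun v => |v| * kern M v) volume (-Real.log 2) (Real.log 2) :=
    (continuous_abs.mul (kern_cont M)).intervalIntegrable _ _
  have e1 : ∀ x, |Gam x - trig M (fun k => Kf (2 * M) (2 * k + 1) * cg k) x| ≤ 0.36 / (2 * M) := by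
    intro x
    have hm : Measurable fun v => Gam (x - v) := Gam_meas.comp (measurable_const.sub measurable_id)
    rw [← (h1 M x).2]
    refine (err_le k0 k1 (f := fun v => Gam (x - v)) _
      (ii_mul M hm (fun v => Gam_abs _) _ _)).trans ?_
    refine (intervalIntegral.integral_mono_on (by linarith [l_pos])
      (ii_mul M (f := fun v => |Gam x - Gam (x - v)|) (measurable_const.sub hm).abs (B := 2 + 2)
        (fun v => ?_) _ _) (c1.const_mul (2 / 3)) fun v hv => ?_).trans ?_
    · rw [abs_abs]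
      exact (abs_sub _ _).trans (add_le_add (Gam_abs _) (Gam_abs _))
    · rw [← mul_assoc]
      exact mul_le_mul_of_nonneg_right (Gam_lip x (abs_le.2 hv)) (k0 v)
    · rw [intervalIntegral.integral_const_mul]
      have e : (0.36 : ℝ) / (2 * M) = 2 / 3 * (0.5268 / (2 * M)) + 0.0088 / (2 * M) := by ring
      have : (0 : ℝ) ≤ 0.0088 / (2 * M) := by positivity
      linarith
  refine (sum_le_sum fun m _ => mul_le_mul_of_nonneg_left (e1 _) (abs_nonneg _)).trans ?_
  rw [← sum_mul]
  exact mul_le_mul_of_nonneg_right (hc.sum_le_tsum F fun m _ => abs_nonneg _) (by positivity)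

end Pool.Agent.Lib.MP_5db4ad_nt.S2
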