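import Pool.Agent.Lib.MP_5db4ad_nt.S2FSt
import Pool.Agent.Lib.MP_5db4ad_nt.S2Final
import Pool.Agent.Lib.MP_5db4ad_nt.S2KerSq

/-! A bound for the limit function is the same as a bound for all its Fejér means. -/

namespace Pool.Agent.Lib.MP_5db4ad_nt.S2

open Finset Filter MeasureTheory
open scoped Real Topology

namespace Fej

variable {w τ : ℕ × ℕ × ℕ → ℝ}

lemma Pf_meas : Measurable Pf :=
  ((KerSq.meas_zpow (-2)).const_mul _).mul measurable_neg.exp

lemma term_le (j : ℕ × ℕ × ℕ) (x : ℝ) : ‖w j * Pf x‖ ≤ |w j| * (2 / 3) := by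
  rw [Real.norm_eq_abs, abs_mul]
  exact mul_le_mul_of_nonneg_left (Final.abs_Pf _) (abs_nonneg _)

lemma summ (hw : Summable w) (u : ℝ) : Summable fun j => w j * Pf (u - τ j) :=
  Summable.of_norm_bounded (hw.abs.mul_right (2 / 3)) fun j => term_le j _

lemma FF_abs (hw : Summable w) (u : ℝ) : |FF w τ u| ≤ ∑' j, |w j| * (2 / 3) :=
  tsum_of_norm_bounded (hw.abs.mul_right (2 / 3)).hasSum fun j => term_le j _

lemma FF_meas (hw : Summable w) : Measurable (FF w τ) := by
  refine measurable_of_tendsto_metrizable' (atTop : Filter (Finset (ℕ × ℕ × ℕ)))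
    (f := fun S u => ∑ j ∈ S, w j * Pf (u - τ j)) (fun S => ?_) ?_
  · exact Finset.measurable_sum S fun j _ =>
      (Pf_meas.comp (measurable_id.sub_const _)).const_mul _
  · exact tendsto_pi_nhds.2 fun u => (summ hw u).hasSum

lemma Pf_right (x : ℝ) : Tendsto Pf (𝓝[≥] x) (𝓝 (Pf x)) := by
  have h1 : Tendsto (fun v : ℝ => v / Real.log 2) (𝓝[≥] x) (𝓝[≥] (x / Real.log 2)) := by
    refine tendsto_nhdsWithin_iff.2 ⟨?_, ?_⟩
    · exact ((continuous_id.div_const _).tendsto x).mono_left nhdsWithin_le_nhds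
    · filter_upwards [self_mem_nhdsWithin] with v hv
      exact div_le_div_of_nonneg_right hv KerSq.l_pos.le
  have h2 := (tendsto_floor_right_pure_floor (x / Real.log 2)).comp h1
  rw [tendsto_pure] at h2
  have h3 : Tendsto (fun v : ℝ => 2 / 3 * (-2 : ℝ) ^ ⌊x / Real.log 2⌋ * Real.exp (-v)) (𝓝[≥] x)
      (𝓝 (Pf x)) :=
    ((continuous_const.mul continuous_neg.rexp).tendsto x).mono_left nhdsWithin_le_nhds
  refine h3.congr' ?_
  filter_upwards [h2] with v hv
  rw [Pf, show ⌊v / Real.log 2⌋ = ⌊x / Real.log 2⌋ from hv]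

lemma FF_right (hw : Summable w) (u : ℝ) : Tendsto (FF w τ) (𝓝[≥] u) (𝓝 (FF w τ u)) := by
  refine tendsto_tsum_of_dominated_convergence (hw.abs.mul_right (2 / 3)) (fun j => ?_)
    (Eventually.of_forall fun y j => term_le j _)
  refine Tendsto.const_mul _ ((Pf_right (u - τ j)).comp ?_)
  refine tendsto_nhdsWithin_iff.2 ⟨?_, ?_⟩
  · exact ((continuous_id.sub continuous_const).tendsto u).mono_left nhdsWithin_le_nhds
  · filter_upwards [self_mem_nhdsWithin] with v hv
    exact sub_le_sub_right (Set.mem_Ici.1 hv) _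

lemma hasSum_fej (hw : Summable w) (N : ℕ) (u : ℝ) :
    HasSum (fun j => w j * fej N (fun k => 1 / ((Real.log 2 : ℂ) * sk k)) (u - τ j))
      (fej N (coef w τ) u) := by
  unfold fej trig
  simp only [mul_sum]
  refine hasSum_sum fun k _ => ?_
  have h1 : Summable fun j => (w j : ℂ) * ex k (-τ j) := by
    refine Summable.of_norm (hw.abs.congr fun j => ?_)
    rw [norm_mul, Complex.norm_real, Final.norm_ex, mul_one, Real.norm_eq_abs]
  have h2 := (Complex.hasSum_re (h1.hasSum.mul_left
    (fj N k * (1 / ((Real.log 2 : ℂ) * sk k)) * ex k u))).mul_left 2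
  have e1 : fj N k * coef w τ k * ex k u =
      fj N k * (1 / ((Real.log 2 : ℂ) * sk k)) * ex k u * ∑' j, (w j : ℂ) * ex k (-τ j) := by
    unfold coef
    ring
  rw [e1]
  refine h2.congr_fun fun j => ?_
  have e2 : fj N k * (1 / ((Real.log 2 : ℂ) * sk k)) * ex k u * ((w j : ℂ) * ex k (-τ j)) =
      (w j : ℂ) * (fj N k * (1 / ((Real.log 2 : ℂ) * sk k)) * (ex k u * ex k (-τ j))) := by ring
  rw [e2, Complex.re_ofReal_mul, KerSq.ex_sub]
  ring

lemma fej_eq (h : StFejK) (hw : Summable w) {N : ℕ} (hN : 1 ≤ N) (u : ℝ) :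
    fej N (coef w τ) u = ∫ v in (-Real.log 2)..Real.log 2, FF w τ (u - v) * fker N v := by
  obtain ⟨k0, k1, -, k3⟩ := h.1 N hN
  refine (hasSum_fej hw N u).unique ?_
  have hs := hw.abs.mul_right (2 / 3)
  have key := intervalIntegral.hasSum_integral_of_dominated_convergence (μ := volume)
    (a := -Real.log 2) (b := Real.log 2) (F := fun j v => w j * Pf (u - v - τ j) * fker N v)
    (f := fun v => FF w τ (u - v) * fker N v) (fun j v => |w j| * (2 / 3) * fker N v)
    (fun j => (((Pf_meas.comp ((measurable_const.sub measurable_id).sub_const _)).const_mul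
      _).mul k0.measurable).aestronglyMeasurable)
    (fun j => Eventually.of_forall fun v _ => by
      rw [norm_mul, Real.norm_of_nonneg (k1 v)]
      exact mul_le_mul_of_nonneg_right (term_le j _) (k1 v))
    (Eventually.of_forall fun v _ => hs.mul_right _)
    (by
      simp only [tsum_mul_right]
      exact (continuous_const.mul k0).intervalIntegrable _ _)
    (Eventually.of_forall fun v _ => (summ hw (u - v)).hasSum.mul_right _)
  refine key.congr_fun fun j => ?_
  rw [← k3, ← intervalIntegral.integral_const_mul]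
  refine intervalIntegral.integral_congr fun v _ => ?_
  simp only [mul_assoc, sub_right_comm]

lemma close (h : StFejK) (hw : Summable w) (u : ℝ) {ε : ℝ} (hε : 0 < ε) :
    ∃ N u', |fej N (coef w τ) u' - FF w τ u| ≤ 2 * ε := by
  have hl := KerSq.l_pos
  obtain ⟨S, hS⟩ : ∃ S, ∀ y, |FF w τ y| ≤ S := ⟨_, FF_abs hw⟩
  have hS0 : 0 ≤ S := (abs_nonneg _).trans (hS 0)
  obtain ⟨δ, hδ, hd⟩ := Metric.tendsto_nhdsWithin_nhds.1 (FF_right (τ := τ) hw u) ε hε
  obtain ⟨η, hη, hη'⟩ : ∃ η : ℝ, 0 < η ∧ 2 * S * η * (2 * Real.log 2) ≤ ε := by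
    refine ⟨ε / ((2 * S + 1) * (2 * Real.log 2)), by positivity, ?_⟩
    have e : 2 * S * (ε / ((2 * S + 1) * (2 * Real.log 2))) * (2 * Real.log 2) =
        ε * (2 * S / (2 * S + 1)) := by field_simp
    rw [e]
    exact mul_le_of_le_one_right hε.le ((div_le_one (by positivity)).2 (by linarith))
  obtain ⟨N, hN1, hN⟩ := ((eventually_ge_atTop 1).and (h.2 (δ / 2) η (by positivity) hη)).exists
  obtain ⟨k0, k1, k2, -⟩ := h.1 N hN1
  refine ⟨N, u + δ / 2, ?_⟩
  have hi : IntervalIntegrable (fun v => FF w τ (u + δ / 2 - v) * fker N v) volume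
      (-Real.log 2) (Real.log 2) :=
    ((intervalIntegrable_const (c := S)).mono_fun'
      ((FF_meas hw).comp (measurable_const.sub measurable_id)).aestronglyMeasurable
      (Eventually.of_forall fun v => hS _)).mul_continuousOn k0.continuousOn
  have c0 := k0.intervalIntegrable (μ := volume) (-Real.log 2) (Real.log 2)
  have e : fej N (coef w τ) (u + δ / 2) - FF w τ u =
      ∫ v in (-Real.log 2)..Real.log 2, (FF w τ (u + δ / 2 - v) - FF w τ u) * fker N v := by
    simp only [sub_mul]
    rw [intervalIntegral.integral_sub hi (c0.const_mul _), intervalIntegral.integral_const_mul, k2,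
      mul_one, fej_eq h hw hN1]
  rw [e, ← Real.norm_eq_abs]
  refine (intervalIntegral.norm_integral_le_of_norm_le (g := fun v => ε * fker N v + 2 * S * η)
    (by linarith) (Eventually.of_forall fun v hv => ?_)
    ((c0.const_mul _).add intervalIntegrable_const)).trans ?_
  · rw [norm_mul, Real.norm_of_nonneg (k1 v), Real.norm_eq_abs]
    have p1 : 0 ≤ ε * fker N v := mul_nonneg hε.le (k1 v)
    have p2 : 0 ≤ 2 * S * η := by positivity
    rcases lt_or_ge |v| (δ / 2) with hv1 | hv1
    · obtain ⟨a1, a2⟩ := abs_lt.1 hv1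
      have := hd (x := u + δ / 2 - v) (by simp only [Set.mem_Ici]; linarith)
        (by rw [Real.dist_eq, abs_lt]; constructor <;> linarith)
      rw [Real.dist_eq] at this
      have := mul_le_mul_of_nonneg_right this.le (k1 v)
      linarith
    · have b1 := hN v hv1 (abs_le.2 ⟨hv.1.le, hv.2⟩)
      have b2 : |FF w τ (u + δ / 2 - v) - FF w τ u| ≤ 2 * S :=
        (abs_sub _ _).trans (by linarith [hS (u + δ / 2 - v), hS u])
      have := mul_le_mul b2 b1 (k1 v) (by positivity)
      linarith
  · rw [intervalIntegral.integral_add (c0.const_mul _) intervalIntegrable_const,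
      intervalIntegral.integral_const_mul, k2, intervalIntegral.integral_const, smul_eq_mul]
    linarith

end Fej

theorem fejOk (h : StFejK) : StFej := by
  intro w τ B hw
  constructor
  · intro hB N u
    rcases Nat.eq_zero_or_pos N with rfl | hN
    · simpa [fej, trig] using (abs_nonneg _).trans (hB 0)
    · obtain ⟨k0, k1, k2, -⟩ := h.1 N hN
      rw [Fej.fej_eq h hw hN, ← Real.norm_eq_abs]
      refine (intervalIntegral.norm_integral_le_of_norm_le (g := fun v => B * fker N v)
        (by linarith [KerSq.l_pos]) (Eventually.of_forall fun v _ => ?_)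
        ((k0.intervalIntegrable _ _).const_mul _)).trans_eq ?_
      · rw [norm_mul, Real.norm_of_nonneg (k1 v)]
        exact mul_le_mul_of_nonneg_right (hB _) (k1 v)
      · rw [intervalIntegral.integral_const_mul, k2, mul_one]
  · intro hB u
    refine le_of_forall_pos_le_add fun ε hε => ?_
    obtain ⟨N, u', hc⟩ := Fej.close (τ := τ) h hw u (half_pos hε)
    have h1 := hB N u'
    have h2 := abs_sub_abs_le_abs_sub (FF w τ u) (fej N (coef w τ) u')
    rw [abs_sub_comm] at hc
    linarith

end Pool.Agent.Lib.MP_5db4ad_nt.S2
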