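import Pool.Agent.Lib.MP_5db4ad_nt.S2Defs

/-!
Convolution of the antiperiodic functions `sq / 2` and `Gam` with the kernel `kern M`.
-/

namespace Pool.Agent.Lib.MP_5db4ad_nt.S2

open Finset MeasureTheory intervalIntegral
open scoped Real

namespace Ker1

lemma lpos : 0 < Real.log 2 := Real.log_pos (by norm_num)

/-- a function that is multiplied by a sign under the shift by `l` -/
lemma key (G g : ℝ → ℝ) (l ε x : ℝ) (hl : 0 < l) (hε : ε * ε = 1)
    (hG : ∀ w, G (w + l) = ε * G w) (hg : Continuous g) (he : ∀ w, 0 ≤ w → w < l → G w = g w) :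
    IntervalIntegrable (fun v => G (x - v)) volume (-l) l ∧
      ∫ v in (-l)..l, G (x - v) = (1 + ε) * ∫ w in (0 : ℝ)..l, g w := by
  have hae : ∀ᵐ w : ℝ, w ∈ Set.uIoc 0 l → G w = g w := by
    have h1 : ∀ᵐ w : ℝ, w ≠ l := by
      rw [ae_iff]; simp
    filter_upwards [h1] with w hw hw2
    rw [Set.uIoc_of_le hl.le] at hw2
    exact he w hw2.1.le (lt_of_le_of_ne hw2.2 hw)
  have h0 : IntervalIntegrable G volume 0 l := by
    refine (hg.intervalIntegrable 0 l).congr_ae ?_
    rw [Filter.EventuallyEq, ae_restrict_iff' measurableSet_uIoc]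
    filter_upwards [hae] with w hw hw2 using (hw hw2).symm
  have hI0 : ∫ w in (0 : ℝ)..l, G w = ∫ w in (0 : ℝ)..l, g w := integral_congr_ae hae
  have hfun : G = fun w => ε * G (w - l) := by
    funext w
    rw [← hG, sub_add_cancel]
  have h1 : IntervalIntegrable G volume l (l + l) := by
    rw [hfun]
    have := (h0.comp_sub_right l).const_mul ε
    simpa using this
  have hI1 : ∫ w in l..(l + l), G w = ε * ∫ w in (0 : ℝ)..l, G w := by
    have h2 : ∫ w in l..(l + l), G w = ∫ w in l..(l + l), ε * G (w - l) := by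
      conv_lhs => rw [hfun]
    rw [h2, intervalIntegral.integral_const_mul, integral_comp_sub_right]
    simp
  have hper : Function.Periodic G (l + l) := by
    intro w
    rw [← add_assoc, hG, hG, ← mul_assoc, hε, one_mul]
  have hall : ∀ a b, IntervalIntegrable G volume a b :=
    hper.intervalIntegrable₀ (by positivity) (h0.trans h1)
  refine ⟨?_, ?_⟩
  · have := (hall (x + l) (x - l)).comp_sub_left x
    simpa using this
  · rw [integral_comp_sub_left G x]
    have h3 := hper.intervalIntegral_add_eq (x - l) 0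
    have e1 : x - l + (l + l) = x - -l := by ring
    rw [e1, zero_add] at h3
    rw [h3, ← integral_add_adjacent_intervals h0 h1, hI1, hI0]
    ring

lemma sum_odd (h : ℕ → ℝ) (he : ∀ k, h (2 * k + 2) = 0) (M : ℕ) :
    ∑ n ∈ Icc 1 (2 * M), h n = ∑ k ∈ range M, h (2 * k + 1) := by
  induction M with
  | zero => simp
  | succ M ih =>
    have e : 2 * (M + 1) = 2 * M + 1 + 1 := by ring
    rw [e, Finset.sum_Icc_succ_top (by omega), Finset.sum_Icc_succ_top (by omega), ih,
      sum_range_succ, he M, add_zero]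

lemma gen (f g : ℝ → ℝ) (c : ℕ → ℂ) (hf : ∀ w, f (w + Real.log 2) = -f w) (hg : Continuous g)
    (he : ∀ w, 0 ≤ w → w < Real.log 2 → f w = g w) (M : ℕ) (x : ℝ)
    (hc : ∀ k, ∫ w in (0 : ℝ)..Real.log 2, g w * Real.cos (tk k * (x - w)) =
      Real.log 2 * (c k * ex k x).re) :
    ∫ v in (-Real.log 2)..Real.log 2, f (x - v) * kern M v =
      trig M (fun k => Kf (2 * M) (2 * k + 1) * c k) x := by
  have hl := lpos
  set l := Real.log 2 with hld
  have hn : ∀ n : ℕ, IntervalIntegrable (fun v => f (x - v) * Real.cos (π * n * v / l))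
      volume (-l) l ∧ ∫ v in (-l)..l, f (x - v) * Real.cos (π * n * v / l) =
        (1 - (-1) ^ n) * ∫ w in (0 : ℝ)..l, g w * Real.cos (π * n * (x - w) / l) := by
    intro n
    have h := key (fun w => f w * Real.cos (π * n * (x - w) / l))
      (fun w => g w * Real.cos (π * n * (x - w) / l)) l (-(-1) ^ n) x hl
      (by rw [neg_mul_neg, ← mul_pow]; simp)
      (by
        intro w
        have e : π * n * (x - (w + l)) / l = π * n * (x - w) / l - n * π := by
          field_simp; ring
        simp only [hf, e, Real.cos_sub_nat_mul_pi]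
        ring)
      (by fun_prop)
      (by intro w h1 h2; simp only [he w h1 h2])
    simpa [sub_eq_add_neg] using h
  have h0 := hn 0
  simp only [Nat.cast_zero, mul_zero, zero_mul, zero_div, Real.cos_zero, mul_one, pow_zero,
    sub_self] at h0
  have hexp : (fun v => f (x - v) * kern M v) = fun v => (2 * l)⁻¹ * (f (x - v) +
      ∑ n ∈ Icc 1 (2 * M), 2 * Kf (2 * M) n * (f (x - v) * Real.cos (π * n * v / l))) := by
    funext v
    unfold kern
    rw [← hld, div_eq_mul_inv, ← mul_assoc, mul_comm _ (2 * l)⁻¹, mul_add, mul_one, mul_sum, mul_sum]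
    congr 2
    refine sum_congr rfl fun n _ => by ring
  have hint : ∀ n ∈ Icc 1 (2 * M), IntervalIntegrable
      (fun v => 2 * Kf (2 * M) n * (f (x - v) * Real.cos (π * n * v / l))) volume (-l) l :=
    fun n _ => (hn n).1.const_mul _
  have hsum : IntervalIntegrable (fun v => ∑ n ∈ Icc 1 (2 * M),
      2 * Kf (2 * M) n * (f (x - v) * Real.cos (π * n * v / l))) volume (-l) l := by
    have := IntervalIntegrable.sum (Icc 1 (2 * M)) hint
    rwa [Finset.sum_fn] at this
  rw [hexp, intervalIntegral.integral_const_mul, intervalIntegral.integral_add h0.1 hsum, h0.2,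
    intervalIntegral.integral_finsetSum hint, zero_add]
  simp only [intervalIntegral.integral_const_mul, fun n => (hn n).2]
  rw [sum_odd _ (by
    intro k
    have : (-1 : ℝ) ^ (2 * k + 2) = 1 := by rw [pow_add, pow_mul]; norm_num
    rw [this]; simp)]
  unfold trig
  rw [mul_sum]
  refine sum_congr rfl fun k _ => ?_
  have e1 : (-1 : ℝ) ^ (2 * k + 1) = -1 := by rw [pow_add, pow_mul]; norm_num
  have e2 : ∀ w, π * ((2 * k + 1 : ℕ) : ℝ) * (x - w) / l = tk k * (x - w) := by
    intro w
    unfold tk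
    rw [← hld]
    push_cast
    ring
  simp only [e1, e2, hc k]
  rw [mul_assoc (Kf (2 * M) (2 * k + 1) : ℂ), Complex.re_ofReal_mul]
  field_simp
  ring

lemma tk_pos (k : ℕ) : 0 < tk k := by
  have := lpos
  unfold tk
  positivity

lemma tk_mul (k : ℕ) : tk k * Real.log 2 = ((2 * k + 1 : ℕ) : ℝ) * π := by
  have := lpos
  unfold tk
  push_cast
  field_simp

lemma cos_end (k : ℕ) (x : ℝ) : Real.cos (tk k * (x - Real.log 2)) = -Real.cos (tk k * x) := by
  rw [mul_sub, tk_mul, Real.cos_sub_nat_mul_pi, pow_add, pow_mul]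
  norm_num

lemma sin_end (k : ℕ) (x : ℝ) : Real.sin (tk k * (x - Real.log 2)) = -Real.sin (tk k * x) := by
  rw [mul_sub, tk_mul, Real.sin_sub_nat_mul_pi, pow_add, pow_mul]
  norm_num

lemma int_one (k : ℕ) (x : ℝ) :
    ∫ w in (0 : ℝ)..Real.log 2, Real.cos (tk k * (x - w)) = 2 * Real.sin (tk k * x) / tk k := by
  have ht := (tk_pos k).ne'
  have hd : ∀ w ∈ Set.uIcc (0 : ℝ) (Real.log 2),
      HasDerivAt (fun w => -Real.sin (tk k * (x - w)) / tk k) (Real.cos (tk k * (x - w))) w := by
    intro w _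
    have h := ((((hasDerivAt_id w).const_sub x).const_mul (tk k)).sin.neg).div_const (tk k)
    refine h.congr_deriv ?_
    simp only [id]
    field_simp
  rw [integral_eq_sub_of_hasDerivAt hd (Continuous.intervalIntegrable (by fun_prop) _ _), sin_end]
  simp only [sub_zero]
  ring

lemma int_exp (k : ℕ) (x : ℝ) :
    ∫ w in (0 : ℝ)..Real.log 2, Real.exp (-w) * Real.cos (tk k * (x - w)) =
      3 / 2 * (Real.cos (tk k * x) + tk k * Real.sin (tk k * x)) / (1 + tk k ^ 2) := by
  have hd : ∀ w ∈ Set.uIcc (0 : ℝ) (Real.log 2),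
      HasDerivAt (fun w => -(Real.exp (-w) * (Real.cos (tk k * (x - w)) +
        tk k * Real.sin (tk k * (x - w)))) / (1 + tk k ^ 2))
        (Real.exp (-w) * Real.cos (tk k * (x - w))) w := by
    intro w _
    have h1 := ((hasDerivAt_id w).const_sub x).const_mul (tk k)
    have h := (((hasDerivAt_id w).neg.exp.mul (h1.cos.add (h1.sin.const_mul (tk k)))).neg).div_const
      (1 + tk k ^ 2)
    refine h.congr_deriv ?_
    simp only [id, Pi.add_apply, Pi.neg_apply]
    field_simp
    ring
  rw [integral_eq_sub_of_hasDerivAt hd (Continuous.intervalIntegrable (by fun_prop) _ _), sin_end,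
    cos_end, Real.exp_neg, Real.exp_log (by norm_num)]
  simp only [sub_zero, neg_zero, Real.exp_zero]
  ring

lemma ex_eq (k : ℕ) (x : ℝ) :
    ex k x = (Real.cos (tk k * x) : ℂ) + (Real.sin (tk k * x) : ℂ) * Complex.I := by
  unfold ex ext
  rw [Complex.exp_mul_I, Complex.ofReal_cos, Complex.ofReal_sin]

lemma cs_eq (k : ℕ) : cs k = ((-(1 / (tk k * Real.log 2)) : ℝ) : ℂ) * Complex.I := by
  unfold cs
  rw [tk_mul]
  have h1 : ((2 * k + 1 : ℕ) : ℂ) ≠ 0 := by exact_mod_cast (by omega : 2 * k + 1 ≠ 0)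
  have h2 : (π : ℂ) ≠ 0 := by exact_mod_cast Real.pi_ne_zero
  push_cast at h1 ⊢
  field_simp
  simp

lemma cg_eq (k : ℕ) : cg k = ((1 / (Real.log 2 * (1 + tk k ^ 2)) : ℝ) : ℂ) +
    ((1 / (tk k * Real.log 2 * (1 + tk k ^ 2)) : ℝ) : ℂ) * Complex.I := by
  have ht := (tk_pos k).ne'
  have hl := lpos.ne'
  have hs : sk k ≠ 0 := by
    intro h
    have := congrArg Complex.re h
    simp [sk] at this
  have hq : (1 + tk k ^ 2) ≠ 0 := by positivity
  unfold cg
  rw [div_eq_iff hs, cs_eq]
  unfold sk
  apply Complex.ext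
  · simp only [Complex.neg_re, Complex.mul_re, Complex.add_re, Complex.add_im, Complex.mul_im,
      Complex.ofReal_re, Complex.ofReal_im, Complex.I_re, Complex.I_im, Complex.one_re,
      Complex.one_im]
    field_simp
    ring
  · simp only [Complex.neg_im, Complex.mul_re, Complex.add_re, Complex.add_im, Complex.mul_im,
      Complex.ofReal_re, Complex.ofReal_im, Complex.I_re, Complex.I_im, Complex.one_re,
      Complex.one_im]
    field_simp
    ring

lemma floor_shift (w : ℝ) : ⌊(w + Real.log 2) / Real.log 2⌋ = ⌊w / Real.log 2⌋ + 1 := by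
  rw [add_div, div_self lpos.ne', Int.floor_add_one]

lemma floor_zero (w : ℝ) (h1 : 0 ≤ w) (h2 : w < Real.log 2) : ⌊w / Real.log 2⌋ = 0 := by
  rw [Int.floor_eq_zero_iff]
  exact ⟨div_nonneg h1 lpos.le, (div_lt_one lpos).2 h2⟩

lemma sq_shift (w : ℝ) : sq (w + Real.log 2) = -sq w := by
  unfold sq
  rw [floor_shift, zpow_add_one₀ (by norm_num)]
  ring

lemma Pf_shift (w : ℝ) : Pf (w + Real.log 2) = -Pf w := by
  unfold Pf
  rw [floor_shift, zpow_add_one₀ (by norm_num), neg_add, Real.exp_add, Real.exp_neg (Real.log 2),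
    Real.exp_log (by norm_num)]
  ring

end Ker1

open Ker1 in
theorem ker1 : StKer1 := by
  intro M x
  have hl := lpos.ne'
  refine ⟨gen (fun w => sq w / 2) (fun _ => 1 / 2) cs ?_ continuous_const ?_ M x ?_,
    gen Gam (fun w => 2 / 3 * Real.exp (-w) - 1 / 2) cg ?_ (by fun_prop) ?_ M x ?_⟩
  · intro w
    simp only [sq_shift]
    ring
  · intro w h1 h2
    simp [sq, floor_zero w h1 h2]
  · intro k
    have ht := (tk_pos k).ne'
    rw [intervalIntegral.integral_const_mul, int_one, cs_eq, ex_eq]
    simp only [Complex.mul_re, Complex.add_re, Complex.add_im, Complex.mul_im,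
      Complex.ofReal_re, Complex.ofReal_im, Complex.I_re, Complex.I_im]
    field_simp
    ring
  · intro w
    unfold Gam
    rw [sq_shift, Pf_shift]
    ring
  · intro w h1 h2
    simp [Gam, Pf, sq, floor_zero w h1 h2]
  · intro k
    have ht := (tk_pos k).ne'
    have hq : (1 + tk k ^ 2) ≠ 0 := by positivity
    have e : (fun w => (2 / 3 * Real.exp (-w) - 1 / 2) * Real.cos (tk k * (x - w))) =
        fun w => 2 / 3 * (Real.exp (-w) * Real.cos (tk k * (x - w))) -
          1 / 2 * Real.cos (tk k * (x - w)) := by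
      funext w; ring
    rw [e, intervalIntegral.integral_sub (Continuous.intervalIntegrable (by fun_prop) _ _)
      (Continuous.intervalIntegrable (by fun_prop) _ _), intervalIntegral.integral_const_mul,
      intervalIntegral.integral_const_mul, int_one, int_exp, cg_eq, ex_eq]
    simp only [Complex.mul_re, Complex.add_re, Complex.add_im, Complex.mul_im,
      Complex.ofReal_re, Complex.ofReal_im, Complex.I_re, Complex.I_im]
    field_simp
    ring

end Pool.Agent.Lib.MP_5db4ad_nt.S2
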