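import Pool.Agent.Lib.MP_5db4ad_nt.S2FSt
import Pool.Agent.Lib.MP_5db4ad_nt.S2Ker1

/-!
The Fejér kernel.
-/

namespace Pool.Agent.Lib.MP_5db4ad_nt.S2

open Finset MeasureTheory intervalIntegral Filter
open scoped Real

namespace FejL

open Ker1

lemma dirich (M : ℕ) (θ : ℝ) : (1 - Real.cos θ) * (1 + 2 * ∑ n ∈ Icc 1 M, Real.cos (n * θ)) =
    Real.cos (M * θ) - Real.cos ((M + 1) * θ) := by
  induction M with
  | zero => simp
  | succ M ih =>
    rw [Finset.sum_Icc_succ_top (by omega)]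
    push_cast
    have a : Real.cos (M * θ) = Real.cos ((M + 1) * θ - θ) := by congr 1; ring
    have b : Real.cos ((M + 1 + 1) * θ) = Real.cos ((M + 1) * θ + θ) := by congr 1; ring
    rw [a, Real.cos_sub] at ih
    rw [b, Real.cos_add]
    linear_combination ih

lemma fejer (M : ℕ) (θ : ℝ) :
    (1 - Real.cos θ) * (M + 2 * ∑ n ∈ Icc 1 M, ((M : ℝ) - n) * Real.cos (n * θ)) =
      1 - Real.cos (M * θ) := by
  induction M with
  | zero => simp
  | succ M ih =>
    rw [Finset.sum_Icc_succ_top (by omega)]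
    have e : ∑ n ∈ Icc 1 M, (((M + 1 : ℕ) : ℝ) - n) * Real.cos (n * θ) =
        ∑ n ∈ Icc 1 M, ((M : ℝ) - n) * Real.cos (n * θ) + ∑ n ∈ Icc 1 M, Real.cos (n * θ) := by
      rw [← sum_add_distrib]
      refine sum_congr rfl fun n _ => ?_
      push_cast
      ring
    rw [e]
    push_cast
    linear_combination ih + dirich M θ

lemma fejer_nonneg (M : ℕ) (θ : ℝ) :
    0 ≤ (M : ℝ) + 2 * ∑ n ∈ Icc 1 M, ((M : ℝ) - n) * Real.cos (n * θ) := by
  rcases (Real.cos_le_one θ).lt_or_eq with h | h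
  · have h1 := fejer M θ
    have h2 := Real.cos_le_one (M * θ)
    by_contra hc
    nlinarith [mul_pos (sub_pos.2 h) (neg_pos.2 (not_le.1 hc))]
  · obtain ⟨k, hk⟩ := (Real.cos_eq_one_iff θ).1 h
    refine add_nonneg (Nat.cast_nonneg _) (mul_nonneg zero_le_two (sum_nonneg fun n hn => ?_))
    have : (n : ℝ) ≤ M := by exact_mod_cast (mem_Icc.1 hn).2
    rw [← hk, show (n : ℝ) * (k * (2 * π)) = ((n * k : ℤ) : ℝ) * (2 * π) by push_cast; ring,
      Real.cos_int_mul_two_pi]
    linarith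

lemma fker_eq {N : ℕ} (hN : 1 ≤ N) (v : ℝ) : fker N v =
    (((2 * N : ℕ) : ℝ) + 2 * ∑ n ∈ Icc 1 (2 * N), (((2 * N : ℕ) : ℝ) - n) *
      Real.cos (n * (π * v / Real.log 2))) / (2 * N * (2 * Real.log 2)) := by
  have h : (N : ℝ) ≠ 0 := by positivity
  have hl := lpos.ne'
  have e : ∑ n ∈ Icc 1 (2 * N), (((2 * N : ℕ) : ℝ) - n) * Real.cos (n * (π * v / Real.log 2)) =
      2 * N * ∑ n ∈ Icc 1 (2 * N), (1 - (n : ℝ) / (2 * N)) * Real.cos (π * n * v / Real.log 2) := by
    rw [mul_sum]
    refine sum_congr rfl fun n _ => ?_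
    rw [show (n : ℝ) * (π * v / Real.log 2) = π * n * v / Real.log 2 by ring]
    push_cast
    field_simp
  rw [e, fker]
  generalize ∑ n ∈ Icc 1 (2 * N), (1 - (n : ℝ) / (2 * N)) * Real.cos (π * n * v / Real.log 2) = S
  push_cast
  field_simp

lemma split (f : ℝ → ℝ) (N : ℕ) (a : ℕ → ℝ)
    (h0 : IntervalIntegrable f volume (-Real.log 2) (Real.log 2))
    (hn : ∀ n : ℕ, IntervalIntegrable (fun v => f v * Real.cos (π * n * v / Real.log 2))
      volume (-Real.log 2) (Real.log 2))
    (ha : ∀ n : ℕ, 1 ≤ n →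
      ∫ v in (-Real.log 2)..Real.log 2, f v * Real.cos (π * n * v / Real.log 2) = a n) :
    ∫ v in (-Real.log 2)..Real.log 2, f v * fker N v = (2 * Real.log 2)⁻¹ *
      ((∫ v in (-Real.log 2)..Real.log 2, f v) +
        ∑ n ∈ Icc 1 (2 * N), 2 * (1 - (n : ℝ) / (2 * N)) * a n) := by
  have hexp : (fun v => f v * fker N v) = fun v => (2 * Real.log 2)⁻¹ * (f v +
      ∑ n ∈ Icc 1 (2 * N), 2 * (1 - (n : ℝ) / (2 * N)) *
        (f v * Real.cos (π * n * v / Real.log 2))) := by
    funext v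
    unfold fker
    rw [div_eq_mul_inv, ← mul_assoc, mul_comm _ (2 * Real.log 2)⁻¹, mul_add, mul_one, mul_sum,
      mul_sum]
    congr 2
    refine sum_congr rfl fun n _ => by ring
  have hint : ∀ n ∈ Icc 1 (2 * N), IntervalIntegrable (fun v => 2 * (1 - (n : ℝ) / (2 * N)) *
      (f v * Real.cos (π * n * v / Real.log 2))) volume (-Real.log 2) (Real.log 2) :=
    fun n _ => (hn n).const_mul _
  have hsum := IntervalIntegrable.sum (Icc 1 (2 * N)) hint
  rw [Finset.sum_fn] at hsum
  rw [hexp, intervalIntegral.integral_const_mul, intervalIntegral.integral_add h0 hsum,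
    intervalIntegral.integral_finsetSum hint]
  congr 2
  refine sum_congr rfl fun n hn => ?_
  rw [intervalIntegral.integral_const_mul, ha n (mem_Icc.1 hn).1]

lemma mass (N : ℕ) : ∫ v in (-Real.log 2)..Real.log 2, fker N v = 1 := by
  have hl := lpos
  have h := split (fun _ => 1) N (fun _ => 0) (Continuous.intervalIntegrable (by fun_prop) _ _)
    (fun n => Continuous.intervalIntegrable (by fun_prop) _ _) fun n hn => by
      have n0 : π * n / Real.log 2 ≠ 0 := by positivity
      simp only [one_mul, show ∀ v, π * n * v / Real.log 2 = π * n / Real.log 2 * v from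
        fun v => by ring]
      rw [intervalIntegral.integral_comp_mul_left _ n0, integral_cos, mul_neg,
        div_mul_cancel₀ _ hl.ne', Real.sin_neg, mul_comm π, Real.sin_nat_mul_pi]
      simp
  simp only [one_mul, mul_zero, sum_const_zero, add_zero, intervalIntegral.integral_const,
    smul_eq_mul, mul_one] at h
  rw [h]
  field_simp
  ring

lemma conv (N : ℕ) (x : ℝ) : ∫ v in (-Real.log 2)..Real.log 2, Pf (x - v) * fker N v =
    fej N (fun k => 1 / ((Real.log 2 : ℂ) * sk k)) x := by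
  have hl := lpos
  have hn : ∀ n : ℕ, IntervalIntegrable (fun v => Pf (x - v) * Real.cos (π * n * v / Real.log 2))
      volume (-Real.log 2) (Real.log 2) ∧
      ∫ v in (-Real.log 2)..Real.log 2, Pf (x - v) * Real.cos (π * n * v / Real.log 2) =
        (1 - (-1) ^ n) * ∫ w in (0 : ℝ)..Real.log 2,
          2 / 3 * Real.exp (-w) * Real.cos (π * n * (x - w) / Real.log 2) := by
    intro n
    have h := key (fun w => Pf w * Real.cos (π * n * (x - w) / Real.log 2))
      (fun w => 2 / 3 * Real.exp (-w) * Real.cos (π * n * (x - w) / Real.log 2)) (Real.log 2)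
      (-(-1) ^ n) x hl (by rw [neg_mul_neg, ← mul_pow]; simp)
      (by
        intro w
        have e : π * n * (x - (w + Real.log 2)) / Real.log 2 =
            π * n * (x - w) / Real.log 2 - n * π := by
          field_simp; ring
        simp only [Pf_shift, e, Real.cos_sub_nat_mul_pi]
        ring)
      (by fun_prop)
      (by intro w h1 h2; simp [Pf, floor_zero w h1 h2])
    simpa [sub_eq_add_neg] using h
  have h0 := hn 0
  simp only [Nat.cast_zero, mul_zero, zero_mul, zero_div, Real.cos_zero, mul_one, pow_zero,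
    sub_self] at h0
  rw [split _ N _ h0.1 (fun n => (hn n).1) fun n _ => (hn n).2, h0.2, zero_add,
    sum_odd _ (by
      intro k
      have : (-1 : ℝ) ^ (2 * k + 2) = 1 := by rw [pow_add, pow_mul]; norm_num
      rw [this]; simp)]
  unfold fej trig
  rw [mul_sum]
  refine sum_congr rfl fun k _ => ?_
  have e1 : (-1 : ℝ) ^ (2 * k + 1) = -1 := by rw [pow_add, pow_mul]; norm_num
  have e2 : ∀ w, π * ((2 * k + 1 : ℕ) : ℝ) * (x - w) / Real.log 2 = tk k * (x - w) := by
    intro w
    unfold tk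
    push_cast
    ring
  simp only [e1, e2, mul_assoc (2 / 3 : ℝ)]
  rw [intervalIntegral.integral_const_mul, int_exp, mul_assoc (fj N k : ℂ), Complex.re_ofReal_mul,
    ex_eq]
  have hq : (1 + tk k ^ 2) ≠ 0 := by positivity
  have e3 : 1 / ((Real.log 2 : ℂ) * sk k) = ((1 / (Real.log 2 * (1 + tk k ^ 2)) : ℝ) : ℂ) *
      (1 - tk k * Complex.I) := by
    have a1 : ((1 + tk k ^ 2 : ℝ) : ℂ) = sk k * (1 - tk k * Complex.I) := by
      unfold sk
      push_cast
      linear_combination ((tk k : ℂ) ^ 2) * Complex.I_mul_I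
    have a2 : ((1 + tk k ^ 2 : ℝ) : ℂ) ≠ 0 := by exact_mod_cast hq
    have a3 : ((Real.log 2 : ℝ) : ℂ) ≠ 0 := by exact_mod_cast hl.ne'
    rw [Complex.ofReal_div, Complex.ofReal_mul, a1]
    rw [a1] at a2
    have := left_ne_zero_of_mul a2
    have := right_ne_zero_of_mul a2
    push_cast
    field_simp
  rw [e3]
  simp only [Complex.mul_re, Complex.add_re, Complex.add_im, Complex.mul_im, Complex.sub_re,
    Complex.sub_im, Complex.one_re, Complex.one_im, Complex.ofReal_re, Complex.ofReal_im,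
    Complex.I_re, Complex.I_im, fj]
  push_cast
  field_simp
  ring

lemma tail {δ ε : ℝ} (hδ : 0 < δ) (hε : 0 < ε) :
    ∀ᶠ N : ℕ in atTop, ∀ v, δ ≤ |v| → |v| ≤ Real.log 2 → fker N v ≤ ε := by
  have hl := lpos
  set c := 2 * (δ / Real.log 2) ^ 2 with hc
  have c0 : 0 < c := by positivity
  filter_upwards [eventually_ge_atTop 1,
    tendsto_natCast_atTop_atTop.eventually_ge_atTop (1 / (c * ε * Real.log 2))] with N hN h v h1 h2
  have N0 : (0 : ℝ) < N := by exact_mod_cast hN
  have a1 : |π * v / Real.log 2| ≤ π := by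
    rw [abs_div, abs_mul, abs_of_pos Real.pi_pos, abs_of_pos hl, div_le_iff₀ hl]
    exact mul_le_mul_of_nonneg_left h2 Real.pi_pos.le
  have a2 := Real.cos_le_one_sub_mul_cos_sq a1
  have a3 : 2 / π ^ 2 * (π * v / Real.log 2) ^ 2 = 2 * (|v| / Real.log 2) ^ 2 := by
    rw [div_pow |v|, sq_abs]
    field_simp
  have a4 : c ≤ 1 - Real.cos (π * v / Real.log 2) := by
    have : (δ / Real.log 2) ^ 2 ≤ (|v| / Real.log 2) ^ 2 := by gcongr
    linarith
  have a5 := fejer (2 * N) (π * v / Real.log 2)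
  have a6 := fejer_nonneg (2 * N) (π * v / Real.log 2)
  have a7 := Real.neg_one_le_cos ((2 * N : ℕ) * (π * v / Real.log 2))
  rw [fker_eq hN, div_le_iff₀ (by positivity)]
  rw [div_le_iff₀ (by positivity)] at h
  refine le_of_mul_le_mul_left ?_ c0
  nlinarith [mul_le_mul_of_nonneg_right a4 a6]

end FejL

theorem fejL : StFejK := by
  refine ⟨fun N hN => ⟨?_, fun v => ?_, FejL.mass N, FejL.conv N⟩, fun δ ε => FejL.tail⟩
  · unfold fker
    fun_prop
  · have := Ker1.lpos
    rw [FejL.fker_eq hN]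
    exact div_nonneg (FejL.fejer_nonneg _ _) (by positivity)

end Pool.Agent.Lib.MP_5db4ad_nt.S2
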