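import Pool.Agent.Lib.MP_5db4ad_nt.S2FSt
import Pool.Agent.Lib.MP_5db4ad_nt.S2Final
import Pool.Agent.Lib.MP_5db4ad_nt.S2Ker1

/-!
The upper limit is the supremum of the Fejér means.
-/

namespace Pool.Agent.Lib.MP_5db4ad_nt.S2

open Finset Filter
open scoped Real Topology

namespace Form

lemma FF_shift (w τ : ℕ × ℕ × ℕ → ℝ) (u : ℝ) : FF w τ (u + Real.log 2) = -FF w τ u := by
  unfold FF
  rw [← tsum_neg]
  refine tsum_congr fun j => ?_
  rw [show u + Real.log 2 - τ j = u - τ j + Real.log 2 by ring, Ker1.Pf_shift, mul_neg]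

lemma FF_nat (w τ : ℕ × ℕ × ℕ → ℝ) (u : ℝ) (n : ℕ) :
    |FF w τ (u + n * Real.log 2)| = |FF w τ u| := by
  induction n with
  | zero => simp
  | succ n ih =>
    rw [← ih, Nat.cast_succ, add_mul, one_mul, ← add_assoc, FF_shift, abs_neg]

lemma all_of_ev {w τ : ℕ × ℕ × ℕ → ℝ} {B : ℝ}
    (h : ∀ᶠ x : ℝ in atTop, |FF w τ (Real.log x)| ≤ B) (u : ℝ) : |FF w τ u| ≤ B := by
  have t : Tendsto (fun n : ℕ => Real.exp (u + n * Real.log 2)) atTop atTop :=
    Real.tendsto_exp_atTop.comp (tendsto_atTop_add_const_left _ _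
      (tendsto_natCast_atTop_atTop.atTop_mul_const Ker1.lpos))
  obtain ⟨n, hn⟩ := (t.eventually h).exists
  rwa [Real.log_exp, FF_nat] at hn

lemma summ_Pf {w : ℕ × ℕ × ℕ → ℝ} (hw : Summable w) (f : ℕ × ℕ × ℕ → ℝ) :
    Summable fun j => w j * Pf (f j) := by
  refine Summable.of_norm_bounded (hw.abs.mul_right (2 / 3)) fun j => ?_
  rw [Real.norm_eq_abs, abs_mul]
  exact mul_le_mul_of_nonneg_left (Final.abs_Pf _) (abs_nonneg _)

lemma summ_ex {w : ℕ × ℕ × ℕ → ℝ} (hw : Summable w) (k : ℕ) (f : ℕ × ℕ × ℕ → ℝ) :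
    Summable fun j => (w j : ℂ) * ex k (f j) := by
  refine Summable.of_norm_bounded hw.abs fun j => ?_
  rw [norm_mul, Final.norm_ex, mul_one, Complex.norm_real, Real.norm_eq_abs]

lemma FF_sub {w w' : ℕ × ℕ × ℕ → ℝ} (hw : Summable w) (hw' : Summable w') (τ : ℕ × ℕ × ℕ → ℝ)
    (u : ℝ) : FF (fun j => w j - w' j) τ u = FF w τ u - FF w' τ u := by
  unfold FF
  rw [← (summ_Pf hw _).tsum_sub (summ_Pf hw' _)]
  exact tsum_congr fun j => sub_mul _ _ _

lemma fej_sub {w w' : ℕ × ℕ × ℕ → ℝ} (hw : Summable w) (hw' : Summable w') (τ : ℕ × ℕ × ℕ → ℝ)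
    (N : ℕ) (u : ℝ) : fej N (coef (fun j => w j - w' j) τ) u =
      fej N (coef w τ) u - fej N (coef w' τ) u := by
  unfold fej trig
  rw [← sum_sub_distrib]
  refine sum_congr rfl fun k _ => ?_
  have : coef (fun j => w j - w' j) τ k = coef w τ k - coef w' τ k := by
    unfold coef
    rw [← sub_div, ← (summ_ex hw k _).tsum_sub (summ_ex hw' k _)]
    congr 1
    refine tsum_congr fun j => ?_
    push_cast
    ring
  beta_reduce
  rw [this, ← mul_sub, ← Complex.sub_re]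
  congr 2
  ring

lemma fej_lim (hC : StCoef) (N : ℕ) (u : ℝ) :
    Tendsto (fun q : ℕ => fej N (coef (w3 q) t3) u) atTop (𝓝 (fej N cc u)) := by
  unfold fej trig
  refine tendsto_finsetSum _ fun k _ => Tendsto.const_mul _ ?_
  exact (Complex.continuous_re.tendsto _).comp (((hC k).const_mul _).mul_const _)

lemma lower (hF : StFej) (hA : StApp) (hC : StCoef) {a : ℝ}
    (h : ∀ᶠ x : ℝ in atTop, |SS x| / x ≤ a) (N : ℕ) (u : ℝ) : |fej N cc u| ≤ a := by
  refine le_of_forall_pos_le_add fun ε hε => le_of_tendsto (fej_lim hC N u).abs ?_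
  filter_upwards [hA.2 ε hε, eventually_ge_atTop 24] with q hq h24
  refine (hF _ _ _ (hA.1 q h24)).1 (all_of_ev ?_) N u
  filter_upwards [hq, h, eventually_gt_atTop 0] with x h1 h2 h3
  have := abs_sub_abs_le_abs_sub (FF (w3 q) t3 (Real.log x)) (SS x / x)
  rw [abs_sub_comm, abs_div, abs_of_pos h3] at this
  linarith

lemma upper (hF : StFej) (hA : StApp) (hC : StCoef) {b ε : ℝ} (hε : 0 < ε)
    (h : ∀ N u, |fej N cc u| ≤ b) : ∀ᶠ x : ℝ in atTop, |SS x| / x ≤ b + 3 * ε := by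
  obtain ⟨q, hq, h24⟩ := ((hA.2 ε hε).and (eventually_ge_atTop 24)).exists
  have key : ∀ N u, |fej N (coef (w3 q) t3) u - fej N cc u| ≤ 2 * ε := fun N u => by
    refine le_of_tendsto ((fej_lim hC N u).const_sub _).abs ?_
    filter_upwards [hA.2 ε hε, eventually_ge_atTop 24] with r hr r24
    rw [← fej_sub (hA.1 q h24) (hA.1 r r24)]
    refine (hF _ _ _ ((hA.1 q h24).sub (hA.1 r r24))).1 (all_of_ev ?_) N u
    filter_upwards [hq, hr] with x h1 h2
    rw [FF_sub (hA.1 q h24) (hA.1 r r24)]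
    have := abs_sub_le (FF (w3 q) t3 (Real.log x)) (SS x / x) (FF (w3 r) t3 (Real.log x))
    rw [abs_sub_comm _ (SS x / x)] at this
    linarith
  have h2 := (hF _ t3 (b + 2 * ε) (hA.1 q h24)).2 fun N u => by
    have := abs_sub_abs_le_abs_sub (fej N (coef (w3 q) t3) u) (fej N cc u)
    linarith [key N u, h N u]
  filter_upwards [hq, eventually_gt_atTop 0] with x h1 h3
  have := abs_sub_abs_le_abs_sub (SS x / x) (FF (w3 q) t3 (Real.log x))
  rw [abs_div, abs_of_pos h3] at this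
  linarith [h2 (Real.log x)]

end Form

theorem formula (hF : StFej) (hA : StApp) (hC : StCoef) :
    limsup (fun x : ℝ => ENNReal.ofReal (|SS x| / x)) atTop =
      ⨆ (N : ℕ) (u : ℝ), ENNReal.ofReal |fej N cc u| := by
  refine le_antisymm ?_ (iSup₂_le fun N u => ?_)
  · refine ENNReal.le_of_forall_pos_le_add fun ε hε hb => ?_
    set b := ⨆ (N : ℕ) (u : ℝ), ENNReal.ofReal |fej N cc u| with hbd
    have h1 : ∀ N u, |fej N cc u| ≤ b.toReal := fun N u =>
      (ENNReal.ofReal_le_iff_le_toReal hb.ne).1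
        (le_iSup₂ (f := fun (N : ℕ) (u : ℝ) => ENNReal.ofReal |fej N cc u|) N u)
    have hε' : (0 : ℝ) < ε / 3 := by positivity
    refine limsup_le_of_le (h := ?_)
    filter_upwards [Form.upper hF hA hC hε' h1] with x hx
    refine (ENNReal.ofReal_le_ofReal hx).trans ?_
    rw [show 3 * ((ε : ℝ) / 3) = ε by ring, ENNReal.ofReal_add ENNReal.toReal_nonneg ε.coe_nonneg,
      ENNReal.ofReal_toReal hb.ne, ENNReal.ofReal_coe_nnreal]
  · refine le_of_forall_gt_imp_ge_of_dense fun a ha => ?_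
    rcases eq_or_ne a ⊤ with rfl | hat
    · exact le_top
    refine ENNReal.ofReal_le_of_le_toReal (Form.lower hF hA hC ?_ N u)
    filter_upwards [eventually_lt_of_limsup_lt ha] with x hx
    exact (ENNReal.ofReal_le_iff_le_toReal hat).1 hx.le

end Pool.Agent.Lib.MP_5db4ad_nt.S2
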