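import Pool.Agent.Lib.MP_5db4ad_nt.S2Defs

/-! The smooth part `Gam` of the periodic function: truncation of its Fourier expansion. -/

namespace Pool.Agent.Lib.MP_5db4ad_nt.S2

open Finset Filter
open scoped Real Topology

namespace GamB

lemma norm_ex (k : ℕ) (u : ℝ) : ‖ex k u‖ = 1 := by
  unfold ex ext
  exact Complex.norm_exp_ofReal_mul_I _

lemma cA_zero {m : ℕ} (hm : m ∉ range (2 ^ 36)) : cA m = 0 := by
  unfold cA
  rw [if_neg]
  intro h
  apply hm
  rw [mem_range]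
  exact (mem_Aset.1 h).2.trans_le (Nat.pow_le_pow_right (by norm_num) (et_le _))

lemma cA_abs_le (m : ℕ) : |cA m| ≤ |gg m| / m := by
  unfold cA
  split_ifs
  · rw [abs_div, Nat.abs_cast]
  · rw [abs_zero]; positivity

lemma summable_cA : Summable fun m => |cA m| :=
  summable_of_ne_finset_zero (s := range (2 ^ 36)) fun m hm => by rw [cA_zero hm, abs_zero]

lemma tsum_cA (hM : StMassq) : ∑' m, |cA m| ≤ 300 := by
  rw [tsum_eq_sum (s := range (2 ^ 36)) fun m hm => by rw [cA_zero hm, abs_zero]]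
  exact (sum_le_sum fun m _ => cA_abs_le m).trans hM.2

lemma summable_hat {c : ℕ → ℝ} (hc : Summable fun m => |c m|) (k : ℕ) :
    Summable fun m : ℕ => (c m : ℂ) * ex k (-Real.log m) := by
  refine Summable.of_norm ?_
  simpa only [norm_mul, norm_ex, mul_one, Complex.norm_real, Real.norm_eq_abs] using hc

lemma norm_hat_le {c : ℕ → ℝ} (hc : Summable fun m => |c m|) (k : ℕ) :
    ‖hat c k‖ ≤ ∑' m, |c m| := by
  unfold hat
  refine tsum_of_norm_bounded hc.hasSum fun m => ?_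
  rw [norm_mul, norm_ex, mul_one, Complex.norm_real, Real.norm_eq_abs]

lemma hat_sub {c d : ℕ → ℝ} (hc : Summable fun m => |c m|) (hd : Summable fun m => |d m|)
    (k : ℕ) : hat (fun m => c m - d m) k = hat c k - hat d k := by
  unfold hat
  rw [← (summable_hat hc k).tsum_sub (summable_hat hd k)]
  refine tsum_congr fun m => ?_
  push_cast
  ring

lemma norm_cg_le (k : ℕ) : ‖cg k‖ ≤ 0.0703 / (2 * k + 1 : ℝ) ^ 2 := by
  have hl := Real.log_two_gt_d9
  have hl2 := Real.log_two_lt_d9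
  have hp := Real.pi_gt_d6
  have hk : (0 : ℝ) < 2 * k + 1 := by positivity
  have h1 : ‖cs k‖ = 1 / ((2 * k + 1 : ℝ) * π) := by
    unfold cs
    rw [norm_div, norm_one, norm_mul, norm_mul, Complex.norm_I, mul_one, Complex.norm_real,
      Real.norm_eq_abs, abs_of_pos Real.pi_pos]
    have : ‖(2 * k + 1 : ℂ)‖ = (2 * k + 1 : ℝ) := by
      have e : (2 * k + 1 : ℂ) = ((2 * k + 1 : ℝ) : ℂ) := by push_cast; ring
      rw [e, Complex.norm_real, Real.norm_eq_abs, abs_of_pos hk]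
    rw [this]
  have ht : 0 < tk k := by unfold tk; positivity
  have h2 : tk k ≤ ‖sk k‖ := by
    have := Complex.abs_im_le_norm (sk k)
    have e : (sk k).im = tk k := by unfold sk; simp
    rw [e, abs_of_pos ht] at this
    exact this
  unfold cg
  rw [norm_div, norm_neg, h1]
  calc 1 / ((2 * k + 1 : ℝ) * π) / ‖sk k‖ ≤ 1 / ((2 * k + 1 : ℝ) * π) / tk k := by gcongr
    _ = (Real.log 2 / π ^ 2) / (2 * k + 1 : ℝ) ^ 2 := by unfold tk; field_simp
    _ ≤ 0.0703 / (2 * k + 1 : ℝ) ^ 2 := by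
      gcongr
      rw [div_le_iff₀ (by positivity)]
      nlinarith

lemma sum_inv_sq (K N : ℕ) (hK : 1 ≤ K) (h : K ≤ N) :
    ∑ k ∈ Ico K N, 1 / (2 * k + 1 : ℝ) ^ 2 ≤ (1 / K - 1 / N : ℝ) / 4 := by
  induction N, h using Nat.le_induction with
  | base => simp
  | succ n hn ih =>
    rw [sum_Ico_succ_top hn]
    have hn1 : (1 : ℝ) ≤ n := by exact_mod_cast hK.trans hn
    have : 1 / (2 * n + 1 : ℝ) ^ 2 ≤ (1 / n - 1 / (n + 1 : ℝ)) / 4 := by
      have e : (1 / n - 1 / (n + 1 : ℝ)) / 4 = 1 / (4 * n * (n + 1 : ℝ)) := by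
        field_simp; ring
      rw [e]
      apply one_div_le_one_div_of_le (by positivity)
      nlinarith
    push_cast
    linarith

lemma sum_cg_le (N : ℕ) : ∑ k ∈ range N, ‖cg k‖ ≤ 1 := by
  have h : ∀ n : ℕ, ∑ k ∈ range n, ‖cg k‖ ≤ 1 - 1 / (n + 1 : ℝ) := by
    intro n
    induction n with
    | zero => simp
    | succ n ih =>
      rw [sum_range_succ]
      have h1 := norm_cg_le n
      have hn : (0 : ℝ) ≤ n := Nat.cast_nonneg n
      have : 0.0703 / (2 * n + 1 : ℝ) ^ 2 ≤ 1 / (n + 1 : ℝ) - 1 / (n + 1 + 1 : ℝ) := by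
        have e : 1 / (n + 1 : ℝ) - 1 / (n + 1 + 1 : ℝ) = 1 / ((n + 1) * (n + 2) : ℝ) := by
          field_simp; ring
        rw [e, div_le_div_iff₀ (by positivity) (by positivity)]
        nlinarith
      push_cast
      linarith
  have : (0 : ℝ) ≤ 1 / (N + 1 : ℝ) := by positivity
  linarith [h N]

lemma norm_Rk_le (hM : StMassq) (hE : StE) (j k : ℕ) (hk : k < 2 ^ (24 + j)) :
    ‖Rk k‖ ≤ 11680 + 880 * j + 17 * (j : ℝ) ^ 2 := by
  have h1 := ((hE (25 + j) (by omega)).2 k (by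
    have : 25 + j - 1 = 24 + j := by omega
    rwa [this])).2
  have h2 := (norm_hat_le summable_cA k).trans (tsum_cA hM)
  have hl := Real.log_two_gt_d9
  have hl2 := Real.log_two_lt_d9
  have hj : (0 : ℝ) ≤ j := Nat.cast_nonneg j
  have h3 : 1 + Lq (25 + j) ≤ 18.03 + 0.6932 * j := by
    unfold Lq
    push_cast
    nlinarith
  have h4 : 0 ≤ 1 + Lq (25 + j) := by
    unfold Lq
    push_cast
    nlinarith
  have h5 : (1 + Lq (25 + j)) ^ 2 ≤ (18.03 + 0.6932 * j) ^ 2 := by gcongr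
  unfold Rk
  have := norm_sub_le (Gf (sk k)) (hat cA k)
  nlinarith

lemma tail_le (hM : StMassq) (hE : StE) (j : ℕ) :
    ∑ k ∈ Ico (2 ^ 23) (2 ^ (23 + j)), 2 * (‖cg k‖ * ‖Rk k‖) ≤
      0.0703 / (4 * 2 ^ 23) * (25222 -
        (23360 + 880 * (2 * j + 2) + 17 * (2 * (j : ℝ) ^ 2 + 4 * j + 6)) / 2 ^ j) := by
  induction j with
  | zero => rw [Nat.add_zero, Ico_self, sum_empty]; norm_num
  | succ j ih =>
    have hle : 2 ^ 23 ≤ 2 ^ (23 + j) := Nat.pow_le_pow_right (by norm_num) (by omega)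
    have hle2 : 2 ^ (23 + j) ≤ 2 ^ (23 + (j + 1)) := Nat.pow_le_pow_right (by norm_num) (by omega)
    rw [← sum_Ico_consecutive _ hle hle2]
    have hj : (0 : ℝ) ≤ j := Nat.cast_nonneg j
    set R : ℝ := 11680 + 880 * j + 17 * (j : ℝ) ^ 2 with hR
    have hb : ∑ k ∈ Ico (2 ^ (23 + j)) (2 ^ (23 + (j + 1))), 2 * (‖cg k‖ * ‖Rk k‖) ≤
        0.0703 / (4 * 2 ^ 23) * (R / 2 ^ j) := by
      calc ∑ k ∈ Ico (2 ^ (23 + j)) (2 ^ (23 + (j + 1))), 2 * (‖cg k‖ * ‖Rk k‖)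
          ≤ ∑ k ∈ Ico (2 ^ (23 + j) : ℕ) (2 ^ (23 + (j + 1))),
            (2 * 0.0703 * R) * (1 / (2 * k + 1 : ℝ) ^ 2) := by
            refine sum_le_sum fun k hk => ?_
            have h1 := norm_cg_le k
            have h2 := norm_Rk_le hM hE j k (by
              have : 24 + j = 23 + (j + 1) := by omega
              rw [this]; exact (mem_Ico.1 hk).2)
            calc 2 * (‖cg k‖ * ‖Rk k‖) ≤ 2 * (0.0703 / (2 * k + 1 : ℝ) ^ 2 * R) := by gcongr
              _ = _ := by ring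
        _ = (2 * 0.0703 * R) * ∑ k ∈ Ico (2 ^ (23 + j) : ℕ) (2 ^ (23 + (j + 1))),
            1 / (2 * k + 1 : ℝ) ^ 2 := by rw [mul_sum]
        _ ≤ (2 * 0.0703 * R) * ((1 / ((2 ^ (23 + j) : ℕ) : ℝ) -
            1 / ((2 ^ (23 + (j + 1)) : ℕ) : ℝ)) / 4) := by
            gcongr
            exact sum_inv_sq _ _ Nat.one_le_two_pow hle2
        _ = 0.0703 / (4 * 2 ^ 23) * (R / 2 ^ j) := by
            rw [Nat.cast_pow, Nat.cast_pow, Nat.cast_ofNat, pow_add, pow_add, pow_succ (2 : ℝ) j]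
            field_simp
            ring
    refine (add_le_add ih hb).trans (le_of_eq ?_)
    rw [hR, pow_succ (2 : ℝ) j]
    push_cast
    field_simp
    ring

lemma tail_le' (hM : StMassq) (hE : StE) (j : ℕ) :
    ∑ k ∈ Ico (2 ^ 23) (2 ^ (23 + j)), 2 * (‖cg k‖ * ‖Rk k‖) ≤ 0.00006 := by
  refine (tail_le hM hE j).trans ?_
  have h : (0 : ℝ) ≤ (23360 + 880 * (2 * j + 2) + 17 * (2 * (j : ℝ) ^ 2 + 4 * j + 6)) / 2 ^ j := by
    positivity
  have h2 : (0.0703 : ℝ) / (4 * 2 ^ 23) * 25222 ≤ 0.00006 := by norm_num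
  have h3 : (0 : ℝ) ≤ 0.0703 / (4 * 2 ^ 23) := by positivity
  nlinarith

lemma abs_term (a : ℂ) (k : ℕ) (u : ℝ) : |2 * (a * ex k u).re| ≤ 2 * ‖a‖ := by
  rw [abs_mul, abs_two]
  have := Complex.abs_re_le_norm (a * ex k u)
  rw [norm_mul, norm_ex, mul_one] at this
  linarith

/-- comparison of the two trigonometric sums -/
lemma trig_diff (K M : ℕ) (hKM : K ≤ M) (w : ℕ → ℝ) (R E : ℕ → ℂ) (δ e u : ℝ)
    (hw0 : ∀ k, 0 ≤ w k) (hw1 : ∀ k, w k ≤ 1) (hδ : ∀ k < K, 1 - w k ≤ δ) (he0 : 0 ≤ e)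
    (he : ∀ k < M, ‖E k‖ ≤ e) :
    |trig M (fun k => w k * cg k * (R k - E k)) u - trig K (fun k => cg k * R k) u| ≤
      δ * ∑ k ∈ range K, 2 * (‖cg k‖ * ‖R k‖) + ∑ k ∈ Ico K M, 2 * (‖cg k‖ * ‖R k‖) + 2 * e := by
  have e1 : trig M (fun k => w k * cg k * (R k - E k)) u - trig K (fun k => cg k * R k) u =
      ∑ k ∈ range K, 2 * ((((w k - 1 : ℝ) : ℂ) * cg k * R k) * ex k u).re +
      ∑ k ∈ Ico K M, 2 * ((w k * cg k * R k) * ex k u).re -
      ∑ k ∈ range M, 2 * ((w k * cg k * E k) * ex k u).re := by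
    unfold trig
    have e2 : ∑ k ∈ range M, 2 * (w k * cg k * (R k - E k) * ex k u).re =
        ∑ k ∈ range M, 2 * ((w k * cg k * R k) * ex k u).re -
        ∑ k ∈ range M, 2 * ((w k * cg k * E k) * ex k u).re := by
      rw [← sum_sub_distrib]
      refine sum_congr rfl fun k _ => ?_
      rw [← mul_sub, ← Complex.sub_re]
      congr 2
      ring
    have e3 : ∑ k ∈ range K, 2 * ((((w k - 1 : ℝ) : ℂ) * cg k * R k) * ex k u).re =
        ∑ k ∈ range K, 2 * ((w k * cg k * R k) * ex k u).re -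
        ∑ k ∈ range K, 2 * (cg k * R k * ex k u).re := by
      rw [← sum_sub_distrib]
      refine sum_congr rfl fun k _ => ?_
      rw [← mul_sub, ← Complex.sub_re]
      congr 2
      push_cast
      ring
    rw [e2, e3, ← sum_range_add_sum_Ico _ hKM]
    ring
  have hwn : ∀ k, ‖(w k : ℂ)‖ ≤ 1 := fun k => by
    rw [Complex.norm_real, Real.norm_eq_abs, abs_of_nonneg (hw0 k)]; exact hw1 k
  have b1 : |∑ k ∈ range K, 2 * ((((w k - 1 : ℝ) : ℂ) * cg k * R k) * ex k u).re| ≤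
      δ * ∑ k ∈ range K, 2 * (‖cg k‖ * ‖R k‖) := by
    rw [mul_sum]
    refine (abs_sum_le_sum_abs _ _).trans (sum_le_sum fun k hk => (abs_term _ k u).trans ?_)
    rw [norm_mul, norm_mul, Complex.norm_real, Real.norm_eq_abs, abs_sub_comm,
      abs_of_nonneg (sub_nonneg.2 (hw1 k))]
    have h1 := hδ k (mem_range.1 hk)
    have h2 : 0 ≤ ‖cg k‖ * ‖R k‖ := by positivity
    nlinarith
  have b2 : |∑ k ∈ Ico K M, 2 * ((w k * cg k * R k) * ex k u).re| ≤
      ∑ k ∈ Ico K M, 2 * (‖cg k‖ * ‖R k‖) := by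
    refine (abs_sum_le_sum_abs _ _).trans (sum_le_sum fun k _ => (abs_term _ k u).trans ?_)
    rw [norm_mul, norm_mul]
    have h1 := hwn k
    have h2 : 0 ≤ ‖cg k‖ * ‖R k‖ := by positivity
    nlinarith
  have b3 : |∑ k ∈ range M, 2 * ((w k * cg k * E k) * ex k u).re| ≤ 2 * e := by
    calc |∑ k ∈ range M, 2 * ((w k * cg k * E k) * ex k u).re|
        ≤ ∑ k ∈ range M, (2 * e) * ‖cg k‖ := by
          refine (abs_sum_le_sum_abs _ _).trans (sum_le_sum fun k hk => (abs_term _ k u).trans ?_)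
          rw [norm_mul, norm_mul]
          have h1 := hwn k
          have h2 := he k (mem_range.1 hk)
          calc 2 * (‖(w k : ℂ)‖ * ‖cg k‖ * ‖E k‖) ≤ 2 * (1 * ‖cg k‖ * e) := by gcongr
            _ = _ := by ring
      _ = (2 * e) * ∑ k ∈ range M, ‖cg k‖ := by rw [mul_sum]
      _ ≤ (2 * e) * 1 := by gcongr; exact sum_cg_le M
      _ = 2 * e := mul_one _
  rw [e1]
  refine (abs_sub _ _).trans ?_
  have := abs_add_le (∑ k ∈ range K, 2 * ((((w k - 1 : ℝ) : ℂ) * cg k * R k) * ex k u).re)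
    (∑ k ∈ Ico K M, 2 * ((w k * cg k * R k) * ex k u).re)
  linarith

lemma err_tendsto (A B : ℝ) : Tendsto (fun q : ℕ => (0.46 * (q : ℝ) ^ 4 + 300) * (0.36 / 2 ^ q) +
    5 * (B / 2 ^ q) ^ 2 * A + 2 * (6300 * Real.exp (-(0.05 * (q - 25))))) atTop (𝓝 0) := by
  have h1 : Tendsto (fun q : ℕ => (q : ℝ) ^ 4 / 2 ^ q) atTop (𝓝 0) :=
    tendsto_pow_const_div_const_pow_of_one_lt 4 (by norm_num)
  have h2 : Tendsto (fun q : ℕ => (q : ℝ) ^ 0 / 2 ^ q) atTop (𝓝 0) :=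
    tendsto_pow_const_div_const_pow_of_one_lt 0 (by norm_num)
  have h3 : Tendsto (fun q : ℕ => Real.exp (-(0.05 * ((q : ℝ) - 25)))) atTop (𝓝 0) := by
    refine Real.tendsto_exp_neg_atTop_nhds_zero.comp ?_
    refine Tendsto.const_mul_atTop (by norm_num) ?_
    exact tendsto_atTop_add_const_right _ _ tendsto_natCast_atTop_atTop
  have h4 := (((h1.const_mul (0.46 * 0.36)).add (h2.const_mul (300 * 0.36))).add
    ((((h2.const_mul B).pow 2).const_mul 5).mul_const A)).add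
      ((h3.const_mul 6300).const_mul 2)
  simp only [mul_zero, add_zero, ne_eq, OfNat.ofNat_ne_zero, not_false_eq_true, zero_pow,
    zero_mul] at h4
  refine h4.congr fun q => ?_
  ring

end GamB

open GamB in
theorem gamb (hK : StKerGam) (hf : StKf) (hM : StMassq) (hE : StE) : StGam := by
  intro ε hε
  obtain ⟨K, hKdef⟩ : ∃ K : ℕ, K = 2 ^ 23 := ⟨_, rfl⟩
  have htail : ∀ j : ℕ, ∑ k ∈ Ico K (2 ^ (23 + j)), 2 * (‖cg k‖ * ‖Rk k‖) ≤ 0.00006 := by
    rw [hKdef]; exact tail_le' hM hE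
  have hKle : ∀ j : ℕ, K ≤ 2 ^ (23 + j) := fun j => by
    rw [hKdef]; exact Nat.pow_le_pow_right (by norm_num) (by omega)
  rw [← hKdef]
  have hev := (err_tendsto (∑ k ∈ range K, 2 * (‖cg k‖ * ‖Rk k‖)) (2 * K)).eventually
    (gt_mem_nhds hε)
  filter_upwards [hev, eventually_ge_atTop 25] with q hq hq25 u
  obtain ⟨j, rfl⟩ : ∃ j, q = 24 + j := ⟨q - 24, by omega⟩
  have hM1 := hM.1 (24 + j) (by omega)
  have hsum : Summable fun m => |cw (24 + j) m - cA m| :=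
    Summable.of_nonneg_of_le (fun m => abs_nonneg _) (fun m => abs_sub _ _)
      (hM1.1.add summable_cA)
  have hts : ∑' m, |cw (24 + j) m - cA m| ≤ 0.46 * ((24 + j : ℕ) : ℝ) ^ 4 + 300 := by
    refine (hsum.tsum_le_tsum (fun m => abs_sub _ _) (hM1.1.add summable_cA)).trans ?_
    rw [hM1.1.tsum_add summable_cA]
    exact add_le_add hM1.2 (tsum_cA hM)
  have h1 := hK (2 ^ (23 + j)) (fun m => cw (24 + j) m - cA m) u Nat.one_le_two_pow hsum
  have hhat : ∀ k, hat (fun m => cw (24 + j) m - cA m) k = Rk k - Ek (24 + j) k := by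
    intro k
    rw [hat_sub hM1.1 summable_cA]
    unfold Rk Ek
    ring
  simp only [hhat] at h1
  have hN : ((2 * 2 ^ (23 + j) : ℕ) : ℝ) = 2 ^ (24 + j) := by
    push_cast
    ring
  have hN' : (2 * ((2 ^ (23 + j) : ℕ) : ℝ)) = 2 ^ (24 + j) := by
    push_cast
    ring
  have hN1 : 1 ≤ 2 * 2 ^ (23 + j) := by
    have : 1 ≤ 2 ^ (23 + j) := Nat.one_le_two_pow
    omega
  have h2 := trig_diff K (2 ^ (23 + j)) (hKle j) (fun k => Kf (2 * 2 ^ (23 + j)) (2 * k + 1))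
    Rk (Ek (24 + j)) (5 * (2 * K / 2 ^ (24 + j)) ^ 2)
    (6300 * Real.exp (-(0.05 * (((24 + j : ℕ) : ℝ) - 25)))) u
    (fun k => (hf _ _ hN1).1) (fun k => (hf _ _ hN1).2.1)
    (fun k hk => by
      refine (hf _ _ hN1).2.2.1.trans ?_
      rw [hN]
      have : ((2 * k + 1 : ℕ) : ℝ) ≤ 2 * K := by
        have : 2 * k + 1 ≤ 2 * K := by omega
        exact_mod_cast this
      gcongr)
    (by positivity)
    (fun k hk => ((hE (24 + j) hq25).2 k (by
      have : 24 + j - 1 = 23 + j := by omega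
      rwa [this])).1)
  rw [hN'] at h1
  have h3 : (∑' m, |cw (24 + j) m - cA m|) * (0.36 / 2 ^ (24 + j)) ≤
      (0.46 * ((24 + j : ℕ) : ℝ) ^ 4 + 300) * (0.36 / 2 ^ (24 + j)) := by gcongr
  have h4 := abs_sub_le (∑' m, (cw (24 + j) m - cA m) * Gam (u - Real.log m))
    (trig (2 ^ (23 + j))
      (fun k => Kf (2 * 2 ^ (23 + j)) (2 * k + 1) * cg k * (Rk k - Ek (24 + j) k)) u)
    (trig K (fun k => cg k * Rk k) u)
  have h5 := htail j
  linarith

end Pool.Agent.Lib.MP_5db4ad_nt.S2
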