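import Pool.Agent.Lib.MP_5db4ad_nt.S2Defs2
import Pool.Agent.Lib.MP_5db4ad_nt.S2Gam

/-! The smooth part `Gam` of the periodic function, with the first frequency treated apart. -/

namespace Pool.Agent.Lib.MP_5db4ad_nt.S2

open Finset Filter
open scoped Real Topology

namespace Gam2

open GamB

lemma norm_Rk_le2 (hM : StMassq) (hE : StE2) (j k : ℕ) (hk1 : 1 ≤ k) (hk : k < 2 ^ (24 + j)) :
    ‖Rk k‖ ≤ 11680 + 880 * j + 17 * (j : ℝ) ^ 2 := by
  have h1 := ((hE (25 + j) (by omega)).2 k hk1 (by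
    have : 25 + j - 1 = 24 + j := by omega
    rwa [this])).2
  have h2 := (norm_hat_le summable_cA k).trans (tsum_cA hM)
  have hl := Real.log_two_gt_d9
  have hl2 := Real.log_two_lt_d9
  have hj : (0 : ℝ) ≤ j := Nat.cast_nonneg j
  have h3 : 1 + Lq (25 + j) ≤ 18.03 + 0.6932 * j := by
    unfold Lq
    push_cast
    nlinarith
  have h4 : 0 ≤ 1 + Lq (25 + j) := by
    unfold Lq
    push_cast
    nlinarith
  have h5 : (1 + Lq (25 + j)) ^ 2 ≤ (18.03 + 0.6932 * j) ^ 2 := by gcongr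
  unfold Rk
  have := norm_sub_le (Gf (sk k)) (hat cA k)
  nlinarith

lemma tail_le2 (hM : StMassq) (hE : StE2) (j : ℕ) :
    ∑ k ∈ Ico (2 ^ 23) (2 ^ (23 + j)), 2 * (‖cg k‖ * ‖Rk k‖) ≤
      0.0703 / (4 * 2 ^ 23) * (25222 -
        (23360 + 880 * (2 * j + 2) + 17 * (2 * (j : ℝ) ^ 2 + 4 * j + 6)) / 2 ^ j) := by
  induction j with
  | zero => rw [Nat.add_zero, Ico_self, sum_empty]; norm_num
  | succ j ih =>
    have hle : 2 ^ 23 ≤ 2 ^ (23 + j) := Nat.pow_le_pow_right (by norm_num) (by omega)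
    have hle2 : 2 ^ (23 + j) ≤ 2 ^ (23 + (j + 1)) := Nat.pow_le_pow_right (by norm_num) (by omega)
    rw [← sum_Ico_consecutive _ hle hle2]
    have hj : (0 : ℝ) ≤ j := Nat.cast_nonneg j
    set R : ℝ := 11680 + 880 * j + 17 * (j : ℝ) ^ 2 with hR
    have hb : ∑ k ∈ Ico (2 ^ (23 + j)) (2 ^ (23 + (j + 1))), 2 * (‖cg k‖ * ‖Rk k‖) ≤
        0.0703 / (4 * 2 ^ 23) * (R / 2 ^ j) := by
      calc ∑ k ∈ Ico (2 ^ (23 + j)) (2 ^ (23 + (j + 1))), 2 * (‖cg k‖ * ‖Rk k‖)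
          ≤ ∑ k ∈ Ico (2 ^ (23 + j) : ℕ) (2 ^ (23 + (j + 1))),
            (2 * 0.0703 * R) * (1 / (2 * k + 1 : ℝ) ^ 2) := by
            refine sum_le_sum fun k hk => ?_
            have h1 := norm_cg_le k
            have h2 := norm_Rk_le2 hM hE j k (Nat.one_le_two_pow.trans (mem_Ico.1 hk).1) (by
              have : 24 + j = 23 + (j + 1) := by omega
              rw [this]; exact (mem_Ico.1 hk).2)
            calc 2 * (‖cg k‖ * ‖Rk k‖) ≤ 2 * (0.0703 / (2 * k + 1 : ℝ) ^ 2 * R) := by gcongr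
              _ = _ := by ring
        _ = (2 * 0.0703 * R) * ∑ k ∈ Ico (2 ^ (23 + j) : ℕ) (2 ^ (23 + (j + 1))),
            1 / (2 * k + 1 : ℝ) ^ 2 := by rw [mul_sum]
        _ ≤ (2 * 0.0703 * R) * ((1 / ((2 ^ (23 + j) : ℕ) : ℝ) -
            1 / ((2 ^ (23 + (j + 1)) : ℕ) : ℝ)) / 4) := by
            gcongr
            exact sum_inv_sq _ _ Nat.one_le_two_pow hle2
        _ = 0.0703 / (4 * 2 ^ 23) * (R / 2 ^ j) := by
            rw [Nat.cast_pow, Nat.cast_pow, Nat.cast_ofNat, pow_add, pow_add, pow_succ (2 : ℝ) j]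
            field_simp
            ring
    refine (add_le_add ih hb).trans (le_of_eq ?_)
    rw [hR, pow_succ (2 : ℝ) j]
    push_cast
    field_simp
    ring

lemma tail_le3 (hM : StMassq) (hE : StE2) (j : ℕ) :
    ∑ k ∈ Ico (2 ^ 23) (2 ^ (23 + j)), 2 * (‖cg k‖ * ‖Rk k‖) ≤ 0.00006 := by
  refine (tail_le2 hM hE j).trans ?_
  have h : (0 : ℝ) ≤ (23360 + 880 * (2 * j + 2) + 17 * (2 * (j : ℝ) ^ 2 + 4 * j + 6)) / 2 ^ j := by
    positivity
  have h2 : (0.0703 : ℝ) / (4 * 2 ^ 23) * 25222 ≤ 0.00006 := by norm_num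
  have h3 : (0 : ℝ) ≤ 0.0703 / (4 * 2 ^ 23) := by positivity
  nlinarith

end Gam2

open GamB Gam2 in
theorem gamb2 (hK : StKerGam) (hf : StKf) (hM : StMassq) (hE : StE2) (hE0 : StE0) : StGam := by
  intro ε hε
  obtain ⟨K, hKdef⟩ : ∃ K : ℕ, K = 2 ^ 23 := ⟨_, rfl⟩
  have htail : ∀ j : ℕ, ∑ k ∈ Ico K (2 ^ (23 + j)), 2 * (‖cg k‖ * ‖Rk k‖) ≤ 0.00006 := by
    rw [hKdef]; exact tail_le3 hM hE
  have hKle : ∀ j : ℕ, K ≤ 2 ^ (23 + j) := fun j => by
    rw [hKdef]; exact Nat.pow_le_pow_right (by norm_num) (by omega)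
  rw [← hKdef]
  have hlim := (err_tendsto (∑ k ∈ range K, 2 * (‖cg k‖ * ‖Rk k‖)) (2 * K)).add
    (hE0.2.const_mul 2)
  rw [mul_zero, add_zero] at hlim
  have hev := hlim.eventually (gt_mem_nhds hε)
  filter_upwards [hev, eventually_ge_atTop 25] with q hq hq25 u
  obtain ⟨j, rfl⟩ : ∃ j, q = 24 + j := ⟨q - 24, by omega⟩
  have hM1 := hM.1 (24 + j) (by omega)
  have hsum : Summable fun m => |cw (24 + j) m - cA m| :=
    Summable.of_nonneg_of_le (fun m => abs_nonneg _) (fun m => abs_sub _ _)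
      (hM1.1.add summable_cA)
  have hts : ∑' m, |cw (24 + j) m - cA m| ≤ 0.46 * ((24 + j : ℕ) : ℝ) ^ 4 + 300 := by
    refine (hsum.tsum_le_tsum (fun m => abs_sub _ _) (hM1.1.add summable_cA)).trans ?_
    rw [hM1.1.tsum_add summable_cA]
    exact add_le_add hM1.2 (tsum_cA hM)
  have h1 := hK (2 ^ (23 + j)) (fun m => cw (24 + j) m - cA m) u Nat.one_le_two_pow hsum
  have hhat : ∀ k, hat (fun m => cw (24 + j) m - cA m) k = Rk k - Ek (24 + j) k := by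
    intro k
    rw [hat_sub hM1.1 summable_cA]
    unfold Rk Ek
    ring
  simp only [hhat] at h1
  have hN : ((2 * 2 ^ (23 + j) : ℕ) : ℝ) = 2 ^ (24 + j) := by
    push_cast
    ring
  have hN' : (2 * ((2 ^ (23 + j) : ℕ) : ℝ)) = 2 ^ (24 + j) := by
    push_cast
    ring
  have hN1 : 1 ≤ 2 * 2 ^ (23 + j) := by
    have : 1 ≤ 2 ^ (23 + j) := Nat.one_le_two_pow
    omega
  have h2 := trig_diff K (2 ^ (23 + j)) (hKle j) (fun k => Kf (2 * 2 ^ (23 + j)) (2 * k + 1))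
    Rk (Ek (24 + j)) (5 * (2 * K / 2 ^ (24 + j)) ^ 2)
    (6300 * Real.exp (-(0.05 * (((24 + j : ℕ) : ℝ) - 25))) + ‖Ek (24 + j) 0‖) u
    (fun k => (hf _ _ hN1).1) (fun k => (hf _ _ hN1).2.1)
    (fun k hk => by
      refine (hf _ _ hN1).2.2.1.trans ?_
      rw [hN]
      have : ((2 * k + 1 : ℕ) : ℝ) ≤ 2 * K := by
        have : 2 * k + 1 ≤ 2 * K := by omega
        exact_mod_cast this
      gcongr)
    (by positivity)
    (fun k hk => by
      rcases Nat.eq_zero_or_pos k with rfl | hk1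
      · exact le_add_of_nonneg_left (by positivity)
      · exact le_add_of_le_of_nonneg ((hE (24 + j) hq25).2 k hk1 (by
          have : 24 + j - 1 = 23 + j := by omega
          rwa [this])).1 (norm_nonneg _))
  rw [hN'] at h1
  have h3 : (∑' m, |cw (24 + j) m - cA m|) * (0.36 / 2 ^ (24 + j)) ≤
      (0.46 * ((24 + j : ℕ) : ℝ) ^ 4 + 300) * (0.36 / 2 ^ (24 + j)) := by gcongr
  have h4 := abs_sub_le (∑' m, (cw (24 + j) m - cA m) * Gam (u - Real.log m))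
    (trig (2 ^ (23 + j))
      (fun k => Kf (2 * 2 ^ (23 + j)) (2 * k + 1) * cg k * (Rk k - Ek (24 + j) k)) u)
    (trig K (fun k => cg k * Rk k) u)
  have h5 := htail j
  linarith

end Pool.Agent.Lib.MP_5db4ad_nt.S2
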