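import Pool.Agent.Lib.MP_5db4ad_nt.S2Defs

/-! The kernel `(π / p) / sin (π z / p)`: size on vertical lines and Mellin inversion. -/

namespace Pool.Agent.Lib.MP_5db4ad_nt.S2

open Filter MeasureTheory Set
open scoped Real Topology

namespace Kap

lemma normSq_sin (x y : ℝ) :
    ‖Complex.sin (x + y * Complex.I)‖ ^ 2 = Real.sin x ^ 2 + Real.sinh y ^ 2 := by
  have h : Complex.sin (x + y * Complex.I) =
      ((Real.sin x * Real.cosh y : ℝ) : ℂ) + ((Real.cos x * Real.sinh y : ℝ) : ℂ) * Complex.I := by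
    rw [Complex.sin_add_mul_I]
    push_cast
    ring
  rw [h, Complex.sq_norm, Complex.normSq_add_mul_I]
  have h1 := Real.cosh_sq y
  have h2 := Real.sin_sq_add_cos_sq x
  have h3 : Real.cos x ^ 2 = 1 - Real.sin x ^ 2 := by linarith
  rw [mul_pow, mul_pow, h1, h3]
  ring

lemma sin_ge_cosh (x y : ℝ) :
    |Real.sin x| * Real.cosh y ≤ ‖Complex.sin (x + y * Complex.I)‖ := by
  refine abs_le_of_sq_le_sq' ?_ (norm_nonneg _) |>.2
  rw [normSq_sin, mul_pow, sq_abs, Real.cosh_sq]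
  have h1 : Real.sin x ^ 2 ≤ 1 := Real.sin_sq_le_one x
  nlinarith [sq_nonneg (Real.sinh y)]

lemma sin_ge_sinh (x y : ℝ) : |Real.sinh y| ≤ ‖Complex.sin (x + y * Complex.I)‖ := by
  refine abs_le_of_sq_le_sq' ?_ (norm_nonneg _) |>.2
  rw [normSq_sin, sq_abs]
  nlinarith [sq_nonneg (Real.sin x)]

lemma arg_eq (p a t : ℝ) : (π : ℂ) * (a + t * Complex.I) / p =
    ((π * a / p : ℝ) : ℂ) + ((π * t / p : ℝ) : ℂ) * Complex.I := by
  push_cast
  ring

lemma norm_kap {p : ℝ} (hp : 0 < p) (z : ℂ) :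
    ‖kap p z‖ = π / p / ‖Complex.sin (π * z / p)‖ := by
  unfold kap
  rw [norm_div, norm_div, Complex.norm_real, Complex.norm_real, Real.norm_of_nonneg Real.pi_pos.le,
    Real.norm_of_nonneg hp.le]

lemma integrable_sech : Integrable fun y : ℝ => (Real.cosh y)⁻¹ := by
  refine (integrable_inv_one_add_sq.const_mul 4).mono' ?_ (Eventually.of_forall fun y => ?_)
  · exact (Real.continuous_cosh.inv₀ fun y => (Real.cosh_pos y).ne').aestronglyMeasurable
  · have h1 := Real.quadratic_le_exp_of_nonneg (abs_nonneg y)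
    have h2 : Real.exp |y| / 2 ≤ Real.cosh y := by
      rw [← Real.cosh_abs, Real.cosh_eq]
      have := Real.exp_pos (-|y|)
      linarith
    rw [sq_abs] at h1
    have h3 : (1 + y ^ 2) / 4 ≤ Real.cosh y := by
      have := abs_nonneg y
      linarith
    rw [Real.norm_of_nonneg (inv_pos.2 (Real.cosh_pos y)).le]
    calc (Real.cosh y)⁻¹ ≤ ((1 + y ^ 2) / 4)⁻¹ := inv_anti₀ (by positivity) h3
      _ = 4 * (1 + y ^ 2)⁻¹ := by rw [inv_div, div_eq_mul_inv]

lemma integral_sech : ∫ y : ℝ, (Real.cosh y)⁻¹ = π := by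
  have hd : ∀ y : ℝ, HasDerivAt (fun y => 2 * Real.arctan (Real.exp y)) (Real.cosh y)⁻¹ y := by
    intro y
    have h := ((Real.hasDerivAt_exp y).arctan).const_mul 2
    refine h.congr_deriv ?_
    rw [Real.cosh_eq, Real.exp_neg]
    have := Real.exp_pos y
    field_simp
    ring
  have hb : Tendsto (fun y => 2 * Real.arctan (Real.exp y)) atBot (𝓝 0) := by
    have h := ((Real.continuous_arctan.tendsto 0).comp Real.tendsto_exp_atBot).const_mul 2
    simpa using h
  have ht : Tendsto (fun y => 2 * Real.arctan (Real.exp y)) atTop (𝓝 π) := by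
    have h := (((Real.tendsto_arctan_atTop).mono_right nhdsWithin_le_nhds).comp
      Real.tendsto_exp_atTop).const_mul 2
    have e : 2 * (π / 2) = π := by ring
    rw [e] at h
    exact h
  rw [integral_of_hasDerivAt_of_tendsto hd integrable_sech hb ht, sub_zero]

lemma sin_ne {p a : ℝ} (hp : 0 < p) (ha : a ≠ 0) (hap : |a| < p) : Real.sin (π * a / p) ≠ 0 := by
  have hπ := Real.pi_pos
  obtain ⟨h1, h2⟩ := abs_lt.1 hap
  have h3 : -π < π * a / p := by
    rw [lt_div_iff₀ hp]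
    nlinarith
  have h4 : π * a / p < π := by
    rw [div_lt_iff₀ hp]
    nlinarith
  intro h
  have h5 := (Real.sin_eq_zero_iff_of_lt_of_lt h3 h4).1 h
  rcases div_eq_zero_iff.1 h5 with h6 | h6
  · exact (mul_ne_zero hπ.ne' ha) h6
  · exact hp.ne' h6

lemma part1 {p a : ℝ} (hp : 0 < p) (ha : a ≠ 0) (hap : |a| < p) :
    Integrable (fun t : ℝ => kap p (a + t * Complex.I)) ∧
      ∫ t : ℝ, ‖kap p (a + t * Complex.I)‖ ≤ π / |Real.sin (π * a / p)| := by
  have hπ := Real.pi_pos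
  have hs : 0 < |Real.sin (π * a / p)| := abs_pos.2 (sin_ne hp ha hap)
  have hlow : ∀ t : ℝ, |Real.sin (π * a / p)| * Real.cosh (π / p * t) ≤
      ‖Complex.sin (π * (a + t * Complex.I) / p)‖ := by
    intro t
    have e : π / p * t = π * t / p := by ring
    rw [arg_eq, e]
    exact sin_ge_cosh _ _
  have hb : ∀ t : ℝ, ‖kap p (a + t * Complex.I)‖ ≤
      π / p / |Real.sin (π * a / p)| * (Real.cosh (π / p * t))⁻¹ := by
    intro t
    have hc := Real.cosh_pos (π / p * t)
    rw [norm_kap hp, ← div_eq_mul_inv, div_div (π / p)]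
    exact div_le_div_of_nonneg_left (by positivity) (by positivity) (hlow t)
  have hi : Integrable fun t : ℝ =>
      π / p / |Real.sin (π * a / p)| * (Real.cosh (π / p * t))⁻¹ :=
    (integrable_sech.comp_mul_left' (by positivity : π / p ≠ 0)).const_mul _
  have hc : Continuous fun t : ℝ => kap p (a + t * Complex.I) := by
    unfold kap
    refine continuous_const.div (by fun_prop) fun t => ?_
    have hc := Real.cosh_pos (π / p * t)
    exact norm_pos_iff.1 ((mul_pos hs hc).trans_le (hlow t))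
  have hk : Integrable (fun t : ℝ => kap p (a + t * Complex.I)) :=
    hi.mono' hc.aestronglyMeasurable (Eventually.of_forall hb)
  refine ⟨hk, (integral_mono hk.norm hi hb).trans (le_of_eq ?_)⟩
  rw [integral_const_mul, Measure.integral_comp_mul_left (fun y => (Real.cosh y)⁻¹), integral_sech,
    abs_of_pos (by positivity : 0 < (π / p)⁻¹), smul_eq_mul]
  field_simp

lemma part2 {p : ℝ} (hp : 0 < p) (a t : ℝ) (ht : p ≤ |t|) :
    ‖kap p (a + t * Complex.I)‖ ≤ 2.01 * π / p * Real.exp (-(π * |t| / p)) := by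
  have hπ := Real.pi_pos
  set u : ℝ := π * |t| / p with hu
  have hu3 : 3 ≤ u := by
    rw [hu, le_div_iff₀ hp]
    have := Real.pi_gt_three
    nlinarith
  have he : 16 ≤ Real.exp u := by
    have h1 : Real.exp 3 ≤ Real.exp u := Real.exp_le_exp.2 hu3
    have h2 : Real.exp 3 = Real.exp 1 ^ 3 := by
      rw [← Real.exp_nat_mul]
      norm_num
    have h3 := Real.exp_one_gt_d9
    have h4 : (2.7 : ℝ) ^ 3 ≤ Real.exp 1 ^ 3 := pow_le_pow_left₀ (by norm_num) (by linarith) 3
    have h5 : (16 : ℝ) ≤ 2.7 ^ 3 := by norm_num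
    linarith
  have hlow : Real.exp u / 2.01 ≤ ‖Complex.sin (π * (a + t * Complex.I) / p)‖ := by
    rw [arg_eq]
    refine le_trans ?_ (sin_ge_sinh _ _)
    rw [Real.abs_sinh, abs_div, abs_mul, abs_of_pos hπ, abs_of_pos hp, ← hu, Real.sinh_eq,
      Real.exp_neg]
    have h1 : (Real.exp u)⁻¹ ≤ 16⁻¹ := inv_anti₀ (by norm_num) he
    rw [div_le_div_iff₀ (by norm_num) (by norm_num)]
    nlinarith
  rw [norm_kap hp]
  refine (div_le_div_of_nonneg_left (by positivity) (by positivity) hlow).trans (le_of_eq ?_)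
  rw [Real.exp_neg]
  field_simp

lemma part3 {p : ℝ} (hp : 0 < p) :
    ∃ k1 : ℂ → ℂ, DifferentiableOn ℂ k1 {z | |z.re| < p} ∧ ∀ z, z ≠ 0 → k1 z = z * kap p z := by
  have hp' : (p : ℂ) ≠ 0 := Complex.ofReal_ne_zero.2 hp.ne'
  have hπ' : (π : ℂ) ≠ 0 := Complex.ofReal_ne_zero.2 Real.pi_pos.ne'
  have hs : Differentiable ℂ fun z : ℂ => Complex.sin (π * z / p) := by fun_prop
  have hd : DifferentiableOn ℂ (dslope (fun z : ℂ => Complex.sin (π * z / p)) 0) univ :=
    (Complex.differentiableOn_dslope univ_mem).2 hs.differentiableOn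
  have hv : ∀ z : ℂ, z ≠ 0 →
      dslope (fun z : ℂ => Complex.sin (π * z / p)) 0 z = z⁻¹ * Complex.sin (π * z / p) := by
    intro z hz
    rw [dslope_of_ne _ hz, slope_def_module]
    simp
  refine ⟨fun z => (π / p) / dslope (fun z : ℂ => Complex.sin (π * z / p)) 0 z, ?_, ?_⟩
  · refine (differentiableOn_const _).div (hd.mono (subset_univ _)) fun z hz => ?_
    by_cases h0 : z = 0
    · subst h0
      rw [dslope_same]
      have h1 : HasDerivAt (fun z : ℂ => (π : ℂ) * z / p) (π * 1 / p) 0 :=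
        ((hasDerivAt_id (0 : ℂ)).const_mul (π : ℂ)).div_const _
      rw [h1.csin.deriv]
      simp [hp', hπ']
    · rw [hv z h0]
      refine mul_ne_zero (inv_ne_zero h0) fun h => ?_
      obtain ⟨k, hk⟩ := Complex.sin_eq_zero_iff.1 h
      have hz' : z = ((k * p : ℝ) : ℂ) := by
        field_simp at hk
        push_cast
        rw [hk]
        ring
      have h2 : |(k : ℝ) * p| < p := by
        have h3 : |z.re| < p := hz
        rwa [hz', Complex.ofReal_re] at h3
      rw [abs_mul, abs_of_pos hp] at h2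
      have h4 : |(k : ℝ)| < 1 := by nlinarith
      have h5 : |k| < 1 := by exact_mod_cast h4
      have h6 : k = 0 := Int.abs_lt_one_iff.1 h5
      apply h0
      rw [hz', h6]
      simp
  · intro z hz
    simp only [hv z hz, kap]
    rw [div_eq_mul_inv (π / p : ℂ), mul_inv, inv_inv, div_eq_mul_inv (π / p : ℂ)]
    ring

lemma image_eq : (fun x : ℝ => x / (1 - x)) '' Ioo 0 1 = Ioi 0 := by
  ext y
  constructor
  · rintro ⟨x, ⟨h0, h1⟩, rfl⟩
    exact div_pos h0 (sub_pos.2 h1)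
  · intro hy
    have hy' : (0 : ℝ) < y := hy
    refine ⟨y / (1 + y), ⟨by positivity, (div_lt_one (by positivity)).2 (by linarith)⟩, ?_⟩
    have : (1 : ℝ) + y ≠ 0 := by positivity
    field_simp
    ring

lemma deriv_sub (x : ℝ) (hx : x ∈ Ioo (0 : ℝ) 1) :
    HasDerivWithinAt (fun x : ℝ => x / (1 - x)) (1 / (1 - x) ^ 2) (Ioo 0 1) x := by
  have h1 : (1 : ℝ) - x ≠ 0 := (sub_pos.2 hx.2).ne'
  have h := (hasDerivAt_id x).div ((hasDerivAt_id x).const_sub 1) h1
  refine (h.congr_deriv ?_).hasDerivWithinAt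
  simp

lemma inj_sub : InjOn (fun x : ℝ => x / (1 - x)) (Ioo 0 1) := by
  intro x hx y hy h
  have h1 : (1 : ℝ) - x ≠ 0 := (sub_pos.2 hx.2).ne'
  have h2 : (1 : ℝ) - y ≠ 0 := (sub_pos.2 hy.2).ne'
  have h3 := (div_eq_div_iff h1 h2).1 h
  linarith

lemma integrand_eq (s : ℂ) (x : ℝ) (hx : x ∈ Ioo (0 : ℝ) 1) :
    |1 / (1 - x) ^ 2| • (((x / (1 - x) : ℝ) : ℂ) ^ (s - 1) • ((1 / (1 + x / (1 - x)) : ℝ) : ℂ)) =
      (x : ℂ) ^ (s - 1) * (1 - (x : ℂ)) ^ (1 - s - 1) := by
  have h1 : (0 : ℝ) < 1 - x := sub_pos.2 hx.2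
  have h2 : ((1 - x : ℝ) : ℂ) ≠ 0 := Complex.ofReal_ne_zero.2 h1.ne'
  have h3 : 1 / (1 + x / (1 - x)) = 1 - x := by
    field_simp
    ring
  have h4 : (((1 - x)⁻¹ : ℝ) : ℂ) ^ (s - 1) = ((1 - x : ℝ) : ℂ) ^ (1 - s) := by
    rw [Complex.ofReal_inv, Complex.inv_cpow _ _ (by
      rw [Complex.arg_ofReal_of_nonneg h1.le]; exact Real.pi_pos.ne), ← Complex.cpow_neg, neg_sub]
  have h5 : (1 : ℂ) - x = ((1 - x : ℝ) : ℂ) := by push_cast; ring
  rw [h3, abs_of_pos (by positivity), div_eq_mul_inv x, Complex.ofReal_mul,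
    Complex.mul_cpow_ofReal_nonneg hx.1.le (inv_pos.2 h1).le, h4, h5,
    Complex.cpow_sub (1 - s) 1 h2, Complex.cpow_one, smul_eq_mul, Complex.real_smul,
    Complex.ofReal_div, Complex.ofReal_pow, Complex.ofReal_one]
  field_simp

lemma mellin_base {s : ℂ} (h0 : 0 < s.re) (h1 : s.re < 1) :
    MellinConvergent (fun y : ℝ => ((1 / (1 + y) : ℝ) : ℂ)) s ∧
      mellin (fun y : ℝ => ((1 / (1 + y) : ℝ) : ℂ)) s = π / Complex.sin (π * s) := by
  have h2 : 0 < (1 - s).re := by
    rw [Complex.sub_re, Complex.one_re]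
    linarith
  constructor
  · rw [MellinConvergent, ← image_eq,
      integrableOn_image_iff_integrableOn_abs_deriv_smul measurableSet_Ioo deriv_sub inj_sub,
      integrableOn_congr_fun (fun x hx => integrand_eq s x hx) measurableSet_Ioo]
    exact (intervalIntegrable_iff_integrableOn_Ioo_of_le zero_le_one).1
      (Complex.betaIntegral_convergent h0 h2)
  · rw [mellin, ← image_eq,
      integral_image_eq_integral_abs_deriv_smul measurableSet_Ioo deriv_sub inj_sub,
      setIntegral_congr_fun measurableSet_Ioo (fun x hx => integrand_eq s x hx),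
      ← Complex.Gamma_mul_Gamma_one_sub, Complex.Gamma_mul_Gamma_eq_betaIntegral h0 h2,
      add_sub_cancel, Complex.Gamma_one, one_mul, Complex.betaIntegral,
      intervalIntegral.integral_of_le zero_le_one, integral_Ioc_eq_integral_Ioo]

lemma part4 {p c y : ℝ} (hp : 0 < p) (hc : 0 < c) (hcp : c < p) (hy : 0 < y) :
    ∫ t : ℝ, (y : ℂ) ^ (-(c + t * Complex.I)) * kap p (c + t * Complex.I) =
      ((2 * π / (1 + y ^ p) : ℝ) : ℂ) := by
  have hre : ∀ z : ℂ, z.re = c → 0 < (z / p).re ∧ (z / p).re < 1 := by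
    intro z hz
    rw [Complex.div_ofReal_re, hz]
    exact ⟨div_pos hc hp, (div_lt_one hp).2 hcp⟩
  have hm : ∀ t : ℝ, mellin (fun u : ℝ => ((1 / (1 + u ^ p) : ℝ) : ℂ)) (c + t * Complex.I) =
      kap p (c + t * Complex.I) := by
    intro t
    obtain ⟨h0, h1⟩ := hre (c + t * Complex.I) (by simp)
    rw [mellin_comp_rpow (fun u : ℝ => ((1 / (1 + u) : ℝ) : ℂ)), (mellin_base h0 h1).2,
      abs_of_pos hp, Complex.real_smul, kap, mul_div_assoc (π : ℂ) (c + t * Complex.I)]
    push_cast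
    ring
  have hconv : MellinConvergent (fun u : ℝ => ((1 / (1 + u ^ p) : ℝ) : ℂ)) c := by
    obtain ⟨h0, h1⟩ := hre c (by simp)
    exact (MellinConvergent.comp_rpow (f := fun u : ℝ => ((1 / (1 + u) : ℝ) : ℂ)) hp.ne').2
      (mellin_base h0 h1).1
  have hv : Complex.VerticalIntegrable (mellin fun u : ℝ => ((1 / (1 + u ^ p) : ℝ) : ℂ)) c := by
    unfold Complex.VerticalIntegrable
    simp only [hm]
    exact (part1 hp hc.ne' (by rwa [abs_of_pos hc])).1
  have hcont : ContinuousAt (fun u : ℝ => ((1 / (1 + u ^ p) : ℝ) : ℂ)) y := by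
    refine Complex.continuous_ofReal.continuousAt.comp ?_
    have h1 : 0 < y ^ p := Real.rpow_pos_of_pos hy p
    exact continuousAt_const.div
      (continuousAt_const.add (Real.continuousAt_rpow_const y p (Or.inl hy.ne'))) (by positivity)
  have h := mellinInv_mellin_eq c _ hy hconv hv hcont
  simp only [mellinInv, hm, smul_eq_mul, Complex.real_smul] at h
  have e : (2 * π / (1 + y ^ p) : ℝ) = 2 * π * (1 / (1 + y ^ p)) := by ring
  have e2 : (2 * π * (1 / (2 * π)) : ℝ) = 1 := by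
    have := Real.pi_pos
    field_simp
  rw [e, Complex.ofReal_mul, ← h, ← mul_assoc, ← Complex.ofReal_mul, e2, Complex.ofReal_one,
    one_mul]

end Kap

theorem kapp : StKap := fun _ hp =>
  ⟨fun _ ha hap => Kap.part1 hp ha hap, fun a t ht => Kap.part2 hp a t ht, Kap.part3 hp,
    fun _ _ hc hcp hy => Kap.part4 hp hc hcp hy⟩

end Pool.Agent.Lib.MP_5db4ad_nt.S2
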