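import Pool.Agent.Lib.MP_5db4ad_nt.S2Defs

/-! The nonnegative kernel: positivity, mass and moments. -/

namespace Pool.Agent.Lib.MP_5db4ad_nt.S2

open Finset Filter
open scoped Real

namespace Ker0

lemma Kp_nonneg {x : ℝ} (h0 : 0 ≤ x) (h1 : x ≤ 1) : 0 ≤ Kp x := by
  rw [show Kp x = (1 - x) ^ 3 * (1 + 3 * x + x ^ 2) by unfold Kp; ring]
  exact mul_nonneg (pow_nonneg (by linarith) 3) (by positivity)

lemma Kp_le {x : ℝ} (h0 : 0 ≤ x) (h1 : x ≤ 1) : Kp x ≤ 1 ∧ 1 - Kp x ≤ 5 * x ^ 2 := by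
  have h2 : 0 ≤ x ^ 2 * (1 - x) := mul_nonneg (by positivity) (by linarith)
  have h3 : 0 ≤ x ^ 5 := by positivity
  have h4 : x ^ 5 ≤ x ^ 3 := pow_le_pow_of_le_one h0 h1 (by norm_num)
  have h5 : 0 ≤ x ^ 3 := by positivity
  unfold Kp
  constructor <;> nlinarith

lemma Kp_half {x : ℝ} (h0 : 0 ≤ x) (h1 : x ≤ 1) : |Kp (x / 2) - Kp x| ≤ 0.845 * x := by
  rw [show Kp (x / 2) - Kp x = (3.75 * x - 4.375 * x ^ 2 + 0.96875 * x ^ 4) * x by unfold Kp; ring,
    abs_mul, abs_of_nonneg h0]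
  refine mul_le_mul_of_nonneg_right (abs_le.2 ⟨?_, ?_⟩) h0
  · have : 0 ≤ x ^ 4 := by positivity
    nlinarith
  · have h2 : 0 ≤ 1 - x ^ 2 := by nlinarith
    nlinarith [mul_nonneg (sq_nonneg (x - 0.476)) (sub_nonneg.2 h1),
      mul_nonneg (sq_nonneg (x - 0.476)) h2, sq_nonneg (x - 0.476)]

lemma Kp_big {x : ℝ} (h0 : 1 / 2 ≤ x) (h1 : x ≤ 1) : Kp x ≤ 0.845 := by
  rw [show Kp x = (1 - x) ^ 3 * (1 + 3 * x + x ^ 2) by unfold Kp; ring]
  have h2 : (1 - x) ^ 3 ≤ (1 / 2) ^ 3 := pow_le_pow_left₀ (by linarith) (by linarith) 3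
  have h3 : 1 + 3 * x + x ^ 2 ≤ 5 := by nlinarith
  calc _ ≤ (1 / 2 : ℝ) ^ 3 * 5 := mul_le_mul h2 h3 (by positivity) (by positivity)
    _ ≤ _ := by norm_num

lemma Kf_eq {N n : ℕ} (hN : 1 ≤ N) (h : n ≤ N) : Kf N n = Kp (n / N) := by
  unfold Kf
  split_ifs with h1
  · rfl
  · obtain rfl : n = N := by omega
    rw [div_self (Nat.cast_ne_zero.2 (by omega))]
    norm_num [Kp]

/-- An autocorrelation has a nonnegative cosine transform. -/
lemma auto (β : ℕ → ℝ) (θ : ℝ) (N : ℕ) :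
    ∑ j ∈ range N, β j * β j +
      2 * ∑ n ∈ range N, (∑ j ∈ range (N - (n + 1)), β j * β (j + (n + 1))) *
        Real.cos ((n + 1 : ℕ) * θ) =
      (∑ j ∈ range N, β j * Real.cos (j * θ)) ^ 2 + (∑ j ∈ range N, β j * Real.sin (j * θ)) ^ 2 := by
  induction N with
  | zero => simp
  | succ N ih =>
    have h1 : ∑ n ∈ range N, (∑ j ∈ range (N + 1 - (n + 1)), β j * β (j + (n + 1))) *
        Real.cos ((n + 1 : ℕ) * θ) =
        ∑ n ∈ range N, (∑ j ∈ range (N - (n + 1)), β j * β (j + (n + 1))) *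
          Real.cos ((n + 1 : ℕ) * θ) +
        β N * (Real.cos (N * θ) * ∑ j ∈ range N, β j * Real.cos (j * θ) +
          Real.sin (N * θ) * ∑ j ∈ range N, β j * Real.sin (j * θ)) := by
      rw [mul_sum, mul_sum, ← sum_add_distrib, mul_sum, ← sum_range_reflect
        (fun j => β N * (Real.cos (N * θ) * (β j * Real.cos (j * θ)) +
          Real.sin (N * θ) * (β j * Real.sin (j * θ)))), ← sum_add_distrib]
      refine sum_congr rfl fun n hn => ?_
      obtain ⟨d, rfl⟩ : ∃ d, N = d + (n + 1) := ⟨N - (n + 1), by have := mem_range.1 hn; omega⟩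
      rw [show d + (n + 1) + 1 - (n + 1) = d + 1 by omega, show d + (n + 1) - (n + 1) = d by omega,
        show d + (n + 1) - 1 - n = d by omega, sum_range_succ,
        show ((n + 1 : ℕ) : ℝ) * θ = (d + (n + 1) : ℕ) * θ - d * θ by push_cast; ring, Real.cos_sub]
      ring
    rw [sum_range_succ, sum_range_succ, sum_range_succ, sum_range_succ, h1, Nat.sub_self,
      sum_range_zero]
    linear_combination ih - β N ^ 2 * Real.cos_sq_add_sin_sq (N * θ)

/-- The parabola that vanishes at `0` and `N`. -/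
def B (N t : ℝ) : ℝ := t * (N - t)

/-- A primitive of `B N t * B N (t + n)`. -/
noncomputable def A (N n t : ℝ) : ℝ :=
  N * n * (N - n) * t ^ 2 / 2 + (N * (N - 2 * n) - n * (N - n)) * t ^ 3 / 3 -
    (N - n) * t ^ 4 / 2 + t ^ 5 / 5

/-- The correlation of the parabola along a shifted lattice. -/
def cr (N n : ℕ) (s : ℝ) : ℝ := ∑ j ∈ range (N - n), B N (j + s) * B N ((j + n : ℕ) + s)

lemma boole {N n : ℕ} (hN : 1 ≤ N) (h : n ≤ N) :
    7 * cr N n 0 + 32 * cr N n (1 / 4) + 12 * cr N n (1 / 2) + 32 * cr N n (3 / 4) + 7 * cr N n 1 =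
      3 * (N : ℝ) ^ 5 * Kf N n := by
  have hN' : (N : ℝ) ≠ 0 := Nat.cast_ne_zero.2 (by omega)
  have h1 := sum_range_sub (fun j : ℕ => 90 * A N n j) (N - n)
  simp only [cr, mul_sum, ← sum_add_distrib]
  rw [Kf_eq hN h]
  refine Eq.trans (sum_congr rfl fun j _ => ?_) (h1.trans ?_)
  · unfold A B
    push_cast
    ring
  · rw [Nat.cast_sub h]
    unfold A Kp
    field_simp
    ring

lemma pos {N : ℕ} (hN : 1 ≤ N) (θ : ℝ) :
    0 ≤ 1 + 2 * ∑ n ∈ range N, Kf N (n + 1) * Real.cos ((n + 1 : ℕ) * θ) := by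
  have h1 : ∀ s, 0 ≤ cr N 0 s + 2 * ∑ n ∈ range N, cr N (n + 1) s * Real.cos ((n + 1 : ℕ) * θ) :=
    fun s => le_of_le_of_eq (by positivity) (auto (fun j => B N (j + s)) θ N).symm
  have h2 := boole hN (Nat.zero_le N)
  have h3 : Kf N 0 = 1 := by simp [Kf_eq hN, Kp]
  have h4 : 3 * (N : ℝ) ^ 5 * ∑ n ∈ range N, Kf N (n + 1) * Real.cos ((n + 1 : ℕ) * θ) =
      7 * ∑ n ∈ range N, cr N (n + 1) 0 * Real.cos ((n + 1 : ℕ) * θ) +
      32 * ∑ n ∈ range N, cr N (n + 1) (1 / 4) * Real.cos ((n + 1 : ℕ) * θ) +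
      12 * ∑ n ∈ range N, cr N (n + 1) (1 / 2) * Real.cos ((n + 1 : ℕ) * θ) +
      32 * ∑ n ∈ range N, cr N (n + 1) (3 / 4) * Real.cos ((n + 1 : ℕ) * θ) +
      7 * ∑ n ∈ range N, cr N (n + 1) 1 * Real.cos ((n + 1 : ℕ) * θ) := by
    simp only [mul_sum, ← sum_add_distrib]
    refine sum_congr rfl fun n hn => ?_
    linear_combination -Real.cos ((n + 1 : ℕ) * θ) * boole hN (mem_range.1 hn)
  have h5 : (0 : ℝ) < 3 * (N : ℝ) ^ 5 := by
    have : (0 : ℝ) < N := Nat.cast_pos.2 hN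
    positivity
  refine (mul_nonneg_iff_of_pos_left h5).1 ?_
  rw [h3] at h2
  linarith [h1 0, h1 (1 / 4), h1 (1 / 2), h1 (3 / 4), h1 1]

lemma l_pos : 0 < Real.log 2 := Real.log_pos one_lt_two

lemma kern_eq (M : ℕ) (v : ℝ) : kern M v = (1 + 2 * ∑ n ∈ range (2 * M),
    Kf (2 * M) (n + 1) * Real.cos ((n + 1 : ℕ) * (π * v / Real.log 2))) / (2 * Real.log 2) := by
  unfold kern
  rw [← Ico_add_one_right_eq_Icc, sum_Ico_eq_sum_range, Nat.add_sub_cancel]
  congr 3
  refine sum_congr rfl fun n _ => ?_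
  rw [add_comm 1 n]
  congr 2
  ring

lemma kern_nonneg {M : ℕ} (hM : 1 ≤ M) (v : ℝ) : 0 ≤ kern M v := by
  rw [kern_eq]
  exact div_nonneg (pos (by omega) _) (by linarith [l_pos])

lemma kern_cont (M : ℕ) : Continuous (kern M) := by
  unfold kern
  fun_prop

lemma int_kern (M : ℕ) {g : ℝ → ℝ} (hg : Continuous g) :
    ∫ v in (-Real.log 2)..Real.log 2, g v * kern M v =
      ((∫ v in (-Real.log 2)..Real.log 2, g v) + 2 * ∑ n ∈ range (2 * M), Kf (2 * M) (n + 1) *
        ∫ v in (-Real.log 2)..Real.log 2, g v * Real.cos ((n + 1 : ℕ) * (π * v / Real.log 2))) /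
        (2 * Real.log 2) := by
  have h1 : ∀ v, g v * kern M v = (g v + 2 * ∑ n ∈ range (2 * M), Kf (2 * M) (n + 1) *
      (g v * Real.cos ((n + 1 : ℕ) * (π * v / Real.log 2)))) / (2 * Real.log 2) := fun v => by
    rw [kern_eq, ← mul_div_assoc, mul_add, mul_one, mul_left_comm, mul_sum]
    simp only [mul_left_comm (g v)]
  simp only [h1]
  rw [intervalIntegral.integral_div, intervalIntegral.integral_add (hg.intervalIntegrable _ _)
    (Continuous.intervalIntegrable (by fun_prop) _ _), intervalIntegral.integral_const_mul,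
    intervalIntegral.integral_finsetSum fun n _ => Continuous.intervalIntegrable (by fun_prop) _ _]
  simp only [intervalIntegral.integral_const_mul]

lemma int_cos (k : ℕ) : ∫ v in (-Real.log 2)..Real.log 2, Real.cos (k * (π * v / Real.log 2)) =
    if k = 0 then 2 * Real.log 2 else 0 := by
  have hl := l_pos.ne'
  split_ifs with h
  · simp [h, two_mul]
  have hk : (k : ℝ) ≠ 0 := Nat.cast_ne_zero.2 h
  have h1 : ∀ v : ℝ, (k : ℝ) * (π * v / Real.log 2) = (k * π / Real.log 2) * v := fun v => by ring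
  simp only [h1]
  rw [intervalIntegral.integral_comp_mul_left _ (by positivity), integral_cos, mul_neg,
    div_mul_cancel₀ _ hl, Real.sin_neg, Real.sin_nat_mul_pi]
  simp

lemma int_even {f : ℝ → ℝ} (hf : Continuous f) (he : ∀ v, f (-v) = f v) (l : ℝ) :
    ∫ v in (-l)..l, f v = 2 * ∫ v in (0 : ℝ)..l, f v := by
  have h1 := intervalIntegral.integral_comp_neg (a := 0) (b := l) f
  simp only [he, neg_zero] at h1
  rw [← intervalIntegral.integral_add_adjacent_intervals (b := 0) (hf.intervalIntegrable _ _)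
    (hf.intervalIntegrable _ _), ← h1, two_mul]

lemma int_abs_cos (k : ℕ) (hk : k ≠ 0) :
    ∫ v in (-Real.log 2)..Real.log 2, |v| * Real.cos (k * (π * v / Real.log 2)) =
      2 * (Real.log 2 ^ 2 / π ^ 2) * (((-1) ^ k - 1) / (k : ℝ) ^ 2) := by
  have hl := l_pos
  have hk' : (k : ℝ) ≠ 0 := Nat.cast_ne_zero.2 hk
  have hp := Real.pi_ne_zero
  set a : ℝ := k * π / Real.log 2 with ha
  have ha0 : a ≠ 0 := by positivity
  have h1 : ∀ v : ℝ, (k : ℝ) * (π * v / Real.log 2) = a * v := fun v => by rw [ha]; ring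
  simp only [h1]
  have h2 : ∀ v : ℝ, HasDerivAt (fun v => v * Real.sin (a * v) / a + Real.cos (a * v) / a ^ 2)
      (v * Real.cos (a * v)) v := fun v => by
    have h3 : HasDerivAt (fun v => a * v) a v := by simpa using (hasDerivAt_id v).const_mul a
    refine ((((hasDerivAt_id v).mul h3.sin).div_const a).add
      (h3.cos.div_const (a ^ 2))).congr_deriv ?_
    simp only [id]
    field_simp
    ring
  rw [int_even (by fun_prop) (fun v => by rw [abs_neg, mul_neg, Real.cos_neg]),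
    intervalIntegral.integral_congr (g := fun v => v * Real.cos (a * v)) fun v hv => by
      rw [Set.uIcc_of_le hl.le] at hv
      simp only [abs_of_nonneg hv.1],
    intervalIntegral.integral_eq_sub_of_hasDerivAt (fun v _ => h2 v)
      (Continuous.intervalIntegrable (by fun_prop) _ _),
    show a * Real.log 2 = k * π by rw [ha]; field_simp, Real.sin_nat_mul_pi, Real.cos_nat_mul_pi,
    mul_zero a, Real.cos_zero, ha]
  field_simp
  ring

lemma int_abs : ∫ v in (-Real.log 2)..Real.log 2, |v| = Real.log 2 ^ 2 := by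
  rw [int_even continuous_abs abs_neg,
    intervalIntegral.integral_congr (g := fun v => v) fun v hv => by
      rw [Set.uIcc_of_le l_pos.le] at hv
      exact abs_of_nonneg hv.1, integral_id]
  ring

lemma sum_pairs (f : ℕ → ℝ) (M : ℕ) :
    ∑ n ∈ range (2 * M), f n = ∑ k ∈ range M, (f (2 * k) + f (2 * k + 1)) := by
  induction M with
  | zero => simp
  | succ M ih => rw [mul_add, mul_one, sum_range_succ, sum_range_succ, ih, sum_range_succ, add_assoc]

lemma odd_sum {M : ℕ} (hM : 1 ≤ M) :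
    π ^ 2 / 8 ≤ ∑ k ∈ range M, 1 / (2 * (k : ℝ) + 1) ^ 2 + 1 / (4 * M) := by
  have h1 := hasSum_zeta_two
  have h2 : HasSum (fun k : ℕ => 1 / ((2 * k : ℕ) : ℝ) ^ 2) (1 / 4 * (π ^ 2 / 6)) := by
    refine (h1.mul_left (1 / 4)).congr_fun fun k => ?_
    push_cast
    ring
  have h3 : Summable fun k : ℕ => 1 / ((2 * k + 1 : ℕ) : ℝ) ^ 2 :=
    h1.summable.comp_injective (i := fun k => 2 * k + 1) fun a b h => by simpa using h
  have h4 := h1.unique (HasSum.even_add_odd (f := fun n : ℕ => 1 / (n : ℝ) ^ 2) h2 h3.hasSum)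
  have h5 : ∀ n, ∑ k ∈ range (M + n), 1 / (2 * (k : ℝ) + 1) ^ 2 + 1 / (4 * ((M + n : ℕ) : ℝ)) ≤
      ∑ k ∈ range M, 1 / (2 * (k : ℝ) + 1) ^ 2 + 1 / (4 * M) := by
    intro n
    induction n with
    | zero => simp
    | succ n ih =>
      refine le_trans ?_ ih
      rw [← add_assoc, sum_range_succ, Nat.cast_succ]
      have h6 : (0 : ℝ) < (M + n : ℕ) := Nat.cast_pos.2 (by omega)
      generalize ((M + n : ℕ) : ℝ) = x at h6
      have h7 : 1 / (2 * x + 1) ^ 2 + 1 / (4 * (x + 1)) ≤ 1 / (4 * x) := by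
        rw [div_add_div _ _ (by positivity) (by positivity), div_le_div_iff₀ (by positivity)
          (by positivity)]
        nlinarith
      linarith
  have h6 : (∑' k : ℕ, 1 / ((2 * k + 1 : ℕ) : ℝ) ^ 2 : ℝ) ≤
      ∑ k ∈ range M, (1 : ℝ) / (2 * (k : ℝ) + 1) ^ 2 + 1 / (4 * M) := by
    refine Real.tsum_le_of_sum_range_le (fun k => by positivity) fun n => le_trans ?_ (h5 n)
    push_cast
    exact le_add_of_le_of_nonneg (sum_le_sum_of_subset_of_nonneg (range_mono (by omega))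
      fun _ _ _ => by positivity) (by positivity)
  linarith

lemma poly_sum (M : ℕ) (N : ℝ) :
    ∑ k ∈ range M, (5 / N ^ 2 - 5 * (2 * (k : ℝ) + 1) / N ^ 3 + (2 * (k : ℝ) + 1) ^ 3 / N ^ 5) =
      5 * M / N ^ 2 - 5 * (M : ℝ) ^ 2 / N ^ 3 + (M : ℝ) ^ 2 * (2 * (M : ℝ) ^ 2 - 1) / N ^ 5 := by
  induction M with
  | zero => simp
  | succ M ih =>
    rw [sum_range_succ, ih]
    push_cast
    ring

lemma first {M : ℕ} (hM : 1 ≤ M) :
    ∫ v in (-Real.log 2)..Real.log 2, |v| * kern M v ≤ 0.5268 / (2 * M) := by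
  have hl := l_pos
  have hM' : (0 : ℝ) < M := Nat.cast_pos.2 hM
  have hp := Real.pi_pos
  have h1 : ∀ k ∈ range M, Kf (2 * M) (2 * k + 1) * (2 * (Real.log 2 ^ 2 / π ^ 2) *
      (((-1) ^ (2 * k + 1) - 1) / ((2 * k + 1 : ℕ) : ℝ) ^ 2)) +
      Kf (2 * M) (2 * k + 1 + 1) * (2 * (Real.log 2 ^ 2 / π ^ 2) *
        (((-1) ^ (2 * k + 1 + 1) - 1) / ((2 * k + 1 + 1 : ℕ) : ℝ) ^ 2)) =
      4 * (Real.log 2 ^ 2 / π ^ 2) * ((5 / (2 * M : ℝ) ^ 2 - 5 * (2 * (k : ℝ) + 1) / (2 * M) ^ 3 +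
        (2 * (k : ℝ) + 1) ^ 3 / (2 * M) ^ 5) - 1 / (2 * (k : ℝ) + 1) ^ 2) := fun k hk => by
    have := mem_range.1 hk
    rw [Kf_eq (by omega) (by omega : 2 * k + 1 ≤ 2 * M), pow_succ _ (2 * k + 1), pow_succ _ (2 * k),
      pow_mul, neg_one_sq, one_pow, Kp]
    push_cast
    field_simp
    ring
  rw [int_kern M continuous_abs, int_abs, sum_congr rfl fun n _ => by
    rw [int_abs_cos _ n.succ_ne_zero], sum_pairs, sum_congr rfl h1, ← mul_sum, sum_sub_distrib,
    poly_sum]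
  have h2 := odd_sum hM
  generalize ∑ k ∈ range M, 1 / (2 * (k : ℝ) + 1) ^ 2 = T at h2
  have h3 : 5 * M / (2 * M : ℝ) ^ 2 - 5 * (M : ℝ) ^ 2 / (2 * M) ^ 3 +
      (M : ℝ) ^ 2 * (2 * (M : ℝ) ^ 2 - 1) / (2 * M) ^ 5 + 1 / (4 * M) =
      1.875 / (2 * M) - 1 / (32 * M ^ 3) := by
    field_simp
    ring
  have h4 : (0 : ℝ) < 1 / (32 * M ^ 3) := by positivity
  have h5 : 4 * Real.log 2 / π ^ 2 * 1.875 ≤ 0.5268 := by
    rw [div_mul_eq_mul_div, div_le_iff₀ (by positivity)]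
    nlinarith [Real.log_two_lt_d9, Real.pi_gt_d6]
  calc _ = 4 * Real.log 2 / π ^ 2 * (π ^ 2 / 8 + (5 * M / (2 * M : ℝ) ^ 2 -
        5 * (M : ℝ) ^ 2 / (2 * M) ^ 3 + (M : ℝ) ^ 2 * (2 * (M : ℝ) ^ 2 - 1) / (2 * M) ^ 5 - T)) := by
        generalize 5 * M / (2 * M : ℝ) ^ 2 - 5 * (M : ℝ) ^ 2 / (2 * M) ^ 3 +
          (M : ℝ) ^ 2 * (2 * (M : ℝ) ^ 2 - 1) / (2 * M) ^ 5 - T = S
        field_simp
        ring
    _ ≤ 4 * Real.log 2 / π ^ 2 * (1.875 / (2 * M)) :=
        mul_le_mul_of_nonneg_left (by linarith) (by positivity)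
    _ ≤ _ := by
        rw [← mul_div_assoc]
        exact div_le_div_of_nonneg_right h5 (by positivity)

lemma mass (M : ℕ) : ∫ v in (-Real.log 2)..Real.log 2, kern M v = 1 := by
  have h1 := int_kern M (g := fun _ => 1) continuous_const
  have hl := l_pos.ne'
  simp only [one_mul, int_cos, Nat.succ_ne_zero, if_false, mul_zero, sum_const_zero] at h1
  rw [h1, intervalIntegral.integral_const]
  simp only [smul_eq_mul]
  field_simp
  ring

lemma cos_mom {M : ℕ} (hM : 1 ≤ M) :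
    ∫ v in (-Real.log 2)..Real.log 2, Real.cos (π * v / Real.log 2) * kern M v = Kf (2 * M) 1 := by
  have hl := l_pos.ne'
  have h1 : ∀ n : ℕ, ∫ v in (-Real.log 2)..Real.log 2, Real.cos (π * v / Real.log 2) *
      Real.cos ((n + 1 : ℕ) * (π * v / Real.log 2)) = if n = 0 then Real.log 2 else 0 := fun n => by
    have h2 : ∀ x : ℝ, Real.cos x * Real.cos ((n + 1 : ℕ) * x) =
        (Real.cos ((n + 2 : ℕ) * x) + Real.cos (n * x)) / 2 := fun x => by
      rw [show ((n + 2 : ℕ) : ℝ) * x = (n + 1 : ℕ) * x + x by push_cast; ring,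
        show (n : ℝ) * x = (n + 1 : ℕ) * x - x by push_cast; ring, Real.cos_add, Real.cos_sub]
      ring
    simp only [h2]
    rw [intervalIntegral.integral_div, intervalIntegral.integral_add
      (Continuous.intervalIntegrable (by fun_prop) _ _)
      (Continuous.intervalIntegrable (by fun_prop) _ _), int_cos, int_cos, if_neg (by omega)]
    split_ifs <;> ring
  have h2 := int_cos 1
  simp only [Nat.cast_one, one_mul, one_ne_zero, if_false] at h2
  rw [int_kern M (by fun_prop), h2]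
  simp only [h1, mul_ite, mul_zero, sum_ite_eq', mem_range, show 0 < 2 * M by omega, if_true]
  field_simp
  ring

lemma second {M : ℕ} (hM : 1 ≤ M) :
    ∫ v in (-Real.log 2)..Real.log 2, v ^ 2 * kern M v ≤ 1.202 / (2 * M) ^ 2 := by
  have hl := l_pos
  have hM' : (1 : ℝ) ≤ M := Nat.one_le_cast.2 hM
  have hp := Real.pi_pos
  have hc := kern_cont M
  have h1 : ∫ v in (-Real.log 2)..Real.log 2, v ^ 2 * kern M v ≤
      ∫ v in (-Real.log 2)..Real.log 2, Real.log 2 ^ 2 / 2 *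
        (kern M v - Real.cos (π * v / Real.log 2) * kern M v) := by
    refine intervalIntegral.integral_mono_on (by linarith)
      (Continuous.intervalIntegrable (by fun_prop) _ _)
      (Continuous.intervalIntegrable (by fun_prop) _ _) fun v hv => ?_
    have h2 : |π * v / Real.log 2| ≤ π := by
      rw [abs_div, abs_mul, abs_of_pos hp, abs_of_pos hl, div_le_iff₀ hl]
      exact mul_le_mul_of_nonneg_left (abs_le.2 hv) hp.le
    have h3 := Real.cos_le_one_sub_mul_cos_sq h2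
    have h4 : v ^ 2 = Real.log 2 ^ 2 / 2 * (2 / π ^ 2 * (π * v / Real.log 2) ^ 2) := by field_simp
    rw [← one_sub_mul, ← mul_assoc]
    refine mul_le_mul_of_nonneg_right ?_ (kern_nonneg hM v)
    rw [h4]
    exact mul_le_mul_of_nonneg_left (by linarith) (by positivity)
  rw [intervalIntegral.integral_const_mul, intervalIntegral.integral_sub (hc.intervalIntegrable _ _)
    (Continuous.intervalIntegrable (by fun_prop) _ _), mass, cos_mom hM,
    Kf_eq (by omega) (by omega)] at h1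
  have h2 := (Kp_le (x := (1 : ℕ) / (2 * M : ℕ)) (by positivity)
    ((div_le_one (by positivity)).2 (Nat.cast_le.2 (by omega)))).2
  refine h1.trans ((mul_le_mul_of_nonneg_left h2 (by positivity)).trans ?_)
  push_cast
  rw [div_pow, one_pow, mul_one_div, ← mul_div_assoc]
  refine div_le_div_of_nonneg_right ?_ (by positivity)
  nlinarith [Real.log_two_lt_d9]

end Ker0

theorem ker0 : StKer0 := fun M hM =>
  ⟨Ker0.kern_nonneg hM, Ker0.mass M, Ker0.first hM, Ker0.second hM⟩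

theorem kf : StKf := by
  intro N n hN
  have hN' : (0 : ℝ) < N := Nat.cast_pos.2 hN
  have h0 : (0 : ℝ) ≤ n / N := by positivity
  have h2 : (n : ℝ) / (2 * N : ℕ) = n / N / 2 := by
    push_cast
    field_simp
  rcases le_or_gt n N with h | h
  · have h1 : (n : ℝ) / N ≤ 1 := (div_le_one hN').2 (Nat.cast_le.2 h)
    rw [Ker0.Kf_eq hN h, Ker0.Kf_eq (by omega) (by omega), h2]
    exact ⟨Ker0.Kp_nonneg h0 h1, (Ker0.Kp_le h0 h1).1, (Ker0.Kp_le h0 h1).2, Ker0.Kp_half h0 h1⟩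
  · have h1 : 1 ≤ (n : ℝ) / N := (one_le_div hN').2 (Nat.cast_le.2 h.le)
    have h3 : Kf N n = 0 := if_neg (by omega)
    rw [h3, sub_zero, sub_zero]
    refine ⟨le_rfl, zero_le_one, by nlinarith, ?_⟩
    rcases le_or_gt n (2 * N) with h4 | h4
    · have h5 : (n : ℝ) / (2 * N : ℕ) ≤ 1 := (div_le_one (by positivity)).2 (Nat.cast_le.2 h4)
      rw [Ker0.Kf_eq (by omega) h4, abs_of_nonneg (Ker0.Kp_nonneg (by positivity) h5)]
      linarith [Ker0.Kp_big (by rw [h2]; linarith) h5]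
    · rw [show Kf (2 * N) n = 0 from if_neg (by omega), abs_zero]
      positivity

end Pool.Agent.Lib.MP_5db4ad_nt.S2
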