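import Pool.Agent.Lib.MP_5db4ad_nt.S2Defs

/-! Lattice sums of the logistic weight. -/

namespace Pool.Agent.Lib.MP_5db4ad_nt.S2

open Finset Filter

namespace Lat

variable {p μ : ℝ}

lemma wf_pos (t : ℝ) : 0 < wf p μ t := by
  unfold wf
  positivity

lemma wf_le_one (t : ℝ) : wf p μ t ≤ 1 := by
  unfold wf
  rw [div_le_one (by positivity)]
  linarith [Real.exp_pos (p * (t - μ))]

lemma wf_anti (hp : 0 < p) {s t : ℝ} (h : s ≤ t) : wf p μ t ≤ wf p μ s := by
  unfold wf
  refine one_div_le_one_div_of_le (by positivity) ?_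
  have : Real.exp (p * (s - μ)) ≤ Real.exp (p * (t - μ)) := Real.exp_le_exp.2 (by nlinarith)
  linarith

lemma wf_cont : Continuous (wf p μ) := by
  unfold wf
  exact continuous_const.div (by fun_prop) fun t => by positivity

lemma wf_le_exp (t : ℝ) : wf p μ t ≤ Real.exp (-(p * (t - μ))) := by
  unfold wf
  rw [Real.exp_neg, ← one_div]
  exact one_div_le_one_div_of_le (Real.exp_pos _) (by linarith)

lemma one_sub_wf_le (t : ℝ) : 1 - wf p μ t ≤ Real.exp (p * (t - μ)) := by
  unfold wf
  have h := Real.exp_pos (p * (t - μ))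
  have e : 1 - 1 / (1 + Real.exp (p * (t - μ))) =
      Real.exp (p * (t - μ)) / (1 + Real.exp (p * (t - μ))) := by
    field_simp
    ring
  rw [e]
  exact div_le_self h.le (by linarith)

/-- a primitive of the weight -/
noncomputable def WW (p μ t : ℝ) : ℝ := -Real.log (1 + Real.exp (-(p * (t - μ)))) / p

lemma hasDeriv_lin (p μ t : ℝ) : HasDerivAt (fun t => p * (t - μ)) p t := by
  simpa using ((hasDerivAt_id t).sub_const μ).const_mul p

lemma hasDeriv_WW (hp : 0 < p) (t : ℝ) : HasDerivAt (WW p μ) (wf p μ t) t := by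
  have h1 := ((hasDeriv_lin p μ t).neg.exp).const_add 1
  have h2 := ((h1.log (by positivity)).neg).div_const p
  refine HasDerivAt.congr_deriv h2 ?_
  unfold wf
  simp only [Pi.neg_apply]
  rw [Real.exp_neg]
  have := Real.exp_pos (p * (t - μ))
  field_simp
  ring

lemma int_w (hp : 0 < p) (x y : ℝ) : ∫ t in x..y, wf p μ t = WW p μ y - WW p μ x :=
  intervalIntegral.integral_eq_sub_of_hasDerivAt (fun t _ => hasDeriv_WW hp t)
    (wf_cont.intervalIntegrable _ _)

lemma WW_nonpos (hp : 0 < p) (t : ℝ) : WW p μ t ≤ 0 := by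
  unfold WW
  have : 0 ≤ Real.log (1 + Real.exp (-(p * (t - μ)))) :=
    Real.log_nonneg (by linarith [Real.exp_pos (-(p * (t - μ)))])
  exact div_nonpos_of_nonpos_of_nonneg (by linarith) hp.le

lemma log_one_add_le {x : ℝ} (hx : 0 < x) : Real.log (1 + x) ≤ x := by
  have := Real.log_le_sub_one_of_pos (show 0 < 1 + x by linarith)
  linarith

lemma WW_ge (hp : 0 < p) (t : ℝ) : -(Real.exp (-(p * (t - μ))) / p) ≤ WW p μ t := by
  unfold WW
  rw [neg_div, neg_le_neg_iff]
  exact div_le_div_of_nonneg_right (log_one_add_le (Real.exp_pos _)) hp.le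

lemma WW_le (hp : 0 < p) (t : ℝ) : WW p μ t ≤ t - μ := by
  unfold WW
  rw [div_le_iff₀ hp]
  have h1 : -(p * (t - μ)) ≤ Real.log (1 + Real.exp (-(p * (t - μ)))) := by
    rw [Real.le_log_iff_exp_le (by positivity)]
    linarith
  linarith

lemma WW_ge' (hp : 0 < p) (t : ℝ) : t - μ - Real.exp (p * (t - μ)) / p ≤ WW p μ t := by
  unfold WW
  have e : 1 + Real.exp (-(p * (t - μ))) =
      Real.exp (-(p * (t - μ))) * (1 + Real.exp (p * (t - μ))) := by
    rw [mul_add, ← Real.exp_add]
    simp [add_comm]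
  have h1 : Real.log (1 + Real.exp (-(p * (t - μ)))) ≤ -(p * (t - μ)) + Real.exp (p * (t - μ)) := by
    rw [e, Real.log_mul (Real.exp_pos _).ne' (by positivity), Real.log_exp]
    linarith [log_one_add_le (Real.exp_pos (p * (t - μ)))]
  rw [le_div_iff₀ hp, sub_mul, div_mul_cancel₀ _ hp.ne']
  linarith

lemma cont_sw : Continuous fun t => (t - μ) * wf p μ t :=
  (continuous_id.sub continuous_const).mul wf_cont

lemma int_left (hp : 0 < p) (hμ : 0 ≤ μ) : ∫ t in (0 : ℝ)..μ, (t - μ) * wf p μ t ≤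
    -(μ ^ 2 / 2) + 1 / p ^ 2 - μ / p * Real.exp (-(p * μ)) := by
  have hd : ∀ t : ℝ, HasDerivAt
      (fun t => (t - μ) ^ 2 / 2 + (-(t - μ) / p + 1 / p ^ 2) * Real.exp (p * (t - μ)))
      ((t - μ) - (t - μ) * Real.exp (p * (t - μ))) t := by
    intro t
    have h0 : HasDerivAt (fun t => t - μ) 1 t := (hasDerivAt_id t).sub_const μ
    have h1 := ((h0.pow 2).div_const 2).add
      (((h0.neg.div_const p).add_const (1 / p ^ 2)).mul (hasDeriv_lin p μ t).exp)
    refine HasDerivAt.congr_deriv h1 ?_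
    simp only [Pi.neg_apply]
    field_simp
    ring
  have h1 := intervalIntegral.integral_eq_sub_of_hasDerivAt (a := 0) (b := μ) (fun t _ => hd t)
    (Continuous.intervalIntegrable (by fun_prop) _ _)
  have h2 : ∫ t in (0 : ℝ)..μ, (t - μ) * wf p μ t ≤
      ∫ t in (0 : ℝ)..μ, ((t - μ) - (t - μ) * Real.exp (p * (t - μ))) := by
    refine intervalIntegral.integral_mono_on hμ (cont_sw.intervalIntegrable _ _)
      (Continuous.intervalIntegrable (by fun_prop) _ _) fun t ht => ?_
    have := mul_le_mul_of_nonneg_left (one_sub_wf_le (p := p) (μ := μ) t)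
      (show 0 ≤ μ - t by linarith [ht.2])
    linarith
  rw [h1] at h2
  refine h2.trans ?_
  have h3 : 0 ≤ 1 / p ^ 2 * Real.exp (-(p * μ)) := by positivity
  have e : p * (0 - μ) = -(p * μ) := by ring
  rw [e, sub_self, mul_zero, Real.exp_zero]
  have e2 : -(0 - μ) / p = μ / p := by ring
  rw [e2]
  simp only [neg_zero, zero_div]
  nlinarith

lemma int_right (hp : 0 < p) {T : ℝ} (hT : μ ≤ T) :
    ∫ t in μ..T, (t - μ) * wf p μ t ≤ 1 / p ^ 2 := by
  have hd : ∀ t : ℝ, HasDerivAt
      (fun t => -(((t - μ) / p + 1 / p ^ 2) * Real.exp (-(p * (t - μ)))))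
      ((t - μ) * Real.exp (-(p * (t - μ)))) t := by
    intro t
    have h0 : HasDerivAt (fun t => t - μ) 1 t := (hasDerivAt_id t).sub_const μ
    have h1 := (((h0.div_const p).add_const (1 / p ^ 2)).mul (hasDeriv_lin p μ t).neg.exp).neg
    refine HasDerivAt.congr_deriv h1 ?_
    simp only [Pi.neg_apply]
    field_simp
    ring
  have h1 := intervalIntegral.integral_eq_sub_of_hasDerivAt (a := μ) (b := T) (fun t _ => hd t)
    (Continuous.intervalIntegrable (by fun_prop) _ _)
  have h2 : ∫ t in μ..T, (t - μ) * wf p μ t ≤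
      ∫ t in μ..T, (t - μ) * Real.exp (-(p * (t - μ))) := by
    refine intervalIntegral.integral_mono_on hT (cont_sw.intervalIntegrable _ _)
      (Continuous.intervalIntegrable (by fun_prop) _ _) fun t ht => ?_
    exact mul_le_mul_of_nonneg_left (wf_le_exp t) (by linarith [ht.1])
  rw [h1] at h2
  refine h2.trans ?_
  have h3 : 0 ≤ ((T - μ) / p + 1 / p ^ 2) * Real.exp (-(p * (T - μ))) := by
    have : 0 ≤ T - μ := by linarith
    positivity
  simp only [sub_self, mul_zero, neg_zero, Real.exp_zero, zero_div, zero_add, mul_one]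
  linarith

lemma int_low {z T : ℝ} (hz : z ≤ μ) (hT : μ ≤ T) :
    -((μ - z) ^ 2 / 2) ≤ ∫ t in z..T, (t - μ) * wf p μ t := by
  rw [← intervalIntegral.integral_add_adjacent_intervals (b := μ)
    (cont_sw.intervalIntegrable _ _) (cont_sw.intervalIntegrable _ _)]
  have h1 : 0 ≤ ∫ t in μ..T, (t - μ) * wf p μ t :=
    intervalIntegral.integral_nonneg hT fun t ht => mul_nonneg (by linarith [ht.1]) (wf_pos t).le
  have hd : ∀ t : ℝ, HasDerivAt (fun t => (t - μ) ^ 2 / 2) (t - μ) t := by
    intro t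
    have h0 : HasDerivAt (fun t => t - μ) 1 t := (hasDerivAt_id t).sub_const μ
    refine HasDerivAt.congr_deriv ((h0.pow 2).div_const 2) ?_
    simp
  have h2 := intervalIntegral.integral_eq_sub_of_hasDerivAt (a := z) (b := μ) (fun t _ => hd t)
    (Continuous.intervalIntegrable (by fun_prop) _ _)
  have h3 : ∫ t in z..μ, (t - μ) ≤ ∫ t in z..μ, (t - μ) * wf p μ t := by
    refine intervalIntegral.integral_mono_on hz (Continuous.intervalIntegrable (by fun_prop) _ _)
      (cont_sw.intervalIntegrable _ _) fun t ht => ?_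
    have := mul_le_mul_of_nonneg_left (wf_le_one (p := p) (μ := μ) t)
      (show 0 ≤ μ - t by linarith [ht.2])
    linarith
  rw [h2] at h3
  nlinarith

lemma cont_f (a c : ℝ) : Continuous fun t => wf p μ t * (a * t + c) :=
  wf_cont.mul (by fun_prop)

lemma int_split (a c x y : ℝ) : ∫ t in x..y, wf p μ t * (a * t + c) =
    a * (∫ t in x..y, (t - μ) * wf p μ t) + (a * μ + c) * ∫ t in x..y, wf p μ t := by
  rw [← intervalIntegral.integral_const_mul, ← intervalIntegral.integral_const_mul,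
    ← intervalIntegral.integral_add ((cont_sw.intervalIntegrable _ _).const_mul _)
      ((wf_cont.intervalIntegrable _ _).const_mul _)]
  congr 1
  ext t
  ring

lemma int_f_le (hp : 0 < p) (hμ : 0 ≤ μ) (he : Real.exp (-(p * μ)) ≤ p) {a c T : ℝ} (ha : 0 ≤ a)
    (hc : 0 ≤ c) (hT : μ ≤ T) :
    ∫ t in (0 : ℝ)..T, wf p μ t * (a * t + c) ≤ a * (μ ^ 2 / 2 + 2 / p ^ 2) + c * (μ + 1) := by
  have h1 : ∫ t in (0 : ℝ)..T, (t - μ) * wf p μ t ≤
      -(μ ^ 2 / 2) + 2 / p ^ 2 - μ * (Real.exp (-(p * μ)) / p) := by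
    rw [← intervalIntegral.integral_add_adjacent_intervals (b := μ)
      (cont_sw.intervalIntegrable _ _) (cont_sw.intervalIntegrable _ _)]
    have k1 := int_left hp hμ
    have k2 := int_right hp hT
    have e1 : (2 : ℝ) / p ^ 2 = 1 / p ^ 2 + 1 / p ^ 2 := by ring
    have e2 : μ * (Real.exp (-(p * μ)) / p) = μ / p * Real.exp (-(p * μ)) := by ring
    linarith
  have h2 : ∫ t in (0 : ℝ)..T, wf p μ t ≤ μ + Real.exp (-(p * μ)) / p := by
    rw [int_w hp]
    have k1 := WW_nonpos (μ := μ) hp T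
    have k2 := WW_ge' (μ := μ) hp 0
    rw [show p * (0 - μ) = -(p * μ) by ring] at k2
    linarith
  have h3 : Real.exp (-(p * μ)) / p ≤ 1 := (div_le_one hp).2 he
  rw [int_split]
  have k1 := mul_le_mul_of_nonneg_left h1 ha
  have k2 := mul_le_mul_of_nonneg_left h2 (show 0 ≤ a * μ + c by positivity)
  have k3 := mul_le_mul_of_nonneg_left h3 hc
  nlinarith

lemma int_f_ge (hp : 0 < p) {a c z T : ℝ} (ha : 0 ≤ a) (hc : 0 ≤ c) (hz0 : 0 ≤ z) (hz : z ≤ 2)
    (hμ : 2 ≤ μ) (hT : μ ≤ T) :
    a * (μ ^ 2 / 2 - 2) + c * (μ - 2) - (a * μ + c) * (Real.exp (-(p * (T - μ))) / p) ≤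
      ∫ t in z..T, wf p μ t * (a * t + c) := by
  have h1 := int_low (p := p) (hz.trans hμ) hT
  have h2 : μ - z - Real.exp (-(p * (T - μ))) / p ≤ ∫ t in z..T, wf p μ t := by
    rw [int_w hp]
    have k1 := WW_ge (μ := μ) hp T
    have k2 := WW_le (μ := μ) hp z
    linarith
  rw [int_split]
  have k1 := mul_le_mul_of_nonneg_left h1 ha
  have k2 := mul_le_mul_of_nonneg_left h2 (show 0 ≤ a * μ + c by
    have : 0 ≤ μ := by linarith
    positivity)
  have k3 := mul_le_mul_of_nonneg_left hz hc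
  have k4 := mul_le_mul_of_nonneg_left (show z ^ 2 ≤ 4 by nlinarith) ha
  nlinarith

lemma sum_int (f : ℝ → ℝ) (hf : Continuous f) (x l : ℝ) (n : ℕ) :
    ∑ i ∈ range n, ∫ t in (x + i * l)..(x + i * l + l), f t = ∫ t in x..(x + n * l), f t := by
  have h := intervalIntegral.sum_integral_adjacent_intervals (f := f) (μ := MeasureTheory.volume)
    (a := fun i : ℕ => x + i * l) (n := n) (fun k _ => hf.intervalIntegrable _ _)
  simp only [Nat.cast_zero, zero_mul, add_zero] at h
  rw [← h]
  refine sum_congr rfl fun i _ => ?_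
  congr 1
  push_cast
  ring

lemma term_le (hp : 0 < p) {a b l y : ℝ} (ha : 0 ≤ a) (hb : 0 ≤ b) (hl : 0 ≤ l) (hy : 0 ≤ y) :
    l * (wf p μ (y + l) * (a * (y + l) + b)) ≤
      ∫ t in y..(y + l), wf p μ t * (a * t + (b + a * l)) := by
  have h : ∫ _ in y..(y + l), wf p μ (y + l) * (a * (y + l) + b) ≤
      ∫ t in y..(y + l), wf p μ t * (a * t + (b + a * l)) := by
    refine intervalIntegral.integral_mono_on (by linarith) (continuous_const.intervalIntegrable _ _)
      ((cont_f _ _).intervalIntegrable _ _) fun t ht => ?_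
    refine mul_le_mul (wf_anti hp ht.2) ?_ (by positivity) (wf_pos t).le
    nlinarith [mul_le_mul_of_nonneg_left ht.1 ha]
  rwa [intervalIntegral.integral_const, add_sub_cancel_left, smul_eq_mul] at h

lemma term_ge (hp : 0 < p) {a b l y : ℝ} (ha : 0 ≤ a) (hb : a * l ≤ b) (hl : 0 ≤ l) (hy : 0 ≤ y) :
    ∫ t in y..(y + l), wf p μ t * (a * t + (b - a * l)) ≤ l * (wf p μ y * (a * y + b)) := by
  have h : ∫ t in y..(y + l), wf p μ t * (a * t + (b - a * l)) ≤
      ∫ _ in y..(y + l), wf p μ y * (a * y + b) := by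
    refine intervalIntegral.integral_mono_on (by linarith) ((cont_f _ _).intervalIntegrable _ _)
      (continuous_const.intervalIntegrable _ _) fun t ht => ?_
    refine mul_le_mul (wf_anti hp ht.1) ?_ ?_ (wf_pos y).le
    · nlinarith [mul_le_mul_of_nonneg_left ht.2 ha]
    · have := mul_nonneg ha (hy.trans ht.1)
      linarith
  rwa [intervalIntegral.integral_const, add_sub_cancel_left, smul_eq_mul] at h

end Lat

open _root_.Pool.Agent.Lib.MP_5db4ad_nt.S2.Lat in
theorem lat : StLat := by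
  intro p μ a b z hp hμ he ha hb hz1 hz2
  have hl : 0 < Real.log 2 := Real.log_pos (by norm_num)
  set l := Real.log 2
  have hal : 0 ≤ a * l := by positivity
  have hb0 : 0 ≤ b := hal.trans hb
  have hz0 : 0 ≤ z := hl.le.trans hz1
  have hnn : ∀ i : ℕ, 0 ≤ wf p μ (z + i * l) * (a * (z + i * l) + b) := fun i =>
    mul_nonneg (wf_pos _).le (by positivity)
  have hup : ∀ n : ℕ, ∑ i ∈ range n, wf p μ (z + i * l) * (a * (z + i * l) + b) ≤
      (a * (μ ^ 2 / 2 + 2 / p ^ 2) + (b + a * l) * (μ + 1)) / l := by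
    intro n
    rw [le_div_iff₀' hl, mul_sum]
    have hx : 0 ≤ z - l := by linarith
    have hn : 0 ≤ (n : ℝ) * l := by positivity
    calc ∑ i ∈ range n, l * (wf p μ (z + i * l) * (a * (z + i * l) + b))
        ≤ ∑ i ∈ range n, ∫ t in (z - l + i * l)..(z - l + i * l + l),
            wf p μ t * (a * t + (b + a * l)) := by
          refine sum_le_sum fun i _ => ?_
          have := term_le (μ := μ) (y := z - l + i * l) hp ha hb0 hl.le (by positivity)
          rwa [show z - l + i * l + l = z + i * l by ring] at this ⊢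
      _ = ∫ t in (z - l)..(z - l + n * l), wf p μ t * (a * t + (b + a * l)) :=
          sum_int _ (cont_f _ _) _ _ _
      _ ≤ ∫ t in (0 : ℝ)..(max μ (z - l + n * l)), wf p μ t * (a * t + (b + a * l)) := by
          refine intervalIntegral.integral_mono_interval hx (by linarith) (le_max_right _ _) ?_
            ((cont_f _ _).intervalIntegrable _ _)
          refine MeasureTheory.ae_restrict_of_forall_mem measurableSet_Ioc fun t ht => ?_
          have := ht.1.le
          exact mul_nonneg (wf_pos t).le (by positivity)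
      _ ≤ _ := int_f_le hp (by linarith) he ha (by positivity) (le_max_left _ _)
  have hs := summable_of_sum_range_le hnn hup
  refine ⟨hs, ?_, Real.tsum_le_of_sum_range_le hnn hup⟩
  rw [div_le_iff₀' hl]
  have hT : Tendsto (fun n : ℕ => z + n * l) atTop atTop :=
    tendsto_atTop_add_const_left _ _ (tendsto_natCast_atTop_atTop.atTop_mul_const hl)
  have hE : Tendsto (fun n : ℕ => Real.exp (-(p * (z + n * l - μ)))) atTop (nhds 0) :=
    Real.tendsto_exp_neg_atTop_nhds_zero.comp
      ((tendsto_atTop_add_const_right _ (-μ) hT).const_mul_atTop hp)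
  have hlim := ((hE.div_const p).const_mul (a * μ + (b - a * l))).const_sub
    (a * (μ ^ 2 / 2 - 2) + (b - a * l) * (μ - 2))
  rw [zero_div, mul_zero, sub_zero] at hlim
  refine le_of_tendsto hlim ?_
  filter_upwards [hT.eventually_ge_atTop μ] with n hn
  calc _ ≤ ∫ t in z..(z + n * l), wf p μ t * (a * t + (b - a * l)) :=
        int_f_ge hp ha (by linarith) hz0 hz2 hμ hn
    _ = ∑ i ∈ range n, ∫ t in (z + i * l)..(z + i * l + l), wf p μ t * (a * t + (b - a * l)) :=
        (sum_int _ (cont_f _ _) _ _ _).symm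
    _ ≤ ∑ i ∈ range n, l * (wf p μ (z + i * l) * (a * (z + i * l) + b)) :=
        sum_le_sum fun i _ => term_ge hp ha hb hl.le (by positivity)
    _ ≤ _ := by
        rw [← mul_sum]
        exact mul_le_mul_of_nonneg_left (hs.sum_le_tsum _ fun i _ => hnn i) hl.le

end Pool.Agent.Lib.MP_5db4ad_nt.S2
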