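import Pool.Agent.Lib.MP_5db4ad_nt.S2Lane

/-!
From the check on the cells to a bound at all points.
-/

namespace Pool.Agent.Lib.MP_5db4ad_nt.S2

open Finset
open scoped Real

namespace Low

lemma ee_add (x y : ℝ) : ee (x + y) = ee x * ee y := by
  unfold ee
  rw [← Complex.exp_add]
  congr 1
  push_cast
  ring

lemma norm_ee (x : ℝ) : ‖ee x‖ = 1 := Complex.norm_exp_ofReal_mul_I _

lemma ee_half (k : ℕ) : ee ((2 * k + 1) / 2) = -1 := by
  unfold ee
  have h : (((2 * π * ((2 * k + 1) / 2) : ℝ) : ℂ) * Complex.I) =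
      (k : ℂ) * (2 * π * Complex.I) + π * Complex.I := by
    push_cast
    ring
  rw [h, Complex.exp_add, Complex.exp_nat_mul_two_pi_mul_I, Complex.exp_pi_mul_I, one_mul]

lemma re_ee (a : ℂ) (x : ℝ) :
    (a * ee x).re = a.re * Real.cos (2 * π * x) - a.im * Real.sin (2 * π * x) := by
  unfold ee
  rw [Complex.mul_re, Complex.exp_ofReal_mul_I_re, Complex.exp_ofReal_mul_I_im]

end Low

open Low in
theorem chord : StChord := by
  intro a w s hs0 hs1
  set θ : ℝ := 2 * π * w with hθ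
  have hre : ∀ x : ℝ, (a * ee (w * x)).re = a.re * Real.cos (θ * x) - a.im * Real.sin (θ * x) := by
    intro x
    rw [re_ee, hθ, mul_assoc (2 * π) w x]
  have hid : ∀ x : ℝ, HasDerivAt (fun x : ℝ => θ * x) θ x := fun x => by
    simpa using (hasDerivAt_id x).const_mul θ
  have d1 : ∀ x : ℝ, HasDerivAt
      (fun x : ℝ => a.re * Real.cos (θ * x) - a.im * Real.sin (θ * x) + ‖a‖ * θ ^ 2 / 2 * x ^ 2)
      (a.re * (-Real.sin (θ * x) * θ) - a.im * (Real.cos (θ * x) * θ) +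
        ‖a‖ * θ ^ 2 / 2 * (2 * x)) x := fun x =>
    ((((hid x).cos).const_mul a.re).sub (((hid x).sin).const_mul a.im)).add
      (by simpa using (hasDerivAt_pow 2 x).const_mul (‖a‖ * θ ^ 2 / 2))
  have d2 : ∀ x : ℝ, HasDerivAt
      (fun x : ℝ => a.re * (-Real.sin (θ * x) * θ) - a.im * (Real.cos (θ * x) * θ) +
        ‖a‖ * θ ^ 2 / 2 * (2 * x))
      (a.re * (-(Real.cos (θ * x) * θ) * θ) - a.im * (-Real.sin (θ * x) * θ * θ) +
        ‖a‖ * θ ^ 2 / 2 * 2) x := fun x =>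
    (((((hid x).sin.neg).mul_const θ).const_mul a.re).sub
      ((((hid x).cos).mul_const θ).const_mul a.im)).add
      (by simpa only [id, mul_one] using
        ((hasDerivAt_id x).const_mul 2).const_mul (‖a‖ * θ ^ 2 / 2))
  have hc : ConvexOn ℝ Set.univ fun x : ℝ =>
      a.re * Real.cos (θ * x) - a.im * Real.sin (θ * x) + ‖a‖ * θ ^ 2 / 2 * x ^ 2 := by
    refine convexOn_of_hasDerivWithinAt2_nonneg convex_univ
      (fun x _ => (d1 x).continuousAt.continuousWithinAt) (fun x _ => (d1 x).hasDerivWithinAt)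
      (fun x _ => (d2 x).hasDerivWithinAt) fun x _ => ?_
    have h1 : (a * ee (w * x)).re ≤ ‖a‖ := by
      have := Complex.re_le_norm (a * ee (w * x))
      rwa [norm_mul, norm_ee, mul_one] at this
    rw [hre] at h1
    have h2 := mul_le_mul_of_nonneg_right h1 (sq_nonneg θ)
    linarith
  have h := hc.2 (Set.mem_univ 0) (Set.mem_univ 1) (sub_nonneg.2 hs1) hs0 (by ring)
  have e1 : (a * ee w).re = a.re * Real.cos θ - a.im * Real.sin θ := by
    simpa using hre 1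
  simp only [smul_eq_mul, mul_zero, mul_one, zero_add, Real.cos_zero, Real.sin_zero] at h
  rw [hre, e1]
  have h3 : 0 ≤ ‖a‖ * θ ^ 2 * (2 * s - 1) ^ 2 := by positivity
  linarith

namespace Low

lemma cell {c y : ℝ} {n : ℕ} (hn : 1 ≤ n) (h1 : c ≤ y) (h2 : y ≤ c + n) :
    ∃ j < n, ∃ s : ℝ, 0 ≤ s ∧ s ≤ 1 ∧ y = c + j + s := by
  by_cases h : y = c + n
  · obtain ⟨m, rfl⟩ := Nat.exists_eq_add_of_le' hn
    refine ⟨m, Nat.lt_succ_self m, 1, zero_le_one, le_rfl, ?_⟩
    rw [h]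
    push_cast
    ring
  · have h3 : y - c < n := by
      have := lt_of_le_of_ne h2 h
      linarith
    have h4 : 0 ≤ y - c := sub_nonneg.2 h1
    refine ⟨⌊y - c⌋₊, (Nat.floor_lt h4).2 h3, y - c - ⌊y - c⌋₊, sub_nonneg.2 (Nat.floor_le h4), ?_,
      by ring⟩
    have := Nat.lt_floor_add_one (y - c)
    linarith

lemma fB_shift {M : ℕ} (hM : 0 < M) (K BR BI : ℕ) (y : ℝ) :
    fB M K BR BI (y + M) = -fB M K BR BI y := by
  unfold fB
  rw [← Finset.sum_neg_distrib]
  refine Finset.sum_congr rfl fun k _ => ?_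
  have h0 : (M : ℝ) ≠ 0 := by positivity
  have h : (2 * k + 1) * (y + M) / (2 * M) = (2 * k + 1) * y / (2 * M) + (2 * k + 1 : ℝ) / 2 := by
    field_simp
  rw [h, ee_add, ee_half, mul_neg_one, mul_neg, Complex.neg_re, mul_neg]

lemma fB_chord {M K BR BI m wb : ℕ} {g : ℕ → ℕ} (hM : 0 < M) (hm : 0 < m) (hK : K = 32 * m)
    (hg : ∀ k < K, ‖cx (lane BR k) (lane BI k)‖ ≤ g k)
    (hw : ∑ k ∈ range K, (k / m + 1) ^ 2 * g k ≤ wb) (σ : ℝ) (hσ : |σ| = 1) (x s : ℝ)
    (hs0 : 0 ≤ s) (hs1 : s ≤ 1) :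
    σ * fB M K BR BI (x + s) ≤ (1 - s) * (σ * fB M K BR BI x) + s * (σ * fB M K BR BI (x + 1)) +
      wb * (π * K / (16 * M)) ^ 2 / 4 := by
  have h0 : (0 : ℝ) < M := by positivity
  have hw' : ∑ k ∈ range K, ((k / m + 1 : ℕ) : ℝ) ^ 2 * g k ≤ wb := by exact_mod_cast hw
  have hE : ∑ k ∈ range K, ((k / m + 1 : ℕ) : ℝ) ^ 2 * g k * ((π * K / (16 * M)) ^ 2 / 4) ≤
      wb * (π * K / (16 * M)) ^ 2 / 4 := by
    rw [← Finset.sum_mul, mul_div_assoc (wb : ℝ)]
    exact mul_le_mul_of_nonneg_right hw' (by positivity)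
  refine le_trans ?_ (add_le_add_right hE _)
  unfold fB
  simp only [Finset.mul_sum, ← Finset.sum_add_distrib]
  refine Finset.sum_le_sum fun k hk => ?_
  set b : ℂ := cx (lane BR k) (lane BI k) * ee (-(k : ℝ) ^ 2 / (2 * M)) with hb
  set w : ℝ := (2 * k + 1) / (2 * M) with hwd
  have e1 : (2 * k + 1) * (x + s) / (2 * M) = (2 * k + 1) * x / (2 * M) + w * s := by
    rw [hwd]
    ring
  have e2 : (2 * k + 1) * (x + 1) / (2 * M) = (2 * k + 1) * x / (2 * M) + w := by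
    rw [hwd]
    ring
  have h := chord ((σ : ℂ) * (b * ee ((2 * k + 1) * x / (2 * M)))) w s hs0 hs1
  have hn : ‖(σ : ℂ) * (b * ee ((2 * k + 1) * x / (2 * M)))‖ ≤ g k := by
    rw [norm_mul, norm_mul, hb, norm_mul, norm_ee, norm_ee, Complex.norm_real, Real.norm_eq_abs, hσ,
      one_mul, mul_one, mul_one]
    exact hg k (Finset.mem_range.1 hk)
  have hk1 : (k : ℝ) + 1 ≤ m * ((k / m + 1 : ℕ) : ℝ) := by
    have := Nat.lt_mul_div_succ k hm
    exact_mod_cast this
  have hw1 : 2 * π * w ≤ ((k / m + 1 : ℕ) : ℝ) * (π * K / (16 * M)) := by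
    have e3 : ((k / m + 1 : ℕ) : ℝ) * (π * K / (16 * M)) =
        2 * π * (2 * (m * ((k / m + 1 : ℕ) : ℝ)) / (2 * M)) := by
      rw [hK]
      push_cast
      field_simp
      ring
    rw [e3, hwd]
    refine mul_le_mul_of_nonneg_left (div_le_div_of_nonneg_right (by linarith) (by positivity))
      (by positivity)
  have hw2 : (2 * π * w) ^ 2 ≤ (((k / m + 1 : ℕ) : ℝ) * (π * K / (16 * M))) ^ 2 :=
    pow_le_pow_left₀ (by positivity) hw1 2
  have hw3 := mul_le_mul hn hw2 (by positivity) (by positivity)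
  rw [mul_assoc (σ : ℂ), mul_assoc (σ : ℂ), Complex.re_ofReal_mul, Complex.re_ofReal_mul,
    Complex.re_ofReal_mul, mul_assoc b, mul_assoc b, ← ee_add, ← ee_add, ← e1, ← e2] at h
  rw [mul_pow] at hw3
  linarith

lemma norm_cx (a b : ℕ) : ‖cx a b‖ ≤ |(a : ℝ) - 2 ^ 31| + |(b : ℝ) - 2 ^ 31| :=
  Complex.norm_le_abs_re_add_abs_im _

lemma V_le {lm J V : ℕ} {l : L3} (h : jmpOk lm l J V = true) : V ≤ 12884901888 := by
  unfold jmpOk at h
  rw [tot_eq] at h
  simp only [Bool.and_eq_true, Nat.ble_eq] at h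
  exact h.2.1

end Low

open Low in
theorem lowOk (hS : StSynth) (hH : StEnvH) : StLow := by
  intro lm K c n BR BI J V wb thr rl l1 l2 l h5 h21 h32 hK1 hK hcn hthr hr1 hr2 hgeo hlog hjmp hchk
    y hn hy
  have hM : Nat.shiftLeft (nat_lit 1) lm = 2 ^ lm := by
    change 1 <<< lm = _
    rw [Nat.shiftLeft_eq, one_mul]
  obtain ⟨t, ht⟩ : ∃ t : ℕ, t = thr + 4294967296 + V * 4 * 50331606 / 2 ^ 24 := ⟨_, rfl⟩
  have ht' : Nat.add (Nat.add thr (nat_lit 4294967296))
      (Nat.shiftRight (Nat.mul (Nat.mul V (nat_lit 4)) (nat_lit 50331606)) (nat_lit 24)) = t := by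
    rw [ht, ← Nat.shiftRight_eq_div_pow]
    rfl
  obtain ⟨h, hh, hb⟩ := hH lm J V rl l h5 h21 hgeo hlog hjmp
  simp only [lowChk, hM, ht', hh, Bool.and_eq_true, Nat.ble_eq] at hchk
  obtain ⟨⟨⟨c1, c2⟩, c3, c4⟩, ⟨c5, c6⟩, c7, c8⟩ := hchk
  obtain ⟨r1, r2⟩ := rng_pv c3
  obtain ⟨i1, i2⟩ := rng_pv c4
  obtain ⟨g1, a1, a2⟩ := absv_pv r2
  obtain ⟨g2, a3, a4⟩ := absv_pv i2
  rw [← r1] at a1
  rw [← i1] at a3
  have hab : Nat.add (absv (on K) BR) (absv (on K) BI) = pv K fun j => g1 j + g2 j := by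
    rw [a1, a3]
    exact pv_add K g1 g2
  have hp21 : 2 ^ lm ≤ 2 ^ 21 := Nat.pow_le_pow_right (by norm_num) h21
  have hsum : ∑ j ∈ range K, (g1 j + g2 j) < 2 ^ 64 - 1 := by
    have e1 : ∑ j ∈ range K, (g1 j + g2 j) ≤ ∑ _j ∈ range K, 2 ^ 32 :=
      Finset.sum_le_sum fun j hj => by
        have := (a2 j (Finset.mem_range.1 hj)).1
        have := (a4 j (Finset.mem_range.1 hj)).1
        omega
    rw [Finset.sum_const, Finset.card_range, smul_eq_mul] at e1
    omega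
  rw [hab] at c1 c2
  rw [sm_pv hsum] at c1
  obtain ⟨m, hm⟩ := h32
  have hm0 : 0 < m := by omega
  have c2' : ∑ j ∈ range K, (j / m + 1) ^ 2 * (g1 j + g2 j) ≤ wb := by
    have e1 : Nat.div K (nat_lit 32) = m := by
      change K / 32 = m
      omega
    rw [e1] at c2
    subst hm
    exact (wsum_pv hsum).symm.trans_le c2
  have hgk : ∀ k < K, |(lane BR k : ℝ) - 2 ^ 31| + |(lane BI k : ℝ) - 2 ^ 31| ≤
      ((g1 k + g2 k : ℕ) : ℝ) := fun k hk => by
    push_cast
    exact add_le_add (a2 k hk).2 (a4 k hk).2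
  obtain ⟨f, hf, hfb⟩ := hS lm K c n (lane BR) (lane BI) l1 l2 h5 h21 hK1 hK (by omega) (by omega)
    hr1 hr2 (by
      refine (Finset.sum_le_sum fun k hk => hgk k (Finset.mem_range.1 hk)).trans ?_
      have c1' : ∑ j ∈ range K, (g1 j + g2 j) ≤ 900000000 := c1
      exact_mod_cast c1')
  rw [← r1, ← i1] at hf
  rw [hf] at c5 c6 c7 c8
  have hF0 : Nat.mul (sl (pv (n + 1) f) (nat_lit 0) n) (nat_lit 2) = pv n fun j => f (0 + j) * 2 := by
    change sl (pv (n + 1) f) 0 n * 2 = _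
    rw [sl_pv (fun j hj => by have := (hfb j (by omega)).1; omega) (by omega), pv_mul]
  have hF1 : Nat.mul (sl (pv (n + 1) f) (nat_lit 1) n) (nat_lit 2) = pv n fun j => f (1 + j) * 2 := by
    change sl (pv (n + 1) f) 1 n * 2 = _
    rw [sl_pv (fun j hj => by have := (hfb j (by omega)).1; omega) (by omega), pv_mul]
  have hG : Nat.mul (on n) (nat_lit 8589934592) = pv n fun _ => 8589934592 := on_mul n _
  have hH0 : sl (pv (2 * 2 ^ lm) h) c n = pv n fun j => h (c + j) :=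
    sl_pv (fun j hj => by have := (hb j (by omega)).1; omega) (by omega)
  have hH1 : sl (pv (2 * 2 ^ lm) h) (Nat.add c (2 ^ lm)) n = pv n fun j => h (c + 2 ^ lm + j) :=
    sl_pv (s := c + 2 ^ lm) (fun j hj => by have := (hb j (by omega)).1; omega) (by omega)
  rw [hH0, hF0] at c5
  rw [hH0, hF1] at c6
  rw [hH1, hG, hF0] at c7
  rw [hH1, hG, hF1] at c8
  have hV := V_le hjmp
  have ht63 : t < 2 ^ 63 := by omega
  have k5 : ∀ j < n, h (c + j) + f (0 + j) * 2 ≤ t := by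
    refine lek_pv (fun j hj => ?_) ht63 (pv_add n _ _ ▸ c5)
    have := (hb (c + j) (by omega)).1
    have := (hfb (0 + j) (by omega)).1
    omega
  have k6 : ∀ j < n, h (c + j) + f (1 + j) * 2 ≤ t := by
    refine lek_pv (fun j hj => ?_) ht63 (pv_add n _ _ ▸ c6)
    have := (hb (c + j) (by omega)).1
    have := (hfb (1 + j) (by omega)).1
    omega
  have k7 : ∀ j < n, h (c + 2 ^ lm + j) + (8589934592 - f (0 + j) * 2) ≤ t := by
    have e : Nat.sub (pv n fun _ => 8589934592) (pv n fun j => f (0 + j) * 2) =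
        pv n fun j => 8589934592 - f (0 + j) * 2 :=
      pv_sub fun j hj => by have := (hfb (0 + j) (by omega)).1; omega
    rw [e] at c7
    refine lek_pv (fun j hj => ?_) ht63 (pv_add n _ _ ▸ c7)
    have := (hb (c + 2 ^ lm + j) (by omega)).1
    omega
  have k8 : ∀ j < n, h (c + 2 ^ lm + j) + (8589934592 - f (1 + j) * 2) ≤ t := by
    have e : Nat.sub (pv n fun _ => 8589934592) (pv n fun j => f (1 + j) * 2) =
        pv n fun j => 8589934592 - f (1 + j) * 2 :=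
      pv_sub fun j hj => by have := (hfb (1 + j) (by omega)).1; omega
    rw [e] at c8
    refine lek_pv (fun j hj => ?_) ht63 (pv_add n _ _ ▸ c8)
    have := (hb (c + 2 ^ lm + j) (by omega)).1
    omega
  have htR : (t : ℝ) ≤ thr + 4294967296 + 4 * V * 50331606 / 2 ^ 24 := by
    have e := Nat.cast_div_le (α := ℝ) (m := V * 4 * 50331606) (n := 2 ^ 24)
    rw [ht]
    push_cast at e ⊢
    linarith
  have hfB : ∀ i ≤ n, |2 * (f i : ℝ) - 4294967296 - fB (2 ^ lm) K BR BI (c + i)| ≤ 44000 := by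
    intro i hi
    have e1 := (hfb i hi).2
    have e2 : fB (2 ^ lm) K BR BI (c + i) = 2 * (∑ k ∈ range K, cx (lane BR k) (lane BI k) *
        ee (-(k : ℝ) ^ 2 / (2 * 2 ^ lm)) * ee ((2 * k + 1) * (c + i) / (2 * 2 ^ lm))).re := by
      unfold fB
      rw [Complex.re_sum, Finset.mul_sum]
      push_cast
      rfl
    rw [e2, abs_le] at *
    constructor <;> linarith [e1.1, e1.2]
  have hMpos : 0 < 2 ^ lm := by positivity
  have hch := fun (σ : ℝ) (hσ : |σ| = 1) (x s : ℝ) (hs0 : 0 ≤ s) (hs1 : s ≤ 1) =>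
    fB_chord (BR := BR) (BI := BI) (g := fun j => g1 j + g2 j) hMpos hm0 hm
      (fun k hk => (norm_cx _ _).trans (hgk k hk)) c2' σ hσ x s hs0 hs1
  push_cast at hch
  rcases hy with ⟨y1, y2⟩ | ⟨y1, y2⟩
  · obtain ⟨j, hj, s, hs0, hs1, rfl⟩ := cell hn y1 y2
    have e1 := (hb (c + j) (by omega)).2 (c + j + s) (by push_cast; linarith) (by push_cast; linarith)
    have e2 := hch 1 abs_one (c + j) s hs0 hs1
    have e3 := (abs_le.1 (hfB j hj.le)).1
    have e4 := (abs_le.1 (hfB (j + 1) hj)).1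
    have e5 : (h (c + j) : ℝ) + f j * 2 ≤ t := by
      have := k5 j hj
      rw [zero_add] at this
      exact_mod_cast this
    have e6 : (h (c + j) : ℝ) + f (j + 1) * 2 ≤ t := by
      have := k6 j hj
      rw [add_comm 1 j] at this
      exact_mod_cast this
    push_cast at e4
    rw [← add_assoc] at e4
    simp only [one_mul] at e2
    have e7 : fB (2 ^ lm) K BR BI (c + j) ≤
        thr + 44000 + 4 * V * 50331606 / 2 ^ 24 - h (c + j) := by linarith
    have e8 : fB (2 ^ lm) K BR BI (c + j + 1) ≤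
        thr + 44000 + 4 * V * 50331606 / 2 ^ 24 - h (c + j) := by linarith
    have e9 := mul_le_mul_of_nonneg_left e7 (sub_nonneg.2 hs1)
    have e10 := mul_le_mul_of_nonneg_left e8 hs0
    linarith
  · obtain ⟨j, hj, s, hs0, hs1, rfl⟩ := cell hn y1 y2
    have e1 := (hb (c + 2 ^ lm + j) (by omega)).2 (c + 2 ^ lm + j + s) (by push_cast; linarith)
      (by push_cast; linarith)
    have e0 := fB_shift hMpos K BR BI (c + j + s)
    rw [show (c : ℝ) + j + s + ((2 ^ lm : ℕ) : ℝ) = c + 2 ^ lm + j + s by push_cast; ring] at e0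
    have e2 := hch (-1) (by simp) (c + j) s hs0 hs1
    have e3 := (abs_le.1 (hfB j hj.le)).2
    have e4 := (abs_le.1 (hfB (j + 1) hj)).2
    have e5 : (h (c + 2 ^ lm + j) : ℝ) + 8589934592 ≤ t + f j * 2 := by
      have e := k7 j hj
      rw [zero_add] at e
      have := (hfb j hj.le).1
      have e' : h (c + 2 ^ lm + j) + 8589934592 ≤ t + f j * 2 := by omega
      exact_mod_cast e'
    have e6 : (h (c + 2 ^ lm + j) : ℝ) + 8589934592 ≤ t + f (j + 1) * 2 := by
      have e := k8 j hj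
      rw [add_comm 1 j] at e
      have := (hfb (j + 1) hj).1
      have e' : h (c + 2 ^ lm + j) + 8589934592 ≤ t + f (j + 1) * 2 := by omega
      exact_mod_cast e'
    push_cast at e4
    rw [← add_assoc] at e4
    simp only [neg_one_mul] at e2
    have e7 : -fB (2 ^ lm) K BR BI (c + j) ≤
        thr + 44000 + 4 * V * 50331606 / 2 ^ 24 - h (c + 2 ^ lm + j) := by linarith
    have e8 : -fB (2 ^ lm) K BR BI (c + j + 1) ≤
        thr + 44000 + 4 * V * 50331606 / 2 ^ 24 - h (c + 2 ^ lm + j) := by linarith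
    have e9 := mul_le_mul_of_nonneg_left e7 (sub_nonneg.2 hs1)
    have e10 := mul_le_mul_of_nonneg_left e8 hs0
    rw [e0]
    linarith

end Pool.Agent.Lib.MP_5db4ad_nt.S2
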