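import Pool.Agent.Lib.MP_5db4ad_nt.S2Defs2

/-! The numerical statement in checked form implies the one used by the final step. -/

namespace Pool.Agent.Lib.MP_5db4ad_nt.S2

open Finset
open scoped Real

namespace Num2

lemma five_pow_le {n : ℕ} (h : Nat.Coprime n 6) : 5 ^ ArithmeticFunction.cardFactors n ≤ n := by
  have h0 : n ≠ 0 := by
    rintro rfl
    simp at h
  rw [ArithmeticFunction.cardFactors_apply]
  conv_rhs => rw [← Nat.prod_primeFactorsList h0]
  refine List.pow_card_le_prod _ _ fun p hp => ?_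
  have hp1 := Nat.prime_of_mem_primeFactorsList hp
  have hp2 := Nat.Coprime.coprime_dvd_left (Nat.dvd_of_mem_primeFactorsList hp) h
  by_contra hlt
  have := hp1.two_le
  have h5 : p < 5 := by omega
  interval_cases p <;> exact absurd hp2 (by decide)

lemma et_bound (w : ℕ) : 2 ^ et (2 + w) ≤ 1000 ^ 2 * 5 ^ w := by
  rcases lt_or_ge w 7 with h | h
  · interval_cases w <;> simp [et]
  · calc 2 ^ et (2 + w) ≤ 2 ^ 36 := Nat.pow_le_pow_right (by norm_num) (et_le _)
      _ ≤ 1000 ^ 2 * 5 ^ 7 := by norm_num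
      _ ≤ 1000 ^ 2 * 5 ^ w := Nat.mul_le_mul_left _ (Nat.pow_le_pow_right (by norm_num) h)

lemma gg_eq {m : ℕ} (hm : m ∈ Aset) : gg m = (-2 : ℝ) ^ ArithmeticFunction.cardFactors m := by
  obtain ⟨h6, hlt⟩ := mem_Aset.1 hm
  have h0 : m ≠ 0 := by
    rintro rfl
    simp at h6
  rw [gg, mf, if_neg h0, ArithmeticFunction.cardFactors_eq_sum_factorization, Finsupp.sum,
    ← Finset.prod_pow_eq_pow_sum, Finsupp.prod]
  refine Finset.prod_congr rfl fun p hp => ?_
  have hp1 : p.Prime := Nat.prime_of_mem_primeFactors hp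
  have hd : p ∣ m := Nat.dvd_of_mem_primeFactors hp
  have hp2 := Nat.Coprime.coprime_dvd_left hd h6
  have h3 : ¬ p ≤ 3 := by
    intro h
    have := hp1.two_le
    interval_cases p <;> exact absurd hp2 (by decide)
  rw [gloc, if_neg h3]
  split_ifs with h1 h2 h4
  · rfl
  · rw [h2, pow_one]
  all_goals
    exfalso
    have ha : 2 ≤ m.factorization p := by
      have := Finsupp.mem_support_iff.1 hp
      omega
    obtain ⟨r, rfl⟩ := (hp1.pow_dvd_iff_le_factorization h0).2 ha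
    have hr : r ≠ 0 := right_ne_zero_of_mul h0
    rw [ArithmeticFunction.cardFactors_mul (pow_ne_zero _ hp1.ne_zero) hr,
      ArithmeticFunction.cardFactors_apply_prime_pow hp1] at hlt
    have h5 := five_pow_le (Nat.Coprime.coprime_dvd_left (Dvd.intro_left _ rfl) h6)
    have h7 : 1000 ^ 2 ≤ p ^ 2 := Nat.pow_le_pow_left (by omega) 2
    exact absurd ((et_bound _).trans (Nat.mul_le_mul h7 h5)) (not_le.2 hlt)

lemma hat_cA (k : ℕ) : hat cA k = As k := by
  rw [hat, As, tsum_eq_sum (s := Aset)]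
  · exact Finset.sum_congr rfl fun m hm => by rw [cA, if_pos hm, gg_eq hm]
  · intro m hm
    rw [cA, if_neg hm, Complex.ofReal_zero, zero_mul]

lemma abs_Pf (v : ℝ) : |Pf v| ≤ 2 / 3 := by
  have hl : 0 < Real.log 2 := Real.log_pos (by norm_num)
  have h1 : (2 : ℝ) ^ ⌊v / Real.log 2⌋ ≤ Real.exp v := by
    rw [← Real.rpow_intCast, Real.rpow_def_of_pos (by norm_num), Real.exp_le_exp, mul_comm,
      ← le_div_iff₀ hl]
    exact Int.floor_le _
  have h2 : Real.exp v * Real.exp (-v) = 1 := by rw [← Real.exp_add, add_neg_cancel, Real.exp_zero]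
  rw [Pf, abs_mul, abs_mul, abs_zpow, abs_neg, abs_two, abs_of_pos (Real.exp_pos _),
    abs_of_pos (by norm_num : (0 : ℝ) < 2 / 3)]
  have := mul_le_mul_of_nonneg_right h1 (Real.exp_pos (-v)).le
  nlinarith

lemma At_bdd : ∃ B : ℝ, ∀ u, |At u| ≤ B :=
  ⟨∑ m ∈ Aset, |(-2 : ℝ) ^ ArithmeticFunction.cardFactors m / m| * (2 / 3), fun u =>
    (Finset.abs_sum_le_sum_abs _ _).trans (Finset.sum_le_sum fun m _ => by
      rw [abs_mul]
      exact mul_le_mul_of_nonneg_left (abs_Pf _) (abs_nonneg _))⟩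

lemma summable_At (u : ℝ) :
    Summable fun i : ℕ => (-2 / 3 : ℝ) ^ i * At (u - i * Real.log 3) := by
  obtain ⟨B, hB⟩ := At_bdd
  refine Summable.of_norm_bounded
    ((summable_geometric_of_lt_one (r := 2 / 3) (by norm_num) (by norm_num)).mul_right B)
    fun i => ?_
  rw [norm_mul, norm_pow, Real.norm_eq_abs, Real.norm_eq_abs,
    show |(-2 / 3 : ℝ)| = 2 / 3 by rw [abs_of_neg] <;> norm_num]
  exact mul_le_mul_of_nonneg_left (hB _) (by positivity)

lemma hasSum_ex (k : ℕ) (a : ℂ) (u : ℝ) :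
    HasSum (fun i : ℕ => (-2 / 3 : ℝ) ^ i * (2 * (a * ex k (u - i * Real.log 3)).re))
      (2 * (a / (1 + 2 * (3 : ℂ) ^ (-sk k)) * ex k u).re) := by
  obtain ⟨w, hw⟩ : ∃ w : ℂ, w = ex k (-Real.log 3) := ⟨_, rfl⟩
  have hn : ‖w‖ = 1 := by rw [hw, ex, ext, Complex.norm_exp_ofReal_mul_I]
  have h3 : (3 : ℂ) ^ (-sk k) = w / 3 := by
    have e : Complex.log 3 = (Real.log 3 : ℝ) := by
      rw [Complex.ofReal_log (by norm_num)]
      norm_num
    have e3 : Complex.exp (Real.log 3 : ℝ) = 3 := by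
      rw [← Complex.ofReal_exp, Real.exp_log (by norm_num)]
      norm_num
    obtain ⟨L, hL⟩ : ∃ L : ℝ, Real.log 3 = L := ⟨_, rfl⟩
    rw [Complex.cpow_def_of_ne_zero (by norm_num), e, hw, ex, ext, sk, eq_div_iff (by norm_num)]
    rw [hL] at e3 ⊢
    rw [← e3, ← Complex.exp_add]
    congr 1
    push_cast
    ring
  have hex : ∀ i : ℕ, ex k (u - i * Real.log 3) = ex k u * w ^ i := by
    intro i
    rw [hw, ex, ex, ex, ext, ext, ext, ← Complex.exp_nat_mul, ← Complex.exp_add]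
    congr 1
    push_cast
    ring
  have hg : HasSum (fun i : ℕ => (-2 / 3 * w) ^ i) (1 - -2 / 3 * w)⁻¹ :=
    hasSum_geometric_of_norm_lt_one (by rw [norm_mul, hn]; norm_num)
  have h1 := (Complex.hasSum_re (hg.mul_left (a * ex k u))).mul_left 2
  have e1 : a / (1 + 2 * (3 : ℂ) ^ (-sk k)) * ex k u = a * ex k u * (1 - -2 / 3 * w)⁻¹ := by
    rw [h3, show (1 : ℂ) + 2 * (w / 3) = 1 - -2 / 3 * w by ring]
    ring
  rw [e1]
  have e2 : (fun i : ℕ => (-2 / 3 : ℝ) ^ i * (2 * (a * ex k (u - i * Real.log 3)).re)) =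
      fun i : ℕ => 2 * (a * ex k u * (-2 / 3 * w) ^ i).re := by
    funext i
    have e3 : a * ex k u * (-2 / 3 * w) ^ i =
        (((-2 / 3 : ℝ) ^ i : ℝ) : ℂ) * (a * (ex k u * w ^ i)) := by
      push_cast
      ring
    rw [hex, e3, Complex.re_ofReal_mul]
    ring
  rw [e2]
  exact h1

lemma hasSum_trig (M : ℕ) (a : ℕ → ℂ) (u : ℝ) :
    HasSum (fun i : ℕ => (-2 / 3 : ℝ) ^ i * trig M a (u - i * Real.log 3))
      (trig M (fun k => a k / (1 + 2 * (3 : ℂ) ^ (-sk k))) u) := by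
  simp only [trig, Finset.mul_sum]
  exact hasSum_sum fun k _ => hasSum_ex k (a k) u

lemma Psi_eq (u : ℝ) :
    Psi u = At u + trig (2 ^ 23) (fun k => om k * (Gf (sk k) - As k)) u := by
  have e1 : (fun k => om k * Rk k) = fun k => om k * (Gf (sk k) - As k) := by
    funext k
    rw [Rk, hat_cA]
  rw [Psi, At, e1, Finset.sum_congr rfl fun m hm => by rw [gg_eq hm]]

end Num2

theorem num2 {c : ℝ} (h : StNum2 c) : StNum c := by
  intro u
  have h1 := (Num2.summable_At u).hasSum.add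
    (Num2.hasSum_trig (2 ^ 23) (fun k => om k * (Gf (sk k) - As k)) u)
  have e : (fun i : ℕ => (-2 / 3 : ℝ) ^ i * Psi (u - i * Real.log 3)) = fun i : ℕ =>
      (-2 / 3 : ℝ) ^ i * At (u - i * Real.log 3) + (-2 / 3 : ℝ) ^ i *
        trig (2 ^ 23) (fun k => om k * (Gf (sk k) - As k)) (u - i * Real.log 3) := by
    funext i
    rw [Num2.Psi_eq, mul_add]
  rw [e, h1.tsum_eq]
  exact h u

end Pool.Agent.Lib.MP_5db4ad_nt.S2
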