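import Pool.Agent.Lib.MP_5db4ad_nt.S2LowSt
import Pool.Agent.Lib.MP_5db4ad_nt.S2Num2

/-! From the check on one period to the numerical statement. -/

namespace Pool.Agent.Lib.MP_5db4ad_nt.S2

open Finset
open scoped Real

namespace LowFin

lemma Pf_add (v : ℝ) : Pf (v + Real.log 2) = -Pf v := by
  have hl : 0 < Real.log 2 := Real.log_pos (by norm_num)
  rw [Pf, Pf, add_div, div_self hl.ne', Int.floor_add_one, zpow_add_one₀ (by norm_num), neg_add,
    Real.exp_add, Real.exp_neg (Real.log 2), Real.exp_log (by norm_num)]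
  ring

lemma AtL_add (l : L3) (u : ℝ) : AtL l (u + Real.log 2) = -AtL l u := by
  unfold AtL
  induction l.toList with
  | nil => simp
  | cons e t ih =>
    rw [List.map_cons, List.sum_cons, ih, List.map_cons, List.sum_cons, add_sub_right_comm, Pf_add]
    ring

lemma At3_add (l : L3) (u : ℝ) : At3 l (u + Real.log 2) = -At3 l u := by
  rw [At3, At3, ← tsum_neg]
  exact tsum_congr fun i => by rw [add_sub_right_comm, AtL_add, mul_neg]

lemma ee_add (x y : ℝ) : ee (x + y) = ee x * ee y := by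
  rw [ee, ee, ee, ← Complex.exp_add]
  congr 1
  push_cast
  ring

lemma norm_ee (x : ℝ) : ‖ee x‖ = 1 := Complex.norm_exp_ofReal_mul_I _

lemma ee_half (k : ℕ) : ee (k + 1 / 2) = -1 := by
  rw [ee, ← Complex.exp_pi_mul_I, Complex.exp_eq_exp_iff_exists_int]
  exact ⟨k, by push_cast; ring⟩

lemma fB_add {M : ℕ} (hM : 1 ≤ M) (K BR BI : ℕ) (y : ℝ) :
    fB M K BR BI (y + M) = -fB M K BR BI y := by
  have hM' : (0 : ℝ) < M := Nat.cast_pos.2 hM
  rw [fB, fB, ← sum_neg_distrib]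
  refine sum_congr rfl fun k _ => ?_
  rw [show (2 * (k : ℝ) + 1) * (y + M) / (2 * M) = (2 * k + 1) * y / (2 * M) + (k + 1 / 2) by
    field_simp, ee_add, ee_half, mul_neg_one, mul_neg, Complex.neg_re, mul_neg]

lemma AtL_eq {l : L3} (h1 : (l.toList.map (·.1)).Nodup)
    (h2 : ∀ m, m ∈ l.toList.map (·.1) ↔ m ∈ Aset)
    (h3 : ∀ e ∈ l.toList, e.2.1 = ArithmeticFunction.cardFactors e.1) (u : ℝ) :
    AtL l u = At u := by
  have h4 : (l.toList.map (·.1)).toFinset = Aset := by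
    ext m
    rw [List.mem_toFinset, h2]
  rw [At, ← h4, List.sum_toFinset _ h1, List.map_map, AtL]
  exact congrArg List.sum (List.map_congr_left fun e he => by rw [h3 e he]; rfl)

lemma low {M K BR BI : ℕ} {ε : ℝ} (hM : 1 ≤ M) (a : ℕ → ℂ) (y : ℝ)
    (h : ∑ k ∈ range K, ‖a k * ee (k ^ 2 / (2 * M)) - cx (lane BR k) (lane BI k) / 2 ^ 32‖ ≤ ε) :
    |trig K a (y / M * Real.log 2) - fB M K BR BI y / 2 ^ 32| ≤ 2 * ε := by
  have hl : 0 < Real.log 2 := Real.log_pos (by norm_num)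
  have hM' : (0 : ℝ) < M := Nat.cast_pos.2 hM
  rw [trig, fB, sum_div, ← sum_sub_distrib]
  refine (abs_sum_le_sum_abs _ _).trans (le_trans ?_ (mul_le_mul_of_nonneg_left h zero_le_two))
  rw [mul_sum]
  refine sum_le_sum fun k _ => ?_
  have h1 : ex k (y / M * Real.log 2) = ee ((2 * k + 1) * y / (2 * M)) := by
    rw [ex, ext, ee, tk]
    congr 3
    field_simp
  have h2 : ee (k ^ 2 / (2 * M)) * ee (-(k : ℝ) ^ 2 / (2 * M)) = 1 := by
    rw [← ee_add, neg_div, add_neg_cancel, ee]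
    simp
  have h3 := norm_ee (-(k : ℝ) ^ 2 / (2 * M))
  have h4 := norm_ee ((2 * k + 1) * y / (2 * M))
  rw [h1]
  generalize ee ((2 * k + 1) * y / (2 * M)) = z at h4 ⊢
  generalize ee (-(k : ℝ) ^ 2 / (2 * M)) = w at h2 h3 ⊢
  generalize ee (k ^ 2 / (2 * M)) = w' at h2 ⊢
  generalize cx (lane BR k) (lane BI k) = b
  have h5 : 2 * (a k * z).re - 2 * (b * w * z).re / 2 ^ 32 =
      2 * ((a k * w' - b / 2 ^ 32) * w * z).re := by
    rw [show (a k * w' - b / 2 ^ 32) * w * z = a k * z - b * w * z / ((2 ^ 32 : ℝ) : ℂ) by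
      push_cast
      linear_combination a k * z * h2, Complex.sub_re, Complex.div_ofReal_re]
    ring
  rw [h5, abs_mul, abs_two]
  refine mul_le_mul_of_nonneg_left ((Complex.abs_re_le_norm _).trans_eq ?_) zero_le_two
  rw [norm_mul, norm_mul, h3, h4, mul_one, mul_one]

end LowFin

theorem high3 : StHigh3 := fun K ε h u => by
  have h1 := hasSum_sum (s := Ico K (2 ^ 23)) fun k _ =>
    Num2.hasSum_ex k (om k * (Gf (sk k) - As k)) u
  have h2 := (hasSum_geometric_of_lt_one (r := 2 / 3) (by norm_num) (by norm_num)).mul_right ε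
  refine (h1.norm_le_of_bounded h2 fun i => ?_).trans_eq (by norm_num)
  rw [← mul_sum, norm_mul, norm_pow, Real.norm_eq_abs, Real.norm_eq_abs,
    show |(-2 / 3 : ℝ)| = 2 / 3 by rw [abs_of_neg] <;> norm_num]
  exact mul_le_mul_of_nonneg_left (h _) (by positivity)

theorem lowFin (h : StListA) : StLowFin := by
  intro M K BR BI c ε1 ε2 hM hK hc h1 h2 u
  obtain ⟨h3, h4, -, h5⟩ := h
  generalize listA = l at h3 h4 h5 hc
  have hl : 0 < Real.log 2 := Real.log_pos (by norm_num)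
  have hM' : (0 : ℝ) < M := Nat.cast_pos.2 hM
  obtain ⟨G, hG⟩ : ∃ G : ℝ → ℝ,
      G = fun y => At3 l (y / M * Real.log 2) + fB M K BR BI y / 2 ^ 32 := ⟨_, rfl⟩
  have h6 : Function.Antiperiodic G (M : ℝ) := fun y => by
    rw [hG]
    show At3 l ((y + M) / M * Real.log 2) + fB M K BR BI (y + M) / 2 ^ 32 =
      -(At3 l (y / M * Real.log 2) + fB M K BR BI y / 2 ^ 32)
    rw [add_div, div_self hM'.ne', add_mul, one_mul, LowFin.At3_add, LowFin.fB_add hM]
    ring
  have h7 : ∀ y, G y ≤ c := fun y => by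
    obtain ⟨z, hz, e⟩ := h6.periodic_two_mul.exists_mem_Ico₀ (by positivity) y
    rw [e, hG]
    exact hc z hz.1 hz.2.le
  obtain ⟨y, rfl⟩ : ∃ y : ℝ, u = y / M * Real.log 2 := ⟨u / Real.log 2 * M, by field_simp⟩
  have h8 : |G y| ≤ c := abs_le.2 ⟨by linarith [h7 (y + M), h6 y], h7 y⟩
  have h9 := LowFin.low hM
    (fun k => om k * (Gf (sk k) - As k) / (1 + 2 * (3 : ℂ) ^ (-sk k))) y h1
  have h10 := h2 (y / M * Real.log 2)
  rw [hG] at h8
  simp only [At3, LowFin.AtL_eq h3 h4 h5] at h8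
  rw [trig, ← sum_range_add_sum_Ico _ hK]
  rw [trig] at h9
  rw [abs_le] at h8 h9 h10 ⊢
  constructor <;> linarith [h8.1, h8.2, h9.1, h9.2, h10.1, h10.2]

end Pool.Agent.Lib.MP_5db4ad_nt.S2
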