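import Pool.Agent.Lib.MP_5db4ad_nt.S2LowJ
import Pool.Agent.Lib.MP_5db4ad_nt.S2LowData

/-!
Runs of the final check.
-/

namespace Pool.Agent.Lib.MP_5db4ad_nt.S2

set_option maxRecDepth 100000

theorem tb1Run : rotOk2 tb1 (19 - 1) 0 67108864 = true := by decide +kernel

theorem tb2Run : rotOk2 tb2 (19 - 2) 0 67108864 = true := by decide +kernel

theorem rlRun : geoOk (2 ^ 19) rl 1 = true := by decide +kernel

theorem lowRun0 : lowChk 19 65536 0 131072 BR BI rl (rotTab (19 - 1) tb1) (rotTab (19 - 2) tb2)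
    jt.val jV wb 4201000000 = true := by decide +kernel

theorem lowRun1 : lowChk 19 65536 131072 131072 BR BI rl (rotTab (19 - 1) tb1) (rotTab (19 - 2) tb2)
    jt.val jV wb 4201000000 = true := by decide +kernel

theorem lowRun2 : lowChk 19 65536 262144 131072 BR BI rl (rotTab (19 - 1) tb1) (rotTab (19 - 2) tb2)
    jt.val jV wb 4201000000 = true := by decide +kernel

theorem lowRun3 : lowChk 19 65536 393216 131072 BR BI rl (rotTab (19 - 1) tb1) (rotTab (19 - 2) tb2)
    jt.val jV wb 4201000000 = true := by decide +kernel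

end Pool.Agent.Lib.MP_5db4ad_nt.S2
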