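import Pool.Agent.Lib.MP_5db4ad_nt.S2Lane

/-!
Meaning of the conditional rotations.
-/

namespace Pool.Agent.Lib.MP_5db4ad_nt.S2

open Finset
open scoped Real

namespace Rot

lemma ee_add (x y : ℝ) : ee (x + y) = ee x * ee y := by
  unfold ee
  rw [← Complex.exp_add]
  congr 1
  push_cast
  ring

lemma ee_zero : ee 0 = 1 := by simp [ee]

lemma norm_ee (x : ℝ) : ‖ee x‖ = 1 := Complex.norm_exp_ofReal_mul_I _

lemma ee_nat (k : ℕ) : ee k = 1 := by
  unfold ee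
  have := Complex.exp_nat_mul_two_pi_mul_I k
  rw [← this]
  congr 1
  push_cast
  ring

lemma ee_re (x : ℝ) : (ee x).re = Real.cos (2 * π * x) := Complex.exp_ofReal_mul_I_re _

lemma ee_quarter : ee (1 / 4) = Complex.I := by
  refine Eq.trans ?_ Complex.exp_pi_div_two_mul_I
  unfold ee
  congr 1
  push_cast
  ring

/-- the entry of a table as a complex number -/
noncomputable def zt (c s : ℕ) : ℂ := ⟨(c : ℝ) / 2 ^ 26, (s : ℝ) / 2 ^ 26⟩

lemma zt_I : zt 0 67108864 = Complex.I := by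
  apply Complex.ext
  · simp [zt]
  · simp only [zt, Complex.I_im]
    norm_num

/-- selection of a slot by a mask -/
lemma sel {f f' t : ℕ} (hf : f < 2 ^ 38) (hf' : f' < 2 ^ 38) (ht : t < 2) :
    f ^^^ ((f ^^^ f') &&& (t * 274877906943)) = if t = 1 then f' else f := by
  have hx : f ^^^ f' < 2 ^ 38 := Nat.xor_lt_two_pow hf hf'
  interval_cases t
  · simp
  · have h1 : (1 * 274877906943 : ℕ) = 2 ^ 38 - 1 := by norm_num
    rw [h1, Nat.and_two_pow_sub_one_eq_mod, Nat.mod_eq_of_lt hx, ← Nat.xor_assoc, Nat.xor_self,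
      Nat.zero_xor]
    simp

/-- the masked exchange, slot by slot -/
lemma sel_pv {n b : ℕ} {A f f' : ℕ → ℕ} (hA : ∀ j < n, A j < 2 ^ 64) (hb : b < 64)
    (hf : ∀ j < n, f j < 2 ^ 38) (hf' : ∀ j < n, f' j < 2 ^ 38) :
    Nat.xor (pv n f) (Nat.land (Nat.xor (pv n f) (pv n f'))
      (Nat.mul (Nat.land (Nat.shiftRight (pv n A) b) (on n)) (nat_lit 274877906943))) =
      pv n fun j => if A j / 2 ^ b % 2 = 1 then f' j else f j := by
  have h64 : ∀ {x : ℕ}, x < 2 ^ 38 → x < 2 ^ 64 := fun h => lt_trans h (by norm_num)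
  have hm : Nat.mul (Nat.land (Nat.shiftRight (pv n A) b) (on n)) (nat_lit 274877906943) =
      pv n fun j => A j / 2 ^ b % 2 * 274877906943 := by
    rw [bit_pv hA hb]
    exact pv_mul n _ _
  have hx : ∀ j < n, f j ^^^ f' j < 2 ^ 38 := fun j hj => Nat.xor_lt_two_pow (hf j hj) (hf' j hj)
  have hm2 : ∀ j < n, A j / 2 ^ b % 2 * 274877906943 < 2 ^ 64 := by
    intro j _
    have := Nat.mod_lt (A j / 2 ^ b) (show 0 < 2 by norm_num)
    omega
  rw [hm, xor_pv (fun j hj => h64 (hf j hj)) (fun j hj => h64 (hf' j hj)),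
    land_pv (fun j hj => h64 (hx j hj)) hm2,
    xor_pv (fun j hj => h64 (hf j hj))
      (fun j hj => lt_of_le_of_lt Nat.and_le_left (h64 (hx j hj)))]
  exact pv_congr fun j hj =>
    sel (hf j hj) (hf' j hj) (Nat.mod_lt _ (by norm_num))

/-- one slot of one rotation -/
lemma slot {f g c s : ℕ} {z w : ℂ} {e R : ℝ} (hcs : 67108864 ≤ c + s) (hw : ‖w‖ = 1)
    (hz : ‖zt c s - w‖ ≤ 1 / 2 ^ 22) (h : ‖cx f g - z‖ ≤ e) (hR : ‖z‖ ≤ R) (hR' : R ≤ 10 ^ 9)
    (he : e ≤ R) :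
    f < 2 ^ 32 ∧ g < 2 ^ 32 ∧
    2147483648 * (c + s - 67108864) ≤ f * c + (4294967296 - g) * s ∧
    2147483648 * (c + s - 67108864) ≤ g * c + f * s ∧
    f * c + (4294967296 - g) * s - 2147483648 * (c + s - 67108864) < 2 ^ 58 ∧
    g * c + f * s - 2147483648 * (c + s - 67108864) < 2 ^ 58 ∧
    ‖cx ((f * c + (4294967296 - g) * s - 2147483648 * (c + s - 67108864)) / 2 ^ 26)
      ((g * c + f * s - 2147483648 * (c + s - 67108864)) / 2 ^ 26) - z * w‖ ≤
      e + (R / 2 ^ 21 + 2) := by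
  have hu : ‖cx f g‖ ≤ 2 * R := by
    have : cx f g = (cx f g - z) + z := by ring
    rw [this]
    exact (norm_add_le _ _).trans (by linarith)
  have hR0 : 0 ≤ R := (norm_nonneg _).trans hR
  have hre := abs_le.1 ((Complex.abs_re_le_norm (cx f g)).trans hu)
  have him := abs_le.1 ((Complex.abs_im_le_norm (cx f g)).trans hu)
  simp only [cx] at hre him
  have hf : f < 2 ^ 32 := by
    have : (f : ℝ) < 2 ^ 32 := by linarith [hre.2]
    exact_mod_cast this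
  have hg : g < 2 ^ 32 := by
    have : (g : ℝ) < 2 ^ 32 := by linarith [him.2]
    exact_mod_cast this
  have hzt : ‖zt c s‖ ≤ 1 + 1 / 2 ^ 22 := by
    have : zt c s = (zt c s - w) + w := by ring
    rw [this]
    exact (norm_add_le _ _).trans (by linarith)
  have hp : ‖cx f g * zt c s‖ ≤ 2 ^ 31 - 1 := by
    rw [norm_mul]
    calc ‖cx f g‖ * ‖zt c s‖ ≤ (2 * 10 ^ 9) * (1 + 1 / 2 ^ 22) :=
          mul_le_mul (by linarith) hzt (norm_nonneg _) (by norm_num)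
      _ ≤ 2 ^ 31 - 1 := by norm_num
  have hpre := abs_le.1 ((Complex.abs_re_le_norm _).trans hp)
  have hpim := abs_le.1 ((Complex.abs_im_le_norm _).trans hp)
  have e1 : (cx f g * zt c s).re =
      (((f : ℝ) - 2 ^ 31) * c - ((g : ℝ) - 2 ^ 31) * s) / 2 ^ 26 := by
    simp only [cx, zt, Complex.mul_re]
    ring
  have e2 : (cx f g * zt c s).im =
      (((g : ℝ) - 2 ^ 31) * c + ((f : ℝ) - 2 ^ 31) * s) / 2 ^ 26 := by
    simp only [cx, zt, Complex.mul_im]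
    ring
  have cK : ((2147483648 * (c + s - 67108864) : ℕ) : ℝ) = 2 ^ 31 * ((c : ℝ) + s - 2 ^ 26) := by
    rw [Nat.cast_mul, Nat.cast_sub hcs]
    push_cast
    ring
  have cX : ((f * c + (4294967296 - g) * s : ℕ) : ℝ) = (f : ℝ) * c + (2 ^ 32 - g) * s := by
    rw [Nat.cast_add, Nat.cast_mul, Nat.cast_mul, Nat.cast_sub (by omega)]
    push_cast
    ring
  have cY : ((g * c + f * s : ℕ) : ℝ) = (g : ℝ) * c + f * s := by push_cast; ring
  have dX : ((f * c + (4294967296 - g) * s : ℕ) : ℝ) - (2147483648 * (c + s - 67108864) : ℕ) =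
      2 ^ 26 * ((cx f g * zt c s).re + 2 ^ 31) := by
    rw [cK, cX, e1]; ring
  have dY : ((g * c + f * s : ℕ) : ℝ) - (2147483648 * (c + s - 67108864) : ℕ) =
      2 ^ 26 * ((cx f g * zt c s).im + 2 ^ 31) := by
    rw [cK, cY, e2]; ring
  have lX : 2147483648 * (c + s - 67108864) ≤ f * c + (4294967296 - g) * s := by
    have : ((2147483648 * (c + s - 67108864) : ℕ) : ℝ) ≤ (f * c + (4294967296 - g) * s : ℕ) := by
      linarith [hpre.1]
    exact_mod_cast this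
  have lY : 2147483648 * (c + s - 67108864) ≤ g * c + f * s := by
    have : ((2147483648 * (c + s - 67108864) : ℕ) : ℝ) ≤ (g * c + f * s : ℕ) := by
      linarith [hpim.1]
    exact_mod_cast this
  rw [← Nat.cast_sub lX] at dX
  rw [← Nat.cast_sub lY] at dY
  generalize f * c + (4294967296 - g) * s - 2147483648 * (c + s - 67108864) = P at dX ⊢
  generalize g * c + f * s - 2147483648 * (c + s - 67108864) = Q at dY ⊢
  have uX : P < 2 ^ 58 := by
    have : (P : ℝ) < 2 ^ 58 := by linarith [hpre.2]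
    exact_mod_cast this
  have uY : Q < 2 ^ 58 := by
    have : (Q : ℝ) < 2 ^ 58 := by linarith [hpim.2]
    exact_mod_cast this
  refine ⟨hf, hg, lX, lY, uX, uY, ?_⟩
  have fl : ∀ T : ℕ, |((T / 2 ^ 26 : ℕ) : ℝ) - (T : ℝ) / 2 ^ 26| ≤ 1 := by
    intro T
    have h1 : (T : ℝ) = 2 ^ 26 * ((T / 2 ^ 26 : ℕ) : ℝ) + ((T % 2 ^ 26 : ℕ) : ℝ) := by
      exact_mod_cast (Nat.div_add_mod T (2 ^ 26)).symm
    have h2 : ((T % 2 ^ 26 : ℕ) : ℝ) < 2 ^ 26 := by
      exact_mod_cast Nat.mod_lt T (by norm_num)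
    have h3 : (0 : ℝ) ≤ ((T % 2 ^ 26 : ℕ) : ℝ) := Nat.cast_nonneg _
    generalize ((T / 2 ^ 26 : ℕ) : ℝ) = q at h1 ⊢
    generalize ((T % 2 ^ 26 : ℕ) : ℝ) = r at h1 h2 h3
    rw [abs_le]
    constructor <;> linarith
  have h1 : ‖cx (P / 2 ^ 26) (Q / 2 ^ 26) - cx f g * zt c s‖ ≤ 2 := by
    refine (Complex.norm_le_abs_re_add_abs_im _).trans ?_
    have a1 : (cx (P / 2 ^ 26) (Q / 2 ^ 26) - cx f g * zt c s).re =
        ((P / 2 ^ 26 : ℕ) : ℝ) - (P : ℝ) / 2 ^ 26 := by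
      rw [Complex.sub_re, dX]
      simp only [cx]
      ring
    have a2 : (cx (P / 2 ^ 26) (Q / 2 ^ 26) - cx f g * zt c s).im =
        ((Q / 2 ^ 26 : ℕ) : ℝ) - (Q : ℝ) / 2 ^ 26 := by
      rw [Complex.sub_im, dY]
      simp only [cx]
      ring
    rw [a1, a2]
    linarith [fl P, fl Q]
  have h2 : ‖cx f g * (zt c s - w)‖ ≤ R / 2 ^ 21 := by
    rw [norm_mul]
    calc ‖cx f g‖ * ‖zt c s - w‖ ≤ (2 * R) * (1 / 2 ^ 22) :=
          mul_le_mul hu hz (norm_nonneg _) (by linarith)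
      _ = R / 2 ^ 21 := by ring
  have h3 : ‖(cx f g - z) * w‖ ≤ e := by rw [norm_mul, hw, mul_one]; exact h
  have h4 : cx (P / 2 ^ 26) (Q / 2 ^ 26) - z * w =
      (cx (P / 2 ^ 26) (Q / 2 ^ 26) - cx f g * zt c s) + cx f g * (zt c s - w) +
        (cx f g - z) * w := by ring
  rw [h4]
  refine (norm_add₃_le).trans ?_
  linarith

/-- one rotation -/
lemma step {n b c s X Y : ℕ} {A : ℕ → ℕ} {z : ℕ → ℂ} {e R t : ℝ} (l : L3)
    (hcs : 67108864 ≤ c + s) (hz : ‖zt c s - ee t‖ ≤ 1 / 2 ^ 22) (hb : b < 64)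
    (hA : ∀ j < n, A j < 2 ^ 64) (h : VC n X Y z e) (hR : ∀ j < n, ‖z j‖ ≤ R) (hR' : R ≤ 10 ^ 9)
    (he : 0 ≤ R → e ≤ R) :
    ∃ X' Y', (∀ (β : Type) (k : ℕ → ℕ → β), rot (on n) (pv n A) k (.cons b c s l) X Y =
      rot (on n) (pv n A) k l X' Y') ∧
      VC n X' Y' (fun j => z j * ee (((A j / 2 ^ b % 2 : ℕ) : ℝ) * t)) (e + (R / 2 ^ 21 + 2)) := by
  obtain ⟨f, g, rfl, rfl, h⟩ := h
  have hs := fun j (hj : j < n) => slot hcs (norm_ee t) hz (h j hj) (hR j hj) hR'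
    (he ((norm_nonneg _).trans (hR j hj)))
  have hK : Nat.mul (on n) (Nat.mul (nat_lit 2147483648) (Nat.sub (Nat.add c s) (nat_lit 67108864)))
      = pv n fun _ => 2147483648 * (c + s - 67108864) := on_mul n _
  have hX : tr (on n) (Nat.sub (Nat.add (Nat.mul (pv n f) c)
      (Nat.mul (Nat.sub (Nat.mul (on n) (nat_lit 4294967296)) (pv n g)) s))
      (Nat.mul (on n) (Nat.mul (nat_lit 2147483648) (Nat.sub (Nat.add c s) (nat_lit 67108864)))))
      (nat_lit 26) = pv n fun j =>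
        (f j * c + (4294967296 - g j) * s - 2147483648 * (c + s - 67108864)) / 2 ^ 26 := by
    rw [hK]
    have a1 : Nat.sub (Nat.add (Nat.mul (pv n f) c)
        (Nat.mul (Nat.sub (Nat.mul (on n) (nat_lit 4294967296)) (pv n g)) s))
        (pv n fun _ => 2147483648 * (c + s - 67108864)) = pv n fun j =>
          f j * c + (4294967296 - g j) * s - 2147483648 * (c + s - 67108864) := by
      show pv n f * c + (on n * 4294967296 - pv n g) * s - _ = _
      rw [on_mul, pv_sub (f := fun _ => 4294967296) (fun j hj => (hs j hj).2.1.le), pv_mul, pv_mul,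
        pv_add,
        pv_sub (fun j hj => (hs j hj).2.2.1)]
    rw [a1]
    exact tr_pv (s := 26) (fun j hj => lt_trans (hs j hj).2.2.2.2.1 (by norm_num)) (by norm_num)
  have hY : tr (on n) (Nat.sub (Nat.add (Nat.mul (pv n g) c) (Nat.mul (pv n f) s))
      (Nat.mul (on n) (Nat.mul (nat_lit 2147483648) (Nat.sub (Nat.add c s) (nat_lit 67108864)))))
      (nat_lit 26) = pv n fun j =>
        (g j * c + f j * s - 2147483648 * (c + s - 67108864)) / 2 ^ 26 := by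
    rw [hK]
    have a1 : Nat.sub (Nat.add (Nat.mul (pv n g) c) (Nat.mul (pv n f) s))
        (pv n fun _ => 2147483648 * (c + s - 67108864)) = pv n fun j =>
          g j * c + f j * s - 2147483648 * (c + s - 67108864) := by
      show pv n g * c + pv n f * s - _ = _
      rw [pv_mul, pv_mul, pv_add, pv_sub (fun j hj => (hs j hj).2.2.2.1)]
    rw [a1]
    exact tr_pv (s := 26) (fun j hj => lt_trans (hs j hj).2.2.2.2.2.1 (by norm_num)) (by norm_num)
  have d38 : ∀ {T : ℕ}, T < 2 ^ 58 → T / 2 ^ 26 < 2 ^ 38 := fun h => by omega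
  have f38 : ∀ j < n, f j < 2 ^ 38 := fun j hj => lt_trans (hs j hj).1 (by norm_num)
  have g38 : ∀ j < n, g j < 2 ^ 38 := fun j hj => lt_trans (hs j hj).2.1 (by norm_num)
  have sX := sel_pv hA hb f38 (fun j hj => d38 (hs j hj).2.2.2.2.1)
  have sY := sel_pv hA hb g38 (fun j hj => d38 (hs j hj).2.2.2.2.2.1)
  rw [← hX] at sX
  rw [← hY] at sY
  refine ⟨_, _, fun β k => ?_, _, _, sX, sY, fun j hj => ?_⟩
  · rfl
  · have hR0 : 0 ≤ R := (norm_nonneg _).trans (hR j hj)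
    rcases Nat.mod_two_eq_zero_or_one (A j / 2 ^ b) with h0 | h0
    · simp only [h0, Nat.cast_zero, zero_mul, ee_zero, mul_one, zero_ne_one, if_false]
      have := h j hj
      have h1 : 0 ≤ R / 2 ^ 21 := by positivity
      linarith
    · simp only [h0, Nat.cast_one, one_mul, if_true]
      exact (hs j hj).2.2.2.2.2.2

/-- the next entry of a table -/
lemma tab {c s c' s' : ℕ} {t : ℝ} (ht0 : 0 ≤ t) (ht : t ≤ 1 / 8) (hc : 47000000 ≤ c)
    (h1 : c * c ≤ s * s + c' * 67108864 + 268435456)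
    (h2 : s * s + c' * 67108864 ≤ c * c + 268435456)
    (h3 : 2 * c * s ≤ s' * 67108864 + 268435456) (h4 : s' * 67108864 ≤ 2 * c * s + 268435456)
    (h : ‖zt c' s' - ee (t + t)‖ ≤ 1 / 2 ^ 22) : ‖zt c s - ee t‖ ≤ 1 / 2 ^ 22 := by
  have r1 : (c : ℝ) * c ≤ s * s + c' * 67108864 + 268435456 := by exact_mod_cast h1
  have r2 : (s : ℝ) * s + c' * 67108864 ≤ c * c + 268435456 := by exact_mod_cast h2
  have r3 : 2 * (c : ℝ) * s ≤ s' * 67108864 + 268435456 := by exact_mod_cast h3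
  have r4 : (s' : ℝ) * 67108864 ≤ 2 * c * s + 268435456 := by exact_mod_cast h4
  have rc : (47000000 : ℝ) ≤ c := by exact_mod_cast hc
  have a1 : ‖zt c s * zt c s - zt c' s'‖ ≤ 1.42 / 2 ^ 24 := by
    have b1 : |(zt c s * zt c s - zt c' s').re| ≤ 1 / 2 ^ 24 := by
      simp only [zt, Complex.sub_re, Complex.mul_re]
      rw [abs_le]
      constructor <;> linarith
    have b2 : |(zt c s * zt c s - zt c' s').im| ≤ 1 / 2 ^ 24 := by
      simp only [zt, Complex.sub_im, Complex.mul_im]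
      rw [abs_le]
      constructor <;> linarith
    refine abs_le_of_sq_le_sq' ?_ (by norm_num) |>.2
    rw [Complex.sq_norm, Complex.normSq_apply]
    have c1 := sq_le_sq' (abs_le.1 b1).1 (abs_le.1 b1).2
    have c2 := sq_le_sq' (abs_le.1 b2).1 (abs_le.1 b2).2
    nlinarith
  have a2 : ‖(zt c s - ee t) * (zt c s + ee t)‖ ≤ 1.42 / 2 ^ 24 + 1 / 2 ^ 22 := by
    have : (zt c s - ee t) * (zt c s + ee t) =
        (zt c s * zt c s - zt c' s') + (zt c' s' - ee (t + t)) := by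
      rw [ee_add]; ring
    rw [this]
    exact (norm_add_le _ _).trans (add_le_add a1 h)
  have a3 : (0.7 : ℝ) ≤ (ee t).re := by
    rw [ee_re]
    have b1 : Real.cos (π / 4) ≤ Real.cos (2 * π * t) := by
      apply Real.cos_le_cos_of_nonneg_of_le_pi
      · positivity
      · linarith [Real.pi_pos]
      · nlinarith [Real.pi_pos]
    rw [Real.cos_pi_div_four] at b1
    have b2 : (1.4 : ℝ) ≤ √2 := Real.le_sqrt_of_sq_le (by norm_num)
    linarith
  have a4 : (1.4 : ℝ) ≤ ‖zt c s + ee t‖ := by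
    refine le_trans ?_ (Complex.re_le_norm _)
    simp only [Complex.add_re, zt]
    linarith
  rw [norm_mul] at a2
  have a5 := norm_nonneg (zt c s - ee t)
  nlinarith

/-- the tail of a table -/
lemma tail {n N : ℕ} {A : ℕ → ℕ} {R : ℝ} (hA : ∀ j < n, A j < 2 ^ 64) (hR' : R ≤ 10 ^ 9) (l : L3) :
    ∀ (a c' s' X Y : ℕ) (z : ℕ → ℂ) (e : ℝ), rotOk2 l a c' s' = true → a + 2 ≤ N → a ≤ 30 →
      ‖zt c' s' - ee (2 ^ a / 2 ^ N)‖ ≤ 1 / 2 ^ 22 → VC n X Y z e → (∀ j < n, ‖z j‖ ≤ R) →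
      e + a * (R / 2 ^ 21 + 2) ≤ R →
      ∃ X' Y', (∀ (β : Type) (k : ℕ → ℕ → β), rot (on n) (pv n A) k l X Y = k X' Y') ∧
        VC n X' Y' (fun j => z j * ee (((A j % 2 ^ a : ℕ) : ℝ) / 2 ^ N))
          (e + a * (R / 2 ^ 21 + 2)) := by
  induction l with
  | nil =>
    intro a c' s' X Y z e hl _ _ _ h _ _
    have ha : a = 0 := Nat.eq_of_beq_eq_true hl
    subst ha
    refine ⟨X, Y, fun _ _ => rfl, ?_⟩
    simpa [Nat.mod_one, ee_zero] using h
  | cons a c s l ih =>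
    intro b c' s' X Y z e hl hN hb hz h hR he
    have hl' : (((Nat.beq (a + 1) b && Nat.ble 47000000 c) &&
        ((Nat.ble c 67108864 && Nat.ble s 67108864) && Nat.ble 67108864 (c + s))) &&
        (((Nat.ble (c * c) (s * s + c' * 67108864 + 268435456) &&
          Nat.ble (s * s + c' * 67108864) (c * c + 268435456)) &&
          (Nat.ble (2 * c * s) (s' * 67108864 + 268435456) &&
            Nat.ble (s' * 67108864) (2 * c * s + 268435456))) && rotOk2 l a c s)) = true := hl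
    simp only [Bool.and_eq_true, Nat.ble_eq, Nat.beq_eq] at hl'
    obtain ⟨⟨⟨rfl, hc⟩, -, hcs⟩, ⟨⟨h1, h2⟩, h3, h4⟩, hl2⟩ := hl'
    have hz' : ‖zt c s - ee (2 ^ a / 2 ^ N)‖ ≤ 1 / 2 ^ 22 := by
      refine tab (by positivity) ?_ hc h1 h2 h3 h4 ?_
      · rw [div_le_div_iff₀ (by positivity) (by norm_num)]
        have : (2 : ℝ) ^ (a + 3) ≤ 2 ^ N := pow_le_pow_right₀ (by norm_num) (by omega)
        rw [pow_add] at this
        linarith
      · have : (2 : ℝ) ^ a / 2 ^ N + 2 ^ a / 2 ^ N = 2 ^ (a + 1) / 2 ^ N := by ring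
        rw [this]
        exact hz
    have he' : 0 ≤ R → e ≤ R := fun h0 => by
      have : 0 ≤ ((a + 1 : ℕ) : ℝ) * (R / 2 ^ 21 + 2) := by positivity
      linarith
    obtain ⟨X1, Y1, e1, v1⟩ := step l hcs hz' (show a < 64 by omega) hA h hR hR' he'
    obtain ⟨X2, Y2, e2, f, g, v2, v3, v4⟩ := ih a c s X1 Y1 _ _ hl2 (by omega) (by omega) hz' v1
      (fun j hj => by rw [norm_mul, norm_ee, mul_one]; exact hR j hj)
      (by push_cast at he; linarith)
    refine ⟨X2, Y2, fun β k => (e1 β k).trans (e2 β k), f, g, v2, v3, fun j hj => ?_⟩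
    have v5 := v4 j hj
    have a1 : ((A j % 2 ^ (a + 1) : ℕ) : ℝ) / 2 ^ N =
        ((A j / 2 ^ a % 2 : ℕ) : ℝ) * (2 ^ a / 2 ^ N) + ((A j % 2 ^ a : ℕ) : ℝ) / 2 ^ N := by
      rw [Nat.mod_pow_succ]
      push_cast
      ring
    simp only [a1, ee_add, ← mul_assoc] at v5 ⊢
    push_cast
    linarith

end Rot

open Rot in
theorem rotOk : StRot := by
  intro n b X Y l A z e R hl hb hA h hR hR' he
  have hz : ‖zt 0 67108864 - ee (1 / 4)‖ ≤ 1 / 2 ^ 22 := by
    rw [zt_I, ee_quarter, sub_self, norm_zero]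
    positivity
  have hb0 : (0 : ℝ) ≤ b := Nat.cast_nonneg b
  have hn : ∀ (z : ℕ → ℂ) (t : ℕ → ℝ), (∀ j < n, ‖z j‖ ≤ R) → ∀ j < n, ‖z j * ee (t j)‖ ≤ R :=
    fun z t hR j hj => by rw [norm_mul, norm_ee, mul_one]; exact hR j hj
  have hd : 0 ≤ R → 0 ≤ R / 2 ^ 21 + 2 := fun h0 => by positivity
  obtain ⟨X1, Y1, e1, v1⟩ := step (b := b + 1)
    (.cons (b + 1) 0 67108864 (.cons b 0 67108864 l)) (by norm_num) hz (by omega) hA h hR hR'
    (fun h0 => by nlinarith [hd h0])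
  have hR1 := hn _ (fun j => ((A j / 2 ^ (b + 1) % 2 : ℕ) : ℝ) * (1 / 4)) hR
  obtain ⟨X2, Y2, e2, v2⟩ := step (b := b + 1) (.cons b 0 67108864 l) (by norm_num) hz (by omega)
    hA v1 hR1 hR' (fun h0 => by nlinarith [hd h0])
  have hR2 := hn _ (fun j => ((A j / 2 ^ (b + 1) % 2 : ℕ) : ℝ) * (1 / 4)) hR1
  obtain ⟨X3, Y3, e3, v3⟩ := step (b := b) l (by norm_num) hz (by omega)
    hA v2 hR2 hR' (fun h0 => by nlinarith [hd h0])
  have hR3 := hn _ (fun j => ((A j / 2 ^ b % 2 : ℕ) : ℝ) * (1 / 4)) hR2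
  have hq : (2 : ℝ) ^ b / 2 ^ (b + 2) = 1 / 4 := by
    rw [pow_add]
    field_simp
    norm_num
  obtain ⟨X4, Y4, e4, f, g, v4, v5, v6⟩ := tail (N := b + 2) hA hR' l b 0 67108864 X3 Y3 _ _ hl
    le_rfl hb (by rw [hq]; exact hz) v3 hR3 (by linarith)
  refine ⟨X4, Y4, fun β k => ((e1 β k).trans (e2 β k)).trans ((e3 β k).trans (e4 β k)),
    f, g, v4, v5, fun j hj => ?_⟩
  have v7 := v6 j hj
  have a0 : A j = A j % 2 ^ b + 2 ^ b * (A j / 2 ^ b % 2) + 2 ^ (b + 1) * (A j / 2 ^ (b + 1) % 2) +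
      2 ^ (b + 2) * (A j / 2 ^ (b + 2)) := by
    rw [← Nat.mod_pow_succ, ← Nat.mod_pow_succ, Nat.mod_add_div]
  have a1 : (A j : ℝ) / 2 ^ (b + 2) = ((A j / 2 ^ (b + 1) % 2 : ℕ) : ℝ) * (1 / 4) +
      ((A j / 2 ^ (b + 1) % 2 : ℕ) : ℝ) * (1 / 4) + ((A j / 2 ^ b % 2 : ℕ) : ℝ) * (1 / 4) +
      ((A j % 2 ^ b : ℕ) : ℝ) / 2 ^ (b + 2) + ((A j / 2 ^ (b + 2) : ℕ) : ℝ) := by
    generalize A j % 2 ^ b = p at a0 ⊢
    generalize A j / 2 ^ b % 2 = q at a0 ⊢
    generalize A j / 2 ^ (b + 1) % 2 = r at a0 ⊢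
    generalize A j / 2 ^ (b + 2) = u at a0 ⊢
    rw [a0]
    push_cast
    field_simp
    ring
  simp only [a1, ee_add, ee_nat, mul_one, ← mul_assoc] at v7 ⊢
  linarith

end Pool.Agent.Lib.MP_5db4ad_nt.S2
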