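import Pool.Agent.Lib.MP_5db4ad_nt.S2Lane

/-!
The synthesis of the trigonometric sum on a block of grid points.
-/

namespace Pool.Agent.Lib.MP_5db4ad_nt.S2

open Finset
open scoped Real ComplexConjugate

namespace Synth

lemma synth_def (M K c n BR BI : ℕ) (r1 r2 : L3) : synth M K c n BR BI r1 r2 =
    rot (on (n + K)) (tri (on (n + K)) (n + K) * 2 +
      ramp (on (n + K)) (n + K) * ((c + M + 1 - K) + (c + M + 1 - K) - 3) +
      on (n + K) * ((c + M + 1 - K - 1) * (c + M + 1 - K - 1)))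
      (fun C S => rot (on (n + 1)) (tri (on (n + 1)) (n + 1) +
        ramp (on (n + 1)) (n + 1) * (c + (M + M) - 1) +
        on (n + 1) * ((c + (M + M) - 1) * (c + (M + M) - 1 + 1) / 2)) (fun X _ => X) r2
        (bk K n (sg (on K) BR * sg (on (n + K)) C + sg (on K) BI * sg (on (n + K)) S))
        (bk K n (sg (on K) BI * sg (on (n + K)) C - sg (on K) BR * sg (on (n + K)) S)))
      r1 (on (n + K) * 2214592512) (on (n + K) * 2147483648) := rfl

lemma half_mul (j : ℕ) : j * (j + 1) / 2 * 2 = j * (j + 1) :=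
  Nat.div_mul_cancel (Nat.even_mul_succ_self j).two_dvd

lemma A_eq {N d : ℕ} (hN : N ≤ 2 ^ 31) (hd : 2 ≤ d) :
    tri (on N) N * 2 + ramp (on N) N * (d + d - 3) + on N * ((d - 1) * (d - 1)) =
      pv N fun j => (d + j) ^ 2 := by
  rw [tri_eq hN, ramp_eq hN, on_mul, pv_mul, pv_mul, pv_add, pv_add]
  refine pv_congr fun j _ => ?_
  obtain ⟨e, rfl⟩ : ∃ e, d = e + 2 := ⟨d - 2, by omega⟩
  have h1 := half_mul (j + 1)
  have h2 : e + 2 + (e + 2) - 3 = 2 * e + 1 := by omega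
  have h3 : e + 2 - 1 = e + 1 := by omega
  rw [h2, h3, show j + 2 = j + 1 + 1 from rfl, h1]
  ring

lemma A2_eq {N : ℕ} (a : ℕ) (hN : N ≤ 2 ^ 31) :
    tri (on N) N + ramp (on N) N * a + on N * (a * (a + 1) / 2) =
      pv N fun j => (a + j + 1) * (a + j + 1 + 1) / 2 := by
  rw [tri_eq hN, ramp_eq hN, on_mul, pv_mul, pv_add, pv_add]
  refine pv_congr fun j _ => ?_
  have h1 := half_mul (j + 1)
  have h2 := half_mul a
  have h3 := half_mul (a + j + 1)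
  have h4 : (a + j + 1) * (a + j + 1 + 1) =
      (j + 1) * (j + 1 + 1) + 2 * ((j + 1) * a) + a * (a + 1) := by ring
  rw [show j + 2 = j + 1 + 1 from rfl]
  omega

lemma ee_add (x y : ℝ) : ee (x + y) = ee x * ee y := by
  unfold ee
  rw [← Complex.exp_add]
  congr 1
  push_cast
  ring

lemma ee_nat (k : ℕ) : ee k = 1 := by
  unfold ee
  rw [← Complex.exp_nat_mul_two_pi_mul_I k]
  congr 1
  push_cast
  ring

lemma ee_norm (x : ℝ) : ‖ee x‖ = 1 := Complex.norm_exp_ofReal_mul_I _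

lemma ee_conj (x : ℝ) : conj (ee x) = ee (-x) := by
  unfold ee
  rw [← Complex.exp_conj, map_mul, Complex.conj_ofReal, Complex.conj_I]
  congr 1
  push_cast
  ring

lemma cx_norm (a b : ℕ) : ‖cx a b‖ ≤ |(a : ℝ) - 2 ^ 31| + |(b : ℝ) - 2 ^ 31| :=
  Complex.norm_le_abs_re_add_abs_im _

lemma floor_le {P : ℤ} (h : |P| ≤ 2 ^ 57) :
    |(((P + 2 ^ 57).toNat / 2 ^ 26 : ℕ) : ℝ) - 2 ^ 31 - (P : ℝ) / 2 ^ 26| ≤ 1 := by
  have h0 : 0 ≤ P + 2 ^ 57 := by have := (abs_le.1 h).1; omega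
  obtain ⟨t, ht⟩ : ∃ t : ℕ, (t : ℤ) = P + 2 ^ 57 := ⟨_, Int.toNat_of_nonneg h0⟩
  rw [← ht, Int.toNat_natCast]
  have h1 : t / 2 ^ 26 * 2 ^ 26 ≤ t := Nat.div_mul_le_self _ _
  have h2 : t < (t / 2 ^ 26 + 1) * 2 ^ 26 := by omega
  generalize t / 2 ^ 26 = q at h1 h2
  have h1' : (q : ℝ) * 2 ^ 26 ≤ t := by exact_mod_cast h1
  have h2' : (t : ℝ) < (q + 1) * 2 ^ 26 := by exact_mod_cast h2
  have h3 : (t : ℝ) = P + 2 ^ 57 := by exact_mod_cast ht
  rw [abs_le]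
  constructor <;> linarith

/-- the complex convolution -/
noncomputable def Q (K N : ℕ) (br bi f g : ℕ → ℕ) (j : ℕ) : ℂ := ∑ i ∈ range K,
  if i ≤ j ∧ j - i < N then cx (br i) (bi i) * conj (cx (f (j - i)) (g (j - i))) else 0

lemma Q_re (K N : ℕ) (br bi f g : ℕ → ℕ) (j : ℕ) :
    (((∑ i ∈ range K, if i ≤ j ∧ j - i < N then
        ((br i : ℤ) - 2 ^ 31) * ((f (j - i) : ℤ) - 2 ^ 31) else 0) +
      (∑ i ∈ range K, if i ≤ j ∧ j - i < N then
        ((bi i : ℤ) - 2 ^ 31) * ((g (j - i) : ℤ) - 2 ^ 31) else 0) : ℤ) : ℝ) =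
      (Q K N br bi f g j).re := by
  rw [← sum_add_distrib, Q, Complex.re_sum, Int.cast_sum]
  refine sum_congr rfl fun i _ => ?_
  split_ifs
  · simp only [cx, Complex.mul_re, Complex.conj_re, Complex.conj_im]
    push_cast
    ring
  · simp

lemma Q_im (K N : ℕ) (br bi f g : ℕ → ℕ) (j : ℕ) :
    (((∑ i ∈ range K, if i ≤ j ∧ j - i < N then
        ((bi i : ℤ) - 2 ^ 31) * ((f (j - i) : ℤ) - 2 ^ 31) else 0) -
      (∑ i ∈ range K, if i ≤ j ∧ j - i < N then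
        ((br i : ℤ) - 2 ^ 31) * ((g (j - i) : ℤ) - 2 ^ 31) else 0) : ℤ) : ℝ) =
      (Q K N br bi f g j).im := by
  rw [← sum_sub_distrib, Q, Complex.im_sum, Int.cast_sum]
  refine sum_congr rfl fun i _ => ?_
  split_ifs
  · simp only [cx, Complex.mul_im, Complex.conj_re, Complex.conj_im]
    push_cast
    ring
  · simp

lemma sum_bound {K : ℕ} {br bi : ℕ → ℕ} {T : ℝ} (hT : 0 ≤ T) (u : ℕ → ℂ)
    (hb : ∑ k ∈ range K, (|(br k : ℝ) - 2 ^ 31| + |(bi k : ℝ) - 2 ^ 31|) ≤ 900000000)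
    (hu : ∀ i < K, ‖u i‖ ≤ T) : ‖∑ i ∈ range K, cx (br i) (bi i) * u i‖ ≤ 900000000 * T := by
  refine (norm_sum_le _ _).trans ?_
  refine le_trans ?_ (mul_le_mul_of_nonneg_right hb hT)
  rw [sum_mul]
  refine sum_le_sum fun i hi => ?_
  rw [norm_mul]
  exact mul_le_mul (cx_norm _ _) (hu i (mem_range.1 hi)) (norm_nonneg _) (by positivity)

lemma Q_norm {K N : ℕ} {br bi f g : ℕ → ℕ} {w : ℕ → ℂ} (hw : ∀ m, ‖w m‖ = 1)
    (hfg : ∀ m < N, ‖cx (f m) (g m) - 2 ^ 26 * w m‖ ≤ 782)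
    (hb : ∑ k ∈ range K, (|(br k : ℝ) - 2 ^ 31| + |(bi k : ℝ) - 2 ^ 31|) ≤ 900000000) (j : ℕ) :
    ‖Q K N br bi f g j‖ ≤ 2 ^ 57 := by
  have e : Q K N br bi f g j = ∑ i ∈ range K, cx (br i) (bi i) *
      (if i ≤ j ∧ j - i < N then conj (cx (f (j - i)) (g (j - i))) else 0) :=
    sum_congr rfl fun i _ => by split_ifs <;> simp
  rw [e]
  refine (sum_bound (T := 2 ^ 26 + 782) (by positivity) _ hb fun i _ => ?_).trans (by norm_num)
  split_ifs with h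
  · rw [Complex.norm_conj]
    have h1 := hfg _ h.2
    have h2 : ‖(2 : ℂ) ^ 26 * w (j - i)‖ = 2 ^ 26 := by
      rw [norm_mul, hw, norm_pow, Complex.norm_two, mul_one]
    have h3 := norm_sub_norm_le (cx (f (j - i)) (g (j - i))) (2 ^ 26 * w (j - i))
    linarith
  · rw [norm_zero]; positivity

lemma Q_close {K n : ℕ} {br bi f g : ℕ → ℕ} {w : ℕ → ℂ}
    (hfg : ∀ m < n + K, ‖cx (f m) (g m) - 2 ^ 26 * w m‖ ≤ 782)
    (hb : ∑ k ∈ range K, (|(br k : ℝ) - 2 ^ 31| + |(bi k : ℝ) - 2 ^ 31|) ≤ 900000000)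
    {j : ℕ} (hj : j < n + 1) :
    ‖Q K (n + K) br bi f g (K - 1 + j) / 2 ^ 26 -
      ∑ i ∈ range K, cx (br i) (bi i) * conj (w (K - 1 + j - i))‖ ≤ 10488 := by
  have e : Q K (n + K) br bi f g (K - 1 + j) / 2 ^ 26 -
      ∑ i ∈ range K, cx (br i) (bi i) * conj (w (K - 1 + j - i)) =
      ∑ i ∈ range K, cx (br i) (bi i) * (conj (cx (f (K - 1 + j - i)) (g (K - 1 + j - i)) -
        2 ^ 26 * w (K - 1 + j - i)) / 2 ^ 26) := by
    rw [Q, sum_div, ← sum_sub_distrib]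
    refine sum_congr rfl fun i hi => ?_
    have hi' := mem_range.1 hi
    rw [if_pos (by constructor <;> omega), map_sub, map_mul, map_pow, Complex.conj_ofNat]
    field_simp
  rw [e]
  refine (sum_bound (T := 782 / 2 ^ 26) (by positivity) _ hb fun i hi => ?_).trans (by norm_num)
  rw [norm_div, Complex.norm_conj, norm_pow, Complex.norm_two]
  exact div_le_div_of_nonneg_right (hfg _ (by omega)) (by positivity)

lemma mid {K n : ℕ} (hK : 1 ≤ K) {br bi f g : ℕ → ℕ} {w : ℕ → ℂ} (hw : ∀ m, ‖w m‖ = 1)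
    (hfg : ∀ m < n + K, ‖cx (f m) (g m) - 2 ^ 26 * w m‖ ≤ 782)
    (hb : ∑ k ∈ range K, (|(br k : ℝ) - 2 ^ 31| + |(bi k : ℝ) - 2 ^ 31|) ≤ 900000000) :
    VC (n + 1)
      (bk K n (sg (on K) (pv K br) * sg (on (n + K)) (pv (n + K) f) +
        sg (on K) (pv K bi) * sg (on (n + K)) (pv (n + K) g)))
      (bk K n (sg (on K) (pv K bi) * sg (on (n + K)) (pv (n + K) f) -
        sg (on K) (pv K br) * sg (on (n + K)) (pv (n + K) g)))
      (fun j => ∑ i ∈ range K, cx (br i) (bi i) * conj (w (K - 1 + j - i))) 10490 := by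
  have hN : K + (n + K) = n + (K + K) := by omega
  have hQ := Q_norm (N := n + K) hw hfg hb
  have hre : ∀ j, |((∑ i ∈ range K, if i ≤ j ∧ j - i < n + K then
        ((br i : ℤ) - 2 ^ 31) * ((f (j - i) : ℤ) - 2 ^ 31) else 0) +
      (∑ i ∈ range K, if i ≤ j ∧ j - i < n + K then
        ((bi i : ℤ) - 2 ^ 31) * ((g (j - i) : ℤ) - 2 ^ 31) else 0) : ℤ)| ≤ 2 ^ 57 := by
    intro j
    have h := (Complex.abs_re_le_norm _).trans (hQ j)
    rw [← Q_re] at h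
    exact_mod_cast h
  have him : ∀ j, |((∑ i ∈ range K, if i ≤ j ∧ j - i < n + K then
        ((bi i : ℤ) - 2 ^ 31) * ((f (j - i) : ℤ) - 2 ^ 31) else 0) -
      (∑ i ∈ range K, if i ≤ j ∧ j - i < n + K then
        ((br i : ℤ) - 2 ^ 31) * ((g (j - i) : ℤ) - 2 ^ 31) else 0) : ℤ)| ≤ 2 ^ 57 := by
    intro j
    have h := (Complex.abs_im_le_norm _).trans (hQ j)
    rw [← Q_im] at h
    exact_mod_cast h
  simp only [sg_pv, mul_iv, iv_add, iv_sub, hN]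
  rw [bk_iv hK fun j _ => hre j, bk_iv hK fun j _ => him j]
  refine ⟨_, _, rfl, rfl, fun j hj => ?_⟩
  have h1 := floor_le (hre (K - 1 + j))
  have h2 := floor_le (him (K - 1 + j))
  rw [Q_re] at h1
  rw [Q_im] at h2
  have h3 := Q_close hfg hb hj
  refine (norm_sub_le_norm_sub_add_norm_sub _ (Q K (n + K) br bi f g (K - 1 + j) / 2 ^ 26) _).trans ?_
  have h4 : (2 : ℂ) ^ 26 = ((2 ^ 26 : ℝ) : ℂ) := by push_cast; rfl
  refine le_trans (add_le_add ((Complex.norm_le_abs_re_add_abs_im _).trans ?_) h3)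
    (show (2 : ℝ) + 10488 ≤ 10490 by norm_num)
  rw [h4, Complex.sub_re, Complex.sub_im, Complex.div_ofReal_re, Complex.div_ofReal_im]
  exact (add_le_add h1 h2).trans (by norm_num)

lemma phase {H x i : ℕ} (hH : 0 < H) (a a' : ℝ) (ha : a = ((x : ℝ) + 2 * H - i) ^ 2)
    (ha' : 2 * a' = ((x : ℝ) + 4 * H) * (x + 4 * H + 1)) :
    conj (ee (a / (2 * (2 * H)))) * ee (a' / (2 * H)) =
      ee (-(i : ℝ) ^ 2 / (2 * (2 * H))) * ee ((2 * i + 1) * x / (2 * (2 * H))) := by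
  have hH' : (H : ℝ) ≠ 0 := by exact_mod_cast hH.ne'
  rw [ee_conj, ← ee_add, ← ee_add, ← mul_one (ee (-(i : ℝ) ^ 2 / _ + _)),
    ← ee_nat (x + i + 1 + 3 * H), ← ee_add]
  congr 1
  have : a' = ((x : ℝ) + 4 * H) * (x + 4 * H + 1) / 2 := by linarith
  rw [ha, this]
  push_cast
  field_simp
  ring

end Synth

open Synth in
theorem synthOk (h : StRot) : StSynth := by
  intro lm K c n br bi l1 l2 h5 h21 hK hKM hc hn hl1 hl2 hb
  obtain ⟨p, rfl⟩ : ∃ p, lm = p + 2 := ⟨lm - 2, by omega⟩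
  have hM : 2 ^ (p + 2) ≤ 2 ^ 21 := Nat.pow_le_pow_right (by norm_num) h21
  have hp : (p : ℝ) ≤ 19 := by exact_mod_cast (show p ≤ 19 by omega)
  have e1 : p + 2 - 1 = p + 1 := by omega
  have e2 : p + 2 - 2 = p := by omega
  rw [e1] at hl1
  rw [e2] at hl2
  rw [e1, e2, synth_def]
  obtain ⟨H, hH⟩ : ∃ H, H = 2 ^ (p + 1) := ⟨_, rfl⟩
  have hH0 : 0 < H := by rw [hH]; positivity
  have hMH : 2 ^ (p + 2) = 2 * H := by rw [hH]; ring
  have hR2 : (2 : ℝ) ^ (p + 2) = 2 * H := by exact_mod_cast hMH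
  have hR3 : (2 : ℝ) ^ (p + 1 + 2) = 2 * (2 * H) := by rw [← hR2]; ring
  rw [hR2]
  rw [hMH] at hM hKM hc hn ⊢
  rw [A_eq (by omega) (by omega), A2_eq _ (by omega)]
  obtain ⟨C, S, hCS, f, g, rfl, rfl, hfg⟩ := h (n + K) (p + 1) (on (n + K) * 2214592512)
    (on (n + K) * 2147483648) l1 (fun j => (c + 2 * H + 1 - K + j) ^ 2) (fun _ => 2 ^ 26) 0 (2 ^ 26)
    hl1 (by omega)
    (fun j hj => lt_of_le_of_lt (Nat.pow_le_pow_left (show _ ≤ 2 ^ 24 by omega) 2) (by norm_num))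
    ⟨_, _, on_mul _ _, on_mul _ _, fun j _ => by
      have : cx 2214592512 2147483648 = 2 ^ 26 := by
        apply Complex.ext <;> norm_num [cx, pow_succ]
      rw [this, sub_self, norm_zero]⟩
    (fun j _ => by rw [norm_pow, Complex.norm_two]) (by norm_num) (by push_cast; linarith)
  rw [hCS]
  have hfg' : ∀ m < n + K, ‖cx (f m) (g m) -
      2 ^ 26 * ee ((((c + 2 * H + 1 - K + m) ^ 2 : ℕ) : ℝ) / (2 * (2 * H)))‖ ≤ 782 := by
    intro m hm
    have := hfg m hm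
    rw [hR3] at this
    refine this.trans ?_
    push_cast
    linarith
  have hv := mid hK (w := fun m => ee ((((c + 2 * H + 1 - K + m) ^ 2 : ℕ) : ℝ) / (2 * (2 * H))))
    (fun m => ee_norm _) hfg' hb
  have hz : ∀ j, ‖∑ i ∈ range K, cx (br i) (bi i) *
      conj (ee ((((c + 2 * H + 1 - K + (K - 1 + j - i)) ^ 2 : ℕ) : ℝ) / (2 * (2 * H))))‖ ≤
        900000000 := fun j =>
    (sum_bound (T := 1) zero_le_one _ hb fun i _ => by rw [Complex.norm_conj, ee_norm]).trans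
      (by norm_num)
  obtain ⟨X, Y, hXY, f2, g2, rfl, rfl, hfg2⟩ := h (n + 1) p _ _ l2
    (fun j => (c + (2 * H + 2 * H) - 1 + j + 1) * (c + (2 * H + 2 * H) - 1 + j + 1 + 1) / 2) _
    10490 (10 ^ 9) hl2 (by omega)
    (fun j hj => lt_of_le_of_lt ((Nat.div_le_self _ _).trans
      (Nat.mul_le_mul (show _ ≤ 2 ^ 25 by omega) (show _ ≤ 2 ^ 25 by omega))) (by norm_num))
    hv (fun j _ => (hz j).trans (by norm_num)) le_rfl (by linarith)
  rw [hXY]
  refine ⟨f2, rfl, fun i hi => ?_⟩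
  have h1 := hfg2 i (by omega)
  have h2 : (∑ k ∈ range K, cx (br k) (bi k) *
      conj (ee ((((c + 2 * H + 1 - K + (K - 1 + i - k)) ^ 2 : ℕ) : ℝ) / (2 * (2 * H))))) *
      ee ((((c + (2 * H + 2 * H) - 1 + i + 1) * (c + (2 * H + 2 * H) - 1 + i + 1 + 1) / 2 : ℕ) : ℝ) /
        2 ^ (p + 2)) =
      ∑ k ∈ range K, cx (br k) (bi k) * ee (-(k : ℝ) ^ 2 / (2 * (2 * H))) *
        ee ((2 * k + 1) * (c + i) / (2 * (2 * H))) := by
    rw [sum_mul, hR2]
    refine sum_congr rfl fun k hk => ?_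
    have hk' := mem_range.1 hk
    rw [mul_assoc, mul_assoc, ← Nat.cast_add c i]
    congr 1
    refine phase hH0 _ _ ?_ ?_
    · have : c + 2 * H + 1 - K + (K - 1 + i - k) + k = c + i + 2 * H := by omega
      have h' : ((c + 2 * H + 1 - K + (K - 1 + i - k) : ℕ) : ℝ) + k = (c + i : ℕ) + 2 * H := by
        exact_mod_cast this
      rw [Nat.cast_pow]
      congr 1
      linarith
    · have e : c + (2 * H + 2 * H) - 1 + i + 1 = c + i + 4 * H := by omega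
      rw [e, mul_comm]
      exact_mod_cast half_mul (c + i + 4 * H)
  have h3 := hz i
  have h4 : ‖∑ k ∈ range K, cx (br k) (bi k) * ee (-(k : ℝ) ^ 2 / (2 * (2 * H))) *
        ee ((2 * k + 1) * (c + i) / (2 * (2 * H)))‖ ≤ 900000000 := by
    rw [← h2, norm_mul, ee_norm, mul_one]
    exact h3
  beta_reduce at h1
  rw [h2] at h1
  have h6 := (Complex.abs_re_le_norm _).trans h1
  have h7 := (Complex.abs_re_le_norm _).trans h4
  rw [Complex.sub_re] at h6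
  have h8 : (cx (f2 i) (g2 i)).re = (f2 i : ℝ) - 2 ^ 31 := rfl
  rw [h8] at h6
  refine ⟨?_, h6.trans (by linarith)⟩
  have h9 : (f2 i : ℝ) ≤ 2 ^ 32 := by
    have := (abs_le.1 h6).2
    have := (abs_le.1 h7).2
    linarith
  exact_mod_cast h9

end Pool.Agent.Lib.MP_5db4ad_nt.S2
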