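import Pool.Agent.Lib.MP_5db4ad_nt.S2LowR0
import Pool.Agent.Lib.MP_5db4ad_nt.S2LowR1
import Pool.Agent.Lib.MP_5db4ad_nt.S2Odds
import Pool.Agent.Lib.MP_5db4ad_nt.S2Enum
import Pool.Agent.Lib.MP_5db4ad_nt.S2Rot
import Pool.Agent.Lib.MP_5db4ad_nt.S2Synth
import Pool.Agent.Lib.MP_5db4ad_nt.S2EnvQ
import Pool.Agent.Lib.MP_5db4ad_nt.S2EnvH
import Pool.Agent.Lib.MP_5db4ad_nt.S2Low
import Pool.Agent.Lib.MP_5db4ad_nt.S2LowFin

/-!
The final check assembled.
-/

namespace Pool.Agent.Lib.MP_5db4ad_nt.S2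

open scoped Real

theorem listAll : StListA := listAOk oddsOk

theorem piSq : π ^ 2 ≤ 9.8697 := by nlinarith [Real.pi_lt_d6, Real.pi_pos]

theorem lowPart {c : ℕ} (hc : c + 131072 ≤ 2 ^ 19)
    (h : lowChk 19 65536 c 131072 BR BI rl (rotTab (19 - 1) tb1) (rotTab (19 - 2) tb2) jt.val jV wb
      4201000000 = true) {y : ℝ}
    (hy : (c : ℝ) ≤ y ∧ y ≤ c + 131072 ∨ (c : ℝ) + 524288 ≤ y ∧ y ≤ c + 524288 + 131072) :
    At3 listA (y / (2 ^ 19 : ℕ) * Real.log 2) + fB (2 ^ 19) (2 ^ 16) BR BI y / 2 ^ 32 ≤ 0.97852 := by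
  have h1 := lowOk (synthOk rotOk) (envHOk envQOk) 19 65536 c 131072 BR BI jt.val jV wb 4201000000
    rl tb1 tb2 listA (by norm_num) (by norm_num) (by norm_num) (by norm_num) (by norm_num) hc
    (by norm_num) tb1Run tb2Run rlRun listAll.2.2.1 jmpRun h y (by norm_num)
    (by norm_num; exact hy)
  have h2 := piSq
  have h3 : (wb : ℝ) = 9175478431 := by
    have : wb = 9175478431 := rfl
    rw [this, Nat.cast_ofNat]
  rw [h3] at h1
  have h4 : (2 ^ 16 : ℕ) = 65536 := by norm_num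
  rw [h4, Nat.cast_pow, Nat.cast_ofNat]
  refine h1.trans ?_
  have h5 : (π * (65536 : ℕ) / (16 * 2 ^ 19)) ^ 2 = π ^ 2 / 16384 := by
    push_cast
    ring
  rw [h5]
  push_cast
  linarith

theorem lowAll {ε1 ε2 : ℝ} (h1 : LowData (2 ^ 19) (2 ^ 16) BR BI ε1) (h2 : High3 (2 ^ 16) ε2) :
    StNum2 (0.97852 + 2 * ε1 + 3 * ε2) := by
  refine lowFin listAll (2 ^ 19) (2 ^ 16) BR BI _ _ _ (by norm_num) (by norm_num) ?_ h1
    (high3 _ _ h2)
  intro y y0 y1
  have y2 : y ≤ 1048576 := by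
    refine y1.trans ?_
    norm_num
  by_cases a : y ≤ 131072 ∨ 524288 ≤ y ∧ y ≤ 655360
  · refine lowPart (by norm_num) lowRun0 ?_
    rcases a with a | a
    · left; constructor <;> push_cast <;> linarith
    · right; constructor <;> push_cast <;> linarith [a.1, a.2]
  by_cases b : 131072 ≤ y ∧ y ≤ 262144 ∨ 655360 ≤ y ∧ y ≤ 786432
  · refine lowPart (by norm_num) lowRun1 ?_
    rcases b with a | a
    · left; constructor <;> push_cast <;> linarith [a.1, a.2]
    · right; constructor <;> push_cast <;> linarith [a.1, a.2]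
  by_cases d : 262144 ≤ y ∧ y ≤ 393216 ∨ 786432 ≤ y ∧ y ≤ 917504
  · refine lowPart (by norm_num) lowRun2 ?_
    rcases d with a | a
    · left; constructor <;> push_cast <;> linarith [a.1, a.2]
    · right; constructor <;> push_cast <;> linarith [a.1, a.2]
  refine lowPart (by norm_num) lowRun3 ?_
  push Not at a b d
  rcases le_total y 524288 with e | e
  · left
    have := b.1 a.1.le
    have := d.1 this.le
    constructor <;> push_cast <;> linarith
  · right
    have := b.2 (a.2 e).le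
    have := d.2 this.le
    constructor <;> push_cast <;> linarith

end Pool.Agent.Lib.MP_5db4ad_nt.S2
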