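import Pool.Agent.Lib.MP_5db4ad_nt.S2LowDefs

/-!
The vector of the jumps as a tree; it is checked in another file.
-/

namespace Pool.Agent.Lib.MP_5db4ad_nt.S2

set_option maxRecDepth 100000

noncomputable def jt1 : Tr :=
  (Tr.node (nat_lit 217344) (Tr.node (nat_lit 118016) (Tr.node (nat_lit 78592) (Tr.node (nat_lit 11776) (Tr.node (nat_lit 1088) (Tr.leaf (nat_lit 1073741824)) (Tr.leaf (nat_lit 262138))) (Tr.node (nat_lit 5888) (Tr.leaf (nat_lit 1048320)) (Tr.node (nat_lit 52160) (Tr.leaf (nat_lit 1048192)) (Tr.leaf (nat_lit 1022))))) (Tr.node (nat_lit 12864) (Tr.node (nat_lit 4032) (Tr.leaf (nat_lit 261718)) (Tr.leaf (nat_lit 1046787))) (Tr.node (nat_lit 8896) (Tr.leaf (nat_lit 1046595)) (Tr.node (nat_lit 5888) (Tr.leaf (nat_lit 261601)) (Tr.leaf (nat_lit 1046277)))))) (Tr.node (nat_lit 41216) (Tr.node (nat_lit 23552) (Tr.node (nat_lit 17664) (Tr.leaf (nat_lit 1046022)) (Tr.leaf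 (nat_lit 1045640))) (Tr.node (nat_lit 11776) (Tr.leaf (nat_lit 4182051)) (Tr.node (nat_lit 2624) (Tr.leaf (nat_lit 1045258)) (Tr.leaf (nat_lit 261300))))) (Tr.node (nat_lit 20608) (Tr.node (nat_lit 7168) (Tr.leaf (nat_lit 261282)) (Tr.node (nat_lit 4608) (Tr.leaf (nat_lit 65311)) (Tr.leaf (nat_lit 261219)))) (Tr.node (nat_lit 11712) (Tr.leaf (nat_lit 1044686)) (Tr.node (nat_lit 20672) (Tr.leaf (nat_lit 65277)) (Tr.leaf (nat_lit 4175952))))))) (Tr.node (nat_lit 78272) (Tr.node (nat_lit 24320) (Tr.node (nat_lit 9408) (Tr.node (nat_lit 6656) (Tr.leaf (nat_lit 1019)) (Tr.leaf (nat_lit 1043734))) (Tr.node (nat_lit 576) (Tr.leaf (nat_lit 260918)) (Tr.node (nat_lit 2560) (Tr.leaf (nat_lit 254)) (Tr.leaf (nat_lit 260901))))) (Tr.node (nat_lit 24000) (Tr.node (nat_lit 5888) (Tr.leaf (nat_lit 260838)) (Tr.node (nat_lit 17600) (Tr.leaf (nat_lit 1043227)) (Tr.leaf (nat_lit 260711)))) (Tr.node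 (nat_lit 11264) (Tr.leaf (nat_lit 254)) (Tr.node (nat_lit 17600) (Tr.leaf (nat_lit 1042594)) (Tr.leaf (nat_lit 1042214)))))) (Tr.node (nat_lit 75200) (Tr.node (nat_lit 16512) (Tr.node (nat_lit 4800) (Tr.leaf (nat_lit 260547)) (Tr.leaf (nat_lit 260522))) (Tr.node (nat_lit 40832) (Tr.leaf (nat_lit 1041835)) (Tr.node (nat_lit 256) (Tr.leaf (nat_lit 260239)) (Tr.leaf (nat_lit 1040951))))) (Tr.node (nat_lit 46912) (Tr.node (nat_lit 16512) (Tr.leaf (nat_lit 1040573)) (Tr.node (nat_lit 12800) (Tr.leaf (nat_lit 260054)) (Tr.leaf (nat_lit 4159774)))) (Tr.node (nat_lit 24512) (Tr.leaf (nat_lit 259891)) (Tr.node (nat_lit 10624) (Tr.leaf (nat_lit 259759)) (Tr.leaf (nat_lit 259702))))))))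

noncomputable def jt2 : Tr :=
  (Tr.node (nat_lit 177728) (Tr.node (nat_lit 70208) (Tr.node (nat_lit 21056) (Tr.node (nat_lit 14464) (Tr.node (nat_lit 8704) (Tr.leaf (nat_lit 1038686)) (Tr.leaf (nat_lit 259624))) (Tr.node (nat_lit 3136) (Tr.leaf (nat_lit 253)) (Tr.node (nat_lit 3136) (Tr.leaf (nat_lit 259577)) (Tr.leaf (nat_lit 64890))))) (Tr.node (nat_lit 14080) (Tr.node (nat_lit 8256) (Tr.leaf (nat_lit 253)) (Tr.leaf (nat_lit 1038058))) (Tr.node (nat_lit 8768) (Tr.leaf (nat_lit 1037933)) (Tr.node (nat_lit 21952) (Tr.leaf (nat_lit 1037745)) (Tr.leaf (nat_lit 1037275)))))) (Tr.node (nat_lit 46720) (Tr.node (nat_lit 35072) (Tr.node (nat_lit 29248) (Tr.leaf (nat_lit 1037181)) (Tr.leaf (nat_lit 259138))) (Tr.node (nat_lit 3328) (Tr.leaf (nat_lit 16582885)) (Tr.node (nat_lit 1152) (Tr.leaf (nat_lit 64772)) (Tr.leaf (nat_lit 1012))))) (Tr.node (nat_lit 35072) (Tr.node (nat_lit 5888)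 (Tr.leaf (nat_lit 1036180)) (Tr.node (nat_lit 11648) (Tr.leaf (nat_lit 259013)) (Tr.leaf (nat_lit 258951)))) (Tr.node (nat_lit 5824) (Tr.leaf (nat_lit 4141723)) (Tr.node (nat_lit 17472) (Tr.leaf (nat_lit 258826)) (Tr.leaf (nat_lit 4139727))))))) (Tr.node (nat_lit 114112) (Tr.node (nat_lit 38592) (Tr.node (nat_lit 15104) (Tr.node (nat_lit 9216) (Tr.leaf (nat_lit 252)) (Tr.leaf (nat_lit 1034682))) (Tr.node (nat_lit 11648) (Tr.leaf (nat_lit 1034557)) (Tr.node (nat_lit 3072) (Tr.leaf (nat_lit 1034308)) (Tr.leaf (nat_lit 1010))))) (Tr.node (nat_lit 58048) (Tr.node (nat_lit 11904) (Tr.leaf (nat_lit 258513)) (Tr.node (nat_lit 11200) (Tr.leaf (nat_lit 64612)) (Tr.leaf (nat_lit 258390)))) (Tr.node (nat_lit 9152) (Tr.leaf (nat_lit 258204)) (Tr.node (nat_lit 1024) (Tr.leaf (nat_lit 1008)) (Tr.leaf (nat_lit 1032599)))))) (Tr.node (nat_lit 42176) (Tr.node (nat_lit 17408) (Tr.node (nat_lit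 4736) (Tr.leaf (nat_lit 66076419)) (Tr.leaf (nat_lit 258085))) (Tr.node (nat_lit 5824) (Tr.leaf (nat_lit 1032071)) (Tr.node (nat_lit 11648) (Tr.leaf (nat_lit 1031947)) (Tr.leaf (nat_lit 1031700))))) (Tr.node (nat_lit 15936) (Tr.node (nat_lit 6400) (Tr.leaf (nat_lit 251)) (Tr.node (nat_lit 3712) (Tr.leaf (nat_lit 251)) (Tr.leaf (nat_lit 257832)))) (Tr.node (nat_lit 11648) (Tr.leaf (nat_lit 4124818)) (Tr.node (nat_lit 22848) (Tr.leaf (nat_lit 1030957)) (Tr.leaf (nat_lit 257617))))))))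

noncomputable def jt3 : Tr :=
  (Tr.node (nat_lit 208576) (Tr.node (nat_lit 107328) (Tr.node (nat_lit 46400) (Tr.node (nat_lit 11584) (Tr.node (nat_lit 8704) (Tr.leaf (nat_lit 4121849)) (Tr.leaf (nat_lit 1030277))) (Tr.node (nat_lit 10752) (Tr.leaf (nat_lit 1030215)) (Tr.node (nat_lit 12480) (Tr.leaf (nat_lit 257496)) (Tr.leaf (nat_lit 1029721))))) (Tr.node (nat_lit 23232) (Tr.node (nat_lit 7616) (Tr.leaf (nat_lit 4117897)) (Tr.leaf (nat_lit 257328))) (Tr.node (nat_lit 28928) (Tr.leaf (nat_lit 1028981)) (Tr.node (nat_lit 64) (Tr.leaf (nat_lit 4017)) (Tr.leaf (nat_lit 257091)))))) (Tr.node (nat_lit 49216) (Tr.node (nat_lit 11904) (Tr.node (nat_lit 8640) (Tr.leaf (nat_lit 1028180)) (Tr.leaf (nat_lit 1027996))) (Tr.node (nat_lit 30464) (Tr.leaf (nat_lit 256981)) (Tr.node (nat_lit 1024) (Tr.leaf (nat_lit 64205)) (Tr.leaf (nat_lit 1027258))))) (Tr.node (nat_lit 17344) (Tr.node (nat_lit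 192) (Tr.leaf (nat_lit 256783)) (Tr.node (nat_lit 11392) (Tr.leaf (nat_lit 250)) (Tr.leaf (nat_lit 1026889)))) (Tr.node (nat_lit 11584) (Tr.leaf (nat_lit 1026767)) (Tr.node (nat_lit 5760) (Tr.leaf (nat_lit 4106087)) (Tr.leaf (nat_lit 256599))))))) (Tr.node (nat_lit 89536) (Tr.node (nat_lit 52032) (Tr.node (nat_lit 11712) (Tr.node (nat_lit 11584) (Tr.leaf (nat_lit 4104125)) (Tr.leaf (nat_lit 1025786))) (Tr.node (nat_lit 17216) (Tr.leaf (nat_lit 256445)) (Tr.node (nat_lit 5760) (Tr.leaf (nat_lit 256354)) (Tr.leaf (nat_lit 1025296))))) (Tr.node (nat_lit 17344) (Tr.node (nat_lit 6144) (Tr.leaf (nat_lit 1024929)) (Tr.node (nat_lit 4352) (Tr.leaf (nat_lit 256199)) (Tr.leaf (nat_lit 256176)))) (Tr.node (nat_lit 11520) (Tr.leaf (nat_lit 16393004)) (Tr.node (nat_lit 5760) (Tr.leaf (nat_lit 1024318)) (Tr.leaf (nat_lit 256049)))))) (Tr.node (nat_lit 34880) (Tr.node (nat_lit 9024) (Tr.node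 (nat_lit 8704) (Tr.leaf (nat_lit 1024135)) (Tr.leaf (nat_lit 255988))) (Tr.node (nat_lit 5440) (Tr.leaf (nat_lit 255986)) (Tr.node (nat_lit 17280) (Tr.leaf (nat_lit 1023830)) (Tr.leaf (nat_lit 1023464))))) (Tr.node (nat_lit 40320) (Tr.node (nat_lit 8448) (Tr.leaf (nat_lit 249)) (Tr.node (nat_lit 5760) (Tr.leaf (nat_lit 1023220)) (Tr.leaf (nat_lit 1023098)))) (Tr.node (nat_lit 25728) (Tr.leaf (nat_lit 998)) (Tr.node (nat_lit 32512) (Tr.leaf (nat_lit 1022002)) (Tr.leaf (nat_lit 63832))))))))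

noncomputable def jt4 : Tr :=
  (Tr.node (nat_lit 179840) (Tr.node (nat_lit 69824) (Tr.node (nat_lit 51072) (Tr.node (nat_lit 25472) (Tr.node (nat_lit 20160) (Tr.leaf (nat_lit 1020909)) (Tr.leaf (nat_lit 1020485))) (Tr.node (nat_lit 3328) (Tr.leaf (nat_lit 249)) (Tr.node (nat_lit 16512) (Tr.leaf (nat_lit 255075)) (Tr.leaf (nat_lit 1019955))))) (Tr.node (nat_lit 12224) (Tr.node (nat_lit 704) (Tr.leaf (nat_lit 995)) (Tr.leaf (nat_lit 254954))) (Tr.node (nat_lit 1664) (Tr.leaf (nat_lit 1019576)) (Tr.node (nat_lit 4032) (Tr.leaf (nat_lit 63721)) (Tr.leaf (nat_lit 1019455)))))) (Tr.node (nat_lit 50880) (Tr.node (nat_lit 16448) (Tr.node (nat_lit 10688) (Tr.leaf (nat_lit 248)) (Tr.leaf (nat_lit 4076855))) (Tr.node (nat_lit 3904) (Tr.leaf (nat_lit 254773)) (Tr.node (nat_lit 7552) (Tr.leaf (nat_lit 254752)) (Tr.leaf (nat_lit 254712))))) (Tr.node (nat_lit 28672) (Tr.node (nat_lit 11456)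 (Tr.leaf (nat_lit 1018368)) (Tr.node (nat_lit 1088) (Tr.leaf (nat_lit 1018126)) (Tr.leaf (nat_lit 254526)))) (Tr.node (nat_lit 17216) (Tr.leaf (nat_lit 4071059)) (Tr.node (nat_lit 5760) (Tr.leaf (nat_lit 254350)) (Tr.leaf (nat_lit 1017282))))))) (Tr.node (nat_lit 114176) (Tr.node (nat_lit 26880) (Tr.node (nat_lit 9664) (Tr.node (nat_lit 3968) (Tr.leaf (nat_lit 254281)) (Tr.leaf (nat_lit 1017041))) (Tr.node (nat_lit 9920) (Tr.leaf (nat_lit 254230)) (Tr.node (nat_lit 1536) (Tr.leaf (nat_lit 63544)) (Tr.leaf (nat_lit 1016680))))) (Tr.node (nat_lit 34368) (Tr.node (nat_lit 11456) (Tr.leaf (nat_lit 4066241)) (Tr.node (nat_lit 17152) (Tr.leaf (nat_lit 1016319)) (Tr.leaf (nat_lit 1015959)))) (Tr.node (nat_lit 23744) (Tr.leaf (nat_lit 4063356)) (Tr.node (nat_lit 4864) (Tr.leaf (nat_lit 253834)) (Tr.leaf (nat_lit 253809)))))) (Tr.node (nat_lit 46784) (Tr.node (nat_lit 14656) (Tr.node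 (nat_lit 9984) (Tr.leaf (nat_lit 247)) (Tr.leaf (nat_lit 253629))) (Tr.node (nat_lit 11456) (Tr.leaf (nat_lit 253605)) (Tr.node (nat_lit 1024) (Tr.leaf (nat_lit 3961)) (Tr.leaf (nat_lit 4056639))))) (Tr.node (nat_lit 20352) (Tr.node (nat_lit 3200) (Tr.leaf (nat_lit 253437)) (Tr.node (nat_lit 2944) (Tr.leaf (nat_lit 1013681)) (Tr.leaf (nat_lit 63351)))) (Tr.node (nat_lit 17088) (Tr.leaf (nat_lit 1013322)) (Tr.node (nat_lit 20096) (Tr.leaf (nat_lit 16207423)) (Tr.leaf (nat_lit 247))))))))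

noncomputable def jt5 : Tr :=
  (Tr.node (nat_lit 262400) (Tr.node (nat_lit 140224) (Tr.node (nat_lit 97536) (Tr.node (nat_lit 55680) (Tr.node (nat_lit 20608) (Tr.leaf (nat_lit 63281)) (Tr.leaf (nat_lit 1012068))) (Tr.node (nat_lit 1984) (Tr.leaf (nat_lit 63208)) (Tr.node (nat_lit 22784) (Tr.leaf (nat_lit 1011294)) (Tr.leaf (nat_lit 1010818))))) (Tr.node (nat_lit 14784) (Tr.node (nat_lit 10368) (Tr.leaf (nat_lit 252615)) (Tr.leaf (nat_lit 252561))) (Tr.node (nat_lit 7232) (Tr.leaf (nat_lit 246)) (Tr.node (nat_lit 19584) (Tr.leaf (nat_lit 15781)) (Tr.leaf (nat_lit 63099)))))) (Tr.node (nat_lit 42688) (Tr.node (nat_lit 25600) (Tr.node (nat_lit 8320) (Tr.leaf (nat_lit 1009570)) (Tr.leaf (nat_lit 246))) (Tr.node (nat_lit 11392) (Tr.leaf (nat_lit 252259)) (Tr.node (nat_lit 512) (Tr.leaf (nat_lit 1008800)) (Tr.leaf (nat_lit 985))))) (Tr.node (nat_lit 39424) (Tr.node (nat_lit 24512)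 (Tr.leaf (nat_lit 1008681)) (Tr.node (nat_lit 3904) (Tr.leaf (nat_lit 252042)) (Tr.leaf (nat_lit 252022)))) (Tr.node (nat_lit 6016) (Tr.leaf (nat_lit 251965)) (Tr.node (nat_lit 17024) (Tr.leaf (nat_lit 1007735)) (Tr.leaf (nat_lit 251845))))))) (Tr.node (nat_lit 131904) (Tr.node (nat_lit 39744) (Tr.node (nat_lit 22720) (Tr.node (nat_lit 17024) (Tr.leaf (nat_lit 1007026)) (Tr.leaf (nat_lit 1006672))) (Tr.node (nat_lit 6528) (Tr.leaf (nat_lit 1006554)) (Tr.node (nat_lit 4800) (Tr.leaf (nat_lit 251604)) (Tr.leaf (nat_lit 4025273))))) (Tr.node (nat_lit 29376) (Tr.node (nat_lit 11328) (Tr.leaf (nat_lit 251550)) (Tr.node (nat_lit 5632) (Tr.leaf (nat_lit 251491)) (Tr.leaf (nat_lit 4023388)))) (Tr.node (nat_lit 4608) (Tr.leaf (nat_lit 251397)) (Tr.node (nat_lit 28352) (Tr.leaf (nat_lit 251373)) (Tr.leaf (nat_lit 1004905)))))) (Tr.node (nat_lit 52224) (Tr.node (nat_lit 9792) (Tr.node (nat_lit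 1088) (Tr.leaf (nat_lit 3922)) (Tr.leaf (nat_lit 62766))) (Tr.node (nat_lit 16960) (Tr.leaf (nat_lit 1004083)) (Tr.node (nat_lit 9536) (Tr.leaf (nat_lit 1003731)) (Tr.leaf (nat_lit 250883))))) (Tr.node (nat_lit 10944) (Tr.node (nat_lit 2816) (Tr.leaf (nat_lit 1003204)) (Tr.node (nat_lit 5632) (Tr.leaf (nat_lit 250786)) (Tr.leaf (nat_lit 1003028)))) (Tr.node (nat_lit 13888) (Tr.leaf (nat_lit 979)) (Tr.node (nat_lit 7168) (Tr.leaf (nat_lit 62668)) (Tr.leaf (nat_lit 3916))))))))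

noncomputable def jt6 : Tr :=
  (Tr.node (nat_lit 187968) (Tr.node (nat_lit 73344) (Tr.node (nat_lit 58368) (Tr.node (nat_lit 16896) (Tr.node (nat_lit 5632) (Tr.leaf (nat_lit 1002443)) (Tr.leaf (nat_lit 1002326))) (Tr.node (nat_lit 5696) (Tr.leaf (nat_lit 1002092)) (Tr.node (nat_lit 11264) (Tr.leaf (nat_lit 250493)) (Tr.leaf (nat_lit 4006966))))) (Tr.node (nat_lit 2624) (Tr.node (nat_lit 1920) (Tr.leaf (nat_lit 977)) (Tr.leaf (nat_lit 250298))) (Tr.node (nat_lit 6720) (Tr.leaf (nat_lit 244)) (Tr.node (nat_lit 3072) (Tr.leaf (nat_lit 250260)) (Tr.leaf (nat_lit 62561)))))) (Tr.node (nat_lit 40192) (Tr.node (nat_lit 11328) (Tr.node (nat_lit 192) (Tr.leaf (nat_lit 1000924)) (Tr.leaf (nat_lit 250230))) (Tr.node (nat_lit 5632) (Tr.leaf (nat_lit 4002765)) (Tr.node (nat_lit 5248) (Tr.leaf (nat_lit 1000574)) (Tr.leaf (nat_lit 250116))))) (Tr.node (nat_lit 44352) (Tr.node (nat_lit 4928)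 (Tr.leaf (nat_lit 244)) (Tr.node (nat_lit 5632) (Tr.leaf (nat_lit 999992)) (Tr.leaf (nat_lit 999875)))) (Tr.node (nat_lit 11264) (Tr.leaf (nat_lit 249794)) (Tr.node (nat_lit 17792) (Tr.leaf (nat_lit 249736)) (Tr.leaf (nat_lit 243))))))) (Tr.node (nat_lit 121728) (Tr.node (nat_lit 59200) (Tr.node (nat_lit 37440) (Tr.node (nat_lit 20608) (Tr.leaf (nat_lit 249639)) (Tr.leaf (nat_lit 998133))) (Tr.node (nat_lit 16896) (Tr.leaf (nat_lit 249446)) (Tr.node (nat_lit 2816) (Tr.leaf (nat_lit 997437)) (Tr.leaf (nat_lit 997379))))) (Tr.node (nat_lit 28864) (Tr.node (nat_lit 6336) (Tr.leaf (nat_lit 3895)) (Tr.node (nat_lit 4160) (Tr.leaf (nat_lit 997206)) (Tr.leaf (nat_lit 973)))) (Tr.node (nat_lit 20864) (Tr.leaf (nat_lit 996743)) (Tr.node (nat_lit 7168) (Tr.leaf (nat_lit 243)) (Tr.leaf (nat_lit 249041)))))) (Tr.node (nat_lit 28032) (Tr.node (nat_lit 16832) (Tr.node (nat_lit 11200) (Tr.leaf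 (nat_lit 15936798)) (Tr.leaf (nat_lit 995818))) (Tr.node (nat_lit 2816) (Tr.leaf (nat_lit 248925)) (Tr.node (nat_lit 6144) (Tr.leaf (nat_lit 995645)) (Tr.leaf (nat_lit 248879))))) (Tr.node (nat_lit 16832) (Tr.node (nat_lit 5632) (Tr.leaf (nat_lit 248868)) (Tr.node (nat_lit 2112) (Tr.leaf (nat_lit 995357)) (Tr.leaf (nat_lit 62207)))) (Tr.node (nat_lit 16832) (Tr.leaf (nat_lit 3980507)) (Tr.node (nat_lit 12352) (Tr.leaf (nat_lit 994781)) (Tr.leaf (nat_lit 62157))))))))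

noncomputable def jt7 : Tr :=
  (Tr.node (nat_lit 204416) (Tr.node (nat_lit 102080) (Tr.node (nat_lit 34944) (Tr.node (nat_lit 8704) (Tr.node (nat_lit 1344) (Tr.leaf (nat_lit 971)) (Tr.leaf (nat_lit 994435))) (Tr.node (nat_lit 9472) (Tr.leaf (nat_lit 248571)) (Tr.node (nat_lit 5568) (Tr.leaf (nat_lit 248522)) (Tr.leaf (nat_lit 993975))))) (Tr.node (nat_lit 22400) (Tr.node (nat_lit 16832) (Tr.leaf (nat_lit 993745)) (Tr.leaf (nat_lit 248350))) (Tr.node (nat_lit 19584) (Tr.leaf (nat_lit 3973142)) (Tr.node (nat_lit 384) (Tr.leaf (nat_lit 992883)) (Tr.leaf (nat_lit 248219)))))) (Tr.node (nat_lit 72704) (Tr.node (nat_lit 33600) (Tr.node (nat_lit 12352) (Tr.leaf (nat_lit 3969470)) (Tr.leaf (nat_lit 968))) (Tr.node (nat_lit 5568) (Tr.leaf (nat_lit 991680)) (Tr.node (nat_lit 16768) (Tr.leaf (nat_lit 247891)) (Tr.leaf (nat_lit 991222))))) (Tr.node (nat_lit 21952) (Tr.node (nat_lit 8960)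 (Tr.leaf (nat_lit 247719)) (Tr.node (nat_lit 2176) (Tr.leaf (nat_lit 967)) (Tr.leaf (nat_lit 990650)))) (Tr.node (nat_lit 896) (Tr.leaf (nat_lit 241)) (Tr.node (nat_lit 1920) (Tr.leaf (nat_lit 61900)) (Tr.leaf (nat_lit 247593))))))) (Tr.node (nat_lit 81920) (Tr.node (nat_lit 37312) (Tr.node (nat_lit 6528) (Tr.node (nat_lit 3840) (Tr.leaf (nat_lit 61892)) (Tr.leaf (nat_lit 990194))) (Tr.node (nat_lit 8448) (Tr.leaf (nat_lit 61883)) (Tr.node (nat_lit 14976) (Tr.leaf (nat_lit 247491)) (Tr.leaf (nat_lit 247414))))) (Tr.node (nat_lit 32960) (Tr.node (nat_lit 27840) (Tr.leaf (nat_lit 247377)) (Tr.node (nat_lit 3136) (Tr.leaf (nat_lit 988940)) (Tr.leaf (nat_lit 247219)))) (Tr.node (nat_lit 448) (Tr.leaf (nat_lit 241)) (Tr.node (nat_lit 2816) (Tr.leaf (nat_lit 988826)) (Tr.leaf (nat_lit 988769)))))) (Tr.node (nat_lit 55680) (Tr.node (nat_lit 22272) (Tr.node (nat_lit 13376) (Tr.leaf (nat_lit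 247149)) (Tr.leaf (nat_lit 247081))) (Tr.node (nat_lit 11136) (Tr.leaf (nat_lit 247035)) (Tr.node (nat_lit 13888) (Tr.leaf (nat_lit 987916)) (Tr.leaf (nat_lit 987632))))) (Tr.node (nat_lit 25664) (Tr.node (nat_lit 11072) (Tr.leaf (nat_lit 246865)) (Tr.node (nat_lit 5568) (Tr.leaf (nat_lit 987235)) (Tr.leaf (nat_lit 987121)))) (Tr.node (nat_lit 18816) (Tr.leaf (nat_lit 61683)) (Tr.node (nat_lit 4800) (Tr.leaf (nat_lit 246638)) (Tr.leaf (nat_lit 963))))))))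

noncomputable def jt8 : Tr :=
  (Tr.node (nat_lit 166912) (Tr.node (nat_lit 88960) (Tr.node (nat_lit 55680) (Tr.node (nat_lit 19584) (Tr.node (nat_lit 10880) (Tr.leaf (nat_lit 246582)) (Tr.leaf (nat_lit 246527))) (Tr.node (nat_lit 2752) (Tr.leaf (nat_lit 985932)) (Tr.node (nat_lit 16640) (Tr.leaf (nat_lit 246468)) (Tr.leaf (nat_lit 985536))))) (Tr.node (nat_lit 6400) (Tr.node (nat_lit 2816) (Tr.leaf (nat_lit 246299)) (Tr.leaf (nat_lit 240))) (Tr.node (nat_lit 13888) (Tr.leaf (nat_lit 3847)) (Tr.node (nat_lit 1920) (Tr.leaf (nat_lit 246196)) (Tr.leaf (nat_lit 984745)))))) (Tr.node (nat_lit 43840) (Tr.node (nat_lit 22208) (Tr.node (nat_lit 320) (Tr.leaf (nat_lit 984519)) (Tr.leaf (nat_lit 246128))) (Tr.node (nat_lit 11072) (Tr.leaf (nat_lit 984068)) (Tr.node (nat_lit 4224) (Tr.leaf (nat_lit 245960)) (Tr.leaf (nat_lit 61484))))) (Tr.node (nat_lit 16064) (Tr.node (nat_lit 3200)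 (Tr.leaf (nat_lit 61476)) (Tr.node (nat_lit 2880) (Tr.leaf (nat_lit 240)) (Tr.leaf (nat_lit 983505)))) (Tr.node (nat_lit 6656) (Tr.leaf (nat_lit 960)) (Tr.node (nat_lit 5504) (Tr.leaf (nat_lit 245791)) (Tr.leaf (nat_lit 983055))))))) (Tr.node (nat_lit 108928) (Tr.node (nat_lit 71616) (Tr.node (nat_lit 10752) (Tr.node (nat_lit 5184) (Tr.leaf (nat_lit 245733)) (Tr.leaf (nat_lit 3931320))) (Tr.node (nat_lit 33216) (Tr.leaf (nat_lit 245679)) (Tr.node (nat_lit 2432) (Tr.leaf (nat_lit 245510)) (Tr.leaf (nat_lit 239))))) (Tr.node (nat_lit 32128) (Tr.node (nat_lit 5504) (Tr.leaf (nat_lit 3925929)) (Tr.node (nat_lit 11072) (Tr.leaf (nat_lit 245342)) (Tr.leaf (nat_lit 981146)))) (Tr.node (nat_lit 1024) (Tr.leaf (nat_lit 245207)) (Tr.node (nat_lit 3008) (Tr.leaf (nat_lit 980810)) (Tr.leaf (nat_lit 61296)))))) (Tr.node (nat_lit 58176) (Tr.node (nat_lit 17984) (Tr.node (nat_lit 12416) (Tr.leaf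 (nat_lit 980726)) (Tr.leaf (nat_lit 245118))) (Tr.node (nat_lit 19520) (Tr.leaf (nat_lit 980362)) (Tr.node (nat_lit 13632) (Tr.leaf (nat_lit 956)) (Tr.leaf (nat_lit 15675063))))) (Tr.node (nat_lit 17792) (Tr.node (nat_lit 3968) (Tr.leaf (nat_lit 61221)) (Tr.node (nat_lit 5504) (Tr.leaf (nat_lit 979468)) (Tr.leaf (nat_lit 979356)))) (Tr.node (nat_lit 7168) (Tr.leaf (nat_lit 979188)) (Tr.node (nat_lit 1088) (Tr.leaf (nat_lit 61190)) (Tr.leaf (nat_lit 979021))))))))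

noncomputable def jt9 : Tr :=
  (Tr.node (nat_lit 201536) (Tr.node (nat_lit 71616) (Tr.node (nat_lit 46848) (Tr.node (nat_lit 22016) (Tr.node (nat_lit 20992) (Tr.leaf (nat_lit 244615)) (Tr.leaf (nat_lit 244509))) (Tr.node (nat_lit 11072) (Tr.leaf (nat_lit 244504)) (Tr.node (nat_lit 5504) (Tr.leaf (nat_lit 977795)) (Tr.leaf (nat_lit 977684))))) (Tr.node (nat_lit 8256) (Tr.node (nat_lit 2752) (Tr.leaf (nat_lit 977517)) (Tr.leaf (nat_lit 3909847))) (Tr.node (nat_lit 1984) (Tr.leaf (nat_lit 977350)) (Tr.node (nat_lit 12800) (Tr.leaf (nat_lit 238)) (Tr.leaf (nat_lit 3816)))))) (Tr.node (nat_lit 82496) (Tr.node (nat_lit 36096) (Tr.node (nat_lit 33024) (Tr.leaf (nat_lit 3908068)) (Tr.leaf (nat_lit 976350))) (Tr.node (nat_lit 14912) (Tr.leaf (nat_lit 244072)) (Tr.node (nat_lit 9536) (Tr.leaf (nat_lit 60999)) (Tr.leaf (nat_lit 243949))))) (Tr.node (nat_lit 18240) (Tr.node (nat_lit 8768)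 (Tr.leaf (nat_lit 243838)) (Tr.node (nat_lit 7744) (Tr.leaf (nat_lit 243794)) (Tr.leaf (nat_lit 975020)))) (Tr.node (nat_lit 9280) (Tr.leaf (nat_lit 952)) (Tr.node (nat_lit 16448) (Tr.leaf (nat_lit 974799)) (Tr.leaf (nat_lit 974467))))))) (Tr.node (nat_lit 89984) (Tr.node (nat_lit 35008) (Tr.node (nat_lit 21696) (Tr.node (nat_lit 18496) (Tr.leaf (nat_lit 3806)) (Tr.leaf (nat_lit 243506))) (Tr.node (nat_lit 7808) (Tr.leaf (nat_lit 60872)) (Tr.node (nat_lit 2688) (Tr.leaf (nat_lit 243451)) (Tr.leaf (nat_lit 15214))))) (Tr.node (nat_lit 32896) (Tr.node (nat_lit 16448) (Tr.leaf (nat_lit 973694)) (Tr.node (nat_lit 10944) (Tr.leaf (nat_lit 973363)) (Tr.leaf (nat_lit 973143)))) (Tr.node (nat_lit 10944) (Tr.leaf (nat_lit 973032)) (Tr.node (nat_lit 5504) (Tr.leaf (nat_lit 972812)) (Tr.leaf (nat_lit 243175)))))) (Tr.node (nat_lit 29952) (Tr.node (nat_lit 10816) (Tr.node (nat_lit 5312)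 (Tr.leaf (nat_lit 243147)) (Tr.leaf (nat_lit 972482))) (Tr.node (nat_lit 7936) (Tr.leaf (nat_lit 972372)) (Tr.node (nat_lit 8512) (Tr.leaf (nat_lit 60763)) (Tr.leaf (nat_lit 243010))))) (Tr.node (nat_lit 41088) (Tr.node (nat_lit 8256) (Tr.leaf (nat_lit 971986)) (Tr.node (nat_lit 30080) (Tr.leaf (nat_lit 242955)) (Tr.leaf (nat_lit 971217)))) (Tr.node (nat_lit 21888) (Tr.leaf (nat_lit 971162)) (Tr.node (nat_lit 14016) (Tr.leaf (nat_lit 242680)) (Tr.leaf (nat_lit 242610))))))))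

noncomputable def jt10 : Tr :=
  (Tr.node (nat_lit 191040) (Tr.node (nat_lit 92928) (Tr.node (nat_lit 49216) (Tr.node (nat_lit 10944) (Tr.node (nat_lit 9280) (Tr.leaf (nat_lit 970394)) (Tr.leaf (nat_lit 242552))) (Tr.node (nat_lit 13184) (Tr.leaf (nat_lit 970175)) (Tr.node (nat_lit 8704) (Tr.leaf (nat_lit 236)) (Tr.leaf (nat_lit 969737))))) (Tr.node (nat_lit 28352) (Tr.node (nat_lit 10944) (Tr.leaf (nat_lit 242352)) (Tr.leaf (nat_lit 242297))) (Tr.node (nat_lit 4416) (Tr.leaf (nat_lit 3784)) (Tr.node (nat_lit 1024) (Tr.leaf (nat_lit 242188)) (Tr.leaf (nat_lit 242183)))))) (Tr.node (nat_lit 52928) (Tr.node (nat_lit 40704) (Tr.node (nat_lit 5440) (Tr.leaf (nat_lit 968534)) (Tr.leaf (nat_lit 968425))) (Tr.node (nat_lit 512) (Tr.leaf (nat_lit 60482)) (Tr.node (nat_lit 7872) (Tr.leaf (nat_lit 241927)) (Tr.leaf (nat_lit 967552))))) (Tr.node (nat_lit 20672) (Tr.node (nat_lit 13888)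 (Tr.leaf (nat_lit 15116)) (Tr.node (nat_lit 6720) (Tr.leaf (nat_lit 967198)) (Tr.leaf (nat_lit 236)))) (Tr.node (nat_lit 8192) (Tr.leaf (nat_lit 967062)) (Tr.node (nat_lit 10560) (Tr.leaf (nat_lit 966899)) (Tr.leaf (nat_lit 241672))))))) (Tr.node (nat_lit 103424) (Tr.node (nat_lit 49024) (Tr.node (nat_lit 28672) (Tr.node (nat_lit 5440) (Tr.leaf (nat_lit 241643)) (Tr.leaf (nat_lit 3865857))) (Tr.node (nat_lit 4032) (Tr.leaf (nat_lit 943)) (Tr.node (nat_lit 14144) (Tr.leaf (nat_lit 241480)) (Tr.leaf (nat_lit 60352))))) (Tr.node (nat_lit 13248) (Tr.node (nat_lit 3072) (Tr.leaf (nat_lit 15449522)) (Tr.node (nat_lit 2368) (Tr.leaf (nat_lit 241383)) (Tr.leaf (nat_lit 965486)))) (Tr.node (nat_lit 8512) (Tr.leaf (nat_lit 241332)) (Tr.node (nat_lit 27200) (Tr.leaf (nat_lit 3860644)) (Tr.leaf (nat_lit 964619)))))) (Tr.node (nat_lit 43776) (Tr.node (nat_lit 27136) (Tr.node (nat_lit 26560)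 (Tr.leaf (nat_lit 964510)) (Tr.leaf (nat_lit 3765))) (Tr.node (nat_lit 5440) (Tr.leaf (nat_lit 963969)) (Tr.node (nat_lit 2752) (Tr.leaf (nat_lit 3855446)) (Tr.leaf (nat_lit 963807))))) (Tr.node (nat_lit 21376) (Tr.node (nat_lit 14080) (Tr.leaf (nat_lit 240909)) (Tr.node (nat_lit 1088) (Tr.leaf (nat_lit 60209)) (Tr.leaf (nat_lit 15052)))) (Tr.node (nat_lit 10880) (Tr.leaf (nat_lit 3852852)) (Tr.node (nat_lit 8704) (Tr.leaf (nat_lit 3851988)) (Tr.leaf (nat_lit 235))))))))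

noncomputable def jt11 : Tr :=
  (Tr.node (nat_lit 184128) (Tr.node (nat_lit 70144) (Tr.node (nat_lit 32576) (Tr.node (nat_lit 12544) (Tr.node (nat_lit 1856) (Tr.leaf (nat_lit 240668)) (Tr.leaf (nat_lit 60164))) (Tr.node (nat_lit 10176) (Tr.leaf (nat_lit 240605)) (Tr.node (nat_lit 8320) (Tr.leaf (nat_lit 240555)) (Tr.leaf (nat_lit 240514))))) (Tr.node (nat_lit 2368) (Tr.node (nat_lit 256) (Tr.leaf (nat_lit 240506)) (Tr.leaf (nat_lit 234))) (Tr.node (nat_lit 13888) (Tr.leaf (nat_lit 60123)) (Tr.node (nat_lit 5376) (Tr.leaf (nat_lit 3846813)) (Tr.leaf (nat_lit 240398)))))) (Tr.node (nat_lit 50752) (Tr.node (nat_lit 27392) (Tr.node (nat_lit 11200) (Tr.leaf (nat_lit 240319)) (Tr.leaf (nat_lit 961057))) (Tr.node (nat_lit 5440) (Tr.leaf (nat_lit 240183)) (Tr.node (nat_lit 2688) (Tr.leaf (nat_lit 960627)) (Tr.leaf (nat_lit 960574))))) (Tr.node (nat_lit 30784) (Tr.node (nat_lit 6080)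 (Tr.leaf (nat_lit 240068)) (Tr.node (nat_lit 8448) (Tr.leaf (nat_lit 240037)) (Tr.leaf (nat_lit 959983)))) (Tr.node (nat_lit 12800) (Tr.leaf (nat_lit 239915)) (Tr.node (nat_lit 14208) (Tr.leaf (nat_lit 234)) (Tr.leaf (nat_lit 959126))))))) (Tr.node (nat_lit 75584) (Tr.node (nat_lit 37696) (Tr.node (nat_lit 12544) (Tr.node (nat_lit 10816) (Tr.leaf (nat_lit 959019)) (Tr.leaf (nat_lit 958805))) (Tr.node (nat_lit 8704) (Tr.leaf (nat_lit 936)) (Tr.node (nat_lit 11136) (Tr.leaf (nat_lit 239649)) (Tr.leaf (nat_lit 239594))))) (Tr.node (nat_lit 25728) (Tr.node (nat_lit 5504) (Tr.leaf (nat_lit 935)) (Tr.node (nat_lit 16192) (Tr.leaf (nat_lit 958163)) (Tr.leaf (nat_lit 3831371)))) (Tr.node (nat_lit 1344) (Tr.leaf (nat_lit 957762)) (Tr.node (nat_lit 8128) (Tr.leaf (nat_lit 239434)) (Tr.leaf (nat_lit 3740)))))) (Tr.node (nat_lit 37760) (Tr.node (nat_lit 16192) (Tr.node (nat_lit 5376) (Tr.leaf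 (nat_lit 239380)) (Tr.leaf (nat_lit 957415))) (Tr.node (nat_lit 5376) (Tr.leaf (nat_lit 957202)) (Tr.node (nat_lit 4928) (Tr.leaf (nat_lit 957095)) (Tr.leaf (nat_lit 14953))))) (Tr.node (nat_lit 34368) (Tr.node (nat_lit 12288) (Tr.leaf (nat_lit 956775)) (Tr.node (nat_lit 1024) (Tr.leaf (nat_lit 233)) (Tr.leaf (nat_lit 239128)))) (Tr.node (nat_lit 14144) (Tr.leaf (nat_lit 956097)) (Tr.node (nat_lit 32320) (Tr.leaf (nat_lit 955817)) (Tr.leaf (nat_lit 955180))))))))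

noncomputable def jt12 : Tr :=
  (Tr.node (nat_lit 145088) (Tr.node (nat_lit 64512) (Tr.node (nat_lit 32256) (Tr.node (nat_lit 8512) (Tr.node (nat_lit 5888) (Tr.leaf (nat_lit 954967)) (Tr.leaf (nat_lit 238712))) (Tr.node (nat_lit 7616) (Tr.leaf (nat_lit 59674)) (Tr.node (nat_lit 5376) (Tr.leaf (nat_lit 954649)) (Tr.leaf (nat_lit 238635))))) (Tr.node (nat_lit 9088) (Tr.node (nat_lit 5376) (Tr.leaf (nat_lit 238582)) (Tr.leaf (nat_lit 954225))) (Tr.node (nat_lit 7040) (Tr.leaf (nat_lit 59634)) (Tr.node (nat_lit 12672) (Tr.leaf (nat_lit 954013)) (Tr.leaf (nat_lit 59610)))))) (Tr.node (nat_lit 32256) (Tr.node (nat_lit 21504) (Tr.node (nat_lit 5376) (Tr.leaf (nat_lit 238423)) (Tr.leaf (nat_lit 3814358))) (Tr.node (nat_lit 8064) (Tr.leaf (nat_lit 238318)) (Tr.node (nat_lit 1984) (Tr.leaf (nat_lit 953113)) (Tr.leaf (nat_lit 232))))) (Tr.node (nat_lit 32576) (Tr.node (nat_lit 11840)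 (Tr.leaf (nat_lit 238265)) (Tr.node (nat_lit 11968) (Tr.leaf (nat_lit 3721)) (Tr.leaf (nat_lit 930)))) (Tr.node (nat_lit 4992) (Tr.leaf (nat_lit 238104)) (Tr.node (nat_lit 128) (Tr.leaf (nat_lit 3809283)) (Tr.leaf (nat_lit 59519))))))) (Tr.node (nat_lit 117888) (Tr.node (nat_lit 63424) (Tr.node (nat_lit 37568) (Tr.node (nat_lit 27904) (Tr.leaf (nat_lit 952109)) (Tr.leaf (nat_lit 59472))) (Tr.node (nat_lit 12032) (Tr.leaf (nat_lit 237842)) (Tr.node (nat_lit 10496) (Tr.leaf (nat_lit 951134)) (Tr.leaf (nat_lit 237732))))) (Tr.node (nat_lit 35904) (Tr.node (nat_lit 6272) (Tr.leaf (nat_lit 928)) (Tr.node (nat_lit 21760) (Tr.leaf (nat_lit 950739)) (Tr.leaf (nat_lit 237578)))) (Tr.node (nat_lit 2496) (Tr.leaf (nat_lit 59384)) (Tr.node (nat_lit 10688) (Tr.leaf (nat_lit 237527)) (Tr.leaf (nat_lit 237474)))))) (Tr.node (nat_lit 57152) (Tr.node (nat_lit 26752) (Tr.node (nat_lit 18752) (Tr.leaf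 (nat_lit 3799174)) (Tr.leaf (nat_lit 949426))) (Tr.node (nat_lit 6016) (Tr.leaf (nat_lit 237317)) (Tr.node (nat_lit 20416) (Tr.leaf (nat_lit 231)) (Tr.leaf (nat_lit 3706))))) (Tr.node (nat_lit 16704) (Tr.node (nat_lit 8000) (Tr.leaf (nat_lit 237168)) (Tr.node (nat_lit 6208) (Tr.leaf (nat_lit 926)) (Tr.leaf (nat_lit 237098)))) (Tr.node (nat_lit 1024) (Tr.leaf (nat_lit 237086)) (Tr.node (nat_lit 5376) (Tr.leaf (nat_lit 948325)) (Tr.leaf (nat_lit 237055))))))))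

noncomputable def jt13 : Tr :=
  (Tr.node (nat_lit 165312) (Tr.node (nat_lit 80064) (Tr.node (nat_lit 41408) (Tr.node (nat_lit 16000) (Tr.node (nat_lit 5312) (Tr.leaf (nat_lit 948011)) (Tr.leaf (nat_lit 947907))) (Tr.node (nat_lit 16000) (Tr.leaf (nat_lit 3790791)) (Tr.node (nat_lit 5376) (Tr.leaf (nat_lit 236846)) (Tr.leaf (nat_lit 947279))))) (Tr.node (nat_lit 14912) (Tr.node (nat_lit 6656) (Tr.leaf (nat_lit 231)) (Tr.leaf (nat_lit 947071))) (Tr.node (nat_lit 64) (Tr.leaf (nat_lit 231)) (Tr.node (nat_lit 12992) (Tr.leaf (nat_lit 236726)) (Tr.leaf (nat_lit 946653)))))) (Tr.node (nat_lit 32000) (Tr.node (nat_lit 14784) (Tr.node (nat_lit 13760) (Tr.leaf (nat_lit 946444)) (Tr.leaf (nat_lit 230))) (Tr.node (nat_lit 1088) (Tr.leaf (nat_lit 236538)) (Tr.node (nat_lit 5440) (Tr.leaf (nat_lit 59133)) (Tr.leaf (nat_lit 3784112))))) (Tr.node (nat_lit 41024) (Tr.node (nat_lit 15936) (Tr.leaf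 (nat_lit 945819)) (Tr.node (nat_lit 24000) (Tr.leaf (nat_lit 945507)) (Tr.leaf (nat_lit 945039)))) (Tr.node (nat_lit 6912) (Tr.leaf (nat_lit 3691)) (Tr.node (nat_lit 4224) (Tr.leaf (nat_lit 236220)) (Tr.leaf (nat_lit 236200))))))) (Tr.node (nat_lit 95744) (Tr.node (nat_lit 50880) (Tr.node (nat_lit 1024) (Tr.node (nat_lit 192) (Tr.leaf (nat_lit 944779)) (Tr.leaf (nat_lit 230))) (Tr.node (nat_lit 10880) (Tr.leaf (nat_lit 236189)) (Tr.node (nat_lit 4032) (Tr.leaf (nat_lit 59034)) (Tr.leaf (nat_lit 944467))))) (Tr.node (nat_lit 23616) (Tr.node (nat_lit 7680) (Tr.leaf (nat_lit 235946)) (Tr.node (nat_lit 5312) (Tr.leaf (nat_lit 235909)) (Tr.leaf (nat_lit 3774136)))) (Tr.node (nat_lit 15360) (Tr.leaf (nat_lit 943326)) (Tr.node (nat_lit 576) (Tr.leaf (nat_lit 58939)) (Tr.leaf (nat_lit 235754)))))) (Tr.node (nat_lit 74304) (Tr.node (nat_lit 10624) (Tr.node (nat_lit 3520) (Tr.leaf (nat_lit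 942912)) (Tr.leaf (nat_lit 230))) (Tr.node (nat_lit 22080) (Tr.leaf (nat_lit 3770822)) (Tr.node (nat_lit 9792) (Tr.leaf (nat_lit 920)) (Tr.leaf (nat_lit 942085))))) (Tr.node (nat_lit 15936) (Tr.node (nat_lit 4032) (Tr.leaf (nat_lit 941465)) (Tr.node (nat_lit 11712) (Tr.leaf (nat_lit 58836)) (Tr.leaf (nat_lit 3676)))) (Tr.node (nat_lit 5312) (Tr.leaf (nat_lit 235289)) (Tr.node (nat_lit 15168) (Tr.leaf (nat_lit 3764213)) (Tr.leaf (nat_lit 235189))))))))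

noncomputable def jt14 : Tr :=
  (Tr.node (nat_lit 148800) (Tr.node (nat_lit 64512) (Tr.node (nat_lit 30656) (Tr.node (nat_lit 16896) (Tr.node (nat_lit 960) (Tr.leaf (nat_lit 235139)) (Tr.leaf (nat_lit 235134))) (Tr.node (nat_lit 5248) (Tr.leaf (nat_lit 3760917)) (Tr.node (nat_lit 2688) (Tr.leaf (nat_lit 235031)) (Tr.leaf (nat_lit 940074))))) (Tr.node (nat_lit 17984) (Tr.node (nat_lit 2112) (Tr.leaf (nat_lit 229)) (Tr.leaf (nat_lit 939920))) (Tr.node (nat_lit 5632) (Tr.leaf (nat_lit 939612)) (Tr.node (nat_lit 3648) (Tr.leaf (nat_lit 58718)) (Tr.leaf (nat_lit 939432)))))) (Tr.node (nat_lit 47616) (Tr.node (nat_lit 15872) (Tr.node (nat_lit 5312) (Tr.leaf (nat_lit 939303)) (Tr.leaf (nat_lit 939201))) (Tr.node (nat_lit 15872) (Tr.leaf (nat_lit 938995)) (Tr.node (nat_lit 14912) (Tr.leaf (nat_lit 234672)) (Tr.leaf (nat_lit 234599))))) (Tr.node (nat_lit 21184) (Tr.node (nat_lit 15872)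 (Tr.leaf (nat_lit 938380)) (Tr.node (nat_lit 3776) (Tr.leaf (nat_lit 234518)) (Tr.leaf (nat_lit 58624)))) (Tr.node (nat_lit 10560) (Tr.leaf (nat_lit 937970)) (Tr.node (nat_lit 832) (Tr.leaf (nat_lit 3751063)) (Tr.leaf (nat_lit 234437))))))) (Tr.node (nat_lit 115648) (Tr.node (nat_lit 63744) (Tr.node (nat_lit 37504) (Tr.node (nat_lit 384) (Tr.leaf (nat_lit 234417)) (Tr.leaf (nat_lit 234415))) (Tr.node (nat_lit 20928) (Tr.leaf (nat_lit 228)) (Tr.node (nat_lit 1920) (Tr.leaf (nat_lit 936538)) (Tr.leaf (nat_lit 58531))))) (Tr.node (nat_lit 26368) (Tr.node (nat_lit 10560) (Tr.leaf (nat_lit 234109)) (Tr.node (nat_lit 5248) (Tr.leaf (nat_lit 936232)) (Tr.leaf (nat_lit 3744522)))) (Tr.node (nat_lit 5888) (Tr.leaf (nat_lit 935926)) (Tr.node (nat_lit 9920) (Tr.leaf (nat_lit 14622)) (Tr.leaf (nat_lit 233905)))))) (Tr.node (nat_lit 21888) (Tr.node (nat_lit 11392) (Tr.node (nat_lit 6080)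 (Tr.leaf (nat_lit 913)) (Tr.leaf (nat_lit 14965042))) (Tr.node (nat_lit 1600) (Tr.leaf (nat_lit 935213)) (Tr.node (nat_lit 2560) (Tr.leaf (nat_lit 233795)) (Tr.leaf (nat_lit 58445))))) (Tr.node (nat_lit 21120) (Tr.node (nat_lit 5312) (Tr.leaf (nat_lit 233752)) (Tr.node (nat_lit 10496) (Tr.leaf (nat_lit 934907)) (Tr.leaf (nat_lit 934704)))) (Tr.node (nat_lit 1728) (Tr.leaf (nat_lit 934602)) (Tr.node (nat_lit 20928) (Tr.leaf (nat_lit 233642)) (Tr.leaf (nat_lit 233541))))))))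

noncomputable def jt15 : Tr :=
  (Tr.node (nat_lit 165952) (Tr.node (nat_lit 87232) (Tr.node (nat_lit 34624) (Tr.node (nat_lit 15872) (Tr.node (nat_lit 3072) (Tr.leaf (nat_lit 228)) (Tr.leaf (nat_lit 3736378))) (Tr.node (nat_lit 3008) (Tr.leaf (nat_lit 233461)) (Tr.node (nat_lit 5248) (Tr.leaf (nat_lit 233447)) (Tr.leaf (nat_lit 14939016))))) (Tr.node (nat_lit 15808) (Tr.node (nat_lit 5248) (Tr.leaf (nat_lit 933485)) (Tr.leaf (nat_lit 233346))) (Tr.node (nat_lit 18112) (Tr.leaf (nat_lit 933181)) (Tr.node (nat_lit 2880) (Tr.leaf (nat_lit 227)) (Tr.leaf (nat_lit 233194)))))) (Tr.node (nat_lit 31488) (Tr.node (nat_lit 10496) (Tr.node (nat_lit 2624) (Tr.leaf (nat_lit 3729889)) (Tr.leaf (nat_lit 932421))) (Tr.node (nat_lit 5248) (Tr.leaf (nat_lit 932269)) (Tr.node (nat_lit 6848) (Tr.leaf (nat_lit 932168)) (Tr.leaf (nat_lit 58252))))) (Tr.node (nat_lit 15744) (Tr.node (nat_lit 3968)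 (Tr.leaf (nat_lit 931865)) (Tr.node (nat_lit 10944) (Tr.leaf (nat_lit 931789)) (Tr.leaf (nat_lit 3638)))) (Tr.node (nat_lit 7872) (Tr.leaf (nat_lit 232890)) (Tr.node (nat_lit 18368) (Tr.leaf (nat_lit 931410)) (Tr.leaf (nat_lit 931057))))))) (Tr.node (nat_lit 73408) (Tr.node (nat_lit 47232) (Tr.node (nat_lit 24832) (Tr.node (nat_lit 24000) (Tr.leaf (nat_lit 232739)) (Tr.leaf (nat_lit 58155))) (Tr.node (nat_lit 1024) (Tr.leaf (nat_lit 227)) (Tr.node (nat_lit 384) (Tr.leaf (nat_lit 227)) (Tr.leaf (nat_lit 3721808))))) (Tr.node (nat_lit 10496) (Tr.node (nat_lit 2560) (Tr.leaf (nat_lit 930049)) (Tr.node (nat_lit 64) (Tr.leaf (nat_lit 908)) (Tr.leaf (nat_lit 929998)))) (Tr.node (nat_lit 1472) (Tr.leaf (nat_lit 929847)) (Tr.node (nat_lit 3712) (Tr.leaf (nat_lit 232454)) (Tr.leaf (nat_lit 232436)))))) (Tr.node (nat_lit 47104) (Tr.node (nat_lit 20992) (Tr.node (nat_lit 15744) (Tr.leaf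 (nat_lit 232386)) (Tr.leaf (nat_lit 929244))) (Tr.node (nat_lit 3648) (Tr.leaf (nat_lit 929143)) (Tr.node (nat_lit 12032) (Tr.leaf (nat_lit 226)) (Tr.leaf (nat_lit 14861478))))) (Tr.node (nat_lit 31424) (Tr.node (nat_lit 5248) (Tr.leaf (nat_lit 3714566)) (Tr.node (nat_lit 15744) (Tr.leaf (nat_lit 928541)) (Tr.leaf (nat_lit 928240)))) (Tr.node (nat_lit 5248) (Tr.leaf (nat_lit 3712158)) (Tr.node (nat_lit 1792) (Tr.leaf (nat_lit 231984)) (Tr.leaf (nat_lit 906))))))))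

noncomputable def jt16 : Tr :=
  (Tr.node (nat_lit 294336) (Tr.node (nat_lit 152320) (Tr.node (nat_lit 71744) (Tr.node (nat_lit 39168) (Tr.node (nat_lit 23488) (Tr.leaf (nat_lit 927889)) (Tr.leaf (nat_lit 927438))) (Tr.node (nat_lit 5248) (Tr.leaf (nat_lit 927138)) (Tr.node (nat_lit 15680) (Tr.leaf (nat_lit 927038)) (Tr.leaf (nat_lit 926738))))) (Tr.node (nat_lit 50944) (Tr.node (nat_lit 3968) (Tr.leaf (nat_lit 57907)) (Tr.node (nat_lit 26112) (Tr.leaf (nat_lit 3705752)) (Tr.leaf (nat_lit 231484)))) (Tr.node (nat_lit 10432) (Tr.leaf (nat_lit 231384)) (Tr.node (nat_lit 18880) (Tr.leaf (nat_lit 231335)) (Tr.leaf (nat_lit 57811)))))) (Tr.node (nat_lit 77632) (Tr.node (nat_lit 17280) (Tr.node (nat_lit 12416) (Tr.leaf (nat_lit 225)) (Tr.leaf (nat_lit 231184))) (Tr.node (nat_lit 15680) (Tr.leaf (nat_lit 924643)) (Tr.node (nat_lit 20160) (Tr.leaf (nat_lit 231086)) (Tr.leaf (nat_lit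 923959))))) (Tr.node (nat_lit 43776) (Tr.node (nat_lit 32384) (Tr.leaf (nat_lit 225)) (Tr.node (nat_lit 256) (Tr.leaf (nat_lit 230718)) (Tr.leaf (nat_lit 57679)))) (Tr.node (nat_lit 5184) (Tr.leaf (nat_lit 3690627)) (Tr.node (nat_lit 7808) (Tr.leaf (nat_lit 230639)) (Tr.leaf (nat_lit 922409))))))) (Tr.node (nat_lit 104000) (Tr.node (nat_lit 46912) (Tr.node (nat_lit 31360) (Tr.node (nat_lit 26176) (Tr.leaf (nat_lit 57641)) (Tr.leaf (nat_lit 230441))) (Tr.node (nat_lit 10368) (Tr.leaf (nat_lit 3686667)) (Tr.node (nat_lit 2816) (Tr.leaf (nat_lit 921469)) (Tr.leaf (nat_lit 899))))) (Tr.node (nat_lit 23360) (Tr.node (nat_lit 6336) (Tr.leaf (nat_lit 230342)) (Tr.node (nat_lit 4096) (Tr.leaf (nat_lit 230312)) (Tr.leaf (nat_lit 921172)))) (Tr.node (nat_lit 18176) (Tr.leaf (nat_lit 920925)) (Tr.node (nat_lit 5184) (Tr.leaf (nat_lit 920580)) (Tr.leaf (nat_lit 920481)))))) (Tr.node (nat_lit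 46656) (Tr.node (nat_lit 15552) (Tr.node (nat_lit 10048) (Tr.leaf (nat_lit 920284)) (Tr.leaf (nat_lit 230023))) (Tr.node (nat_lit 13952) (Tr.leaf (nat_lit 229997)) (Tr.node (nat_lit 6784) (Tr.leaf (nat_lit 229930)) (Tr.leaf (nat_lit 229898))))) (Tr.node (nat_lit 20352) (Tr.node (nat_lit 3904) (Tr.leaf (nat_lit 229849)) (Tr.node (nat_lit 11712) (Tr.leaf (nat_lit 919324)) (Tr.leaf (nat_lit 57443)))) (Tr.node (nat_lit 6336) (Tr.leaf (nat_lit 224)) (Tr.node (nat_lit 4416) (Tr.leaf (nat_lit 224)) (Tr.leaf (nat_lit 229701))))))))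

noncomputable def jt17 : Tr :=
  (Tr.node (nat_lit 142144) (Tr.node (nat_lit 72384) (Tr.node (nat_lit 46592) (Tr.node (nat_lit 25792) (Tr.node (nat_lit 10368) (Tr.leaf (nat_lit 3674838)) (Tr.leaf (nat_lit 3674052))) (Tr.node (nat_lit 4928) (Tr.leaf (nat_lit 57388)) (Tr.node (nat_lit 320) (Tr.leaf (nat_lit 229531)) (Tr.leaf (nat_lit 918120))))) (Tr.node (nat_lit 15488) (Tr.node (nat_lit 10304) (Tr.leaf (nat_lit 917826)) (Tr.leaf (nat_lit 917630))) (Tr.node (nat_lit 2560) (Tr.leaf (nat_lit 917532)) (Tr.node (nat_lit 1536) (Tr.leaf (nat_lit 917483)) (Tr.leaf (nat_lit 57340)))))) (Tr.node (nat_lit 31040) (Tr.node (nat_lit 15552) (Tr.node (nat_lit 4736) (Tr.leaf (nat_lit 917336)) (Tr.leaf (nat_lit 223))) (Tr.node (nat_lit 960) (Tr.leaf (nat_lit 917042)) (Tr.node (nat_lit 5184) (Tr.leaf (nat_lit 229255)) (Tr.leaf (nat_lit 229231))))) (Tr.node (nat_lit 20672) (Tr.node (nat_lit 5184)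 (Tr.leaf (nat_lit 916748)) (Tr.node (nat_lit 10304) (Tr.leaf (nat_lit 229162)) (Tr.leaf (nat_lit 916455)))) (Tr.node (nat_lit 9344) (Tr.leaf (nat_lit 916357)) (Tr.node (nat_lit 6144) (Tr.leaf (nat_lit 3578)) (Tr.leaf (nat_lit 229016))))))) (Tr.node (nat_lit 113024) (Tr.node (nat_lit 69632) (Tr.node (nat_lit 49408) (Tr.node (nat_lit 12928) (Tr.leaf (nat_lit 916015)) (Tr.leaf (nat_lit 3663085))) (Tr.node (nat_lit 4800) (Tr.leaf (nat_lit 223)) (Tr.node (nat_lit 1472) (Tr.leaf (nat_lit 914990)) (Tr.leaf (nat_lit 57185))))) (Tr.node (nat_lit 18240) (Tr.node (nat_lit 5184) (Tr.leaf (nat_lit 228674)) (Tr.node (nat_lit 2560) (Tr.leaf (nat_lit 3658404)) (Tr.leaf (nat_lit 914552)))) (Tr.node (nat_lit 12672) (Tr.leaf (nat_lit 228588)) (Tr.node (nat_lit 5184) (Tr.leaf (nat_lit 228528)) (Tr.leaf (nat_lit 914017)))))) (Tr.node (nat_lit 35200) (Tr.node (nat_lit 18432) (Tr.node (nat_lit 8128)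 (Tr.leaf (nat_lit 228469)) (Tr.leaf (nat_lit 913725))) (Tr.node (nat_lit 5184) (Tr.leaf (nat_lit 228382)) (Tr.node (nat_lit 2176) (Tr.leaf (nat_lit 913434)) (Tr.leaf (nat_lit 3567))))) (Tr.node (nat_lit 19264) (Tr.node (nat_lit 512) (Tr.leaf (nat_lit 913215)) (Tr.node (nat_lit 10688) (Tr.leaf (nat_lit 891)) (Tr.leaf (nat_lit 228250)))) (Tr.node (nat_lit 15424) (Tr.leaf (nat_lit 912851)) (Tr.node (nat_lit 4160) (Tr.leaf (nat_lit 228140)) (Tr.leaf (nat_lit 891))))))))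

noncomputable def jt18 : Tr :=
  (Tr.node (nat_lit 187904) (Tr.node (nat_lit 80256) (Tr.node (nat_lit 25344) (Tr.node (nat_lit 9920) (Tr.node (nat_lit 4800) (Tr.leaf (nat_lit 228114)) (Tr.leaf (nat_lit 912366))) (Tr.node (nat_lit 2624) (Tr.leaf (nat_lit 3649080)) (Tr.node (nat_lit 7680) (Tr.leaf (nat_lit 57013)) (Tr.leaf (nat_lit 912076))))) (Tr.node (nat_lit 15424) (Tr.node (nat_lit 10304) (Tr.leaf (nat_lit 227994)) (Tr.leaf (nat_lit 227946))) (Tr.node (nat_lit 8128) (Tr.leaf (nat_lit 911689)) (Tr.node (nat_lit 22720) (Tr.leaf (nat_lit 222)) (Tr.leaf (nat_lit 911108)))))) (Tr.node (nat_lit 40064) (Tr.node (nat_lit 17024) (Tr.node (nat_lit 6720) (Tr.leaf (nat_lit 227736)) (Tr.leaf (nat_lit 227704))) (Tr.node (nat_lit 5120) (Tr.leaf (nat_lit 227656)) (Tr.node (nat_lit 15360) (Tr.leaf (nat_lit 910529)) (Tr.leaf (nat_lit 227559))))) (Tr.node (nat_lit 23808) (Tr.node (nat_lit 7744)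 (Tr.leaf (nat_lit 910191)) (Tr.node (nat_lit 5120) (Tr.leaf (nat_lit 227511)) (Tr.leaf (nat_lit 14559211)))) (Tr.node (nat_lit 4416) (Tr.leaf (nat_lit 56859)) (Tr.node (nat_lit 32000) (Tr.leaf (nat_lit 909661)) (Tr.leaf (nat_lit 221))))))) (Tr.node (nat_lit 63040) (Tr.node (nat_lit 24512) (Tr.node (nat_lit 12544) (Tr.node (nat_lit 11520) (Tr.leaf (nat_lit 56807)) (Tr.leaf (nat_lit 887))) (Tr.node (nat_lit 4480) (Tr.leaf (nat_lit 908687)) (Tr.node (nat_lit 5120) (Tr.leaf (nat_lit 908603)) (Tr.leaf (nat_lit 908507))))) (Tr.node (nat_lit 23232) (Tr.node (nat_lit 320) (Tr.leaf (nat_lit 227115)) (Tr.node (nat_lit 7552) (Tr.leaf (nat_lit 887)) (Tr.leaf (nat_lit 908314)))) (Tr.node (nat_lit 4736) (Tr.leaf (nat_lit 3632107)) (Tr.node (nat_lit 320) (Tr.leaf (nat_lit 226984)) (Tr.leaf (nat_lit 226982)))))) (Tr.node (nat_lit 46016) (Tr.node (nat_lit 31872) (Tr.node (nat_lit 20480) (Tr.leaf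 (nat_lit 226934)) (Tr.leaf (nat_lit 226838))) (Tr.node (nat_lit 3968) (Tr.leaf (nat_lit 221)) (Tr.node (nat_lit 1600) (Tr.leaf (nat_lit 907068)) (Tr.leaf (nat_lit 226759))))) (Tr.node (nat_lit 15360) (Tr.node (nat_lit 3392) (Tr.leaf (nat_lit 58040098)) (Tr.node (nat_lit 1728) (Tr.leaf (nat_lit 226703)) (Tr.leaf (nat_lit 226695)))) (Tr.node (nat_lit 15296) (Tr.leaf (nat_lit 906589)) (Tr.node (nat_lit 5120) (Tr.leaf (nat_lit 906302)) (Tr.leaf (nat_lit 226551))))))))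

noncomputable def jt19 : Tr :=
  (Tr.node (nat_lit 148480) (Tr.node (nat_lit 71872) (Tr.node (nat_lit 39488) (Tr.node (nat_lit 15296) (Tr.node (nat_lit 10176) (Tr.leaf (nat_lit 905920)) (Tr.leaf (nat_lit 905729))) (Tr.node (nat_lit 14528) (Tr.leaf (nat_lit 905633)) (Tr.node (nat_lit 768) (Tr.leaf (nat_lit 221)) (Tr.leaf (nat_lit 3621388))))) (Tr.node (nat_lit 11712) (Tr.node (nat_lit 6400) (Tr.leaf (nat_lit 56573)) (Tr.leaf (nat_lit 226265))) (Tr.node (nat_lit 8704) (Tr.leaf (nat_lit 3535)) (Tr.node (nat_lit 1280) (Tr.leaf (nat_lit 904798)) (Tr.leaf (nat_lit 904775)))))) (Tr.node (nat_lit 43776) (Tr.node (nat_lit 14784) (Tr.node (nat_lit 4608) (Tr.leaf (nat_lit 226143)) (Tr.leaf (nat_lit 226122))) (Tr.node (nat_lit 14400) (Tr.leaf (nat_lit 904298)) (Tr.node (nat_lit 6016) (Tr.leaf (nat_lit 220)) (Tr.leaf (nat_lit 903918))))) (Tr.node (nat_lit 23360) (Tr.node (nat_lit 11456)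 (Tr.leaf (nat_lit 225939)) (Tr.node (nat_lit 5440) (Tr.leaf (nat_lit 3529)) (Tr.leaf (nat_lit 903442)))) (Tr.node (nat_lit 1152) (Tr.leaf (nat_lit 56457)) (Tr.node (nat_lit 7616) (Tr.leaf (nat_lit 903300)) (Tr.leaf (nat_lit 225789))))))) (Tr.node (nat_lit 62592) (Tr.node (nat_lit 29184) (Tr.node (nat_lit 5440) (Tr.node (nat_lit 4416) (Tr.leaf (nat_lit 220)) (Tr.leaf (nat_lit 3612251))) (Tr.node (nat_lit 9152) (Tr.leaf (nat_lit 56440)) (Tr.node (nat_lit 5056) (Tr.leaf (nat_lit 902873)) (Tr.leaf (nat_lit 902778))))) (Tr.node (nat_lit 15936) (Tr.node (nat_lit 6336) (Tr.leaf (nat_lit 881)) (Tr.node (nat_lit 7488) (Tr.leaf (nat_lit 881)) (Tr.leaf (nat_lit 56396)))) (Tr.node (nat_lit 5056) (Tr.leaf (nat_lit 14436864)) (Tr.node (nat_lit 6656) (Tr.leaf (nat_lit 225552)) (Tr.leaf (nat_lit 220)))))) (Tr.node (nat_lit 39680) (Tr.node (nat_lit 12992) (Tr.node (nat_lit 2816) (Tr.leaf (nat_lit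 225494)) (Tr.leaf (nat_lit 901925))) (Tr.node (nat_lit 2880) (Tr.leaf (nat_lit 901735)) (Tr.node (nat_lit 17472) (Tr.leaf (nat_lit 225420)) (Tr.leaf (nat_lit 901357))))) (Tr.node (nat_lit 12416) (Tr.node (nat_lit 3840) (Tr.leaf (nat_lit 901239)) (Tr.node (nat_lit 5056) (Tr.leaf (nat_lit 901168)) (Tr.leaf (nat_lit 225268)))) (Tr.node (nat_lit 11712) (Tr.leaf (nat_lit 56313)) (Tr.node (nat_lit 7616) (Tr.leaf (nat_lit 14412641)) (Tr.leaf (nat_lit 900648))))))))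

noncomputable def jt20 : Tr :=
  (Tr.node (nat_lit 152000) (Tr.node (nat_lit 50688) (Tr.node (nat_lit 34688) (Tr.node (nat_lit 8512) (Tr.node (nat_lit 5056) (Tr.leaf (nat_lit 900601)) (Tr.leaf (nat_lit 225126))) (Tr.node (nat_lit 6656) (Tr.leaf (nat_lit 225110)) (Tr.node (nat_lit 5120) (Tr.leaf (nat_lit 900318)) (Tr.leaf (nat_lit 900223))))) (Tr.node (nat_lit 6144) (Tr.node (nat_lit 768) (Tr.leaf (nat_lit 219)) (Tr.leaf (nat_lit 899940))) (Tr.node (nat_lit 1152) (Tr.leaf (nat_lit 878)) (Tr.node (nat_lit 3648) (Tr.leaf (nat_lit 14059)) (Tr.leaf (nat_lit 224938)))))) (Tr.node (nat_lit 40576) (Tr.node (nat_lit 17088) (Tr.node (nat_lit 15232) (Tr.leaf (nat_lit 3598632)) (Tr.leaf (nat_lit 224843))) (Tr.node (nat_lit 9408) (Tr.leaf (nat_lit 219)) (Tr.node (nat_lit 3904) (Tr.leaf (nat_lit 56197)) (Tr.leaf (nat_lit 899093))))) (Tr.node (nat_lit 20224) (Tr.node (nat_lit 8832) (Tr.leaf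 (nat_lit 898904)) (Tr.node (nat_lit 6336) (Tr.leaf (nat_lit 877)) (Tr.leaf (nat_lit 898622)))) (Tr.node (nat_lit 10112) (Tr.leaf (nat_lit 3594114)) (Tr.node (nat_lit 23104) (Tr.leaf (nat_lit 898340)) (Tr.leaf (nat_lit 224478))))))) (Tr.node (nat_lit 106432) (Tr.node (nat_lit 65728) (Tr.node (nat_lit 20224) (Tr.node (nat_lit 11712) (Tr.leaf (nat_lit 14364439)) (Tr.leaf (nat_lit 897560))) (Tr.node (nat_lit 15168) (Tr.leaf (nat_lit 897402)) (Tr.node (nat_lit 22720) (Tr.leaf (nat_lit 897121)) (Tr.leaf (nat_lit 896699))))) (Tr.node (nat_lit 15168) (Tr.node (nat_lit 7680) (Tr.leaf (nat_lit 896559)) (Tr.node (nat_lit 2432) (Tr.leaf (nat_lit 56026)) (Tr.leaf (nat_lit 896372)))) (Tr.node (nat_lit 15104) (Tr.leaf (nat_lit 3585114)) (Tr.node (nat_lit 2560) (Tr.leaf (nat_lit 223999)) (Tr.leaf (nat_lit 895951)))))) (Tr.node (nat_lit 53184) (Tr.node (nat_lit 17984) (Tr.node (nat_lit 14848)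 (Tr.leaf (nat_lit 223951)) (Tr.leaf (nat_lit 3582124))) (Tr.node (nat_lit 11968) (Tr.leaf (nat_lit 874)) (Tr.node (nat_lit 5056) (Tr.leaf (nat_lit 895251)) (Tr.leaf (nat_lit 895157))))) (Tr.node (nat_lit 27200) (Tr.node (nat_lit 6208) (Tr.leaf (nat_lit 218)) (Tr.node (nat_lit 832) (Tr.leaf (nat_lit 55919)) (Tr.leaf (nat_lit 223672)))) (Tr.node (nat_lit 14208) (Tr.leaf (nat_lit 894319)) (Tr.node (nat_lit 26112) (Tr.leaf (nat_lit 223514)) (Tr.leaf (nat_lit 223393))))))))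

noncomputable def jt21 : Tr :=
  (Tr.node (nat_lit 146432) (Tr.node (nat_lit 78144) (Tr.node (nat_lit 38592) (Tr.node (nat_lit 13184) (Tr.node (nat_lit 9408) (Tr.leaf (nat_lit 55846)) (Tr.leaf (nat_lit 218))) (Tr.node (nat_lit 15104) (Tr.leaf (nat_lit 3573184)) (Tr.node (nat_lit 5056) (Tr.leaf (nat_lit 223254)) (Tr.leaf (nat_lit 3571698))))) (Tr.node (nat_lit 9792) (Tr.node (nat_lit 4800) (Tr.leaf (nat_lit 871)) (Tr.leaf (nat_lit 892738))) (Tr.node (nat_lit 10112) (Tr.leaf (nat_lit 223161)) (Tr.node (nat_lit 5760) (Tr.leaf (nat_lit 3569842)) (Tr.leaf (nat_lit 3485)))))) (Tr.node (nat_lit 13312) (Tr.node (nat_lit 4864) (Tr.node (nat_lit 448) (Tr.leaf (nat_lit 223024)) (Tr.leaf (nat_lit 223022))) (Tr.node (nat_lit 1216) (Tr.leaf (nat_lit 871)) (Tr.node (nat_lit 4416) (Tr.leaf (nat_lit 55749)) (Tr.leaf (nat_lit 222976))))) (Tr.node (nat_lit 32384) (Tr.node (nat_lit 2176) (Tr.leaf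 (nat_lit 222963)) (Tr.node (nat_lit 15104) (Tr.leaf (nat_lit 14268994)) (Tr.leaf (nat_lit 891534)))) (Tr.node (nat_lit 9984) (Tr.leaf (nat_lit 891256)) (Tr.node (nat_lit 10496) (Tr.leaf (nat_lit 3564288)) (Tr.leaf (nat_lit 55679))))))) (Tr.node (nat_lit 127808) (Tr.node (nat_lit 65152) (Tr.node (nat_lit 7488) (Tr.node (nat_lit 2496) (Tr.leaf (nat_lit 890841)) (Tr.leaf (nat_lit 222698))) (Tr.node (nat_lit 25088) (Tr.leaf (nat_lit 890702)) (Tr.node (nat_lit 20096) (Tr.leaf (nat_lit 222560)) (Tr.leaf (nat_lit 889872))))) (Tr.node (nat_lit 12544) (Tr.node (nat_lit 1344) (Tr.leaf (nat_lit 217)) (Tr.node (nat_lit 1216) (Tr.leaf (nat_lit 55601)) (Tr.leaf (nat_lit 3558382)))) (Tr.node (nat_lit 15040) (Tr.leaf (nat_lit 889411)) (Tr.node (nat_lit 15040) (Tr.leaf (nat_lit 222283)) (Tr.leaf (nat_lit 14221746)))))) (Tr.node (nat_lit 32960) (Tr.node (nat_lit 3776) (Tr.node (nat_lit 1600) (Tr.leaf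 (nat_lit 888491)) (Tr.leaf (nat_lit 222115))) (Tr.node (nat_lit 6272) (Tr.leaf (nat_lit 888422)) (Tr.node (nat_lit 20032) (Tr.leaf (nat_lit 888307)) (Tr.leaf (nat_lit 887940))))) (Tr.node (nat_lit 22080) (Tr.node (nat_lit 12096) (Tr.leaf (nat_lit 867)) (Tr.node (nat_lit 2496) (Tr.leaf (nat_lit 221916)) (Tr.leaf (nat_lit 887619)))) (Tr.node (nat_lit 3968) (Tr.leaf (nat_lit 221870)) (Tr.node (nat_lit 1088) (Tr.leaf (nat_lit 13865)) (Tr.leaf (nat_lit 14198238))))))))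

noncomputable def jt22 : Tr :=
  (Tr.node (nat_lit 143936) (Tr.node (nat_lit 73216) (Tr.node (nat_lit 29120) (Tr.node (nat_lit 9152) (Tr.node (nat_lit 1024) (Tr.leaf (nat_lit 55460)) (Tr.leaf (nat_lit 55459))) (Tr.node (nat_lit 14976) (Tr.leaf (nat_lit 887206)) (Tr.node (nat_lit 768) (Tr.leaf (nat_lit 886931)) (Tr.leaf (nat_lit 221729))))) (Tr.node (nat_lit 14976) (Tr.node (nat_lit 9984) (Tr.leaf (nat_lit 886840)) (Tr.leaf (nat_lit 3546628))) (Tr.node (nat_lit 15040) (Tr.leaf (nat_lit 221641)) (Tr.node (nat_lit 9984) (Tr.leaf (nat_lit 886291)) (Tr.leaf (nat_lit 886108)))))) (Tr.node (nat_lit 11776) (Tr.node (nat_lit 2432) (Tr.node (nat_lit 896) (Tr.leaf (nat_lit 55377)) (Tr.leaf (nat_lit 886016))) (Tr.node (nat_lit 640) (Tr.leaf (nat_lit 221497)) (Tr.node (nat_lit 7808) (Tr.leaf (nat_lit 865)) (Tr.leaf (nat_lit 221458))))) (Tr.node (nat_lit 37504) (Tr.node (nat_lit 4096) (Tr.leaf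 (nat_lit 221454)) (Tr.node (nat_lit 9984) (Tr.leaf (nat_lit 885742)) (Tr.leaf (nat_lit 3542241)))) (Tr.node (nat_lit 6464) (Tr.leaf (nat_lit 216)) (Tr.node (nat_lit 5184) (Tr.leaf (nat_lit 885012)) (Tr.leaf (nat_lit 221229))))))) (Tr.node (nat_lit 59776) (Tr.node (nat_lit 42368) (Tr.node (nat_lit 9664) (Tr.node (nat_lit 4992) (Tr.leaf (nat_lit 884739)) (Tr.leaf (nat_lit 884648))) (Tr.node (nat_lit 5312) (Tr.leaf (nat_lit 221140)) (Tr.node (nat_lit 14912) (Tr.leaf (nat_lit 3537864)) (Tr.leaf (nat_lit 884192))))) (Tr.node (nat_lit 7488) (Tr.node (nat_lit 2496) (Tr.leaf (nat_lit 883965)) (Tr.node (nat_lit 1920) (Tr.leaf (nat_lit 883920)) (Tr.leaf (nat_lit 863)))) (Tr.node (nat_lit 4224) (Tr.leaf (nat_lit 220957)) (Tr.node (nat_lit 4160) (Tr.leaf (nat_lit 55234)) (Tr.leaf (nat_lit 215)))))) (Tr.node (nat_lit 56384) (Tr.node (nat_lit 14976) (Tr.node (nat_lit 12160) (Tr.leaf (nat_lit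 220911)) (Tr.leaf (nat_lit 220856))) (Tr.node (nat_lit 4992) (Tr.leaf (nat_lit 3533498)) (Tr.node (nat_lit 32448) (Tr.leaf (nat_lit 883283)) (Tr.leaf (nat_lit 3448))))) (Tr.node (nat_lit 13824) (Tr.node (nat_lit 3392) (Tr.leaf (nat_lit 861)) (Tr.node (nat_lit 4928) (Tr.leaf (nat_lit 220639)) (Tr.leaf (nat_lit 882467)))) (Tr.node (nat_lit 2880) (Tr.leaf (nat_lit 55147)) (Tr.node (nat_lit 6528) (Tr.leaf (nat_lit 220578)) (Tr.leaf (nat_lit 882195))))))))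

noncomputable def jt23 : Tr :=
  (Tr.node (nat_lit 162880) (Tr.node (nat_lit 67072) (Tr.node (nat_lit 27328) (Tr.node (nat_lit 7488) (Tr.node (nat_lit 1472) (Tr.leaf (nat_lit 882149)) (Tr.leaf (nat_lit 55132))) (Tr.node (nat_lit 7424) (Tr.leaf (nat_lit 220503)) (Tr.node (nat_lit 8384) (Tr.leaf (nat_lit 881878)) (Tr.leaf (nat_lit 220431))))) (Tr.node (nat_lit 14912) (Tr.node (nat_lit 192) (Tr.leaf (nat_lit 220412)) (Tr.leaf (nat_lit 215))) (Tr.node (nat_lit 9920) (Tr.leaf (nat_lit 881380)) (Tr.node (nat_lit 4992) (Tr.leaf (nat_lit 881199)) (Tr.leaf (nat_lit 220277)))))) (Tr.node (nat_lit 64512) (Tr.node (nat_lit 12032) (Tr.node (nat_lit 4992) (Tr.leaf (nat_lit 880928)) (Tr.leaf (nat_lit 3523352))) (Tr.node (nat_lit 32640) (Tr.leaf (nat_lit 55044)) (Tr.node (nat_lit 12416) (Tr.leaf (nat_lit 14081859)) (Tr.leaf (nat_lit 879890))))) (Tr.node (nat_lit 15808) (Tr.node (nat_lit 9920)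 (Tr.leaf (nat_lit 879755)) (Tr.node (nat_lit 4928) (Tr.leaf (nat_lit 879575)) (Tr.leaf (nat_lit 219871)))) (Tr.node (nat_lit 8960) (Tr.leaf (nat_lit 219867)) (Tr.node (nat_lit 4992) (Tr.leaf (nat_lit 219826)) (Tr.leaf (nat_lit 879215))))))) (Tr.node (nat_lit 92800) (Tr.node (nat_lit 52928) (Tr.node (nat_lit 25152) (Tr.node (nat_lit 24000) (Tr.leaf (nat_lit 219796)) (Tr.leaf (nat_lit 13730))) (Tr.node (nat_lit 5760) (Tr.leaf (nat_lit 219682)) (Tr.node (nat_lit 12096) (Tr.leaf (nat_lit 214)) (Tr.leaf (nat_lit 878406))))) (Tr.node (nat_lit 19776) (Tr.node (nat_lit 4928) (Tr.leaf (nat_lit 219556)) (Tr.node (nat_lit 2496) (Tr.leaf (nat_lit 878136)) (Tr.leaf (nat_lit 878091)))) (Tr.node (nat_lit 9920) (Tr.leaf (nat_lit 877867)) (Tr.node (nat_lit 4928) (Tr.leaf (nat_lit 219422)) (Tr.leaf (nat_lit 877598)))))) (Tr.node (nat_lit 54080) (Tr.node (nat_lit 9600) (Tr.node (nat_lit 7232) (Tr.leaf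 (nat_lit 219375)) (Tr.leaf (nat_lit 214))) (Tr.node (nat_lit 12032) (Tr.leaf (nat_lit 219332)) (Tr.node (nat_lit 2752) (Tr.leaf (nat_lit 219277)) (Tr.leaf (nat_lit 877060))))) (Tr.node (nat_lit 14784) (Tr.node (nat_lit 4672) (Tr.leaf (nat_lit 14024383)) (Tr.node (nat_lit 6400) (Tr.leaf (nat_lit 54777)) (Tr.leaf (nat_lit 54770)))) (Tr.node (nat_lit 8320) (Tr.leaf (nat_lit 219063)) (Tr.node (nat_lit 1408) (Tr.leaf (nat_lit 219026)) (Tr.leaf (nat_lit 3422))))))))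

noncomputable def jt24 : Tr :=
  (Tr.node (nat_lit 187584) (Tr.node (nat_lit 118400) (Tr.node (nat_lit 49344) (Tr.node (nat_lit 29632) (Tr.node (nat_lit 14848) (Tr.leaf (nat_lit 876076)) (Tr.leaf (nat_lit 3503235))) (Tr.node (nat_lit 7424) (Tr.leaf (nat_lit 218885)) (Tr.node (nat_lit 7360) (Tr.leaf (nat_lit 875407)) (Tr.leaf (nat_lit 875273))))) (Tr.node (nat_lit 23808) (Tr.node (nat_lit 5632) (Tr.leaf (nat_lit 875184)) (Tr.node (nat_lit 4288) (Tr.leaf (nat_lit 854)) (Tr.leaf (nat_lit 218751)))) (Tr.node (nat_lit 5824) (Tr.leaf (nat_lit 54672)) (Tr.node (nat_lit 9856) (Tr.leaf (nat_lit 874649)) (Tr.leaf (nat_lit 874471)))))) (Tr.node (nat_lit 19648) (Tr.node (nat_lit 10048) (Tr.node (nat_lit 4928) (Tr.leaf (nat_lit 218484)) (Tr.leaf (nat_lit 873848))) (Tr.node (nat_lit 1024) (Tr.leaf (nat_lit 853)) (Tr.node (nat_lit 7680) (Tr.leaf (nat_lit 873737)) (Tr.leaf (nat_lit 218399)))))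 (Tr.node (nat_lit 14784) (Tr.node (nat_lit 3392) (Tr.leaf (nat_lit 218395)) (Tr.node (nat_lit 6464) (Tr.leaf (nat_lit 218380)) (Tr.leaf (nat_lit 873404)))) (Tr.node (nat_lit 14080) (Tr.leaf (nat_lit 873315)) (Tr.node (nat_lit 704) (Tr.leaf (nat_lit 852)) (Tr.leaf (nat_lit 218262))))))) (Tr.node (nat_lit 83200) (Tr.node (nat_lit 53760) (Tr.node (nat_lit 39040) (Tr.node (nat_lit 9536) (Tr.leaf (nat_lit 54543)) (Tr.leaf (nat_lit 872517))) (Tr.node (nat_lit 2752) (Tr.leaf (nat_lit 217996)) (Tr.node (nat_lit 8960) (Tr.leaf (nat_lit 217984)) (Tr.leaf (nat_lit 851))))) (Tr.node (nat_lit 14720) (Tr.node (nat_lit 3392) (Tr.leaf (nat_lit 871720)) (Tr.node (nat_lit 6400) (Tr.leaf (nat_lit 217914)) (Tr.leaf (nat_lit 55778796)))) (Tr.node (nat_lit 896) (Tr.leaf (nat_lit 217863)) (Tr.node (nat_lit 8960) (Tr.leaf (nat_lit 54464)) (Tr.leaf (nat_lit 217819)))))) (Tr.node (nat_lit 54464) (Tr.node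 (nat_lit 16128) (Tr.node (nat_lit 6144) (Tr.leaf (nat_lit 3484760)) (Tr.leaf (nat_lit 871079))) (Tr.node (nat_lit 23168) (Tr.leaf (nat_lit 217725)) (Tr.node (nat_lit 14720) (Tr.leaf (nat_lit 870483)) (Tr.leaf (nat_lit 217554))))) (Tr.node (nat_lit 11776) (Tr.node (nat_lit 3072) (Tr.leaf (nat_lit 217552)) (Tr.node (nat_lit 1344) (Tr.leaf (nat_lit 3399)) (Tr.leaf (nat_lit 3480524)))) (Tr.node (nat_lit 11968) (Tr.leaf (nat_lit 869998)) (Tr.node (nat_lit 5184) (Tr.leaf (nat_lit 217446)) (Tr.leaf (nat_lit 869690))))))))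

noncomputable def jt25 : Tr :=
  (Tr.node (nat_lit 166848) (Tr.node (nat_lit 100032) (Tr.node (nat_lit 46528) (Tr.node (nat_lit 24512) (Tr.node (nat_lit 16384) (Tr.leaf (nat_lit 869602)) (Tr.leaf (nat_lit 54331))) (Tr.node (nat_lit 2880) (Tr.leaf (nat_lit 217290)) (Tr.node (nat_lit 16704) (Tr.leaf (nat_lit 212)) (Tr.leaf (nat_lit 217202))))) (Tr.node (nat_lit 22016) (Tr.node (nat_lit 7360) (Tr.leaf (nat_lit 868767)) (Tr.leaf (nat_lit 868635))) (Tr.node (nat_lit 15104) (Tr.leaf (nat_lit 868371)) (Tr.node (nat_lit 1088) (Tr.leaf (nat_lit 3391)) (Tr.leaf (nat_lit 847)))))) (Tr.node (nat_lit 41600) (Tr.node (nat_lit 12544) (Tr.node (nat_lit 4288) (Tr.leaf (nat_lit 216951)) (Tr.leaf (nat_lit 216932))) (Tr.node (nat_lit 14656) (Tr.leaf (nat_lit 216895)) (Tr.node (nat_lit 4928) (Tr.leaf (nat_lit 3469278)) (Tr.leaf (nat_lit 867232))))) (Tr.node (nat_lit 11392) (Tr.node (nat_lit 256)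 (Tr.leaf (nat_lit 211)) (Tr.node (nat_lit 4928) (Tr.leaf (nat_lit 216764)) (Tr.leaf (nat_lit 866969)))) (Tr.node (nat_lit 3520) (Tr.leaf (nat_lit 3386)) (Tr.node (nat_lit 4928) (Tr.leaf (nat_lit 866794)) (Tr.leaf (nat_lit 866707))))))) (Tr.node (nat_lit 83392) (Tr.node (nat_lit 62912) (Tr.node (nat_lit 13376) (Tr.node (nat_lit 1920) (Tr.leaf (nat_lit 216652)) (Tr.leaf (nat_lit 866575))) (Tr.node (nat_lit 20288) (Tr.leaf (nat_lit 216592)) (Tr.node (nat_lit 19520) (Tr.leaf (nat_lit 866008)) (Tr.leaf (nat_lit 216414))))) (Tr.node (nat_lit 14144) (Tr.node (nat_lit 4928) (Tr.leaf (nat_lit 865484)) (Tr.node (nat_lit 7296) (Tr.leaf (nat_lit 865397)) (Tr.leaf (nat_lit 865266)))) (Tr.node (nat_lit 512) (Tr.leaf (nat_lit 844)) (Tr.node (nat_lit 4864) (Tr.leaf (nat_lit 3460892)) (Tr.leaf (nat_lit 216283)))))) (Tr.node (nat_lit 57536) (Tr.node (nat_lit 8768) (Tr.node (nat_lit 2432) (Tr.leaf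 (nat_lit 54069)) (Tr.leaf (nat_lit 216269))) (Tr.node (nat_lit 33216) (Tr.leaf (nat_lit 216240)) (Tr.node (nat_lit 10688) (Tr.leaf (nat_lit 216092)) (Tr.leaf (nat_lit 3456714))))) (Tr.node (nat_lit 37632) (Tr.node (nat_lit 14592) (Tr.leaf (nat_lit 216022)) (Tr.node (nat_lit 6400) (Tr.leaf (nat_lit 3455323)) (Tr.leaf (nat_lit 215929)))) (Tr.node (nat_lit 1280) (Tr.leaf (nat_lit 53963)) (Tr.node (nat_lit 20096) (Tr.leaf (nat_lit 215849)) (Tr.leaf (nat_lit 863038))))))))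

noncomputable def jt26 : Tr :=
  (Tr.node (nat_lit 150208) (Tr.node (nat_lit 72896) (Tr.node (nat_lit 49024) (Tr.node (nat_lit 15424) (Tr.node (nat_lit 14592) (Tr.leaf (nat_lit 862876)) (Tr.leaf (nat_lit 862616))) (Tr.node (nat_lit 18624) (Tr.leaf (nat_lit 210)) (Tr.node (nat_lit 6720) (Tr.leaf (nat_lit 862270)) (Tr.leaf (nat_lit 53884))))) (Tr.node (nat_lit 3968) (Tr.node (nat_lit 320) (Tr.leaf (nat_lit 53875)) (Tr.leaf (nat_lit 841))) (Tr.node (nat_lit 5312) (Tr.leaf (nat_lit 13467)) (Tr.node (nat_lit 8512) (Tr.leaf (nat_lit 215459)) (Tr.leaf (nat_lit 861686)))))) (Tr.node (nat_lit 15296) (Tr.node (nat_lit 5824) (Tr.node (nat_lit 4864) (Tr.leaf (nat_lit 861578)) (Tr.leaf (nat_lit 861491))) (Tr.node (nat_lit 1472) (Tr.leaf (nat_lit 210)) (Tr.node (nat_lit 7296) (Tr.leaf (nat_lit 861448)) (Tr.leaf (nat_lit 215329))))) (Tr.node (nat_lit 35520) (Tr.node (nat_lit 13824) (Tr.leaf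 (nat_lit 53831)) (Tr.node (nat_lit 15296) (Tr.leaf (nat_lit 3444240)) (Tr.leaf (nat_lit 215196)))) (Tr.node (nat_lit 16064) (Tr.leaf (nat_lit 215168)) (Tr.node (nat_lit 5248) (Tr.leaf (nat_lit 3360)) (Tr.leaf (nat_lit 53768))))))) (Tr.node (nat_lit 136064) (Tr.node (nat_lit 111680) (Tr.node (nat_lit 39104) (Tr.node (nat_lit 7616) (Tr.leaf (nat_lit 215050)) (Tr.leaf (nat_lit 860068))) (Tr.node (nat_lit 62912) (Tr.leaf (nat_lit 859509)) (Tr.node (nat_lit 7232) (Tr.leaf (nat_lit 214598)) (Tr.leaf (nat_lit 53641))))) (Tr.node (nat_lit 13120) (Tr.node (nat_lit 3712) (Tr.leaf (nat_lit 214555)) (Tr.node (nat_lit 1152) (Tr.leaf (nat_lit 214538)) (Tr.leaf (nat_lit 3432541)))) (Tr.node (nat_lit 1408) (Tr.leaf (nat_lit 837)) (Tr.node (nat_lit 4800) (Tr.leaf (nat_lit 857963)) (Tr.leaf (nat_lit 857878)))))) (Tr.node (nat_lit 38592) (Tr.node (nat_lit 6208) (Tr.node (nat_lit 128) (Tr.leaf (nat_lit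 209)) (Tr.leaf (nat_lit 214446))) (Tr.node (nat_lit 11712) (Tr.leaf (nat_lit 53604)) (Tr.node (nat_lit 12416) (Tr.leaf (nat_lit 3349)) (Tr.leaf (nat_lit 214313))))) (Tr.node (nat_lit 19008) (Tr.node (nat_lit 9536) (Tr.leaf (nat_lit 214276)) (Tr.node (nat_lit 4800) (Tr.leaf (nat_lit 3427747)) (Tr.leaf (nat_lit 856851)))) (Tr.node (nat_lit 17984) (Tr.leaf (nat_lit 209)) (Tr.node (nat_lit 20800) (Tr.leaf (nat_lit 214112)) (Tr.leaf (nat_lit 856082))))))))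

noncomputable def jt27 : Tr :=
  (Tr.node (nat_lit 158528) (Tr.node (nat_lit 81920) (Tr.node (nat_lit 15808) (Tr.node (nat_lit 9664) (Tr.node (nat_lit 2432) (Tr.leaf (nat_lit 213956)) (Tr.leaf (nat_lit 855784))) (Tr.node (nat_lit 320) (Tr.leaf (nat_lit 213914)) (Tr.node (nat_lit 4480) (Tr.leaf (nat_lit 213912)) (Tr.leaf (nat_lit 3422284))))) (Tr.node (nat_lit 37248) (Tr.node (nat_lit 13120) (Tr.leaf (nat_lit 53471)) (Tr.leaf (nat_lit 855315))) (Tr.node (nat_lit 8128) (Tr.leaf (nat_lit 13678239)) (Tr.node (nat_lit 6272) (Tr.leaf (nat_lit 208)) (Tr.leaf (nat_lit 854634)))))) (Tr.node (nat_lit 33728) (Tr.node (nat_lit 7232) (Tr.node (nat_lit 896) (Tr.leaf (nat_lit 854379)) (Tr.leaf (nat_lit 213590))) (Tr.node (nat_lit 12032) (Tr.leaf (nat_lit 854252)) (Tr.node (nat_lit 2880) (Tr.leaf (nat_lit 854040)) (Tr.leaf (nat_lit 213497))))) (Tr.node (nat_lit 24000) (Tr.node (nat_lit 22528)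 (Tr.leaf (nat_lit 213446)) (Tr.node (nat_lit 1088) (Tr.leaf (nat_lit 213346)) (Tr.leaf (nat_lit 53335)))) (Tr.node (nat_lit 4864) (Tr.leaf (nat_lit 853361)) (Tr.node (nat_lit 9600) (Tr.leaf (nat_lit 213319)) (Tr.leaf (nat_lit 213276))))))) (Tr.node (nat_lit 101248) (Tr.node (nat_lit 58048) (Tr.node (nat_lit 24384) (Tr.node (nat_lit 12672) (Tr.leaf (nat_lit 208)) (Tr.leaf (nat_lit 213201))) (Tr.node (nat_lit 19264) (Tr.leaf (nat_lit 13321)) (Tr.node (nat_lit 6528) (Tr.leaf (nat_lit 213065)) (Tr.leaf (nat_lit 208))))) (Tr.node (nat_lit 24000) (Tr.node (nat_lit 1536) (Tr.leaf (nat_lit 852007)) (Tr.node (nat_lit 8064) (Tr.leaf (nat_lit 53248)) (Tr.leaf (nat_lit 851838)))) (Tr.node (nat_lit 4800) (Tr.leaf (nat_lit 851584)) (Tr.node (nat_lit 9600) (Tr.leaf (nat_lit 3406001)) (Tr.leaf (nat_lit 851331)))))) (Tr.node (nat_lit 31872) (Tr.node (nat_lit 13184) (Tr.node (nat_lit 9600) (Tr.leaf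 (nat_lit 212811)) (Tr.leaf (nat_lit 212769))) (Tr.node (nat_lit 7488) (Tr.leaf (nat_lit 851015)) (Tr.node (nat_lit 3264) (Tr.leaf (nat_lit 212720)) (Tr.leaf (nat_lit 3403302))))) (Tr.node (nat_lit 25664) (Tr.node (nat_lit 6464) (Tr.leaf (nat_lit 212671)) (Tr.node (nat_lit 4800) (Tr.leaf (nat_lit 212643)) (Tr.leaf (nat_lit 3401954)))) (Tr.node (nat_lit 8832) (Tr.leaf (nat_lit 212559)) (Tr.node (nat_lit 704) (Tr.leaf (nat_lit 830)) (Tr.leaf (nat_lit 850067))))))))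

noncomputable def jt28 : Tr :=
  (Tr.node (nat_lit 162304) (Tr.node (nat_lit 88576) (Tr.node (nat_lit 50240) (Tr.node (nat_lit 12672) (Tr.node (nat_lit 9600) (Tr.leaf (nat_lit 849983)) (Tr.leaf (nat_lit 3399261))) (Tr.node (nat_lit 11264) (Tr.leaf (nat_lit 53110)) (Tr.node (nat_lit 14400) (Tr.leaf (nat_lit 212390)) (Tr.leaf (nat_lit 849311))))) (Tr.node (nat_lit 24512) (Tr.node (nat_lit 9600) (Tr.leaf (nat_lit 207)) (Tr.leaf (nat_lit 848933))) (Tr.node (nat_lit 8704) (Tr.leaf (nat_lit 828)) (Tr.node (nat_lit 2688) (Tr.leaf (nat_lit 212129)) (Tr.leaf (nat_lit 848472)))))) (Tr.node (nat_lit 39616) (Tr.node (nat_lit 11904) (Tr.node (nat_lit 7168) (Tr.leaf (nat_lit 53026)) (Tr.leaf (nat_lit 848304))) (Tr.node (nat_lit 14336) (Tr.leaf (nat_lit 848221)) (Tr.node (nat_lit 12288) (Tr.leaf (nat_lit 847969)) (Tr.leaf (nat_lit 52984))))) (Tr.node (nat_lit 24832) (Tr.node (nat_lit 960)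 (Tr.leaf (nat_lit 13245)) (Tr.node (nat_lit 14336) (Tr.leaf (nat_lit 211929)) (Tr.leaf (nat_lit 3389871)))) (Tr.node (nat_lit 4800) (Tr.leaf (nat_lit 847300)) (Tr.node (nat_lit 3712) (Tr.leaf (nat_lit 211804)) (Tr.leaf (nat_lit 206))))))) (Tr.node (nat_lit 90944) (Tr.node (nat_lit 48000) (Tr.node (nat_lit 9856) (Tr.node (nat_lit 5056) (Tr.leaf (nat_lit 211784)) (Tr.leaf (nat_lit 211762))) (Tr.node (nat_lit 12096) (Tr.leaf (nat_lit 846966)) (Tr.node (nat_lit 12224) (Tr.leaf (nat_lit 211688)) (Tr.leaf (nat_lit 52908))))) (Tr.node (nat_lit 14336) (Tr.node (nat_lit 4800) (Tr.leaf (nat_lit 3385195)) (Tr.node (nat_lit 1984) (Tr.leaf (nat_lit 211553)) (Tr.leaf (nat_lit 826)))) (Tr.node (nat_lit 3520) (Tr.leaf (nat_lit 846048)) (Tr.node (nat_lit 10752) (Tr.leaf (nat_lit 206)) (Tr.leaf (nat_lit 845798)))))) (Tr.node (nat_lit 40448) (Tr.node (nat_lit 19008) (Tr.node (nat_lit 17088) (Tr.leaf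 (nat_lit 211387)) (Tr.leaf (nat_lit 3301))) (Tr.node (nat_lit 9536) (Tr.leaf (nat_lit 211304)) (Tr.node (nat_lit 6720) (Tr.leaf (nat_lit 845050)) (Tr.leaf (nat_lit 211233))))) (Tr.node (nat_lit 21440) (Tr.node (nat_lit 2368) (Tr.leaf (nat_lit 844842)) (Tr.node (nat_lit 4800) (Tr.leaf (nat_lit 3379203)) (Tr.leaf (nat_lit 211179)))) (Tr.node (nat_lit 19584) (Tr.leaf (nat_lit 844468)) (Tr.node (nat_lit 4224) (Tr.leaf (nat_lit 52757)) (Tr.leaf (nat_lit 211013))))))))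

noncomputable def jt29 : Tr :=
  (Tr.node (nat_lit 151936) (Tr.node (nat_lit 70656) (Tr.node (nat_lit 45184) (Tr.node (nat_lit 28544) (Tr.node (nat_lit 14272) (Tr.leaf (nat_lit 843970)) (Tr.leaf (nat_lit 210930))) (Tr.node (nat_lit 9472) (Tr.leaf (nat_lit 3373894)) (Tr.node (nat_lit 1664) (Tr.leaf (nat_lit 843307)) (Tr.leaf (nat_lit 823))))) (Tr.node (nat_lit 13056) (Tr.node (nat_lit 11840) (Tr.leaf (nat_lit 843183)) (Tr.leaf (nat_lit 842976))) (Tr.node (nat_lit 1024) (Tr.leaf (nat_lit 205)) (Tr.node (nat_lit 7296) (Tr.leaf (nat_lit 210734)) (Tr.leaf (nat_lit 13484983)))))) (Tr.node (nat_lit 45696) (Tr.node (nat_lit 14848) (Tr.node (nat_lit 640) (Tr.leaf (nat_lit 52671)) (Tr.leaf (nat_lit 210682))) (Tr.node (nat_lit 576) (Tr.leaf (nat_lit 842480)) (Tr.node (nat_lit 13696) (Tr.leaf (nat_lit 822)) (Tr.leaf (nat_lit 842233))))) (Tr.node (nat_lit 11904) (Tr.node (nat_lit 7168) (Tr.leaf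 (nat_lit 841944)) (Tr.node (nat_lit 1152) (Tr.leaf (nat_lit 841820)) (Tr.leaf (nat_lit 841799)))) (Tr.node (nat_lit 384) (Tr.leaf (nat_lit 841737)) (Tr.node (nat_lit 13824) (Tr.leaf (nat_lit 210432)) (Tr.leaf (nat_lit 13463847))))))) (Tr.node (nat_lit 85312) (Tr.node (nat_lit 47424) (Tr.node (nat_lit 11840) (Tr.node (nat_lit 4736) (Tr.leaf (nat_lit 841325)) (Tr.leaf (nat_lit 210310))) (Tr.node (nat_lit 4480) (Tr.leaf (nat_lit 841119)) (Tr.node (nat_lit 13632) (Tr.leaf (nat_lit 210260)) (Tr.leaf (nat_lit 52550))))) (Tr.node (nat_lit 16064) (Tr.node (nat_lit 9472) (Tr.leaf (nat_lit 3362009)) (Tr.node (nat_lit 4736) (Tr.leaf (nat_lit 840337)) (Tr.leaf (nat_lit 210063)))) (Tr.node (nat_lit 5248) (Tr.leaf (nat_lit 52513)) (Tr.node (nat_lit 2368) (Tr.leaf (nat_lit 840132)) (Tr.leaf (nat_lit 840091)))))) (Tr.node (nat_lit 85120) (Tr.node (nat_lit 33088) (Tr.node (nat_lit 20864) (Tr.leaf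 (nat_lit 839844)) (Tr.leaf (nat_lit 819))) (Tr.node (nat_lit 37824) (Tr.leaf (nat_lit 839270)) (Tr.node (nat_lit 7296) (Tr.leaf (nat_lit 209653)) (Tr.leaf (nat_lit 3275))))) (Tr.node (nat_lit 25792) (Tr.node (nat_lit 4672) (Tr.leaf (nat_lit 838369)) (Tr.node (nat_lit 14208) (Tr.leaf (nat_lit 209571)) (Tr.leaf (nat_lit 3352169)))) (Tr.node (nat_lit 320) (Tr.leaf (nat_lit 52370)) (Tr.node (nat_lit 2176) (Tr.leaf (nat_lit 204)) (Tr.leaf (nat_lit 13091))))))))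

noncomputable def jt30 : Tr :=
  (Tr.node (nat_lit 155584) (Tr.node (nat_lit 61888) (Tr.node (nat_lit 24448) (Tr.node (nat_lit 14144) (Tr.node (nat_lit 9472) (Tr.leaf (nat_lit 209449)) (Tr.leaf (nat_lit 837633))) (Tr.node (nat_lit 8576) (Tr.leaf (nat_lit 3350208)) (Tr.node (nat_lit 896) (Tr.leaf (nat_lit 209351)) (Tr.leaf (nat_lit 837388))))) (Tr.node (nat_lit 18048) (Tr.node (nat_lit 3904) (Tr.leaf (nat_lit 52335)) (Tr.leaf (nat_lit 209326))) (Tr.node (nat_lit 5504) (Tr.leaf (nat_lit 837062)) (Tr.node (nat_lit 13056) (Tr.leaf (nat_lit 817)) (Tr.leaf (nat_lit 209185)))))) (Tr.node (nat_lit 37184) (Tr.node (nat_lit 23040) (Tr.node (nat_lit 4160) (Tr.leaf (nat_lit 52295)) (Tr.leaf (nat_lit 209163))) (Tr.node (nat_lit 9408) (Tr.leaf (nat_lit 209082)) (Tr.node (nat_lit 2048) (Tr.leaf (nat_lit 209041)) (Tr.leaf (nat_lit 209032))))) (Tr.node (nat_lit 34112) (Tr.node (nat_lit 3200)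 (Tr.leaf (nat_lit 836084)) (Tr.node (nat_lit 25024) (Tr.leaf (nat_lit 209007)) (Tr.leaf (nat_lit 3342387)))) (Tr.node (nat_lit 3584) (Tr.leaf (nat_lit 835495)) (Tr.node (nat_lit 4672) (Tr.leaf (nat_lit 835434)) (Tr.leaf (nat_lit 835352))))))) (Tr.node (nat_lit 79936) (Tr.node (nat_lit 32768) (Tr.node (nat_lit 14080) (Tr.node (nat_lit 9408) (Tr.leaf (nat_lit 835109)) (Tr.leaf (nat_lit 3339787))) (Tr.node (nat_lit 7808) (Tr.leaf (nat_lit 208716)) (Tr.node (nat_lit 2176) (Tr.leaf (nat_lit 203)) (Tr.leaf (nat_lit 815))))) (Tr.node (nat_lit 33088) (Tr.node (nat_lit 9536) (Tr.leaf (nat_lit 208635)) (Tr.node (nat_lit 14144) (Tr.leaf (nat_lit 834379)) (Tr.leaf (nat_lit 834136)))) (Tr.node (nat_lit 1984) (Tr.leaf (nat_lit 3335896)) (Tr.node (nat_lit 2688) (Tr.leaf (nat_lit 814)) (Tr.leaf (nat_lit 208473)))))) (Tr.node (nat_lit 32896) (Tr.node (nat_lit 21120) (Tr.node (nat_lit 12416) (Tr.leaf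 (nat_lit 208432)) (Tr.leaf (nat_lit 3255))) (Tr.node (nat_lit 5120) (Tr.leaf (nat_lit 833367)) (Tr.node (nat_lit 1920) (Tr.leaf (nat_lit 208319)) (Tr.leaf (nat_lit 833246))))) (Tr.node (nat_lit 19072) (Tr.node (nat_lit 6720) (Tr.leaf (nat_lit 833165)) (Tr.node (nat_lit 7360) (Tr.leaf (nat_lit 208262)) (Tr.leaf (nat_lit 208230)))) (Tr.node (nat_lit 9088) (Tr.leaf (nat_lit 208209)) (Tr.node (nat_lit 3712) (Tr.leaf (nat_lit 832680)) (Tr.leaf (nat_lit 208154))))))))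

noncomputable def jt31 : Tr :=
  (Tr.node (nat_lit 207552) (Tr.node (nat_lit 98304) (Tr.node (nat_lit 60864) (Tr.node (nat_lit 15744) (Tr.node (nat_lit 13952) (Tr.leaf (nat_lit 203)) (Tr.leaf (nat_lit 208069))) (Tr.node (nat_lit 2880) (Tr.leaf (nat_lit 203)) (Tr.node (nat_lit 37504) (Tr.leaf (nat_lit 832196)) (Tr.leaf (nat_lit 831552))))) (Tr.node (nat_lit 9344) (Tr.node (nat_lit 4800) (Tr.leaf (nat_lit 207867)) (Tr.leaf (nat_lit 207847))) (Tr.node (nat_lit 14080) (Tr.leaf (nat_lit 207827)) (Tr.node (nat_lit 4672) (Tr.leaf (nat_lit 13297112)) (Tr.leaf (nat_lit 207747)))))) (Tr.node (nat_lit 48320) (Tr.node (nat_lit 18752) (Tr.node (nat_lit 4672) (Tr.leaf (nat_lit 830828)) (Tr.leaf (nat_lit 3322992))) (Tr.node (nat_lit 14016) (Tr.leaf (nat_lit 207626)) (Tr.node (nat_lit 6400) (Tr.leaf (nat_lit 830266)) (Tr.leaf (nat_lit 12971))))) (Tr.node (nat_lit 21888) (Tr.node (nat_lit 9024)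 (Tr.leaf (nat_lit 202)) (Tr.node (nat_lit 3520) (Tr.leaf (nat_lit 829845)) (Tr.leaf (nat_lit 3319140)))) (Tr.node (nat_lit 4672) (Tr.leaf (nat_lit 829624)) (Tr.node (nat_lit 9344) (Tr.leaf (nat_lit 829544)) (Tr.leaf (nat_lit 207346))))))) (Tr.node (nat_lit 63552) (Tr.node (nat_lit 24000) (Tr.node (nat_lit 7680) (Tr.node (nat_lit 6208) (Tr.leaf (nat_lit 202)) (Tr.leaf (nat_lit 51803))) (Tr.node (nat_lit 9344) (Tr.leaf (nat_lit 828824)) (Tr.node (nat_lit 6912) (Tr.leaf (nat_lit 828664)) (Tr.leaf (nat_lit 809))))) (Tr.node (nat_lit 25664) (Tr.node (nat_lit 7040) (Tr.leaf (nat_lit 828544)) (Tr.node (nat_lit 14016) (Tr.leaf (nat_lit 207106)) (Tr.leaf (nat_lit 828184)))) (Tr.node (nat_lit 11840) (Tr.leaf (nat_lit 828105)) (Tr.node (nat_lit 1024) (Tr.leaf (nat_lit 808)) (Tr.leaf (nat_lit 827885)))))) (Tr.node (nat_lit 51456) (Tr.node (nat_lit 28096) (Tr.node (nat_lit 17344) (Tr.leaf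 (nat_lit 206966)) (Tr.leaf (nat_lit 206892))) (Tr.node (nat_lit 14016) (Tr.leaf (nat_lit 827387)) (Tr.node (nat_lit 4352) (Tr.leaf (nat_lit 827148)) (Tr.leaf (nat_lit 206768))))) (Tr.node (nat_lit 13952) (Tr.node (nat_lit 4608) (Tr.leaf (nat_lit 826988)) (Tr.node (nat_lit 896) (Tr.leaf (nat_lit 3307637)) (Tr.leaf (nat_lit 51680)))) (Tr.node (nat_lit 2944) (Tr.leaf (nat_lit 826750)) (Tr.node (nat_lit 1728) (Tr.leaf (nat_lit 826700)) (Tr.leaf (nat_lit 206667))))))))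

noncomputable def jt32 : Tr :=
  (Tr.node (nat_lit 200320) (Tr.node (nat_lit 129920) (Tr.node (nat_lit 66368) (Tr.node (nat_lit 14464) (Tr.node (nat_lit 6016) (Tr.leaf (nat_lit 201)) (Tr.leaf (nat_lit 206544))) (Tr.node (nat_lit 13952) (Tr.leaf (nat_lit 206508)) (Tr.node (nat_lit 20928) (Tr.leaf (nat_lit 825796)) (Tr.leaf (nat_lit 51589))))) (Tr.node (nat_lit 18176) (Tr.node (nat_lit 9472) (Tr.leaf (nat_lit 206287)) (Tr.node (nat_lit 8384) (Tr.leaf (nat_lit 805)) (Tr.leaf (nat_lit 824844)))) (Tr.node (nat_lit 20416) (Tr.leaf (nat_lit 206209)) (Tr.node (nat_lit 3328) (Tr.leaf (nat_lit 3220)) (Tr.leaf (nat_lit 201)))))) (Tr.node (nat_lit 33216) (Tr.node (nat_lit 14720) (Tr.node (nat_lit 10048) (Tr.leaf (nat_lit 201)) (Tr.leaf (nat_lit 823895))) (Tr.node (nat_lit 9280) (Tr.leaf (nat_lit 205954)) (Tr.node (nat_lit 8384) (Tr.leaf (nat_lit 205914)) (Tr.leaf (nat_lit 12867))))) (Tr.node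 (nat_lit 23232) (Tr.node (nat_lit 4672) (Tr.leaf (nat_lit 201)) (Tr.node (nat_lit 4672) (Tr.leaf (nat_lit 13174746)) (Tr.leaf (nat_lit 205835)))) (Tr.node (nat_lit 6976) (Tr.leaf (nat_lit 823106)) (Tr.node (nat_lit 2304) (Tr.leaf (nat_lit 822987)) (Tr.leaf (nat_lit 822948))))))) (Tr.node (nat_lit 101632) (Tr.node (nat_lit 47360) (Tr.node (nat_lit 13888) (Tr.node (nat_lit 13440) (Tr.leaf (nat_lit 822869)) (Tr.leaf (nat_lit 51415))) (Tr.node (nat_lit 15360) (Tr.leaf (nat_lit 822633)) (Tr.node (nat_lit 12480) (Tr.leaf (nat_lit 205593)) (Tr.leaf (nat_lit 3288642))))) (Tr.node (nat_lit 29376) (Tr.node (nat_lit 3584) (Tr.leaf (nat_lit 205516)) (Tr.node (nat_lit 13952) (Tr.leaf (nat_lit 3288013)) (Tr.leaf (nat_lit 205441)))) (Tr.node (nat_lit 6656) (Tr.leaf (nat_lit 51347)) (Tr.node (nat_lit 9280) (Tr.leaf (nat_lit 205363)) (Tr.leaf (nat_lit 205323)))))) (Tr.node (nat_lit 32640) (Tr.node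 (nat_lit 9536) (Tr.node (nat_lit 2560) (Tr.leaf (nat_lit 205285)) (Tr.leaf (nat_lit 821099))) (Tr.node (nat_lit 12672) (Tr.leaf (nat_lit 205245)) (Tr.node (nat_lit 4288) (Tr.leaf (nat_lit 200)) (Tr.leaf (nat_lit 200))))) (Tr.node (nat_lit 32384) (Tr.node (nat_lit 3456) (Tr.leaf (nat_lit 820589)) (Tr.node (nat_lit 1152) (Tr.leaf (nat_lit 820531)) (Tr.leaf (nat_lit 820511)))) (Tr.node (nat_lit 9216) (Tr.leaf (nat_lit 820041)) (Tr.node (nat_lit 3520) (Tr.leaf (nat_lit 204971)) (Tr.leaf (nat_lit 800))))))))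

noncomputable def jt33 : Tr :=
  (Tr.node (nat_lit 109888) (Tr.node (nat_lit 64640) (Tr.node (nat_lit 29632) (Tr.node (nat_lit 23232) (Tr.node (nat_lit 13888) (Tr.leaf (nat_lit 819337)) (Tr.leaf (nat_lit 204775))) (Tr.node (nat_lit 192) (Tr.leaf (nat_lit 199)) (Tr.node (nat_lit 4288) (Tr.leaf (nat_lit 204735)) (Tr.leaf (nat_lit 818868))))) (Tr.node (nat_lit 8192) (Tr.node (nat_lit 4736) (Tr.leaf (nat_lit 51177)) (Tr.leaf (nat_lit 199))) (Tr.node (nat_lit 17600) (Tr.leaf (nat_lit 204674)) (Tr.node (nat_lit 6912) (Tr.leaf (nat_lit 52378448)) (Tr.leaf (nat_lit 818283)))))) (Tr.node (nat_lit 16384) (Tr.node (nat_lit 4608) (Tr.node (nat_lit 192) (Tr.leaf (nat_lit 818244)) (Tr.leaf (nat_lit 204560))) (Tr.node (nat_lit 6848) (Tr.leaf (nat_lit 204541)) (Tr.node (nat_lit 2368) (Tr.leaf (nat_lit 51128)) (Tr.leaf (nat_lit 204502))))) (Tr.node (nat_lit 12992) (Tr.node (nat_lit 2048) (Tr.leaf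 (nat_lit 204491)) (Tr.node (nat_lit 9216) (Tr.leaf (nat_lit 817933)) (Tr.leaf (nat_lit 3271109)))) (Tr.node (nat_lit 2880) (Tr.leaf (nat_lit 817748)) (Tr.node (nat_lit 9216) (Tr.leaf (nat_lit 817699)) (Tr.leaf (nat_lit 817543))))))) (Tr.node (nat_lit 74240) (Tr.node (nat_lit 21568) (Tr.node (nat_lit 8640) (Tr.node (nat_lit 5632) (Tr.leaf (nat_lit 204370)) (Tr.leaf (nat_lit 798))) (Tr.node (nat_lit 1408) (Tr.leaf (nat_lit 199)) (Tr.node (nat_lit 4288) (Tr.leaf (nat_lit 817310)) (Tr.leaf (nat_lit 204309))))) (Tr.node (nat_lit 6912) (Tr.node (nat_lit 2240) (Tr.leaf (nat_lit 817116)) (Tr.node (nat_lit 64) (Tr.leaf (nat_lit 51067)) (Tr.leaf (nat_lit 204269)))) (Tr.node (nat_lit 6016) (Tr.leaf (nat_lit 816999)) (Tr.node (nat_lit 21568) (Tr.leaf (nat_lit 204224)) (Tr.leaf (nat_lit 3266134)))))) (Tr.node (nat_lit 32448) (Tr.node (nat_lit 9472) (Tr.node (nat_lit 4864) (Tr.leaf (nat_lit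 797)) (Tr.leaf (nat_lit 816145))) (Tr.node (nat_lit 9152) (Tr.leaf (nat_lit 816068)) (Tr.node (nat_lit 4608) (Tr.leaf (nat_lit 13054611)) (Tr.leaf (nat_lit 203958))))) (Tr.node (nat_lit 21056) (Tr.node (nat_lit 4608) (Tr.leaf (nat_lit 203920)) (Tr.node (nat_lit 9152) (Tr.leaf (nat_lit 815603)) (Tr.leaf (nat_lit 815448)))) (Tr.node (nat_lit 4288) (Tr.leaf (nat_lit 199)) (Tr.node (nat_lit 6208) (Tr.leaf (nat_lit 199)) (Tr.leaf (nat_lit 50946))))))))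

noncomputable def jt34 : Tr :=
  (Tr.node (nat_lit 181120) (Tr.node (nat_lit 82560) (Tr.node (nat_lit 50560) (Tr.node (nat_lit 4928) (Tr.node (nat_lit 512) (Tr.leaf (nat_lit 815138)) (Tr.leaf (nat_lit 12736))) (Tr.node (nat_lit 4288) (Tr.leaf (nat_lit 203764)) (Tr.node (nat_lit 18368) (Tr.leaf (nat_lit 3259937)) (Tr.leaf (nat_lit 3258700))))) (Tr.node (nat_lit 8064) (Tr.node (nat_lit 6016) (Tr.leaf (nat_lit 814288)) (Tr.leaf (nat_lit 203546))) (Tr.node (nat_lit 10176) (Tr.leaf (nat_lit 795)) (Tr.node (nat_lit 7808) (Tr.leaf (nat_lit 50873)) (Tr.leaf (nat_lit 203462)))))) (Tr.node (nat_lit 58240) (Tr.node (nat_lit 13824) (Tr.node (nat_lit 64) (Tr.leaf (nat_lit 3178)) (Tr.leaf (nat_lit 3254996))) (Tr.node (nat_lit 384) (Tr.leaf (nat_lit 203379)) (Tr.node (nat_lit 36288) (Tr.leaf (nat_lit 50844)) (Tr.leaf (nat_lit 203225))))) (Tr.node (nat_lit 20032) (Tr.node (nat_lit 6144) (Tr.leaf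 (nat_lit 203193)) (Tr.node (nat_lit 4416) (Tr.leaf (nat_lit 50791)) (Tr.leaf (nat_lit 812594)))) (Tr.node (nat_lit 4288) (Tr.leaf (nat_lit 203108)) (Tr.node (nat_lit 9152) (Tr.leaf (nat_lit 812363)) (Tr.leaf (nat_lit 3248840))))))) (Tr.node (nat_lit 80064) (Tr.node (nat_lit 38592) (Tr.node (nat_lit 11456) (Tr.node (nat_lit 10624) (Tr.leaf (nat_lit 198)) (Tr.leaf (nat_lit 3171))) (Tr.node (nat_lit 5696) (Tr.leaf (nat_lit 3247612)) (Tr.node (nat_lit 17152) (Tr.leaf (nat_lit 198)) (Tr.leaf (nat_lit 811519))))) (Tr.node (nat_lit 14016) (Tr.node (nat_lit 320) (Tr.leaf (nat_lit 202861)) (Tr.node (nat_lit 9152) (Tr.leaf (nat_lit 811442)) (Tr.leaf (nat_lit 811289)))) (Tr.node (nat_lit 9152) (Tr.leaf (nat_lit 202803)) (Tr.node (nat_lit 12800) (Tr.leaf (nat_lit 811059)) (Tr.leaf (nat_lit 791)))))) (Tr.node (nat_lit 29952) (Tr.node (nat_lit 9088) (Tr.node (nat_lit 3200) (Tr.leaf (nat_lit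 810753)) (Tr.leaf (nat_lit 202674))) (Tr.node (nat_lit 4608) (Tr.leaf (nat_lit 202650)) (Tr.node (nat_lit 13696) (Tr.leaf (nat_lit 810524)) (Tr.leaf (nat_lit 202573))))) (Tr.node (nat_lit 28992) (Tr.node (nat_lit 21632) (Tr.leaf (nat_lit 202562)) (Tr.node (nat_lit 3200) (Tr.leaf (nat_lit 197)) (Tr.leaf (nat_lit 202459)))) (Tr.node (nat_lit 9536) (Tr.leaf (nat_lit 50610)) (Tr.node (nat_lit 13696) (Tr.leaf (nat_lit 809607)) (Tr.leaf (nat_lit 202344))))))))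

noncomputable def jt35 : Tr :=
  (Tr.node (nat_lit 153408) (Tr.node (nat_lit 76160) (Tr.node (nat_lit 39744) (Tr.node (nat_lit 7808) (Tr.node (nat_lit 320) (Tr.leaf (nat_lit 202339)) (Tr.leaf (nat_lit 790))) (Tr.node (nat_lit 18240) (Tr.leaf (nat_lit 809226)) (Tr.node (nat_lit 9152) (Tr.leaf (nat_lit 808921)) (Tr.leaf (nat_lit 808768))))) (Tr.node (nat_lit 22784) (Tr.node (nat_lit 13632) (Tr.leaf (nat_lit 808692)) (Tr.leaf (nat_lit 3233857))) (Tr.node (nat_lit 4544) (Tr.leaf (nat_lit 202078)) (Tr.node (nat_lit 3264) (Tr.leaf (nat_lit 808236)) (Tr.leaf (nat_lit 197)))))) (Tr.node (nat_lit 34176) (Tr.node (nat_lit 10624) (Tr.node (nat_lit 4544) (Tr.leaf (nat_lit 808084)) (Tr.leaf (nat_lit 202002))) (Tr.node (nat_lit 7616) (Tr.leaf (nat_lit 50494)) (Tr.node (nat_lit 9088) (Tr.leaf (nat_lit 807780)) (Tr.leaf (nat_lit 807628))))) (Tr.node (nat_lit 20480) (Tr.node (nat_lit 6784) (Tr.leaf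 (nat_lit 807514)) (Tr.node (nat_lit 4544) (Tr.leaf (nat_lit 201850)) (Tr.leaf (nat_lit 12917194)))) (Tr.node (nat_lit 832) (Tr.leaf (nat_lit 807172)) (Tr.node (nat_lit 10688) (Tr.leaf (nat_lit 201789)) (Tr.leaf (nat_lit 201745))))))) (Tr.node (nat_lit 72832) (Tr.node (nat_lit 33408) (Tr.node (nat_lit 18304) (Tr.node (nat_lit 6656) (Tr.leaf (nat_lit 50424)) (Tr.leaf (nat_lit 201671))) (Tr.node (nat_lit 4544) (Tr.leaf (nat_lit 201622)) (Tr.node (nat_lit 9088) (Tr.leaf (nat_lit 806415)) (Tr.leaf (nat_lit 806263))))) (Tr.node (nat_lit 12160) (Tr.node (nat_lit 512) (Tr.leaf (nat_lit 3149)) (Tr.node (nat_lit 8256) (Tr.leaf (nat_lit 201557)) (Tr.leaf (nat_lit 806093)))) (Tr.node (nat_lit 4544) (Tr.leaf (nat_lit 201509)) (Tr.node (nat_lit 9088) (Tr.leaf (nat_lit 805961)) (Tr.leaf (nat_lit 3223239)))))) (Tr.node (nat_lit 55744) (Tr.node (nat_lit 18112) (Tr.node (nat_lit 4544) (Tr.leaf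 (nat_lit 201395)) (Tr.leaf (nat_lit 3222030))) (Tr.node (nat_lit 6848) (Tr.leaf (nat_lit 201320)) (Tr.node (nat_lit 19520) (Tr.leaf (nat_lit 50322)) (Tr.leaf (nat_lit 201210))))) (Tr.node (nat_lit 31296) (Tr.node (nat_lit 12288) (Tr.leaf (nat_lit 196)) (Tr.node (nat_lit 14272) (Tr.leaf (nat_lit 804451)) (Tr.leaf (nat_lit 201053)))) (Tr.node (nat_lit 8192) (Tr.leaf (nat_lit 785)) (Tr.node (nat_lit 5696) (Tr.leaf (nat_lit 803999)) (Tr.leaf (nat_lit 50244))))))))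

noncomputable def jt36 : Tr :=
  (Tr.node (nat_lit 122176) (Tr.node (nat_lit 65024) (Tr.node (nat_lit 24896) (Tr.node (nat_lit 13632) (Tr.node (nat_lit 4544) (Tr.leaf (nat_lit 200943)) (Tr.leaf (nat_lit 12859183))) (Tr.node (nat_lit 4480) (Tr.leaf (nat_lit 803548)) (Tr.node (nat_lit 1856) (Tr.leaf (nat_lit 200868)) (Tr.leaf (nat_lit 200860))))) (Tr.node (nat_lit 12736) (Tr.node (nat_lit 2304) (Tr.leaf (nat_lit 803360)) (Tr.leaf (nat_lit 803323))) (Tr.node (nat_lit 3136) (Tr.leaf (nat_lit 200787)) (Tr.node (nat_lit 18112) (Tr.leaf (nat_lit 3212391)) (Tr.leaf (nat_lit 3211190)))))) (Tr.node (nat_lit 23232) (Tr.node (nat_lit 7424) (Tr.node (nat_lit 6336) (Tr.leaf (nat_lit 195)) (Tr.leaf (nat_lit 783))) (Tr.node (nat_lit 7616) (Tr.leaf (nat_lit 802572)) (Tr.node (nat_lit 5952) (Tr.leaf (nat_lit 200611)) (Tr.leaf (nat_lit 802347))))) (Tr.node (nat_lit 11328) (Tr.node (nat_lit 5952)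 (Tr.leaf (nat_lit 802310)) (Tr.node (nat_lit 832) (Tr.leaf (nat_lit 200552)) (Tr.leaf (nat_lit 802197)))) (Tr.node (nat_lit 9024) (Tr.leaf (nat_lit 200530)) (Tr.node (nat_lit 4544) (Tr.leaf (nat_lit 200493)) (Tr.leaf (nat_lit 3207593))))))) (Tr.node (nat_lit 81280) (Tr.node (nat_lit 31296) (Tr.node (nat_lit 18048) (Tr.node (nat_lit 14400) (Tr.leaf (nat_lit 801748)) (Tr.leaf (nat_lit 200377))) (Tr.node (nat_lit 9024) (Tr.leaf (nat_lit 801449)) (Tr.node (nat_lit 4160) (Tr.leaf (nat_lit 12820797)) (Tr.leaf (nat_lit 195))))) (Tr.node (nat_lit 32320) (Tr.node (nat_lit 9344) (Tr.leaf (nat_lit 200307)) (Tr.node (nat_lit 13568) (Tr.leaf (nat_lit 200268)) (Tr.leaf (nat_lit 800851)))) (Tr.node (nat_lit 4096) (Tr.leaf (nat_lit 781)) (Tr.node (nat_lit 2112) (Tr.leaf (nat_lit 200156)) (Tr.leaf (nat_lit 200148)))))) (Tr.node (nat_lit 45888) (Tr.node (nat_lit 13504) (Tr.node (nat_lit 4480)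 (Tr.leaf (nat_lit 800403)) (Tr.leaf (nat_lit 200082))) (Tr.node (nat_lit 18048) (Tr.leaf (nat_lit 800180)) (Tr.node (nat_lit 13504) (Tr.leaf (nat_lit 199970)) (Tr.leaf (nat_lit 799658))))) (Tr.node (nat_lit 13312) (Tr.node (nat_lit 8192) (Tr.leaf (nat_lit 799644)) (Tr.node (nat_lit 4480) (Tr.leaf (nat_lit 3198039)) (Tr.leaf (nat_lit 799435)))) (Tr.node (nat_lit 768) (Tr.leaf (nat_lit 195)) (Tr.node (nat_lit 4544) (Tr.leaf (nat_lit 199853)) (Tr.leaf (nat_lit 199834))))))))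

noncomputable def jt37 : Tr :=
  (Tr.node (nat_lit 125120) (Tr.node (nat_lit 53184) (Tr.node (nat_lit 23936) (Tr.node (nat_lit 3648) (Tr.node (nat_lit 3264) (Tr.leaf (nat_lit 199818)) (Tr.leaf (nat_lit 12487))) (Tr.node (nat_lit 6848) (Tr.leaf (nat_lit 799212)) (Tr.node (nat_lit 2176) (Tr.leaf (nat_lit 49943)) (Tr.leaf (nat_lit 3196254))))) (Tr.node (nat_lit 6784) (Tr.node (nat_lit 2240) (Tr.leaf (nat_lit 798877)) (Tr.leaf (nat_lit 199710))) (Tr.node (nat_lit 8960) (Tr.leaf (nat_lit 798766)) (Tr.node (nat_lit 11904) (Tr.leaf (nat_lit 798617)) (Tr.leaf (nat_lit 3118)))))) (Tr.node (nat_lit 40512) (Tr.node (nat_lit 12224) (Tr.node (nat_lit 4480) (Tr.leaf (nat_lit 798395)) (Tr.leaf (nat_lit 3193284))) (Tr.node (nat_lit 13376) (Tr.leaf (nat_lit 199548)) (Tr.node (nat_lit 5888) (Tr.leaf (nat_lit 199493)) (Tr.leaf (nat_lit 797876))))) (Tr.node (nat_lit 13440) (Tr.node (nat_lit 4480)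 (Tr.leaf (nat_lit 3190911)) (Tr.node (nat_lit 3648) (Tr.leaf (nat_lit 797653)) (Tr.leaf (nat_lit 778)))) (Tr.node (nat_lit 4480) (Tr.leaf (nat_lit 199376)) (Tr.node (nat_lit 6464) (Tr.leaf (nat_lit 797431)) (Tr.leaf (nat_lit 199331))))))) (Tr.node (nat_lit 107712) (Tr.node (nat_lit 69696) (Tr.node (nat_lit 26944) (Tr.node (nat_lit 13504) (Tr.leaf (nat_lit 797209)) (Tr.leaf (nat_lit 796987))) (Tr.node (nat_lit 26944) (Tr.leaf (nat_lit 199191)) (Tr.node (nat_lit 8960) (Tr.leaf (nat_lit 796322)) (Tr.leaf (nat_lit 199043))))) (Tr.node (nat_lit 9472) (Tr.node (nat_lit 2240) (Tr.leaf (nat_lit 49753)) (Tr.node (nat_lit 4416) (Tr.leaf (nat_lit 199006)) (Tr.leaf (nat_lit 3183815)))) (Tr.node (nat_lit 10624) (Tr.leaf (nat_lit 194)) (Tr.node (nat_lit 4480) (Tr.leaf (nat_lit 795732)) (Tr.leaf (nat_lit 795659)))))) (Tr.node (nat_lit 32512) (Tr.node (nat_lit 8000) (Tr.node (nat_lit 640) (Tr.leaf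 (nat_lit 198859)) (Tr.leaf (nat_lit 776))) (Tr.node (nat_lit 5440) (Tr.leaf (nat_lit 198826)) (Tr.node (nat_lit 6016) (Tr.leaf (nat_lit 795217)) (Tr.leaf (nat_lit 3105))))) (Tr.node (nat_lit 13760) (Tr.node (nat_lit 320) (Tr.leaf (nat_lit 794904)) (Tr.node (nat_lit 7488) (Tr.leaf (nat_lit 3105)) (Tr.leaf (nat_lit 3179102)))) (Tr.node (nat_lit 7232) (Tr.leaf (nat_lit 49667)) (Tr.node (nat_lit 6976) (Tr.leaf (nat_lit 198639)) (Tr.leaf (nat_lit 794444))))))))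

noncomputable def jt38 : Tr :=
  (Tr.node (nat_lit 155520) (Tr.node (nat_lit 61760) (Tr.node (nat_lit 24896) (Tr.node (nat_lit 13952) (Tr.node (nat_lit 9152) (Tr.leaf (nat_lit 198525)) (Tr.leaf (nat_lit 49621))) (Tr.node (nat_lit 7424) (Tr.leaf (nat_lit 198467)) (Tr.node (nat_lit 128) (Tr.leaf (nat_lit 775)) (Tr.leaf (nat_lit 793747))))) (Tr.node (nat_lit 14208) (Tr.node (nat_lit 10048) (Tr.leaf (nat_lit 49605)) (Tr.leaf (nat_lit 793527))) (Tr.node (nat_lit 2816) (Tr.leaf (nat_lit 198364)) (Tr.node (nat_lit 6464) (Tr.leaf (nat_lit 198353)) (Tr.leaf (nat_lit 793307)))))) (Tr.node (nat_lit 26816) (Tr.node (nat_lit 12224) (Tr.node (nat_lit 4480) (Tr.leaf (nat_lit 198271)) (Tr.leaf (nat_lit 3172058))) (Tr.node (nat_lit 5632) (Tr.leaf (nat_lit 49555)) (Tr.node (nat_lit 4224) (Tr.leaf (nat_lit 792795)) (Tr.leaf (nat_lit 198181))))) (Tr.node (nat_lit 44672) (Tr.node (nat_lit 13376)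 (Tr.leaf (nat_lit 198162)) (Tr.node (nat_lit 17856) (Tr.leaf (nat_lit 3169717)) (Tr.leaf (nat_lit 792137)))) (Tr.node (nat_lit 4608) (Tr.leaf (nat_lit 197979)) (Tr.node (nat_lit 8768) (Tr.leaf (nat_lit 12372)) (Tr.leaf (nat_lit 3166796))))))) (Tr.node (nat_lit 46848) (Tr.node (nat_lit 17856) (Tr.node (nat_lit 832) (Tr.node (nat_lit 256) (Tr.leaf (nat_lit 791553)) (Tr.leaf (nat_lit 49471))) (Tr.node (nat_lit 3648) (Tr.leaf (nat_lit 197884)) (Tr.node (nat_lit 8896) (Tr.leaf (nat_lit 197870)) (Tr.leaf (nat_lit 791334))))) (Tr.node (nat_lit 14336) (Tr.node (nat_lit 8896) (Tr.leaf (nat_lit 3165045)) (Tr.node (nat_lit 4480) (Tr.leaf (nat_lit 791115)) (Tr.leaf (nat_lit 197760)))) (Tr.node (nat_lit 7936) (Tr.leaf (nat_lit 772)) (Tr.node (nat_lit 384) (Tr.leaf (nat_lit 197724)) (Tr.leaf (nat_lit 772)))))) (Tr.node (nat_lit 24512) (Tr.node (nat_lit 14336) (Tr.node (nat_lit 11136) (Tr.leaf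 (nat_lit 790787)) (Tr.leaf (nat_lit 790606))) (Tr.node (nat_lit 5696) (Tr.leaf (nat_lit 49409)) (Tr.node (nat_lit 832) (Tr.leaf (nat_lit 197615)) (Tr.leaf (nat_lit 197611))))) (Tr.node (nat_lit 13760) (Tr.node (nat_lit 8896) (Tr.leaf (nat_lit 3161551)) (Tr.node (nat_lit 3840) (Tr.leaf (nat_lit 790242)) (Tr.leaf (nat_lit 192)))) (Tr.node (nat_lit 21824) (Tr.leaf (nat_lit 197540)) (Tr.node (nat_lit 1856) (Tr.leaf (nat_lit 789806)) (Tr.leaf (nat_lit 3085))))))))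

noncomputable def jt39 : Tr :=
  (Tr.node (nat_lit 142976) (Tr.node (nat_lit 58496) (Tr.node (nat_lit 22080) (Tr.node (nat_lit 7488) (Tr.node (nat_lit 5120) (Tr.leaf (nat_lit 3084)) (Tr.leaf (nat_lit 789588))) (Tr.node (nat_lit 2048) (Tr.leaf (nat_lit 197387)) (Tr.node (nat_lit 4736) (Tr.leaf (nat_lit 50529027)) (Tr.leaf (nat_lit 197359))))) (Tr.node (nat_lit 9728) (Tr.node (nat_lit 832) (Tr.leaf (nat_lit 197328)) (Tr.leaf (nat_lit 197324))) (Tr.node (nat_lit 11072) (Tr.leaf (nat_lit 789153)) (Tr.node (nat_lit 6720) (Tr.leaf (nat_lit 788972)) (Tr.leaf (nat_lit 197215)))))) (Tr.node (nat_lit 51072) (Tr.node (nat_lit 13312) (Tr.node (nat_lit 8960) (Tr.leaf (nat_lit 197179)) (Tr.leaf (nat_lit 192))) (Tr.node (nat_lit 26624) (Tr.leaf (nat_lit 788501)) (Tr.node (nat_lit 3904) (Tr.leaf (nat_lit 3152269)) (Tr.leaf (nat_lit 49250))))) (Tr.node (nat_lit 26176) (Tr.node (nat_lit 2240)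 (Tr.leaf (nat_lit 787886)) (Tr.node (nat_lit 4416) (Tr.leaf (nat_lit 196962)) (Tr.leaf (nat_lit 3151113)))) (Tr.node (nat_lit 2688) (Tr.leaf (nat_lit 769)) (Tr.node (nat_lit 4416) (Tr.leaf (nat_lit 196854)) (Tr.leaf (nat_lit 787345))))))) (Tr.node (nat_lit 61952) (Tr.node (nat_lit 26496) (Tr.node (nat_lit 17920) (Tr.node (nat_lit 8768) (Tr.leaf (nat_lit 49208)) (Tr.leaf (nat_lit 12595212))) (Tr.node (nat_lit 4160) (Tr.leaf (nat_lit 196762)) (Tr.node (nat_lit 3712) (Tr.leaf (nat_lit 786984)) (Tr.leaf (nat_lit 768))))) (Tr.node (nat_lit 8832) (Tr.node (nat_lit 8000) (Tr.leaf (nat_lit 786912)) (Tr.node (nat_lit 704) (Tr.leaf (nat_lit 196695)) (Tr.leaf (nat_lit 196692)))) (Tr.node (nat_lit 17792) (Tr.leaf (nat_lit 786768)) (Tr.node (nat_lit 5056) (Tr.leaf (nat_lit 786480)) (Tr.leaf (nat_lit 3071)))))) (Tr.node (nat_lit 17728) (Tr.node (nat_lit 12160) (Tr.node (nat_lit 5760) (Tr.leaf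 (nat_lit 786336)) (Tr.leaf (nat_lit 49140))) (Tr.node (nat_lit 1152) (Tr.leaf (nat_lit 191)) (Tr.node (nat_lit 3584) (Tr.leaf (nat_lit 786120)) (Tr.leaf (nat_lit 196515))))) (Tr.node (nat_lit 22144) (Tr.node (nat_lit 8832) (Tr.leaf (nat_lit 3144192)) (Tr.node (nat_lit 832) (Tr.leaf (nat_lit 785904)) (Tr.leaf (nat_lit 49118)))) (Tr.node (nat_lit 13504) (Tr.leaf (nat_lit 785688)) (Tr.node (nat_lit 4224) (Tr.leaf (nat_lit 191)) (Tr.leaf (nat_lit 196350))))))))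

noncomputable def jt40 : Tr :=
  (Tr.node (nat_lit 172608) (Tr.node (nat_lit 86272) (Tr.node (nat_lit 46464) (Tr.node (nat_lit 24512) (Tr.node (nat_lit 6656) (Tr.leaf (nat_lit 3141461)) (Tr.leaf (nat_lit 196314))) (Tr.node (nat_lit 8704) (Tr.leaf (nat_lit 766)) (Tr.node (nat_lit 4416) (Tr.leaf (nat_lit 784827)) (Tr.leaf (nat_lit 784755))))) (Tr.node (nat_lit 17664) (Tr.node (nat_lit 4416) (Tr.leaf (nat_lit 3138448)) (Tr.leaf (nat_lit 196135))) (Tr.node (nat_lit 11328) (Tr.leaf (nat_lit 3137302)) (Tr.node (nat_lit 1920) (Tr.leaf (nat_lit 196035)) (Tr.leaf (nat_lit 784110)))))) (Tr.node (nat_lit 61696) (Tr.node (nat_lit 30912) (Tr.node (nat_lit 17344) (Tr.leaf (nat_lit 195991)) (Tr.leaf (nat_lit 195921))) (Tr.node (nat_lit 26432) (Tr.leaf (nat_lit 783467)) (Tr.node (nat_lit 1408) (Tr.leaf (nat_lit 783038)) (Tr.leaf (nat_lit 195754))))) (Tr.node (nat_lit 17728) (Tr.node (nat_lit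 8896) (Tr.leaf (nat_lit 764)) (Tr.node (nat_lit 4992) (Tr.leaf (nat_lit 195706)) (Tr.leaf (nat_lit 48921)))) (Tr.node (nat_lit 448) (Tr.leaf (nat_lit 782681)) (Tr.node (nat_lit 320) (Tr.leaf (nat_lit 48917)) (Tr.leaf (nat_lit 191))))))) (Tr.node (nat_lit 96768) (Tr.node (nat_lit 46016) (Tr.node (nat_lit 6336) (Tr.node (nat_lit 6144) (Tr.leaf (nat_lit 195642)) (Tr.leaf (nat_lit 191))) (Tr.node (nat_lit 4416) (Tr.leaf (nat_lit 782468)) (Tr.node (nat_lit 33984) (Tr.leaf (nat_lit 195599)) (Tr.leaf (nat_lit 195461))))) (Tr.node (nat_lit 30784) (Tr.node (nat_lit 8192) (Tr.leaf (nat_lit 195456)) (Tr.node (nat_lit 18240) (Tr.leaf (nat_lit 763)) (Tr.leaf (nat_lit 195350)))) (Tr.node (nat_lit 6592) (Tr.leaf (nat_lit 781329)) (Tr.node (nat_lit 2240) (Tr.leaf (nat_lit 3051)) (Tr.leaf (nat_lit 781187)))))) (Tr.node (nat_lit 32256) (Tr.node (nat_lit 11200) (Tr.node (nat_lit 6464) (Tr.leaf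 (nat_lit 48812)) (Tr.leaf (nat_lit 12494450))) (Tr.node (nat_lit 8448) (Tr.leaf (nat_lit 48801)) (Tr.node (nat_lit 8832) (Tr.leaf (nat_lit 195172)) (Tr.leaf (nat_lit 780548))))) (Tr.node (nat_lit 27008) (Tr.node (nat_lit 7232) (Tr.leaf (nat_lit 195121)) (Tr.node (nat_lit 2176) (Tr.leaf (nat_lit 780371)) (Tr.leaf (nat_lit 49941480)))) (Tr.node (nat_lit 9024) (Tr.leaf (nat_lit 780052)) (Tr.node (nat_lit 12288) (Tr.leaf (nat_lit 194976)) (Tr.leaf (nat_lit 48731))))))))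

noncomputable def jt41 : Tr :=
  (Tr.node (nat_lit 135104) (Tr.node (nat_lit 67840) (Tr.node (nat_lit 25856) (Tr.node (nat_lit 8704) (Tr.node (nat_lit 1984) (Tr.leaf (nat_lit 761)) (Tr.leaf (nat_lit 779627))) (Tr.node (nat_lit 2048) (Tr.leaf (nat_lit 194879)) (Tr.node (nat_lit 960) (Tr.leaf (nat_lit 3117943)) (Tr.leaf (nat_lit 48716))))) (Tr.node (nat_lit 15616) (Tr.node (nat_lit 11264) (Tr.leaf (nat_lit 194810)) (Tr.leaf (nat_lit 779061))) (Tr.node (nat_lit 13184) (Tr.leaf (nat_lit 194747)) (Tr.node (nat_lit 8768) (Tr.leaf (nat_lit 778779)) (Tr.leaf (nat_lit 3114552)))))) (Tr.node (nat_lit 46592) (Tr.node (nat_lit 21120) (Tr.node (nat_lit 9472) (Tr.leaf (nat_lit 778567)) (Tr.leaf (nat_lit 194603))) (Tr.node (nat_lit 5184) (Tr.leaf (nat_lit 194556)) (Tr.node (nat_lit 5760) (Tr.leaf (nat_lit 778144)) (Tr.leaf (nat_lit 194512))))) (Tr.node (nat_lit 14784) (Tr.node (nat_lit 6016)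 (Tr.leaf (nat_lit 759)) (Tr.node (nat_lit 5952) (Tr.leaf (nat_lit 777721)) (Tr.leaf (nat_lit 189)))) (Tr.node (nat_lit 1600) (Tr.leaf (nat_lit 194395)) (Tr.node (nat_lit 1984) (Tr.leaf (nat_lit 48597)) (Tr.leaf (nat_lit 189))))))) (Tr.node (nat_lit 64192) (Tr.node (nat_lit 36416) (Tr.node (nat_lit 7232) (Tr.node (nat_lit 5056) (Tr.leaf (nat_lit 48592)) (Tr.leaf (nat_lit 777404))) (Tr.node (nat_lit 20544) (Tr.leaf (nat_lit 3109478)) (Tr.node (nat_lit 5760) (Tr.leaf (nat_lit 194260)) (Tr.leaf (nat_lit 3107791))))) (Tr.node (nat_lit 12224) (Tr.node (nat_lit 1472) (Tr.leaf (nat_lit 3034)) (Tr.node (nat_lit 8768) (Tr.leaf (nat_lit 194219)) (Tr.leaf (nat_lit 194184)))) (Tr.node (nat_lit 2432) (Tr.leaf (nat_lit 758)) (Tr.node (nat_lit 11456) (Tr.leaf (nat_lit 3106667)) (Tr.leaf (nat_lit 48530)))))) (Tr.node (nat_lit 15040) (Tr.node (nat_lit 4096) (Tr.node (nat_lit 1216) (Tr.leaf (nat_lit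 776456)) (Tr.leaf (nat_lit 194109))) (Tr.node (nat_lit 7616) (Tr.leaf (nat_lit 194097)) (Tr.node (nat_lit 1408) (Tr.leaf (nat_lit 48516)) (Tr.leaf (nat_lit 776245))))) (Tr.node (nat_lit 11200) (Tr.node (nat_lit 6848) (Tr.leaf (nat_lit 189)) (Tr.node (nat_lit 3264) (Tr.leaf (nat_lit 776105)) (Tr.leaf (nat_lit 776052)))) (Tr.node (nat_lit 5760) (Tr.leaf (nat_lit 194008)) (Tr.node (nat_lit 3008) (Tr.leaf (nat_lit 193985)) (Tr.leaf (nat_lit 193973))))))))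

noncomputable def jt42 : Tr :=
  (Tr.node (nat_lit 151616) (Tr.node (nat_lit 65536) (Tr.node (nat_lit 37184) (Tr.node (nat_lit 21824) (Tr.node (nat_lit 13120) (Tr.leaf (nat_lit 12413200)) (Tr.leaf (nat_lit 775614))) (Tr.node (nat_lit 4416) (Tr.leaf (nat_lit 775474)) (Tr.node (nat_lit 8704) (Tr.leaf (nat_lit 775404)) (Tr.leaf (nat_lit 3101059))))) (Tr.node (nat_lit 10880) (Tr.node (nat_lit 8704) (Tr.leaf (nat_lit 3028)) (Tr.leaf (nat_lit 775089))) (Tr.node (nat_lit 832) (Tr.leaf (nat_lit 193763)) (Tr.node (nat_lit 12288) (Tr.leaf (nat_lit 193760)) (Tr.leaf (nat_lit 774845)))))) (Tr.node (nat_lit 29440) (Tr.node (nat_lit 17792) (Tr.node (nat_lit 13120) (Tr.leaf (nat_lit 193693)) (Tr.leaf (nat_lit 774565))) (Tr.node (nat_lit 1024) (Tr.leaf (nat_lit 756)) (Tr.node (nat_lit 7360) (Tr.leaf (nat_lit 48404)) (Tr.leaf (nat_lit 193589))))) (Tr.node (nat_lit 6528) (Tr.node (nat_lit 320)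 (Tr.leaf (nat_lit 774303)) (Tr.node (nat_lit 5120) (Tr.leaf (nat_lit 189)) (Tr.leaf (nat_lit 774216)))) (Tr.node (nat_lit 3328) (Tr.leaf (nat_lit 48387)) (Tr.node (nat_lit 8704) (Tr.leaf (nat_lit 3096587)) (Tr.leaf (nat_lit 774007))))))) (Tr.node (nat_lit 70848) (Tr.node (nat_lit 44736) (Tr.node (nat_lit 7232) (Tr.node (nat_lit 5504) (Tr.leaf (nat_lit 3021)) (Tr.leaf (nat_lit 773310))) (Tr.node (nat_lit 17920) (Tr.leaf (nat_lit 193320)) (Tr.node (nat_lit 2176) (Tr.leaf (nat_lit 772997)) (Tr.leaf (nat_lit 193240))))) (Tr.node (nat_lit 8960) (Tr.node (nat_lit 2880) (Tr.leaf (nat_lit 193171)) (Tr.node (nat_lit 5824) (Tr.leaf (nat_lit 188)) (Tr.leaf (nat_lit 193136)))) (Tr.node (nat_lit 11712) (Tr.leaf (nat_lit 193135)) (Tr.node (nat_lit 1088) (Tr.leaf (nat_lit 12068)) (Tr.leaf (nat_lit 772337)))))) (Tr.node (nat_lit 39168) (Tr.node (nat_lit 21760) (Tr.node (nat_lit 15232) (Tr.leaf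 (nat_lit 772267)) (Tr.leaf (nat_lit 772024))) (Tr.node (nat_lit 3904) (Tr.leaf (nat_lit 3087683)) (Tr.node (nat_lit 9152) (Tr.leaf (nat_lit 192964)) (Tr.leaf (nat_lit 192928))))) (Tr.node (nat_lit 13056) (Tr.node (nat_lit 8704) (Tr.leaf (nat_lit 3086573)) (Tr.node (nat_lit 3840) (Tr.leaf (nat_lit 771504)) (Tr.leaf (nat_lit 753)))) (Tr.node (nat_lit 8640) (Tr.leaf (nat_lit 771435)) (Tr.node (nat_lit 1984) (Tr.leaf (nat_lit 771296)) (Tr.leaf (nat_lit 48204))))))))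

noncomputable def jt43 : Tr :=
  (Tr.node (nat_lit 178240) (Tr.node (nat_lit 102400) (Tr.node (nat_lit 69888) (Tr.node (nat_lit 26560) (Tr.node (nat_lit 22144) (Tr.leaf (nat_lit 48197)) (Tr.leaf (nat_lit 3083250))) (Tr.node (nat_lit 17280) (Tr.leaf (nat_lit 48171)) (Tr.node (nat_lit 24704) (Tr.leaf (nat_lit 192616)) (Tr.leaf (nat_lit 192518))))) (Tr.node (nat_lit 12992) (Tr.node (nat_lit 4352) (Tr.leaf (nat_lit 770052)) (Tr.leaf (nat_lit 769983))) (Tr.node (nat_lit 4352) (Tr.leaf (nat_lit 769845)) (Tr.node (nat_lit 8704) (Tr.leaf (nat_lit 192444)) (Tr.leaf (nat_lit 192409)))))) (Tr.node (nat_lit 36864) (Tr.node (nat_lit 7488) (Tr.node (nat_lit 6528) (Tr.leaf (nat_lit 769535)) (Tr.leaf (nat_lit 769431))) (Tr.node (nat_lit 13312) (Tr.leaf (nat_lit 187)) (Tr.node (nat_lit 11712) (Tr.leaf (nat_lit 187)) (Tr.leaf (nat_lit 769018))))) (Tr.node (nat_lit 12992) (Tr.node (nat_lit 3776)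 (Tr.leaf (nat_lit 192237)) (Tr.node (nat_lit 4864) (Tr.leaf (nat_lit 768889)) (Tr.leaf (nat_lit 192202)))) (Tr.node (nat_lit 8704) (Tr.leaf (nat_lit 768743)) (Tr.node (nat_lit 4288) (Tr.leaf (nat_lit 3074421)) (Tr.leaf (nat_lit 192134))))))) (Tr.node (nat_lit 59904) (Tr.node (nat_lit 34624) (Tr.node (nat_lit 22976) (Tr.node (nat_lit 2304) (Tr.leaf (nat_lit 3073321)) (Tr.leaf (nat_lit 750))) (Tr.node (nat_lit 9472) (Tr.leaf (nat_lit 47997)) (Tr.node (nat_lit 64) (Tr.leaf (nat_lit 767815)) (Tr.leaf (nat_lit 187))))) (Tr.node (nat_lit 18112) (Tr.node (nat_lit 12992) (Tr.leaf (nat_lit 767781)) (Tr.node (nat_lit 5056) (Tr.leaf (nat_lit 767575)) (Tr.leaf (nat_lit 187)))) (Tr.node (nat_lit 1344) (Tr.leaf (nat_lit 191873)) (Tr.node (nat_lit 4096) (Tr.leaf (nat_lit 767472)) (Tr.leaf (nat_lit 191852)))))) (Tr.node (nat_lit 31360) (Tr.node (nat_lit 13632) (Tr.node (nat_lit 704) (Tr.leaf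 (nat_lit 47961)) (Tr.leaf (nat_lit 767369))) (Tr.node (nat_lit 4352) (Tr.leaf (nat_lit 191790)) (Tr.node (nat_lit 8640) (Tr.leaf (nat_lit 767095)) (Tr.leaf (nat_lit 49085340))))) (Tr.node (nat_lit 21184) (Tr.node (nat_lit 12544) (Tr.leaf (nat_lit 191720)) (Tr.node (nat_lit 7232) (Tr.leaf (nat_lit 766684)) (Tr.leaf (nat_lit 11977)))) (Tr.node (nat_lit 25920) (Tr.leaf (nat_lit 766547)) (Tr.node (nat_lit 4352) (Tr.leaf (nat_lit 766137)) (Tr.leaf (nat_lit 191517))))))))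

noncomputable def jt44 : Tr :=
  (Tr.node (nat_lit 124992) (Tr.node (nat_lit 72512) (Tr.node (nat_lit 28736) (Tr.node (nat_lit 21568) (Tr.node (nat_lit 8640) (Tr.leaf (nat_lit 3063457)) (Tr.leaf (nat_lit 765727))) (Tr.node (nat_lit 832) (Tr.leaf (nat_lit 765523)) (Tr.node (nat_lit 3456) (Tr.leaf (nat_lit 47844)) (Tr.leaf (nat_lit 765454))))) (Tr.node (nat_lit 10112) (Tr.node (nat_lit 5760) (Tr.leaf (nat_lit 191352)) (Tr.leaf (nat_lit 3061273))) (Tr.node (nat_lit 19008) (Tr.leaf (nat_lit 765250)) (Tr.node (nat_lit 2496) (Tr.leaf (nat_lit 186)) (Tr.leaf (nat_lit 764909)))))) (Tr.node (nat_lit 24512) (Tr.node (nat_lit 5440) (Tr.node (nat_lit 5120) (Tr.leaf (nat_lit 191179)) (Tr.leaf (nat_lit 764637))) (Tr.node (nat_lit 6016) (Tr.leaf (nat_lit 186)) (Tr.node (nat_lit 8704) (Tr.leaf (nat_lit 2986)) (Tr.leaf (nat_lit 764399))))) (Tr.node (nat_lit 13760) (Tr.node (nat_lit 2112) (Tr.leaf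 (nat_lit 764331)) (Tr.node (nat_lit 4352) (Tr.leaf (nat_lit 191074)) (Tr.leaf (nat_lit 3056916)))) (Tr.node (nat_lit 5568) (Tr.leaf (nat_lit 47757)) (Tr.node (nat_lit 6144) (Tr.leaf (nat_lit 191006)) (Tr.leaf (nat_lit 2984))))))) (Tr.node (nat_lit 75264) (Tr.node (nat_lit 38720) (Tr.node (nat_lit 18176) (Tr.node (nat_lit 17152) (Tr.leaf (nat_lit 763889)) (Tr.leaf (nat_lit 186))) (Tr.node (nat_lit 7680) (Tr.leaf (nat_lit 190900)) (Tr.node (nat_lit 11328) (Tr.leaf (nat_lit 190870)) (Tr.leaf (nat_lit 186))))) (Tr.node (nat_lit 17216) (Tr.node (nat_lit 12928) (Tr.leaf (nat_lit 763278)) (Tr.node (nat_lit 3456) (Tr.leaf (nat_lit 190768)) (Tr.leaf (nat_lit 190754)))) (Tr.node (nat_lit 5888) (Tr.leaf (nat_lit 763007)) (Tr.node (nat_lit 7040) (Tr.leaf (nat_lit 47682)) (Tr.leaf (nat_lit 190700)))))) (Tr.node (nat_lit 45120) (Tr.node (nat_lit 15040) (Tr.node (nat_lit 6464) (Tr.leaf (nat_lit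 762702)) (Tr.leaf (nat_lit 195225786))) (Tr.node (nat_lit 4672) (Tr.leaf (nat_lit 762465)) (Tr.node (nat_lit 12544) (Tr.leaf (nat_lit 47649)) (Tr.leaf (nat_lit 3048778))))) (Tr.node (nat_lit 31232) (Tr.node (nat_lit 12864) (Tr.leaf (nat_lit 190497)) (Tr.node (nat_lit 12928) (Tr.leaf (nat_lit 761789)) (Tr.leaf (nat_lit 190396)))) (Tr.node (nat_lit 4160) (Tr.leaf (nat_lit 185)) (Tr.node (nat_lit 3136) (Tr.leaf (nat_lit 761434)) (Tr.leaf (nat_lit 11896))))))))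

noncomputable def jt45 : Tr :=
  (Tr.node (nat_lit 154176) (Tr.node (nat_lit 64320) (Tr.node (nat_lit 25728) (Tr.node (nat_lit 5632) (Tr.node (nat_lit 4288) (Tr.leaf (nat_lit 3044996)) (Tr.leaf (nat_lit 761181))) (Tr.node (nat_lit 7232) (Tr.leaf (nat_lit 190290)) (Tr.node (nat_lit 4288) (Tr.leaf (nat_lit 190261)) (Tr.leaf (nat_lit 3043917))))) (Tr.node (nat_lit 23680) (Tr.node (nat_lit 12736) (Tr.leaf (nat_lit 760844)) (Tr.leaf (nat_lit 190161))) (Tr.node (nat_lit 6336) (Tr.leaf (nat_lit 742)) (Tr.node (nat_lit 2368) (Tr.leaf (nat_lit 760373)) (Tr.leaf (nat_lit 190083)))))) (Tr.node (nat_lit 57792) (Tr.node (nat_lit 29696) (Tr.node (nat_lit 4288) (Tr.leaf (nat_lit 190059)) (Tr.leaf (nat_lit 3040684))) (Tr.node (nat_lit 11712) (Tr.leaf (nat_lit 189942)) (Tr.node (nat_lit 9984) (Tr.leaf (nat_lit 11868)) (Tr.leaf (nat_lit 189857))))) (Tr.node (nat_lit 10688) (Tr.node (nat_lit 4288)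 (Tr.leaf (nat_lit 759331)) (Tr.node (nat_lit 5056) (Tr.leaf (nat_lit 759264)) (Tr.leaf (nat_lit 185)))) (Tr.node (nat_lit 8128) (Tr.leaf (nat_lit 759163)) (Tr.node (nat_lit 448) (Tr.leaf (nat_lit 47439)) (Tr.leaf (nat_lit 189757))))))) (Tr.node (nat_lit 68352) (Tr.node (nat_lit 25664) (Tr.node (nat_lit 8640) (Tr.node (nat_lit 4288) (Tr.leaf (nat_lit 3035312)) (Tr.leaf (nat_lit 189690))) (Tr.node (nat_lit 4224) (Tr.leaf (nat_lit 47418)) (Tr.node (nat_lit 8000) (Tr.leaf (nat_lit 758627)) (Tr.leaf (nat_lit 11851))))) (Tr.node (nat_lit 12800) (Tr.node (nat_lit 5184) (Tr.leaf (nat_lit 758426)) (Tr.node (nat_lit 3904) (Tr.leaf (nat_lit 185)) (Tr.leaf (nat_lit 758283)))) (Tr.node (nat_lit 9600) (Tr.leaf (nat_lit 189556)) (Tr.node (nat_lit 3264) (Tr.leaf (nat_lit 758074)) (Tr.leaf (nat_lit 758024)))))) (Tr.node (nat_lit 26432) (Tr.node (nat_lit 18176) (Tr.node (nat_lit 12864) (Tr.leaf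 (nat_lit 3031028)) (Tr.leaf (nat_lit 757556))) (Tr.node (nat_lit 768) (Tr.leaf (nat_lit 184)) (Tr.node (nat_lit 6720) (Tr.leaf (nat_lit 189365)) (Tr.leaf (nat_lit 757356))))) (Tr.node (nat_lit 23360) (Tr.node (nat_lit 7744) (Tr.leaf (nat_lit 189335)) (Tr.node (nat_lit 10368) (Tr.leaf (nat_lit 3028890)) (Tr.leaf (nat_lit 47316)))) (Tr.node (nat_lit 1472) (Tr.leaf (nat_lit 189244)) (Tr.node (nat_lit 12800) (Tr.leaf (nat_lit 756955)) (Tr.leaf (nat_lit 189188))))))))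

noncomputable def jt46 : Tr :=
  (Tr.node (nat_lit 191488) (Tr.node (nat_lit 118208) (Tr.node (nat_lit 29824) (Tr.node (nat_lit 7168) (Tr.node (nat_lit 4288) (Tr.leaf (nat_lit 189155)) (Tr.leaf (nat_lit 756555))) (Tr.node (nat_lit 12032) (Tr.leaf (nat_lit 189127)) (Tr.node (nat_lit 9792) (Tr.leaf (nat_lit 756322)) (Tr.leaf (nat_lit 184))))) (Tr.node (nat_lit 51136) (Tr.node (nat_lit 38336) (Tr.leaf (nat_lit 12098499)) (Tr.leaf (nat_lit 188889))) (Tr.node (nat_lit 5504) (Tr.leaf (nat_lit 755358)) (Tr.node (nat_lit 7232) (Tr.leaf (nat_lit 47204)) (Tr.leaf (nat_lit 3020636)))))) (Tr.node (nat_lit 33664) (Tr.node (nat_lit 8768) (Tr.node (nat_lit 3392) (Tr.leaf (nat_lit 737)) (Tr.leaf (nat_lit 188680))) (Tr.node (nat_lit 768) (Tr.leaf (nat_lit 188660)) (Tr.node (nat_lit 15808) (Tr.leaf (nat_lit 188657)) (Tr.leaf (nat_lit 188595))))) (Tr.node (nat_lit 29696) (Tr.node (nat_lit 18368)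 (Tr.leaf (nat_lit 188563)) (Tr.node (nat_lit 8512) (Tr.leaf (nat_lit 188491)) (Tr.leaf (nat_lit 753833)))) (Tr.node (nat_lit 1408) (Tr.leaf (nat_lit 736)) (Tr.node (nat_lit 4544) (Tr.leaf (nat_lit 3015070)) (Tr.leaf (nat_lit 184))))))) (Tr.node (nat_lit 67904) (Tr.node (nat_lit 35008) (Tr.node (nat_lit 4224) (Tr.node (nat_lit 3968) (Tr.leaf (nat_lit 753635)) (Tr.leaf (nat_lit 47098))) (Tr.node (nat_lit 21248) (Tr.leaf (nat_lit 188392)) (Tr.node (nat_lit 3200) (Tr.leaf (nat_lit 753238)) (Tr.leaf (nat_lit 753189))))) (Tr.node (nat_lit 20160) (Tr.node (nat_lit 3200) (Tr.leaf (nat_lit 753090)) (Tr.node (nat_lit 3456) (Tr.leaf (nat_lit 753040)) (Tr.leaf (nat_lit 188246)))) (Tr.node (nat_lit 128) (Tr.leaf (nat_lit 188194)) (Tr.node (nat_lit 6272) (Tr.leaf (nat_lit 183)) (Tr.leaf (nat_lit 752677)))))) (Tr.node (nat_lit 50880) (Tr.node (nat_lit 34624) (Tr.node (nat_lit 12736) (Tr.leaf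 (nat_lit 752578)) (Tr.leaf (nat_lit 752381))) (Tr.node (nat_lit 3520) (Tr.leaf (nat_lit 47002)) (Tr.node (nat_lit 8512) (Tr.leaf (nat_lit 187996)) (Tr.leaf (nat_lit 751854))))) (Tr.node (nat_lit 21184) (Tr.node (nat_lit 768) (Tr.leaf (nat_lit 751788)) (Tr.node (nat_lit 7680) (Tr.leaf (nat_lit 187944)) (Tr.leaf (nat_lit 751656)))) (Tr.node (nat_lit 25408) (Tr.leaf (nat_lit 751459)) (Tr.node (nat_lit 4352) (Tr.leaf (nat_lit 187766)) (Tr.leaf (nat_lit 183))))))))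

noncomputable def jt47 : Tr :=
  (Tr.node (nat_lit 120960) (Tr.node (nat_lit 65408) (Tr.node (nat_lit 29696) (Tr.node (nat_lit 7232) (Tr.node (nat_lit 2880) (Tr.leaf (nat_lit 187745)) (Tr.leaf (nat_lit 183))) (Tr.node (nat_lit 12672) (Tr.leaf (nat_lit 12013894)) (Tr.node (nat_lit 4288) (Tr.leaf (nat_lit 187667)) (Tr.leaf (nat_lit 750605))))) (Tr.node (nat_lit 3328) (Tr.node (nat_lit 2944) (Tr.leaf (nat_lit 187629)) (Tr.leaf (nat_lit 750474))) (Tr.node (nat_lit 3840) (Tr.leaf (nat_lit 187617)) (Tr.node (nat_lit 7872) (Tr.leaf (nat_lit 187602)) (Tr.leaf (nat_lit 11723)))))) (Tr.node (nat_lit 17920) (Tr.node (nat_lit 9472) (Tr.node (nat_lit 5248) (Tr.leaf (nat_lit 749967)) (Tr.leaf (nat_lit 749885))) (Tr.node (nat_lit 6464) (Tr.leaf (nat_lit 11997115)) (Tr.node (nat_lit 320) (Tr.leaf (nat_lit 46857)) (Tr.leaf (nat_lit 183))))) (Tr.node (nat_lit 16896) (Tr.node (nat_lit 1088) (Tr.leaf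 (nat_lit 749688)) (Tr.node (nat_lit 8704) (Tr.leaf (nat_lit 732)) (Tr.leaf (nat_lit 187384)))) (Tr.node (nat_lit 2112) (Tr.leaf (nat_lit 749427)) (Tr.node (nat_lit 6592) (Tr.leaf (nat_lit 749394)) (Tr.leaf (nat_lit 187323))))))) (Tr.node (nat_lit 93184) (Tr.node (nat_lit 25728) (Tr.node (nat_lit 1600) (Tr.node (nat_lit 384) (Tr.leaf (nat_lit 182)) (Tr.leaf (nat_lit 187275))) (Tr.node (nat_lit 7488) (Tr.leaf (nat_lit 46817)) (Tr.node (nat_lit 8192) (Tr.leaf (nat_lit 187241)) (Tr.leaf (nat_lit 187209))))) (Tr.node (nat_lit 42176) (Tr.node (nat_lit 6784) (Tr.leaf (nat_lit 748708)) (Tr.node (nat_lit 8256) (Tr.leaf (nat_lit 187150)) (Tr.leaf (nat_lit 187119)))) (Tr.node (nat_lit 9984) (Tr.leaf (nat_lit 187014)) (Tr.node (nat_lit 8704) (Tr.leaf (nat_lit 730)) (Tr.leaf (nat_lit 186941)))))) (Tr.node (nat_lit 33728) (Tr.node (nat_lit 8448) (Tr.node (nat_lit 6336) (Tr.leaf (nat_lit 186916))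 (Tr.leaf (nat_lit 747568))) (Tr.node (nat_lit 4160) (Tr.leaf (nat_lit 186883)) (Tr.node (nat_lit 8448) (Tr.leaf (nat_lit 2989883)) (Tr.leaf (nat_lit 747340))))) (Tr.node (nat_lit 25216) (Tr.node (nat_lit 16832) (Tr.leaf (nat_lit 186786)) (Tr.node (nat_lit 3456) (Tr.leaf (nat_lit 746885)) (Tr.leaf (nat_lit 729)))) (Tr.node (nat_lit 3840) (Tr.leaf (nat_lit 186689)) (Tr.node (nat_lit 384) (Tr.leaf (nat_lit 186674)) (Tr.leaf (nat_lit 2986764))))))))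

noncomputable def jt48 : Tr :=
  (Tr.node (nat_lit 121344) (Tr.node (nat_lit 58368) (Tr.node (nat_lit 25664) (Tr.node (nat_lit 3648) (Tr.node (nat_lit 2880) (Tr.leaf (nat_lit 46663)) (Tr.leaf (nat_lit 186643))) (Tr.node (nat_lit 9728) (Tr.leaf (nat_lit 746561)) (Tr.node (nat_lit 7104) (Tr.leaf (nat_lit 46650)) (Tr.leaf (nat_lit 746301))))) (Tr.node (nat_lit 12864) (Tr.node (nat_lit 1152) (Tr.leaf (nat_lit 46638)) (Tr.node (nat_lit 8320) (Tr.leaf (nat_lit 746204)) (Tr.leaf (nat_lit 182)))) (Tr.node (nat_lit 7168) (Tr.leaf (nat_lit 46626)) (Tr.node (nat_lit 8448) (Tr.leaf (nat_lit 745913)) (Tr.leaf (nat_lit 745783)))))) (Tr.node (nat_lit 25152) (Tr.node (nat_lit 12544) (Tr.node (nat_lit 5888) (Tr.leaf (nat_lit 186429)) (Tr.leaf (nat_lit 728))) (Tr.node (nat_lit 2816) (Tr.leaf (nat_lit 745524)) (Tr.node (nat_lit 512) (Tr.leaf (nat_lit 186370)) (Tr.leaf (nat_lit 182))))) (Tr.node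 (nat_lit 20992) (Tr.node (nat_lit 8448) (Tr.leaf (nat_lit 745330)) (Tr.node (nat_lit 4160) (Tr.leaf (nat_lit 186300)) (Tr.leaf (nat_lit 2980546)))) (Tr.node (nat_lit 8064) (Tr.leaf (nat_lit 745007)) (Tr.node (nat_lit 3776) (Tr.leaf (nat_lit 181)) (Tr.leaf (nat_lit 186206))))))) (Tr.node (nat_lit 75456) (Tr.node (nat_lit 50304) (Tr.node (nat_lit 21248) (Tr.node (nat_lit 14656) (Tr.leaf (nat_lit 744748)) (Tr.leaf (nat_lit 744523))) (Tr.node (nat_lit 12288) (Tr.leaf (nat_lit 186105)) (Tr.node (nat_lit 4224) (Tr.leaf (nat_lit 744232)) (Tr.leaf (nat_lit 744168))))) (Tr.node (nat_lit 12608) (Tr.node (nat_lit 8384) (Tr.leaf (nat_lit 743974)) (Tr.node (nat_lit 1728) (Tr.leaf (nat_lit 743846)) (Tr.leaf (nat_lit 2905)))) (Tr.node (nat_lit 7232) (Tr.leaf (nat_lit 185945)) (Tr.node (nat_lit 1152) (Tr.leaf (nat_lit 181)) (Tr.leaf (nat_lit 185913)))))) (Tr.node (nat_lit 50304) (Tr.node (nat_lit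 8384) (Tr.node (nat_lit 3072) (Tr.leaf (nat_lit 11897416)) (Tr.leaf (nat_lit 185885))) (Tr.node (nat_lit 12608) (Tr.leaf (nat_lit 743459)) (Tr.node (nat_lit 16448) (Tr.leaf (nat_lit 743266)) (Tr.leaf (nat_lit 185753))))) (Tr.node (nat_lit 58560) (Tr.node (nat_lit 42112) (Tr.leaf (nat_lit 2971267)) (Tr.node (nat_lit 3904) (Tr.leaf (nat_lit 185542)) (Tr.leaf (nat_lit 742110)))) (Tr.node (nat_lit 4160) (Tr.leaf (nat_lit 741918)) (Tr.node (nat_lit 4544) (Tr.leaf (nat_lit 185463)) (Tr.leaf (nat_lit 185446))))))))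

noncomputable def jt49 : Tr :=
  (Tr.node (nat_lit 127488) (Tr.node (nat_lit 48192) (Tr.node (nat_lit 12608) (Tr.node (nat_lit 6528) (Tr.node (nat_lit 6208) (Tr.leaf (nat_lit 181)) (Tr.leaf (nat_lit 46350))) (Tr.node (nat_lit 1280) (Tr.leaf (nat_lit 181)) (Tr.node (nat_lit 2816) (Tr.leaf (nat_lit 181)) (Tr.leaf (nat_lit 11864550))))) (Tr.node (nat_lit 10560) (Tr.node (nat_lit 2176) (Tr.leaf (nat_lit 46344)) (Tr.leaf (nat_lit 741470))) (Tr.node (nat_lit 4160) (Tr.leaf (nat_lit 185335)) (Tr.node (nat_lit 2048) (Tr.leaf (nat_lit 741278)) (Tr.leaf (nat_lit 741246)))))) (Tr.node (nat_lit 45952) (Tr.node (nat_lit 15360) (Tr.node (nat_lit 3136) (Tr.leaf (nat_lit 185239)) (Tr.leaf (nat_lit 740910))) (Tr.node (nat_lit 1344) (Tr.leaf (nat_lit 185180)) (Tr.node (nat_lit 12544) (Tr.leaf (nat_lit 185175)) (Tr.leaf (nat_lit 11848185))))) (Tr.node (nat_lit 8320) (Tr.node (nat_lit 1152) (Tr.leaf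 (nat_lit 46266)) (Tr.node (nat_lit 3008) (Tr.leaf (nat_lit 722)) (Tr.leaf (nat_lit 740192)))) (Tr.node (nat_lit 7552) (Tr.leaf (nat_lit 740128)) (Tr.node (nat_lit 4928) (Tr.leaf (nat_lit 185003)) (Tr.leaf (nat_lit 739937))))))) (Tr.node (nat_lit 74944) (Tr.node (nat_lit 33344) (Tr.node (nat_lit 20800) (Tr.node (nat_lit 12480) (Tr.leaf (nat_lit 739746)) (Tr.leaf (nat_lit 739555))) (Tr.node (nat_lit 4224) (Tr.leaf (nat_lit 184856)) (Tr.node (nat_lit 3072) (Tr.leaf (nat_lit 739364)) (Tr.leaf (nat_lit 739316))))) (Tr.node (nat_lit 29120) (Tr.node (nat_lit 2368) (Tr.leaf (nat_lit 2956948)) (Tr.node (nat_lit 1792) (Tr.leaf (nat_lit 180)) (Tr.leaf (nat_lit 184793)))) (Tr.node (nat_lit 3136) (Tr.leaf (nat_lit 738792)) (Tr.node (nat_lit 8704) (Tr.leaf (nat_lit 721)) (Tr.leaf (nat_lit 184652)))))) (Tr.node (nat_lit 24960) (Tr.node (nat_lit 11328) (Tr.node (nat_lit 8320) (Tr.leaf (nat_lit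 738601)) (Tr.leaf (nat_lit 2953897))) (Tr.node (nat_lit 1152) (Tr.leaf (nat_lit 46151)) (Tr.node (nat_lit 8320) (Tr.leaf (nat_lit 184602)) (Tr.leaf (nat_lit 738284))))) (Tr.node (nat_lit 41600) (Tr.node (nat_lit 23040) (Tr.leaf (nat_lit 738220)) (Tr.node (nat_lit 14400) (Tr.leaf (nat_lit 2882)) (Tr.leaf (nat_lit 737650)))) (Tr.node (nat_lit 1024) (Tr.leaf (nat_lit 720)) (Tr.node (nat_lit 7296) (Tr.leaf (nat_lit 737570)) (Tr.leaf (nat_lit 47197442))))))))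

noncomputable def jt50 : Tr :=
  (Tr.node (nat_lit 142208) (Tr.node (nat_lit 73088) (Tr.node (nat_lit 28992) (Tr.node (nat_lit 17792) (Tr.node (nat_lit 13632) (Tr.leaf (nat_lit 2879)) (Tr.leaf (nat_lit 2947815))) (Tr.node (nat_lit 3008) (Tr.leaf (nat_lit 184222)) (Tr.node (nat_lit 1856) (Tr.leaf (nat_lit 46052)) (Tr.leaf (nat_lit 179))))) (Tr.node (nat_lit 9600) (Tr.node (nat_lit 1280) (Tr.leaf (nat_lit 179)) (Tr.leaf (nat_lit 2946804))) (Tr.node (nat_lit 16576) (Tr.leaf (nat_lit 2946298)) (Tr.node (nat_lit 8320) (Tr.leaf (nat_lit 736322)) (Tr.leaf (nat_lit 736195)))))) (Tr.node (nat_lit 22656) (Tr.node (nat_lit 9024) (Tr.node (nat_lit 5184) (Tr.leaf (nat_lit 184012)) (Tr.leaf (nat_lit 183992))) (Tr.node (nat_lit 6272) (Tr.leaf (nat_lit 735912)) (Tr.node (nat_lit 4096) (Tr.leaf (nat_lit 735817)) (Tr.leaf (nat_lit 735754))))) (Tr.node (nat_lit 17472) (Tr.node (nat_lit 2816) (Tr.leaf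 (nat_lit 183926)) (Tr.node (nat_lit 2240) (Tr.leaf (nat_lit 179)) (Tr.leaf (nat_lit 183907)))) (Tr.node (nat_lit 4160) (Tr.leaf (nat_lit 11767033)) (Tr.node (nat_lit 10112) (Tr.leaf (nat_lit 183844)) (Tr.leaf (nat_lit 183805))))))) (Tr.node (nat_lit 107584) (Tr.node (nat_lit 57984) (Tr.node (nat_lit 29824) (Tr.node (nat_lit 8320) (Tr.leaf (nat_lit 734999)) (Tr.leaf (nat_lit 183718))) (Tr.node (nat_lit 19904) (Tr.leaf (nat_lit 2869)) (Tr.node (nat_lit 768) (Tr.leaf (nat_lit 183561)) (Tr.leaf (nat_lit 183558))))) (Tr.node (nat_lit 29952) (Tr.node (nat_lit 22912) (Tr.leaf (nat_lit 183529)) (Tr.node (nat_lit 6016) (Tr.leaf (nat_lit 45860)) (Tr.leaf (nat_lit 733680)))) (Tr.node (nat_lit 7296) (Tr.leaf (nat_lit 179)) (Tr.node (nat_lit 4096) (Tr.leaf (nat_lit 733555)) (Tr.leaf (nat_lit 733492)))))) (Tr.node (nat_lit 41408) (Tr.node (nat_lit 16576) (Tr.node (nat_lit 12544) (Tr.leaf (nat_lit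 733367)) (Tr.leaf (nat_lit 715))) (Tr.node (nat_lit 8256) (Tr.leaf (nat_lit 183279)) (Tr.node (nat_lit 4096) (Tr.leaf (nat_lit 183248)) (Tr.leaf (nat_lit 2931718))))) (Tr.node (nat_lit 20544) (Tr.node (nat_lit 2560) (Tr.leaf (nat_lit 178)) (Tr.node (nat_lit 12096) (Tr.leaf (nat_lit 183175)) (Tr.leaf (nat_lit 183129)))) (Tr.node (nat_lit 12224) (Tr.leaf (nat_lit 2929718)) (Tr.node (nat_lit 192) (Tr.leaf (nat_lit 45765)) (Tr.leaf (nat_lit 183060))))))))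

noncomputable def jt51 : Tr :=
  (Tr.node (nat_lit 186816) (Tr.node (nat_lit 80384) (Tr.node (nat_lit 43264) (Tr.node (nat_lit 14144) (Tr.node (nat_lit 13760) (Tr.leaf (nat_lit 732148)) (Tr.leaf (nat_lit 45746))) (Tr.node (nat_lit 4416) (Tr.leaf (nat_lit 182983)) (Tr.node (nat_lit 22656) (Tr.leaf (nat_lit 731867)) (Tr.leaf (nat_lit 731525))))) (Tr.node (nat_lit 12352) (Tr.node (nat_lit 6976) (Tr.leaf (nat_lit 182873)) (Tr.leaf (nat_lit 182847))) (Tr.node (nat_lit 16512) (Tr.leaf (nat_lit 731307)) (Tr.node (nat_lit 3968) (Tr.leaf (nat_lit 2924233)) (Tr.leaf (nat_lit 178)))))) (Tr.node (nat_lit 61696) (Tr.node (nat_lit 16448) (Tr.node (nat_lit 4096) (Tr.leaf (nat_lit 2923735)) (Tr.leaf (nat_lit 730871))) (Tr.node (nat_lit 19520) (Tr.leaf (nat_lit 730685)) (Tr.node (nat_lit 17536) (Tr.leaf (nat_lit 713)) (Tr.leaf (nat_lit 730126))))) (Tr.node (nat_lit 32512) (Tr.node (nat_lit 20224)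 (Tr.leaf (nat_lit 730002)) (Tr.node (nat_lit 6272) (Tr.leaf (nat_lit 2850)) (Tr.leaf (nat_lit 182400)))) (Tr.node (nat_lit 4992) (Tr.leaf (nat_lit 45594)) (Tr.node (nat_lit 3648) (Tr.leaf (nat_lit 178)) (Tr.leaf (nat_lit 182345))))))) (Tr.node (nat_lit 39552) (Tr.node (nat_lit 13888) (Tr.node (nat_lit 7872) (Tr.node (nat_lit 4608) (Tr.leaf (nat_lit 11395)) (Tr.leaf (nat_lit 182314))) (Tr.node (nat_lit 896) (Tr.leaf (nat_lit 45575)) (Tr.node (nat_lit 5056) (Tr.leaf (nat_lit 2916785)) (Tr.leaf (nat_lit 712))))) (Tr.node (nat_lit 13376) (Tr.node (nat_lit 3072) (Tr.leaf (nat_lit 729119)) (Tr.node (nat_lit 4096) (Tr.leaf (nat_lit 729072)) (Tr.leaf (nat_lit 182252)))) (Tr.node (nat_lit 5248) (Tr.leaf (nat_lit 728918)) (Tr.node (nat_lit 896) (Tr.leaf (nat_lit 177)) (Tr.leaf (nat_lit 728825)))))) (Tr.node (nat_lit 32448) (Tr.node (nat_lit 12864) (Tr.node (nat_lit 6144) (Tr.leaf (nat_lit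 728732)) (Tr.leaf (nat_lit 182159))) (Tr.node (nat_lit 5760) (Tr.leaf (nat_lit 728539)) (Tr.node (nat_lit 12160) (Tr.leaf (nat_lit 711)) (Tr.leaf (nat_lit 728269))))) (Tr.node (nat_lit 20096) (Tr.node (nat_lit 4928) (Tr.leaf (nat_lit 45515)) (Tr.node (nat_lit 5760) (Tr.leaf (nat_lit 177)) (Tr.leaf (nat_lit 728083)))) (Tr.node (nat_lit 2880) (Tr.leaf (nat_lit 45496)) (Tr.node (nat_lit 2304) (Tr.leaf (nat_lit 181974)) (Tr.leaf (nat_lit 181966))))))))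

noncomputable def jt52 : Tr :=
  (Tr.node (nat_lit 114688) (Tr.node (nat_lit 70976) (Tr.node (nat_lit 37184) (Tr.node (nat_lit 24576) (Tr.node (nat_lit 16384) (Tr.leaf (nat_lit 727775)) (Tr.leaf (nat_lit 181882))) (Tr.node (nat_lit 4096) (Tr.leaf (nat_lit 727405)) (Tr.node (nat_lit 8256) (Tr.leaf (nat_lit 727344)) (Tr.leaf (nat_lit 727221))))) (Tr.node (nat_lit 12032) (Tr.node (nat_lit 3840) (Tr.leaf (nat_lit 181804)) (Tr.leaf (nat_lit 181789))) (Tr.node (nat_lit 4096) (Tr.leaf (nat_lit 727036)) (Tr.node (nat_lit 8192) (Tr.leaf (nat_lit 2907899)) (Tr.leaf (nat_lit 726851)))))) (Tr.node (nat_lit 21440) (Tr.node (nat_lit 6912) (Tr.node (nat_lit 2816) (Tr.leaf (nat_lit 181677)) (Tr.leaf (nat_lit 181666))) (Tr.node (nat_lit 5888) (Tr.leaf (nat_lit 726605)) (Tr.node (nat_lit 2304) (Tr.leaf (nat_lit 181629)) (Tr.leaf (nat_lit 2905931))))) (Tr.node (nat_lit 9984) (Tr.node (nat_lit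 5888) (Tr.leaf (nat_lit 45399)) (Tr.node (nat_lit 3264) (Tr.leaf (nat_lit 181574)) (Tr.leaf (nat_lit 709)))) (Tr.node (nat_lit 960) (Tr.leaf (nat_lit 726237)) (Tr.node (nat_lit 7232) (Tr.leaf (nat_lit 45388)) (Tr.leaf (nat_lit 2904458))))))) (Tr.node (nat_lit 73600) (Tr.node (nat_lit 32768) (Tr.node (nat_lit 12288) (Tr.node (nat_lit 8192) (Tr.leaf (nat_lit 181513)) (Tr.leaf (nat_lit 181482))) (Tr.node (nat_lit 3200) (Tr.leaf (nat_lit 725869)) (Tr.node (nat_lit 9088) (Tr.leaf (nat_lit 177)) (Tr.leaf (nat_lit 725685))))) (Tr.node (nat_lit 15104) (Tr.node (nat_lit 12224) (Tr.leaf (nat_lit 181390)) (Tr.node (nat_lit 768) (Tr.leaf (nat_lit 725378)) (Tr.leaf (nat_lit 181341)))) (Tr.node (nat_lit 6208) (Tr.leaf (nat_lit 708)) (Tr.node (nat_lit 3200) (Tr.leaf (nat_lit 181310)) (Tr.leaf (nat_lit 725194)))))) (Tr.node (nat_lit 35712) (Tr.node (nat_lit 10496) (Tr.node (nat_lit 9664) (Tr.leaf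 (nat_lit 724950)) (Tr.leaf (nat_lit 176))) (Tr.node (nat_lit 1792) (Tr.leaf (nat_lit 181198)) (Tr.node (nat_lit 11968) (Tr.leaf (nat_lit 724766)) (Tr.leaf (nat_lit 181146))))) (Tr.node (nat_lit 20672) (Tr.node (nat_lit 1024) (Tr.leaf (nat_lit 2829)) (Tr.node (nat_lit 18368) (Tr.leaf (nat_lit 2897599)) (Tr.leaf (nat_lit 724125)))) (Tr.node (nat_lit 768) (Tr.leaf (nat_lit 181026)) (Tr.node (nat_lit 5376) (Tr.leaf (nat_lit 181023)) (Tr.leaf (nat_lit 45250))))))))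

noncomputable def jt53 : Tr :=
  (Tr.node (nat_lit 154496) (Tr.node (nat_lit 67264) (Tr.node (nat_lit 36672) (Tr.node (nat_lit 12224) (Tr.node (nat_lit 4032) (Tr.leaf (nat_lit 723911)) (Tr.leaf (nat_lit 180962))) (Tr.node (nat_lit 4096) (Tr.leaf (nat_lit 723728)) (Tr.node (nat_lit 8128) (Tr.leaf (nat_lit 723667)) (Tr.leaf (nat_lit 11576731))))) (Tr.node (nat_lit 7808) (Tr.node (nat_lit 4096) (Tr.leaf (nat_lit 2893451)) (Tr.leaf (nat_lit 723302))) (Tr.node (nat_lit 2176) (Tr.leaf (nat_lit 176)) (Tr.node (nat_lit 18560) (Tr.leaf (nat_lit 45200)) (Tr.leaf (nat_lit 722936)))))) (Tr.node (nat_lit 35072) (Tr.node (nat_lit 18304) (Tr.node (nat_lit 6080) (Tr.leaf (nat_lit 722906)) (Tr.leaf (nat_lit 722815))) (Tr.node (nat_lit 4096) (Tr.leaf (nat_lit 180658)) (Tr.node (nat_lit 12224) (Tr.leaf (nat_lit 2890287)) (Tr.leaf (nat_lit 722389))))) (Tr.node (nat_lit 23936) (Tr.node (nat_lit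 11712) (Tr.leaf (nat_lit 45148)) (Tr.node (nat_lit 7424) (Tr.leaf (nat_lit 722207)) (Tr.leaf (nat_lit 180524)))) (Tr.node (nat_lit 20352) (Tr.leaf (nat_lit 180506)) (Tr.node (nat_lit 4032) (Tr.leaf (nat_lit 721721)) (Tr.leaf (nat_lit 180415))))))) (Tr.node (nat_lit 89664) (Tr.node (nat_lit 40704) (Tr.node (nat_lit 11712) (Tr.node (nat_lit 4416) (Tr.leaf (nat_lit 180401)) (Tr.leaf (nat_lit 176))) (Tr.node (nat_lit 8896) (Tr.leaf (nat_lit 11272)) (Tr.node (nat_lit 10624) (Tr.leaf (nat_lit 180324)) (Tr.leaf (nat_lit 45071))))) (Tr.node (nat_lit 28608) (Tr.node (nat_lit 16448) (Tr.leaf (nat_lit 176)) (Tr.node (nat_lit 11904) (Tr.leaf (nat_lit 720753)) (Tr.leaf (nat_lit 45035)))) (Tr.node (nat_lit 512) (Tr.leaf (nat_lit 720571)) (Tr.node (nat_lit 7616) (Tr.leaf (nat_lit 703)) (Tr.leaf (nat_lit 180112)))))) (Tr.node (nat_lit 28352) (Tr.node (nat_lit 9856) (Tr.node (nat_lit 4032) (Tr.leaf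 (nat_lit 720269)) (Tr.leaf (nat_lit 180052))) (Tr.node (nat_lit 6336) (Tr.leaf (nat_lit 180030)) (Tr.node (nat_lit 9664) (Tr.leaf (nat_lit 720028)) (Tr.leaf (nat_lit 44992))))) (Tr.node (nat_lit 20288) (Tr.node (nat_lit 2432) (Tr.leaf (nat_lit 179961)) (Tr.node (nat_lit 15872) (Tr.leaf (nat_lit 179952)) (Tr.leaf (nat_lit 719575)))) (Tr.node (nat_lit 4096) (Tr.leaf (nat_lit 719545)) (Tr.node (nat_lit 8064) (Tr.leaf (nat_lit 179871)) (Tr.leaf (nat_lit 179841))))))))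

noncomputable def jt54 : Tr :=
  (Tr.node (nat_lit 145664) (Tr.node (nat_lit 69120) (Tr.node (nat_lit 44544) (Tr.node (nat_lit 29248) (Tr.node (nat_lit 13376) (Tr.leaf (nat_lit 719304)) (Tr.leaf (nat_lit 179776))) (Tr.node (nat_lit 5888) (Tr.leaf (nat_lit 179717)) (Tr.node (nat_lit 1344) (Tr.leaf (nat_lit 44923)) (Tr.leaf (nat_lit 718762))))) (Tr.node (nat_lit 11584) (Tr.node (nat_lit 4032) (Tr.leaf (nat_lit 179660)) (Tr.leaf (nat_lit 718582))) (Tr.node (nat_lit 576) (Tr.leaf (nat_lit 175)) (Tr.node (nat_lit 12160) (Tr.leaf (nat_lit 2873848)) (Tr.leaf (nat_lit 179570)))))) (Tr.node (nat_lit 40192) (Tr.node (nat_lit 20224) (Tr.node (nat_lit 11520) (Tr.leaf (nat_lit 179569)) (Tr.leaf (nat_lit 701))) (Tr.node (nat_lit 5120) (Tr.leaf (nat_lit 179494)) (Tr.node (nat_lit 2688) (Tr.leaf (nat_lit 44868)) (Tr.leaf (nat_lit 717861))))) (Tr.node (nat_lit 23680) (Tr.node (nat_lit 8064)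 (Tr.leaf (nat_lit 179420)) (Tr.node (nat_lit 14464) (Tr.leaf (nat_lit 179390)) (Tr.leaf (nat_lit 2802)))) (Tr.node (nat_lit 576) (Tr.leaf (nat_lit 44833)) (Tr.node (nat_lit 8064) (Tr.leaf (nat_lit 717322)) (Tr.leaf (nat_lit 717202))))))) (Tr.node (nat_lit 70464) (Tr.node (nat_lit 36416) (Tr.node (nat_lit 12160) (Tr.node (nat_lit 6848) (Tr.leaf (nat_lit 717142)) (Tr.leaf (nat_lit 179260))) (Tr.node (nat_lit 10368) (Tr.leaf (nat_lit 179240)) (Tr.node (nat_lit 9792) (Tr.leaf (nat_lit 179202)) (Tr.leaf (nat_lit 716663))))) (Tr.node (nat_lit 20928) (Tr.node (nat_lit 1984) (Tr.leaf (nat_lit 179151)) (Tr.node (nat_lit 11008) (Tr.leaf (nat_lit 716574)) (Tr.leaf (nat_lit 699)))) (Tr.node (nat_lit 5888) (Tr.leaf (nat_lit 179073)) (Tr.node (nat_lit 3968) (Tr.leaf (nat_lit 44762)) (Tr.leaf (nat_lit 44759)))))) (Tr.node (nat_lit 34560) (Tr.node (nat_lit 10304) (Tr.node (nat_lit 2240) (Tr.leaf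 (nat_lit 2797)) (Tr.leaf (nat_lit 716066))) (Tr.node (nat_lit 4032) (Tr.leaf (nat_lit 715947)) (Tr.node (nat_lit 12096) (Tr.leaf (nat_lit 715887)) (Tr.leaf (nat_lit 715708))))) (Tr.node (nat_lit 15360) (Tr.node (nat_lit 4032) (Tr.leaf (nat_lit 715589)) (Tr.node (nat_lit 8064) (Tr.leaf (nat_lit 2862118)) (Tr.leaf (nat_lit 178852)))) (Tr.node (nat_lit 768) (Tr.leaf (nat_lit 178840)) (Tr.node (nat_lit 8000) (Tr.leaf (nat_lit 2861403)) (Tr.leaf (nat_lit 715231))))))))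

noncomputable def jt55 : Tr :=
  (Tr.node (nat_lit 123392) (Tr.node (nat_lit 34880) (Tr.node (nat_lit 8704) (Tr.node (nat_lit 3008) (Tr.node (nat_lit 2624) (Tr.leaf (nat_lit 2793)) (Tr.leaf (nat_lit 178793))) (Tr.node (nat_lit 1920) (Tr.leaf (nat_lit 698)) (Tr.node (nat_lit 704) (Tr.leaf (nat_lit 178784)) (Tr.leaf (nat_lit 174))))) (Tr.node (nat_lit 9408) (Tr.node (nat_lit 6656) (Tr.leaf (nat_lit 715083)) (Tr.leaf (nat_lit 44686))) (Tr.node (nat_lit 4672) (Tr.leaf (nat_lit 178735)) (Tr.node (nat_lit 6080) (Tr.leaf (nat_lit 2859498)) (Tr.leaf (nat_lit 714785)))))) (Tr.node (nat_lit 52352) (Tr.node (nat_lit 19840) (Tr.node (nat_lit 5312) (Tr.leaf (nat_lit 714696)) (Tr.leaf (nat_lit 178654))) (Tr.node (nat_lit 3392) (Tr.leaf (nat_lit 44650)) (Tr.node (nat_lit 4928) (Tr.leaf (nat_lit 174)) (Tr.leaf (nat_lit 714280))))) (Tr.node (nat_lit 20096) (Tr.node (nat_lit 8000) (Tr.leaf (nat_lit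 45691141)) (Tr.node (nat_lit 4032) (Tr.leaf (nat_lit 713805)) (Tr.leaf (nat_lit 713746)))) (Tr.node (nat_lit 4032) (Tr.leaf (nat_lit 178406)) (Tr.node (nat_lit 4288) (Tr.leaf (nat_lit 713568)) (Tr.leaf (nat_lit 178376))))))) (Tr.node (nat_lit 78528) (Tr.node (nat_lit 20096) (Tr.node (nat_lit 8192) (Tr.node (nat_lit 8064) (Tr.leaf (nat_lit 178347)) (Tr.leaf (nat_lit 178317))) (Tr.node (nat_lit 1024) (Tr.leaf (nat_lit 174)) (Tr.node (nat_lit 2880) (Tr.leaf (nat_lit 178313)) (Tr.leaf (nat_lit 713212))))) (Tr.node (nat_lit 40192) (Tr.node (nat_lit 12096) (Tr.leaf (nat_lit 713094)) (Tr.node (nat_lit 21824) (Tr.leaf (nat_lit 178229)) (Tr.leaf (nat_lit 44537)))) (Tr.node (nat_lit 6016) (Tr.leaf (nat_lit 2850011)) (Tr.node (nat_lit 2112) (Tr.leaf (nat_lit 712414)) (Tr.leaf (nat_lit 2782)))))) (Tr.node (nat_lit 13824) (Tr.node (nat_lit 5824) (Tr.node (nat_lit 320) (Tr.leaf (nat_lit 178058))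 (Tr.leaf (nat_lit 695))) (Tr.node (nat_lit 768) (Tr.leaf (nat_lit 712148)) (Tr.node (nat_lit 1280) (Tr.leaf (nat_lit 178034)) (Tr.leaf (nat_lit 712118))))) (Tr.node (nat_lit 25728) (Tr.node (nat_lit 64) (Tr.leaf (nat_lit 11125)) (Tr.node (nat_lit 3968) (Tr.leaf (nat_lit 11392486)) (Tr.leaf (nat_lit 711971)))) (Tr.node (nat_lit 2432) (Tr.leaf (nat_lit 173)) (Tr.node (nat_lit 5056) (Tr.leaf (nat_lit 177904)) (Tr.leaf (nat_lit 173))))))))

noncomputable def jt56 : Tr :=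
  (Tr.node (nat_lit 146624) (Tr.node (nat_lit 77120) (Tr.node (nat_lit 37120) (Tr.node (nat_lit 13056) (Tr.node (nat_lit 1024) (Tr.leaf (nat_lit 44469)) (Tr.leaf (nat_lit 177874))) (Tr.node (nat_lit 9984) (Tr.leaf (nat_lit 711322)) (Tr.node (nat_lit 6144) (Tr.leaf (nat_lit 711175)) (Tr.leaf (nat_lit 177771))))) (Tr.node (nat_lit 5952) (Tr.node (nat_lit 2048) (Tr.leaf (nat_lit 710969)) (Tr.node (nat_lit 1152) (Tr.leaf (nat_lit 44433)) (Tr.leaf (nat_lit 177730)))) (Tr.node (nat_lit 20352) (Tr.leaf (nat_lit 710881)) (Tr.node (nat_lit 1728) (Tr.leaf (nat_lit 693)) (Tr.leaf (nat_lit 710557)))))) (Tr.node (nat_lit 24064) (Tr.node (nat_lit 3456) (Tr.node (nat_lit 384) (Tr.leaf (nat_lit 710381)) (Tr.leaf (nat_lit 44398))) (Tr.node (nat_lit 8576) (Tr.leaf (nat_lit 693)) (Tr.node (nat_lit 8000) (Tr.leaf (nat_lit 710205)) (Tr.leaf (nat_lit 177522))))) (Tr.node (nat_lit 35968) (Tr.node (nat_lit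 11968) (Tr.leaf (nat_lit 710029)) (Tr.node (nat_lit 12032) (Tr.leaf (nat_lit 177463)) (Tr.leaf (nat_lit 2838709)))) (Tr.node (nat_lit 768) (Tr.leaf (nat_lit 177375)) (Tr.node (nat_lit 7232) (Tr.leaf (nat_lit 2771)) (Tr.leaf (nat_lit 177346))))))) (Tr.node (nat_lit 82432) (Tr.node (nat_lit 19200) (Tr.node (nat_lit 10496) (Tr.node (nat_lit 9792) (Tr.leaf (nat_lit 709362)) (Tr.leaf (nat_lit 44326))) (Tr.node (nat_lit 768) (Tr.leaf (nat_lit 2836834)) (Tr.node (nat_lit 3264) (Tr.leaf (nat_lit 177299)) (Tr.leaf (nat_lit 177287))))) (Tr.node (nat_lit 27264) (Tr.node (nat_lit 15296) (Tr.leaf (nat_lit 173)) (Tr.node (nat_lit 3968) (Tr.leaf (nat_lit 708857)) (Tr.leaf (nat_lit 177199)))) (Tr.node (nat_lit 1920) (Tr.leaf (nat_lit 708682)) (Tr.node (nat_lit 32192) (Tr.leaf (nat_lit 692)) (Tr.leaf (nat_lit 2766)))))) (Tr.node (nat_lit 49152) (Tr.node (nat_lit 35328) (Tr.node (nat_lit 23936)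 (Tr.leaf (nat_lit 708156)) (Tr.leaf (nat_lit 2831224))) (Tr.node (nat_lit 12480) (Tr.leaf (nat_lit 691)) (Tr.node (nat_lit 512) (Tr.leaf (nat_lit 707456)) (Tr.leaf (nat_lit 172))))) (Tr.node (nat_lit 6848) (Tr.node (nat_lit 1920) (Tr.leaf (nat_lit 44214)) (Tr.node (nat_lit 768) (Tr.leaf (nat_lit 176852)) (Tr.leaf (nat_lit 176849)))) (Tr.node (nat_lit 3776) (Tr.leaf (nat_lit 44208)) (Tr.node (nat_lit 2752) (Tr.leaf (nat_lit 707281)) (Tr.leaf (nat_lit 44202))))))))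

noncomputable def jt57 : Tr :=
  (Tr.node (nat_lit 155456) (Tr.node (nat_lit 62464) (Tr.node (nat_lit 31936) (Tr.node (nat_lit 9728) (Tr.node (nat_lit 8000) (Tr.leaf (nat_lit 44201)) (Tr.leaf (nat_lit 707106))) (Tr.node (nat_lit 2240) (Tr.leaf (nat_lit 176770)) (Tr.node (nat_lit 10240) (Tr.leaf (nat_lit 176762)) (Tr.leaf (nat_lit 176724))))) (Tr.node (nat_lit 23872) (Tr.node (nat_lit 11904) (Tr.leaf (nat_lit 706757)) (Tr.leaf (nat_lit 176645))) (Tr.node (nat_lit 3968) (Tr.leaf (nat_lit 45210182)) (Tr.node (nat_lit 768) (Tr.leaf (nat_lit 176587)) (Tr.leaf (nat_lit 176585)))))) (Tr.node (nat_lit 25024) (Tr.node (nat_lit 5312) (Tr.node (nat_lit 3264) (Tr.leaf (nat_lit 172)) (Tr.leaf (nat_lit 706263))) (Tr.node (nat_lit 3968) (Tr.leaf (nat_lit 176558)) (Tr.node (nat_lit 11904) (Tr.leaf (nat_lit 706176)) (Tr.leaf (nat_lit 706002))))) (Tr.node (nat_lit 27968) (Tr.node (nat_lit 8128)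 (Tr.leaf (nat_lit 176486)) (Tr.node (nat_lit 11904) (Tr.leaf (nat_lit 705828)) (Tr.leaf (nat_lit 705654)))) (Tr.node (nat_lit 4032) (Tr.leaf (nat_lit 705538)) (Tr.node (nat_lit 1984) (Tr.leaf (nat_lit 2821923)) (Tr.leaf (nat_lit 705451))))))) (Tr.node (nat_lit 87232) (Tr.node (nat_lit 47424) (Tr.node (nat_lit 29888) (Tr.node (nat_lit 23680) (Tr.leaf (nat_lit 44059)) (Tr.leaf (nat_lit 688))) (Tr.node (nat_lit 10816) (Tr.leaf (nat_lit 176130)) (Tr.node (nat_lit 2752) (Tr.leaf (nat_lit 176090)) (Tr.leaf (nat_lit 704323))))) (Tr.node (nat_lit 13184) (Tr.node (nat_lit 1984) (Tr.leaf (nat_lit 176066)) (Tr.node (nat_lit 1984) (Tr.leaf (nat_lit 704237)) (Tr.leaf (nat_lit 171)))) (Tr.node (nat_lit 10624) (Tr.leaf (nat_lit 687)) (Tr.node (nat_lit 11904) (Tr.leaf (nat_lit 175979)) (Tr.leaf (nat_lit 703746)))))) (Tr.node (nat_lit 25408) (Tr.node (nat_lit 4736) (Tr.node (nat_lit 1088) (Tr.leaf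 (nat_lit 703687)) (Tr.leaf (nat_lit 171))) (Tr.node (nat_lit 11008) (Tr.leaf (nat_lit 2748)) (Tr.node (nat_lit 2816) (Tr.leaf (nat_lit 175864)) (Tr.leaf (nat_lit 175854))))) (Tr.node (nat_lit 18048) (Tr.node (nat_lit 2176) (Tr.leaf (nat_lit 175829)) (Tr.node (nat_lit 3968) (Tr.leaf (nat_lit 703285)) (Tr.leaf (nat_lit 703228)))) (Tr.node (nat_lit 3008) (Tr.leaf (nat_lit 703055)) (Tr.node (nat_lit 4928) (Tr.leaf (nat_lit 703012)) (Tr.leaf (nat_lit 2811762))))))))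

noncomputable def jt58 : Tr :=
  (Tr.node (nat_lit 124608) (Tr.node (nat_lit 59392) (Tr.node (nat_lit 23744) (Tr.node (nat_lit 20096) (Tr.node (nat_lit 11904) (Tr.leaf (nat_lit 702883)) (Tr.leaf (nat_lit 11243369))) (Tr.node (nat_lit 1920) (Tr.leaf (nat_lit 43911)) (Tr.node (nat_lit 1216) (Tr.leaf (nat_lit 175640)) (Tr.leaf (nat_lit 171))))) (Tr.node (nat_lit 12416) (Tr.node (nat_lit 11904) (Tr.leaf (nat_lit 175634)) (Tr.leaf (nat_lit 702365))) (Tr.node (nat_lit 7360) (Tr.leaf (nat_lit 685)) (Tr.node (nat_lit 10688) (Tr.leaf (nat_lit 2809004)) (Tr.leaf (nat_lit 175524)))))) (Tr.node (nat_lit 30272) (Tr.node (nat_lit 7872) (Tr.node (nat_lit 5888) (Tr.leaf (nat_lit 2808085)) (Tr.leaf (nat_lit 701935))) (Tr.node (nat_lit 3968) (Tr.leaf (nat_lit 701906)) (Tr.node (nat_lit 7936) (Tr.leaf (nat_lit 175462)) (Tr.leaf (nat_lit 175433))))) (Tr.node (nat_lit 10944) (Tr.node (nat_lit 1344)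 (Tr.leaf (nat_lit 43848)) (Tr.node (nat_lit 3968) (Tr.leaf (nat_lit 701562)) (Tr.leaf (nat_lit 701505)))) (Tr.node (nat_lit 18048) (Tr.leaf (nat_lit 171)) (Tr.node (nat_lit 5888) (Tr.leaf (nat_lit 175290)) (Tr.leaf (nat_lit 684))))))) (Tr.node (nat_lit 49344) (Tr.node (nat_lit 25664) (Tr.node (nat_lit 5952) (Tr.node (nat_lit 1984) (Tr.leaf (nat_lit 701076)) (Tr.leaf (nat_lit 175261))) (Tr.node (nat_lit 2688) (Tr.leaf (nat_lit 700990)) (Tr.node (nat_lit 9152) (Tr.leaf (nat_lit 175237)) (Tr.leaf (nat_lit 700818))))) (Tr.node (nat_lit 11712) (Tr.node (nat_lit 6592) (Tr.leaf (nat_lit 700704)) (Tr.node (nat_lit 1088) (Tr.leaf (nat_lit 2736)) (Tr.leaf (nat_lit 175148)))) (Tr.node (nat_lit 1152) (Tr.leaf (nat_lit 43783)) (Tr.node (nat_lit 2944) (Tr.leaf (nat_lit 700518)) (Tr.leaf (nat_lit 175118)))))) (Tr.node (nat_lit 47296) (Tr.node (nat_lit 15808) (Tr.node (nat_lit 11840) (Tr.leaf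 (nat_lit 700361)) (Tr.leaf (nat_lit 700190))) (Tr.node (nat_lit 10816) (Tr.leaf (nat_lit 175033)) (Tr.node (nat_lit 12864) (Tr.leaf (nat_lit 683)) (Tr.leaf (nat_lit 699791))))) (Tr.node (nat_lit 11904) (Tr.node (nat_lit 64) (Tr.leaf (nat_lit 43729)) (Tr.node (nat_lit 3968) (Tr.leaf (nat_lit 174919)) (Tr.leaf (nat_lit 699620)))) (Tr.node (nat_lit 3904) (Tr.leaf (nat_lit 2798024)) (Tr.node (nat_lit 1984) (Tr.leaf (nat_lit 174862)) (Tr.leaf (nat_lit 699420))))))))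

noncomputable def jt59 : Tr :=
  (Tr.node (nat_lit 146560) (Tr.node (nat_lit 67648) (Tr.node (nat_lit 32192) (Tr.node (nat_lit 5952) (Tr.node (nat_lit 2688) (Tr.leaf (nat_lit 170)) (Tr.leaf (nat_lit 699363))) (Tr.node (nat_lit 7168) (Tr.leaf (nat_lit 43707)) (Tr.node (nat_lit 15168) (Tr.leaf (nat_lit 174803)) (Tr.leaf (nat_lit 174748))))) (Tr.node (nat_lit 23424) (Tr.node (nat_lit 9792) (Tr.leaf (nat_lit 698936)) (Tr.leaf (nat_lit 43674))) (Tr.node (nat_lit 256) (Tr.leaf (nat_lit 174649)) (Tr.node (nat_lit 10176) (Tr.leaf (nat_lit 2794383)) (Tr.leaf (nat_lit 43653)))))) (Tr.node (nat_lit 24000) (Tr.node (nat_lit 13760) (Tr.node (nat_lit 7872) (Tr.leaf (nat_lit 698425)) (Tr.leaf (nat_lit 174577))) (Tr.node (nat_lit 5952) (Tr.leaf (nat_lit 698226)) (Tr.node (nat_lit 3904) (Tr.leaf (nat_lit 2792566)) (Tr.leaf (nat_lit 698084))))) (Tr.node (nat_lit 29120) (Tr.node (nat_lit 12800)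 (Tr.leaf (nat_lit 170)) (Tr.node (nat_lit 6464) (Tr.leaf (nat_lit 2726)) (Tr.leaf (nat_lit 697801)))) (Tr.node (nat_lit 5888) (Tr.leaf (nat_lit 697659)) (Tr.node (nat_lit 7872) (Tr.leaf (nat_lit 697574)) (Tr.leaf (nat_lit 697461))))))) (Tr.node (nat_lit 60352) (Tr.node (nat_lit 35136) (Tr.node (nat_lit 10688) (Tr.node (nat_lit 4928) (Tr.leaf (nat_lit 170)) (Tr.leaf (nat_lit 174304))) (Tr.node (nat_lit 832) (Tr.leaf (nat_lit 43570)) (Tr.node (nat_lit 3968) (Tr.leaf (nat_lit 697121)) (Tr.leaf (nat_lit 174266))))) (Tr.node (nat_lit 15680) (Tr.node (nat_lit 3904) (Tr.leaf (nat_lit 2787129)) (Tr.node (nat_lit 7872) (Tr.leaf (nat_lit 174181)) (Tr.leaf (nat_lit 696612)))) (Tr.node (nat_lit 128) (Tr.leaf (nat_lit 696556)) (Tr.node (nat_lit 7744) (Tr.leaf (nat_lit 174138)) (Tr.leaf (nat_lit 696443)))))) (Tr.node (nat_lit 29184) (Tr.node (nat_lit 14016) (Tr.node (nat_lit 10112) (Tr.leaf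 (nat_lit 680)) (Tr.leaf (nat_lit 696274))) (Tr.node (nat_lit 7936) (Tr.leaf (nat_lit 696217)) (Tr.node (nat_lit 3840) (Tr.leaf (nat_lit 679)) (Tr.leaf (nat_lit 696048))))) (Tr.node (nat_lit 20096) (Tr.node (nat_lit 4416) (Tr.leaf (nat_lit 2718)) (Tr.node (nat_lit 2944) (Tr.leaf (nat_lit 173983)) (Tr.leaf (nat_lit 695893)))) (Tr.node (nat_lit 1664) (Tr.leaf (nat_lit 173927)) (Tr.node (nat_lit 2816) (Tr.leaf (nat_lit 43480)) (Tr.leaf (nat_lit 43477))))))))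

noncomputable def jt60 : Tr :=
  (Tr.node (nat_lit 129216) (Tr.node (nat_lit 70400) (Tr.node (nat_lit 23552) (Tr.node (nat_lit 7872) (Tr.node (nat_lit 320) (Tr.leaf (nat_lit 2782165)) (Tr.leaf (nat_lit 10867))) (Tr.node (nat_lit 5888) (Tr.leaf (nat_lit 11126858)) (Tr.node (nat_lit 5824) (Tr.leaf (nat_lit 173835)) (Tr.leaf (nat_lit 695259))))) (Tr.node (nat_lit 23488) (Tr.node (nat_lit 7808) (Tr.leaf (nat_lit 695203)) (Tr.leaf (nat_lit 695091))) (Tr.node (nat_lit 1920) (Tr.leaf (nat_lit 694866)) (Tr.node (nat_lit 9216) (Tr.leaf (nat_lit 694837)) (Tr.leaf (nat_lit 173676)))))) (Tr.node (nat_lit 19648) (Tr.node (nat_lit 6464) (Tr.node (nat_lit 128) (Tr.leaf (nat_lit 2713)) (Tr.leaf (nat_lit 2778115))) (Tr.node (nat_lit 1472) (Tr.leaf (nat_lit 43402)) (Tr.node (nat_lit 9792) (Tr.leaf (nat_lit 694416)) (Tr.leaf (nat_lit 694276))))) (Tr.node (nat_lit 23488) (Tr.node (nat_lit 3968)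 (Tr.leaf (nat_lit 173562)) (Tr.node (nat_lit 11712) (Tr.leaf (nat_lit 694192)) (Tr.leaf (nat_lit 173505)))) (Tr.node (nat_lit 11712) (Tr.leaf (nat_lit 173477)) (Tr.node (nat_lit 3200) (Tr.leaf (nat_lit 693743)) (Tr.leaf (nat_lit 173424))))))) (Tr.node (nat_lit 76160) (Tr.node (nat_lit 50368) (Tr.node (nat_lit 31232) (Tr.node (nat_lit 11712) (Tr.leaf (nat_lit 693687)) (Tr.leaf (nat_lit 693519))) (Tr.node (nat_lit 4672) (Tr.leaf (nat_lit 173309)) (Tr.node (nat_lit 10944) (Tr.leaf (nat_lit 173293)) (Tr.leaf (nat_lit 693016))))) (Tr.node (nat_lit 16000) (Tr.node (nat_lit 7296) (Tr.leaf (nat_lit 676)) (Tr.node (nat_lit 4736) (Tr.leaf (nat_lit 43303)) (Tr.leaf (nat_lit 169)))) (Tr.node (nat_lit 3904) (Tr.leaf (nat_lit 11083786)) (Tr.node (nat_lit 5248) (Tr.leaf (nat_lit 173170)) (Tr.leaf (nat_lit 173151)))))) (Tr.node (nat_lit 40960) (Tr.node (nat_lit 27968) (Tr.node (nat_lit 25344)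 (Tr.leaf (nat_lit 692597)) (Tr.leaf (nat_lit 173058))) (Tr.node (nat_lit 4928) (Tr.leaf (nat_lit 43262)) (Tr.node (nat_lit 6784) (Tr.leaf (nat_lit 173031)) (Tr.leaf (nat_lit 2703))))) (Tr.node (nat_lit 19392) (Tr.node (nat_lit 4160) (Tr.leaf (nat_lit 173002)) (Tr.node (nat_lit 3648) (Tr.leaf (nat_lit 172987)) (Tr.leaf (nat_lit 691899)))) (Tr.node (nat_lit 64) (Tr.leaf (nat_lit 172933)) (Tr.node (nat_lit 10368) (Tr.leaf (nat_lit 691732)) (Tr.leaf (nat_lit 43224))))))))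

noncomputable def jt61 : Tr :=
  (Tr.node (nat_lit 127872) (Tr.node (nat_lit 56448) (Tr.node (nat_lit 24128) (Tr.node (nat_lit 11072) (Tr.node (nat_lit 1984) (Tr.leaf (nat_lit 172891)) (Tr.leaf (nat_lit 168))) (Tr.node (nat_lit 12288) (Tr.leaf (nat_lit 675)) (Tr.node (nat_lit 256) (Tr.leaf (nat_lit 691231)) (Tr.leaf (nat_lit 43201))))) (Tr.node (nat_lit 11712) (Tr.node (nat_lit 9728) (Tr.leaf (nat_lit 172805)) (Tr.leaf (nat_lit 172770))) (Tr.node (nat_lit 10944) (Tr.leaf (nat_lit 10797)) (Tr.node (nat_lit 2880) (Tr.leaf (nat_lit 172724)) (Tr.leaf (nat_lit 690856)))))) (Tr.node (nat_lit 17536) (Tr.node (nat_lit 1984) (Tr.node (nat_lit 64) (Tr.leaf (nat_lit 168)) (Tr.leaf (nat_lit 690759))) (Tr.node (nat_lit 3904) (Tr.leaf (nat_lit 690731)) (Tr.node (nat_lit 1920) (Tr.leaf (nat_lit 172668)) (Tr.leaf (nat_lit 690648))))) (Tr.node (nat_lit 35712) (Tr.node (nat_lit 1216) (Tr.leaf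 (nat_lit 2762036)) (Tr.node (nat_lit 18240) (Tr.leaf (nat_lit 172622)) (Tr.leaf (nat_lit 690231)))) (Tr.node (nat_lit 7104) (Tr.leaf (nat_lit 673)) (Tr.node (nat_lit 4864) (Tr.leaf (nat_lit 172474)) (Tr.leaf (nat_lit 168))))))) (Tr.node (nat_lit 82112) (Tr.node (nat_lit 15424) (Tr.node (nat_lit 4480) (Tr.node (nat_lit 576) (Tr.leaf (nat_lit 43108)) (Tr.leaf (nat_lit 689732))) (Tr.node (nat_lit 704) (Tr.leaf (nat_lit 689677)) (Tr.node (nat_lit 7040) (Tr.leaf (nat_lit 172416)) (Tr.leaf (nat_lit 172391))))) (Tr.node (nat_lit 31808) (Tr.node (nat_lit 8448) (Tr.leaf (nat_lit 172380)) (Tr.node (nat_lit 11648) (Tr.leaf (nat_lit 2757603)) (Tr.leaf (nat_lit 689234)))) (Tr.node (nat_lit 3840) (Tr.leaf (nat_lit 689069)) (Tr.node (nat_lit 23296) (Tr.leaf (nat_lit 689013)) (Tr.leaf (nat_lit 172170)))))) (Tr.node (nat_lit 15552) (Tr.node (nat_lit 3904) (Tr.node (nat_lit 1024) (Tr.leaf (nat_lit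 688571)) (Tr.leaf (nat_lit 2689))) (Tr.node (nat_lit 5824) (Tr.leaf (nat_lit 688516)) (Tr.node (nat_lit 1920) (Tr.leaf (nat_lit 688433)) (Tr.leaf (nat_lit 688406))))) (Tr.node (nat_lit 16768) (Tr.node (nat_lit 2688) (Tr.leaf (nat_lit 172087)) (Tr.node (nat_lit 8960) (Tr.leaf (nat_lit 172078)) (Tr.leaf (nat_lit 688185)))) (Tr.node (nat_lit 1024) (Tr.leaf (nat_lit 43007)) (Tr.node (nat_lit 1600) (Tr.leaf (nat_lit 10751)) (Tr.leaf (nat_lit 688075))))))))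

noncomputable def jt62 : Tr :=
  (Tr.node (nat_lit 123968) (Tr.node (nat_lit 46528) (Tr.node (nat_lit 23296) (Tr.node (nat_lit 11648) (Tr.node (nat_lit 7808) (Tr.leaf (nat_lit 688020)) (Tr.leaf (nat_lit 171977))) (Tr.node (nat_lit 7744) (Tr.leaf (nat_lit 2751420)) (Tr.node (nat_lit 960) (Tr.leaf (nat_lit 687744)) (Tr.leaf (nat_lit 167))))) (Tr.node (nat_lit 6464) (Tr.node (nat_lit 1408) (Tr.leaf (nat_lit 171922)) (Tr.leaf (nat_lit 167))) (Tr.node (nat_lit 1280) (Tr.leaf (nat_lit 42974)) (Tr.node (nat_lit 9472) (Tr.leaf (nat_lit 687579)) (Tr.leaf (nat_lit 171861)))))) (Tr.node (nat_lit 16384) (Tr.node (nat_lit 5248) (Tr.node (nat_lit 4096) (Tr.leaf (nat_lit 171839)) (Tr.leaf (nat_lit 171825))) (Tr.node (nat_lit 6400) (Tr.leaf (nat_lit 671)) (Tr.node (nat_lit 2624) (Tr.leaf (nat_lit 10995116)) (Tr.leaf (nat_lit 167))))) (Tr.node (nat_lit 35136) (Tr.node (nat_lit 6848) (Tr.leaf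 (nat_lit 42945)) (Tr.node (nat_lit 7744) (Tr.leaf (nat_lit 171757)) (Tr.leaf (nat_lit 686919)))) (Tr.node (nat_lit 2688) (Tr.leaf (nat_lit 171657)) (Tr.node (nat_lit 3840) (Tr.leaf (nat_lit 171647)) (Tr.leaf (nat_lit 10984571))))))) (Tr.node (nat_lit 84992) (Tr.node (nat_lit 38656) (Tr.node (nat_lit 9664) (Tr.node (nat_lit 3840) (Tr.leaf (nat_lit 171565)) (Tr.leaf (nat_lit 686206))) (Tr.node (nat_lit 1920) (Tr.leaf (nat_lit 686124)) (Tr.node (nat_lit 13312) (Tr.leaf (nat_lit 2744388)) (Tr.leaf (nat_lit 171477))))) (Tr.node (nat_lit 30912) (Tr.node (nat_lit 7680) (Tr.leaf (nat_lit 171428)) (Tr.node (nat_lit 22080) (Tr.leaf (nat_lit 685604)) (Tr.leaf (nat_lit 167)))) (Tr.node (nat_lit 6208) (Tr.leaf (nat_lit 685275)) (Tr.node (nat_lit 3392) (Tr.leaf (nat_lit 42824)) (Tr.leaf (nat_lit 685139)))))) (Tr.node (nat_lit 24384) (Tr.node (nat_lit 15296) (Tr.node (nat_lit 7744) (Tr.leaf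 (nat_lit 171264)) (Tr.leaf (nat_lit 171237))) (Tr.node (nat_lit 320) (Tr.leaf (nat_lit 171210)) (Tr.node (nat_lit 7552) (Tr.leaf (nat_lit 668)) (Tr.leaf (nat_lit 684729))))) (Tr.node (nat_lit 16384) (Tr.node (nat_lit 6464) (Tr.leaf (nat_lit 171178)) (Tr.node (nat_lit 3904) (Tr.leaf (nat_lit 171155)) (Tr.leaf (nat_lit 684566)))) (Tr.node (nat_lit 5504) (Tr.leaf (nat_lit 668)) (Tr.node (nat_lit 7744) (Tr.leaf (nat_lit 684402)) (Tr.leaf (nat_lit 171073))))))))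

noncomputable def jt63 : Tr :=
  (Tr.node (nat_lit 135040) (Tr.node (nat_lit 67264) (Tr.node (nat_lit 35200) (Tr.node (nat_lit 14528) (Tr.node (nat_lit 5120) (Tr.leaf (nat_lit 42761)) (Tr.leaf (nat_lit 684116))) (Tr.node (nat_lit 9728) (Tr.leaf (nat_lit 2671)) (Tr.node (nat_lit 3008) (Tr.leaf (nat_lit 166)) (Tr.leaf (nat_lit 683803))))) (Tr.node (nat_lit 7488) (Tr.node (nat_lit 3648) (Tr.leaf (nat_lit 170922)) (Tr.leaf (nat_lit 683639))) (Tr.node (nat_lit 1024) (Tr.leaf (nat_lit 683585)) (Tr.node (nat_lit 10496) (Tr.leaf (nat_lit 10680)) (Tr.leaf (nat_lit 170855)))))) (Tr.node (nat_lit 22080) (Tr.node (nat_lit 10048) (Tr.node (nat_lit 1024) (Tr.leaf (nat_lit 166)) (Tr.leaf (nat_lit 170805))) (Tr.node (nat_lit 7744) (Tr.leaf (nat_lit 683096)) (Tr.node (nat_lit 3840) (Tr.leaf (nat_lit 170746)) (Tr.leaf (nat_lit 682933))))) (Tr.node (nat_lit 24512) (Tr.node (nat_lit 7232) (Tr.leaf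 (nat_lit 682926)) (Tr.node (nat_lit 11520) (Tr.leaf (nat_lit 2731298)) (Tr.leaf (nat_lit 170665)))) (Tr.node (nat_lit 11584) (Tr.leaf (nat_lit 166)) (Tr.node (nat_lit 5760) (Tr.leaf (nat_lit 682417)) (Tr.leaf (nat_lit 170584))))))) (Tr.node (nat_lit 72576) (Tr.node (nat_lit 17408) (Tr.node (nat_lit 7680) (Tr.node (nat_lit 5696) (Tr.leaf (nat_lit 682282)) (Tr.leaf (nat_lit 2664))) (Tr.node (nat_lit 3840) (Tr.leaf (nat_lit 2728695)) (Tr.node (nat_lit 2880) (Tr.leaf (nat_lit 682119)) (Tr.leaf (nat_lit 682079))))) (Tr.node (nat_lit 24896) (Tr.node (nat_lit 1792) (Tr.leaf (nat_lit 170509)) (Tr.node (nat_lit 832) (Tr.leaf (nat_lit 682011)) (Tr.leaf (nat_lit 42624)))) (Tr.node (nat_lit 10560) (Tr.leaf (nat_lit 170421)) (Tr.node (nat_lit 16320) (Tr.leaf (nat_lit 42596)) (Tr.leaf (nat_lit 10900932)))))) (Tr.node (nat_lit 33088) (Tr.node (nat_lit 15808) (Tr.node (nat_lit 8128) (Tr.leaf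 (nat_lit 42578)) (Tr.leaf (nat_lit 170286))) (Tr.node (nat_lit 11520) (Tr.leaf (nat_lit 170259)) (Tr.node (nat_lit 3840) (Tr.leaf (nat_lit 2723504)) (Tr.leaf (nat_lit 680822))))) (Tr.node (nat_lit 14464) (Tr.node (nat_lit 1984) (Tr.leaf (nat_lit 680795)) (Tr.node (nat_lit 3712) (Tr.leaf (nat_lit 166)) (Tr.leaf (nat_lit 170178)))) (Tr.node (nat_lit 12032) (Tr.leaf (nat_lit 2658)) (Tr.node (nat_lit 6080) (Tr.leaf (nat_lit 664)) (Tr.leaf (nat_lit 680336))))))))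

noncomputable def jt64 : Tr :=
  (Tr.node (nat_lit 124800) (Tr.node (nat_lit 69312) (Tr.node (nat_lit 40640) (Tr.node (nat_lit 6144) (Tr.node (nat_lit 1088) (Tr.leaf (nat_lit 166)) (Tr.leaf (nat_lit 170074))) (Tr.node (nat_lit 64) (Tr.leaf (nat_lit 2720916)) (Tr.node (nat_lit 31296) (Tr.leaf (nat_lit 42514)) (Tr.leaf (nat_lit 10621))))) (Tr.node (nat_lit 11456) (Tr.node (nat_lit 3776) (Tr.leaf (nat_lit 169936)) (Tr.node (nat_lit 320) (Tr.leaf (nat_lit 679690)) (Tr.leaf (nat_lit 42480)))) (Tr.node (nat_lit 3840) (Tr.leaf (nat_lit 10873334)) (Tr.node (nat_lit 10560) (Tr.leaf (nat_lit 169882)) (Tr.leaf (nat_lit 679381)))))) (Tr.node (nat_lit 21056) (Tr.node (nat_lit 9600) (Tr.node (nat_lit 7616) (Tr.leaf (nat_lit 679341)) (Tr.leaf (nat_lit 169808))) (Tr.node (nat_lit 1344) (Tr.leaf (nat_lit 169801)) (Tr.node (nat_lit 6336) (Tr.leaf (nat_lit 663)) (Tr.leaf (nat_lit 679099))))) (Tr.node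 (nat_lit 17984) (Tr.node (nat_lit 7680) (Tr.leaf (nat_lit 2716184)) (Tr.node (nat_lit 3840) (Tr.leaf (nat_lit 678938)) (Tr.leaf (nat_lit 169721)))) (Tr.node (nat_lit 7808) (Tr.leaf (nat_lit 169698)) (Tr.node (nat_lit 7488) (Tr.leaf (nat_lit 42417)) (Tr.leaf (nat_lit 42411))))))) (Tr.node (nat_lit 64128) (Tr.node (nat_lit 31296) (Tr.node (nat_lit 22144) (Tr.node (nat_lit 11456) (Tr.leaf (nat_lit 169640)) (Tr.leaf (nat_lit 678402))) (Tr.node (nat_lit 832) (Tr.leaf (nat_lit 42390)) (Tr.node (nat_lit 5696) (Tr.leaf (nat_lit 678241)) (Tr.leaf (nat_lit 678161))))) (Tr.node (nat_lit 14592) (Tr.node (nat_lit 3136) (Tr.leaf (nat_lit 169531)) (Tr.node (nat_lit 8320) (Tr.leaf (nat_lit 678081)) (Tr.leaf (nat_lit 165)))) (Tr.node (nat_lit 7616) (Tr.leaf (nat_lit 169480)) (Tr.node (nat_lit 9664) (Tr.leaf (nat_lit 677813)) (Tr.leaf (nat_lit 2647)))))) (Tr.node (nat_lit 17216) (Tr.node (nat_lit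 3008) (Tr.node (nat_lit 832) (Tr.leaf (nat_lit 169416)) (Tr.leaf (nat_lit 677653))) (Tr.node (nat_lit 8000) (Tr.leaf (nat_lit 169405)) (Tr.node (nat_lit 5120) (Tr.leaf (nat_lit 661)) (Tr.leaf (nat_lit 2709758))))) (Tr.node (nat_lit 17984) (Tr.node (nat_lit 2496) (Tr.leaf (nat_lit 169356)) (Tr.node (nat_lit 4032) (Tr.leaf (nat_lit 169347)) (Tr.leaf (nat_lit 677332)))) (Tr.node (nat_lit 15296) (Tr.leaf (nat_lit 677172)) (Tr.node (nat_lit 16768) (Tr.leaf (nat_lit 169239)) (Tr.leaf (nat_lit 10573))))))))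

noncomputable def jt65 : Tr :=
  (Tr.node (nat_lit 120320) (Tr.node (nat_lit 51456) (Tr.node (nat_lit 22848) (Tr.node (nat_lit 8576) (Tr.node (nat_lit 4992) (Tr.leaf (nat_lit 676692)) (Tr.leaf (nat_lit 676622))) (Tr.node (nat_lit 2816) (Tr.leaf (nat_lit 165)) (Tr.node (nat_lit 3840) (Tr.leaf (nat_lit 169133)) (Tr.leaf (nat_lit 676479))))) (Tr.node (nat_lit 704) (Tr.node (nat_lit 640) (Tr.leaf (nat_lit 2705491)) (Tr.leaf (nat_lit 165))) (Tr.node (nat_lit 9344) (Tr.leaf (nat_lit 169090)) (Tr.node (nat_lit 1408) (Tr.leaf (nat_lit 42264)) (Tr.leaf (nat_lit 169053)))))) (Tr.node (nat_lit 32320) (Tr.node (nat_lit 11648) (Tr.node (nat_lit 9600) (Tr.leaf (nat_lit 675973)) (Tr.leaf (nat_lit 164))) (Tr.node (nat_lit 5440) (Tr.leaf (nat_lit 42238)) (Tr.node (nat_lit 3840) (Tr.leaf (nat_lit 2702937)) (Tr.leaf (nat_lit 168920))))) (Tr.node (nat_lit 19072) (Tr.node (nat_lit 10496) (Tr.leaf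 (nat_lit 2702087)) (Tr.node (nat_lit 960) (Tr.leaf (nat_lit 675375)) (Tr.leaf (nat_lit 675362)))) (Tr.node (nat_lit 11392) (Tr.leaf (nat_lit 168814)) (Tr.node (nat_lit 3840) (Tr.leaf (nat_lit 675097)) (Tr.leaf (nat_lit 675043))))))) (Tr.node (nat_lit 63104) (Tr.node (nat_lit 13184) (Tr.node (nat_lit 9152) (Tr.node (nat_lit 5312) (Tr.leaf (nat_lit 2636)) (Tr.leaf (nat_lit 674937))) (Tr.node (nat_lit 1984) (Tr.leaf (nat_lit 2699539)) (Tr.node (nat_lit 1216) (Tr.leaf (nat_lit 168714)) (Tr.leaf (nat_lit 164))))) (Tr.node (nat_lit 26368) (Tr.node (nat_lit 10944) (Tr.leaf (nat_lit 168707)) (Tr.node (nat_lit 4032) (Tr.leaf (nat_lit 42167)) (Tr.leaf (nat_lit 674619)))) (Tr.node (nat_lit 11392) (Tr.leaf (nat_lit 10791375)) (Tr.node (nat_lit 11392) (Tr.leaf (nat_lit 168575)) (Tr.leaf (nat_lit 674143)))))) (Tr.node (nat_lit 38912) (Tr.node (nat_lit 22016) (Tr.node (nat_lit 3072) (Tr.leaf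 (nat_lit 168533)) (Tr.leaf (nat_lit 168522))) (Tr.node (nat_lit 3840) (Tr.leaf (nat_lit 673826)) (Tr.node (nat_lit 11392) (Tr.leaf (nat_lit 673773)) (Tr.leaf (nat_lit 2694458))))) (Tr.node (nat_lit 17280) (Tr.node (nat_lit 5888) (Tr.leaf (nat_lit 42099)) (Tr.node (nat_lit 3520) (Tr.leaf (nat_lit 673509)) (Tr.leaf (nat_lit 164)))) (Tr.node (nat_lit 3072) (Tr.leaf (nat_lit 168337)) (Tr.node (nat_lit 4992) (Tr.leaf (nat_lit 168326)) (Tr.leaf (nat_lit 657))))))))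

noncomputable def jt66 : Tr :=
  (Tr.node (nat_lit 146304) (Tr.node (nat_lit 83840) (Tr.node (nat_lit 45696) (Tr.node (nat_lit 5248) (Tr.node (nat_lit 1472) (Tr.leaf (nat_lit 657)) (Tr.leaf (nat_lit 168258))) (Tr.node (nat_lit 7616) (Tr.leaf (nat_lit 672981)) (Tr.node (nat_lit 15168) (Tr.leaf (nat_lit 672875)) (Tr.leaf (nat_lit 672665))))) (Tr.node (nat_lit 11648) (Tr.node (nat_lit 7168) (Tr.leaf (nat_lit 42026)) (Tr.leaf (nat_lit 168079))) (Tr.node (nat_lit 12352) (Tr.leaf (nat_lit 2626)) (Tr.node (nat_lit 8320) (Tr.leaf (nat_lit 168021)) (Tr.leaf (nat_lit 167992)))))) (Tr.node (nat_lit 29376) (Tr.node (nat_lit 19904) (Tr.node (nat_lit 4544) (Tr.leaf (nat_lit 164)) (Tr.leaf (nat_lit 167956))) (Tr.node (nat_lit 2048) (Tr.leaf (nat_lit 671613)) (Tr.node (nat_lit 1792) (Tr.leaf (nat_lit 41974)) (Tr.leaf (nat_lit 167890))))) (Tr.node (nat_lit 24576) (Tr.node (nat_lit 1792) (Tr.leaf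 (nat_lit 671482)) (Tr.node (nat_lit 4096) (Tr.leaf (nat_lit 167864)) (Tr.leaf (nat_lit 163)))) (Tr.node (nat_lit 3840) (Tr.leaf (nat_lit 167785)) (Tr.node (nat_lit 1088) (Tr.leaf (nat_lit 171798691)) (Tr.leaf (nat_lit 41942))))))) (Tr.node (nat_lit 74688) (Tr.node (nat_lit 17984) (Tr.node (nat_lit 6656) (Tr.node (nat_lit 2880) (Tr.leaf (nat_lit 671023)) (Tr.leaf (nat_lit 670983))) (Tr.node (nat_lit 6400) (Tr.leaf (nat_lit 670931)) (Tr.node (nat_lit 1152) (Tr.leaf (nat_lit 167710)) (Tr.leaf (nat_lit 670826))))) (Tr.node (nat_lit 30208) (Tr.node (nat_lit 11328) (Tr.leaf (nat_lit 670774)) (Tr.node (nat_lit 11328) (Tr.leaf (nat_lit 167654)) (Tr.leaf (nat_lit 670460)))) (Tr.node (nat_lit 3776) (Tr.leaf (nat_lit 670355)) (Tr.node (nat_lit 21952) (Tr.leaf (nat_lit 670303)) (Tr.leaf (nat_lit 41874)))))) (Tr.node (nat_lit 30144) (Tr.node (nat_lit 11264) (Tr.node (nat_lit 7488) (Tr.leaf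 (nat_lit 167497)) (Tr.leaf (nat_lit 167471))) (Tr.node (nat_lit 832) (Tr.leaf (nat_lit 2679330)) (Tr.node (nat_lit 4160) (Tr.leaf (nat_lit 167455)) (Tr.leaf (nat_lit 167441))))) (Tr.node (nat_lit 22656) (Tr.node (nat_lit 3776) (Tr.leaf (nat_lit 167392)) (Tr.node (nat_lit 13696) (Tr.leaf (nat_lit 669519)) (Tr.leaf (nat_lit 653)))) (Tr.node (nat_lit 896) (Tr.leaf (nat_lit 669258)) (Tr.node (nat_lit 2624) (Tr.leaf (nat_lit 163)) (Tr.leaf (nat_lit 167302))))))))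

noncomputable def jt67 : Tr :=
  (Tr.node (nat_lit 141504) (Tr.node (nat_lit 76288) (Tr.node (nat_lit 33920) (Tr.node (nat_lit 18880) (Tr.node (nat_lit 5632) (Tr.leaf (nat_lit 669206)) (Tr.leaf (nat_lit 669128))) (Tr.node (nat_lit 1152) (Tr.leaf (nat_lit 167236)) (Tr.node (nat_lit 10112) (Tr.leaf (nat_lit 41808)) (Tr.leaf (nat_lit 2675158))))) (Tr.node (nat_lit 21696) (Tr.node (nat_lit 9984) (Tr.leaf (nat_lit 668737)) (Tr.leaf (nat_lit 167149))) (Tr.node (nat_lit 8448) (Tr.leaf (nat_lit 10444)) (Tr.node (nat_lit 11200) (Tr.leaf (nat_lit 167080)) (Tr.leaf (nat_lit 652)))))) (Tr.node (nat_lit 21632) (Tr.node (nat_lit 10368) (Tr.node (nat_lit 2816) (Tr.leaf (nat_lit 668152)) (Tr.leaf (nat_lit 668113))) (Tr.node (nat_lit 1664) (Tr.leaf (nat_lit 668009)) (Tr.node (nat_lit 2496) (Tr.leaf (nat_lit 166996)) (Tr.leaf (nat_lit 41747))))) (Tr.node (nat_lit 22080) (Tr.node (nat_lit 11328)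 (Tr.leaf (nat_lit 667853)) (Tr.node (nat_lit 3776) (Tr.leaf (nat_lit 667697)) (Tr.leaf (nat_lit 667646)))) (Tr.node (nat_lit 512) (Tr.leaf (nat_lit 166887)) (Tr.node (nat_lit 20480) (Tr.leaf (nat_lit 667542)) (Tr.leaf (nat_lit 166815))))))) (Tr.node (nat_lit 61696) (Tr.node (nat_lit 24128) (Tr.node (nat_lit 15936) (Tr.node (nat_lit 1600) (Tr.leaf (nat_lit 162)) (Tr.leaf (nat_lit 667231))) (Tr.node (nat_lit 704) (Tr.leaf (nat_lit 166758)) (Tr.node (nat_lit 1536) (Tr.leaf (nat_lit 667023)) (Tr.leaf (nat_lit 41687))))) (Tr.node (nat_lit 22592) (Tr.node (nat_lit 10560) (Tr.leaf (nat_lit 10670726)) (Tr.node (nat_lit 4480) (Tr.leaf (nat_lit 166693)) (Tr.leaf (nat_lit 666713)))) (Tr.node (nat_lit 3712) (Tr.leaf (nat_lit 666609)) (Tr.node (nat_lit 7552) (Tr.leaf (nat_lit 666558)) (Tr.leaf (nat_lit 166613)))))) (Tr.node (nat_lit 15296) (Tr.node (nat_lit 6912) (Tr.node (nat_lit 6528) (Tr.leaf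 (nat_lit 666402)) (Tr.leaf (nat_lit 650))) (Tr.node (nat_lit 4352) (Tr.leaf (nat_lit 162)) (Tr.node (nat_lit 2560) (Tr.leaf (nat_lit 166561)) (Tr.leaf (nat_lit 41638))))) (Tr.node (nat_lit 16384) (Tr.node (nat_lit 7232) (Tr.leaf (nat_lit 166548)) (Tr.node (nat_lit 5632) (Tr.leaf (nat_lit 10657487)) (Tr.leaf (nat_lit 666015)))) (Tr.node (nat_lit 2112) (Tr.leaf (nat_lit 166491)) (Tr.node (nat_lit 7552) (Tr.leaf (nat_lit 166484)) (Tr.leaf (nat_lit 665834))))))))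

noncomputable def jt68 : Tr :=
  (Tr.node (nat_lit 115264) (Tr.node (nat_lit 49344) (Tr.node (nat_lit 26880) (Tr.node (nat_lit 12800) (Tr.node (nat_lit 8128) (Tr.leaf (nat_lit 41608)) (Tr.leaf (nat_lit 665628))) (Tr.node (nat_lit 2816) (Tr.leaf (nat_lit 665563)) (Tr.node (nat_lit 8192) (Tr.leaf (nat_lit 166381)) (Tr.leaf (nat_lit 2599))))) (Tr.node (nat_lit 5632) (Tr.node (nat_lit 3776) (Tr.leaf (nat_lit 665370)) (Tr.leaf (nat_lit 166329))) (Tr.node (nat_lit 9344) (Tr.leaf (nat_lit 665293)) (Tr.node (nat_lit 2624) (Tr.leaf (nat_lit 665164)) (Tr.leaf (nat_lit 166282)))))) (Tr.node (nat_lit 30720) (Tr.node (nat_lit 5568) (Tr.node (nat_lit 3776) (Tr.leaf (nat_lit 665061)) (Tr.leaf (nat_lit 166252))) (Tr.node (nat_lit 5696) (Tr.leaf (nat_lit 41561)) (Tr.node (nat_lit 14976) (Tr.leaf (nat_lit 166226)) (Tr.leaf (nat_lit 166175))))) (Tr.node (nat_lit 6784) (Tr.node (nat_lit 896) (Tr.leaf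 (nat_lit 41539)) (Tr.node (nat_lit 960) (Tr.leaf (nat_lit 162)) (Tr.leaf (nat_lit 162)))) (Tr.node (nat_lit 13824) (Tr.leaf (nat_lit 664547)) (Tr.node (nat_lit 5184) (Tr.leaf (nat_lit 166089)) (Tr.leaf (nat_lit 648))))))) (Tr.node (nat_lit 72576) (Tr.node (nat_lit 27712) (Tr.node (nat_lit 1536) (Tr.node (nat_lit 576) (Tr.leaf (nat_lit 166039)) (Tr.leaf (nat_lit 162))) (Tr.node (nat_lit 3712) (Tr.leaf (nat_lit 664135)) (Tr.node (nat_lit 16704) (Tr.leaf (nat_lit 664084)) (Tr.leaf (nat_lit 165964))))) (Tr.node (nat_lit 16384) (Tr.node (nat_lit 7488) (Tr.leaf (nat_lit 165944)) (Tr.node (nat_lit 3712) (Tr.leaf (nat_lit 663674)) (Tr.leaf (nat_lit 2654653)))) (Tr.node (nat_lit 6080) (Tr.leaf (nat_lit 647)) (Tr.node (nat_lit 11200) (Tr.leaf (nat_lit 663469)) (Tr.leaf (nat_lit 2653261)))))) (Tr.node (nat_lit 52288) (Tr.node (nat_lit 27200) (Tr.node (nat_lit 22400) (Tr.leaf (nat_lit 165790))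 (Tr.leaf (nat_lit 165713))) (Tr.node (nat_lit 832) (Tr.leaf (nat_lit 647)) (Tr.node (nat_lit 7488) (Tr.leaf (nat_lit 662778)) (Tr.leaf (nat_lit 662675))))) (Tr.node (nat_lit 14976) (Tr.node (nat_lit 6528) (Tr.leaf (nat_lit 165611)) (Tr.node (nat_lit 4672) (Tr.leaf (nat_lit 662356)) (Tr.leaf (nat_lit 662292)))) (Tr.node (nat_lit 7424) (Tr.leaf (nat_lit 662241)) (Tr.node (nat_lit 1664) (Tr.leaf (nat_lit 165534)) (Tr.leaf (nat_lit 165529))))))))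

noncomputable def jt69 : Tr :=
  (Tr.node (nat_lit 119296) (Tr.node (nat_lit 74624) (Tr.node (nat_lit 22400) (Tr.node (nat_lit 9600) (Tr.node (nat_lit 7488) (Tr.leaf (nat_lit 662088)) (Tr.leaf (nat_lit 2647945))) (Tr.node (nat_lit 9088) (Tr.leaf (nat_lit 165489)) (Tr.node (nat_lit 2752) (Tr.leaf (nat_lit 165458)) (Tr.leaf (nat_lit 41362))))) (Tr.node (nat_lit 9856) (Tr.node (nat_lit 1152) (Tr.leaf (nat_lit 2647129)) (Tr.leaf (nat_lit 161))) (Tr.node (nat_lit 1344) (Tr.leaf (nat_lit 646)) (Tr.node (nat_lit 11200) (Tr.leaf (nat_lit 165407)) (Tr.leaf (nat_lit 661476)))))) (Tr.node (nat_lit 26048) (Tr.node (nat_lit 14848) (Tr.node (nat_lit 3712) (Tr.leaf (nat_lit 661069)) (Tr.leaf (nat_lit 661018))) (Tr.node (nat_lit 192) (Tr.leaf (nat_lit 660865)) (Tr.node (nat_lit 7296) (Tr.leaf (nat_lit 165215)) (Tr.leaf (nat_lit 10572227))))) (Tr.node (nat_lit 7424) (Tr.node (nat_lit 1024) (Tr.leaf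 (nat_lit 165178)) (Tr.node (nat_lit 320) (Tr.leaf (nat_lit 41293)) (Tr.leaf (nat_lit 161)))) (Tr.node (nat_lit 3712) (Tr.leaf (nat_lit 165152)) (Tr.node (nat_lit 2560) (Tr.leaf (nat_lit 660560)) (Tr.leaf (nat_lit 165131))))))) (Tr.node (nat_lit 65536) (Tr.node (nat_lit 22336) (Tr.node (nat_lit 5568) (Tr.node (nat_lit 3712) (Tr.leaf (nat_lit 660459)) (Tr.leaf (nat_lit 165102))) (Tr.node (nat_lit 5568) (Tr.leaf (nat_lit 660383)) (Tr.node (nat_lit 3712) (Tr.leaf (nat_lit 165076)) (Tr.leaf (nat_lit 660256))))) (Tr.node (nat_lit 22272) (Tr.node (nat_lit 11136) (Tr.leaf (nat_lit 660154)) (Tr.node (nat_lit 2304) (Tr.leaf (nat_lit 660002)) (Tr.leaf (nat_lit 659970)))) (Tr.node (nat_lit 14912) (Tr.leaf (nat_lit 659850)) (Tr.node (nat_lit 768) (Tr.leaf (nat_lit 659647)) (Tr.leaf (nat_lit 161)))))) (Tr.node (nat_lit 16256) (Tr.node (nat_lit 4736) (Tr.node (nat_lit 1408) (Tr.leaf (nat_lit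 2576)) (Tr.leaf (nat_lit 10552745))) (Tr.node (nat_lit 384) (Tr.leaf (nat_lit 41218)) (Tr.node (nat_lit 8704) (Tr.leaf (nat_lit 659495)) (Tr.leaf (nat_lit 164844))))) (Tr.node (nat_lit 11200) (Tr.node (nat_lit 7424) (Tr.leaf (nat_lit 659344)) (Tr.node (nat_lit 3520) (Tr.leaf (nat_lit 659242)) (Tr.leaf (nat_lit 164798)))) (Tr.node (nat_lit 7360) (Tr.leaf (nat_lit 41199)) (Tr.node (nat_lit 3712) (Tr.leaf (nat_lit 164772)) (Tr.leaf (nat_lit 2636162))))))))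

noncomputable def jt70 : Tr :=
  (Tr.node (nat_lit 127296) (Tr.node (nat_lit 52544) (Tr.node (nat_lit 26048) (Tr.node (nat_lit 5568) (Tr.node (nat_lit 3712) (Tr.leaf (nat_lit 658939)) (Tr.leaf (nat_lit 164722))) (Tr.node (nat_lit 5632) (Tr.leaf (nat_lit 658863)) (Tr.node (nat_lit 1984) (Tr.leaf (nat_lit 658787)) (Tr.leaf (nat_lit 41172))))) (Tr.node (nat_lit 11072) (Tr.node (nat_lit 6208) (Tr.leaf (nat_lit 164646)) (Tr.leaf (nat_lit 164625))) (Tr.node (nat_lit 7424) (Tr.leaf (nat_lit 658434)) (Tr.node (nat_lit 3712) (Tr.leaf (nat_lit 2633333)) (Tr.leaf (nat_lit 164570)))))) (Tr.node (nat_lit 25856) (Tr.node (nat_lit 13952) (Tr.node (nat_lit 5184) (Tr.leaf (nat_lit 160)) (Tr.leaf (nat_lit 642))) (Tr.node (nat_lit 320) (Tr.leaf (nat_lit 164508)) (Tr.node (nat_lit 3712) (Tr.leaf (nat_lit 658030)) (Tr.leaf (nat_lit 657980))))) (Tr.node (nat_lit 25472) (Tr.node (nat_lit 5120) (Tr.leaf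 (nat_lit 41117)) (Tr.node (nat_lit 16640) (Tr.leaf (nat_lit 657804)) (Tr.leaf (nat_lit 164394)))) (Tr.node (nat_lit 7424) (Tr.leaf (nat_lit 2630108)) (Tr.node (nat_lit 14848) (Tr.leaf (nat_lit 657426)) (Tr.leaf (nat_lit 657225))))))) (Tr.node (nat_lit 63296) (Tr.node (nat_lit 32128) (Tr.node (nat_lit 17344) (Tr.node (nat_lit 6400) (Tr.leaf (nat_lit 164302)) (Tr.leaf (nat_lit 641))) (Tr.node (nat_lit 2112) (Tr.leaf (nat_lit 656973)) (Tr.node (nat_lit 9024) (Tr.leaf (nat_lit 164236)) (Tr.leaf (nat_lit 656823))))) (Tr.node (nat_lit 18496) (Tr.node (nat_lit 8320) (Tr.leaf (nat_lit 656773)) (Tr.node (nat_lit 2816) (Tr.leaf (nat_lit 656660)) (Tr.leaf (nat_lit 656622)))) (Tr.node (nat_lit 1536) (Tr.leaf (nat_lit 656522)) (Tr.node (nat_lit 4736) (Tr.leaf (nat_lit 41031)) (Tr.leaf (nat_lit 160)))))) (Tr.node (nat_lit 28544) (Tr.node (nat_lit 13248) (Tr.node (nat_lit 9536) (Tr.leaf (nat_lit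 160)) (Tr.leaf (nat_lit 2624884))) (Tr.node (nat_lit 7424) (Tr.leaf (nat_lit 656171)) (Tr.node (nat_lit 5120) (Tr.leaf (nat_lit 164017)) (Tr.leaf (nat_lit 640))))) (Tr.node (nat_lit 8704) (Tr.node (nat_lit 640) (Tr.leaf (nat_lit 2562)) (Tr.node (nat_lit 6144) (Tr.leaf (nat_lit 163988)) (Tr.leaf (nat_lit 40991)))) (Tr.node (nat_lit 2432) (Tr.leaf (nat_lit 655845)) (Tr.node (nat_lit 576) (Tr.leaf (nat_lit 40988)) (Tr.leaf (nat_lit 163951))))))))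

noncomputable def jt71 : Tr :=
  (Tr.node (nat_lit 136576) (Tr.node (nat_lit 55616) (Tr.node (nat_lit 32896) (Tr.node (nat_lit 14784) (Tr.node (nat_lit 3712) (Tr.leaf (nat_lit 163942)) (Tr.leaf (nat_lit 2622880))) (Tr.node (nat_lit 9152) (Tr.leaf (nat_lit 163892)) (Tr.node (nat_lit 7488) (Tr.leaf (nat_lit 163861)) (Tr.leaf (nat_lit 655345))))) (Tr.node (nat_lit 11008) (Tr.node (nat_lit 4032) (Tr.leaf (nat_lit 40957)) (Tr.leaf (nat_lit 163817))) (Tr.node (nat_lit 4096) (Tr.leaf (nat_lit 159)) (Tr.node (nat_lit 7424) (Tr.leaf (nat_lit 2620480)) (Tr.leaf (nat_lit 655020)))))) (Tr.node (nat_lit 44544) (Tr.node (nat_lit 11584) (Tr.node (nat_lit 3456) (Tr.leaf (nat_lit 163754)) (Tr.leaf (nat_lit 654970))) (Tr.node (nat_lit 2944) (Tr.leaf (nat_lit 163715)) (Tr.node (nat_lit 11072) (Tr.leaf (nat_lit 654820)) (Tr.leaf (nat_lit 163667))))) (Tr.node (nat_lit 21632) (Tr.node (nat_lit 3200)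 (Tr.leaf (nat_lit 2556)) (Tr.node (nat_lit 5568) (Tr.leaf (nat_lit 163592)) (Tr.leaf (nat_lit 654296)))) (Tr.node (nat_lit 3008) (Tr.leaf (nat_lit 2616489)) (Tr.node (nat_lit 8064) (Tr.leaf (nat_lit 163520)) (Tr.leaf (nat_lit 653972))))))) (Tr.node (nat_lit 99392) (Tr.node (nat_lit 49728) (Tr.node (nat_lit 29440) (Tr.node (nat_lit 21760) (Tr.leaf (nat_lit 2615692)) (Tr.leaf (nat_lit 159))) (Tr.node (nat_lit 3712) (Tr.leaf (nat_lit 2614100)) (Tr.node (nat_lit 7360) (Tr.leaf (nat_lit 653475)) (Tr.leaf (nat_lit 163344))))) (Tr.node (nat_lit 23872) (Tr.node (nat_lit 5504) (Tr.leaf (nat_lit 653251)) (Tr.node (nat_lit 4928) (Tr.leaf (nat_lit 163294)) (Tr.leaf (nat_lit 163277)))) (Tr.node (nat_lit 11072) (Tr.leaf (nat_lit 2611716)) (Tr.node (nat_lit 640) (Tr.leaf (nat_lit 163195)) (Tr.leaf (nat_lit 163192)))))) (Tr.node (nat_lit 21120) (Tr.node (nat_lit 11008) (Tr.node (nat_lit 3904)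 (Tr.leaf (nat_lit 163145)) (Tr.leaf (nat_lit 163132))) (Tr.node (nat_lit 704) (Tr.leaf (nat_lit 652433)) (Tr.node (nat_lit 6656) (Tr.leaf (nat_lit 2548)) (Tr.leaf (nat_lit 2609336))))) (Tr.node (nat_lit 9664) (Tr.node (nat_lit 576) (Tr.leaf (nat_lit 652296)) (Tr.node (nat_lit 7680) (Tr.leaf (nat_lit 637)) (Tr.leaf (nat_lit 163046)))) (Tr.node (nat_lit 1600) (Tr.leaf (nat_lit 40760)) (Tr.node (nat_lit 8064) (Tr.leaf (nat_lit 163036)) (Tr.leaf (nat_lit 652036))))))))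

noncomputable def jt72 : Tr :=
  (Tr.node (nat_lit 102720) (Tr.node (nat_lit 38528) (Tr.node (nat_lit 21312) (Tr.node (nat_lit 8576) (Tr.node (nat_lit 3648) (Tr.leaf (nat_lit 162972)) (Tr.leaf (nat_lit 651839))) (Tr.node (nat_lit 1280) (Tr.leaf (nat_lit 636)) (Tr.node (nat_lit 4800) (Tr.leaf (nat_lit 162938)) (Tr.leaf (nat_lit 651690))))) (Tr.node (nat_lit 1088) (Tr.node (nat_lit 704) (Tr.leaf (nat_lit 162900)) (Tr.leaf (nat_lit 162897))) (Tr.node (nat_lit 10624) (Tr.leaf (nat_lit 40724)) (Tr.node (nat_lit 3712) (Tr.leaf (nat_lit 651443)) (Tr.leaf (nat_lit 162848)))))) (Tr.node (nat_lit 20288) (Tr.node (nat_lit 8640) (Tr.node (nat_lit 5504) (Tr.leaf (nat_lit 651369)) (Tr.leaf (nat_lit 651295))) (Tr.node (nat_lit 576) (Tr.leaf (nat_lit 158)) (Tr.node (nat_lit 7296) (Tr.leaf (nat_lit 651245)) (Tr.leaf (nat_lit 2604589))))) (Tr.node (nat_lit 31296) (Tr.node (nat_lit 10176) (Tr.leaf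 (nat_lit 158)) (Tr.node (nat_lit 768) (Tr.leaf (nat_lit 40684)) (Tr.leaf (nat_lit 650949)))) (Tr.node (nat_lit 5760) (Tr.leaf (nat_lit 162668)) (Tr.node (nat_lit 3200) (Tr.leaf (nat_lit 650598)) (Tr.leaf (nat_lit 650555))))))) (Tr.node (nat_lit 76928) (Tr.node (nat_lit 29824) (Tr.node (nat_lit 18368) (Tr.node (nat_lit 11008) (Tr.leaf (nat_lit 650506)) (Tr.leaf (nat_lit 2601433))) (Tr.node (nat_lit 3392) (Tr.leaf (nat_lit 650259)) (Tr.node (nat_lit 5760) (Tr.leaf (nat_lit 162553)) (Tr.leaf (nat_lit 650136))))) (Tr.node (nat_lit 21440) (Tr.node (nat_lit 10496) (Tr.leaf (nat_lit 158)) (Tr.node (nat_lit 3648) (Tr.leaf (nat_lit 10399436)) (Tr.leaf (nat_lit 162478)))) (Tr.node (nat_lit 64) (Tr.leaf (nat_lit 40613)) (Tr.node (nat_lit 10944) (Tr.leaf (nat_lit 162454)) (Tr.leaf (nat_lit 649669)))))) (Tr.node (nat_lit 11008) (Tr.node (nat_lit 5504) (Tr.node (nat_lit 4096) (Tr.leaf (nat_lit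 649473)) (Tr.leaf (nat_lit 158))) (Tr.node (nat_lit 1856) (Tr.leaf (nat_lit 649399)) (Tr.node (nat_lit 3456) (Tr.leaf (nat_lit 649375)) (Tr.leaf (nat_lit 158))))) (Tr.node (nat_lit 18304) (Tr.node (nat_lit 7168) (Tr.leaf (nat_lit 162331)) (Tr.node (nat_lit 3776) (Tr.leaf (nat_lit 40576)) (Tr.leaf (nat_lit 2596715)))) (Tr.node (nat_lit 320) (Tr.leaf (nat_lit 649080)) (Tr.node (nat_lit 1024) (Tr.leaf (nat_lit 633)) (Tr.leaf (nat_lit 649062))))))))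

noncomputable def jt73 : Tr :=
  (Tr.node (nat_lit 94144) (Tr.node (nat_lit 34240) (Tr.node (nat_lit 14784) (Tr.node (nat_lit 6272) (Tr.node (nat_lit 3840) (Tr.leaf (nat_lit 633)) (Tr.leaf (nat_lit 648933))) (Tr.node (nat_lit 320) (Tr.leaf (nat_lit 162225)) (Tr.node (nat_lit 7296) (Tr.leaf (nat_lit 633)) (Tr.leaf (nat_lit 40549))))) (Tr.node (nat_lit 3968) (Tr.node (nat_lit 3712) (Tr.leaf (nat_lit 2595146)) (Tr.leaf (nat_lit 162184))) (Tr.node (nat_lit 7040) (Tr.leaf (nat_lit 158)) (Tr.node (nat_lit 3648) (Tr.leaf (nat_lit 648639)) (Tr.leaf (nat_lit 2594362)))))) (Tr.node (nat_lit 35392) (Tr.node (nat_lit 13440) (Tr.node (nat_lit 2496) (Tr.leaf (nat_lit 162131)) (Tr.leaf (nat_lit 648492))) (Tr.node (nat_lit 3712) (Tr.leaf (nat_lit 162086)) (Tr.node (nat_lit 7296) (Tr.leaf (nat_lit 2593187)) (Tr.leaf (nat_lit 648199))))) (Tr.node (nat_lit 12544) (Tr.node (nat_lit 6976) (Tr.leaf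 (nat_lit 648052)) (Tr.node (nat_lit 3968) (Tr.leaf (nat_lit 158)) (Tr.leaf (nat_lit 647905)))) (Tr.node (nat_lit 2048) (Tr.leaf (nat_lit 161971)) (Tr.node (nat_lit 2560) (Tr.leaf (nat_lit 161964)) (Tr.leaf (nat_lit 158))))))) (Tr.node (nat_lit 69120) (Tr.node (nat_lit 19264) (Tr.node (nat_lit 1152) (Tr.node (nat_lit 1024) (Tr.leaf (nat_lit 161931)) (Tr.leaf (nat_lit 647710))) (Tr.node (nat_lit 7168) (Tr.leaf (nat_lit 2530)) (Tr.node (nat_lit 3648) (Tr.leaf (nat_lit 2590450)) (Tr.leaf (nat_lit 647563))))) (Tr.node (nat_lit 36480) (Tr.node (nat_lit 10944) (Tr.leaf (nat_lit 161866)) (Tr.node (nat_lit 21888) (Tr.leaf (nat_lit 647319)) (Tr.leaf (nat_lit 647027)))) (Tr.node (nat_lit 7296) (Tr.leaf (nat_lit 646978)) (Tr.node (nat_lit 3648) (Tr.leaf (nat_lit 646881)) (Tr.leaf (nat_lit 10349318)))))) (Tr.node (nat_lit 29824) (Tr.node (nat_lit 8448) (Tr.node (nat_lit 4864) (Tr.leaf (nat_lit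 631)) (Tr.leaf (nat_lit 646735))) (Tr.node (nat_lit 9728) (Tr.leaf (nat_lit 157)) (Tr.node (nat_lit 8576) (Tr.leaf (nat_lit 40409)) (Tr.leaf (nat_lit 2585772))))) (Tr.node (nat_lit 11456) (Tr.node (nat_lit 7808) (Tr.leaf (nat_lit 2525)) (Tr.node (nat_lit 960) (Tr.leaf (nat_lit 161574)) (Tr.leaf (nat_lit 646284)))) (Tr.node (nat_lit 9216) (Tr.leaf (nat_lit 646248)) (Tr.node (nat_lit 9024) (Tr.leaf (nat_lit 161531)) (Tr.leaf (nat_lit 161501))))))))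

noncomputable def jt74 : Tr :=
  (Tr.node (nat_lit 119936) (Tr.node (nat_lit 63936) (Tr.node (nat_lit 40000) (Tr.node (nat_lit 16512) (Tr.node (nat_lit 6336) (Tr.leaf (nat_lit 645956)) (Tr.leaf (nat_lit 157))) (Tr.node (nat_lit 7808) (Tr.leaf (nat_lit 157)) (Tr.node (nat_lit 6848) (Tr.leaf (nat_lit 161408)) (Tr.leaf (nat_lit 161385))))) (Tr.node (nat_lit 3648) (Tr.node (nat_lit 2624) (Tr.leaf (nat_lit 161355)) (Tr.leaf (nat_lit 2521))) (Tr.node (nat_lit 7296) (Tr.leaf (nat_lit 2581497)) (Tr.node (nat_lit 3584) (Tr.leaf (nat_lit 165191049)) (Tr.leaf (nat_lit 201633)))))) (Tr.node (nat_lit 30592) (Tr.node (nat_lit 5504) (Tr.node (nat_lit 1536) (Tr.leaf (nat_lit 157)) (Tr.leaf (nat_lit 645083))) (Tr.node (nat_lit 14208) (Tr.leaf (nat_lit 40314)) (Tr.node (nat_lit 9472) (Tr.leaf (nat_lit 644841)) (Tr.leaf (nat_lit 629))))) (Tr.node (nat_lit 12480) (Tr.node (nat_lit 4992) (Tr.leaf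 (nat_lit 644696)) (Tr.node (nat_lit 5888) (Tr.leaf (nat_lit 629)) (Tr.leaf (nat_lit 161137)))) (Tr.node (nat_lit 2048) (Tr.leaf (nat_lit 40283)) (Tr.node (nat_lit 5632) (Tr.leaf (nat_lit 10312046)) (Tr.leaf (nat_lit 157))))))) (Tr.node (nat_lit 46336) (Tr.node (nat_lit 21824) (Tr.node (nat_lit 6592) (Tr.node (nat_lit 896) (Tr.leaf (nat_lit 161089)) (Tr.leaf (nat_lit 157))) (Tr.node (nat_lit 4352) (Tr.leaf (nat_lit 161067)) (Tr.node (nat_lit 7872) (Tr.leaf (nat_lit 644212)) (Tr.leaf (nat_lit 40256))))) (Tr.node (nat_lit 7232) (Tr.node (nat_lit 640) (Tr.leaf (nat_lit 161016)) (Tr.node (nat_lit 1152) (Tr.leaf (nat_lit 161014)) (Tr.leaf (nat_lit 644043)))) (Tr.node (nat_lit 3648) (Tr.leaf (nat_lit 160992)) (Tr.node (nat_lit 7232) (Tr.leaf (nat_lit 2575692)) (Tr.leaf (nat_lit 643826)))))) (Tr.node (nat_lit 32896) (Tr.node (nat_lit 12352) (Tr.node (nat_lit 4480) (Tr.leaf (nat_lit 643742))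 (Tr.leaf (nat_lit 643681))) (Tr.node (nat_lit 13888) (Tr.leaf (nat_lit 40223)) (Tr.node (nat_lit 5440) (Tr.leaf (nat_lit 643392)) (Tr.leaf (nat_lit 643320))))) (Tr.node (nat_lit 15104) (Tr.node (nat_lit 4224) (Tr.leaf (nat_lit 157)) (Tr.node (nat_lit 5696) (Tr.leaf (nat_lit 643248)) (Tr.leaf (nat_lit 160793)))) (Tr.node (nat_lit 16576) (Tr.leaf (nat_lit 643103)) (Tr.node (nat_lit 4416) (Tr.leaf (nat_lit 160720)) (Tr.leaf (nat_lit 156))))))))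

noncomputable def jt75 : Tr :=
  (Tr.node (nat_lit 130240) (Tr.node (nat_lit 57600) (Tr.node (nat_lit 15168) (Tr.node (nat_lit 6464) (Tr.node (nat_lit 5376) (Tr.leaf (nat_lit 642814)) (Tr.leaf (nat_lit 627))) (Tr.node (nat_lit 4416) (Tr.leaf (nat_lit 10042)) (Tr.node (nat_lit 3584) (Tr.leaf (nat_lit 642670)) (Tr.leaf (nat_lit 160655))))) (Tr.node (nat_lit 17088) (Tr.node (nat_lit 11968) (Tr.leaf (nat_lit 160653)) (Tr.leaf (nat_lit 642454))) (Tr.node (nat_lit 320) (Tr.leaf (nat_lit 156)) (Tr.node (nat_lit 9088) (Tr.leaf (nat_lit 642382)) (Tr.leaf (nat_lit 40141)))))) (Tr.node (nat_lit 32896) (Tr.node (nat_lit 7552) (Tr.node (nat_lit 7040) (Tr.leaf (nat_lit 160512)) (Tr.leaf (nat_lit 626))) (Tr.node (nat_lit 10880) (Tr.leaf (nat_lit 160487)) (Tr.node (nat_lit 13568) (Tr.leaf (nat_lit 2567224)) (Tr.leaf (nat_lit 626))))) (Tr.node (nat_lit 21696) (Tr.node (nat_lit 3840) (Tr.leaf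 (nat_lit 641614)) (Tr.node (nat_lit 14912) (Tr.leaf (nat_lit 160390)) (Tr.leaf (nat_lit 160341)))) (Tr.node (nat_lit 10816) (Tr.leaf (nat_lit 641327)) (Tr.node (nat_lit 5184) (Tr.leaf (nat_lit 160295)) (Tr.leaf (nat_lit 641114))))))) (Tr.node (nat_lit 75776) (Tr.node (nat_lit 43328) (Tr.node (nat_lit 24448) (Tr.node (nat_lit 21696) (Tr.leaf (nat_lit 160271)) (Tr.leaf (nat_lit 640800))) (Tr.node (nat_lit 11648) (Tr.leaf (nat_lit 40047)) (Tr.node (nat_lit 1536) (Tr.leaf (nat_lit 640609)) (Tr.leaf (nat_lit 40036))))) (Tr.node (nat_lit 11072) (Tr.node (nat_lit 5440) (Tr.leaf (nat_lit 160128)) (Tr.node (nat_lit 5376) (Tr.leaf (nat_lit 640442)) (Tr.leaf (nat_lit 640370)))) (Tr.node (nat_lit 5248) (Tr.leaf (nat_lit 160091)) (Tr.node (nat_lit 5312) (Tr.leaf (nat_lit 40018)) (Tr.leaf (nat_lit 160056)))))) (Tr.node (nat_lit 16960) (Tr.node (nat_lit 9024) (Tr.node (nat_lit 3648) (Tr.leaf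 (nat_lit 2560338)) (Tr.leaf (nat_lit 160009))) (Tr.node (nat_lit 3392) (Tr.leaf (nat_lit 639965)) (Tr.node (nat_lit 2048) (Tr.leaf (nat_lit 159980)) (Tr.leaf (nat_lit 2559575))))) (Tr.node (nat_lit 29952) (Tr.node (nat_lit 17920) (Tr.leaf (nat_lit 159965)) (Tr.node (nat_lit 8384) (Tr.leaf (nat_lit 624)) (Tr.leaf (nat_lit 2558050)))) (Tr.node (nat_lit 10816) (Tr.leaf (nat_lit 639465)) (Tr.node (nat_lit 12416) (Tr.leaf (nat_lit 639322)) (Tr.leaf (nat_lit 156))))))))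

noncomputable def jt76 : Tr :=
  (Tr.node (nat_lit 129984) (Tr.node (nat_lit 60288) (Tr.node (nat_lit 25728) (Tr.node (nat_lit 1088) (Tr.node (nat_lit 512) (Tr.leaf (nat_lit 2496)) (Tr.leaf (nat_lit 159771))) (Tr.node (nat_lit 10240) (Tr.leaf (nat_lit 39942)) (Tr.node (nat_lit 10816) (Tr.leaf (nat_lit 638941)) (Tr.leaf (nat_lit 638799))))) (Tr.node (nat_lit 10816) (Tr.node (nat_lit 10560) (Tr.leaf (nat_lit 2555007)) (Tr.leaf (nat_lit 159653))) (Tr.node (nat_lit 21568) (Tr.leaf (nat_lit 159652)) (Tr.node (nat_lit 128) (Tr.leaf (nat_lit 159581)) (Tr.leaf (nat_lit 159580)))))) (Tr.node (nat_lit 37376) (Tr.node (nat_lit 13504) (Tr.node (nat_lit 4032) (Tr.leaf (nat_lit 623)) (Tr.leaf (nat_lit 39890))) (Tr.node (nat_lit 2304) (Tr.leaf (nat_lit 155)) (Tr.node (nat_lit 3584) (Tr.leaf (nat_lit 638087)) (Tr.leaf (nat_lit 159510))))) (Tr.node (nat_lit 5312) (Tr.node (nat_lit 3584) (Tr.leaf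 (nat_lit 2551213)) (Tr.node (nat_lit 896) (Tr.leaf (nat_lit 159438)) (Tr.leaf (nat_lit 155)))) (Tr.node (nat_lit 19840) (Tr.leaf (nat_lit 622)) (Tr.node (nat_lit 5760) (Tr.leaf (nat_lit 2549887)) (Tr.leaf (nat_lit 2489))))))) (Tr.node (nat_lit 37696) (Tr.node (nat_lit 17344) (Tr.node (nat_lit 10816) (Tr.node (nat_lit 3584) (Tr.leaf (nat_lit 159344)) (Tr.leaf (nat_lit 637330))) (Tr.node (nat_lit 1664) (Tr.leaf (nat_lit 2548942)) (Tr.node (nat_lit 1920) (Tr.leaf (nat_lit 159303)) (Tr.leaf (nat_lit 637188))))) (Tr.node (nat_lit 8512) (Tr.node (nat_lit 1280) (Tr.leaf (nat_lit 622)) (Tr.node (nat_lit 6528) (Tr.leaf (nat_lit 39820)) (Tr.leaf (nat_lit 637046)))) (Tr.node (nat_lit 6464) (Tr.leaf (nat_lit 159259)) (Tr.node (nat_lit 3584) (Tr.leaf (nat_lit 636951)) (Tr.leaf (nat_lit 159226)))))) (Tr.node (nat_lit 30528) (Tr.node (nat_lit 16192) (Tr.node (nat_lit 5440) (Tr.leaf (nat_lit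 636881)) (Tr.leaf (nat_lit 636810))) (Tr.node (nat_lit 640) (Tr.leaf (nat_lit 636668)) (Tr.node (nat_lit 1280) (Tr.leaf (nat_lit 159164)) (Tr.leaf (nat_lit 155))))) (Tr.node (nat_lit 10496) (Tr.node (nat_lit 4288) (Tr.leaf (nat_lit 2545920)) (Tr.node (nat_lit 2880) (Tr.leaf (nat_lit 155)) (Tr.leaf (nat_lit 636385)))) (Tr.node (nat_lit 256) (Tr.leaf (nat_lit 39771)) (Tr.node (nat_lit 1792) (Tr.leaf (nat_lit 159084)) (Tr.leaf (nat_lit 636315))))))))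

noncomputable def jt77 : Tr :=
  (Tr.node (nat_lit 166208) (Tr.node (nat_lit 75264) (Tr.node (nat_lit 43008) (Tr.node (nat_lit 10752) (Tr.node (nat_lit 7168) (Tr.leaf (nat_lit 636197)) (Tr.leaf (nat_lit 10177647))) (Tr.node (nat_lit 26880) (Tr.leaf (nat_lit 636055)) (Tr.node (nat_lit 1792) (Tr.leaf (nat_lit 635702)) (Tr.leaf (nat_lit 158919))))) (Tr.node (nat_lit 14208) (Tr.node (nat_lit 13184) (Tr.leaf (nat_lit 635632)) (Tr.leaf (nat_lit 155))) (Tr.node (nat_lit 384) (Tr.leaf (nat_lit 158861)) (Tr.node (nat_lit 6912) (Tr.leaf (nat_lit 39715)) (Tr.leaf (nat_lit 10165603)))))) (Tr.node (nat_lit 50048) (Tr.node (nat_lit 17856) (Tr.node (nat_lit 7104) (Tr.leaf (nat_lit 158802)) (Tr.leaf (nat_lit 635115))) (Tr.node (nat_lit 21504) (Tr.leaf (nat_lit 2539897)) (Tr.node (nat_lit 8000) (Tr.leaf (nat_lit 634692)) (Tr.leaf (nat_lit 634587))))) (Tr.node (nat_lit 32192) (Tr.node (nat_lit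 3584) (Tr.leaf (nat_lit 158638)) (Tr.node (nat_lit 22912) (Tr.leaf (nat_lit 634505)) (Tr.leaf (nat_lit 619)))) (Tr.node (nat_lit 3584) (Tr.leaf (nat_lit 634130)) (Tr.node (nat_lit 5056) (Tr.leaf (nat_lit 634083)) (Tr.leaf (nat_lit 154))))))) (Tr.node (nat_lit 38528) (Tr.node (nat_lit 14592) (Tr.node (nat_lit 11712) (Tr.node (nat_lit 256) (Tr.leaf (nat_lit 158504)) (Tr.leaf (nat_lit 634013))) (Tr.node (nat_lit 1024) (Tr.leaf (nat_lit 9904)) (Tr.node (nat_lit 896) (Tr.leaf (nat_lit 10141599)) (Tr.leaf (nat_lit 39614))))) (Tr.node (nat_lit 12416) (Tr.node (nat_lit 1728) (Tr.leaf (nat_lit 39614)) (Tr.node (nat_lit 6016) (Tr.leaf (nat_lit 158450)) (Tr.leaf (nat_lit 158431)))) (Tr.node (nat_lit 5376) (Tr.leaf (nat_lit 633662)) (Tr.node (nat_lit 5376) (Tr.leaf (nat_lit 633592)) (Tr.leaf (nat_lit 633522)))))) (Tr.node (nat_lit 31296) (Tr.node (nat_lit 11264) (Tr.node (nat_lit 9984) (Tr.leaf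 (nat_lit 158378)) (Tr.leaf (nat_lit 39586))) (Tr.node (nat_lit 5760) (Tr.leaf (nat_lit 154)) (Tr.node (nat_lit 10752) (Tr.leaf (nat_lit 633289)) (Tr.leaf (nat_lit 158287))))) (Tr.node (nat_lit 19456) (Tr.node (nat_lit 16960) (Tr.leaf (nat_lit 40518559)) (Tr.node (nat_lit 896) (Tr.leaf (nat_lit 39555)) (Tr.leaf (nat_lit 632869)))) (Tr.node (nat_lit 640) (Tr.leaf (nat_lit 158212)) (Tr.node (nat_lit 1344) (Tr.leaf (nat_lit 618)) (Tr.leaf (nat_lit 632822))))))))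

noncomputable def jt78 : Tr :=
  (Tr.node (nat_lit 137472) (Tr.node (nat_lit 70528) (Tr.node (nat_lit 31296) (Tr.node (nat_lit 9920) (Tr.node (nat_lit 6592) (Tr.leaf (nat_lit 158203)) (Tr.leaf (nat_lit 158181))) (Tr.node (nat_lit 10688) (Tr.leaf (nat_lit 158170)) (Tr.node (nat_lit 1152) (Tr.leaf (nat_lit 2530172)) (Tr.leaf (nat_lit 39533))))) (Tr.node (nat_lit 12736) (Tr.node (nat_lit 10496) (Tr.leaf (nat_lit 632403)) (Tr.leaf (nat_lit 158066))) (Tr.node (nat_lit 11648) (Tr.leaf (nat_lit 154)) (Tr.node (nat_lit 4160) (Tr.leaf (nat_lit 158021)) (Tr.leaf (nat_lit 158007)))))) (Tr.node (nat_lit 37376) (Tr.node (nat_lit 10624) (Tr.node (nat_lit 4672) (Tr.leaf (nat_lit 631891)) (Tr.leaf (nat_lit 157957))) (Tr.node (nat_lit 3584) (Tr.leaf (nat_lit 157938)) (Tr.node (nat_lit 10688) (Tr.leaf (nat_lit 631705)) (Tr.leaf (nat_lit 631566))))) (Tr.node (nat_lit 15808) (Tr.node (nat_lit 4416)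 (Tr.leaf (nat_lit 631403)) (Tr.node (nat_lit 7232) (Tr.leaf (nat_lit 616)) (Tr.leaf (nat_lit 39453)))) (Tr.node (nat_lit 3712) (Tr.leaf (nat_lit 154)) (Tr.node (nat_lit 3008) (Tr.leaf (nat_lit 631148)) (Tr.leaf (nat_lit 39444))))))) (Tr.node (nat_lit 53952) (Tr.node (nat_lit 18432) (Tr.node (nat_lit 1664) (Tr.node (nat_lit 640) (Tr.leaf (nat_lit 157754)) (Tr.leaf (nat_lit 157752))) (Tr.node (nat_lit 6080) (Tr.leaf (nat_lit 157749)) (Tr.node (nat_lit 3328) (Tr.leaf (nat_lit 630916)) (Tr.leaf (nat_lit 616))))) (Tr.node (nat_lit 21824) (Tr.node (nat_lit 3520) (Tr.leaf (nat_lit 630777)) (Tr.node (nat_lit 17792) (Tr.leaf (nat_lit 157682)) (Tr.leaf (nat_lit 2522000)))) (Tr.node (nat_lit 3904) (Tr.leaf (nat_lit 2462)) (Tr.node (nat_lit 6208) (Tr.leaf (nat_lit 615)) (Tr.leaf (nat_lit 157590)))))) (Tr.node (nat_lit 17408) (Tr.node (nat_lit 6016) (Tr.node (nat_lit 4096) (Tr.leaf (nat_lit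 630315)) (Tr.leaf (nat_lit 39391))) (Tr.node (nat_lit 9984) (Tr.leaf (nat_lit 157559)) (Tr.node (nat_lit 1088) (Tr.leaf (nat_lit 630107)) (Tr.leaf (nat_lit 157523))))) (Tr.node (nat_lit 21888) (Tr.node (nat_lit 320) (Tr.leaf (nat_lit 39380)) (Tr.node (nat_lit 3584) (Tr.leaf (nat_lit 157520)) (Tr.leaf (nat_lit 630037)))) (Tr.node (nat_lit 4160) (Tr.leaf (nat_lit 157450)) (Tr.node (nat_lit 6272) (Tr.leaf (nat_lit 153)) (Tr.leaf (nat_lit 629668))))))))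

noncomputable def jt79 : Tr :=
  (Tr.node (nat_lit 131904) (Tr.node (nat_lit 74432) (Tr.node (nat_lit 14208) (Tr.node (nat_lit 8192) (Tr.node (nat_lit 3584) (Tr.leaf (nat_lit 2517565)) (Tr.leaf (nat_lit 157336))) (Tr.node (nat_lit 1984) (Tr.leaf (nat_lit 157321)) (Tr.node (nat_lit 448) (Tr.leaf (nat_lit 153)) (Tr.leaf (nat_lit 629253))))) (Tr.node (nat_lit 15040) (Tr.node (nat_lit 9856) (Tr.leaf (nat_lit 629207)) (Tr.leaf (nat_lit 39317))) (Tr.node (nat_lit 27456) (Tr.leaf (nat_lit 629011)) (Tr.node (nat_lit 12416) (Tr.leaf (nat_lit 10058471)) (Tr.leaf (nat_lit 628493)))))) (Tr.node (nat_lit 31872) (Tr.node (nat_lit 14144) (Tr.node (nat_lit 3520) (Tr.leaf (nat_lit 157106)) (Tr.leaf (nat_lit 628378))) (Tr.node (nat_lit 3776) (Tr.leaf (nat_lit 628240)) (Tr.node (nat_lit 3328) (Tr.leaf (nat_lit 157047)) (Tr.leaf (nat_lit 628148))))) (Tr.node (nat_lit 5952) (Tr.node (nat_lit 1536)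 (Tr.leaf (nat_lit 628011)) (Tr.node (nat_lit 1984) (Tr.leaf (nat_lit 156997)) (Tr.leaf (nat_lit 156991)))) (Tr.node (nat_lit 4672) (Tr.leaf (nat_lit 156983)) (Tr.node (nat_lit 10880) (Tr.leaf (nat_lit 156968)) (Tr.leaf (nat_lit 39233))))))) (Tr.node (nat_lit 52224) (Tr.node (nat_lit 20416) (Tr.node (nat_lit 6272) (Tr.node (nat_lit 1088) (Tr.leaf (nat_lit 9807)) (Tr.leaf (nat_lit 156916))) (Tr.node (nat_lit 640) (Tr.leaf (nat_lit 156899)) (Tr.node (nat_lit 2880) (Tr.leaf (nat_lit 153)) (Tr.leaf (nat_lit 2510208))))) (Tr.node (nat_lit 15872) (Tr.node (nat_lit 7040) (Tr.leaf (nat_lit 156853)) (Tr.node (nat_lit 3520) (Tr.leaf (nat_lit 156830)) (Tr.leaf (nat_lit 627277)))) (Tr.node (nat_lit 5312) (Tr.leaf (nat_lit 627208)) (Tr.node (nat_lit 7040) (Tr.leaf (nat_lit 156784)) (Tr.leaf (nat_lit 627048)))))) (Tr.node (nat_lit 24832) (Tr.node (nat_lit 10944) (Tr.node (nat_lit 7360) (Tr.leaf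 (nat_lit 2508010)) (Tr.leaf (nat_lit 153))) (Tr.node (nat_lit 5568) (Tr.leaf (nat_lit 2448)) (Tr.node (nat_lit 7296) (Tr.leaf (nat_lit 156697)) (Tr.leaf (nat_lit 153))))) (Tr.node (nat_lit 13312) (Tr.node (nat_lit 6912) (Tr.leaf (nat_lit 156670)) (Tr.node (nat_lit 256) (Tr.leaf (nat_lit 156647)) (Tr.leaf (nat_lit 9790)))) (Tr.node (nat_lit 704) (Tr.leaf (nat_lit 156627)) (Tr.node (nat_lit 3520) (Tr.leaf (nat_lit 156624)) (Tr.leaf (nat_lit 2505815))))))))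

noncomputable def jt80 : Tr :=
  (Tr.node (nat_lit 91712) (Tr.node (nat_lit 44800) (Tr.node (nat_lit 28224) (Tr.node (nat_lit 17664) (Tr.node (nat_lit 7104) (Tr.leaf (nat_lit 626316)) (Tr.leaf (nat_lit 626225))) (Tr.node (nat_lit 3520) (Tr.leaf (nat_lit 10017416)) (Tr.node (nat_lit 1216) (Tr.leaf (nat_lit 156510)) (Tr.leaf (nat_lit 39126))))) (Tr.node (nat_lit 13952) (Tr.node (nat_lit 512) (Tr.leaf (nat_lit 156487)) (Tr.node (nat_lit 12096) (Tr.leaf (nat_lit 39121)) (Tr.leaf (nat_lit 156447)))) (Tr.node (nat_lit 192) (Tr.leaf (nat_lit 2444)) (Tr.node (nat_lit 1728) (Tr.leaf (nat_lit 625769)) (Tr.leaf (nat_lit 625746)))))) (Tr.node (nat_lit 15168) (Tr.node (nat_lit 8128) (Tr.node (nat_lit 4608) (Tr.leaf (nat_lit 611)) (Tr.leaf (nat_lit 156419))) (Tr.node (nat_lit 1664) (Tr.leaf (nat_lit 625632)) (Tr.node (nat_lit 2752) (Tr.leaf (nat_lit 156402)) (Tr.leaf (nat_lit 625575)))))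 (Tr.node (nat_lit 14144) (Tr.node (nat_lit 2880) (Tr.leaf (nat_lit 625541)) (Tr.node (nat_lit 7744) (Tr.leaf (nat_lit 156376)) (Tr.leaf (nat_lit 625404)))) (Tr.node (nat_lit 3520) (Tr.leaf (nat_lit 2501436)) (Tr.node (nat_lit 1728) (Tr.leaf (nat_lit 610)) (Tr.leaf (nat_lit 625290))))))) (Tr.node (nat_lit 80064) (Tr.node (nat_lit 56320) (Tr.node (nat_lit 10560) (Tr.node (nat_lit 5632) (Tr.leaf (nat_lit 625131)) (Tr.leaf (nat_lit 610))) (Tr.node (nat_lit 13248) (Tr.leaf (nat_lit 2499980)) (Tr.node (nat_lit 11392) (Tr.leaf (nat_lit 39051)) (Tr.leaf (nat_lit 156169))))) (Tr.node (nat_lit 21120) (Tr.node (nat_lit 7040) (Tr.leaf (nat_lit 156101)) (Tr.node (nat_lit 10560) (Tr.leaf (nat_lit 156078)) (Tr.leaf (nat_lit 624177)))) (Tr.node (nat_lit 1472) (Tr.leaf (nat_lit 156033)) (Tr.node (nat_lit 128) (Tr.leaf (nat_lit 39007)) (Tr.leaf (nat_lit 609)))))) (Tr.node (nat_lit 37504) (Tr.node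 (nat_lit 18496) (Tr.node (nat_lit 7680) (Tr.leaf (nat_lit 624098)) (Tr.leaf (nat_lit 155999))) (Tr.node (nat_lit 15552) (Tr.leaf (nat_lit 623860)) (Tr.node (nat_lit 1984) (Tr.leaf (nat_lit 155914)) (Tr.leaf (nat_lit 623633))))) (Tr.node (nat_lit 20672) (Tr.node (nat_lit 12608) (Tr.leaf (nat_lit 608)) (Tr.node (nat_lit 7040) (Tr.leaf (nat_lit 623452)) (Tr.leaf (nat_lit 2493449)))) (Tr.node (nat_lit 1024) (Tr.leaf (nat_lit 38959)) (Tr.node (nat_lit 1472) (Tr.leaf (nat_lit 9739)) (Tr.leaf (nat_lit 155829))))))))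

noncomputable def jt81 : Tr :=
  (Tr.node (nat_lit 115776) (Tr.node (nat_lit 56192) (Tr.node (nat_lit 32256) (Tr.node (nat_lit 10560) (Tr.node (nat_lit 2048) (Tr.leaf (nat_lit 623226)) (Tr.leaf (nat_lit 2434))) (Tr.node (nat_lit 10496) (Tr.leaf (nat_lit 623091)) (Tr.node (nat_lit 256) (Tr.leaf (nat_lit 155738)) (Tr.leaf (nat_lit 155738))))) (Tr.node (nat_lit 9920) (Tr.node (nat_lit 9024) (Tr.leaf (nat_lit 155702)) (Tr.leaf (nat_lit 608))) (Tr.node (nat_lit 3456) (Tr.leaf (nat_lit 622684)) (Tr.node (nat_lit 1984) (Tr.leaf (nat_lit 622639)) (Tr.leaf (nat_lit 155653)))))) (Tr.node (nat_lit 21056) (Tr.node (nat_lit 8960) (Tr.node (nat_lit 3648) (Tr.leaf (nat_lit 155626)) (Tr.leaf (nat_lit 38903))) (Tr.node (nat_lit 1536) (Tr.leaf (nat_lit 155597)) (Tr.node (nat_lit 7040) (Tr.leaf (nat_lit 622368)) (Tr.leaf (nat_lit 2489114))))) (Tr.node (nat_lit 10496) (Tr.node (nat_lit 2624) (Tr.leaf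 (nat_lit 622233)) (Tr.node (nat_lit 4352) (Tr.leaf (nat_lit 622199)) (Tr.leaf (nat_lit 155535)))) (Tr.node (nat_lit 2112) (Tr.leaf (nat_lit 2488393)) (Tr.node (nat_lit 4928) (Tr.leaf (nat_lit 155517)) (Tr.leaf (nat_lit 622008))))))) (Tr.node (nat_lit 73600) (Tr.node (nat_lit 36096) (Tr.node (nat_lit 15104) (Tr.node (nat_lit 12352) (Tr.leaf (nat_lit 2486952)) (Tr.leaf (nat_lit 155394))) (Tr.node (nat_lit 320) (Tr.leaf (nat_lit 155386)) (Tr.node (nat_lit 19584) (Tr.leaf (nat_lit 2427)) (Tr.leaf (nat_lit 621288))))) (Tr.node (nat_lit 14912) (Tr.node (nat_lit 5952) (Tr.leaf (nat_lit 155318)) (Tr.node (nat_lit 3456) (Tr.leaf (nat_lit 621198)) (Tr.leaf (nat_lit 155288)))) (Tr.node (nat_lit 1536) (Tr.leaf (nat_lit 38817)) (Tr.node (nat_lit 10112) (Tr.leaf (nat_lit 155265)) (Tr.leaf (nat_lit 38808)))))) (Tr.node (nat_lit 52352) (Tr.node (nat_lit 16640) (Tr.node (nat_lit 13952) (Tr.leaf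 (nat_lit 151)) (Tr.leaf (nat_lit 155153))) (Tr.node (nat_lit 2560) (Tr.leaf (nat_lit 151)) (Tr.node (nat_lit 5184) (Tr.leaf (nat_lit 620547)) (Tr.leaf (nat_lit 620480))))) (Tr.node (nat_lit 10432) (Tr.node (nat_lit 3968) (Tr.leaf (nat_lit 620122)) (Tr.node (nat_lit 1024) (Tr.leaf (nat_lit 2422)) (Tr.leaf (nat_lit 605)))) (Tr.node (nat_lit 64) (Tr.leaf (nat_lit 38749)) (Tr.node (nat_lit 9856) (Tr.leaf (nat_lit 619988)) (Tr.leaf (nat_lit 154965))))))))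

noncomputable def jt82 : Tr :=
  (Tr.node (nat_lit 83712) (Tr.node (nat_lit 52352) (Tr.node (nat_lit 37056) (Tr.node (nat_lit 20928) (Tr.node (nat_lit 10432) (Tr.leaf (nat_lit 154952)) (Tr.leaf (nat_lit 619674))) (Tr.node (nat_lit 6976) (Tr.leaf (nat_lit 619540)) (Tr.node (nat_lit 3520) (Tr.leaf (nat_lit 619451)) (Tr.leaf (nat_lit 619406))))) (Tr.node (nat_lit 4800) (Tr.node (nat_lit 384) (Tr.leaf (nat_lit 38708)) (Tr.leaf (nat_lit 151))) (Tr.node (nat_lit 6912) (Tr.leaf (nat_lit 619272)) (Tr.node (nat_lit 64) (Tr.leaf (nat_lit 2418)) (Tr.leaf (nat_lit 154795)))))) (Tr.node (nat_lit 12224) (Tr.node (nat_lit 9408) (Tr.node (nat_lit 6976) (Tr.leaf (nat_lit 619139)) (Tr.leaf (nat_lit 619049))) (Tr.node (nat_lit 896) (Tr.leaf (nat_lit 604)) (Tr.node (nat_lit 128) (Tr.leaf (nat_lit 154751)) (Tr.leaf (nat_lit 154751))))) (Tr.node (nat_lit 8704) (Tr.node (nat_lit 4864) (Tr.leaf (nat_lit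 618982)) (Tr.node (nat_lit 320) (Tr.leaf (nat_lit 154730)) (Tr.leaf (nat_lit 154728)))) (Tr.node (nat_lit 2688) (Tr.leaf (nat_lit 2475485)) (Tr.node (nat_lit 4288) (Tr.leaf (nat_lit 154709)) (Tr.leaf (nat_lit 618782))))))) (Tr.node (nat_lit 64704) (Tr.node (nat_lit 41856) (Tr.node (nat_lit 10496) (Tr.node (nat_lit 4480) (Tr.leaf (nat_lit 154684)) (Tr.leaf (nat_lit 38667))) (Tr.node (nat_lit 5184) (Tr.leaf (nat_lit 618603)) (Tr.node (nat_lit 5248) (Tr.leaf (nat_lit 618537)) (Tr.leaf (nat_lit 618470))))) (Tr.node (nat_lit 17408) (Tr.node (nat_lit 12160) (Tr.leaf (nat_lit 618203)) (Tr.node (nat_lit 1984) (Tr.leaf (nat_lit 618047)) (Tr.leaf (nat_lit 603)))) (Tr.node (nat_lit 3072) (Tr.leaf (nat_lit 2471923)) (Tr.node (nat_lit 384) (Tr.leaf (nat_lit 38621)) (Tr.leaf (nat_lit 154484)))))) (Tr.node (nat_lit 18944) (Tr.node (nat_lit 7808) (Tr.node (nat_lit 4992) (Tr.leaf (nat_lit 154477))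 (Tr.leaf (nat_lit 154461))) (Tr.node (nat_lit 7616) (Tr.leaf (nat_lit 38613)) (Tr.node (nat_lit 896) (Tr.leaf (nat_lit 617714)) (Tr.leaf (nat_lit 617703))))) (Tr.node (nat_lit 20672) (Tr.node (nat_lit 16128) (Tr.leaf (nat_lit 154417)) (Tr.node (nat_lit 1280) (Tr.leaf (nat_lit 150)) (Tr.leaf (nat_lit 2469791)))) (Tr.node (nat_lit 192) (Tr.leaf (nat_lit 154351)) (Tr.node (nat_lit 3712) (Tr.leaf (nat_lit 154350)) (Tr.leaf (nat_lit 154339))))))))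

noncomputable def jt83 : Tr :=
  (Tr.node (nat_lit 122368) (Tr.node (nat_lit 59136) (Tr.node (nat_lit 31296) (Tr.node (nat_lit 17408) (Tr.node (nat_lit 4224) (Tr.leaf (nat_lit 2469081)) (Tr.leaf (nat_lit 150))) (Tr.node (nat_lit 7872) (Tr.leaf (nat_lit 154262)) (Tr.node (nat_lit 576) (Tr.leaf (nat_lit 602)) (Tr.leaf (nat_lit 154235))))) (Tr.node (nat_lit 11200) (Tr.node (nat_lit 2752) (Tr.leaf (nat_lit 616871)) (Tr.leaf (nat_lit 154209))) (Tr.node (nat_lit 9664) (Tr.leaf (nat_lit 38545)) (Tr.node (nat_lit 5504) (Tr.leaf (nat_lit 154151)) (Tr.leaf (nat_lit 2408)))))) (Tr.node (nat_lit 29248) (Tr.node (nat_lit 13888) (Tr.node (nat_lit 4736) (Tr.leaf (nat_lit 154129)) (Tr.leaf (nat_lit 616456))) (Tr.node (nat_lit 1728) (Tr.leaf (nat_lit 616340)) (Tr.node (nat_lit 8640) (Tr.leaf (nat_lit 616318)) (Tr.leaf (nat_lit 2464830))))) (Tr.node (nat_lit 25344) (Tr.node (nat_lit 15168) (Tr.leaf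 (nat_lit 150)) (Tr.node (nat_lit 704) (Tr.leaf (nat_lit 38496)) (Tr.leaf (nat_lit 615942)))) (Tr.node (nat_lit 960) (Tr.leaf (nat_lit 38488)) (Tr.node (nat_lit 7360) (Tr.leaf (nat_lit 615810)) (Tr.leaf (nat_lit 38482))))))) (Tr.node (nat_lit 74304) (Tr.node (nat_lit 29376) (Tr.node (nat_lit 17472) (Tr.node (nat_lit 3584) (Tr.leaf (nat_lit 601)) (Tr.leaf (nat_lit 9619))) (Tr.node (nat_lit 6080) (Tr.leaf (nat_lit 615490)) (Tr.node (nat_lit 640) (Tr.leaf (nat_lit 615412)) (Tr.leaf (nat_lit 150))))) (Tr.node (nat_lit 11456) (Tr.node (nat_lit 1088) (Tr.leaf (nat_lit 150)) (Tr.node (nat_lit 8320) (Tr.leaf (nat_lit 2461299)) (Tr.leaf (nat_lit 38451)))) (Tr.node (nat_lit 3520) (Tr.leaf (nat_lit 153798)) (Tr.node (nat_lit 10368) (Tr.leaf (nat_lit 615148)) (Tr.leaf (nat_lit 153754)))))) (Tr.node (nat_lit 21312) (Tr.node (nat_lit 15232) (Tr.node (nat_lit 3136) (Tr.leaf (nat_lit 153691))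 (Tr.leaf (nat_lit 600))) (Tr.node (nat_lit 832) (Tr.leaf (nat_lit 38410)) (Tr.node (nat_lit 2496) (Tr.leaf (nat_lit 2400)) (Tr.leaf (nat_lit 614532))))) (Tr.node (nat_lit 12800) (Tr.node (nat_lit 5248) (Tr.leaf (nat_lit 38406)) (Tr.node (nat_lit 2368) (Tr.leaf (nat_lit 153607)) (Tr.leaf (nat_lit 614400)))) (Tr.node (nat_lit 5184) (Tr.leaf (nat_lit 614334)) (Tr.node (nat_lit 20800) (Tr.leaf (nat_lit 9828300)) (Tr.leaf (nat_lit 614005))))))))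

noncomputable def jt84 : Tr :=
  (Tr.node (nat_lit 90368) (Tr.node (nat_lit 43840) (Tr.node (nat_lit 12736) (Tr.node (nat_lit 2368) (Tr.node (nat_lit 2048) (Tr.leaf (nat_lit 153443)) (Tr.leaf (nat_lit 599))) (Tr.node (nat_lit 3456) (Tr.leaf (nat_lit 613742)) (Tr.node (nat_lit 4992) (Tr.leaf (nat_lit 153424)) (Tr.leaf (nat_lit 153408))))) (Tr.node (nat_lit 13824) (Tr.node (nat_lit 8512) (Tr.leaf (nat_lit 153402)) (Tr.leaf (nat_lit 38343))) (Tr.node (nat_lit 10368) (Tr.leaf (nat_lit 613435)) (Tr.node (nat_lit 6272) (Tr.leaf (nat_lit 613303)) (Tr.leaf (nat_lit 153306)))))) (Tr.node (nat_lit 19584) (Tr.node (nat_lit 10368) (Tr.node (nat_lit 3456) (Tr.leaf (nat_lit 2452865)) (Tr.leaf (nat_lit 153293))) (Tr.node (nat_lit 3072) (Tr.leaf (nat_lit 153271)) (Tr.node (nat_lit 2112) (Tr.leaf (nat_lit 38315)) (Tr.leaf (nat_lit 613019))))) (Tr.node (nat_lit 14976) (Tr.node (nat_lit 1152)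 (Tr.leaf (nat_lit 153242)) (Tr.node (nat_lit 8320) (Tr.leaf (nat_lit 2451815)) (Tr.leaf (nat_lit 598)))) (Tr.node (nat_lit 5760) (Tr.leaf (nat_lit 612778)) (Tr.node (nat_lit 64) (Tr.leaf (nat_lit 149)) (Tr.leaf (nat_lit 153176))))))) (Tr.node (nat_lit 46720) (Tr.node (nat_lit 24064) (Tr.node (nat_lit 11712) (Tr.node (nat_lit 6784) (Tr.leaf (nat_lit 38289)) (Tr.leaf (nat_lit 153135))) (Tr.node (nat_lit 7360) (Tr.leaf (nat_lit 2392)) (Tr.node (nat_lit 3648) (Tr.leaf (nat_lit 612385)) (Tr.leaf (nat_lit 149))))) (Tr.node (nat_lit 12224) (Tr.node (nat_lit 1920) (Tr.leaf (nat_lit 153080)) (Tr.node (nat_lit 6400) (Tr.leaf (nat_lit 153074)) (Tr.leaf (nat_lit 153054)))) (Tr.node (nat_lit 64) (Tr.leaf (nat_lit 38260)) (Tr.node (nat_lit 3456) (Tr.leaf (nat_lit 2448670)) (Tr.leaf (nat_lit 153030)))))) (Tr.node (nat_lit 24768) (Tr.node (nat_lit 4672) (Tr.node (nat_lit 3456) (Tr.leaf (nat_lit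 612036)) (Tr.leaf (nat_lit 2447972))) (Tr.node (nat_lit 5952) (Tr.leaf (nat_lit 149)) (Tr.node (nat_lit 11968) (Tr.leaf (nat_lit 152975)) (Tr.leaf (nat_lit 152937))))) (Tr.node (nat_lit 30400) (Tr.node (nat_lit 6272) (Tr.leaf (nat_lit 152930)) (Tr.node (nat_lit 3392) (Tr.leaf (nat_lit 611644)) (Tr.leaf (nat_lit 611600)))) (Tr.node (nat_lit 1088) (Tr.leaf (nat_lit 152834)) (Tr.node (nat_lit 832) (Tr.leaf (nat_lit 149)) (Tr.leaf (nat_lit 152828))))))))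

noncomputable def jt85 : Tr :=
  (Tr.node (nat_lit 116160) (Tr.node (nat_lit 43072) (Tr.node (nat_lit 15488) (Tr.node (nat_lit 7552) (Tr.node (nat_lit 1728) (Tr.leaf (nat_lit 611274)) (Tr.leaf (nat_lit 611252))) (Tr.node (nat_lit 4544) (Tr.leaf (nat_lit 152794)) (Tr.node (nat_lit 1344) (Tr.leaf (nat_lit 2444489)) (Tr.leaf (nat_lit 38194))))) (Tr.node (nat_lit 10368) (Tr.node (nat_lit 5824) (Tr.leaf (nat_lit 152769)) (Tr.leaf (nat_lit 152751))) (Tr.node (nat_lit 6848) (Tr.leaf (nat_lit 2443793)) (Tr.node (nat_lit 3392) (Tr.leaf (nat_lit 610861)) (Tr.leaf (nat_lit 596)))))) (Tr.node (nat_lit 20608) (Tr.node (nat_lit 5824) (Tr.node (nat_lit 3456) (Tr.leaf (nat_lit 610731)) (Tr.leaf (nat_lit 610687))) (Tr.node (nat_lit 4480) (Tr.leaf (nat_lit 9541)) (Tr.node (nat_lit 5440) (Tr.leaf (nat_lit 610600)) (Tr.leaf (nat_lit 149))))) (Tr.node (nat_lit 34432) (Tr.node (nat_lit 10368) (Tr.leaf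 (nat_lit 152617)) (Tr.node (nat_lit 3392) (Tr.leaf (nat_lit 610340)) (Tr.leaf (nat_lit 610297)))) (Tr.node (nat_lit 3520) (Tr.leaf (nat_lit 152509)) (Tr.node (nat_lit 3328) (Tr.leaf (nat_lit 152498)) (Tr.leaf (nat_lit 152487))))))) (Tr.node (nat_lit 71232) (Tr.node (nat_lit 33472) (Tr.node (nat_lit 12864) (Tr.node (nat_lit 2560) (Tr.leaf (nat_lit 595)) (Tr.leaf (nat_lit 152444))) (Tr.node (nat_lit 7872) (Tr.leaf (nat_lit 609647)) (Tr.node (nat_lit 4992) (Tr.leaf (nat_lit 38096)) (Tr.leaf (nat_lit 609485))))) (Tr.node (nat_lit 20608) (Tr.node (nat_lit 1728) (Tr.leaf (nat_lit 2437552)) (Tr.node (nat_lit 4800) (Tr.leaf (nat_lit 2380)) (Tr.leaf (nat_lit 148)))) (Tr.node (nat_lit 6848) (Tr.leaf (nat_lit 609128)) (Tr.node (nat_lit 3456) (Tr.leaf (nat_lit 2436169)) (Tr.leaf (nat_lit 9515)))))) (Tr.node (nat_lit 25344) (Tr.node (nat_lit 14848) (Tr.node (nat_lit 3456) (Tr.leaf (nat_lit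 152228)) (Tr.leaf (nat_lit 608869))) (Tr.node (nat_lit 1856) (Tr.leaf (nat_lit 152181)) (Tr.node (nat_lit 2176) (Tr.leaf (nat_lit 148)) (Tr.leaf (nat_lit 148))))) (Tr.node (nat_lit 9600) (Tr.node (nat_lit 3008) (Tr.leaf (nat_lit 38037)) (Tr.node (nat_lit 2496) (Tr.leaf (nat_lit 38034)) (Tr.leaf (nat_lit 608524)))) (Tr.node (nat_lit 9664) (Tr.leaf (nat_lit 152118)) (Tr.node (nat_lit 6848) (Tr.leaf (nat_lit 2433409)) (Tr.leaf (nat_lit 608266))))))))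

noncomputable def jt86 : Tr :=
  (Tr.node (nat_lit 111168) (Tr.node (nat_lit 66688) (Tr.node (nat_lit 33920) (Tr.node (nat_lit 15296) (Tr.node (nat_lit 8448) (Tr.leaf (nat_lit 38012)) (Tr.leaf (nat_lit 608093))) (Tr.node (nat_lit 11136) (Tr.leaf (nat_lit 2432031)) (Tr.node (nat_lit 2560) (Tr.leaf (nat_lit 607867)) (Tr.leaf (nat_lit 607835))))) (Tr.node (nat_lit 5376) (Tr.node (nat_lit 1920) (Tr.leaf (nat_lit 151943)) (Tr.leaf (nat_lit 607749))) (Tr.node (nat_lit 5888) (Tr.leaf (nat_lit 607706)) (Tr.node (nat_lit 11200) (Tr.leaf (nat_lit 151908)) (Tr.leaf (nat_lit 2429967)))))) (Tr.node (nat_lit 20544) (Tr.node (nat_lit 12992) (Tr.node (nat_lit 10240) (Tr.leaf (nat_lit 151840)) (Tr.leaf (nat_lit 607234))) (Tr.node (nat_lit 704) (Tr.leaf (nat_lit 592)) (Tr.node (nat_lit 3264) (Tr.leaf (nat_lit 607191)) (Tr.leaf (nat_lit 37946))))) (Tr.node (nat_lit 13120) (Tr.node (nat_lit 10240)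 (Tr.leaf (nat_lit 151776)) (Tr.node (nat_lit 320) (Tr.leaf (nat_lit 2427906)) (Tr.leaf (nat_lit 37935)))) (Tr.node (nat_lit 576) (Tr.leaf (nat_lit 37933)) (Tr.node (nat_lit 6784) (Tr.leaf (nat_lit 151733)) (Tr.leaf (nat_lit 606848))))))) (Tr.node (nat_lit 62592) (Tr.node (nat_lit 24192) (Tr.node (nat_lit 10240) (Tr.node (nat_lit 6208) (Tr.leaf (nat_lit 606805)) (Tr.leaf (nat_lit 151681))) (Tr.node (nat_lit 10240) (Tr.leaf (nat_lit 151669)) (Tr.node (nat_lit 1728) (Tr.leaf (nat_lit 606548)) (Tr.leaf (nat_lit 606526))))) (Tr.node (nat_lit 33280) (Tr.node (nat_lit 3136) (Tr.leaf (nat_lit 148)) (Tr.node (nat_lit 21376) (Tr.leaf (nat_lit 606462)) (Tr.leaf (nat_lit 591)))) (Tr.node (nat_lit 640) (Tr.leaf (nat_lit 151521)) (Tr.node (nat_lit 3392) (Tr.leaf (nat_lit 151519)) (Tr.leaf (nat_lit 606034)))))) (Tr.node (nat_lit 39872) (Tr.node (nat_lit 26240) (Tr.node (nat_lit 9152) (Tr.leaf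 (nat_lit 37876)) (Tr.leaf (nat_lit 151476))) (Tr.node (nat_lit 12288) (Tr.leaf (nat_lit 605692)) (Tr.node (nat_lit 1024) (Tr.leaf (nat_lit 37846)) (Tr.leaf (nat_lit 9461))))) (Tr.node (nat_lit 17152) (Tr.node (nat_lit 5120) (Tr.leaf (nat_lit 605521)) (Tr.node (nat_lit 1728) (Tr.leaf (nat_lit 605457)) (Tr.leaf (nat_lit 605436)))) (Tr.node (nat_lit 3328) (Tr.leaf (nat_lit 147)) (Tr.node (nat_lit 6848) (Tr.leaf (nat_lit 2421063)) (Tr.leaf (nat_lit 605180))))))))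

noncomputable def jt87 : Tr :=
  (Tr.node (nat_lit 111104) (Tr.node (nat_lit 40896) (Tr.node (nat_lit 25024) (Tr.node (nat_lit 2304) (Tr.node (nat_lit 1024) (Tr.leaf (nat_lit 605138)) (Tr.leaf (nat_lit 151281))) (Tr.node (nat_lit 4480) (Tr.leaf (nat_lit 147)) (Tr.node (nat_lit 3456) (Tr.leaf (nat_lit 151263)) (Tr.leaf (nat_lit 605010))))) (Tr.node (nat_lit 1088) (Tr.node (nat_lit 512) (Tr.leaf (nat_lit 151206)) (Tr.leaf (nat_lit 604818))) (Tr.node (nat_lit 11136) (Tr.leaf (nat_lit 590)) (Tr.node (nat_lit 2112) (Tr.leaf (nat_lit 37792)) (Tr.leaf (nat_lit 37790)))))) (Tr.node (nat_lit 28096) (Tr.node (nat_lit 13440) (Tr.node (nat_lit 10240) (Tr.leaf (nat_lit 151156)) (Tr.leaf (nat_lit 2417997))) (Tr.node (nat_lit 3520) (Tr.leaf (nat_lit 151114)) (Tr.node (nat_lit 64) (Tr.leaf (nat_lit 590)) (Tr.leaf (nat_lit 2417656))))) (Tr.node (nat_lit 20224) (Tr.node (nat_lit 7680) (Tr.leaf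 (nat_lit 147)) (Tr.node (nat_lit 11904) (Tr.leaf (nat_lit 604180)) (Tr.leaf (nat_lit 151007)))) (Tr.node (nat_lit 2752) (Tr.leaf (nat_lit 37751)) (Tr.node (nat_lit 10240) (Tr.leaf (nat_lit 603989)) (Tr.leaf (nat_lit 603861))))))) (Tr.node (nat_lit 62528) (Tr.node (nat_lit 21696) (Tr.node (nat_lit 8128) (Tr.node (nat_lit 1280) (Tr.leaf (nat_lit 2358)) (Tr.leaf (nat_lit 603734))) (Tr.node (nat_lit 3392) (Tr.leaf (nat_lit 603649)) (Tr.node (nat_lit 6656) (Tr.leaf (nat_lit 603607)) (Tr.leaf (nat_lit 150880))))) (Tr.node (nat_lit 11904) (Tr.node (nat_lit 1728) (Tr.leaf (nat_lit 603480)) (Tr.node (nat_lit 5056) (Tr.leaf (nat_lit 603458)) (Tr.leaf (nat_lit 603395)))) (Tr.node (nat_lit 8512) (Tr.leaf (nat_lit 603331)) (Tr.node (nat_lit 10176) (Tr.leaf (nat_lit 9651611)) (Tr.leaf (nat_lit 150774)))))) (Tr.node (nat_lit 31552) (Tr.node (nat_lit 6784) (Tr.node (nat_lit 1856) (Tr.leaf (nat_lit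 602971)) (Tr.leaf (nat_lit 37684))) (Tr.node (nat_lit 3392) (Tr.leaf (nat_lit 2411548)) (Tr.node (nat_lit 6784) (Tr.leaf (nat_lit 150711)) (Tr.leaf (nat_lit 150690))))) (Tr.node (nat_lit 15936) (Tr.node (nat_lit 64) (Tr.leaf (nat_lit 147)) (Tr.node (nat_lit 7168) (Tr.leaf (nat_lit 150644)) (Tr.leaf (nat_lit 9413)))) (Tr.node (nat_lit 3008) (Tr.leaf (nat_lit 2409518)) (Tr.node (nat_lit 5504) (Tr.leaf (nat_lit 588)) (Tr.leaf (nat_lit 602274))))))))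

noncomputable def jt88 : Tr :=
  (Tr.node (nat_lit 91520) (Tr.node (nat_lit 49152) (Tr.node (nat_lit 13632) (Tr.node (nat_lit 2176) (Tr.node (nat_lit 1152) (Tr.leaf (nat_lit 602126)) (Tr.leaf (nat_lit 146))) (Tr.node (nat_lit 1088) (Tr.leaf (nat_lit 150524)) (Tr.node (nat_lit 10304) (Tr.leaf (nat_lit 37630)) (Tr.leaf (nat_lit 601957))))) (Tr.node (nat_lit 16896) (Tr.node (nat_lit 6720) (Tr.leaf (nat_lit 37622)) (Tr.node (nat_lit 8704) (Tr.leaf (nat_lit 9629971)) (Tr.leaf (nat_lit 587)))) (Tr.node (nat_lit 7936) (Tr.leaf (nat_lit 601746)) (Tr.node (nat_lit 7936) (Tr.leaf (nat_lit 150411)) (Tr.leaf (nat_lit 150387)))))) (Tr.node (nat_lit 20288) (Tr.node (nat_lit 5120) (Tr.node (nat_lit 1728) (Tr.leaf (nat_lit 601514)) (Tr.leaf (nat_lit 150373))) (Tr.node (nat_lit 5056) (Tr.leaf (nat_lit 601451)) (Tr.node (nat_lit 1664) (Tr.leaf (nat_lit 601388)) (Tr.leaf (nat_lit 601367))))) (Tr.node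 (nat_lit 7872) (Tr.node (nat_lit 1728) (Tr.leaf (nat_lit 587)) (Tr.node (nat_lit 384) (Tr.leaf (nat_lit 601241)) (Tr.leaf (nat_lit 150309)))) (Tr.node (nat_lit 832) (Tr.leaf (nat_lit 146)) (Tr.node (nat_lit 3200) (Tr.leaf (nat_lit 150288)) (Tr.leaf (nat_lit 601115))))))) (Tr.node (nat_lit 70912) (Tr.node (nat_lit 33280) (Tr.node (nat_lit 13504) (Tr.node (nat_lit 3392) (Tr.leaf (nat_lit 150247)) (Tr.leaf (nat_lit 600946))) (Tr.node (nat_lit 1728) (Tr.leaf (nat_lit 600820)) (Tr.node (nat_lit 4416) (Tr.leaf (nat_lit 600799)) (Tr.leaf (nat_lit 150186))))) (Tr.node (nat_lit 17472) (Tr.node (nat_lit 576) (Tr.leaf (nat_lit 37535)) (Tr.node (nat_lit 10112) (Tr.leaf (nat_lit 150142)) (Tr.leaf (nat_lit 600442)))) (Tr.node (nat_lit 15232) (Tr.leaf (nat_lit 2401435)) (Tr.node (nat_lit 832) (Tr.leaf (nat_lit 600170)) (Tr.leaf (nat_lit 37509)))))) (Tr.node (nat_lit 30592) (Tr.node (nat_lit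 3520) (Tr.node (nat_lit 128) (Tr.leaf (nat_lit 37506)) (Tr.leaf (nat_lit 600107))) (Tr.node (nat_lit 5952) (Tr.leaf (nat_lit 600065)) (Tr.node (nat_lit 14336) (Tr.leaf (nat_lit 146)) (Tr.leaf (nat_lit 149953))))) (Tr.node (nat_lit 13504) (Tr.node (nat_lit 3392) (Tr.leaf (nat_lit 149932)) (Tr.node (nat_lit 4672) (Tr.leaf (nat_lit 599688)) (Tr.leaf (nat_lit 585)))) (Tr.node (nat_lit 6784) (Tr.leaf (nat_lit 149890)) (Tr.node (nat_lit 3328) (Tr.leaf (nat_lit 599479)) (Tr.leaf (nat_lit 599437))))))))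

noncomputable def jt89 : Tr :=
  (Tr.node (nat_lit 101248) (Tr.node (nat_lit 43904) (Tr.node (nat_lit 20288) (Tr.node (nat_lit 10112) (Tr.node (nat_lit 9856) (Tr.leaf (nat_lit 599353)) (Tr.leaf (nat_lit 2340))) (Tr.node (nat_lit 3200) (Tr.leaf (nat_lit 599228)) (Tr.node (nat_lit 5248) (Tr.leaf (nat_lit 149797)) (Tr.leaf (nat_lit 599123))))) (Tr.node (nat_lit 13440) (Tr.node (nat_lit 10112) (Tr.leaf (nat_lit 599102)) (Tr.leaf (nat_lit 149744))) (Tr.node (nat_lit 1280) (Tr.leaf (nat_lit 598935)) (Tr.node (nat_lit 5504) (Tr.leaf (nat_lit 2339)) (Tr.leaf (nat_lit 2395408)))))) (Tr.node (nat_lit 24064) (Tr.node (nat_lit 16832) (Tr.node (nat_lit 6720) (Tr.leaf (nat_lit 598810)) (Tr.leaf (nat_lit 149681))) (Tr.node (nat_lit 5312) (Tr.leaf (nat_lit 2394406)) (Tr.node (nat_lit 1600) (Tr.leaf (nat_lit 149634)) (Tr.leaf (nat_lit 37407))))) (Tr.node (nat_lit 26496) (Tr.node (nat_lit 2240)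 (Tr.leaf (nat_lit 146)) (Tr.node (nat_lit 14144) (Tr.leaf (nat_lit 9351)) (Tr.leaf (nat_lit 598309)))) (Tr.node (nat_lit 3200) (Tr.leaf (nat_lit 2392739)) (Tr.node (nat_lit 1728) (Tr.leaf (nat_lit 149536)) (Tr.leaf (nat_lit 37382))))))) (Tr.node (nat_lit 75968) (Tr.node (nat_lit 23552) (Tr.node (nat_lit 19072) (Tr.node (nat_lit 13440) (Tr.leaf (nat_lit 598101)) (Tr.leaf (nat_lit 597935))) (Tr.node (nat_lit 2624) (Tr.leaf (nat_lit 37366)) (Tr.node (nat_lit 1024) (Tr.leaf (nat_lit 583)) (Tr.leaf (nat_lit 597820))))) (Tr.node (nat_lit 11968) (Tr.node (nat_lit 10112) (Tr.leaf (nat_lit 149452)) (Tr.node (nat_lit 1024) (Tr.leaf (nat_lit 597685)) (Tr.leaf (nat_lit 149418)))) (Tr.node (nat_lit 8256) (Tr.leaf (nat_lit 37353)) (Tr.node (nat_lit 26304) (Tr.leaf (nat_lit 2390242)) (Tr.leaf (nat_lit 149309)))))) (Tr.node (nat_lit 30912) (Tr.node (nat_lit 14912) (Tr.node (nat_lit 8192) (Tr.leaf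 (nat_lit 149290)) (Tr.leaf (nat_lit 149265))) (Tr.node (nat_lit 3392) (Tr.leaf (nat_lit 149244)) (Tr.node (nat_lit 6720) (Tr.leaf (nat_lit 596937)) (Tr.leaf (nat_lit 2387419))))) (Tr.node (nat_lit 15744) (Tr.node (nat_lit 2624) (Tr.leaf (nat_lit 596782)) (Tr.node (nat_lit 11648) (Tr.leaf (nat_lit 149187)) (Tr.leaf (nat_lit 596606)))) (Tr.node (nat_lit 8640) (Tr.leaf (nat_lit 149146)) (Tr.node (nat_lit 3328) (Tr.leaf (nat_lit 149120)) (Tr.leaf (nat_lit 596440))))))))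

noncomputable def jt90 : Tr :=
  (Tr.node (nat_lit 99904) (Tr.node (nat_lit 54720) (Tr.node (nat_lit 19712) (Tr.node (nat_lit 8768) (Tr.node (nat_lit 2368) (Tr.leaf (nat_lit 149086)) (Tr.leaf (nat_lit 596316))) (Tr.node (nat_lit 320) (Tr.leaf (nat_lit 145)) (Tr.node (nat_lit 1856) (Tr.leaf (nat_lit 149058)) (Tr.leaf (nat_lit 582))))) (Tr.node (nat_lit 9536) (Tr.node (nat_lit 2816) (Tr.leaf (nat_lit 149025)) (Tr.leaf (nat_lit 149016))) (Tr.node (nat_lit 20160) (Tr.leaf (nat_lit 595985)) (Tr.node (nat_lit 3328) (Tr.leaf (nat_lit 148934)) (Tr.leaf (nat_lit 2382783)))))) (Tr.node (nat_lit 24896) (Tr.node (nat_lit 12544) (Tr.node (nat_lit 8064) (Tr.leaf (nat_lit 581)) (Tr.leaf (nat_lit 148892))) (Tr.node (nat_lit 2240) (Tr.leaf (nat_lit 9304)) (Tr.node (nat_lit 9728) (Tr.leaf (nat_lit 595489)) (Tr.leaf (nat_lit 2325))))) (Tr.node (nat_lit 13376) (Tr.node (nat_lit 8384) (Tr.leaf (nat_lit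 595365)) (Tr.node (nat_lit 1664) (Tr.leaf (nat_lit 595262)) (Tr.leaf (nat_lit 148810)))) (Tr.node (nat_lit 128) (Tr.leaf (nat_lit 9523209)) (Tr.node (nat_lit 6592) (Tr.leaf (nat_lit 148799)) (Tr.leaf (nat_lit 595118))))))) (Tr.node (nat_lit 50112) (Tr.node (nat_lit 31744) (Tr.node (nat_lit 9856) (Tr.node (nat_lit 2560) (Tr.leaf (nat_lit 148778)) (Tr.leaf (nat_lit 37192))) (Tr.node (nat_lit 9024) (Tr.leaf (nat_lit 148748)) (Tr.node (nat_lit 11136) (Tr.leaf (nat_lit 148720)) (Tr.leaf (nat_lit 594747))))) (Tr.node (nat_lit 8320) (Tr.node (nat_lit 5760) (Tr.leaf (nat_lit 148681)) (Tr.node (nat_lit 256) (Tr.leaf (nat_lit 145)) (Tr.leaf (nat_lit 148663)))) (Tr.node (nat_lit 3328) (Tr.leaf (nat_lit 594623)) (Tr.node (nat_lit 448) (Tr.leaf (nat_lit 148645)) (Tr.leaf (nat_lit 145)))))) (Tr.node (nat_lit 17152) (Tr.node (nat_lit 3328) (Tr.node (nat_lit 3136) (Tr.leaf (nat_lit 148625))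 (Tr.leaf (nat_lit 145))) (Tr.node (nat_lit 6720) (Tr.leaf (nat_lit 2377836)) (Tr.node (nat_lit 3776) (Tr.leaf (nat_lit 594376)) (Tr.leaf (nat_lit 594330))))) (Tr.node (nat_lit 23040) (Tr.node (nat_lit 1856) (Tr.leaf (nat_lit 2321)) (Tr.node (nat_lit 4416) (Tr.leaf (nat_lit 148566)) (Tr.leaf (nat_lit 2376849)))) (Tr.node (nat_lit 3328) (Tr.leaf (nat_lit 148501)) (Tr.node (nat_lit 1664) (Tr.leaf (nat_lit 593965)) (Tr.leaf (nat_lit 593945))))))))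

noncomputable def jt91 : Tr :=
  (Tr.node (nat_lit 107456) (Tr.node (nat_lit 57344) (Tr.node (nat_lit 18624) (Tr.node (nat_lit 7168) (Tr.node (nat_lit 512) (Tr.leaf (nat_lit 148462)) (Tr.leaf (nat_lit 593842))) (Tr.node (nat_lit 3392) (Tr.leaf (nat_lit 593760)) (Tr.node (nat_lit 6656) (Tr.leaf (nat_lit 593719)) (Tr.leaf (nat_lit 593637))))) (Tr.node (nat_lit 20544) (Tr.node (nat_lit 18688) (Tr.leaf (nat_lit 144)) (Tr.leaf (nat_lit 2373565))) (Tr.node (nat_lit 8128) (Tr.leaf (nat_lit 148342)) (Tr.node (nat_lit 4032) (Tr.leaf (nat_lit 148317)) (Tr.leaf (nat_lit 579)))))) (Tr.node (nat_lit 23552) (Tr.node (nat_lit 14400) (Tr.node (nat_lit 2752) (Tr.leaf (nat_lit 593145)) (Tr.leaf (nat_lit 148278))) (Tr.node (nat_lit 3968) (Tr.leaf (nat_lit 9265)) (Tr.node (nat_lit 5056) (Tr.leaf (nat_lit 592920)) (Tr.leaf (nat_lit 148214))))) (Tr.node (nat_lit 9856) (Tr.node (nat_lit 2816) (Tr.leaf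 (nat_lit 144)) (Tr.node (nat_lit 6208) (Tr.leaf (nat_lit 2315)) (Tr.leaf (nat_lit 592746)))) (Tr.node (nat_lit 1664) (Tr.leaf (nat_lit 592736)) (Tr.node (nat_lit 8384) (Tr.leaf (nat_lit 592715)) (Tr.leaf (nat_lit 592613))))))) (Tr.node (nat_lit 66752) (Tr.node (nat_lit 43392) (Tr.node (nat_lit 20032) (Tr.node (nat_lit 3328) (Tr.leaf (nat_lit 592531)) (Tr.leaf (nat_lit 592491))) (Tr.node (nat_lit 14400) (Tr.leaf (nat_lit 148071)) (Tr.node (nat_lit 6208) (Tr.leaf (nat_lit 144)) (Tr.leaf (nat_lit 37002))))) (Tr.node (nat_lit 13888) (Tr.node (nat_lit 64) (Tr.leaf (nat_lit 592001)) (Tr.node (nat_lit 6592) (Tr.leaf (nat_lit 578)) (Tr.leaf (nat_lit 2367677)))) (Tr.node (nat_lit 1088) (Tr.leaf (nat_lit 36989)) (Tr.node (nat_lit 64) (Tr.leaf (nat_lit 577)) (Tr.leaf (nat_lit 591817)))))) (Tr.node (nat_lit 31232) (Tr.node (nat_lit 16704) (Tr.node (nat_lit 6656) (Tr.leaf (nat_lit 144)) (Tr.leaf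 (nat_lit 147908))) (Tr.node (nat_lit 6656) (Tr.leaf (nat_lit 591511)) (Tr.node (nat_lit 5760) (Tr.leaf (nat_lit 591430)) (Tr.leaf (nat_lit 577))))) (Tr.node (nat_lit 17280) (Tr.node (nat_lit 5440) (Tr.leaf (nat_lit 147833)) (Tr.node (nat_lit 6656) (Tr.leaf (nat_lit 9460280)) (Tr.leaf (nat_lit 591186)))) (Tr.node (nat_lit 4800) (Tr.leaf (nat_lit 147780)) (Tr.node (nat_lit 9984) (Tr.leaf (nat_lit 147766)) (Tr.leaf (nat_lit 2363768))))))))

noncomputable def jt92 : Tr :=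
  (Tr.node (nat_lit 69888) (Tr.node (nat_lit 35008) (Tr.node (nat_lit 21504) (Tr.node (nat_lit 11072) (Tr.node (nat_lit 6656) (Tr.leaf (nat_lit 147725)) (Tr.leaf (nat_lit 590820))) (Tr.node (nat_lit 5632) (Tr.leaf (nat_lit 147691)) (Tr.node (nat_lit 3328) (Tr.leaf (nat_lit 590698)) (Tr.leaf (nat_lit 147664))))) (Tr.node (nat_lit 8512) (Tr.node (nat_lit 256) (Tr.leaf (nat_lit 36914)) (Tr.leaf (nat_lit 9228))) (Tr.node (nat_lit 2880) (Tr.leaf (nat_lit 590535)) (Tr.node (nat_lit 1280) (Tr.leaf (nat_lit 590500)) (Tr.leaf (nat_lit 576)))))) (Tr.node (nat_lit 14912) (Tr.node (nat_lit 4992) (Tr.node (nat_lit 1664) (Tr.leaf (nat_lit 590474)) (Tr.leaf (nat_lit 590454))) (Tr.node (nat_lit 5888) (Tr.leaf (nat_lit 147603)) (Tr.node (nat_lit 704) (Tr.leaf (nat_lit 147585)) (Tr.leaf (nat_lit 147583))))) (Tr.node (nat_lit 9984) (Tr.node (nat_lit 6656) (Tr.leaf (nat_lit 2361169)) (Tr.node (nat_lit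 832) (Tr.leaf (nat_lit 590211)) (Tr.leaf (nat_lit 144)))) (Tr.node (nat_lit 3584) (Tr.leaf (nat_lit 590170)) (Tr.node (nat_lit 3072) (Tr.leaf (nat_lit 147531)) (Tr.leaf (nat_lit 147522))))))) (Tr.node (nat_lit 63360) (Tr.node (nat_lit 36864) (Tr.node (nat_lit 9984) (Tr.node (nat_lit 3008) (Tr.leaf (nat_lit 590049)) (Tr.leaf (nat_lit 144))) (Tr.node (nat_lit 4992) (Tr.leaf (nat_lit 147481)) (Tr.node (nat_lit 1664) (Tr.leaf (nat_lit 589866)) (Tr.leaf (nat_lit 147461))))) (Tr.node (nat_lit 12992) (Tr.node (nat_lit 4096) (Tr.leaf (nat_lit 36849)) (Tr.node (nat_lit 5568) (Tr.leaf (nat_lit 147387)) (Tr.leaf (nat_lit 589482)))) (Tr.node (nat_lit 4032) (Tr.leaf (nat_lit 589441)) (Tr.node (nat_lit 5952) (Tr.leaf (nat_lit 147348)) (Tr.leaf (nat_lit 2357281)))))) (Tr.node (nat_lit 32448) (Tr.node (nat_lit 8704) (Tr.node (nat_lit 3136) (Tr.leaf (nat_lit 575)) (Tr.leaf (nat_lit 589239)))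 (Tr.node (nat_lit 7680) (Tr.leaf (nat_lit 147292)) (Tr.node (nat_lit 12800) (Tr.leaf (nat_lit 589077)) (Tr.leaf (nat_lit 2300))))) (Tr.node (nat_lit 13824) (Tr.node (nat_lit 1856) (Tr.leaf (nat_lit 143)) (Tr.node (nat_lit 8640) (Tr.leaf (nat_lit 36803)) (Tr.leaf (nat_lit 588754)))) (Tr.node (nat_lit 6656) (Tr.leaf (nat_lit 147178)) (Tr.node (nat_lit 832) (Tr.leaf (nat_lit 147158)) (Tr.leaf (nat_lit 36788))))))))

noncomputable def jt93 : Tr :=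
  (Tr.node (nat_lit 128000) (Tr.node (nat_lit 83840) (Tr.node (nat_lit 41920) (Tr.node (nat_lit 32448) (Tr.node (nat_lit 20736) (Tr.leaf (nat_lit 143)) (Tr.leaf (nat_lit 147091))) (Tr.node (nat_lit 768) (Tr.leaf (nat_lit 9191)) (Tr.node (nat_lit 5376) (Tr.leaf (nat_lit 143)) (Tr.leaf (nat_lit 588150))))) (Tr.node (nat_lit 13696) (Tr.node (nat_lit 11200) (Tr.leaf (nat_lit 588109)) (Tr.leaf (nat_lit 587974))) (Tr.node (nat_lit 7872) (Tr.leaf (nat_lit 143)) (Tr.node (nat_lit 8256) (Tr.leaf (nat_lit 587848)) (Tr.leaf (nat_lit 587747)))))) (Tr.node (nat_lit 24320) (Tr.node (nat_lit 7744) (Tr.node (nat_lit 4480) (Tr.leaf (nat_lit 36725)) (Tr.leaf (nat_lit 2350187))) (Tr.node (nat_lit 2560) (Tr.leaf (nat_lit 146876)) (Tr.node (nat_lit 5568) (Tr.leaf (nat_lit 573)) (Tr.leaf (nat_lit 146852))))) (Tr.node (nat_lit 9600) (Tr.node (nat_lit 1856) (Tr.leaf (nat_lit 587305)) (Tr.node (nat_lit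 1472) (Tr.leaf (nat_lit 146820)) (Tr.leaf (nat_lit 146816)))) (Tr.node (nat_lit 320) (Tr.leaf (nat_lit 146797)) (Tr.node (nat_lit 3328) (Tr.leaf (nat_lit 146796)) (Tr.leaf (nat_lit 2348580))))))) (Tr.node (nat_lit 66240) (Tr.node (nat_lit 19200) (Tr.node (nat_lit 13056) (Tr.node (nat_lit 3328) (Tr.leaf (nat_lit 2348259)) (Tr.leaf (nat_lit 146756))) (Tr.node (nat_lit 192) (Tr.leaf (nat_lit 146726)) (Tr.node (nat_lit 768) (Tr.leaf (nat_lit 586904)) (Tr.leaf (nat_lit 36680))))) (Tr.node (nat_lit 23808) (Tr.node (nat_lit 640) (Tr.leaf (nat_lit 36677)) (Tr.node (nat_lit 3328) (Tr.leaf (nat_lit 586824)) (Tr.leaf (nat_lit 146696)))) (Tr.node (nat_lit 1024) (Tr.leaf (nat_lit 586543)) (Tr.node (nat_lit 14528) (Tr.leaf (nat_lit 146632)) (Tr.leaf (nat_lit 572)))))) (Tr.node (nat_lit 13120) (Tr.node (nat_lit 3200) (Tr.node (nat_lit 1024) (Tr.leaf (nat_lit 143)) (Tr.leaf (nat_lit 146562)))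 (Tr.node (nat_lit 1088) (Tr.leaf (nat_lit 146555)) (Tr.node (nat_lit 2240) (Tr.leaf (nat_lit 143)) (Tr.leaf (nat_lit 586183))))) (Tr.node (nat_lit 4928) (Tr.node (nat_lit 832) (Tr.leaf (nat_lit 9377657)) (Tr.node (nat_lit 2496) (Tr.leaf (nat_lit 586093)) (Tr.leaf (nat_lit 146515)))) (Tr.node (nat_lit 18176) (Tr.leaf (nat_lit 586043)) (Tr.node (nat_lit 6592) (Tr.leaf (nat_lit 585823)) (Tr.leaf (nat_lit 585743))))))))

noncomputable def jt94 : Tr :=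
  (Tr.node (nat_lit 93696) (Tr.node (nat_lit 52032) (Tr.node (nat_lit 33344) (Tr.node (nat_lit 20288) (Tr.node (nat_lit 512) (Tr.leaf (nat_lit 571)) (Tr.leaf (nat_lit 146396))) (Tr.node (nat_lit 2560) (Tr.leaf (nat_lit 585344)) (Tr.node (nat_lit 7360) (Tr.leaf (nat_lit 146328)) (Tr.leaf (nat_lit 585225))))) (Tr.node (nat_lit 3456) (Tr.node (nat_lit 3328) (Tr.leaf (nat_lit 36574)) (Tr.leaf (nat_lit 142))) (Tr.node (nat_lit 9856) (Tr.leaf (nat_lit 2340581)) (Tr.node (nat_lit 3328) (Tr.leaf (nat_lit 146256)) (Tr.leaf (nat_lit 584986)))))) (Tr.node (nat_lit 14592) (Tr.node (nat_lit 4544) (Tr.node (nat_lit 192) (Tr.leaf (nat_lit 142)) (Tr.leaf (nat_lit 146239))) (Tr.node (nat_lit 1920) (Tr.leaf (nat_lit 584906)) (Tr.node (nat_lit 4736) (Tr.leaf (nat_lit 36555)) (Tr.leaf (nat_lit 142))))) (Tr.node (nat_lit 17664) (Tr.node (nat_lit 9728) (Tr.leaf (nat_lit 146196)) (Tr.node (nat_lit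 1792) (Tr.leaf (nat_lit 584667)) (Tr.leaf (nat_lit 2283)))) (Tr.node (nat_lit 5248) (Tr.leaf (nat_lit 570)) (Tr.node (nat_lit 1600) (Tr.leaf (nat_lit 2338033)) (Tr.leaf (nat_lit 584488))))))) (Tr.node (nat_lit 44992) (Tr.node (nat_lit 25472) (Tr.node (nat_lit 11264) (Tr.node (nat_lit 5696) (Tr.leaf (nat_lit 146114)) (Tr.leaf (nat_lit 146097))) (Tr.node (nat_lit 4928) (Tr.leaf (nat_lit 36520)) (Tr.node (nat_lit 5952) (Tr.leaf (nat_lit 146065)) (Tr.leaf (nat_lit 2336761))))) (Tr.node (nat_lit 9856) (Tr.node (nat_lit 3648) (Tr.leaf (nat_lit 584150)) (Tr.node (nat_lit 2880) (Tr.leaf (nat_lit 584105)) (Tr.leaf (nat_lit 584071)))) (Tr.node (nat_lit 4864) (Tr.leaf (nat_lit 584031)) (Tr.node (nat_lit 1728) (Tr.leaf (nat_lit 36498)) (Tr.leaf (nat_lit 583952)))))) (Tr.node (nat_lit 10048) (Tr.node (nat_lit 5696) (Tr.node (nat_lit 5120) (Tr.leaf (nat_lit 145978)) (Tr.leaf (nat_lit 583852)))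 (Tr.node (nat_lit 1088) (Tr.leaf (nat_lit 570)) (Tr.node (nat_lit 1920) (Tr.leaf (nat_lit 145958)) (Tr.leaf (nat_lit 142))))) (Tr.node (nat_lit 9920) (Tr.node (nat_lit 4352) (Tr.leaf (nat_lit 583793)) (Tr.node (nat_lit 3200) (Tr.leaf (nat_lit 145935)) (Tr.leaf (nat_lit 142)))) (Tr.node (nat_lit 1600) (Tr.leaf (nat_lit 145918)) (Tr.node (nat_lit 2240) (Tr.leaf (nat_lit 583654)) (Tr.leaf (nat_lit 36476))))))))

noncomputable def jt95 : Tr :=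
  (Tr.node (nat_lit 102208) (Tr.node (nat_lit 46016) (Tr.node (nat_lit 26304) (Tr.node (nat_lit 6592) (Tr.node (nat_lit 4736) (Tr.leaf (nat_lit 37347541)) (Tr.leaf (nat_lit 145874))) (Tr.node (nat_lit 3264) (Tr.leaf (nat_lit 583476)) (Tr.node (nat_lit 9856) (Tr.leaf (nat_lit 145859)) (Tr.leaf (nat_lit 583317))))) (Tr.node (nat_lit 9856) (Tr.node (nat_lit 3264) (Tr.leaf (nat_lit 2332953)) (Tr.leaf (nat_lit 583198))) (Tr.node (nat_lit 8256) (Tr.leaf (nat_lit 145779)) (Tr.node (nat_lit 1216) (Tr.leaf (nat_lit 569)) (Tr.leaf (nat_lit 36437)))))) (Tr.node (nat_lit 32832) (Tr.node (nat_lit 9856) (Tr.node (nat_lit 3264) (Tr.leaf (nat_lit 583000)) (Tr.leaf (nat_lit 582961))) (Tr.node (nat_lit 9856) (Tr.leaf (nat_lit 145720)) (Tr.node (nat_lit 3264) (Tr.leaf (nat_lit 2331054)) (Tr.leaf (nat_lit 145681))))) (Tr.node (nat_lit 9856) (Tr.node (nat_lit 6592) (Tr.leaf (nat_lit 2330421)) (Tr.node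 (nat_lit 256) (Tr.leaf (nat_lit 582526)) (Tr.leaf (nat_lit 145630)))) (Tr.node (nat_lit 9280) (Tr.leaf (nat_lit 145621)) (Tr.node (nat_lit 576) (Tr.leaf (nat_lit 142)) (Tr.leaf (nat_lit 2329473))))))) (Tr.node (nat_lit 63360) (Tr.node (nat_lit 12736) (Tr.node (nat_lit 6272) (Tr.node (nat_lit 6208) (Tr.leaf (nat_lit 142)) (Tr.leaf (nat_lit 145562))) (Tr.node (nat_lit 1024) (Tr.leaf (nat_lit 36390)) (Tr.node (nat_lit 4416) (Tr.leaf (nat_lit 9097)) (Tr.leaf (nat_lit 145545))))) (Tr.node (nat_lit 13120) (Tr.node (nat_lit 3264) (Tr.leaf (nat_lit 582171)) (Tr.node (nat_lit 6592) (Tr.leaf (nat_lit 2328526)) (Tr.leaf (nat_lit 582052)))) (Tr.node (nat_lit 16384) (Tr.leaf (nat_lit 145503)) (Tr.node (nat_lit 9856) (Tr.leaf (nat_lit 581816)) (Tr.leaf (nat_lit 145424)))))) (Tr.node (nat_lit 8384) (Tr.node (nat_lit 1088) (Tr.node (nat_lit 256) (Tr.leaf (nat_lit 145390)) (Tr.leaf (nat_lit 145389)))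 (Tr.node (nat_lit 768) (Tr.leaf (nat_lit 567)) (Tr.node (nat_lit 256) (Tr.leaf (nat_lit 145385)) (Tr.leaf (nat_lit 567))))) (Tr.node (nat_lit 3840) (Tr.node (nat_lit 1472) (Tr.leaf (nat_lit 581461)) (Tr.node (nat_lit 1856) (Tr.leaf (nat_lit 145361)) (Tr.leaf (nat_lit 581422)))) (Tr.node (nat_lit 7872) (Tr.leaf (nat_lit 36338)) (Tr.node (nat_lit 5888) (Tr.leaf (nat_lit 145330)) (Tr.leaf (nat_lit 2270))))))))

noncomputable def jt96 : Tr :=
  (Tr.node (nat_lit 101440) (Tr.node (nat_lit 56960) (Tr.node (nat_lit 18624) (Tr.node (nat_lit 9856) (Tr.node (nat_lit 7424) (Tr.leaf (nat_lit 145306)) (Tr.leaf (nat_lit 581137))) (Tr.node (nat_lit 2368) (Tr.leaf (nat_lit 581107)) (Tr.node (nat_lit 896) (Tr.leaf (nat_lit 36317)) (Tr.leaf (nat_lit 145267))))) (Tr.node (nat_lit 27648) (Tr.node (nat_lit 10880) (Tr.leaf (nat_lit 145250)) (Tr.node (nat_lit 13056) (Tr.leaf (nat_lit 580871)) (Tr.leaf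 (nat_lit 2322859)))) (Tr.node (nat_lit 2880) (Tr.leaf (nat_lit 567)) (Tr.node (nat_lit 3264) (Tr.leaf (nat_lit 580636)) (Tr.leaf (nat_lit 580597)))))) (Tr.node (nat_lit 15168) (Tr.node (nat_lit 3200) (Tr.node (nat_lit 1984) (Tr.leaf (nat_lit 141)) (Tr.leaf (nat_lit 145129))) (Tr.node (nat_lit 8576) (Tr.leaf (nat_lit 36281)) (Tr.node (nat_lit 3328) (Tr.leaf (nat_lit 9286415)) (Tr.leaf (nat_lit 580361))))) (Tr.node (nat_lit 16256) (Tr.node (nat_lit 9728) (Tr.leaf (nat_lit 36272)) (Tr.node (nat_lit 2240) (Tr.leaf (nat_lit 580244)) (Tr.leaf (nat_lit 145054)))) (Tr.node (nat_lit 3264) (Tr.leaf (nat_lit 580165)) (Tr.node (nat_lit 4864) (Tr.leaf (nat_lit 580126)) (Tr.leaf (nat_lit 141))))))) (Tr.node (nat_lit 49024) (Tr.node (nat_lit 26176) (Tr.node (nat_lit 6528) (Tr.node (nat_lit 5760) (Tr.leaf (nat_lit 580009)) (Tr.leaf (nat_lit 2265))) (Tr.node (nat_lit 3328) (Tr.leaf (nat_lit 2319723))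 (Tr.node (nat_lit 2432) (Tr.leaf (nat_lit 144972)) (Tr.leaf (nat_lit 141))))) (Tr.node (nat_lit 7552) (Tr.node (nat_lit 3264) (Tr.leaf (nat_lit 579695)) (Tr.node (nat_lit 2176) (Tr.leaf (nat_lit 579656)) (Tr.leaf (nat_lit 141)))) (Tr.node (nat_lit 2240) (Tr.leaf (nat_lit 144901)) (Tr.node (nat_lit 9792) (Tr.leaf (nat_lit 144894)) (Tr.leaf (nat_lit 2317845)))))) (Tr.node (nat_lit 26112) (Tr.node (nat_lit 16320) (Tr.node (nat_lit 6528) (Tr.leaf (nat_lit 579422)) (Tr.leaf (nat_lit 144836))) (Tr.node (nat_lit 3264) (Tr.leaf (nat_lit 579226)) (Tr.node (nat_lit 1024) (Tr.leaf (nat_lit 144796)) (Tr.leaf (nat_lit 565))))) (Tr.node (nat_lit 15168) (Tr.node (nat_lit 3200) (Tr.leaf (nat_lit 579109)) (Tr.node (nat_lit 6592) (Tr.leaf (nat_lit 144767)) (Tr.leaf (nat_lit 578992)))) (Tr.node (nat_lit 4416) (Tr.leaf (nat_lit 36183)) (Tr.node (nat_lit 9792) (Tr.leaf (nat_lit 578875)) (Tr.leaf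 (nat_lit 578758))))))))

noncomputable def jt97 : Tr :=
  (Tr.node (nat_lit 119936) (Tr.node (nat_lit 53824) (Tr.node (nat_lit 28736) (Tr.node (nat_lit 12480) (Tr.node (nat_lit 2688) (Tr.leaf (nat_lit 144687)) (Tr.leaf (nat_lit 144679))) (Tr.node (nat_lit 7936) (Tr.leaf (nat_lit 578602)) (Tr.node (nat_lit 1216) (Tr.leaf (nat_lit 144626)) (Tr.leaf (nat_lit 141))))) (Tr.node (nat_lit 9792) (Tr.node (nat_lit 256) (Tr.leaf (nat_lit 144601)) (Tr.leaf (nat_lit 36150))) (Tr.node (nat_lit 1984) (Tr.leaf (nat_lit 578291)) (Tr.node (nat_lit 12992) (Tr.leaf (nat_lit 564)) (Tr.leaf (nat_lit 144528)))))) (Tr.node (nat_lit 27648) (Tr.node (nat_lit 12416) (Tr.node (nat_lit 7552) (Tr.leaf (nat_lit 564)) (Tr.leaf (nat_lit 578018))) (Tr.node (nat_lit 4864) (Tr.leaf (nat_lit 577960)) (Tr.node (nat_lit 9792) (Tr.leaf (nat_lit 2311607)) (Tr.leaf (nat_lit 144446))))) (Tr.node (nat_lit 25472) (Tr.node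 (nat_lit 5952) (Tr.leaf (nat_lit 144444)) (Tr.node (nat_lit 3264) (Tr.leaf (nat_lit 144426)) (Tr.leaf (nat_lit 577668)))) (Tr.node (nat_lit 3264) (Tr.leaf (nat_lit 2309898)) (Tr.node (nat_lit 6464) (Tr.leaf (nat_lit 577435)) (Tr.leaf (nat_lit 577358))))))) (Tr.node (nat_lit 44160) (Tr.node (nat_lit 19520) (Tr.node (nat_lit 4480) (Tr.node (nat_lit 3968) (Tr.leaf (nat_lit 144329)) (Tr.leaf (nat_lit 140))) (Tr.node (nat_lit 5312) (Tr.leaf (nat_lit 36079)) (Tr.node (nat_lit 1728) (Tr.leaf (nat_lit 577202)) (Tr.leaf (nat_lit 563))))) (Tr.node (nat_lit 16256) (Tr.node (nat_lit 832) (Tr.leaf (nat_lit 577086)) (Tr.node (nat_lit 5696) (Tr.leaf (nat_lit 36067)) (Tr.leaf (nat_lit 144252)))) (Tr.node (nat_lit 3264) (Tr.leaf (nat_lit 576892)) (Tr.node (nat_lit 4864) (Tr.leaf (nat_lit 144213)) (Tr.leaf (nat_lit 576796)))))) (Tr.node (nat_lit 24128) (Tr.node (nat_lit 11136) (Tr.node (nat_lit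 4608) (Tr.leaf (nat_lit 144198)) (Tr.leaf (nat_lit 576737))) (Tr.node (nat_lit 3264) (Tr.leaf (nat_lit 9226567)) (Tr.node (nat_lit 6656) (Tr.leaf (nat_lit 144155)) (Tr.leaf (nat_lit 144135))))) (Tr.node (nat_lit 18688) (Tr.node (nat_lit 7616) (Tr.leaf (nat_lit 2306022)) (Tr.node (nat_lit 8640) (Tr.leaf (nat_lit 144103)) (Tr.leaf (nat_lit 576312)))) (Tr.node (nat_lit 832) (Tr.leaf (nat_lit 36017)) (Tr.node (nat_lit 5824) (Tr.leaf (nat_lit 576273)) (Tr.leaf (nat_lit 144050))))))))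

noncomputable def jt98 : Tr :=
  (Tr.node (nat_lit 100544) (Tr.node (nat_lit 51904) (Tr.node (nat_lit 26176) (Tr.node (nat_lit 12992) (Tr.node (nat_lit 9728) (Tr.leaf (nat_lit 576196)) (Tr.leaf (nat_lit 576080))) (Tr.node (nat_lit 6720) (Tr.leaf (nat_lit 9216668)) (Tr.node (nat_lit 3008) (Tr.leaf (nat_lit 143990)) (Tr.leaf (nat_lit 575925))))) (Tr.node (nat_lit 12800) (Tr.node (nat_lit 8704) (Tr.leaf (nat_lit 2249)) (Tr.leaf (nat_lit 575781))) (Tr.node (nat_lit 6848) (Tr.leaf (nat_lit 2302931)) (Tr.node (nat_lit 2880) (Tr.leaf (nat_lit 140)) (Tr.leaf (nat_lit 143904)))))) (Tr.node (nat_lit 24128) (Tr.node (nat_lit 9728) (Tr.node (nat_lit 6528) (Tr.leaf (nat_lit 2302314)) (Tr.leaf (nat_lit 575501))) (Tr.node (nat_lit 6528) (Tr.leaf (nat_lit 575462)) (Tr.node (nat_lit 3200) (Tr.leaf (nat_lit 143846)) (Tr.leaf (nat_lit 575347))))) (Tr.node (nat_lit 14528) (Tr.node (nat_lit 1856)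 (Tr.leaf (nat_lit 140)) (Tr.node (nat_lit 9728) (Tr.leaf (nat_lit 575270)) (Tr.leaf (nat_lit 575154)))) (Tr.node (nat_lit 64) (Tr.leaf (nat_lit 35944)) (Tr.node (nat_lit 5056) (Tr.leaf (nat_lit 143779)) (Tr.leaf (nat_lit 575058))))))) (Tr.node (nat_lit 55040) (Tr.node (nat_lit 25920) (Tr.node (nat_lit 9728) (Tr.node (nat_lit 9536) (Tr.leaf (nat_lit 143750)) (Tr.leaf (nat_lit 143721))) (Tr.node (nat_lit 4864) (Tr.leaf (nat_lit 574885)) (Tr.node (nat_lit 6144) (Tr.leaf (nat_lit 574827)) (Tr.leaf (nat_lit 140))))) (Tr.node (nat_lit 12992) (Tr.node (nat_lit 2432) (Tr.leaf (nat_lit 143673)) (Tr.node (nat_lit 7296) (Tr.leaf (nat_lit 35916)) (Tr.leaf (nat_lit 2298310)))) (Tr.node (nat_lit 8448) (Tr.leaf (nat_lit 143634)) (Tr.node (nat_lit 4736) (Tr.leaf (nat_lit 143609)) (Tr.leaf (nat_lit 560)))))) (Tr.node (nat_lit 12992) (Tr.node (nat_lit 3392) (Tr.node (nat_lit 3264) (Tr.leaf (nat_lit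 574347)) (Tr.leaf (nat_lit 143577))) (Tr.node (nat_lit 7488) (Tr.leaf (nat_lit 560)) (Tr.node (nat_lit 64) (Tr.leaf (nat_lit 35888)) (Tr.leaf (nat_lit 140))))) (Tr.node (nat_lit 19392) (Tr.node (nat_lit 3008) (Tr.leaf (nat_lit 9187095)) (Tr.node (nat_lit 13184) (Tr.leaf (nat_lit 143539)) (Tr.leaf (nat_lit 574001)))) (Tr.node (nat_lit 6400) (Tr.leaf (nat_lit 573963)) (Tr.node (nat_lit 3328) (Tr.leaf (nat_lit 143471)) (Tr.leaf (nat_lit 143462))))))))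

noncomputable def jt99 : Tr :=
  (Tr.node (nat_lit 111424) (Tr.node (nat_lit 53312) (Tr.node (nat_lit 35456) (Tr.node (nat_lit 12736) (Tr.node (nat_lit 2624) (Tr.leaf (nat_lit 573829)) (Tr.leaf (nat_lit 143449))) (Tr.node (nat_lit 5056) (Tr.leaf (nat_lit 143419)) (Tr.node (nat_lit 16128) (Tr.leaf (nat_lit 573618)) (Tr.leaf (nat_lit 2293707))))) (Tr.node (nat_lit 7872) (Tr.node (nat_lit 4672) (Tr.leaf (nat_lit 143352)) (Tr.leaf (nat_lit 139))) (Tr.node (nat_lit 320) (Tr.leaf (nat_lit 35832)) (Tr.node (nat_lit 2752) (Tr.leaf (nat_lit 143328)) (Tr.leaf (nat_lit 559)))))) (Tr.node (nat_lit 19392) (Tr.node (nat_lit 4864) (Tr.node (nat_lit 1856) (Tr.leaf (nat_lit 573197)) (Tr.leaf (nat_lit 143293))) (Tr.node (nat_lit 8064) (Tr.leaf (nat_lit 573139)) (Tr.node (nat_lit 3008) (Tr.leaf (nat_lit 573044)) (Tr.leaf (nat_lit 143252))))) (Tr.node (nat_lit 22720) (Tr.node (nat_lit 576) (Tr.leaf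 (nat_lit 2291871)) (Tr.node (nat_lit 2624) (Tr.leaf (nat_lit 143240)) (Tr.leaf (nat_lit 572929)))) (Tr.node (nat_lit 7296) (Tr.leaf (nat_lit 139)) (Tr.node (nat_lit 2240) (Tr.leaf (nat_lit 8947)) (Tr.leaf (nat_lit 572585))))))) (Tr.node (nat_lit 70912) (Tr.node (nat_lit 17152) (Tr.node (nat_lit 12288) (Tr.node (nat_lit 192) (Tr.leaf (nat_lit 2290038)) (Tr.leaf (nat_lit 143126))) (Tr.node (nat_lit 640) (Tr.leaf (nat_lit 143091)) (Tr.node (nat_lit 4160) (Tr.leaf (nat_lit 9157712)) (Tr.leaf (nat_lit 139))))) (Tr.node (nat_lit 24768) (Tr.node (nat_lit 9344) (Tr.leaf (nat_lit 143076)) (Tr.node (nat_lit 2560) (Tr.leaf (nat_lit 35762)) (Tr.leaf (nat_lit 143041)))) (Tr.node (nat_lit 7488) (Tr.leaf (nat_lit 143003)) (Tr.node (nat_lit 18304) (Tr.leaf (nat_lit 558)) (Tr.leaf (nat_lit 571709)))))) (Tr.node (nat_lit 28992) (Tr.node (nat_lit 9664) (Tr.node (nat_lit 6464) (Tr.leaf (nat_lit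 571671)) (Tr.leaf (nat_lit 2286381))) (Tr.node (nat_lit 6464) (Tr.leaf (nat_lit 571557)) (Tr.node (nat_lit 832) (Tr.leaf (nat_lit 142870)) (Tr.leaf (nat_lit 571471))))) (Tr.node (nat_lit 18880) (Tr.node (nat_lit 9664) (Tr.leaf (nat_lit 571329)) (Tr.node (nat_lit 3456) (Tr.leaf (nat_lit 571215)) (Tr.leaf (nat_lit 571174)))) (Tr.node (nat_lit 448) (Tr.leaf (nat_lit 557)) (Tr.node (nat_lit 6464) (Tr.leaf (nat_lit 571101)) (Tr.leaf (nat_lit 571025))))))))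

noncomputable def jt100 : Tr :=
  (Tr.node (nat_lit 76544) (Tr.node (nat_lit 33152) (Tr.node (nat_lit 12480) (Tr.node (nat_lit 2624) (Tr.node (nat_lit 832) (Tr.leaf (nat_lit 139)) (Tr.leaf (nat_lit 142752))) (Tr.node (nat_lit 3776) (Tr.leaf (nat_lit 570987)) (Tr.node (nat_lit 2880) (Tr.leaf (nat_lit 35683)) (Tr.leaf (nat_lit 142727))))) (Tr.node (nat_lit 9472) (Tr.node (nat_lit 7232) (Tr.leaf (nat_lit 8919)) (Tr.leaf (nat_lit 35674))) (Tr.node (nat_lit 512) (Tr.leaf (nat_lit 2283039)) (Tr.node (nat_lit 9088) (Tr.leaf (nat_lit 2229)) (Tr.leaf (nat_lit 142661)))))) (Tr.node (nat_lit 27328) (Tr.node (nat_lit 8064) (Tr.node (nat_lit 3840) (Tr.leaf (nat_lit 570627)) (Tr.leaf (nat_lit 142645))) (Tr.node (nat_lit 9664) (Tr.leaf (nat_lit 2282129)) (Tr.node (nat_lit 6400) (Tr.leaf (nat_lit 570418)) (Tr.leaf (nat_lit 142585))))) (Tr.node (nat_lit 6464) (Tr.node (nat_lit 320) (Tr.leaf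 (nat_lit 570305)) (Tr.node (nat_lit 1344) (Tr.leaf (nat_lit 2227)) (Tr.leaf (nat_lit 570286)))) (Tr.node (nat_lit 3200) (Tr.leaf (nat_lit 2280917)) (Tr.node (nat_lit 4544) (Tr.leaf (nat_lit 570191)) (Tr.leaf (nat_lit 142534))))))) (Tr.node (nat_lit 61056) (Tr.node (nat_lit 32128) (Tr.node (nat_lit 11456) (Tr.node (nat_lit 3264) (Tr.leaf (nat_lit 570115)) (Tr.leaf (nat_lit 570077))) (Tr.node (nat_lit 7872) (Tr.leaf (nat_lit 142495)) (Tr.node (nat_lit 9600) (Tr.leaf (nat_lit 142472)) (Tr.leaf (nat_lit 569775))))) (Tr.node (nat_lit 19264) (Tr.node (nat_lit 2368) (Tr.leaf (nat_lit 142434)) (Tr.node (nat_lit 16320) (Tr.leaf (nat_lit 556)) (Tr.leaf (nat_lit 142379)))) (Tr.node (nat_lit 6464) (Tr.leaf (nat_lit 142377)) (Tr.node (nat_lit 256) (Tr.leaf (nat_lit 569435)) (Tr.leaf (nat_lit 139)))))) (Tr.node (nat_lit 57728) (Tr.node (nat_lit 16000) (Tr.node (nat_lit 4800) (Tr.leaf (nat_lit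 569397)) (Tr.leaf (nat_lit 569341))) (Tr.node (nat_lit 28864) (Tr.leaf (nat_lit 142302)) (Tr.node (nat_lit 3200) (Tr.leaf (nat_lit 2275479)) (Tr.leaf (nat_lit 142208))))) (Tr.node (nat_lit 10944) (Tr.node (nat_lit 8768) (Tr.leaf (nat_lit 36398027)) (Tr.node (nat_lit 832) (Tr.leaf (nat_lit 35538)) (Tr.leaf (nat_lit 142151)))) (Tr.node (nat_lit 7232) (Tr.leaf (nat_lit 142147)) (Tr.node (nat_lit 1024) (Tr.leaf (nat_lit 138)) (Tr.leaf (nat_lit 568493))))))))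

noncomputable def jt101 : Tr :=
  (Tr.node (nat_lit 108608) (Tr.node (nat_lit 57664) (Tr.node (nat_lit 37440) (Tr.node (nat_lit 18560) (Tr.node (nat_lit 9600) (Tr.leaf (nat_lit 568380)) (Tr.leaf (nat_lit 568267))) (Tr.node (nat_lit 7104) (Tr.leaf (nat_lit 554)) (Tr.node (nat_lit 256) (Tr.leaf (nat_lit 142019)) (Tr.leaf (nat_lit 142019))))) (Tr.node (nat_lit 10624) (Tr.node (nat_lit 1024) (Tr.leaf (nat_lit 2218)) (Tr.leaf (nat_lit 2271718))) (Tr.node (nat_lit 2368) (Tr.leaf (nat_lit 2271267)) (Tr.node (nat_lit 320) (Tr.leaf (nat_lit 567788)) (Tr.leaf (nat_lit 2217)))))) (Tr.node (nat_lit 19136) (Tr.node (nat_lit 6528) (Tr.node (nat_lit 5760) (Tr.leaf (nat_lit 141926)) (Tr.leaf (nat_lit 141909))) (Tr.node (nat_lit 7232) (Tr.leaf (nat_lit 35476)) (Tr.node (nat_lit 2176) (Tr.leaf (nat_lit 141885)) (Tr.leaf (nat_lit 9080269))))) (Tr.node (nat_lit 16000) (Tr.node (nat_lit 1600) (Tr.leaf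 (nat_lit 141869)) (Tr.node (nat_lit 4800) (Tr.leaf (nat_lit 567460)) (Tr.leaf (nat_lit 141851)))) (Tr.node (nat_lit 6592) (Tr.leaf (nat_lit 567291)) (Tr.node (nat_lit 3008) (Tr.leaf (nat_lit 141803)) (Tr.leaf (nat_lit 567179))))))) (Tr.node (nat_lit 32768) (Tr.node (nat_lit 15680) (Tr.node (nat_lit 6336) (Tr.node (nat_lit 4800) (Tr.leaf (nat_lit 35444)) (Tr.leaf (nat_lit 141762))) (Tr.node (nat_lit 256) (Tr.leaf (nat_lit 35439)) (Tr.node (nat_lit 5632) (Tr.leaf (nat_lit 141757)) (Tr.leaf (nat_lit 553))))) (Tr.node (nat_lit 10048) (Tr.node (nat_lit 512) (Tr.leaf (nat_lit 35432)) (Tr.node (nat_lit 1600) (Tr.leaf (nat_lit 2267670)) (Tr.leaf (nat_lit 566898)))) (Tr.node (nat_lit 4032) (Tr.leaf (nat_lit 566805)) (Tr.node (nat_lit 192) (Tr.leaf (nat_lit 566758)) (Tr.leaf (nat_lit 141689)))))) (Tr.node (nat_lit 41856) (Tr.node (nat_lit 12160) (Tr.node (nat_lit 8960) (Tr.leaf (nat_lit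 141680)) (Tr.leaf (nat_lit 2266473))) (Tr.node (nat_lit 19904) (Tr.leaf (nat_lit 141645)) (Tr.node (nat_lit 5632) (Tr.leaf (nat_lit 35396)) (Tr.leaf (nat_lit 566282))))) (Tr.node (nat_lit 9664) (Tr.node (nat_lit 5376) (Tr.leaf (nat_lit 141558)) (Tr.node (nat_lit 3200) (Tr.leaf (nat_lit 566170)) (Tr.leaf (nat_lit 141533)))) (Tr.node (nat_lit 5312) (Tr.leaf (nat_lit 35382)) (Tr.node (nat_lit 3200) (Tr.leaf (nat_lit 566058)) (Tr.leaf (nat_lit 2264083))))))))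

noncomputable def jt102 : Tr :=
  (Tr.node (nat_lit 100032) (Tr.node (nat_lit 42624) (Tr.node (nat_lit 24128) (Tr.node (nat_lit 4160) (Tr.node (nat_lit 2752) (Tr.leaf (nat_lit 141470)) (Tr.leaf (nat_lit 552))) (Tr.node (nat_lit 8256) (Tr.leaf (nat_lit 565834)) (Tr.node (nat_lit 10880) (Tr.leaf (nat_lit 141434)) (Tr.leaf (nat_lit 141402))))) (Tr.node (nat_lit 8704) (Tr.node (nat_lit 2368) (Tr.leaf (nat_lit 8837)) (Tr.leaf (nat_lit 565573))) (Tr.node (nat_lit 9152) (Tr.leaf (nat_lit 2261997)) (Tr.node (nat_lit 448) (Tr.leaf (nat_lit 35337)) (Tr.leaf (nat_lit 141346)))))) (Tr.node (nat_lit 18880) (Tr.node (nat_lit 2944) (Tr.node (nat_lit 2176) (Tr.leaf (nat_lit 141346)) (Tr.leaf (nat_lit 565359))) (Tr.node (nat_lit 4224) (Tr.leaf (nat_lit 565350)) (Tr.node (nat_lit 5376) (Tr.leaf (nat_lit 141325)) (Tr.leaf (nat_lit 565238))))) (Tr.node (nat_lit 20800) (Tr.node (nat_lit 9600) (Tr.leaf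 (nat_lit 141291)) (Tr.node (nat_lit 2880) (Tr.leaf (nat_lit 565052)) (Tr.leaf (nat_lit 551)))) (Tr.node (nat_lit 6272) (Tr.leaf (nat_lit 551)) (Tr.node (nat_lit 11136) (Tr.leaf (nat_lit 564848)) (Tr.leaf (nat_lit 564718))))))) (Tr.node (nat_lit 41024) (Tr.node (nat_lit 18752) (Tr.node (nat_lit 9408) (Tr.node (nat_lit 2880) (Tr.leaf (nat_lit 8823)) (Tr.leaf (nat_lit 599973))) (Tr.node (nat_lit 2496) (Tr.leaf (nat_lit 141151)) (Tr.node (nat_lit 512) (Tr.leaf (nat_lit 141143)) (Tr.leaf (nat_lit 564570))))) (Tr.node (nat_lit 7040) (Tr.node (nat_lit 2624) (Tr.leaf (nat_lit 141123)) (Tr.node (nat_lit 576) (Tr.leaf (nat_lit 551)) (Tr.leaf (nat_lit 564458)))) (Tr.node (nat_lit 1024) (Tr.leaf (nat_lit 137)) (Tr.node (nat_lit 8384) (Tr.leaf (nat_lit 141100)) (Tr.leaf (nat_lit 35269)))))) (Tr.node (nat_lit 23360) (Tr.node (nat_lit 9536) (Tr.node (nat_lit 6400) (Tr.leaf (nat_lit 2256945))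 (Tr.leaf (nat_lit 564162))) (Tr.node (nat_lit 6336) (Tr.leaf (nat_lit 143234)) (Tr.node (nat_lit 3200) (Tr.leaf (nat_lit 2203)) (Tr.leaf (nat_lit 564014))))) (Tr.node (nat_lit 11648) (Tr.node (nat_lit 2112) (Tr.leaf (nat_lit 140991)) (Tr.node (nat_lit 3136) (Tr.leaf (nat_lit 36092162)) (Tr.leaf (nat_lit 140975)))) (Tr.node (nat_lit 2176) (Tr.leaf (nat_lit 563828)) (Tr.node (nat_lit 768) (Tr.leaf (nat_lit 550)) (Tr.leaf (nat_lit 140948))))))))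

noncomputable def jt103 : Tr :=
  (Tr.node (nat_lit 90816) (Tr.node (nat_lit 52352) (Tr.node (nat_lit 15872) (Tr.node (nat_lit 2944) (Tr.node (nat_lit 1600) (Tr.leaf (nat_lit 563736)) (Tr.leaf (nat_lit 563717))) (Tr.node (nat_lit 1792) (Tr.leaf (nat_lit 140925)) (Tr.node (nat_lit 6400) (Tr.leaf (nat_lit 563680)) (Tr.leaf (nat_lit 140901))))) (Tr.node (nat_lit 23808) (Tr.node (nat_lit 17472) (Tr.leaf (nat_lit 563551)) (Tr.leaf (nat_lit 2253393))) (Tr.node (nat_lit 768) (Tr.leaf (nat_lit 2253097)) (Tr.node (nat_lit 11648) (Tr.leaf (nat_lit 137)) (Tr.leaf (nat_lit 140782)))))) (Tr.node (nat_lit 25408) (Tr.node (nat_lit 15872) (Tr.node (nat_lit 9536) (Tr.leaf (nat_lit 563126)) (Tr.leaf (nat_lit 563015))) (Tr.node (nat_lit 3200) (Tr.leaf (nat_lit 140735)) (Tr.node (nat_lit 3904) (Tr.leaf (nat_lit 2251621)) (Tr.leaf (nat_lit 35178))))) (Tr.node (nat_lit 4736) (Tr.node (nat_lit 2560)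 (Tr.leaf (nat_lit 562831)) (Tr.node (nat_lit 640) (Tr.leaf (nat_lit 140700)) (Tr.leaf (nat_lit 140698)))) (Tr.node (nat_lit 4800) (Tr.leaf (nat_lit 562776)) (Tr.node (nat_lit 3136) (Tr.leaf (nat_lit 562720)) (Tr.leaf (nat_lit 562684))))))) (Tr.node (nat_lit 50944) (Tr.node (nat_lit 24000) (Tr.node (nat_lit 15488) (Tr.node (nat_lit 9152) (Tr.leaf (nat_lit 35167)) (Tr.leaf (nat_lit 140643))) (Tr.node (nat_lit 2368) (Tr.leaf (nat_lit 140624)) (Tr.node (nat_lit 768) (Tr.leaf (nat_lit 549)) (Tr.leaf (nat_lit 2249851))))) (Tr.node (nat_lit 10496) (Tr.node (nat_lit 960) (Tr.leaf (nat_lit 2196)) (Tr.node (nat_lit 192) (Tr.leaf (nat_lit 562389)) (Tr.leaf (nat_lit 35149)))) (Tr.node (nat_lit 8512) (Tr.leaf (nat_lit 140569)) (Tr.node (nat_lit 4160) (Tr.leaf (nat_lit 140544)) (Tr.leaf (nat_lit 562131)))))) (Tr.node (nat_lit 9920) (Tr.node (nat_lit 5760) (Tr.node (nat_lit 2560) (Tr.leaf (nat_lit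 548)) (Tr.leaf (nat_lit 562058))) (Tr.node (nat_lit 2944) (Tr.leaf (nat_lit 562021)) (Tr.node (nat_lit 704) (Tr.leaf (nat_lit 140496)) (Tr.leaf (nat_lit 140494))))) (Tr.node (nat_lit 11840) (Tr.node (nat_lit 5312) (Tr.leaf (nat_lit 137)) (Tr.node (nat_lit 6336) (Tr.leaf (nat_lit 140477)) (Tr.leaf (nat_lit 140459)))) (Tr.node (nat_lit 9280) (Tr.leaf (nat_lit 140458)) (Tr.node (nat_lit 1280) (Tr.leaf (nat_lit 561727)) (Tr.leaf (nat_lit 2194))))))))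

noncomputable def jt104 : Tr :=
  (Tr.node (nat_lit 87232) (Tr.node (nat_lit 46144) (Tr.node (nat_lit 17664) (Tr.node (nat_lit 6400) (Tr.node (nat_lit 1856) (Tr.leaf (nat_lit 35100)) (Tr.leaf (nat_lit 8985287))) (Tr.node (nat_lit 4736) (Tr.leaf (nat_lit 137)) (Tr.node (nat_lit 192) (Tr.leaf (nat_lit 140368)) (Tr.leaf (nat_lit 140367))))) (Tr.node (nat_lit 17408) (Tr.node (nat_lit 3200) (Tr.leaf (nat_lit 561396)) (Tr.node (nat_lit 768) (Tr.leaf (nat_lit 561360)) (Tr.leaf (nat_lit 35084)))) (Tr.node (nat_lit 1600) (Tr.leaf (nat_lit 561195)) (Tr.node (nat_lit 5120) (Tr.leaf (nat_lit 140294)) (Tr.leaf (nat_lit 136)))))) (Tr.node (nat_lit 28480) (Tr.node (nat_lit 7936) (Tr.node (nat_lit 1536) (Tr.leaf (nat_lit 561066)) (Tr.leaf (nat_lit 136))) (Tr.node (nat_lit 1536) (Tr.leaf (nat_lit 2243901)) (Tr.node (nat_lit 12672) (Tr.leaf (nat_lit 140239)) (Tr.leaf (nat_lit 560810))))) (Tr.node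 (nat_lit 3968) (Tr.node (nat_lit 2560) (Tr.leaf (nat_lit 140184)) (Tr.node (nat_lit 576) (Tr.leaf (nat_lit 35044)) (Tr.leaf (nat_lit 2242802)))) (Tr.node (nat_lit 128) (Tr.leaf (nat_lit 547)) (Tr.node (nat_lit 5376) (Tr.leaf (nat_lit 140172)) (Tr.leaf (nat_lit 560627))))))) (Tr.node (nat_lit 61568) (Tr.node (nat_lit 28416) (Tr.node (nat_lit 9472) (Tr.node (nat_lit 6336) (Tr.leaf (nat_lit 560590)) (Tr.leaf (nat_lit 560517))) (Tr.node (nat_lit 9472) (Tr.leaf (nat_lit 560481)) (Tr.node (nat_lit 6336) (Tr.leaf (nat_lit 140092)) (Tr.leaf (nat_lit 140074))))) (Tr.node (nat_lit 15808) (Tr.node (nat_lit 128) (Tr.leaf (nat_lit 560261)) (Tr.node (nat_lit 12288) (Tr.leaf (nat_lit 140065)) (Tr.leaf (nat_lit 140029)))) (Tr.node (nat_lit 9472) (Tr.leaf (nat_lit 560079)) (Tr.node (nat_lit 3136) (Tr.leaf (nat_lit 2239878)) (Tr.leaf (nat_lit 559933)))))) (Tr.node (nat_lit 29952) (Tr.node (nat_lit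 17984) (Tr.node (nat_lit 8896) (Tr.leaf (nat_lit 559878)) (Tr.leaf (nat_lit 139943))) (Tr.node (nat_lit 768) (Tr.leaf (nat_lit 2186)) (Tr.node (nat_lit 1728) (Tr.leaf (nat_lit 139915)) (Tr.leaf (nat_lit 139910))))) (Tr.node (nat_lit 20288) (Tr.node (nat_lit 9472) (Tr.leaf (nat_lit 2238127)) (Tr.node (nat_lit 9472) (Tr.leaf (nat_lit 559422)) (Tr.leaf (nat_lit 559313)))) (Tr.node (nat_lit 1792) (Tr.leaf (nat_lit 139824)) (Tr.node (nat_lit 1152) (Tr.leaf (nat_lit 139819)) (Tr.leaf (nat_lit 546))))))))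

noncomputable def jt105 : Tr :=
  (Tr.node (nat_lit 97600) (Tr.node (nat_lit 36224) (Tr.node (nat_lit 13312) (Tr.node (nat_lit 8704) (Tr.node (nat_lit 1024) (Tr.leaf (nat_lit 139801)) (Tr.leaf (nat_lit 139798))) (Tr.node (nat_lit 3904) (Tr.leaf (nat_lit 34943)) (Tr.node (nat_lit 384) (Tr.leaf (nat_lit 559058)) (Tr.leaf (nat_lit 34940))))) (Tr.node (nat_lit 6144) (Tr.node (nat_lit 5568) (Tr.leaf (nat_lit 136)) (Tr.leaf (nat_lit 558985))) (Tr.node (nat_lit 2560) (Tr.leaf (nat_lit 139744)) (Tr.node (nat_lit 3648) (Tr.leaf (nat_lit 2235797)) (Tr.leaf (nat_lit 136)))))) (Tr.node (nat_lit 33024) (Tr.node (nat_lit 14144) (Tr.node (nat_lit 1536) (Tr.leaf (nat_lit 558785)) (Tr.leaf (nat_lit 139691))) (Tr.node (nat_lit 13888) (Tr.leaf (nat_lit 139655)) (Tr.node (nat_lit 4416) (Tr.leaf (nat_lit 139615)) (Tr.leaf (nat_lit 139602))))) (Tr.node (nat_lit 15744) (Tr.node (nat_lit 4416) (Tr.leaf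 (nat_lit 139601)) (Tr.node (nat_lit 1856) (Tr.leaf (nat_lit 545)) (Tr.leaf (nat_lit 558331)))) (Tr.node (nat_lit 5312) (Tr.leaf (nat_lit 558222)) (Tr.node (nat_lit 4096) (Tr.leaf (nat_lit 139540)) (Tr.leaf (nat_lit 139528))))))) (Tr.node (nat_lit 47104) (Tr.node (nat_lit 25152) (Tr.node (nat_lit 5248) (Tr.node (nat_lit 3328) (Tr.leaf (nat_lit 8929245)) (Tr.leaf (nat_lit 34877))) (Tr.node (nat_lit 1024) (Tr.leaf (nat_lit 2179)) (Tr.node (nat_lit 12416) (Tr.leaf (nat_lit 558005)) (Tr.leaf (nat_lit 34866))))) (Tr.node (nat_lit 5760) (Tr.node (nat_lit 3136) (Tr.leaf (nat_lit 8924607)) (Tr.node (nat_lit 1536) (Tr.leaf (nat_lit 139437)) (Tr.leaf (nat_lit 34858)))) (Tr.node (nat_lit 6784) (Tr.leaf (nat_lit 8714)) (Tr.node (nat_lit 7040) (Tr.leaf (nat_lit 557643)) (Tr.leaf (nat_lit 557561)))))) (Tr.node (nat_lit 15744) (Tr.node (nat_lit 3776) (Tr.node (nat_lit 2560) (Tr.leaf (nat_lit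 557534)) (Tr.leaf (nat_lit 2177))) (Tr.node (nat_lit 7232) (Tr.leaf (nat_lit 139372)) (Tr.node (nat_lit 2752) (Tr.leaf (nat_lit 557407)) (Tr.leaf (nat_lit 34836))))) (Tr.node (nat_lit 18816) (Tr.node (nat_lit 3136) (Tr.leaf (nat_lit 557353)) (Tr.node (nat_lit 9408) (Tr.leaf (nat_lit 139329)) (Tr.leaf (nat_lit 2228836)))) (Tr.node (nat_lit 5312) (Tr.leaf (nat_lit 557136)) (Tr.node (nat_lit 7232) (Tr.leaf (nat_lit 139268)) (Tr.leaf (nat_lit 556992))))))))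

noncomputable def jt106 : Tr :=
  (Tr.node (nat_lit 98496) (Tr.node (nat_lit 28928) (Tr.node (nat_lit 11776) (Tr.node (nat_lit 3072) (Tr.node (nat_lit 1280) (Tr.leaf (nat_lit 34808)) (Tr.leaf (nat_lit 8910720))) (Tr.node (nat_lit 1344) (Tr.leaf (nat_lit 543)) (Tr.node (nat_lit 6336) (Tr.leaf (nat_lit 556883)) (Tr.leaf (nat_lit 139202))))) (Tr.node (nat_lit 3008) (Tr.node (nat_lit 2112) (Tr.leaf (nat_lit 139199)) (Tr.leaf (nat_lit 2227102))) (Tr.node (nat_lit 5376) (Tr.leaf (nat_lit 34797)) (Tr.node (nat_lit 3584) (Tr.leaf (nat_lit 556703)) (Tr.leaf (nat_lit 34791)))))) (Tr.node (nat_lit 50112) (Tr.node (nat_lit 19456) (Tr.node (nat_lit 640) (Tr.leaf (nat_lit 139150)) (Tr.leaf (nat_lit 556595))) (Tr.node (nat_lit 9408) (Tr.leaf (nat_lit 139094)) (Tr.node (nat_lit 3136) (Tr.leaf (nat_lit 556270)) (Tr.leaf (nat_lit 139058))))) (Tr.node (nat_lit 8704) (Tr.node (nat_lit 1344) (Tr.leaf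 (nat_lit 542)) (Tr.node (nat_lit 5568) (Tr.leaf (nat_lit 139002)) (Tr.leaf (nat_lit 138986)))) (Tr.node (nat_lit 1344) (Tr.leaf (nat_lit 138981)) (Tr.node (nat_lit 2944) (Tr.leaf (nat_lit 555910)) (Tr.leaf (nat_lit 138969))))))) (Tr.node (nat_lit 39680) (Tr.node (nat_lit 19008) (Tr.node (nat_lit 6272) (Tr.node (nat_lit 4480) (Tr.leaf (nat_lit 555802)) (Tr.leaf (nat_lit 138937))) (Tr.node (nat_lit 3136) (Tr.leaf (nat_lit 555731)) (Tr.node (nat_lit 9408) (Tr.leaf (nat_lit 555695)) (Tr.leaf (nat_lit 138896))))) (Tr.node (nat_lit 16384) (Tr.node (nat_lit 6080) (Tr.leaf (nat_lit 542)) (Tr.node (nat_lit 5952) (Tr.leaf (nat_lit 555515)) (Tr.leaf (nat_lit 135)))) (Tr.node (nat_lit 1984) (Tr.leaf (nat_lit 34712)) (Tr.node (nat_lit 192) (Tr.leaf (nat_lit 135)) (Tr.leaf (nat_lit 138842)))))) (Tr.node (nat_lit 26880) (Tr.node (nat_lit 13568) (Tr.node (nat_lit 7296) (Tr.leaf (nat_lit 34709))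 (Tr.leaf (nat_lit 2221056))) (Tr.node (nat_lit 3136) (Tr.leaf (nat_lit 2220769)) (Tr.node (nat_lit 6208) (Tr.leaf (nat_lit 138789)) (Tr.leaf (nat_lit 555084))))) (Tr.node (nat_lit 9600) (Tr.node (nat_lit 960) (Tr.leaf (nat_lit 135)) (Tr.node (nat_lit 4480) (Tr.leaf (nat_lit 138757)) (Tr.leaf (nat_lit 554977)))) (Tr.node (nat_lit 12224) (Tr.leaf (nat_lit 2167)) (Tr.node (nat_lit 2368) (Tr.leaf (nat_lit 541)) (Tr.leaf (nat_lit 2219047))))))))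

noncomputable def jt107 : Tr :=
  (Tr.node (nat_lit 85888) (Tr.node (nat_lit 34368) (Tr.node (nat_lit 11200) (Tr.node (nat_lit 8320) (Tr.node (nat_lit 2944) (Tr.leaf (nat_lit 554726)) (Tr.leaf (nat_lit 138673))) (Tr.node (nat_lit 1024) (Tr.leaf (nat_lit 34664)) (Tr.node (nat_lit 896) (Tr.leaf (nat_lit 35495597)) (Tr.leaf (nat_lit 138652))))) (Tr.node (nat_lit 10496) (Tr.node (nat_lit 4416) (Tr.leaf (nat_lit 138649)) (Tr.leaf (nat_lit 554547))) (Tr.node (nat_lit 3328) (Tr.leaf (nat_lit 34654)) (Tr.node (nat_lit 3072) (Tr.leaf (nat_lit 138744)) (Tr.leaf (nat_lit 554403)))))) (Tr.node (nat_lit 28096) (Tr.node (nat_lit 3136) (Tr.node (nat_lit 768) (Tr.leaf (nat_lit 2217329)) (Tr.leaf (nat_lit 554323))) (Tr.node (nat_lit 4480) (Tr.leaf (nat_lit 138574)) (Tr.node (nat_lit 11136) (Tr.leaf (nat_lit 138561)) (Tr.leaf (nat_lit 554117))))) (Tr.node (nat_lit 18752) (Tr.node (nat_lit 8768)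 (Tr.leaf (nat_lit 554010)) (Tr.node (nat_lit 640) (Tr.leaf (nat_lit 138477)) (Tr.leaf (nat_lit 553903)))) (Tr.node (nat_lit 2240) (Tr.leaf (nat_lit 138449)) (Tr.node (nat_lit 896) (Tr.leaf (nat_lit 138442)) (Tr.leaf (nat_lit 2215042))))))) (Tr.node (nat_lit 45248) (Tr.node (nat_lit 17664) (Tr.node (nat_lit 7808) (Tr.node (nat_lit 640) (Tr.leaf (nat_lit 553742)) (Tr.leaf (nat_lit 2163))) (Tr.node (nat_lit 448) (Tr.leaf (nat_lit 553653)) (Tr.node (nat_lit 1088) (Tr.leaf (nat_lit 34603)) (Tr.leaf (nat_lit 553635))))) (Tr.node (nat_lit 15104) (Tr.node (nat_lit 5760) (Tr.leaf (nat_lit 135)) (Tr.node (nat_lit 3072) (Tr.leaf (nat_lit 8855602)) (Tr.leaf (nat_lit 553439)))) (Tr.node (nat_lit 3136) (Tr.leaf (nat_lit 553368)) (Tr.node (nat_lit 6208) (Tr.leaf (nat_lit 553332)) (Tr.leaf (nat_lit 553261)))))) (Tr.node (nat_lit 13568) (Tr.node (nat_lit 2560) (Tr.node (nat_lit 1600) (Tr.leaf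 (nat_lit 138306)) (Tr.leaf (nat_lit 540))) (Tr.node (nat_lit 6784) (Tr.leaf (nat_lit 34574)) (Tr.node (nat_lit 3904) (Tr.leaf (nat_lit 553118)) (Tr.leaf (nat_lit 553074))))) (Tr.node (nat_lit 14464) (Tr.node (nat_lit 5120) (Tr.leaf (nat_lit 135)) (Tr.node (nat_lit 6208) (Tr.leaf (nat_lit 553011)) (Tr.leaf (nat_lit 552940)))) (Tr.node (nat_lit 4672) (Tr.leaf (nat_lit 2211620)) (Tr.node (nat_lit 1536) (Tr.leaf (nat_lit 552851)) (Tr.leaf (nat_lit 552833))))))))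

noncomputable def jt108 : Tr :=
  (Tr.node (nat_lit 96128) (Tr.node (nat_lit 51200) (Tr.node (nat_lit 30720) (Tr.node (nat_lit 7616) (Tr.node (nat_lit 4480) (Tr.leaf (nat_lit 34548)) (Tr.leaf (nat_lit 138181))) (Tr.node (nat_lit 6208) (Tr.leaf (nat_lit 552691)) (Tr.node (nat_lit 12480) (Tr.leaf (nat_lit 2210482)) (Tr.leaf (nat_lit 2209913))))) (Tr.node (nat_lit 7296) (Tr.node (nat_lit 4928) (Tr.leaf (nat_lit 2157)) (Tr.leaf (nat_lit 138092))) (Tr.node (nat_lit 4096) (Tr.leaf (nat_lit 138086)) (Tr.node (nat_lit 4992) (Tr.leaf (nat_lit 539)) (Tr.leaf (nat_lit 138060)))))) (Tr.node (nat_lit 18688) (Tr.node (nat_lit 4672) (Tr.node (nat_lit 192) (Tr.leaf (nat_lit 552194)) (Tr.leaf (nat_lit 138048))) (Tr.node (nat_lit 4672) (Tr.leaf (nat_lit 552141)) (Tr.node (nat_lit 3136) (Tr.leaf (nat_lit 138021)) (Tr.leaf (nat_lit 2208209))))) (Tr.node (nat_lit 12416) (Tr.node (nat_lit 8448) (Tr.leaf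 (nat_lit 551981)) (Tr.node (nat_lit 896) (Tr.leaf (nat_lit 134)) (Tr.leaf (nat_lit 551875)))) (Tr.node (nat_lit 2176) (Tr.leaf (nat_lit 551839)) (Tr.node (nat_lit 7168) (Tr.leaf (nat_lit 137953)) (Tr.leaf (nat_lit 137933))))))) (Tr.node (nat_lit 54592) (Tr.node (nat_lit 29696) (Tr.node (nat_lit 11072) (Tr.node (nat_lit 3968) (Tr.leaf (nat_lit 8620)) (Tr.leaf (nat_lit 2154))) (Tr.node (nat_lit 6720) (Tr.leaf (nat_lit 551556)) (Tr.node (nat_lit 10944) (Tr.leaf (nat_lit 137869)) (Tr.leaf (nat_lit 137838))))) (Tr.node (nat_lit 9344) (Tr.node (nat_lit 1472) (Tr.leaf (nat_lit 2205374)) (Tr.node (nat_lit 1664) (Tr.leaf (nat_lit 137831)) (Tr.leaf (nat_lit 137827)))) (Tr.node (nat_lit 12416) (Tr.leaf (nat_lit 137809)) (Tr.node (nat_lit 1536) (Tr.leaf (nat_lit 551096)) (Tr.leaf (nat_lit 551078)))))) (Tr.node (nat_lit 20096) (Tr.node (nat_lit 3072) (Tr.node (nat_lit 2624) (Tr.leaf (nat_lit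 134)) (Tr.leaf (nat_lit 538))) (Tr.node (nat_lit 3136) (Tr.leaf (nat_lit 551025)) (Tr.node (nat_lit 7488) (Tr.leaf (nat_lit 550990)) (Tr.leaf (nat_lit 34431))))) (Tr.node (nat_lit 20224) (Tr.node (nat_lit 10944) (Tr.leaf (nat_lit 34426)) (Tr.node (nat_lit 5120) (Tr.leaf (nat_lit 550707)) (Tr.leaf (nat_lit 537)))) (Tr.node (nat_lit 3072) (Tr.leaf (nat_lit 137650)) (Tr.node (nat_lit 3200) (Tr.leaf (nat_lit 550566)) (Tr.leaf (nat_lit 34408))))))))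

noncomputable def jt109 : Tr :=
  (Tr.node (nat_lit 108928) (Tr.node (nat_lit 68288) (Tr.node (nat_lit 35712) (Tr.node (nat_lit 26432) (Tr.node (nat_lit 4736) (Tr.leaf (nat_lit 137610)) (Tr.leaf (nat_lit 137597))) (Tr.node (nat_lit 6208) (Tr.leaf (nat_lit 550143)) (Tr.node (nat_lit 1728) (Tr.leaf (nat_lit 35204649)) (Tr.leaf (nat_lit 137513))))) (Tr.node (nat_lit 9344) (Tr.node (nat_lit 6208) (Tr.leaf (nat_lit 550037)) (Tr.leaf (nat_lit 137491))) (Tr.node (nat_lit 6144) (Tr.leaf (nat_lit 2199727)) (Tr.node (nat_lit 12416) (Tr.leaf (nat_lit 549861)) (Tr.leaf (nat_lit 549720)))))) (Tr.node (nat_lit 15488) (Tr.node (nat_lit 4608) (Tr.node (nat_lit 1536) (Tr.leaf (nat_lit 549667)) (Tr.leaf (nat_lit 549650))) (Tr.node (nat_lit 2880) (Tr.leaf (nat_lit 137403)) (Tr.node (nat_lit 6464) (Tr.leaf (nat_lit 134)) (Tr.leaf (nat_lit 2198038))))) (Tr.node (nat_lit 7744) (Tr.node (nat_lit 5248)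 (Tr.leaf (nat_lit 549492)) (Tr.node (nat_lit 1152) (Tr.leaf (nat_lit 134)) (Tr.leaf (nat_lit 134)))) (Tr.node (nat_lit 9280) (Tr.leaf (nat_lit 549404)) (Tr.node (nat_lit 6976) (Tr.leaf (nat_lit 549298)) (Tr.leaf (nat_lit 34326))))))) (Tr.node (nat_lit 37440) (Tr.node (nat_lit 14464) (Tr.node (nat_lit 5760) (Tr.node (nat_lit 1152) (Tr.leaf (nat_lit 549206)) (Tr.leaf (nat_lit 137298))) (Tr.node (nat_lit 1600) (Tr.leaf (nat_lit 536)) (Tr.node (nat_lit 3072) (Tr.leaf (nat_lit 137280)) (Tr.leaf (nat_lit 549088))))) (Tr.node (nat_lit 10048) (Tr.node (nat_lit 5184) (Tr.leaf (nat_lit 137260)) (Tr.node (nat_lit 64) (Tr.leaf (nat_lit 34311)) (Tr.leaf (nat_lit 137245)))) (Tr.node (nat_lit 1408) (Tr.leaf (nat_lit 134)) (Tr.node (nat_lit 9280) (Tr.leaf (nat_lit 137228)) (Tr.leaf (nat_lit 2195229)))))) (Tr.node (nat_lit 20672) (Tr.node (nat_lit 10112) (Tr.node (nat_lit 7040) (Tr.leaf (nat_lit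 535)) (Tr.leaf (nat_lit 548702))) (Tr.node (nat_lit 2304) (Tr.leaf (nat_lit 2194669)) (Tr.node (nat_lit 3456) (Tr.leaf (nat_lit 34290)) (Tr.leaf (nat_lit 133))))) (Tr.node (nat_lit 9536) (Tr.node (nat_lit 4864) (Tr.leaf (nat_lit 34284)) (Tr.node (nat_lit 3136) (Tr.leaf (nat_lit 137123)) (Tr.leaf (nat_lit 548457)))) (Tr.node (nat_lit 64) (Tr.leaf (nat_lit 548439)) (Tr.node (nat_lit 4736) (Tr.leaf (nat_lit 133)) (Tr.leaf (nat_lit 137096))))))))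

noncomputable def jt110 : Tr :=
  (Tr.node (nat_lit 71488) (Tr.node (nat_lit 20224) (Tr.node (nat_lit 13056) (Tr.node (nat_lit 6656) (Tr.node (nat_lit 512) (Tr.leaf (nat_lit 535)) (Tr.leaf (nat_lit 548352))) (Tr.node (nat_lit 3072) (Tr.leaf (nat_lit 137070)) (Tr.node (nat_lit 3200) (Tr.leaf (nat_lit 548247)) (Tr.leaf (nat_lit 133))))) (Tr.node (nat_lit 2880) (Tr.node (nat_lit 1344) (Tr.leaf (nat_lit 137052)) (Tr.leaf (nat_lit 548194))) (Tr.node (nat_lit 2496) (Tr.leaf (nat_lit 548177)) (Tr.node (nat_lit 576) (Tr.leaf (nat_lit 137037)) (Tr.leaf (nat_lit 137035)))))) (Tr.node (nat_lit 31296) (Tr.node (nat_lit 14272) (Tr.node (nat_lit 8064) (Tr.leaf (nat_lit 34258)) (Tr.leaf (nat_lit 548037))) (Tr.node (nat_lit 9216) (Tr.leaf (nat_lit 547967)) (Tr.node (nat_lit 3136) (Tr.leaf (nat_lit 136965)) (Tr.leaf (nat_lit 35060957))))) (Tr.node (nat_lit 13952) (Tr.node (nat_lit 4544) (Tr.leaf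 (nat_lit 136943)) (Tr.node (nat_lit 1856) (Tr.leaf (nat_lit 136930)) (Tr.leaf (nat_lit 136925)))) (Tr.node (nat_lit 4480) (Tr.leaf (nat_lit 34226)) (Tr.node (nat_lit 1408) (Tr.leaf (nat_lit 547565)) (Tr.leaf (nat_lit 8555))))))) (Tr.node (nat_lit 66816) (Tr.node (nat_lit 30848) (Tr.node (nat_lit 12352) (Tr.node (nat_lit 9280) (Tr.leaf (nat_lit 2190192)) (Tr.leaf (nat_lit 547443))) (Tr.node (nat_lit 576) (Tr.leaf (nat_lit 547408)) (Tr.node (nat_lit 8704) (Tr.leaf (nat_lit 136850)) (Tr.leaf (nat_lit 547303))))) (Tr.node (nat_lit 19840) (Tr.node (nat_lit 6208) (Tr.leaf (nat_lit 547199)) (Tr.node (nat_lit 12288) (Tr.leaf (nat_lit 2188518)) (Tr.leaf (nat_lit 2187960)))) (Tr.node (nat_lit 768) (Tr.leaf (nat_lit 133)) (Tr.node (nat_lit 3520) (Tr.leaf (nat_lit 136741)) (Tr.leaf (nat_lit 2136)))))) (Tr.node (nat_lit 21248) (Tr.node (nat_lit 6336) (Tr.node (nat_lit 1024) (Tr.leaf (nat_lit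 34174)) (Tr.leaf (nat_lit 546781))) (Tr.node (nat_lit 10112) (Tr.leaf (nat_lit 136680)) (Tr.node (nat_lit 3072) (Tr.leaf (nat_lit 546607)) (Tr.leaf (nat_lit 546572))))) (Tr.node (nat_lit 16768) (Tr.node (nat_lit 4416) (Tr.leaf (nat_lit 34159)) (Tr.node (nat_lit 9856) (Tr.leaf (nat_lit 546503)) (Tr.leaf (nat_lit 133)))) (Tr.node (nat_lit 6144) (Tr.leaf (nat_lit 546363)) (Tr.node (nat_lit 5952) (Tr.leaf (nat_lit 546294)) (Tr.leaf (nat_lit 136556))))))))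

noncomputable def jt111 : Tr :=
  (Tr.node (nat_lit 86144) (Tr.node (nat_lit 30784) (Tr.node (nat_lit 9280) (Tr.node (nat_lit 2240) (Tr.node (nat_lit 1984) (Tr.leaf (nat_lit 136547)) (Tr.leaf (nat_lit 34135))) (Tr.node (nat_lit 832) (Tr.leaf (nat_lit 133)) (Tr.node (nat_lit 5184) (Tr.leaf (nat_lit 2184622)) (Tr.leaf (nat_lit 2133))))) (Tr.node (nat_lit 7680) (Tr.node (nat_lit 3072) (Tr.leaf (nat_lit 2184344)) (Tr.leaf (nat_lit 136512))) (Tr.node (nat_lit 1536) (Tr.leaf (nat_lit 545999)) (Tr.node (nat_lit 9216) (Tr.leaf (nat_lit 136495)) (Tr.leaf (nat_lit 2183511)))))) (Tr.node (nat_lit 18496) (Tr.node (nat_lit 6144) (Tr.node (nat_lit 4224) (Tr.leaf (nat_lit 136460)) (Tr.leaf (nat_lit 34112))) (Tr.node (nat_lit 9216) (Tr.leaf (nat_lit 136443)) (Tr.node (nat_lit 576) (Tr.leaf (nat_lit 545669)) (Tr.leaf (nat_lit 2131))))) (Tr.node (nat_lit 18112) (Tr.node (nat_lit 6144) (Tr.leaf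 (nat_lit 545635)) (Tr.node (nat_lit 10944) (Tr.leaf (nat_lit 545565)) (Tr.leaf (nat_lit 133)))) (Tr.node (nat_lit 320) (Tr.leaf (nat_lit 136357)) (Tr.node (nat_lit 9216) (Tr.leaf (nat_lit 136356)) (Tr.leaf (nat_lit 2181293))))))) (Tr.node (nat_lit 58112) (Tr.node (nat_lit 32000) (Tr.node (nat_lit 18240) (Tr.node (nat_lit 256) (Tr.leaf (nat_lit 545219)) (Tr.leaf (nat_lit 133))) (Tr.node (nat_lit 192) (Tr.leaf (nat_lit 136253)) (Tr.node (nat_lit 4608) (Tr.leaf (nat_lit 136253)) (Tr.leaf (nat_lit 544960))))) (Tr.node (nat_lit 18624) (Tr.node (nat_lit 4864) (Tr.leaf (nat_lit 2128)) (Tr.node (nat_lit 1536) (Tr.leaf (nat_lit 136201)) (Tr.leaf (nat_lit 544787)))) (Tr.node (nat_lit 1600) (Tr.leaf (nat_lit 136162)) (Tr.node (nat_lit 3072) (Tr.leaf (nat_lit 544631)) (Tr.leaf (nat_lit 136149)))))) (Tr.node (nat_lit 12480) (Tr.node (nat_lit 3264) (Tr.node (nat_lit 1088) (Tr.leaf (nat_lit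 34035)) (Tr.leaf (nat_lit 132))) (Tr.node (nat_lit 3072) (Tr.leaf (nat_lit 544528)) (Tr.node (nat_lit 4864) (Tr.leaf (nat_lit 8711901)) (Tr.leaf (nat_lit 34027))))) (Tr.node (nat_lit 27648) (Tr.node (nat_lit 9984) (Tr.leaf (nat_lit 2177699)) (Tr.node (nat_lit 2304) (Tr.leaf (nat_lit 544312)) (Tr.leaf (nat_lit 544286)))) (Tr.node (nat_lit 3008) (Tr.leaf (nat_lit 136028)) (Tr.node (nat_lit 3264) (Tr.leaf (nat_lit 544079)) (Tr.leaf (nat_lit 136010))))))))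

noncomputable def jt112 : Tr :=
  (Tr.node (nat_lit 101056) (Tr.node (nat_lit 35264) (Tr.node (nat_lit 12288) (Tr.node (nat_lit 3072) (Tr.node (nat_lit 2880) (Tr.leaf (nat_lit 544011)) (Tr.leaf (nat_lit 135994))) (Tr.node (nat_lit 4224) (Tr.leaf (nat_lit 135994)) (Tr.node (nat_lit 4224) (Tr.leaf (nat_lit 132)) (Tr.leaf (nat_lit 543881))))) (Tr.node (nat_lit 10880) (Tr.node (nat_lit 2304) (Tr.leaf (nat_lit 543873)) (Tr.node (nat_lit 6912) (Tr.leaf (nat_lit 8497)) (Tr.leaf (nat_lit 135942)))) (Tr.node (nat_lit 4416) (Tr.leaf (nat_lit 132)) (Tr.node (nat_lit 1344) (Tr.leaf (nat_lit 543701)) (Tr.leaf (nat_lit 135921)))))) (Tr.node (nat_lit 26496) (Tr.node (nat_lit 10752) (Tr.node (nat_lit 4608) (Tr.leaf (nat_lit 543615)) (Tr.leaf (nat_lit 135890))) (Tr.node (nat_lit 3008) (Tr.leaf (nat_lit 543494)) (Tr.node (nat_lit 9216) (Tr.leaf (nat_lit 543460)) (Tr.leaf (nat_lit 135839)))))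 (Tr.node (nat_lit 23616) (Tr.node (nat_lit 11008) (Tr.leaf (nat_lit 135829)) (Tr.node (nat_lit 9984) (Tr.leaf (nat_lit 530)) (Tr.leaf (nat_lit 135770)))) (Tr.node (nat_lit 384) (Tr.leaf (nat_lit 33940)) (Tr.node (nat_lit 6144) (Tr.leaf (nat_lit 543048)) (Tr.leaf (nat_lit 2171917))))))) (Tr.node (nat_lit 63168) (Tr.node (nat_lit 27968) (Tr.node (nat_lit 9216) (Tr.node (nat_lit 1344) (Tr.leaf (nat_lit 135719)) (Tr.leaf (nat_lit 135715))) (Tr.node (nat_lit 7040) (Tr.leaf (nat_lit 542773)) (Tr.node (nat_lit 5184) (Tr.leaf (nat_lit 135673)) (Tr.leaf (nat_lit 542636))))) (Tr.node (nat_lit 25792) (Tr.node (nat_lit 1088) (Tr.leaf (nat_lit 8477)) (Tr.node (nat_lit 15296) (Tr.leaf (nat_lit 2119)) (Tr.leaf (nat_lit 542379)))) (Tr.node (nat_lit 1280) (Tr.leaf (nat_lit 132)) (Tr.node (nat_lit 3072) (Tr.leaf (nat_lit 542259)) (Tr.leaf (nat_lit 542225)))))) (Tr.node (nat_lit 22784) (Tr.node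 (nat_lit 13312) (Tr.node (nat_lit 10240) (Tr.leaf (nat_lit 33885)) (Tr.leaf (nat_lit 542054))) (Tr.node (nat_lit 8640) (Tr.leaf (nat_lit 2168080)) (Tr.node (nat_lit 512) (Tr.leaf (nat_lit 33870)) (Tr.leaf (nat_lit 541917))))) (Tr.node (nat_lit 21312) (Tr.node (nat_lit 11392) (Tr.leaf (nat_lit 529)) (Tr.node (nat_lit 3520) (Tr.leaf (nat_lit 8465)) (Tr.leaf (nat_lit 2166986)))) (Tr.node (nat_lit 2752) (Tr.leaf (nat_lit 132)) (Tr.node (nat_lit 1152) (Tr.leaf (nat_lit 135411)) (Tr.leaf (nat_lit 541631))))))))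

noncomputable def jt113 : Tr :=
  (Tr.node (nat_lit 111488) (Tr.node (nat_lit 58176) (Tr.node (nat_lit 24448) (Tr.node (nat_lit 12416) (Tr.node (nat_lit 11456) (Tr.leaf (nat_lit 2166439)) (Tr.leaf (nat_lit 541481))) (Tr.node (nat_lit 2880) (Tr.leaf (nat_lit 135367)) (Tr.node (nat_lit 7296) (Tr.leaf (nat_lit 541439)) (Tr.leaf (nat_lit 132))))) (Tr.node (nat_lit 27392) (Tr.node (nat_lit 25408) (Tr.leaf (nat_lit 541336)) (Tr.leaf (nat_lit 132))) (Tr.node (nat_lit 3072) (Tr.leaf (nat_lit 135257)) (Tr.node (nat_lit 3200) (Tr.leaf (nat_lit 540996)) (Tr.leaf (nat_lit 528)))))) (Tr.node (nat_lit 16960) (Tr.node (nat_lit 5888) (Tr.node (nat_lit 2816) (Tr.leaf (nat_lit 135239)) (Tr.leaf (nat_lit 2163711))) (Tr.node (nat_lit 5504) (Tr.leaf (nat_lit 135223)) (Tr.node (nat_lit 3648) (Tr.leaf (nat_lit 135208)) (Tr.leaf (nat_lit 2163166))))) (Tr.node (nat_lit 7232) (Tr.node (nat_lit 1152)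 (Tr.leaf (nat_lit 2112)) (Tr.node (nat_lit 5184) (Tr.leaf (nat_lit 33797)) (Tr.leaf (nat_lit 135174)))) (Tr.node (nat_lit 1472) (Tr.leaf (nat_lit 135172)) (Tr.node (nat_lit 4608) (Tr.leaf (nat_lit 540672)) (Tr.leaf (nat_lit 135155))))))) (Tr.node (nat_lit 77376) (Tr.node (nat_lit 31744) (Tr.node (nat_lit 13504) (Tr.node (nat_lit 11968) (Tr.leaf (nat_lit 135091)) (Tr.leaf (nat_lit 540230))) (Tr.node (nat_lit 8320) (Tr.leaf (nat_lit 135053)) (Tr.node (nat_lit 832) (Tr.leaf (nat_lit 131)) (Tr.leaf (nat_lit 8641785))))) (Tr.node (nat_lit 21312) (Tr.node (nat_lit 16768) (Tr.leaf (nat_lit 135002)) (Tr.node (nat_lit 1536) (Tr.leaf (nat_lit 539823)) (Tr.leaf (nat_lit 134951)))) (Tr.node (nat_lit 12096) (Tr.leaf (nat_lit 539772)) (Tr.node (nat_lit 3136) (Tr.leaf (nat_lit 134909)) (Tr.leaf (nat_lit 134900)))))) (Tr.node (nat_lit 33664) (Tr.node (nat_lit 3072) (Tr.node (nat_lit 1856) (Tr.leaf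 (nat_lit 539500)) (Tr.leaf (nat_lit 33717))) (Tr.node (nat_lit 6080) (Tr.leaf (nat_lit 134866)) (Tr.node (nat_lit 9088) (Tr.leaf (nat_lit 2157597)) (Tr.leaf (nat_lit 2157191))))) (Tr.node (nat_lit 8704) (Tr.node (nat_lit 2816) (Tr.leaf (nat_lit 526)) (Tr.node (nat_lit 576) (Tr.leaf (nat_lit 539094)) (Tr.leaf (nat_lit 134772)))) (Tr.node (nat_lit 3200) (Tr.leaf (nat_lit 134757)) (Tr.node (nat_lit 832) (Tr.leaf (nat_lit 134748)) (Tr.leaf (nat_lit 131))))))))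

noncomputable def jt114 : Tr :=
  (Tr.node (nat_lit 97088) (Tr.node (nat_lit 48320) (Tr.node (nat_lit 22592) (Tr.node (nat_lit 18624) (Tr.node (nat_lit 10368) (Tr.leaf (nat_lit 538959)) (Tr.leaf (nat_lit 134711))) (Tr.node (nat_lit 320) (Tr.leaf (nat_lit 134687)) (Tr.node (nat_lit 3264) (Tr.leaf (nat_lit 2104)) (Tr.leaf (nat_lit 134678))))) (Tr.node (nat_lit 17536) (Tr.node (nat_lit 13824) (Tr.leaf (nat_lit 33669)) (Tr.leaf (nat_lit 2154215))) (Tr.node (nat_lit 2368) (Tr.leaf (nat_lit 131)) (Tr.node (nat_lit 3008) (Tr.leaf (nat_lit 2153945)) (Tr.leaf (nat_lit 538452)))))) (Tr.node (nat_lit 13888) (Tr.node (nat_lit 6336) (Tr.node (nat_lit 5952) (Tr.leaf (nat_lit 525)) (Tr.leaf (nat_lit 131))) (Tr.node (nat_lit 3136) (Tr.leaf (nat_lit 538351)) (Tr.node (nat_lit 2880) (Tr.leaf (nat_lit 134579)) (Tr.leaf (nat_lit 538283))))) (Tr.node (nat_lit 19712) (Tr.node (nat_lit 1536) (Tr.leaf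 (nat_lit 33641)) (Tr.node (nat_lit 9088) (Tr.leaf (nat_lit 134562)) (Tr.leaf (nat_lit 538149)))) (Tr.node (nat_lit 11392) (Tr.leaf (nat_lit 538047)) (Tr.node (nat_lit 3328) (Tr.leaf (nat_lit 537921)) (Tr.leaf (nat_lit 131))))))) (Tr.node (nat_lit 36352) (Tr.node (nat_lit 16512) (Tr.node (nat_lit 3008) (Tr.node (nat_lit 2816) (Tr.leaf (nat_lit 537879)) (Tr.leaf (nat_lit 134461))) (Tr.node (nat_lit 6080) (Tr.leaf (nat_lit 134461)) (Tr.node (nat_lit 3200) (Tr.leaf (nat_lit 134444)) (Tr.leaf (nat_lit 8402))))) (Tr.node (nat_lit 6208) (Tr.node (nat_lit 1024) (Tr.leaf (nat_lit 131)) (Tr.node (nat_lit 2368) (Tr.leaf (nat_lit 134421)) (Tr.leaf (nat_lit 134414)))) (Tr.node (nat_lit 4544) (Tr.leaf (nat_lit 537626)) (Tr.node (nat_lit 3072) (Tr.leaf (nat_lit 537576)) (Tr.leaf (nat_lit 2150171)))))) (Tr.node (nat_lit 36352) (Tr.node (nat_lit 27264) (Tr.node (nat_lit 9088) (Tr.leaf (nat_lit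 537475)) (Tr.leaf (nat_lit 537374))) (Tr.node (nat_lit 128) (Tr.leaf (nat_lit 134293)) (Tr.node (nat_lit 3456) (Tr.leaf (nat_lit 33573)) (Tr.leaf (nat_lit 134283))))) (Tr.node (nat_lit 21184) (Tr.node (nat_lit 3008) (Tr.leaf (nat_lit 537072)) (Tr.node (nat_lit 9088) (Tr.leaf (nat_lit 537038)) (Tr.leaf (nat_lit 536938)))) (Tr.node (nat_lit 9088) (Tr.leaf (nat_lit 134209)) (Tr.node (nat_lit 6016) (Tr.leaf (nat_lit 536736)) (Tr.leaf (nat_lit 536669))))))))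

noncomputable def jt115 : Tr :=
  (Tr.node (nat_lit 77056) (Tr.node (nat_lit 35520) (Tr.node (nat_lit 18944) (Tr.node (nat_lit 9088) (Tr.node (nat_lit 384) (Tr.leaf (nat_lit 134159)) (Tr.leaf (nat_lit 524))) (Tr.node (nat_lit 5376) (Tr.leaf (nat_lit 536535)) (Tr.node (nat_lit 704) (Tr.leaf (nat_lit 130)) (Tr.leaf (nat_lit 536468))))) (Tr.node (nat_lit 3904) (Tr.node (nat_lit 1024) (Tr.leaf (nat_lit 130)) (Tr.leaf (nat_lit 134103))) (Tr.node (nat_lit 3264) (Tr.leaf (nat_lit 130)) (Tr.node (nat_lit 1152) (Tr.leaf (nat_lit 536347)) (Tr.leaf (nat_lit 8581353)))))) (Tr.node (nat_lit 18944) (Tr.node (nat_lit 11392) (Tr.node (nat_lit 11264) (Tr.leaf (nat_lit 2094)) (Tr.leaf (nat_lit 523))) (Tr.node (nat_lit 2816) (Tr.leaf (nat_lit 536116)) (Tr.node (nat_lit 3264) (Tr.leaf (nat_lit 134021)) (Tr.leaf (nat_lit 134012))))) (Tr.node (nat_lit 9024) (Tr.node (nat_lit 6016) (Tr.leaf (nat_lit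 536033)) (Tr.node (nat_lit 2496) (Tr.leaf (nat_lit 535966)) (Tr.leaf (nat_lit 33496)))) (Tr.node (nat_lit 1216) (Tr.leaf (nat_lit 535933)) (Tr.node (nat_lit 7872) (Tr.leaf (nat_lit 8373)) (Tr.leaf (nat_lit 535832))))))) (Tr.node (nat_lit 45312) (Tr.node (nat_lit 24256) (Tr.node (nat_lit 8320) (Tr.node (nat_lit 1536) (Tr.leaf (nat_lit 535782)) (Tr.leaf (nat_lit 133941))) (Tr.node (nat_lit 5312) (Tr.leaf (nat_lit 535690)) (Tr.node (nat_lit 9024) (Tr.leaf (nat_lit 535632)) (Tr.leaf (nat_lit 2142128))))) (Tr.node (nat_lit 4480) (Tr.node (nat_lit 320) (Tr.leaf (nat_lit 33469)) (Tr.node (nat_lit 2752) (Tr.leaf (nat_lit 130)) (Tr.leaf (nat_lit 522)))) (Tr.node (nat_lit 7296) (Tr.leaf (nat_lit 535465)) (Tr.node (nat_lit 4736) (Tr.leaf (nat_lit 133845)) (Tr.leaf (nat_lit 535331)))))) (Tr.node (nat_lit 19584) (Tr.node (nat_lit 13568) (Tr.node (nat_lit 6592) (Tr.leaf (nat_lit 535281)) (Tr.leaf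 (nat_lit 133802))) (Tr.node (nat_lit 704) (Tr.leaf (nat_lit 535131)) (Tr.node (nat_lit 4352) (Tr.leaf (nat_lit 33445)) (Tr.leaf (nat_lit 130))))) (Tr.node (nat_lit 9024) (Tr.node (nat_lit 640) (Tr.leaf (nat_lit 535065)) (Tr.node (nat_lit 7488) (Tr.leaf (nat_lit 33441)) (Tr.leaf (nat_lit 133743)))) (Tr.node (nat_lit 9088) (Tr.leaf (nat_lit 133741)) (Tr.node (nat_lit 3008) (Tr.leaf (nat_lit 2139460)) (Tr.leaf (nat_lit 133707))))))))

noncomputable def jt116 : Tr :=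
  (Tr.node (nat_lit 103872) (Tr.node (nat_lit 37696) (Tr.node (nat_lit 13568) (Tr.node (nat_lit 4544) (Tr.node (nat_lit 1536) (Tr.leaf (nat_lit 534781)) (Tr.leaf (nat_lit 133691))) (Tr.node (nat_lit 1344) (Tr.leaf (nat_lit 8555711)) (Tr.node (nat_lit 4672) (Tr.leaf (nat_lit 133679)) (Tr.leaf (nat_lit 534665))))) (Tr.node (nat_lit 6080) (Tr.node (nat_lit 576) (Tr.leaf (nat_lit 133658)) (Tr.leaf (nat_lit 133656))) (Tr.node (nat_lit 3008) (Tr.leaf (nat_lit 133641)) (Tr.node (nat_lit 9024) (Tr.leaf (nat_lit 534532)) (Tr.leaf (nat_lit 133608)))))) (Tr.node (nat_lit 32896) (Tr.node (nat_lit 13568) (Tr.node (nat_lit 3008) (Tr.leaf (nat_lit 534366)) (Tr.leaf (nat_lit 534332))) (Tr.node (nat_lit 9792) (Tr.leaf (nat_lit 521)) (Tr.node (nat_lit 3712) (Tr.leaf (nat_lit 33381)) (Tr.leaf (nat_lit 534067))))) (Tr.node (nat_lit 15232) (Tr.node (nat_lit 3200) (Tr.leaf (nat_lit 133500)) (Tr.node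 (nat_lit 9024) (Tr.leaf (nat_lit 133491)) (Tr.leaf (nat_lit 533867)))) (Tr.node (nat_lit 8320) (Tr.leaf (nat_lit 133458)) (Tr.node (nat_lit 704) (Tr.leaf (nat_lit 533743)) (Tr.leaf (nat_lit 533735))))))) (Tr.node (nat_lit 44736) (Tr.node (nat_lit 30592) (Tr.node (nat_lit 16768) (Tr.node (nat_lit 15040) (Tr.leaf (nat_lit 133408)) (Tr.leaf (nat_lit 533470))) (Tr.node (nat_lit 1280) (Tr.leaf (nat_lit 520)) (Tr.node (nat_lit 7424) (Tr.leaf (nat_lit 133359)) (Tr.leaf (nat_lit 133338))))) (Tr.node (nat_lit 7168) (Tr.node (nat_lit 1920) (Tr.leaf (nat_lit 33331)) (Tr.node (nat_lit 576) (Tr.leaf (nat_lit 133319)) (Tr.leaf (nat_lit 533271)))) (Tr.node (nat_lit 4352) (Tr.leaf (nat_lit 130)) (Tr.node (nat_lit 1856) (Tr.leaf (nat_lit 133293)) (Tr.leaf (nat_lit 33321)))))) (Tr.node (nat_lit 24384) (Tr.node (nat_lit 9408) (Tr.node (nat_lit 6400) (Tr.leaf (nat_lit 520)) (Tr.leaf (nat_lit 533072)))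 (Tr.node (nat_lit 2176) (Tr.leaf (nat_lit 533039)) (Tr.node (nat_lit 9408) (Tr.leaf (nat_lit 33313)) (Tr.leaf (nat_lit 130))))) (Tr.node (nat_lit 21056) (Tr.node (nat_lit 10624) (Tr.leaf (nat_lit 33304)) (Tr.node (nat_lit 7424) (Tr.leaf (nat_lit 130)) (Tr.leaf (nat_lit 532676)))) (Tr.node (nat_lit 4736) (Tr.leaf (nat_lit 133160)) (Tr.node (nat_lit 4224) (Tr.leaf (nat_lit 520)) (Tr.leaf (nat_lit 532543))))))))

noncomputable def jt117 : Tr :=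
  (Tr.node (nat_lit 99776) (Tr.node (nat_lit 36864) (Tr.node (nat_lit 9856) (Tr.node (nat_lit 1408) (Tr.node (nat_lit 576) (Tr.leaf (nat_lit 133121)) (Tr.leaf (nat_lit 130))) (Tr.node (nat_lit 1920) (Tr.leaf (nat_lit 133117)) (Tr.node (nat_lit 512) (Tr.leaf (nat_lit 129)) (Tr.leaf (nat_lit 532444))))) (Tr.node (nat_lit 17984) (Tr.node (nat_lit 11968) (Tr.leaf (nat_lit 532378)) (Tr.leaf (nat_lit 133061))) (Tr.node (nat_lit 3008) (Tr.leaf (nat_lit 133045)) (Tr.node (nat_lit 5376) (Tr.leaf (nat_lit 532148)) (Tr.leaf (nat_lit 33255)))))) (Tr.node (nat_lit 25472) (Tr.node (nat_lit 5760) (Tr.node (nat_lit 2048) (Tr.leaf (nat_lit 2128328)) (Tr.leaf (nat_lit 129))) (Tr.node (nat_lit 2624) (Tr.leaf (nat_lit 133004)) (Tr.node (nat_lit 9600) (Tr.leaf (nat_lit 129)) (Tr.leaf (nat_lit 2127537))))) (Tr.node (nat_lit 11200) (Tr.node (nat_lit 4480) (Tr.leaf (nat_lit 531802)) (Tr.node (nat_lit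 2048) (Tr.leaf (nat_lit 531752)) (Tr.leaf (nat_lit 132932)))) (Tr.node (nat_lit 8256) (Tr.leaf (nat_lit 531678)) (Tr.node (nat_lit 3008) (Tr.leaf (nat_lit 531588)) (Tr.leaf (nat_lit 8504885))))))) (Tr.node (nat_lit 64000) (Tr.node (nat_lit 18048) (Tr.node (nat_lit 8256) (Tr.node (nat_lit 3008) (Tr.leaf (nat_lit 531390)) (Tr.leaf (nat_lit 531358))) (Tr.node (nat_lit 704) (Tr.leaf (nat_lit 2075)) (Tr.node (nat_lit 3008) (Tr.leaf (nat_lit 2125169)) (Tr.leaf (nat_lit 531259))))) (Tr.node (nat_lit 25920) (Tr.node (nat_lit 8384) (Tr.leaf (nat_lit 129)) (Tr.node (nat_lit 3520) (Tr.leaf (nat_lit 132775)) (Tr.leaf (nat_lit 531062)))) (Tr.node (nat_lit 9920) (Tr.leaf (nat_lit 132727)) (Tr.node (nat_lit 6912) (Tr.leaf (nat_lit 132699)) (Tr.leaf (nat_lit 132681)))))) (Tr.node (nat_lit 20864) (Tr.node (nat_lit 7808) (Tr.node (nat_lit 1856) (Tr.leaf (nat_lit 518)) (Tr.leaf (nat_lit 132667)))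 (Tr.node (nat_lit 3008) (Tr.leaf (nat_lit 132650)) (Tr.node (nat_lit 8960) (Tr.leaf (nat_lit 530570)) (Tr.leaf (nat_lit 132618))))) (Tr.node (nat_lit 7872) (Tr.node (nat_lit 3648) (Tr.leaf (nat_lit 129)) (Tr.node (nat_lit 1216) (Tr.leaf (nat_lit 2071)) (Tr.leaf (nat_lit 530406)))) (Tr.node (nat_lit 4480) (Tr.leaf (nat_lit 530373)) (Tr.node (nat_lit 5120) (Tr.leaf (nat_lit 530324)) (Tr.leaf (nat_lit 132567))))))))

noncomputable def jt118 : Tr :=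
  (Tr.node (nat_lit 75584) (Tr.node (nat_lit 37184) (Tr.node (nat_lit 18880) (Tr.node (nat_lit 3904) (Tr.node (nat_lit 960) (Tr.leaf (nat_lit 132530)) (Tr.leaf (nat_lit 530111))) (Tr.node (nat_lit 8448) (Tr.leaf (nat_lit 530079)) (Tr.node (nat_lit 512) (Tr.leaf (nat_lit 132496)) (Tr.leaf (nat_lit 2119924))))) (Tr.node (nat_lit 6272) (Tr.node (nat_lit 2944) (Tr.leaf (nat_lit 529915)) (Tr.leaf (nat_lit 529883))) (Tr.node (nat_lit 1088) (Tr.leaf (nat_lit 132461)) (Tr.node (nat_lit 4672) (Tr.leaf (nat_lit 33114)) (Tr.leaf (nat_lit 129)))))) (Tr.node (nat_lit 8512) (Tr.node (nat_lit 1536) (Tr.node (nat_lit 320) (Tr.leaf (nat_lit 33107)) (Tr.leaf (nat_lit 129))) (Tr.node (nat_lit 1024) (Tr.leaf (nat_lit 129)) (Tr.node (nat_lit 3776) (Tr.leaf (nat_lit 132421)) (Tr.leaf (nat_lit 33102))))) (Tr.node (nat_lit 22592) (Tr.node (nat_lit 11968) (Tr.leaf (nat_lit 529621)) (Tr.node (nat_lit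 1920) (Tr.leaf (nat_lit 132372)) (Tr.leaf (nat_lit 517)))) (Tr.node (nat_lit 4288) (Tr.leaf (nat_lit 132343)) (Tr.node (nat_lit 64) (Tr.leaf (nat_lit 529327)) (Tr.leaf (nat_lit 33082))))))) (Tr.node (nat_lit 53632) (Tr.node (nat_lit 18944) (Tr.node (nat_lit 5952) (Tr.node (nat_lit 2048) (Tr.leaf (nat_lit 132323)) (Tr.leaf (nat_lit 132318))) (Tr.node (nat_lit 768) (Tr.leaf (nat_lit 132307)) (Tr.node (nat_lit 11136) (Tr.leaf (nat_lit 529222)) (Tr.leaf (nat_lit 529099))))) (Tr.node (nat_lit 20608) (Tr.node (nat_lit 7872) (Tr.leaf (nat_lit 132272)) (Tr.node (nat_lit 5952) (Tr.leaf (nat_lit 529002)) (Tr.leaf (nat_lit 8462989)))) (Tr.node (nat_lit 9920) (Tr.leaf (nat_lit 2065)) (Tr.node (nat_lit 1152) (Tr.leaf (nat_lit 33047)) (Tr.leaf (nat_lit 516)))))) (Tr.node (nat_lit 39168) (Tr.node (nat_lit 11712) (Tr.node (nat_lit 5952) (Tr.leaf (nat_lit 528708)) (Tr.leaf (nat_lit 132160)))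 (Tr.node (nat_lit 6144) (Tr.leaf (nat_lit 132145)) (Tr.node (nat_lit 14912) (Tr.leaf (nat_lit 132128)) (Tr.leaf (nat_lit 528351))))) (Tr.node (nat_lit 9152) (Tr.node (nat_lit 2560) (Tr.leaf (nat_lit 8254)) (Tr.node (nat_lit 2944) (Tr.leaf (nat_lit 528253)) (Tr.leaf (nat_lit 528221)))) (Tr.node (nat_lit 2304) (Tr.leaf (nat_lit 128)) (Tr.node (nat_lit 5568) (Tr.leaf (nat_lit 2112625)) (Tr.leaf (nat_lit 33005))))))))

noncomputable def jt119 : Tr :=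
  (Tr.node (nat_lit 112192) (Tr.node (nat_lit 46848) (Tr.node (nat_lit 17024) (Tr.node (nat_lit 5184) (Tr.node (nat_lit 2240) (Tr.leaf (nat_lit 528083)) (Tr.leaf (nat_lit 132014))) (Tr.node (nat_lit 2432) (Tr.leaf (nat_lit 2112105)) (Tr.node (nat_lit 3520) (Tr.leaf (nat_lit 128)) (Tr.leaf (nat_lit 527961))))) (Tr.node (nat_lit 6016) (Tr.node (nat_lit 3072) (Tr.leaf (nat_lit 32993)) (Tr.leaf (nat_lit 131966))) (Tr.node (nat_lit 14400) (Tr.leaf (nat_lit 527831)) (Tr.node (nat_lit 8768) (Tr.leaf (nat_lit 515)) (Tr.leaf (nat_lit 131894)))))) (Tr.node (nat_lit 29696) (Tr.node (nat_lit 11264) (Tr.node (nat_lit 5056) (Tr.leaf (nat_lit 527572)) (Tr.leaf (nat_lit 128))) (Tr.node (nat_lit 640) (Tr.leaf (nat_lit 32965)) (Tr.node (nat_lit 8896) (Tr.leaf (nat_lit 527442)) (Tr.leaf (nat_lit 527345))))) (Tr.node (nat_lit 23808) (Tr.node (nat_lit 17856) (Tr.leaf (nat_lit 527248)) (Tr.node (nat_lit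 384) (Tr.leaf (nat_lit 527054)) (Tr.leaf (nat_lit 2058)))) (Tr.node (nat_lit 2944) (Tr.leaf (nat_lit 2107959)) (Tr.node (nat_lit 5952) (Tr.leaf (nat_lit 131739)) (Tr.leaf (nat_lit 526892))))))) (Tr.node (nat_lit 49856) (Tr.node (nat_lit 20608) (Tr.node (nat_lit 2240) (Tr.node (nat_lit 1216) (Tr.leaf (nat_lit 2107442)) (Tr.leaf (nat_lit 514))) (Tr.node (nat_lit 3712) (Tr.leaf (nat_lit 526836)) (Tr.node (nat_lit 7680) (Tr.leaf (nat_lit 526795)) (Tr.leaf (nat_lit 131678))))) (Tr.node (nat_lit 15040) (Tr.node (nat_lit 8448) (Tr.leaf (nat_lit 131659)) (Tr.node (nat_lit 3584) (Tr.leaf (nat_lit 2056)) (Tr.leaf (nat_lit 526505)))) (Tr.node (nat_lit 5888) (Tr.leaf (nat_lit 526473)) (Tr.node (nat_lit 3008) (Tr.leaf (nat_lit 526408)) (Tr.leaf (nat_lit 131594)))))) (Tr.node (nat_lit 18112) (Tr.node (nat_lit 8256) (Tr.node (nat_lit 1856) (Tr.leaf (nat_lit 32894)) (Tr.leaf (nat_lit 128)))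 (Tr.node (nat_lit 1216) (Tr.leaf (nat_lit 128)) (Tr.node (nat_lit 3008) (Tr.leaf (nat_lit 2104860)) (Tr.leaf (nat_lit 526182))))) (Tr.node (nat_lit 18048) (Tr.node (nat_lit 3264) (Tr.leaf (nat_lit 32882)) (Tr.node (nat_lit 384) (Tr.leaf (nat_lit 2104344)) (Tr.leaf (nat_lit 526082)))) (Tr.node (nat_lit 256) (Tr.leaf (nat_lit 131481)) (Tr.node (nat_lit 8640) (Tr.leaf (nat_lit 128)) (Tr.leaf (nat_lit 2103314))))))))

noncomputable def jt120 : Tr :=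
  (Tr.node (nat_lit 94720) (Tr.node (nat_lit 35520) (Tr.node (nat_lit 13312) (Tr.node (nat_lit 5888) (Tr.node (nat_lit 4224) (Tr.leaf (nat_lit 525796)) (Tr.leaf (nat_lit 131437))) (Tr.node (nat_lit 2944) (Tr.leaf (nat_lit 131432)) (Tr.node (nat_lit 576) (Tr.leaf (nat_lit 2102799)) (Tr.leaf (nat_lit 131423))))) (Tr.node (nat_lit 13312) (Tr.node (nat_lit 10368) (Tr.leaf (nat_lit 525651)) (Tr.node (nat_lit 640) (Tr.leaf (nat_lit 525538)) (Tr.leaf (nat_lit 32845)))) (Tr.node (nat_lit 256) (Tr.leaf (nat_lit 525506)) (Tr.node (nat_lit 2816) (Tr.leaf (nat_lit 131375)) (Tr.leaf (nat_lit 128)))))) (Tr.node (nat_lit 26112) (Tr.node (nat_lit 21760) (Tr.node (nat_lit 8896) (Tr.leaf (nat_lit 131352)) (Tr.leaf (nat_lit 8405024))) (Tr.node (nat_lit 1344) (Tr.leaf (nat_lit 128)) (Tr.node (nat_lit 1792) (Tr.leaf (nat_lit 131289)) (Tr.leaf (nat_lit 131284))))) (Tr.node (nat_lit 15296) (Tr.node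 (nat_lit 6464) (Tr.leaf (nat_lit 131281)) (Tr.node (nat_lit 2944) (Tr.leaf (nat_lit 2100228)) (Tr.leaf (nat_lit 131256)))) (Tr.node (nat_lit 3008) (Tr.leaf (nat_lit 131240)) (Tr.node (nat_lit 9408) (Tr.leaf (nat_lit 524928)) (Tr.leaf (nat_lit 131206))))))) (Tr.node (nat_lit 79744) (Tr.node (nat_lit 26560) (Tr.node (nat_lit 8448) (Tr.node (nat_lit 2944) (Tr.leaf (nat_lit 131192)) (Tr.leaf (nat_lit 524736))) (Tr.node (nat_lit 384) (Tr.leaf (nat_lit 2049)) (Tr.node (nat_lit 11840) (Tr.leaf (nat_lit 524672)) (Tr.leaf (nat_lit 2098176))))) (Tr.node (nat_lit 39232) (Tr.node (nat_lit 8896) (Tr.leaf (nat_lit 524480)) (Tr.node (nat_lit 11840) (Tr.leaf (nat_lit 131096)) (Tr.leaf (nat_lit 524256)))) (Tr.node (nat_lit 5120) (Tr.leaf (nat_lit 8188)) (Tr.node (nat_lit 2944) (Tr.leaf (nat_lit 524000)) (Tr.leaf (nat_lit 523968)))))) (Tr.node (nat_lit 21248) (Tr.node (nat_lit 11840) (Tr.node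 (nat_lit 8896) (Tr.leaf (nat_lit 523904)) (Tr.leaf (nat_lit 523808))) (Tr.node (nat_lit 5888) (Tr.leaf (nat_lit 8380423)) (Tr.node (nat_lit 1024) (Tr.leaf (nat_lit 523712)) (Tr.leaf (nat_lit 130925))))) (Tr.node (nat_lit 14208) (Tr.node (nat_lit 5312) (Tr.leaf (nat_lit 32729)) (Tr.node (nat_lit 2944) (Tr.leaf (nat_lit 523616)) (Tr.leaf (nat_lit 523584)))) (Tr.node (nat_lit 13248) (Tr.leaf (nat_lit 2094084)) (Tr.node (nat_lit 1728) (Tr.leaf (nat_lit 523377)) (Tr.leaf (nat_lit 130839))))))))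

noncomputable def jt121 : Tr :=
  (Tr.node (nat_lit 234624) (Tr.node (nat_lit 117824) (Tr.node (nat_lit 69248) (Tr.node (nat_lit 34752) (Tr.node (nat_lit 33920) (Tr.leaf (nat_lit 523329)) (Tr.leaf (nat_lit 522963))) (Tr.node (nat_lit 640) (Tr.leaf (nat_lit 130738)) (Tr.node (nat_lit 26496) (Tr.leaf (nat_lit 522947)) (Tr.leaf (nat_lit 522661))))) (Tr.node (nat_lit 19136) (Tr.node (nat_lit 5888) (Tr.leaf (nat_lit 522581)) (Tr.leaf (nat_lit 522517))) (Tr.node (nat_lit 11776) (Tr.leaf (nat_lit 522375)) (Tr.node (nat_lit 5888) (Tr.leaf (nat_lit 8355967)) (Tr.leaf (nat_lit 2088737)))))) (Tr.node (nat_lit 52928) (Tr.node (nat_lit 34688) (Tr.node (nat_lit 32384) (Tr.leaf (nat_lit 522057)) (Tr.leaf (nat_lit 521708))) (Tr.node (nat_lit 8704) (Tr.leaf (nat_lit 2037)) (Tr.node (nat_lit 6592) (Tr.leaf (nat_lit 521589)) (Tr.leaf (nat_lit 521518))))) (Tr.node (nat_lit 50048) (Tr.node (nat_lit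 8832) (Tr.leaf (nat_lit 2085948)) (Tr.node (nat_lit 14720) (Tr.leaf (nat_lit 521392)) (Tr.leaf (nat_lit 8339742)))) (Tr.node (nat_lit 8704) (Tr.leaf (nat_lit 8139)) (Tr.node (nat_lit 5056) (Tr.leaf (nat_lit 2083418)) (Tr.leaf (nat_lit 508))))))) (Tr.node (nat_lit 82880) (Tr.node (nat_lit 38528) (Tr.node (nat_lit 12480) (Tr.node (nat_lit 6656) (Tr.leaf (nat_lit 520799)) (Tr.leaf (nat_lit 2082913))) (Tr.node (nat_lit 11776) (Tr.leaf (nat_lit 520665)) (Tr.node (nat_lit 1472) (Tr.leaf (nat_lit 520539)) (Tr.leaf (nat_lit 520523))))) (Tr.node (nat_lit 17984) (Tr.node (nat_lit 3328) (Tr.leaf (nat_lit 520385)) (Tr.node (nat_lit 8768) (Tr.leaf (nat_lit 520349)) (Tr.leaf (nat_lit 520255)))) (Tr.node (nat_lit 2880) (Tr.leaf (nat_lit 520192)) (Tr.node (nat_lit 5888) (Tr.leaf (nat_lit 520160)) (Tr.leaf (nat_lit 520097)))))) (Tr.node (nat_lit 27072) (Tr.node (nat_lit 8768) (Tr.node (nat_lit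 2944) (Tr.leaf (nat_lit 519908)) (Tr.leaf (nat_lit 519877))) (Tr.node (nat_lit 8768) (Tr.leaf (nat_lit 519814)) (Tr.node (nat_lit 8768) (Tr.leaf (nat_lit 2078880)) (Tr.leaf (nat_lit 507))))) (Tr.node (nat_lit 28544) (Tr.node (nat_lit 2176) (Tr.leaf (nat_lit 519617)) (Tr.node (nat_lit 5888) (Tr.leaf (nat_lit 519594)) (Tr.leaf (nat_lit 519531)))) (Tr.node (nat_lit 8768) (Tr.leaf (nat_lit 519311)) (Tr.node (nat_lit 14656) (Tr.leaf (nat_lit 8307480)) (Tr.leaf (nat_lit 519060))))))))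

noncomputable def jt122 : Tr :=
  (Tr.node (nat_lit 210688) (Tr.node (nat_lit 94080) (Tr.node (nat_lit 41536) (Tr.node (nat_lit 6464) (Tr.node (nat_lit 640) (Tr.leaf (nat_lit 32427)) (Tr.leaf (nat_lit 518841))) (Tr.node (nat_lit 11712) (Tr.leaf (nat_lit 518778)) (Tr.node (nat_lit 17536) (Tr.leaf (nat_lit 2074612)) (Tr.leaf (nat_lit 2073861))))) (Tr.node (nat_lit 34752) (Tr.node (nat_lit 20480) (Tr.leaf (nat_lit 518402)) (Tr.leaf (nat_lit 518183))) (Tr.node (nat_lit 3200) (Tr.leaf (nat_lit 129507)) (Tr.node (nat_lit 5824) (Tr.leaf (nat_lit 517996)) (Tr.leaf (nat_lit 517933)))))) (Tr.node (nat_lit 81664) (Tr.node (nat_lit 39552) (Tr.node (nat_lit 29184) (Tr.leaf (nat_lit 2071361)) (Tr.leaf (nat_lit 517528))) (Tr.node (nat_lit 17344) (Tr.leaf (nat_lit 517417)) (Tr.node (nat_lit 13120) (Tr.leaf (nat_lit 517232)) (Tr.leaf (nat_lit 517092))))) (Tr.node (nat_lit 14848) (Tr.node (nat_lit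 4352) (Tr.leaf (nat_lit 2067870)) (Tr.node (nat_lit 1472) (Tr.leaf (nat_lit 516920)) (Tr.leaf (nat_lit 516905)))) (Tr.node (nat_lit 8448) (Tr.leaf (nat_lit 129202)) (Tr.node (nat_lit 2944) (Tr.leaf (nat_lit 2066875)) (Tr.leaf (nat_lit 2066751))))))) (Tr.node (nat_lit 110528) (Tr.node (nat_lit 43648) (Tr.node (nat_lit 21824) (Tr.node (nat_lit 5824) (Tr.leaf (nat_lit 516594)) (Tr.leaf (nat_lit 516532))) (Tr.node (nat_lit 1472) (Tr.leaf (nat_lit 516361)) (Tr.node (nat_lit 17472) (Tr.leaf (nat_lit 516346)) (Tr.leaf (nat_lit 516159))))) (Tr.node (nat_lit 32000) (Tr.node (nat_lit 12800) (Tr.leaf (nat_lit 516128)) (Tr.node (nat_lit 8704) (Tr.leaf (nat_lit 503)) (Tr.leaf (nat_lit 128974)))) (Tr.node (nat_lit 6528) (Tr.leaf (nat_lit 515788)) (Tr.node (nat_lit 18176) (Tr.leaf (nat_lit 515718)) (Tr.leaf (nat_lit 515524)))))) (Tr.node (nat_lit 55104) (Tr.node (nat_lit 11584) (Tr.node (nat_lit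 10240) (Tr.leaf (nat_lit 515416)) (Tr.leaf (nat_lit 8051))) (Tr.node (nat_lit 23232) (Tr.leaf (nat_lit 515293)) (Tr.node (nat_lit 11584) (Tr.leaf (nat_lit 515045)) (Tr.leaf (nat_lit 514922))))) (Tr.node (nat_lit 14528) (Tr.node (nat_lit 5824) (Tr.leaf (nat_lit 514829)) (Tr.node (nat_lit 6656) (Tr.leaf (nat_lit 514768)) (Tr.leaf (nat_lit 32168)))) (Tr.node (nat_lit 11584) (Tr.leaf (nat_lit 514675)) (Tr.node (nat_lit 17408) (Tr.leaf (nat_lit 514552)) (Tr.leaf (nat_lit 2057469))))))))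

noncomputable def jt123 : Tr :=
  (Tr.node (nat_lit 264768) (Tr.node (nat_lit 102784) (Tr.node (nat_lit 34752) (Tr.node (nat_lit 14592) (Tr.node (nat_lit 8704) (Tr.leaf (nat_lit 514305)) (Tr.leaf (nat_lit 514213))) (Tr.node (nat_lit 2752) (Tr.leaf (nat_lit 128537)) (Tr.node (nat_lit 13056) (Tr.leaf (nat_lit 514121)) (Tr.leaf (nat_lit 513982))))) (Tr.node (nat_lit 13760) (Tr.node (nat_lit 11584) (Tr.leaf (nat_lit 513936)) (Tr.leaf (nat_lit 513813))) (Tr.node (nat_lit 3584) (Tr.leaf (nat_lit 513790)) (Tr.node (nat_lit 25792) (Tr.leaf (nat_lit 8220033)) (Tr.leaf (nat_lit 128369)))))) (Tr.node (nat_lit 79424) (Tr.node (nat_lit 21696) (Tr.node (nat_lit 12992) (Tr.leaf (nat_lit 513214)) (Tr.leaf (nat_lit 513076))) (Tr.node (nat_lit 14400) (Tr.leaf (nat_lit 512985)) (Tr.node (nat_lit 28928) (Tr.leaf (nat_lit 2051327)) (Tr.leaf (nat_lit 2050103))))) (Tr.node (nat_lit 54848) (Tr.node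 (nat_lit 2944) (Tr.leaf (nat_lit 512373)) (Tr.node (nat_lit 47616) (Tr.leaf (nat_lit 512342)) (Tr.leaf (nat_lit 511838)))) (Tr.node (nat_lit 1920) (Tr.leaf (nat_lit 2047172)) (Tr.node (nat_lit 8192) (Tr.leaf (nat_lit 127943)) (Tr.leaf (nat_lit 511686))))))) (Tr.node (nat_lit 54400) (Tr.node (nat_lit 24192) (Tr.node (nat_lit 9408) (Tr.node (nat_lit 6912) (Tr.leaf (nat_lit 1998)) (Tr.leaf (nat_lit 2045709))) (Tr.node (nat_lit 3264) (Tr.leaf (nat_lit 511400)) (Tr.node (nat_lit 8000) (Tr.leaf (nat_lit 511366)) (Tr.leaf (nat_lit 127820))))) (Tr.node (nat_lit 14400) (Tr.node (nat_lit 1408) (Tr.leaf (nat_lit 511244)) (Tr.node (nat_lit 4352) (Tr.leaf (nat_lit 511229)) (Tr.leaf (nat_lit 511183)))) (Tr.node (nat_lit 2880) (Tr.leaf (nat_lit 2044370)) (Tr.node (nat_lit 6848) (Tr.leaf (nat_lit 2044249)) (Tr.leaf (nat_lit 499)))))) (Tr.node (nat_lit 18752) (Tr.node (nat_lit 4352) (Tr.node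 (nat_lit 1472) (Tr.leaf (nat_lit 510925)) (Tr.leaf (nat_lit 510910))) (Tr.node (nat_lit 5760) (Tr.leaf (nat_lit 510879)) (Tr.node (nat_lit 4288) (Tr.leaf (nat_lit 2043276)) (Tr.leaf (nat_lit 510773))))) (Tr.node (nat_lit 8640) (Tr.node (nat_lit 2880) (Tr.leaf (nat_lit 510728)) (Tr.node (nat_lit 2240) (Tr.leaf (nat_lit 2042790)) (Tr.leaf (nat_lit 127668)))) (Tr.node (nat_lit 7168) (Tr.leaf (nat_lit 510636)) (Tr.node (nat_lit 1472) (Tr.leaf (nat_lit 510561)) (Tr.leaf (nat_lit 510545))))))))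

noncomputable def jt124 : Tr :=
  (Tr.node (nat_lit 196736) (Tr.node (nat_lit 120640) (Tr.node (nat_lit 66112) (Tr.node (nat_lit 22976) (Tr.node (nat_lit 17216) (Tr.leaf (nat_lit 510515)) (Tr.leaf (nat_lit 8165337))) (Tr.node (nat_lit 17280) (Tr.leaf (nat_lit 510272)) (Tr.node (nat_lit 11456) (Tr.leaf (nat_lit 2040364)) (Tr.leaf (nat_lit 509969))))) (Tr.node (nat_lit 34368) (Tr.node (nat_lit 33280) (Tr.leaf (nat_lit 509818)) (Tr.leaf (nat_lit 127367))) (Tr.node (nat_lit 4416) (Tr.leaf (nat_lit 31841)) (Tr.node (nat_lit 4288) (Tr.leaf (nat_lit 509410)) (Tr.leaf (nat_lit 8149843)))))) (Tr.node (nat_lit 48128) (Tr.node (nat_lit 35072) (Tr.node (nat_lit 22976) (Tr.leaf (nat_lit 509244)) (Tr.leaf (nat_lit 509002))) (Tr.node (nat_lit 832) (Tr.leaf (nat_lit 496)) (Tr.node (nat_lit 4288) (Tr.leaf (nat_lit 508867)) (Tr.leaf (nat_lit 508822))))) (Tr.node (nat_lit 7808) (Tr.node (nat_lit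 320) (Tr.leaf (nat_lit 127184)) (Tr.node (nat_lit 320) (Tr.leaf (nat_lit 496)) (Tr.leaf (nat_lit 508731)))) (Tr.node (nat_lit 5952) (Tr.leaf (nat_lit 508656)) (Tr.node (nat_lit 4096) (Tr.leaf (nat_lit 7946)) (Tr.leaf (nat_lit 508550))))))) (Tr.node (nat_lit 101504) (Tr.node (nat_lit 61504) (Tr.node (nat_lit 32832) (Tr.node (nat_lit 1344) (Tr.leaf (nat_lit 127111)) (Tr.leaf (nat_lit 508430))) (Tr.node (nat_lit 2880) (Tr.leaf (nat_lit 508099)) (Tr.node (nat_lit 22912) (Tr.leaf (nat_lit 508069)) (Tr.leaf (nat_lit 507829))))) (Tr.node (nat_lit 25728) (Tr.node (nat_lit 5696) (Tr.leaf (nat_lit 507799)) (Tr.node (nat_lit 17152) (Tr.leaf (nat_lit 507739)) (Tr.leaf (nat_lit 507559)))) (Tr.node (nat_lit 7744) (Tr.leaf (nat_lit 507529)) (Tr.node (nat_lit 832) (Tr.leaf (nat_lit 7928)) (Tr.leaf (nat_lit 8119030)))))) (Tr.node (nat_lit 45760) (Tr.node (nat_lit 17152) (Tr.node (nat_lit 8576)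 (Tr.leaf (nat_lit 507379)) (Tr.leaf (nat_lit 507289))) (Tr.node (nat_lit 4288) (Tr.leaf (nat_lit 2028798)) (Tr.node (nat_lit 12864) (Tr.leaf (nat_lit 507154)) (Tr.leaf (nat_lit 507020))))) (Tr.node (nat_lit 17152) (Tr.node (nat_lit 11648) (Tr.leaf (nat_lit 506900)) (Tr.node (nat_lit 2624) (Tr.leaf (nat_lit 1979)) (Tr.leaf (nat_lit 506750)))) (Tr.node (nat_lit 3200) (Tr.leaf (nat_lit 2026884)) (Tr.node (nat_lit 13888) (Tr.leaf (nat_lit 506687)) (Tr.leaf (nat_lit 506541))))))))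

noncomputable def jt125 : Tr :=
  (Tr.node (nat_lit 129664) (Tr.node (nat_lit 55616) (Tr.node (nat_lit 27072) (Tr.node (nat_lit 9984) (Tr.node (nat_lit 4288) (Tr.leaf (nat_lit 506407)) (Tr.leaf (nat_lit 506362))) (Tr.node (nat_lit 2880) (Tr.leaf (nat_lit 506302)) (Tr.node (nat_lit 8512) (Tr.leaf (nat_lit 506273)) (Tr.leaf (nat_lit 506183))))) (Tr.node (nat_lit 11456) (Tr.node (nat_lit 1920) (Tr.leaf (nat_lit 506123)) (Tr.leaf (nat_lit 126526))) (Tr.node (nat_lit 5696) (Tr.leaf (nat_lit 2024018)) (Tr.node (nat_lit 9280) (Tr.leaf (nat_lit 505945)) (Tr.leaf (nat_lit 505848)))))) (Tr.node (nat_lit 35328) (Tr.node (nat_lit 8576) (Tr.node (nat_lit 5696) (Tr.leaf (nat_lit 505825)) (Tr.leaf (nat_lit 2023065))) (Tr.node (nat_lit 14208) (Tr.leaf (nat_lit 505736)) (Tr.node (nat_lit 11392) (Tr.leaf (nat_lit 505587)) (Tr.leaf (nat_lit 505468))))) (Tr.node (nat_lit 24512) (Tr.node (nat_lit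 6400) (Tr.leaf (nat_lit 493)) (Tr.node (nat_lit 9536) (Tr.leaf (nat_lit 493)) (Tr.leaf (nat_lit 8084644)))) (Tr.node (nat_lit 5696) (Tr.leaf (nat_lit 505201)) (Tr.node (nat_lit 2816) (Tr.leaf (nat_lit 505141)) (Tr.leaf (nat_lit 505111))))))) (Tr.node (nat_lit 79616) (Tr.node (nat_lit 28480) (Tr.node (nat_lit 11392) (Tr.node (nat_lit 10624) (Tr.leaf (nat_lit 2020210)) (Tr.leaf (nat_lit 126235))) (Tr.node (nat_lit 5696) (Tr.leaf (nat_lit 504933)) (Tr.node (nat_lit 2816) (Tr.leaf (nat_lit 504874)) (Tr.leaf (nat_lit 504844))))) (Tr.node (nat_lit 27008) (Tr.node (nat_lit 5696) (Tr.leaf (nat_lit 504755)) (Tr.node (nat_lit 11328) (Tr.leaf (nat_lit 2018786)) (Tr.leaf (nat_lit 32292987)))) (Tr.node (nat_lit 10624) (Tr.leaf (nat_lit 504474)) (Tr.node (nat_lit 11136) (Tr.leaf (nat_lit 504363)) (Tr.leaf (nat_lit 126061)))))) (Tr.node (nat_lit 31040) (Tr.node (nat_lit 5696) (Tr.node (nat_lit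 4288) (Tr.leaf (nat_lit 504222)) (Tr.leaf (nat_lit 504178))) (Tr.node (nat_lit 17088) (Tr.leaf (nat_lit 504163)) (Tr.node (nat_lit 2816) (Tr.leaf (nat_lit 503985)) (Tr.leaf (nat_lit 503956))))) (Tr.node (nat_lit 25792) (Tr.node (nat_lit 8768) (Tr.leaf (nat_lit 7873)) (Tr.node (nat_lit 2816) (Tr.leaf (nat_lit 2015233)) (Tr.leaf (nat_lit 503778)))) (Tr.node (nat_lit 17024) (Tr.leaf (nat_lit 8058099)) (Tr.node (nat_lit 15360) (Tr.leaf (nat_lit 503454)) (Tr.leaf (nat_lit 491))))))))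

noncomputable def jt126 : Tr :=
  (Tr.node (nat_lit 144448) (Tr.node (nat_lit 77696) (Tr.node (nat_lit 42560) (Tr.node (nat_lit 17024) (Tr.node (nat_lit 1728) (Tr.leaf (nat_lit 503247)) (Tr.leaf (nat_lit 125807))) (Tr.node (nat_lit 4224) (Tr.leaf (nat_lit 503070)) (Tr.node (nat_lit 12800) (Tr.leaf (nat_lit 503026)) (Tr.leaf (nat_lit 502894))))) (Tr.node (nat_lit 16960) (Tr.node (nat_lit 16512) (Tr.leaf (nat_lit 502805)) (Tr.leaf (nat_lit 502633))) (Tr.node (nat_lit 5696) (Tr.leaf (nat_lit 502629)) (Tr.node (nat_lit 8448) (Tr.leaf (nat_lit 502570)) (Tr.leaf (nat_lit 502482)))))) (Tr.node (nat_lit 24320) (Tr.node (nat_lit 12992) (Tr.node (nat_lit 4480) (Tr.leaf (nat_lit 125610)) (Tr.leaf (nat_lit 502394))) (Tr.node (nat_lit 2816) (Tr.leaf (nat_lit 502305)) (Tr.node (nat_lit 5696) (Tr.leaf (nat_lit 502276)) (Tr.leaf (nat_lit 2008871))))) (Tr.node (nat_lit 21184) (Tr.node (nat_lit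 3520) (Tr.leaf (nat_lit 502188)) (Tr.node (nat_lit 4928) (Tr.leaf (nat_lit 502151)) (Tr.leaf (nat_lit 2008401)))) (Tr.node (nat_lit 4288) (Tr.leaf (nat_lit 501968)) (Tr.node (nat_lit 14144) (Tr.leaf (nat_lit 501924)) (Tr.leaf (nat_lit 501777))))))) (Tr.node (nat_lit 98880) (Tr.node (nat_lit 39552) (Tr.node (nat_lit 21184) (Tr.node (nat_lit 5632) (Tr.leaf (nat_lit 8027976)) (Tr.leaf (nat_lit 501689))) (Tr.node (nat_lit 12736) (Tr.leaf (nat_lit 501528)) (Tr.node (nat_lit 1408) (Tr.leaf (nat_lit 501397)) (Tr.leaf (nat_lit 501382))))) (Tr.node (nat_lit 38144) (Tr.node (nat_lit 2816) (Tr.leaf (nat_lit 501338)) (Tr.node (nat_lit 22592) (Tr.leaf (nat_lit 501309)) (Tr.leaf (nat_lit 501075)))) (Tr.node (nat_lit 12672) (Tr.leaf (nat_lit 500943)) (Tr.node (nat_lit 4224) (Tr.leaf (nat_lit 32051994)) (Tr.leaf (nat_lit 500768)))))) (Tr.node (nat_lit 59200) (Tr.node (nat_lit 8448) (Tr.node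 (nat_lit 2816) (Tr.leaf (nat_lit 500724)) (Tr.leaf (nat_lit 500695))) (Tr.node (nat_lit 36672) (Tr.leaf (nat_lit 500637)) (Tr.node (nat_lit 8448) (Tr.leaf (nat_lit 500258)) (Tr.leaf (nat_lit 500170))))) (Tr.node (nat_lit 28160) (Tr.node (nat_lit 12544) (Tr.leaf (nat_lit 2000450)) (Tr.node (nat_lit 12800) (Tr.leaf (nat_lit 488)) (Tr.leaf (nat_lit 499850)))) (Tr.node (nat_lit 4224) (Tr.leaf (nat_lit 499821)) (Tr.node (nat_lit 1408) (Tr.leaf (nat_lit 1999112)) (Tr.leaf (nat_lit 499763))))))))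

noncomputable def jt127 : Tr :=
  (Tr.node (nat_lit 140608) (Tr.node (nat_lit 61440) (Tr.node (nat_lit 20352) (Tr.node (nat_lit 8448) (Tr.node (nat_lit 1408) (Tr.leaf (nat_lit 1998588)) (Tr.leaf (nat_lit 499632))) (Tr.node (nat_lit 1408) (Tr.leaf (nat_lit 499560)) (Tr.node (nat_lit 3264) (Tr.leaf (nat_lit 499545)) (Tr.leaf (nat_lit 31219))))) (Tr.node (nat_lit 13440) (Tr.node (nat_lit 2176) (Tr.leaf (nat_lit 124859)) (Tr.leaf (nat_lit 7990636))) (Tr.node (nat_lit 5632) (Tr.leaf (nat_lit 1997194)) (Tr.node (nat_lit 11264) (Tr.leaf (nat_lit 499240)) (Tr.leaf (nat_lit 499124)))))) (Tr.node (nat_lit 27200) (Tr.node (nat_lit 6080) (Tr.node (nat_lit 3264) (Tr.leaf (nat_lit 7797)) (Tr.leaf (nat_lit 498979))) (Tr.node (nat_lit 7744) (Tr.leaf (nat_lit 7983210)) (Tr.node (nat_lit 9152) (Tr.leaf (nat_lit 498870)) (Tr.leaf (nat_lit 498776))))) (Tr.node (nat_lit 29504) (Tr.node (nat_lit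 9792) (Tr.leaf (nat_lit 498733)) (Tr.node (nat_lit 8448) (Tr.leaf (nat_lit 498632)) (Tr.leaf (nat_lit 498545)))) (Tr.node (nat_lit 9792) (Tr.leaf (nat_lit 498429)) (Tr.node (nat_lit 7040) (Tr.leaf (nat_lit 498328)) (Tr.leaf (nat_lit 1993024))))))) (Tr.node (nat_lit 134912) (Tr.node (nat_lit 92544) (Tr.node (nat_lit 66304) (Tr.node (nat_lit 64064) (Tr.leaf (nat_lit 498198)) (Tr.leaf (nat_lit 124384))) (Tr.node (nat_lit 1024) (Tr.leaf (nat_lit 497516)) (Tr.node (nat_lit 16832) (Tr.leaf (nat_lit 497505)) (Tr.leaf (nat_lit 1989331))))) (Tr.node (nat_lit 17536) (Tr.node (nat_lit 2880) (Tr.leaf (nat_lit 497246)) (Tr.node (nat_lit 5504) (Tr.leaf (nat_lit 485)) (Tr.leaf (nat_lit 497160)))) (Tr.node (nat_lit 11456) (Tr.leaf (nat_lit 497066)) (Tr.node (nat_lit 13056) (Tr.leaf (nat_lit 7764)) (Tr.leaf (nat_lit 1987260)))))) (Tr.node (nat_lit 33216) (Tr.node (nat_lit 19264) (Tr.node (nat_lit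 13440) (Tr.leaf (nat_lit 7762)) (Tr.leaf (nat_lit 124168))) (Tr.node (nat_lit 1408) (Tr.leaf (nat_lit 496614)) (Tr.node (nat_lit 6976) (Tr.leaf (nat_lit 496599)) (Tr.leaf (nat_lit 1986112))))) (Tr.node (nat_lit 16832) (Tr.node (nat_lit 11200) (Tr.leaf (nat_lit 496470)) (Tr.node (nat_lit 4224) (Tr.leaf (nat_lit 496355)) (Tr.leaf (nat_lit 496312)))) (Tr.node (nat_lit 7744) (Tr.leaf (nat_lit 496298)) (Tr.node (nat_lit 4800) (Tr.leaf (nat_lit 124054)) (Tr.leaf (nat_lit 496169))))))))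

noncomputable def jt128 : Tr :=
  (Tr.node (nat_lit 144384) (Tr.node (nat_lit 67648) (Tr.node (nat_lit 22912) (Tr.node (nat_lit 8704) (Tr.node (nat_lit 1984) (Tr.leaf (nat_lit 484)) (Tr.leaf (nat_lit 496126))) (Tr.node (nat_lit 4480) (Tr.leaf (nat_lit 124014)) (Tr.node (nat_lit 5568) (Tr.leaf (nat_lit 496011)) (Tr.leaf (nat_lit 1983818))))) (Tr.node (nat_lit 23744) (Tr.node (nat_lit 2816) (Tr.leaf (nat_lit 495911)) (Tr.node (nat_lit 18176) (Tr.leaf (nat_lit 495883)) (Tr.leaf (nat_lit 495697)))) (Tr.node (nat_lit 11136) (Tr.leaf (nat_lit 495668)) (Tr.node (nat_lit 5632) (Tr.leaf (nat_lit 123888)) (Tr.leaf (nat_lit 1981987)))))) (Tr.node (nat_lit 46784) (Tr.node (nat_lit 26496) (Tr.node (nat_lit 18112) (Tr.leaf (nat_lit 495454)) (Tr.leaf (nat_lit 7924293))) (Tr.node (nat_lit 2816) (Tr.leaf (nat_lit 495182)) (Tr.node (nat_lit 13952) (Tr.leaf (nat_lit 495154)) (Tr.leaf (nat_lit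 495011))))) (Tr.node (nat_lit 16000) (Tr.node (nat_lit 4800) (Tr.leaf (nat_lit 483)) (Tr.node (nat_lit 2432) (Tr.leaf (nat_lit 494925)) (Tr.leaf (nat_lit 30931)))) (Tr.node (nat_lit 9152) (Tr.leaf (nat_lit 7916990)) (Tr.node (nat_lit 576) (Tr.leaf (nat_lit 123679)) (Tr.leaf (nat_lit 494712))))))) (Tr.node (nat_lit 86336) (Tr.node (nat_lit 44544) (Tr.node (nat_lit 8320) (Tr.node (nat_lit 2752) (Tr.leaf (nat_lit 494669)) (Tr.leaf (nat_lit 494640))) (Tr.node (nat_lit 27136) (Tr.leaf (nat_lit 1978335)) (Tr.node (nat_lit 6336) (Tr.leaf (nat_lit 1930)) (Tr.leaf (nat_lit 1976969))))) (Tr.node (nat_lit 18112) (Tr.node (nat_lit 8384) (Tr.leaf (nat_lit 494214)) (Tr.node (nat_lit 3200) (Tr.leaf (nat_lit 1976515)) (Tr.leaf (nat_lit 123523)))) (Tr.node (nat_lit 12544) (Tr.leaf (nat_lit 494029)) (Tr.node (nat_lit 4864) (Tr.leaf (nat_lit 1975605)) (Tr.leaf (nat_lit 493851)))))) (Tr.node (nat_lit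 31296) (Tr.node (nat_lit 23808) (Tr.node (nat_lit 17408) (Tr.leaf (nat_lit 493787)) (Tr.leaf (nat_lit 7712))) (Tr.node (nat_lit 1216) (Tr.leaf (nat_lit 7711)) (Tr.node (nat_lit 5568) (Tr.leaf (nat_lit 493532)) (Tr.leaf (nat_lit 493475))))) (Tr.node (nat_lit 14592) (Tr.node (nat_lit 2048) (Tr.leaf (nat_lit 493468)) (Tr.node (nat_lit 5568) (Tr.leaf (nat_lit 126322567)) (Tr.leaf (nat_lit 493390)))) (Tr.node (nat_lit 9728) (Tr.leaf (nat_lit 493320)) (Tr.node (nat_lit 11072) (Tr.leaf (nat_lit 1972883)) (Tr.leaf (nat_lit 1972430))))))))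

noncomputable def jt129 : Tr :=
  (Tr.node (nat_lit 162176) (Tr.node (nat_lit 94400) (Tr.node (nat_lit 41664) (Tr.node (nat_lit 16704) (Tr.node (nat_lit 2816) (Tr.leaf (nat_lit 493051)) (Tr.leaf (nat_lit 493022))) (Tr.node (nat_lit 16640) (Tr.leaf (nat_lit 492881)) (Tr.node (nat_lit 2752) (Tr.leaf (nat_lit 492711)) (Tr.leaf (nat_lit 492683))))) (Tr.node (nat_lit 12224) (Tr.node (nat_lit 8320) (Tr.leaf (nat_lit 492626)) (Tr.leaf (nat_lit 7880673))) (Tr.node (nat_lit 7232) (Tr.leaf (nat_lit 123125)) (Tr.node (nat_lit 22208) (Tr.leaf (nat_lit 1969716)) (Tr.leaf (nat_lit 492203)))))) (Tr.node (nat_lit 24960) (Tr.node (nat_lit 8320) (Tr.node (nat_lit 128) (Tr.leaf (nat_lit 1968362)) (Tr.leaf (nat_lit 123022))) (Tr.node (nat_lit 9728) (Tr.leaf (nat_lit 492006)) (Tr.node (nat_lit 4160) (Tr.leaf (nat_lit 491907)) (Tr.leaf (nat_lit 1967460))))) (Tr.node (nat_lit 13824) (Tr.node (nat_lit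 9664) (Tr.leaf (nat_lit 491837)) (Tr.node (nat_lit 704) (Tr.leaf (nat_lit 491738)) (Tr.leaf (nat_lit 491731)))) (Tr.node (nat_lit 19520) (Tr.leaf (nat_lit 491696)) (Tr.node (nat_lit 5440) (Tr.leaf (nat_lit 7679)) (Tr.leaf (nat_lit 491443))))))) (Tr.node (nat_lit 78592) (Tr.node (nat_lit 21632) (Tr.node (nat_lit 12608) (Tr.node (nat_lit 11200) (Tr.leaf (nat_lit 122850)) (Tr.leaf (nat_lit 491288))) (Tr.node (nat_lit 2752) (Tr.leaf (nat_lit 491274)) (Tr.node (nat_lit 5504) (Tr.leaf (nat_lit 491246)) (Tr.leaf (nat_lit 1964760))))) (Tr.node (nat_lit 32448) (Tr.node (nat_lit 10304) (Tr.leaf (nat_lit 122795)) (Tr.node (nat_lit 16640) (Tr.leaf (nat_lit 491077)) (Tr.leaf (nat_lit 490909)))) (Tr.node (nat_lit 2752) (Tr.leaf (nat_lit 7853654)) (Tr.node (nat_lit 16640) (Tr.leaf (nat_lit 490825)) (Tr.leaf (nat_lit 490657)))))) (Tr.node (nat_lit 52864) (Tr.node (nat_lit 16960) (Tr.node (nat_lit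 8704) (Tr.leaf (nat_lit 1916)) (Tr.leaf (nat_lit 1962068))) (Tr.node (nat_lit 8320) (Tr.leaf (nat_lit 490433)) (Tr.node (nat_lit 19328) (Tr.leaf (nat_lit 490349)) (Tr.leaf (nat_lit 490153))))) (Tr.node (nat_lit 24896) (Tr.node (nat_lit 5568) (Tr.leaf (nat_lit 1960277)) (Tr.node (nat_lit 11008) (Tr.leaf (nat_lit 490013)) (Tr.leaf (nat_lit 489901)))) (Tr.node (nat_lit 1344) (Tr.leaf (nat_lit 489817)) (Tr.node (nat_lit 23488) (Tr.leaf (nat_lit 489803)) (Tr.leaf (nat_lit 489566))))))))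

noncomputable def jt130 : Tr :=
  (Tr.node (nat_lit 145216) (Tr.node (nat_lit 41344) (Tr.node (nat_lit 26432) (Tr.node (nat_lit 9664) (Tr.node (nat_lit 8256) (Tr.leaf (nat_lit 489482)) (Tr.leaf (nat_lit 1957596))) (Tr.node (nat_lit 4160) (Tr.leaf (nat_lit 489385)) (Tr.node (nat_lit 3904) (Tr.leaf (nat_lit 489343)) (Tr.leaf (nat_lit 477))))) (Tr.node (nat_lit 4352) (Tr.node (nat_lit 3904) (Tr.leaf (nat_lit 122303)) (Tr.leaf (nat_lit 1956704))) (Tr.node (nat_lit 6464) (Tr.leaf (nat_lit 122292)) (Tr.node (nat_lit 1344) (Tr.leaf (nat_lit 489106)) (Tr.leaf (nat_lit 489092)))))) (Tr.node (nat_lit 71616) (Tr.node (nat_lit 40640) (Tr.node (nat_lit 14912) (Tr.leaf (nat_lit 489064)) (Tr.leaf (nat_lit 477))) (Tr.node (nat_lit 8960) (Tr.leaf (nat_lit 488654)) (Tr.node (nat_lit 16512) (Tr.leaf (nat_lit 488564)) (Tr.leaf (nat_lit 488397))))) (Tr.node (nat_lit 11008) (Tr.node (nat_lit 2752)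 (Tr.leaf (nat_lit 488341)) (Tr.node (nat_lit 4928) (Tr.leaf (nat_lit 488314)) (Tr.leaf (nat_lit 7629)))) (Tr.node (nat_lit 10048) (Tr.leaf (nat_lit 488230)) (Tr.node (nat_lit 6464) (Tr.leaf (nat_lit 122032)) (Tr.leaf (nat_lit 31236125))))))) (Tr.node (nat_lit 72448) (Tr.node (nat_lit 28288) (Tr.node (nat_lit 9024) (Tr.node (nat_lit 768) (Tr.leaf (nat_lit 122004)) (Tr.leaf (nat_lit 488009))) (Tr.node (nat_lit 8256) (Tr.leaf (nat_lit 487925)) (Tr.node (nat_lit 3776) (Tr.leaf (nat_lit 1951370)) (Tr.leaf (nat_lit 487804))))) (Tr.node (nat_lit 28800) (Tr.node (nat_lit 8192) (Tr.leaf (nat_lit 1950927)) (Tr.node (nat_lit 8256) (Tr.leaf (nat_lit 487648)) (Tr.leaf (nat_lit 487565)))) (Tr.node (nat_lit 9664) (Tr.leaf (nat_lit 487441)) (Tr.node (nat_lit 2624) (Tr.leaf (nat_lit 487344)) (Tr.leaf (nat_lit 121829)))))) (Tr.node (nat_lit 13504) (Tr.node (nat_lit 8704) (Tr.node (nat_lit 2496)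 (Tr.leaf (nat_lit 1903)) (Tr.leaf (nat_lit 487261))) (Tr.node (nat_lit 2048) (Tr.leaf (nat_lit 487199)) (Tr.node (nat_lit 960) (Tr.leaf (nat_lit 7794858)) (Tr.leaf (nat_lit 121792))))) (Tr.node (nat_lit 21952) (Tr.node (nat_lit 8256) (Tr.leaf (nat_lit 487151)) (Tr.node (nat_lit 4096) (Tr.leaf (nat_lit 487068)) (Tr.leaf (nat_lit 487026)))) (Tr.node (nat_lit 19200) (Tr.leaf (nat_lit 486930)) (Tr.node (nat_lit 22656) (Tr.leaf (nat_lit 1946948)) (Tr.leaf (nat_lit 486509))))))))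

noncomputable def jt131 : Tr :=
  (Tr.node (nat_lit 160064) (Tr.node (nat_lit 82560) (Tr.node (nat_lit 46144) (Tr.node (nat_lit 25472) (Tr.node (nat_lit 10944) (Tr.leaf (nat_lit 486392)) (Tr.leaf (nat_lit 486282))) (Tr.node (nat_lit 6016) (Tr.leaf (nat_lit 1898)) (Tr.node (nat_lit 10368) (Tr.leaf (nat_lit 1944303)) (Tr.leaf (nat_lit 121492))))) (Tr.node (nat_lit 18240) (Tr.node (nat_lit 7232) (Tr.leaf (nat_lit 121482)) (Tr.leaf (nat_lit 7773696))) (Tr.node (nat_lit 5440) (Tr.leaf (nat_lit 485746)) (Tr.node (nat_lit 4096) (Tr.leaf (nat_lit 485691)) (Tr.leaf (nat_lit 485650)))))) (Tr.node (nat_lit 28992) (Tr.node (nat_lit 12224) (Tr.node (nat_lit 3712) (Tr.leaf (nat_lit 7586)) (Tr.leaf (nat_lit 485526))) (Tr.node (nat_lit 2432) (Tr.leaf (nat_lit 1896)) (Tr.node (nat_lit 11456) (Tr.leaf (nat_lit 7766667)) (Tr.leaf (nat_lit 121325))))) (Tr.node (nat_lit 23936) (Tr.node (nat_lit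 2048) (Tr.leaf (nat_lit 485272)) (Tr.node (nat_lit 8448) (Tr.leaf (nat_lit 485252)) (Tr.leaf (nat_lit 121291)))) (Tr.node (nat_lit 6848) (Tr.leaf (nat_lit 1940132)) (Tr.node (nat_lit 4096) (Tr.leaf (nat_lit 484964)) (Tr.leaf (nat_lit 484923))))))) (Tr.node (nat_lit 90048) (Tr.node (nat_lit 32768) (Tr.node (nat_lit 16384) (Tr.node (nat_lit 2752) (Tr.leaf (nat_lit 484786)) (Tr.leaf (nat_lit 1939037))) (Tr.node (nat_lit 8192) (Tr.leaf (nat_lit 484622)) (Tr.node (nat_lit 2240) (Tr.leaf (nat_lit 7752648)) (Tr.leaf (nat_lit 7570))))) (Tr.node (nat_lit 40960) (Tr.node (nat_lit 2752) (Tr.leaf (nat_lit 484458)) (Tr.node (nat_lit 32768) (Tr.leaf (nat_lit 1937724)) (Tr.leaf (nat_lit 1936414)))) (Tr.node (nat_lit 256) (Tr.leaf (nat_lit 484049)) (Tr.node (nat_lit 10624) (Tr.leaf (nat_lit 121011)) (Tr.leaf (nat_lit 1935759)))))) (Tr.node (nat_lit 32768) (Tr.node (nat_lit 16384) (Tr.node (nat_lit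 8192) (Tr.leaf (nat_lit 1935541)) (Tr.leaf (nat_lit 483803))) (Tr.node (nat_lit 2752) (Tr.leaf (nat_lit 483721)) (Tr.node (nat_lit 8128) (Tr.leaf (nat_lit 483694)) (Tr.leaf (nat_lit 483613))))) (Tr.node (nat_lit 25664) (Tr.node (nat_lit 16320) (Tr.leaf (nat_lit 483558)) (Tr.node (nat_lit 2112) (Tr.leaf (nat_lit 483395)) (Tr.leaf (nat_lit 7552)))) (Tr.node (nat_lit 17920) (Tr.leaf (nat_lit 483301)) (Tr.node (nat_lit 5440) (Tr.leaf (nat_lit 1932493)) (Tr.leaf (nat_lit 483069))))))))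

noncomputable def jt132 : Tr :=
  (Tr.node (nat_lit 173824) (Tr.node (nat_lit 81536) (Tr.node (nat_lit 43520) (Tr.node (nat_lit 18496) (Tr.node (nat_lit 6784) (Tr.leaf (nat_lit 482906)) (Tr.leaf (nat_lit 482838))) (Tr.node (nat_lit 5952) (Tr.leaf (nat_lit 30170)) (Tr.node (nat_lit 2752) (Tr.leaf (nat_lit 482661)) (Tr.leaf (nat_lit 482634))))) (Tr.node (nat_lit 6080) (Tr.node (nat_lit 5440) (Tr.leaf (nat_lit 482472)) (Tr.leaf (nat_lit 482417))) (Tr.node (nat_lit 23808) (Tr.leaf (nat_lit 482411)) (Tr.node (nat_lit 2688) (Tr.leaf (nat_lit 482174)) (Tr.leaf (nat_lit 1928588)))))) (Tr.node (nat_lit 38144) (Tr.node (nat_lit 11584) (Tr.node (nat_lit 5248) (Tr.leaf (nat_lit 482093)) (Tr.leaf (nat_lit 120510))) (Tr.node (nat_lit 15616) (Tr.leaf (nat_lit 120494)) (Tr.node (nat_lit 5440) (Tr.leaf (nat_lit 481822)) (Tr.leaf (nat_lit 481768))))) (Tr.node (nat_lit 35200) (Tr.node (nat_lit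 5312) (Tr.leaf (nat_lit 120428)) (Tr.node (nat_lit 21760) (Tr.leaf (nat_lit 481660)) (Tr.leaf (nat_lit 481444)))) (Tr.node (nat_lit 6784) (Tr.leaf (nat_lit 481363)) (Tr.node (nat_lit 1344) (Tr.leaf (nat_lit 481296)) (Tr.leaf (nat_lit 1925131))))))) (Tr.node (nat_lit 120512) (Tr.node (nat_lit 62336) (Tr.node (nat_lit 21696) (Tr.node (nat_lit 5440) (Tr.leaf (nat_lit 481174)) (Tr.leaf (nat_lit 481121))) (Tr.node (nat_lit 27136) (Tr.leaf (nat_lit 1923837)) (Tr.node (nat_lit 5376) (Tr.leaf (nat_lit 480690)) (Tr.leaf (nat_lit 1922545))))) (Tr.node (nat_lit 37504) (Tr.node (nat_lit 8128) (Tr.leaf (nat_lit 1922223)) (Tr.node (nat_lit 27072) (Tr.leaf (nat_lit 480475)) (Tr.leaf (nat_lit 7683304)))) (Tr.node (nat_lit 3136) (Tr.leaf (nat_lit 1875)) (Tr.node (nat_lit 10816) (Tr.leaf (nat_lit 480152)) (Tr.leaf (nat_lit 480045)))))) (Tr.node (nat_lit 35200) (Tr.node (nat_lit 25728) (Tr.node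 (nat_lit 9472) (Tr.leaf (nat_lit 119994)) (Tr.leaf (nat_lit 1919538))) (Tr.node (nat_lit 4032) (Tr.leaf (nat_lit 479723)) (Tr.node (nat_lit 1344) (Tr.leaf (nat_lit 479683)) (Tr.leaf (nat_lit 1918680))))) (Tr.node (nat_lit 28352) (Tr.node (nat_lit 1728) (Tr.leaf (nat_lit 479630)) (Tr.node (nat_lit 18496) (Tr.leaf (nat_lit 119903)) (Tr.leaf (nat_lit 479429)))) (Tr.node (nat_lit 4736) (Tr.leaf (nat_lit 122713351)) (Tr.node (nat_lit 6080) (Tr.leaf (nat_lit 479302)) (Tr.leaf (nat_lit 479242))))))))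

noncomputable def jt133 : Tr :=
  (Tr.node (nat_lit 151040) (Tr.node (nat_lit 94464) (Tr.node (nat_lit 48640) (Tr.node (nat_lit 13504) (Tr.node (nat_lit 5632) (Tr.leaf (nat_lit 479161)) (Tr.leaf (nat_lit 29944))) (Tr.node (nat_lit 8128) (Tr.leaf (nat_lit 479028)) (Tr.node (nat_lit 16192) (Tr.leaf (nat_lit 478948)) (Tr.leaf (nat_lit 478787))))) (Tr.node (nat_lit 24256) (Tr.node (nat_lit 24000) (Tr.leaf (nat_lit 478681)) (Tr.leaf (nat_lit 119610))) (Tr.node (nat_lit 6080) (Tr.leaf (nat_lit 478441)) (Tr.node (nat_lit 10112) (Tr.leaf (nat_lit 478381)) (Tr.leaf (nat_lit 1913125)))))) (Tr.node (nat_lit 26944) (Tr.node (nat_lit 10752) (Tr.node (nat_lit 2688) (Tr.leaf (nat_lit 478228)) (Tr.leaf (nat_lit 478201))) (Tr.node (nat_lit 5376) (Tr.leaf (nat_lit 478121)) (Tr.node (nat_lit 2688) (Tr.leaf (nat_lit 1912273)) (Tr.leaf (nat_lit 478041))))) (Tr.node (nat_lit 12800) (Tr.node (nat_lit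 1344) (Tr.leaf (nat_lit 477962)) (Tr.node (nat_lit 6720) (Tr.leaf (nat_lit 477948)) (Tr.leaf (nat_lit 477882)))) (Tr.node (nat_lit 3328) (Tr.leaf (nat_lit 7466)) (Tr.node (nat_lit 5376) (Tr.leaf (nat_lit 477802)) (Tr.leaf (nat_lit 1910997))))))) (Tr.node (nat_lit 99456) (Tr.node (nat_lit 32256) (Tr.node (nat_lit 9984) (Tr.node (nat_lit 2688) (Tr.leaf (nat_lit 477669)) (Tr.leaf (nat_lit 7642290))) (Tr.node (nat_lit 11712) (Tr.leaf (nat_lit 119392)) (Tr.node (nat_lit 2496) (Tr.leaf (nat_lit 7460)) (Tr.leaf (nat_lit 1909723))))) (Tr.node (nat_lit 40320) (Tr.node (nat_lit 10112) (Tr.leaf (nat_lit 477351)) (Tr.node (nat_lit 16768) (Tr.leaf (nat_lit 477251)) (Tr.leaf (nat_lit 477086)))) (Tr.node (nat_lit 2688) (Tr.leaf (nat_lit 476953)) (Tr.node (nat_lit 4032) (Tr.leaf (nat_lit 476927)) (Tr.leaf (nat_lit 476887)))))) (Tr.node (nat_lit 32256) (Tr.node (nat_lit 21504) (Tr.node (nat_lit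 19712) (Tr.leaf (nat_lit 1906755)) (Tr.leaf (nat_lit 119123))) (Tr.node (nat_lit 2688) (Tr.leaf (nat_lit 476477)) (Tr.node (nat_lit 5376) (Tr.leaf (nat_lit 476450)) (Tr.leaf (nat_lit 476398))))) (Tr.node (nat_lit 33216) (Tr.node (nat_lit 5376) (Tr.leaf (nat_lit 7621947)) (Tr.node (nat_lit 10688) (Tr.leaf (nat_lit 476318)) (Tr.leaf (nat_lit 476213)))) (Tr.node (nat_lit 4352) (Tr.leaf (nat_lit 464)) (Tr.node (nat_lit 10688) (Tr.leaf (nat_lit 476002)) (Tr.leaf (nat_lit 1903586))))))))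

noncomputable def jt134 : Tr :=
  (Tr.node (nat_lit 146880) (Tr.node (nat_lit 58624) (Tr.node (nat_lit 29120) (Tr.node (nat_lit 10368) (Tr.node (nat_lit 2304) (Tr.leaf (nat_lit 29741)) (Tr.leaf (nat_lit 475843))) (Tr.node (nat_lit 2688) (Tr.leaf (nat_lit 475764)) (Tr.node (nat_lit 1344) (Tr.leaf (nat_lit 1902954)) (Tr.leaf (nat_lit 475725))))) (Tr.node (nat_lit 13376) (Tr.node (nat_lit 5376) (Tr.leaf (nat_lit 475580)) (Tr.leaf (nat_lit 1902111))) (Tr.node (nat_lit 2688) (Tr.leaf (nat_lit 475448)) (Tr.node (nat_lit 2048) (Tr.leaf (nat_lit 475422)) (Tr.leaf (nat_lit 475402)))))) (Tr.node (nat_lit 44160) (Tr.node (nat_lit 8000) (Tr.node (nat_lit 2624) (Tr.leaf (nat_lit 475291)) (Tr.leaf (nat_lit 475264))) (Tr.node (nat_lit 10752) (Tr.leaf (nat_lit 475212)) (Tr.node (nat_lit 8000) (Tr.leaf (nat_lit 7601712)) (Tr.leaf (nat_lit 475028))))) (Tr.node (nat_lit 12032) (Tr.node (nat_lit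 6656) (Tr.leaf (nat_lit 474857)) (Tr.node (nat_lit 5056) (Tr.leaf (nat_lit 474791)) (Tr.leaf (nat_lit 29671)))) (Tr.node (nat_lit 16064) (Tr.leaf (nat_lit 474739)) (Tr.node (nat_lit 10688) (Tr.leaf (nat_lit 1898328)) (Tr.leaf (nat_lit 1897908))))))) (Tr.node (nat_lit 104192) (Tr.node (nat_lit 24704) (Tr.node (nat_lit 8064) (Tr.node (nat_lit 2816) (Tr.leaf (nat_lit 474424)) (Tr.leaf (nat_lit 118599))) (Tr.node (nat_lit 2688) (Tr.leaf (nat_lit 474346)) (Tr.node (nat_lit 5312) (Tr.leaf (nat_lit 474319)) (Tr.leaf (nat_lit 7588281))))) (Tr.node (nat_lit 39424) (Tr.node (nat_lit 12224) (Tr.leaf (nat_lit 118545)) (Tr.node (nat_lit 13888) (Tr.leaf (nat_lit 29628)) (Tr.leaf (nat_lit 1895709)))) (Tr.node (nat_lit 24064) (Tr.leaf (nat_lit 1895186)) (Tr.node (nat_lit 8000) (Tr.leaf (nat_lit 473561)) (Tr.leaf (nat_lit 473483)))))) (Tr.node (nat_lit 30016) (Tr.node (nat_lit 6656) (Tr.node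 (nat_lit 2688) (Tr.leaf (nat_lit 473405)) (Tr.leaf (nat_lit 473378))) (Tr.node (nat_lit 17344) (Tr.leaf (nat_lit 473339)) (Tr.node (nat_lit 768) (Tr.leaf (nat_lit 473170)) (Tr.leaf (nat_lit 118290))))) (Tr.node (nat_lit 25984) (Tr.node (nat_lit 4672) (Tr.leaf (nat_lit 473111)) (Tr.node (nat_lit 8000) (Tr.leaf (nat_lit 473066)) (Tr.leaf (nat_lit 472987)))) (Tr.node (nat_lit 3968) (Tr.leaf (nat_lit 472857)) (Tr.node (nat_lit 12032) (Tr.leaf (nat_lit 472818)) (Tr.leaf (nat_lit 1890806))))))))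

noncomputable def jt135 : Tr :=
  (Tr.node (nat_lit 159488) (Tr.node (nat_lit 79808) (Tr.node (nat_lit 50560) (Tr.node (nat_lit 7936) (Tr.node (nat_lit 2624) (Tr.leaf (nat_lit 472623)) (Tr.leaf (nat_lit 30246248))) (Tr.node (nat_lit 26624) (Tr.leaf (nat_lit 472545)) (Tr.node (nat_lit 13312) (Tr.leaf (nat_lit 472285)) (Tr.leaf (nat_lit 472156))))) (Tr.node (nat_lit 8704) (Tr.node (nat_lit 5312) (Tr.leaf (nat_lit 472130)) (Tr.leaf (nat_lit 472078))) (Tr.node (nat_lit 7232) (Tr.leaf (nat_lit 118011)) (Tr.node (nat_lit 5312) (Tr.leaf (nat_lit 7551590)) (Tr.leaf (nat_lit 471922)))))) (Tr.node (nat_lit 36544) (Tr.node (nat_lit 14592) (Tr.node (nat_lit 6272) (Tr.leaf (nat_lit 471844)) (Tr.leaf (nat_lit 460))) (Tr.node (nat_lit 5376) (Tr.leaf (nat_lit 471702)) (Tr.node (nat_lit 3968) (Tr.leaf (nat_lit 471650)) (Tr.leaf (nat_lit 471611))))) (Tr.node (nat_lit 19264) (Tr.node (nat_lit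 5952) (Tr.leaf (nat_lit 471488)) (Tr.node (nat_lit 2368) (Tr.leaf (nat_lit 471430)) (Tr.leaf (nat_lit 471407)))) (Tr.node (nat_lit 10624) (Tr.leaf (nat_lit 471301)) (Tr.node (nat_lit 5312) (Tr.leaf (nat_lit 471197)) (Tr.leaf (nat_lit 1884584))))))) (Tr.node (nat_lit 66368) (Tr.node (nat_lit 18624) (Tr.node (nat_lit 8704) (Tr.node (nat_lit 8000) (Tr.leaf (nat_lit 471068)) (Tr.leaf (nat_lit 470991))) (Tr.node (nat_lit 1920) (Tr.leaf (nat_lit 117745)) (Tr.node (nat_lit 5312) (Tr.leaf (nat_lit 470965)) (Tr.leaf (nat_lit 470913))))) (Tr.node (nat_lit 21184) (Tr.node (nat_lit 5312) (Tr.leaf (nat_lit 470887)) (Tr.node (nat_lit 2624) (Tr.leaf (nat_lit 470836)) (Tr.leaf (nat_lit 470810)))) (Tr.node (nat_lit 6656) (Tr.leaf (nat_lit 1882725)) (Tr.node (nat_lit 17216) (Tr.leaf (nat_lit 470616)) (Tr.leaf (nat_lit 470449)))))) (Tr.node (nat_lit 32256) (Tr.node (nat_lit 13248) (Tr.node (nat_lit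 5312) (Tr.leaf (nat_lit 1881694)) (Tr.leaf (nat_lit 470372))) (Tr.node (nat_lit 7936) (Tr.leaf (nat_lit 470294)) (Tr.node (nat_lit 7936) (Tr.leaf (nat_lit 470217)) (Tr.leaf (nat_lit 470140))))) (Tr.node (nat_lit 20736) (Tr.node (nat_lit 8704) (Tr.leaf (nat_lit 459)) (Tr.node (nat_lit 4096) (Tr.leaf (nat_lit 117506)) (Tr.leaf (nat_lit 469986)))) (Tr.node (nat_lit 15872) (Tr.leaf (nat_lit 1879635)) (Tr.node (nat_lit 31744) (Tr.leaf (nat_lit 469754)) (Tr.leaf (nat_lit 469446))))))))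

noncomputable def jt136 : Tr :=
  (Tr.node (nat_lit 149888) (Tr.node (nat_lit 81280) (Tr.node (nat_lit 33088) (Tr.node (nat_lit 9920) (Tr.node (nat_lit 7296) (Tr.leaf (nat_lit 469363)) (Tr.leaf (nat_lit 30034736))) (Tr.node (nat_lit 13248) (Tr.leaf (nat_lit 469267)) (Tr.node (nat_lit 6592) (Tr.leaf (nat_lit 469138)) (Tr.leaf (nat_lit 469074))))) (Tr.node (nat_lit 29696) (Tr.node (nat_lit 11712) (Tr.leaf (nat_lit 469042)) (Tr.leaf (nat_lit 29308))) (Tr.node (nat_lit 2688) (Tr.leaf (nat_lit 468754)) (Tr.node (nat_lit 5248) (Tr.leaf (nat_lit 1874917)) (Tr.leaf (nat_lit 1874712)))))) (Tr.node (nat_lit 15872) (Tr.node (nat_lit 5312) (Tr.node (nat_lit 128) (Tr.leaf (nat_lit 468575)) (Tr.leaf (nat_lit 117143))) (Tr.node (nat_lit 2624) (Tr.leaf (nat_lit 468524)) (Tr.node (nat_lit 3968) (Tr.leaf (nat_lit 468499)) (Tr.leaf (nat_lit 468460))))) (Tr.node (nat_lit 13184) (Tr.node (nat_lit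 5248) (Tr.leaf (nat_lit 468422)) (Tr.node (nat_lit 6592) (Tr.leaf (nat_lit 1873486)) (Tr.leaf (nat_lit 468307)))) (Tr.node (nat_lit 12288) (Tr.leaf (nat_lit 468294)) (Tr.node (nat_lit 7488) (Tr.leaf (nat_lit 117044)) (Tr.leaf (nat_lit 468103))))))) (Tr.node (nat_lit 97472) (Tr.node (nat_lit 50112) (Tr.node (nat_lit 7936) (Tr.node (nat_lit 3648) (Tr.leaf (nat_lit 467912)) (Tr.leaf (nat_lit 467877))) (Tr.node (nat_lit 3968) (Tr.leaf (nat_lit 467835)) (Tr.node (nat_lit 3904) (Tr.leaf (nat_lit 467797)) (Tr.leaf (nat_lit 467759))))) (Tr.node (nat_lit 31616) (Tr.node (nat_lit 23680) (Tr.leaf (nat_lit 467428)) (Tr.node (nat_lit 5248) (Tr.leaf (nat_lit 467199)) (Tr.leaf (nat_lit 467148)))) (Tr.node (nat_lit 12160) (Tr.leaf (nat_lit 467123)) (Tr.node (nat_lit 960) (Tr.leaf (nat_lit 456)) (Tr.leaf (nat_lit 466996)))))) (Tr.node (nat_lit 44736) (Tr.node (nat_lit 21056) (Tr.node (nat_lit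 20864) (Tr.leaf (nat_lit 466971)) (Tr.leaf (nat_lit 1823))) (Tr.node (nat_lit 8576) (Tr.leaf (nat_lit 466768)) (Tr.node (nat_lit 5120) (Tr.leaf (nat_lit 466685)) (Tr.leaf (nat_lit 116659))))) (Tr.node (nat_lit 10496) (Tr.node (nat_lit 3392) (Tr.leaf (nat_lit 466540)) (Tr.node (nat_lit 4480) (Tr.leaf (nat_lit 116626)) (Tr.leaf (nat_lit 466464)))) (Tr.node (nat_lit 5184) (Tr.leaf (nat_lit 1865754)) (Tr.node (nat_lit 8000) (Tr.leaf (nat_lit 116597)) (Tr.leaf (nat_lit 466312))))))))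

noncomputable def jt137 : Tr :=
  (Tr.node (nat_lit 197952) (Tr.node (nat_lit 106304) (Tr.node (nat_lit 62976) (Tr.node (nat_lit 31488) (Tr.node (nat_lit 2240) (Tr.leaf (nat_lit 466286)) (Tr.leaf (nat_lit 116566))) (Tr.node (nat_lit 5952) (Tr.leaf (nat_lit 465983)) (Tr.node (nat_lit 9792) (Tr.leaf (nat_lit 465926)) (Tr.leaf (nat_lit 1863326))))) (Tr.node (nat_lit 17088) (Tr.node (nat_lit 5248) (Tr.leaf (nat_lit 465680)) (Tr.leaf (nat_lit 1862518))) (Tr.node (nat_lit 14400) (Tr.leaf (nat_lit 465516)) (Tr.node (nat_lit 5248) (Tr.leaf (nat_lit 465377)) (Tr.leaf (nat_lit 1861307)))))) (Tr.node (nat_lit 39168) (Tr.node (nat_lit 17024) (Tr.node (nat_lit 9152) (Tr.leaf (nat_lit 465263)) (Tr.leaf (nat_lit 465175))) (Tr.node (nat_lit 2624) (Tr.leaf (nat_lit 465100)) (Tr.node (nat_lit 13120) (Tr.leaf (nat_lit 465074)) (Tr.leaf (nat_lit 464949))))) (Tr.node (nat_lit 25024) (Tr.node (nat_lit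 17152) (Tr.leaf (nat_lit 7263)) (Tr.node (nat_lit 960) (Tr.leaf (nat_lit 464722)) (Tr.leaf (nat_lit 464713)))) (Tr.node (nat_lit 10432) (Tr.leaf (nat_lit 464647)) (Tr.node (nat_lit 7872) (Tr.leaf (nat_lit 464546)) (Tr.leaf (nat_lit 464471))))))) (Tr.node (nat_lit 100672) (Tr.node (nat_lit 74560) (Tr.node (nat_lit 53632) (Tr.node (nat_lit 22272) (Tr.leaf (nat_lit 464383)) (Tr.leaf (nat_lit 464170))) (Tr.node (nat_lit 1344) (Tr.leaf (nat_lit 463869)) (Tr.node (nat_lit 3904) (Tr.leaf (nat_lit 463856)) (Tr.leaf (nat_lit 1855277))))) (Tr.node (nat_lit 17536) (Tr.node (nat_lit 4480) (Tr.leaf (nat_lit 463669)) (Tr.node (nat_lit 1088) (Tr.leaf (nat_lit 452)) (Tr.leaf (nat_lit 463615)))) (Tr.node (nat_lit 5952) (Tr.leaf (nat_lit 115875)) (Tr.node (nat_lit 448) (Tr.leaf (nat_lit 463444)) (Tr.leaf (nat_lit 115860)))))) (Tr.node (nat_lit 52224) (Tr.node (nat_lit 31296) (Tr.node (nat_lit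 15680) (Tr.leaf (nat_lit 1853676)) (Tr.leaf (nat_lit 463269))) (Tr.node (nat_lit 5248) (Tr.leaf (nat_lit 463119)) (Tr.node (nat_lit 12224) (Tr.leaf (nat_lit 1852277)) (Tr.leaf (nat_lit 462952))))) (Tr.node (nat_lit 23424) (Tr.node (nat_lit 2560) (Tr.leaf (nat_lit 462919)) (Tr.node (nat_lit 7872) (Tr.leaf (nat_lit 462894)) (Tr.leaf (nat_lit 29620464)))) (Tr.node (nat_lit 3712) (Tr.leaf (nat_lit 462695)) (Tr.node (nat_lit 4160) (Tr.leaf (nat_lit 115665)) (Tr.leaf (nat_lit 1850481))))))))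

noncomputable def jt138 : Tr :=
  (Tr.node (nat_lit 117120) (Tr.node (nat_lit 70336) (Tr.node (nat_lit 18240) (Tr.node (nat_lit 3904) (Tr.node (nat_lit 2624) (Tr.leaf (nat_lit 462545)) (Tr.leaf (nat_lit 462520))) (Tr.node (nat_lit 3904) (Tr.leaf (nat_lit 462508)) (Tr.node (nat_lit 2624) (Tr.leaf (nat_lit 462470)) (Tr.leaf (nat_lit 462446))))) (Tr.node (nat_lit 31232) (Tr.node (nat_lit 15616) (Tr.leaf (nat_lit 462371)) (Tr.leaf (nat_lit 1848888))) (Tr.node (nat_lit 5248) (Tr.leaf (nat_lit 1848291)) (Tr.node (nat_lit 10368) (Tr.leaf (nat_lit 7392370)) (Tr.leaf (nat_lit 461923)))))) (Tr.node (nat_lit 18176) (Tr.node (nat_lit 10368) (Tr.node (nat_lit 7808) (Tr.leaf (nat_lit 461874)) (Tr.leaf (nat_lit 461799))) (Tr.node (nat_lit 5248) (Tr.leaf (nat_lit 461774)) (Tr.node (nat_lit 1024) (Tr.leaf (nat_lit 461725)) (Tr.leaf (nat_lit 1803))))) (Tr.node (nat_lit 13056) (Tr.node (nat_lit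 7168) (Tr.leaf (nat_lit 461700)) (Tr.node (nat_lit 640) (Tr.leaf (nat_lit 461632)) (Tr.leaf (nat_lit 1846503)))) (Tr.node (nat_lit 6080) (Tr.leaf (nat_lit 461576)) (Tr.node (nat_lit 4288) (Tr.leaf (nat_lit 115379)) (Tr.leaf (nat_lit 461477))))))) (Tr.node (nat_lit 140224) (Tr.node (nat_lit 46784) (Tr.node (nat_lit 27200) (Tr.node (nat_lit 26048) (Tr.leaf (nat_lit 1845710)) (Tr.leaf (nat_lit 461179))) (Tr.node (nat_lit 4032) (Tr.leaf (nat_lit 7205)) (Tr.node (nat_lit 10368) (Tr.leaf (nat_lit 461130)) (Tr.leaf (nat_lit 1844125))))) (Tr.node (nat_lit 47680) (Tr.node (nat_lit 26880) (Tr.leaf (nat_lit 1843927)) (Tr.node (nat_lit 19904) (Tr.leaf (nat_lit 7198)) (Tr.leaf (nat_lit 460536)))) (Tr.node (nat_lit 9472) (Tr.leaf (nat_lit 115132)) (Tr.node (nat_lit 5184) (Tr.leaf (nat_lit 7367010)) (Tr.leaf (nat_lit 460388)))))) (Tr.node (nat_lit 29184) (Tr.node (nat_lit 11712) (Tr.node (nat_lit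 6528) (Tr.leaf (nat_lit 460092)) (Tr.leaf (nat_lit 460031))) (Tr.node (nat_lit 3840) (Tr.leaf (nat_lit 459982)) (Tr.node (nat_lit 10368) (Tr.leaf (nat_lit 1839780)) (Tr.leaf (nat_lit 1839386))))) (Tr.node (nat_lit 17472) (Tr.node (nat_lit 4544) (Tr.leaf (nat_lit 459815)) (Tr.node (nat_lit 5184) (Tr.leaf (nat_lit 459772)) (Tr.leaf (nat_lit 459723)))) (Tr.node (nat_lit 10368) (Tr.leaf (nat_lit 29417584)) (Tr.node (nat_lit 3904) (Tr.leaf (nat_lit 459551)) (Tr.leaf (nat_lit 459514))))))))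

noncomputable def jt139 : Tr :=
  (Tr.node (nat_lit 195200) (Tr.node (nat_lit 108672) (Tr.node (nat_lit 54336) (Tr.node (nat_lit 41408) (Tr.node (nat_lit 31040) (Tr.leaf (nat_lit 459502)) (Tr.leaf (nat_lit 459207))) (Tr.node (nat_lit 704) (Tr.leaf (nat_lit 459109)) (Tr.node (nat_lit 1152) (Tr.leaf (nat_lit 448)) (Tr.leaf (nat_lit 7173))))) (Tr.node (nat_lit 38784) (Tr.node (nat_lit 2624) (Tr.leaf (nat_lit 458986)) (Tr.leaf (nat_lit 458962))) (Tr.node (nat_lit 1216) (Tr.leaf (nat_lit 458619)) (Tr.node (nat_lit 6528) (Tr.leaf (nat_lit 114651)) (Tr.leaf (nat_lit 458545)))))) (Tr.node (nat_lit 56768) (Tr.node (nat_lit 23232) (Tr.node (nat_lit 17728) (Tr.leaf (nat_lit 1833888)) (Tr.leaf (nat_lit 447))) (Tr.node (nat_lit 18048) (Tr.leaf (nat_lit 458252)) (Tr.node (nat_lit 15040) (Tr.leaf (nat_lit 7329295)) (Tr.leaf (nat_lit 457939))))) (Tr.node (nat_lit 20672) (Tr.node (nat_lit 11648)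 (Tr.leaf (nat_lit 457934)) (Tr.node (nat_lit 3840) (Tr.leaf (nat_lit 457824)) (Tr.leaf (nat_lit 457788)))) (Tr.node (nat_lit 384) (Tr.leaf (nat_lit 457739)) (Tr.node (nat_lit 2176) (Tr.leaf (nat_lit 447)) (Tr.leaf (nat_lit 457714))))))) (Tr.node (nat_lit 78528) (Tr.node (nat_lit 20544) (Tr.node (nat_lit 6336) (Tr.node (nat_lit 1216) (Tr.leaf (nat_lit 114413)) (Tr.leaf (nat_lit 457641))) (Tr.node (nat_lit 7744) (Tr.leaf (nat_lit 1830371)) (Tr.node (nat_lit 6080) (Tr.leaf (nat_lit 457519)) (Tr.leaf (nat_lit 114365))))) (Tr.node (nat_lit 32192) (Tr.node (nat_lit 1280) (Tr.leaf (nat_lit 457458)) (Tr.node (nat_lit 25792) (Tr.leaf (nat_lit 457446)) (Tr.leaf (nat_lit 1828812)))) (Tr.node (nat_lit 2624) (Tr.leaf (nat_lit 457154)) (Tr.node (nat_lit 1280) (Tr.leaf (nat_lit 457130)) (Tr.leaf (nat_lit 457118)))))) (Tr.node (nat_lit 54016) (Tr.node (nat_lit 36032) (Tr.node (nat_lit 30912)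 (Tr.leaf (nat_lit 7310582)) (Tr.leaf (nat_lit 456619))) (Tr.node (nat_lit 2560) (Tr.leaf (nat_lit 456571)) (Tr.node (nat_lit 7744) (Tr.leaf (nat_lit 456547)) (Tr.leaf (nat_lit 456474))))) (Tr.node (nat_lit 42432) (Tr.node (nat_lit 7744) (Tr.leaf (nat_lit 456401)) (Tr.node (nat_lit 28416) (Tr.leaf (nat_lit 1825315)) (Tr.leaf (nat_lit 7125)))) (Tr.node (nat_lit 6016) (Tr.leaf (nat_lit 456001)) (Tr.node (nat_lit 2112) (Tr.leaf (nat_lit 113986)) (Tr.leaf (nat_lit 445))))))))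

noncomputable def jt140 : Tr :=
  (Tr.node (nat_lit 160064) (Tr.node (nat_lit 92032) (Tr.node (nat_lit 24128) (Tr.node (nat_lit 8768) (Tr.node (nat_lit 7872) (Tr.leaf (nat_lit 28489)) (Tr.leaf (nat_lit 113939))) (Tr.node (nat_lit 5056) (Tr.leaf (nat_lit 7291964)) (Tr.node (nat_lit 64) (Tr.leaf (nat_lit 1780)) (Tr.leaf (nat_lit 1822797))))) (Tr.node (nat_lit 28288) (Tr.node (nat_lit 15424) (Tr.leaf (nat_lit 455602)) (Tr.leaf (nat_lit 1821831))) (Tr.node (nat_lit 17920) (Tr.leaf (nat_lit 1821348)) (Tr.node (nat_lit 1664) (Tr.leaf (nat_lit 1820672)) (Tr.leaf (nat_lit 113788)))))) (Tr.node (nat_lit 29568) (Tr.node (nat_lit 9088) (Tr.node (nat_lit 5248) (Tr.leaf (nat_lit 113741)) (Tr.leaf (nat_lit 454915))) (Tr.node (nat_lit 7680) (Tr.leaf (nat_lit 454878)) (Tr.node (nat_lit 7680) (Tr.leaf (nat_lit 454806)) (Tr.leaf (nat_lit 454734))))) (Tr.node (nat_lit 25664) (Tr.node (nat_lit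 10240) (Tr.leaf (nat_lit 454686)) (Tr.node (nat_lit 5120) (Tr.leaf (nat_lit 1818360)) (Tr.leaf (nat_lit 454541)))) (Tr.node (nat_lit 5120) (Tr.leaf (nat_lit 454445)) (Tr.node (nat_lit 2560) (Tr.leaf (nat_lit 1817590)) (Tr.leaf (nat_lit 454373))))))) (Tr.node (nat_lit 86976) (Tr.node (nat_lit 46016) (Tr.node (nat_lit 23040) (Tr.node (nat_lit 14080) (Tr.leaf (nat_lit 454325)) (Tr.leaf (nat_lit 454193))) (Tr.node (nat_lit 3840) (Tr.leaf (nat_lit 454109)) (Tr.node (nat_lit 8640) (Tr.leaf (nat_lit 454073)) (Tr.leaf (nat_lit 113497))))) (Tr.node (nat_lit 17920) (Tr.node (nat_lit 448) (Tr.leaf (nat_lit 453893)) (Tr.node (nat_lit 7232) (Tr.leaf (nat_lit 113472)) (Tr.leaf (nat_lit 7261145)))) (Tr.node (nat_lit 7680) (Tr.leaf (nat_lit 453725)) (Tr.node (nat_lit 7680) (Tr.leaf (nat_lit 453653)) (Tr.leaf (nat_lit 453581)))))) (Tr.node (nat_lit 35712) (Tr.node (nat_lit 24896) (Tr.node (nat_lit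 16576) (Tr.leaf (nat_lit 453510)) (Tr.leaf (nat_lit 453354))) (Tr.node (nat_lit 3200) (Tr.leaf (nat_lit 453276)) (Tr.node (nat_lit 1024) (Tr.leaf (nat_lit 1812987)) (Tr.leaf (nat_lit 442))))) (Tr.node (nat_lit 44416) (Tr.node (nat_lit 17920) (Tr.leaf (nat_lit 453175)) (Tr.node (nat_lit 1280) (Tr.leaf (nat_lit 453007)) (Tr.leaf (nat_lit 452995)))) (Tr.node (nat_lit 4096) (Tr.leaf (nat_lit 7074)) (Tr.node (nat_lit 15296) (Tr.leaf (nat_lit 452721)) (Tr.leaf (nat_lit 1810312))))))))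

noncomputable def jt141 : Tr :=
  (Tr.node (nat_lit 194752) (Tr.node (nat_lit 80320) (Tr.node (nat_lit 42112) (Tr.node (nat_lit 14016) (Tr.node (nat_lit 6144) (Tr.leaf (nat_lit 452566)) (Tr.leaf (nat_lit 113127))) (Tr.node (nat_lit 15296) (Tr.leaf (nat_lit 452435)) (Tr.node (nat_lit 7680) (Tr.leaf (nat_lit 1809169)) (Tr.leaf (nat_lit 452220))))) (Tr.node (nat_lit 17600) (Tr.node (nat_lit 7616) (Tr.leaf (nat_lit 452173)) (Tr.leaf (nat_lit 7233629))) (Tr.node (nat_lit 192) (Tr.leaf (nat_lit 113002)) (Tr.node (nat_lit 15296) (Tr.leaf (nat_lit 452006)) (Tr.leaf (nat_lit 451863)))))) (Tr.node (nat_lit 61056) (Tr.node (nat_lit 33088) (Tr.node (nat_lit 15232) (Tr.leaf (nat_lit 1807265)) (Tr.leaf (nat_lit 451673))) (Tr.node (nat_lit 1984) (Tr.leaf (nat_lit 451507)) (Tr.node (nat_lit 20864) (Tr.leaf (nat_lit 112872)) (Tr.leaf (nat_lit 451294))))) (Tr.node (nat_lit 37888) (Tr.node (nat_lit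 22848) (Tr.leaf (nat_lit 451246)) (Tr.node (nat_lit 2560) (Tr.leaf (nat_lit 451033)) (Tr.leaf (nat_lit 451009)))) (Tr.node (nat_lit 7872) (Tr.leaf (nat_lit 28180)) (Tr.node (nat_lit 2496) (Tr.leaf (nat_lit 450820)) (Tr.leaf (nat_lit 450796))))))) (Tr.node (nat_lit 93248) (Tr.node (nat_lit 41856) (Tr.node (nat_lit 4032) (Tr.node (nat_lit 2496) (Tr.leaf (nat_lit 450749)) (Tr.leaf (nat_lit 450725))) (Tr.node (nat_lit 6144) (Tr.leaf (nat_lit 112677)) (Tr.node (nat_lit 22848) (Tr.leaf (nat_lit 450654)) (Tr.leaf (nat_lit 450442))))) (Tr.node (nat_lit 30464) (Tr.node (nat_lit 4736) (Tr.leaf (nat_lit 112589)) (Tr.node (nat_lit 24448) (Tr.leaf (nat_lit 439)) (Tr.leaf (nat_lit 450088)))) (Tr.node (nat_lit 6336) (Tr.leaf (nat_lit 450076)) (Tr.node (nat_lit 9664) (Tr.leaf (nat_lit 1800070)) (Tr.leaf (nat_lit 112482)))))) (Tr.node (nat_lit 51328) (Tr.node (nat_lit 15872) (Tr.node (nat_lit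 8256) (Tr.leaf (nat_lit 449882)) (Tr.leaf (nat_lit 449805))) (Tr.node (nat_lit 15168) (Tr.leaf (nat_lit 1798939)) (Tr.node (nat_lit 16448) (Tr.leaf (nat_lit 449593)) (Tr.leaf (nat_lit 449440))))) (Tr.node (nat_lit 30400) (Tr.node (nat_lit 12032) (Tr.leaf (nat_lit 449405)) (Tr.node (nat_lit 5888) (Tr.leaf (nat_lit 449293)) (Tr.leaf (nat_lit 112309)))) (Tr.node (nat_lit 7552) (Tr.leaf (nat_lit 449123)) (Tr.node (nat_lit 2560) (Tr.leaf (nat_lit 449052)) (Tr.leaf (nat_lit 449029))))))))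

noncomputable def jt142 : Tr :=
  (Tr.node (nat_lit 140224) (Tr.node (nat_lit 55616) (Tr.node (nat_lit 25280) (Tr.node (nat_lit 6336) (Tr.node (nat_lit 2496) (Tr.leaf (nat_lit 448982)) (Tr.leaf (nat_lit 448959))) (Tr.node (nat_lit 1216) (Tr.leaf (nat_lit 448923)) (Tr.node (nat_lit 7616) (Tr.leaf (nat_lit 448912)) (Tr.leaf (nat_lit 448841))))) (Tr.node (nat_lit 6400) (Tr.node (nat_lit 1280) (Tr.leaf (nat_lit 448748)) (Tr.leaf (nat_lit 448736))) (Tr.node (nat_lit 1216) (Tr.leaf (nat_lit 112172)) (Tr.node (nat_lit 7552) (Tr.leaf (nat_lit 448677)) (Tr.leaf (nat_lit 448607)))))) (Tr.node (nat_lit 15168) (Tr.node (nat_lit 8384) (Tr.node (nat_lit 5056) (Tr.leaf (nat_lit 448466)) (Tr.leaf (nat_lit 448420))) (Tr.node (nat_lit 5056) (Tr.leaf (nat_lit 437)) (Tr.node (nat_lit 1152) (Tr.leaf (nat_lit 7005)) (Tr.leaf (nat_lit 112082))))) (Tr.node (nat_lit 45440) (Tr.node (nat_lit 18944) (Tr.leaf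 (nat_lit 1793305)) (Tr.node (nat_lit 11392) (Tr.leaf (nat_lit 448151)) (Tr.leaf (nat_lit 448045)))) (Tr.node (nat_lit 5056) (Tr.leaf (nat_lit 447905)) (Tr.node (nat_lit 15168) (Tr.leaf (nat_lit 1791435)) (Tr.leaf (nat_lit 447718))))))) (Tr.node (nat_lit 63040) (Tr.node (nat_lit 21440) (Tr.node (nat_lit 9856) (Tr.node (nat_lit 5888) (Tr.leaf (nat_lit 447683)) (Tr.leaf (nat_lit 111907))) (Tr.node (nat_lit 3264) (Tr.leaf (nat_lit 111898)) (Tr.node (nat_lit 5760) (Tr.leaf (nat_lit 6993)) (Tr.leaf (nat_lit 447508))))) (Tr.node (nat_lit 20160) (Tr.node (nat_lit 5056) (Tr.leaf (nat_lit 447485)) (Tr.node (nat_lit 7552) (Tr.leaf (nat_lit 447439)) (Tr.leaf (nat_lit 447369)))) (Tr.node (nat_lit 2496) (Tr.leaf (nat_lit 447299)) (Tr.node (nat_lit 7552) (Tr.leaf (nat_lit 447275)) (Tr.leaf (nat_lit 7155297)))))) (Tr.node (nat_lit 18880) (Tr.node (nat_lit 8768) (Tr.node (nat_lit 3776) (Tr.leaf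 (nat_lit 447101)) (Tr.leaf (nat_lit 447066))) (Tr.node (nat_lit 1408) (Tr.leaf (nat_lit 1788079)) (Tr.node (nat_lit 4928) (Tr.leaf (nat_lit 6984)) (Tr.leaf (nat_lit 446961))))) (Tr.node (nat_lit 9408) (Tr.node (nat_lit 5056) (Tr.leaf (nat_lit 1787707)) (Tr.node (nat_lit 1600) (Tr.leaf (nat_lit 446880)) (Tr.leaf (nat_lit 111716)))) (Tr.node (nat_lit 3200) (Tr.leaf (nat_lit 446839)) (Tr.node (nat_lit 7552) (Tr.leaf (nat_lit 446810)) (Tr.leaf (nat_lit 1786963))))))))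

noncomputable def jt143 : Tr :=
  (Tr.node (nat_lit 177152) (Tr.node (nat_lit 101248) (Tr.node (nat_lit 57856) (Tr.node (nat_lit 8832) (Tr.node (nat_lit 7104) (Tr.leaf (nat_lit 446717)) (Tr.leaf (nat_lit 436))) (Tr.node (nat_lit 3776) (Tr.leaf (nat_lit 446636)) (Tr.node (nat_lit 10752) (Tr.leaf (nat_lit 446601)) (Tr.leaf (nat_lit 111625))))) (Tr.node (nat_lit 22656) (Tr.node (nat_lit 10048) (Tr.leaf (nat_lit 446184)) (Tr.leaf (nat_lit 1784365))) (Tr.node (nat_lit 3776) (Tr.leaf (nat_lit 445975)) (Tr.node (nat_lit 13824) (Tr.leaf (nat_lit 445940)) (Tr.leaf (nat_lit 445813)))))) (Tr.node (nat_lit 57088) (Tr.node (nat_lit 32000) (Tr.node (nat_lit 11904) (Tr.leaf (nat_lit 445784)) (Tr.leaf (nat_lit 445674))) (Tr.node (nat_lit 5440) (Tr.leaf (nat_lit 445489)) (Tr.node (nat_lit 7360) (Tr.leaf (nat_lit 434)) (Tr.leaf (nat_lit 111342))))) (Tr.node (nat_lit 7552) (Tr.node (nat_lit 2112)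 (Tr.leaf (nat_lit 1781035)) (Tr.node (nat_lit 2944) (Tr.leaf (nat_lit 6956)) (Tr.leaf (nat_lit 445212)))) (Tr.node (nat_lit 4672) (Tr.leaf (nat_lit 445189)) (Tr.node (nat_lit 320) (Tr.leaf (nat_lit 445146)) (Tr.leaf (nat_lit 1738))))))) (Tr.node (nat_lit 68928) (Tr.node (nat_lit 33856) (Tr.node (nat_lit 7168) (Tr.node (nat_lit 1280) (Tr.leaf (nat_lit 445085)) (Tr.leaf (nat_lit 1780297))) (Tr.node (nat_lit 4096) (Tr.leaf (nat_lit 27813)) (Tr.node (nat_lit 15040) (Tr.leaf (nat_lit 1779928)) (Tr.leaf (nat_lit 444843))))) (Tr.node (nat_lit 27584) (Tr.node (nat_lit 8512) (Tr.leaf (nat_lit 444774)) (Tr.node (nat_lit 4032) (Tr.leaf (nat_lit 111174)) (Tr.leaf (nat_lit 444659)))) (Tr.node (nat_lit 2368) (Tr.leaf (nat_lit 444521)) (Tr.node (nat_lit 128) (Tr.leaf (nat_lit 434)) (Tr.leaf (nat_lit 444498)))))) (Tr.node (nat_lit 37568) (Tr.node (nat_lit 12608) (Tr.node (nat_lit 7552) (Tr.leaf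 (nat_lit 444452)) (Tr.leaf (nat_lit 444383))) (Tr.node (nat_lit 1152) (Tr.leaf (nat_lit 111084)) (Tr.node (nat_lit 3776) (Tr.leaf (nat_lit 444326)) (Tr.leaf (nat_lit 444291))))) (Tr.node (nat_lit 9984) (Tr.node (nat_lit 2496) (Tr.leaf (nat_lit 444107)) (Tr.node (nat_lit 4992) (Tr.leaf (nat_lit 444084)) (Tr.leaf (nat_lit 444039)))) (Tr.node (nat_lit 3392) (Tr.leaf (nat_lit 444016)) (Tr.node (nat_lit 11648) (Tr.leaf (nat_lit 110996)) (Tr.leaf (nat_lit 1775513))))))))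

noncomputable def jt144 : Tr :=
  (Tr.node (nat_lit 172160) (Tr.node (nat_lit 107392) (Tr.node (nat_lit 41216) (Tr.node (nat_lit 21248) (Tr.node (nat_lit 7488) (Tr.leaf (nat_lit 443626)) (Tr.leaf (nat_lit 443557))) (Tr.node (nat_lit 8704) (Tr.leaf (nat_lit 6928)) (Tr.node (nat_lit 9792) (Tr.leaf (nat_lit 1773405)) (Tr.leaf (nat_lit 110815))))) (Tr.node (nat_lit 38208) (Tr.node (nat_lit 6272) (Tr.leaf (nat_lit 443248)) (Tr.node (nat_lit 27456) (Tr.leaf (nat_lit 443191)) (Tr.leaf (nat_lit 442939)))) (Tr.node (nat_lit 5504) (Tr.leaf (nat_lit 432)) (Tr.node (nat_lit 12480) (Tr.leaf (nat_lit 442848)) (Tr.leaf (nat_lit 442734)))))) (Tr.node (nat_lit 22400) (Tr.node (nat_lit 4992) (Tr.node (nat_lit 3136) (Tr.leaf (nat_lit 442643)) (Tr.leaf (nat_lit 6915))) (Tr.node (nat_lit 7424) (Tr.leaf (nat_lit 1770390)) (Tr.node (nat_lit 7488) (Tr.leaf (nat_lit 442529)) (Tr.leaf (nat_lit 442460)))))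 (Tr.node (nat_lit 31744) (Tr.node (nat_lit 17920) (Tr.leaf (nat_lit 442438)) (Tr.node (nat_lit 9536) (Tr.leaf (nat_lit 1727)) (Tr.leaf (nat_lit 442187)))) (Tr.node (nat_lit 1920) (Tr.leaf (nat_lit 110537)) (Tr.node (nat_lit 4928) (Tr.leaf (nat_lit 442130)) (Tr.leaf (nat_lit 110521))))))) (Tr.node (nat_lit 74688) (Tr.node (nat_lit 29888) (Tr.node (nat_lit 3968) (Tr.node (nat_lit 2752) (Tr.leaf (nat_lit 1768203)) (Tr.leaf (nat_lit 110506))) (Tr.node (nat_lit 9728) (Tr.leaf (nat_lit 110503)) (Tr.node (nat_lit 12480) (Tr.leaf (nat_lit 441925)) (Tr.leaf (nat_lit 441812))))) (Tr.node (nat_lit 29888) (Tr.node (nat_lit 22400) (Tr.leaf (nat_lit 441778)) (Tr.node (nat_lit 2496) (Tr.leaf (nat_lit 441573)) (Tr.leaf (nat_lit 441551)))) (Tr.node (nat_lit 7488) (Tr.leaf (nat_lit 113025455)) (Tr.node (nat_lit 2432) (Tr.leaf (nat_lit 441437)) (Tr.leaf (nat_lit 1765659)))))) (Tr.node (nat_lit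 54720) (Tr.node (nat_lit 16768) (Tr.node (nat_lit 7488) (Tr.leaf (nat_lit 441369)) (Tr.leaf (nat_lit 441301))) (Tr.node (nat_lit 8128) (Tr.leaf (nat_lit 441216)) (Tr.node (nat_lit 19840) (Tr.leaf (nat_lit 1764571)) (Tr.leaf (nat_lit 1763846))))) (Tr.node (nat_lit 27328) (Tr.node (nat_lit 14912) (Tr.leaf (nat_lit 440871)) (Tr.node (nat_lit 6400) (Tr.leaf (nat_lit 440735)) (Tr.leaf (nat_lit 430)))) (Tr.node (nat_lit 2688) (Tr.leaf (nat_lit 440622)) (Tr.node (nat_lit 7232) (Tr.leaf (nat_lit 110149)) (Tr.leaf (nat_lit 440532))))))))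

noncomputable def jt145 : Tr :=
  (Tr.node (nat_lit 142528) (Tr.node (nat_lit 52096) (Tr.node (nat_lit 18624) (Tr.node (nat_lit 7488) (Tr.node (nat_lit 1600) (Tr.leaf (nat_lit 440396)) (Tr.leaf (nat_lit 1720))) (Tr.node (nat_lit 320) (Tr.leaf (nat_lit 440328)) (Tr.node (nat_lit 4608) (Tr.leaf (nat_lit 440325)) (Tr.leaf (nat_lit 440283))))) (Tr.node (nat_lit 3712) (Tr.node (nat_lit 1280) (Tr.leaf (nat_lit 440227)) (Tr.leaf (nat_lit 440215))) (Tr.node (nat_lit 4992) (Tr.leaf (nat_lit 440193)) (Tr.node (nat_lit 14848) (Tr.leaf (nat_lit 1760593)) (Tr.leaf (nat_lit 440013)))))) (Tr.node (nat_lit 44608) (Tr.node (nat_lit 17792) (Tr.node (nat_lit 13056) (Tr.leaf (nat_lit 439922)) (Tr.leaf (nat_lit 1759218))) (Tr.node (nat_lit 13824) (Tr.leaf (nat_lit 6871)) (Tr.node (nat_lit 6848) (Tr.leaf (nat_lit 439635)) (Tr.leaf (nat_lit 439573))))) (Tr.node (nat_lit 19840) (Tr.node (nat_lit 4992)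 (Tr.leaf (nat_lit 1758070)) (Tr.node (nat_lit 9920) (Tr.leaf (nat_lit 439472)) (Tr.leaf (nat_lit 1757531)))) (Tr.node (nat_lit 9920) (Tr.leaf (nat_lit 7029406)) (Tr.node (nat_lit 14144) (Tr.leaf (nat_lit 439248)) (Tr.leaf (nat_lit 109779))))))) (Tr.node (nat_lit 102592) (Tr.node (nat_lit 58112) (Tr.node (nat_lit 25984) (Tr.node (nat_lit 13632) (Tr.leaf (nat_lit 439102)) (Tr.leaf (nat_lit 1755914))) (Tr.node (nat_lit 6144) (Tr.leaf (nat_lit 438866)) (Tr.node (nat_lit 11136) (Tr.leaf (nat_lit 438810)) (Tr.leaf (nat_lit 1754838))))) (Tr.node (nat_lit 14848) (Tr.node (nat_lit 9536) (Tr.leaf (nat_lit 438575)) (Tr.node (nat_lit 2816) (Tr.leaf (nat_lit 109622)) (Tr.leaf (nat_lit 438463)))) (Tr.node (nat_lit 4928) (Tr.leaf (nat_lit 1753763)) (Tr.node (nat_lit 9856) (Tr.leaf (nat_lit 438396)) (Tr.leaf (nat_lit 438306)))))) (Tr.node (nat_lit 34560) (Tr.node (nat_lit 19776) (Tr.node (nat_lit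 8640) (Tr.leaf (nat_lit 1752690)) (Tr.leaf (nat_lit 438094))) (Tr.node (nat_lit 12480) (Tr.leaf (nat_lit 437993)) (Tr.node (nat_lit 1088) (Tr.leaf (nat_lit 6841)) (Tr.leaf (nat_lit 437871))))) (Tr.node (nat_lit 14784) (Tr.node (nat_lit 2816) (Tr.leaf (nat_lit 437859)) (Tr.node (nat_lit 9408) (Tr.leaf (nat_lit 109458)) (Tr.leaf (nat_lit 427)))) (Tr.node (nat_lit 26624) (Tr.leaf (nat_lit 1750903)) (Tr.node (nat_lit 3008) (Tr.leaf (nat_lit 1708)) (Tr.leaf (nat_lit 437458))))))))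

noncomputable def jt146 : Tr :=
  (Tr.node (nat_lit 131328) (Tr.node (nat_lit 71424) (Tr.node (nat_lit 34496) (Tr.node (nat_lit 22144) (Tr.node (nat_lit 19712) (Tr.leaf (nat_lit 1749477)) (Tr.leaf (nat_lit 6995060))) (Tr.node (nat_lit 7424) (Tr.leaf (nat_lit 437169)) (Tr.node (nat_lit 3200) (Tr.leaf (nat_lit 1748409)) (Tr.leaf (nat_lit 109268))))) (Tr.node (nat_lit 22144) (Tr.node (nat_lit 5504) (Tr.leaf (nat_lit 437057)) (Tr.leaf (nat_lit 437007))) (Tr.node (nat_lit 2432) (Tr.leaf (nat_lit 436857)) (Tr.node (nat_lit 9792) (Tr.leaf (nat_lit 1747342)) (Tr.leaf (nat_lit 109186)))))) (Tr.node (nat_lit 21440) (Tr.node (nat_lit 12736) (Tr.node (nat_lit 11072) (Tr.leaf (nat_lit 436724)) (Tr.leaf (nat_lit 436624))) (Tr.node (nat_lit 1984) (Tr.leaf (nat_lit 426)) (Tr.node (nat_lit 2496) (Tr.leaf (nat_lit 436591)) (Tr.leaf (nat_lit 436569))))) (Tr.node (nat_lit 17920) (Tr.node (nat_lit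 10496) (Tr.leaf (nat_lit 109132)) (Tr.node (nat_lit 4928) (Tr.leaf (nat_lit 436436)) (Tr.leaf (nat_lit 1745566)))) (Tr.node (nat_lit 7360) (Tr.leaf (nat_lit 436369)) (Tr.node (nat_lit 7360) (Tr.leaf (nat_lit 1745212)) (Tr.leaf (nat_lit 436236))))))) (Tr.node (nat_lit 72768) (Tr.node (nat_lit 28608) (Tr.node (nat_lit 6464) (Tr.node (nat_lit 1536) (Tr.leaf (nat_lit 6815)) (Tr.leaf (nat_lit 436170))) (Tr.node (nat_lit 9856) (Tr.leaf (nat_lit 1744503)) (Tr.node (nat_lit 7360) (Tr.leaf (nat_lit 1744149)) (Tr.leaf (nat_lit 435970))))) (Tr.node (nat_lit 24192) (Tr.node (nat_lit 2432) (Tr.leaf (nat_lit 435926)) (Tr.node (nat_lit 16000) (Tr.leaf (nat_lit 435904)) (Tr.leaf (nat_lit 435760)))) (Tr.node (nat_lit 14464) (Tr.leaf (nat_lit 108927)) (Tr.node (nat_lit 640) (Tr.leaf (nat_lit 425)) (Tr.leaf (nat_lit 435572)))))) (Tr.node (nat_lit 22144) (Tr.node (nat_lit 7360) (Tr.node (nat_lit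 2496) (Tr.leaf (nat_lit 435528)) (Tr.leaf (nat_lit 435506))) (Tr.node (nat_lit 9856) (Tr.leaf (nat_lit 435462)) (Tr.node (nat_lit 3072) (Tr.leaf (nat_lit 435374)) (Tr.leaf (nat_lit 435346))))) (Tr.node (nat_lit 31872) (Tr.node (nat_lit 14656) (Tr.leaf (nat_lit 435330)) (Tr.node (nat_lit 14848) (Tr.leaf (nat_lit 435197)) (Tr.leaf (nat_lit 1699)))) (Tr.node (nat_lit 4864) (Tr.leaf (nat_lit 435043)) (Tr.node (nat_lit 2496) (Tr.leaf (nat_lit 6796)) (Tr.leaf (nat_lit 434977))))))))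

noncomputable def jt147 : Tr :=
  (Tr.node (nat_lit 132160) (Tr.node (nat_lit 73472) (Tr.node (nat_lit 29440) (Tr.node (nat_lit 17216) (Tr.node (nat_lit 14400) (Tr.leaf (nat_lit 1739733)) (Tr.leaf (nat_lit 108701))) (Tr.node (nat_lit 7296) (Tr.leaf (nat_lit 108694)) (Tr.node (nat_lit 320) (Tr.leaf (nat_lit 6955412)) (Tr.leaf (nat_lit 27169))))) (Tr.node (nat_lit 8832) (Tr.node (nat_lit 7296) (Tr.leaf (nat_lit 434669)) (Tr.leaf (nat_lit 434603))) (Tr.node (nat_lit 5824) (Tr.leaf (nat_lit 434589)) (Tr.node (nat_lit 9792) (Tr.leaf (nat_lit 1738149)) (Tr.leaf (nat_lit 434449)))))) (Tr.node (nat_lit 24512) (Tr.node (nat_lit 14720) (Tr.node (nat_lit 9216) (Tr.leaf (nat_lit 1737094)) (Tr.leaf (nat_lit 434191))) (Tr.node (nat_lit 6720) (Tr.leaf (nat_lit 434142)) (Tr.node (nat_lit 576) (Tr.leaf (nat_lit 6782)) (Tr.leaf (nat_lit 434076))))) (Tr.node (nat_lit 12224) (Tr.node (nat_lit 3392)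 (Tr.leaf (nat_lit 434054)) (Tr.node (nat_lit 1472) (Tr.leaf (nat_lit 108505)) (Tr.leaf (nat_lit 1736041)))) (Tr.node (nat_lit 2432) (Tr.leaf (nat_lit 433944)) (Tr.node (nat_lit 4864) (Tr.leaf (nat_lit 1735690)) (Tr.leaf (nat_lit 433878))))))) (Tr.node (nat_lit 79232) (Tr.node (nat_lit 53760) (Tr.node (nat_lit 3712) (Tr.node (nat_lit 2496) (Tr.leaf (nat_lit 433747)) (Tr.leaf (nat_lit 433725))) (Tr.node (nat_lit 17088) (Tr.leaf (nat_lit 423)) (Tr.node (nat_lit 11008) (Tr.leaf (nat_lit 433561)) (Tr.leaf (nat_lit 433462))))) (Tr.node (nat_lit 14656) (Tr.node (nat_lit 3712) (Tr.leaf (nat_lit 433266)) (Tr.node (nat_lit 1216) (Tr.leaf (nat_lit 433233)) (Tr.leaf (nat_lit 433222)))) (Tr.node (nat_lit 3520) (Tr.leaf (nat_lit 1732540)) (Tr.node (nat_lit 1344) (Tr.leaf (nat_lit 1691)) (Tr.leaf (nat_lit 433091)))))) (Tr.node (nat_lit 51392) (Tr.node (nat_lit 17856) (Tr.node (nat_lit 8704)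 (Tr.leaf (nat_lit 108259)) (Tr.leaf (nat_lit 27709466))) (Tr.node (nat_lit 640) (Tr.leaf (nat_lit 432878)) (Tr.node (nat_lit 27968) (Tr.leaf (nat_lit 1731492)) (Tr.leaf (nat_lit 108155))))) (Tr.node (nat_lit 15872) (Tr.node (nat_lit 6784) (Tr.leaf (nat_lit 432578)) (Tr.node (nat_lit 5440) (Tr.leaf (nat_lit 6758)) (Tr.leaf (nat_lit 432469)))) (Tr.node (nat_lit 2432) (Tr.leaf (nat_lit 1729749)) (Tr.node (nat_lit 7296) (Tr.leaf (nat_lit 432415)) (Tr.leaf (nat_lit 432350))))))))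

noncomputable def jt148 : Tr :=
  (Tr.node (nat_lit 105280) (Tr.node (nat_lit 39616) (Tr.node (nat_lit 17664) (Tr.node (nat_lit 10368) (Tr.node (nat_lit 3072) (Tr.leaf (nat_lit 432333)) (Tr.leaf (nat_lit 432306))) (Tr.node (nat_lit 128) (Tr.leaf (nat_lit 432241)) (Tr.node (nat_lit 2304) (Tr.leaf (nat_lit 108060)) (Tr.leaf (nat_lit 432219))))) (Tr.node (nat_lit 17728) (Tr.node (nat_lit 2496) (Tr.leaf (nat_lit 432176)) (Tr.leaf (nat_lit 432154))) (Tr.node (nat_lit 576) (Tr.leaf (nat_lit 108004)) (Tr.node (nat_lit 576) (Tr.leaf (nat_lit 432013)) (Tr.leaf (nat_lit 421)))))) (Tr.node (nat_lit 21888) (Tr.node (nat_lit 6080) (Tr.node (nat_lit 2432) (Tr.leaf (nat_lit 431980)) (Tr.leaf (nat_lit 431958))) (Tr.node (nat_lit 1984) (Tr.leaf (nat_lit 431926)) (Tr.node (nat_lit 8960) (Tr.leaf (nat_lit 26994)) (Tr.leaf (nat_lit 431828))))) (Tr.node (nat_lit 24320) (Tr.node (nat_lit 2432) (Tr.leaf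 (nat_lit 1727140)) (Tr.node (nat_lit 12160) (Tr.leaf (nat_lit 431763)) (Tr.leaf (nat_lit 1726620)))) (Tr.node (nat_lit 1216) (Tr.leaf (nat_lit 6905092)) (Tr.node (nat_lit 3648) (Tr.leaf (nat_lit 431557)) (Tr.leaf (nat_lit 431524))))))) (Tr.node (nat_lit 102016) (Tr.node (nat_lit 34432) (Tr.node (nat_lit 14592) (Tr.node (nat_lit 7296) (Tr.leaf (nat_lit 1725579)) (Tr.leaf (nat_lit 431329))) (Tr.node (nat_lit 9728) (Tr.leaf (nat_lit 431264)) (Tr.node (nat_lit 7296) (Tr.leaf (nat_lit 431178)) (Tr.leaf (nat_lit 431113))))) (Tr.node (nat_lit 15424) (Tr.node (nat_lit 4480) (Tr.leaf (nat_lit 107772)) (Tr.node (nat_lit 4864) (Tr.leaf (nat_lit 1724194)) (Tr.leaf (nat_lit 431005)))) (Tr.node (nat_lit 8448) (Tr.leaf (nat_lit 430951)) (Tr.node (nat_lit 29120) (Tr.leaf (nat_lit 6894008)) (Tr.leaf (nat_lit 430616)))))) (Tr.node (nat_lit 24256) (Tr.node (nat_lit 9728) (Tr.node (nat_lit 2432)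 (Tr.leaf (nat_lit 430486)) (Tr.leaf (nat_lit 430465))) (Tr.node (nat_lit 4800) (Tr.leaf (nat_lit 430400)) (Tr.node (nat_lit 1024) (Tr.leaf (nat_lit 1721429)) (Tr.leaf (nat_lit 6724))))) (Tr.node (nat_lit 14528) (Tr.node (nat_lit 4864) (Tr.leaf (nat_lit 1721084)) (Tr.node (nat_lit 3648) (Tr.leaf (nat_lit 430228)) (Tr.leaf (nat_lit 430195)))) (Tr.node (nat_lit 4864) (Tr.leaf (nat_lit 430141)) (Tr.node (nat_lit 4224) (Tr.leaf (nat_lit 430098)) (Tr.leaf (nat_lit 26878))))))))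

noncomputable def jt149 : Tr :=
  (Tr.node (nat_lit 137984) (Tr.node (nat_lit 48448) (Tr.node (nat_lit 21824) (Tr.node (nat_lit 12160) (Tr.node (nat_lit 4864) (Tr.leaf (nat_lit 1720050)) (Tr.leaf (nat_lit 429969))) (Tr.node (nat_lit 2432) (Tr.leaf (nat_lit 429905)) (Tr.node (nat_lit 4800) (Tr.leaf (nat_lit 429883)) (Tr.leaf (nat_lit 1719362))))) (Tr.node (nat_lit 7936) (Tr.node (nat_lit 4864) (Tr.leaf (nat_lit 429819)) (Tr.leaf (nat_lit 429776))) (Tr.node (nat_lit 4160) (Tr.leaf (nat_lit 107437)) (Tr.node (nat_lit 9728) (Tr.leaf (nat_lit 429711)) (Tr.leaf (nat_lit 429625)))))) (Tr.node (nat_lit 29056) (Tr.node (nat_lit 14464) (Tr.node (nat_lit 9728) (Tr.leaf (nat_lit 429582)) (Tr.leaf (nat_lit 27487790))) (Tr.node (nat_lit 64) (Tr.leaf (nat_lit 107363)) (Tr.node (nat_lit 9728) (Tr.leaf (nat_lit 429453)) (Tr.leaf (nat_lit 429367))))) (Tr.node (nat_lit 20544) (Tr.node (nat_lit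 2432) (Tr.leaf (nat_lit 1717299)) (Tr.node (nat_lit 7232) (Tr.leaf (nat_lit 429303)) (Tr.leaf (nat_lit 429239)))) (Tr.node (nat_lit 32640) (Tr.leaf (nat_lit 429142)) (Tr.node (nat_lit 4864) (Tr.leaf (nat_lit 428853)) (Tr.leaf (nat_lit 6860970))))))) (Tr.node (nat_lit 65152) (Tr.node (nat_lit 21696) (Tr.node (nat_lit 10880) (Tr.node (nat_lit 7232) (Tr.leaf (nat_lit 428789)) (Tr.leaf (nat_lit 428725))) (Tr.node (nat_lit 1152) (Tr.leaf (nat_lit 428692)) (Tr.node (nat_lit 7296) (Tr.leaf (nat_lit 428682)) (Tr.leaf (nat_lit 428618))))) (Tr.node (nat_lit 28992) (Tr.node (nat_lit 4864) (Tr.leaf (nat_lit 428596)) (Tr.node (nat_lit 2432) (Tr.leaf (nat_lit 428553)) (Tr.leaf (nat_lit 428532)))) (Tr.node (nat_lit 4864) (Tr.leaf (nat_lit 428340)) (Tr.node (nat_lit 6208) (Tr.leaf (nat_lit 1713189)) (Tr.leaf (nat_lit 107060)))))) (Tr.node (nat_lit 28992) (Tr.node (nat_lit 14528) (Tr.node (nat_lit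 4864) (Tr.leaf (nat_lit 1712848)) (Tr.leaf (nat_lit 428169))) (Tr.node (nat_lit 6592) (Tr.leaf (nat_lit 428084)) (Tr.node (nat_lit 640) (Tr.leaf (nat_lit 428025)) (Tr.leaf (nat_lit 428020))))) (Tr.node (nat_lit 26496) (Tr.node (nat_lit 1216) (Tr.leaf (nat_lit 1711824)) (Tr.node (nat_lit 16384) (Tr.leaf (nat_lit 427945)) (Tr.leaf (nat_lit 1671)))) (Tr.node (nat_lit 2432) (Tr.leaf (nat_lit 427721)) (Tr.node (nat_lit 9344) (Tr.leaf (nat_lit 427700)) (Tr.leaf (nat_lit 106904))))))))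

noncomputable def jt150 : Tr :=
  (Tr.node (nat_lit 149120) (Tr.node (nat_lit 69824) (Tr.node (nat_lit 33728) (Tr.node (nat_lit 9408) (Tr.node (nat_lit 4800) (Tr.leaf (nat_lit 1710290)) (Tr.leaf (nat_lit 427530))) (Tr.node (nat_lit 9856) (Tr.leaf (nat_lit 6679)) (Tr.node (nat_lit 10816) (Tr.leaf (nat_lit 427402)) (Tr.leaf (nat_lit 427306))))) (Tr.node (nat_lit 14400) (Tr.node (nat_lit 4864) (Tr.leaf (nat_lit 1709099)) (Tr.leaf (nat_lit 26701))) (Tr.node (nat_lit 9664) (Tr.leaf (nat_lit 427147)) (Tr.node (nat_lit 5376) (Tr.leaf (nat_lit 427062)) (Tr.leaf (nat_lit 427014)))))) (Tr.node (nat_lit 50496) (Tr.node (nat_lit 14400) (Tr.node (nat_lit 2368) (Tr.leaf (nat_lit 426956)) (Tr.leaf (nat_lit 1707740))) (Tr.node (nat_lit 2432) (Tr.leaf (nat_lit 1707316)) (Tr.node (nat_lit 4800) (Tr.leaf (nat_lit 426807)) (Tr.leaf (nat_lit 6828246))))) (Tr.node (nat_lit 15296) (Tr.node (nat_lit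 9600) (Tr.leaf (nat_lit 1706044)) (Tr.node (nat_lit 4800) (Tr.leaf (nat_lit 1705705)) (Tr.leaf (nat_lit 426384)))) (Tr.node (nat_lit 8704) (Tr.leaf (nat_lit 6662)) (Tr.node (nat_lit 3008) (Tr.leaf (nat_lit 1705197)) (Tr.leaf (nat_lit 426273))))))) (Tr.node (nat_lit 79232) (Tr.node (nat_lit 31232) (Tr.node (nat_lit 7232) (Tr.node (nat_lit 832) (Tr.leaf (nat_lit 1705028)) (Tr.leaf (nat_lit 106562))) (Tr.node (nat_lit 2432) (Tr.leaf (nat_lit 426193)) (Tr.node (nat_lit 14400) (Tr.leaf (nat_lit 426172)) (Tr.leaf (nat_lit 426045))))) (Tr.node (nat_lit 12032) (Tr.node (nat_lit 2432) (Tr.leaf (nat_lit 425982)) (Tr.node (nat_lit 2368) (Tr.leaf (nat_lit 106490)) (Tr.leaf (nat_lit 425940)))) (Tr.node (nat_lit 1408) (Tr.leaf (nat_lit 425876)) (Tr.node (nat_lit 8704) (Tr.leaf (nat_lit 415)) (Tr.leaf (nat_lit 106446)))))) (Tr.node (nat_lit 45568) (Tr.node (nat_lit 21568) (Tr.node (nat_lit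 7168) (Tr.leaf (nat_lit 425560)) (Tr.leaf (nat_lit 1701988))) (Tr.node (nat_lit 128) (Tr.leaf (nat_lit 425370)) (Tr.node (nat_lit 2304) (Tr.leaf (nat_lit 6646)) (Tr.leaf (nat_lit 425349))))) (Tr.node (nat_lit 21568) (Tr.node (nat_lit 1984) (Tr.leaf (nat_lit 425160)) (Tr.node (nat_lit 5184) (Tr.leaf (nat_lit 106285)) (Tr.leaf (nat_lit 425096)))) (Tr.node (nat_lit 4736) (Tr.leaf (nat_lit 424970)) (Tr.node (nat_lit 6976) (Tr.leaf (nat_lit 424928)) (Tr.leaf (nat_lit 26554))))))))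

noncomputable def jt151 : Tr :=
  (Tr.node (nat_lit 136256) (Tr.node (nat_lit 66944) (Tr.node (nat_lit 38272) (Tr.node (nat_lit 14336) (Tr.node (nat_lit 6976) (Tr.leaf (nat_lit 424865)) (Tr.leaf (nat_lit 106201))) (Tr.node (nat_lit 2432) (Tr.leaf (nat_lit 27183337)) (Tr.node (nat_lit 11904) (Tr.leaf (nat_lit 424718)) (Tr.leaf (nat_lit 1698454))))) (Tr.node (nat_lit 4800) (Tr.node (nat_lit 896) (Tr.leaf (nat_lit 424529)) (Tr.leaf (nat_lit 424521))) (Tr.node (nat_lit 9536) (Tr.leaf (nat_lit 424487)) (Tr.node (nat_lit 4800) (Tr.leaf (nat_lit 6790462)) (Tr.leaf (nat_lit 424361)))))) (Tr.node (nat_lit 28736) (Tr.node (nat_lit 11456) (Tr.node (nat_lit 3648) (Tr.leaf (nat_lit 424278)) (Tr.leaf (nat_lit 424246))) (Tr.node (nat_lit 512) (Tr.leaf (nat_lit 106044)) (Tr.node (nat_lit 6976) (Tr.leaf (nat_lit 424173)) (Tr.leaf (nat_lit 106028))))) (Tr.node (nat_lit 22656) (Tr.node (nat_lit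 13504) (Tr.leaf (nat_lit 424026)) (Tr.node (nat_lit 832) (Tr.leaf (nat_lit 105977)) (Tr.leaf (nat_lit 1695604)))) (Tr.node (nat_lit 6016) (Tr.leaf (nat_lit 423828)) (Tr.node (nat_lit 7168) (Tr.leaf (nat_lit 423775)) (Tr.leaf (nat_lit 423713))))))) (Tr.node (nat_lit 78720) (Tr.node (nat_lit 34624) (Tr.node (nat_lit 14912) (Tr.node (nat_lit 13952) (Tr.leaf (nat_lit 423671)) (Tr.leaf (nat_lit 6617))) (Tr.node (nat_lit 3008) (Tr.leaf (nat_lit 423540)) (Tr.node (nat_lit 13120) (Tr.leaf (nat_lit 423514)) (Tr.leaf (nat_lit 6774396))))) (Tr.node (nat_lit 10752) (Tr.node (nat_lit 1216) (Tr.leaf (nat_lit 423368)) (Tr.node (nat_lit 7104) (Tr.leaf (nat_lit 423358)) (Tr.leaf (nat_lit 423295)))) (Tr.node (nat_lit 4736) (Tr.leaf (nat_lit 423274)) (Tr.node (nat_lit 21440) (Tr.leaf (nat_lit 1692931)) (Tr.leaf (nat_lit 423045)))))) (Tr.node (nat_lit 28608) (Tr.node (nat_lit 10752) (Tr.node (nat_lit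 3456) (Tr.leaf (nat_lit 422982)) (Tr.leaf (nat_lit 26434))) (Tr.node (nat_lit 3584) (Tr.leaf (nat_lit 1691556)) (Tr.node (nat_lit 2368) (Tr.leaf (nat_lit 422857)) (Tr.leaf (nat_lit 422837))))) (Tr.node (nat_lit 28608) (Tr.node (nat_lit 9536) (Tr.leaf (nat_lit 6763728)) (Tr.node (nat_lit 512) (Tr.leaf (nat_lit 422649)) (Tr.leaf (nat_lit 105661)))) (Tr.node (nat_lit 11648) (Tr.leaf (nat_lit 1689934)) (Tr.node (nat_lit 4992) (Tr.leaf (nat_lit 105595)) (Tr.leaf (nat_lit 422338))))))))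

noncomputable def jt152 : Tr :=
  (Tr.node (nat_lit 167424) (Tr.node (nat_lit 76032) (Tr.node (nat_lit 42816) (Tr.node (nat_lit 14272) (Tr.node (nat_lit 7104) (Tr.leaf (nat_lit 422275)) (Tr.leaf (nat_lit 422213))) (Tr.node (nat_lit 3328) (Tr.leaf (nat_lit 422151)) (Tr.node (nat_lit 1408) (Tr.leaf (nat_lit 412)) (Tr.leaf (nat_lit 1688439))))) (Tr.node (nat_lit 14208) (Tr.node (nat_lit 2240) (Tr.leaf (nat_lit 1687609)) (Tr.node (nat_lit 11072) (Tr.leaf (nat_lit 6591)) (Tr.leaf (nat_lit 421785)))) (Tr.node (nat_lit 1216) (Tr.leaf (nat_lit 421778)) (Tr.node (nat_lit 10944) (Tr.leaf (nat_lit 421767)) (Tr.leaf (nat_lit 105418)))))) (Tr.node (nat_lit 32064) (Tr.node (nat_lit 9536) (Tr.node (nat_lit 7168) (Tr.leaf (nat_lit 421612)) (Tr.leaf (nat_lit 421550))) (Tr.node (nat_lit 11904) (Tr.leaf (nat_lit 421529)) (Tr.node (nat_lit 9472) (Tr.leaf (nat_lit 421426)) (Tr.leaf (nat_lit 421343)))))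 (Tr.node (nat_lit 34432) (Tr.node (nat_lit 5952) (Tr.leaf (nat_lit 421333)) (Tr.node (nat_lit 14272) (Tr.leaf (nat_lit 421281)) (Tr.leaf (nat_lit 421157)))) (Tr.node (nat_lit 4544) (Tr.leaf (nat_lit 421033)) (Tr.node (nat_lit 192) (Tr.leaf (nat_lit 105248)) (Tr.leaf (nat_lit 420992))))))) (Tr.node (nat_lit 81792) (Tr.node (nat_lit 51008) (Tr.node (nat_lit 32064) (Tr.node (nat_lit 3584) (Tr.leaf (nat_lit 420817)) (Tr.leaf (nat_lit 420786))) (Tr.node (nat_lit 4736) (Tr.leaf (nat_lit 420539)) (Tr.node (nat_lit 9472) (Tr.leaf (nat_lit 420498)) (Tr.leaf (nat_lit 1681662))))) (Tr.node (nat_lit 12928) (Tr.node (nat_lit 2368) (Tr.leaf (nat_lit 420374)) (Tr.node (nat_lit 7104) (Tr.leaf (nat_lit 420354)) (Tr.leaf (nat_lit 420292)))) (Tr.node (nat_lit 7168) (Tr.leaf (nat_lit 105065)) (Tr.node (nat_lit 4480) (Tr.leaf (nat_lit 420199)) (Tr.leaf (nat_lit 6565)))))) (Tr.node (nat_lit 33088)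 (Tr.node (nat_lit 14464) (Tr.node (nat_lit 11840) (Tr.leaf (nat_lit 420107)) (Tr.leaf (nat_lit 420004))) (Tr.node (nat_lit 10368) (Tr.leaf (nat_lit 419981)) (Tr.node (nat_lit 1216) (Tr.leaf (nat_lit 419891)) (Tr.leaf (nat_lit 419881))))) (Tr.node (nat_lit 7104) (Tr.node (nat_lit 384) (Tr.leaf (nat_lit 419819)) (Tr.node (nat_lit 1984) (Tr.leaf (nat_lit 409)) (Tr.leaf (nat_lit 419799)))) (Tr.node (nat_lit 2048) (Tr.leaf (nat_lit 1679033)) (Tr.node (nat_lit 7424) (Tr.leaf (nat_lit 104935)) (Tr.leaf (nat_lit 1678705))))))))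

noncomputable def jt153 : Tr :=
  (Tr.node (nat_lit 139904) (Tr.node (nat_lit 76224) (Tr.node (nat_lit 31296) (Tr.node (nat_lit 17152) (Tr.node (nat_lit 12416) (Tr.leaf (nat_lit 419660)) (Tr.leaf (nat_lit 419553))) (Tr.node (nat_lit 9472) (Tr.leaf (nat_lit 419512)) (Tr.node (nat_lit 1088) (Tr.leaf (nat_lit 429496729)) (Tr.leaf (nat_lit 104855))))) (Tr.node (nat_lit 12992) (Tr.node (nat_lit 7104) (Tr.leaf (nat_lit 1677557)) (Tr.leaf (nat_lit 419328))) (Tr.node (nat_lit 1216) (Tr.leaf (nat_lit 419276)) (Tr.node (nat_lit 23616) (Tr.leaf (nat_lit 1677066)) (Tr.leaf (nat_lit 419062)))))) (Tr.node (nat_lit 33024) (Tr.node (nat_lit 7040) (Tr.node (nat_lit 4736) (Tr.leaf (nat_lit 419000)) (Tr.leaf (nat_lit 418959))) (Tr.node (nat_lit 13184) (Tr.leaf (nat_lit 1675757)) (Tr.node (nat_lit 8768) (Tr.leaf (nat_lit 409)) (Tr.leaf (nat_lit 104687))))) (Tr.node (nat_lit 12992) (Tr.node (nat_lit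 8832) (Tr.leaf (nat_lit 418714)) (Tr.node (nat_lit 640) (Tr.leaf (nat_lit 418638)) (Tr.leaf (nat_lit 418633)))) (Tr.node (nat_lit 3520) (Tr.leaf (nat_lit 418602)) (Tr.node (nat_lit 7104) (Tr.leaf (nat_lit 418572)) (Tr.leaf (nat_lit 418510))))))) (Tr.node (nat_lit 66560) (Tr.node (nat_lit 25920) (Tr.node (nat_lit 7104) (Tr.node (nat_lit 4736) (Tr.leaf (nat_lit 1673798)) (Tr.leaf (nat_lit 418408))) (Tr.node (nat_lit 11776) (Tr.leaf (nat_lit 418388)) (Tr.node (nat_lit 3520) (Tr.leaf (nat_lit 1673146)) (Tr.leaf (nat_lit 418256))))) (Tr.node (nat_lit 16768) (Tr.node (nat_lit 2368) (Tr.leaf (nat_lit 418225)) (Tr.node (nat_lit 11776) (Tr.leaf (nat_lit 1672820)) (Tr.leaf (nat_lit 418103)))) (Tr.node (nat_lit 13888) (Tr.leaf (nat_lit 104520)) (Tr.node (nat_lit 4736) (Tr.leaf (nat_lit 1671844)) (Tr.leaf (nat_lit 417920)))))) (Tr.node (nat_lit 44160) (Tr.node (nat_lit 11712) (Tr.node (nat_lit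 4160) (Tr.leaf (nat_lit 417874)) (Tr.leaf (nat_lit 417839))) (Tr.node (nat_lit 20672) (Tr.leaf (nat_lit 26110)) (Tr.node (nat_lit 5120) (Tr.leaf (nat_lit 1670381)) (Tr.leaf (nat_lit 407))))) (Tr.node (nat_lit 21184) (Tr.node (nat_lit 2752) (Tr.leaf (nat_lit 417493)) (Tr.node (nat_lit 13696) (Tr.leaf (nat_lit 104367)) (Tr.leaf (nat_lit 417351)))) (Tr.node (nat_lit 2368) (Tr.leaf (nat_lit 1669244)) (Tr.node (nat_lit 4672) (Tr.leaf (nat_lit 417290)) (Tr.leaf (nat_lit 417250))))))))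

noncomputable def jt154 : Tr :=
  (Tr.node (nat_lit 154944) (Tr.node (nat_lit 84544) (Tr.node (nat_lit 41024) (Tr.node (nat_lit 22336) (Tr.node (nat_lit 14080) (Tr.leaf (nat_lit 417230)) (Tr.leaf (nat_lit 417108))) (Tr.node (nat_lit 16448) (Tr.leaf (nat_lit 417037)) (Tr.node (nat_lit 1152) (Tr.leaf (nat_lit 416896)) (Tr.leaf (nat_lit 416885))))) (Tr.node (nat_lit 15360) (Tr.node (nat_lit 5952) (Tr.leaf (nat_lit 104219)) (Tr.leaf (nat_lit 26676815))) (Tr.node (nat_lit 1152) (Tr.leaf (nat_lit 416744)) (Tr.node (nat_lit 3520) (Tr.leaf (nat_lit 416734)) (Tr.leaf (nat_lit 416703)))))) (Tr.node (nat_lit 28160) (Tr.node (nat_lit 13824) (Tr.node (nat_lit 11776) (Tr.leaf (nat_lit 1666007)) (Tr.leaf (nat_lit 416400))) (Tr.node (nat_lit 256) (Tr.leaf (nat_lit 104095)) (Tr.node (nat_lit 1216) (Tr.leaf (nat_lit 416380)) (Tr.leaf (nat_lit 416370))))) (Tr.node (nat_lit 20032) (Tr.node (nat_lit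 3520) (Tr.leaf (nat_lit 1665038)) (Tr.node (nat_lit 1216) (Tr.leaf (nat_lit 416229)) (Tr.leaf (nat_lit 416219)))) (Tr.node (nat_lit 8128) (Tr.leaf (nat_lit 104021)) (Tr.node (nat_lit 4672) (Tr.leaf (nat_lit 1664071)) (Tr.leaf (nat_lit 1663909))))))) (Tr.node (nat_lit 70272) (Tr.node (nat_lit 32704) (Tr.node (nat_lit 4672) (Tr.node (nat_lit 1600) (Tr.leaf (nat_lit 415896)) (Tr.leaf (nat_lit 6498))) (Tr.node (nat_lit 2368) (Tr.leaf (nat_lit 1663426)) (Tr.node (nat_lit 15232) (Tr.leaf (nat_lit 415836)) (Tr.leaf (nat_lit 415705))))) (Tr.node (nat_lit 21184) (Tr.node (nat_lit 64) (Tr.leaf (nat_lit 103903)) (Tr.node (nat_lit 16384) (Tr.leaf (nat_lit 415615)) (Tr.leaf (nat_lit 415474)))) (Tr.node (nat_lit 3968) (Tr.leaf (nat_lit 415434)) (Tr.node (nat_lit 10048) (Tr.leaf (nat_lit 103849)) (Tr.leaf (nat_lit 415313)))))) (Tr.node (nat_lit 32704) (Tr.node (nat_lit 14016) (Tr.node (nat_lit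 8192) (Tr.leaf (nat_lit 415293)) (Tr.leaf (nat_lit 415223))) (Tr.node (nat_lit 8768) (Tr.leaf (nat_lit 415173)) (Tr.node (nat_lit 5248) (Tr.leaf (nat_lit 415098)) (Tr.leaf (nat_lit 1660211))))) (Tr.node (nat_lit 16384) (Tr.node (nat_lit 9408) (Tr.leaf (nat_lit 415012)) (Tr.node (nat_lit 2624) (Tr.leaf (nat_lit 414932)) (Tr.leaf (nat_lit 414910)))) (Tr.node (nat_lit 18688) (Tr.leaf (nat_lit 414872)) (Tr.node (nat_lit 7040) (Tr.leaf (nat_lit 414712)) (Tr.leaf (nat_lit 414652))))))))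

noncomputable def jt155 : Tr :=
  (Tr.node (nat_lit 167936) (Tr.node (nat_lit 81728) (Tr.node (nat_lit 14016) (Tr.node (nat_lit 4672) (Tr.node (nat_lit 4480) (Tr.leaf (nat_lit 6633154)) (Tr.leaf (nat_lit 404))) (Tr.node (nat_lit 2304) (Tr.leaf (nat_lit 414532)) (Tr.node (nat_lit 4672) (Tr.leaf (nat_lit 414512)) (Tr.leaf (nat_lit 414472))))) (Tr.node (nat_lit 32704) (Tr.node (nat_lit 18688) (Tr.leaf (nat_lit 414452)) (Tr.leaf (nat_lit 414292))) (Tr.node (nat_lit 23296) (Tr.leaf (nat_lit 1656689)) (Tr.node (nat_lit 4672) (Tr.leaf (nat_lit 1655891)) (Tr.leaf (nat_lit 1655731)))))) (Tr.node (nat_lit 17472) (Tr.node (nat_lit 5824) (Tr.node (nat_lit 2304) (Tr.leaf (nat_lit 413873)) (Tr.leaf (nat_lit 413853))) (Tr.node (nat_lit 1152) (Tr.leaf (nat_lit 413823)) (Tr.node (nat_lit 9344) (Tr.leaf (nat_lit 413813)) (Tr.leaf (nat_lit 413733))))) (Tr.node (nat_lit 12800) (Tr.node (nat_lit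 3136) (Tr.leaf (nat_lit 413723)) (Tr.node (nat_lit 8704) (Tr.leaf (nat_lit 404)) (Tr.leaf (nat_lit 103405)))) (Tr.node (nat_lit 41920) (Tr.leaf (nat_lit 6617823)) (Tr.node (nat_lit 4672) (Tr.leaf (nat_lit 413255)) (Tr.leaf (nat_lit 413216))))))) (Tr.node (nat_lit 53504) (Tr.node (nat_lit 20928) (Tr.node (nat_lit 10304) (Tr.node (nat_lit 4608) (Tr.leaf (nat_lit 1652546)) (Tr.leaf (nat_lit 413096))) (Tr.node (nat_lit 1024) (Tr.leaf (nat_lit 403)) (Tr.node (nat_lit 7296) (Tr.leaf (nat_lit 413039)) (Tr.leaf (nat_lit 26430567))))) (Tr.node (nat_lit 15104) (Tr.node (nat_lit 2432) (Tr.leaf (nat_lit 412957)) (Tr.node (nat_lit 9216) (Tr.leaf (nat_lit 103234)) (Tr.leaf (nat_lit 412858)))) (Tr.node (nat_lit 5824) (Tr.leaf (nat_lit 412828)) (Tr.node (nat_lit 4672) (Tr.leaf (nat_lit 412779)) (Tr.leaf (nat_lit 1650958)))))) (Tr.node (nat_lit 23232) (Tr.node (nat_lit 6976) (Tr.node (nat_lit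 2304) (Tr.leaf (nat_lit 412680)) (Tr.leaf (nat_lit 1650640))) (Tr.node (nat_lit 9280) (Tr.leaf (nat_lit 412620)) (Tr.node (nat_lit 4672) (Tr.leaf (nat_lit 412541)) (Tr.leaf (nat_lit 1650006))))) (Tr.node (nat_lit 25600) (Tr.node (nat_lit 11648) (Tr.leaf (nat_lit 1649927)) (Tr.node (nat_lit 9280) (Tr.leaf (nat_lit 412382)) (Tr.leaf (nat_lit 412303)))) (Tr.node (nat_lit 4096) (Tr.leaf (nat_lit 412264)) (Tr.node (nat_lit 2880) (Tr.leaf (nat_lit 6441)) (Tr.leaf (nat_lit 412204))))))))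

noncomputable def jt156 : Tr :=
  (Tr.node (nat_lit 119616) (Tr.node (nat_lit 46784) (Tr.node (nat_lit 14336) (Tr.node (nat_lit 4992) (Tr.node (nat_lit 384) (Tr.leaf (nat_lit 103047)) (Tr.leaf (nat_lit 1648739))) (Tr.node (nat_lit 4096) (Tr.leaf (nat_lit 412145)) (Tr.node (nat_lit 2880) (Tr.leaf (nat_lit 412110)) (Tr.leaf (nat_lit 412086))))) (Tr.node (nat_lit 8128) (Tr.node (nat_lit 4608) (Tr.leaf (nat_lit 412066)) (Tr.leaf (nat_lit 1648107))) (Tr.node (nat_lit 256) (Tr.leaf (nat_lit 411997)) (Tr.node (nat_lit 12480) (Tr.leaf (nat_lit 102998)) (Tr.leaf (nat_lit 411888)))))) (Tr.node (nat_lit 48768) (Tr.node (nat_lit 16256) (Tr.node (nat_lit 7616) (Tr.leaf (nat_lit 1647159)) (Tr.leaf (nat_lit 102931))) (Tr.node (nat_lit 6976) (Tr.leaf (nat_lit 411651)) (Tr.node (nat_lit 3456) (Tr.leaf (nat_lit 411592)) (Tr.leaf (nat_lit 411562))))) (Tr.node (nat_lit 12160) (Tr.node (nat_lit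 2304) (Tr.leaf (nat_lit 411375)) (Tr.node (nat_lit 1088) (Tr.leaf (nat_lit 411355)) (Tr.leaf (nat_lit 1606)))) (Tr.node (nat_lit 4032) (Tr.leaf (nat_lit 411272)) (Tr.node (nat_lit 4608) (Tr.leaf (nat_lit 1644951)) (Tr.leaf (nat_lit 411198))))))) (Tr.node (nat_lit 89344) (Tr.node (nat_lit 40768) (Tr.node (nat_lit 24576) (Tr.node (nat_lit 6016) (Tr.leaf (nat_lit 102792)) (Tr.leaf (nat_lit 411119))) (Tr.node (nat_lit 6912) (Tr.leaf (nat_lit 410962)) (Tr.node (nat_lit 6976) (Tr.leaf (nat_lit 410903)) (Tr.leaf (nat_lit 410844))))) (Tr.node (nat_lit 13888) (Tr.node (nat_lit 6976) (Tr.leaf (nat_lit 410824)) (Tr.node (nat_lit 1152) (Tr.leaf (nat_lit 1643063)) (Tr.leaf (nat_lit 410755)))) (Tr.node (nat_lit 11584) (Tr.leaf (nat_lit 410706)) (Tr.node (nat_lit 9280) (Tr.leaf (nat_lit 1642434)) (Tr.leaf (nat_lit 410530)))))) (Tr.node (nat_lit 27776) (Tr.node (nat_lit 6976) (Tr.node (nat_lit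 4672) (Tr.leaf (nat_lit 1641650)) (Tr.leaf (nat_lit 410373))) (Tr.node (nat_lit 4608) (Tr.leaf (nat_lit 410353)) (Tr.node (nat_lit 128) (Tr.leaf (nat_lit 410314)) (Tr.leaf (nat_lit 102578))))) (Tr.node (nat_lit 13888) (Tr.node (nat_lit 4608) (Tr.leaf (nat_lit 410177)) (Tr.node (nat_lit 2304) (Tr.leaf (nat_lit 6562211)) (Tr.leaf (nat_lit 410118)))) (Tr.node (nat_lit 6912) (Tr.leaf (nat_lit 410059)) (Tr.node (nat_lit 2816) (Tr.leaf (nat_lit 410001)) (Tr.leaf (nat_lit 6405))))))))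

noncomputable def jt157 : Tr :=
  (Tr.node (nat_lit 138432) (Tr.node (nat_lit 46528) (Tr.node (nat_lit 21952) (Tr.node (nat_lit 8064) (Tr.node (nat_lit 6144) (Tr.leaf (nat_lit 409971)) (Tr.leaf (nat_lit 102479))) (Tr.node (nat_lit 2432) (Tr.leaf (nat_lit 1639613)) (Tr.node (nat_lit 6848) (Tr.leaf (nat_lit 102470)) (Tr.leaf (nat_lit 6557201))))) (Tr.node (nat_lit 9216) (Tr.node (nat_lit 6912) (Tr.leaf (nat_lit 409786)) (Tr.leaf (nat_lit 409727))) (Tr.node (nat_lit 6400) (Tr.leaf (nat_lit 409707)) (Tr.node (nat_lit 7488) (Tr.leaf (nat_lit 409654)) (Tr.leaf (nat_lit 1638362)))))) (Tr.node (nat_lit 30848) (Tr.node (nat_lit 12352) (Tr.node (nat_lit 5440) (Tr.leaf (nat_lit 102394)) (Tr.leaf (nat_lit 409532))) (Tr.node (nat_lit 10368) (Tr.leaf (nat_lit 409473)) (Tr.node (nat_lit 3456) (Tr.leaf (nat_lit 409385)) (Tr.leaf (nat_lit 1637425))))) (Tr.node (nat_lit 29952) (Tr.node (nat_lit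 3456) (Tr.leaf (nat_lit 409317)) (Tr.node (nat_lit 5760) (Tr.leaf (nat_lit 409288)) (Tr.leaf (nat_lit 409239)))) (Tr.node (nat_lit 5376) (Tr.leaf (nat_lit 409063)) (Tr.node (nat_lit 1088) (Tr.leaf (nat_lit 399)) (Tr.leaf (nat_lit 6390))))))) (Tr.node (nat_lit 97088) (Tr.node (nat_lit 51840) (Tr.node (nat_lit 21888) (Tr.node (nat_lit 8064) (Tr.leaf (nat_lit 408801)) (Tr.leaf (nat_lit 1634932))) (Tr.node (nat_lit 23040) (Tr.leaf (nat_lit 408616)) (Tr.node (nat_lit 4608) (Tr.leaf (nat_lit 1633688)) (Tr.leaf (nat_lit 408383))))) (Tr.node (nat_lit 20672) (Tr.node (nat_lit 6848) (Tr.leaf (nat_lit 408363)) (Tr.node (nat_lit 13248) (Tr.leaf (nat_lit 408305)) (Tr.leaf (nat_lit 408194)))) (Tr.node (nat_lit 4608) (Tr.leaf (nat_lit 408189)) (Tr.node (nat_lit 6912) (Tr.leaf (nat_lit 408150)) (Tr.leaf (nat_lit 408092)))))) (Tr.node (nat_lit 35200) (Tr.node (nat_lit 17984) (Tr.node (nat_lit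 5824) (Tr.leaf (nat_lit 407982)) (Tr.leaf (nat_lit 398))) (Tr.node (nat_lit 5760) (Tr.leaf (nat_lit 407830)) (Tr.node (nat_lit 2048) (Tr.leaf (nat_lit 407782)) (Tr.leaf (nat_lit 6371))))) (Tr.node (nat_lit 27584) (Tr.node (nat_lit 9216) (Tr.leaf (nat_lit 1630742)) (Tr.node (nat_lit 448) (Tr.leaf (nat_lit 407608)) (Tr.leaf (nat_lit 101900)))) (Tr.node (nat_lit 9152) (Tr.leaf (nat_lit 407453)) (Tr.node (nat_lit 3456) (Tr.leaf (nat_lit 407376)) (Tr.leaf (nat_lit 407347))))))))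

noncomputable def jt158 : Tr :=
  (Tr.node (nat_lit 91712) (Tr.node (nat_lit 43584) (Tr.node (nat_lit 13760) (Tr.node (nat_lit 3392) (Tr.node (nat_lit 2240) (Tr.leaf (nat_lit 407279)) (Tr.leaf (nat_lit 407260))) (Tr.node (nat_lit 1088) (Tr.leaf (nat_lit 407250)) (Tr.node (nat_lit 2368) (Tr.leaf (nat_lit 101810)) (Tr.leaf (nat_lit 407221))))) (Tr.node (nat_lit 16064) (Tr.node (nat_lit 6848) (Tr.leaf (nat_lit 407163)) (Tr.leaf (nat_lit 1628423))) (Tr.node (nat_lit 4544) (Tr.leaf (nat_lit 1628114)) (Tr.node (nat_lit 6912) (Tr.leaf (nat_lit 406990)) (Tr.leaf (nat_lit 406932)))))) (Tr.node (nat_lit 27456) (Tr.node (nat_lit 11456) (Tr.node (nat_lit 7488) (Tr.leaf (nat_lit 406913)) (Tr.leaf (nat_lit 101712))) (Tr.node (nat_lit 2304) (Tr.leaf (nat_lit 406816)) (Tr.node (nat_lit 6848) (Tr.leaf (nat_lit 406797)) (Tr.leaf (nat_lit 406739))))) (Tr.node (nat_lit 6912) (Tr.node (nat_lit 1152)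 (Tr.leaf (nat_lit 406681)) (Tr.node (nat_lit 3456) (Tr.leaf (nat_lit 406672)) (Tr.leaf (nat_lit 406643)))) (Tr.node (nat_lit 6848) (Tr.leaf (nat_lit 1626496)) (Tr.node (nat_lit 4608) (Tr.leaf (nat_lit 1626265)) (Tr.leaf (nat_lit 406527))))))) (Tr.node (nat_lit 99648) (Tr.node (nat_lit 44352) (Tr.node (nat_lit 14848) (Tr.node (nat_lit 11456) (Tr.leaf (nat_lit 406508)) (Tr.leaf (nat_lit 1625649))) (Tr.node (nat_lit 5760) (Tr.leaf (nat_lit 406383)) (Tr.node (nat_lit 13696) (Tr.leaf (nat_lit 1625342)) (Tr.leaf (nat_lit 406220))))) (Tr.node (nat_lit 31168) (Tr.node (nat_lit 8320) (Tr.leaf (nat_lit 101533)) (Tr.node (nat_lit 9152) (Tr.leaf (nat_lit 406066)) (Tr.leaf (nat_lit 405989)))) (Tr.node (nat_lit 4544) (Tr.leaf (nat_lit 1623499)) (Tr.node (nat_lit 8128) (Tr.leaf (nat_lit 405836)) (Tr.leaf (nat_lit 101442)))))) (Tr.node (nat_lit 23872) (Tr.node (nat_lit 13056) (Tr.node (nat_lit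 1024) (Tr.leaf (nat_lit 1584)) (Tr.leaf (nat_lit 1622655))) (Tr.node (nat_lit 7616) (Tr.leaf (nat_lit 405563)) (Tr.node (nat_lit 896) (Tr.leaf (nat_lit 101374)) (Tr.leaf (nat_lit 6487866))))) (Tr.node (nat_lit 27392) (Tr.node (nat_lit 6848) (Tr.leaf (nat_lit 405472)) (Tr.node (nat_lit 10304) (Tr.leaf (nat_lit 405415)) (Tr.leaf (nat_lit 405328)))) (Tr.node (nat_lit 4608) (Tr.leaf (nat_lit 405242)) (Tr.node (nat_lit 2304) (Tr.leaf (nat_lit 405204)) (Tr.leaf (nat_lit 6482969))))))))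

noncomputable def jt159 : Tr :=
  (Tr.node (nat_lit 189120) (Tr.node (nat_lit 59328) (Tr.node (nat_lit 31936) (Tr.node (nat_lit 11392) (Tr.node (nat_lit 6848) (Tr.leaf (nat_lit 405128)) (Tr.leaf (nat_lit 405070))) (Tr.node (nat_lit 9152) (Tr.leaf (nat_lit 1620131)) (Tr.node (nat_lit 3392) (Tr.leaf (nat_lit 404956)) (Tr.leaf (nat_lit 404927))))) (Tr.node (nat_lit 3968) (Tr.node (nat_lit 2240) (Tr.leaf (nat_lit 404860)) (Tr.leaf (nat_lit 404841))) (Tr.node (nat_lit 1152) (Tr.leaf (nat_lit 404827)) (Tr.node (nat_lit 10816) (Tr.leaf (nat_lit 6325)) (Tr.leaf (nat_lit 1618909)))))) (Tr.node (nat_lit 43264) (Tr.node (nat_lit 13632) (Tr.node (nat_lit 6784) (Tr.leaf (nat_lit 404632)) (Tr.leaf (nat_lit 1618299))) (Tr.node (nat_lit 2304) (Tr.leaf (nat_lit 404517)) (Tr.node (nat_lit 20480) (Tr.leaf (nat_lit 404498)) (Tr.leaf (nat_lit 404327))))) (Tr.node (nat_lit 41024) (Tr.node (nat_lit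 20608) (Tr.leaf (nat_lit 25873296)) (Tr.node (nat_lit 11648) (Tr.leaf (nat_lit 101024)) (Tr.leaf (nat_lit 6312)))) (Tr.node (nat_lit 11904) (Tr.leaf (nat_lit 1615712)) (Tr.node (nat_lit 6272) (Tr.leaf (nat_lit 403828)) (Tr.leaf (nat_lit 403776))))))) (Tr.node (nat_lit 34112) (Tr.node (nat_lit 13632) (Tr.node (nat_lit 3904) (Tr.node (nat_lit 3392) (Tr.leaf (nat_lit 403548)) (Tr.leaf (nat_lit 403520))) (Tr.node (nat_lit 5184) (Tr.leaf (nat_lit 394)) (Tr.node (nat_lit 1152) (Tr.leaf (nat_lit 403472)) (Tr.leaf (nat_lit 403463))))) (Tr.node (nat_lit 13632) (Tr.node (nat_lit 8064) (Tr.leaf (nat_lit 403434)) (Tr.node (nat_lit 1024) (Tr.leaf (nat_lit 6302)) (Tr.leaf (nat_lit 6453744)))) (Tr.node (nat_lit 2240) (Tr.leaf (nat_lit 403321)) (Tr.node (nat_lit 4096) (Tr.leaf (nat_lit 403302)) (Tr.leaf (nat_lit 100817)))))) (Tr.node (nat_lit 54464) (Tr.node (nat_lit 14400) (Tr.node (nat_lit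 13632) (Tr.leaf (nat_lit 403264)) (Tr.leaf (nat_lit 403150))) (Tr.node (nat_lit 6016) (Tr.leaf (nat_lit 100786)) (Tr.node (nat_lit 27264) (Tr.leaf (nat_lit 403094)) (Tr.leaf (nat_lit 402867))))) (Tr.node (nat_lit 17024) (Tr.node (nat_lit 9088) (Tr.leaf (nat_lit 402810)) (Tr.node (nat_lit 6848) (Tr.leaf (nat_lit 402734)) (Tr.leaf (nat_lit 402678)))) (Tr.node (nat_lit 5696) (Tr.leaf (nat_lit 402668)) (Tr.node (nat_lit 6528) (Tr.leaf (nat_lit 402621)) (Tr.leaf (nat_lit 100641))))))))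

noncomputable def jt160 : Tr :=
  (Tr.node (nat_lit 135936) (Tr.node (nat_lit 58944) (Tr.node (nat_lit 27200) (Tr.node (nat_lit 4544) (Tr.node (nat_lit 3392) (Tr.leaf (nat_lit 402565)) (Tr.leaf (nat_lit 402536))) (Tr.node (nat_lit 9088) (Tr.leaf (nat_lit 1610109)) (Tr.node (nat_lit 4544) (Tr.leaf (nat_lit 6439231)) (Tr.leaf (nat_lit 402414))))) (Tr.node (nat_lit 18176) (Tr.node (nat_lit 4544) (Tr.leaf (nat_lit 1609355)) (Tr.node (nat_lit 7872) (Tr.leaf (nat_lit 1609204)) (Tr.leaf (nat_lit 100558)))) (Tr.node (nat_lit 2240) (Tr.leaf (nat_lit 402188)) (Tr.node (nat_lit 6848) (Tr.leaf (nat_lit 402169)) (Tr.leaf (nat_lit 402112)))))) (Tr.node (nat_lit 43456) (Tr.node (nat_lit 15872) (Tr.node (nat_lit 13632) (Tr.leaf (nat_lit 1608300)) (Tr.leaf (nat_lit 401962))) (Tr.node (nat_lit 4544) (Tr.leaf (nat_lit 401943)) (Tr.node (nat_lit 12480) (Tr.leaf (nat_lit 401905)) (Tr.leaf (nat_lit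 401802))))) (Tr.node (nat_lit 10944) (Tr.node (nat_lit 1088) (Tr.leaf (nat_lit 1569)) (Tr.node (nat_lit 8704) (Tr.leaf (nat_lit 25106)) (Tr.leaf (nat_lit 401633)))) (Tr.node (nat_lit 13568) (Tr.leaf (nat_lit 401624)) (Tr.node (nat_lit 2240) (Tr.leaf (nat_lit 401511)) (Tr.leaf (nat_lit 401492))))))) (Tr.node (nat_lit 88128) (Tr.node (nat_lit 29632) (Tr.node (nat_lit 13568) (Tr.node (nat_lit 2752) (Tr.leaf (nat_lit 401436)) (Tr.leaf (nat_lit 100353))) (Tr.node (nat_lit 5120) (Tr.leaf (nat_lit 401323)) (Tr.node (nat_lit 8448) (Tr.leaf (nat_lit 401281)) (Tr.leaf (nat_lit 401211))))) (Tr.node (nat_lit 31424) (Tr.node (nat_lit 21056) (Tr.leaf (nat_lit 391)) (Tr.node (nat_lit 4736) (Tr.leaf (nat_lit 1566)) (Tr.leaf (nat_lit 400977)))) (Tr.node (nat_lit 11264) (Tr.leaf (nat_lit 400930)) (Tr.node (nat_lit 9088) (Tr.leaf (nat_lit 400836)) (Tr.leaf (nat_lit 400762)))))) (Tr.node (nat_lit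 27584) (Tr.node (nat_lit 11328) (Tr.node (nat_lit 1152) (Tr.leaf (nat_lit 400706)) (Tr.leaf (nat_lit 1602786))) (Tr.node (nat_lit 13504) (Tr.leaf (nat_lit 400612)) (Tr.node (nat_lit 832) (Tr.leaf (nat_lit 1602001)) (Tr.leaf (nat_lit 391))))) (Tr.node (nat_lit 13248) (Tr.node (nat_lit 10816) (Tr.leaf (nat_lit 100119)) (Tr.node (nat_lit 2240) (Tr.leaf (nat_lit 400388)) (Tr.leaf (nat_lit 400369)))) (Tr.node (nat_lit 11136) (Tr.leaf (nat_lit 100092)) (Tr.node (nat_lit 5632) (Tr.leaf (nat_lit 1601106)) (Tr.leaf (nat_lit 400229))))))))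

noncomputable def jt161 : Tr :=
  (Tr.node (nat_lit 153728) (Tr.node (nat_lit 87872) (Tr.node (nat_lit 32704) (Tr.node (nat_lit 20288) (Tr.node (nat_lit 4160) (Tr.leaf (nat_lit 400220)) (Tr.leaf (nat_lit 100046))) (Tr.node (nat_lit 6784) (Tr.leaf (nat_lit 6400845)) (Tr.node (nat_lit 2240) (Tr.leaf (nat_lit 399996)) (Tr.leaf (nat_lit 1599913))))) (Tr.node (nat_lit 10176) (Tr.node (nat_lit 4544) (Tr.leaf (nat_lit 399950)) (Tr.leaf (nat_lit 399913))) (Tr.node (nat_lit 27008) (Tr.leaf (nat_lit 399866)) (Tr.node (nat_lit 6784) (Tr.leaf (nat_lit 399643)) (Tr.leaf (nat_lit 399587)))))) (Tr.node (nat_lit 29312) (Tr.node (nat_lit 8704) (Tr.node (nat_lit 7616) (Tr.leaf (nat_lit 399494)) (Tr.leaf (nat_lit 6241))) (Tr.node (nat_lit 11584) (Tr.leaf (nat_lit 99855)) (Tr.node (nat_lit 6720) (Tr.leaf (nat_lit 399327)) (Tr.leaf (nat_lit 399271))))) (Tr.node (nat_lit 24704) (Tr.node (nat_lit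 14592) (Tr.leaf (nat_lit 399253)) (Tr.node (nat_lit 5632) (Tr.leaf (nat_lit 399132)) (Tr.leaf (nat_lit 399086)))) (Tr.node (nat_lit 2240) (Tr.leaf (nat_lit 399049)) (Tr.node (nat_lit 6784) (Tr.leaf (nat_lit 399030)) (Tr.leaf (nat_lit 398975))))))) (Tr.node (nat_lit 75776) (Tr.node (nat_lit 17408) (Tr.node (nat_lit 6080) (Tr.node (nat_lit 2048) (Tr.leaf (nat_lit 398951)) (Tr.leaf (nat_lit 1558))) (Tr.node (nat_lit 2304) (Tr.leaf (nat_lit 99725)) (Tr.node (nat_lit 4160) (Tr.leaf (nat_lit 398882)) (Tr.leaf (nat_lit 389))))) (Tr.node (nat_lit 33664) (Tr.node (nat_lit 13504) (Tr.leaf (nat_lit 398808)) (Tr.node (nat_lit 6720) (Tr.leaf (nat_lit 398697)) (Tr.leaf (nat_lit 398641)))) (Tr.node (nat_lit 13504) (Tr.leaf (nat_lit 398530)) (Tr.node (nat_lit 5760) (Tr.leaf (nat_lit 6374719)) (Tr.leaf (nat_lit 6224)))))) (Tr.node (nat_lit 14592) (Tr.node (nat_lit 6784) (Tr.node (nat_lit 2240)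 (Tr.leaf (nat_lit 398327)) (Tr.leaf (nat_lit 398309))) (Tr.node (nat_lit 1664) (Tr.leaf (nat_lit 6372355)) (Tr.node (nat_lit 5056) (Tr.leaf (nat_lit 398258)) (Tr.leaf (nat_lit 398216))))) (Tr.node (nat_lit 19072) (Tr.node (nat_lit 1152) (Tr.leaf (nat_lit 99551)) (Tr.node (nat_lit 6720) (Tr.leaf (nat_lit 398198)) (Tr.leaf (nat_lit 398142)))) (Tr.node (nat_lit 13504) (Tr.leaf (nat_lit 1592202)) (Tr.node (nat_lit 3328) (Tr.leaf (nat_lit 397940)) (Tr.leaf (nat_lit 397912))))))))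

noncomputable def jt162 : Tr :=
  (Tr.node (nat_lit 105216) (Tr.node (nat_lit 47040) (Tr.node (nat_lit 20160) (Tr.node (nat_lit 4480) (Tr.node (nat_lit 3136) (Tr.leaf (nat_lit 397811)) (Tr.leaf (nat_lit 388))) (Tr.node (nat_lit 2240) (Tr.leaf (nat_lit 397774)) (Tr.node (nat_lit 5120) (Tr.leaf (nat_lit 397755)) (Tr.leaf (nat_lit 99428))))) (Tr.node (nat_lit 11200) (Tr.node (nat_lit 6720) (Tr.leaf (nat_lit 397645)) (Tr.leaf (nat_lit 397590))) (Tr.node (nat_lit 2240) (Tr.leaf (nat_lit 397553)) (Tr.node (nat_lit 4480) (Tr.leaf (nat_lit 1590139)) (Tr.leaf (nat_lit 397498)))))) (Tr.node (nat_lit 33024) (Tr.node (nat_lit 17920) (Tr.node (nat_lit 13440) (Tr.leaf (nat_lit 397424)) (Tr.leaf (nat_lit 1589257))) (Tr.node (nat_lit 8960) (Tr.leaf (nat_lit 397277)) (Tr.node (nat_lit 4480) (Tr.leaf (nat_lit 397204)) (Tr.leaf (nat_lit 397167))))) (Tr.node (nat_lit 11776) (Tr.node (nat_lit 384)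 (Tr.leaf (nat_lit 397153)) (Tr.node (nat_lit 6912) (Tr.leaf (nat_lit 99287)) (Tr.leaf (nat_lit 25414007)))) (Tr.node (nat_lit 6720) (Tr.leaf (nat_lit 397057)) (Tr.node (nat_lit 2240) (Tr.leaf (nat_lit 397002)) (Tr.leaf (nat_lit 396983))))))) (Tr.node (nat_lit 81664) (Tr.node (nat_lit 33600) (Tr.node (nat_lit 12352) (Tr.node (nat_lit 2240) (Tr.leaf (nat_lit 1587788)) (Tr.leaf (nat_lit 396928))) (Tr.node (nat_lit 1088) (Tr.leaf (nat_lit 387)) (Tr.node (nat_lit 13440) (Tr.leaf (nat_lit 396837)) (Tr.leaf (nat_lit 396727))))) (Tr.node (nat_lit 22336) (Tr.node (nat_lit 6656) (Tr.leaf (nat_lit 396672)) (Tr.node (nat_lit 2240) (Tr.leaf (nat_lit 1586468)) (Tr.leaf (nat_lit 396598)))) (Tr.node (nat_lit 6720) (Tr.leaf (nat_lit 396489)) (Tr.node (nat_lit 17856) (Tr.leaf (nat_lit 396434)) (Tr.leaf (nat_lit 396287)))))) (Tr.node (nat_lit 15808) (Tr.node (nat_lit 5504) (Tr.node (nat_lit 2176)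 (Tr.leaf (nat_lit 386)) (Tr.leaf (nat_lit 396260))) (Tr.node (nat_lit 6720) (Tr.leaf (nat_lit 396232)) (Tr.node (nat_lit 1664) (Tr.leaf (nat_lit 396178)) (Tr.leaf (nat_lit 24760))))) (Tr.node (nat_lit 8704) (Tr.node (nat_lit 960) (Tr.leaf (nat_lit 99037)) (Tr.node (nat_lit 4416) (Tr.leaf (nat_lit 99035)) (Tr.leaf (nat_lit 396105)))) (Tr.node (nat_lit 3328) (Tr.leaf (nat_lit 396077)) (Tr.node (nat_lit 6720) (Tr.leaf (nat_lit 396050)) (Tr.leaf (nat_lit 1583982))))))))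

noncomputable def jt163 : Tr :=
  (Tr.node (nat_lit 154240) (Tr.node (nat_lit 74112) (Tr.node (nat_lit 48256) (Tr.node (nat_lit 9984) (Tr.node (nat_lit 7232) (Tr.leaf (nat_lit 395945)) (Tr.leaf (nat_lit 395886))) (Tr.node (nat_lit 17344) (Tr.leaf (nat_lit 98965)) (Tr.node (nat_lit 17792) (Tr.leaf (nat_lit 395721)) (Tr.leaf (nat_lit 395576))))) (Tr.node (nat_lit 5248) (Tr.node (nat_lit 2432) (Tr.leaf (nat_lit 98887)) (Tr.leaf (nat_lit 395530))) (Tr.node (nat_lit 4992) (Tr.leaf (nat_lit 395507)) (Tr.node (nat_lit 6720) (Tr.leaf (nat_lit 395466)) (Tr.leaf (nat_lit 395412)))))) (Tr.node (nat_lit 40064) (Tr.node (nat_lit 21184) (Tr.node (nat_lit 1152) (Tr.leaf (nat_lit 6325430)) (Tr.leaf (nat_lit 98832))) (Tr.node (nat_lit 9984) (Tr.leaf (nat_lit 395166)) (Tr.node (nat_lit 3904) (Tr.leaf (nat_lit 395084)) (Tr.leaf (nat_lit 395053))))) (Tr.node (nat_lit 14528) (Tr.node (nat_lit 4480)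 (Tr.leaf (nat_lit 395012)) (Tr.node (nat_lit 2240) (Tr.leaf (nat_lit 394975)) (Tr.leaf (nat_lit 394957)))) (Tr.node (nat_lit 3328) (Tr.leaf (nat_lit 394894)) (Tr.node (nat_lit 2176) (Tr.leaf (nat_lit 394866)) (Tr.leaf (nat_lit 394848))))))) (Tr.node (nat_lit 64448) (Tr.node (nat_lit 29696) (Tr.node (nat_lit 17792) (Tr.node (nat_lit 12608) (Tr.leaf (nat_lit 394685)) (Tr.leaf (nat_lit 385))) (Tr.node (nat_lit 1024) (Tr.leaf (nat_lit 394540)) (Tr.node (nat_lit 7872) (Tr.leaf (nat_lit 98633)) (Tr.leaf (nat_lit 1577871))))) (Tr.node (nat_lit 14784) (Tr.node (nat_lit 7040) (Tr.leaf (nat_lit 98610)) (Tr.node (nat_lit 1664) (Tr.leaf (nat_lit 394386)) (Tr.leaf (nat_lit 394372)))) (Tr.node (nat_lit 13312) (Tr.leaf (nat_lit 1577292)) (Tr.node (nat_lit 2240) (Tr.leaf (nat_lit 394214)) (Tr.leaf (nat_lit 394196)))))) (Tr.node (nat_lit 20032) (Tr.node (nat_lit 6720) (Tr.node (nat_lit 2240)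 (Tr.leaf (nat_lit 394160)) (Tr.leaf (nat_lit 394142))) (Tr.node (nat_lit 5824) (Tr.leaf (nat_lit 394106)) (Tr.node (nat_lit 3904) (Tr.leaf (nat_lit 6157)) (Tr.leaf (nat_lit 1539))))) (Tr.node (nat_lit 22208) (Tr.node (nat_lit 10304) (Tr.leaf (nat_lit 393997)) (Tr.node (nat_lit 1920) (Tr.leaf (nat_lit 98478)) (Tr.leaf (nat_lit 393898)))) (Tr.node (nat_lit 1088) (Tr.leaf (nat_lit 1575267)) (Tr.node (nat_lit 320) (Tr.leaf (nat_lit 393807)) (Tr.leaf (nat_lit 98451))))))))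

noncomputable def jt164 : Tr :=
  (Tr.node (nat_lit 162816) (Tr.node (nat_lit 74624) (Tr.node (nat_lit 53248) (Tr.node (nat_lit 26624) (Tr.node (nat_lit 18880) (Tr.leaf (nat_lit 393780)) (Tr.leaf (nat_lit 393627))) (Tr.node (nat_lit 2240) (Tr.leaf (nat_lit 393564)) (Tr.node (nat_lit 17728) (Tr.leaf (nat_lit 393546)) (Tr.leaf (nat_lit 393402))))) (Tr.node (nat_lit 5504) (Tr.node (nat_lit 3328) (Tr.leaf (nat_lit 393348)) (Tr.leaf (nat_lit 384))) (Tr.node (nat_lit 3328) (Tr.leaf (nat_lit 393303)) (Tr.node (nat_lit 6656) (Tr.leaf (nat_lit 393276)) (Tr.leaf (nat_lit 393222)))))) (Tr.node (nat_lit 53888) (Tr.node (nat_lit 11840) (Tr.node (nat_lit 5184) (Tr.leaf (nat_lit 98293)) (Tr.leaf (nat_lit 1572528))) (Tr.node (nat_lit 19968) (Tr.leaf (nat_lit 393078)) (Tr.node (nat_lit 13248) (Tr.leaf (nat_lit 392916)) (Tr.leaf (nat_lit 1571233))))) (Tr.node (nat_lit 26560) (Tr.node (nat_lit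 14400) (Tr.leaf (nat_lit 1570946)) (Tr.node (nat_lit 3328) (Tr.leaf (nat_lit 392619)) (Tr.leaf (nat_lit 1570371)))) (Tr.node (nat_lit 3328) (Tr.leaf (nat_lit 392521)) (Tr.node (nat_lit 1088) (Tr.leaf (nat_lit 392494)) (Tr.leaf (nat_lit 392485))))))) (Tr.node (nat_lit 63040) (Tr.node (nat_lit 20736) (Tr.node (nat_lit 15552) (Tr.node (nat_lit 3328) (Tr.leaf (nat_lit 392458)) (Tr.leaf (nat_lit 392431))) (Tr.node (nat_lit 1024) (Tr.leaf (nat_lit 98083)) (Tr.node (nat_lit 3008) (Tr.leaf (nat_lit 392324)) (Tr.leaf (nat_lit 24518))))) (Tr.node (nat_lit 17984) (Tr.node (nat_lit 9152) (Tr.leaf (nat_lit 392290)) (Tr.node (nat_lit 2176) (Tr.leaf (nat_lit 392216)) (Tr.leaf (nat_lit 392198)))) (Tr.node (nat_lit 6592) (Tr.leaf (nat_lit 392144)) (Tr.node (nat_lit 12928) (Tr.leaf (nat_lit 392091)) (Tr.leaf (nat_lit 382)))))) (Tr.node (nat_lit 19840) (Tr.node (nat_lit 8832) (Tr.node (nat_lit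 2176) (Tr.leaf (nat_lit 391948)) (Tr.leaf (nat_lit 391930))) (Tr.node (nat_lit 4416) (Tr.leaf (nat_lit 6270025)) (Tr.node (nat_lit 6528) (Tr.leaf (nat_lit 391840)) (Tr.leaf (nat_lit 6121))))) (Tr.node (nat_lit 13248) (Tr.node (nat_lit 2240) (Tr.leaf (nat_lit 391787)) (Tr.node (nat_lit 3264) (Tr.leaf (nat_lit 391769)) (Tr.leaf (nat_lit 391742)))) (Tr.node (nat_lit 576) (Tr.leaf (nat_lit 391680)) (Tr.node (nat_lit 1664) (Tr.leaf (nat_lit 391675)) (Tr.leaf (nat_lit 391662))))))))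

noncomputable def jt165 : Tr :=
  (Tr.node (nat_lit 107968) (Tr.node (nat_lit 66112) (Tr.node (nat_lit 39680) (Tr.node (nat_lit 2176) (Tr.node (nat_lit 1088) (Tr.leaf (nat_lit 391626)) (Tr.leaf (nat_lit 24476))) (Tr.node (nat_lit 6592) (Tr.leaf (nat_lit 391608)) (Tr.node (nat_lit 13248) (Tr.leaf (nat_lit 391555)) (Tr.leaf (nat_lit 1565791))))) (Tr.node (nat_lit 22016) (Tr.node (nat_lit 11072) (Tr.leaf (nat_lit 25043541)) (Tr.leaf (nat_lit 97803))) (Tr.node (nat_lit 1152) (Tr.leaf (nat_lit 391127)) (Tr.node (nat_lit 1344) (Tr.leaf (nat_lit 391118)) (Tr.leaf (nat_lit 6111)))))) (Tr.node (nat_lit 18752) (Tr.node (nat_lit 8832) (Tr.node (nat_lit 2240) (Tr.leaf (nat_lit 1564366)) (Tr.leaf (nat_lit 391073))) (Tr.node (nat_lit 1664) (Tr.leaf (nat_lit 1564081)) (Tr.node (nat_lit 2752) (Tr.leaf (nat_lit 391006)) (Tr.leaf (nat_lit 1563938))))) (Tr.node (nat_lit 14784) (Tr.node (nat_lit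 1088) (Tr.leaf (nat_lit 390940)) (Tr.node (nat_lit 6592) (Tr.leaf (nat_lit 390931)) (Tr.leaf (nat_lit 1563511)))) (Tr.node (nat_lit 1728) (Tr.leaf (nat_lit 1526)) (Tr.node (nat_lit 4416) (Tr.leaf (nat_lit 1563227)) (Tr.leaf (nat_lit 390771))))))) (Tr.node (nat_lit 85824) (Tr.node (nat_lit 39616) (Tr.node (nat_lit 26432) (Tr.node (nat_lit 24256) (Tr.leaf (nat_lit 390753)) (Tr.leaf (nat_lit 390558))) (Tr.node (nat_lit 3136) (Tr.leaf (nat_lit 390540)) (Tr.node (nat_lit 3456) (Tr.leaf (nat_lit 97628)) (Tr.leaf (nat_lit 390487))))) (Tr.node (nat_lit 37440) (Tr.node (nat_lit 6656) (Tr.leaf (nat_lit 390433)) (Tr.node (nat_lit 17600) (Tr.leaf (nat_lit 390380)) (Tr.leaf (nat_lit 390238)))) (Tr.node (nat_lit 6592) (Tr.leaf (nat_lit 390132)) (Tr.node (nat_lit 1024) (Tr.leaf (nat_lit 390079)) (Tr.leaf (nat_lit 97517)))))) (Tr.node (nat_lit 17600) (Tr.node (nat_lit 7680) (Tr.node (nat_lit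 6592) (Tr.leaf (nat_lit 1560246)) (Tr.leaf (nat_lit 390008))) (Tr.node (nat_lit 640) (Tr.leaf (nat_lit 389999)) (Tr.node (nat_lit 4864) (Tr.leaf (nat_lit 380)) (Tr.leaf (nat_lit 389955))))) (Tr.node (nat_lit 19904) (Tr.node (nat_lit 8768) (Tr.leaf (nat_lit 389919)) (Tr.node (nat_lit 7680) (Tr.leaf (nat_lit 389849)) (Tr.leaf (nat_lit 389787)))) (Tr.node (nat_lit 6464) (Tr.leaf (nat_lit 1522)) (Tr.node (nat_lit 2176) (Tr.leaf (nat_lit 389707)) (Tr.leaf (nat_lit 389689))))))))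

noncomputable def jt166 : Tr :=
  (Tr.node (nat_lit 104704) (Tr.node (nat_lit 52672) (Tr.node (nat_lit 19776) (Tr.node (nat_lit 5440) (Tr.node (nat_lit 4416) (Tr.leaf (nat_lit 389636)) (Tr.leaf (nat_lit 6233624))) (Tr.node (nat_lit 1024) (Tr.leaf (nat_lit 97398)) (Tr.node (nat_lit 10496) (Tr.leaf (nat_lit 24349)) (Tr.leaf (nat_lit 6085))))) (Tr.node (nat_lit 6592) (Tr.node (nat_lit 4352) (Tr.leaf (nat_lit 389477)) (Tr.leaf (nat_lit 389442))) (Tr.node (nat_lit 9856) (Tr.leaf (nat_lit 389424)) (Tr.node (nat_lit 10944) (Tr.leaf (nat_lit 389345)) (Tr.leaf (nat_lit 389257)))))) (Tr.node (nat_lit 22080) (Tr.node (nat_lit 9856) (Tr.node (nat_lit 4416) (Tr.leaf (nat_lit 389213)) (Tr.leaf (nat_lit 1556711))) (Tr.node (nat_lit 1088) (Tr.leaf (nat_lit 389133)) (Tr.node (nat_lit 2240) (Tr.leaf (nat_lit 389125)) (Tr.leaf (nat_lit 389107))))) (Tr.node (nat_lit 8640) (Tr.node (nat_lit 4224)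 (Tr.leaf (nat_lit 97258)) (Tr.node (nat_lit 1088) (Tr.leaf (nat_lit 389001)) (Tr.leaf (nat_lit 388992)))) (Tr.node (nat_lit 2176) (Tr.leaf (nat_lit 388966)) (Tr.node (nat_lit 6592) (Tr.leaf (nat_lit 388948)) (Tr.leaf (nat_lit 1555583))))))) (Tr.node (nat_lit 76992) (Tr.node (nat_lit 31232) (Tr.node (nat_lit 18112) (Tr.node (nat_lit 4992) (Tr.leaf (nat_lit 388794)) (Tr.leaf (nat_lit 1555020))) (Tr.node (nat_lit 2176) (Tr.leaf (nat_lit 388649)) (Tr.node (nat_lit 6592) (Tr.leaf (nat_lit 388632)) (Tr.leaf (nat_lit 388579))))) (Tr.node (nat_lit 10176) (Tr.node (nat_lit 7104) (Tr.leaf (nat_lit 388544)) (Tr.node (nat_lit 2752) (Tr.leaf (nat_lit 388487)) (Tr.leaf (nat_lit 388465)))) (Tr.node (nat_lit 24832) (Tr.leaf (nat_lit 6069)) (Tr.node (nat_lit 6592) (Tr.leaf (nat_lit 388263)) (Tr.leaf (nat_lit 388210)))))) (Tr.node (nat_lit 35200) (Tr.node (nat_lit 11648) (Tr.node (nat_lit 2432)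 (Tr.leaf (nat_lit 97044)) (Tr.leaf (nat_lit 388157))) (Tr.node (nat_lit 1664) (Tr.leaf (nat_lit 97020)) (Tr.node (nat_lit 8768) (Tr.leaf (nat_lit 388070)) (Tr.leaf (nat_lit 388000))))) (Tr.node (nat_lit 43712) (Tr.node (nat_lit 6528) (Tr.leaf (nat_lit 387894)) (Tr.node (nat_lit 30592) (Tr.leaf (nat_lit 1551369)) (Tr.leaf (nat_lit 387597)))) (Tr.node (nat_lit 1024) (Tr.leaf (nat_lit 6055)) (Tr.node (nat_lit 5440) (Tr.leaf (nat_lit 1513)) (Tr.leaf (nat_lit 96873))))))))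

noncomputable def jt167 : Tr :=
  (Tr.node (nat_lit 130880) (Tr.node (nat_lit 76672) (Tr.node (nat_lit 51072) (Tr.node (nat_lit 15296) (Tr.node (nat_lit 9856) (Tr.leaf (nat_lit 1549970)) (Tr.leaf (nat_lit 387413))) (Tr.node (nat_lit 6528) (Tr.leaf (nat_lit 387370)) (Tr.node (nat_lit 13120) (Tr.leaf (nat_lit 387317)) (Tr.leaf (nat_lit 1548852))))) (Tr.node (nat_lit 11712) (Tr.node (nat_lit 7872) (Tr.leaf (nat_lit 96770)) (Tr.leaf (nat_lit 387021))) (Tr.node (nat_lit 2688) (Tr.leaf (nat_lit 6046)) (Tr.node (nat_lit 8704) (Tr.leaf (nat_lit 386968)) (Tr.leaf (nat_lit 386899)))))) (Tr.node (nat_lit 14976) (Tr.node (nat_lit 6784) (Tr.node (nat_lit 1920) (Tr.leaf (nat_lit 386879)) (Tr.leaf (nat_lit 1547457))) (Tr.node (nat_lit 3840) (Tr.leaf (nat_lit 386825)) (Tr.node (nat_lit 2688) (Tr.leaf (nat_lit 6188713)) (Tr.leaf (nat_lit 386772))))) (Tr.node (nat_lit 10560) (Tr.node (nat_lit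 2176) (Tr.leaf (nat_lit 386759)) (Tr.node (nat_lit 6528) (Tr.leaf (nat_lit 386742)) (Tr.leaf (nat_lit 386690)))) (Tr.node (nat_lit 11200) (Tr.leaf (nat_lit 96668)) (Tr.node (nat_lit 4352) (Tr.leaf (nat_lit 1546342)) (Tr.leaf (nat_lit 386550))))))) (Tr.node (nat_lit 65280) (Tr.node (nat_lit 29184) (Tr.node (nat_lit 6528) (Tr.node (nat_lit 5824) (Tr.leaf (nat_lit 386446)) (Tr.leaf (nat_lit 377))) (Tr.node (nat_lit 2176) (Tr.leaf (nat_lit 386394)) (Tr.node (nat_lit 17408) (Tr.leaf (nat_lit 1545508)) (Tr.leaf (nat_lit 6179809))))) (Tr.node (nat_lit 10176) (Tr.node (nat_lit 2368) (Tr.leaf (nat_lit 96553)) (Tr.node (nat_lit 1088) (Tr.leaf (nat_lit 386194)) (Tr.leaf (nat_lit 386185)))) (Tr.node (nat_lit 8512) (Tr.leaf (nat_lit 96533)) (Tr.node (nat_lit 4352) (Tr.leaf (nat_lit 1544257)) (Tr.leaf (nat_lit 386029)))))) (Tr.node (nat_lit 42368) (Tr.node (nat_lit 15232) (Tr.node (nat_lit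 9792) (Tr.leaf (nat_lit 385925)) (Tr.leaf (nat_lit 385847))) (Tr.node (nat_lit 23872) (Tr.leaf (nat_lit 385804)) (Tr.node (nat_lit 2688) (Tr.leaf (nat_lit 385613)) (Tr.leaf (nat_lit 1506))))) (Tr.node (nat_lit 9792) (Tr.node (nat_lit 5440) (Tr.leaf (nat_lit 385587)) (Tr.node (nat_lit 2752) (Tr.leaf (nat_lit 1542178)) (Tr.leaf (nat_lit 385523)))) (Tr.node (nat_lit 6848) (Tr.leaf (nat_lit 385510)) (Tr.node (nat_lit 1856) (Tr.leaf (nat_lit 96363)) (Tr.leaf (nat_lit 385440))))))))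

noncomputable def jt168 : Tr :=
  (Tr.node (nat_lit 143168) (Tr.node (nat_lit 64704) (Tr.node (nat_lit 26048) (Tr.node (nat_lit 4352) (Tr.node (nat_lit 320) (Tr.leaf (nat_lit 385337)) (Tr.leaf (nat_lit 6020))) (Tr.node (nat_lit 2176) (Tr.leaf (nat_lit 385302)) (Tr.node (nat_lit 10880) (Tr.leaf (nat_lit 1541140)) (Tr.leaf (nat_lit 1540795))))) (Tr.node (nat_lit 20160) (Tr.node (nat_lit 4352) (Tr.leaf (nat_lit 6162076)) (Tr.leaf (nat_lit 385095))) (Tr.node (nat_lit 10176) (Tr.leaf (nat_lit 96242)) (Tr.node (nat_lit 6592) (Tr.leaf (nat_lit 96222)) (Tr.leaf (nat_lit 384836)))))) (Tr.node (nat_lit 30784) (Tr.node (nat_lit 4736) (Tr.node (nat_lit 3904) (Tr.leaf (nat_lit 96205)) (Tr.leaf (nat_lit 24049))) (Tr.node (nat_lit 13056) (Tr.leaf (nat_lit 384784)) (Tr.node (nat_lit 8640) (Tr.leaf (nat_lit 1538725)) (Tr.leaf (nat_lit 384612))))) (Tr.node (nat_lit 32512) (Tr.node (nat_lit 8320)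 (Tr.leaf (nat_lit 6153248)) (Tr.node (nat_lit 11200) (Tr.leaf (nat_lit 96127)) (Tr.leaf (nat_lit 384423)))) (Tr.node (nat_lit 8640) (Tr.leaf (nat_lit 384319)) (Tr.node (nat_lit 2688) (Tr.leaf (nat_lit 384251)) (Tr.leaf (nat_lit 384229))))))) (Tr.node (nat_lit 45440) (Tr.node (nat_lit 17280) (Tr.node (nat_lit 11392) (Tr.node (nat_lit 10816) (Tr.leaf (nat_lit 384199)) (Tr.leaf (nat_lit 384113))) (Tr.node (nat_lit 832) (Tr.leaf (nat_lit 96027)) (Tr.node (nat_lit 704) (Tr.leaf (nat_lit 6001)) (Tr.leaf (nat_lit 384096))))) (Tr.node (nat_lit 8640) (Tr.node (nat_lit 192) (Tr.leaf (nat_lit 384062)) (Tr.node (nat_lit 5248) (Tr.leaf (nat_lit 96015)) (Tr.leaf (nat_lit 384019)))) (Tr.node (nat_lit 4352) (Tr.leaf (nat_lit 383993)) (Tr.node (nat_lit 12992) (Tr.leaf (nat_lit 1535836)) (Tr.leaf (nat_lit 383856)))))) (Tr.node (nat_lit 40000) (Tr.node (nat_lit 23744) (Tr.node (nat_lit 10816) (Tr.leaf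 (nat_lit 383839)) (Tr.leaf (nat_lit 1535013))) (Tr.node (nat_lit 5440) (Tr.leaf (nat_lit 383650)) (Tr.node (nat_lit 1088) (Tr.leaf (nat_lit 383607)) (Tr.leaf (nat_lit 383599))))) (Tr.node (nat_lit 10432) (Tr.node (nat_lit 1728) (Tr.leaf (nat_lit 383522)) (Tr.node (nat_lit 8000) (Tr.leaf (nat_lit 374)) (Tr.leaf (nat_lit 383444)))) (Tr.node (nat_lit 7936) (Tr.leaf (nat_lit 95859)) (Tr.node (nat_lit 14016) (Tr.leaf (nat_lit 383376)) (Tr.leaf (nat_lit 383265))))))))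

noncomputable def jt169 : Tr :=
  (Tr.node (nat_lit 112128) (Tr.node (nat_lit 50688) (Tr.node (nat_lit 26432) (Tr.node (nat_lit 10816) (Tr.node (nat_lit 8640) (Tr.leaf (nat_lit 383239)) (Tr.leaf (nat_lit 383171))) (Tr.node (nat_lit 2112) (Tr.leaf (nat_lit 95788)) (Tr.node (nat_lit 4032) (Tr.leaf (nat_lit 1532548)) (Tr.leaf (nat_lit 383105))))) (Tr.node (nat_lit 11328) (Tr.node (nat_lit 8064) (Tr.leaf (nat_lit 1496)) (Tr.leaf (nat_lit 382966))) (Tr.node (nat_lit 6144) (Tr.leaf (nat_lit 382940)) (Tr.node (nat_lit 1408) (Tr.leaf (nat_lit 95723)) (Tr.leaf (nat_lit 382880)))))) (Tr.node (nat_lit 29120) (Tr.node (nat_lit 4928) (Tr.node (nat_lit 1088) (Tr.leaf (nat_lit 382838)) (Tr.leaf (nat_lit 382829))) (Tr.node (nat_lit 11264) (Tr.leaf (nat_lit 5981)) (Tr.node (nat_lit 1088) (Tr.leaf (nat_lit 382710)) (Tr.leaf (nat_lit 382701))))) (Tr.node (nat_lit 10816) (Tr.node (nat_lit 384)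 (Tr.leaf (nat_lit 382608)) (Tr.node (nat_lit 6080) (Tr.leaf (nat_lit 95651)) (Tr.leaf (nat_lit 382556)))) (Tr.node (nat_lit 10624) (Tr.leaf (nat_lit 1530091)) (Tr.node (nat_lit 2304) (Tr.leaf (nat_lit 382438)) (Tr.leaf (nat_lit 382420))))))) (Tr.node (nat_lit 64640) (Tr.node (nat_lit 35584) (Tr.node (nat_lit 3264) (Tr.node (nat_lit 1088) (Tr.leaf (nat_lit 382352)) (Tr.leaf (nat_lit 382344))) (Tr.node (nat_lit 9664) (Tr.leaf (nat_lit 382327)) (Tr.node (nat_lit 4352) (Tr.leaf (nat_lit 1529002)) (Tr.leaf (nat_lit 382216))))) (Tr.node (nat_lit 16640) (Tr.node (nat_lit 3200) (Tr.leaf (nat_lit 382072)) (Tr.node (nat_lit 7552) (Tr.leaf (nat_lit 1528186)) (Tr.leaf (nat_lit 381987)))) (Tr.node (nat_lit 3776) (Tr.leaf (nat_lit 95485)) (Tr.node (nat_lit 6464) (Tr.leaf (nat_lit 381910)) (Tr.leaf (nat_lit 381859)))))) (Tr.node (nat_lit 30080) (Tr.node (nat_lit 17216) (Tr.node (nat_lit 4288)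 (Tr.leaf (nat_lit 6109484)) (Tr.leaf (nat_lit 381808))) (Tr.node (nat_lit 2112) (Tr.leaf (nat_lit 1526828)) (Tr.node (nat_lit 3712) (Tr.leaf (nat_lit 381690)) (Tr.leaf (nat_lit 23853))))) (Tr.node (nat_lit 34432) (Tr.node (nat_lit 15104) (Tr.leaf (nat_lit 381605)) (Tr.node (nat_lit 6400) (Tr.leaf (nat_lit 381486)) (Tr.leaf (nat_lit 1525743)))) (Tr.node (nat_lit 11264) (Tr.leaf (nat_lit 381334)) (Tr.node (nat_lit 5888) (Tr.leaf (nat_lit 381245)) (Tr.leaf (nat_lit 381198))))))))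

noncomputable def jt170 : Tr :=
  (Tr.node (nat_lit 113664) (Tr.node (nat_lit 55808) (Tr.node (nat_lit 35200) (Tr.node (nat_lit 12864) (Tr.node (nat_lit 11968) (Tr.leaf (nat_lit 382619)) (Tr.leaf (nat_lit 372))) (Tr.node (nat_lit 7872) (Tr.leaf (nat_lit 1524118)) (Tr.node (nat_lit 4992) (Tr.leaf (nat_lit 95241)) (Tr.leaf (nat_lit 1523713))))) (Tr.node (nat_lit 3456) (Tr.node (nat_lit 1280) (Tr.leaf (nat_lit 5950)) (Tr.leaf (nat_lit 380843))) (Tr.node (nat_lit 10688) (Tr.leaf (nat_lit 380827)) (Tr.node (nat_lit 2176) (Tr.leaf (nat_lit 380742)) (Tr.leaf (nat_lit 380725)))))) (Tr.node (nat_lit 43712) (Tr.node (nat_lit 30272) (Tr.node (nat_lit 8576) (Tr.leaf (nat_lit 380692)) (Tr.leaf (nat_lit 23789))) (Tr.node (nat_lit 8320) (Tr.leaf (nat_lit 380453)) (Tr.node (nat_lit 2176) (Tr.leaf (nat_lit 380388)) (Tr.leaf (nat_lit 95092))))) (Tr.node (nat_lit 6656) (Tr.node (nat_lit 384) (Tr.leaf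 (nat_lit 95087)) (Tr.node (nat_lit 3072) (Tr.leaf (nat_lit 371)) (Tr.leaf (nat_lit 380321)))) (Tr.node (nat_lit 1088) (Tr.leaf (nat_lit 380295)) (Tr.node (nat_lit 2112) (Tr.leaf (nat_lit 380287)) (Tr.leaf (nat_lit 380270))))))) (Tr.node (nat_lit 59456) (Tr.node (nat_lit 34304) (Tr.node (nat_lit 14272) (Tr.node (nat_lit 2176) (Tr.leaf (nat_lit 380237)) (Tr.leaf (nat_lit 6083523))) (Tr.node (nat_lit 13568) (Tr.leaf (nat_lit 95031)) (Tr.node (nat_lit 4288) (Tr.leaf (nat_lit 380018)) (Tr.leaf (nat_lit 379984))))) (Tr.node (nat_lit 13888) (Tr.node (nat_lit 6400) (Tr.leaf (nat_lit 379967)) (Tr.node (nat_lit 4288) (Tr.leaf (nat_lit 1519669)) (Tr.leaf (nat_lit 379883)))) (Tr.node (nat_lit 5376) (Tr.leaf (nat_lit 379858)) (Tr.node (nat_lit 4288) (Tr.leaf (nat_lit 1519266)) (Tr.leaf (nat_lit 379783)))))) (Tr.node (nat_lit 36864) (Tr.node (nat_lit 19776) (Tr.node (nat_lit 11200) (Tr.leaf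 (nat_lit 379770)) (Tr.leaf (nat_lit 6074918))) (Tr.node (nat_lit 6400) (Tr.leaf (nat_lit 379615)) (Tr.node (nat_lit 8320) (Tr.leaf (nat_lit 379564)) (Tr.leaf (nat_lit 1482))))) (Tr.node (nat_lit 15744) (Tr.node (nat_lit 1536) (Tr.leaf (nat_lit 379481)) (Tr.node (nat_lit 8000) (Tr.leaf (nat_lit 94867)) (Tr.leaf (nat_lit 370)))) (Tr.node (nat_lit 2496) (Tr.leaf (nat_lit 94839)) (Tr.node (nat_lit 1024) (Tr.leaf (nat_lit 94834)) (Tr.leaf (nat_lit 379330))))))))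

noncomputable def jt171 : Tr :=
  (Tr.node (nat_lit 111040) (Tr.node (nat_lit 57728) (Tr.node (nat_lit 25664) (Tr.node (nat_lit 9664) (Tr.node (nat_lit 2176) (Tr.leaf (nat_lit 1517120)) (Tr.leaf (nat_lit 379263))) (Tr.node (nat_lit 3200) (Tr.leaf (nat_lit 379204)) (Tr.node (nat_lit 2112) (Tr.leaf (nat_lit 379179)) (Tr.leaf (nat_lit 379162))))) (Tr.node (nat_lit 12800) (Tr.node (nat_lit 2112) (Tr.leaf (nat_lit 1516316)) (Tr.leaf (nat_lit 379062))) (Tr.node (nat_lit 8576) (Tr.leaf (nat_lit 378978)) (Tr.node (nat_lit 6400) (Tr.leaf (nat_lit 378911)) (Tr.leaf (nat_lit 378861)))))) (Tr.node (nat_lit 21312) (Tr.node (nat_lit 3200) (Tr.node (nat_lit 2112) (Tr.leaf (nat_lit 378828)) (Tr.leaf (nat_lit 378811))) (Tr.node (nat_lit 5120) (Tr.leaf (nat_lit 378803)) (Tr.node (nat_lit 6592) (Tr.leaf (nat_lit 94690)) (Tr.leaf (nat_lit 378711))))) (Tr.node (nat_lit 19200) (Tr.node (nat_lit 4288)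 (Tr.leaf (nat_lit 378661)) (Tr.node (nat_lit 6400) (Tr.leaf (nat_lit 378628)) (Tr.leaf (nat_lit 378577)))) (Tr.node (nat_lit 6272) (Tr.leaf (nat_lit 378511)) (Tr.node (nat_lit 1088) (Tr.leaf (nat_lit 94615)) (Tr.leaf (nat_lit 23653))))))) (Tr.node (nat_lit 62848) (Tr.node (nat_lit 38400) (Tr.node (nat_lit 25600) (Tr.node (nat_lit 10688) (Tr.leaf (nat_lit 1513644)) (Tr.leaf (nat_lit 378327))) (Tr.node (nat_lit 1024) (Tr.leaf (nat_lit 1512845)) (Tr.node (nat_lit 3200) (Tr.leaf (nat_lit 378202)) (Tr.leaf (nat_lit 378177))))) (Tr.node (nat_lit 13312) (Tr.node (nat_lit 12224) (Tr.leaf (nat_lit 378111)) (Tr.node (nat_lit 512) (Tr.leaf (nat_lit 378015)) (Tr.leaf (nat_lit 1512046)))) (Tr.node (nat_lit 3712) (Tr.leaf (nat_lit 1476)) (Tr.node (nat_lit 6400) (Tr.leaf (nat_lit 377978)) (Tr.leaf (nat_lit 377928)))))) (Tr.node (nat_lit 17088) (Tr.node (nat_lit 2112) (Tr.node (nat_lit 1088)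 (Tr.leaf (nat_lit 94480)) (Tr.leaf (nat_lit 377911))) (Tr.node (nat_lit 3264) (Tr.leaf (nat_lit 94475)) (Tr.node (nat_lit 8512) (Tr.leaf (nat_lit 377878)) (Tr.leaf (nat_lit 6044992))))) (Tr.node (nat_lit 22336) (Tr.node (nat_lit 9536) (Tr.leaf (nat_lit 377787)) (Tr.node (nat_lit 10624) (Tr.leaf (nat_lit 377712)) (Tr.leaf (nat_lit 377629)))) (Tr.node (nat_lit 12544) (Tr.leaf (nat_lit 1510450)) (Tr.node (nat_lit 192) (Tr.leaf (nat_lit 94378)) (Tr.leaf (nat_lit 377513))))))))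

noncomputable def jt172 : Tr :=
  (Tr.node (nat_lit 118720) (Tr.node (nat_lit 40384) (Tr.node (nat_lit 19136) (Tr.node (nat_lit 12736) (Tr.node (nat_lit 8512) (Tr.leaf (nat_lit 377479)) (Tr.leaf (nat_lit 1509654))) (Tr.node (nat_lit 2112) (Tr.leaf (nat_lit 377380)) (Tr.node (nat_lit 2560) (Tr.leaf (nat_lit 377363)) (Tr.leaf (nat_lit 5895))))) (Tr.node (nat_lit 14848) (Tr.node (nat_lit 6336) (Tr.leaf (nat_lit 377330)) (Tr.leaf (nat_lit 1509124))) (Tr.node (nat_lit 1600) (Tr.leaf (nat_lit 377214)) (Tr.node (nat_lit 2688) (Tr.leaf (nat_lit 377202)) (Tr.leaf (nat_lit 377181)))))) (Tr.node (nat_lit 32704) (Tr.node (nat_lit 10624) (Tr.node (nat_lit 6400) (Tr.leaf (nat_lit 377165)) (Tr.leaf (nat_lit 377115))) (Tr.node (nat_lit 2112) (Tr.leaf (nat_lit 1508329)) (Tr.node (nat_lit 6400) (Tr.leaf (nat_lit 377065)) (Tr.leaf (nat_lit 24129029))))) (Tr.node (nat_lit 28928) (Tr.node (nat_lit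 9792) (Tr.leaf (nat_lit 368)) (Tr.node (nat_lit 14848) (Tr.leaf (nat_lit 376834)) (Tr.leaf (nat_lit 376718)))) (Tr.node (nat_lit 9536) (Tr.leaf (nat_lit 376685)) (Tr.node (nat_lit 3136) (Tr.leaf (nat_lit 376611)) (Tr.leaf (nat_lit 376586))))))) (Tr.node (nat_lit 61760) (Tr.node (nat_lit 32384) (Tr.node (nat_lit 11712) (Tr.node (nat_lit 8704) (Tr.leaf (nat_lit 23534)) (Tr.leaf (nat_lit 6023797))) (Tr.node (nat_lit 5504) (Tr.leaf (nat_lit 1470)) (Tr.node (nat_lit 12736) (Tr.leaf (nat_lit 1505685)) (Tr.leaf (nat_lit 376322))))) (Tr.node (nat_lit 10368) (Tr.node (nat_lit 8192) (Tr.leaf (nat_lit 94075)) (Tr.node (nat_lit 2112) (Tr.leaf (nat_lit 376239)) (Tr.leaf (nat_lit 1504893)))) (Tr.node (nat_lit 12608) (Tr.leaf (nat_lit 94055)) (Tr.node (nat_lit 4288) (Tr.leaf (nat_lit 376124)) (Tr.leaf (nat_lit 1504366)))))) (Tr.node (nat_lit 29632) (Tr.node (nat_lit 6336) (Tr.node (nat_lit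 5824) (Tr.leaf (nat_lit 376075)) (Tr.leaf (nat_lit 376029))) (Tr.node (nat_lit 6336) (Tr.leaf (nat_lit 376025)) (Tr.node (nat_lit 1088) (Tr.leaf (nat_lit 375976)) (Tr.leaf (nat_lit 375968))))) (Tr.node (nat_lit 15872) (Tr.node (nat_lit 6400) (Tr.leaf (nat_lit 375844)) (Tr.node (nat_lit 2880) (Tr.leaf (nat_lit 375795)) (Tr.leaf (nat_lit 375772)))) (Tr.node (nat_lit 3200) (Tr.leaf (nat_lit 375721)) (Tr.node (nat_lit 2112) (Tr.leaf (nat_lit 1502787)) (Tr.leaf (nat_lit 375680))))))))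

noncomputable def jt173 : Tr :=
  (Tr.node (nat_lit 143744) (Tr.node (nat_lit 68544) (Tr.node (nat_lit 35008) (Tr.node (nat_lit 16960) (Tr.node (nat_lit 4224) (Tr.leaf (nat_lit 375631)) (Tr.leaf (nat_lit 375598))) (Tr.node (nat_lit 12672) (Tr.leaf (nat_lit 1501999)) (Tr.node (nat_lit 2112) (Tr.leaf (nat_lit 375401)) (Tr.leaf (nat_lit 375384))))) (Tr.node (nat_lit 22144) (Tr.node (nat_lit 960) (Tr.leaf (nat_lit 93839)) (Tr.leaf (nat_lit 375352))) (Tr.node (nat_lit 6336) (Tr.leaf (nat_lit 375188)) (Tr.node (nat_lit 4224) (Tr.leaf (nat_lit 375139)) (Tr.leaf (nat_lit 1500425)))))) (Tr.node (nat_lit 39296) (Tr.node (nat_lit 7616) (Tr.node (nat_lit 4096) (Tr.leaf (nat_lit 93774)) (Tr.leaf (nat_lit 93766))) (Tr.node (nat_lit 4224) (Tr.leaf (nat_lit 1500163)) (Tr.node (nat_lit 25344) (Tr.leaf (nat_lit 375008)) (Tr.leaf (nat_lit 374811))))) (Tr.node (nat_lit 23232) (Tr.node (nat_lit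 6336) (Tr.leaf (nat_lit 374795)) (Tr.node (nat_lit 12672) (Tr.leaf (nat_lit 374746)) (Tr.leaf (nat_lit 1498592)))) (Tr.node (nat_lit 6336) (Tr.leaf (nat_lit 374615)) (Tr.node (nat_lit 6080) (Tr.leaf (nat_lit 374566)) (Tr.leaf (nat_lit 5851))))))) (Tr.node (nat_lit 50624) (Tr.node (nat_lit 24896) (Tr.node (nat_lit 6336) (Tr.node (nat_lit 3200) (Tr.leaf (nat_lit 1498070)) (Tr.leaf (nat_lit 374493))) (Tr.node (nat_lit 2112) (Tr.leaf (nat_lit 374468)) (Tr.node (nat_lit 10560) (Tr.leaf (nat_lit 1497808)) (Tr.leaf (nat_lit 374370))))) (Tr.node (nat_lit 13120) (Tr.node (nat_lit 448) (Tr.leaf (nat_lit 5848)) (Tr.node (nat_lit 8448) (Tr.leaf (nat_lit 374321)) (Tr.leaf (nat_lit 1497025)))) (Tr.node (nat_lit 6528) (Tr.leaf (nat_lit 374223)) (Tr.node (nat_lit 1856) (Tr.leaf (nat_lit 365)) (Tr.leaf (nat_lit 374158)))))) (Tr.node (nat_lit 14784) (Tr.node (nat_lit 6912) (Tr.node (nat_lit 5312)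 (Tr.leaf (nat_lit 5986017)) (Tr.leaf (nat_lit 374085))) (Tr.node (nat_lit 1536) (Tr.leaf (nat_lit 93518)) (Tr.node (nat_lit 1024) (Tr.leaf (nat_lit 374060)) (Tr.leaf (nat_lit 23378))))) (Tr.node (nat_lit 16832) (Tr.node (nat_lit 6336) (Tr.leaf (nat_lit 374012)) (Tr.node (nat_lit 4160) (Tr.leaf (nat_lit 373963)) (Tr.leaf (nat_lit 373930)))) (Tr.node (nat_lit 2112) (Tr.leaf (nat_lit 373881)) (Tr.node (nat_lit 3200) (Tr.leaf (nat_lit 5981848)) (Tr.leaf (nat_lit 373841))))))))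

noncomputable def jt174 : Tr :=
  (Tr.node (nat_lit 146560) (Tr.node (nat_lit 75072) (Tr.node (nat_lit 39296) (Tr.node (nat_lit 24576) (Tr.node (nat_lit 20928) (Tr.leaf (nat_lit 93456)) (Tr.leaf (nat_lit 93416))) (Tr.node (nat_lit 12608) (Tr.leaf (nat_lit 1494551)) (Tr.node (nat_lit 192) (Tr.leaf (nat_lit 373540)) (Tr.leaf (nat_lit 93384))))) (Tr.node (nat_lit 16832) (Tr.node (nat_lit 6336) (Tr.leaf (nat_lit 373524)) (Tr.leaf (nat_lit 5975606))) (Tr.node (nat_lit 8448) (Tr.leaf (nat_lit 373394)) (Tr.node (nat_lit 7360) (Tr.leaf (nat_lit 373329)) (Tr.leaf (nat_lit 373272)))))) (Tr.node (nat_lit 36288) (Tr.node (nat_lit 21056) (Tr.node (nat_lit 8448) (Tr.leaf (nat_lit 373248)) (Tr.leaf (nat_lit 373183))) (Tr.node (nat_lit 4160) (Tr.leaf (nat_lit 1492344)) (Tr.node (nat_lit 8448) (Tr.leaf (nat_lit 373053)) (Tr.leaf (nat_lit 1491955))))) (Tr.node (nat_lit 22592) (Tr.node (nat_lit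 7872) (Tr.leaf (nat_lit 372968)) (Tr.node (nat_lit 5248) (Tr.leaf (nat_lit 372907)) (Tr.leaf (nat_lit 372867)))) (Tr.node (nat_lit 6272) (Tr.leaf (nat_lit 372794)) (Tr.node (nat_lit 3968) (Tr.leaf (nat_lit 372746)) (Tr.leaf (nat_lit 372715))))))) (Tr.node (nat_lit 64896) (Tr.node (nat_lit 35648) (Tr.node (nat_lit 8576) (Tr.node (nat_lit 6272) (Tr.leaf (nat_lit 1490790)) (Tr.leaf (nat_lit 372649))) (Tr.node (nat_lit 8704) (Tr.leaf (nat_lit 1455)) (Tr.node (nat_lit 12096) (Tr.leaf (nat_lit 372564)) (Tr.leaf (nat_lit 372471))))) (Tr.node (nat_lit 14720) (Tr.node (nat_lit 2112) (Tr.leaf (nat_lit 372422)) (Tr.node (nat_lit 6336) (Tr.leaf (nat_lit 372406)) (Tr.leaf (nat_lit 372358)))) (Tr.node (nat_lit 4224) (Tr.leaf (nat_lit 5956958)) (Tr.node (nat_lit 8384) (Tr.leaf (nat_lit 372277)) (Tr.leaf (nat_lit 372213)))))) (Tr.node (nat_lit 25856) (Tr.node (nat_lit 11968) (Tr.node (nat_lit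 2240) (Tr.leaf (nat_lit 23262)) (Tr.leaf (nat_lit 1488723))) (Tr.node (nat_lit 11264) (Tr.leaf (nat_lit 5814)) (Tr.node (nat_lit 2560) (Tr.leaf (nat_lit 372019)) (Tr.leaf (nat_lit 363))))) (Tr.node (nat_lit 9344) (Tr.node (nat_lit 6784) (Tr.leaf (nat_lit 371999)) (Tr.node (nat_lit 1088) (Tr.leaf (nat_lit 371947)) (Tr.leaf (nat_lit 371939)))) (Tr.node (nat_lit 16320) (Tr.leaf (nat_lit 92981)) (Tr.node (nat_lit 12800) (Tr.leaf (nat_lit 371802)) (Tr.leaf (nat_lit 371703))))))))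

noncomputable def jt175 : Tr :=
  (Tr.node (nat_lit 94144) (Tr.node (nat_lit 46016) (Tr.node (nat_lit 25088) (Tr.node (nat_lit 5248) (Tr.node (nat_lit 2048) (Tr.leaf (nat_lit 371697)) (Tr.leaf (nat_lit 371681))) (Tr.node (nat_lit 7296) (Tr.leaf (nat_lit 371657)) (Tr.node (nat_lit 8384) (Tr.leaf (nat_lit 371601)) (Tr.leaf (nat_lit 5944591))))) (Tr.node (nat_lit 8384) (Tr.node (nat_lit 6336) (Tr.leaf (nat_lit 371504)) (Tr.leaf (nat_lit 1485826))) (Tr.node (nat_lit 1280) (Tr.leaf (nat_lit 371440)) (Tr.node (nat_lit 1856) (Tr.leaf (nat_lit 5803)) (Tr.leaf (nat_lit 371416)))))) (Tr.node (nat_lit 23808) (Tr.node (nat_lit 6336) (Tr.node (nat_lit 4224) (Tr.leaf (nat_lit 371344)) (Tr.leaf (nat_lit 371312))) (Tr.node (nat_lit 6272) (Tr.leaf (nat_lit 371296)) (Tr.node (nat_lit 4160) (Tr.leaf (nat_lit 371247)) (Tr.leaf (nat_lit 1484863))))) (Tr.node (nat_lit 5504) (Tr.node (nat_lit 832)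 (Tr.leaf (nat_lit 362)) (Tr.node (nat_lit 512) (Tr.leaf (nat_lit 371155)) (Tr.leaf (nat_lit 1484606)))) (Tr.node (nat_lit 12544) (Tr.leaf (nat_lit 371119)) (Tr.node (nat_lit 2112) (Tr.leaf (nat_lit 1484093)) (Tr.leaf (nat_lit 371007))))))) (Tr.node (nat_lit 60224) (Tr.node (nat_lit 20928) (Tr.node (nat_lit 14656) (Tr.node (nat_lit 12544) (Tr.leaf (nat_lit 370975)) (Tr.leaf (nat_lit 370879))) (Tr.node (nat_lit 1024) (Tr.leaf (nat_lit 370863)) (Tr.node (nat_lit 3136) (Tr.leaf (nat_lit 370855)) (Tr.leaf (nat_lit 370831))))) (Tr.node (nat_lit 27328) (Tr.node (nat_lit 12544) (Tr.leaf (nat_lit 370815)) (Tr.node (nat_lit 3136) (Tr.leaf (nat_lit 370719)) (Tr.leaf (nat_lit 370695)))) (Tr.node (nat_lit 3968) (Tr.leaf (nat_lit 23162)) (Tr.node (nat_lit 4224) (Tr.leaf (nat_lit 1482301)) (Tr.leaf (nat_lit 370543)))))) (Tr.node (nat_lit 46272) (Tr.node (nat_lit 17088) (Tr.node (nat_lit 8704)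 (Tr.leaf (nat_lit 5789)) (Tr.leaf (nat_lit 1481789))) (Tr.node (nat_lit 12544) (Tr.leaf (nat_lit 1481534)) (Tr.node (nat_lit 12480) (Tr.leaf (nat_lit 370287)) (Tr.leaf (nat_lit 370191))))) (Tr.node (nat_lit 33408) (Tr.node (nat_lit 20864) (Tr.leaf (nat_lit 370160)) (Tr.node (nat_lit 6272) (Tr.leaf (nat_lit 1480002)) (Tr.leaf (nat_lit 369952)))) (Tr.node (nat_lit 1344) (Tr.leaf (nat_lit 369905)) (Tr.node (nat_lit 4864) (Tr.leaf (nat_lit 92473)) (Tr.leaf (nat_lit 369857))))))))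

noncomputable def jt176 : Tr :=
  (Tr.node (nat_lit 160192) (Tr.node (nat_lit 97856) (Tr.node (nat_lit 49984) (Tr.node (nat_lit 37504) (Tr.node (nat_lit 29568) (Tr.leaf (nat_lit 369809)) (Tr.leaf (nat_lit 369583))) (Tr.node (nat_lit 4160) (Tr.leaf (nat_lit 369523)) (Tr.node (nat_lit 5184) (Tr.leaf (nat_lit 1477965)) (Tr.leaf (nat_lit 369451))))) (Tr.node (nat_lit 36480) (Tr.node (nat_lit 12480) (Tr.leaf (nat_lit 369427)) (Tr.node (nat_lit 13568) (Tr.leaf (nat_lit 369332)) (Tr.leaf (nat_lit 369229)))) (Tr.node (nat_lit 256) (Tr.leaf (nat_lit 92287)) (Tr.node (nat_lit 6976) (Tr.leaf (nat_lit 23071)) (Tr.leaf (nat_lit 369094)))))) (Tr.node (nat_lit 18688) (Tr.node (nat_lit 6208) (Tr.node (nat_lit 2048) (Tr.leaf (nat_lit 1476250)) (Tr.leaf (nat_lit 1476187))) (Tr.node (nat_lit 6784) (Tr.leaf (nat_lit 369015)) (Tr.node (nat_lit 1536) (Tr.leaf (nat_lit 368963)) (Tr.leaf (nat_lit 368951)))))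 (Tr.node (nat_lit 20800) (Tr.node (nat_lit 6272) (Tr.leaf (nat_lit 368920)) (Tr.node (nat_lit 2048) (Tr.leaf (nat_lit 368872)) (Tr.leaf (nat_lit 1475426)))) (Tr.node (nat_lit 12480) (Tr.leaf (nat_lit 368761)) (Tr.node (nat_lit 4160) (Tr.leaf (nat_lit 1474666)) (Tr.leaf (nat_lit 368635))))))) (Tr.node (nat_lit 51904) (Tr.node (nat_lit 11520) (Tr.node (nat_lit 2816) (Tr.node (nat_lit 2112) (Tr.leaf (nat_lit 368587)) (Tr.leaf (nat_lit 368571))) (Tr.node (nat_lit 3456) (Tr.leaf (nat_lit 359)) (Tr.node (nat_lit 2048) (Tr.leaf (nat_lit 368540)) (Tr.leaf (nat_lit 368524))))) (Tr.node (nat_lit 17024) (Tr.node (nat_lit 4096) (Tr.leaf (nat_lit 92124)) (Tr.node (nat_lit 11392) (Tr.leaf (nat_lit 368469)) (Tr.leaf (nat_lit 368382)))) (Tr.node (nat_lit 15104) (Tr.leaf (nat_lit 368370)) (Tr.node (nat_lit 3072) (Tr.leaf (nat_lit 368255)) (Tr.leaf (nat_lit 368232)))))) (Tr.node (nat_lit 24896)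 (Tr.node (nat_lit 15296) (Tr.node (nat_lit 10368) (Tr.leaf (nat_lit 368192)) (Tr.leaf (nat_lit 368113))) (Tr.node (nat_lit 1344) (Tr.leaf (nat_lit 5751)) (Tr.node (nat_lit 3776) (Tr.leaf (nat_lit 368066)) (Tr.leaf (nat_lit 92009))))) (Tr.node (nat_lit 22848) (Tr.node (nat_lit 4160) (Tr.leaf (nat_lit 368003)) (Tr.node (nat_lit 10816) (Tr.leaf (nat_lit 1471887)) (Tr.leaf (nat_lit 91972)))) (Tr.node (nat_lit 6208) (Tr.leaf (nat_lit 367830)) (Tr.node (nat_lit 6208) (Tr.leaf (nat_lit 367782)) (Tr.leaf (nat_lit 367735))))))))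

noncomputable def jt177 : Tr :=
  (Tr.node (nat_lit 113088) (Tr.node (nat_lit 63104) (Tr.node (nat_lit 32384) (Tr.node (nat_lit 13760) (Tr.node (nat_lit 11712) (Tr.leaf (nat_lit 367729)) (Tr.leaf (nat_lit 22977))) (Tr.node (nat_lit 4096) (Tr.leaf (nat_lit 367625)) (Tr.node (nat_lit 8320) (Tr.leaf (nat_lit 1470375)) (Tr.leaf (nat_lit 367531))))) (Tr.node (nat_lit 18624) (Tr.node (nat_lit 10368) (Tr.leaf (nat_lit 1469935)) (Tr.leaf (nat_lit 1469620))) (Tr.node (nat_lit 4160) (Tr.leaf (nat_lit 1469369)) (Tr.node (nat_lit 2048) (Tr.leaf (nat_lit 367310)) (Tr.leaf (nat_lit 367295)))))) (Tr.node (nat_lit 26176) (Tr.node (nat_lit 4480) (Tr.node (nat_lit 320) (Tr.leaf (nat_lit 91812)) (Tr.leaf (nat_lit 367248))) (Tr.node (nat_lit 8256) (Tr.leaf (nat_lit 5875468)) (Tr.node (nat_lit 3136) (Tr.leaf (nat_lit 367153)) (Tr.leaf (nat_lit 367130))))) (Tr.node (nat_lit 7744) (Tr.node (nat_lit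 3136) (Tr.leaf (nat_lit 367052)) (Tr.node (nat_lit 2048) (Tr.leaf (nat_lit 367028)) (Tr.leaf (nat_lit 367012)))) (Tr.node (nat_lit 3648) (Tr.leaf (nat_lit 366993)) (Tr.node (nat_lit 4160) (Tr.leaf (nat_lit 5871452)) (Tr.leaf (nat_lit 366934))))))) (Tr.node (nat_lit 61440) (Tr.node (nat_lit 28928) (Tr.node (nat_lit 8192) (Tr.node (nat_lit 7232) (Tr.leaf (nat_lit 366871)) (Tr.leaf (nat_lit 366816))) (Tr.node (nat_lit 5184) (Tr.leaf (nat_lit 91702)) (Tr.node (nat_lit 9344) (Tr.leaf (nat_lit 91692)) (Tr.leaf (nat_lit 366699))))) (Tr.node (nat_lit 14464) (Tr.node (nat_lit 8256) (Tr.leaf (nat_lit 366652)) (Tr.node (nat_lit 1024) (Tr.leaf (nat_lit 1466359)) (Tr.leaf (nat_lit 366582)))) (Tr.node (nat_lit 9344) (Tr.leaf (nat_lit 366542)) (Tr.node (nat_lit 7168) (Tr.leaf (nat_lit 1431)) (Tr.leaf (nat_lit 366417)))))) (Tr.node (nat_lit 29440) (Tr.node (nat_lit 4672) (Tr.node (nat_lit 512)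 (Tr.leaf (nat_lit 366406)) (Tr.leaf (nat_lit 366402))) (Tr.node (nat_lit 8256) (Tr.leaf (nat_lit 366371)) (Tr.node (nat_lit 4096) (Tr.leaf (nat_lit 1465234)) (Tr.leaf (nat_lit 1465109))))) (Tr.node (nat_lit 24768) (Tr.node (nat_lit 12352) (Tr.leaf (nat_lit 366183)) (Tr.node (nat_lit 8256) (Tr.leaf (nat_lit 1464359)) (Tr.leaf (nat_lit 366027)))) (Tr.node (nat_lit 2048) (Tr.leaf (nat_lit 365996)) (Tr.node (nat_lit 10304) (Tr.leaf (nat_lit 365980)) (Tr.leaf (nat_lit 365902))))))))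

noncomputable def jt178 : Tr :=
  (Tr.node (nat_lit 89600) (Tr.node (nat_lit 38208) (Tr.node (nat_lit 22656) (Tr.node (nat_lit 4096) (Tr.node (nat_lit 2560) (Tr.leaf (nat_lit 1463361)) (Tr.leaf (nat_lit 365821))) (Tr.node (nat_lit 8960) (Tr.leaf (nat_lit 365809)) (Tr.node (nat_lit 3456) (Tr.leaf (nat_lit 91435)) (Tr.leaf (nat_lit 5851454))))) (Tr.node (nat_lit 8256) (Tr.node (nat_lit 6208) (Tr.leaf (nat_lit 365669)) (Tr.leaf (nat_lit 365622))) (Tr.node (nat_lit 1024) (Tr.leaf (nat_lit 365606)) (Tr.node (nat_lit 5184) (Tr.leaf (nat_lit 365599)) (Tr.leaf (nat_lit 365560)))))) (Tr.node (nat_lit 35200) (Tr.node (nat_lit 19648) (Tr.node (nat_lit 8128) (Tr.leaf (nat_lit 91387)) (Tr.leaf (nat_lit 365490))) (Tr.node (nat_lit 3968) (Tr.leaf (nat_lit 5709)) (Tr.node (nat_lit 2176) (Tr.leaf (nat_lit 365373)) (Tr.leaf (nat_lit 1427))))) (Tr.node (nat_lit 4864) (Tr.node (nat_lit 512) (Tr.leaf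 (nat_lit 365286)) (Tr.node (nat_lit 256) (Tr.leaf (nat_lit 356)) (Tr.leaf (nat_lit 365280)))) (Tr.node (nat_lit 6400) (Tr.leaf (nat_lit 365249)) (Tr.node (nat_lit 1856) (Tr.leaf (nat_lit 91300)) (Tr.leaf (nat_lit 365187))))))) (Tr.node (nat_lit 44224) (Tr.node (nat_lit 24000) (Tr.node (nat_lit 3072) (Tr.node (nat_lit 1024) (Tr.leaf (nat_lit 365163)) (Tr.leaf (nat_lit 365156))) (Tr.node (nat_lit 6208) (Tr.leaf (nat_lit 365140)) (Tr.node (nat_lit 13376) (Tr.leaf (nat_lit 1460376)) (Tr.leaf (nat_lit 356))))) (Tr.node (nat_lit 9920) (Tr.node (nat_lit 1728) (Tr.leaf (nat_lit 91245)) (Tr.node (nat_lit 3072) (Tr.leaf (nat_lit 1459880)) (Tr.leaf (nat_lit 364946)))) (Tr.node (nat_lit 4160) (Tr.leaf (nat_lit 1459632)) (Tr.node (nat_lit 5120) (Tr.leaf (nat_lit 364877)) (Tr.leaf (nat_lit 364838)))))) (Tr.node (nat_lit 20544) (Tr.node (nat_lit 6144) (Tr.node (nat_lit 2048) (Tr.leaf (nat_lit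 364830)) (Tr.leaf (nat_lit 364815))) (Tr.node (nat_lit 2240) (Tr.leaf (nat_lit 1459136)) (Tr.node (nat_lit 6016) (Tr.leaf (nat_lit 91191)) (Tr.leaf (nat_lit 93368854))))) (Tr.node (nat_lit 43136) (Tr.node (nat_lit 30848) (Tr.leaf (nat_lit 364675)) (Tr.node (nat_lit 8640) (Tr.leaf (nat_lit 364443)) (Tr.leaf (nat_lit 91094)))) (Tr.node (nat_lit 6144) (Tr.leaf (nat_lit 1457403)) (Tr.node (nat_lit 6208) (Tr.leaf (nat_lit 364304)) (Tr.leaf (nat_lit 364258))))))))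

noncomputable def jt179 : Tr :=
  (Tr.node (nat_lit 125824) (Tr.node (nat_lit 67648) (Tr.node (nat_lit 32832) (Tr.node (nat_lit 8192) (Tr.node (nat_lit 2048) (Tr.leaf (nat_lit 5827635)) (Tr.leaf (nat_lit 364211))) (Tr.node (nat_lit 11776) (Tr.leaf (nat_lit 364165)) (Tr.node (nat_lit 512) (Tr.leaf (nat_lit 364076)) (Tr.leaf (nat_lit 364072))))) (Tr.node (nat_lit 15360) (Tr.node (nat_lit 10944) (Tr.leaf (nat_lit 5823684)) (Tr.leaf (nat_lit 22743))) (Tr.node (nat_lit 1024) (Tr.leaf (nat_lit 363864)) (Tr.node (nat_lit 8192) (Tr.leaf (nat_lit 1455427)) (Tr.leaf (nat_lit 363795)))))) (Tr.node (nat_lit 42048) (Tr.node (nat_lit 31424) (Tr.node (nat_lit 8192) (Tr.leaf (nat_lit 363718)) (Tr.leaf (nat_lit 363656))) (Tr.node (nat_lit 1024) (Tr.leaf (nat_lit 354)) (Tr.node (nat_lit 4480) (Tr.leaf (nat_lit 363474)) (Tr.leaf (nat_lit 363441))))) (Tr.node (nat_lit 2688) (Tr.node (nat_lit 1024)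 (Tr.leaf (nat_lit 363402)) (Tr.node (nat_lit 1344) (Tr.leaf (nat_lit 363395)) (Tr.leaf (nat_lit 90846)))) (Tr.node (nat_lit 384) (Tr.leaf (nat_lit 354)) (Tr.node (nat_lit 7168) (Tr.leaf (nat_lit 363379)) (Tr.leaf (nat_lit 363325))))))) (Tr.node (nat_lit 74176) (Tr.node (nat_lit 20672) (Tr.node (nat_lit 9472) (Tr.node (nat_lit 3328) (Tr.leaf (nat_lit 5676)) (Tr.leaf (nat_lit 363256))) (Tr.node (nat_lit 4800) (Tr.leaf (nat_lit 1452843)) (Tr.node (nat_lit 1280) (Tr.leaf (nat_lit 90793)) (Tr.leaf (nat_lit 363164))))) (Tr.node (nat_lit 41536) (Tr.node (nat_lit 33792) (Tr.leaf (nat_lit 363126)) (Tr.node (nat_lit 6144) (Tr.leaf (nat_lit 1451492)) (Tr.leaf (nat_lit 362827)))) (Tr.node (nat_lit 8576) (Tr.leaf (nat_lit 90703)) (Tr.node (nat_lit 2048) (Tr.leaf (nat_lit 23216039)) (Tr.leaf (nat_lit 362735)))))) (Tr.node (nat_lit 27264) (Tr.node (nat_lit 11968) (Tr.node (nat_lit 8896) (Tr.leaf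 (nat_lit 90681)) (Tr.leaf (nat_lit 362658))) (Tr.node (nat_lit 9216) (Tr.leaf (nat_lit 362635)) (Tr.node (nat_lit 2048) (Tr.leaf (nat_lit 362566)) (Tr.leaf (nat_lit 362551))))) (Tr.node (nat_lit 14336) (Tr.node (nat_lit 2048) (Tr.leaf (nat_lit 362520)) (Tr.node (nat_lit 5760) (Tr.leaf (nat_lit 1450022)) (Tr.leaf (nat_lit 5663)))) (Tr.node (nat_lit 6144) (Tr.leaf (nat_lit 362413)) (Tr.node (nat_lit 6080) (Tr.leaf (nat_lit 362368)) (Tr.leaf (nat_lit 362322))))))))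

noncomputable def jt180 : Tr :=
  (Tr.node (nat_lit 136576) (Tr.node (nat_lit 73472) (Tr.node (nat_lit 36736) (Tr.node (nat_lit 8192) (Tr.node (nat_lit 5120) (Tr.leaf (nat_lit 362291)) (Tr.leaf (nat_lit 362253))) (Tr.node (nat_lit 12224) (Tr.leaf (nat_lit 362230)) (Tr.node (nat_lit 4096) (Tr.leaf (nat_lit 1448555)) (Tr.leaf (nat_lit 362108))))) (Tr.node (nat_lit 12992) (Tr.node (nat_lit 4288) (Tr.leaf (nat_lit 1448067)) (Tr.leaf (nat_lit 1414))) (Tr.node (nat_lit 1280) (Tr.leaf (nat_lit 361919)) (Tr.node (nat_lit 10688) (Tr.leaf (nat_lit 361910)) (Tr.leaf (nat_lit 90457)))))) (Tr.node (nat_lit 24448) (Tr.node (nat_lit 6080) (Tr.node (nat_lit 3008) (Tr.leaf (nat_lit 361742)) (Tr.leaf (nat_lit 361719))) (Tr.node (nat_lit 14272) (Tr.leaf (nat_lit 361696)) (Tr.node (nat_lit 3072) (Tr.leaf (nat_lit 361590)) (Tr.leaf (nat_lit 361567))))) (Tr.node (nat_lit 19008) (Tr.node (nat_lit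 7552) (Tr.leaf (nat_lit 361559)) (Tr.node (nat_lit 576) (Tr.leaf (nat_lit 90375)) (Tr.leaf (nat_lit 361498)))) (Tr.node (nat_lit 5440) (Tr.leaf (nat_lit 1411)) (Tr.node (nat_lit 7616) (Tr.leaf (nat_lit 361377)) (Tr.leaf (nat_lit 361320))))))) (Tr.node (nat_lit 61056) (Tr.node (nat_lit 21376) (Tr.node (nat_lit 6144) (Tr.node (nat_lit 4096) (Tr.leaf (nat_lit 361270)) (Tr.leaf (nat_lit 361240))) (Tr.node (nat_lit 10176) (Tr.leaf (nat_lit 1444900)) (Tr.node (nat_lit 2048) (Tr.leaf (nat_lit 361149)) (Tr.leaf (nat_lit 361134))))) (Tr.node (nat_lit 15872) (Tr.node (nat_lit 9152) (Tr.leaf (nat_lit 361111)) (Tr.node (nat_lit 384) (Tr.leaf (nat_lit 1444171)) (Tr.leaf (nat_lit 352)))) (Tr.node (nat_lit 5504) (Tr.leaf (nat_lit 352)) (Tr.node (nat_lit 4096) (Tr.leaf (nat_lit 360951)) (Tr.leaf (nat_lit 5774745)))))) (Tr.node (nat_lit 18304) (Tr.node (nat_lit 6144) (Tr.node (nat_lit 3264) (Tr.leaf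 (nat_lit 360815)) (Tr.leaf (nat_lit 90197))) (Tr.node (nat_lit 4032) (Tr.leaf (nat_lit 360770)) (Tr.node (nat_lit 6080) (Tr.leaf (nat_lit 360739)) (Tr.leaf (nat_lit 360694))))) (Tr.node (nat_lit 12224) (Tr.node (nat_lit 832) (Tr.leaf (nat_lit 1442716)) (Tr.node (nat_lit 9344) (Tr.leaf (nat_lit 90168)) (Tr.leaf (nat_lit 360603)))) (Tr.node (nat_lit 4032) (Tr.leaf (nat_lit 360588)) (Tr.node (nat_lit 2048) (Tr.leaf (nat_lit 1442232)) (Tr.leaf (nat_lit 360542))))))))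

noncomputable def jt181 : Tr :=
  (Tr.node (nat_lit 89344) (Tr.node (nat_lit 43072) (Tr.node (nat_lit 21312) (Tr.node (nat_lit 4096) (Tr.node (nat_lit 256) (Tr.leaf (nat_lit 1441990)) (Tr.leaf (nat_lit 360495))) (Tr.node (nat_lit 8128) (Tr.leaf (nat_lit 360467)) (Tr.node (nat_lit 6080) (Tr.leaf (nat_lit 360406)) (Tr.leaf (nat_lit 360361))))) (Tr.node (nat_lit 10688) (Tr.node (nat_lit 3072) (Tr.leaf (nat_lit 360338)) (Tr.leaf (nat_lit 5765056))) (Tr.node (nat_lit 2560) (Tr.leaf (nat_lit 360259)) (Tr.node (nat_lit 6080) (Tr.leaf (nat_lit 360240)) (Tr.leaf (nat_lit 1440780)))))) (Tr.node (nat_lit 26944) (Tr.node (nat_lit 6656) (Tr.node (nat_lit 3648) (Tr.leaf (nat_lit 90044)) (Tr.leaf (nat_lit 360149))) (Tr.node (nat_lit 5120) (Tr.leaf (nat_lit 360127)) (Tr.node (nat_lit 6080) (Tr.leaf (nat_lit 360089)) (Tr.leaf (nat_lit 360044))))) (Tr.node (nat_lit 5376) (Tr.node (nat_lit 1024)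 (Tr.leaf (nat_lit 359976)) (Tr.node (nat_lit 2048) (Tr.leaf (nat_lit 359968)) (Tr.leaf (nat_lit 1439814)))) (Tr.node (nat_lit 1152) (Tr.leaf (nat_lit 351)) (Tr.node (nat_lit 8704) (Tr.leaf (nat_lit 5623)) (Tr.leaf (nat_lit 1439452))))))) (Tr.node (nat_lit 62784) (Tr.node (nat_lit 44544) (Tr.node (nat_lit 26304) (Tr.node (nat_lit 18240) (Tr.leaf (nat_lit 5757328)) (Tr.leaf (nat_lit 359697))) (Tr.node (nat_lit 6080) (Tr.leaf (nat_lit 359637)) (Tr.node (nat_lit 4096) (Tr.leaf (nat_lit 1438368)) (Tr.leaf (nat_lit 359561))))) (Tr.node (nat_lit 7040) (Tr.node (nat_lit 768) (Tr.leaf (nat_lit 359501)) (Tr.node (nat_lit 3328) (Tr.leaf (nat_lit 351)) (Tr.leaf (nat_lit 1437886)))) (Tr.node (nat_lit 64) (Tr.leaf (nat_lit 89862)) (Tr.node (nat_lit 5056) (Tr.leaf (nat_lit 359449)) (Tr.leaf (nat_lit 1437645)))))) (Tr.node (nat_lit 42496) (Tr.node (nat_lit 22272) (Tr.node (nat_lit 4032) (Tr.leaf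 (nat_lit 359366)) (Tr.leaf (nat_lit 359336))) (Tr.node (nat_lit 4864) (Tr.leaf (nat_lit 359201)) (Tr.node (nat_lit 7296) (Tr.leaf (nat_lit 89791)) (Tr.leaf (nat_lit 5745775))))) (Tr.node (nat_lit 12160) (Tr.node (nat_lit 3648) (Tr.leaf (nat_lit 359050)) (Tr.node (nat_lit 448) (Tr.leaf (nat_lit 359024)) (Tr.leaf (nat_lit 359020)))) (Tr.node (nat_lit 6080) (Tr.leaf (nat_lit 358960)) (Tr.node (nat_lit 3968) (Tr.leaf (nat_lit 358915)) (Tr.leaf (nat_lit 89721))))))))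

noncomputable def jt182 : Tr :=
  (Tr.node (nat_lit 103040) (Tr.node (nat_lit 60608) (Tr.node (nat_lit 25792) (Tr.node (nat_lit 16128) (Tr.node (nat_lit 3008) (Tr.leaf (nat_lit 22967739)) (Tr.leaf (nat_lit 358848))) (Tr.node (nat_lit 6080) (Tr.leaf (nat_lit 1435004)) (Tr.node (nat_lit 2048) (Tr.leaf (nat_lit 358706)) (Tr.leaf (nat_lit 358691))))) (Tr.node (nat_lit 17664) (Tr.node (nat_lit 7552) (Tr.leaf (nat_lit 358679)) (Tr.leaf (nat_lit 358623))) (Tr.node (nat_lit 3008) (Tr.leaf (nat_lit 358548)) (Tr.node (nat_lit 2048) (Tr.leaf (nat_lit 358526)) (Tr.leaf (nat_lit 1434045)))))) (Tr.node (nat_lit 25280) (Tr.node (nat_lit 5568) (Tr.node (nat_lit 4032) (Tr.leaf (nat_lit 358421)) (Tr.leaf (nat_lit 5734268))) (Tr.node (nat_lit 7872) (Tr.leaf (nat_lit 358380)) (Tr.node (nat_lit 10816) (Tr.leaf (nat_lit 89580)) (Tr.leaf (nat_lit 358242))))) (Tr.node (nat_lit 11072) (Tr.node (nat_lit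 3008) (Tr.leaf (nat_lit 358234)) (Tr.node (nat_lit 3136) (Tr.leaf (nat_lit 1432849)) (Tr.leaf (nat_lit 349)))) (Tr.node (nat_lit 3008) (Tr.leaf (nat_lit 1432610)) (Tr.node (nat_lit 1024) (Tr.leaf (nat_lit 358130)) (Tr.leaf (nat_lit 358122))))))) (Tr.node (nat_lit 78592) (Tr.node (nat_lit 30400) (Tr.node (nat_lit 4032) (Tr.node (nat_lit 960) (Tr.leaf (nat_lit 358107)) (Tr.leaf (nat_lit 358100))) (Tr.node (nat_lit 1984) (Tr.leaf (nat_lit 358078)) (Tr.node (nat_lit 24192) (Tr.leaf (nat_lit 358063)) (Tr.leaf (nat_lit 357884))))) (Tr.node (nat_lit 22016) (Tr.node (nat_lit 8896) (Tr.leaf (nat_lit 22367)) (Tr.node (nat_lit 12096) (Tr.leaf (nat_lit 357817)) (Tr.leaf (nat_lit 357727)))) (Tr.node (nat_lit 8064) (Tr.leaf (nat_lit 357720)) (Tr.node (nat_lit 5120) (Tr.leaf (nat_lit 357660)) (Tr.leaf (nat_lit 89405)))))) (Tr.node (nat_lit 36288) (Tr.node (nat_lit 16128) (Tr.node (nat_lit 4032)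 (Tr.leaf (nat_lit 357526)) (Tr.leaf (nat_lit 357496))) (Tr.node (nat_lit 6080) (Tr.leaf (nat_lit 357407)) (Tr.node (nat_lit 6016) (Tr.leaf (nat_lit 357363)) (Tr.leaf (nat_lit 1429273))))) (Tr.node (nat_lit 17344) (Tr.node (nat_lit 4032) (Tr.leaf (nat_lit 357258)) (Tr.node (nat_lit 8064) (Tr.leaf (nat_lit 357229)) (Tr.leaf (nat_lit 1428679)))) (Tr.node (nat_lit 4800) (Tr.leaf (nat_lit 348)) (Tr.node (nat_lit 1984) (Tr.leaf (nat_lit 357095)) (Tr.leaf (nat_lit 1428323))))))))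

noncomputable def jt183 : Tr :=
  (Tr.node (nat_lit 92480) (Tr.node (nat_lit 42048) (Tr.node (nat_lit 23168) (Tr.node (nat_lit 8064) (Tr.node (nat_lit 2048) (Tr.leaf (nat_lit 357051)) (Tr.leaf (nat_lit 357036))) (Tr.node (nat_lit 1024) (Tr.leaf (nat_lit 356991)) (Tr.node (nat_lit 5760) (Tr.leaf (nat_lit 1427937)) (Tr.leaf (nat_lit 1394))))) (Tr.node (nat_lit 7040) (Tr.node (nat_lit 5568) (Tr.leaf (nat_lit 356880)) (Tr.leaf (nat_lit 89209))) (Tr.node (nat_lit 3392) (Tr.leaf (nat_lit 356828)) (Tr.node (nat_lit 1216) (Tr.leaf (nat_lit 348)) (Tr.leaf (nat_lit 22299)))))) (Tr.node (nat_lit 20288) (Tr.node (nat_lit 2240) (Tr.node (nat_lit 192) (Tr.leaf (nat_lit 89185)) (Tr.leaf (nat_lit 356739))) (Tr.node (nat_lit 512) (Tr.leaf (nat_lit 5707597)) (Tr.node (nat_lit 14528) (Tr.leaf (nat_lit 5573)) (Tr.leaf (nat_lit 356613))))) (Tr.node (nat_lit 20800) (Tr.node (nat_lit 10048) (Tr.leaf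 (nat_lit 356591)) (Tr.node (nat_lit 2048) (Tr.leaf (nat_lit 356517)) (Tr.leaf (nat_lit 356502)))) (Tr.node (nat_lit 1280) (Tr.leaf (nat_lit 5569)) (Tr.node (nat_lit 2048) (Tr.leaf (nat_lit 1425715)) (Tr.leaf (nat_lit 356414))))))) (Tr.node (nat_lit 82304) (Tr.node (nat_lit 28096) (Tr.node (nat_lit 4544) (Tr.node (nat_lit 4032) (Tr.leaf (nat_lit 1425478)) (Tr.leaf (nat_lit 356340))) (Tr.node (nat_lit 7488) (Tr.leaf (nat_lit 356336)) (Tr.node (nat_lit 12032) (Tr.leaf (nat_lit 356280)) (Tr.leaf (nat_lit 356192))))) (Tr.node (nat_lit 32128) (Tr.node (nat_lit 8064) (Tr.leaf (nat_lit 356162)) (Tr.node (nat_lit 21056) (Tr.leaf (nat_lit 356103)) (Tr.leaf (nat_lit 355948)))) (Tr.node (nat_lit 4032) (Tr.leaf (nat_lit 355926)) (Tr.node (nat_lit 8000) (Tr.leaf (nat_lit 1423588)) (Tr.leaf (nat_lit 1423352)))))) (Tr.node (nat_lit 30016) (Tr.node (nat_lit 8000) (Tr.node (nat_lit 5952) (Tr.leaf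 (nat_lit 355764)) (Tr.leaf (nat_lit 355720))) (Tr.node (nat_lit 9984) (Tr.leaf (nat_lit 355705)) (Tr.node (nat_lit 8064) (Tr.leaf (nat_lit 355631)) (Tr.leaf (nat_lit 355573))))) (Tr.node (nat_lit 21632) (Tr.node (nat_lit 12032) (Tr.leaf (nat_lit 5688698)) (Tr.node (nat_lit 8000) (Tr.leaf (nat_lit 355455)) (Tr.leaf (nat_lit 355396)))) (Tr.node (nat_lit 2176) (Tr.leaf (nat_lit 88846)) (Tr.node (nat_lit 256) (Tr.leaf (nat_lit 355368)) (Tr.leaf (nat_lit 355367))))))))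

noncomputable def jt184 : Tr :=
  (Tr.node (nat_lit 113984) (Tr.node (nat_lit 62016) (Tr.node (nat_lit 24000) (Tr.node (nat_lit 14016) (Tr.node (nat_lit 1984) (Tr.leaf (nat_lit 355323)) (Tr.leaf (nat_lit 1421233))) (Tr.node (nat_lit 6016) (Tr.leaf (nat_lit 355220)) (Tr.node (nat_lit 2880) (Tr.leaf (nat_lit 355176)) (Tr.leaf (nat_lit 346))))) (Tr.node (nat_lit 24960) (Tr.node (nat_lit 1984) (Tr.leaf (nat_lit 355146)) (Tr.node (nat_lit 11520) (Tr.leaf (nat_lit 355132)) (Tr.leaf (nat_lit 355047)))) (Tr.node (nat_lit 1088) (Tr.leaf (nat_lit 5546)) (Tr.node (nat_lit 9984) (Tr.leaf (nat_lit 5679295)) (Tr.leaf (nat_lit 354882)))))) (Tr.node (nat_lit 13760) (Tr.node (nat_lit 9984) (Tr.node (nat_lit 320) (Tr.leaf (nat_lit 1419471)) (Tr.leaf (nat_lit 5544))) (Tr.node (nat_lit 2048) (Tr.leaf (nat_lit 354794)) (Tr.node (nat_lit 960) (Tr.leaf (nat_lit 354780)) (Tr.leaf (nat_lit 354772)))))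 (Tr.node (nat_lit 14208) (Tr.node (nat_lit 4224) (Tr.leaf (nat_lit 88691)) (Tr.node (nat_lit 3008) (Tr.leaf (nat_lit 354736)) (Tr.leaf (nat_lit 354714)))) (Tr.node (nat_lit 20032) (Tr.leaf (nat_lit 1418651)) (Tr.node (nat_lit 960) (Tr.leaf (nat_lit 354516)) (Tr.leaf (nat_lit 354509))))))) (Tr.node (nat_lit 38976) (Tr.node (nat_lit 13184) (Tr.node (nat_lit 6208) (Tr.node (nat_lit 6016) (Tr.leaf (nat_lit 1417948)) (Tr.leaf (nat_lit 354443))) (Tr.node (nat_lit 4800) (Tr.leaf (nat_lit 88610)) (Tr.node (nat_lit 1536) (Tr.leaf (nat_lit 354406)) (Tr.leaf (nat_lit 88598))))) (Tr.node (nat_lit 12800) (Tr.node (nat_lit 8704) (Tr.leaf (nat_lit 346)) (Tr.node (nat_lit 2112) (Tr.leaf (nat_lit 88581)) (Tr.leaf (nat_lit 1417247)))) (Tr.node (nat_lit 5952) (Tr.leaf (nat_lit 354297)) (Tr.node (nat_lit 4032) (Tr.leaf (nat_lit 1417013)) (Tr.leaf (nat_lit 1416896)))))) (Tr.node (nat_lit 28928) (Tr.node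 (nat_lit 8960) (Tr.node (nat_lit 4928) (Tr.leaf (nat_lit 354202)) (Tr.leaf (nat_lit 354165))) (Tr.node (nat_lit 11968) (Tr.leaf (nat_lit 5666183)) (Tr.node (nat_lit 5952) (Tr.leaf (nat_lit 354048)) (Tr.leaf (nat_lit 354005))))) (Tr.node (nat_lit 12928) (Tr.node (nat_lit 3136) (Tr.leaf (nat_lit 353990)) (Tr.node (nat_lit 832) (Tr.leaf (nat_lit 88491)) (Tr.leaf (nat_lit 353961)))) (Tr.node (nat_lit 3008) (Tr.leaf (nat_lit 353895)) (Tr.node (nat_lit 1984) (Tr.leaf (nat_lit 353873)) (Tr.leaf (nat_lit 353859))))))))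

noncomputable def jt185 : Tr :=
  (Tr.node (nat_lit 120320) (Tr.node (nat_lit 49152) (Tr.node (nat_lit 32704) (Tr.node (nat_lit 5312) (Tr.node (nat_lit 1344) (Tr.leaf (nat_lit 88456)) (Tr.leaf (nat_lit 353815))) (Tr.node (nat_lit 14912) (Tr.leaf (nat_lit 1415145)) (Tr.node (nat_lit 9024) (Tr.leaf (nat_lit 353677)) (Tr.leaf (nat_lit 353611))))) (Tr.node (nat_lit 4416) (Tr.node (nat_lit 2496) (Tr.leaf (nat_lit 353586)) (Tr.leaf (nat_lit 353568))) (Tr.node (nat_lit 6080) (Tr.leaf (nat_lit 345)) (Tr.node (nat_lit 1216) (Tr.leaf (nat_lit 353509)) (Tr.leaf (nat_lit 22093)))))) (Tr.node (nat_lit 20928) (Tr.node (nat_lit 13120) (Tr.node (nat_lit 3968) (Tr.leaf (nat_lit 353466)) (Tr.leaf (nat_lit 5654993))) (Tr.node (nat_lit 2816) (Tr.leaf (nat_lit 88342)) (Tr.node (nat_lit 1984) (Tr.leaf (nat_lit 1413399)) (Tr.leaf (nat_lit 353335))))) (Tr.node (nat_lit 36416) (Tr.node (nat_lit 6976)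 (Tr.leaf (nat_lit 353313)) (Tr.node (nat_lit 25472) (Tr.leaf (nat_lit 353262)) (Tr.leaf (nat_lit 1379)))) (Tr.node (nat_lit 2368) (Tr.leaf (nat_lit 344)) (Tr.node (nat_lit 5952) (Tr.leaf (nat_lit 1412121)) (Tr.leaf (nat_lit 352986))))))) (Tr.node (nat_lit 50560) (Tr.node (nat_lit 12416) (Tr.node (nat_lit 2880) (Tr.node (nat_lit 512) (Tr.leaf (nat_lit 22059)) (Tr.leaf (nat_lit 352943))) (Tr.node (nat_lit 6528) (Tr.leaf (nat_lit 88231)) (Tr.node (nat_lit 2496) (Tr.leaf (nat_lit 352878)) (Tr.leaf (nat_lit 352859))))) (Tr.node (nat_lit 23872) (Tr.node (nat_lit 14400) (Tr.leaf (nat_lit 1411425)) (Tr.node (nat_lit 8384) (Tr.leaf (nat_lit 352751)) (Tr.leaf (nat_lit 88172)))) (Tr.node (nat_lit 3968) (Tr.leaf (nat_lit 352682)) (Tr.node (nat_lit 7936) (Tr.leaf (nat_lit 352653)) (Tr.leaf (nat_lit 352595)))))) (Tr.node (nat_lit 9536) (Tr.node (nat_lit 3584) (Tr.node (nat_lit 1600) (Tr.leaf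 (nat_lit 5509)) (Tr.leaf (nat_lit 352566))) (Tr.node (nat_lit 2752) (Tr.leaf (nat_lit 352552)) (Tr.node (nat_lit 1216) (Tr.leaf (nat_lit 5508)) (Tr.leaf (nat_lit 352523))))) (Tr.node (nat_lit 15936) (Tr.node (nat_lit 3968) (Tr.leaf (nat_lit 1410035)) (Tr.node (nat_lit 8000) (Tr.leaf (nat_lit 352479)) (Tr.leaf (nat_lit 352422)))) (Tr.node (nat_lit 2944) (Tr.leaf (nat_lit 1409572)) (Tr.node (nat_lit 4992) (Tr.leaf (nat_lit 352371)) (Tr.leaf (nat_lit 1409341))))))))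

noncomputable def jt186 : Tr :=
  (Tr.node (nat_lit 113024) (Tr.node (nat_lit 56576) (Tr.node (nat_lit 32768) (Tr.node (nat_lit 8960) (Tr.node (nat_lit 1024) (Tr.leaf (nat_lit 352313)) (Tr.leaf (nat_lit 352306))) (Tr.node (nat_lit 3968) (Tr.leaf (nat_lit 352248)) (Tr.node (nat_lit 1984) (Tr.leaf (nat_lit 1408878)) (Tr.leaf (nat_lit 352205))))) (Tr.node (nat_lit 11904) (Tr.node (nat_lit 3968) (Tr.leaf (nat_lit 352075)) (Tr.leaf (nat_lit 5632743))) (Tr.node (nat_lit 4480) (Tr.leaf (nat_lit 351988)) (Tr.node (nat_lit 5440) (Tr.leaf (nat_lit 351956)) (Tr.leaf (nat_lit 351916)))))) (Tr.node (nat_lit 20800) (Tr.node (nat_lit 11904) (Tr.node (nat_lit 9920) (Tr.leaf (nat_lit 351902)) (Tr.leaf (nat_lit 351830))) (Tr.node (nat_lit 3904) (Tr.leaf (nat_lit 5629052)) (Tr.node (nat_lit 64) (Tr.leaf (nat_lit 87946)) (Tr.leaf (nat_lit 351786))))) (Tr.node (nat_lit 10496) (Tr.node (nat_lit 6976)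 (Tr.leaf (nat_lit 351750)) (Tr.node (nat_lit 1984) (Tr.leaf (nat_lit 1406802)) (Tr.leaf (nat_lit 351686)))) (Tr.node (nat_lit 16256) (Tr.leaf (nat_lit 87918)) (Tr.node (nat_lit 7744) (Tr.leaf (nat_lit 351556)) (Tr.leaf (nat_lit 5492))))))) (Tr.node (nat_lit 62400) (Tr.node (nat_lit 32704) (Tr.node (nat_lit 17856) (Tr.node (nat_lit 14912) (Tr.leaf (nat_lit 87873)) (Tr.leaf (nat_lit 351384))) (Tr.node (nat_lit 6912) (Tr.leaf (nat_lit 351362)) (Tr.node (nat_lit 1984) (Tr.leaf (nat_lit 351312)) (Tr.leaf (nat_lit 351297))))) (Tr.node (nat_lit 14848) (Tr.node (nat_lit 2496) (Tr.leaf (nat_lit 351254)) (Tr.node (nat_lit 3456) (Tr.leaf (nat_lit 351236)) (Tr.leaf (nat_lit 351211)))) (Tr.node (nat_lit 6912) (Tr.leaf (nat_lit 351147)) (Tr.node (nat_lit 3648) (Tr.leaf (nat_lit 351096)) (Tr.leaf (nat_lit 5485)))))) (Tr.node (nat_lit 29632) (Tr.node (nat_lit 17792) (Tr.node (nat_lit 5248) (Tr.leaf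 (nat_lit 351039)) (Tr.leaf (nat_lit 87750))) (Tr.node (nat_lit 9088) (Tr.leaf (nat_lit 350910)) (Tr.node (nat_lit 768) (Tr.leaf (nat_lit 87711)) (Tr.leaf (nat_lit 350838))))) (Tr.node (nat_lit 23744) (Tr.node (nat_lit 17792) (Tr.leaf (nat_lit 350824)) (Tr.node (nat_lit 3968) (Tr.leaf (nat_lit 350695)) (Tr.leaf (nat_lit 1402667)))) (Tr.node (nat_lit 5952) (Tr.leaf (nat_lit 350652)) (Tr.node (nat_lit 23104) (Tr.leaf (nat_lit 5609753)) (Tr.leaf (nat_lit 87610))))))))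

noncomputable def jt187 : Tr :=
  (Tr.node (nat_lit 121280) (Tr.node (nat_lit 55936) (Tr.node (nat_lit 23680) (Tr.node (nat_lit 960) (Tr.node (nat_lit 832) (Tr.leaf (nat_lit 5607006)) (Tr.leaf (nat_lit 1368))) (Tr.node (nat_lit 14848) (Tr.leaf (nat_lit 350430)) (Tr.node (nat_lit 1984) (Tr.leaf (nat_lit 1401294)) (Tr.leaf (nat_lit 350309))))) (Tr.node (nat_lit 15808) (Tr.node (nat_lit 14336) (Tr.leaf (nat_lit 350266)) (Tr.leaf (nat_lit 350162))) (Tr.node (nat_lit 5888) (Tr.leaf (nat_lit 350152)) (Tr.node (nat_lit 4928) (Tr.leaf (nat_lit 350109)) (Tr.leaf (nat_lit 350073)))))) (Tr.node (nat_lit 24000) (Tr.node (nat_lit 3264) (Tr.node (nat_lit 1280) (Tr.leaf (nat_lit 341)) (Tr.leaf (nat_lit 350023))) (Tr.node (nat_lit 3968) (Tr.leaf (nat_lit 350009)) (Tr.node (nat_lit 7872) (Tr.leaf (nat_lit 5599696)) (Tr.leaf (nat_lit 1399696))))) (Tr.node (nat_lit 26560) (Tr.node (nat_lit 9088)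 (Tr.leaf (nat_lit 349859)) (Tr.node (nat_lit 768) (Tr.leaf (nat_lit 5465)) (Tr.leaf (nat_lit 349788)))) (Tr.node (nat_lit 3968) (Tr.leaf (nat_lit 349667)) (Tr.node (nat_lit 7872) (Tr.leaf (nat_lit 1398556)) (Tr.leaf (nat_lit 349582))))))) (Tr.node (nat_lit 32512) (Tr.node (nat_lit 16832) (Tr.node (nat_lit 3008) (Tr.node (nat_lit 1024) (Tr.leaf (nat_lit 349560)) (Tr.leaf (nat_lit 349553))) (Tr.node (nat_lit 5120) (Tr.leaf (nat_lit 349539)) (Tr.node (nat_lit 1024) (Tr.leaf (nat_lit 341)) (Tr.leaf (nat_lit 349495))))) (Tr.node (nat_lit 4288) (Tr.node (nat_lit 1920) (Tr.leaf (nat_lit 87359)) (Tr.node (nat_lit 1920) (Tr.leaf (nat_lit 349425)) (Tr.leaf (nat_lit 1397646)))) (Tr.node (nat_lit 3520) (Tr.leaf (nat_lit 87352)) (Tr.node (nat_lit 2944) (Tr.leaf (nat_lit 349383)) (Tr.leaf (nat_lit 349361)))))) (Tr.node (nat_lit 44288) (Tr.node (nat_lit 14080) (Tr.node (nat_lit 11840) (Tr.leaf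 (nat_lit 349326)) (Tr.leaf (nat_lit 1396964))) (Tr.node (nat_lit 13504) (Tr.leaf (nat_lit 341)) (Tr.node (nat_lit 12288) (Tr.leaf (nat_lit 349127)) (Tr.leaf (nat_lit 349038))))) (Tr.node (nat_lit 18688) (Tr.node (nat_lit 2944) (Tr.leaf (nat_lit 349006)) (Tr.node (nat_lit 3904) (Tr.leaf (nat_lit 348985)) (Tr.leaf (nat_lit 1395829)))) (Tr.node (nat_lit 2944) (Tr.leaf (nat_lit 348872)) (Tr.node (nat_lit 4928) (Tr.leaf (nat_lit 348851)) (Tr.leaf (nat_lit 348815))))))))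

noncomputable def jt188 : Tr :=
  (Tr.node (nat_lit 98944) (Tr.node (nat_lit 35520) (Tr.node (nat_lit 15360) (Tr.node (nat_lit 8960) (Tr.node (nat_lit 1920) (Tr.leaf (nat_lit 87193)) (Tr.leaf (nat_lit 5449))) (Tr.node (nat_lit 1024) (Tr.leaf (nat_lit 340)) (Tr.node (nat_lit 1984) (Tr.leaf (nat_lit 348702)) (Tr.leaf (nat_lit 348688))))) (Tr.node (nat_lit 6464) (Tr.node (nat_lit 2496) (Tr.leaf (nat_lit 87165)) (Tr.leaf (nat_lit 348645))) (Tr.node (nat_lit 4672) (Tr.leaf (nat_lit 22311518)) (Tr.node (nat_lit 1088) (Tr.leaf (nat_lit 87145)) (Tr.leaf (nat_lit 21785)))))) (Tr.node (nat_lit 22016) (Tr.node (nat_lit 9856) (Tr.node (nat_lit 5888) (Tr.leaf (nat_lit 348518)) (Tr.leaf (nat_lit 1393904))) (Tr.node (nat_lit 960) (Tr.leaf (nat_lit 348447)) (Tr.node (nat_lit 1216) (Tr.leaf (nat_lit 5444)) (Tr.leaf (nat_lit 348431))))) (Tr.node (nat_lit 26112) (Tr.node (nat_lit 5504) (Tr.leaf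 (nat_lit 87090)) (Tr.node (nat_lit 17664) (Tr.leaf (nat_lit 348320)) (Tr.leaf (nat_lit 348193)))) (Tr.node (nat_lit 12224) (Tr.leaf (nat_lit 348172)) (Tr.node (nat_lit 2496) (Tr.leaf (nat_lit 87021)) (Tr.leaf (nat_lit 348066))))))) (Tr.node (nat_lit 75840) (Tr.node (nat_lit 20672) (Tr.node (nat_lit 8704) (Tr.node (nat_lit 1344) (Tr.leaf (nat_lit 1359)) (Tr.leaf (nat_lit 1392209))) (Tr.node (nat_lit 3008) (Tr.leaf (nat_lit 347999)) (Tr.node (nat_lit 5376) (Tr.leaf (nat_lit 86994)) (Tr.leaf (nat_lit 1391758))))) (Tr.node (nat_lit 10112) (Tr.node (nat_lit 4224) (Tr.leaf (nat_lit 86978)) (Tr.node (nat_lit 960) (Tr.leaf (nat_lit 347883)) (Tr.leaf (nat_lit 347876)))) (Tr.node (nat_lit 5888) (Tr.leaf (nat_lit 347841)) (Tr.node (nat_lit 15680) (Tr.leaf (nat_lit 347798)) (Tr.leaf (nat_lit 347686)))))) (Tr.node (nat_lit 23488) (Tr.node (nat_lit 7872) (Tr.node (nat_lit 1472) (Tr.leaf (nat_lit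 347517)) (Tr.leaf (nat_lit 347506))) (Tr.node (nat_lit 960) (Tr.leaf (nat_lit 347461)) (Tr.node (nat_lit 10752) (Tr.leaf (nat_lit 347454)) (Tr.leaf (nat_lit 1389507))))) (Tr.node (nat_lit 17600) (Tr.node (nat_lit 7872) (Tr.leaf (nat_lit 347348)) (Tr.node (nat_lit 7232) (Tr.leaf (nat_lit 347292)) (Tr.leaf (nat_lit 1356)))) (Tr.node (nat_lit 5888) (Tr.leaf (nat_lit 347222)) (Tr.node (nat_lit 8000) (Tr.leaf (nat_lit 347180)) (Tr.leaf (nat_lit 86780))))))))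

noncomputable def jt189 : Tr :=
  (Tr.node (nat_lit 112768) (Tr.node (nat_lit 57152) (Tr.node (nat_lit 40512) (Tr.node (nat_lit 22912) (Tr.node (nat_lit 7296) (Tr.leaf (nat_lit 86773)) (Tr.leaf (nat_lit 5552640))) (Tr.node (nat_lit 4928) (Tr.leaf (nat_lit 1387711)) (Tr.node (nat_lit 8640) (Tr.leaf (nat_lit 346892)) (Tr.leaf (nat_lit 5419))))) (Tr.node (nat_lit 8192) (Tr.node (nat_lit 1984) (Tr.leaf (nat_lit 346801)) (Tr.leaf (nat_lit 346787))) (Tr.node (nat_lit 3520) (Tr.leaf (nat_lit 1354)) (Tr.node (nat_lit 1984) (Tr.leaf (nat_lit 346717)) (Tr.leaf (nat_lit 1386815)))))) (Tr.node (nat_lit 12672) (Tr.node (nat_lit 5376) (Tr.node (nat_lit 960) (Tr.leaf (nat_lit 346682)) (Tr.leaf (nat_lit 346675))) (Tr.node (nat_lit 1920) (Tr.leaf (nat_lit 86661)) (Tr.node (nat_lit 960) (Tr.leaf (nat_lit 346630)) (Tr.leaf (nat_lit 346623))))) (Tr.node (nat_lit 19520) (Tr.node (nat_lit 6080) (Tr.leaf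 (nat_lit 1386367)) (Tr.node (nat_lit 1728) (Tr.leaf (nat_lit 86637)) (Tr.leaf (nat_lit 346536)))) (Tr.node (nat_lit 3904) (Tr.leaf (nat_lit 1385808)) (Tr.node (nat_lit 2944) (Tr.leaf (nat_lit 346424)) (Tr.leaf (nat_lit 346403))))))) (Tr.node (nat_lit 35136) (Tr.node (nat_lit 17600) (Tr.node (nat_lit 11712) (Tr.node (nat_lit 3904) (Tr.leaf (nat_lit 346284)) (Tr.leaf (nat_lit 1385026))) (Tr.node (nat_lit 960) (Tr.leaf (nat_lit 346200)) (Tr.node (nat_lit 2944) (Tr.leaf (nat_lit 346193)) (Tr.leaf (nat_lit 346172))))) (Tr.node (nat_lit 9216) (Tr.node (nat_lit 3904) (Tr.leaf (nat_lit 346158)) (Tr.node (nat_lit 3392) (Tr.leaf (nat_lit 346131)) (Tr.leaf (nat_lit 346106)))) (Tr.node (nat_lit 512) (Tr.leaf (nat_lit 337)) (Tr.node (nat_lit 640) (Tr.leaf (nat_lit 1384356)) (Tr.leaf (nat_lit 5407)))))) (Tr.node (nat_lit 38976) (Tr.node (nat_lit 5824) (Tr.node (nat_lit 448) (Tr.leaf (nat_lit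 1384133)) (Tr.leaf (nat_lit 86507))) (Tr.node (nat_lit 9792) (Tr.leaf (nat_lit 345991)) (Tr.node (nat_lit 11648) (Tr.leaf (nat_lit 22139006)) (Tr.leaf (nat_lit 345838))))) (Tr.node (nat_lit 11712) (Tr.node (nat_lit 1024) (Tr.leaf (nat_lit 345754)) (Tr.node (nat_lit 6784) (Tr.leaf (nat_lit 86436)) (Tr.leaf (nat_lit 1382796)))) (Tr.node (nat_lit 11648) (Tr.leaf (nat_lit 1382685)) (Tr.node (nat_lit 1984) (Tr.leaf (nat_lit 1382351)) (Tr.leaf (nat_lit 345574))))))))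

noncomputable def jt190 : Tr :=
  (Tr.node (nat_lit 108928) (Tr.node (nat_lit 53504) (Tr.node (nat_lit 35008) (Tr.node (nat_lit 5824) (Tr.node (nat_lit 3904) (Tr.leaf (nat_lit 1382129)) (Tr.leaf (nat_lit 345504))) (Tr.node (nat_lit 576) (Tr.leaf (nat_lit 345490)) (Tr.node (nat_lit 9152) (Tr.leaf (nat_lit 86371)) (Tr.leaf (nat_lit 345421))))) (Tr.node (nat_lit 9408) (Tr.node (nat_lit 2112) (Tr.leaf (nat_lit 345282)) (Tr.leaf (nat_lit 5394))) (Tr.node (nat_lit 2304) (Tr.leaf (nat_lit 345215)) (Tr.node (nat_lit 3904) (Tr.leaf (nat_lit 345199)) (Tr.leaf (nat_lit 345171)))))) (Tr.node (nat_lit 20416) (Tr.node (nat_lit 10688) (Tr.node (nat_lit 8768) (Tr.leaf (nat_lit 345150)) (Tr.leaf (nat_lit 1380352))) (Tr.node (nat_lit 3904) (Tr.leaf (nat_lit 345074)) (Tr.node (nat_lit 1984) (Tr.leaf (nat_lit 345046)) (Tr.leaf (nat_lit 5520523))))) (Tr.node (nat_lit 28608) (Tr.node (nat_lit 11712)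 (Tr.leaf (nat_lit 345005)) (Tr.node (nat_lit 1920) (Tr.leaf (nat_lit 1379687)) (Tr.leaf (nat_lit 344908)))) (Tr.node (nat_lit 320) (Tr.leaf (nat_lit 21550)) (Tr.node (nat_lit 3648) (Tr.leaf (nat_lit 336)) (Tr.leaf (nat_lit 5387))))))) (Tr.node (nat_lit 60160) (Tr.node (nat_lit 23296) (Tr.node (nat_lit 11648) (Tr.node (nat_lit 11392) (Tr.leaf (nat_lit 344755)) (Tr.leaf (nat_lit 344674))) (Tr.node (nat_lit 5824) (Tr.leaf (nat_lit 344672)) (Tr.node (nat_lit 4864) (Tr.leaf (nat_lit 344631)) (Tr.leaf (nat_lit 344596))))) (Tr.node (nat_lit 23296) (Tr.node (nat_lit 1472) (Tr.leaf (nat_lit 5513436)) (Tr.node (nat_lit 17984) (Tr.leaf (nat_lit 344579)) (Tr.leaf (nat_lit 344451)))) (Tr.node (nat_lit 1984) (Tr.leaf (nat_lit 1377696)) (Tr.node (nat_lit 5760) (Tr.leaf (nat_lit 344410)) (Tr.leaf (nat_lit 1377475)))))) (Tr.node (nat_lit 34624) (Tr.node (nat_lit 8128) (Tr.node (nat_lit 1728)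 (Tr.leaf (nat_lit 344327)) (Tr.leaf (nat_lit 86078))) (Tr.node (nat_lit 16064) (Tr.leaf (nat_lit 86067)) (Tr.node (nat_lit 4928) (Tr.leaf (nat_lit 1344)) (Tr.leaf (nat_lit 344120))))) (Tr.node (nat_lit 35200) (Tr.node (nat_lit 7616) (Tr.leaf (nat_lit 86020)) (Tr.node (nat_lit 8192) (Tr.leaf (nat_lit 344027)) (Tr.leaf (nat_lit 343968)))) (Tr.node (nat_lit 3904) (Tr.leaf (nat_lit 343831)) (Tr.node (nat_lit 2880) (Tr.leaf (nat_lit 343803)) (Tr.leaf (nat_lit 343783))))))))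

noncomputable def jt191 : Tr :=
  (Tr.node (nat_lit 129728) (Tr.node (nat_lit 79872) (Tr.node (nat_lit 54208) (Tr.node (nat_lit 19328) (Tr.node (nat_lit 7744) (Tr.leaf (nat_lit 343762)) (Tr.leaf (nat_lit 5499317))) (Tr.node (nat_lit 11648) (Tr.leaf (nat_lit 343624)) (Tr.node (nat_lit 15488) (Tr.leaf (nat_lit 1374169)) (Tr.leaf (nat_lit 1373730))))) (Tr.node (nat_lit 16256) (Tr.node (nat_lit 3840) (Tr.leaf (nat_lit 1373510)) (Tr.leaf (nat_lit 343350))) (Tr.node (nat_lit 1152) (Tr.leaf (nat_lit 85815)) (Tr.node (nat_lit 5760) (Tr.leaf (nat_lit 1373016)) (Tr.leaf (nat_lit 343212)))))) (Tr.node (nat_lit 29184) (Tr.node (nat_lit 6208) (Tr.node (nat_lit 1408) (Tr.leaf (nat_lit 335)) (Tr.leaf (nat_lit 343185))) (Tr.node (nat_lit 5184) (Tr.leaf (nat_lit 343151)) (Tr.node (nat_lit 13184) (Tr.leaf (nat_lit 85778)) (Tr.leaf (nat_lit 343021))))) (Tr.node (nat_lit 12416) (Tr.node (nat_lit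 3136) (Tr.leaf (nat_lit 1339)) (Tr.node (nat_lit 3904) (Tr.leaf (nat_lit 342966)) (Tr.leaf (nat_lit 1371755)))) (Tr.node (nat_lit 384) (Tr.leaf (nat_lit 85725)) (Tr.node (nat_lit 1920) (Tr.leaf (nat_lit 342897)) (Tr.leaf (nat_lit 342884))))))) (Tr.node (nat_lit 57792) (Tr.node (nat_lit 26880) (Tr.node (nat_lit 14336) (Tr.node (nat_lit 9536) (Tr.leaf (nat_lit 85710)) (Tr.leaf (nat_lit 1371098))) (Tr.node (nat_lit 2944) (Tr.leaf (nat_lit 342740)) (Tr.node (nat_lit 3840) (Tr.leaf (nat_lit 1370880)) (Tr.leaf (nat_lit 342692))))) (Tr.node (nat_lit 10112) (Tr.node (nat_lit 2944) (Tr.leaf (nat_lit 342651)) (Tr.node (nat_lit 2880) (Tr.leaf (nat_lit 342631)) (Tr.leaf (nat_lit 1370442)))) (Tr.node (nat_lit 3456) (Tr.leaf (nat_lit 85645)) (Tr.node (nat_lit 15424) (Tr.leaf (nat_lit 342556)) (Tr.leaf (nat_lit 342446)))))) (Tr.node (nat_lit 30336) (Tr.node (nat_lit 16896) (Tr.node (nat_lit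 5760) (Tr.leaf (nat_lit 342433)) (Tr.leaf (nat_lit 87652393))) (Tr.node (nat_lit 7552) (Tr.leaf (nat_lit 342313)) (Tr.node (nat_lit 4480) (Tr.leaf (nat_lit 85565)) (Tr.leaf (nat_lit 1368913))))) (Tr.node (nat_lit 15936) (Tr.node (nat_lit 13056) (Tr.leaf (nat_lit 21388)) (Tr.node (nat_lit 960) (Tr.leaf (nat_lit 342126)) (Tr.leaf (nat_lit 342119)))) (Tr.node (nat_lit 5824) (Tr.leaf (nat_lit 342105)) (Tr.node (nat_lit 3840) (Tr.leaf (nat_lit 1368259)) (Tr.leaf (nat_lit 342037))))))))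

noncomputable def jt192 : Tr :=
  (Tr.node (nat_lit 107840) (Tr.node (nat_lit 50112) (Tr.node (nat_lit 21824) (Tr.node (nat_lit 9664) (Tr.node (nat_lit 3904) (Tr.leaf (nat_lit 341983)) (Tr.leaf (nat_lit 5471295))) (Tr.node (nat_lit 5760) (Tr.leaf (nat_lit 341915)) (Tr.node (nat_lit 2880) (Tr.leaf (nat_lit 341874)) (Tr.leaf (nat_lit 341853))))) (Tr.node (nat_lit 12864) (Tr.node (nat_lit 10944) (Tr.leaf (nat_lit 5341)) (Tr.node (nat_lit 896) (Tr.leaf (nat_lit 341751)) (Tr.leaf (nat_lit 85436)))) (Tr.node (nat_lit 5312) (Tr.leaf (nat_lit 1366953)) (Tr.node (nat_lit 6272) (Tr.leaf (nat_lit 341700)) (Tr.leaf (nat_lit 341656)))))) (Tr.node (nat_lit 34624) (Tr.node (nat_lit 4800) (Tr.node (nat_lit 1920) (Tr.leaf (nat_lit 1366518)) (Tr.leaf (nat_lit 341616))) (Tr.node (nat_lit 2880) (Tr.leaf (nat_lit 85398)) (Tr.node (nat_lit 25984) (Tr.leaf (nat_lit 341575)) (Tr.leaf (nat_lit 341391)))))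 (Tr.node (nat_lit 10560) (Tr.node (nat_lit 4288) (Tr.leaf (nat_lit 341385)) (Tr.node (nat_lit 1472) (Tr.leaf (nat_lit 85338)) (Tr.leaf (nat_lit 341344)))) (Tr.node (nat_lit 1024) (Tr.leaf (nat_lit 5332)) (Tr.node (nat_lit 7680) (Tr.leaf (nat_lit 5460861)) (Tr.leaf (nat_lit 1364998))))))) (Tr.node (nat_lit 59584) (Tr.node (nat_lit 36544) (Tr.node (nat_lit 14208) (Tr.node (nat_lit 13440) (Tr.leaf (nat_lit 341222)) (Tr.leaf (nat_lit 341127))) (Tr.node (nat_lit 11712) (Tr.leaf (nat_lit 85280)) (Tr.node (nat_lit 8704) (Tr.leaf (nat_lit 5328)) (Tr.leaf (nat_lit 1363914))))) (Tr.node (nat_lit 10048) (Tr.node (nat_lit 5760) (Tr.leaf (nat_lit 340965)) (Tr.node (nat_lit 3840) (Tr.leaf (nat_lit 340924)) (Tr.leaf (nat_lit 340897)))) (Tr.node (nat_lit 5312) (Tr.leaf (nat_lit 340894)) (Tr.node (nat_lit 5760) (Tr.leaf (nat_lit 340856)) (Tr.leaf (nat_lit 340816)))))) (Tr.node (nat_lit 24000)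 (Tr.node (nat_lit 5760) (Tr.node (nat_lit 3840) (Tr.leaf (nat_lit 340802)) (Tr.leaf (nat_lit 340775))) (Tr.node (nat_lit 3840) (Tr.leaf (nat_lit 1363048)) (Tr.node (nat_lit 7680) (Tr.leaf (nat_lit 340735)) (Tr.leaf (nat_lit 340681))))) (Tr.node (nat_lit 14400) (Tr.node (nat_lit 4800) (Tr.leaf (nat_lit 340633)) (Tr.node (nat_lit 8960) (Tr.leaf (nat_lit 1362400)) (Tr.leaf (nat_lit 5320)))) (Tr.node (nat_lit 5760) (Tr.leaf (nat_lit 340532)) (Tr.node (nat_lit 12224) (Tr.leaf (nat_lit 1361968)) (Tr.leaf (nat_lit 340406))))))))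

noncomputable def jt193 : Tr :=
  (Tr.node (nat_lit 102912) (Tr.node (nat_lit 46400) (Tr.node (nat_lit 22464) (Tr.node (nat_lit 10944) (Tr.node (nat_lit 3264) (Tr.leaf (nat_lit 85088)) (Tr.leaf (nat_lit 1361320))) (Tr.node (nat_lit 256) (Tr.leaf (nat_lit 340276)) (Tr.node (nat_lit 3584) (Tr.leaf (nat_lit 85068)) (Tr.leaf (nat_lit 340249))))) (Tr.node (nat_lit 17280) (Tr.node (nat_lit 15360) (Tr.leaf (nat_lit 1360781)) (Tr.leaf (nat_lit 340087))) (Tr.node (nat_lit 5696) (Tr.leaf (nat_lit 340074)) (Tr.node (nat_lit 256) (Tr.leaf (nat_lit 340033)) (Tr.leaf (nat_lit 332)))))) (Tr.node (nat_lit 14400) (Tr.node (nat_lit 4800) (Tr.node (nat_lit 2880) (Tr.leaf (nat_lit 340027)) (Tr.leaf (nat_lit 1360027))) (Tr.node (nat_lit 960) (Tr.leaf (nat_lit 339993)) (Tr.node (nat_lit 4800) (Tr.leaf (nat_lit 339986)) (Tr.leaf (nat_lit 339953))))) (Tr.node (nat_lit 28736) (Tr.node (nat_lit 3072)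 (Tr.leaf (nat_lit 1359704)) (Tr.node (nat_lit 10304) (Tr.leaf (nat_lit 21244)) (Tr.leaf (nat_lit 339832)))) (Tr.node (nat_lit 1920) (Tr.leaf (nat_lit 339724)) (Tr.node (nat_lit 3776) (Tr.leaf (nat_lit 339711)) (Tr.leaf (nat_lit 1358736))))))) (Tr.node (nat_lit 66944) (Tr.node (nat_lit 38272) (Tr.node (nat_lit 23040) (Tr.node (nat_lit 8128) (Tr.leaf (nat_lit 339630)) (Tr.leaf (nat_lit 339573))) (Tr.node (nat_lit 8704) (Tr.leaf (nat_lit 331)) (Tr.node (nat_lit 2688) (Tr.leaf (nat_lit 84851)) (Tr.leaf (nat_lit 339388))))) (Tr.node (nat_lit 10496) (Tr.node (nat_lit 5760) (Tr.leaf (nat_lit 5429794)) (Tr.node (nat_lit 1920) (Tr.leaf (nat_lit 339321)) (Tr.leaf (nat_lit 339308)))) (Tr.node (nat_lit 8640) (Tr.leaf (nat_lit 339288)) (Tr.node (nat_lit 5696) (Tr.leaf (nat_lit 339228)) (Tr.leaf (nat_lit 339187)))))) (Tr.node (nat_lit 24832) (Tr.node (nat_lit 8448) (Tr.node (nat_lit 1920)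 (Tr.leaf (nat_lit 339161)) (Tr.leaf (nat_lit 1356591))) (Tr.node (nat_lit 1088) (Tr.leaf (nat_lit 21193)) (Tr.node (nat_lit 3840) (Tr.leaf (nat_lit 5298)) (Tr.leaf (nat_lit 339067))))) (Tr.node (nat_lit 18816) (Tr.node (nat_lit 9536) (Tr.leaf (nat_lit 1355948)) (Tr.node (nat_lit 5760) (Tr.leaf (nat_lit 338920)) (Tr.leaf (nat_lit 338880)))) (Tr.node (nat_lit 7936) (Tr.leaf (nat_lit 84713)) (Tr.node (nat_lit 1920) (Tr.leaf (nat_lit 338799)) (Tr.leaf (nat_lit 338786))))))))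

noncomputable def jt194 : Tr :=
  (Tr.node (nat_lit 110656) (Tr.node (nat_lit 49600) (Tr.node (nat_lit 32448) (Tr.node (nat_lit 15296) (Tr.node (nat_lit 6400) (Tr.leaf (nat_lit 338746)) (Tr.leaf (nat_lit 84675))) (Tr.node (nat_lit 3328) (Tr.leaf (nat_lit 338639)) (Tr.node (nat_lit 8128) (Tr.leaf (nat_lit 21163)) (Tr.leaf (nat_lit 338559))))) (Tr.node (nat_lit 6784) (Tr.node (nat_lit 1920) (Tr.leaf (nat_lit 1354078)) (Tr.leaf (nat_lit 5416099))) (Tr.node (nat_lit 6592) (Tr.leaf (nat_lit 330)) (Tr.node (nat_lit 960) (Tr.leaf (nat_lit 1353704)) (Tr.leaf (nat_lit 338419)))))) (Tr.node (nat_lit 42944) (Tr.node (nat_lit 34368) (Tr.node (nat_lit 11456) (Tr.leaf (nat_lit 1353598)) (Tr.leaf (nat_lit 338319))) (Tr.node (nat_lit 1856) (Tr.leaf (nat_lit 338159)) (Tr.node (nat_lit 6656) (Tr.leaf (nat_lit 338146)) (Tr.leaf (nat_lit 1320))))) (Tr.node (nat_lit 11392) (Tr.node (nat_lit 2816)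 (Tr.leaf (nat_lit 338099)) (Tr.node (nat_lit 7616) (Tr.leaf (nat_lit 5409278)) (Tr.leaf (nat_lit 338026)))) (Tr.node (nat_lit 2880) (Tr.leaf (nat_lit 338020)) (Tr.node (nat_lit 2688) (Tr.leaf (nat_lit 338000)) (Tr.leaf (nat_lit 5280))))))) (Tr.node (nat_lit 87488) (Tr.node (nat_lit 35200) (Tr.node (nat_lit 5184) (Tr.node (nat_lit 3776) (Tr.leaf (nat_lit 84493)) (Tr.leaf (nat_lit 337946))) (Tr.node (nat_lit 2368) (Tr.leaf (nat_lit 337936)) (Tr.node (nat_lit 19072) (Tr.leaf (nat_lit 1351681)) (Tr.leaf (nat_lit 337787))))) (Tr.node (nat_lit 18048) (Tr.node (nat_lit 2816) (Tr.leaf (nat_lit 337727)) (Tr.node (nat_lit 9536) (Tr.leaf (nat_lit 337707)) (Tr.leaf (nat_lit 337641)))) (Tr.node (nat_lit 1920) (Tr.leaf (nat_lit 337601)) (Tr.node (nat_lit 28544) (Tr.leaf (nat_lit 337588)) (Tr.leaf (nat_lit 1349557)))))) (Tr.node (nat_lit 24704) (Tr.node (nat_lit 11392) (Tr.node (nat_lit 5696)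 (Tr.leaf (nat_lit 337362)) (Tr.leaf (nat_lit 337323))) (Tr.node (nat_lit 1472) (Tr.leaf (nat_lit 337283)) (Tr.node (nat_lit 9984) (Tr.leaf (nat_lit 337273)) (Tr.leaf (nat_lit 337203))))) (Tr.node (nat_lit 22784) (Tr.node (nat_lit 2240) (Tr.leaf (nat_lit 337190)) (Tr.node (nat_lit 7296) (Tr.leaf (nat_lit 84293)) (Tr.leaf (nat_lit 5393993)))) (Tr.node (nat_lit 5696) (Tr.leaf (nat_lit 337032)) (Tr.node (nat_lit 576) (Tr.leaf (nat_lit 336992)) (Tr.leaf (nat_lit 329))))))))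

noncomputable def jt195 : Tr :=
  (Tr.node (nat_lit 87232) (Tr.node (nat_lit 45568) (Tr.node (nat_lit 34176) (Tr.node (nat_lit 10432) (Tr.node (nat_lit 1856) (Tr.leaf (nat_lit 336965)) (Tr.leaf (nat_lit 336952))) (Tr.node (nat_lit 8512) (Tr.leaf (nat_lit 336893)) (Tr.node (nat_lit 8128) (Tr.leaf (nat_lit 336833)) (Tr.leaf (nat_lit 336777))))) (Tr.node (nat_lit 1472) (Tr.node (nat_lit 1152) (Tr.leaf (nat_lit 336728)) (Tr.leaf (nat_lit 336719))) (Tr.node (nat_lit 3264) (Tr.leaf (nat_lit 5261)) (Tr.node (nat_lit 384) (Tr.leaf (nat_lit 336695)) (Tr.leaf (nat_lit 84173)))))) (Tr.node (nat_lit 17024) (Tr.node (nat_lit 5696) (Tr.node (nat_lit 1856) (Tr.leaf (nat_lit 336648)) (Tr.leaf (nat_lit 336635))) (Tr.node (nat_lit 1856) (Tr.leaf (nat_lit 336609)) (Tr.node (nat_lit 3776) (Tr.leaf (nat_lit 5385538)) (Tr.leaf (nat_lit 336569))))) (Tr.node (nat_lit 11904) (Tr.node (nat_lit 7616)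 (Tr.leaf (nat_lit 336530)) (Tr.node (nat_lit 3776) (Tr.leaf (nat_lit 336477)) (Tr.leaf (nat_lit 336451)))) (Tr.node (nat_lit 4416) (Tr.leaf (nat_lit 336447)) (Tr.node (nat_lit 768) (Tr.leaf (nat_lit 84104)) (Tr.leaf (nat_lit 336411))))))) (Tr.node (nat_lit 38848) (Tr.node (nat_lit 26560) (Tr.node (nat_lit 11392) (Tr.node (nat_lit 9536) (Tr.leaf (nat_lit 336358)) (Tr.leaf (nat_lit 336293))) (Tr.node (nat_lit 3776) (Tr.leaf (nat_lit 1345119)) (Tr.node (nat_lit 7616) (Tr.leaf (nat_lit 336253)) (Tr.leaf (nat_lit 1344803))))) (Tr.node (nat_lit 5696) (Tr.node (nat_lit 1920) (Tr.leaf (nat_lit 1344698)) (Tr.node (nat_lit 896) (Tr.leaf (nat_lit 336161)) (Tr.leaf (nat_lit 336154)))) (Tr.node (nat_lit 1856) (Tr.leaf (nat_lit 336135)) (Tr.node (nat_lit 3840) (Tr.leaf (nat_lit 336122)) (Tr.leaf (nat_lit 336095)))))) (Tr.node (nat_lit 21824) (Tr.node (nat_lit 7616) (Tr.node (nat_lit 5248)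 (Tr.leaf (nat_lit 21005)) (Tr.leaf (nat_lit 336052))) (Tr.node (nat_lit 2816) (Tr.leaf (nat_lit 336036)) (Tr.node (nat_lit 7552) (Tr.leaf (nat_lit 1344067)) (Tr.leaf (nat_lit 5375428))))) (Tr.node (nat_lit 11328) (Tr.node (nat_lit 1856) (Tr.leaf (nat_lit 335937)) (Tr.node (nat_lit 5696) (Tr.leaf (nat_lit 335924)) (Tr.leaf (nat_lit 335885)))) (Tr.node (nat_lit 9536) (Tr.leaf (nat_lit 1343436)) (Tr.node (nat_lit 8768) (Tr.leaf (nat_lit 327)) (Tr.leaf (nat_lit 83933))))))))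

noncomputable def jt196 : Tr :=
  (Tr.node (nat_lit 110592) (Tr.node (nat_lit 67584) (Tr.node (nat_lit 20800) (Tr.node (nat_lit 3776) (Tr.node (nat_lit 2816) (Tr.leaf (nat_lit 335727)) (Tr.leaf (nat_lit 335708))) (Tr.node (nat_lit 7552) (Tr.leaf (nat_lit 335701)) (Tr.node (nat_lit 3776) (Tr.leaf (nat_lit 1342596)) (Tr.leaf (nat_lit 335622))))) (Tr.node (nat_lit 34048) (Tr.node (nat_lit 27136) (Tr.leaf (nat_lit 335583)) (Tr.leaf (nat_lit 1310))) (Tr.node (nat_lit 1856) (Tr.leaf (nat_lit 335347)) (Tr.node (nat_lit 5696) (Tr.leaf (nat_lit 1341338)) (Tr.leaf (nat_lit 335295)))))) (Tr.node (nat_lit 17472) (Tr.node (nat_lit 6144) (Tr.node (nat_lit 448) (Tr.leaf (nat_lit 335259)) (Tr.leaf (nat_lit 335256))) (Tr.node (nat_lit 3776) (Tr.leaf (nat_lit 1340867)) (Tr.node (nat_lit 5632) (Tr.leaf (nat_lit 335190)) (Tr.leaf (nat_lit 5236))))) (Tr.node (nat_lit 12288) (Tr.node (nat_lit 5632)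 (Tr.leaf (nat_lit 335138)) (Tr.node (nat_lit 3776) (Tr.leaf (nat_lit 335099)) (Tr.leaf (nat_lit 1340292)))) (Tr.node (nat_lit 3264) (Tr.leaf (nat_lit 335053)) (Tr.node (nat_lit 1472) (Tr.leaf (nat_lit 335030)) (Tr.leaf (nat_lit 1340083))))))) (Tr.node (nat_lit 59392) (Tr.node (nat_lit 19776) (Tr.node (nat_lit 1728) (Tr.node (nat_lit 896) (Tr.leaf (nat_lit 83740)) (Tr.leaf (nat_lit 334955))) (Tr.node (nat_lit 12352) (Tr.leaf (nat_lit 20934)) (Tr.node (nat_lit 3776) (Tr.leaf (nat_lit 1339456)) (Tr.leaf (nat_lit 334838))))) (Tr.node (nat_lit 18560) (Tr.node (nat_lit 5504) (Tr.leaf (nat_lit 334824)) (Tr.node (nat_lit 11456) (Tr.leaf (nat_lit 326)) (Tr.leaf (nat_lit 5355320)))) (Tr.node (nat_lit 2176) (Tr.leaf (nat_lit 83674)) (Tr.node (nat_lit 5696) (Tr.leaf (nat_lit 334681)) (Tr.leaf (nat_lit 334642)))))) (Tr.node (nat_lit 16960) (Tr.node (nat_lit 6592) (Tr.node (nat_lit 3776) (Tr.leaf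 (nat_lit 1338204)) (Tr.leaf (nat_lit 334525))) (Tr.node (nat_lit 7680) (Tr.leaf (nat_lit 334505)) (Tr.node (nat_lit 768) (Tr.leaf (nat_lit 83613)) (Tr.leaf (nat_lit 334446))))) (Tr.node (nat_lit 20736) (Tr.node (nat_lit 3200) (Tr.leaf (nat_lit 334433)) (Tr.node (nat_lit 13760) (Tr.leaf (nat_lit 83602)) (Tr.leaf (nat_lit 334316)))) (Tr.node (nat_lit 7488) (Tr.leaf (nat_lit 5348651)) (Tr.node (nat_lit 3776) (Tr.leaf (nat_lit 1336954)) (Tr.leaf (nat_lit 334212))))))))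

noncomputable def jt197 : Tr :=
  (Tr.node (nat_lit 114752) (Tr.node (nat_lit 55168) (Tr.node (nat_lit 22400) (Tr.node (nat_lit 8256) (Tr.node (nat_lit 3584) (Tr.leaf (nat_lit 334198)) (Tr.leaf (nat_lit 334173))) (Tr.node (nat_lit 960) (Tr.leaf (nat_lit 334141)) (Tr.node (nat_lit 7552) (Tr.leaf (nat_lit 334134)) (Tr.leaf (nat_lit 1336330))))) (Tr.node (nat_lit 11264) (Tr.node (nat_lit 9408) (Tr.leaf (nat_lit 334043)) (Tr.leaf (nat_lit 1335915))) (Tr.node (nat_lit 9408) (Tr.leaf (nat_lit 333965)) (Tr.node (nat_lit 3392) (Tr.leaf (nat_lit 333900)) (Tr.leaf (nat_lit 326)))))) (Tr.node (nat_lit 23680) (Tr.node (nat_lit 10496) (Tr.node (nat_lit 9536) (Tr.leaf (nat_lit 83454)) (Tr.leaf (nat_lit 333751))) (Tr.node (nat_lit 7552) (Tr.leaf (nat_lit 333745)) (Tr.node (nat_lit 3712) (Tr.leaf (nat_lit 333693)) (Tr.leaf (nat_lit 1334669))))) (Tr.node (nat_lit 15040) (Tr.node (nat_lit 9408)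 (Tr.leaf (nat_lit 333654)) (Tr.node (nat_lit 1984) (Tr.leaf (nat_lit 1334358)) (Tr.leaf (nat_lit 325)))) (Tr.node (nat_lit 1856) (Tr.leaf (nat_lit 333550)) (Tr.node (nat_lit 15040) (Tr.leaf (nat_lit 333537)) (Tr.leaf (nat_lit 333434))))))) (Tr.node (nat_lit 46720) (Tr.node (nat_lit 20480) (Tr.node (nat_lit 8704) (Tr.node (nat_lit 3520) (Tr.leaf (nat_lit 1302)) (Tr.leaf (nat_lit 333382))) (Tr.node (nat_lit 5120) (Tr.leaf (nat_lit 333346)) (Tr.node (nat_lit 1920) (Tr.leaf (nat_lit 83327)) (Tr.leaf (nat_lit 333298))))) (Tr.node (nat_lit 14976) (Tr.node (nat_lit 6720) (Tr.leaf (nat_lit 333266)) (Tr.node (nat_lit 4544) (Tr.leaf (nat_lit 83304)) (Tr.leaf (nat_lit 333188)))) (Tr.node (nat_lit 1920) (Tr.leaf (nat_lit 333162)) (Tr.node (nat_lit 2176) (Tr.leaf (nat_lit 1332599)) (Tr.leaf (nat_lit 83283)))))) (Tr.node (nat_lit 30016) (Tr.node (nat_lit 5632) (Tr.node (nat_lit 1920) (Tr.leaf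 (nat_lit 333085)) (Tr.leaf (nat_lit 333072))) (Tr.node (nat_lit 7552) (Tr.leaf (nat_lit 83261)) (Tr.node (nat_lit 14976) (Tr.leaf (nat_lit 332994)) (Tr.leaf (nat_lit 332891))))) (Tr.node (nat_lit 12224) (Tr.node (nat_lit 5632) (Tr.leaf (nat_lit 332878)) (Tr.node (nat_lit 5184) (Tr.leaf (nat_lit 1331359)) (Tr.leaf (nat_lit 332804)))) (Tr.node (nat_lit 8448) (Tr.leaf (nat_lit 332794)) (Tr.node (nat_lit 16832) (Tr.leaf (nat_lit 1330947)) (Tr.leaf (nat_lit 332620))))))))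

noncomputable def jt198 : Tr :=
  (Tr.node (nat_lit 131968) (Tr.node (nat_lit 71168) (Tr.node (nat_lit 40256) (Tr.node (nat_lit 14016) (Tr.node (nat_lit 7616) (Tr.leaf (nat_lit 332608)) (Tr.leaf (nat_lit 83138))) (Tr.node (nat_lit 12224) (Tr.leaf (nat_lit 332511)) (Tr.node (nat_lit 7488) (Tr.leaf (nat_lit 5318844)) (Tr.leaf (nat_lit 1329505))))) (Tr.node (nat_lit 15936) (Tr.node (nat_lit 4672) (Tr.leaf (nat_lit 332331)) (Tr.leaf (nat_lit 1329196))) (Tr.node (nat_lit 3712) (Tr.leaf (nat_lit 21262214)) (Tr.node (nat_lit 7488) (Tr.leaf (nat_lit 332196)) (Tr.leaf (nat_lit 332145)))))) (Tr.node (nat_lit 26432) (Tr.node (nat_lit 8256) (Tr.node (nat_lit 1856) (Tr.leaf (nat_lit 1328477)) (Tr.leaf (nat_lit 332106))) (Tr.node (nat_lit 10432) (Tr.leaf (nat_lit 5188)) (Tr.node (nat_lit 3776) (Tr.leaf (nat_lit 331990)) (Tr.leaf (nat_lit 331965))))) (Tr.node (nat_lit 12864) (Tr.node (nat_lit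 3520) (Tr.leaf (nat_lit 331938)) (Tr.node (nat_lit 5568) (Tr.leaf (nat_lit 1327656)) (Tr.leaf (nat_lit 331875)))) (Tr.node (nat_lit 4672) (Tr.leaf (nat_lit 331849)) (Tr.node (nat_lit 8384) (Tr.leaf (nat_lit 331817)) (Tr.leaf (nat_lit 331760))))))) (Tr.node (nat_lit 47616) (Tr.node (nat_lit 27712) (Tr.node (nat_lit 2816) (Tr.node (nat_lit 896) (Tr.leaf (nat_lit 331702)) (Tr.leaf (nat_lit 331696))) (Tr.node (nat_lit 11200) (Tr.leaf (nat_lit 331683)) (Tr.node (nat_lit 11200) (Tr.leaf (nat_lit 1326425)) (Tr.leaf (nat_lit 331529))))) (Tr.node (nat_lit 8704) (Tr.node (nat_lit 1216) (Tr.leaf (nat_lit 5179)) (Tr.node (nat_lit 5632) (Tr.leaf (nat_lit 1326016)) (Tr.leaf (nat_lit 331465)))) (Tr.node (nat_lit 5056) (Tr.leaf (nat_lit 1325811)) (Tr.node (nat_lit 64) (Tr.leaf (nat_lit 323)) (Tr.leaf (nat_lit 331417)))))) (Tr.node (nat_lit 26176) (Tr.node (nat_lit 11200) (Tr.node (nat_lit 3776)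 (Tr.leaf (nat_lit 331376)) (Tr.leaf (nat_lit 331350))) (Tr.node (nat_lit 3776) (Tr.leaf (nat_lit 1325198)) (Tr.node (nat_lit 4608) (Tr.leaf (nat_lit 331273)) (Tr.leaf (nat_lit 331242))))) (Tr.node (nat_lit 7360) (Tr.node (nat_lit 5248) (Tr.leaf (nat_lit 1324789)) (Tr.node (nat_lit 1024) (Tr.leaf (nat_lit 323)) (Tr.leaf (nat_lit 331154)))) (Tr.node (nat_lit 16896) (Tr.leaf (nat_lit 82786)) (Tr.node (nat_lit 384) (Tr.leaf (nat_lit 331031)) (Tr.leaf (nat_lit 82757))))))))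

noncomputable def jt199 : Tr :=
  (Tr.node (nat_lit 115968) (Tr.node (nat_lit 44736) (Tr.node (nat_lit 25216) (Tr.node (nat_lit 15872) (Tr.node (nat_lit 1856) (Tr.leaf (nat_lit 330967)) (Tr.leaf (nat_lit 330954))) (Tr.node (nat_lit 2816) (Tr.leaf (nat_lit 330859)) (Tr.node (nat_lit 1536) (Tr.leaf (nat_lit 330840)) (Tr.leaf (nat_lit 82707))))) (Tr.node (nat_lit 13952) (Tr.node (nat_lit 4608) (Tr.leaf (nat_lit 330795)) (Tr.leaf (nat_lit 1323055))) (Tr.node (nat_lit 1856) (Tr.leaf (nat_lit 330700)) (Tr.node (nat_lit 1088) (Tr.leaf (nat_lit 1322749)) (Tr.leaf (nat_lit 330680)))))) (Tr.node (nat_lit 27904) (Tr.node (nat_lit 11200) (Tr.node (nat_lit 7488) (Tr.leaf (nat_lit 330661)) (Tr.leaf (nat_lit 330610))) (Tr.node (nat_lit 6784) (Tr.leaf (nat_lit 21157474)) (Tr.node (nat_lit 6272) (Tr.leaf (nat_lit 5164)) (Tr.leaf (nat_lit 330496))))) (Tr.node (nat_lit 15872) (Tr.node (nat_lit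 64) (Tr.leaf (nat_lit 82617)) (Tr.node (nat_lit 1856) (Tr.leaf (nat_lit 330471)) (Tr.leaf (nat_lit 330458)))) (Tr.node (nat_lit 6528) (Tr.leaf (nat_lit 330363)) (Tr.node (nat_lit 11200) (Tr.leaf (nat_lit 330318)) (Tr.leaf (nat_lit 330242))))))) (Tr.node (nat_lit 70208) (Tr.node (nat_lit 34880) (Tr.node (nat_lit 18176) (Tr.node (nat_lit 17024) (Tr.leaf (nat_lit 20635)) (Tr.leaf (nat_lit 82514))) (Tr.node (nat_lit 8320) (Tr.leaf (nat_lit 1320208)) (Tr.node (nat_lit 2816) (Tr.leaf (nat_lit 322)) (Tr.leaf (nat_lit 1319903))))) (Tr.node (nat_lit 13056) (Tr.node (nat_lit 320) (Tr.leaf (nat_lit 329937)) (Tr.node (nat_lit 5248) (Tr.leaf (nat_lit 82483)) (Tr.leaf (nat_lit 329899)))) (Tr.node (nat_lit 7680) (Tr.leaf (nat_lit 329849)) (Tr.node (nat_lit 1600) (Tr.leaf (nat_lit 1288)) (Tr.leaf (nat_lit 329785)))))) (Tr.node (nat_lit 31552) (Tr.node (nat_lit 9280) (Tr.node (nat_lit 6080) (Tr.leaf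 (nat_lit 329697)) (Tr.leaf (nat_lit 82413))) (Tr.node (nat_lit 5568) (Tr.leaf (nat_lit 329634)) (Tr.node (nat_lit 5568) (Tr.leaf (nat_lit 329596)) (Tr.leaf (nat_lit 329558))))) (Tr.node (nat_lit 24192) (Tr.node (nat_lit 11200) (Tr.leaf (nat_lit 329482)) (Tr.node (nat_lit 5568) (Tr.leaf (nat_lit 5146)) (Tr.leaf (nat_lit 5269898)))) (Tr.node (nat_lit 11072) (Tr.leaf (nat_lit 329318)) (Tr.node (nat_lit 6976) (Tr.leaf (nat_lit 329242)) (Tr.leaf (nat_lit 329195))))))))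

noncomputable def jt200 : Tr :=
  (Tr.node (nat_lit 108864) (Tr.node (nat_lit 50112) (Tr.node (nat_lit 18560) (Tr.node (nat_lit 12992) (Tr.node (nat_lit 4672) (Tr.leaf (nat_lit 329179)) (Tr.leaf (nat_lit 329147))) (Tr.node (nat_lit 128) (Tr.leaf (nat_lit 329091)) (Tr.node (nat_lit 3584) (Tr.leaf (nat_lit 5142)) (Tr.leaf (nat_lit 1316263))))) (Tr.node (nat_lit 16704) (Tr.node (nat_lit 15360) (Tr.leaf (nat_lit 329053)) (Tr.leaf (nat_lit 82237))) (Tr.node (nat_lit 3712) (Tr.leaf (nat_lit 328939)) (Tr.node (nat_lit 7424) (Tr.leaf (nat_lit 328914)) (Tr.leaf (nat_lit 1315457)))))) (Tr.node (nat_lit 29632) (Tr.node (nat_lit 5568) (Tr.node (nat_lit 1920) (Tr.leaf (nat_lit 328839)) (Tr.leaf (nat_lit 82206))) (Tr.node (nat_lit 7360) (Tr.leaf (nat_lit 1315205)) (Tr.node (nat_lit 9280) (Tr.leaf (nat_lit 328750)) (Tr.leaf (nat_lit 328688))))) (Tr.node (nat_lit 14784) (Tr.node (nat_lit 6464)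 (Tr.leaf (nat_lit 328637)) (Tr.node (nat_lit 4608) (Tr.leaf (nat_lit 328593)) (Tr.leaf (nat_lit 5256997)))) (Tr.node (nat_lit 11136) (Tr.leaf (nat_lit 328537)) (Tr.node (nat_lit 640) (Tr.leaf (nat_lit 1313847)) (Tr.leaf (nat_lit 82114))))))) (Tr.node (nat_lit 74496) (Tr.node (nat_lit 34752) (Tr.node (nat_lit 15296) (Tr.node (nat_lit 9728) (Tr.leaf (nat_lit 328439)) (Tr.leaf (nat_lit 328373))) (Tr.node (nat_lit 14784) (Tr.leaf (nat_lit 328336)) (Tr.node (nat_lit 3456) (Tr.leaf (nat_lit 328235)) (Tr.leaf (nat_lit 328212))))) (Tr.node (nat_lit 27712) (Tr.node (nat_lit 2752) (Tr.leaf (nat_lit 328204)) (Tr.node (nat_lit 3712) (Tr.leaf (nat_lit 328185)) (Tr.leaf (nat_lit 5250571)))) (Tr.node (nat_lit 896) (Tr.leaf (nat_lit 328016)) (Tr.node (nat_lit 7424) (Tr.leaf (nat_lit 328010)) (Tr.leaf (nat_lit 1311840)))))) (Tr.node (nat_lit 18432) (Tr.node (nat_lit 1792) (Tr.node (nat_lit 704)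 (Tr.leaf (nat_lit 327935)) (Tr.leaf (nat_lit 320))) (Tr.node (nat_lit 3712) (Tr.leaf (nat_lit 5123)) (Tr.node (nat_lit 7424) (Tr.leaf (nat_lit 327897)) (Tr.leaf (nat_lit 327847))))) (Tr.node (nat_lit 22208) (Tr.node (nat_lit 11072) (Tr.leaf (nat_lit 327810)) (Tr.node (nat_lit 3712) (Tr.leaf (nat_lit 327735)) (Tr.leaf (nat_lit 327710)))) (Tr.node (nat_lit 11072) (Tr.leaf (nat_lit 1310640)) (Tr.node (nat_lit 1216) (Tr.leaf (nat_lit 327585)) (Tr.leaf (nat_lit 81894))))))))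

noncomputable def jt201 : Tr :=
  (Tr.node (nat_lit 87808) (Tr.node (nat_lit 42432) (Tr.node (nat_lit 33216) (Tr.node (nat_lit 10112) (Tr.node (nat_lit 1920) (Tr.leaf (nat_lit 327547)) (Tr.leaf (nat_lit 20470))) (Tr.node (nat_lit 6528) (Tr.leaf (nat_lit 81869)) (Tr.node (nat_lit 11072) (Tr.leaf (nat_lit 327435)) (Tr.leaf (nat_lit 20951378))))) (Tr.node (nat_lit 3712) (Tr.node (nat_lit 1408) (Tr.leaf (nat_lit 327322)) (Tr.leaf (nat_lit 327313))) (Tr.node (nat_lit 192) (Tr.leaf (nat_lit 327297)) (Tr.node (nat_lit 1664) (Tr.leaf (nat_lit 81824)) (Tr.leaf (nat_lit 327285)))))) (Tr.node (nat_lit 22144) (Tr.node (nat_lit 10944) (Tr.node (nat_lit 7424) (Tr.leaf (nat_lit 1309042)) (Tr.leaf (nat_lit 327210))) (Tr.node (nat_lit 1984) (Tr.leaf (nat_lit 81796)) (Tr.node (nat_lit 5504) (Tr.leaf (nat_lit 327173)) (Tr.leaf (nat_lit 327135))))) (Tr.node (nat_lit 11072) (Tr.node (nat_lit 1728)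 (Tr.leaf (nat_lit 1308443)) (Tr.node (nat_lit 2880) (Tr.leaf (nat_lit 327099)) (Tr.leaf (nat_lit 327079)))) (Tr.node (nat_lit 2752) (Tr.leaf (nat_lit 327036)) (Tr.node (nat_lit 3776) (Tr.leaf (nat_lit 327017)) (Tr.leaf (nat_lit 81748))))))) (Tr.node (nat_lit 28864) (Tr.node (nat_lit 8704) (Tr.node (nat_lit 2048) (Tr.node (nat_lit 704) (Tr.leaf (nat_lit 319)) (Tr.leaf (nat_lit 326949))) (Tr.node (nat_lit 2368) (Tr.leaf (nat_lit 5108)) (Tr.node (nat_lit 1856) (Tr.leaf (nat_lit 326924)) (Tr.leaf (nat_lit 326911))))) (Tr.node (nat_lit 8576) (Tr.node (nat_lit 1216) (Tr.leaf (nat_lit 81723)) (Tr.node (nat_lit 6016) (Tr.leaf (nat_lit 326886)) (Tr.leaf (nat_lit 326846)))) (Tr.node (nat_lit 3712) (Tr.leaf (nat_lit 326837)) (Tr.node (nat_lit 1856) (Tr.leaf (nat_lit 326812)) (Tr.leaf (nat_lit 326799)))))) (Tr.node (nat_lit 36288) (Tr.node (nat_lit 14208) (Tr.node (nat_lit 448) (Tr.leaf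 (nat_lit 81689)) (Tr.leaf (nat_lit 326756))) (Tr.node (nat_lit 7360) (Tr.leaf (nat_lit 1306652)) (Tr.node (nat_lit 11072) (Tr.leaf (nat_lit 1306453)) (Tr.leaf (nat_lit 326538))))) (Tr.node (nat_lit 11072) (Tr.node (nat_lit 3456) (Tr.leaf (nat_lit 326514)) (Tr.node (nat_lit 4864) (Tr.leaf (nat_lit 318)) (Tr.leaf (nat_lit 326458)))) (Tr.node (nat_lit 1856) (Tr.leaf (nat_lit 326439)) (Tr.node (nat_lit 9152) (Tr.leaf (nat_lit 326427)) (Tr.leaf (nat_lit 5221844))))))))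

noncomputable def jt202 : Tr :=
  (Tr.node (nat_lit 121152) (Tr.node (nat_lit 53312) (Tr.node (nat_lit 36800) (Tr.node (nat_lit 20224) (Tr.node (nat_lit 11072) (Tr.leaf (nat_lit 326315)) (Tr.leaf (nat_lit 326241))) (Tr.node (nat_lit 5504) (Tr.leaf (nat_lit 326179)) (Tr.node (nat_lit 5568) (Tr.leaf (nat_lit 326142)) (Tr.leaf (nat_lit 326105))))) (Tr.node (nat_lit 2304) (Tr.node (nat_lit 1792) (Tr.leaf (nat_lit 1304271)) (Tr.leaf (nat_lit 326055))) (Tr.node (nat_lit 4416) (Tr.leaf (nat_lit 5094)) (Tr.node (nat_lit 4288) (Tr.leaf (nat_lit 81505)) (Tr.leaf (nat_lit 1303974)))))) (Tr.node (nat_lit 41856) (Tr.node (nat_lit 27520) (Tr.node (nat_lit 12864) (Tr.leaf (nat_lit 325956)) (Tr.leaf (nat_lit 1303480))) (Tr.node (nat_lit 2048) (Tr.leaf (nat_lit 20849355)) (Tr.node (nat_lit 6272) (Tr.leaf (nat_lit 5089)) (Tr.leaf (nat_lit 325715))))) (Tr.node (nat_lit 12224) (Tr.node (nat_lit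 2048) (Tr.leaf (nat_lit 81418)) (Tr.node (nat_lit 7488) (Tr.leaf (nat_lit 318)) (Tr.leaf (nat_lit 325610)))) (Tr.node (nat_lit 6528) (Tr.leaf (nat_lit 20349)) (Tr.node (nat_lit 1280) (Tr.leaf (nat_lit 325548)) (Tr.leaf (nat_lit 81385))))))) (Tr.node (nat_lit 68800) (Tr.node (nat_lit 25728) (Tr.node (nat_lit 11072) (Tr.node (nat_lit 64) (Tr.leaf (nat_lit 1271)) (Tr.leaf (nat_lit 1301998))) (Tr.node (nat_lit 3712) (Tr.leaf (nat_lit 325425)) (Tr.node (nat_lit 7296) (Tr.leaf (nat_lit 325400)) (Tr.leaf (nat_lit 325351))))) (Tr.node (nat_lit 32512) (Tr.node (nat_lit 12864) (Tr.leaf (nat_lit 1301308)) (Tr.node (nat_lit 5504) (Tr.leaf (nat_lit 1300963)) (Tr.leaf (nat_lit 325203)))) (Tr.node (nat_lit 512) (Tr.leaf (nat_lit 81277)) (Tr.node (nat_lit 7296) (Tr.leaf (nat_lit 325105)) (Tr.leaf (nat_lit 325056)))))) (Tr.node (nat_lit 14656) (Tr.node (nat_lit 2752) (Tr.node (nat_lit 960) (Tr.leaf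 (nat_lit 325037)) (Tr.leaf (nat_lit 325031))) (Tr.node (nat_lit 6720) (Tr.leaf (nat_lit 325019)) (Tr.node (nat_lit 4288) (Tr.leaf (nat_lit 81243)) (Tr.leaf (nat_lit 324945))))) (Tr.node (nat_lit 19264) (Tr.node (nat_lit 5504) (Tr.leaf (nat_lit 324939)) (Tr.node (nat_lit 2752) (Tr.leaf (nat_lit 324902)) (Tr.leaf (nat_lit 1299536)))) (Tr.node (nat_lit 6528) (Tr.leaf (nat_lit 324810)) (Tr.node (nat_lit 768) (Tr.leaf (nat_lit 1268)) (Tr.leaf (nat_lit 1299044))))))))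

noncomputable def jt203 : Tr :=
  (Tr.node (nat_lit 117888) (Tr.node (nat_lit 46656) (Tr.node (nat_lit 14656) (Tr.node (nat_lit 5184) (Tr.node (nat_lit 896) (Tr.leaf (nat_lit 324613)) (Tr.leaf (nat_lit 324607))) (Tr.node (nat_lit 320) (Tr.leaf (nat_lit 81144)) (Tr.node (nat_lit 3648) (Tr.leaf (nat_lit 324577)) (Tr.leaf (nat_lit 324552))))) (Tr.node (nat_lit 12800) (Tr.node (nat_lit 10944) (Tr.leaf (nat_lit 324515)) (Tr.leaf (nat_lit 324442))) (Tr.node (nat_lit 896) (Tr.leaf (nat_lit 324430)) (Tr.node (nat_lit 12800) (Tr.leaf (nat_lit 324423)) (Tr.leaf (nat_lit 324338)))))) (Tr.node (nat_lit 29952) (Tr.node (nat_lit 11840) (Tr.node (nat_lit 3200) (Tr.leaf (nat_lit 324301)) (Tr.leaf (nat_lit 81069))) (Tr.node (nat_lit 1856) (Tr.leaf (nat_lit 324221)) (Tr.node (nat_lit 384) (Tr.leaf (nat_lit 324209)) (Tr.leaf (nat_lit 81051))))) (Tr.node (nat_lit 14784) (Tr.node (nat_lit 3840)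 (Tr.leaf (nat_lit 81025)) (Tr.node (nat_lit 5440) (Tr.leaf (nat_lit 324075)) (Tr.leaf (nat_lit 324038)))) (Tr.node (nat_lit 18240) (Tr.leaf (nat_lit 1296007)) (Tr.node (nat_lit 5504) (Tr.leaf (nat_lit 323879)) (Tr.leaf (nat_lit 323842))))))) (Tr.node (nat_lit 38272) (Tr.node (nat_lit 19136) (Tr.node (nat_lit 12224) (Tr.node (nat_lit 11840) (Tr.leaf (nat_lit 323824)) (Tr.leaf (nat_lit 323745))) (Tr.node (nat_lit 320) (Tr.leaf (nat_lit 80935)) (Tr.node (nat_lit 4736) (Tr.leaf (nat_lit 316)) (Tr.leaf (nat_lit 1294834))))) (Tr.node (nat_lit 9088) (Tr.node (nat_lit 896) (Tr.leaf (nat_lit 323696)) (Tr.node (nat_lit 5952) (Tr.leaf (nat_lit 323690)) (Tr.leaf (nat_lit 5057)))) (Tr.node (nat_lit 1856) (Tr.leaf (nat_lit 323635)) (Tr.node (nat_lit 5440) (Tr.leaf (nat_lit 323623)) (Tr.leaf (nat_lit 323586)))))) (Tr.node (nat_lit 27328) (Tr.node (nat_lit 9152) (Tr.node (nat_lit 896) (Tr.leaf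 (nat_lit 323568)) (Tr.leaf (nat_lit 323562))) (Tr.node (nat_lit 4544) (Tr.leaf (nat_lit 323507)) (Tr.node (nat_lit 11584) (Tr.leaf (nat_lit 323477)) (Tr.leaf (nat_lit 5053))))) (Tr.node (nat_lit 17344) (Tr.node (nat_lit 6400) (Tr.leaf (nat_lit 1293543)) (Tr.node (nat_lit 7296) (Tr.leaf (nat_lit 323343)) (Tr.leaf (nat_lit 323294)))) (Tr.node (nat_lit 5440) (Tr.leaf (nat_lit 1293080)) (Tr.node (nat_lit 5504) (Tr.leaf (nat_lit 323233)) (Tr.leaf (nat_lit 323197))))))))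

noncomputable def jt204 : Tr :=
  (Tr.node (nat_lit 92928) (Tr.node (nat_lit 41856) (Tr.node (nat_lit 27264) (Tr.node (nat_lit 9088) (Tr.node (nat_lit 5440) (Tr.leaf (nat_lit 323112)) (Tr.leaf (nat_lit 1292302))) (Tr.node (nat_lit 5440) (Tr.leaf (nat_lit 323051)) (Tr.node (nat_lit 1408) (Tr.leaf (nat_lit 323014)) (Tr.leaf (nat_lit 323005))))) (Tr.node (nat_lit 9152) (Tr.node (nat_lit 3648) (Tr.leaf (nat_lit 5166877)) (Tr.leaf (nat_lit 322905))) (Tr.node (nat_lit 832) (Tr.leaf (nat_lit 322869)) (Tr.node (nat_lit 960) (Tr.leaf (nat_lit 80715)) (Tr.leaf (nat_lit 322857)))))) (Tr.node (nat_lit 10880) (Tr.node (nat_lit 5440) (Tr.node (nat_lit 1792) (Tr.leaf (nat_lit 1291331)) (Tr.leaf (nat_lit 322820))) (Tr.node (nat_lit 640) (Tr.leaf (nat_lit 322796)) (Tr.node (nat_lit 1216) (Tr.leaf (nat_lit 80698)) (Tr.leaf (nat_lit 322784))))) (Tr.node (nat_lit 38208) (Tr.node (nat_lit 12928)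 (Tr.leaf (nat_lit 322759)) (Tr.node (nat_lit 16192) (Tr.leaf (nat_lit 80668)) (Tr.leaf (nat_lit 322566)))) (Tr.node (nat_lit 1536) (Tr.leaf (nat_lit 322505)) (Tr.node (nat_lit 256) (Tr.leaf (nat_lit 1259)) (Tr.leaf (nat_lit 322493))))))) (Tr.node (nat_lit 63872) (Tr.node (nat_lit 25280) (Tr.node (nat_lit 8256) (Tr.node (nat_lit 3456) (Tr.leaf (nat_lit 80623)) (Tr.leaf (nat_lit 322469))) (Tr.node (nat_lit 6144) (Tr.leaf (nat_lit 322437)) (Tr.node (nat_lit 1792) (Tr.leaf (nat_lit 322396)) (Tr.leaf (nat_lit 322384))))) (Tr.node (nat_lit 18176) (Tr.node (nat_lit 9408) (Tr.leaf (nat_lit 1289295)) (Tr.node (nat_lit 3328) (Tr.leaf (nat_lit 5035)) (Tr.leaf (nat_lit 322239)))) (Tr.node (nat_lit 5440) (Tr.leaf (nat_lit 1288812)) (Tr.node (nat_lit 5440) (Tr.leaf (nat_lit 322166)) (Tr.leaf (nat_lit 322130)))))) (Tr.node (nat_lit 37632) (Tr.node (nat_lit 10432) (Tr.node (nat_lit 1344) (Tr.leaf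 (nat_lit 20129)) (Tr.leaf (nat_lit 1288232))) (Tr.node (nat_lit 9152) (Tr.leaf (nat_lit 321997)) (Tr.node (nat_lit 7168) (Tr.leaf (nat_lit 80484)) (Tr.leaf (nat_lit 321889))))) (Tr.node (nat_lit 10880) (Tr.node (nat_lit 5440) (Tr.leaf (nat_lit 321816)) (Tr.node (nat_lit 1792) (Tr.leaf (nat_lit 321780)) (Tr.leaf (nat_lit 1287074)))) (Tr.node (nat_lit 8832) (Tr.leaf (nat_lit 321744)) (Tr.node (nat_lit 2048) (Tr.leaf (nat_lit 80421)) (Tr.leaf (nat_lit 1286688))))))))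

noncomputable def jt205 : Tr :=
  (Tr.node (nat_lit 101824) (Tr.node (nat_lit 48960) (Tr.node (nat_lit 29952) (Tr.node (nat_lit 19072) (Tr.node (nat_lit 8192) (Tr.leaf (nat_lit 314)) (Tr.leaf (nat_lit 321599))) (Tr.node (nat_lit 5440) (Tr.leaf (nat_lit 321527)) (Tr.node (nat_lit 1792) (Tr.leaf (nat_lit 321491)) (Tr.leaf (nat_lit 5143673))))) (Tr.node (nat_lit 10880) (Tr.node (nat_lit 5440) (Tr.leaf (nat_lit 321455)) (Tr.leaf (nat_lit 321419))) (Tr.node (nat_lit 896) (Tr.leaf (nat_lit 1285533)) (Tr.node (nat_lit 4928) (Tr.leaf (nat_lit 80344)) (Tr.leaf (nat_lit 321344)))))) (Tr.node (nat_lit 31680) (Tr.node (nat_lit 10432) (Tr.node (nat_lit 9920) (Tr.leaf (nat_lit 321329)) (Tr.leaf (nat_lit 321263))) (Tr.node (nat_lit 3136) (Tr.leaf (nat_lit 80314)) (Tr.node (nat_lit 10880) (Tr.leaf (nat_lit 1284956)) (Tr.leaf (nat_lit 321167))))) (Tr.node (nat_lit 12480) (Tr.node (nat_lit 3584)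 (Tr.leaf (nat_lit 1284476)) (Tr.node (nat_lit 7232) (Tr.leaf (nat_lit 20550082)) (Tr.leaf (nat_lit 321047)))) (Tr.node (nat_lit 1088) (Tr.leaf (nat_lit 313)) (Tr.node (nat_lit 896) (Tr.leaf (nat_lit 321029)) (Tr.leaf (nat_lit 321023))))))) (Tr.node (nat_lit 43904) (Tr.node (nat_lit 14144) (Tr.node (nat_lit 5952) (Tr.node (nat_lit 4160) (Tr.leaf (nat_lit 80244)) (Tr.leaf (nat_lit 320951))) (Tr.node (nat_lit 2240) (Tr.leaf (nat_lit 320939)) (Tr.node (nat_lit 1344) (Tr.leaf (nat_lit 320924)) (Tr.leaf (nat_lit 320915))))) (Tr.node (nat_lit 18944) (Tr.node (nat_lit 832) (Tr.leaf (nat_lit 80221)) (Tr.node (nat_lit 7232) (Tr.leaf (nat_lit 320879)) (Tr.leaf (nat_lit 320831)))) (Tr.node (nat_lit 3584) (Tr.leaf (nat_lit 1283037)) (Tr.node (nat_lit 5440) (Tr.leaf (nat_lit 320735)) (Tr.leaf (nat_lit 320699)))))) (Tr.node (nat_lit 24384) (Tr.node (nat_lit 10880) (Tr.node (nat_lit 5440) (Tr.leaf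 (nat_lit 320687)) (Tr.leaf (nat_lit 320651))) (Tr.node (nat_lit 1728) (Tr.leaf (nat_lit 1282462)) (Tr.node (nat_lit 3648) (Tr.leaf (nat_lit 80151)) (Tr.leaf (nat_lit 320579))))) (Tr.node (nat_lit 6336) (Tr.node (nat_lit 896) (Tr.leaf (nat_lit 320525)) (Tr.node (nat_lit 4224) (Tr.leaf (nat_lit 5128319)) (Tr.leaf (nat_lit 80122)))) (Tr.node (nat_lit 1792) (Tr.leaf (nat_lit 320484)) (Tr.node (nat_lit 3648) (Tr.leaf (nat_lit 320472)) (Tr.leaf (nat_lit 320448))))))))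

noncomputable def jt206 : Tr :=
  (Tr.node (nat_lit 102464) (Tr.node (nat_lit 48768) (Tr.node (nat_lit 25344) (Tr.node (nat_lit 10880) (Tr.node (nat_lit 5440) (Tr.leaf (nat_lit 320412)) (Tr.leaf (nat_lit 320376))) (Tr.node (nat_lit 1792) (Tr.leaf (nat_lit 320340)) (Tr.node (nat_lit 7616) (Tr.leaf (nat_lit 5125259)) (Tr.leaf (nat_lit 312))))) (Tr.node (nat_lit 1728) (Tr.node (nat_lit 1152) (Tr.leaf (nat_lit 5003)) (Tr.leaf (nat_lit 80059))) (Tr.node (nat_lit 10880) (Tr.leaf (nat_lit 1280932)) (Tr.node (nat_lit 8064) (Tr.leaf (nat_lit 320161)) (Tr.leaf (nat_lit 320107)))))) (Tr.node (nat_lit 34240) (Tr.node (nat_lit 18048) (Tr.node (nat_lit 2688) (Tr.leaf (nat_lit 320089)) (Tr.leaf (nat_lit 320072))) (Tr.node (nat_lit 10816) (Tr.leaf (nat_lit 319970)) (Tr.node (nat_lit 3584) (Tr.leaf (nat_lit 1279596)) (Tr.leaf (nat_lit 319875))))) (Tr.node (nat_lit 9024) (Tr.node (nat_lit 832)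 (Tr.leaf (nat_lit 319863)) (Tr.node (nat_lit 4608) (Tr.leaf (nat_lit 319857)) (Tr.leaf (nat_lit 319827)))) (Tr.node (nat_lit 4480) (Tr.leaf (nat_lit 1279215)) (Tr.node (nat_lit 1408) (Tr.leaf (nat_lit 319774)) (Tr.leaf (nat_lit 79941))))))) (Tr.node (nat_lit 38208) (Tr.node (nat_lit 16576) (Tr.node (nat_lit 7168) (Tr.node (nat_lit 3904) (Tr.leaf (nat_lit 79933)) (Tr.leaf (nat_lit 79927))) (Tr.node (nat_lit 384) (Tr.leaf (nat_lit 4995)) (Tr.node (nat_lit 5440) (Tr.leaf (nat_lit 319684)) (Tr.leaf (nat_lit 319649))))) (Tr.node (nat_lit 11264) (Tr.node (nat_lit 1792) (Tr.leaf (nat_lit 1278501)) (Tr.node (nat_lit 3648) (Tr.leaf (nat_lit 319613)) (Tr.leaf (nat_lit 319589)))) (Tr.node (nat_lit 4928) (Tr.leaf (nat_lit 319551)) (Tr.node (nat_lit 1856) (Tr.leaf (nat_lit 1278073)) (Tr.leaf (nat_lit 319506)))))) (Tr.node (nat_lit 29056) (Tr.node (nat_lit 17280) (Tr.node (nat_lit 5376) (Tr.leaf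 (nat_lit 319482)) (Tr.leaf (nat_lit 319447))) (Tr.node (nat_lit 1600) (Tr.leaf (nat_lit 1247)) (Tr.node (nat_lit 4480) (Tr.leaf (nat_lit 319358)) (Tr.leaf (nat_lit 1277313))))) (Tr.node (nat_lit 8704) (Tr.node (nat_lit 2048) (Tr.leaf (nat_lit 4988)) (Tr.node (nat_lit 3072) (Tr.leaf (nat_lit 79819)) (Tr.leaf (nat_lit 319257)))) (Tr.node (nat_lit 6720) (Tr.leaf (nat_lit 1276933)) (Tr.node (nat_lit 512) (Tr.leaf (nat_lit 79797)) (Tr.leaf (nat_lit 5106976))))))))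

noncomputable def jt207 : Tr :=
  (Tr.node (nat_lit 115520) (Tr.node (nat_lit 36544) (Tr.node (nat_lit 17536) (Tr.node (nat_lit 8512) (Tr.node (nat_lit 3136) (Tr.leaf (nat_lit 319171)) (Tr.leaf (nat_lit 319150))) (Tr.node (nat_lit 3648) (Tr.leaf (nat_lit 319114)) (Tr.node (nat_lit 4480) (Tr.leaf (nat_lit 1276364)) (Tr.leaf (nat_lit 319061))))) (Tr.node (nat_lit 4480) (Tr.node (nat_lit 2752) (Tr.leaf (nat_lit 319055)) (Tr.leaf (nat_lit 311))) (Tr.node (nat_lit 8128) (Tr.leaf (nat_lit 319026)) (Tr.node (nat_lit 3584) (Tr.leaf (nat_lit 318972)) (Tr.leaf (nat_lit 318949)))))) (Tr.node (nat_lit 18752) (Tr.node (nat_lit 9728) (Tr.node (nat_lit 7040) (Tr.leaf (nat_lit 79732)) (Tr.leaf (nat_lit 318883))) (Tr.node (nat_lit 4160) (Tr.leaf (nat_lit 318866)) (Tr.node (nat_lit 1216) (Tr.leaf (nat_lit 4981)) (Tr.leaf (nat_lit 318830))))) (Tr.node (nat_lit 20608) (Tr.node (nat_lit 1792) (Tr.leaf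 (nat_lit 5100911)) (Tr.node (nat_lit 5376) (Tr.leaf (nat_lit 318795)) (Tr.leaf (nat_lit 318759)))) (Tr.node (nat_lit 18880) (Tr.leaf (nat_lit 318670)) (Tr.node (nat_lit 2688) (Tr.leaf (nat_lit 318546)) (Tr.leaf (nat_lit 318529))))))) (Tr.node (nat_lit 55232) (Tr.node (nat_lit 22336) (Tr.node (nat_lit 9792) (Tr.node (nat_lit 4416) (Tr.leaf (nat_lit 79602)) (Tr.leaf (nat_lit 1273526))) (Tr.node (nat_lit 5376) (Tr.leaf (nat_lit 318346)) (Tr.node (nat_lit 2688) (Tr.leaf (nat_lit 318310)) (Tr.leaf (nat_lit 318293))))) (Tr.node (nat_lit 21440) (Tr.node (nat_lit 14080) (Tr.leaf (nat_lit 318263)) (Tr.node (nat_lit 5632) (Tr.leaf (nat_lit 310)) (Tr.leaf (nat_lit 318133)))) (Tr.node (nat_lit 64) (Tr.leaf (nat_lit 79530)) (Tr.node (nat_lit 5376) (Tr.leaf (nat_lit 318122)) (Tr.leaf (nat_lit 318086)))))) (Tr.node (nat_lit 13376) (Tr.node (nat_lit 8320) (Tr.node (nat_lit 2880) (Tr.leaf (nat_lit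 1242)) (Tr.leaf (nat_lit 4969))) (Tr.node (nat_lit 1792) (Tr.leaf (nat_lit 317992)) (Tr.node (nat_lit 2944) (Tr.leaf (nat_lit 317980)) (Tr.leaf (nat_lit 317961))))) (Tr.node (nat_lit 10176) (Tr.node (nat_lit 320) (Tr.leaf (nat_lit 1242)) (Tr.node (nat_lit 7168) (Tr.leaf (nat_lit 1271829)) (Tr.leaf (nat_lit 1271640)))) (Tr.node (nat_lit 896) (Tr.leaf (nat_lit 317892)) (Tr.node (nat_lit 2368) (Tr.leaf (nat_lit 317886)) (Tr.leaf (nat_lit 19866))))))))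

noncomputable def jt208 : Tr :=
  (Tr.node (nat_lit 97792) (Tr.node (nat_lit 49472) (Tr.node (nat_lit 27968) (Tr.node (nat_lit 8320) (Tr.node (nat_lit 6976) (Tr.leaf (nat_lit 79455)) (Tr.leaf (nat_lit 317777))) (Tr.node (nat_lit 3584) (Tr.leaf (nat_lit 1271076)) (Tr.node (nat_lit 7168) (Tr.leaf (nat_lit 317745)) (Tr.leaf (nat_lit 317698))))) (Tr.node (nat_lit 13952) (Tr.node (nat_lit 1856) (Tr.leaf (nat_lit 79410)) (Tr.node (nat_lit 5376) (Tr.leaf (nat_lit 317628)) (Tr.leaf (nat_lit 317592)))) (Tr.node (nat_lit 2176) (Tr.leaf (nat_lit 79387)) (Tr.node (nat_lit 5248) (Tr.leaf (nat_lit 317534)) (Tr.leaf (nat_lit 310)))))) (Tr.node (nat_lit 17600) (Tr.node (nat_lit 12544) (Tr.node (nat_lit 5376) (Tr.leaf (nat_lit 317498)) (Tr.leaf (nat_lit 317463))) (Tr.node (nat_lit 896) (Tr.leaf (nat_lit 317416)) (Tr.node (nat_lit 2688) (Tr.leaf (nat_lit 317410)) (Tr.leaf (nat_lit 1269573)))))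 (Tr.node (nat_lit 9280) (Tr.node (nat_lit 1216) (Tr.leaf (nat_lit 79345)) (Tr.node (nat_lit 1600) (Tr.leaf (nat_lit 317375)) (Tr.leaf (nat_lit 79341)))) (Tr.node (nat_lit 1728) (Tr.leaf (nat_lit 317323)) (Tr.node (nat_lit 16128) (Tr.leaf (nat_lit 317311)) (Tr.leaf (nat_lit 1268823))))))) (Tr.node (nat_lit 60736) (Tr.node (nat_lit 9792) (Tr.node (nat_lit 4160) (Tr.node (nat_lit 1792) (Tr.leaf (nat_lit 317182)) (Tr.leaf (nat_lit 317170))) (Tr.node (nat_lit 2944) (Tr.leaf (nat_lit 19822)) (Tr.node (nat_lit 512) (Tr.leaf (nat_lit 317135)) (Tr.leaf (nat_lit 79283))))) (Tr.node (nat_lit 18816) (Tr.node (nat_lit 896) (Tr.leaf (nat_lit 317118)) (Tr.node (nat_lit 3328) (Tr.leaf (nat_lit 1268448)) (Tr.leaf (nat_lit 79272)))) (Tr.node (nat_lit 3520) (Tr.leaf (nat_lit 316995)) (Tr.node (nat_lit 17856) (Tr.leaf (nat_lit 1267887)) (Tr.leaf (nat_lit 316854)))))) (Tr.node (nat_lit 24960) (Tr.node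 (nat_lit 10688) (Tr.node (nat_lit 7360) (Tr.leaf (nat_lit 316784)) (Tr.leaf (nat_lit 4949))) (Tr.node (nat_lit 3584) (Tr.leaf (nat_lit 316714)) (Tr.node (nat_lit 1792) (Tr.leaf (nat_lit 316691)) (Tr.leaf (nat_lit 1266718))))) (Tr.node (nat_lit 17856) (Tr.node (nat_lit 832) (Tr.leaf (nat_lit 316621)) (Tr.node (nat_lit 12544) (Tr.leaf (nat_lit 79153)) (Tr.leaf (nat_lit 316533)))) (Tr.node (nat_lit 3584) (Tr.leaf (nat_lit 1266018)) (Tr.node (nat_lit 5312) (Tr.leaf (nat_lit 316481)) (Tr.leaf (nat_lit 316446))))))))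

noncomputable def jt209 : Tr :=
  (Tr.node (nat_lit 90496) (Tr.node (nat_lit 42688) (Tr.node (nat_lit 25792) (Tr.node (nat_lit 8320) (Tr.node (nat_lit 7040) (Tr.leaf (nat_lit 308)) (Tr.leaf (nat_lit 1265458))) (Tr.node (nat_lit 6336) (Tr.leaf (nat_lit 308)) (Tr.node (nat_lit 3072) (Tr.leaf (nat_lit 316315)) (Tr.leaf (nat_lit 316294))))) (Tr.node (nat_lit 9728) (Tr.node (nat_lit 2688) (Tr.leaf (nat_lit 316242)) (Tr.leaf (nat_lit 316224))) (Tr.node (nat_lit 3648) (Tr.leaf (nat_lit 79044)) (Tr.node (nat_lit 320) (Tr.leaf (nat_lit 1264620)) (Tr.leaf (nat_lit 4939)))))) (Tr.node (nat_lit 16064) (Tr.node (nat_lit 7168) (Tr.node (nat_lit 5376) (Tr.leaf (nat_lit 316131)) (Tr.leaf (nat_lit 316096))) (Tr.node (nat_lit 3072) (Tr.leaf (nat_lit 1264341)) (Tr.node (nat_lit 448) (Tr.leaf (nat_lit 79016)) (Tr.leaf (nat_lit 316062))))) (Tr.node (nat_lit 17856) (Tr.node (nat_lit 5312) (Tr.leaf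 (nat_lit 316027)) (Tr.node (nat_lit 10688) (Tr.leaf (nat_lit 1263969)) (Tr.leaf (nat_lit 315922)))) (Tr.node (nat_lit 6400) (Tr.leaf (nat_lit 1234)) (Tr.node (nat_lit 5120) (Tr.leaf (nat_lit 1233)) (Tr.leaf (nat_lit 315835))))))) (Tr.node (nat_lit 36736) (Tr.node (nat_lit 16320) (Tr.node (nat_lit 6784) (Tr.node (nat_lit 2048) (Tr.leaf (nat_lit 78955)) (Tr.leaf (nat_lit 20211610))) (Tr.node (nat_lit 5952) (Tr.leaf (nat_lit 78943)) (Tr.node (nat_lit 1856) (Tr.leaf (nat_lit 315736)) (Tr.leaf (nat_lit 78931))))) (Tr.node (nat_lit 10688) (Tr.node (nat_lit 7104) (Tr.leaf (nat_lit 1262854)) (Tr.node (nat_lit 896) (Tr.leaf (nat_lit 315667)) (Tr.leaf (nat_lit 315661)))) (Tr.node (nat_lit 7104) (Tr.leaf (nat_lit 315643)) (Tr.node (nat_lit 1344) (Tr.leaf (nat_lit 315597)) (Tr.leaf (nat_lit 315588)))))) (Tr.node (nat_lit 43584) (Tr.node (nat_lit 22272) (Tr.node (nat_lit 8000) (Tr.leaf (nat_lit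 315580)) (Tr.leaf (nat_lit 1262112))) (Tr.node (nat_lit 5312) (Tr.leaf (nat_lit 5046965)) (Tr.node (nat_lit 12416) (Tr.leaf (nat_lit 315400)) (Tr.leaf (nat_lit 315319))))) (Tr.node (nat_lit 21760) (Tr.node (nat_lit 10624) (Tr.leaf (nat_lit 1261185)) (Tr.node (nat_lit 1792) (Tr.leaf (nat_lit 1260907)) (Tr.leaf (nat_lit 315215)))) (Tr.node (nat_lit 6656) (Tr.leaf (nat_lit 315154)) (Tr.node (nat_lit 3520) (Tr.leaf (nat_lit 1260445)) (Tr.leaf (nat_lit 315088))))))))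

noncomputable def jt210 : Tr :=
  (Tr.node (nat_lit 67392) (Tr.node (nat_lit 30144) (Tr.node (nat_lit 10752) (Tr.node (nat_lit 5312) (Tr.node (nat_lit 3520) (Tr.leaf (nat_lit 315007)) (Tr.leaf (nat_lit 307))) (Tr.node (nat_lit 3520) (Tr.leaf (nat_lit 1259890)) (Tr.node (nat_lit 1792) (Tr.leaf (nat_lit 314949)) (Tr.leaf (nat_lit 314938))))) (Tr.node (nat_lit 8768) (Tr.node (nat_lit 5184) (Tr.leaf (nat_lit 19683)) (Tr.leaf (nat_lit 314903))) (Tr.node (nat_lit 9152) (Tr.leaf (nat_lit 5038084)) (Tr.node (nat_lit 576) (Tr.leaf (nat_lit 78705)) (Tr.leaf (nat_lit 314816)))))) (Tr.node (nat_lit 12416) (Tr.node (nat_lit 6400) (Tr.node (nat_lit 2688) (Tr.leaf (nat_lit 314811)) (Tr.leaf (nat_lit 314793))) (Tr.node (nat_lit 704) (Tr.leaf (nat_lit 307)) (Tr.node (nat_lit 3520) (Tr.leaf (nat_lit 314764)) (Tr.leaf (nat_lit 314741))))) (Tr.node (nat_lit 3392) (Tr.node (nat_lit 896) (Tr.leaf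 (nat_lit 314730)) (Tr.node (nat_lit 1792) (Tr.leaf (nat_lit 314724)) (Tr.leaf (nat_lit 78678)))) (Tr.node (nat_lit 128) (Tr.leaf (nat_lit 78677)) (Tr.node (nat_lit 17792) (Tr.leaf (nat_lit 314707)) (Tr.leaf (nat_lit 314592))))))) (Tr.node (nat_lit 26560) (Tr.node (nat_lit 10624) (Tr.node (nat_lit 1792) (Tr.node (nat_lit 1536) (Tr.leaf (nat_lit 314568)) (Tr.leaf (nat_lit 1228))) (Tr.node (nat_lit 3520) (Tr.leaf (nat_lit 314557)) (Tr.node (nat_lit 2432) (Tr.leaf (nat_lit 314534)) (Tr.leaf (nat_lit 314518))))) (Tr.node (nat_lit 8000) (Tr.node (nat_lit 1792) (Tr.leaf (nat_lit 314499)) (Tr.node (nat_lit 3520) (Tr.leaf (nat_lit 314488)) (Tr.leaf (nat_lit 314465)))) (Tr.node (nat_lit 3584) (Tr.leaf (nat_lit 314448)) (Tr.node (nat_lit 832) (Tr.leaf (nat_lit 78606)) (Tr.leaf (nat_lit 1257677)))))) (Tr.node (nat_lit 21248) (Tr.node (nat_lit 7104) (Tr.node (nat_lit 5312) (Tr.leaf (nat_lit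 314396)) (Tr.leaf (nat_lit 314361))) (Tr.node (nat_lit 10624) (Tr.leaf (nat_lit 314350)) (Tr.node (nat_lit 896) (Tr.leaf (nat_lit 314281)) (Tr.leaf (nat_lit 314275))))) (Tr.node (nat_lit 22016) (Tr.node (nat_lit 17280) (Tr.leaf (nat_lit 314258)) (Tr.node (nat_lit 448) (Tr.leaf (nat_lit 1256584)) (Tr.leaf (nat_lit 1256573)))) (Tr.node (nat_lit 1024) (Tr.leaf (nat_lit 4908)) (Tr.node (nat_lit 8832) (Tr.leaf (nat_lit 314108)) (Tr.leaf (nat_lit 1256205))))))))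

noncomputable def jt211 : Tr :=
  (Tr.node (nat_lit 126400) (Tr.node (nat_lit 58752) (Tr.node (nat_lit 24320) (Tr.node (nat_lit 14592) (Tr.node (nat_lit 5888) (Tr.leaf (nat_lit 314025)) (Tr.leaf (nat_lit 306))) (Tr.node (nat_lit 2624) (Tr.leaf (nat_lit 313930)) (Tr.node (nat_lit 1792) (Tr.leaf (nat_lit 313913)) (Tr.leaf (nat_lit 313902))))) (Tr.node (nat_lit 19456) (Tr.node (nat_lit 3520) (Tr.leaf (nat_lit 1255471)) (Tr.leaf (nat_lit 1255379))) (Tr.node (nat_lit 1728) (Tr.leaf (nat_lit 313741)) (Tr.node (nat_lit 11328) (Tr.leaf (nat_lit 1254921)) (Tr.leaf (nat_lit 78414)))))) (Tr.node (nat_lit 29184) (Tr.node (nat_lit 20480) (Tr.node (nat_lit 8000) (Tr.leaf (nat_lit 313644)) (Tr.leaf (nat_lit 20069940))) (Tr.node (nat_lit 3392) (Tr.leaf (nat_lit 4898)) (Tr.node (nat_lit 2368) (Tr.leaf (nat_lit 313489)) (Tr.leaf (nat_lit 78368))))) (Tr.node (nat_lit 14144) (Tr.node (nat_lit 3520)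 (Tr.leaf (nat_lit 1253822)) (Tr.node (nat_lit 7104) (Tr.leaf (nat_lit 313432)) (Tr.leaf (nat_lit 313386)))) (Tr.node (nat_lit 7040) (Tr.leaf (nat_lit 1253456)) (Tr.node (nat_lit 15872) (Tr.leaf (nat_lit 1253273)) (Tr.leaf (nat_lit 313215))))))) (Tr.node (nat_lit 68288) (Tr.node (nat_lit 27584) (Tr.node (nat_lit 3904) (Tr.node (nat_lit 2944) (Tr.leaf (nat_lit 78301)) (Tr.leaf (nat_lit 305))) (Tr.node (nat_lit 14144) (Tr.leaf (nat_lit 313181)) (Tr.node (nat_lit 2624) (Tr.leaf (nat_lit 1252359)) (Tr.leaf (nat_lit 313072))))) (Tr.node (nat_lit 16000) (Tr.node (nat_lit 6336) (Tr.leaf (nat_lit 78257)) (Tr.node (nat_lit 5312) (Tr.leaf (nat_lit 312987)) (Tr.leaf (nat_lit 1251812)))) (Tr.node (nat_lit 2688) (Tr.leaf (nat_lit 312924)) (Tr.node (nat_lit 20992) (Tr.leaf (nat_lit 312907)) (Tr.leaf (nat_lit 4887)))))) (Tr.node (nat_lit 20288) (Tr.node (nat_lit 4032) (Tr.node (nat_lit 2624)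 (Tr.leaf (nat_lit 312765)) (Tr.leaf (nat_lit 312747))) (Tr.node (nat_lit 384) (Tr.leaf (nat_lit 78184)) (Tr.node (nat_lit 9088) (Tr.leaf (nat_lit 312736)) (Tr.leaf (nat_lit 305))))) (Tr.node (nat_lit 15808) (Tr.node (nat_lit 3520) (Tr.leaf (nat_lit 312634)) (Tr.node (nat_lit 10560) (Tr.leaf (nat_lit 312611)) (Tr.leaf (nat_lit 312543)))) (Tr.node (nat_lit 6592) (Tr.leaf (nat_lit 312531)) (Tr.node (nat_lit 2240) (Tr.leaf (nat_lit 1220)) (Tr.leaf (nat_lit 312474))))))))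

noncomputable def jt212 : Tr :=
  (Tr.node (nat_lit 93248) (Tr.node (nat_lit 45760) (Tr.node (nat_lit 29952) (Tr.node (nat_lit 10560) (Tr.node (nat_lit 3520) (Tr.leaf (nat_lit 312429)) (Tr.leaf (nat_lit 1249626))) (Tr.node (nat_lit 10560) (Tr.leaf (nat_lit 4997780)) (Tr.node (nat_lit 3520) (Tr.leaf (nat_lit 312293)) (Tr.leaf (nat_lit 1249081))))) (Tr.node (nat_lit 2624) (Tr.node (nat_lit 1728) (Tr.leaf (nat_lit 312236)) (Tr.leaf (nat_lit 1248900))) (Tr.node (nat_lit 3776) (Tr.leaf (nat_lit 312219)) (Tr.node (nat_lit 7232) (Tr.leaf (nat_lit 78048)) (Tr.leaf (nat_lit 312148)))))) (Tr.node (nat_lit 28160) (Tr.node (nat_lit 17600) (Tr.node (nat_lit 1792) (Tr.leaf (nat_lit 19976592)) (Tr.leaf (nat_lit 312122))) (Tr.node (nat_lit 3520) (Tr.leaf (nat_lit 312020)) (Tr.node (nat_lit 5504) (Tr.leaf (nat_lit 311998)) (Tr.leaf (nat_lit 77990))))) (Tr.node (nat_lit 13824) (Tr.node (nat_lit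 10496) (Tr.leaf (nat_lit 1247811)) (Tr.node (nat_lit 256) (Tr.leaf (nat_lit 311884)) (Tr.leaf (nat_lit 19492)))) (Tr.node (nat_lit 192) (Tr.leaf (nat_lit 304)) (Tr.node (nat_lit 1792) (Tr.leaf (nat_lit 1247449)) (Tr.leaf (nat_lit 311850))))))) (Tr.node (nat_lit 52672) (Tr.node (nat_lit 21056) (Tr.node (nat_lit 5248) (Tr.node (nat_lit 3200) (Tr.leaf (nat_lit 311828)) (Tr.leaf (nat_lit 77951))) (Tr.node (nat_lit 7040) (Tr.leaf (nat_lit 1247177)) (Tr.node (nat_lit 8064) (Tr.leaf (nat_lit 311749)) (Tr.leaf (nat_lit 77924))))) (Tr.node (nat_lit 20608) (Tr.node (nat_lit 10560) (Tr.leaf (nat_lit 311692)) (Tr.node (nat_lit 5248) (Tr.leaf (nat_lit 311624)) (Tr.leaf (nat_lit 1246363)))) (Tr.node (nat_lit 5760) (Tr.leaf (nat_lit 4868)) (Tr.node (nat_lit 1728) (Tr.leaf (nat_lit 311522)) (Tr.leaf (nat_lit 311511)))))) (Tr.node (nat_lit 17536) (Tr.node (nat_lit 9664) (Tr.node (nat_lit 5248)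 (Tr.leaf (nat_lit 311489)) (Tr.leaf (nat_lit 1245820))) (Tr.node (nat_lit 2624) (Tr.leaf (nat_lit 311426)) (Tr.node (nat_lit 3520) (Tr.leaf (nat_lit 4982560)) (Tr.leaf (nat_lit 311387))))) (Tr.node (nat_lit 15808) (Tr.node (nat_lit 1600) (Tr.leaf (nat_lit 311376)) (Tr.node (nat_lit 11648) (Tr.leaf (nat_lit 77841)) (Tr.leaf (nat_lit 77822)))) (Tr.node (nat_lit 2624) (Tr.leaf (nat_lit 311274)) (Tr.node (nat_lit 2624) (Tr.leaf (nat_lit 311257)) (Tr.leaf (nat_lit 311240))))))))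

noncomputable def jt213 : Tr :=
  (Tr.node (nat_lit 100608) (Tr.node (nat_lit 62976) (Tr.node (nat_lit 40256) (Tr.node (nat_lit 14528) (Tr.node (nat_lit 2112) (Tr.leaf (nat_lit 77805)) (Tr.leaf (nat_lit 311206))) (Tr.node (nat_lit 6016) (Tr.leaf (nat_lit 303)) (Tr.node (nat_lit 16640) (Tr.leaf (nat_lit 311088)) (Tr.leaf (nat_lit 310981))))) (Tr.node (nat_lit 3968) (Tr.node (nat_lit 2176) (Tr.leaf (nat_lit 310961)) (Tr.leaf (nat_lit 1243791))) (Tr.node (nat_lit 3520) (Tr.leaf (nat_lit 310936)) (Tr.node (nat_lit 10496) (Tr.leaf (nat_lit 310914)) (Tr.leaf (nat_lit 310846)))))) (Tr.node (nat_lit 12800) (Tr.node (nat_lit 5760) (Tr.node (nat_lit 2240) (Tr.leaf (nat_lit 77704)) (Tr.leaf (nat_lit 310801))) (Tr.node (nat_lit 2880) (Tr.leaf (nat_lit 1243116)) (Tr.node (nat_lit 2368) (Tr.leaf (nat_lit 1213)) (Tr.leaf (nat_lit 310745))))) (Tr.node (nat_lit 10496) (Tr.node (nat_lit 3136)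 (Tr.leaf (nat_lit 310734)) (Tr.node (nat_lit 320) (Tr.leaf (nat_lit 4854)) (Tr.leaf (nat_lit 310711)))) (Tr.node (nat_lit 11456) (Tr.leaf (nat_lit 1242666)) (Tr.node (nat_lit 1664) (Tr.leaf (nat_lit 19412)) (Tr.leaf (nat_lit 310582))))))) (Tr.node (nat_lit 31168) (Tr.node (nat_lit 17152) (Tr.node (nat_lit 10176) (Tr.node (nat_lit 2880) (Tr.leaf (nat_lit 77643)) (Tr.leaf (nat_lit 77639))) (Tr.node (nat_lit 320) (Tr.leaf (nat_lit 4968151)) (Tr.node (nat_lit 1408) (Tr.leaf (nat_lit 19406)) (Tr.leaf (nat_lit 310498))))) (Tr.node (nat_lit 6784) (Tr.node (nat_lit 3520) (Tr.leaf (nat_lit 310464)) (Tr.node (nat_lit 1728) (Tr.leaf (nat_lit 310442)) (Tr.leaf (nat_lit 310430)))) (Tr.node (nat_lit 3712) (Tr.leaf (nat_lit 310421)) (Tr.node (nat_lit 3136) (Tr.leaf (nat_lit 310397)) (Tr.leaf (nat_lit 77594)))))) (Tr.node (nat_lit 27968) (Tr.node (nat_lit 12224) (Tr.node (nat_lit 6976) (Tr.leaf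 (nat_lit 1241499)) (Tr.leaf (nat_lit 4965280))) (Tr.node (nat_lit 5248) (Tr.leaf (nat_lit 310296)) (Tr.node (nat_lit 2624) (Tr.leaf (nat_lit 310262)) (Tr.leaf (nat_lit 310245))))) (Tr.node (nat_lit 5248) (Tr.node (nat_lit 832) (Tr.leaf (nat_lit 1240782)) (Tr.node (nat_lit 2624) (Tr.leaf (nat_lit 310189)) (Tr.leaf (nat_lit 310173)))) (Tr.node (nat_lit 3904) (Tr.leaf (nat_lit 310161)) (Tr.node (nat_lit 1344) (Tr.leaf (nat_lit 310136)) (Tr.leaf (nat_lit 310128))))))))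

noncomputable def jt214 : Tr :=
  (Tr.node (nat_lit 106496) (Tr.node (nat_lit 27968) (Tr.node (nat_lit 13952) (Tr.node (nat_lit 7424) (Tr.node (nat_lit 2240) (Tr.leaf (nat_lit 1240423)) (Tr.leaf (nat_lit 1211))) (Tr.node (nat_lit 3072) (Tr.leaf (nat_lit 4844)) (Tr.node (nat_lit 448) (Tr.leaf (nat_lit 310038)) (Tr.leaf (nat_lit 310035))))) (Tr.node (nat_lit 7040) (Tr.node (nat_lit 1792) (Tr.leaf (nat_lit 77504)) (Tr.leaf (nat_lit 310005))) (Tr.node (nat_lit 1728) (Tr.leaf (nat_lit 4959546)) (Tr.node (nat_lit 3520) (Tr.leaf (nat_lit 309960)) (Tr.leaf (nat_lit 309938)))))) (Tr.node (nat_lit 20928) (Tr.node (nat_lit 15744) (Tr.node (nat_lit 10496) (Tr.leaf (nat_lit 1239707)) (Tr.leaf (nat_lit 309859))) (Tr.node (nat_lit 3456) (Tr.leaf (nat_lit 309826)) (Tr.node (nat_lit 1216) (Tr.leaf (nat_lit 309803)) (Tr.leaf (nat_lit 302))))) (Tr.node (nat_lit 20992) (Tr.node (nat_lit 11136)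 (Tr.leaf (nat_lit 1239171)) (Tr.node (nat_lit 5504) (Tr.leaf (nat_lit 309721)) (Tr.leaf (nat_lit 309686)))) (Tr.node (nat_lit 8704) (Tr.leaf (nat_lit 1238635)) (Tr.node (nat_lit 23552) (Tr.leaf (nat_lit 309602)) (Tr.leaf (nat_lit 309452))))))) (Tr.node (nat_lit 63872) (Tr.node (nat_lit 35328) (Tr.node (nat_lit 15680) (Tr.node (nat_lit 10176) (Tr.leaf (nat_lit 309424)) (Tr.leaf (nat_lit 1208))) (Tr.node (nat_lit 1728) (Tr.leaf (nat_lit 309324)) (Tr.node (nat_lit 8768) (Tr.leaf (nat_lit 77328)) (Tr.leaf (nat_lit 19792476))))) (Tr.node (nat_lit 11712) (Tr.node (nat_lit 1280) (Tr.leaf (nat_lit 309198)) (Tr.node (nat_lit 3456) (Tr.leaf (nat_lit 309190)) (Tr.leaf (nat_lit 1236673)))) (Tr.node (nat_lit 10496) (Tr.leaf (nat_lit 309123)) (Tr.node (nat_lit 3456) (Tr.leaf (nat_lit 309057)) (Tr.leaf (nat_lit 309034)))))) (Tr.node (nat_lit 17152) (Tr.node (nat_lit 4992) (Tr.node (nat_lit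 3392) (Tr.leaf (nat_lit 77254)) (Tr.leaf (nat_lit 4828))) (Tr.node (nat_lit 6720) (Tr.leaf (nat_lit 308984)) (Tr.node (nat_lit 1088) (Tr.leaf (nat_lit 4827)) (Tr.leaf (nat_lit 308934))))) (Tr.node (nat_lit 15232) (Tr.node (nat_lit 896) (Tr.leaf (nat_lit 308907)) (Tr.node (nat_lit 5184) (Tr.leaf (nat_lit 4942424)) (Tr.leaf (nat_lit 308868)))) (Tr.node (nat_lit 3072) (Tr.leaf (nat_lit 308809)) (Tr.node (nat_lit 3456) (Tr.leaf (nat_lit 308790)) (Tr.leaf (nat_lit 1235073))))))))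

noncomputable def jt215 : Tr :=
  (Tr.node (nat_lit 86400) (Tr.node (nat_lit 37120) (Tr.node (nat_lit 25984) (Tr.node (nat_lit 22144) (Tr.node (nat_lit 13440) (Tr.leaf (nat_lit 77185)) (Tr.leaf (nat_lit 1234629))) (Tr.node (nat_lit 1728) (Tr.leaf (nat_lit 308601)) (Tr.node (nat_lit 1024) (Tr.leaf (nat_lit 308590)) (Tr.leaf (nat_lit 77146))))) (Tr.node (nat_lit 1344) (Tr.node (nat_lit 512) (Tr.leaf (nat_lit 301)) (Tr.leaf (nat_lit 308574))) (Tr.node (nat_lit 1728) (Tr.leaf (nat_lit 308568)) (Tr.node (nat_lit 6080) (Tr.leaf (nat_lit 308557)) (Tr.leaf (nat_lit 308518)))))) (Tr.node (nat_lit 18048) (Tr.node (nat_lit 6400) (Tr.node (nat_lit 640) (Tr.leaf (nat_lit 19281)) (Tr.leaf (nat_lit 308502))) (Tr.node (nat_lit 1216) (Tr.leaf (nat_lit 19279)) (Tr.node (nat_lit 8704) (Tr.leaf (nat_lit 1233831)) (Tr.leaf (nat_lit 308402))))) (Tr.node (nat_lit 15616) (Tr.node (nat_lit 3456) (Tr.leaf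 (nat_lit 308391)) (Tr.node (nat_lit 6976) (Tr.leaf (nat_lit 1233477)) (Tr.leaf (nat_lit 1233300)))) (Tr.node (nat_lit 8704) (Tr.leaf (nat_lit 308291)) (Tr.node (nat_lit 1728) (Tr.leaf (nat_lit 308236)) (Tr.leaf (nat_lit 308225))))))) (Tr.node (nat_lit 55552) (Tr.node (nat_lit 25600) (Tr.node (nat_lit 15680) (Tr.node (nat_lit 10432) (Tr.leaf (nat_lit 4931076)) (Tr.leaf (nat_lit 308125))) (Tr.node (nat_lit 5184) (Tr.leaf (nat_lit 308092)) (Tr.node (nat_lit 3456) (Tr.leaf (nat_lit 308059)) (Tr.leaf (nat_lit 308037))))) (Tr.node (nat_lit 14336) (Tr.node (nat_lit 1344) (Tr.leaf (nat_lit 77007)) (Tr.node (nat_lit 4352) (Tr.leaf (nat_lit 308020)) (Tr.leaf (nat_lit 307993)))) (Tr.node (nat_lit 1728) (Tr.leaf (nat_lit 307938)) (Tr.node (nat_lit 10432) (Tr.leaf (nat_lit 1231708)) (Tr.leaf (nat_lit 307860)))))) (Tr.node (nat_lit 10432) (Tr.node (nat_lit 3904) (Tr.node (nat_lit 2624) (Tr.leaf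 (nat_lit 19701684)) (Tr.leaf (nat_lit 307822))) (Tr.node (nat_lit 1344) (Tr.leaf (nat_lit 307814)) (Tr.node (nat_lit 1728) (Tr.leaf (nat_lit 307805)) (Tr.leaf (nat_lit 307794))))) (Tr.node (nat_lit 20800) (Tr.node (nat_lit 1728) (Tr.leaf (nat_lit 307772)) (Tr.node (nat_lit 5184) (Tr.leaf (nat_lit 307761)) (Tr.leaf (nat_lit 307728)))) (Tr.node (nat_lit 5184) (Tr.leaf (nat_lit 307640)) (Tr.node (nat_lit 896) (Tr.leaf (nat_lit 307607)) (Tr.leaf (nat_lit 4806))))))))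

noncomputable def jt216 : Tr :=
  (Tr.node (nat_lit 85440) (Tr.node (nat_lit 38656) (Tr.node (nat_lit 14400) (Tr.node (nat_lit 4032) (Tr.node (nat_lit 2304) (Tr.leaf (nat_lit 307555)) (Tr.leaf (nat_lit 307541))) (Tr.node (nat_lit 5184) (Tr.leaf (nat_lit 307530)) (Tr.node (nat_lit 3456) (Tr.leaf (nat_lit 307497)) (Tr.leaf (nat_lit 307475))))) (Tr.node (nat_lit 11392) (Tr.node (nat_lit 3520) (Tr.leaf (nat_lit 307464)) (Tr.node (nat_lit 6912) (Tr.leaf (nat_lit 1229768)) (Tr.leaf (nat_lit 1229592)))) (Tr.node (nat_lit 2496) (Tr.leaf (nat_lit 4802)) (Tr.node (nat_lit 6912) (Tr.leaf (nat_lit 307376)) (Tr.leaf (nat_lit 1229328)))))) (Tr.node (nat_lit 20800) (Tr.node (nat_lit 7808) (Tr.node (nat_lit 4352) (Tr.leaf (nat_lit 1229240)) (Tr.leaf (nat_lit 307282))) (Tr.node (nat_lit 2624) (Tr.leaf (nat_lit 307260)) (Tr.node (nat_lit 9088) (Tr.leaf (nat_lit 307244)) (Tr.leaf (nat_lit 19199)))))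 (Tr.node (nat_lit 17280) (Tr.node (nat_lit 8192) (Tr.leaf (nat_lit 307178)) (Tr.node (nat_lit 2176) (Tr.leaf (nat_lit 307126)) (Tr.leaf (nat_lit 307112)))) (Tr.node (nat_lit 3456) (Tr.leaf (nat_lit 307068)) (Tr.node (nat_lit 2624) (Tr.leaf (nat_lit 1228186)) (Tr.leaf (nat_lit 307030))))))) (Tr.node (nat_lit 43200) (Tr.node (nat_lit 10368) (Tr.node (nat_lit 3840) (Tr.node (nat_lit 2496) (Tr.leaf (nat_lit 307013)) (Tr.leaf (nat_lit 76749))) (Tr.node (nat_lit 1344) (Tr.leaf (nat_lit 306988)) (Tr.node (nat_lit 2752) (Tr.leaf (nat_lit 306980)) (Tr.leaf (nat_lit 76740))))) (Tr.node (nat_lit 17280) (Tr.node (nat_lit 1728) (Tr.leaf (nat_lit 306947)) (Tr.node (nat_lit 3456) (Tr.leaf (nat_lit 306936)) (Tr.leaf (nat_lit 306914)))) (Tr.node (nat_lit 8640) (Tr.leaf (nat_lit 306838)) (Tr.node (nat_lit 4736) (Tr.leaf (nat_lit 19634136)) (Tr.leaf (nat_lit 76688)))))) (Tr.node (nat_lit 44928)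 (Tr.node (nat_lit 17600) (Tr.node (nat_lit 10368) (Tr.leaf (nat_lit 306739)) (Tr.leaf (nat_lit 306673))) (Tr.node (nat_lit 1408) (Tr.leaf (nat_lit 4791)) (Tr.node (nat_lit 15552) (Tr.leaf (nat_lit 306619)) (Tr.leaf (nat_lit 1226082))))) (Tr.node (nat_lit 12096) (Tr.node (nat_lit 5184) (Tr.leaf (nat_lit 306455)) (Tr.node (nat_lit 1728) (Tr.leaf (nat_lit 306422)) (Tr.leaf (nat_lit 306411)))) (Tr.node (nat_lit 5184) (Tr.leaf (nat_lit 306378)) (Tr.node (nat_lit 3456) (Tr.leaf (nat_lit 1225382)) (Tr.leaf (nat_lit 306323))))))))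

noncomputable def jt217 : Tr :=
  (Tr.node (nat_lit 84480) (Tr.node (nat_lit 37952) (Tr.node (nat_lit 17216) (Tr.node (nat_lit 5184) (Tr.node (nat_lit 1728) (Tr.leaf (nat_lit 306291)) (Tr.leaf (nat_lit 306280))) (Tr.node (nat_lit 6912) (Tr.leaf (nat_lit 1225033)) (Tr.node (nat_lit 832) (Tr.leaf (nat_lit 306214)) (Tr.leaf (nat_lit 306209))))) (Tr.node (nat_lit 8640) (Tr.node (nat_lit 2880) (Tr.leaf (nat_lit 306181)) (Tr.leaf (nat_lit 76541))) (Tr.node (nat_lit 4352) (Tr.leaf (nat_lit 1224509)) (Tr.node (nat_lit 832) (Tr.leaf (nat_lit 306100)) (Tr.leaf (nat_lit 306094)))))) (Tr.node (nat_lit 25920) (Tr.node (nat_lit 15488) (Tr.node (nat_lit 13760) (Tr.leaf (nat_lit 306051)) (Tr.leaf (nat_lit 305963))) (Tr.node (nat_lit 3456) (Tr.leaf (nat_lit 305952)) (Tr.node (nat_lit 6912) (Tr.leaf (nat_lit 305931)) (Tr.leaf (nat_lit 305887))))) (Tr.node (nat_lit 6336) (Tr.node (nat_lit 3392)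 (Tr.leaf (nat_lit 76471)) (Tr.node (nat_lit 1728) (Tr.leaf (nat_lit 1223463)) (Tr.leaf (nat_lit 305854)))) (Tr.node (nat_lit 5120) (Tr.leaf (nat_lit 4778)) (Tr.node (nat_lit 8704) (Tr.leaf (nat_lit 1194)) (Tr.leaf (nat_lit 305759))))))) (Tr.node (nat_lit 64576) (Tr.node (nat_lit 24128) (Tr.node (nat_lit 3904) (Tr.node (nat_lit 3456) (Tr.leaf (nat_lit 305756)) (Tr.leaf (nat_lit 4891762))) (Tr.node (nat_lit 6464) (Tr.leaf (nat_lit 305732)) (Tr.node (nat_lit 2560) (Tr.leaf (nat_lit 1222766)) (Tr.leaf (nat_lit 305675))))) (Tr.node (nat_lit 17216) (Tr.node (nat_lit 5248) (Tr.leaf (nat_lit 305604)) (Tr.node (nat_lit 2496) (Tr.leaf (nat_lit 1193)) (Tr.leaf (nat_lit 305555)))) (Tr.node (nat_lit 8704) (Tr.leaf (nat_lit 305495)) (Tr.node (nat_lit 5056) (Tr.leaf (nat_lit 76360)) (Tr.leaf (nat_lit 1221636)))))) (Tr.node (nat_lit 22400) (Tr.node (nat_lit 11200) (Tr.node (nat_lit 6016) (Tr.leaf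 (nat_lit 4771)) (Tr.leaf (nat_lit 305311))) (Tr.node (nat_lit 9472) (Tr.leaf (nat_lit 305278)) (Tr.node (nat_lit 832) (Tr.leaf (nat_lit 305219)) (Tr.leaf (nat_lit 1220854))))) (Tr.node (nat_lit 16320) (Tr.node (nat_lit 832) (Tr.leaf (nat_lit 76301)) (Tr.node (nat_lit 5952) (Tr.leaf (nat_lit 305202)) (Tr.leaf (nat_lit 19072)))) (Tr.node (nat_lit 3456) (Tr.leaf (nat_lit 305105)) (Tr.node (nat_lit 384) (Tr.leaf (nat_lit 305083)) (Tr.leaf (nat_lit 305080))))))))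

noncomputable def jt218 : Tr :=
  (Tr.node (nat_lit 97920) (Tr.node (nat_lit 51520) (Tr.node (nat_lit 20608) (Tr.node (nat_lit 8576) (Tr.node (nat_lit 4736) (Tr.leaf (nat_lit 78090314)) (Tr.leaf (nat_lit 305010))) (Tr.node (nat_lit 5184) (Tr.leaf (nat_lit 304986)) (Tr.node (nat_lit 5120) (Tr.leaf (nat_lit 1219814)) (Tr.leaf (nat_lit 304921))))) (Tr.node (nat_lit 10304) (Tr.node (nat_lit 5184) (Tr.leaf (nat_lit 304910)) (Tr.leaf (nat_lit 1219511))) (Tr.node (nat_lit 10304) (Tr.leaf (nat_lit 304845)) (Tr.node (nat_lit 3456) (Tr.leaf (nat_lit 1219122)) (Tr.leaf (nat_lit 304758)))))) (Tr.node (nat_lit 22528) (Tr.node (nat_lit 10304) (Tr.node (nat_lit 5184) (Tr.leaf (nat_lit 304715)) (Tr.leaf (nat_lit 304683))) (Tr.node (nat_lit 3456) (Tr.leaf (nat_lit 1218603)) (Tr.node (nat_lit 6848) (Tr.leaf (nat_lit 304629)) (Tr.leaf (nat_lit 304586))))) (Tr.node (nat_lit 14848) (Tr.node (nat_lit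 3136) (Tr.leaf (nat_lit 304573)) (Tr.node (nat_lit 8704) (Tr.leaf (nat_lit 4758)) (Tr.leaf (nat_lit 1217998)))) (Tr.node (nat_lit 1280) (Tr.leaf (nat_lit 304480)) (Tr.node (nat_lit 1344) (Tr.leaf (nat_lit 304472)) (Tr.leaf (nat_lit 76116))))))) (Tr.node (nat_lit 35968) (Tr.node (nat_lit 15424) (Tr.node (nat_lit 8576) (Tr.node (nat_lit 5120) (Tr.leaf (nat_lit 304424)) (Tr.leaf (nat_lit 1217566))) (Tr.node (nat_lit 1664) (Tr.leaf (nat_lit 304370)) (Tr.node (nat_lit 3456) (Tr.leaf (nat_lit 304359)) (Tr.leaf (nat_lit 304337))))) (Tr.node (nat_lit 11008) (Tr.node (nat_lit 3392) (Tr.leaf (nat_lit 304327)) (Tr.node (nat_lit 5184) (Tr.leaf (nat_lit 304305)) (Tr.leaf (nat_lit 304273)))) (Tr.node (nat_lit 2688) (Tr.leaf (nat_lit 76064)) (Tr.node (nat_lit 5120) (Tr.leaf (nat_lit 304240)) (Tr.leaf (nat_lit 304208)))))) (Tr.node (nat_lit 18880) (Tr.node (nat_lit 7744) (Tr.node (nat_lit 1408)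 (Tr.leaf (nat_lit 304197)) (Tr.leaf (nat_lit 297))) (Tr.node (nat_lit 2368) (Tr.leaf (nat_lit 304149)) (Tr.node (nat_lit 3584) (Tr.leaf (nat_lit 76033)) (Tr.leaf (nat_lit 304111))))) (Tr.node (nat_lit 17152) (Tr.node (nat_lit 1728) (Tr.leaf (nat_lit 304079)) (Tr.node (nat_lit 13696) (Tr.leaf (nat_lit 1216273)) (Tr.leaf (nat_lit 303982)))) (Tr.node (nat_lit 5120) (Tr.leaf (nat_lit 303971)) (Tr.node (nat_lit 4864) (Tr.leaf (nat_lit 303939)) (Tr.leaf (nat_lit 75977))))))))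

noncomputable def jt219 : Tr :=
  (Tr.node (nat_lit 99776) (Tr.node (nat_lit 48448) (Tr.node (nat_lit 17664) (Tr.node (nat_lit 3968) (Tr.node (nat_lit 2240) (Tr.leaf (nat_lit 4747)) (Tr.leaf (nat_lit 303821))) (Tr.node (nat_lit 3392) (Tr.leaf (nat_lit 303810)) (Tr.node (nat_lit 9024) (Tr.leaf (nat_lit 303788)) (Tr.leaf (nat_lit 303732))))) (Tr.node (nat_lit 8192) (Tr.node (nat_lit 3008) (Tr.leaf (nat_lit 303724)) (Tr.leaf (nat_lit 303705))) (Tr.node (nat_lit 1216) (Tr.leaf (nat_lit 75918)) (Tr.node (nat_lit 832) (Tr.leaf (nat_lit 303665)) (Tr.leaf (nat_lit 19434241)))))) (Tr.node (nat_lit 20864) (Tr.node (nat_lit 5120) (Tr.node (nat_lit 1728) (Tr.leaf (nat_lit 1214125)) (Tr.leaf (nat_lit 303520))) (Tr.node (nat_lit 3520) (Tr.leaf (nat_lit 303499)) (Tr.node (nat_lit 4224) (Tr.leaf (nat_lit 18967)) (Tr.leaf (nat_lit 303450))))) (Tr.node (nat_lit 13888) (Tr.node (nat_lit 4800)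 (Tr.leaf (nat_lit 4740)) (Tr.node (nat_lit 1728) (Tr.leaf (nat_lit 303370)) (Tr.leaf (nat_lit 303359)))) (Tr.node (nat_lit 2880) (Tr.leaf (nat_lit 303313)) (Tr.node (nat_lit 10432) (Tr.leaf (nat_lit 1213181)) (Tr.leaf (nat_lit 303229))))))) (Tr.node (nat_lit 47808) (Tr.node (nat_lit 28160) (Tr.node (nat_lit 10240) (Tr.node (nat_lit 6784) (Tr.leaf (nat_lit 303209)) (Tr.leaf (nat_lit 303167))) (Tr.node (nat_lit 6784) (Tr.leaf (nat_lit 4850330)) (Tr.node (nat_lit 3456) (Tr.leaf (nat_lit 1212411)) (Tr.leaf (nat_lit 303081))))) (Tr.node (nat_lit 9408) (Tr.node (nat_lit 1728) (Tr.leaf (nat_lit 303033)) (Tr.node (nat_lit 6144) (Tr.leaf (nat_lit 303022)) (Tr.leaf (nat_lit 75746)))) (Tr.node (nat_lit 5120) (Tr.leaf (nat_lit 4847592)) (Tr.node (nat_lit 768) (Tr.leaf (nat_lit 302942)) (Tr.leaf (nat_lit 75734)))))) (Tr.node (nat_lit 20480) (Tr.node (nat_lit 13632) (Tr.node (nat_lit 3392)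 (Tr.leaf (nat_lit 302910)) (Tr.leaf (nat_lit 1211556))) (Tr.node (nat_lit 128) (Tr.leaf (nat_lit 302825)) (Tr.node (nat_lit 5248) (Tr.leaf (nat_lit 18926)) (Tr.leaf (nat_lit 75697))))) (Tr.node (nat_lit 15360) (Tr.node (nat_lit 7680) (Tr.leaf (nat_lit 302782)) (Tr.node (nat_lit 5952) (Tr.leaf (nat_lit 302734)) (Tr.leaf (nat_lit 302696)))) (Tr.node (nat_lit 5120) (Tr.leaf (nat_lit 302686)) (Tr.node (nat_lit 5120) (Tr.leaf (nat_lit 302654)) (Tr.leaf (nat_lit 302622))))))))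

noncomputable def jt220 : Tr :=
  (Tr.node (nat_lit 111040) (Tr.node (nat_lit 53312) (Tr.node (nat_lit 22656) (Tr.node (nat_lit 11008) (Tr.node (nat_lit 7296) (Tr.leaf (nat_lit 75650)) (Tr.leaf (nat_lit 302558))) (Tr.node (nat_lit 1024) (Tr.leaf (nat_lit 4727)) (Tr.node (nat_lit 2944) (Tr.leaf (nat_lit 302529)) (Tr.leaf (nat_lit 302510))))) (Tr.node (nat_lit 10240) (Tr.node (nat_lit 3392) (Tr.leaf (nat_lit 4839399)) (Tr.leaf (nat_lit 302441))) (Tr.node (nat_lit 3392) (Tr.leaf (nat_lit 302398)) (Tr.node (nat_lit 6848) (Tr.leaf (nat_lit 1209509)) (Tr.leaf (nat_lit 302334)))))) (Tr.node (nat_lit 25984) (Tr.node (nat_lit 15360) (Tr.node (nat_lit 13632) (Tr.leaf (nat_lit 302270)) (Tr.leaf (nat_lit 302185))) (Tr.node (nat_lit 5120) (Tr.leaf (nat_lit 302175)) (Tr.node (nat_lit 3392) (Tr.leaf (nat_lit 302143)) (Tr.leaf (nat_lit 1208488))))) (Tr.node (nat_lit 8128) (Tr.node (nat_lit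 4672) (Tr.leaf (nat_lit 18881)) (Tr.node (nat_lit 2560) (Tr.leaf (nat_lit 302079)) (Tr.leaf (nat_lit 1208254)))) (Tr.node (nat_lit 5056) (Tr.leaf (nat_lit 302058)) (Tr.node (nat_lit 11968) (Tr.leaf (nat_lit 302026)) (Tr.leaf (nat_lit 4831234))))))) (Tr.node (nat_lit 54592) (Tr.node (nat_lit 24000) (Tr.node (nat_lit 3584) (Tr.node (nat_lit 3456) (Tr.leaf (nat_lit 294)) (Tr.leaf (nat_lit 75472))) (Tr.node (nat_lit 5120) (Tr.leaf (nat_lit 301888)) (Tr.node (nat_lit 64) (Tr.leaf (nat_lit 301856)) (Tr.leaf (nat_lit 75464))))) (Tr.node (nat_lit 13568) (Tr.node (nat_lit 1344) (Tr.leaf (nat_lit 301761)) (Tr.node (nat_lit 8320) (Tr.leaf (nat_lit 75438)) (Tr.leaf (nat_lit 75425)))) (Tr.node (nat_lit 6848) (Tr.leaf (nat_lit 301676)) (Tr.node (nat_lit 8512) (Tr.leaf (nat_lit 301634)) (Tr.leaf (nat_lit 301581)))))) (Tr.node (nat_lit 33984) (Tr.node (nat_lit 8768) (Tr.node (nat_lit 5952) (Tr.leaf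 (nat_lit 301570)) (Tr.leaf (nat_lit 301533))) (Tr.node (nat_lit 1408) (Tr.leaf (nat_lit 294)) (Tr.node (nat_lit 8512) (Tr.leaf (nat_lit 1206028)) (Tr.leaf (nat_lit 301454))))) (Tr.node (nat_lit 10176) (Tr.node (nat_lit 2240) (Tr.leaf (nat_lit 1205435)) (Tr.node (nat_lit 4544) (Tr.leaf (nat_lit 4708)) (Tr.leaf (nat_lit 301316)))) (Tr.node (nat_lit 3200) (Tr.leaf (nat_lit 301295)) (Tr.node (nat_lit 3584) (Tr.leaf (nat_lit 301275)) (Tr.leaf (nat_lit 301253))))))))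

noncomputable def jt221 : Tr :=
  (Tr.node (nat_lit 92224) (Tr.node (nat_lit 32896) (Tr.node (nat_lit 10880) (Tr.node (nat_lit 3200) (Tr.node (nat_lit 640) (Tr.leaf (nat_lit 301236)) (Tr.leaf (nat_lit 301232))) (Tr.node (nat_lit 2560) (Tr.leaf (nat_lit 301216)) (Tr.node (nat_lit 896) (Tr.leaf (nat_lit 301200)) (Tr.leaf (nat_lit 75298))))) (Tr.node (nat_lit 10176) (Tr.node (nat_lit 6784) (Tr.leaf (nat_lit 301168)) (Tr.leaf (nat_lit 301126))) (Tr.node (nat_lit 5504) (Tr.leaf (nat_lit 1204421)) (Tr.node (nat_lit 4672) (Tr.leaf (nat_lit 301071)) (Tr.leaf (nat_lit 301042)))))) (Tr.node (nat_lit 28864) (Tr.node (nat_lit 12736) (Tr.node (nat_lit 5120) (Tr.leaf (nat_lit 301031)) (Tr.leaf (nat_lit 300999))) (Tr.node (nat_lit 832) (Tr.leaf (nat_lit 300952)) (Tr.node (nat_lit 5120) (Tr.leaf (nat_lit 300947)) (Tr.leaf (nat_lit 300915))))) (Tr.node (nat_lit 17792) (Tr.node (nat_lit 6784)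 (Tr.leaf (nat_lit 1203409)) (Tr.node (nat_lit 3392) (Tr.leaf (nat_lit 1203240)) (Tr.leaf (nat_lit 300789)))) (Tr.node (nat_lit 4224) (Tr.leaf (nat_lit 300741)) (Tr.node (nat_lit 768) (Tr.leaf (nat_lit 300715)) (Tr.leaf (nat_lit 75177))))))) (Tr.node (nat_lit 66048) (Tr.node (nat_lit 32192) (Tr.node (nat_lit 11904) (Tr.node (nat_lit 10176) (Tr.leaf (nat_lit 300662)) (Tr.leaf (nat_lit 4809593))) (Tr.node (nat_lit 832) (Tr.leaf (nat_lit 300589)) (Tr.node (nat_lit 7616) (Tr.leaf (nat_lit 300583)) (Tr.leaf (nat_lit 300536))))) (Tr.node (nat_lit 15232) (Tr.node (nat_lit 5120) (Tr.leaf (nat_lit 300462)) (Tr.node (nat_lit 6272) (Tr.leaf (nat_lit 1201725)) (Tr.leaf (nat_lit 75098)))) (Tr.node (nat_lit 3392) (Tr.leaf (nat_lit 300368)) (Tr.node (nat_lit 6784) (Tr.leaf (nat_lit 4805557)) (Tr.leaf (nat_lit 300305)))))) (Tr.node (nat_lit 10560) (Tr.node (nat_lit 6784) (Tr.node (nat_lit 1728)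 (Tr.leaf (nat_lit 300252)) (Tr.leaf (nat_lit 300242))) (Tr.node (nat_lit 448) (Tr.leaf (nat_lit 300210)) (Tr.node (nat_lit 2944) (Tr.leaf (nat_lit 75051)) (Tr.leaf (nat_lit 300189))))) (Tr.node (nat_lit 7232) (Tr.node (nat_lit 2112) (Tr.leaf (nat_lit 75046)) (Tr.node (nat_lit 2560) (Tr.leaf (nat_lit 300174)) (Tr.leaf (nat_lit 300158)))) (Tr.node (nat_lit 4224) (Tr.leaf (nat_lit 300142)) (Tr.node (nat_lit 256) (Tr.leaf (nat_lit 300116)) (Tr.leaf (nat_lit 4689))))))))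

noncomputable def jt222 : Tr :=
  (Tr.node (nat_lit 98816) (Tr.node (nat_lit 45248) (Tr.node (nat_lit 22784) (Tr.node (nat_lit 16896) (Tr.node (nat_lit 15168) (Tr.leaf (nat_lit 1200382)) (Tr.leaf (nat_lit 300001))) (Tr.node (nat_lit 640) (Tr.leaf (nat_lit 299990)) (Tr.node (nat_lit 2752) (Tr.leaf (nat_lit 299986)) (Tr.leaf (nat_lit 299969))))) (Tr.node (nat_lit 5120) (Tr.node (nat_lit 4224) (Tr.leaf (nat_lit 299954)) (Tr.leaf (nat_lit 4798846))) (Tr.node (nat_lit 7552) (Tr.leaf (nat_lit 299922)) (Tr.node (nat_lit 1088) (Tr.leaf (nat_lit 299875)) (Tr.leaf (nat_lit 292)))))) (Tr.node (nat_lit 25728) (Tr.node (nat_lit 7104) (Tr.node (nat_lit 2048) (Tr.leaf (nat_lit 74953)) (Tr.leaf (nat_lit 1199209))) (Tr.node (nat_lit 2112) (Tr.leaf (nat_lit 299770)) (Tr.node (nat_lit 6592) (Tr.leaf (nat_lit 299757)) (Tr.leaf (nat_lit 74929))))) (Tr.node (nat_lit 20224) (Tr.node (nat_lit 10112)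 (Tr.leaf (nat_lit 299655)) (Tr.node (nat_lit 1088) (Tr.leaf (nat_lit 306783378)) (Tr.leaf (nat_lit 74896)))) (Tr.node (nat_lit 1728) (Tr.leaf (nat_lit 299530)) (Tr.node (nat_lit 3328) (Tr.leaf (nat_lit 299520)) (Tr.leaf (nat_lit 299499))))))) (Tr.node (nat_lit 60864) (Tr.node (nat_lit 39616) (Tr.node (nat_lit 15040) (Tr.node (nat_lit 6784) (Tr.leaf (nat_lit 299483)) (Tr.leaf (nat_lit 74860))) (Tr.node (nat_lit 7744) (Tr.leaf (nat_lit 74847)) (Tr.node (nat_lit 10112) (Tr.leaf (nat_lit 1197370)) (Tr.leaf (nat_lit 299280))))) (Tr.node (nat_lit 12544) (Tr.node (nat_lit 3392) (Tr.leaf (nat_lit 299238)) (Tr.node (nat_lit 6720) (Tr.leaf (nat_lit 299217)) (Tr.leaf (nat_lit 1196703)))) (Tr.node (nat_lit 6016) (Tr.leaf (nat_lit 292)) (Tr.node (nat_lit 1728) (Tr.leaf (nat_lit 299123)) (Tr.leaf (nat_lit 299113)))))) (Tr.node (nat_lit 27648) (Tr.node (nat_lit 12480) (Tr.node (nat_lit 4096)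 (Tr.leaf (nat_lit 74776)) (Tr.leaf (nat_lit 299082))) (Tr.node (nat_lit 448) (Tr.leaf (nat_lit 299029)) (Tr.node (nat_lit 6336) (Tr.leaf (nat_lit 299027)) (Tr.leaf (nat_lit 1195953))))) (Tr.node (nat_lit 20224) (Tr.node (nat_lit 1664) (Tr.leaf (nat_lit 298936)) (Tr.node (nat_lit 10112) (Tr.leaf (nat_lit 4782814)) (Tr.leaf (nat_lit 298863)))) (Tr.node (nat_lit 1664) (Tr.leaf (nat_lit 298811)) (Tr.node (nat_lit 7616) (Tr.leaf (nat_lit 298801)) (Tr.leaf (nat_lit 298754))))))))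

noncomputable def jt223 : Tr :=
  (Tr.node (nat_lit 79104) (Tr.node (nat_lit 20224) (Tr.node (nat_lit 13504) (Tr.node (nat_lit 3392) (Tr.node (nat_lit 1024) (Tr.leaf (nat_lit 298738)) (Tr.leaf (nat_lit 291))) (Tr.node (nat_lit 6336) (Tr.leaf (nat_lit 1194871)) (Tr.node (nat_lit 384) (Tr.leaf (nat_lit 74669)) (Tr.leaf (nat_lit 1194705))))) (Tr.node (nat_lit 1664) (Tr.node (nat_lit 1344) (Tr.leaf (nat_lit 298655)) (Tr.leaf (nat_lit 18665))) (Tr.node (nat_lit 2560) (Tr.leaf (nat_lit 298645)) (Tr.node (nat_lit 768) (Tr.leaf (nat_lit 74657)) (Tr.leaf (nat_lit 298624)))))) (Tr.node (nat_lit 33152) (Tr.node (nat_lit 10048) (Tr.node (nat_lit 3328) (Tr.leaf (nat_lit 298614)) (Tr.leaf (nat_lit 4777494))) (Tr.node (nat_lit 5056) (Tr.leaf (nat_lit 298551)) (Tr.node (nat_lit 6336) (Tr.leaf (nat_lit 298520)) (Tr.leaf (nat_lit 298481))))) (Tr.node (nat_lit 10560) (Tr.node (nat_lit 448) (Tr.leaf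 (nat_lit 18650)) (Tr.node (nat_lit 6784) (Tr.leaf (nat_lit 298406)) (Tr.leaf (nat_lit 298365)))) (Tr.node (nat_lit 5056) (Tr.leaf (nat_lit 1193377)) (Tr.node (nat_lit 5056) (Tr.leaf (nat_lit 298313)) (Tr.leaf (nat_lit 1193129))))))) (Tr.node (nat_lit 45312) (Tr.node (nat_lit 22656) (Tr.node (nat_lit 9472) (Tr.node (nat_lit 6720) (Tr.leaf (nat_lit 291)) (Tr.leaf (nat_lit 298209))) (Tr.node (nat_lit 2240) (Tr.leaf (nat_lit 74548)) (Tr.node (nat_lit 7552) (Tr.leaf (nat_lit 1192715)) (Tr.leaf (nat_lit 298132))))) (Tr.node (nat_lit 9216) (Tr.node (nat_lit 2496) (Tr.leaf (nat_lit 298111)) (Tr.node (nat_lit 5056) (Tr.leaf (nat_lit 1192384)) (Tr.leaf (nat_lit 298064)))) (Tr.node (nat_lit 5056) (Tr.leaf (nat_lit 1192218)) (Tr.node (nat_lit 3392) (Tr.leaf (nat_lit 298023)) (Tr.leaf (nat_lit 298002)))))) (Tr.node (nat_lit 14272) (Tr.node (nat_lit 6784) (Tr.node (nat_lit 6720) (Tr.leaf (nat_lit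 297971)) (Tr.leaf (nat_lit 4766889))) (Tr.node (nat_lit 3328) (Tr.leaf (nat_lit 74482)) (Tr.node (nat_lit 1664) (Tr.leaf (nat_lit 297909)) (Tr.leaf (nat_lit 297899))))) (Tr.node (nat_lit 17664) (Tr.node (nat_lit 12160) (Tr.leaf (nat_lit 297884)) (Tr.node (nat_lit 448) (Tr.leaf (nat_lit 297809)) (Tr.leaf (nat_lit 297806)))) (Tr.node (nat_lit 1088) (Tr.leaf (nat_lit 297775)) (Tr.node (nat_lit 7296) (Tr.leaf (nat_lit 74442)) (Tr.leaf (nat_lit 297724))))))))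

noncomputable def jt224 : Tr :=
  (Tr.node (nat_lit 125632) (Tr.node (nat_lit 53632) (Tr.node (nat_lit 28480) (Tr.node (nat_lit 7552) (Tr.node (nat_lit 3328) (Tr.leaf (nat_lit 297713)) (Tr.leaf (nat_lit 297693))) (Tr.node (nat_lit 832) (Tr.leaf (nat_lit 297667)) (Tr.node (nat_lit 11712) (Tr.leaf (nat_lit 297662)) (Tr.leaf (nat_lit 297589))))) (Tr.node (nat_lit 16768) (Tr.node (nat_lit 1728) (Tr.leaf (nat_lit 297538)) (Tr.node (nat_lit 8384) (Tr.leaf (nat_lit 1162)) (Tr.leaf (nat_lit 297476)))) (Tr.node (nat_lit 3072) (Tr.leaf (nat_lit 4758966)) (Tr.node (nat_lit 320) (Tr.leaf (nat_lit 74354)) (Tr.leaf (nat_lit 297414)))))) (Tr.node (nat_lit 35200) (Tr.node (nat_lit 12608) (Tr.node (nat_lit 5056) (Tr.leaf (nat_lit 297383)) (Tr.leaf (nat_lit 1189412))) (Tr.node (nat_lit 7488) (Tr.leaf (nat_lit 297306)) (Tr.node (nat_lit 8960) (Tr.leaf (nat_lit 297260)) (Tr.leaf (nat_lit 74301)))))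 (Tr.node (nat_lit 17664) (Tr.node (nat_lit 6720) (Tr.leaf (nat_lit 297167)) (Tr.node (nat_lit 10048) (Tr.leaf (nat_lit 1188507)) (Tr.leaf (nat_lit 297065)))) (Tr.node (nat_lit 2432) (Tr.leaf (nat_lit 4641)) (Tr.node (nat_lit 1664) (Tr.leaf (nat_lit 297044)) (Tr.leaf (nat_lit 297034))))))) (Tr.node (nat_lit 57728) (Tr.node (nat_lit 30144) (Tr.node (nat_lit 15936) (Tr.node (nat_lit 12032) (Tr.leaf (nat_lit 19004280)) (Tr.leaf (nat_lit 74217))) (Tr.node (nat_lit 7488) (Tr.leaf (nat_lit 296844)) (Tr.node (nat_lit 5056) (Tr.leaf (nat_lit 296798)) (Tr.leaf (nat_lit 296767))))) (Tr.node (nat_lit 8384) (Tr.node (nat_lit 3328) (Tr.leaf (nat_lit 296757)) (Tr.node (nat_lit 3712) (Tr.leaf (nat_lit 296736)) (Tr.leaf (nat_lit 74178)))) (Tr.node (nat_lit 4992) (Tr.leaf (nat_lit 296705)) (Tr.node (nat_lit 10048) (Tr.leaf (nat_lit 296675)) (Tr.leaf (nat_lit 4745820)))))) (Tr.node (nat_lit 22592)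 (Tr.node (nat_lit 12544) (Tr.node (nat_lit 5824) (Tr.leaf (nat_lit 296588)) (Tr.leaf (nat_lit 296552))) (Tr.node (nat_lit 2112) (Tr.leaf (nat_lit 296511)) (Tr.node (nat_lit 1216) (Tr.leaf (nat_lit 296498)) (Tr.leaf (nat_lit 296490))))) (Tr.node (nat_lit 18368) (Tr.node (nat_lit 9984) (Tr.leaf (nat_lit 1185799)) (Tr.node (nat_lit 3968) (Tr.leaf (nat_lit 296388)) (Tr.leaf (nat_lit 296364)))) (Tr.node (nat_lit 1664) (Tr.leaf (nat_lit 296337)) (Tr.node (nat_lit 6144) (Tr.leaf (nat_lit 296327)) (Tr.leaf (nat_lit 74072))))))))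

noncomputable def jt225 : Tr :=
  (Tr.node (nat_lit 85056) (Tr.node (nat_lit 32576) (Tr.node (nat_lit 20032) (Tr.node (nat_lit 4992) (Tr.node (nat_lit 3328) (Tr.leaf (nat_lit 4739274)) (Tr.leaf (nat_lit 296184))) (Tr.node (nat_lit 8320) (Tr.leaf (nat_lit 296174)) (Tr.node (nat_lit 4544) (Tr.leaf (nat_lit 4737967)) (Tr.leaf (nat_lit 289))))) (Tr.node (nat_lit 3328) (Tr.node (nat_lit 832) (Tr.leaf (nat_lit 296082)) (Tr.leaf (nat_lit 296077))) (Tr.node (nat_lit 1664) (Tr.leaf (nat_lit 296061)) (Tr.node (nat_lit 4992) (Tr.leaf (nat_lit 296051)) (Tr.leaf (nat_lit 296020)))))) (Tr.node (nat_lit 27456) (Tr.node (nat_lit 10816) (Tr.node (nat_lit 4928) (Tr.leaf (nat_lit 74001)) (Tr.leaf (nat_lit 295975))) (Tr.node (nat_lit 6656) (Tr.leaf (nat_lit 295939)) (Tr.node (nat_lit 3328) (Tr.leaf (nat_lit 295898)) (Tr.leaf (nat_lit 1183512))))) (Tr.node (nat_lit 15040) (Tr.node (nat_lit 2496)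 (Tr.leaf (nat_lit 1183349)) (Tr.node (nat_lit 7488) (Tr.leaf (nat_lit 295822)) (Tr.leaf (nat_lit 295776)))) (Tr.node (nat_lit 3072) (Tr.leaf (nat_lit 295745)) (Tr.node (nat_lit 5248) (Tr.leaf (nat_lit 295726)) (Tr.leaf (nat_lit 1182779))))))) (Tr.node (nat_lit 59968) (Tr.node (nat_lit 27456) (Tr.node (nat_lit 9984) (Tr.node (nat_lit 4992) (Tr.leaf (nat_lit 295684)) (Tr.leaf (nat_lit 295654))) (Tr.node (nat_lit 5824) (Tr.leaf (nat_lit 295623)) (Tr.node (nat_lit 2496) (Tr.leaf (nat_lit 295587)) (Tr.leaf (nat_lit 295572))))) (Tr.node (nat_lit 11840) (Tr.node (nat_lit 832) (Tr.leaf (nat_lit 295516)) (Tr.node (nat_lit 2304) (Tr.leaf (nat_lit 1182046)) (Tr.leaf (nat_lit 288)))) (Tr.node (nat_lit 640) (Tr.leaf (nat_lit 73861)) (Tr.node (nat_lit 8320) (Tr.leaf (nat_lit 295440)) (Tr.leaf (nat_lit 1181559)))))) (Tr.node (nat_lit 42368) (Tr.node (nat_lit 4992) (Tr.node (nat_lit 832) (Tr.leaf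 (nat_lit 295318)) (Tr.leaf (nat_lit 295313))) (Tr.node (nat_lit 17408) (Tr.leaf (nat_lit 295288)) (Tr.node (nat_lit 5568) (Tr.leaf (nat_lit 295181)) (Tr.leaf (nat_lit 1152))))) (Tr.node (nat_lit 12480) (Tr.node (nat_lit 4160) (Tr.leaf (nat_lit 295060)) (Tr.node (nat_lit 1088) (Tr.leaf (nat_lit 288)) (Tr.leaf (nat_lit 295028)))) (Tr.node (nat_lit 4736) (Tr.leaf (nat_lit 18878977)) (Tr.node (nat_lit 8576) (Tr.leaf (nat_lit 73738)) (Tr.leaf (nat_lit 1179612))))))))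

noncomputable def jt226 : Tr :=
  (Tr.node (nat_lit 84224) (Tr.node (nat_lit 45696) (Tr.node (nat_lit 12480) (Tr.node (nat_lit 2496) (Tr.node (nat_lit 2112) (Tr.leaf (nat_lit 294877)) (Tr.leaf (nat_lit 1151))) (Tr.node (nat_lit 3328) (Tr.leaf (nat_lit 294862)) (Tr.node (nat_lit 1216) (Tr.leaf (nat_lit 294842)) (Tr.leaf (nat_lit 4606))))) (Tr.node (nat_lit 4928) (Tr.node (nat_lit 3264) (Tr.leaf (nat_lit 294801)) (Tr.leaf (nat_lit 1179126))) (Tr.node (nat_lit 14976) (Tr.leaf (nat_lit 294771)) (Tr.node (nat_lit 8320) (Tr.leaf (nat_lit 1178721)) (Tr.leaf (nat_lit 1178519)))))) (Tr.node (nat_lit 19904) (Tr.node (nat_lit 6592) (Tr.node (nat_lit 4928) (Tr.leaf (nat_lit 294599)) (Tr.leaf (nat_lit 294569))) (Tr.node (nat_lit 4992) (Tr.leaf (nat_lit 294559)) (Tr.node (nat_lit 4992) (Tr.leaf (nat_lit 294528)) (Tr.leaf (nat_lit 1177994))))) (Tr.node (nat_lit 9600) (Tr.node (nat_lit 4800)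 (Tr.leaf (nat_lit 294478)) (Tr.node (nat_lit 1856) (Tr.leaf (nat_lit 4600)) (Tr.leaf (nat_lit 294438)))) (Tr.node (nat_lit 320) (Tr.leaf (nat_lit 73605)) (Tr.node (nat_lit 4864) (Tr.leaf (nat_lit 1177671)) (Tr.leaf (nat_lit 73597))))))) (Tr.node (nat_lit 31104) (Tr.node (nat_lit 12864) (Tr.node (nat_lit 6272) (Tr.node (nat_lit 2944) (Tr.leaf (nat_lit 294364)) (Tr.leaf (nat_lit 294347))) (Tr.node (nat_lit 4096) (Tr.leaf (nat_lit 294327)) (Tr.node (nat_lit 832) (Tr.leaf (nat_lit 294301)) (Tr.leaf (nat_lit 294296))))) (Tr.node (nat_lit 8320) (Tr.node (nat_lit 768) (Tr.leaf (nat_lit 294286)) (Tr.node (nat_lit 4224) (Tr.leaf (nat_lit 73570)) (Tr.leaf (nat_lit 1177025)))) (Tr.node (nat_lit 4992) (Tr.leaf (nat_lit 294236)) (Tr.node (nat_lit 1664) (Tr.leaf (nat_lit 294206)) (Tr.leaf (nat_lit 294195)))))) (Tr.node (nat_lit 26560) (Tr.node (nat_lit 6656) (Tr.node (nat_lit 4992) (Tr.leaf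 (nat_lit 4706813)) (Tr.leaf (nat_lit 294145))) (Tr.node (nat_lit 3328) (Tr.leaf (nat_lit 1176542)) (Tr.node (nat_lit 4288) (Tr.leaf (nat_lit 294115)) (Tr.leaf (nat_lit 73522))))) (Tr.node (nat_lit 9920) (Tr.node (nat_lit 2432) (Tr.leaf (nat_lit 4704235)) (Tr.node (nat_lit 832) (Tr.leaf (nat_lit 293999)) (Tr.leaf (nat_lit 293994)))) (Tr.node (nat_lit 3328) (Tr.leaf (nat_lit 293954)) (Tr.node (nat_lit 6592) (Tr.leaf (nat_lit 1175737)) (Tr.leaf (nat_lit 293894))))))))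

noncomputable def jt227 : Tr :=
  (Tr.node (nat_lit 104192) (Tr.node (nat_lit 61184) (Tr.node (nat_lit 12800) (Tr.node (nat_lit 4096) (Tr.node (nat_lit 1664) (Tr.leaf (nat_lit 293843)) (Tr.leaf (nat_lit 293833))) (Tr.node (nat_lit 832) (Tr.leaf (nat_lit 1147)) (Tr.node (nat_lit 1664) (Tr.leaf (nat_lit 293813)) (Tr.leaf (nat_lit 293803))))) (Tr.node (nat_lit 11968) (Tr.node (nat_lit 8704) (Tr.leaf (nat_lit 293765)) (Tr.leaf (nat_lit 293713))) (Tr.node (nat_lit 64) (Tr.leaf (nat_lit 73423)) (Tr.node (nat_lit 31424) (Tr.leaf (nat_lit 4699088)) (Tr.leaf (nat_lit 293502)))))) (Tr.node (nat_lit 19840) (Tr.node (nat_lit 12416) (Tr.node (nat_lit 8320) (Tr.leaf (nat_lit 293472)) (Tr.leaf (nat_lit 293422))) (Tr.node (nat_lit 2496) (Tr.leaf (nat_lit 293397)) (Tr.node (nat_lit 3328) (Tr.leaf (nat_lit 293382)) (Tr.leaf (nat_lit 293362))))) (Tr.node (nat_lit 9920) (Tr.node (nat_lit 832) (Tr.leaf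 (nat_lit 1173408)) (Tr.node (nat_lit 2496) (Tr.leaf (nat_lit 293347)) (Tr.leaf (nat_lit 293332)))) (Tr.node (nat_lit 3520) (Tr.leaf (nat_lit 1173167)) (Tr.node (nat_lit 6400) (Tr.leaf (nat_lit 286)) (Tr.leaf (nat_lit 293231))))))) (Tr.node (nat_lit 59456) (Tr.node (nat_lit 33728) (Tr.node (nat_lit 9920) (Tr.node (nat_lit 6592) (Tr.leaf (nat_lit 1172847)) (Tr.leaf (nat_lit 1172687))) (Tr.node (nat_lit 11584) (Tr.leaf (nat_lit 1172607)) (Tr.node (nat_lit 128) (Tr.leaf (nat_lit 293081)) (Tr.leaf (nat_lit 73270))))) (Tr.node (nat_lit 10880) (Tr.node (nat_lit 2624) (Tr.leaf (nat_lit 73251)) (Tr.node (nat_lit 3264) (Tr.leaf (nat_lit 292991)) (Tr.leaf (nat_lit 1171887)))) (Tr.node (nat_lit 1664) (Tr.leaf (nat_lit 292941)) (Tr.node (nat_lit 11968) (Tr.leaf (nat_lit 292931)) (Tr.leaf (nat_lit 292859)))))) (Tr.node (nat_lit 12928) (Tr.node (nat_lit 2496) (Tr.node (nat_lit 1856) (Tr.leaf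 (nat_lit 292851)) (Tr.leaf (nat_lit 4575))) (Tr.node (nat_lit 4096) (Tr.leaf (nat_lit 292837)) (Tr.node (nat_lit 1984) (Tr.leaf (nat_lit 1171248)) (Tr.leaf (nat_lit 73199))))) (Tr.node (nat_lit 4416) (Tr.node (nat_lit 1920) (Tr.leaf (nat_lit 73193)) (Tr.node (nat_lit 1664) (Tr.leaf (nat_lit 292762)) (Tr.leaf (nat_lit 292752)))) (Tr.node (nat_lit 2432) (Tr.leaf (nat_lit 292747)) (Tr.node (nat_lit 6592) (Tr.leaf (nat_lit 4683715)) (Tr.leaf (nat_lit 1170769))))))))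

noncomputable def jt228 : Tr :=
  (Tr.node (nat_lit 109504) (Tr.node (nat_lit 44480) (Tr.node (nat_lit 18112) (Tr.node (nat_lit 8640) (Tr.node (nat_lit 4928) (Tr.leaf (nat_lit 292662)) (Tr.leaf (nat_lit 292632))) (Tr.node (nat_lit 4544) (Tr.leaf (nat_lit 292610)) (Tr.node (nat_lit 4480) (Tr.leaf (nat_lit 292582)) (Tr.leaf (nat_lit 73138))))) (Tr.node (nat_lit 19776) (Tr.node (nat_lit 4928) (Tr.leaf (nat_lit 292552)) (Tr.leaf (nat_lit 292522))) (Tr.node (nat_lit 1664) (Tr.leaf (nat_lit 292433)) (Tr.node (nat_lit 832) (Tr.leaf (nat_lit 1169693)) (Tr.leaf (nat_lit 292418)))))) (Tr.node (nat_lit 29632) (Tr.node (nat_lit 7424) (Tr.node (nat_lit 3328) (Tr.leaf (nat_lit 292393)) (Tr.leaf (nat_lit 1169494))) (Tr.node (nat_lit 5760) (Tr.leaf (nat_lit 292348)) (Tr.node (nat_lit 6592) (Tr.leaf (nat_lit 292313)) (Tr.leaf (nat_lit 292274))))) (Tr.node (nat_lit 10816) (Tr.node (nat_lit 9664)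 (Tr.leaf (nat_lit 292214)) (Tr.node (nat_lit 256) (Tr.leaf (nat_lit 285)) (Tr.leaf (nat_lit 292154)))) (Tr.node (nat_lit 2368) (Tr.leaf (nat_lit 4564)) (Tr.node (nat_lit 14016) (Tr.leaf (nat_lit 292134)) (Tr.leaf (nat_lit 292050))))))) (Tr.node (nat_lit 58624) (Tr.node (nat_lit 26496) (Tr.node (nat_lit 7424) (Tr.node (nat_lit 2496) (Tr.leaf (nat_lit 292000)) (Tr.leaf (nat_lit 291985))) (Tr.node (nat_lit 12864) (Tr.leaf (nat_lit 291956)) (Tr.node (nat_lit 3584) (Tr.leaf (nat_lit 1140)) (Tr.leaf (nat_lit 1167427))))) (Tr.node (nat_lit 25344) (Tr.node (nat_lit 7232) (Tr.leaf (nat_lit 72960)) (Tr.node (nat_lit 11008) (Tr.leaf (nat_lit 291797)) (Tr.leaf (nat_lit 4558)))) (Tr.node (nat_lit 1664) (Tr.leaf (nat_lit 291688)) (Tr.node (nat_lit 5056) (Tr.leaf (nat_lit 1166714)) (Tr.leaf (nat_lit 284)))))) (Tr.node (nat_lit 25664) (Tr.node (nat_lit 13376) (Tr.node (nat_lit 3072) (Tr.leaf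 (nat_lit 291647)) (Tr.leaf (nat_lit 291629))) (Tr.node (nat_lit 4480) (Tr.leaf (nat_lit 291567)) (Tr.node (nat_lit 1664) (Tr.leaf (nat_lit 1166160)) (Tr.leaf (nat_lit 291530))))) (Tr.node (nat_lit 18624) (Tr.node (nat_lit 11904) (Tr.leaf (nat_lit 291493)) (Tr.node (nat_lit 960) (Tr.leaf (nat_lit 291421)) (Tr.leaf (nat_lit 291415)))) (Tr.node (nat_lit 9728) (Tr.leaf (nat_lit 284)) (Tr.node (nat_lit 2432) (Tr.leaf (nat_lit 291322)) (Tr.leaf (nat_lit 291307))))))))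

noncomputable def jt229 : Tr :=
  (Tr.node (nat_lit 104960) (Tr.node (nat_lit 55808) (Tr.node (nat_lit 21312) (Tr.node (nat_lit 6592) (Tr.node (nat_lit 2048) (Tr.leaf (nat_lit 291273)) (Tr.leaf (nat_lit 4550))) (Tr.node (nat_lit 4864) (Tr.leaf (nat_lit 291233)) (Tr.node (nat_lit 9728) (Tr.leaf (nat_lit 1164815)) (Tr.leaf (nat_lit 72786))))) (Tr.node (nat_lit 29568) (Tr.node (nat_lit 5760) (Tr.leaf (nat_lit 4658315)) (Tr.leaf (nat_lit 291110))) (Tr.node (nat_lit 768) (Tr.leaf (nat_lit 290967)) (Tr.node (nat_lit 2496) (Tr.leaf (nat_lit 290962)) (Tr.leaf (nat_lit 1163790)))))) (Tr.node (nat_lit 20480) (Tr.node (nat_lit 8192) (Tr.node (nat_lit 7360) (Tr.leaf (nat_lit 290937)) (Tr.leaf (nat_lit 290893))) (Tr.node (nat_lit 256) (Tr.leaf (nat_lit 290888)) (Tr.node (nat_lit 9536) (Tr.leaf (nat_lit 72721)) (Tr.leaf (nat_lit 4653269))))) (Tr.node (nat_lit 21760) (Tr.node (nat_lit 4096)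 (Tr.leaf (nat_lit 290814)) (Tr.node (nat_lit 8192) (Tr.leaf (nat_lit 1163159)) (Tr.leaf (nat_lit 290740)))) (Tr.node (nat_lit 1984) (Tr.leaf (nat_lit 72670)) (Tr.node (nat_lit 3264) (Tr.leaf (nat_lit 1162687)) (Tr.leaf (nat_lit 290652))))))) (Tr.node (nat_lit 37632) (Tr.node (nat_lit 14592) (Tr.node (nat_lit 8192) (Tr.node (nat_lit 5888) (Tr.leaf (nat_lit 290642)) (Tr.leaf (nat_lit 72651))) (Tr.node (nat_lit 1600) (Tr.leaf (nat_lit 1162372)) (Tr.node (nat_lit 3264) (Tr.leaf (nat_lit 290583)) (Tr.leaf (nat_lit 290563))))) (Tr.node (nat_lit 12416) (Tr.node (nat_lit 9088) (Tr.leaf (nat_lit 18159)) (Tr.node (nat_lit 832) (Tr.leaf (nat_lit 283)) (Tr.leaf (nat_lit 290494)))) (Tr.node (nat_lit 832) (Tr.leaf (nat_lit 290480)) (Tr.node (nat_lit 4864) (Tr.leaf (nat_lit 290475)) (Tr.leaf (nat_lit 1161783)))))) (Tr.node (nat_lit 44160) (Tr.node (nat_lit 11456) (Tr.node (nat_lit 6528) (Tr.leaf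 (nat_lit 290416)) (Tr.leaf (nat_lit 290377))) (Tr.node (nat_lit 12288) (Tr.leaf (nat_lit 290347)) (Tr.node (nat_lit 5696) (Tr.leaf (nat_lit 290274)) (Tr.leaf (nat_lit 1160958))))) (Tr.node (nat_lit 2880) (Tr.node (nat_lit 768) (Tr.leaf (nat_lit 290151)) (Tr.node (nat_lit 896) (Tr.leaf (nat_lit 72536)) (Tr.leaf (nat_lit 290141)))) (Tr.node (nat_lit 6208) (Tr.leaf (nat_lit 283)) (Tr.node (nat_lit 3200) (Tr.leaf (nat_lit 72524)) (Tr.leaf (nat_lit 290077))))))))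

noncomputable def jt230 : Tr :=
  (Tr.node (nat_lit 113472) (Tr.node (nat_lit 62080) (Tr.node (nat_lit 22912) (Tr.node (nat_lit 14720) (Tr.node (nat_lit 7360) (Tr.leaf (nat_lit 290024)) (Tr.leaf (nat_lit 289980))) (Tr.node (nat_lit 3136) (Tr.leaf (nat_lit 289936)) (Tr.node (nat_lit 1792) (Tr.leaf (nat_lit 72479)) (Tr.leaf (nat_lit 289906))))) (Tr.node (nat_lit 19584) (Tr.node (nat_lit 8704) (Tr.leaf (nat_lit 4638193)) (Tr.leaf (nat_lit 72458))) (Tr.node (nat_lit 576) (Tr.leaf (nat_lit 289769)) (Tr.node (nat_lit 1088) (Tr.leaf (nat_lit 1131)) (Tr.leaf (nat_lit 1159039)))))) (Tr.node (nat_lit 19584) (Tr.node (nat_lit 1664) (Tr.node (nat_lit 384) (Tr.leaf (nat_lit 1158610)) (Tr.leaf (nat_lit 289650))) (Tr.node (nat_lit 3264) (Tr.leaf (nat_lit 72410)) (Tr.node (nat_lit 9792) (Tr.leaf (nat_lit 289623)) (Tr.leaf (nat_lit 289564))))) (Tr.node (nat_lit 9792) (Tr.node (nat_lit 2432)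 (Tr.leaf (nat_lit 289535)) (Tr.node (nat_lit 4928) (Tr.leaf (nat_lit 289520)) (Tr.leaf (nat_lit 289491)))) (Tr.node (nat_lit 1664) (Tr.leaf (nat_lit 289476)) (Tr.node (nat_lit 8128) (Tr.leaf (nat_lit 289467)) (Tr.leaf (nat_lit 4630692))))))) (Tr.node (nat_lit 46464) (Tr.node (nat_lit 28544) (Tr.node (nat_lit 13888) (Tr.node (nat_lit 4096) (Tr.leaf (nat_lit 1157380)) (Tr.leaf (nat_lit 289320))) (Tr.node (nat_lit 3264) (Tr.leaf (nat_lit 74051160)) (Tr.node (nat_lit 9728) (Tr.leaf (nat_lit 289242)) (Tr.leaf (nat_lit 1156737))))) (Tr.node (nat_lit 8128) (Tr.node (nat_lit 2048) (Tr.leaf (nat_lit 289174)) (Tr.node (nat_lit 1152) (Tr.leaf (nat_lit 289162)) (Tr.leaf (nat_lit 4518)))) (Tr.node (nat_lit 1664) (Tr.leaf (nat_lit 289126)) (Tr.node (nat_lit 4864) (Tr.leaf (nat_lit 289116)) (Tr.leaf (nat_lit 289087)))))) (Tr.node (nat_lit 26048) (Tr.node (nat_lit 16256) (Tr.node (nat_lit 6528)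 (Tr.leaf (nat_lit 1156270)) (Tr.leaf (nat_lit 1156115))) (Tr.node (nat_lit 2496) (Tr.leaf (nat_lit 288970)) (Tr.node (nat_lit 2432) (Tr.leaf (nat_lit 288955)) (Tr.leaf (nat_lit 288941))))) (Tr.node (nat_lit 17920) (Tr.node (nat_lit 4864) (Tr.leaf (nat_lit 288912)) (Tr.node (nat_lit 7424) (Tr.leaf (nat_lit 288882)) (Tr.leaf (nat_lit 72209)))) (Tr.node (nat_lit 1600) (Tr.leaf (nat_lit 288805)) (Tr.node (nat_lit 3264) (Tr.leaf (nat_lit 4620728)) (Tr.leaf (nat_lit 288776))))))))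

noncomputable def jt231 : Tr :=
  (Tr.node (nat_lit 107392) (Tr.node (nat_lit 58560) (Tr.node (nat_lit 21120) (Tr.node (nat_lit 11392) (Tr.node (nat_lit 7872) (Tr.leaf (nat_lit 288688)) (Tr.leaf (nat_lit 72160))) (Tr.node (nat_lit 8128) (Tr.leaf (nat_lit 288620)) (Tr.node (nat_lit 64) (Tr.leaf (nat_lit 288572)) (Tr.leaf (nat_lit 4508))))) (Tr.node (nat_lit 19136) (Tr.node (nat_lit 13056) (Tr.leaf (nat_lit 1154250)) (Tr.leaf (nat_lit 1153940))) (Tr.node (nat_lit 5248) (Tr.leaf (nat_lit 288448)) (Tr.node (nat_lit 4928) (Tr.leaf (nat_lit 288417)) (Tr.leaf (nat_lit 288388)))))) (Tr.node (nat_lit 19136) (Tr.node (nat_lit 11328) (Tr.node (nat_lit 6464) (Tr.leaf (nat_lit 288339)) (Tr.leaf (nat_lit 288301))) (Tr.node (nat_lit 7040) (Tr.leaf (nat_lit 288272)) (Tr.node (nat_lit 256) (Tr.leaf (nat_lit 18014)) (Tr.leaf (nat_lit 288228))))) (Tr.node (nat_lit 17792) (Tr.node (nat_lit 1984)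 (Tr.leaf (nat_lit 281)) (Tr.node (nat_lit 3200) (Tr.leaf (nat_lit 288214)) (Tr.leaf (nat_lit 288194)))) (Tr.node (nat_lit 2048) (Tr.leaf (nat_lit 4501)) (Tr.node (nat_lit 4864) (Tr.leaf (nat_lit 288107)) (Tr.leaf (nat_lit 288078))))))) (Tr.node (nat_lit 38784) (Tr.node (nat_lit 16000) (Tr.node (nat_lit 8768) (Tr.node (nat_lit 6336) (Tr.leaf (nat_lit 72012)) (Tr.leaf (nat_lit 288011))) (Tr.node (nat_lit 2432) (Tr.leaf (nat_lit 287996)) (Tr.node (nat_lit 3712) (Tr.leaf (nat_lit 287982)) (Tr.leaf (nat_lit 71990))))) (Tr.node (nat_lit 8192) (Tr.node (nat_lit 4928) (Tr.leaf (nat_lit 17997)) (Tr.node (nat_lit 64) (Tr.leaf (nat_lit 71981)) (Tr.leaf (nat_lit 287924)))) (Tr.node (nat_lit 9728) (Tr.leaf (nat_lit 287905)) (Tr.node (nat_lit 2880) (Tr.leaf (nat_lit 287847)) (Tr.leaf (nat_lit 287830)))))) (Tr.node (nat_lit 38912) (Tr.node (nat_lit 29696) (Tr.node (nat_lit 16256) (Tr.leaf (nat_lit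 287818)) (Tr.leaf (nat_lit 287721))) (Tr.node (nat_lit 3584) (Tr.leaf (nat_lit 71910)) (Tr.node (nat_lit 768) (Tr.leaf (nat_lit 287620)) (Tr.leaf (nat_lit 287615))))) (Tr.node (nat_lit 11392) (Tr.node (nat_lit 4864) (Tr.leaf (nat_lit 287586)) (Tr.node (nat_lit 1728) (Tr.leaf (nat_lit 1150232)) (Tr.leaf (nat_lit 71886)))) (Tr.node (nat_lit 2432) (Tr.leaf (nat_lit 1150078)) (Tr.node (nat_lit 7232) (Tr.leaf (nat_lit 287505)) (Tr.leaf (nat_lit 287461))))))))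

noncomputable def jt232 : Tr :=
  (Tr.node (nat_lit 103936) (Tr.node (nat_lit 63168) (Tr.node (nat_lit 32064) (Tr.node (nat_lit 8128) (Tr.node (nat_lit 4864) (Tr.leaf (nat_lit 287432)) (Tr.leaf (nat_lit 4598466))) (Tr.node (nat_lit 9728) (Tr.leaf (nat_lit 1149539)) (Tr.node (nat_lit 2688) (Tr.leaf (nat_lit 1149308)) (Tr.leaf (nat_lit 71827))))) (Tr.node (nat_lit 8704) (Tr.node (nat_lit 1984) (Tr.leaf (nat_lit 280)) (Tr.node (nat_lit 3200) (Tr.leaf (nat_lit 287231)) (Tr.leaf (nat_lit 287211)))) (Tr.node (nat_lit 7808) (Tr.leaf (nat_lit 71797)) (Tr.node (nat_lit 4864) (Tr.leaf (nat_lit 287144)) (Tr.leaf (nat_lit 287115)))))) (Tr.node (nat_lit 21824) (Tr.node (nat_lit 19392) (Tr.node (nat_lit 3200) (Tr.leaf (nat_lit 287058)) (Tr.leaf (nat_lit 287039))) (Tr.node (nat_lit 704) (Tr.leaf (nat_lit 1147773)) (Tr.node (nat_lit 1152) (Tr.leaf (nat_lit 1120)) (Tr.leaf (nat_lit 17933)))))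 (Tr.node (nat_lit 10496) (Tr.node (nat_lit 7296) (Tr.leaf (nat_lit 286928)) (Tr.node (nat_lit 768) (Tr.leaf (nat_lit 286885)) (Tr.leaf (nat_lit 286881)))) (Tr.node (nat_lit 1600) (Tr.leaf (nat_lit 1147466)) (Tr.node (nat_lit 4864) (Tr.leaf (nat_lit 286857)) (Tr.leaf (nat_lit 286828))))))) (Tr.node (nat_lit 40064) (Tr.node (nat_lit 20672) (Tr.node (nat_lit 7744) (Tr.node (nat_lit 6144) (Tr.leaf (nat_lit 71704)) (Tr.leaf (nat_lit 286780))) (Tr.node (nat_lit 3200) (Tr.leaf (nat_lit 286770)) (Tr.node (nat_lit 4736) (Tr.leaf (nat_lit 286751)) (Tr.leaf (nat_lit 71680))))) (Tr.node (nat_lit 9664) (Tr.node (nat_lit 1600) (Tr.leaf (nat_lit 286694)) (Tr.node (nat_lit 3264) (Tr.leaf (nat_lit 286684)) (Tr.leaf (nat_lit 286665)))) (Tr.node (nat_lit 1216) (Tr.leaf (nat_lit 1146547)) (Tr.node (nat_lit 3648) (Tr.leaf (nat_lit 286629)) (Tr.leaf (nat_lit 286608)))))) (Tr.node (nat_lit 25792) (Tr.node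 (nat_lit 6464) (Tr.node (nat_lit 2496) (Tr.leaf (nat_lit 286579)) (Tr.leaf (nat_lit 279))) (Tr.node (nat_lit 3968) (Tr.leaf (nat_lit 286541)) (Tr.node (nat_lit 13120) (Tr.leaf (nat_lit 71629)) (Tr.leaf (nat_lit 1118))))) (Tr.node (nat_lit 4928) (Tr.node (nat_lit 2432) (Tr.leaf (nat_lit 286426)) (Tr.node (nat_lit 832) (Tr.leaf (nat_lit 286412)) (Tr.leaf (nat_lit 1145630)))) (Tr.node (nat_lit 3136) (Tr.leaf (nat_lit 4474)) (Tr.node (nat_lit 1664) (Tr.leaf (nat_lit 286378)) (Tr.leaf (nat_lit 286369))))))))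

noncomputable def jt233 : Tr :=
  (Tr.node (nat_lit 74624) (Tr.node (nat_lit 44416) (Tr.node (nat_lit 24256) (Tr.node (nat_lit 7296) (Tr.node (nat_lit 832) (Tr.leaf (nat_lit 286355)) (Tr.leaf (nat_lit 286350))) (Tr.node (nat_lit 4864) (Tr.leaf (nat_lit 286312)) (Tr.node (nat_lit 8064) (Tr.leaf (nat_lit 286283)) (Tr.leaf (nat_lit 286235))))) (Tr.node (nat_lit 11328) (Tr.node (nat_lit 2368) (Tr.leaf (nat_lit 1144847)) (Tr.leaf (nat_lit 286197))) (Tr.node (nat_lit 768) (Tr.leaf (nat_lit 71536)) (Tr.node (nat_lit 3200) (Tr.leaf (nat_lit 1144561)) (Tr.leaf (nat_lit 286121)))))) (Tr.node (nat_lit 10048) (Tr.node (nat_lit 4352) (Tr.node (nat_lit 1344) (Tr.leaf (nat_lit 286092)) (Tr.leaf (nat_lit 1117))) (Tr.node (nat_lit 448) (Tr.leaf (nat_lit 279)) (Tr.node (nat_lit 1472) (Tr.leaf (nat_lit 286064)) (Tr.leaf (nat_lit 71513))))) (Tr.node (nat_lit 9472) (Tr.node (nat_lit 1216) (Tr.leaf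 (nat_lit 286033)) (Tr.node (nat_lit 8064) (Tr.leaf (nat_lit 1144104)) (Tr.leaf (nat_lit 285978)))) (Tr.node (nat_lit 1408) (Tr.leaf (nat_lit 71494)) (Tr.node (nat_lit 3200) (Tr.leaf (nat_lit 285968)) (Tr.leaf (nat_lit 1143799))))))) (Tr.node (nat_lit 58368) (Tr.node (nat_lit 32576) (Tr.node (nat_lit 3584) (Tr.node (nat_lit 384) (Tr.leaf (nat_lit 285914)) (Tr.leaf (nat_lit 1143647))) (Tr.node (nat_lit 2432) (Tr.leaf (nat_lit 285892)) (Tr.node (nat_lit 5312) (Tr.leaf (nat_lit 285878)) (Tr.leaf (nat_lit 71461))))) (Tr.node (nat_lit 7296) (Tr.node (nat_lit 1664) (Tr.leaf (nat_lit 1142886)) (Tr.node (nat_lit 4800) (Tr.leaf (nat_lit 285712)) (Tr.leaf (nat_lit 285683)))) (Tr.node (nat_lit 7232) (Tr.leaf (nat_lit 285678)) (Tr.node (nat_lit 1600) (Tr.leaf (nat_lit 285636)) (Tr.leaf (nat_lit 285626)))))) (Tr.node (nat_lit 24128) (Tr.node (nat_lit 12032) (Tr.node (nat_lit 8064) (Tr.leaf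 (nat_lit 18276456)) (Tr.leaf (nat_lit 285522))) (Tr.node (nat_lit 7296) (Tr.leaf (nat_lit 285498)) (Tr.node (nat_lit 3200) (Tr.leaf (nat_lit 285455)) (Tr.leaf (nat_lit 285436))))) (Tr.node (nat_lit 14464) (Tr.node (nat_lit 4288) (Tr.leaf (nat_lit 285427)) (Tr.node (nat_lit 512) (Tr.leaf (nat_lit 71350)) (Tr.leaf (nat_lit 285398)))) (Tr.node (nat_lit 5632) (Tr.leaf (nat_lit 1141367)) (Tr.node (nat_lit 1152) (Tr.leaf (nat_lit 4457)) (Tr.leaf (nat_lit 71325))))))))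

noncomputable def jt234 : Tr :=
  (Tr.node (nat_lit 86720) (Tr.node (nat_lit 62656) (Tr.node (nat_lit 48192) (Tr.node (nat_lit 9664) (Tr.node (nat_lit 8000) (Tr.leaf (nat_lit 285285)) (Tr.leaf (nat_lit 285237))) (Tr.node (nat_lit 8000) (Tr.leaf (nat_lit 285228)) (Tr.node (nat_lit 24256) (Tr.leaf (nat_lit 285180)) (Tr.leaf (nat_lit 17814))))) (Tr.node (nat_lit 6016) (Tr.node (nat_lit 3200) (Tr.leaf (nat_lit 1140004)) (Tr.leaf (nat_lit 284982))) (Tr.node (nat_lit 2112) (Tr.leaf (nat_lit 284965)) (Tr.node (nat_lit 4736) (Tr.leaf (nat_lit 1113)) (Tr.leaf (nat_lit 284925)))))) (Tr.node (nat_lit 11648) (Tr.node (nat_lit 4096) (Tr.node (nat_lit 3776) (Tr.leaf (nat_lit 284916)) (Tr.leaf (nat_lit 71223))) (Tr.node (nat_lit 5504) (Tr.leaf (nat_lit 278)) (Tr.node (nat_lit 768) (Tr.leaf (nat_lit 284859)) (Tr.leaf (nat_lit 71213))))) (Tr.node (nat_lit 6016) (Tr.node (nat_lit 2816) (Tr.leaf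 (nat_lit 284847)) (Tr.node (nat_lit 3136) (Tr.leaf (nat_lit 284831)) (Tr.leaf (nat_lit 4450)))) (Tr.node (nat_lit 4032) (Tr.leaf (nat_lit 4556994)) (Tr.node (nat_lit 768) (Tr.leaf (nat_lit 284788)) (Tr.leaf (nat_lit 284783))))))) (Tr.node (nat_lit 51712) (Tr.node (nat_lit 37888) (Tr.node (nat_lit 19264) (Tr.node (nat_lit 14464) (Tr.leaf (nat_lit 284774)) (Tr.leaf (nat_lit 284689))) (Tr.node (nat_lit 3200) (Tr.leaf (nat_lit 4554578)) (Tr.node (nat_lit 9600) (Tr.leaf (nat_lit 284642)) (Tr.leaf (nat_lit 4553371))))) (Tr.node (nat_lit 5440) (Tr.node (nat_lit 640) (Tr.leaf (nat_lit 4446)) (Tr.node (nat_lit 3200) (Tr.leaf (nat_lit 284547)) (Tr.leaf (nat_lit 284529)))) (Tr.node (nat_lit 4800) (Tr.leaf (nat_lit 284519)) (Tr.node (nat_lit 3200) (Tr.leaf (nat_lit 284491)) (Tr.leaf (nat_lit 284472)))))) (Tr.node (nat_lit 15680) (Tr.node (nat_lit 6144) (Tr.node (nat_lit 4416) (Tr.leaf (nat_lit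 284470)) (Tr.leaf (nat_lit 284444))) (Tr.node (nat_lit 704) (Tr.leaf (nat_lit 71108)) (Tr.node (nat_lit 7232) (Tr.leaf (nat_lit 284430)) (Tr.leaf (nat_lit 284387))))) (Tr.node (nat_lit 9600) (Tr.node (nat_lit 1600) (Tr.leaf (nat_lit 284378)) (Tr.node (nat_lit 2752) (Tr.leaf (nat_lit 71092)) (Tr.leaf (nat_lit 284352)))) (Tr.node (nat_lit 8000) (Tr.leaf (nat_lit 1137287)) (Tr.node (nat_lit 1600) (Tr.leaf (nat_lit 284274)) (Tr.leaf (nat_lit 284265))))))))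

noncomputable def jt235 : Tr :=
  (Tr.node (nat_lit 83200) (Tr.node (nat_lit 26496) (Tr.node (nat_lit 17152) (Tr.node (nat_lit 4096) (Tr.node (nat_lit 1728) (Tr.leaf (nat_lit 277)) (Tr.leaf (nat_lit 284223))) (Tr.node (nat_lit 8000) (Tr.leaf (nat_lit 1136836)) (Tr.node (nat_lit 1600) (Tr.leaf (nat_lit 284162)) (Tr.leaf (nat_lit 284152))))) (Tr.node (nat_lit 6144) (Tr.node (nat_lit 1344) (Tr.leaf (nat_lit 277)) (Tr.leaf (nat_lit 284124))) (Tr.node (nat_lit 2432) (Tr.leaf (nat_lit 284096)) (Tr.node (nat_lit 128) (Tr.leaf (nat_lit 284082)) (Tr.leaf (nat_lit 71020)))))) (Tr.node (nat_lit 20864) (Tr.node (nat_lit 11264) (Tr.node (nat_lit 9664) (Tr.leaf (nat_lit 284077)) (Tr.leaf (nat_lit 284021))) (Tr.node (nat_lit 3200) (Tr.leaf (nat_lit 284011)) (Tr.node (nat_lit 1600) (Tr.leaf (nat_lit 283992)) (Tr.leaf (nat_lit 1135934))))) (Tr.node (nat_lit 24000) (Tr.node (nat_lit 4800) (Tr.leaf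 (nat_lit 283955)) (Tr.node (nat_lit 9600) (Tr.leaf (nat_lit 283927)) (Tr.leaf (nat_lit 1135483)))) (Tr.node (nat_lit 3136) (Tr.leaf (nat_lit 283814)) (Tr.node (nat_lit 64) (Tr.leaf (nat_lit 1108)) (Tr.leaf (nat_lit 1135183))))))) (Tr.node (nat_lit 46464) (Tr.node (nat_lit 11264) (Tr.node (nat_lit 9152) (Tr.node (nat_lit 5696) (Tr.leaf (nat_lit 283744)) (Tr.leaf (nat_lit 283711))) (Tr.node (nat_lit 1344) (Tr.leaf (nat_lit 4432)) (Tr.node (nat_lit 448) (Tr.leaf (nat_lit 1134733)) (Tr.leaf (nat_lit 283681))))) (Tr.node (nat_lit 23232) (Tr.node (nat_lit 8832) (Tr.leaf (nat_lit 70919)) (Tr.node (nat_lit 9600) (Tr.leaf (nat_lit 283627)) (Tr.leaf (nat_lit 283571)))) (Tr.node (nat_lit 1600) (Tr.leaf (nat_lit 283542)) (Tr.node (nat_lit 9600) (Tr.leaf (nat_lit 1134134)) (Tr.leaf (nat_lit 283477)))))) (Tr.node (nat_lit 23168) (Tr.node (nat_lit 8768) (Tr.node (nat_lit 1920) (Tr.leaf (nat_lit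 283472)) (Tr.leaf (nat_lit 276))) (Tr.node (nat_lit 9600) (Tr.leaf (nat_lit 283421)) (Tr.node (nat_lit 3200) (Tr.leaf (nat_lit 283365)) (Tr.leaf (nat_lit 1133386))))) (Tr.node (nat_lit 12800) (Tr.node (nat_lit 512) (Tr.leaf (nat_lit 283337)) (Tr.node (nat_lit 10432) (Tr.leaf (nat_lit 4427)) (Tr.leaf (nat_lit 1106)))) (Tr.node (nat_lit 1600) (Tr.leaf (nat_lit 283262)) (Tr.node (nat_lit 3136) (Tr.leaf (nat_lit 283253)) (Tr.leaf (nat_lit 1132937))))))))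

noncomputable def jt236 : Tr :=
  (Tr.node (nat_lit 97280) (Tr.node (nat_lit 41536) (Tr.node (nat_lit 27968) (Tr.node (nat_lit 4800) (Tr.node (nat_lit 1600) (Tr.leaf (nat_lit 283206)) (Tr.leaf (nat_lit 283197))) (Tr.node (nat_lit 9600) (Tr.leaf (nat_lit 283178)) (Tr.node (nat_lit 11392) (Tr.leaf (nat_lit 1132489)) (Tr.leaf (nat_lit 276))))) (Tr.node (nat_lit 10368) (Tr.node (nat_lit 768) (Tr.leaf (nat_lit 283043)) (Tr.leaf (nat_lit 283038))) (Tr.node (nat_lit 1280) (Tr.leaf (nat_lit 282982)) (Tr.node (nat_lit 256) (Tr.leaf (nat_lit 17685)) (Tr.leaf (nat_lit 282973)))))) (Tr.node (nat_lit 20672) (Tr.node (nat_lit 8704) (Tr.node (nat_lit 1536) (Tr.leaf (nat_lit 70740)) (Tr.leaf (nat_lit 282954))) (Tr.node (nat_lit 2432) (Tr.leaf (nat_lit 282912)) (Tr.node (nat_lit 6336) (Tr.leaf (nat_lit 282898)) (Tr.leaf (nat_lit 4525782))))) (Tr.node (nat_lit 14208) (Tr.node (nat_lit 1600) (Tr.leaf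 (nat_lit 282842)) (Tr.node (nat_lit 128) (Tr.leaf (nat_lit 282833)) (Tr.leaf (nat_lit 70708)))) (Tr.node (nat_lit 4928) (Tr.leaf (nat_lit 70689)) (Tr.node (nat_lit 4800) (Tr.leaf (nat_lit 282731)) (Tr.leaf (nat_lit 282703))))))) (Tr.node (nat_lit 41408) (Tr.node (nat_lit 22272) (Tr.node (nat_lit 14336) (Tr.node (nat_lit 12736) (Tr.leaf (nat_lit 1130552)) (Tr.leaf (nat_lit 18084072))) (Tr.node (nat_lit 3136) (Tr.leaf (nat_lit 282554)) (Tr.node (nat_lit 2432) (Tr.leaf (nat_lit 70634)) (Tr.leaf (nat_lit 282521))))) (Tr.node (nat_lit 9600) (Tr.node (nat_lit 384) (Tr.leaf (nat_lit 282507)) (Tr.node (nat_lit 6016) (Tr.leaf (nat_lit 282505)) (Tr.leaf (nat_lit 282470)))) (Tr.node (nat_lit 6336) (Tr.leaf (nat_lit 282452)) (Tr.node (nat_lit 2368) (Tr.leaf (nat_lit 1129659)) (Tr.leaf (nat_lit 282401)))))) (Tr.node (nat_lit 30976) (Tr.node (nat_lit 11136) (Tr.node (nat_lit 3072) (Tr.leaf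 (nat_lit 282396)) (Tr.leaf (nat_lit 70594))) (Tr.node (nat_lit 4736) (Tr.leaf (nat_lit 282331)) (Tr.node (nat_lit 7168) (Tr.leaf (nat_lit 282303)) (Tr.leaf (nat_lit 282261))))) (Tr.node (nat_lit 7168) (Tr.node (nat_lit 4032) (Tr.leaf (nat_lit 282215)) (Tr.node (nat_lit 1984) (Tr.leaf (nat_lit 1128769)) (Tr.leaf (nat_lit 282180)))) (Tr.node (nat_lit 6400) (Tr.leaf (nat_lit 282173)) (Tr.node (nat_lit 11904) (Tr.leaf (nat_lit 282136)) (Tr.leaf (nat_lit 282067))))))))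

noncomputable def jt237 : Tr :=
  (Tr.node (nat_lit 100928) (Tr.node (nat_lit 58368) (Tr.node (nat_lit 38848) (Tr.node (nat_lit 23808) (Tr.node (nat_lit 1600) (Tr.leaf (nat_lit 282034)) (Tr.leaf (nat_lit 282025))) (Tr.node (nat_lit 8832) (Tr.leaf (nat_lit 1127583)) (Tr.node (nat_lit 5504) (Tr.leaf (nat_lit 275)) (Tr.leaf (nat_lit 281812))))) (Tr.node (nat_lit 10368) (Tr.node (nat_lit 4032) (Tr.leaf (nat_lit 70452)) (Tr.leaf (nat_lit 281785))) (Tr.node (nat_lit 448) (Tr.leaf (nat_lit 1126992)) (Tr.node (nat_lit 2752) (Tr.leaf (nat_lit 70436)) (Tr.leaf (nat_lit 281729)))))) (Tr.node (nat_lit 17088) (Tr.node (nat_lit 11200) (Tr.node (nat_lit 384) (Tr.leaf (nat_lit 281694)) (Tr.leaf (nat_lit 281692))) (Tr.node (nat_lit 1920) (Tr.leaf (nat_lit 275)) (Tr.node (nat_lit 1536) (Tr.leaf (nat_lit 281618)) (Tr.leaf (nat_lit 281609))))) (Tr.node (nat_lit 16640) (Tr.node (nat_lit 2368) (Tr.leaf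 (nat_lit 281595)) (Tr.node (nat_lit 9536) (Tr.leaf (nat_lit 281581)) (Tr.leaf (nat_lit 1126105)))) (Tr.node (nat_lit 4096) (Tr.leaf (nat_lit 281498)) (Tr.node (nat_lit 768) (Tr.leaf (nat_lit 281474)) (Tr.leaf (nat_lit 4397))))))) (Tr.node (nat_lit 49024) (Tr.node (nat_lit 24448) (Tr.node (nat_lit 15744) (Tr.node (nat_lit 13824) (Tr.leaf (nat_lit 1099)) (Tr.leaf (nat_lit 70341))) (Tr.node (nat_lit 4928) (Tr.leaf (nat_lit 281355)) (Tr.node (nat_lit 2240) (Tr.leaf (nat_lit 70331)) (Tr.leaf (nat_lit 281314))))) (Tr.node (nat_lit 14272) (Tr.node (nat_lit 2368) (Tr.leaf (nat_lit 1125220)) (Tr.node (nat_lit 384) (Tr.leaf (nat_lit 281291)) (Tr.leaf (nat_lit 70322)))) (Tr.node (nat_lit 3008) (Tr.leaf (nat_lit 281222)) (Tr.node (nat_lit 4928) (Tr.leaf (nat_lit 281205)) (Tr.leaf (nat_lit 1124705)))))) (Tr.node (nat_lit 27712) (Tr.node (nat_lit 7168) (Tr.node (nat_lit 1600) (Tr.leaf (nat_lit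 281162)) (Tr.leaf (nat_lit 281153))) (Tr.node (nat_lit 6336) (Tr.leaf (nat_lit 281121)) (Tr.node (nat_lit 10112) (Tr.leaf (nat_lit 4497347)) (Tr.leaf (nat_lit 70256))))) (Tr.node (nat_lit 10048) (Tr.node (nat_lit 4736) (Tr.leaf (nat_lit 281001)) (Tr.node (nat_lit 4800) (Tr.leaf (nat_lit 280973)) (Tr.leaf (nat_lit 280946)))) (Tr.node (nat_lit 7360) (Tr.leaf (nat_lit 274)) (Tr.node (nat_lit 4800) (Tr.leaf (nat_lit 1123601)) (Tr.leaf (nat_lit 280872))))))))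

noncomputable def jt238 : Tr :=
  (Tr.node (nat_lit 103872) (Tr.node (nat_lit 47424) (Tr.node (nat_lit 14208) (Tr.node (nat_lit 4736) (Tr.node (nat_lit 1152) (Tr.leaf (nat_lit 280845)) (Tr.leaf (nat_lit 70209))) (Tr.node (nat_lit 1600) (Tr.leaf (nat_lit 280817)) (Tr.node (nat_lit 5888) (Tr.leaf (nat_lit 1123234)) (Tr.leaf (nat_lit 280774))))) (Tr.node (nat_lit 20608) (Tr.node (nat_lit 1600) (Tr.leaf (nat_lit 280762)) (Tr.leaf (nat_lit 280753))) (Tr.node (nat_lit 3136) (Tr.leaf (nat_lit 1122573)) (Tr.node (nat_lit 3968) (Tr.leaf (nat_lit 280625)) (Tr.leaf (nat_lit 280602)))))) (Tr.node (nat_lit 24128) (Tr.node (nat_lit 10240) (Tr.node (nat_lit 9536) (Tr.leaf (nat_lit 1122280)) (Tr.leaf (nat_lit 280515))) (Tr.node (nat_lit 8768) (Tr.leaf (nat_lit 4382)) (Tr.node (nat_lit 5056) (Tr.leaf (nat_lit 1121840)) (Tr.leaf (nat_lit 273))))) (Tr.node (nat_lit 8640) (Tr.node (nat_lit 1216)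 (Tr.leaf (nat_lit 280430)) (Tr.node (nat_lit 4736) (Tr.leaf (nat_lit 1121694)) (Tr.leaf (nat_lit 280396)))) (Tr.node (nat_lit 9152) (Tr.leaf (nat_lit 70095)) (Tr.node (nat_lit 7872) (Tr.leaf (nat_lit 280327)) (Tr.leaf (nat_lit 280281))))))) (Tr.node (nat_lit 38336) (Tr.node (nat_lit 6784) (Tr.node (nat_lit 2048) (Tr.node (nat_lit 1024) (Tr.leaf (nat_lit 1094)) (Tr.leaf (nat_lit 70059))) (Tr.node (nat_lit 3008) (Tr.leaf (nat_lit 280231)) (Tr.node (nat_lit 1152) (Tr.leaf (nat_lit 17513)) (Tr.leaf (nat_lit 280207))))) (Tr.node (nat_lit 17344) (Tr.node (nat_lit 4736) (Tr.leaf (nat_lit 4483264)) (Tr.node (nat_lit 5504) (Tr.leaf (nat_lit 280176)) (Tr.leaf (nat_lit 280144)))) (Tr.node (nat_lit 1600) (Tr.leaf (nat_lit 280103)) (Tr.node (nat_lit 3136) (Tr.leaf (nat_lit 1120377)) (Tr.leaf (nat_lit 280076)))))) (Tr.node (nat_lit 25280) (Tr.node (nat_lit 15808) (Tr.node (nat_lit 5312) (Tr.leaf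 (nat_lit 280021)) (Tr.leaf (nat_lit 273))) (Tr.node (nat_lit 2368) (Tr.leaf (nat_lit 279930)) (Tr.node (nat_lit 768) (Tr.leaf (nat_lit 279916)) (Tr.leaf (nat_lit 4478589))))) (Tr.node (nat_lit 4736) (Tr.node (nat_lit 3136) (Tr.leaf (nat_lit 279875)) (Tr.node (nat_lit 1536) (Tr.leaf (nat_lit 279857)) (Tr.leaf (nat_lit 4372)))) (Tr.node (nat_lit 5504) (Tr.leaf (nat_lit 279848)) (Tr.node (nat_lit 2368) (Tr.leaf (nat_lit 279816)) (Tr.leaf (nat_lit 1119209))))))))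

noncomputable def jt239 : Tr :=
  (Tr.node (nat_lit 85440) (Tr.node (nat_lit 38208) (Tr.node (nat_lit 12992) (Tr.node (nat_lit 3968) (Tr.node (nat_lit 3584) (Tr.leaf (nat_lit 279768)) (Tr.leaf (nat_lit 279747))) (Tr.node (nat_lit 3264) (Tr.leaf (nat_lit 279745)) (Tr.node (nat_lit 1024) (Tr.leaf (nat_lit 17482)) (Tr.leaf (nat_lit 279720))))) (Tr.node (nat_lit 11072) (Tr.node (nat_lit 1408) (Tr.leaf (nat_lit 1118772)) (Tr.leaf (nat_lit 69921))) (Tr.node (nat_lit 7872) (Tr.leaf (nat_lit 279629)) (Tr.node (nat_lit 1536) (Tr.leaf (nat_lit 279583)) (Tr.leaf (nat_lit 279574)))))) (Tr.node (nat_lit 30720) (Tr.node (nat_lit 18944) (Tr.node (nat_lit 18688) (Tr.leaf (nat_lit 1118189)) (Tr.leaf (nat_lit 69859))) (Tr.node (nat_lit 3136) (Tr.leaf (nat_lit 1117753)) (Tr.node (nat_lit 7040) (Tr.leaf (nat_lit 279420)) (Tr.leaf (nat_lit 17461))))) (Tr.node (nat_lit 5504) (Tr.node (nat_lit 768)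 (Tr.leaf (nat_lit 279370)) (Tr.node (nat_lit 576) (Tr.leaf (nat_lit 279365)) (Tr.leaf (nat_lit 4365)))) (Tr.node (nat_lit 1600) (Tr.leaf (nat_lit 279338)) (Tr.node (nat_lit 6656) (Tr.leaf (nat_lit 4469268)) (Tr.leaf (nat_lit 279290))))))) (Tr.node (nat_lit 50368) (Tr.node (nat_lit 20352) (Tr.node (nat_lit 5504) (Tr.node (nat_lit 3200) (Tr.leaf (nat_lit 1117099)) (Tr.leaf (nat_lit 1117026))) (Tr.node (nat_lit 1600) (Tr.leaf (nat_lit 279243)) (Tr.node (nat_lit 2368) (Tr.leaf (nat_lit 279233)) (Tr.leaf (nat_lit 279220))))) (Tr.node (nat_lit 11136) (Tr.node (nat_lit 1728) (Tr.leaf (nat_lit 1090)) (Tr.node (nat_lit 4672) (Tr.leaf (nat_lit 1116591)) (Tr.leaf (nat_lit 279120)))) (Tr.node (nat_lit 5120) (Tr.leaf (nat_lit 279093)) (Tr.node (nat_lit 5888) (Tr.leaf (nat_lit 279063)) (Tr.leaf (nat_lit 279029)))))) (Tr.node (nat_lit 11008) (Tr.node (nat_lit 6272) (Tr.node (nat_lit 4736) (Tr.leaf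 (nat_lit 278984)) (Tr.leaf (nat_lit 278957))) (Tr.node (nat_lit 1536) (Tr.leaf (nat_lit 278948)) (Tr.node (nat_lit 1600) (Tr.leaf (nat_lit 69734)) (Tr.leaf (nat_lit 278930))))) (Tr.node (nat_lit 14144) (Tr.node (nat_lit 5952) (Tr.leaf (nat_lit 278921)) (Tr.node (nat_lit 6592) (Tr.leaf (nat_lit 69721)) (Tr.leaf (nat_lit 278848)))) (Tr.node (nat_lit 9408) (Tr.leaf (nat_lit 278839)) (Tr.node (nat_lit 9408) (Tr.leaf (nat_lit 278785)) (Tr.leaf (nat_lit 278731))))))))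

noncomputable def jt240 : Tr :=
  (Tr.node (nat_lit 94144) (Tr.node (nat_lit 51008) (Tr.node (nat_lit 25216) (Tr.node (nat_lit 15680) (Tr.node (nat_lit 11776) (Tr.leaf (nat_lit 1114851)) (Tr.leaf (nat_lit 278645))) (Tr.node (nat_lit 128) (Tr.leaf (nat_lit 278622)) (Tr.node (nat_lit 7744) (Tr.leaf (nat_lit 69655)) (Tr.leaf (nat_lit 278577))))) (Tr.node (nat_lit 10112) (Tr.node (nat_lit 3008) (Tr.leaf (nat_lit 272)) (Tr.node (nat_lit 6272) (Tr.leaf (nat_lit 278550)) (Tr.leaf (nat_lit 278514)))) (Tr.node (nat_lit 3904) (Tr.leaf (nat_lit 278509)) (Tr.node (nat_lit 7936) (Tr.leaf (nat_lit 278487)) (Tr.leaf (nat_lit 271)))))) (Tr.node (nat_lit 25152) (Tr.node (nat_lit 10752) (Tr.node (nat_lit 3392) (Tr.leaf (nat_lit 278419)) (Tr.leaf (nat_lit 1087))) (Tr.node (nat_lit 4160) (Tr.leaf (nat_lit 278357)) (Tr.node (nat_lit 9408) (Tr.leaf (nat_lit 278333)) (Tr.leaf (nat_lit 278279)))))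 (Tr.node (nat_lit 10112) (Tr.node (nat_lit 5440) (Tr.leaf (nat_lit 17392)) (Tr.node (nat_lit 3136) (Tr.leaf (nat_lit 1112974)) (Tr.leaf (nat_lit 278225)))) (Tr.node (nat_lit 320) (Tr.leaf (nat_lit 1112866)) (Tr.node (nat_lit 2816) (Tr.leaf (nat_lit 4347)) (Tr.leaf (nat_lit 278198))))))) (Tr.node (nat_lit 39168) (Tr.node (nat_lit 18816) (Tr.node (nat_lit 11712) (Tr.node (nat_lit 5888) (Tr.leaf (nat_lit 4450743)) (Tr.leaf (nat_lit 69534))) (Tr.node (nat_lit 2368) (Tr.leaf (nat_lit 278103)) (Tr.node (nat_lit 1600) (Tr.leaf (nat_lit 278090)) (Tr.leaf (nat_lit 278081))))) (Tr.node (nat_lit 6208) (Tr.node (nat_lit 3904) (Tr.leaf (nat_lit 278063)) (Tr.node (nat_lit 768) (Tr.leaf (nat_lit 278040)) (Tr.leaf (nat_lit 278036)))) (Tr.node (nat_lit 3136) (Tr.leaf (nat_lit 1112109)) (Tr.node (nat_lit 1600) (Tr.leaf (nat_lit 278009)) (Tr.leaf (nat_lit 278000)))))) (Tr.node (nat_lit 21888) (Tr.node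 (nat_lit 4672) (Tr.node (nat_lit 1920) (Tr.leaf (nat_lit 277946)) (Tr.leaf (nat_lit 277935))) (Tr.node (nat_lit 6464) (Tr.leaf (nat_lit 277919)) (Tr.node (nat_lit 5312) (Tr.leaf (nat_lit 69470)) (Tr.leaf (nat_lit 277852))))) (Tr.node (nat_lit 6272) (Tr.node (nat_lit 1472) (Tr.leaf (nat_lit 277820)) (Tr.node (nat_lit 128) (Tr.leaf (nat_lit 1085)) (Tr.leaf (nat_lit 1111246)))) (Tr.node (nat_lit 3136) (Tr.leaf (nat_lit 277784)) (Tr.node (nat_lit 4672) (Tr.leaf (nat_lit 277766)) (Tr.leaf (nat_lit 1110958))))))))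

noncomputable def jt241 : Tr :=
  (Tr.node (nat_lit 90304) (Tr.node (nat_lit 41088) (Tr.node (nat_lit 24192) (Tr.node (nat_lit 5888) (Tr.node (nat_lit 1152) (Tr.leaf (nat_lit 277710)) (Tr.leaf (nat_lit 1110815))) (Tr.node (nat_lit 4672) (Tr.leaf (nat_lit 277676)) (Tr.node (nat_lit 7808) (Tr.leaf (nat_lit 277649)) (Tr.leaf (nat_lit 277605))))) (Tr.node (nat_lit 12992) (Tr.node (nat_lit 8256) (Tr.leaf (nat_lit 4337)) (Tr.leaf (nat_lit 1110097))) (Tr.node (nat_lit 1152) (Tr.leaf (nat_lit 277497)) (Tr.node (nat_lit 1984) (Tr.leaf (nat_lit 277490)) (Tr.leaf (nat_lit 69369)))))) (Tr.node (nat_lit 11712) (Tr.node (nat_lit 768) (Tr.node (nat_lit 320) (Tr.leaf (nat_lit 277475)) (Tr.leaf (nat_lit 4335))) (Tr.node (nat_lit 6272) (Tr.leaf (nat_lit 277470)) (Tr.node (nat_lit 3072) (Tr.leaf (nat_lit 277434)) (Tr.leaf (nat_lit 277416))))) (Tr.node (nat_lit 26560) (Tr.node (nat_lit 14080) (Tr.leaf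 (nat_lit 277407)) (Tr.node (nat_lit 10112) (Tr.leaf (nat_lit 277327)) (Tr.leaf (nat_lit 69317)))) (Tr.node (nat_lit 8576) (Tr.leaf (nat_lit 277255)) (Tr.node (nat_lit 640) (Tr.leaf (nat_lit 277206)) (Tr.leaf (nat_lit 69300))))))) (Tr.node (nat_lit 59328) (Tr.node (nat_lit 21824) (Tr.node (nat_lit 8448) (Tr.node (nat_lit 1152) (Tr.leaf (nat_lit 277193)) (Tr.leaf (nat_lit 270))) (Tr.node (nat_lit 5568) (Tr.leaf (nat_lit 17321)) (Tr.node (nat_lit 3136) (Tr.leaf (nat_lit 277112)) (Tr.leaf (nat_lit 4433514))))) (Tr.node (nat_lit 5120) (Tr.node (nat_lit 4480) (Tr.leaf (nat_lit 277067)) (Tr.node (nat_lit 256) (Tr.leaf (nat_lit 69260)) (Tr.leaf (nat_lit 277041)))) (Tr.node (nat_lit 8960) (Tr.leaf (nat_lit 277038)) (Tr.node (nat_lit 9344) (Tr.leaf (nat_lit 276987)) (Tr.leaf (nat_lit 276933)))))) (Tr.node (nat_lit 10880) (Tr.node (nat_lit 1536) (Tr.node (nat_lit 512) (Tr.leaf (nat_lit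 276853)) (Tr.leaf (nat_lit 69212))) (Tr.node (nat_lit 4672) (Tr.leaf (nat_lit 276844)) (Tr.node (nat_lit 1088) (Tr.leaf (nat_lit 4325)) (Tr.leaf (nat_lit 1081))))) (Tr.node (nat_lit 5504) (Tr.node (nat_lit 1856) (Tr.leaf (nat_lit 276791)) (Tr.node (nat_lit 1280) (Tr.leaf (nat_lit 69195)) (Tr.leaf (nat_lit 276773)))) (Tr.node (nat_lit 6208) (Tr.leaf (nat_lit 276759)) (Tr.node (nat_lit 5376) (Tr.leaf (nat_lit 276724)) (Tr.leaf (nat_lit 69173))))))))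

noncomputable def jt242 : Tr :=
  (Tr.node (nat_lit 98176) (Tr.node (nat_lit 51456) (Tr.node (nat_lit 35072) (Tr.node (nat_lit 20288) (Tr.node (nat_lit 10368) (Tr.leaf (nat_lit 276693)) (Tr.leaf (nat_lit 17289))) (Tr.node (nat_lit 2496) (Tr.leaf (nat_lit 276577)) (Tr.node (nat_lit 6848) (Tr.leaf (nat_lit 270)) (Tr.leaf (nat_lit 1106095))))) (Tr.node (nat_lit 8576) (Tr.node (nat_lit 768) (Tr.leaf (nat_lit 276492)) (Tr.leaf (nat_lit 69122))) (Tr.node (nat_lit 1920) (Tr.leaf (nat_lit 276443)) (Tr.node (nat_lit 1984) (Tr.leaf (nat_lit 69108)) (Tr.leaf (nat_lit 4319)))))) (Tr.node (nat_lit 24512) (Tr.node (nat_lit 16768) (Tr.node (nat_lit 9920) (Tr.leaf (nat_lit 276399)) (Tr.leaf (nat_lit 276342))) (Tr.node (nat_lit 1920) (Tr.leaf (nat_lit 276303)) (Tr.node (nat_lit 4672) (Tr.leaf (nat_lit 276292)) (Tr.leaf (nat_lit 276265))))) (Tr.node (nat_lit 9728) (Tr.node (nat_lit 384) (Tr.leaf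 (nat_lit 276259)) (Tr.node (nat_lit 4672) (Tr.leaf (nat_lit 276256)) (Tr.leaf (nat_lit 276230)))) (Tr.node (nat_lit 1216) (Tr.leaf (nat_lit 1104814)) (Tr.node (nat_lit 8128) (Tr.leaf (nat_lit 69049)) (Tr.leaf (nat_lit 276150))))))) (Tr.node (nat_lit 51328) (Tr.node (nat_lit 27968) (Tr.node (nat_lit 9344) (Tr.node (nat_lit 6976) (Tr.leaf (nat_lit 1104530)) (Tr.leaf (nat_lit 276092))) (Tr.node (nat_lit 4672) (Tr.leaf (nat_lit 276079)) (Tr.node (nat_lit 9216) (Tr.leaf (nat_lit 276052)) (Tr.leaf (nat_lit 269))))) (Tr.node (nat_lit 17920) (Tr.node (nat_lit 14016) (Tr.leaf (nat_lit 275972)) (Tr.node (nat_lit 1536) (Tr.leaf (nat_lit 275893)) (Tr.leaf (nat_lit 4414149)))) (Tr.node (nat_lit 704) (Tr.leaf (nat_lit 275871)) (Tr.node (nat_lit 2368) (Tr.leaf (nat_lit 68966)) (Tr.leaf (nat_lit 275853)))))) (Tr.node (nat_lit 20224) (Tr.node (nat_lit 4672) (Tr.node (nat_lit 1536) (Tr.leaf (nat_lit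 275840)) (Tr.leaf (nat_lit 275831))) (Tr.node (nat_lit 832) (Tr.leaf (nat_lit 1103253)) (Tr.node (nat_lit 8448) (Tr.leaf (nat_lit 68952)) (Tr.leaf (nat_lit 1103041))))) (Tr.node (nat_lit 17088) (Tr.node (nat_lit 3072) (Tr.leaf (nat_lit 275724)) (Tr.node (nat_lit 2304) (Tr.leaf (nat_lit 275707)) (Tr.leaf (nat_lit 275693)))) (Tr.node (nat_lit 3840) (Tr.leaf (nat_lit 275627)) (Tr.node (nat_lit 768) (Tr.leaf (nat_lit 275605)) (Tr.leaf (nat_lit 4409617))))))))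

noncomputable def jt243 : Tr :=
  (Tr.node (nat_lit 71424) (Tr.node (nat_lit 37248) (Tr.node (nat_lit 26624) (Tr.node (nat_lit 20224) (Tr.node (nat_lit 1536) (Tr.leaf (nat_lit 275574)) (Tr.leaf (nat_lit 275565))) (Tr.node (nat_lit 3072) (Tr.leaf (nat_lit 1101838)) (Tr.node (nat_lit 2304) (Tr.leaf (nat_lit 275442)) (Tr.leaf (nat_lit 275428))))) (Tr.node (nat_lit 2880) (Tr.node (nat_lit 576) (Tr.leaf (nat_lit 1075)) (Tr.leaf (nat_lit 275419))) (Tr.node (nat_lit 3136) (Tr.leaf (nat_lit 275406)) (Tr.node (nat_lit 2688) (Tr.leaf (nat_lit 1101556)) (Tr.leaf (nat_lit 275373)))))) (Tr.node (nat_lit 21696) (Tr.node (nat_lit 6592) (Tr.node (nat_lit 4672) (Tr.leaf (nat_lit 275362)) (Tr.leaf (nat_lit 275336))) (Tr.node (nat_lit 8960) (Tr.leaf (nat_lit 68831)) (Tr.node (nat_lit 4608) (Tr.leaf (nat_lit 275274)) (Tr.leaf (nat_lit 1100991))))) (Tr.node (nat_lit 5504) (Tr.node (nat_lit 1600)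 (Tr.leaf (nat_lit 4300)) (Tr.node (nat_lit 1536) (Tr.leaf (nat_lit 275230)) (Tr.leaf (nat_lit 275221)))) (Tr.node (nat_lit 768) (Tr.leaf (nat_lit 275208)) (Tr.node (nat_lit 4608) (Tr.leaf (nat_lit 1100814)) (Tr.leaf (nat_lit 1100709))))))) (Tr.node (nat_lit 44736) (Tr.node (nat_lit 18560) (Tr.node (nat_lit 7744) (Tr.node (nat_lit 4608) (Tr.leaf (nat_lit 275168)) (Tr.leaf (nat_lit 1100568))) (Tr.node (nat_lit 4608) (Tr.leaf (nat_lit 275124)) (Tr.node (nat_lit 1600) (Tr.leaf (nat_lit 275097)) (Tr.leaf (nat_lit 275089))))) (Tr.node (nat_lit 14912) (Tr.node (nat_lit 5440) (Tr.leaf (nat_lit 275062)) (Tr.node (nat_lit 512) (Tr.leaf (nat_lit 275031)) (Tr.leaf (nat_lit 4297)))) (Tr.node (nat_lit 10112) (Tr.leaf (nat_lit 68744)) (Tr.node (nat_lit 576) (Tr.leaf (nat_lit 68730)) (Tr.leaf (nat_lit 274917)))))) (Tr.node (nat_lit 24960) (Tr.node (nat_lit 6400) (Tr.node (nat_lit 192) (Tr.leaf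 (nat_lit 268)) (Tr.leaf (nat_lit 274913))) (Tr.node (nat_lit 768) (Tr.leaf (nat_lit 4398046)) (Tr.node (nat_lit 3968) (Tr.leaf (nat_lit 68718)) (Tr.leaf (nat_lit 17178))))) (Tr.node (nat_lit 18560) (Tr.node (nat_lit 768) (Tr.leaf (nat_lit 1099089)) (Tr.node (nat_lit 8512) (Tr.leaf (nat_lit 274767)) (Tr.leaf (nat_lit 274719)))) (Tr.node (nat_lit 2752) (Tr.leaf (nat_lit 274666)) (Tr.node (nat_lit 4224) (Tr.leaf (nat_lit 68662)) (Tr.leaf (nat_lit 274627))))))))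

noncomputable def jt244 : Tr :=
  (Tr.node (nat_lit 107392) (Tr.node (nat_lit 45056) (Tr.node (nat_lit 26240) (Tr.node (nat_lit 16960) (Tr.node (nat_lit 4608) (Tr.leaf (nat_lit 4393828)) (Tr.leaf (nat_lit 274587))) (Tr.node (nat_lit 1600) (Tr.leaf (nat_lit 274517)) (Tr.node (nat_lit 4608) (Tr.leaf (nat_lit 274508)) (Tr.leaf (nat_lit 274482))))) (Tr.node (nat_lit 4672) (Tr.node (nat_lit 2752) (Tr.leaf (nat_lit 274465)) (Tr.leaf (nat_lit 274449))) (Tr.node (nat_lit 9280) (Tr.leaf (nat_lit 1097755)) (Tr.node (nat_lit 4032) (Tr.leaf (nat_lit 274386)) (Tr.leaf (nat_lit 68590)))))) (Tr.node (nat_lit 29120) (Tr.node (nat_lit 10624) (Tr.node (nat_lit 5248) (Tr.leaf (nat_lit 4286)) (Tr.leaf (nat_lit 68582))) (Tr.node (nat_lit 3072) (Tr.leaf (nat_lit 274298)) (Tr.node (nat_lit 6976) (Tr.leaf (nat_lit 274281)) (Tr.leaf (nat_lit 274241))))) (Tr.node (nat_lit 24320) (Tr.node (nat_lit 4672)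 (Tr.leaf (nat_lit 4387096)) (Tr.node (nat_lit 10048) (Tr.leaf (nat_lit 274167)) (Tr.leaf (nat_lit 274110)))) (Tr.node (nat_lit 3520) (Tr.leaf (nat_lit 274055)) (Tr.node (nat_lit 4608) (Tr.leaf (nat_lit 274036)) (Tr.leaf (nat_lit 274009))))))) (Tr.node (nat_lit 34752) (Tr.node (nat_lit 20096) (Tr.node (nat_lit 10816) (Tr.node (nat_lit 6976) (Tr.leaf (nat_lit 274005)) (Tr.leaf (nat_lit 273966))) (Tr.node (nat_lit 1408) (Tr.leaf (nat_lit 273944)) (Tr.node (nat_lit 320) (Tr.leaf (nat_lit 68484)) (Tr.leaf (nat_lit 267))))) (Tr.node (nat_lit 5952) (Tr.node (nat_lit 1216) (Tr.leaf (nat_lit 273891)) (Tr.node (nat_lit 1088) (Tr.leaf (nat_lit 68471)) (Tr.leaf (nat_lit 273878)))) (Tr.node (nat_lit 4096) (Tr.leaf (nat_lit 4279)) (Tr.node (nat_lit 1536) (Tr.leaf (nat_lit 273835)) (Tr.leaf (nat_lit 273826)))))) (Tr.node (nat_lit 28736) (Tr.node (nat_lit 9280) (Tr.node (nat_lit 8512) (Tr.leaf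 (nat_lit 1095235)) (Tr.leaf (nat_lit 273760))) (Tr.node (nat_lit 14336) (Tr.leaf (nat_lit 273756)) (Tr.node (nat_lit 1088) (Tr.leaf (nat_lit 17104)) (Tr.leaf (nat_lit 1094677))))) (Tr.node (nat_lit 17536) (Tr.node (nat_lit 5184) (Tr.leaf (nat_lit 273646)) (Tr.node (nat_lit 4224) (Tr.leaf (nat_lit 273617)) (Tr.leaf (nat_lit 1068)))) (Tr.node (nat_lit 4608) (Tr.leaf (nat_lit 273547)) (Tr.node (nat_lit 1536) (Tr.leaf (nat_lit 273521)) (Tr.leaf (nat_lit 273512))))))))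

noncomputable def jt245 : Tr :=
  (Tr.node (nat_lit 90880) (Tr.node (nat_lit 26240) (Tr.node (nat_lit 9280) (Tr.node (nat_lit 4672) (Tr.node (nat_lit 1792) (Tr.leaf (nat_lit 273486)) (Tr.leaf (nat_lit 68369))) (Tr.node (nat_lit 768) (Tr.leaf (nat_lit 273460)) (Tr.node (nat_lit 2304) (Tr.leaf (nat_lit 273455)) (Tr.leaf (nat_lit 273442))))) (Tr.node (nat_lit 4608) (Tr.node (nat_lit 1024) (Tr.leaf (nat_lit 273434)) (Tr.leaf (nat_lit 4272))) (Tr.node (nat_lit 7744) (Tr.leaf (nat_lit 273408)) (Tr.node (nat_lit 1536) (Tr.leaf (nat_lit 273364)) (Tr.leaf (nat_lit 4373693)))))) (Tr.node (nat_lit 24640) (Tr.node (nat_lit 10752) (Tr.node (nat_lit 8640) (Tr.leaf (nat_lit 273338)) (Tr.leaf (nat_lit 68322))) (Tr.node (nat_lit 6912) (Tr.leaf (nat_lit 273277)) (Tr.node (nat_lit 832) (Tr.leaf (nat_lit 273238)) (Tr.leaf (nat_lit 273234))))) (Tr.node (nat_lit 7680) (Tr.node (nat_lit 4608) (Tr.leaf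 (nat_lit 273199)) (Tr.node (nat_lit 448) (Tr.leaf (nat_lit 273173)) (Tr.leaf (nat_lit 273170)))) (Tr.node (nat_lit 4608) (Tr.leaf (nat_lit 273155)) (Tr.node (nat_lit 6912) (Tr.leaf (nat_lit 1092519)) (Tr.leaf (nat_lit 273090))))))) (Tr.node (nat_lit 36928) (Tr.node (nat_lit 18432) (Tr.node (nat_lit 10752) (Tr.node (nat_lit 1152) (Tr.leaf (nat_lit 272973)) (Tr.leaf (nat_lit 272967))) (Tr.node (nat_lit 768) (Tr.leaf (nat_lit 272912)) (Tr.node (nat_lit 4928) (Tr.leaf (nat_lit 272908)) (Tr.leaf (nat_lit 1065))))) (Tr.node (nat_lit 9728) (Tr.node (nat_lit 3840) (Tr.leaf (nat_lit 1091478)) (Tr.node (nat_lit 2880) (Tr.leaf (nat_lit 272847)) (Tr.leaf (nat_lit 272831)))) (Tr.node (nat_lit 1088) (Tr.leaf (nat_lit 68203)) (Tr.node (nat_lit 768) (Tr.leaf (nat_lit 272808)) (Tr.leaf (nat_lit 272804)))))) (Tr.node (nat_lit 23040) (Tr.node (nat_lit 6144) (Tr.node (nat_lit 1536) (Tr.leaf (nat_lit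 272765)) (Tr.leaf (nat_lit 272756))) (Tr.node (nat_lit 7680) (Tr.leaf (nat_lit 1090923)) (Tr.node (nat_lit 1536) (Tr.leaf (nat_lit 272687)) (Tr.leaf (nat_lit 272679))))) (Tr.node (nat_lit 10752) (Tr.node (nat_lit 1536) (Tr.leaf (nat_lit 272635)) (Tr.node (nat_lit 2112) (Tr.leaf (nat_lit 272627)) (Tr.leaf (nat_lit 17038)))) (Tr.node (nat_lit 3072) (Tr.leaf (nat_lit 272575)) (Tr.node (nat_lit 6144) (Tr.leaf (nat_lit 272557)) (Tr.leaf (nat_lit 4360372))))))))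

noncomputable def jt246 : Tr :=
  (Tr.node (nat_lit 101248) (Tr.node (nat_lit 50624) (Tr.node (nat_lit 21504) (Tr.node (nat_lit 9216) (Tr.node (nat_lit 3072) (Tr.leaf (nat_lit 272471)) (Tr.leaf (nat_lit 1089816))) (Tr.node (nat_lit 7680) (Tr.leaf (nat_lit 272419)) (Tr.node (nat_lit 1536) (Tr.leaf (nat_lit 272376)) (Tr.leaf (nat_lit 272367))))) (Tr.node (nat_lit 5760) (Tr.node (nat_lit 3840) (Tr.leaf (nat_lit 1089401)) (Tr.leaf (nat_lit 272328))) (Tr.node (nat_lit 14464) (Tr.leaf (nat_lit 272318)) (Tr.node (nat_lit 7360) (Tr.leaf (nat_lit 1063)) (Tr.leaf (nat_lit 272195)))))) (Tr.node (nat_lit 13824) (Tr.node (nat_lit 4608) (Tr.node (nat_lit 3136) (Tr.leaf (nat_lit 272186)) (Tr.leaf (nat_lit 265))) (Tr.node (nat_lit 4608) (Tr.leaf (nat_lit 272160)) (Tr.node (nat_lit 2624) (Tr.leaf (nat_lit 272134)) (Tr.leaf (nat_lit 68029))))) (Tr.node (nat_lit 13760) (Tr.node (nat_lit 3072)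 (Tr.leaf (nat_lit 1088435)) (Tr.node (nat_lit 9408) (Tr.leaf (nat_lit 1088366)) (Tr.leaf (nat_lit 4250)))) (Tr.node (nat_lit 13824) (Tr.leaf (nat_lit 272031)) (Tr.node (nat_lit 6848) (Tr.leaf (nat_lit 271953)) (Tr.leaf (nat_lit 4248))))))) (Tr.node (nat_lit 46720) (Tr.node (nat_lit 26624) (Tr.node (nat_lit 4864) (Tr.node (nat_lit 4544) (Tr.leaf (nat_lit 1087608)) (Tr.leaf (nat_lit 271876))) (Tr.node (nat_lit 7360) (Tr.leaf (nat_lit 16992)) (Tr.node (nat_lit 6144) (Tr.leaf (nat_lit 4349333)) (Tr.leaf (nat_lit 271798))))) (Tr.node (nat_lit 10432) (Tr.node (nat_lit 2816) (Tr.leaf (nat_lit 271752)) (Tr.node (nat_lit 7296) (Tr.leaf (nat_lit 271736)) (Tr.leaf (nat_lit 17388531)))) (Tr.node (nat_lit 3392) (Tr.leaf (nat_lit 67923)) (Tr.node (nat_lit 5504) (Tr.leaf (nat_lit 265)) (Tr.leaf (nat_lit 271644)))))) (Tr.node (nat_lit 21760) (Tr.node (nat_lit 3776) (Tr.node (nat_lit 2240) (Tr.leaf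 (nat_lit 271639)) (Tr.leaf (nat_lit 1086508))) (Tr.node (nat_lit 4608) (Tr.leaf (nat_lit 1086473)) (Tr.node (nat_lit 3072) (Tr.leaf (nat_lit 271592)) (Tr.leaf (nat_lit 271575))))) (Tr.node (nat_lit 26432) (Tr.node (nat_lit 8064) (Tr.leaf (nat_lit 67879)) (Tr.node (nat_lit 9152) (Tr.leaf (nat_lit 271472)) (Tr.leaf (nat_lit 4342737)))) (Tr.node (nat_lit 1536) (Tr.leaf (nat_lit 1085478)) (Tr.node (nat_lit 4544) (Tr.leaf (nat_lit 271361)) (Tr.leaf (nat_lit 271335))))))))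

noncomputable def jt247 : Tr :=
  (Tr.node (nat_lit 62720) (Tr.node (nat_lit 31360) (Tr.node (nat_lit 9152) (Tr.node (nat_lit 3136) (Tr.node (nat_lit 832) (Tr.leaf (nat_lit 16956)) (Tr.leaf (nat_lit 271296))) (Tr.node (nat_lit 3008) (Tr.leaf (nat_lit 1085135)) (Tr.node (nat_lit 384) (Tr.leaf (nat_lit 271266)) (Tr.leaf (nat_lit 271264))))) (Tr.node (nat_lit 6208) (Tr.node (nat_lit 3136) (Tr.leaf (nat_lit 67812)) (Tr.leaf (nat_lit 271232))) (Tr.node (nat_lit 6080) (Tr.leaf (nat_lit 1084861)) (Tr.node (nat_lit 3072) (Tr.leaf (nat_lit 271181)) (Tr.leaf (nat_lit 271164)))))) (Tr.node (nat_lit 12992) (Tr.node (nat_lit 9664) (Tr.node (nat_lit 8448) (Tr.leaf (nat_lit 271125)) (Tr.leaf (nat_lit 1084313))) (Tr.node (nat_lit 960) (Tr.leaf (nat_lit 1058)) (Tr.node (nat_lit 832) (Tr.leaf (nat_lit 67766)) (Tr.leaf (nat_lit 271061))))) (Tr.node (nat_lit 13760) (Tr.node (nat_lit 640) (Tr.leaf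 (nat_lit 271052)) (Tr.node (nat_lit 8000) (Tr.leaf (nat_lit 67762)) (Tr.leaf (nat_lit 264)))) (Tr.node (nat_lit 1088) (Tr.leaf (nat_lit 1083903)) (Tr.node (nat_lit 2496) (Tr.leaf (nat_lit 67742)) (Tr.leaf (nat_lit 67738))))))) (Tr.node (nat_lit 46528) (Tr.node (nat_lit 16000) (Tr.node (nat_lit 4544) (Tr.node (nat_lit 3008) (Tr.leaf (nat_lit 270950)) (Tr.leaf (nat_lit 270933))) (Tr.node (nat_lit 3072) (Tr.leaf (nat_lit 270924)) (Tr.node (nat_lit 6848) (Tr.leaf (nat_lit 270907)) (Tr.leaf (nat_lit 270869))))) (Tr.node (nat_lit 16000) (Tr.node (nat_lit 768) (Tr.leaf (nat_lit 270860)) (Tr.node (nat_lit 4608) (Tr.leaf (nat_lit 270856)) (Tr.leaf (nat_lit 270830)))) (Tr.node (nat_lit 3072) (Tr.leaf (nat_lit 1083083)) (Tr.node (nat_lit 9152) (Tr.leaf (nat_lit 270753)) (Tr.leaf (nat_lit 270702)))))) (Tr.node (nat_lit 16000) (Tr.node (nat_lit 6848) (Tr.node (nat_lit 2304) (Tr.leaf (nat_lit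 4229)) (Tr.leaf (nat_lit 270676))) (Tr.node (nat_lit 448) (Tr.leaf (nat_lit 270651)) (Tr.node (nat_lit 5696) (Tr.leaf (nat_lit 270649)) (Tr.leaf (nat_lit 270617))))) (Tr.node (nat_lit 9152) (Tr.node (nat_lit 1536) (Tr.leaf (nat_lit 69273666)) (Tr.node (nat_lit 4544) (Tr.leaf (nat_lit 270591)) (Tr.leaf (nat_lit 270566)))) (Tr.node (nat_lit 704) (Tr.leaf (nat_lit 1082196)) (Tr.node (nat_lit 13056) (Tr.leaf (nat_lit 67636)) (Tr.leaf (nat_lit 270472))))))))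

noncomputable def jt248 : Tr :=
  (Tr.node (nat_lit 78400) (Tr.node (nat_lit 45696) (Tr.node (nat_lit 21312) (Tr.node (nat_lit 9152) (Tr.node (nat_lit 4224) (Tr.leaf (nat_lit 270412)) (Tr.leaf (nat_lit 270389))) (Tr.node (nat_lit 5696) (Tr.leaf (nat_lit 1081447)) (Tr.node (nat_lit 1024) (Tr.leaf (nat_lit 67582)) (Tr.leaf (nat_lit 16895))))) (Tr.node (nat_lit 10688) (Tr.node (nat_lit 6144) (Tr.leaf (nat_lit 1081174)) (Tr.node (nat_lit 3008) (Tr.leaf (nat_lit 1081038)) (Tr.leaf (nat_lit 270242)))) (Tr.node (nat_lit 4544) (Tr.leaf (nat_lit 270234)) (Tr.node (nat_lit 3072) (Tr.leaf (nat_lit 1080834)) (Tr.leaf (nat_lit 1080766)))))) (Tr.node (nat_lit 13760) (Tr.node (nat_lit 2304) (Tr.node (nat_lit 1344) (Tr.leaf (nat_lit 270157)) (Tr.leaf (nat_lit 270150))) (Tr.node (nat_lit 768) (Tr.leaf (nat_lit 270144)) (Tr.node (nat_lit 9088) (Tr.leaf (nat_lit 270140)) (Tr.leaf (nat_lit 270089)))))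 (Tr.node (nat_lit 12480) (Tr.node (nat_lit 7552) (Tr.leaf (nat_lit 4220)) (Tr.node (nat_lit 3840) (Tr.leaf (nat_lit 270038)) (Tr.leaf (nat_lit 270017)))) (Tr.node (nat_lit 1152) (Tr.leaf (nat_lit 270011)) (Tr.node (nat_lit 3072) (Tr.leaf (nat_lit 1054)) (Tr.leaf (nat_lit 1079951))))))) (Tr.node (nat_lit 52480) (Tr.node (nat_lit 8384) (Tr.node (nat_lit 5824) (Tr.node (nat_lit 3840) (Tr.leaf (nat_lit 269975)) (Tr.leaf (nat_lit 1079815))) (Tr.node (nat_lit 1024) (Tr.leaf (nat_lit 67485)) (Tr.node (nat_lit 1024) (Tr.leaf (nat_lit 269936)) (Tr.leaf (nat_lit 67482))))) (Tr.node (nat_lit 16768) (Tr.node (nat_lit 13696) (Tr.leaf (nat_lit 269928)) (Tr.node (nat_lit 768) (Tr.leaf (nat_lit 1079408)) (Tr.leaf (nat_lit 269847)))) (Tr.node (nat_lit 4544) (Tr.leaf (nat_lit 269835)) (Tr.node (nat_lit 4544) (Tr.leaf (nat_lit 269809)) (Tr.leaf (nat_lit 4316550)))))) (Tr.node (nat_lit 15232) (Tr.node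 (nat_lit 5312) (Tr.node (nat_lit 4544) (Tr.leaf (nat_lit 269682)) (Tr.leaf (nat_lit 269657))) (Tr.node (nat_lit 1536) (Tr.leaf (nat_lit 67413)) (Tr.node (nat_lit 2304) (Tr.leaf (nat_lit 269644)) (Tr.leaf (nat_lit 269631))))) (Tr.node (nat_lit 12160) (Tr.node (nat_lit 3008) (Tr.leaf (nat_lit 269598)) (Tr.node (nat_lit 8960) (Tr.leaf (nat_lit 1078324)) (Tr.leaf (nat_lit 4211)))) (Tr.node (nat_lit 1472) (Tr.leaf (nat_lit 269530)) (Tr.node (nat_lit 2304) (Tr.leaf (nat_lit 269521)) (Tr.leaf (nat_lit 269509))))))))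

noncomputable def jt249 : Tr :=
  (Tr.node (nat_lit 82688) (Tr.node (nat_lit 27008) (Tr.node (nat_lit 12160) (Tr.node (nat_lit 5312) (Tr.node (nat_lit 3008) (Tr.leaf (nat_lit 1077783)) (Tr.leaf (nat_lit 269428))) (Tr.node (nat_lit 2240) (Tr.leaf (nat_lit 269416)) (Tr.node (nat_lit 1536) (Tr.leaf (nat_lit 269403)) (Tr.leaf (nat_lit 269395))))) (Tr.node (nat_lit 6016) (Tr.node (nat_lit 1472) (Tr.leaf (nat_lit 1077513)) (Tr.leaf (nat_lit 269369))) (Tr.node (nat_lit 3072) (Tr.leaf (nat_lit 1077377)) (Tr.node (nat_lit 832) (Tr.leaf (nat_lit 269327)) (Tr.leaf (nat_lit 67330)))))) (Tr.node (nat_lit 23040) (Tr.node (nat_lit 4864) (Tr.node (nat_lit 320) (Tr.leaf (nat_lit 262)) (Tr.leaf (nat_lit 269293))) (Tr.node (nat_lit 8384) (Tr.leaf (nat_lit 269268)) (Tr.node (nat_lit 5248) (Tr.leaf (nat_lit 262)) (Tr.leaf (nat_lit 269192))))) (Tr.node (nat_lit 18240) (Tr.node (nat_lit 3072) (Tr.leaf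 (nat_lit 269167)) (Tr.node (nat_lit 10624) (Tr.leaf (nat_lit 269150)) (Tr.leaf (nat_lit 269091)))) (Tr.node (nat_lit 4544) (Tr.leaf (nat_lit 269066)) (Tr.node (nat_lit 9088) (Tr.leaf (nat_lit 1076163)) (Tr.leaf (nat_lit 268990))))))) (Tr.node (nat_lit 47744) (Tr.node (nat_lit 14912) (Tr.node (nat_lit 3264) (Tr.node (nat_lit 2240) (Tr.leaf (nat_lit 268986)) (Tr.leaf (nat_lit 4303574))) (Tr.node (nat_lit 3520) (Tr.leaf (nat_lit 16810)) (Tr.node (nat_lit 3648) (Tr.leaf (nat_lit 268948)) (Tr.leaf (nat_lit 67231))))) (Tr.node (nat_lit 14656) (Tr.node (nat_lit 5504) (Tr.leaf (nat_lit 1050)) (Tr.node (nat_lit 6080) (Tr.leaf (nat_lit 1075489)) (Tr.leaf (nat_lit 1075354)))) (Tr.node (nat_lit 6016) (Tr.leaf (nat_lit 268821)) (Tr.node (nat_lit 10368) (Tr.leaf (nat_lit 67197)) (Tr.leaf (nat_lit 67182)))))) (Tr.node (nat_lit 23040) (Tr.node (nat_lit 13568) (Tr.node (nat_lit 9024) (Tr.leaf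 (nat_lit 268720)) (Tr.leaf (nat_lit 268670))) (Tr.node (nat_lit 1536) (Tr.leaf (nat_lit 268645)) (Tr.node (nat_lit 3008) (Tr.leaf (nat_lit 1074547)) (Tr.leaf (nat_lit 268620))))) (Tr.node (nat_lit 7936) (Tr.node (nat_lit 1792) (Tr.leaf (nat_lit 268592)) (Tr.node (nat_lit 2368) (Tr.leaf (nat_lit 67145)) (Tr.leaf (nat_lit 1074278)))) (Tr.node (nat_lit 9856) (Tr.leaf (nat_lit 268548)) (Tr.node (nat_lit 1536) (Tr.leaf (nat_lit 268494)) (Tr.leaf (nat_lit 268485))))))))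

noncomputable def jt250 : Tr :=
  (Tr.node (nat_lit 65344) (Tr.node (nat_lit 25280) (Tr.node (nat_lit 13952) (Tr.node (nat_lit 6400) (Tr.node (nat_lit 1856) (Tr.leaf (nat_lit 4194)) (Tr.leaf (nat_lit 268460))) (Tr.node (nat_lit 4672) (Tr.leaf (nat_lit 68719476)) (Tr.node (nat_lit 2112) (Tr.leaf (nat_lit 268409)) (Tr.leaf (nat_lit 268397))))) (Tr.node (nat_lit 3776) (Tr.node (nat_lit 1472) (Tr.leaf (nat_lit 268393)) (Tr.leaf (nat_lit 268385))) (Tr.node (nat_lit 5312) (Tr.leaf (nat_lit 268372)) (Tr.node (nat_lit 1088) (Tr.leaf (nat_lit 268343)) (Tr.leaf (nat_lit 67084)))))) (Tr.node (nat_lit 26432) (Tr.node (nat_lit 8320) (Tr.node (nat_lit 3776) (Tr.leaf (nat_lit 268330)) (Tr.leaf (nat_lit 268309))) (Tr.node (nat_lit 4544) (Tr.leaf (nat_lit 268284)) (Tr.node (nat_lit 7552) (Tr.leaf (nat_lit 268259)) (Tr.leaf (nat_lit 268217))))) (Tr.node (nat_lit 11328) (Tr.node (nat_lit 7552)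 (Tr.leaf (nat_lit 268184)) (Tr.node (nat_lit 1536) (Tr.leaf (nat_lit 268142)) (Tr.leaf (nat_lit 268133)))) (Tr.node (nat_lit 768) (Tr.leaf (nat_lit 268121)) (Tr.node (nat_lit 512) (Tr.leaf (nat_lit 268117)) (Tr.leaf (nat_lit 67028))))))) (Tr.node (nat_lit 58880) (Tr.node (nat_lit 31744) (Tr.node (nat_lit 7552) (Tr.node (nat_lit 4544) (Tr.leaf (nat_lit 268108)) (Tr.leaf (nat_lit 268083))) (Tr.node (nat_lit 6016) (Tr.leaf (nat_lit 268066)) (Tr.node (nat_lit 7552) (Tr.leaf (nat_lit 1072133)) (Tr.leaf (nat_lit 267991))))) (Tr.node (nat_lit 12032) (Tr.node (nat_lit 768) (Tr.leaf (nat_lit 1071732)) (Tr.node (nat_lit 4160) (Tr.leaf (nat_lit 66982)) (Tr.leaf (nat_lit 66976)))) (Tr.node (nat_lit 6080) (Tr.leaf (nat_lit 267866)) (Tr.node (nat_lit 4480) (Tr.leaf (nat_lit 1071331)) (Tr.leaf (nat_lit 267807)))))) (Tr.node (nat_lit 18112) (Tr.node (nat_lit 12096) (Tr.node (nat_lit 9152) (Tr.leaf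 (nat_lit 267782)) (Tr.leaf (nat_lit 261))) (Tr.node (nat_lit 2240) (Tr.leaf (nat_lit 267715)) (Tr.node (nat_lit 3520) (Tr.leaf (nat_lit 267703)) (Tr.leaf (nat_lit 66920))))) (Tr.node (nat_lit 12096) (Tr.node (nat_lit 5632) (Tr.leaf (nat_lit 267682)) (Tr.node (nat_lit 3392) (Tr.leaf (nat_lit 267651)) (Tr.leaf (nat_lit 4282120)))) (Tr.node (nat_lit 6016) (Tr.leaf (nat_lit 267615)) (Tr.node (nat_lit 12032) (Tr.leaf (nat_lit 267582)) (Tr.leaf (nat_lit 1070063))))))))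

noncomputable def jt251 : Tr :=
  (Tr.node (nat_lit 78784) (Tr.node (nat_lit 48640) (Tr.node (nat_lit 25152) (Tr.node (nat_lit 8768) (Tr.node (nat_lit 3456) (Tr.leaf (nat_lit 4179)) (Tr.leaf (nat_lit 267495))) (Tr.node (nat_lit 4736) (Tr.leaf (nat_lit 1069863)) (Tr.node (nat_lit 5760) (Tr.leaf (nat_lit 66859)) (Tr.leaf (nat_lit 267407))))) (Tr.node (nat_lit 6208) (Tr.node (nat_lit 3200) (Tr.leaf (nat_lit 4177)) (Tr.leaf (nat_lit 267357))) (Tr.node (nat_lit 13440) (Tr.leaf (nat_lit 267341)) (Tr.node (nat_lit 1024) (Tr.leaf (nat_lit 261)) (Tr.leaf (nat_lit 267260)))))) (Tr.node (nat_lit 11712) (Tr.node (nat_lit 6784) (Tr.node (nat_lit 2304) (Tr.leaf (nat_lit 267245)) (Tr.leaf (nat_lit 4275726))) (Tr.node (nat_lit 768) (Tr.leaf (nat_lit 267207)) (Tr.node (nat_lit 1664) (Tr.leaf (nat_lit 267203)) (Tr.leaf (nat_lit 66798))))) (Tr.node (nat_lit 8640) (Tr.node (nat_lit 4096) (Tr.leaf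 (nat_lit 16698)) (Tr.node (nat_lit 3072) (Tr.leaf (nat_lit 267158)) (Tr.leaf (nat_lit 267141)))) (Tr.node (nat_lit 3008) (Tr.leaf (nat_lit 267133)) (Tr.node (nat_lit 6016) (Tr.leaf (nat_lit 267116)) (Tr.leaf (nat_lit 267083))))))) (Tr.node (nat_lit 48192) (Tr.node (nat_lit 11264) (Tr.node (nat_lit 3776) (Tr.node (nat_lit 2240) (Tr.leaf (nat_lit 267079)) (Tr.leaf (nat_lit 1068266))) (Tr.node (nat_lit 5248) (Tr.leaf (nat_lit 267058)) (Tr.node (nat_lit 1728) (Tr.leaf (nat_lit 267029)) (Tr.leaf (nat_lit 66754))))) (Tr.node (nat_lit 22592) (Tr.node (nat_lit 9024) (Tr.leaf (nat_lit 267016)) (Tr.node (nat_lit 11456) (Tr.leaf (nat_lit 1067868)) (Tr.leaf (nat_lit 66726)))) (Tr.node (nat_lit 1472) (Tr.leaf (nat_lit 266892)) (Tr.node (nat_lit 9024) (Tr.leaf (nat_lit 1067536)) (Tr.leaf (nat_lit 4269351)))))) (Tr.node (nat_lit 23232) (Tr.node (nat_lit 5184) (Tr.node (nat_lit 704) (Tr.leaf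 (nat_lit 66703)) (Tr.leaf (nat_lit 266809))) (Tr.node (nat_lit 3008) (Tr.leaf (nat_lit 266784)) (Tr.node (nat_lit 10560) (Tr.leaf (nat_lit 4268290)) (Tr.leaf (nat_lit 333387))))) (Tr.node (nat_lit 11264) (Tr.node (nat_lit 3008) (Tr.leaf (nat_lit 266685)) (Tr.node (nat_lit 4544) (Tr.leaf (nat_lit 266668)) (Tr.leaf (nat_lit 266643)))) (Tr.node (nat_lit 768) (Tr.leaf (nat_lit 266623)) (Tr.node (nat_lit 1536) (Tr.leaf (nat_lit 266619)) (Tr.leaf (nat_lit 266610))))))))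

noncomputable def jt252 : Tr :=
  (Tr.node (nat_lit 62464) (Tr.node (nat_lit 29632) (Tr.node (nat_lit 15296) (Tr.node (nat_lit 4480) (Tr.node (nat_lit 1472) (Tr.leaf (nat_lit 4265111)) (Tr.leaf (nat_lit 266561))) (Tr.node (nat_lit 3520) (Tr.leaf (nat_lit 266544)) (Tr.node (nat_lit 7040) (Tr.leaf (nat_lit 260)) (Tr.leaf (nat_lit 266486))))) (Tr.node (nat_lit 2752) (Tr.node (nat_lit 1472) (Tr.leaf (nat_lit 16655)) (Tr.leaf (nat_lit 66619))) (Tr.node (nat_lit 5952) (Tr.leaf (nat_lit 266470)) (Tr.node (nat_lit 3008) (Tr.leaf (nat_lit 4262994)) (Tr.leaf (nat_lit 1065682)))))) (Tr.node (nat_lit 7872) (Tr.node (nat_lit 3520) (Tr.node (nat_lit 3392) (Tr.leaf (nat_lit 266406)) (Tr.leaf (nat_lit 266387))) (Tr.node (nat_lit 640) (Tr.leaf (nat_lit 66596)) (Tr.node (nat_lit 2240) (Tr.leaf (nat_lit 266383)) (Tr.leaf (nat_lit 1065484))))) (Tr.node (nat_lit 20288) (Tr.node (nat_lit 5312) (Tr.leaf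 (nat_lit 266362)) (Tr.node (nat_lit 8256) (Tr.leaf (nat_lit 266333)) (Tr.leaf (nat_lit 266288)))) (Tr.node (nat_lit 768) (Tr.leaf (nat_lit 266251)) (Tr.node (nat_lit 1472) (Tr.leaf (nat_lit 266247)) (Tr.leaf (nat_lit 1064955))))))) (Tr.node (nat_lit 38080) (Tr.node (nat_lit 15552) (Tr.node (nat_lit 9600) (Tr.node (nat_lit 5056) (Tr.leaf (nat_lit 266225)) (Tr.leaf (nat_lit 266197))) (Tr.node (nat_lit 1408) (Tr.leaf (nat_lit 1064691)) (Tr.node (nat_lit 3072) (Tr.leaf (nat_lit 1039)) (Tr.leaf (nat_lit 266148))))) (Tr.node (nat_lit 13504) (Tr.node (nat_lit 4160) (Tr.leaf (nat_lit 266139)) (Tr.node (nat_lit 384) (Tr.leaf (nat_lit 266117)) (Tr.leaf (nat_lit 266115)))) (Tr.node (nat_lit 2624) (Tr.leaf (nat_lit 266065)) (Tr.node (nat_lit 4928) (Tr.leaf (nat_lit 66512)) (Tr.leaf (nat_lit 266024)))))) (Tr.node (nat_lit 29184) (Tr.node (nat_lit 7488) (Tr.node (nat_lit 4480) (Tr.leaf (nat_lit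 266016)) (Tr.leaf (nat_lit 265991))) (Tr.node (nat_lit 9024) (Tr.leaf (nat_lit 1063900)) (Tr.node (nat_lit 5952) (Tr.leaf (nat_lit 265925)) (Tr.leaf (nat_lit 265892))))) (Tr.node (nat_lit 6784) (Tr.node (nat_lit 2304) (Tr.leaf (nat_lit 16615)) (Tr.node (nat_lit 2944) (Tr.leaf (nat_lit 1063373)) (Tr.leaf (nat_lit 265827)))) (Tr.node (nat_lit 5248) (Tr.leaf (nat_lit 265818)) (Tr.node (nat_lit 8256) (Tr.leaf (nat_lit 4152)) (Tr.leaf (nat_lit 265744))))))))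

noncomputable def jt253 : Tr :=
  (Tr.node (nat_lit 65472) (Tr.node (nat_lit 35584) (Tr.node (nat_lit 14592) (Tr.node (nat_lit 5184) (Tr.node (nat_lit 2624) (Tr.leaf (nat_lit 66435)) (Tr.leaf (nat_lit 265728))) (Tr.node (nat_lit 64) (Tr.leaf (nat_lit 259)) (Tr.node (nat_lit 7872) (Tr.leaf (nat_lit 265713)) (Tr.leaf (nat_lit 265670))))) (Tr.node (nat_lit 5248) (Tr.node (nat_lit 1536) (Tr.leaf (nat_lit 66415)) (Tr.leaf (nat_lit 265654))) (Tr.node (nat_lit 6784) (Tr.leaf (nat_lit 265633)) (Tr.node (nat_lit 2944) (Tr.leaf (nat_lit 265596)) (Tr.leaf (nat_lit 1062321)))))) (Tr.node (nat_lit 13440) (Tr.node (nat_lit 4480) (Tr.node (nat_lit 960) (Tr.leaf (nat_lit 265547)) (Tr.leaf (nat_lit 66385))) (Tr.node (nat_lit 4480) (Tr.leaf (nat_lit 265523)) (Tr.node (nat_lit 3008) (Tr.leaf (nat_lit 265498)) (Tr.leaf (nat_lit 265481))))) (Tr.node (nat_lit 7488) (Tr.node (nat_lit 768) (Tr.leaf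 (nat_lit 265473)) (Tr.node (nat_lit 3712) (Tr.leaf (nat_lit 265469)) (Tr.leaf (nat_lit 1061796)))) (Tr.node (nat_lit 2176) (Tr.leaf (nat_lit 265432)) (Tr.node (nat_lit 6080) (Tr.leaf (nat_lit 259)) (Tr.leaf (nat_lit 265387))))))) (Tr.node (nat_lit 49728) (Tr.node (nat_lit 22464) (Tr.node (nat_lit 10496) (Tr.node (nat_lit 6016) (Tr.leaf (nat_lit 4246136)) (Tr.leaf (nat_lit 265350))) (Tr.node (nat_lit 3328) (Tr.leaf (nat_lit 1061304)) (Tr.node (nat_lit 1920) (Tr.leaf (nat_lit 4145)) (Tr.leaf (nat_lit 265297))))) (Tr.node (nat_lit 19392) (Tr.node (nat_lit 1472) (Tr.leaf (nat_lit 265260)) (Tr.node (nat_lit 7488) (Tr.leaf (nat_lit 16976155)) (Tr.leaf (nat_lit 265211)))) (Tr.node (nat_lit 3008) (Tr.leaf (nat_lit 1060616)) (Tr.node (nat_lit 4032) (Tr.leaf (nat_lit 265137)) (Tr.leaf (nat_lit 258)))))) (Tr.node (nat_lit 23552) (Tr.node (nat_lit 4096) (Tr.node (nat_lit 1152) (Tr.leaf (nat_lit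 265111)) (Tr.leaf (nat_lit 265105))) (Tr.node (nat_lit 3392) (Tr.leaf (nat_lit 265088)) (Tr.node (nat_lit 11584) (Tr.leaf (nat_lit 265070)) (Tr.leaf (nat_lit 265006))))) (Tr.node (nat_lit 13440) (Tr.node (nat_lit 7232) (Tr.leaf (nat_lit 264982)) (Tr.node (nat_lit 4672) (Tr.leaf (nat_lit 264942)) (Tr.leaf (nat_lit 264917)))) (Tr.node (nat_lit 2240) (Tr.leaf (nat_lit 264908)) (Tr.node (nat_lit 704) (Tr.leaf (nat_lit 264896)) (Tr.leaf (nat_lit 1059570))))))))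

noncomputable def jt254 : Tr :=
  (Tr.node (nat_lit 82048) (Tr.node (nat_lit 31360) (Tr.node (nat_lit 15552) (Tr.node (nat_lit 3904) (Tr.node (nat_lit 1536) (Tr.leaf (nat_lit 264868)) (Tr.leaf (nat_lit 1059439))) (Tr.node (nat_lit 2048) (Tr.leaf (nat_lit 66211)) (Tr.node (nat_lit 7488) (Tr.leaf (nat_lit 264835)) (Tr.leaf (nat_lit 1059178))))) (Tr.node (nat_lit 3840) (Tr.node (nat_lit 128) (Tr.leaf (nat_lit 66195)) (Tr.leaf (nat_lit 264782))) (Tr.node (nat_lit 8000) (Tr.leaf (nat_lit 264761)) (Tr.node (nat_lit 960) (Tr.leaf (nat_lit 16544)) (Tr.leaf (nat_lit 1058851)))))) (Tr.node (nat_lit 17856) (Tr.node (nat_lit 6848) (Tr.node (nat_lit 1472) (Tr.leaf (nat_lit 1058786)) (Tr.leaf (nat_lit 264688))) (Tr.node (nat_lit 1152) (Tr.leaf (nat_lit 258)) (Tr.node (nat_lit 5440) (Tr.leaf (nat_lit 4135)) (Tr.leaf (nat_lit 264623))))) (Tr.node (nat_lit 14912) (Tr.node (nat_lit 1536) (Tr.leaf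 (nat_lit 1058395)) (Tr.node (nat_lit 4480) (Tr.leaf (nat_lit 264590)) (Tr.leaf (nat_lit 264566)))) (Tr.node (nat_lit 11968) (Tr.leaf (nat_lit 264517)) (Tr.node (nat_lit 4480) (Tr.leaf (nat_lit 264452)) (Tr.leaf (nat_lit 264427))))))) (Tr.node (nat_lit 38720) (Tr.node (nat_lit 13568) (Tr.node (nat_lit 2944) (Tr.node (nat_lit 2240) (Tr.leaf (nat_lit 264419)) (Tr.leaf (nat_lit 264407))) (Tr.node (nat_lit 6016) (Tr.leaf (nat_lit 1057613)) (Tr.node (nat_lit 4416) (Tr.leaf (nat_lit 264370)) (Tr.leaf (nat_lit 264346))))) (Tr.node (nat_lit 20672) (Tr.node (nat_lit 7296) (Tr.leaf (nat_lit 66086)) (Tr.node (nat_lit 5952) (Tr.leaf (nat_lit 4228890)) (Tr.leaf (nat_lit 1057092)))) (Tr.node (nat_lit 1472) (Tr.leaf (nat_lit 264232)) (Tr.node (nat_lit 2560) (Tr.leaf (nat_lit 264224)) (Tr.leaf (nat_lit 66052)))))) (Tr.node (nat_lit 19328) (Tr.node (nat_lit 4480) (Tr.node (nat_lit 1472) (Tr.leaf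 (nat_lit 16909320)) (Tr.leaf (nat_lit 264199))) (Tr.node (nat_lit 4480) (Tr.leaf (nat_lit 264183)) (Tr.node (nat_lit 1088) (Tr.leaf (nat_lit 264159)) (Tr.leaf (nat_lit 264153))))) (Tr.node (nat_lit 20928) (Tr.node (nat_lit 7488) (Tr.leaf (nat_lit 264102)) (Tr.node (nat_lit 11136) (Tr.leaf (nat_lit 264061)) (Tr.leaf (nat_lit 264001)))) (Tr.node (nat_lit 4416) (Tr.leaf (nat_lit 263988)) (Tr.node (nat_lit 4416) (Tr.leaf (nat_lit 263964)) (Tr.leaf (nat_lit 263940))))))))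

noncomputable def jt255 : Tr :=
  (Tr.node (nat_lit 66880) (Tr.node (nat_lit 31232) (Tr.node (nat_lit 14976) (Tr.node (nat_lit 7488) (Tr.node (nat_lit 4480) (Tr.leaf (nat_lit 263907)) (Tr.leaf (nat_lit 1055533))) (Tr.node (nat_lit 1472) (Tr.leaf (nat_lit 263867)) (Tr.node (nat_lit 4416) (Tr.leaf (nat_lit 263859)) (Tr.leaf (nat_lit 263834))))) (Tr.node (nat_lit 5120) (Tr.node (nat_lit 1408) (Tr.leaf (nat_lit 1030)) (Tr.leaf (nat_lit 4221098))) (Tr.node (nat_lit 5184) (Tr.leaf (nat_lit 263798)) (Tr.node (nat_lit 3520) (Tr.leaf (nat_lit 263770)) (Tr.leaf (nat_lit 65937)))))) (Tr.node (nat_lit 17856) (Tr.node (nat_lit 8960) (Tr.node (nat_lit 7424) (Tr.leaf (nat_lit 263737)) (Tr.leaf (nat_lit 263697))) (Tr.node (nat_lit 1984) (Tr.leaf (nat_lit 4219024)) (Tr.node (nat_lit 256) (Tr.leaf (nat_lit 65919)) (Tr.leaf (nat_lit 16479))))) (Tr.node (nat_lit 11904) (Tr.node (nat_lit 4416) (Tr.leaf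 (nat_lit 263640)) (Tr.node (nat_lit 4480) (Tr.leaf (nat_lit 1054464)) (Tr.leaf (nat_lit 263591)))) (Tr.node (nat_lit 1472) (Tr.leaf (nat_lit 263575)) (Tr.node (nat_lit 4096) (Tr.leaf (nat_lit 263567)) (Tr.leaf (nat_lit 263545))))))) (Tr.node (nat_lit 49024) (Tr.node (nat_lit 34176) (Tr.node (nat_lit 26304) (Tr.node (nat_lit 5248) (Tr.leaf (nat_lit 263543)) (Tr.leaf (nat_lit 263515))) (Tr.node (nat_lit 3392) (Tr.leaf (nat_lit 65850)) (Tr.node (nat_lit 1536) (Tr.leaf (nat_lit 263381)) (Tr.leaf (nat_lit 263373))))) (Tr.node (nat_lit 8896) (Tr.node (nat_lit 1472) (Tr.leaf (nat_lit 263357)) (Tr.node (nat_lit 2944) (Tr.leaf (nat_lit 263349)) (Tr.leaf (nat_lit 1053333)))) (Tr.node (nat_lit 1472) (Tr.leaf (nat_lit 263309)) (Tr.node (nat_lit 3008) (Tr.leaf (nat_lit 1053204)) (Tr.leaf (nat_lit 263284)))))) (Tr.node (nat_lit 22208) (Tr.node (nat_lit 11520) (Tr.node (nat_lit 2752) (Tr.leaf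 (nat_lit 263276)) (Tr.leaf (nat_lit 257))) (Tr.node (nat_lit 320) (Tr.leaf (nat_lit 65803)) (Tr.node (nat_lit 3712) (Tr.leaf (nat_lit 263212)) (Tr.leaf (nat_lit 263192))))) (Tr.node (nat_lit 17792) (Tr.node (nat_lit 3008) (Tr.leaf (nat_lit 263155)) (Tr.node (nat_lit 3328) (Tr.leaf (nat_lit 263139)) (Tr.leaf (nat_lit 263121)))) (Tr.node (nat_lit 4480) (Tr.leaf (nat_lit 263059)) (Tr.node (nat_lit 2240) (Tr.leaf (nat_lit 263035)) (Tr.leaf (nat_lit 263022))))))))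

noncomputable def jt256 : Tr :=
  (Tr.node (nat_lit 75584) (Tr.node (nat_lit 38528) (Tr.node (nat_lit 13376) (Tr.node (nat_lit 4992) (Tr.node (nat_lit 3008) (Tr.leaf (nat_lit 1052043)) (Tr.leaf (nat_lit 262994))) (Tr.node (nat_lit 2432) (Tr.leaf (nat_lit 4109)) (Tr.node (nat_lit 4480) (Tr.leaf (nat_lit 262970)) (Tr.leaf (nat_lit 262946))))) (Tr.node (nat_lit 10048) (Tr.node (nat_lit 4864) (Tr.leaf (nat_lit 262938)) (Tr.node (nat_lit 4032) (Tr.leaf (nat_lit 4107)) (Tr.leaf (nat_lit 262890)))) (Tr.node (nat_lit 6400) (Tr.leaf (nat_lit 65720)) (Tr.node (nat_lit 5760) (Tr.leaf (nat_lit 256)) (Tr.leaf (nat_lit 262817)))))) (Tr.node (nat_lit 17024) (Tr.node (nat_lit 4352) (Tr.node (nat_lit 2240) (Tr.leaf (nat_lit 262801)) (Tr.leaf (nat_lit 262789))) (Tr.node (nat_lit 9024) (Tr.leaf (nat_lit 65694)) (Tr.node (nat_lit 1472) (Tr.leaf (nat_lit 262729)) (Tr.leaf (nat_lit 1050885))))) (Tr.node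 (nat_lit 11136) (Tr.node (nat_lit 6656) (Tr.leaf (nat_lit 262709)) (Tr.node (nat_lit 1664) (Tr.leaf (nat_lit 262673)) (Tr.leaf (nat_lit 262664)))) (Tr.node (nat_lit 4416) (Tr.leaf (nat_lit 262648)) (Tr.node (nat_lit 2944) (Tr.leaf (nat_lit 1050499)) (Tr.leaf (nat_lit 262608))))))) (Tr.node (nat_lit 51392) (Tr.node (nat_lit 31040) (Tr.node (nat_lit 7360) (Tr.node (nat_lit 4416) (Tr.leaf (nat_lit 16412)) (Tr.leaf (nat_lit 262576))) (Tr.node (nat_lit 13312) (Tr.leaf (nat_lit 262560)) (Tr.node (nat_lit 3712) (Tr.leaf (nat_lit 1049953)) (Tr.leaf (nat_lit 262468))))) (Tr.node (nat_lit 8640) (Tr.node (nat_lit 2944) (Tr.leaf (nat_lit 1049729)) (Tr.node (nat_lit 2944) (Tr.leaf (nat_lit 262416)) (Tr.leaf (nat_lit 256)))) (Tr.node (nat_lit 640) (Tr.leaf (nat_lit 1024)) (Tr.node (nat_lit 8128) (Tr.leaf (nat_lit 65595)) (Tr.leaf (nat_lit 262338)))))) (Tr.node (nat_lit 18112) (Tr.node (nat_lit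 1856) (Tr.node (nat_lit 384) (Tr.leaf (nat_lit 65580)) (Tr.leaf (nat_lit 262320))) (Tr.node (nat_lit 4416) (Tr.leaf (nat_lit 262312)) (Tr.node (nat_lit 9600) (Tr.leaf (nat_lit 1049152)) (Tr.leaf (nat_lit 262236))))) (Tr.node (nat_lit 8384) (Tr.node (nat_lit 1472) (Tr.leaf (nat_lit 262224)) (Tr.node (nat_lit 6656) (Tr.leaf (nat_lit 262216)) (Tr.leaf (nat_lit 262180)))) (Tr.node (nat_lit 448) (Tr.leaf (nat_lit 65544)) (Tr.node (nat_lit 4416) (Tr.leaf (nat_lit 262176)) (Tr.leaf (nat_lit 262152))))))))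

noncomputable def jt : Tr := (Tr.node (nat_lit 36528064) (Tr.node (nat_lit 21201664) (Tr.node (nat_lit 11942016) (Tr.node (nat_lit 6400512) (Tr.node (nat_lit 3350080) (Tr.node (nat_lit 1694784) (Tr.node (nat_lit 843520) (Tr.node (nat_lit 458688) jt1 jt2) (Tr.node (nat_lit 450816) jt3 jt4)) (Tr.node (nat_lit 870144) (Tr.node (nat_lit 483264) jt5 jt6) (Tr.node (nat_lit 397504) jt7 jt8))) (Tr.node (nat_lit 1530560) (Tr.node (nat_lit 787584) (Tr.node (nat_lit 400832) jt9 jt10) (Tr.node (nat_lit 389056) jt11 jt12)) (Tr.node (nat_lit 712832) (Tr.node (nat_lit 382144) jt13 jt14) (Tr.node (nat_lit 325760) jt15 jt16)))) (Tr.node (nat_lit 2659264) (Tr.node (nat_lit 1344768) (Tr.node (nat_lit 678656) (Tr.node (nat_lit 330560) jt17 jt18) (Tr.node (nat_lit 285056) jt19 jt20)) (Tr.node (nat_lit 620992) (Tr.node (nat_lit 335168) jt21 jt22) (Tr.node (nat_lit 334400) jt23 jt24))) (Tr.node (nat_lit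 1448320) (Tr.node (nat_lit 772992) (Tr.node (nat_lit 375872) jt25 jt26) (Tr.node (nat_lit 331648) jt27 jt28)) (Tr.node (nat_lit 661440) (Tr.node (nat_lit 355392) jt29 jt30) (Tr.node (nat_lit 363968) jt31 jt32))))) (Tr.node (nat_lit 4819392) (Tr.node (nat_lit 2403008) (Tr.node (nat_lit 1200256) (Tr.node (nat_lit 593344) (Tr.node (nat_lit 248704) jt33 jt34) (Tr.node (nat_lit 335040) jt35 jt36)) (Tr.node (nat_lit 585024) (Tr.node (nat_lit 314304) jt37 jt38) (Tr.node (nat_lit 264704) jt39 jt40))) (Tr.node (nat_lit 1156800) (Tr.node (nat_lit 530304) (Tr.node (nat_lit 238656) jt41 jt42) (Tr.node (nat_lit 333888) jt43 jt44)) (Tr.node (nat_lit 657408) (Tr.node (nat_lit 295104) jt45 jt46) (Tr.node (nat_lit 282048) jt47 jt48)))) (Tr.node (nat_lit 2303936) (Tr.node (nat_lit 1174976) (Tr.node (nat_lit 627264) (Tr.node (nat_lit 296896) jt49 jt50) (Tr.node (nat_lit 289984) jt51 jt52)) (Tr.node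 (nat_lit 585280) (Tr.node (nat_lit 309056) jt53 jt54) (Tr.node (nat_lit 250880) jt55 jt56))) (Tr.node (nat_lit 1083840) (Tr.node (nat_lit 538368) (Tr.node (nat_lit 298048) jt57 jt58) (Tr.node (nat_lit 267968) jt59 jt60)) (Tr.node (nat_lit 519168) (Tr.node (nat_lit 248768) jt61 jt62) (Tr.node (nat_lit 274816) jt63 jt64)))))) (Tr.node (nat_lit 7568384) (Tr.node (nat_lit 3984320) (Tr.node (nat_lit 2023808) (Tr.node (nat_lit 1056128) (Tr.node (nat_lit 538496) (Tr.node (nat_lit 260928) jt65 jt66) (Tr.node (nat_lit 251392) jt67 jt68)) (Tr.node (nat_lit 464192) (Tr.node (nat_lit 230784) jt69 jt70) (Tr.node (nat_lit 287424) jt71 jt72))) (Tr.node (nat_lit 963392) (Tr.node (nat_lit 462464) (Tr.node (nat_lit 226432) jt73 jt74) (Tr.node (nat_lit 281216) jt75 jt76)) (Tr.node (nat_lit 520640) (Tr.node (nat_lit 258240) jt77 jt78) (Tr.node (nat_lit 237056) jt79 jt80)))) (Tr.node (nat_lit 1890816)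 (Tr.node (nat_lit 937408) (Tr.node (nat_lit 464896) (Tr.node (nat_lit 266240) jt81 jt82) (Tr.node (nat_lit 275136) jt83 jt84)) (Tr.node (nat_lit 488448) (Tr.node (nat_lit 244096) jt85 jt86) (Tr.node (nat_lit 241536) jt87 jt88))) (Tr.node (nat_lit 874816) (Tr.node (nat_lit 446656) (Tr.node (nat_lit 243584) jt89 jt90) (Tr.node (nat_lit 240832) jt91 jt92)) (Tr.node (nat_lit 418304) (Tr.node (nat_lit 249792) jt93 jt94) (Tr.node (nat_lit 193600) jt95 jt96))))) (Tr.node (nat_lit 3210816) (Tr.node (nat_lit 1663296) (Tr.node (nat_lit 875328) (Tr.node (nat_lit 413504) (Tr.node (nat_lit 214208) jt97 jt98) (Tr.node (nat_lit 237696) jt99 jt100)) (Tr.node (nat_lit 397184) (Tr.node (nat_lit 213184) jt101 jt102) (Tr.node (nat_lit 183616) jt103 jt104))) (Tr.node (nat_lit 764352) (Tr.node (nat_lit 389184) (Tr.node (nat_lit 196800) jt105 jt106) (Tr.node (nat_lit 170240) jt107 jt108)) (Tr.node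 (nat_lit 375488) (Tr.node (nat_lit 183808) jt109 jt110) (Tr.node (nat_lit 193536) jt111 jt112)))) (Tr.node (nat_lit 1662080) (Tr.node (nat_lit 822336) (Tr.node (nat_lit 446592) (Tr.node (nat_lit 237504) jt113 jt114) (Tr.node (nat_lit 167552) jt115 jt116)) (Tr.node (nat_lit 402048) (Tr.node (nat_lit 215488) jt117 jt118) (Tr.node (nat_lit 210112) jt119 jt120))) (Tr.node (nat_lit 1591232) (Tr.node (nat_lit 842048) (Tr.node (nat_lit 416384) jt121 jt122) (Tr.node (nat_lit 358080) jt123 jt124)) (Tr.node (nat_lit 650560) (Tr.node (nat_lit 302976) jt125 jt126) (Tr.node (nat_lit 340352) jt127 jt128))))))) (Tr.node (nat_lit 17941696) (Tr.node (nat_lit 10097920) (Tr.node (nat_lit 5467136) (Tr.node (nat_lit 2701824) (Tr.node (nat_lit 1383232) (Tr.node (nat_lit 658240) (Tr.node (nat_lit 351616) jt129 jt130) (Tr.node (nat_lit 348224) jt131 jt132)) (Tr.node (nat_lit 665152) (Tr.node (nat_lit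 334080) jt133 jt134) (Tr.node (nat_lit 335040) jt135 jt136))) (Tr.node (nat_lit 1445760) (Tr.node (nat_lit 709504) (Tr.node (nat_lit 389952) jt137 jt138) (Tr.node (nat_lit 388416) jt139 jt140)) (Tr.node (nat_lit 629696) (Tr.node (nat_lit 384896) jt141 jt142) (Tr.node (nat_lit 336192) jt143 jt144)))) (Tr.node (nat_lit 2334720) (Tr.node (nat_lit 1155072) (Tr.node (nat_lit 604288) (Tr.node (nat_lit 333952) jt145 jt146) (Tr.node (nat_lit 290176) jt147 jt148)) (Tr.node (nat_lit 582976) (Tr.node (nat_lit 275520) jt149 jt150) (Tr.node (nat_lit 296000) jt151 jt152))) (Tr.node (nat_lit 1130752) (Tr.node (nat_lit 590592) (Tr.node (nat_lit 281216) jt153 jt154) (Tr.node (nat_lit 279168) jt155 jt156)) (Tr.node (nat_lit 575360) (Tr.node (nat_lit 318976) jt157 jt158) (Tr.node (nat_lit 307200) jt159 jt160))))) (Tr.node (nat_lit 4098688) (Tr.node (nat_lit 2098816) (Tr.node (nat_lit 1050880) (Tr.node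 (nat_lit 519936) (Tr.node (nat_lit 292352) jt161 jt162) (Tr.node (nat_lit 265344) jt163 jt164)) (Tr.node (nat_lit 513664) (Tr.node (nat_lit 246528) jt165 jt166) (Tr.node (nat_lit 270016) jt167 jt168))) (Tr.node (nat_lit 970688) (Tr.node (nat_lit 502720) (Tr.node (nat_lit 267072) jt169 jt170) (Tr.node (nat_lit 230336) jt171 jt172)) (Tr.node (nat_lit 509632) (Tr.node (nat_lit 233024) jt173 jt174) (Tr.node (nat_lit 246528) jt175 jt176)))) (Tr.node (nat_lit 1865920) (Tr.node (nat_lit 961536) (Tr.node (nat_lit 463296) (Tr.node (nat_lit 249344) jt177 jt178) (Tr.node (nat_lit 257920) jt179 jt180)) (Tr.node (nat_lit 465024) (Tr.node (nat_lit 218944) jt181 jt182) (Tr.node (nat_lit 234880) jt183 jt184))) (Tr.node (nat_lit 930048) (Tr.node (nat_lit 465664) (Tr.node (nat_lit 207232) jt185 jt186) (Tr.node (nat_lit 230336) jt187 jt188)) (Tr.node (nat_lit 466688) (Tr.node (nat_lit 218048) jt189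 jt190) (Tr.node (nat_lit 251136) jt191 jt192)))))) (Tr.node (nat_lit 6725632) (Tr.node (nat_lit 3531072) (Tr.node (nat_lit 1856512) (Tr.node (nat_lit 883456) (Tr.node (nat_lit 484224) (Tr.node (nat_lit 229056) jt193 jt194) (Tr.node (nat_lit 178176) jt195 jt196)) (Tr.node (nat_lit 470208) (Tr.node (nat_lit 230912) jt197 jt198) (Tr.node (nat_lit 262272) jt199 jt200))) (Tr.node (nat_lit 878912) (Tr.node (nat_lit 435520) (Tr.node (nat_lit 182400) jt201 jt202) (Tr.node (nat_lit 224512) jt203 jt204)) (Tr.node (nat_lit 375168) (Tr.node (nat_lit 187264) jt205 jt206) (Tr.node (nat_lit 204800) jt207 jt208)))) (Tr.node (nat_lit 1573568) (Tr.node (nat_lit 800640) (Tr.node (nat_lit 366336) (Tr.node (nat_lit 215232) jt209 jt210) (Tr.node (nat_lit 246656) jt211 jt212)) (Tr.node (nat_lit 386944) (Tr.node (nat_lit 173696) jt213 jt214) (Tr.node (nat_lit 186496) jt215 jt216))) (Tr.node (nat_lit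 805568) (Tr.node (nat_lit 389696) (Tr.node (nat_lit 198080) jt217 jt218) (Tr.node (nat_lit 196544) jt219 jt220)) (Tr.node (nat_lit 403008) (Tr.node (nat_lit 183680) jt221 jt222) (Tr.node (nat_lit 166400) jt223 jt224))))) (Tr.node (nat_lit 3120960) (Tr.node (nat_lit 1637056) (Tr.node (nat_lit 812736) (Tr.node (nat_lit 387392) (Tr.node (nat_lit 217344) jt225 jt226) (Tr.node (nat_lit 195008) jt227 jt228)) (Tr.node (nat_lit 431424) (Tr.node (nat_lit 208000) jt229 jt230) (Tr.node (nat_lit 211008) jt231 jt232))) (Tr.node (nat_lit 735936) (Tr.node (nat_lit 360064) (Tr.node (nat_lit 181248) jt233 jt234) (Tr.node (nat_lit 175168) jt235 jt236)) (Tr.node (nat_lit 390592) (Tr.node (nat_lit 204608) jt237 jt238) (Tr.node (nat_lit 182976) jt239 jt240)))) (Tr.node (nat_lit 1462528) (Tr.node (nat_lit 741952) (Tr.node (nat_lit 373760) (Tr.node (nat_lit 177664) jt241 jt242) (Tr.node (nat_lit 169024)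 jt243 jt244)) (Tr.node (nat_lit 388352) (Tr.node (nat_lit 180032) jt245 jt246) (Tr.node (nat_lit 158784) jt247 jt248))) (Tr.node (nat_lit 669888) (Tr.node (nat_lit 348288) (Tr.node (nat_lit 175488) jt249 jt250) (Tr.node (nat_lit 171264) jt251 jt252)) (Tr.node (nat_lit 335424) (Tr.node (nat_lit 159616) jt253 jt254) (Tr.node (nat_lit 164800) jt255 jt256))))))))
def jV : ℕ := 12188803786

end Pool.Agent.Lib.MP_5db4ad_nt.S2
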