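import Pool.Agent.Lib.MP_5db4ad_nt.S2LowJ

/-!
Runs of the final check.
-/

namespace Pool.Agent.Lib.MP_5db4ad_nt.S2

set_option maxRecDepth 100000

theorem jmpRun : jmpOk 19 listA jt.val jV = true := by decide +kernel

end Pool.Agent.Lib.MP_5db4ad_nt.S2
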