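import Pool.Agent.Lib.MP_5db4ad_nt.S2Defs

/-! The multiplicative majorant of `gg`. -/

namespace Pool.Agent.Lib.MP_5db4ad_nt.S2

open Finset

namespace Maj

noncomputable section

def rloc (p a : ℕ) : ℝ := if 5 ≤ p ∧ p ≤ 1000 ∧ 2 ≤ a then 2 ^ (a - 2) else 0

lemma rloc_nonneg (p a : ℕ) : 0 ≤ rloc p a := by
  unfold rloc
  split_ifs
  · positivity
  · exact le_rfl

lemma mf_zero (loc : ℕ → ℕ → ℝ) : mf loc 0 = 0 := if_pos rfl

lemma mf_one (loc : ℕ → ℕ → ℝ) : mf loc 1 = 1 := by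
  unfold mf
  rw [if_neg one_ne_zero, Nat.factorization_one, Finsupp.prod_zero_index]

lemma mf_mul (loc : ℕ → ℕ → ℝ) {m n : ℕ} (h : Nat.Coprime m n) :
    mf loc (m * n) = mf loc m * mf loc n := by
  rcases eq_or_ne m 0 with rfl | hm
  · rw [zero_mul, mf_zero, zero_mul]
  rcases eq_or_ne n 0 with rfl | hn
  · rw [mul_zero, mf_zero, mul_zero]
  unfold mf
  rw [if_neg (mul_ne_zero hm hn), if_neg hm, if_neg hn, Nat.factorization_mul hm hn,
    Finsupp.prod_add_index_of_disjoint]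
  rw [Nat.support_factorization, Nat.support_factorization]
  exact h.disjoint_primeFactors

lemma mf_pow (loc : ℕ → ℕ → ℝ) {p : ℕ} (hp : p.Prime) (a : ℕ) :
    mf loc (p ^ a) = if a = 0 then 1 else loc p a := by
  split_ifs with ha
  · rw [ha, pow_zero, mf_one]
  · unfold mf
    rw [if_neg (pow_ne_zero a hp.ne_zero), hp.factorization_pow, Finsupp.prod,
      Finsupp.support_single _ ha, prod_singleton, Finsupp.single_eq_same]

lemma r_nonneg (b : ℕ) : 0 ≤ mf rloc b := by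
  unfold mf
  split_ifs
  · exact le_rfl
  · exact prod_nonneg fun p _ => rloc_nonneg _ _

lemma r_eq_zero {b : ℕ} (hb : b ∉ Nat.factoredNumbers (Icc 5 1000)) : mf rloc b = 0 := by
  rcases eq_or_ne b 0 with rfl | h0
  · exact mf_zero _
  rw [Nat.mem_factoredNumbers'] at hb
  push Not at hb
  obtain ⟨p, hp, hpb, hpI⟩ := hb
  unfold mf
  rw [if_neg h0, Finsupp.prod]
  refine prod_eq_zero (i := p) ?_ ?_
  · rw [Nat.support_factorization]
    exact Nat.mem_primeFactors.2 ⟨hp, hpb, h0⟩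
  · unfold rloc
    rw [if_neg]
    rintro ⟨h1, h2, -⟩
    exact hpI (mem_Icc.2 ⟨h1, h2⟩)

lemma d6_nonneg (n : ℕ) : 0 ≤ d6 n := by
  unfold d6
  split_ifs
  · positivity
  · exact le_rfl

lemma d6_mul {m n : ℕ} (h : Nat.Coprime m n) : d6 (m * n) = d6 m * d6 n := by
  unfold d6
  by_cases hm : Nat.Coprime m 6
  · by_cases hn : Nat.Coprime n 6
    · rw [if_pos (Nat.Coprime.mul_left hm hn), if_pos hm, if_pos hn, h.card_divisors_mul,
        Nat.cast_mul]
    · rw [if_neg fun h' => hn (Nat.Coprime.coprime_mul_left h'), if_neg hn, mul_zero]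
  · rw [if_neg fun h' => hm (Nat.Coprime.coprime_mul_right h'), if_neg hm, zero_mul]

lemma d6_pow {p : ℕ} (hp : p.Prime) (h5 : 3 < p) (a : ℕ) : d6 (p ^ a) = a + 1 := by
  have h2 : Nat.Coprime p 2 := (Nat.coprime_primes hp Nat.prime_two).2 (by omega)
  have h3 : Nat.Coprime p 3 := (Nat.coprime_primes hp Nat.prime_three).2 (by omega)
  have h6 : Nat.Coprime (p ^ a) 6 := Nat.Coprime.pow_left a (Nat.Coprime.mul_right h2 h3)
  unfold d6
  rw [if_pos h6, Nat.divisors_prime_pow hp, card_map, card_range, Nat.cast_add, Nat.cast_one]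

def RA : ArithmeticFunction ℝ := ⟨mf rloc, mf_zero _⟩

def DA : ArithmeticFunction ℝ := ⟨d6, by simp [d6]⟩

lemma RA_mult : RA.IsMultiplicative := ⟨mf_one _, fun h => mf_mul _ h⟩

lemma DA_mult : DA.IsMultiplicative := ⟨by simp [DA, d6], fun h => d6_mul h⟩

lemma conv_apply (m : ℕ) :
    (RA * DA) m = ∑ x ∈ m.divisorsAntidiagonal, mf rloc x.1 * d6 x.2 :=
  ArithmeticFunction.mul_apply

lemma conv_pow {p : ℕ} (hp : p.Prime) (a : ℕ) :
    (RA * DA) (p ^ a) = ∑ i ∈ range (a + 1), mf rloc (p ^ i) * d6 (p ^ (a - i)) := by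
  rw [conv_apply, Nat.sum_divisorsAntidiagonal fun x y => mf rloc x * d6 y,
    Nat.sum_divisors_prime_pow hp]
  refine sum_congr rfl fun i hi => ?_
  rw [Nat.pow_div (Nat.lt_succ_iff.1 (mem_range.1 hi)) hp.pos]

def rho (i : ℕ) : ℝ := if i = 0 then 1 else if 2 ≤ i then 2 ^ (i - 2) else 0

lemma rho_add_two (i : ℕ) : rho (i + 2) = 2 ^ i := by
  unfold rho
  rw [if_neg (by omega), if_pos (by omega), Nat.add_sub_cancel]

lemma sum_rho (a : ℕ) : ∑ i ∈ range (a + 2), rho i = 2 ^ a := by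
  induction a with
  | zero => simp [sum_range_succ, rho]
  | succ a ih => rw [sum_range_succ, ih, rho_add_two]; ring

lemma sum_rho_mul (a : ℕ) : ∑ i ∈ range (a + 1), rho i * ((a - i : ℕ) + 1) = 2 ^ a := by
  induction a with
  | zero => simp [rho]
  | succ a ih =>
    have h1 : ∀ i ∈ range (a + 1), rho i * ((a + 1 - i : ℕ) + 1)
        = rho i * ((a - i : ℕ) + 1) + rho i := by
      intro i hi
      have h2 : a + 1 - i = (a - i) + 1 := by
        have := mem_range.1 hi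
        omega
      rw [h2]; push_cast; ring
    have h3 := sum_rho a
    rw [sum_range_succ] at h3
    rw [sum_range_succ, sum_congr rfl h1, sum_add_distrib, ih, Nat.sub_self]
    push_cast
    linarith [pow_succ (2 : ℝ) a]

lemma r_pow {p : ℕ} (hp : p.Prime) (h5 : 5 ≤ p) (h1 : p ≤ 1000) (i : ℕ) :
    mf rloc (p ^ i) = rho i := by
  rw [mf_pow _ hp]
  unfold rho rloc
  by_cases h0 : i = 0
  · rw [if_pos h0, if_pos h0]
  · rw [if_neg h0, if_neg h0]
    by_cases h2 : 2 ≤ i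
    · rw [if_pos ⟨h5, h1, h2⟩, if_pos h2]
    · rw [if_neg fun h => h2 h.2.2, if_neg h2]

lemma local_le {p : ℕ} (hp : p.Prime) (a : ℕ) : |gloc p a| ≤ (RA * DA) (p ^ a) := by
  rw [conv_pow hp]
  have hnn : ∀ i ∈ range (a + 1), 0 ≤ mf rloc (p ^ i) * d6 (p ^ (a - i)) := fun i _ =>
    mul_nonneg (r_nonneg _) (d6_nonneg _)
  unfold gloc
  by_cases h3 : p ≤ 3
  · rw [if_pos h3, abs_zero]
    exact sum_nonneg hnn
  rw [if_neg h3]
  by_cases h1 : p ≤ 1000
  · have h5 : 5 ≤ p := by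
      by_contra h
      have h4 : p = 4 := by omega
      rw [h4] at hp
      exact absurd hp (by decide)
    rw [if_pos h1, abs_pow, abs_neg, abs_two, ← sum_rho_mul a]
    refine le_of_eq (sum_congr rfl fun i _ => ?_)
    rw [r_pow hp h5 h1, d6_pow hp (by omega)]
  · rw [if_neg h1]
    have h0 := single_le_sum hnn (mem_range.2 (Nat.succ_pos a))
    rw [pow_zero, mf_one, one_mul, Nat.sub_zero, d6_pow hp (by omega)] at h0
    refine le_trans ?_ h0
    have ha : (0 : ℝ) ≤ a := Nat.cast_nonneg a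
    split_ifs with h h'
    · rw [h]; norm_num
    · rw [abs_one]; linarith
    · rw [abs_zero]; linarith

lemma gg_le (m : ℕ) : |gg m| ≤ ∑ x ∈ m.divisorsAntidiagonal, mf rloc x.1 * d6 x.2 := by
  rcases eq_or_ne m 0 with rfl | hm
  · simp [gg, mf_zero]
  rw [← conv_apply, (RA_mult.mul DA_mult).multiplicative_factorization _ hm]
  unfold gg mf
  rw [if_neg hm, Finsupp.prod, Finsupp.prod, abs_prod]
  refine prod_le_prod (fun p _ => abs_nonneg _) fun p hp => ?_
  rw [Nat.support_factorization] at hp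
  exact local_le (Nat.prime_of_mem_primeFactors hp) _

/-- Euler product bound for a completely multiplicative weight. -/
lemma euler (w : ℕ → ℝ) (hw1 : w 1 = 1) (hwm : ∀ m n, w (m * n) = w m * w n)
    (hw0 : ∀ n, 0 ≤ w n) (hw2 : ∀ p, 5 ≤ p → 2 * w p < 1) (F : Finset ℕ) :
    ∑ b ∈ F, mf rloc b * w b ≤
      ∏ p ∈ (Icc 5 1000).filter Nat.Prime, (1 + w p ^ 2 / (1 - 2 * w p)) := by
  have hwp : ∀ p a, w (p ^ a) = w p ^ a := by
    intro p a
    induction a with
    | zero => rw [pow_zero, pow_zero, hw1]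
    | succ a ih => rw [pow_succ, hwm, ih, pow_succ]
  have hloc : ∀ p, p.Prime → 5 ≤ p → p ≤ 1000 →
      HasSum (fun a => mf rloc (p ^ a) * w (p ^ a)) (1 + w p ^ 2 / (1 - 2 * w p)) := by
    intro p hp h5 h1
    have h2 : HasSum (fun a => w p ^ 2 * (2 * w p) ^ a) (w p ^ 2 * (1 - 2 * w p)⁻¹) :=
      (hasSum_geometric_of_lt_one (mul_nonneg zero_le_two (hw0 p)) (hw2 p h5)).mul_left _
    rw [← hasSum_nat_add_iff' 2]
    have h3 : (1 + w p ^ 2 / (1 - 2 * w p)) - ∑ i ∈ range 2, mf rloc (p ^ i) * w (p ^ i)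
        = w p ^ 2 * (1 - 2 * w p)⁻¹ := by
      rw [sum_range_succ, sum_range_one, r_pow hp h5 h1, r_pow hp h5 h1, pow_zero, hw1,
        div_eq_mul_inv]
      simp [rho]
    rw [h3]
    refine h2.congr_fun fun a => ?_
    rw [r_pow hp h5 h1, rho_add_two, hwp]
    ring
  have hnn : ∀ b, 0 ≤ mf rloc b * w b := fun b => mul_nonneg (r_nonneg b) (hw0 b)
  have hsum : ∀ {p : ℕ}, p.Prime → Summable fun a : ℕ => ‖mf rloc (p ^ a) * w (p ^ a)‖ := by
    intro p hp
    by_cases h : 5 ≤ p ∧ p ≤ 1000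
    · exact (hloc p hp h.1 h.2).summable.norm
    · refine summable_of_ne_finset_zero (s := {0}) fun a ha => ?_
      rw [mf_pow _ hp, if_neg (by simpa using ha)]
      unfold rloc
      rw [if_neg fun h' => h ⟨h'.1, h'.2.1⟩, zero_mul, norm_zero]
  have hE := (EulerProduct.summable_and_hasSum_factoredNumbers_prod_filter_prime_tsum
    (f := fun b => mf rloc b * w b) (by rw [mf_one, hw1, one_mul])
    (fun {m n} h => by rw [mf_mul _ h, hwm]; ring) hsum (Icc 5 1000)).2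
  have hE' : HasSum (fun b => mf rloc b * w b)
      (∏ p ∈ (Icc 5 1000).filter Nat.Prime, ∑' a : ℕ, mf rloc (p ^ a) * w (p ^ a)) := by
    refine (hasSum_subtype_iff_of_support_subset (s := Nat.factoredNumbers (Icc 5 1000)) ?_).1 hE
    intro b hb
    by_contra h
    exact hb (by show mf rloc b * w b = 0; rw [r_eq_zero h, zero_mul])
  refine (sum_le_hasSum F (fun b _ => hnn b) hE').trans (le_of_eq (prod_congr rfl fun p hp => ?_))
  obtain ⟨hI, hp⟩ := mem_filter.1 hp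
  exact (hloc p hp (mem_Icc.1 hI).1 (mem_Icc.1 hI).2).tsum_eq

end

def ok (p : ℕ) : Bool :=
  [2, 3, 5, 7, 11, 13, 17, 19, 23, 29, 31].all fun q => p % q != 0 || p == q

lemma ok_of_prime {p : ℕ} (hp : p.Prime) : ok p = true := by
  unfold ok
  rw [List.all_eq_true]
  intro q hq
  by_cases h : p % q = 0
  · have h1 : q ≠ 1 := by
      rintro rfl
      simp at hq
    have h2 := (Nat.dvd_prime hp).1 (Nat.dvd_of_mod_eq_zero h)
    have h3 : p = q := (h2.resolve_left h1).symm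
    simp [h3]
  · simp [h]

def PS : Finset ℕ := (Icc 5 1000).filter fun p => ok p = true

def sN (p : ℕ) : ℕ := Nat.sqrt (p * 10 ^ 12)

lemma num1 : 10000 * ∏ p ∈ PS, (p * (p - 2) + 1) ≤ 11361 * ∏ p ∈ PS, p * (p - 2) := by
  decide +kernel

lemma num2 : 100 * ∏ p ∈ PS, (p * (sN p - 2000000) + sN p) ≤
    2085 * ∏ p ∈ PS, p * (sN p - 2000000) := by
  decide +kernel

lemma prod_le (f : ℕ → ℝ) (N D : ℕ → ℕ) (a b : ℕ) (ha : 0 < a)
    (hD : ∀ p, 5 ≤ p → 0 < D p) (hf0 : ∀ p, 5 ≤ p → 0 ≤ f p)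
    (hf : ∀ p, 5 ≤ p → f p ≤ N p / D p)
    (h : a * ∏ p ∈ PS, (D p + N p) ≤ b * ∏ p ∈ PS, D p) :
    ∏ p ∈ (Icc 5 1000).filter Nat.Prime, (1 + f p) ≤ b / a := by
  have h5 : ∀ p ∈ PS, 5 ≤ p := fun p hp => (mem_Icc.1 (mem_filter.1 hp).1).1
  have hsub : (Icc 5 1000).filter Nat.Prime ⊆ PS := fun p hp =>
    mem_filter.2 ⟨(mem_filter.1 hp).1, ok_of_prime (mem_filter.1 hp).2⟩
  have h1 : ∏ p ∈ (Icc 5 1000).filter Nat.Prime, (1 + f p) ≤ ∏ p ∈ PS, (1 + f p) :=
    prod_le_prod_of_subset_of_one_le hsub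
      (fun p hp => by linarith [hf0 p (h5 p (hsub hp))])
      fun p hp _ => by linarith [hf0 p (h5 p hp)]
  have h2 : ∏ p ∈ PS, (1 + f p) ≤ ∏ p ∈ PS, (((D p + N p : ℕ) : ℝ) / D p) := by
    refine prod_le_prod (fun p hp => by linarith [hf0 p (h5 p hp)]) fun p hp => ?_
    have h3 : (0 : ℝ) < D p := Nat.cast_pos.2 (hD p (h5 p hp))
    rw [Nat.cast_add, add_div, div_self h3.ne']
    linarith [hf p (h5 p hp)]
  refine h1.trans (h2.trans ?_)
  have h4 : (0 : ℝ) < ∏ p ∈ PS, (D p : ℝ) :=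
    prod_pos fun p hp => Nat.cast_pos.2 (hD p (h5 p hp))
  rw [prod_div_distrib, div_le_div_iff₀ h4 (Nat.cast_pos.2 ha), ← Nat.cast_prod, ← Nat.cast_prod,
    mul_comm]
  exact_mod_cast h

lemma sum1 (F : Finset ℕ) : ∑ b ∈ F, mf rloc b / b ≤ 1.1361 := by
  have h1 := euler (fun n => (n : ℝ)⁻¹) (by simp) (fun m n => by push_cast; rw [mul_inv])
    (fun n => by positivity) (fun p hp => by
      have h : (5 : ℝ) ≤ p := by exact_mod_cast hp
      rw [← div_eq_mul_inv, div_lt_one (by linarith)]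
      linarith) F
  have h2 := prod_le (fun p => (p : ℝ)⁻¹ ^ 2 / (1 - 2 * (p : ℝ)⁻¹)) (fun _ => 1)
    (fun p => p * (p - 2)) 10000 11361 (by norm_num)
    (fun p hp => Nat.mul_pos (by omega) (by omega)) (fun p hp => ?_) (fun p hp => ?_) num1
  · simp only [div_eq_mul_inv] at h1 h2 ⊢
    refine h1.trans (h2.trans (le_of_eq ?_))
    norm_num
  · have h : (5 : ℝ) ≤ p := by exact_mod_cast hp
    have h3 : 2 * (p : ℝ)⁻¹ < 1 := by
      rw [← div_eq_mul_inv, div_lt_one (by linarith)]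
      linarith
    exact div_nonneg (by positivity) (by linarith)
  · have h : (5 : ℝ) ≤ p := by exact_mod_cast hp
    have h3 : (p : ℝ) - 2 ≠ 0 := by linarith
    have h4 : (p : ℝ) ≠ 0 := by linarith
    refine le_of_eq ?_
    rw [Nat.cast_mul, Nat.cast_sub (by omega)]
    push_cast
    field_simp

lemma sN_gt {p : ℕ} (hp : 5 ≤ p) : 2000000 < sN p := by
  unfold sN
  rw [Nat.lt_iff_add_one_le, Nat.le_sqrt]
  omega

lemma sN_le (p : ℕ) : (sN p : ℝ) ≤ √p * 1000000 := by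
  have h1 : ((sN p : ℝ)) ^ 2 ≤ (p : ℝ) * 10 ^ 12 := by
    exact_mod_cast Nat.sqrt_le' (p * 10 ^ 12)
  refine (pow_le_pow_iff_left₀ (Nat.cast_nonneg _) (by positivity) two_ne_zero).1 ?_
  rw [mul_pow, Real.sq_sqrt (Nat.cast_nonneg p)]
  linarith

lemma sum2 (F : Finset ℕ) : ∑ b ∈ F, mf rloc b / √b ≤ 20.85 := by
  have hs : ∀ p : ℕ, 5 ≤ p → (2 : ℝ) < √p := by
    intro p hp
    have h : (5 : ℝ) ≤ p := by exact_mod_cast hp
    rw [Real.lt_sqrt (by norm_num)]
    linarith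
  have hlt : ∀ p : ℕ, 5 ≤ p → 2 * (√(p : ℝ))⁻¹ < 1 := by
    intro p hp
    rw [← div_eq_mul_inv, div_lt_one (by linarith [hs p hp])]
    exact hs p hp
  have h1 := euler (fun n => (√(n : ℝ))⁻¹) (by simp)
    (fun m n => by push_cast; rw [Real.sqrt_mul (Nat.cast_nonneg m), mul_inv])
    (fun n => by positivity) hlt F
  have h2 := prod_le (fun p => (√(p : ℝ))⁻¹ ^ 2 / (1 - 2 * (√(p : ℝ))⁻¹)) sN
    (fun p => p * (sN p - 2000000)) 100 2085 (by norm_num)
    (fun p hp => Nat.mul_pos (by omega) (by have := sN_gt hp; omega))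
    (fun p hp => div_nonneg (by positivity) (by linarith [hlt p hp])) (fun p hp => ?_) num2
  · simp only [div_eq_mul_inv] at h1 h2 ⊢
    refine h1.trans (h2.trans (le_of_eq ?_))
    norm_num
  · have h : (5 : ℝ) ≤ p := by exact_mod_cast hp
    have h3 := sN_gt hp
    have h4 : (2000000 : ℝ) < sN p := by exact_mod_cast h3
    have h5 := sN_le p
    have h6 := hs p hp
    have h7 : (√(p : ℝ))⁻¹ ^ 2 / (1 - 2 * (√(p : ℝ))⁻¹) = √p / (p * (√p - 2)) := by
      have h8 : √(p : ℝ) - 2 ≠ 0 := by linarith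
      have h9 : √(p : ℝ) ≠ 0 := by linarith
      have h10 : (p : ℝ) ≠ 0 := by linarith
      rw [inv_pow, Real.sq_sqrt (Nat.cast_nonneg p)]
      field_simp
    rw [h7, Nat.cast_mul, Nat.cast_sub h3.le,
      div_le_div_iff₀ (mul_pos (by linarith) (by linarith)) (mul_pos (by linarith) (by
        push_cast; linarith))]
    push_cast
    nlinarith

end Maj

theorem maj : StMaj := ⟨mf Maj.rloc, Maj.r_nonneg, Maj.sum1, Maj.sum2, Maj.gg_le⟩

end Pool.Agent.Lib.MP_5db4ad_nt.S2
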