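import Pool.Agent.Lib.MP_5db4ad_nt.S2Defs

/-! Mellin inversion for Dirichlet series against the kernel `kap`, and the rectangle bound. -/

namespace Pool.Agent.Lib.MP_5db4ad_nt.S2

open MeasureTheory
open scoped Real

namespace Mel

lemma norm_nat_cpow {c : ℝ} (hc : 0 < c) (m : ℕ) (t : ℝ) :
    ‖(m : ℂ) ^ (-(c + t * Complex.I))‖ = (m : ℝ) ^ (-c) := by
  rw [Complex.norm_natCast_cpow_of_re_ne_zero _ (by simpa using hc.ne')]
  simp

lemma norm_real_cpow {X : ℝ} (hX : 0 < X) (c t : ℝ) :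
    ‖(X : ℂ) ^ (c + t * Complex.I)‖ = X ^ c := by
  rw [Complex.norm_cpow_eq_rpow_re_of_pos hX]
  simp

lemma cont_cpow {X : ℂ} (hX : X ≠ 0) (c : ℝ) :
    Continuous fun t : ℝ => X ^ ((c : ℂ) + t * Complex.I) :=
  Continuous.const_cpow (by fun_prop) (Or.inl hX)

lemma cont_cpow_neg {X : ℂ} (hX : X ≠ 0) (c : ℝ) :
    Continuous fun t : ℝ => X ^ (-((c : ℂ) + t * Complex.I)) :=
  Continuous.const_cpow (by fun_prop) (Or.inl hX)

lemma cpow_div {m X : ℝ} (hm : 0 < m) (hX : 0 < X) (s : ℂ) :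
    (m : ℂ) ^ (-s) * (X : ℂ) ^ s = ((m / X : ℝ) : ℂ) ^ (-s) := by
  have h : (m : ℂ) = ((m / X : ℝ) : ℂ) * (X : ℂ) := by
    rw [← Complex.ofReal_mul, div_mul_cancel₀ _ hX.ne']
  have hX' : (X : ℂ) ≠ 0 := Complex.ofReal_ne_zero.2 hX.ne'
  conv_lhs => rw [h, Complex.mul_cpow_ofReal_nonneg (div_pos hm hX).le hX.le]
  rw [mul_assoc, ← Complex.cpow_add _ _ hX', neg_add_cancel, Complex.cpow_zero, mul_one]

end Mel

theorem mel (hK : StKap) : StMel := by
  intro p c X f hc hcp hX hf0 hs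
  obtain ⟨h1, -, -, h4⟩ := hK p (hc.trans hcp)
  have hk : Integrable fun t : ℝ => kap p (c + t * Complex.I) :=
    (h1 c hc.ne' (by rwa [abs_of_pos hc])).1
  have hX' : (X : ℂ) ≠ 0 := Complex.ofReal_ne_zero.2 hX.ne'
  have hn : ∀ (m : ℕ) (t : ℝ), ‖f m * (m : ℂ) ^ (-(c + t * Complex.I))‖ =
      ‖f m‖ * (m : ℝ) ^ (-c) := fun m t => by rw [norm_mul, Mel.norm_nat_cpow hc]
  have hcont : ∀ m : ℕ, Continuous fun t : ℝ => f m * (m : ℂ) ^ (-(c + t * Complex.I)) := by
    intro m
    rcases Nat.eq_zero_or_pos m with rfl | hm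
    · simp only [hf0, zero_mul]
      exact continuous_const
    · exact continuous_const.mul (Mel.cont_cpow_neg (Nat.cast_ne_zero.2 hm.ne') c)
  have hD : Continuous fun t : ℝ => ∑' m : ℕ, f m * (m : ℂ) ^ (-(c + t * Complex.I)) :=
    continuous_tsum hcont hs fun m t => (hn m t).le
  have hsum : ∀ t : ℝ, Summable fun m : ℕ => f m * (m : ℂ) ^ (-(c + t * Complex.I)) :=
    fun t => Summable.of_norm_bounded hs fun m => (hn m t).le
  refine ⟨?_, ?_⟩
  · refine hk.bdd_mul (c := (∑' m : ℕ, ‖f m‖ * (m : ℝ) ^ (-c)) * X ^ c)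
      (hD.mul (Mel.cont_cpow hX' c)).aestronglyMeasurable (Filter.Eventually.of_forall fun t => ?_)
    rw [norm_mul, Mel.norm_real_cpow hX]
    exact mul_le_mul_of_nonneg_right (tsum_of_norm_bounded hs.hasSum fun m => (hn m t).le)
      (Real.rpow_nonneg hX.le _)
  · let F : ℕ → ℝ → ℂ := fun m t => f m * (m : ℂ) ^ (-(c + t * Complex.I)) *
      (X : ℂ) ^ (c + t * Complex.I) * kap p (c + t * Complex.I)
    have hFn : ∀ m t, ‖F m t‖ = ‖f m‖ * (m : ℝ) ^ (-c) * X ^ c *
        ‖kap p (c + t * Complex.I)‖ := fun m t => by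
      simp only [F]
      rw [norm_mul, norm_mul, hn, Mel.norm_real_cpow hX]
    have hFi : ∀ m, Integrable (F m) := fun m => by
      refine hk.bdd_mul (c := ‖f m‖ * (m : ℝ) ^ (-c) * X ^ c)
        ((hcont m).mul (Mel.cont_cpow hX' c)).aestronglyMeasurable
        (Filter.Eventually.of_forall fun t => ?_)
      rw [norm_mul, hn, Mel.norm_real_cpow hX]
    have hFs : Summable fun m => ∫ t, ‖F m t‖ := by
      simp only [hFn, integral_const_mul]
      exact (hs.mul_right _).mul_right _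
    have hH := hasSum_integral_of_summable_integral_norm hFi hFs
    have e1 : ∀ t : ℝ, (∑' m : ℕ, f m * (m : ℂ) ^ (-(c + t * Complex.I))) *
        (X : ℂ) ^ (c + t * Complex.I) * kap p (c + t * Complex.I) = ∑' m, F m t := fun t => by
      simp only [F]
      rw [tsum_mul_right, tsum_mul_right]
    have e2 : ∀ m : ℕ, ∫ t, F m t = 2 * π * (f m / ((1 + (m / X) ^ p : ℝ) : ℂ)) := by
      intro m
      rcases Nat.eq_zero_or_pos m with rfl | hm
      · simp [F, hf0]
      · have hm' : (0 : ℝ) < m := Nat.cast_pos.2 hm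
        have e3 : ∀ t : ℝ, F m t = f m * ((((m : ℝ) / X : ℝ) : ℂ) ^ (-(c + t * Complex.I)) *
            kap p (c + t * Complex.I)) := fun t => by
          simp only [F]
          rw [← Mel.cpow_div hm' hX, Complex.ofReal_natCast]
          ring
        simp only [e3]
        rw [integral_const_mul, h4 c _ hc hcp (div_pos hm' hX)]
        push_cast
        ring
    simp only [e1]
    rw [← hH.tsum_eq]
    simp only [e2]
    rw [tsum_mul_left]

theorem rect : StRect := by
  intro F a c H B hac hH hF hB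
  have h := Complex.integral_boundary_rect_eq_zero_of_differentiableOn F ⟨a, -H⟩ ⟨c, H⟩
    (hF.mono fun z hz => by
      rw [Complex.mem_reProdIm, Set.uIcc_of_le hac, Set.uIcc_of_le (by linarith)] at hz
      exact ⟨hz.1.1, hz.1.2, abs_le.2 hz.2⟩)
  simp only [Complex.ofReal_neg, neg_mul, ← sub_eq_add_neg] at h
  have e : Complex.I * ((∫ t in (-H)..H, F (c + t * Complex.I)) -
      ∫ t in (-H)..H, F (a + t * Complex.I)) =
      (∫ x in a..c, F (x + H * Complex.I)) - ∫ x in a..c, F (x - H * Complex.I) := by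
    simp only [smul_eq_mul] at h
    linear_combination h
  have e2 := congrArg norm e
  rw [norm_mul, Complex.norm_I, one_mul] at e2
  rw [e2]
  have b1 : ‖∫ x in a..c, F (x + H * Complex.I)‖ ≤ B * |c - a| :=
    intervalIntegral.norm_integral_le_of_norm_le_const fun x hx => by
      rw [Set.uIoc_of_le hac] at hx
      exact (hB x hx.1.le hx.2).1
  have b2 : ‖∫ x in a..c, F (x - H * Complex.I)‖ ≤ B * |c - a| :=
    intervalIntegral.norm_integral_le_of_norm_le_const fun x hx => by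
      rw [Set.uIoc_of_le hac] at hx
      exact (hB x hx.1.le hx.2).2
  rw [abs_of_nonneg (sub_nonneg.2 hac)] at b1 b2
  linarith [norm_sub_le (∫ x in a..c, F (x + H * Complex.I)) (∫ x in a..c, F (x - H * Complex.I))]

end Pool.Agent.Lib.MP_5db4ad_nt.S2
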