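import Pool.Agent.Lib.MP_5db4ad_nt.S2Defs

/-!
The sharp cut at `y` against the logistic weight: `StSharp` from `StTaub` and `StMassq`.
One Abel summation with a potential function replaces the dyadic decomposition.
-/

namespace Pool.Agent.Lib.MP_5db4ad_nt.S2

open Finset Filter
open scoped Topology

namespace Sharp

lemma log_step {x : ℝ} (hx : 1 < x) :
    1 / ((x + 1) * Real.log (x + 1) ^ 2) ≤ 1 / Real.log x - 1 / Real.log (x + 1) := by
  have h0 : 0 < Real.log x := Real.log_pos hx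
  have h1 : Real.log x ≤ Real.log (x + 1) := Real.log_le_log (by linarith) (by linarith)
  have h2 : 0 < Real.log (x + 1) := by linarith
  have h3 : 1 / (x + 1) ≤ Real.log (x + 1) - Real.log x := by
    have h4 := Real.log_le_sub_one_of_pos (x := x / (x + 1)) (by positivity)
    rw [Real.log_div (by positivity) (by positivity)] at h4
    have h5 : x / (x + 1) - 1 = -(1 / (x + 1)) := by field_simp; ring
    linarith
  have h6 : 1 / Real.log x - 1 / Real.log (x + 1) =
      (Real.log (x + 1) - Real.log x) / (Real.log x * Real.log (x + 1)) := by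
    field_simp
  have h7 : 1 / ((x + 1) * Real.log (x + 1) ^ 2) =
      1 / (x + 1) / (Real.log (x + 1) * Real.log (x + 1)) := by
    field_simp
  rw [h6, h7]
  have h8 : 0 ≤ Real.log (x + 1) - Real.log x := by linarith
  exact div_le_div₀ h8 h3 (by positivity) (by nlinarith)

lemma abel (g r s ψ : ℕ → ℝ) (C : ℝ) (a : ℕ) (hC : 0 ≤ C) (ha : 2 ≤ a) (hL : 1 ≤ Real.log a)
    (hT : ∀ n : ℕ, a ≤ n → |∑ m ∈ Icc 1 n, g m| ≤ C * n / Real.log n ^ 2)
    (hr0 : ∀ n, 0 ≤ r n) (hr1 : ∀ n, r n ≤ 1) (hrm : ∀ n, a ≤ n → r n ≤ r (n + 1))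
    (hs : ∀ n, a ≤ n → |s n| ≤ ψ n) (hψ : ∀ n : ℕ, a ≤ n → ψ n ≤ 1 / n)
    (hd : ∀ n, a ≤ n → |s (n + 1) - s n| ≤ 3 * (ψ n - ψ (n + 1))) (N : ℕ) (hN : a ≤ N) :
    |∑ m ∈ Icc 1 N, g m * r m * s m| ≤
      |∑ m ∈ Icc 1 a, g m * r m * s m| + 9 * C / Real.log a := by
  set L := Real.log a with hLdef
  have hL0 : 0 < L := by linarith
  obtain ⟨T, hTd⟩ : ∃ T : ℕ → ℝ, ∀ n, T n = ∑ m ∈ Icc 1 n, g m := ⟨_, fun _ => rfl⟩
  obtain ⟨S, hSd⟩ : ∃ S : ℕ → ℝ, ∀ n, S n = ∑ m ∈ Icc 1 n, g m * r m * s m := ⟨_, fun _ => rfl⟩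
  obtain ⟨h, hhd⟩ : ∃ h : ℕ → ℝ, ∀ n, h n = n / Real.log n ^ 2 := ⟨_, fun _ => rfl⟩
  have ha0 : (2 : ℝ) ≤ a := by exact_mod_cast ha
  have hlog : ∀ n : ℕ, a ≤ n → L ≤ Real.log n := fun n hn =>
    Real.log_le_log (by linarith) (by exact_mod_cast hn)
  have hn2 : ∀ n : ℕ, a ≤ n → (2 : ℝ) ≤ n := fun n hn => ha0.trans (by exact_mod_cast hn)
  have hh0 : ∀ n, 0 ≤ h n := fun n => by rw [hhd]; positivity
  have hψ0 : ∀ n, a ≤ n → 0 ≤ ψ n := fun n hn => (abs_nonneg _).trans (hs n hn)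
  have hTh : ∀ n, a ≤ n → |T n| ≤ C * h n := fun n hn => by
    rw [hTd, hhd, ← mul_div_assoc]; exact hT n hn
  have hhψ : ∀ n, a ≤ n → h n * ψ n ≤ 1 / L := fun n hn => by
    have h1 := hn2 n hn
    have h2 := hlog n hn
    have h3 : h n * ψ n ≤ h n * (1 / n) := mul_le_mul_of_nonneg_left (hψ n hn) (hh0 n)
    have h4 : h n * (1 / n) = 1 / Real.log n ^ 2 := by
      have : 0 < Real.log n := by linarith
      rw [hhd]; field_simp
    rw [h4] at h3
    exact h3.trans (one_div_le_one_div_of_le hL0 (by nlinarith))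
  have hend : ∀ n, a ≤ n → |T n * (r n * s n)| ≤ C / L := fun n hn => by
    rw [abs_mul, abs_mul, abs_of_nonneg (hr0 n)]
    have h1 : r n * |s n| ≤ ψ n :=
      (mul_le_of_le_one_left (abs_nonneg _) (hr1 n)).trans (hs n hn)
    calc |T n| * (r n * |s n|) ≤ C * h n * ψ n :=
          mul_le_mul (hTh n hn) h1 (mul_nonneg (hr0 n) (abs_nonneg _)) (mul_nonneg hC (hh0 n))
      _ = C * (h n * ψ n) := by ring
      _ ≤ C * (1 / L) := mul_le_mul_of_nonneg_left (hhψ n hn) hC
      _ = C / L := by ring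
  have key : ∀ n, a ≤ n →
      |S n - T n * (r n * s n)| + 3 * C * (h n * ψ n + 1 / Real.log n) - C / L * r n ≤
      |S a - T a * (r a * s a)| + 3 * C * (h a * ψ a + 1 / Real.log a) - C / L * r a := by
    intro n hn
    induction n, hn using Nat.le_induction with
    | base => exact le_rfl
    | succ n hn ih =>
      refine le_trans ?_ ih
      have hn' : a ≤ n + 1 := by omega
      have e1 : T (n + 1) = T n + g (n + 1) := by
        rw [hTd, hTd, Finset.sum_Icc_succ_top (by omega)]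
      have e2 : S (n + 1) = S n + g (n + 1) * r (n + 1) * s (n + 1) := by
        rw [hSd, hSd, Finset.sum_Icc_succ_top (by omega)]
      have e3 : S (n + 1) - T (n + 1) * (r (n + 1) * s (n + 1)) =
          (S n - T n * (r n * s n)) +
            T n * (-((r (n + 1) - r n) * s n) - r (n + 1) * (s (n + 1) - s n)) := by
        rw [e1, e2]; ring
      have b1 : |-((r (n + 1) - r n) * s n) - r (n + 1) * (s (n + 1) - s n)| ≤
          (r (n + 1) - r n) * ψ n + 3 * (ψ n - ψ (n + 1)) := by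
        refine (abs_sub _ _).trans (add_le_add ?_ ?_)
        · rw [abs_neg, abs_mul, abs_of_nonneg (sub_nonneg.2 (hrm n hn))]
          exact mul_le_mul_of_nonneg_left (hs n hn) (sub_nonneg.2 (hrm n hn))
        · rw [abs_mul, abs_of_nonneg (hr0 _)]
          exact (mul_le_of_le_one_left (abs_nonneg _) (hr1 _)).trans (hd n hn)
      have b2 : |T n * (-((r (n + 1) - r n) * s n) - r (n + 1) * (s (n + 1) - s n))| ≤
          C * h n * ((r (n + 1) - r n) * ψ n + 3 * (ψ n - ψ (n + 1))) := by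
        rw [abs_mul]
        exact mul_le_mul (hTh n hn) b1 (abs_nonneg _) (mul_nonneg hC (hh0 n))
      have b3 : C * (r (n + 1) - r n) * (h n * ψ n) ≤ C * (r (n + 1) - r n) * (1 / L) :=
        mul_le_mul_of_nonneg_left (hhψ n hn) (mul_nonneg hC (sub_nonneg.2 (hrm n hn)))
      have h1 := hn2 n hn
      have h2 := hlog n hn
      have h3 : Real.log n ≤ Real.log ((n : ℝ) + 1) := Real.log_le_log (by linarith) (by linarith)
      have b4 : h (n + 1) - h n ≤ 1 / Real.log ((n : ℝ) + 1) ^ 2 := by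
        rw [hhd, hhd]
        push_cast
        have h4 : (n : ℝ) / Real.log ((n : ℝ) + 1) ^ 2 ≤ n / Real.log n ^ 2 :=
          div_le_div_of_nonneg_left (by linarith) (by nlinarith) (by nlinarith)
        rw [add_div]
        linarith
      have b5 : (h (n + 1) - h n) * ψ (n + 1) ≤ 1 / Real.log n - 1 / Real.log ((n : ℝ) + 1) := by
        refine le_trans ?_ (log_step (by linarith))
        have h5 := hψ (n + 1) hn'
        push_cast at h5
        calc (h (n + 1) - h n) * ψ (n + 1) ≤ 1 / Real.log ((n : ℝ) + 1) ^ 2 * ψ (n + 1) :=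
              mul_le_mul_of_nonneg_right b4 (hψ0 _ hn')
          _ ≤ 1 / Real.log ((n : ℝ) + 1) ^ 2 * (1 / ((n : ℝ) + 1)) :=
              mul_le_mul_of_nonneg_left h5 (by positivity)
          _ = 1 / (((n : ℝ) + 1) * Real.log ((n : ℝ) + 1) ^ 2) := by
              rw [div_mul_div_comm, one_mul, mul_comm]
      have b6 := mul_le_mul_of_nonneg_left b5 (by positivity : 0 ≤ 3 * C)
      have b7 := abs_add_le (S n - T n * (r n * s n))
        (T n * (-((r (n + 1) - r n) * s n) - r (n + 1) * (s (n + 1) - s n)))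
      rw [e3]
      push_cast
      have e4 : C / L = C * (1 / L) := by ring
      rw [e4]
      nlinarith
  have k := key N hN
  have k1 := hend N hN
  have k2 := hend a le_rfl
  have k3 := hhψ a le_rfl
  have k4 : 0 ≤ 3 * C * (h N * ψ N + 1 / Real.log N) := by
    have := hh0 N
    have := hψ0 N hN
    have : 0 < Real.log N := hL0.trans_le (hlog N hN)
    positivity
  have k5 : C / L * r N ≤ C / L := mul_le_of_le_one_right (by positivity) (hr1 N)
  have k6 : 0 ≤ C / L * r a := mul_nonneg (by positivity) (hr0 a)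
  have k7 : 3 * C * (h a * ψ a + 1 / Real.log a) ≤ 6 * (C / L) := by
    have := mul_le_mul_of_nonneg_left k3 (by positivity : 0 ≤ 3 * C)
    have e4 : C / L = C * (1 / L) := by ring
    rw [e4, ← hLdef]
    linarith
  have k8 : |S N| ≤ |S N - T N * (r N * s N)| + |T N * (r N * s N)| := by
    have := abs_add_le (S N - T N * (r N * s N)) (T N * (r N * s N))
    rwa [sub_add_cancel] at this
  have k9 : |S a - T a * (r a * s a)| ≤ |S a| + |T a * (r a * s a)| := abs_sub _ _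
  rw [← hSd, ← hSd]
  have e5 : 9 * C / L = 9 * (C / L) := by ring
  rw [e5]
  linarith

lemma two_zpow_floor_le (v : ℝ) : (2 : ℝ) ^ ⌊v / Real.log 2⌋ ≤ Real.exp v := by
  have hl : 0 < Real.log 2 := Real.log_pos (by norm_num)
  have h1 : (2 : ℝ) ^ ⌊v / Real.log 2⌋ = Real.exp (Real.log 2 * (⌊v / Real.log 2⌋ : ℝ)) := by
    rw [← Real.rpow_intCast, Real.rpow_def_of_pos (by norm_num)]
  rw [h1, Real.exp_le_exp]
  have h2 := Int.floor_le (v / Real.log 2)
  rw [le_div_iff₀ hl] at h2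
  linarith

lemma abs_neg_two_zpow (k : ℤ) : |(-2 : ℝ) ^ k| = 2 ^ k := by
  rw [abs_zpow]; norm_num

lemma abs_Pf_le (v : ℝ) : |Pf v| ≤ 1 := by
  unfold Pf
  rw [abs_mul, abs_mul, abs_neg_two_zpow, abs_of_pos (Real.exp_pos _),
    abs_of_pos (by norm_num : (0 : ℝ) < 2 / 3)]
  have h1 := two_zpow_floor_le v
  have h2 : Real.exp v * Real.exp (-v) = 1 := by rw [← Real.exp_add]; simp
  have h3 := mul_le_mul_of_nonneg_right h1 (Real.exp_pos (-v)).le
  nlinarith

lemma zpow_jump {i j : ℤ} (h : j ≤ i) : |(-2 : ℝ) ^ j - (-2) ^ i| ≤ 3 * (2 ^ i - 2 ^ j) := by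
  rcases h.eq_or_lt with h | h
  · rw [h]; simp
  · have h1 : (2 : ℝ) ^ (j + 1) ≤ 2 ^ i := zpow_le_zpow_right₀ (by norm_num) (by omega)
    rw [zpow_add_one₀ (by norm_num)] at h1
    have h2 := abs_sub ((-2 : ℝ) ^ j) ((-2) ^ i)
    rw [abs_neg_two_zpow, abs_neg_two_zpow] at h2
    linarith

lemma Lq_ge {q : ℕ} (hq : 24 ≤ q) : 1 ≤ 2 * Lq q := by
  have h1 : (24 : ℝ) ≤ q := by exact_mod_cast hq
  have h2 := Real.log_two_gt_d9
  unfold Lq
  nlinarith

lemma wq_nonneg (q m : ℕ) : 0 ≤ wq q m := by unfold wq; positivity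

lemma wq_le_one (q m : ℕ) : wq q m ≤ 1 := by
  unfold wq
  have := Real.exp_pos (Real.log m / (2 * Lq q) - q)
  rw [div_le_one (by linarith)]
  linarith

lemma wq_anti {q m n : ℕ} (hq : 24 ≤ q) (hm : 1 ≤ m) (h : m ≤ n) : wq q n ≤ wq q m := by
  unfold wq
  have h1 := Lq_ge hq
  have h2 : Real.log m ≤ Real.log n :=
    Real.log_le_log (by exact_mod_cast hm) (by exact_mod_cast h)
  refine one_div_le_one_div_of_le (by positivity) ?_
  gcongr

lemma one_sub_wq_le {q m a : ℕ} (hq : 24 ≤ q) (hm : 1 ≤ m) (h : m ≤ a) :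
    1 - wq q m ≤ Real.exp (Real.log a - q) := by
  have h1 := Lq_ge hq
  have h2 : Real.log m ≤ Real.log a :=
    Real.log_le_log (by exact_mod_cast hm) (by exact_mod_cast h)
  have h3 : 0 ≤ Real.log m := Real.log_natCast_nonneg m
  have h4 : Real.log m / (2 * Lq q) ≤ Real.log m := div_le_self h3 h1
  have h5 : Real.exp (Real.log m / (2 * Lq q) - q) ≤ Real.exp (Real.log a - q) :=
    Real.exp_le_exp.2 (by linarith)
  refine le_trans ?_ h5
  unfold wq
  set e := Real.exp (Real.log m / (2 * Lq q) - q)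
  have he : 0 < e := Real.exp_pos _
  rw [sub_le_comm, le_div_iff₀ (by linarith)]
  nlinarith

lemma Pf_div {y : ℝ} (hy : 0 < y) {m : ℕ} (hm : 1 ≤ m) :
    Pf (Real.log y - Real.log m) / m =
      2 / 3 * ((-2 : ℝ) ^ ⌊(Real.log y - Real.log m) / Real.log 2⌋ / y) := by
  have hm0 : (0 : ℝ) < m := by exact_mod_cast hm
  unfold Pf
  rw [neg_sub, Real.exp_sub, Real.exp_log hm0, Real.exp_log hy]
  field_simp

lemma head (C : ℝ) (hC : 0 ≤ C) (hT : ∀ x : ℝ, 2 ≤ x → |TT x| ≤ C * x / Real.log x ^ 2)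
    {a q N : ℕ} (ha : 2 ≤ a) (hL : 1 ≤ Real.log a) (hq : 24 ≤ q) (hN : a ≤ N) {y : ℝ}
    (hy : 0 < y) :
    |∑ m ∈ Icc 1 N, (gg m / m - cw q m) * Pf (Real.log y - Real.log m)| ≤
      (∑ m ∈ Icc 1 a, |gg m|) * Real.exp (Real.log a - q) + 9 * C / Real.log a := by
  have hl : 0 < Real.log 2 := Real.log_pos (by norm_num)
  obtain ⟨k, hk⟩ : ∃ k : ℕ → ℤ, ∀ m, k m = ⌊(Real.log y - Real.log m) / Real.log 2⌋ :=
    ⟨_, fun _ => rfl⟩
  have hψ : ∀ n : ℕ, 1 ≤ n → (2 : ℝ) ^ k n / y ≤ 1 / n := fun n hn => by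
    have hn0 : (0 : ℝ) < n := by exact_mod_cast hn
    have h1 := two_zpow_floor_le (Real.log y - Real.log n)
    rw [← hk, Real.exp_sub, Real.exp_log hy, Real.exp_log hn0] at h1
    rw [div_le_iff₀ hy]
    calc (2 : ℝ) ^ k n ≤ y / n := h1
      _ = 1 / n * y := by ring
  have hs : ∀ n : ℕ, |(-2 : ℝ) ^ k n / y| = 2 ^ k n / y := fun n => by
    rw [abs_div, abs_neg_two_zpow, abs_of_pos hy]
  have main := abel gg (fun m => 1 - wq q m) (fun m => (-2 : ℝ) ^ k m / y)
    (fun m => (2 : ℝ) ^ k m / y) C a hC ha hL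
    (fun n hn => by
      have h1 := hT n (by exact_mod_cast ha.trans hn)
      unfold TT at h1
      rwa [Nat.floor_natCast] at h1)
    (fun n => sub_nonneg.2 (wq_le_one q n)) (fun n => by linarith [wq_nonneg q n])
    (fun n hn => by linarith [wq_anti hq (by omega : 1 ≤ n) (Nat.le_succ n)])
    (fun n _ => (hs n).le) (fun n hn => hψ n (by omega))
    (fun n hn => by
      have hn0 : (0 : ℝ) < n := by exact_mod_cast (by omega : 0 < n)
      have h1 : k (n + 1) ≤ k n := by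
        rw [hk, hk]
        refine Int.floor_le_floor (div_le_div_of_nonneg_right ?_ hl.le)
        have : Real.log n ≤ Real.log ((n + 1 : ℕ) : ℝ) :=
          Real.log_le_log hn0 (by push_cast; linarith)
        linarith
      rw [← sub_div, ← sub_div, abs_div, abs_of_pos hy, ← mul_div_assoc]
      exact div_le_div_of_nonneg_right (zpow_jump h1) hy.le) N hN
  have e1 : ∑ m ∈ Icc 1 N, (gg m / m - cw q m) * Pf (Real.log y - Real.log m) =
      2 / 3 * ∑ m ∈ Icc 1 N, gg m * (1 - wq q m) * ((-2 : ℝ) ^ k m / y) := by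
    rw [Finset.mul_sum]
    refine Finset.sum_congr rfl fun m hm => ?_
    have h1 := Pf_div hy (mem_Icc.1 hm).1
    rw [← hk] at h1
    calc (gg m / m - cw q m) * Pf (Real.log y - Real.log m)
        = gg m * (1 - wq q m) * (Pf (Real.log y - Real.log m) / m) := by unfold cw; ring
      _ = _ := by rw [h1]; ring
  have b1 : |∑ m ∈ Icc 1 a, gg m * (1 - wq q m) * ((-2 : ℝ) ^ k m / y)| ≤
      (∑ m ∈ Icc 1 a, |gg m|) * Real.exp (Real.log a - q) := by
    rw [Finset.sum_mul]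
    refine (Finset.abs_sum_le_sum_abs _ _).trans (Finset.sum_le_sum fun m hm => ?_)
    obtain ⟨hm1, hm2⟩ := mem_Icc.1 hm
    have hm0 : (1 : ℝ) ≤ m := by exact_mod_cast hm1
    rw [abs_mul, abs_mul, hs, abs_of_nonneg (sub_nonneg.2 (wq_le_one q m))]
    have h1 : (2 : ℝ) ^ k m / y ≤ 1 := (hψ m hm1).trans (by rw [div_le_one (by linarith)]; exact hm0)
    have h2 : 0 ≤ |gg m| * (1 - wq q m) :=
      mul_nonneg (abs_nonneg _) (sub_nonneg.2 (wq_le_one q m))
    exact (mul_le_of_le_one_right h2 h1).trans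
      (mul_le_mul_of_nonneg_left (one_sub_wq_le hq hm1 hm2) (abs_nonneg _))
  rw [e1, abs_mul, abs_of_pos (by norm_num : (0 : ℝ) < 2 / 3)]
  have b2 := abs_nonneg (∑ m ∈ Icc 1 N, gg m * (1 - wq q m) * ((-2 : ℝ) ^ k m / y))
  linarith

lemma split {q : ℕ} (hs : Summable fun m => |cw q m|) (y : ℝ) :
    |VV y - ∑' m, cw q m * Pf (Real.log y - Real.log m)| ≤
      |∑ m ∈ Icc 1 ⌊y⌋₊, (gg m / m - cw q m) * Pf (Real.log y - Real.log m)| +
        ∑' i, |cw q (i + (⌊y⌋₊ + 1))| := by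
  have hb : ∀ m : ℕ, ‖cw q m * Pf (Real.log y - Real.log m)‖ ≤ |cw q m| := fun m => by
    rw [Real.norm_eq_abs, abs_mul]
    exact mul_le_of_le_one_right (abs_nonneg _) (abs_Pf_le _)
  have hf : Summable fun m : ℕ => cw q m * Pf (Real.log y - Real.log m) :=
    Summable.of_norm_bounded hs hb
  have e1 := hf.sum_add_tsum_nat_add (⌊y⌋₊ + 1)
  have e2 : ∑ m ∈ range (⌊y⌋₊ + 1), cw q m * Pf (Real.log y - Real.log m) =
      ∑ m ∈ Icc 1 ⌊y⌋₊, cw q m * Pf (Real.log y - Real.log m) := by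
    symm
    refine Finset.sum_subset (fun m hm => ?_) (fun m hm hm' => ?_)
    · have := mem_Icc.1 hm
      exact mem_range.2 (by omega)
    · have h1 := mem_range.1 hm
      have h2 : m = 0 := by
        by_contra h
        exact hm' (mem_Icc.2 ⟨by omega, by omega⟩)
      subst h2
      simp [cw]
  have hs' : Summable fun i => |cw q (i + (⌊y⌋₊ + 1))| :=
    (summable_nat_add_iff (f := fun m => |cw q m|) (⌊y⌋₊ + 1)).2 hs
  have b1 := tsum_of_norm_bounded hs'.hasSum (fun i => hb (i + (⌊y⌋₊ + 1)))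
  rw [Real.norm_eq_abs] at b1
  rw [← e1, e2]
  have e3 : ∑ m ∈ Icc 1 ⌊y⌋₊, (gg m / m - cw q m) * Pf (Real.log y - Real.log m) =
      VV y - ∑ m ∈ Icc 1 ⌊y⌋₊, cw q m * Pf (Real.log y - Real.log m) := by
    unfold VV
    rw [← Finset.sum_sub_distrib]
    exact Finset.sum_congr rfl fun m _ => by ring
  rw [e3, ← sub_sub]
  exact (abs_sub _ _).trans (add_le_add le_rfl b1)

end Sharp

theorem sharp (h1 : StTaub) (h2 : StMassq) : StSharp := by
  intro ε hε
  obtain ⟨C, hT⟩ := h1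
  have hC : 0 ≤ C := by
    have h3 := (abs_nonneg _).trans (hT 2 le_rfl)
    have hl : 0 < Real.log 2 := Real.log_pos (by norm_num)
    rw [le_div_iff₀ (by positivity)] at h3
    linarith
  have tl : Tendsto (fun a : ℕ => Real.log a) atTop atTop :=
    Real.tendsto_log_atTop.comp tendsto_natCast_atTop_atTop
  have t1 : Tendsto (fun a : ℕ => 9 * C / Real.log a) atTop (𝓝 0) :=
    tendsto_const_nhds.div_atTop tl
  obtain ⟨a, ha, hL, ha3⟩ := ((eventually_ge_atTop 2).and ((tl.eventually_ge_atTop 1).and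
    (t1.eventually_le_const (by positivity : (0 : ℝ) < ε / 3)))).exists
  have t2 : Tendsto (fun q : ℕ => (∑ m ∈ Icc 1 a, |gg m|) * Real.exp (Real.log a - q)) atTop
      (𝓝 0) := by
    have t3 : Tendsto (fun q : ℕ => Real.log a - (q : ℝ)) atTop atBot :=
      tendsto_atBot_add_const_left _ _ (tendsto_neg_atTop_atBot.comp tendsto_natCast_atTop_atTop)
    simpa using (Real.tendsto_exp_atBot.comp t3).const_mul (∑ m ∈ Icc 1 a, |gg m|)
  filter_upwards [eventually_ge_atTop 24,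
    t2.eventually_le_const (by positivity : (0 : ℝ) < ε / 3)] with q hq hq2
  have t4 : Tendsto (fun y : ℝ => ∑' i, |cw q (i + (⌊y⌋₊ + 1))|) atTop (𝓝 0) :=
    (tendsto_sum_nat_add fun m => |cw q m|).comp
      ((tendsto_add_atTop_nat 1).comp tendsto_nat_floor_atTop)
  filter_upwards [eventually_gt_atTop (0 : ℝ), tendsto_nat_floor_atTop.eventually_ge_atTop a,
    t4.eventually_le_const (by positivity : (0 : ℝ) < ε / 3)] with y hy hy1 hy2
  have b1 := Sharp.split (h2.1 q hq).1 y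
  have b2 := Sharp.head C hC hT ha hL hq hy1 hy
  linarith

end Pool.Agent.Lib.MP_5db4ad_nt.S2
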