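import Pool.Agent.Lib.MP_5db4ad_nt.S2Defs

/-! Counting integers prime to 6 and the mass of `gg` in long and short ranges. -/

namespace Pool.Agent.Lib.MP_5db4ad_nt.S2

open Finset

namespace Short

lemma cop6 {n : ℕ} (h : Nat.Coprime n 6) : n % 6 = 1 ∨ n % 6 = 5 := by
  have h2 : ¬ 2 ∣ n := fun e => by
    have := Nat.dvd_gcd e (show 2 ∣ 6 by norm_num)
    rw [h] at this
    omega
  have h3 : ¬ 3 ∣ n := fun e => by
    have := Nat.dvd_gcd e (show 3 ∣ 6 by norm_num)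
    rw [h] at this
    omega
  omega

lemma card_le (S : Finset ℕ) (k m M : ℕ) (hS : ∀ n ∈ S, m ≤ n ∧ n ≤ M)
    (hi : Set.InjOn (fun n => n / k) S) : S.card ≤ M / k + 1 - m / k := by
  rw [← Nat.card_Icc]
  refine card_le_card_of_injOn (fun n => n / k) (fun n hn => ?_) hi
  simp only [coe_Icc, Set.mem_Icc]
  exact ⟨Nat.div_le_div_right (hS n hn).1, Nat.div_le_div_right (hS n hn).2⟩

/-- indicator of the integers prime to 6 -/
noncomputable def e6 (n : ℕ) : ℝ := if Nat.Coprime n 6 then 1 else 0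

lemma e6_nonneg (n : ℕ) : 0 ≤ e6 n := by unfold e6; split_ifs <;> norm_num

lemma e6_le (n : ℕ) : e6 n ≤ 1 := by unfold e6; split_ifs <;> norm_num

lemma d6_nonneg (n : ℕ) : 0 ≤ d6 n := by unfold d6; split_ifs <;> positivity

lemma d6_le (n : ℕ) : d6 n ≤ ∑ x ∈ n.divisorsAntidiagonal, e6 x.1 * e6 x.2 := by
  unfold d6
  split_ifs with h
  · rw [Nat.sum_divisorsAntidiagonal fun a b => e6 a * e6 b, card_eq_sum_ones, Nat.cast_sum]
    refine sum_le_sum fun a ha => ?_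
    have h1 := Nat.dvd_of_mem_divisors ha
    rw [e6, e6, if_pos (h.coprime_dvd_left h1),
      if_pos (h.coprime_dvd_left (Nat.div_dvd_of_dvd h1))]
    simp
  · exact sum_nonneg fun x _ => mul_nonneg (e6_nonneg _) (e6_nonneg _)

lemma d6_le' (n : ℕ) :
    d6 n ≤ 2 * ∑ x ∈ n.divisorsAntidiagonal, if x.1 ≤ x.2 then e6 x.1 * e6 x.2 else 0 := by
  have h1 : (∑ x ∈ n.divisorsAntidiagonal, if x.2 ≤ x.1 then e6 x.1 * e6 x.2 else 0) =
      ∑ x ∈ n.divisorsAntidiagonal, if x.1 ≤ x.2 then e6 x.1 * e6 x.2 else 0 := by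
    refine sum_equiv (Equiv.prodComm ℕ ℕ) (fun x => ?_) fun x _ => ?_
    · exact Nat.swap_mem_divisorsAntidiagonal.symm
    · simp [mul_comm]
  refine (d6_le n).trans ?_
  rw [two_mul]
  nth_rewrite 1 [← h1]
  rw [← sum_add_distrib]
  refine sum_le_sum fun x _ => ?_
  have := mul_nonneg (e6_nonneg x.1) (e6_nonneg x.2)
  split_ifs <;> linarith

lemma sum_anti (S : Finset ℕ) {F G : ℕ × ℕ → ℝ} (hG : ∀ x, 0 ≤ G x) (hF : ∀ x, F x ≤ G x)
    (T : Finset (ℕ × ℕ)) (hT : ∀ x : ℕ × ℕ, x.1 * x.2 ∈ S → x.1 * x.2 ≠ 0 → F x ≠ 0 → x ∈ T) :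
    ∑ m ∈ S, ∑ x ∈ m.divisorsAntidiagonal, F x ≤ ∑ x ∈ T, G x := by
  rw [← sum_biUnion, ← sum_filter_ne_zero]
  · refine (sum_le_sum fun x _ => hF x).trans
      (sum_le_sum_of_subset_of_nonneg (fun x hx => ?_) fun x _ _ => hG x)
    simp only [mem_filter, mem_biUnion, Nat.mem_divisorsAntidiagonal] at hx
    obtain ⟨⟨m, hm, e, h0⟩, h⟩ := hx
    exact hT x (e ▸ hm) (e ▸ h0) h
  · intro m _ n _ hmn
    refine disjoint_left.2 fun x h1 h2 => hmn ?_
    rw [Nat.mem_divisorsAntidiagonal] at h1 h2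
    exact h1.1.symm.trans h2.1

lemma conv_prod {u v g w : ℕ → ℝ} (hu : ∀ n, 0 ≤ u n) (hv : ∀ n, 0 ≤ v n) (hw : ∀ n, 0 ≤ w n)
    (hm : ∀ a b, w (a * b) = w a * w b)
    (hg : ∀ m, g m ≤ ∑ x ∈ m.divisorsAntidiagonal, u x.1 * v x.2) (N : ℕ) :
    ∑ m ∈ range N, g m * w m ≤ (∑ b ∈ range N, u b * w b) * ∑ n ∈ range N, v n * w n := by
  rw [sum_mul_sum, ← sum_product']
  refine le_trans (sum_le_sum fun m _ => ?_) (sum_anti (range N)
    (F := fun x => u x.1 * w x.1 * (v x.2 * w x.2))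
    (fun x => mul_nonneg (mul_nonneg (hu _) (hw _)) (mul_nonneg (hv _) (hw _))) (fun _ => le_rfl) _
    fun x h1 h2 _ => ?_)
  · refine (mul_le_mul_of_nonneg_right (hg m) (hw m)).trans (le_of_eq ?_)
    rw [sum_mul]
    refine sum_congr rfl fun x hx => ?_
    rw [← (Nat.mem_divisorsAntidiagonal.1 hx).1, hm]
    ring
  · rw [mem_range] at h1
    have ha : 0 < x.1 := Nat.pos_of_ne_zero (left_ne_zero_of_mul h2)
    have hb : 0 < x.2 := Nat.pos_of_ne_zero (right_ne_zero_of_mul h2)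
    simp only [mem_product, mem_range]
    exact ⟨(Nat.le_mul_of_pos_right _ hb).trans_lt h1, (Nat.le_mul_of_pos_left _ ha).trans_lt h1⟩

lemma key (f : ℕ → ℝ) (h0 : ∀ n, 0 ≤ f n) (hf : ∀ m n, 1 ≤ m → m ≤ n → f n ≤ f m) (F : Finset ℕ)
    (J : ℕ) (hF : ∀ a ∈ F, Nat.Coprime a 6 → a / 3 ≤ J) :
    ∑ a ∈ F, e6 a * f a ≤ ∑ j ∈ range (J + 1), f (3 * j + 1) := by
  have h1 : ∑ a ∈ F, e6 a * f a = ∑ a ∈ F.filter fun a => Nat.Coprime a 6, f a := by
    rw [sum_filter]
    exact sum_congr rfl fun a _ => by unfold e6; split_ifs <;> simp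
  have hi : Set.InjOn (fun a => a / 3) (F.filter fun a => Nat.Coprime a 6 : Finset ℕ) := by
    intro a ha b hb e
    have := cop6 (mem_filter.1 ha).2
    have := cop6 (mem_filter.1 hb).2
    simp only at e
    omega
  rw [h1]
  calc _ ≤ ∑ a ∈ F.filter fun a => Nat.Coprime a 6, f (3 * (a / 3) + 1) := by
        refine sum_le_sum fun a ha => hf _ _ (by omega) ?_
        have := cop6 (mem_filter.1 ha).2
        omega
    _ = ∑ j ∈ (F.filter fun a => Nat.Coprime a 6).image fun a => a / 3, f (3 * j + 1) :=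
        (sum_image (f := fun j => f (3 * j + 1)) hi).symm
    _ ≤ _ := by
        refine sum_le_sum_of_subset_of_nonneg (fun j hj => ?_) fun _ _ _ => h0 _
        obtain ⟨a, ha, rfl⟩ := mem_image.1 hj
        have := hF a (mem_filter.1 ha).1 (mem_filter.1 ha).2
        exact mem_range.2 (by omega)

lemma sum_inv (J : ℕ) :
    ∑ j ∈ range (J + 1), (((3 * j + 1 : ℕ) : ℝ))⁻¹ ≤ 1 + Real.log (3 * J + 1) / 3 := by
  induction J with
  | zero => simp
  | succ J ih =>
    rw [sum_range_succ]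
    have h1 : (0 : ℝ) < 3 * J + 1 := by positivity
    have h2 := Real.log_le_sub_one_of_pos (show (0 : ℝ) < (3 * J + 1) / (3 * J + 4) by positivity)
    rw [Real.log_div h1.ne' (by positivity)] at h2
    have h3 : ((3 : ℝ) * J + 1) / (3 * J + 4) - 1 = -3 * (3 * J + 4 : ℝ)⁻¹ := by
      field_simp
      ring
    have h4 : (3 : ℝ) * (J + 1) + 1 = 3 * J + 4 := by ring
    push_cast at ih ⊢
    rw [h4]
    linarith

lemma sum_rpow {δ : ℝ} (hδ : 0 < δ) (J : ℕ) :
    ∑ j ∈ range (J + 1), ((3 * j + 1 : ℕ) : ℝ) ^ (-(1 + δ)) ≤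
      1 + (1 - (3 * J + 1 : ℝ) ^ (-δ)) / (3 * δ) := by
  induction J with
  | zero => simp
  | succ J ih =>
    rw [sum_range_succ]
    have h1 : (0 : ℝ) < 3 * J + 1 := by positivity
    have h4 : (3 : ℝ) * (J + 1) + 1 = 3 * J + 4 := by ring
    have h5 : (0 : ℝ) < 3 * J + 4 := by positivity
    have h2 := Real.log_le_sub_one_of_pos (div_pos h1 h5)
    have h3 : ((3 : ℝ) * J + 1) / (3 * J + 4) - 1 = -3 * (3 * J + 4 : ℝ)⁻¹ := by
      field_simp
      ring
    have h6 : 1 + 3 * δ * (3 * J + 4 : ℝ)⁻¹ ≤ ((3 * J + 1 : ℝ) / (3 * J + 4)) ^ (-δ) := by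
      rw [Real.rpow_def_of_pos (div_pos h1 h5)]
      refine le_trans ?_ (Real.add_one_le_exp _)
      nlinarith
    rw [Real.div_rpow h1.le h5.le, le_div_iff₀ (by positivity)] at h6
    have h7 : (3 * J + 4 : ℝ) ^ (-(1 + δ)) = (3 * J + 4 : ℝ)⁻¹ * (3 * J + 4 : ℝ) ^ (-δ) := by
      rw [neg_add, Real.rpow_add h5, Real.rpow_neg_one]
    push_cast at ih ⊢
    rw [h4, h7]
    refine (add_le_add_left ih _).trans ?_
    rw [add_assoc, add_le_add_iff_left, div_add' _ _ _ (by positivity)]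
    refine div_le_div_of_nonneg_right ?_ (by positivity)
    linarith

lemma e6_rpow {δ : ℝ} (hδ : 0 < δ) (N : ℕ) :
    ∑ a ∈ range N, e6 a * (a : ℝ) ^ (-(1 + δ)) ≤ 1 + 1 / (3 * δ) := by
  refine (key (fun a => (a : ℝ) ^ (-(1 + δ))) (fun n => by positivity) (fun m n h1 h2 => ?_) _ N
    fun a ha _ => ?_).trans ((sum_rpow hδ N).trans ?_)
  · exact Real.rpow_le_rpow_of_nonpos (by exact_mod_cast h1) (by exact_mod_cast h2) (by linarith)
  · have := mem_range.1 ha
    omega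
  · have : (0 : ℝ) ≤ (3 * N + 1 : ℝ) ^ (-δ) := by positivity
    gcongr
    linarith

lemma e6_inv {Z : ℕ} (hZ : 1 ≤ Z) : ∑ a ∈ Icc 1 Z, e6 a * (a : ℝ)⁻¹ ≤ 1 + Real.log Z / 3 := by
  refine (key (fun a => (a : ℝ)⁻¹) (fun n => by positivity) (fun m n h1 h2 => ?_) _ ((Z - 1) / 3)
    fun a ha h => ?_).trans ((sum_inv _).trans ?_)
  · exact inv_anti₀ (by exact_mod_cast h1) (by exact_mod_cast h2)
  · have := mem_Icc.1 ha
    have := cop6 h
    omega
  · have : 3 * ((Z - 1) / 3) + 1 ≤ Z := by omega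
    gcongr
    exact_mod_cast this

end Short

open Short

theorem count : StCount := by
  intro a h h0 S hS
  rcases S.eq_empty_or_nonempty with rfl | hne
  · simp only [card_empty, Nat.cast_zero]
    constructor <;> positivity
  have hm := hS _ (S.min'_mem hne)
  have hM := hS _ (S.max'_mem hne)
  have hb : ∀ n ∈ S, S.min' hne ≤ n ∧ n ≤ S.max' hne := fun n hn => ⟨S.min'_le n hn, S.le_max' n hn⟩
  have h1 := cop6 hm.1
  have h2 := cop6 hM.1
  have h3 := (hb _ (S.max'_mem hne)).1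
  have hi : ∀ k, k = 2 ∨ k = 3 → Set.InjOn (fun n => n / k) S := by
    intro k hk a ha b hb e
    have := cop6 (hS a ha).1
    have := cop6 (hS b hb).1
    simp only at e
    rcases hk with rfl | rfl <;> omega
  have h4 := card_le S 3 _ _ hb (hi 3 (by simp))
  have h5 := card_le S 2 _ _ hb (hi 2 (by simp))
  have h6 : 3 * S.card + S.min' hne ≤ S.max' hne + 4 := by omega
  have h7 : 2 * S.card + S.min' hne ≤ S.max' hne + 2 := by omega
  have h8 : (3 : ℝ) * S.card + (S.min' hne : ℕ) ≤ (S.max' hne : ℕ) + 4 := by exact_mod_cast h6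
  have h9 : (2 : ℝ) * S.card + (S.min' hne : ℕ) ≤ (S.max' hne : ℕ) + 2 := by exact_mod_cast h7
  constructor <;> linarith [hm.2.1, hM.2.2]

theorem mass (h : StMaj) : StMass := by
  intro δ hδ
  obtain ⟨r, hr, h1, -, hg⟩ := h
  have hw : ∀ n : ℕ, 0 ≤ (n : ℝ) ^ (-(1 + δ)) := fun n => by positivity
  have hm : ∀ a b : ℕ, ((a * b : ℕ) : ℝ) ^ (-(1 + δ)) = (a : ℝ) ^ (-(1 + δ)) * (b : ℝ) ^ (-(1 + δ)) :=
    fun a b => by rw [Nat.cast_mul, Real.mul_rpow (by positivity) (by positivity)]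
  have hN : ∀ N, ∑ m ∈ range N, |gg m| * (m : ℝ) ^ (-(1 + δ)) ≤ 1.1361 * (1 + 1 / (3 * δ)) ^ 2 := by
    intro N
    have e1 := conv_prod hr d6_nonneg hw hm hg N
    have e2 := conv_prod e6_nonneg e6_nonneg hw hm d6_le N
    have e3 := e6_rpow hδ N
    have e4 : 0 ≤ ∑ a ∈ range N, e6 a * (a : ℝ) ^ (-(1 + δ)) :=
      sum_nonneg fun a _ => mul_nonneg (e6_nonneg _) (hw _)
    have e5 : ∑ b ∈ range N, r b * (b : ℝ) ^ (-(1 + δ)) ≤ 1.1361 := by
      refine le_trans (sum_le_sum fun b _ => ?_) (h1 (range N))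
      rw [div_eq_mul_inv, ← Real.rpow_neg_one]
      refine mul_le_mul_of_nonneg_left ?_ (hr b)
      rcases Nat.eq_zero_or_pos b with rfl | hb
      · rw [Nat.cast_zero, Real.zero_rpow (by linarith), Real.zero_rpow (by norm_num)]
      · exact Real.rpow_le_rpow_of_exponent_le (by exact_mod_cast hb) (by linarith)
    refine e1.trans (mul_le_mul e5 (e2.trans ?_)
      (sum_nonneg fun a _ => mul_nonneg (d6_nonneg _) (hw _)) (by norm_num))
    rw [_root_.sq]
    exact mul_self_le_mul_self e4 e3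
  have h0 : ∀ m : ℕ, 0 ≤ |gg m| * (m : ℝ) ^ (-(1 + δ)) := fun m => mul_nonneg (abs_nonneg _) (hw m)
  exact ⟨summable_of_sum_range_le h0 hN, Real.tsum_le_of_sum_range_le h0 hN⟩

lemma Short.dshort {Y H : ℝ} (hH : 0 ≤ H) (hZ : 1 ≤ Y + H) (T : Finset ℕ)
    (hT : ∀ n ∈ T, Y ≤ n ∧ n ≤ Y + H) :
    ∑ n ∈ T, d6 n ≤ H * (2 / 3 + Real.log (Y + H) / 9) + 8 / 3 * √(Y + H) := by
  set Z := ⌊√(Y + H)⌋₊ with hZd
  have hs : 1 ≤ √(Y + H) := Real.one_le_sqrt.2 hZ
  have hZ1 : 1 ≤ Z := Nat.le_floor (by exact_mod_cast hs)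
  have hZ2 : (Z : ℝ) ≤ √(Y + H) := Nat.floor_le (by positivity)
  have h1 := sum_anti T (F := fun x => if x.1 ≤ x.2 then e6 x.1 * e6 x.2 else 0)
    (G := fun x => e6 x.1 * e6 x.2) (fun x => mul_nonneg (e6_nonneg _) (e6_nonneg _))
    (fun x => by
      have := mul_nonneg (e6_nonneg x.1) (e6_nonneg x.2)
      split_ifs <;> linarith)
    ((Icc 1 Z ×ˢ range (⌊Y + H⌋₊ + 1)).filter fun x => Y ≤ x.1 * x.2 ∧ (x.1 * x.2 : ℝ) ≤ Y + H)
    (fun x hx h0 hF => by
      have e1 := hT _ hx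
      have ha : 0 < x.1 := Nat.pos_of_ne_zero (left_ne_zero_of_mul h0)
      have e2 : x.1 ≤ x.2 := by
        by_contra e
        exact hF (if_neg e)
      have e3 : (x.1 : ℝ) ≤ x.2 := by exact_mod_cast e2
      have e4 : x.1 * x.2 ≤ ⌊Y + H⌋₊ := Nat.le_floor e1.2
      have e5 := Nat.le_mul_of_pos_left x.2 ha
      push_cast at e1
      simp only [mem_filter, mem_product, mem_Icc, mem_range]
      refine ⟨⟨⟨ha, Nat.le_floor (Real.le_sqrt_of_sq_le ?_)⟩, by omega⟩, e1⟩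
      have : (0 : ℝ) ≤ x.1 := by positivity
      nlinarith [e1.2])
  rw [sum_filter, sum_product] at h1
  have h2 : ∀ a ∈ Icc 1 Z, (∑ c ∈ range (⌊Y + H⌋₊ + 1),
      if Y ≤ (a : ℝ) * c ∧ (a * c : ℝ) ≤ Y + H then e6 a * e6 c else 0) ≤
      H / 3 * (e6 a * (a : ℝ)⁻¹) + 4 / 3 := by
    intro a ha
    have ha0 : (0 : ℝ) < a := by exact_mod_cast (mem_Icc.1 ha).1
    have e1 := (count (Y / a) (H / a) (by positivity) ((range (⌊Y + H⌋₊ + 1)).filter fun c =>
      (Y ≤ (a : ℝ) * c ∧ (a * c : ℝ) ≤ Y + H) ∧ Nat.Coprime c 6) fun c hc => by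
        obtain ⟨-, ⟨e2, e3⟩, e4⟩ := mem_filter.1 hc
        refine ⟨e4, by rwa [div_le_iff₀' ha0], ?_⟩
        rwa [← add_div, le_div_iff₀' ha0]).1
    rw [card_filter, Nat.cast_sum] at e1
    have e2 := e6_le a
    have e3 := e6_nonneg a
    calc _ = e6 a * ∑ c ∈ range (⌊Y + H⌋₊ + 1),
          (((if (Y ≤ (a : ℝ) * c ∧ (a * c : ℝ) ≤ Y + H) ∧ Nat.Coprime c 6 then 1 else 0 : ℕ)) : ℝ) := by
          rw [mul_sum]
          refine sum_congr rfl fun c _ => ?_
          by_cases f1 : Y ≤ (a : ℝ) * c ∧ (a * c : ℝ) ≤ Y + H <;> by_cases f2 : Nat.Coprime c 6 <;>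
            simp [f1, f2, e6]
      _ ≤ e6 a * (H / a / 3 + 4 / 3) := mul_le_mul_of_nonneg_left e1 e3
      _ ≤ _ := by rw [div_eq_mul_inv H]; nlinarith
  have h3 := sum_le_sum h2
  rw [sum_add_distrib, ← mul_sum, sum_const, Nat.card_Icc, nsmul_eq_mul, Nat.add_sub_cancel] at h3
  have h4 : Real.log Z ≤ Real.log (Y + H) / 2 := by
    rw [← Real.log_sqrt (by linarith)]
    exact Real.log_le_log (by exact_mod_cast hZ1) hZ2
  have h5 := mul_le_mul_of_nonneg_left ((e6_inv hZ1).trans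
    (show _ ≤ 1 + Real.log (Y + H) / 6 by linarith)) (show 0 ≤ H / 3 by positivity)
  have h6 := sum_le_sum fun n (_ : n ∈ T) => d6_le' n
  rw [← mul_sum] at h6
  linarith

theorem short (h : StMaj) : StShort := by
  intro y H hy hH S hS
  obtain ⟨r, hr, h1, h2, hg⟩ := h
  set N := ⌊y + H⌋₊ with hN
  have hl : 0 ≤ Real.log (y + H) := Real.log_nonneg (by linarith)
  have e1 := sum_anti S (F := fun x => r x.1 * d6 x.2) (G := fun x => r x.1 * d6 x.2)
    (fun x => mul_nonneg (hr _) (d6_nonneg _)) (fun _ => le_rfl)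
    ((Icc 1 N ×ˢ range (N + 1)).filter fun x => y ≤ x.1 * x.2 ∧ (x.1 * x.2 : ℝ) ≤ y + H)
    (fun x hx h0 _ => by
      have f1 := hS _ hx
      have ha : 0 < x.1 := Nat.pos_of_ne_zero (left_ne_zero_of_mul h0)
      have hb : 0 < x.2 := Nat.pos_of_ne_zero (right_ne_zero_of_mul h0)
      have f2 : x.1 * x.2 ≤ N := Nat.le_floor f1.2
      have f3 := Nat.le_mul_of_pos_left x.2 ha
      have f4 := Nat.le_mul_of_pos_right x.1 hb
      push_cast at f1
      simp only [mem_filter, mem_product, mem_Icc, mem_range]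
      exact ⟨⟨⟨ha, by omega⟩, by omega⟩, f1⟩)
  rw [sum_filter, sum_product] at e1
  have e2 : ∀ b ∈ Icc 1 N, (∑ n ∈ range (N + 1),
      if y ≤ (b : ℝ) * n ∧ (b * n : ℝ) ≤ y + H then r b * d6 n else 0) ≤
      H * (2 / 3 + Real.log (y + H) / 9) * (r b / b) + 8 / 3 * √(y + H) * (r b / √b) := by
    intro b hb
    have hb1 : (1 : ℝ) ≤ b := by exact_mod_cast (mem_Icc.1 hb).1
    have hb0 : (0 : ℝ) < b := by linarith
    have hb2 : (b : ℝ) ≤ y + H :=
      le_trans (by exact_mod_cast (mem_Icc.1 hb).2) (Nat.floor_le (by linarith))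
    have f1 := dshort (Y := y / b) (H := H / b) (by positivity)
      (by rwa [← add_div, one_le_div hb0]) ((range (N + 1)).filter fun n =>
        y ≤ (b : ℝ) * n ∧ (b * n : ℝ) ≤ y + H) fun n hn => by
          obtain ⟨-, f2, f3⟩ := mem_filter.1 hn
          exact ⟨by rwa [div_le_iff₀' hb0], by rwa [← add_div, le_div_iff₀' hb0]⟩
    rw [← add_div, Real.sqrt_div (by linarith)] at f1
    have f2 : Real.log ((y + H) / b) ≤ Real.log (y + H) :=
      Real.log_le_log (by positivity) (div_le_self (by linarith) hb1)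
    rw [← sum_filter, ← mul_sum]
    calc _ ≤ r b * (H / b * (2 / 3 + Real.log (y + H) / 9) + 8 / 3 * (√(y + H) / √b)) := by
          refine mul_le_mul_of_nonneg_left (f1.trans ?_) (hr b)
          gcongr
      _ = _ := by ring
  have e3 := sum_le_sum e2
  rw [sum_add_distrib, ← mul_sum, ← mul_sum] at e3
  have e4 := mul_le_mul_of_nonneg_left (h1 (Icc 1 N))
    (show 0 ≤ H * (2 / 3 + Real.log (y + H) / 9) by positivity)
  have e5 := mul_le_mul_of_nonneg_left (h2 (Icc 1 N)) (show 0 ≤ 8 / 3 * √(y + H) by positivity)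
  have e6 := sum_le_sum fun m (_ : m ∈ S) => hg m
  have e7 := mul_nonneg hH hl
  nlinarith

lemma Short.logistic {y θ : ℝ} (h0 : 0 ≤ θ) (h1 : θ ≤ 1) :
    1 / (1 + Real.exp y) ≤ Real.exp (-(θ * y)) := by
  have h2 := Real.exp_pos y
  rw [Real.exp_neg, one_div]
  refine inv_anti₀ (Real.exp_pos _) ?_
  rcases le_total 0 y with h | h
  · have := Real.exp_le_exp.2 (show θ * y ≤ y by nlinarith)
    linarith
  · have := Real.exp_le_one_iff.2 (show θ * y ≤ 0 by nlinarith)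
    linarith

theorem massq (h : StMass) : StMassq := by
  have l1 := Real.log_two_gt_d9
  have l2 := Real.log_two_lt_d9
  have x1 := Real.exp_one_lt_d9
  have g0 : gg 0 = 0 := by simp [gg, mf]
  constructor
  · intro q hq
    have hq' : (24 : ℝ) ≤ q := by exact_mod_cast hq
    have hL : 0 < Lq q := by unfold Lq; nlinarith
    obtain ⟨s1, s2⟩ := h (1 / (q * Lq q)) (by positivity)
    have hle : ∀ m : ℕ, |cw q m| ≤
        Real.exp 2 * (|gg m| * (m : ℝ) ^ (-(1 + 1 / (q * Lq q)))) := by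
      intro m
      rcases Nat.eq_zero_or_pos m with rfl | hm
      · simp [cw, g0]
      have hm' : (0 : ℝ) < m := by exact_mod_cast hm
      have e1 := logistic (y := Real.log m / (2 * Lq q) - q) (θ := 2 / q) (by positivity)
        (by rw [div_le_one (by linarith)]; linarith)
      have e2 : Real.exp (-(2 / q * (Real.log m / (2 * Lq q) - q))) / m =
          Real.exp 2 * (m : ℝ) ^ (-(1 + 1 / (q * Lq q))) := by
        rw [Real.rpow_def_of_pos hm', ← Real.exp_add, div_eq_iff hm'.ne']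
        nth_rewrite 3 [← Real.exp_log hm']
        rw [← Real.exp_add]
        congr 1
        field_simp
        ring
      have e3 : 0 ≤ wq q m := by unfold wq; positivity
      rw [cw, abs_div, abs_mul, abs_of_nonneg e3, abs_of_pos hm', mul_div_assoc, mul_left_comm,
        ← e2]
      gcongr
      exact e1
    have s3 := s1.mul_left (Real.exp 2)
    have s4 : Summable fun m => |cw q m| := s3.of_nonneg_of_le (fun _ => abs_nonneg _) hle
    refine ⟨s4, (s4.tsum_le_tsum hle s3).trans ?_⟩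
    rw [tsum_mul_left]
    have e1 : Real.exp 2 ≤ 7.39 := by
      rw [show (2 : ℝ) = 1 + 1 by norm_num, Real.exp_add]
      nlinarith [Real.exp_pos 1]
    have e2 : 1 + 1 / (3 * (1 / (q * Lq q))) ≤ 0.2311 * (q : ℝ) ^ 2 := by
      rw [show 1 / (3 * (1 / (q * Lq q))) = q * Lq q / 3 by field_simp, Lq]
      nlinarith
    calc _ ≤ 7.39 * (1.1361 * (0.2311 * (q : ℝ) ^ 2) ^ 2) := by
          refine mul_le_mul e1 (s2.trans ?_) (tsum_nonneg fun m => by positivity) (by norm_num)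
          gcongr
      _ ≤ _ := by nlinarith [pow_pos (show (0 : ℝ) < q by linarith) 4]
  · obtain ⟨s1, s2⟩ := h (1 / (36 * Real.log 2)) (by positivity)
    have hle : ∀ m ∈ range (2 ^ 36), |gg m| / m ≤
        Real.exp 1 * (|gg m| * (m : ℝ) ^ (-(1 + 1 / (36 * Real.log 2)))) := by
      intro m hm
      rcases Nat.eq_zero_or_pos m with rfl | hm0
      · simp [g0]
      have hm' : (0 : ℝ) < m := by exact_mod_cast hm0
      have e1 : Real.log m ≤ 36 * Real.log 2 := by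
        have := Real.log_le_log hm' (show (m : ℝ) ≤ 2 ^ 36 by exact_mod_cast (mem_range.1 hm).le)
        rwa [Real.log_pow, Nat.cast_ofNat] at this
      rw [mul_left_comm, div_eq_mul_inv]
      refine mul_le_mul_of_nonneg_left ?_ (abs_nonneg _)
      rw [Real.rpow_def_of_pos hm', ← Real.exp_add]
      nth_rewrite 1 [← Real.exp_log hm']
      rw [← Real.exp_neg, Real.exp_le_exp]
      have e2 : Real.log m * (1 / (36 * Real.log 2)) ≤ 1 := by
        rwa [mul_one_div, div_le_one (by positivity)]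
      linarith
    refine (sum_le_sum hle).trans ?_
    rw [← mul_sum]
    have e1 := (s1.sum_le_tsum (range (2 ^ 36)) fun m _ => by positivity).trans s2
    rw [show 1 / (3 * (1 / (36 * Real.log 2))) = 12 * Real.log 2 by field_simp; norm_num] at e1
    calc _ ≤ (2.72 * (1.1361 * (1 + 12 * 0.6932) ^ 2) : ℝ) := by
          refine mul_le_mul (by linarith) (e1.trans ?_) (sum_nonneg fun m _ => by positivity)
            (by norm_num)
          gcongr
          linarith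
      _ ≤ _ := by norm_num

end Pool.Agent.Lib.MP_5db4ad_nt.S2
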