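import Pool.Agent.Lib.MP_5db4ad_nt.S2Defs2

/-! The square wave part of the approximation. -/

namespace Pool.Agent.Lib.MP_5db4ad_nt.S2

open Finset Filter Topology
open scoped Real

namespace Sq

lemma norm_ex (k : ℕ) (u : ℝ) : ‖ex k u‖ = 1 := Complex.norm_exp_ofReal_mul_I _

lemma norm_cs (k : ℕ) : ‖cs k‖ = 1 / ((2 * k + 1) * π) := by
  have e : (2 * k + 1 : ℂ) = ((2 * k + 1 : ℝ) : ℂ) := by push_cast; ring
  rw [cs, norm_div, norm_one, norm_mul, norm_mul, Complex.norm_I, mul_one, Complex.norm_real,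
    Real.norm_of_nonneg Real.pi_pos.le, e, Complex.norm_real, Real.norm_of_nonneg (by positivity)]

lemma abs_trig_le (M : ℕ) (c : ℕ → ℂ) (u : ℝ) : |trig M c u| ≤ ∑ k ∈ range M, 2 * ‖c k‖ := by
  refine (abs_sum_le_sum_abs _ _).trans (sum_le_sum fun k _ => ?_)
  rw [abs_mul, abs_two]
  refine mul_le_mul_of_nonneg_left ((Complex.abs_re_le_norm _).trans ?_) zero_le_two
  rw [norm_mul, norm_ex, mul_one]

lemma trig_comb (M : ℕ) (a b c d : ℕ → ℂ) (u : ℝ) (h : ∀ k, a k + b k - c k = d k) :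
    trig M a u + trig M b u - trig M c u = trig M d u := by
  unfold trig
  rw [← sum_add_distrib, ← sum_sub_distrib]
  refine sum_congr rfl fun k _ => ?_
  rw [← h k, sub_mul, add_mul, Complex.sub_re, Complex.add_re]
  ring

lemma trig_ext {M N : ℕ} (h : M ≤ N) (c : ℕ → ℂ) (hc : ∀ k, M ≤ k → c k = 0) (u : ℝ) :
    trig M c u = trig N c u := by
  refine sum_subset (range_subset_range.2 h) fun k _ hk => ?_
  rw [hc k (by simpa using hk)]
  simp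

lemma abs_sq (v : ℝ) : |sq v| = 1 := by
  rw [sq, abs_zpow, abs_neg, abs_one, one_zpow]

lemma summable_mul {c : ℕ → ℝ} (hc : Summable fun m => |c m|) (u : ℝ) :
    Summable fun m => c m * (sq (u - Real.log m) / 2) := by
  refine Summable.of_norm_bounded hc fun m => ?_
  rw [Real.norm_eq_abs, abs_mul, abs_div, abs_sq, abs_two]
  linarith [abs_nonneg (c m)]

lemma summable_hat {c : ℕ → ℝ} (hc : Summable fun m => |c m|) (k : ℕ) :
    Summable fun m : ℕ => (c m : ℂ) * ex k (-Real.log m) := by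
  refine Summable.of_norm_bounded hc fun m => ?_
  rw [norm_mul, norm_ex, mul_one, Complex.norm_real, Real.norm_eq_abs]

lemma hat_sub {a b c : ℕ → ℝ} (ha : Summable fun m => |a m|) (hb : Summable fun m => |b m|)
    (h : ∀ m, c m = a m - b m) (k : ℕ) : hat c k = hat a k - hat b k := by
  unfold hat
  rw [← (summable_hat ha k).tsum_sub (summable_hat hb k)]
  refine tsum_congr fun m => ?_
  rw [h m]
  push_cast
  ring

lemma summable_sub {a b c : ℕ → ℝ} (ha : Summable fun m => |a m|) (hb : Summable fun m => |b m|)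
    (h : ∀ m, c m = a m - b m) : Summable fun m => |c m| := by
  refine Summable.of_nonneg_of_le (fun _ => abs_nonneg _) (fun m => ?_) (ha.add hb)
  rw [h m]
  exact abs_sub _ _

lemma summable_cA : Summable fun m => |cA m| := by
  refine summable_of_ne_finset_zero (s := Aset) fun m hm => ?_
  rw [cA, if_neg hm, abs_zero]

lemma dd_zero (m : ℕ) : dd 0 m = cw 25 m - cA m := if_pos rfl

lemma dd_succ (J m : ℕ) : dd (J + 1) m = cw (25 + (J + 1)) m - cw (25 + J) m := by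
  rw [dd, if_neg (Nat.succ_ne_zero J), show 24 + (J + 1) = 25 + J by ring]

lemma harm (n : ℕ) : ∑ k ∈ range (2 ^ n), 1 / (2 * (k : ℝ) + 1) ≤ n + 1 := by
  induction n with
  | zero => simp
  | succ n ih =>
    rw [pow_succ, mul_two, sum_range_add]
    have h1 : ∑ k ∈ range (2 ^ n), 1 / (2 * ((2 ^ n + k : ℕ) : ℝ) + 1) ≤
        (range (2 ^ n)).card • (1 / (2 : ℝ) ^ n) := by
      refine sum_le_card_nsmul _ _ _ fun k _ => ?_
      refine one_div_le_one_div_of_le (by positivity) ?_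
      push_cast
      have : (0 : ℝ) ≤ 2 ^ n := by positivity
      have : (0 : ℝ) ≤ k := Nat.cast_nonneg k
      linarith
    rw [card_range, nsmul_eq_mul] at h1
    have h2 : ((2 ^ n : ℕ) : ℝ) * (1 / (2 : ℝ) ^ n) = 1 := by
      push_cast
      field_simp
    push_cast at h1 h2 ⊢
    linarith

/-- The last term of the summation by parts. -/
noncomputable def CC (J : ℕ) (u : ℝ) : ℝ :=
  trig (2 ^ (23 + J)) (fun k => Kf (2 * 2 ^ (23 + J)) (2 * k + 1) * cs k * Ek (25 + J) k) u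

lemma split_zero {M : ℕ} (hM : 0 < M) (f : ℕ → ℝ) :
    ∑ k ∈ range M, f k = f 0 + ∑ k ∈ Ico 1 M, f k := by
  rw [range_eq_Ico, sum_eq_sum_Ico_succ_bot hM]

lemma CC_le (hKf : StKf) (hE : StE2) (J : ℕ) (u : ℝ) :
    |CC J u| ≤ ‖Ek (25 + J) 0‖ + 6300 * (Real.exp (-(0.05 * J)) * (24 + J)) := by
  refine (abs_trig_le _ _ _).trans ?_
  have h0 : ∀ k : ℕ, 2 * ‖(Kf (2 * 2 ^ (23 + J)) (2 * k + 1) : ℂ) * cs k * Ek (25 + J) k‖ ≤
      ‖Ek (25 + J) k‖ * (1 / (2 * (k : ℝ) + 1)) := by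
    intro k
    obtain ⟨h3, h4, -⟩ := hKf (2 * 2 ^ (23 + J)) (2 * k + 1)
      (Nat.one_le_iff_ne_zero.2 (by positivity))
    rw [norm_mul, norm_mul, norm_cs, Complex.norm_real, Real.norm_of_nonneg h3]
    have h5 : 2 * (1 / ((2 * (k : ℝ) + 1) * π)) ≤ 1 / (2 * (k : ℝ) + 1) := by
      rw [mul_one_div, div_le_div_iff₀ (by positivity) (by positivity)]
      have : (0 : ℝ) ≤ 2 * (k : ℝ) + 1 := by positivity
      nlinarith [Real.pi_gt_three]
    have h6 : (0 : ℝ) ≤ 1 / ((2 * (k : ℝ) + 1) * π) := by positivity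
    calc 2 * (Kf (2 * 2 ^ (23 + J)) (2 * k + 1) * (1 / ((2 * (k : ℝ) + 1) * π)) * ‖Ek (25 + J) k‖)
        ≤ 2 * (1 * (1 / ((2 * (k : ℝ) + 1) * π)) * ‖Ek (25 + J) k‖) := by gcongr
      _ = ‖Ek (25 + J) k‖ * (2 * (1 / ((2 * (k : ℝ) + 1) * π))) := by ring
      _ ≤ _ := by gcongr
  have h1 : ∀ k ∈ Ico 1 (2 ^ (23 + J)),
      2 * ‖(Kf (2 * 2 ^ (23 + J)) (2 * k + 1) : ℂ) * cs k * Ek (25 + J) k‖ ≤
        6300 * Real.exp (-(0.05 * J)) * (1 / (2 * (k : ℝ) + 1)) := by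
    intro k hk
    have hk' : k < 2 ^ (25 + J - 1) := (mem_Ico.1 hk).2.trans_le
      (Nat.pow_le_pow_right (by norm_num) (by omega))
    have h2 := ((hE (25 + J) (by omega)).2 k (mem_Ico.1 hk).1 hk').1
    have e : (((25 + J : ℕ) : ℝ) - 25) = J := by push_cast; ring
    rw [e] at h2
    refine (h0 k).trans ?_
    gcongr
  rw [split_zero (by positivity)]
  refine add_le_add ((h0 0).trans (by simp)) ((sum_le_sum h1).trans ?_)
  rw [← mul_sum, mul_assoc]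
  have h2 := harm (23 + J)
  have e : ((23 + J : ℕ) : ℝ) + 1 = 24 + J := by push_cast; ring
  rw [e, split_zero (by positivity)] at h2
  have h3 : ∑ k ∈ Ico (1 : ℕ) (2 ^ (23 + J)), 1 / (2 * (k : ℝ) + 1) ≤ 24 + J := by
    have : (0 : ℝ) ≤ 1 / (2 * ((0 : ℕ) : ℝ) + 1) := by positivity
    linarith
  gcongr

lemma tendsto_CC : Tendsto (fun J : ℕ => 6300 * (Real.exp (-(0.05 * (J : ℝ))) * (24 + J)))
    atTop (𝓝 0) := by
  have h1 : Tendsto (fun J : ℕ => 0.05 * (24 + (J : ℝ))) atTop atTop :=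
    (tendsto_atTop_add_const_left _ _ tendsto_natCast_atTop_atTop).const_mul_atTop (by norm_num)
  have h2 := ((Real.tendsto_pow_mul_exp_neg_atTop_nhds_zero 1).comp h1).const_mul
    (6300 * (20 * Real.exp 1.2))
  rw [mul_zero] at h2
  refine h2.congr fun J => ?_
  have e : Real.exp (-(0.05 * (J : ℝ))) = Real.exp 1.2 * Real.exp (-(0.05 * (24 + (J : ℝ)))) := by
    rw [← Real.exp_add]
    congr 1
    ring
  simp only [Function.comp, pow_one, e]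
  ring

lemma lin_le (J : ℕ) : (26 + (J : ℝ)) ≤ 13 * 2 ^ (J + 1) := by
  have h2 : ((J + 1 : ℕ) : ℝ) ≤ ((2 ^ J : ℕ) : ℝ) := by
    exact_mod_cast Nat.succ_le_of_lt Nat.lt_two_pow_self
  have h3 : (0 : ℝ) ≤ J := Nat.cast_nonneg J
  push_cast at h2
  rw [pow_succ]
  linarith

lemma Ek_zero_le (hMq : StMassq) (hE0 : StE0) (J : ℕ) :
    ‖Ek (25 + J) 0‖ ≤ (26 + (J : ℝ)) ^ 4 := by
  obtain ⟨hs, hb⟩ := hMq.1 (25 + J) (by omega)
  have h1 : ‖hat (cw (25 + J)) 0‖ ≤ ∑' m, |cw (25 + J) m| := by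
    refine tsum_of_norm_bounded hs.hasSum fun m => ?_
    rw [norm_mul, norm_ex, mul_one, Complex.norm_real, Real.norm_eq_abs]
  have h2 : ‖Ek (25 + J) 0‖ ≤ ‖Gf (sk 0)‖ + ‖hat (cw (25 + J)) 0‖ := norm_sub_le _ _
  have h0 : (0 : ℝ) ≤ J := Nat.cast_nonneg J
  have h3 : ((25 + J : ℕ) : ℝ) ^ 4 ≤ (26 + (J : ℝ)) ^ 4 := by
    push_cast
    gcongr
    norm_num
  have h4 : (26 : ℝ) ^ 4 ≤ (26 + (J : ℝ)) ^ 4 := by
    gcongr
    linarith
  have h5 := hE0.1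
  norm_num at h4 hb h3 h1 h2 ⊢
  linarith

lemma step_zero (hKf : StKf) (hMq : StMassq) (hE0 : StE0) (J : ℕ) :
    2 * ‖((Kf (2 * (2 * 2 ^ (23 + J))) (2 * 0 + 1) -
      Kf (2 * 2 ^ (23 + J)) (2 * 0 + 1) : ℝ) : ℂ) * cs 0 * Ek (25 + J) 0‖ ≤
      0.00000000005 * ((26 + (J : ℝ)) ^ 3 / 2 ^ (J + 1)) := by
  obtain ⟨-, h1, h2, -⟩ := hKf (2 * 2 ^ (23 + J)) (2 * 0 + 1)
    (Nat.one_le_iff_ne_zero.2 (by positivity))
  obtain ⟨-, h3, h4, -⟩ := hKf (2 * (2 * 2 ^ (23 + J))) (2 * 0 + 1)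
    (Nat.one_le_iff_ne_zero.2 (by positivity))
  have hp : (0 : ℝ) < 2 ^ (J + 1) := by positivity
  have e1 : 5 * (((2 * 0 + 1 : ℕ) : ℝ) / ((2 * 2 ^ (23 + J) : ℕ) : ℝ)) ^ 2 =
      5 / 2 ^ 46 * (1 / 2 ^ (J + 1)) ^ 2 := by
    push_cast
    field_simp
    ring
  have e2 : 5 * (((2 * 0 + 1 : ℕ) : ℝ) / ((2 * (2 * 2 ^ (23 + J)) : ℕ) : ℝ)) ^ 2 =
      5 / 2 ^ 48 * (1 / 2 ^ (J + 1)) ^ 2 := by
    push_cast
    field_simp
    ring
  rw [e1] at h2
  rw [e2] at h4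
  have h5 : (0 : ℝ) ≤ (1 / 2 ^ (J + 1)) ^ 2 := by positivity
  have h6 : |Kf (2 * (2 * 2 ^ (23 + J))) (2 * 0 + 1) - Kf (2 * 2 ^ (23 + J)) (2 * 0 + 1)| ≤
      5 / 2 ^ 46 * (1 / 2 ^ (J + 1)) ^ 2 := by
    rw [abs_le]
    constructor <;> linarith
  have h7 : 1 / ((2 * ((0 : ℕ) : ℝ) + 1) * π) ≤ 1 / 2 := by
    refine one_div_le_one_div_of_le (by norm_num) ?_
    simpa using Real.two_le_pi
  have h8 := Ek_zero_le hMq hE0 J
  have h9 : (26 + (J : ℝ)) / 2 ^ (J + 1) ≤ 13 := (div_le_iff₀ hp).2 (lin_le J)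
  rw [norm_mul, norm_mul, norm_cs, Complex.norm_real, Real.norm_eq_abs]
  calc _ ≤ 2 * (5 / 2 ^ 46 * (1 / 2 ^ (J + 1)) ^ 2 * (1 / 2) * (26 + (J : ℝ)) ^ 4) := by gcongr
    _ = 5 / 2 ^ 46 * ((26 + (J : ℝ)) / 2 ^ (J + 1)) * ((26 + (J : ℝ)) ^ 3 / 2 ^ (J + 1)) := by
        field_simp
    _ ≤ 5 / 2 ^ 46 * 13 * ((26 + (J : ℝ)) ^ 3 / 2 ^ (J + 1)) := by gcongr
    _ ≤ _ := by
        gcongr
        norm_num

lemma step_trig (hKf : StKf) (hMq : StMassq) (hE : StE2) (hE0 : StE0) (J : ℕ) (u : ℝ) :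
    |trig (2 ^ (23 + (J + 1)))
        (fun k => Kf (2 * 2 ^ (23 + (J + 1))) (2 * k + 1) * cs k * hat (dd (J + 1)) k) u +
      CC (J + 1) u - CC J u| ≤
      0.00000000005 * ((26 + (J : ℝ)) ^ 3 / 2 ^ (J + 1)) + 0.0005455 / 2 ^ (J + 1) := by
  have hh : ∀ k, hat (dd (J + 1)) k = Ek (25 + J) k - Ek (25 + (J + 1)) k := fun k => by
    rw [hat_sub (hMq.1 (25 + (J + 1)) (by omega)).1 (hMq.1 (25 + J) (by omega)).1 (dd_succ J) k,
      Ek, Ek]
    ring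
  have e1 : CC J u = trig (2 ^ (23 + (J + 1)))
      (fun k => Kf (2 * 2 ^ (23 + J)) (2 * k + 1) * cs k * Ek (25 + J) k) u := by
    refine trig_ext (Nat.pow_le_pow_right (by norm_num) (by omega)) _ (fun k hk => ?_) u
    rw [Kf, if_neg (by omega)]
    simp
  rw [e1, CC, trig_comb _ _ _ _ (fun k => ((Kf (2 * (2 * 2 ^ (23 + J))) (2 * k + 1) -
    Kf (2 * 2 ^ (23 + J)) (2 * k + 1) : ℝ) : ℂ) * cs k * Ek (25 + J) k) u (fun k => by
      rw [hh, show 2 * 2 ^ (23 + (J + 1)) = 2 * (2 * 2 ^ (23 + J)) by ring]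
      push_cast
      ring)]
  refine (abs_trig_le _ _ _).trans ?_
  have h1 : ∀ k ∈ Ico 1 (2 ^ (23 + (J + 1))),
      2 * ‖((Kf (2 * (2 * 2 ^ (23 + J))) (2 * k + 1) -
        Kf (2 * 2 ^ (23 + J)) (2 * k + 1) : ℝ) : ℂ) * cs k * Ek (25 + J) k‖ ≤
        2 * 0.845 / (π * (2 * 2 ^ (23 + J))) * ‖Ek (25 + J) k‖ := by
    intro k _
    obtain ⟨-, -, -, h4⟩ := hKf (2 * 2 ^ (23 + J)) (2 * k + 1)
      (Nat.one_le_iff_ne_zero.2 (by positivity))
    rw [norm_mul, norm_mul, norm_cs, Complex.norm_real, Real.norm_eq_abs]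
    push_cast at h4
    calc 2 * (|Kf (2 * (2 * 2 ^ (23 + J))) (2 * k + 1) - Kf (2 * 2 ^ (23 + J)) (2 * k + 1)| *
          (1 / ((2 * (k : ℝ) + 1) * π)) * ‖Ek (25 + J) k‖)
        ≤ 2 * (0.845 * ((2 * (k : ℝ) + 1) / (2 * 2 ^ (23 + J))) *
          (1 / ((2 * (k : ℝ) + 1) * π)) * ‖Ek (25 + J) k‖) := by gcongr
      _ = _ := by field_simp
  rw [split_zero (by positivity)]
  refine add_le_add (step_zero hKf hMq hE0 J) ((sum_le_sum h1).trans ?_)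
  rw [← mul_sum]
  have h2 := (hE (25 + J) (by omega)).1
  rw [show 25 + J - 1 = 23 + (J + 1) by omega] at h2
  calc 2 * 0.845 / (π * (2 * 2 ^ (23 + J))) * ∑ k ∈ Ico 1 (2 ^ (23 + (J + 1))), ‖Ek (25 + J) k‖
      ≤ 2 * 0.845 / (3.14 * (2 * 2 ^ (23 + J))) * 8500 := by
        gcongr
        exact Real.pi_gt_d2.le
    _ = (2 * 0.845 * 8500 / (3.14 * 2 ^ 23)) / 2 ^ (J + 1) := by
        rw [pow_add, pow_succ (2 : ℝ) J]
        field_simp
    _ ≤ _ := by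
        gcongr
        norm_num

lemma step_err (J : ℕ) :
    0.72 * (25 + ((J + 1 : ℕ) : ℝ)) ^ 3 * (0.5268 / (2 * ((2 ^ (23 + (J + 1)) : ℕ) : ℝ))) +
      0.000001 / 2 ^ (J + 1) / 2 +
      3500 * (25 + ((J + 1 : ℕ) : ℝ)) ^ 4 * (0.601 / (2 * ((2 ^ (23 + (J + 1)) : ℕ) : ℝ)) ^ 2) ≤
      0.00000002275 * ((26 + (J : ℝ)) ^ 3 / 2 ^ (J + 1)) + 0.0000005 / 2 ^ (J + 1) := by
  have h1 := lin_le J
  have hp : (0 : ℝ) < 2 ^ (J + 1) := by positivity
  have e : (25 + ((J + 1 : ℕ) : ℝ)) = 26 + J := by push_cast; ring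
  have e2 : (2 * ((2 ^ (23 + (J + 1)) : ℕ) : ℝ)) = 2 ^ 24 * 2 ^ (J + 1) := by push_cast; ring
  rw [e, e2]
  have h0 : (0 : ℝ) ≤ 26 + (J : ℝ) := by positivity
  generalize (26 + (J : ℝ)) = n at h1 h0
  generalize (2 : ℝ) ^ (J + 1) = P at h1 hp
  have h4 : n / P ≤ 13 := (div_le_iff₀ hp).2 h1
  have h5 : 0 ≤ n ^ 3 / P := by positivity
  have e3 : 3500 * n ^ 4 * (0.601 / (2 ^ 24 * P) ^ 2) =
      3500 * 0.601 / 2 ^ 48 * (n ^ 3 / P * (n / P)) := by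
    field_simp
  have e4 : 0.72 * n ^ 3 * (0.5268 / (2 ^ 24 * P)) = 0.72 * 0.5268 / 2 ^ 24 * (n ^ 3 / P) := by
    field_simp
  have e5 : 0.000001 / P / 2 = 0.0000005 / P := by
    field_simp
    norm_num
  have h6 : n ^ 3 / P * (n / P) ≤ n ^ 3 / P * 13 := mul_le_mul_of_nonneg_left h4 h5
  rw [e3, e4, e5]
  norm_num at h6 ⊢
  linarith

lemma main (hKS : StKerSq) (hKf : StKf) (hW0 : StWin0) (hWj : StWinj) (hMq : StMassq) (hE : StE2)
    (hE0 : StE0) (u : ℝ) (J : ℕ) :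
    |∑' m, (cw (25 + J) m - cA m) * (sq (u - Real.log m) / 2) -
      trig (2 ^ 23) (fun k => Kf (2 ^ 24) (2 * k + 1) * cs k * Rk k) u + CC J u| ≤
      0.0035029 + 0.0000000228 * (19851 -
        ((25 + (J : ℝ)) ^ 3 + 6 * (25 + (J : ℝ)) ^ 2 + 18 * (25 + (J : ℝ)) + 26) / 2 ^ J) +
        0.000546 * (1 - 1 / 2 ^ J) := by
  induction J with
  | zero =>
    have hs : Summable fun m => |dd 0 m| :=
      summable_sub (hMq.1 25 (by norm_num)).1 summable_cA dd_zero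
    have h1 := hKS (2 ^ 23) (dd 0) _ _ _ u (by norm_num) (by norm_num) (by norm_num) hs hW0
    have hh : ∀ k, hat (dd 0) k = Rk k - Ek 25 k := fun k => by
      rw [hat_sub (hMq.1 25 (by norm_num)).1 summable_cA dd_zero k, Rk, Ek]
      ring
    have h2 := trig_comb (2 ^ 23)
      (fun k => Kf (2 * 2 ^ 23) (2 * k + 1) * cs k * hat (dd 0) k)
      (fun k => Kf (2 * 2 ^ 23) (2 * k + 1) * cs k * Ek 25 k) (fun _ => 0)
      (fun k => Kf (2 ^ 24) (2 * k + 1) * cs k * Rk k) u (fun k => by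
        rw [hh, show 2 * 2 ^ 23 = 2 ^ 24 by norm_num]
        ring)
    have h3 : trig (2 ^ 23) (fun _ => 0) u = 0 := by simp [trig]
    have h4 : CC 0 u = trig (2 ^ 23) (fun k => Kf (2 * 2 ^ 23) (2 * k + 1) * cs k * Ek 25 k) u := rfl
    have h5 : ∑' m, (cw (25 + 0) m - cA m) * (sq (u - Real.log m) / 2) =
        ∑' m, dd 0 m * (sq (u - Real.log m) / 2) := rfl
    rw [h3, sub_zero] at h2
    rw [h5, h4, ← h2, show ∀ a b c : ℝ, a - (b + c) + c = a - b from fun a b c => by ring]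
    refine h1.trans ?_
    norm_num
  | succ J ih =>
    have hs1 := (hMq.1 (25 + (J + 1)) (by omega)).1
    have hs0 := (hMq.1 (25 + J) (by omega)).1
    have hs : Summable fun m => |dd (J + 1) m| := summable_sub hs1 hs0 (dd_succ J)
    have h1 := (hKS (2 ^ (23 + (J + 1))) (dd (J + 1)) _ _ _ u Nat.one_le_two_pow (by positivity)
      (by positivity) hs (hWj (J + 1) (by omega))).trans (step_err J)
    have h2 := step_trig hKf hMq hE hE0 J u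
    have h3 : ∑' m, (cw (25 + (J + 1)) m - cA m) * (sq (u - Real.log m) / 2) =
        ∑' m, (cw (25 + J) m - cA m) * (sq (u - Real.log m) / 2) +
          ∑' m, dd (J + 1) m * (sq (u - Real.log m) / 2) := by
      rw [← (summable_mul (summable_sub hs0 summable_cA fun _ => rfl) u).tsum_add
        (summable_mul hs u)]
      refine tsum_congr fun m => ?_
      rw [dd_succ]
      ring
    rw [h3]
    have e : 0.0035029 + 0.0000000228 * (19851 -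
        ((25 + ((J + 1 : ℕ) : ℝ)) ^ 3 + 6 * (25 + ((J + 1 : ℕ) : ℝ)) ^ 2 +
          18 * (25 + ((J + 1 : ℕ) : ℝ)) + 26) / 2 ^ (J + 1)) + 0.000546 * (1 - 1 / 2 ^ (J + 1)) =
        (0.0035029 + 0.0000000228 * (19851 -
        ((25 + (J : ℝ)) ^ 3 + 6 * (25 + (J : ℝ)) ^ 2 + 18 * (25 + (J : ℝ)) + 26) / 2 ^ J) +
        0.000546 * (1 - 1 / 2 ^ J)) +
        (0.00000002275 * ((26 + (J : ℝ)) ^ 3 / 2 ^ (J + 1)) + 0.0000005 / 2 ^ (J + 1)) +
        (0.00000000005 * ((26 + (J : ℝ)) ^ 3 / 2 ^ (J + 1)) + 0.0005455 / 2 ^ (J + 1)) := by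
      push_cast
      field_simp
      ring
    rw [e]
    rw [abs_le] at ih h1 h2 ⊢
    constructor <;> linarith [ih.1, ih.2, h1.1, h1.2, h2.1, h2.2]

end Sq

theorem sqb (hKS : StKerSq) (hKf : StKf) (hW0 : StWin0) (hWj : StWinj) (hMq : StMassq)
    (hE : StE2) (hE0 : StE0) : StSq := by
  intro ε hε
  have ht : Tendsto (fun J : ℕ => ‖Ek (25 + J) 0‖) atTop (𝓝 0) :=
    (hE0.2.comp (tendsto_add_atTop_nat 25)).congr fun J => by
      rw [Function.comp_apply, add_comm]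
  have h0 := ht.add Sq.tendsto_CC
  rw [add_zero] at h0
  obtain ⟨J₀, hJ₀⟩ := eventually_atTop.1 (h0.eventually_le_const hε)
  refine eventually_atTop.2 ⟨25 + J₀, fun q hq u => ?_⟩
  obtain ⟨J, rfl⟩ : ∃ J, q = 25 + J := ⟨q - 25, by omega⟩
  have h1 := Sq.main hKS hKf hW0 hWj hMq hE hE0 u J
  have h2 := (Sq.CC_le hKf hE J u).trans (hJ₀ J (by omega))
  have h3 : (0 : ℝ) ≤
      ((25 + (J : ℝ)) ^ 3 + 6 * (25 + (J : ℝ)) ^ 2 + 18 * (25 + (J : ℝ)) + 26) / 2 ^ J := by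
    positivity
  have h4 : (0 : ℝ) ≤ 1 / 2 ^ J := by positivity
  rw [abs_le] at h1 h2 ⊢
  constructor <;> linarith [h1.1, h1.2, h2.1, h2.2]

end Pool.Agent.Lib.MP_5db4ad_nt.S2
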