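import Pool.Agent.Lib.MP_5db4ad_nt.S2Defs

/-!
From the smoothed bound for the partial sums of `gg` to the sharp one.
-/

namespace Pool.Agent.Lib.MP_5db4ad_nt.S2

open Finset Filter

noncomputable section

namespace Taub

lemma gg_zero : gg 0 = 0 := by simp [gg, mf]

lemma log_sq_le {x : ℝ} (hx : 1 ≤ x) : Real.log x ^ 2 ≤ 16 * √x := by
  have h0 : 0 ≤ x := by linarith
  have h1 : (1 : ℝ) ≤ √x := Real.one_le_sqrt.mpr hx
  have h2 : (1 : ℝ) ≤ √(√x) := Real.one_le_sqrt.mpr h1
  have e1 : Real.log x = 4 * Real.log (√(√x)) := by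
    rw [Real.log_sqrt (by linarith), Real.log_sqrt h0]; ring
  have e2 : Real.log (√(√x)) ≤ √(√x) := by
    have := Real.log_le_sub_one_of_pos (show 0 < √(√x) by linarith)
    linarith
  have e3 : 0 ≤ Real.log (√(√x)) := Real.log_nonneg h2
  have e4 : √(√x) ^ 2 = √x := Real.sq_sqrt (by linarith)
  rw [e1]
  nlinarith

/-- the pointwise comparison outside the window -/
lemma outside {x d p : ℝ} (hx : 1 ≤ x) (hd : 0 ≤ d) (hp : 2 ≤ p)
    (hdp : 3 * Real.log x ≤ d * (p - 2)) {m : ℕ} (hm : 1 ≤ m)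
    (hw : ¬ (x * Real.exp (-d) ≤ m ∧ (m : ℝ) ≤ x * Real.exp d)) :
    |(if m ∈ Icc 1 ⌊x⌋₊ then (1 : ℝ) else 0) - 1 / (1 + (m / x) ^ p)| ≤
      1 / x * (m : ℝ) ^ (-(1 + 1 : ℝ)) := by
  have hx0 : 0 < x := by linarith
  have hm0 : (0 : ℝ) < m := by exact_mod_cast hm
  have hr : 0 < (m : ℝ) / x := div_pos hm0 hx0
  have hpow : 0 < ((m : ℝ) / x) ^ p := Real.rpow_pos_of_pos hr p
  have hR : 1 / x * (m : ℝ) ^ (-(1 + 1 : ℝ)) =
      Real.exp (-Real.log x - 2 * Real.log m) := by
    rw [Real.rpow_def_of_pos hm0, sub_eq_add_neg, Real.exp_add, Real.exp_neg, Real.exp_log hx0,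
      one_div]
    congr 2; ring
  have hP : ((m : ℝ) / x) ^ p = Real.exp ((Real.log m - Real.log x) * p) := by
    rw [Real.rpow_def_of_pos hr, Real.log_div hm0.ne' hx0.ne']
  have hL : 0 ≤ Real.log x := Real.log_nonneg hx
  rw [hR]
  by_cases hlo : x * Real.exp (-d) ≤ m
  · have hhi : x * Real.exp d < m := by
      by_contra h
      exact hw ⟨hlo, not_lt.mp h⟩
    have hlog : Real.log x + d < Real.log m := by
      have := Real.log_lt_log (by positivity) hhi
      rwa [Real.log_mul hx0.ne' (Real.exp_pos d).ne', Real.log_exp] at this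
    have hnot : m ∉ Icc 1 ⌊x⌋₊ := by
      intro h
      have h2 : (m : ℝ) ≤ x := (Nat.le_floor_iff hx0.le).mp (mem_Icc.mp h).2
      have := Real.log_le_log hm0 h2
      linarith
    rw [if_neg hnot, zero_sub, abs_neg, abs_of_pos (by positivity)]
    calc 1 / (1 + ((m : ℝ) / x) ^ p) ≤ 1 / ((m : ℝ) / x) ^ p :=
          one_div_le_one_div_of_le hpow (by linarith)
      _ = Real.exp (-((Real.log m - Real.log x) * p)) := by rw [hP, Real.exp_neg, one_div]
      _ ≤ _ := by
          apply Real.exp_le_exp.mpr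
          have : d * (p - 2) ≤ (Real.log m - Real.log x) * (p - 2) :=
            mul_le_mul_of_nonneg_right (by linarith) (by linarith)
          nlinarith
  · have hlt : (m : ℝ) < x * Real.exp (-d) := not_le.mp hlo
    have hlog : Real.log m < Real.log x - d := by
      have := Real.log_lt_log hm0 hlt
      rwa [Real.log_mul hx0.ne' (Real.exp_pos _).ne', Real.log_exp, ← sub_eq_add_neg] at this
    have hin : m ∈ Icc 1 ⌊x⌋₊ := by
      refine mem_Icc.mpr ⟨hm, (Nat.le_floor_iff hx0.le).mpr ?_⟩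
      exact (Real.log_le_log_iff hm0 hx0).mp (by linarith)
    rw [if_pos hin]
    have e : 1 - 1 / (1 + ((m : ℝ) / x) ^ p) = ((m : ℝ) / x) ^ p / (1 + ((m : ℝ) / x) ^ p) := by
      field_simp; ring
    rw [e, abs_of_pos (by positivity)]
    calc ((m : ℝ) / x) ^ p / (1 + ((m : ℝ) / x) ^ p) ≤ ((m : ℝ) / x) ^ p :=
          div_le_self hpow.le (by linarith)
      _ = Real.exp ((Real.log m - Real.log x) * p) := hP
      _ ≤ _ := by
          apply Real.exp_le_exp.mpr
          have : (Real.log m - Real.log x) * p ≤ (-d) * p :=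
            mul_le_mul_of_nonneg_right (by linarith) (by linarith)
          nlinarith

lemma inside {x p : ℝ} (hx : 0 < x) (m : ℕ) :
    |(if m ∈ Icc 1 ⌊x⌋₊ then (1 : ℝ) else 0) - 1 / (1 + (m / x) ^ p)| ≤ 1 := by
  have hpow : 0 ≤ ((m : ℝ) / x) ^ p := Real.rpow_nonneg (by positivity) p
  have h1 : 0 ≤ 1 / (1 + ((m : ℝ) / x) ^ p) := by positivity
  have h2 : 1 / (1 + ((m : ℝ) / x) ^ p) ≤ 1 := by
    rw [div_le_one (by linarith)]; linarith
  rw [abs_le]
  split_ifs <;> constructor <;> linarith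

/-- comparison of the sharp and the smoothed sum -/
lemma compare (hM : StMass) {x d p : ℝ} (hx : 1 ≤ x) (hd : 0 ≤ d) (hp : 2 ≤ p)
    (hdp : 3 * Real.log x ≤ d * (p - 2)) (S : Finset ℕ)
    (hS : ∀ m : ℕ, x * Real.exp (-d) ≤ m → (m : ℝ) ≤ x * Real.exp d → m ∈ S) :
    |TT x - ∑' m : ℕ, gg m / (1 + (m / x) ^ p)| ≤ ∑ m ∈ S, |gg m| + 3 / x := by
  have hx0 : 0 < x := by linarith
  obtain ⟨hs, hb⟩ := hM 1 one_pos
  set T := ∑' m : ℕ, |gg m| * (m : ℝ) ^ (-(1 + 1 : ℝ)) with hT
  have hg : HasSum (fun m : ℕ => if m ∈ Icc 1 ⌊x⌋₊ then gg m else 0) (TT x) := by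
    have : TT x = ∑ m ∈ Icc 1 ⌊x⌋₊, (if m ∈ Icc 1 ⌊x⌋₊ then gg m else 0) := by
      unfold TT
      exact sum_congr rfl fun m hm => by rw [if_pos hm]
    rw [this]
    exact hasSum_sum_of_ne_finset_zero fun m hm => if_neg hm
  have hB1 : HasSum (fun m : ℕ => if m ∈ S then |gg m| else 0) (∑ m ∈ S, |gg m|) := by
    have : ∑ m ∈ S, |gg m| = ∑ m ∈ S, (if m ∈ S then |gg m| else 0) :=
      sum_congr rfl fun m hm => by rw [if_pos hm]
    rw [this]
    exact hasSum_sum_of_ne_finset_zero fun m hm => if_neg hm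
  have hB := hB1.add (hs.hasSum.mul_left (1 / x))
  have hle : ∀ m : ℕ, ‖(if m ∈ Icc 1 ⌊x⌋₊ then gg m else 0) - gg m / (1 + (m / x) ^ p)‖ ≤
      (if m ∈ S then |gg m| else 0) + 1 / x * (|gg m| * (m : ℝ) ^ (-(1 + 1 : ℝ))) := by
    intro m
    have e : (if m ∈ Icc 1 ⌊x⌋₊ then gg m else 0) - gg m / (1 + (m / x) ^ p) =
        gg m * ((if m ∈ Icc 1 ⌊x⌋₊ then (1 : ℝ) else 0) - 1 / (1 + (m / x) ^ p)) := by
      split_ifs <;> ring
    rw [e, Real.norm_eq_abs, abs_mul]
    have hn : 0 ≤ 1 / x * (|gg m| * (m : ℝ) ^ (-(1 + 1 : ℝ))) := by positivity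
    by_cases hm : m ∈ S
    · rw [if_pos hm]
      have := mul_le_mul_of_nonneg_left (inside (p := p) hx0 m) (abs_nonneg (gg m))
      linarith
    · rw [if_neg hm, zero_add]
      rcases Nat.eq_zero_or_pos m with rfl | hm1
      · simp [gg_zero]
      · have := mul_le_mul_of_nonneg_left
          (outside hx hd hp hdp hm1 fun h => hm (hS m h.1 h.2)) (abs_nonneg (gg m))
        linarith [mul_left_comm |gg m| (1 / x) ((m : ℝ) ^ (-(1 + 1 : ℝ)))]
  have hsum : Summable fun m : ℕ =>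
      (if m ∈ Icc 1 ⌊x⌋₊ then gg m else 0) - gg m / (1 + (m / x) ^ p) :=
    Summable.of_norm_bounded hB.summable hle
  have hf : Summable fun m : ℕ => gg m / (1 + (m / x) ^ p) := by
    refine (hg.summable.sub hsum).congr fun m => ?_
    ring
  have hbd := tsum_of_norm_bounded hB hle
  rw [hg.summable.tsum_sub hf, hg.tsum_eq, Real.norm_eq_abs] at hbd
  refine hbd.trans ?_
  have : 1 / x * T ≤ 3 / x := by
    rw [show (3 : ℝ) / x = 1 / x * 3 by ring]
    refine mul_le_mul_of_nonneg_left (hb.trans ?_) (by positivity)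
    norm_num
  rw [← hT]
  linarith

lemma large (hS : StShort) (hM : StMass) {x : ℝ} (hx : Real.exp 1 ≤ x) :
    |TT x - ∑' m : ℕ, gg m / (1 + (m / x) ^ (3 * Real.log x ^ 4 + 2))| ≤
      2000 * x / Real.log x ^ 2 := by
  have he : (2 : ℝ) ≤ Real.exp 1 := by have := Real.add_one_le_exp (1 : ℝ); linarith
  have hx1 : 1 ≤ x := by linarith
  have hx0 : 0 < x := by linarith
  set u := Real.log x with hu
  have hu1 : 1 ≤ u := by
    have := Real.log_le_log (Real.exp_pos 1) hx
    rwa [Real.log_exp] at this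
  have hu0 : 0 < u := by linarith
  set d := 1 / u ^ 3 with hd
  have hd0 : 0 < d := by positivity
  have hd1 : d ≤ 1 := by
    rw [hd, div_le_one (by positivity)]; exact one_le_pow₀ hu1
  have hy : 1 ≤ x * Real.exp (-d) := by
    have : x * Real.exp (-d) = Real.exp (u - d) := by
      rw [sub_eq_add_neg, Real.exp_add, hu, Real.exp_log hx0]
    rw [this]; exact Real.one_le_exp (by linarith)
  have hE1 : Real.exp d ≤ 1 + 2 * d := by
    have := Real.abs_exp_sub_one_le (x := d) (by rw [abs_of_pos hd0]; exact hd1)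
    rw [abs_of_pos hd0] at this
    linarith [le_abs_self (Real.exp d - 1)]
  have hE2 : 1 - d ≤ Real.exp (-d) := by linarith [Real.add_one_le_exp (-d)]
  have hE3 : Real.exp (-d) ≤ Real.exp d := Real.exp_le_exp.mpr (by linarith)
  set h := x * Real.exp d - x * Real.exp (-d) with hh
  have hh0 : 0 ≤ h := by rw [hh]; nlinarith
  have hh1 : h ≤ 3 * d * x := by rw [hh]; nlinarith
  set S := (range (⌊x * Real.exp d⌋₊ + 1)).filter fun m : ℕ => x * Real.exp (-d) ≤ m with hSd
  have hyh : x * Real.exp (-d) + h = x * Real.exp d := by rw [hh]; ring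
  have hmass := hS (x * Real.exp (-d)) h hy hh0 S (by
    intro m hm
    rw [hSd, mem_filter, mem_range] at hm
    refine ⟨hm.2, ?_⟩
    rw [hyh]
    exact (Nat.le_floor_iff (by positivity)).mp (by omega))
  rw [hyh] at hmass
  have hcmp := compare hM (x := x) (d := d) (p := 3 * u ^ 4 + 2) hx1 hd0.le
    (by nlinarith [pow_pos hu0 4]) (by
      rw [← hu, hd]; apply le_of_eq; field_simp; ring) S (by
      intro m h1 h2
      rw [hSd, mem_filter, mem_range]
      exact ⟨Nat.lt_succ_of_le (Nat.le_floor h2), h1⟩)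
  refine hcmp.trans ?_
  have hlog : Real.log (x * Real.exp d) = u + d := by
    rw [Real.log_mul hx0.ne' (Real.exp_pos d).ne', Real.log_exp]
  rw [hlog] at hmass
  set Q := x / u ^ 2 with hQ
  have hQ0 : 0 < Q := by positivity
  have hsq : √x ≤ 16 * Q := by
    have h1 := log_sq_le hx1
    rw [← hu] at h1
    rw [hQ, ← mul_div_assoc, le_div_iff₀ (by positivity)]
    have h2 : √x * √x = x := Real.mul_self_sqrt hx0.le
    nlinarith [Real.sqrt_nonneg x]
  have hs1 : (1 : ℝ) ≤ √x := Real.one_le_sqrt.mpr hx1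
  have hA : √(x * Real.exp d) ≤ 2 * √x := by
    rw [show 2 * √x = √(2 ^ 2 * x) by
      rw [Real.sqrt_mul (by norm_num), Real.sqrt_sq (by norm_num)]]
    apply Real.sqrt_le_sqrt
    nlinarith
  have hB : (0.12624 * (u + d) + 0.7574) * h ≤ 4 * Q := by
    have e1 : 0.12624 * (u + d) + 0.7574 ≤ 4 / 3 * u := by linarith
    have e2 : 4 / 3 * u * (3 * d * x) = 4 * Q := by
      rw [hQ, hd]; field_simp
    calc (0.12624 * (u + d) + 0.7574) * h ≤ (4 / 3 * u) * (3 * d * x) :=
          mul_le_mul e1 hh1 hh0 (by positivity)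
      _ = 4 * Q := e2
  have hC : 3 / x ≤ 3 := div_le_self (by norm_num) hx1
  have : 2000 * x / u ^ 2 = 2000 * Q := by rw [hQ]; ring
  rw [this]
  linarith

end Taub

theorem taub (h1 : StTaub1) (hS : StShort) (hM : StMass) : StTaub := by
  obtain ⟨C, hC⟩ := h1
  obtain ⟨X, hX⟩ := eventually_atTop.mp (hC.and (eventually_ge_atTop (Real.exp 1)))
  set K := ∑ m ∈ Icc 1 ⌊X⌋₊, |gg m| with hK
  have hK0 : 0 ≤ K := sum_nonneg fun m _ => abs_nonneg _
  refine ⟨|C| + 2000 + 16 * K, fun x hx => ?_⟩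
  have hx0 : 0 < x := by linarith
  have hx1 : 1 ≤ x := by linarith
  have hu : 0 < Real.log x := Real.log_pos (by linarith)
  set Q := x / Real.log x ^ 2 with hQ
  have hQ0 : 0 < Q := by positivity
  have e : (|C| + 2000 + 16 * K) * x / Real.log x ^ 2 = |C| * Q + 2000 * Q + K * (16 * Q) := by
    rw [hQ]; ring
  rw [e]
  have hCQ : 0 ≤ |C| * Q := by positivity
  rcases le_or_gt X x with h | h
  · obtain ⟨ha, hb⟩ := hX x h
    have hl := Taub.large hS hM hb
    rw [mul_div_assoc, ← hQ] at ha hl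
    have h3 : C * Q ≤ |C| * Q := mul_le_mul_of_nonneg_right (le_abs_self C) hQ0.le
    have h4 := abs_sub_abs_le_abs_sub (TT x)
      (∑' m : ℕ, gg m / (1 + (m / x) ^ (3 * Real.log x ^ 4 + 2)))
    have h5 : 0 ≤ K * (16 * Q) := by positivity
    linarith
  · have h2 : |TT x| ≤ K := by
      unfold TT
      refine (abs_sum_le_sum_abs _ _).trans ?_
      exact sum_le_sum_of_subset_of_nonneg (Icc_subset_Icc_right (Nat.floor_le_floor h.le))
        fun m _ _ => abs_nonneg _
    have h3 : 1 ≤ 16 * Q := by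
      have h4 := Taub.log_sq_le hx1
      have h5 : √x ≤ x := by
        have h6 : √x * √x = x := Real.mul_self_sqrt hx0.le
        have h7 : (1 : ℝ) ≤ √x := Real.one_le_sqrt.mpr hx1
        nlinarith
      rw [hQ, ← mul_div_assoc, le_div_iff₀ (by positivity)]
      linarith
    nlinarith

end

end Pool.Agent.Lib.MP_5db4ad_nt.S2
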