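import Pool.Agent.Lib.MP_5db4ad_nt.S2Defs2

/-! The smoothed Tauberian bound. -/

namespace Pool.Agent.Lib.MP_5db4ad_nt.S2

open Finset Filter Complex MeasureTheory
open scoped Real Topology ComplexConjugate

noncomputable section

namespace Taub1

/-- the entire denominator -/
def WW (s : ℂ) : ℂ :=
  (riemannZeta₁ s * (1 - (2 : ℂ) ^ (-s)) * (1 - (3 : ℂ) ^ (-s))) ^ 2 * Df s

/-- the continuation of `Gf` through `1` -/
def G1 (s : ℂ) : ℂ := (s - 1) ^ 2 / WW s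

lemma G1_eq {s : ℂ} (hs : s ≠ 1) : G1 s = Gf s := by
  have h : (riemannZeta s * (1 - (2 : ℂ) ^ (-s)) * (1 - (3 : ℂ) ^ (-s))) ^ 2 * Df s =
      ((s - 1) ^ 2)⁻¹ * WW s := by
    rw [riemannZeta_eq_inv_sub_mul hs, WW, ← inv_pow]
    ring
  rw [Gf, h, one_div, mul_inv, inv_inv, G1, div_eq_mul_inv]

lemma WW_diff : Differentiable ℂ WW := by
  have h : ∀ (p : ℂ) (c : ℂ), p ≠ 0 → Differentiable ℂ fun s : ℂ => p ^ (-(c * s)) :=
    fun p c hp => Differentiable.const_cpow (by fun_prop) (Or.inl hp)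
  have h' : ∀ p : ℂ, p ≠ 0 → Differentiable ℂ fun s : ℂ => p ^ (-s) :=
    fun p hp => Differentiable.const_cpow (by fun_prop) (Or.inl hp)
  have hD : Differentiable ℂ Df := by
    unfold Df
    refine Differentiable.fun_finsetProd fun p hp => ?_
    have hp0 : (p : ℂ) ≠ 0 := by exact_mod_cast (mem_filter.1 hp).2.ne_zero
    exact ((differentiable_const _).sub ((h _ 2 hp0).const_mul _)).add ((h _ 3 hp0).const_mul _)
  exact (((differentiable_riemannZeta₁.mul ((differentiable_const _).sub (h' 2 two_ne_zero))).mul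
    ((differentiable_const _).sub (h' 3 three_ne_zero))).pow 2).mul hD

lemma norm_cpow_le {p : ℕ} (hp : 1 ≤ p) {k : ℕ} {z : ℂ} (hz : (k : ℝ) ≤ z.re) :
    ‖(p : ℂ) ^ (-z)‖ ≤ 1 / (p : ℝ) ^ k := by
  have h1 : (1 : ℝ) ≤ p := by exact_mod_cast hp
  rw [norm_natCast_cpow_of_pos hp, one_div, ← Real.rpow_natCast, ← Real.rpow_neg (by linarith)]
  exact Real.rpow_le_rpow_of_exponent_le h1 (by simpa using hz)

lemma one_sub_ne {z : ℂ} (h : ‖z‖ < 1) : 1 - z ≠ 0 := fun e => by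
  rw [← sub_eq_zero.1 e, norm_one] at h
  exact lt_irrefl _ h

lemma WW_ne {s : ℂ} (hs : 1 ≤ s.re) : WW s ≠ 0 := by
  have h1 : riemannZeta₁ s ≠ 0 := by
    rcases eq_or_ne s 1 with rfl | h
    · simp
    · intro e
      exact riemannZeta_ne_zero_of_one_le_re hs (by rw [riemannZeta_eq_inv_sub_mul h, e, mul_zero])
  have h2 : 1 - (2 : ℂ) ^ (-s) ≠ 0 := one_sub_ne
    ((norm_cpow_le (p := 2) (k := 1) (by norm_num) (by simpa using hs)).trans_lt (by norm_num))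
  have h3 : 1 - (3 : ℂ) ^ (-s) ≠ 0 := one_sub_ne
    ((norm_cpow_le (p := 3) (k := 1) (by norm_num) (by simpa using hs)).trans_lt (by norm_num))
  refine mul_ne_zero (pow_ne_zero _ (mul_ne_zero (mul_ne_zero h1 h2) h3))
    (prod_ne_zero_iff.2 fun p hp => ?_)
  have p5 : 5 ≤ p := (mem_Icc.1 (mem_filter.1 hp).1).1
  have p5' : (5 : ℝ) ≤ p := by exact_mod_cast p5
  have a1 := norm_cpow_le (p := p) (k := 2) (z := 2 * s) (by omega) (by simp; linarith)
  have a2 := norm_cpow_le (p := p) (k := 2) (z := 3 * s) (by omega) (by simp; linarith)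
  have a3 : 1 / (p : ℝ) ^ 2 ≤ 1 / 25 := one_div_le_one_div_of_le (by norm_num) (by nlinarith)
  rw [sub_add]
  refine one_sub_ne ((norm_sub_le _ _).trans_lt ?_)
  rw [norm_mul, norm_mul, Complex.norm_ofNat, Complex.norm_ofNat]
  linarith

lemma G1_diff {s : ℂ} (h : WW s ≠ 0) : DifferentiableAt ℂ G1 s :=
  DifferentiableAt.div (by fun_prop) (WW_diff s) h

lemma near : ∃ d > 0, ∃ M : ℝ, ∀ σ τ : ℝ, |σ - 1| ≤ d → |τ| ≤ 7.5 →
    DifferentiableAt ℂ G1 (σ + τ * I) ∧ ‖G1 (σ + τ * I)‖ ≤ M := by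
  have hc : Continuous fun z : ℝ × ℝ => (z.1 : ℂ) + z.2 * I := by fun_prop
  have h1 : ∀ᶠ σ : ℝ in 𝓝 1, ∀ τ ∈ Set.Icc (-7.5 : ℝ) 7.5, WW (σ + τ * I) ≠ 0 :=
    isCompact_Icc.eventually_forall_of_forall_eventually fun τ _ =>
      (WW_diff.continuous.comp hc).continuousAt.eventually_ne (WW_ne (by simp))
  obtain ⟨d, hd, h2⟩ := Metric.nhds_basis_closedBall.eventually_iff.1 h1
  have h3 : ContinuousOn (fun z : ℝ × ℝ => G1 (z.1 + z.2 * I))
      (Metric.closedBall 1 d ×ˢ Set.Icc (-7.5 : ℝ) 7.5) := fun z hz =>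
    (ContinuousAt.comp (f := fun z : ℝ × ℝ => (z.1 : ℂ) + z.2 * I)
      (G1_diff (h2 hz.1 _ hz.2)).continuousAt hc.continuousAt).continuousWithinAt
  obtain ⟨M, hM⟩ := ((isCompact_closedBall (1 : ℝ) d).prod isCompact_Icc).exists_bound_of_continuousOn h3
  refine ⟨d, hd, M, fun σ τ hσ hτ => ?_⟩
  have a1 : σ ∈ Metric.closedBall (1 : ℝ) d := by rwa [Metric.mem_closedBall, Real.dist_eq]
  exact ⟨G1_diff (h2 a1 _ (abs_le.1 hτ)), hM (σ, τ) ⟨a1, abs_le.1 hτ⟩⟩

lemma cpow_conj' (p : ℕ) (z : ℂ) : (p : ℂ) ^ conj z = conj ((p : ℂ) ^ z) := by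
  rw [Complex.cpow_conj _ _ (by rw [natCast_arg]; exact Real.pi_ne_zero.symm), conj_natCast]

lemma Gf_conj (s : ℂ) : Gf (conj s) = conj (Gf s) := by
  have h2 : (2 : ℂ) ^ (-conj s) = conj ((2 : ℂ) ^ (-s)) := by
    simpa using cpow_conj' 2 (-s)
  have h3 : (3 : ℂ) ^ (-conj s) = conj ((3 : ℂ) ^ (-s)) := by
    simpa using cpow_conj' 3 (-s)
  have hD : Df (conj s) = conj (Df s) := by
    unfold Df
    rw [map_prod]
    refine prod_congr rfl fun p _ => ?_
    rw [map_add, map_sub, map_mul, map_mul, map_one, ← cpow_conj', ← cpow_conj', map_neg, map_neg,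
      map_mul, map_mul, map_ofNat, map_ofNat]
  rw [Gf, Gf, riemannZeta_conj, h2, h3, hD]
  simp only [map_div₀, map_mul, map_pow, map_sub, map_one]

lemma far (hM : StM) (hZ : StZall2) {L σ τ : ℝ} (hL : 17 ≤ L) (h1 : 1 - 0.065 / L ≤ σ)
    (h2 : σ ≤ 1 + 1 / (3 * L)) (h3 : 7.5 ≤ |τ|) (h4 : |τ| + 2 ≤ 2 * π * Real.exp L) :
    DifferentiableAt ℂ G1 (σ + τ * I) ∧
      ‖G1 (σ + τ * I)‖ ≤ 1.69 * (1 + L) ^ 2 * Real.exp (2 * 2.7) := by
  have hne : (σ : ℂ) + τ * I ≠ 1 := fun e => by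
    have := congrArg Complex.im e
    simp only [add_im, ofReal_im, mul_im, ofReal_re, I_im, I_re, one_im] at this
    rw [show τ = 0 by linarith] at h3
    norm_num at h3
  have he : G1 =ᶠ[𝓝 ((σ : ℂ) + τ * I)] Gf := (eventually_ne_nhds hne).mono fun z hz => G1_eq hz
  rw [he.differentiableAt_iff, G1_eq hne]
  have key := hM L |τ| 0.065 2.7 hL (by linarith) (by norm_num) (hZ L |τ| hL h3 h4).1 σ |τ| h1 h2 (by simp)
  rcases abs_choice τ with e | e
  · rwa [e] at key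
  · have e2 : ((σ : ℂ) + (|τ| : ℝ) * I) = conj ((σ : ℂ) + τ * I) := by
      rw [e]
      simp
    rw [e2] at key
    refine ⟨?_, by rw [← norm_conj, ← Gf_conj]; exact key.2⟩
    have e3 : Gf = conj ∘ Gf ∘ conj := funext fun z => by simp [Gf_conj]
    rw [e3]
    exact differentiableAt_conj_conj_iff.2 key.1

lemma strip (hM : StM) (hZ : StZall2) : ∃ η > 0, η ≤ 0.065 ∧ ∃ C > 0, ∀ L σ τ : ℝ, 17 ≤ L →
    1 - η / L ≤ σ → σ ≤ 1 + η / L → |τ| + 2 ≤ 2 * π * Real.exp L →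
      DifferentiableAt ℂ G1 (σ + τ * I) ∧ ‖G1 (σ + τ * I)‖ ≤ C * L ^ 2 := by
  obtain ⟨d, hd, M, h⟩ := near
  refine ⟨min d 0.065, lt_min hd (by norm_num), min_le_right _ _,
    |M| + 7 * Real.exp (2 * 2.7), by positivity, fun L σ τ hL h1 h2 h4 => ?_⟩
  have L0 : 0 < L := by linarith
  have e0 := Real.exp_pos (2 * 2.7)
  have a1 : min d 0.065 / L ≤ 0.065 / L := div_le_div_of_nonneg_right (min_le_right _ _) L0.le
  have L2 : 1 ≤ L ^ 2 := by nlinarith
  rcases le_total |τ| 7.5 with h3 | h3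
  · have a2 : min d 0.065 / L ≤ d :=
      (div_le_self (lt_min hd (by norm_num)).le (by linarith)).trans (min_le_left _ _)
    obtain ⟨b1, b2⟩ := h σ τ (abs_le.2 ⟨by linarith, by linarith⟩) h3
    refine ⟨b1, b2.trans ?_⟩
    have := le_abs_self M
    have := abs_nonneg M
    nlinarith
  · have a2 : 0.065 / L ≤ 1 / (3 * L) := by
      rw [div_le_div_iff₀ L0 (by linarith)]
      linarith
    obtain ⟨b1, b2⟩ := far hM hZ hL (σ := σ) (by linarith) (by linarith) h3 h4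
    refine ⟨b1, b2.trans ?_⟩
    have a3 : 1.69 * (1 + L) ^ 2 ≤ 7 * L ^ 2 := by nlinarith
    have := mul_nonneg (abs_nonneg M) (sq_nonneg L)
    nlinarith

lemma kap_diff {p : ℝ} {z : ℂ} (h0 : 0 < z.re) (h1 : z.re < p) : DifferentiableAt ℂ (kap p) z := by
  have hp : 0 < p := h0.trans h1
  have hp' : (p : ℂ) ≠ 0 := by exact_mod_cast hp.ne'
  refine DifferentiableAt.div (by fun_prop) (by fun_prop) fun e => ?_
  obtain ⟨k, hk⟩ := Complex.sin_eq_zero_iff.1 e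
  have hπ : (π : ℂ) ≠ 0 := by exact_mod_cast Real.pi_ne_zero
  have hz : z = ((k * p : ℝ) : ℂ) := by
    push_cast
    field_simp at hk
    rw [hk]
    ring
  rw [hz, ofReal_re] at h0 h1
  have a1 : (0 : ℝ) < k := by
    by_contra h
    nlinarith [not_lt.1 h]
  have a2 : (k : ℝ) < 1 := by
    by_contra h
    nlinarith [not_lt.1 h]
  have a3 : 0 < k := by exact_mod_cast a1
  have a4 : k < 1 := by exact_mod_cast a2
  omega

lemma tails {F : ℝ → ℂ} (hF : Integrable F) {H A b : ℝ} (hH : 0 ≤ H) (hb : 0 < b)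
    (h : ∀ t, H ≤ |t| → ‖F t‖ ≤ A * Real.exp (-(b * |t|))) :
    ‖(∫ t, F t) - ∫ t in (-H)..H, F t‖ ≤ 2 * (A * (Real.exp (-(b * H)) / b)) := by
  have e1 := intervalIntegral.integral_Iic_add_Ioi (b := H) hF.integrableOn hF.integrableOn
  have e2 := intervalIntegral.integral_Iic_sub_Iic (a := -H) (b := H) hF.integrableOn
    hF.integrableOn
  have e3 : (∫ t, F t) - ∫ t in (-H)..H, F t =
      (∫ t in Set.Iic (-H), F t) + ∫ t in Set.Ioi H, F t := by
    rw [← e1, ← e2]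
    ring
  have b1 : ‖∫ t in Set.Iic (-H), F t‖ ≤ ∫ t in Set.Iic (-H), A * Real.exp (b * t) := by
    refine norm_integral_le_of_norm_le ((integrableOn_exp_mul_Iic hb _).const_mul A) ?_
    refine (ae_restrict_iff' measurableSet_Iic).2 (Eventually.of_forall fun t ht => ?_)
    have ht' : t ≤ -H := ht
    have := h t (by rw [abs_of_nonpos (by linarith)]; linarith)
    rwa [abs_of_nonpos (by linarith), mul_neg, neg_neg] at this
  have b2 : ‖∫ t in Set.Ioi H, F t‖ ≤ ∫ t in Set.Ioi H, A * Real.exp (-b * t) := by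
    refine norm_integral_le_of_norm_le
      ((integrableOn_exp_mul_Ioi (neg_neg_of_pos hb) _).const_mul A) ?_
    refine (ae_restrict_iff' measurableSet_Ioi).2 (Eventually.of_forall fun t ht => ?_)
    have ht' : H < t := ht
    have := h t (by rw [abs_of_nonneg (by linarith)]; linarith)
    rwa [abs_of_nonneg (by linarith), ← neg_mul] at this
  rw [integral_const_mul, integral_exp_mul_Iic hb, mul_neg] at b1
  rw [integral_const_mul, integral_exp_mul_Ioi (neg_neg_of_pos hb), neg_div_neg_eq, neg_mul] at b2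
  rw [e3]
  linarith [norm_add_le (∫ t in Set.Iic (-H), F t) (∫ t in Set.Ioi H, F t)]

lemma left (hK : StKap) {F : ℝ → ℂ} {p a H A : ℝ} (hp : 2 ≤ p) (h0 : 1 / 2 ≤ a) (h1 : a ≤ 1)
    (hH : 0 ≤ H) (hA : 0 ≤ A) (h : ∀ t, |t| ≤ H → ‖F t‖ ≤ A * ‖kap p (a + t * I)‖) :
    ‖∫ t in (-H)..H, F t‖ ≤ A * (π * p) := by
  have p0 : 0 < p := by linarith
  obtain ⟨i1, i2⟩ := (hK p p0).1 a (by linarith) (by rw [abs_of_pos (by linarith)]; linarith)
  have s1 : 1 / p ≤ Real.sin (π * a / p) := by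
    have b1 : π * a / p ≤ π / 2 := by
      rw [div_le_div_iff₀ p0 two_pos]
      nlinarith [Real.pi_pos, mul_le_mul_of_nonneg_left h1 Real.pi_pos.le]
    have b2 := Real.mul_le_sin (x := π * a / p) (by have := Real.pi_pos; positivity) b1
    have b3 : 2 / π * (π * a / p) = 2 * a / p := by field_simp
    rw [b3] at b2
    exact (div_le_div_of_nonneg_right (by linarith) p0.le).trans b2
  have s2 : π / |Real.sin (π * a / p)| ≤ π * p := by
    have := div_le_div_of_nonneg_left Real.pi_pos.le (one_div_pos.2 p0)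
      (s1.trans (le_abs_self _))
    rwa [div_div_eq_mul_div, div_one] at this
  calc ‖∫ t in (-H)..H, F t‖ ≤ ∫ t in (-H)..H, A * ‖kap p (a + t * I)‖ :=
        intervalIntegral.norm_integral_le_of_norm_le (by linarith)
          (Eventually.of_forall fun t ht => h t (abs_le.2 ⟨ht.1.le, ht.2⟩))
          (i1.norm.const_mul A).intervalIntegrable
    _ ≤ ∫ t : ℝ, A * ‖kap p (a + t * I)‖ := by
        rw [intervalIntegral.integral_of_le (by linarith)]
        exact setIntegral_le_integral (i1.norm.const_mul A)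
          (Eventually.of_forall fun t => by positivity)
    _ ≤ A * (π * p) := by
        rw [integral_const_mul]
        exact mul_le_mul_of_nonneg_left (i2.trans s2) hA

lemma Gf_le (hD : StDir) (hS : StMass) {δ : ℝ} (hδ : 0 < δ) (t : ℝ) :
    ‖Gf ((1 + δ : ℝ) + t * I)‖ ≤ 1.1361 * (1 + 1 / (3 * δ)) ^ 2 := by
  obtain ⟨s1, s2⟩ := hS δ hδ
  refine le_trans ((hD _ (by simpa using hδ)).norm_le_of_bounded s1.hasSum fun m => ?_) s2
  rcases Nat.eq_zero_or_pos m with rfl | hm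
  · simp [gg, mf]
  · rw [norm_mul, norm_real, Real.norm_eq_abs, norm_natCast_cpow_of_pos hm]
    simp

lemma core (hK : StKap) (hMel : StMel) (hR : StRect) (hD : StDir) (hS : StMass) {η C : ℝ}
    (η0 : 0 < η) (η1 : η ≤ 0.065) (C0 : 0 < C) (hs : ∀ L σ τ : ℝ, 17 ≤ L →
      1 - η / L ≤ σ → σ ≤ 1 + η / L → |τ| + 2 ≤ 2 * π * Real.exp L →
        DifferentiableAt ℂ G1 (σ + τ * I) ∧ ‖G1 (σ + τ * I)‖ ≤ C * L ^ 2)
    {w x p : ℝ} (hw : 17 ≤ w) (h1 : 1 ≤ η * w) (hx : 1 ≤ x) (hu : Real.log x = w ^ 2)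
    (hp : 2 ≤ p) (hH : p * w ^ 2 + 2 ≤ 2 * π * Real.exp w) :
    |∑' m : ℕ, gg m / (1 + (m / x) ^ p)| ≤
      x * Real.exp (-(η * w)) * (24 * C * w ^ 2 + 4 * C * w ^ 2 * p + 40 * w ^ 4) := by
  have w0 : 0 < w := by linarith
  have x0 : 0 < x := by linarith
  have p0 : 0 < p := by linarith
  have u1 : 2 ≤ w ^ 2 := by nlinarith
  have π3 := Real.pi_gt_three
  have π4 := Real.pi_lt_d2
  have d0 : 0 < 1 / w ^ 2 := by positivity
  have d1 : 1 / w ^ 2 ≤ η / w := by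
    rw [div_le_div_iff₀ (by positivity) w0]
    nlinarith
  have d2 : η / w ≤ 1 / 4 := by
    rw [div_le_iff₀ w0]
    linarith
  have E0 := Real.exp_pos (-(η * w))
  have hE : Real.exp (-(π * w ^ 2)) ≤ Real.exp (-(η * w)) :=
    Real.exp_le_exp.2 (by nlinarith)
  have hH0 : 0 ≤ p * w ^ 2 := by positivity
  have hH1 : p ≤ p * w ^ 2 := by nlinarith
  have nx : ∀ σ τ : ℝ, ‖(x : ℂ) ^ ((σ : ℂ) + τ * I)‖ = x ^ σ := fun σ τ => by
    rw [norm_cpow_eq_rpow_re_of_pos x0]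
    simp
  have xc : ∀ σ ≤ 1 + 1 / w ^ 2, x ^ σ ≤ 3 * x := fun σ hσ => by
    refine (Real.rpow_le_rpow_of_exponent_le hx hσ).trans ?_
    rw [Real.rpow_add x0, Real.rpow_one, Real.rpow_def_of_pos x0, hu,
      mul_one_div_cancel (by positivity)]
    nlinarith [Real.exp_one_lt_d9]
  have xa : x ^ (1 - η / w) = x * Real.exp (-(η * w)) := by
    rw [sub_eq_add_neg, Real.rpow_add x0, Real.rpow_one, Real.rpow_def_of_pos x0, hu]
    congr 2
    field_simp
  obtain ⟨F, hF⟩ : ∃ F : ℂ → ℂ, F = fun z => G1 z * (x : ℂ) ^ z * kap p z := ⟨_, rfl⟩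
  have hG : ∀ σ τ : ℝ, 1 - η / w ≤ σ → σ ≤ 1 + 1 / w ^ 2 → |τ| ≤ p * w ^ 2 →
      DifferentiableAt ℂ G1 (σ + τ * I) ∧ ‖G1 (σ + τ * I)‖ ≤ C * w ^ 2 :=
    fun σ τ a1 a2 a3 => hs w σ τ hw a1 (by linarith) (by linarith)
  have hside : ∀ σ τ : ℝ, 1 - η / w ≤ σ → σ ≤ 1 + 1 / w ^ 2 → |τ| = p * w ^ 2 →
      ‖F (σ + τ * I)‖ ≤ C * w ^ 2 * (3 * x) * (4 * Real.exp (-(η * w))) := fun σ τ a1 a2 a3 => by
    have k1 := (hK p p0).2.1 σ τ (by rw [a3]; exact hH1)
    have k2 : π * |τ| / p = π * w ^ 2 := by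
      rw [a3]
      field_simp
    have k3 : 2.01 * π / p ≤ 4 := by
      rw [div_le_iff₀ p0]
      linarith
    rw [k2] at k1
    rw [hF, norm_mul, norm_mul, nx]
    exact mul_le_mul (mul_le_mul (hG σ τ a1 a2 a3.le).2 (xc σ a2) (by positivity) (by positivity))
      (k1.trans (mul_le_mul k3 hE (by positivity) (by norm_num))) (by positivity) (by positivity)
  have r1 := hR F (1 - η / w) (1 + 1 / w ^ 2) (p * w ^ 2) _ (by linarith) hH0
    (fun z hz => by
      have a1 := (hG z.re z.im hz.1 hz.2.1 hz.2.2).1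
      rw [re_add_im] at a1
      rw [hF]
      exact ((a1.mul (DifferentiableAt.const_cpow differentiableAt_id
        (Or.inl (by exact_mod_cast x0.ne')))).mul
          (kap_diff (by linarith [hz.1]) (by linarith [hz.2.1]))).differentiableWithinAt)
    (fun σ a1 a2 => ⟨hside σ _ a1 a2 (abs_of_nonneg hH0), by
      have := hside σ (-(p * w ^ 2)) a1 a2 (by rw [abs_neg, abs_of_nonneg hH0])
      rwa [ofReal_neg, neg_mul, ← sub_eq_add_neg] at this⟩)
  have r2 := left hK (F := fun t => F ((1 - η / w : ℝ) + t * I)) (a := 1 - η / w)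
    (A := C * w ^ 2 * (x * Real.exp (-(η * w)))) hp (by linarith) (by linarith) hH0
    (by positivity) fun t ht => by
      rw [hF, norm_mul, norm_mul, nx, xa]
      exact mul_le_mul_of_nonneg_right (mul_le_mul_of_nonneg_right
        (hG _ t le_rfl (by linarith) ht).2 (by positivity)) (norm_nonneg _)
  have hne : ∀ t : ℝ, ((1 + 1 / w ^ 2 : ℝ) : ℂ) + t * I ≠ 1 := fun t e => by
    have := congrArg Complex.re e
    simp only [add_re, ofReal_re, mul_re, I_re, ofReal_im, I_im, one_re] at this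
    linarith
  obtain ⟨m1, m2⟩ := hMel p (1 + 1 / w ^ 2) x (fun m => (gg m : ℂ)) (by linarith) (by linarith) x0
    (by simp [gg, mf]) (by simpa using (hS _ d0).1)
  have e1 : ∀ t : ℝ, (∑' m : ℕ, (gg m : ℂ) * (m : ℂ) ^ (-(((1 + 1 / w ^ 2 : ℝ) : ℂ) + t * I))) *
      (x : ℂ) ^ (((1 + 1 / w ^ 2 : ℝ) : ℂ) + t * I) * kap p (((1 + 1 / w ^ 2 : ℝ) : ℂ) + t * I) =
        F (((1 + 1 / w ^ 2 : ℝ) : ℂ) + t * I) := fun t => by
    rw [(hD _ (by simp only [add_re, ofReal_re, mul_re, I_re, ofReal_im, I_im]; linarith)).tsum_eq,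
      hF, ← G1_eq (hne t)]
  simp only [e1] at m1 m2
  have r3 := tails m1 (A := 3 * w ^ 4 * (3 * x) * (2.01 * π / p)) (b := π / p) hH0
    (by positivity) fun t ht => by
      have k1 := (hK p p0).2.1 (1 + 1 / w ^ 2) t (hH1.trans ht)
      have k2 := Gf_le hD hS d0 t
      have k3 : 1.1361 * (1 + 1 / (3 * (1 / w ^ 2))) ^ 2 ≤ 3 * w ^ 4 := by
        have : 1 / (3 * (1 / w ^ 2)) = w ^ 2 / 3 := by field_simp
        rw [this]
        nlinarith
      rw [hF, norm_mul, norm_mul, nx, G1_eq (hne t), mul_assoc (3 * w ^ 4 * (3 * x)),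
        div_mul_eq_mul_div π p]
      exact mul_le_mul (mul_le_mul (k2.trans k3) (xc _ le_rfl) (by positivity) (by positivity))
        k1 (by positivity) (by positivity)
  have e2 : 2 * (3 * w ^ 4 * (3 * x) * (2.01 * π / p) *
      (Real.exp (-(π / p * (p * w ^ 2))) / (π / p))) =
        36.18 * w ^ 4 * x * Real.exp (-(π * w ^ 2)) := by
    rw [show π / p * (p * w ^ 2) = π * w ^ 2 by field_simp]
    field_simp
    ring
  rw [e2, m2] at r3
  have e3 : ‖(2 * π * ∑' m : ℕ, (gg m : ℂ) / ((1 + (m / x) ^ p : ℝ) : ℂ) : ℂ)‖ =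
      2 * π * |∑' m : ℕ, gg m / (1 + (m / x) ^ p)| := by
    rw [norm_mul, norm_mul, Complex.norm_ofNat, norm_real, Real.norm_of_nonneg Real.pi_pos.le,
      ← Real.norm_eq_abs, ← norm_real, ofReal_tsum]
    simp only [ofReal_div]
  have t1 := norm_le_norm_add_norm_sub' (2 * π * ∑' m : ℕ, (gg m : ℂ) /
    ((1 + (m / x) ^ p : ℝ) : ℂ) : ℂ)
    (∫ t in (-(p * w ^ 2))..(p * w ^ 2), F (((1 + 1 / w ^ 2 : ℝ) : ℂ) + t * I))
  have t2 := norm_le_norm_add_norm_sub'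
    (∫ t in (-(p * w ^ 2))..(p * w ^ 2), F (((1 + 1 / w ^ 2 : ℝ) : ℂ) + t * I))
    (∫ t in (-(p * w ^ 2))..(p * w ^ 2), F (((1 - η / w : ℝ) : ℂ) + t * I))
  rw [e3] at t1
  have f1 : 2 * (C * w ^ 2 * (3 * x) * (4 * Real.exp (-(η * w)))) *
      (1 + 1 / w ^ 2 - (1 - η / w)) ≤ x * Real.exp (-(η * w)) * (24 * C * w ^ 2) :=
    (mul_le_of_le_one_right (by positivity) (by linarith)).trans (le_of_eq (by ring))
  have f2 : C * w ^ 2 * (x * Real.exp (-(η * w))) * (π * p) ≤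
      x * Real.exp (-(η * w)) * (4 * C * w ^ 2 * p) :=
    (mul_le_mul_of_nonneg_left (mul_le_mul_of_nonneg_right (show π ≤ 4 by linarith) p0.le)
      (by positivity)).trans (le_of_eq (by ring))
  have f3 : 36.18 * w ^ 4 * x * Real.exp (-(π * w ^ 2)) ≤
      x * Real.exp (-(η * w)) * (40 * w ^ 4) :=
    (mul_le_mul (show 36.18 * w ^ 4 * x ≤ 40 * w ^ 4 * x by gcongr; norm_num) hE
      (by positivity) (by positivity)).trans (le_of_eq (by ring))
  have f4 := le_mul_of_one_le_left (abs_nonneg (∑' m : ℕ, gg m / (1 + (m / x) ^ p)))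
    (show 1 ≤ 2 * π by linarith)
  linarith

end Taub1

theorem taub1 (hK : StKap) (hMel : StMel) (hR : StRect) (hD : StDir) (hS : StMass) (hM : StM)
    (hZ : StZall2) : StTaub1 := by
  obtain ⟨η, η0, η1, C, C0, hs⟩ := Taub1.strip hM hZ
  refine ⟨44 * C + 40, ?_⟩
  have tw : Tendsto (fun x : ℝ => √(Real.log x)) atTop atTop :=
    Real.tendsto_sqrt_atTop.comp Real.tendsto_log_atTop
  have t1 := (Real.tendsto_pow_mul_exp_neg_atTop_nhds_zero 14).comp (tw.const_mul_atTop η0)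
  filter_upwards [tw.eventually_ge_atTop 17, (tw.const_mul_atTop η0).eventually_ge_atTop 1,
    t1.eventually_le_const (pow_pos η0 14), eventually_ge_atTop 1] with x hw h1 h2 hx
  have hu : Real.log x = √(Real.log x) ^ 2 := (Real.sq_sqrt (Real.log_nonneg hx)).symm
  simp only [Function.comp_def] at h2
  generalize √(Real.log x) = w at hw h1 h2 hu
  have w1 : 1 ≤ w := by linarith
  have w0 : 0 < w := by linarith
  have E0 := Real.exp_pos (-(η * w))
  have h3 : w ^ 14 * Real.exp (-(η * w)) ≤ 1 := by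
    have h4 : η ^ 14 * (w ^ 14 * Real.exp (-(η * w))) ≤ η ^ 14 * 1 := by
      rw [mul_one, ← mul_assoc, ← mul_pow]
      exact h2
    exact le_of_mul_le_mul_left h4 (pow_pos η0 14)
  have p8 : 1 ≤ w ^ 8 := one_le_pow₀ w1
  have p2 : w ^ 2 ≤ w ^ 10 := pow_le_pow_right₀ w1 (by norm_num)
  have p4 : w ^ 4 ≤ w ^ 10 := pow_le_pow_right₀ w1 (by norm_num)
  have p10 : 1 ≤ w ^ 10 := one_le_pow₀ w1
  have h5 : w ^ 14 ≤ Real.exp w := by
    have a1 : Real.exp (-w) ≤ Real.exp (-(η * w)) := Real.exp_le_exp.2 (by nlinarith)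
    have a2 := (mul_le_mul_of_nonneg_left a1 (by positivity : 0 ≤ w ^ 14)).trans h3
    rwa [Real.exp_neg, ← div_eq_mul_inv, div_le_one (Real.exp_pos w)] at a2
  have h6 : 2 * w ^ 10 ≤ w ^ 14 := by
    have a1 : w ≤ w ^ 4 := le_self_pow₀ w1 (by norm_num)
    calc 2 * w ^ 10 ≤ w ^ 4 * w ^ 10 := mul_le_mul_of_nonneg_right (by linarith) (by positivity)
      _ = w ^ 14 := by ring
  have hp : (3 * (w ^ 2) ^ 4 + 2) * w ^ 2 ≤ 5 * w ^ 10 := by nlinarith
  have key := Taub1.core hK hMel hR hD hS η0 η1 C0 hs hw h1 hx hu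
    (p := 3 * (w ^ 2) ^ 4 + 2) (by have : 0 ≤ (w ^ 2) ^ 4 := by positivity
                                   linarith)
    (by nlinarith [Real.pi_gt_three, Real.exp_pos w])
  rw [hu]
  refine key.trans ?_
  have h7 : 24 * C * w ^ 2 + 4 * C * w ^ 2 * (3 * (w ^ 2) ^ 4 + 2) + 40 * w ^ 4 ≤
      (44 * C + 40) * w ^ 10 := by
    nlinarith [mul_le_mul_of_nonneg_left hp C0.le, mul_le_mul_of_nonneg_left p2 C0.le]
  rw [le_div_iff₀ (by positivity)]
  calc _ ≤ x * Real.exp (-(η * w)) * ((44 * C + 40) * w ^ 10) * (w ^ 2) ^ 2 := by gcongr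
    _ = (44 * C + 40) * x * (w ^ 14 * Real.exp (-(η * w))) := by ring
    _ ≤ _ := mul_le_of_le_one_right (by positivity) h3

end

end Pool.Agent.Lib.MP_5db4ad_nt.S2
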