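import Pool.Agent.Lib.MP_5db4ad_nt.S2Defs

/-! The mass of the first difference in the windows around the jumps. -/

namespace Pool.Agent.Lib.MP_5db4ad_nt.S2

open Finset Filter

namespace Win0

lemma l_pos : 0 < Real.log 2 := Real.log_pos (by norm_num)

lemma wq_pos (q m : ℕ) : 0 < wq q m := by unfold wq; positivity

lemma inv_le_one (x : ℝ) : 1 / (1 + Real.exp x) ≤ 1 := by
  have := Real.exp_pos x
  rw [div_le_one (by linarith)]; linarith

lemma abs_cw (q m : ℕ) : |cw q m| = |gg m| * wq q m / m := by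
  rw [cw, abs_div, abs_mul, abs_of_pos (wq_pos q m), Nat.abs_cast]

lemma dd_out {m : ℕ} (h : m ∉ Aset) : |dd 0 m| = |gg m| * wq 25 m / m := by
  rw [← abs_cw]; simp [dd, cA, h]

lemma lt_of_mem {m : ℕ} (h : m ∈ Aset) : m < 2 ^ 36 :=
  (mem_Aset.1 h).2.trans_le (Nat.pow_le_pow_right (by norm_num) (et_le _))

lemma log_lt {m s : ℕ} (h : m < 2 ^ s) (hs : 0 < s) : Real.log m < s * Real.log 2 := by
  rcases Nat.eq_zero_or_pos m with rfl | h0
  · have := l_pos
    simp only [Nat.cast_zero, Real.log_zero]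
    positivity
  · rw [← Real.log_pow]
    exact Real.log_lt_log (by exact_mod_cast h0) (by exact_mod_cast h)

lemma le_log {m s : ℕ} (h : 2 ^ s ≤ m) : s * Real.log 2 ≤ Real.log m := by
  rw [← Real.log_pow]
  exact Real.log_le_log (by positivity) (by exact_mod_cast h)

lemma dd_in {m : ℕ} (h : m ∈ Aset) :
    |dd 0 m| ≤ |gg m| / m * Real.exp (-24) ∧ |dd 0 m| ≤ |cw 25 m| := by
  have h1 := log_lt (lt_of_mem h) (by norm_num)
  have h2 := Real.log_two_gt_d9
  have h3 : Real.log m / (2 * Lq 25) - (25 : ℕ) ≤ -24 := by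
    have h4 : Real.log m / (2 * Lq 25) ≤ 1 := by
      unfold Lq
      push_cast at h1 ⊢
      rw [div_le_one (by linarith)]; linarith
    push_cast
    linarith
  set e := Real.exp (Real.log m / (2 * Lq 25) - (25 : ℕ)) with he
  have e0 : 0 < e := Real.exp_pos _
  have e1 : e ≤ Real.exp (-24) := Real.exp_le_exp.2 h3
  have e2 : e ≤ 1 := e1.trans (Real.exp_le_one_iff.2 (by norm_num))
  have h5 : |dd 0 m| = |gg m| / m * (e / (1 + e)) := by
    have h6 : dd 0 m = -(gg m / m * (e / (1 + e))) := by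
      simp only [dd, cA, h, if_true, cw, wq, ← he]
      field_simp
      ring
    rw [h6, abs_neg, abs_mul, abs_div, Nat.abs_cast, abs_of_pos (a := e / (1 + e)) (by positivity)]
  rw [h5, abs_cw, wq, ← he, mul_div_right_comm]
  constructor
  · refine mul_le_mul_of_nonneg_left (le_trans ?_ e1) (by positivity)
    exact div_le_self e0.le (by linarith)
  · gcongr

lemma dd_le (m : ℕ) : |dd 0 m| ≤ |cw 25 m| := by
  by_cases h : m ∈ Aset
  · exact (dd_in h).2
  · rw [dd_out h, abs_cw]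

/-- every `m` lies in at most three windows -/
lemma three (c : ℕ → ℝ) (hc : ∀ m, 0 ≤ c m) {u v : ℝ} (hv : v ≤ Real.log 2) (S : Finset (ℕ × ℤ))
    (hS : ∀ z ∈ S, |u - Real.log z.1 - z.2 * Real.log 2| ≤ v) :
    ∑ z ∈ S, c z.1 ≤ 3 * ∑ m ∈ S.image Prod.fst, c m := by
  rw [sum_comp c Prod.fst, mul_sum]
  refine sum_le_sum fun m _ => ?_
  rw [nsmul_eq_mul]
  refine mul_le_mul_of_nonneg_right ?_ (hc m)
  have hl := l_pos
  set f := ⌊(u - Real.log m) / Real.log 2⌋ with hf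
  have h1 : #{a ∈ S | a.1 = m} ≤ #(Icc (f - 1) (f + 1)) := by
    refine card_le_card_of_injOn Prod.snd (fun z hz => ?_) fun z hz z' hz' h => ?_
    · rw [mem_coe, mem_filter] at hz
      have h2 := abs_le.1 ((hS z hz.1).trans hv)
      rw [hz.2] at h2
      have h3 : z.2 - 1 ≤ f := by
        rw [hf, Int.le_floor, le_div_iff₀ hl]
        push_cast
        linarith [h2.1]
      have h4 : f ≤ z.2 + 1 := by
        have h5 : (f : ℝ) ≤ ((z.2 + 1 : ℤ) : ℝ) := by
          refine (Int.floor_le _).trans ?_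
          rw [div_le_iff₀ hl]
          push_cast
          linarith [h2.2]
        exact_mod_cast h5
      rw [mem_coe, mem_Icc]
      omega
    · rw [mem_coe, mem_filter] at hz hz'
      exact Prod.ext (hz.2.trans hz'.2.symm) h
  have h2 : #(Icc (f - 1) (f + 1)) = 3 := by
    rw [Int.card_Icc]; omega
  rw [h2] at h1
  exact_mod_cast h1

/-- summation window by window -/
lemma group (c : ℕ → ℝ) (T : Finset (ℕ × ℤ)) (s0 : ℤ) (I : Finset ℕ) (Q : ℕ → ℕ → Prop)
    (B : ℕ → ℝ) (hT : ∀ z ∈ T, ∃ s ∈ I, (s : ℤ) = s0 - z.2 ∧ Q s z.1)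
    (hB : ∀ s ∈ I, ∀ W : Finset ℕ, (∀ m ∈ W, Q s m) → ∑ m ∈ W, c m ≤ B s) :
    ∑ z ∈ T, c z.1 ≤ ∑ s ∈ I, B s := by
  have h1 : ∀ z ∈ T, (s0 - z.2).toNat ∈ I := fun z hz => by
    obtain ⟨s, hs, h, -⟩ := hT z hz
    rwa [← h, Int.toNat_natCast]
  rw [← sum_fiberwise_of_maps_to h1]
  refine sum_le_sum fun s hs => ?_
  have h2 : ∀ z ∈ T.filter fun z => (s0 - z.2).toNat = s, (s : ℤ) = s0 - z.2 ∧ Q s z.1 := by
    intro z hz
    obtain ⟨s', -, h, h'⟩ := hT z (mem_filter.1 hz).1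
    have h3 := (mem_filter.1 hz).2
    rw [← h, Int.toNat_natCast] at h3
    exact h3 ▸ ⟨h, h'⟩
  rw [← sum_image (s := T.filter fun z => (s0 - z.2).toNat = s) (g := Prod.fst) (f := c)
    fun z hz z' hz' h => Prod.ext h (by have := (h2 z hz).1; have := (h2 z' hz').1; omega)]
  refine hB s hs _ fun m hm => ?_
  obtain ⟨z, hz, rfl⟩ := mem_image.1 hm
  exact (h2 z hz).2

lemma exp_small {x : ℝ} (h0 : 0 ≤ x) (h1 : x ≤ 0.04) : Real.exp x - 1 ≤ 1.0204 * x := by
  have h := Real.exp_bound' h0 (by linarith) (n := 3) (by norm_num)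
  simp only [sum_range_succ, range_zero, sum_empty, Nat.factorial] at h
  norm_num at h
  have h2 : x * x ≤ 0.04 * x := mul_le_mul_of_nonneg_right h1 h0
  have h3 : x * x * x ≤ 0.04 * x * 0.04 := mul_le_mul h2 h1 h0 (by positivity)
  nlinarith

lemma coprime_of_ne {m : ℕ} (h : gg m ≠ 0) : Nat.Coprime m 6 := by
  have h0 : m ≠ 0 := by
    rintro rfl
    exact h (by simp [gg, mf])
  have h1 : ∀ p : ℕ, p.Prime → p ≤ 3 → ¬ p ∣ m := fun p hp h3 hd => h (by
    simp only [gg, mf, h0, if_false]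
    exact prod_eq_zero (i := p) (by simp [hp, hd, h0]) (by simp [gloc, h3]))
  rw [show 6 = 2 * 3 from rfl, Nat.coprime_mul_iff_right]
  exact ⟨((Nat.Prime.coprime_iff_not_dvd Nat.prime_two).2 (h1 2 Nat.prime_two (by norm_num))).symm,
    ((Nat.Prime.coprime_iff_not_dvd Nat.prime_three).2 (h1 3 Nat.prime_three le_rfl)).symm⟩

lemma abs_gg_le (m : ℕ) : |gg m| ≤ 2 ^ ArithmeticFunction.cardFactors m := by
  unfold gg mf
  split_ifs with h
  · simp
  rw [ArithmeticFunction.cardFactors_eq_sum_factorization, Finsupp.prod, Finsupp.sum, abs_prod,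
    ← prod_pow_eq_pow_sum]
  refine prod_le_prod (fun _ _ => abs_nonneg _) fun p _ => ?_
  unfold gloc
  split_ifs with h1 h2 h3 h4
  · simp
  · simp [abs_pow]
  · simp [h3]
  · rw [h4]; norm_num
  · simp

/-- the largest number of prime factors in the window `14 + i` -/
def omx (i : ℕ) : ℕ :=
  [2, 3, 4, 4, 5, 5, 6, 6, 7, 8, 8, 9, 9, 9, 10, 10, 11, 11, 11, 12, 12, 12, 12].getD i 0

lemma om_spec {s w : ℕ} (hs : s ≤ 36) (h1 : et w ≤ s) (h2 : et w ≤ 35) :
    14 ≤ s ∧ w ≤ omx (s - 14) := by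
  rcases lt_or_ge w 13 with h | h
  · have h3 : ∀ s < 37, ∀ w < 13, et w ≤ s → 14 ≤ s ∧ w ≤ omx (s - 14) := by decide
    exact h3 s (by omega) w h h1
  · rw [et, List.getD_eq_default _ _ (by simpa using h)] at h2
    omega

lemma window {m : ℕ} {t x : ℝ} (hm : 0 < m) (h1 : t - x ≤ Real.log m) (h2 : Real.log m ≤ t) :
    Real.exp (t - x) ≤ m ∧ m ≤ Real.exp (t - x) + Real.exp (t - x) * (Real.exp x - 1) := by
  have h0 : (0 : ℝ) < m := by exact_mod_cast hm
  constructor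
  · exact (Real.le_log_iff_exp_le h0).1 h1
  · rw [mul_sub, mul_one, add_sub_cancel, ← Real.exp_add, sub_add_cancel]
    exact (Real.log_le_iff_le_exp h0).1 h2

lemma L_bounds : 17.0286 ≤ Lq 25 ∧ Lq 25 ≤ 17.0287 := by
  have h1 := Real.log_two_gt_d9
  have h2 := Real.log_two_lt_d9
  unfold Lq
  push_cast
  constructor <;> linarith

/-- one window of large integers -/
lemma big (hS : StShort) {t x : ℝ} (hx : 0 ≤ x) (ht : x ≤ t) (W : Finset ℕ)
    (hW : ∀ m ∈ W, m ∉ Aset ∧ 0 < m ∧ t - x ≤ Real.log m ∧ Real.log m ≤ t) :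
    ∑ m ∈ W, |dd 0 m| ≤ (Real.exp x - 1) *
      (wf (1 / (2 * Lq 25)) (50 * Lq 25 + x) t * (0.12624 * t + 0.7574)) +
        55.6 * Real.exp x * Real.exp (-(t / 2)) := by
  have hL := L_bounds.1
  set y := Real.exp (t - x) with hy
  set w := wf (1 / (2 * Lq 25)) (50 * Lq 25 + x) t with hw
  have y0 : 0 < y := Real.exp_pos _
  have w0 : 0 < w := by rw [hw, wf]; positivity
  have w1 : w ≤ 1 := inv_le_one _
  have e1 : 0 ≤ Real.exp x - 1 := sub_nonneg.2 (Real.one_le_exp hx)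
  have h1 := hS y (y * (Real.exp x - 1)) (Real.one_le_exp (by linarith)) (by positivity) W
    fun m hm => window (hW m hm).2.1 (hW m hm).2.2.1 (hW m hm).2.2.2
  have h2 : y + y * (Real.exp x - 1) = Real.exp t := by
    rw [mul_sub, mul_one, add_sub_cancel, hy, ← Real.exp_add, sub_add_cancel]
  rw [h2, Real.log_exp, ← Real.exp_half] at h1
  have h3 : Real.exp (t / 2) = y * (Real.exp x * Real.exp (-(t / 2))) := by
    rw [hy, ← Real.exp_add, ← Real.exp_add]
    congr 1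
    ring
  have h4 : ∑ m ∈ W, |dd 0 m| ≤ w / y * ∑ m ∈ W, |gg m| := by
    rw [mul_sum]
    refine sum_le_sum fun m hm => ?_
    obtain ⟨a1, a2, a3, a4⟩ := hW m hm
    have h5 : wq 25 m ≤ w := by
      rw [hw, wq, wf]
      refine one_div_le_one_div_of_le (by positivity) (add_le_add le_rfl (Real.exp_le_exp.2 ?_))
      have h6 : 1 / (2 * Lq 25) * (t - (50 * Lq 25 + x)) = (t - x) / (2 * Lq 25) - 25 := by
        field_simp
        ring
      rw [h6]
      push_cast
      gcongr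
    rw [dd_out a1, mul_div_assoc, mul_comm]
    have h6 := (window a2 a3 a4).1
    gcongr
  refine h4.trans ((mul_le_mul_of_nonneg_left h1 (by positivity)).trans ?_)
  rw [h3]
  have h5 : w / y * ((0.12624 * t + 0.7574) * (y * (Real.exp x - 1)) +
      55.6 * (y * (Real.exp x * Real.exp (-(t / 2))))) = (Real.exp x - 1) *
      (w * (0.12624 * t + 0.7574)) + w * (55.6 * Real.exp x * Real.exp (-(t / 2))) := by
    field_simp
  rw [h5]
  exact add_le_add le_rfl (mul_le_of_le_one_left (by positivity) w1)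

lemma exp25 : Real.exp (-24) ≤ 1 / 20000000000 := by
  have h1 : Real.exp 24 = Real.exp 1 ^ 24 := by
    rw [← Real.exp_nat_mul]; norm_num
  have h2 : (20000000000 : ℝ) ≤ Real.exp 24 := by
    rw [h1]
    have h3 : (2.7 : ℝ) ≤ Real.exp 1 := le_trans (by norm_num) Real.exp_one_gt_d9.le
    exact le_trans (by norm_num) (pow_le_pow_left₀ (by norm_num) h3 24)
  rw [Real.exp_neg, one_div]
  exact inv_anti₀ (by norm_num) h2

/-- the lattice sum -/
lemma lat (hL : StLat) {θ x : ℝ} (h0 : 0 ≤ θ) (h1 : θ < Real.log 2) (hx : 0 ≤ x) (hx' : x ≤ 0.04)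
    (K : ℕ) : ∑ s ∈ Ico 36 K, wf (1 / (2 * Lq 25)) (50 * Lq 25 + x) (θ + s * Real.log 2) *
      (0.12624 * (θ + s * Real.log 2) + 0.7574) ≤ 67500 := by
  obtain ⟨b1, b2⟩ := L_bounds
  have l1 := Real.log_two_gt_d9
  have l2 := Real.log_two_lt_d9
  have hp : Real.exp (-(1 / (2 * Lq 25) * (50 * Lq 25 + x))) ≤ 1 / (2 * Lq 25) := by
    have h2 : 24 ≤ 1 / (2 * Lq 25) * (50 * Lq 25 + x) := by
      rw [one_div_mul_eq_div, le_div_iff₀ (by linarith)]
      linarith
    refine (Real.exp_le_exp.2 (neg_le_neg h2)).trans (exp25.trans ?_)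
    exact one_div_le_one_div_of_le (by linarith) (by linarith)
  obtain ⟨s1, -, s2⟩ := hL (1 / (2 * Lq 25)) (50 * Lq 25 + x) 0.12624 0.7574 (θ + Real.log 2)
    (by positivity) (by linarith) hp (by norm_num) (by linarith) (by linarith) (by linarith)
  have hn : ∀ t : ℝ, 0 ≤ t →
      0 ≤ wf (1 / (2 * Lq 25)) (50 * Lq 25 + x) t * (0.12624 * t + 0.7574) := fun t ht => by
    unfold wf
    positivity
  refine (sum_le_sum_of_subset_of_nonneg (Ico_subset_Ico_left (a₂ := 36) (a₁ := 1) (by norm_num))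
    fun s _ _ => hn _ (by positivity)).trans ?_
  rw [sum_Ico_eq_sum_range]
  have h2 : ∀ i : ℕ, θ + ((1 + i : ℕ) : ℝ) * Real.log 2 = θ + Real.log 2 + i * Real.log 2 :=
    fun i => by push_cast; ring
  simp only [h2]
  refine (s1.sum_le_tsum _ fun i _ => hn _ (by positivity)).trans (s2.trans ?_)
  have h3 : 2 / (1 / (2 * Lq 25)) ^ 2 = 8 * Lq 25 ^ 2 := by
    field_simp
    norm_num
  have h4 : Lq 25 ^ 2 ≤ 17.0287 ^ 2 := pow_le_pow_left₀ (by linarith) b2 2
  have h5 : (50 * Lq 25 + x) ^ 2 ≤ 851.475 ^ 2 := pow_le_pow_left₀ (by linarith) (by linarith) 2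
  have h6 : (0.7574 + 0.12624 * Real.log 2) * (50 * Lq 25 + x + 1) ≤ 0.845 * 852.475 :=
    mul_le_mul (by linarith) (by linarith) (by linarith) (by norm_num)
  rw [h3, div_le_iff₀ l_pos]
  linarith

/-- the geometric sum -/
lemma geo {θ : ℝ} (h0 : 0 ≤ θ) (K : ℕ) :
    ∑ s ∈ Ico 36 K, Real.exp (-((θ + s * Real.log 2) / 2)) ≤ 3.4143 / 2 ^ 18 := by
  set r := Real.exp (-(Real.log 2 / 2)) with hr
  have r0 : 0 < r := Real.exp_pos _
  have r2 : r ^ 2 = 1 / 2 := by
    rw [hr, ← Real.exp_nat_mul]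
    push_cast
    rw [show 2 * -(Real.log 2 / 2) = -Real.log 2 by ring, Real.exp_neg, Real.exp_log two_pos]
    norm_num
  have r1 : r ≤ 0.70711 := le_of_sq_le_sq (by rw [r2]; norm_num) (by norm_num)
  have h1 : ∀ s ∈ Ico 36 K, Real.exp (-((θ + s * Real.log 2) / 2)) ≤ r ^ s := fun s _ => by
    rw [hr, ← Real.exp_nat_mul]
    exact Real.exp_le_exp.2 (by linarith)
  refine (sum_le_sum h1).trans ((geom_sum_Ico_le_of_lt_one r0.le (by linarith)).trans ?_)
  rw [show 36 = 2 * 18 from rfl, pow_mul, r2, div_le_iff₀ (by linarith)]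
  have h2 : (3.4143 : ℝ) / 2 ^ 18 * (1 - r) = (1 / 2) ^ 18 * (3.4143 * (1 - r)) := by ring
  rw [h2]
  exact le_mul_of_one_le_right (by positivity) (by linarith)

/-- one window of small integers -/
lemma small (hC : StCount) {θ x : ℝ} (h0 : 0 ≤ θ) (hx : 0 ≤ x) (s : ℕ) (W : Finset ℕ)
    (hW : ∀ m ∈ W, m ∉ Aset ∧ Nat.Coprime m 6 ∧ ArithmeticFunction.cardFactors m ≤ omx (s - 14) ∧
      θ + s * Real.log 2 - x ≤ Real.log m ∧ Real.log m ≤ θ + s * Real.log 2) :
    ∑ m ∈ W, |dd 0 m| ≤ (Real.exp x - 1) * (2 ^ omx (s - 14) / if s ≤ 24 then 2 else 3) +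
      Real.exp x * (2 ^ omx (s - 14) * (if s ≤ 24 then 1 else 4 / 3) / 2 ^ s) := by
  set y := Real.exp (θ + s * Real.log 2 - x) with hy
  have y0 : 0 < y := Real.exp_pos _
  have e1 : 0 ≤ Real.exp x - 1 := sub_nonneg.2 (Real.one_le_exp hx)
  have hpos : ∀ m ∈ W, 0 < m := fun m hm => Nat.pos_of_ne_zero fun h => by
    have := (hW m hm).2.1
    rw [h] at this
    exact absurd this (by norm_num)
  have hw := fun m hm => window (hpos m hm) (hW m hm).2.2.2.1 (hW m hm).2.2.2.2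
  obtain ⟨c1, c2⟩ := hC y (y * (Real.exp x - 1)) (by positivity) W
    fun m hm => ⟨(hW m hm).2.1, hw m hm⟩
  have h1 : ∑ m ∈ W, |dd 0 m| ≤ W.card * (2 ^ omx (s - 14) / y) := by
    rw [← nsmul_eq_mul]
    refine sum_le_card_nsmul _ _ _ fun m hm => ?_
    rw [dd_out (hW m hm).1]
    refine div_le_div₀ (by positivity) ?_ y0 (hw m hm).1
    exact (mul_le_of_le_one_right (abs_nonneg _) (inv_le_one _)).trans ((abs_gg_le m).trans
      (pow_le_pow_right₀ (by norm_num) (hW m hm).2.2.1))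
  have h2 : 1 / y ≤ Real.exp x / 2 ^ s := by
    have h3 : (2 : ℝ) ^ s = Real.exp (s * Real.log 2) := by
      rw [Real.exp_nat_mul, Real.exp_log two_pos]
    rw [h3, ← Real.exp_sub, one_div, hy, ← Real.exp_neg]
    exact Real.exp_le_exp.2 (by linarith)
  have h3 : ∀ κ c : ℝ, 0 < κ → 0 ≤ c → (W.card : ℝ) ≤ y * (Real.exp x - 1) / κ + c →
      ∑ m ∈ W, |dd 0 m| ≤ (Real.exp x - 1) * (2 ^ omx (s - 14) / κ) +
        Real.exp x * (2 ^ omx (s - 14) * c / 2 ^ s) := fun κ c hκ hc h => by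
    refine h1.trans ((mul_le_mul_of_nonneg_right h (by positivity)).trans ?_)
    have h4 : (y * (Real.exp x - 1) / κ + c) * (2 ^ omx (s - 14) / y) =
        (Real.exp x - 1) * (2 ^ omx (s - 14) / κ) + 2 ^ omx (s - 14) * c * (1 / y) := by
      field_simp
    have h5 : Real.exp x * (2 ^ omx (s - 14) * c / 2 ^ s) =
        2 ^ omx (s - 14) * c * (Real.exp x / 2 ^ s) := by ring
    rw [h4, h5]
    exact add_le_add le_rfl (mul_le_mul_of_nonneg_left h2 (by positivity))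
  split_ifs
  · exact h3 2 1 (by norm_num) (by norm_num) c2
  · exact h3 3 (4 / 3) (by norm_num) (by norm_num) c1

lemma sumA : ∑ s ∈ Ico 14 37, ((2 : ℝ) ^ omx (s - 14) / if s ≤ 24 then 2 else 3) = 9142 := by
  rw [sum_Ico_eq_sum_range]
  simp only [Nat.add_sub_cancel_left, Nat.reduceSub, sum_range_succ, range_zero, sum_empty]
  norm_num [omx]

lemma sumB : ∑ s ∈ Ico 14 37, ((2 : ℝ) ^ omx (s - 14) * (if s ≤ 24 then 1 else 4 / 3) / 2 ^ s) ≤
    0.00125433 := by
  rw [sum_Ico_eq_sum_range]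
  simp only [Nat.add_sub_cancel_left, Nat.reduceSub, sum_range_succ, range_zero, sum_empty]
  norm_num [omx]

end Win0

open Win0 in
theorem win0 (hC : StCount) (hS : StShort) (hM : StMassq) (hL : StLat) : StWin0 := by
  classical
  intro u v hv0 hv1 S hz
  have hl := l_pos
  rcases lt_or_ge 0.02 v with hv | hv
  · obtain ⟨s1, s2⟩ := hM.1 25 (by norm_num)
    have h1 := three (fun m => |cw 25 m|) (fun _ => abs_nonneg _) hv1 S hz
    have h2 := s1.sum_le_tsum (S.image Prod.fst) fun _ _ => abs_nonneg _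
    have h3 : ∑ z ∈ S, |dd 0 z.1| ≤ ∑ z ∈ S, |cw 25 z.1| := sum_le_sum fun z _ => dd_le _
    have h4 : (0.02 : ℝ) ^ 2 ≤ v ^ 2 := pow_le_pow_left₀ (by norm_num) hv.le 2
    push_cast at s2
    linarith
  set s0 := ⌊(u + v) / Real.log 2⌋ with hs0
  set θ := u + v - s0 * Real.log 2 with hθ
  have t0 : 0 ≤ θ := by
    have := (le_div_iff₀ hl).1 (Int.floor_le ((u + v) / Real.log 2))
    linarith
  have t1 : θ < Real.log 2 := by
    have := (div_lt_iff₀ hl).1 (Int.lt_floor_add_one ((u + v) / Real.log 2))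
    linarith
  have l1 := Real.log_two_gt_d9
  have hwin : ∀ z ∈ S, ∀ j : ℕ, 2 ^ j ≤ z.1 → ∃ s : ℕ, j ≤ s ∧ (s : ℤ) = s0 - z.2 ∧
      θ + s * Real.log 2 - 2 * v ≤ Real.log z.1 ∧ Real.log z.1 ≤ θ + s * Real.log 2 := by
    intro z h j hj
    have h1 := abs_le.1 (hz z h)
    have h2 := le_log hj
    have h3 : (j : ℤ) < s0 - z.2 + 1 := by
      have h4 : ((j : ℤ) : ℝ) < ((s0 - z.2 + 1 : ℤ) : ℝ) := by
        refine lt_of_mul_lt_mul_right ?_ hl.le
        push_cast
        linarith [h1.1]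
      exact_mod_cast h4
    obtain ⟨s, hs⟩ := Int.eq_ofNat_of_zero_le (a := s0 - z.2) (by omega)
    have h4 : (s : ℝ) = s0 - z.2 := by exact_mod_cast hs.symm
    refine ⟨s, by omega, hs.symm, ?_, ?_⟩
    · rw [h4]; linarith [h1.2]
    · rw [h4]; linarith [h1.1]
  have e1 := exp_small (x := 2 * v) (by linarith) (by linarith)
  have e0 : 0 ≤ Real.exp (2 * v) - 1 := sub_nonneg.2 (Real.one_le_exp (by linarith))
  have e2 : Real.exp (2 * v) ≤ 1.040816 := by linarith
  have p1 : ∑ z ∈ S.filter (fun z => z.1 ∈ Aset), |dd 0 z.1| ≤ 0.00000005 := by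
    have h1 := three (fun m => |gg m| / m) (fun _ => by positivity) hv1
      (S.filter fun z => z.1 ∈ Aset) fun z h => hz z (mem_filter.1 h).1
    have h2 : ∑ m ∈ (S.filter fun z => z.1 ∈ Aset).image Prod.fst, |gg m| / m ≤ 300 := by
      refine (sum_le_sum_of_subset_of_nonneg (fun m hm => ?_) fun _ _ _ => by positivity).trans hM.2
      obtain ⟨z, h, rfl⟩ := mem_image.1 hm
      exact mem_range.2 (lt_of_mem (mem_filter.1 h).2)
    refine (sum_le_sum fun z h => (dd_in (mem_filter.1 h).2).1).trans ?_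
    rw [← sum_mul]
    refine (mul_le_mul (h1.trans (mul_le_mul_of_nonneg_left h2 (by norm_num))) exp25
      (Real.exp_pos _).le (by norm_num)).trans (by norm_num)
  have p2 : ∑ z ∈ (S.filter fun z => z.1 ∉ Aset).filter (fun z => 2 ^ 36 ≤ z.1), |dd 0 z.1| ≤
      1.0204 * (2 * v) * 67500 + 55.6 * 1.040816 * (3.4143 / 2 ^ 18) := by
    refine (group (fun m => |dd 0 m|) _ s0 (Ico 36 (S.sup (fun z => (s0 - z.2).toNat) + 1))
      (fun s m => m ∉ Aset ∧ 0 < m ∧ θ + s * Real.log 2 - 2 * v ≤ Real.log m ∧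
        Real.log m ≤ θ + s * Real.log 2) _ (fun z h => ?_)
      fun s hs W hW => big hS (x := 2 * v) (by linarith) ?_ W hW).trans ?_
    · obtain ⟨h1, h2⟩ := mem_filter.1 h
      obtain ⟨h3, h4⟩ := mem_filter.1 h1
      obtain ⟨s, a1, a2, a3, a4⟩ := hwin z h3 36 h2
      have h5 := le_sup (f := fun z : ℕ × ℤ => (s0 - z.2).toNat) h3
      refine ⟨s, mem_Ico.2 ⟨a1, ?_⟩, a2, h4, lt_of_lt_of_le (by positivity) h2, a3, a4⟩
      simp only [← a2, Int.toNat_natCast] at h5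
      exact Nat.lt_succ_of_le h5
    · have h1 : (36 : ℝ) ≤ s := by exact_mod_cast (mem_Ico.1 hs).1
      nlinarith
    · rw [sum_add_distrib, ← mul_sum, ← mul_sum]
      exact add_le_add
        ((mul_le_mul_of_nonneg_left (lat hL t0 t1 (by linarith) (by linarith) _) e0).trans
          (mul_le_mul_of_nonneg_right e1 (by norm_num)))
        (mul_le_mul (by linarith) (geo t0 _) (by positivity) (by norm_num))
  have p3 : ∑ z ∈ (S.filter fun z => z.1 ∉ Aset).filter (fun z => ¬ 2 ^ 36 ≤ z.1), |dd 0 z.1| ≤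
      1.0204 * (2 * v) * 9142 + 1.040816 * 0.00125433 := by
    rw [← sum_filter_of_ne (p := fun z => gg z.1 ≠ 0) fun z h h1 h2 => h1 (by
      rw [dd_out (mem_filter.1 (mem_filter.1 h).1).2, h2]; simp)]
    refine (group (fun m => |dd 0 m|) _ s0 (Ico 14 37)
      (fun s m => m ∉ Aset ∧ Nat.Coprime m 6 ∧ ArithmeticFunction.cardFactors m ≤ omx (s - 14) ∧
        θ + s * Real.log 2 - 2 * v ≤ Real.log m ∧ Real.log m ≤ θ + s * Real.log 2) _
      (fun z h => ?_) fun s _ W hW => small hC (x := 2 * v) t0 (by linarith) s W hW).trans ?_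
    · obtain ⟨h0, h6⟩ := mem_filter.1 h
      obtain ⟨h1, h2⟩ := mem_filter.1 h0
      obtain ⟨h3, h4⟩ := mem_filter.1 h1
      have h5 := coprime_of_ne h6
      have h7 : 2 ^ et (ArithmeticFunction.cardFactors z.1) ≤ z.1 :=
        not_lt.1 fun h8 => h4 (mem_Aset.2 ⟨h5, h8⟩)
      have h8 : et (ArithmeticFunction.cardFactors z.1) < 36 :=
        (Nat.pow_lt_pow_iff_right (by norm_num)).1 (h7.trans_lt (not_le.1 h2))
      obtain ⟨s, a1, a2, a3, a4⟩ := hwin z h3 _ h7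
      have h9 : s < 37 := by
        have h10 := log_lt (not_le.1 h2) (by norm_num)
        have h11 : (s : ℝ) < (37 : ℕ) := by
          refine lt_of_mul_lt_mul_right ?_ hl.le
          push_cast at h10 ⊢
          linarith
        exact_mod_cast h11
      obtain ⟨b1, b2⟩ := om_spec (by omega) a1 (by omega)
      exact ⟨s, mem_Ico.2 ⟨b1, h9⟩, a2, h4, h5, b2, a3, a4⟩
    · rw [sum_add_distrib, ← mul_sum, ← mul_sum, sumA]
      exact add_le_add (mul_le_mul_of_nonneg_right e1 (by norm_num))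
        ((mul_le_mul_of_nonneg_left sumB (Real.exp_pos _).le).trans
          (mul_le_mul_of_nonneg_right e2 (by norm_num)))
  rw [← sum_filter_add_sum_filter_not S (fun z => z.1 ∈ Aset),
    ← sum_filter_add_sum_filter_not (S.filter fun z => z.1 ∉ Aset) (fun z => 2 ^ 36 ≤ z.1)]
  have h1 : (0 : ℝ) ≤ 3500 * 25 ^ 4 * v ^ 2 := by positivity
  norm_num at p1 p2 p3 h1 ⊢
  linarith

end Pool.Agent.Lib.MP_5db4ad_nt.S2
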