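import Pool.Agent.Lib.MP_5db4ad_nt.S2Defs

/-!
Window masses of the telescoping differences `dd j`, `j ≥ 1`.
-/

namespace Pool.Agent.Lib.MP_5db4ad_nt.S2

open Finset

noncomputable section

namespace Winj

/-- the weight as a function of the logarithm -/
def W (k : ℕ) (z : ℝ) : ℝ := 1 / (1 + Real.exp (z / (2 * Lq k) - k))

lemma wq_eq (k m : ℕ) : wq k m = W k (Real.log m) := rfl

lemma Lq_ge {k : ℕ} (hk : 25 ≤ k) : 17 ≤ Lq k := by
  have h : (25 : ℝ) ≤ k := by exact_mod_cast hk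
  have := Real.log_two_gt_d9
  unfold Lq
  nlinarith

lemma Lq_succ (k : ℕ) : Lq (k + 1) = Lq k + Real.log 2 := by
  unfold Lq
  push_cast
  ring

lemma wf_eq {k : ℕ} (hk : 25 ≤ k) (z : ℝ) : wf (1 / (2 * Lq k)) (2 * k * Lq k) z = W k z := by
  have h := Lq_ge hk
  unfold wf W
  have : 1 / (2 * Lq k) * (z - 2 * k * Lq k) = z / (2 * Lq k) - k := by
    field_simp
  rw [this]

lemma W_pos (k : ℕ) (z : ℝ) : 0 < W k z := by
  unfold W
  positivity

lemma W_le_one (k : ℕ) (z : ℝ) : W k z ≤ 1 := by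
  unfold W
  have := Real.exp_pos (z / (2 * Lq k) - k)
  rw [div_le_one (by positivity)]
  linarith

lemma one_sub_W (k : ℕ) (z : ℝ) : 1 - W k z ≤ Real.exp (z / (2 * Lq k) - k) := by
  unfold W
  have h := Real.exp_pos (z / (2 * Lq k) - k)
  set e := Real.exp (z / (2 * Lq k) - k)
  have : 1 - 1 / (1 + e) = e / (1 + e) := by
    field_simp
    ring
  rw [this, div_le_iff₀ (by positivity)]
  nlinarith

lemma W_le_of {k k' : ℕ} {z z' : ℝ} (h : z / (2 * Lq k) - k ≤ z' / (2 * Lq k') - k') :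
    W k' z' ≤ W k z := by
  unfold W
  have := Real.exp_le_exp.2 h
  apply one_div_le_one_div_of_le (by positivity)
  linarith

lemma W_anti {k : ℕ} (hk : 25 ≤ k) {z z' : ℝ} (h : z ≤ z') : W k z' ≤ W k z := by
  have := Lq_ge hk
  apply W_le_of
  have : z / (2 * Lq k) ≤ z' / (2 * Lq k) := by gcongr
  linarith

lemma W_succ {k : ℕ} (hk : 25 ≤ k) {z : ℝ} (h : 0 ≤ z) : W k z ≤ W (k + 1) z := by
  have := Lq_ge hk
  have hl := Real.log_two_gt_d9
  apply W_le_of
  have : z / (2 * Lq (k + 1)) ≤ z / (2 * Lq k) := by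
    rw [Lq_succ]
    gcongr
    linarith
  push_cast
  linarith

lemma abs_diff {k : ℕ} (hk : 25 ≤ k) (m : ℕ) : |cw (k + 1) m - cw k m| =
    |gg m| / m * (W (k + 1) (Real.log m) - W k (Real.log m)) := by
  have h := W_succ hk (Real.log_natCast_nonneg m)
  have : cw (k + 1) m - cw k m = gg m / m * (W (k + 1) (Real.log m) - W k (Real.log m)) := by
    unfold cw
    rw [wq_eq, wq_eq]
    ring
  rw [this, abs_mul, abs_div, Nat.abs_cast, abs_of_nonneg (sub_nonneg.2 h)]

lemma abs_diff_le {k : ℕ} (hk : 25 ≤ k) (m : ℕ) : |cw (k + 1) m - cw k m| ≤ |cw (k + 1) m| := by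
  rw [abs_diff hk]
  have h1 := W_pos k (Real.log m)
  have h2 := W_pos (k + 1) (Real.log m)
  have : |cw (k + 1) m| = |gg m| / m * W (k + 1) (Real.log m) := by
    unfold cw
    rw [wq_eq, abs_div, abs_mul, Nat.abs_cast, abs_of_pos h2]
    ring
  rw [this]
  gcongr
  linarith

lemma gg_eq_zero {p m : ℕ} (hp : p.Prime) (h3 : p ≤ 3) (hd : p ∣ m) : gg m = 0 := by
  unfold gg mf
  split_ifs with h
  · rfl
  · unfold Finsupp.prod
    apply Finset.prod_eq_zero (i := p)
    · rw [Nat.support_factorization, Nat.mem_primeFactors]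
      exact ⟨hp, hd, h⟩
    · simp [gloc, h3]

lemma small {k : ℕ} (hk : 25 ≤ k) :
    ∑ m ∈ range 5, |cw (k + 1) m - cw k m| ≤ Real.exp (-(k : ℝ)) := by
  have g0 : gg 0 = 0 := gg_eq_zero Nat.prime_two (by norm_num) (by norm_num)
  have g2 : gg 2 = 0 := gg_eq_zero Nat.prime_two (by norm_num) (by norm_num)
  have g3 : gg 3 = 0 := gg_eq_zero Nat.prime_three (by norm_num) (by norm_num)
  have g4 : gg 4 = 0 := gg_eq_zero Nat.prime_two (by norm_num) (by norm_num)
  have g1 : gg 1 = 1 := by simp [gg, mf]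
  simp only [abs_diff hk, sum_range_succ, sum_range_zero, g0, g1, g2, g3, g4]
  have h1 := one_sub_W k 0
  have h2 := W_le_one (k + 1) 0
  simp only [zero_div, zero_sub] at h1
  simp only [Nat.cast_one, Real.log_one, abs_zero, zero_div, zero_mul, abs_one, div_one, one_mul]
  linarith

/-- every integer lies in at most three windows -/
lemma three (F : ℕ → ℝ) (hF : ∀ m, 0 ≤ F m) (u v : ℝ) (hv : v ≤ Real.log 2)
    (S : Finset (ℕ × ℤ)) (hS : ∀ z ∈ S, |u - Real.log z.1 - z.2 * Real.log 2| ≤ v) :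
    ∑ z ∈ S, F z.1 ≤ 3 * ∑ m ∈ S.image Prod.fst, F m := by
  have hl : 0 < Real.log 2 := by have := Real.log_two_gt_d9; linarith
  rw [← Finset.sum_fiberwise_of_maps_to (g := Prod.fst) (t := S.image Prod.fst)
    (fun z hz => mem_image_of_mem _ hz), mul_sum]
  refine sum_le_sum fun m _ => ?_
  have e : ∑ z ∈ S with z.1 = m, F z.1 = ((S.filter fun z => z.1 = m).card : ℝ) * F m := by
    rw [Finset.sum_congr rfl (g := fun _ => F m) (fun z hz => by rw [(mem_filter.1 hz).2])]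
    simp
  rw [e]
  have hc : (S.filter fun z => z.1 = m).card ≤ 3 := by
    set x := (u - Real.log m) / Real.log 2 with hx
    have hxl : x * Real.log 2 = u - Real.log m := by rw [hx]; field_simp
    have : (S.filter fun z => z.1 = m).card ≤ (Icc (⌊x⌋ - 1) (⌊x⌋ + 1)).card := by
      apply Finset.card_le_card_of_injOn Prod.snd
      · intro z hz
        have hz' := mem_filter.1 (mem_coe.1 hz)
        have h := abs_le.1 (hS z hz'.1)
        rw [hz'.2, ← hxl] at h
        have f1 := Int.floor_le x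
        have f2 := Int.lt_floor_add_one x
        have a1 : x - 1 ≤ z.2 := by
          by_contra hc
          push Not at hc
          nlinarith [h.2]
        have a2 : (z.2 : ℝ) ≤ x + 1 := by
          by_contra hc
          push Not at hc
          nlinarith [h.1]
        have b1 : ((⌊x⌋ - 1 : ℤ) : ℝ) ≤ z.2 := by push_cast; linarith
        have b2 : (z.2 : ℝ) < ((⌊x⌋ + 2 : ℤ) : ℝ) := by push_cast; linarith
        have b1' : ⌊x⌋ - 1 ≤ z.2 := by exact_mod_cast b1
        have b2' : z.2 < ⌊x⌋ + 2 := by exact_mod_cast b2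
        simp only [coe_Icc, Set.mem_Icc]
        omega
      · intro z hz z' hz' h
        have h1 := (mem_filter.1 (mem_coe.1 hz)).2
        have h2 := (mem_filter.1 (mem_coe.1 hz')).2
        exact Prod.ext (h1.trans h2.symm) h
    rw [Int.card_Icc] at this
    omega
  have hc' : ((S.filter fun z => z.1 = m).card : ℝ) ≤ 3 := by exact_mod_cast hc
  exact mul_le_mul_of_nonneg_right hc' (hF m)

lemma exp_two {v : ℝ} (h0 : 0 ≤ v) (h : v ≤ 0.02) : Real.exp (2 * v) - 1 ≤ 2.0408 * v := by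
  have h1 := Real.exp_bound' (x := 2 * v) (by linarith) (by linarith) (n := 3) (by norm_num)
  simp only [sum_range_succ, sum_range_zero, Nat.factorial] at h1
  norm_num at h1
  have h2 : v ^ 2 ≤ 0.02 * v := by nlinarith
  have h3 : v ^ 3 ≤ 0.0004 * v := by nlinarith
  nlinarith

/-- mass of one window -/
lemma window (hs : StShort) {k : ℕ} (hk : 25 ≤ k) {z v : ℝ} (hz : 0 ≤ z) (h0 : 0 ≤ v)
    (hv : v ≤ 0.02) (T : Finset ℕ)
    (hT : ∀ m ∈ T, 1 ≤ m ∧ z ≤ Real.log m ∧ Real.log m ≤ z + 2 * v) :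
    ∑ m ∈ T, |cw (k + 1) m - cw k m| ≤
      (W (k + 1) z - W k (z + 2 * v)) * (0.12624 * (z + 2 * v) + 0.7574) * (2.0408 * v) +
        60 * Real.exp (-(k : ℝ)) * Real.exp (-(z / 3)) := by
  have hL := Lq_ge hk
  set y := Real.exp z with hy
  have hy1 : 1 ≤ y := Real.one_le_exp hz
  have hE : 0 ≤ Real.exp (2 * v) - 1 := by
    have := Real.one_le_exp (x := 2 * v) (by linarith)
    linarith
  have hyh : y + y * (Real.exp (2 * v) - 1) = Real.exp (z + 2 * v) := by
    rw [Real.exp_add]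
    ring
  have hmem : ∀ m ∈ T, y ≤ m ∧ (m : ℝ) ≤ y + y * (Real.exp (2 * v) - 1) := by
    intro m hm
    obtain ⟨m1, m2, m3⟩ := hT m hm
    have hm0 : (0 : ℝ) < m := by exact_mod_cast m1
    rw [hyh]
    constructor
    · rw [hy, ← Real.exp_log hm0]
      exact Real.exp_le_exp.2 m2
    · rw [← Real.exp_log hm0]
      exact Real.exp_le_exp.2 m3
  have hsh := hs y (y * (Real.exp (2 * v) - 1)) hy1 (by positivity) T hmem
  rw [hyh, Real.log_exp, ← Real.exp_half] at hsh
  set D := W (k + 1) z - W k (z + 2 * v) with hD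
  have hD0 : 0 ≤ D := by
    have a := W_anti hk (show z ≤ z + 2 * v by linarith)
    have b := W_succ hk hz
    linarith
  have hD1 : D ≤ Real.exp ((z + 2 * v) / (2 * Lq k) - k) := by
    have a := one_sub_W k (z + 2 * v)
    have b := W_le_one (k + 1) z
    linarith
  have h1 : ∑ m ∈ T, |cw (k + 1) m - cw k m| ≤ D / y * ∑ m ∈ T, |gg m| := by
    rw [mul_sum]
    refine sum_le_sum fun m hm => ?_
    obtain ⟨-, m2, m3⟩ := hT m hm
    rw [abs_diff hk]
    have a := W_anti (k := k + 1) (by omega) m2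
    have b := W_anti hk m3
    have c : W (k + 1) (Real.log m) - W k (Real.log m) ≤ D := by linarith
    have d : |gg m| / m ≤ |gg m| / y := by
      gcongr
      exact (hmem m hm).1
    calc _ ≤ |gg m| / m * D := by gcongr
      _ ≤ |gg m| / y * D := by gcongr
      _ = _ := by ring
  have h2 : D / y * ∑ m ∈ T, |gg m| ≤ D / y * ((0.12624 * (z + 2 * v) + 0.7574) *
      (y * (Real.exp (2 * v) - 1)) + 55.6 * Real.exp ((z + 2 * v) / 2)) := by gcongr
  have h3 : D / y * ((0.12624 * (z + 2 * v) + 0.7574) *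
      (y * (Real.exp (2 * v) - 1)) + 55.6 * Real.exp ((z + 2 * v) / 2)) =
      D * (0.12624 * (z + 2 * v) + 0.7574) * (Real.exp (2 * v) - 1) +
        55.6 * (D * Real.exp ((z + 2 * v) / 2 - z)) := by
    rw [Real.exp_sub, ← hy]
    field_simp
  have h4 : D * (0.12624 * (z + 2 * v) + 0.7574) * (Real.exp (2 * v) - 1) ≤
      D * (0.12624 * (z + 2 * v) + 0.7574) * (2.0408 * v) := by
    have := exp_two h0 hv
    gcongr
  have h5 : D * Real.exp ((z + 2 * v) / 2 - z) ≤
      Real.exp 0.03 * (Real.exp (-(k : ℝ)) * Real.exp (-(z / 3))) := by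
    calc _ ≤ Real.exp ((z + 2 * v) / (2 * Lq k) - k) * Real.exp ((z + 2 * v) / 2 - z) := by gcongr
      _ ≤ _ := by
        rw [← Real.exp_add, ← Real.exp_add, ← Real.exp_add]
        apply Real.exp_le_exp.2
        have : (z + 2 * v) / (2 * Lq k) ≤ (z + 2 * v) / 34 := by
          gcongr
          linarith
        linarith
  have h6 : Real.exp 0.03 ≤ 1.05 := by
    have := exp_two (v := 0.015) (by norm_num) (by norm_num)
    norm_num at this ⊢
    linarith
  have h7 : 0 < Real.exp (-(k : ℝ)) * Real.exp (-(z / 3)) := by positivity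
  nlinarith

/-- the polynomial inequality behind the constant `0.72` -/
lemma poly {k : ℕ} (hk : 25 ≤ k) :
    ((0.12624 * ((2 * ((k + 1 : ℕ) : ℝ) * Lq (k + 1)) ^ 2 / 2 + 2 / (1 / (2 * Lq (k + 1))) ^ 2) +
      (0.7624496 + 0.12624 * Real.log 2) * (2 * ((k + 1 : ℕ) : ℝ) * Lq (k + 1) + 1)) / Real.log 2 -
    (0.12624 * ((2 * (k : ℝ) * Lq k) ^ 2 / 2 - 2) +
      (0.7574 - 0.12624 * Real.log 2) * (2 * (k : ℝ) * Lq k - 2)) / Real.log 2) ≤
      0.7056 * ((k : ℝ) + 1) ^ 3 := by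
  have l1 := Real.log_two_gt_d9
  have l2 := Real.log_two_lt_d9
  have hL := Lq_ge (k := k + 1) (by omega)
  have e : 2 / (1 / (2 * Lq (k + 1))) ^ 2 = 8 * Lq (k + 1) ^ 2 := by
    field_simp
    norm_num
  rw [e, ← sub_div, div_le_iff₀ (by linarith)]
  unfold Lq
  push_cast
  have hx : (25 : ℝ) ≤ k := by exact_mod_cast hk
  generalize (k : ℝ) = x at hx
  generalize Real.log 2 = l at l1 l2
  have a1 : (2 * x + 1) * l - 0.3 ≤ (2 * x + 1) * 0.69315 - 0.3 := by nlinarith
  have a0 : 0 ≤ (2 * x + 1) * l - 0.3 := by nlinarith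
  have b1 : (x + 1) * l - 0.3 ≤ (x + 1) * 0.69315 - 0.3 := by nlinarith
  have b0 : 0 ≤ (x + 1) * l - 0.3 := by nlinarith
  have c1 : x * l - 0.3 ≤ x * 0.69315 - 0.3 := by nlinarith
  have c0 : 0 ≤ x * l - 0.3 := by nlinarith
  have x0 : 0 ≤ x := by linarith
  have l0 : 0 ≤ l := by linarith
  have l3 : l ≤ 0.69315 := by linarith
  have key : 0.12624 * (2 * ((2 * x + 1) * l - 0.3) * ((x + 1) * ((x + 1) * l - 0.3) +
      x * (x * l - 0.3)) + 8 * ((x + 1) * l - 0.3) ^ 2 + 2) +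
      0.7574 * (2 * ((2 * x + 1) * l - 0.3) + 3) +
      0.0050496 * (2 * (x + 1) * ((x + 1) * l - 0.3) + 1) +
      0.12624 * l * (2 * (x + 1) * ((x + 1) * l - 0.3) + 2 * x * (x * l - 0.3)) ≤
      0.12624 * (2 * ((2 * x + 1) * 0.69315 - 0.3) * ((x + 1) * ((x + 1) * 0.69315 - 0.3) +
      x * (x * 0.69315 - 0.3)) + 8 * ((x + 1) * 0.69315 - 0.3) ^ 2 + 2) +
      0.7574 * (2 * ((2 * x + 1) * 0.69315 - 0.3) + 3) +
      0.0050496 * (2 * (x + 1) * ((x + 1) * 0.69315 - 0.3) + 1) +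
      0.12624 * 0.69315 * (2 * (x + 1) * ((x + 1) * 0.69315 - 0.3) +
        2 * x * (x * 0.69315 - 0.3)) := by
    have a2 : 0 ≤ (2 * x + 1) * 0.69315 - 0.3 := a0.trans a1
    gcongr
  obtain ⟨t, rfl⟩ : ∃ t, x = 25 + t := ⟨x - 25, by ring⟩
  have t0 : 0 ≤ t := by linarith
  have t2 : 0 ≤ t ^ 2 := by positivity
  have t3 : 0 ≤ t ^ 3 := by positivity
  have r : 0.7056 * (25 + t + 1) ^ 3 * 0.69314 ≤ 0.7056 * (25 + t + 1) ^ 3 * l := by
    gcongr
    linarith
  nlinarith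

lemma geo (z : ℝ) (hz : 0 ≤ z) (T : Finset ℕ) :
    ∑ i ∈ T, Real.exp (-((z + i * Real.log 2) / 3)) ≤ 6 := by
  have l1 := Real.log_two_gt_d9
  have hr : Real.exp (-(Real.log 2 / 3)) ≤ 5 / 6 := by
    have := Real.add_one_le_exp (Real.log 2 / 3)
    rw [Real.exp_neg, inv_le_comm₀ (Real.exp_pos _) (by norm_num)]
    norm_num
    linarith
  have h1 : ∀ i : ℕ, Real.exp (-((z + i * Real.log 2) / 3)) ≤ (5 / 6 : ℝ) ^ i := by
    intro i
    calc _ ≤ Real.exp (i * (-(Real.log 2 / 3))) := Real.exp_le_exp.2 (by linarith)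
      _ = Real.exp (-(Real.log 2 / 3)) ^ i := Real.exp_nat_mul _ _
      _ ≤ _ := by gcongr
  have h2 := hasSum_geometric_of_lt_one (r := (5 / 6 : ℝ)) (by norm_num) (by norm_num)
  calc _ ≤ ∑ i ∈ T, (5 / 6 : ℝ) ^ i := sum_le_sum fun i _ => h1 i
    _ ≤ (1 - 5 / 6)⁻¹ := sum_le_hasSum T (fun i _ => by positivity) h2
    _ = 6 := by norm_num

lemma lat_hyp {k : ℕ} (hk : 25 ≤ k) : 0 < 1 / (2 * Lq k) ∧ 2 ≤ 2 * (k : ℝ) * Lq k ∧
    Real.exp (-(1 / (2 * Lq k) * (2 * (k : ℝ) * Lq k))) ≤ 1 / (2 * Lq k) := by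
  have hL := Lq_ge hk
  have hx : (25 : ℝ) ≤ k := by exact_mod_cast hk
  refine ⟨by positivity, by nlinarith, ?_⟩
  have e : 1 / (2 * Lq k) * (2 * (k : ℝ) * Lq k) = k := by field_simp
  rw [e, Real.exp_neg, ← one_div]
  apply one_div_le_one_div_of_le (by positivity)
  have l2 := Real.log_two_lt_d9
  have q := Real.quadratic_le_exp_of_nonneg (x := (k : ℝ)) (by linarith)
  unfold Lq
  nlinarith

/-- sum of the main parts over the lattice -/
lemma lattice (hl : StLat) {k : ℕ} (hk : 25 ≤ k) {z v : ℝ} (hz1 : Real.log 2 ≤ z)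
    (hz2 : z ≤ 2 * Real.log 2) (h0 : 0 ≤ v) (hv : v ≤ 0.02) (T : Finset ℕ) :
    ∑ i ∈ T, (W (k + 1) (z + i * Real.log 2) - W k (z + i * Real.log 2 + 2 * v)) *
      (0.12624 * (z + i * Real.log 2 + 2 * v) + 0.7574) ≤ 0.7056 * ((k : ℝ) + 1) ^ 3 := by
  have l1 := Real.log_two_gt_d9
  have l2 := Real.log_two_lt_d9
  obtain ⟨p1, p2, p3⟩ := lat_hyp (k := k + 1) (by omega)
  obtain ⟨r1, r2, r3⟩ := lat_hyp hk
  obtain ⟨s1, -, u1⟩ := hl _ _ 0.12624 0.7624496 z p1 p2 p3 (by norm_num) (by linarith) hz1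
    (by linarith)
  obtain ⟨s2, u2, -⟩ := hl _ _ 0.12624 0.7574 (z + 2 * v) r1 r2 r3 (by norm_num) (by linarith)
    (by linarith) (by linarith)
  simp only [wf_eq (k := k + 1) (by omega)] at s1 u1
  simp only [wf_eq hk] at s2 u2
  have hp := poly hk
  have z0 : 0 ≤ z := by linarith
  have hz : ∀ i : ℕ, 0 ≤ z + i * Real.log 2 := fun i => by positivity
  have hle : ∀ i : ℕ, (W (k + 1) (z + i * Real.log 2) - W k (z + i * Real.log 2 + 2 * v)) *
      (0.12624 * (z + i * Real.log 2 + 2 * v) + 0.7574) ≤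
      W (k + 1) (z + i * Real.log 2) * (0.12624 * (z + i * Real.log 2) + 0.7624496) -
        W k (z + 2 * v + i * Real.log 2) * (0.12624 * (z + 2 * v + i * Real.log 2) + 0.7574) := by
    intro i
    have e : z + 2 * v + i * Real.log 2 = z + i * Real.log 2 + 2 * v := by ring
    rw [e]
    have := W_pos (k + 1) (z + i * Real.log 2)
    nlinarith
  have hnn : ∀ i : ℕ, 0 ≤ (W (k + 1) (z + i * Real.log 2) - W k (z + i * Real.log 2 + 2 * v)) *
      (0.12624 * (z + i * Real.log 2 + 2 * v) + 0.7574) := by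
    intro i
    have a := W_anti hk (show z + i * Real.log 2 ≤ z + i * Real.log 2 + 2 * v by linarith)
    have b := W_succ hk (hz i)
    have c := hz i
    apply mul_nonneg <;> linarith
  calc _ ≤ ∑ i ∈ T, (W (k + 1) (z + i * Real.log 2) * (0.12624 * (z + i * Real.log 2) + 0.7624496) -
        W k (z + 2 * v + i * Real.log 2) * (0.12624 * (z + 2 * v + i * Real.log 2) + 0.7574)) :=
        sum_le_sum fun i _ => hle i
    _ ≤ _ := (s1.sub s2).sum_le_tsum T (fun i _ => (hnn i).trans (hle i))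
    _ = _ := s1.tsum_sub s2
    _ ≤ _ := by linarith

/-- narrow windows, integers at least 5 -/
lemma narrow (hs : StShort) (hl : StLat) {k : ℕ} (hk : 25 ≤ k) {u v : ℝ} (h0 : 0 ≤ v)
    (hv : v ≤ 0.02) (S : Finset (ℕ × ℤ))
    (hS : ∀ z ∈ S, 5 ≤ z.1 ∧ |u - Real.log z.1 - z.2 * Real.log 2| ≤ v) :
    ∑ z ∈ S, |cw (k + 1) z.1 - cw k z.1| ≤
      1.44 * ((k : ℝ) + 1) ^ 3 * v + 360 * Real.exp (-(k : ℝ)) := by
  have l1 := Real.log_two_gt_d9
  have l2 := Real.log_two_lt_d9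
  have hl0 : 0 < Real.log 2 := by linarith
  set x := (u - v) / Real.log 2 with hx
  have hxl : x * Real.log 2 = u - v := by rw [hx]; field_simp
  set n0 : ℤ := ⌊x⌋ - 1 with hn0
  set z0 := u - v - n0 * Real.log 2 with hz0
  have f1 := Int.floor_le x
  have f2 := Int.lt_floor_add_one x
  have hz1 : Real.log 2 ≤ z0 := by
    rw [hz0, hn0, ← hxl]
    push_cast
    nlinarith
  have hz2 : z0 ≤ 2 * Real.log 2 := by
    rw [hz0, hn0, ← hxl]
    push_cast
    nlinarith
  have hn : ∀ z ∈ S, z.2 ≤ n0 := by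
    intro z hz
    obtain ⟨a, b⟩ := hS z hz
    have b' := (abs_le.1 b).1
    have c : Real.log 4 ≤ Real.log z.1 := by
      apply Real.log_le_log (by norm_num)
      have : (5 : ℝ) ≤ z.1 := by exact_mod_cast a
      linarith
    have d : Real.log 4 = 2 * Real.log 2 := by
      rw [show (4 : ℝ) = 2 ^ 2 by norm_num, Real.log_pow]
      norm_num
    have e : ((z.2 + 1 : ℤ) : ℝ) ≤ x := by
      push_cast
      by_contra hc
      push Not at hc
      nlinarith
    have := Int.le_floor.2 e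
    omega
  set idx : ℕ × ℤ → ℕ := fun z => (n0 - z.2).toNat with hidx
  have hi : ∀ z ∈ S, ((idx z : ℕ) : ℤ) = n0 - z.2 := by
    intro z hz
    have := hn z hz
    simp only [hidx]
    omega
  rw [← Finset.sum_fiberwise_of_maps_to (g := idx) (t := S.image idx)
    (fun z hz => mem_image_of_mem _ hz)]
  have hw : ∀ i ∈ S.image idx, ∑ z ∈ S with idx z = i, |cw (k + 1) z.1 - cw k z.1| ≤
      (W (k + 1) (z0 + i * Real.log 2) - W k (z0 + i * Real.log 2 + 2 * v)) *
        (0.12624 * (z0 + i * Real.log 2 + 2 * v) + 0.7574) * (2.0408 * v) +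
        60 * Real.exp (-(k : ℝ)) * Real.exp (-((z0 + i * Real.log 2) / 3)) := by
    intro i _
    have hinj : Set.InjOn Prod.fst ((S.filter fun z => idx z = i : Finset (ℕ × ℤ)) : Set (ℕ × ℤ)) := by
      intro z hz z' hz' h
      have h1 := mem_filter.1 (mem_coe.1 hz)
      have h2 := mem_filter.1 (mem_coe.1 hz')
      have a := hi z h1.1
      have b := hi z' h2.1
      rw [h1.2] at a
      rw [h2.2] at b
      exact Prod.ext h (by omega)
    rw [← Finset.sum_image (f := fun m => |cw (k + 1) m - cw k m|) hinj]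
    have zz : 0 ≤ z0 := by linarith
    apply window hs hk (add_nonneg zz (by positivity)) h0 hv
    intro m hm
    obtain ⟨z, hz, rfl⟩ := mem_image.1 hm
    have h1 := mem_filter.1 hz
    obtain ⟨a, b⟩ := hS z h1.1
    have c := hi z h1.1
    rw [h1.2] at c
    have d : (i : ℝ) = n0 - z.2 := by exact_mod_cast c
    have b' := abs_le.1 b
    have e : z0 + i * Real.log 2 = u - v - z.2 * Real.log 2 := by
      rw [hz0, d]
      ring
    rw [e]
    exact ⟨by omega, by linarith [b'.2], by linarith [b'.1]⟩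
  refine (sum_le_sum hw).trans ?_
  rw [sum_add_distrib, ← sum_mul, ← mul_sum]
  have a := lattice hl hk hz1 hz2 h0 hv (S.image idx)
  have b := geo z0 (by linarith) (S.image idx)
  have c := Real.exp_pos (-(k : ℝ))
  have d : 0 ≤ ((k : ℝ) + 1) ^ 3 * v := by positivity
  have a' := mul_le_mul_of_nonneg_right a (show 0 ≤ 2.0408 * v by positivity)
  have b' := mul_le_mul_of_nonneg_left b (show 0 ≤ 60 * Real.exp (-(k : ℝ)) by positivity)
  nlinarith

lemma exp_small (j : ℕ) : 363 * Real.exp (-((24 + j : ℕ) : ℝ)) ≤ 0.000001 / 2 ^ j := by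
  have e1 := Real.exp_one_gt_d9
  have h1 : (2.7 : ℝ) ^ 24 ≤ Real.exp 1 ^ 24 := by gcongr; linarith
  have h2 : (2 : ℝ) ^ j ≤ Real.exp 1 ^ j := by gcongr; linarith
  have h3 : Real.exp ((24 + j : ℕ) : ℝ) = Real.exp 1 ^ 24 * Real.exp 1 ^ j := by
    rw [← pow_add, Real.exp_one_pow]
  have h4 : (2.7 : ℝ) ^ 24 * 2 ^ j ≤ Real.exp ((24 + j : ℕ) : ℝ) := by
    rw [h3]
    gcongr
  have h5 : (0 : ℝ) < 2 ^ j := by positivity
  rw [Real.exp_neg, ← div_eq_mul_inv, div_le_div_iff₀ (Real.exp_pos _) h5]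
  norm_num at h4 ⊢
  nlinarith

end Winj

open Winj in
theorem winj (hs : StShort) (hm : StMassq) (hl : StLat) : StWinj := by
  intro j hj u v h0 hv S hS
  have hk : 25 ≤ 24 + j := by omega
  have hd : ∀ m, dd j m = cw (24 + j + 1) m - cw (24 + j) m := by
    intro m
    unfold dd
    rw [if_neg (by omega), show 24 + j + 1 = 25 + j by omega]
  simp only [hd]
  have hq : (25 + j : ℝ) = ((24 + j : ℕ) : ℝ) + 1 := by
    push_cast
    ring
  have hb := exp_small j
  rw [hq]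
  generalize 24 + j = k at hk hb
  have hE := Real.exp_pos (-(k : ℝ))
  have hq3 : 0 ≤ ((k : ℝ) + 1) ^ 3 * v := by positivity
  have hq4 : 0 ≤ ((k : ℝ) + 1) ^ 4 := by positivity
  rcases le_or_gt v 0.02 with hv2 | hv2
  · rw [← sum_filter_add_sum_filter_not S (fun z => 5 ≤ z.1)]
    have a := narrow hs hl hk (u := u) h0 hv2 (S.filter fun z => 5 ≤ z.1)
      (fun z hz => ⟨(mem_filter.1 hz).2, hS z (mem_filter.1 hz).1⟩)
    have b := three (fun m => |cw (k + 1) m - cw k m|) (fun m => abs_nonneg _) u v hv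
      (S.filter fun z => ¬ 5 ≤ z.1) (fun z hz => hS z (mem_filter.1 hz).1)
    have c : ∑ m ∈ (S.filter fun z => ¬ 5 ≤ z.1).image Prod.fst, |cw (k + 1) m - cw k m| ≤
        ∑ m ∈ range 5, |cw (k + 1) m - cw k m| := by
      apply sum_le_sum_of_subset_of_nonneg _ (fun _ _ _ => abs_nonneg _)
      intro m hm
      obtain ⟨z, hz, rfl⟩ := mem_image.1 hm
      have := (mem_filter.1 hz).2
      rw [mem_range]
      omega
    have d := small hk
    have e : 0 ≤ 3500 * ((k : ℝ) + 1) ^ 4 * v ^ 2 := by positivity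
    linarith
  · have b := three (fun m => |cw (k + 1) m - cw k m|) (fun m => abs_nonneg _) u v hv S hS
    obtain ⟨s1, s2⟩ := hm.1 (k + 1) (by omega)
    have c : ∑ m ∈ S.image Prod.fst, |cw (k + 1) m - cw k m| ≤ ∑' m, |cw (k + 1) m| :=
      (sum_le_sum fun m _ => abs_diff_le hk m).trans (s1.sum_le_tsum _ fun m _ => abs_nonneg _)
    push_cast at s2
    have e : 0.0004 ≤ v ^ 2 := by nlinarith
    have f : 3500 * ((k : ℝ) + 1) ^ 4 * 0.0004 ≤ 3500 * ((k : ℝ) + 1) ^ 4 * v ^ 2 := by gcongr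
    linarith

end

end Pool.Agent.Lib.MP_5db4ad_nt.S2
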