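import Pool.Agent.Lib.MP_5db4ad_nt.S2Defs2
import Pool.Agent.Lib.MP_5db4ad_nt.H96Gro

/-! Lower bounds for zeta near the frequencies. -/

namespace Pool.Agent.Lib.MP_5db4ad_nt.S2

open Finset H96Z
open scoped Real

namespace Z

lemma log_le_two {x y : ℝ} (hx : 0 < x) (hy : 0 ≤ y)
    (h : x ≤ (1 + y + y ^ 2 / 2 + y ^ 3 / 6 + y ^ 4 / 24) ^ 2) : Real.log x ≤ 2 * y := by
  have h0 : 0 < 1 + y + y ^ 2 / 2 + y ^ 3 / 6 + y ^ 4 / 24 := by positivity
  have h1 := log_le_of h0 hy le_rfl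
  have h2 := Real.log_le_log hx h
  rw [Real.log_pow] at h2
  push_cast at h2
  linarith

lemma log_le {x L : ℝ} (hx : 0 < x) (h : x ≤ 2 * π * Real.exp L) : Real.log (x / (2 * π)) ≤ L := by
  have hpi := Real.pi_pos
  rw [Real.log_le_iff_le_exp (by positivity), div_le_iff₀ (by positivity)]
  linarith

lemma zf_of {L t ξ η ν y I m : ℝ} (hL : 17 ≤ L) (ht : 15 / 2 ≤ t)
    (hT : t + 2 ≤ 2 * π * Real.exp L) (hm : m ≤ t - 1)
    (hX : ∀ τ, |τ - t| ≤ 3 / 2 → XX (1 + 1 / (3 * L)) τ ≤ ξ * L) (hξ : 0 ≤ ξ) (hm0 : 0 < m)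
    (hy0 : 0 ≤ y) (hD : 1 / 3 + η < 1 / (ξ + 0.27802))
    (hy : 1 / (ξ + 0.27802) / (1 / (ξ + 0.27802) - (1 / 3 + η)) ≤
      (1 + y + y ^ 2 / 2 + y ^ 3 / 6 + y ^ 4 / 24) ^ 2)
    (hν : 1 / (ξ + 0.27802) * (2 * y) ≤ ν) (hp : 0 ≤ ν + (1 / 3 + η))
    (hI : ν * (ξ + 0.032) + (ν - (1 / 3 + η)) / 2 + (ν + (1 / 3 + η)) * 3 / (m * 17) ≤ I) :
    ZF L t η I := by
  intro σ τ h1 h2 h3
  have hL0 : 0 < L := by linarith
  have hA : 0 < 1 / (ξ + 0.27802) := by positivity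
  have h4 := (zeta_grow (D₀ := 1 / 3 + η) (ν := ν) (τ := τ) (σ := σ) hL ht
    (log_le (by linarith) hT) hξ hX hD
    (le_trans (mul_le_mul_of_nonneg_left
      (log_le_two (div_pos hA (sub_pos.2 hD)) hy0 hy) hA.le) hν) h3 (by
      have : (1 / 3 + η) / L = 1 / (3 * L) + η / L := by field_simp
      linarith) h2).2
  refine (h4.trans (mul_le_mul_of_nonneg_left (Real.exp_le_exp.2 ?_) (norm_nonneg _))).trans_eq
    (mul_comm _ _)
  have h5 : (ν + (1 / 3 + η)) * 3 / ((t - 1) * L) ≤ (ν + (1 / 3 + η)) * 3 / (m * 17) :=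
    div_le_div_of_nonneg_left (by linarith) (by positivity)
      (mul_le_mul hm hL (by norm_num) (by linarith))
  linarith

lemma rank_fin {ι : Type} [Fintype ι] {L ξ κ : ℝ} {r : ℕ} (hr : Fintype.card ι = r) (hL : 17 ≤ L)
    (f : ι → ℝ) (hκ : κ ≤ 1) (hκ0 : 0 ≤ κ)
    (hf : ∀ i j, i ≠ j → -XX (1 + 1 / (3 * L)) (f i - f j) ≤ κ * L) (hξ : 0 ≤ ξ)
    (h : 3 * (3 + (r - 1) * κ) ≤ r * ξ ^ 2) : ∃ i, XX (1 + 1 / (3 * L)) (f i) ≤ ξ * L := by
  obtain ⟨i, hi⟩ := XX_rank' (a := 3) hL (f ∘ (Fintype.equivFinOfCardEq hr).symm) hκ hκ0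
    (fun i j hij => hf _ _ ((Equiv.injective _).ne hij)) hξ
    (sub_le_self _ (div_nonneg (by norm_num) (by linarith))) h
  exact ⟨_, hi⟩

/-- among `r` well spaced heights one is good -/
def Rank (L ξ : ℝ) (r : ℕ) : Prop := ∀ (T : Finset ℕ) (f : ℕ → ℝ), T.card = r →
  (∀ k ∈ T, 12 ≤ f k ∧ f k ≤ 2 * π * Real.exp L) →
  (∀ k ∈ T, ∀ k' ∈ T, k ≠ k' → 6 ≤ |f k - f k'|) → ∃ k ∈ T, XX (1 + 1 / (3 * L)) (f k) ≤ ξ * L

lemma rank_pos {L ξ : ℝ} {r : ℕ} (hL : 17 ≤ L) (hξ : 0 ≤ ξ)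
    (h : 3 * (3 + (r - 1) * 0.27778) ≤ r * ξ ^ 2) : Rank L ξ r := by
  intro T f hT h1 h2
  obtain ⟨s1, s2⟩ := s2_facts hL
  obtain ⟨i, hi⟩ := rank_fin (ι := T) (by simpa using hT) hL (fun i => f i) (by norm_num)
    (by norm_num) (fun i j hij => by
      have a1 := h2 i i.2 j j.2 fun e => hij (Subtype.ext e)
      have a2 := h1 i i.2
      have a3 := h1 j j.2
      refine XX_low hL s1 (by linarith) a1 (log_le (by linarith) (abs_le.2 ⟨?_, ?_⟩)) <;>
        linarith) hξ h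
  exact ⟨i, i.2, hi⟩

lemma low_two {L τ : ℝ} (hL : 17 ≤ L) (h1 : 6 ≤ |τ|) (h2 : |τ| ≤ 2 * (2 * π * Real.exp L)) :
    -XX (1 + 1 / (3 * L)) τ ≤ 0.2895 * L := by
  obtain ⟨s1, s2⟩ := s2_facts hL
  have a1 := Real.log_two_gt_d9
  have a2 := Real.log_two_lt_d9
  have a3 := XX_low (L := L + Real.log 2) (by linarith) s1 (by linarith) h1
    (log_le (by linarith) (by rw [Real.exp_add, Real.exp_log two_pos]; linarith))
  linarith

lemma rank_pm {L ξ : ℝ} {r : ℕ} (hL : 17 ≤ L) (hξ : 0 ≤ ξ)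
    (h : 3 * (3 + ((r + r : ℕ) - 1) * 0.2895) ≤ (r + r : ℕ) * ξ ^ 2) : Rank L ξ r := by
  intro T f hT h1 h2
  have hs : ∀ i j : T, i ≠ j → 6 ≤ |f i - f j| ∧ |f i - f j| ≤ 2 * (2 * π * Real.exp L) :=
    fun i j hij => by
      have a2 := h1 i i.2
      have a3 := h1 j j.2
      refine ⟨h2 i i.2 j j.2 fun e => hij (Subtype.ext e), abs_le.2 ⟨?_, ?_⟩⟩ <;> linarith
  have ha : ∀ i j : T, 6 ≤ |f i + f j| ∧ |f i + f j| ≤ 2 * (2 * π * Real.exp L) := fun i j => by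
    have a2 := h1 i i.2
    have a3 := h1 j j.2
    rw [abs_of_nonneg (by linarith)]
    constructor <;> linarith
  obtain ⟨i, hi⟩ := rank_fin (ι := T ⊕ T) (r := r + r) (by simp [hT]) hL
    (Sum.elim (fun i => f i) fun i => -f i) (by norm_num) (by norm_num) (by
      rintro (i | i) (j | j) hij
      · have a := hs i j fun e => hij (congrArg _ e)
        exact low_two hL a.1 a.2
      · have a := ha i j
        rw [← sub_neg_eq_add] at a
        exact low_two hL a.1 a.2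
      · have a := ha i j
        rw [← abs_neg, neg_add'] at a
        exact low_two hL a.1 a.2
      · have a := hs i j fun e => hij (congrArg _ e)
        rw [← abs_neg, neg_sub'] at a
        exact low_two hL a.1 a.2) hξ h
  rcases i with i | i
  · exact ⟨i, i.2, hi⟩
  · exact ⟨i, i.2, (XX_neg (s2_facts hL).1 _).symm.trans_le hi⟩

lemma step : 4.53 ≤ π / Real.log 2 := by
  have h1 := Real.log_two_lt_d9
  have h2 := Real.pi_gt_d2
  rw [le_div_iff₀ (Real.log_pos one_lt_two)]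
  linarith

lemma tk_ge {k : ℕ} (hk : 1 ≤ k) : 13.5 ≤ tk k := by
  have h1 : (1 : ℝ) ≤ k := by exact_mod_cast hk
  rw [tk, mul_div_assoc]
  nlinarith [step]

lemma tk_gap {k k' : ℕ} (h : k < k') : tk k + 9 ≤ tk k' := by
  have h1 : (k : ℝ) + 1 ≤ k' := by exact_mod_cast h
  rw [tk, tk, mul_div_assoc, mul_div_assoc]
  nlinarith [step]

lemma exists_B {L ξ : ℝ} {n : ℕ} (h : Rank L ξ (n + 1)) : ∃ B : Finset ℕ, B.card ≤ n ∧
    ∀ k, 1 ≤ k → tk k + 2 ≤ 2 * π * Real.exp L → k ∉ B →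
      ∀ τ, |τ - tk k| ≤ 3 / 2 → XX (1 + 1 / (3 * L)) τ ≤ ξ * L := by
  obtain ⟨A, hA⟩ : ∃ A : Set ℕ, ∀ k, k ∈ A ↔ 1 ≤ k ∧ tk k + 2 ≤ 2 * π * Real.exp L ∧
      ∃ τ, |τ - tk k| ≤ 3 / 2 ∧ ξ * L < XX (1 + 1 / (3 * L)) τ := ⟨{k | _}, fun _ => Iff.rfl⟩
  have key : ∀ T : Finset ℕ, (T : Set ℕ) ⊆ A → T.card ≠ n + 1 := fun T hT hc => by
    have h1 : ∀ k, ∃ τ, k ∈ T → |τ - tk k| ≤ 3 / 2 ∧ ξ * L < XX (1 + 1 / (3 * L)) τ := fun k => by
      by_cases hk : k ∈ T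
      · obtain ⟨τ, hτ⟩ := ((hA k).1 (hT hk)).2.2
        exact ⟨τ, fun _ => hτ⟩
      · exact ⟨0, fun h => absurd h hk⟩
    choose f hf using h1
    obtain ⟨k, hk, h2⟩ := h T f hc (fun k hk => by
      have a1 := abs_le.1 (hf k hk).1
      have a2 := (hA k).1 (hT hk)
      have a3 := tk_ge a2.1
      constructor <;> linarith [a2.2.1]) fun k hk k' hk' hne => by
      have a1 := abs_le.1 (hf k hk).1
      have a2 := abs_le.1 (hf k' hk').1
      rcases lt_or_gt_of_ne hne with h3 | h3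
      · exact le_abs.2 (Or.inr (by linarith [tk_gap h3]))
      · exact le_abs.2 (Or.inl (by linarith [tk_gap h3]))
    exact absurd h2 (not_le.2 (hf k hk).2)
  have hfin : A.Finite := by
    by_contra hinf
    obtain ⟨T, hT, hc⟩ := Set.Infinite.exists_subset_card_eq hinf (n + 1)
    exact key T hT hc
  refine ⟨hfin.toFinset, ?_, fun k h1 h2 hk τ hτ => ?_⟩
  · by_contra hc
    obtain ⟨T, hT, hc⟩ := Finset.exists_subset_card_eq (Nat.succ_le_of_lt (not_le.1 hc))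
    exact key T (fun k hk => hfin.mem_toFinset.1 (hT hk)) hc
  · by_contra hc
    exact hk (hfin.mem_toFinset.2 ((hA k).2 ⟨h1, h2, τ, hτ, not_le.1 hc⟩))

end Z

open Z in
theorem zall2 : StZall2 := by
  intro L t hL ht hT
  have hX : ∀ τ, |τ - t| ≤ 3 / 2 → XX (1 + 1 / (3 * L)) τ ≤ 2.0135 * L := fun τ hτ => by
    have h1 := abs_le.1 hτ
    have h2 : |τ| = τ := abs_of_pos (by linarith)
    exact XX_trig hL (by linarith) (log_le (by linarith) (by linarith))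
  exact ⟨zf_of (ν := 1.1) (y := 1.25) (m := 6.5) hL (by linarith) hT (by linarith) hX
      (by norm_num) (by norm_num) (by norm_num) (by norm_num) (by norm_num) (by norm_num)
      (by norm_num) (by norm_num),
    zf_of (ν := 0.64) (y := 0.73) (m := 6.5) hL (by linarith) hT (by linarith) hX
      (by norm_num) (by norm_num) (by norm_num) (by norm_num) (by norm_num) (by norm_num)
      (by norm_num) (by norm_num)⟩

open Z in
theorem zcls2 : StZcls2 := by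
  intro L hL
  obtain ⟨B1, c1, h1⟩ := exists_B (n := 1) (rank_pm (ξ := 1.7034) hL (by norm_num) (by norm_num))
  obtain ⟨B2, c2, h2⟩ := exists_B (n := 5) (rank_pm (ξ := 1.2435) hL (by norm_num) (by norm_num))
  obtain ⟨B3, c3, h3⟩ := exists_B (n := 199)
    (rank_pos (ξ := 0.9356) hL (by norm_num) (by norm_num))
  refine ⟨B1, B2, B3, c1, c2, c3, fun k hk hT => ?_⟩
  have ht := tk_ge hk
  exact ⟨fun h => zf_of (ν := 1.3) (y := 1.2875) (m := 12.5) hL (by linarith) hT (by linarith)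
      (h1 k hk hT h) (by norm_num) (by norm_num) (by norm_num) (by norm_num) (by norm_num)
      (by norm_num) (by norm_num) (by norm_num),
    fun h => zf_of (ν := 1.75) (y := 1.325) (m := 12.5) hL (by linarith) hT (by linarith)
      (h2 k hk hT h) (by norm_num) (by norm_num) (by norm_num) (by norm_num) (by norm_num)
      (by norm_num) (by norm_num) (by norm_num),
    fun h => zf_of (ν := 2.1) (y := 1.274) (m := 12.5) hL (by linarith) hT (by linarith)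
      (h3 k hk hT h) (by norm_num) (by norm_num) (by norm_num) (by norm_num) (by norm_num)
      (by norm_num) (by norm_num) (by norm_num)⟩

end Pool.Agent.Lib.MP_5db4ad_nt.S2
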