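import Pool.Agent.Lib.MP_5db4ad_nt.S2Conv
import Pool.Agent.Lib.MP_5db4ad_nt.S2Eps
import Pool.Agent.Lib.MP_5db4ad_nt.S2Maj
import Pool.Agent.Lib.MP_5db4ad_nt.S2Short
import Pool.Agent.Lib.MP_5db4ad_nt.S2Lat
import Pool.Agent.Lib.MP_5db4ad_nt.S2Win0
import Pool.Agent.Lib.MP_5db4ad_nt.S2Winj
import Pool.Agent.Lib.MP_5db4ad_nt.S2Ker0
import Pool.Agent.Lib.MP_5db4ad_nt.S2Ker1
import Pool.Agent.Lib.MP_5db4ad_nt.S2KerSq
import Pool.Agent.Lib.MP_5db4ad_nt.S2Dir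
import Pool.Agent.Lib.MP_5db4ad_nt.S2M
import Pool.Agent.Lib.MP_5db4ad_nt.S2Kap
import Pool.Agent.Lib.MP_5db4ad_nt.S2Mel
import Pool.Agent.Lib.MP_5db4ad_nt.S2Cont
import Pool.Agent.Lib.MP_5db4ad_nt.S2E0
import Pool.Agent.Lib.MP_5db4ad_nt.S2E2
import Pool.Agent.Lib.MP_5db4ad_nt.S2Taub1
import Pool.Agent.Lib.MP_5db4ad_nt.S2Taub
import Pool.Agent.Lib.MP_5db4ad_nt.S2Sharp
import Pool.Agent.Lib.MP_5db4ad_nt.S2Sq
import Pool.Agent.Lib.MP_5db4ad_nt.S2Gam2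
import Pool.Agent.Lib.MP_5db4ad_nt.S2Final
import Pool.Agent.Lib.MP_5db4ad_nt.S2Num2
import Pool.Agent.Lib.MP_5db4ad_nt.S2Z

/-!
The analytic part: a bound for the explicit function `Psi` bounds the upper limit.
-/

namespace Pool.Agent.Lib.MP_5db4ad_nt.S2

open Filter

theorem taubAll : StTaub :=
  taub (taub1 kapp (mel kapp) rect dir (mass maj) gm zall2) (short maj) (mass maj)

theorem anaAll : StAna :=
  have hc : StCont := cont kapp (mel kapp) rect dir (mass maj)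
  have hq : StMassq := massq (mass maj)
  have hE : StE2 := ebound2 zall2 zcls2 gm hc
  ana (sharp taubAll hq)
    (sqb (kerSq ker0 ker1) kf (win0 count (short maj) hq lat) (winj (short maj) hq lat) hq hE
      (e0 hc))
    (gamb2 (kerGam ker0 ker1) kf hq hE (e0 hc)) hq

theorem finalAll {c : ℝ} (h : StNum2 c) : StFinal ((c + 3 * 0.00458) * 1.00055) :=
  final conv eps taubAll (massq (mass maj)) anaAll (num2 h)

theorem limsup_le {c d : ℝ} (h : StNum2 c) (hd : (c + 3 * 0.00458) * 1.00055 < d) :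
    limsup (fun x : ℝ => ENNReal.ofReal
      (|∑ n ∈ Finset.Icc 1 ⌊x⌋₊, (-2 : ℝ) ^ ArithmeticFunction.cardFactors n| / x)) atTop ≤
      ENNReal.ofReal d := by
  refine limsup_le_of_le (h := ?_)
  filter_upwards [finalAll h _ (sub_pos.2 hd)] with x hx
  refine ENNReal.ofReal_le_ofReal ?_
  unfold SS at hx
  linarith

end Pool.Agent.Lib.MP_5db4ad_nt.S2
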